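import Pool.Agent.H27.KAC.KQBasic

/-!
KAC module KQDer: the derivations `dD a l`, logarithmic derivatives `dlg`.

All statements are elementary.  `dD a l` multiplies the coefficient of `Y^β` by `-(Cβ)_l`, and
`β ↦ (Cβ)_l` is additive, so `dD a l` is a derivation (product rule by
`MvPowerSeries.coeff_mul` and `Finset.sum` over the antidiagonal).
-/

namespace Pool.Agent.H27.KAC

open scoped BigOperators
open MvPowerSeries

variable {I : Type} [Fintype I] [DecidableEq I]

theorem coeff_dD (a : I → I → ℕ) (l : I) (F : MvPowerSeries I ℚ) (β : I →₀ ℕ) :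
    coeff β (dD a l F) = (-(cw a β l : ℤ) : ℚ) * coeff β F := rfl

theorem dD_add (a : I → I → ℕ) (l : I) (F G : MvPowerSeries I ℚ) :
    dD a l (F + G) = dD a l F + dD a l G := by
  ext β
  rw [map_add, coeff_dD, coeff_dD, coeff_dD, map_add, mul_add]

theorem dD_sub (a : I → I → ℕ) (l : I) (F G : MvPowerSeries I ℚ) :
    dD a l (F - G) = dD a l F - dD a l G := by
  ext β
  rw [map_sub, coeff_dD, coeff_dD, coeff_dD, map_sub, mul_sub]

theorem dD_mul (a : I → I → ℕ) (l : I) (F G : MvPowerSeries I ℚ) :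
    dD a l (F * G) = dD a l F * G + F * dD a l G := by
  ext β
  rw [map_add, coeff_dD, coeff_mul, coeff_mul, coeff_mul, Finset.mul_sum,
    ← Finset.sum_add_distrib]
  refine Finset.sum_congr rfl fun p hp => ?_
  rw [coeff_dD, coeff_dD]
  have h : p.1 + p.2 = β := Finset.HasAntidiagonal.mem_antidiagonal.1 hp
  rw [← h, cw_add]
  push_cast
  ring

theorem dD_one (a : I → I → ℕ) (l : I) : dD a l 1 = 0 := by
  have h := dD_mul a l 1 1
  rw [mul_one, mul_one, one_mul] at h
  exact left_eq_add.1 h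

theorem dD_pow (a : I → I → ℕ) (l : I) (F : MvPowerSeries I ℚ) (n : ℕ) :
    dD a l (F ^ (n + 1)) = ((n + 1 : ℕ) : MvPowerSeries I ℚ) * F ^ n * dD a l F := by
  induction n with
  | zero => simp
  | succ n ih =>
    rw [pow_succ F (n + 1), dD_mul, ih]
    push_cast
    ring

/-- `D_l (Y_i^n) = -n C_{li} Y_i^n`. -/
theorem dD_X_pow (a : I → I → ℕ) (l i : I) (n : ℕ) :
    dD a l ((X i : MvPowerSeries I ℚ) ^ n) =
      C (-((n : ℚ) * (cart a l i : ℤ))) * (X i : MvPowerSeries I ℚ) ^ n := by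
  ext β
  rw [coeff_dD, coeff_C_mul, coeff_X_pow]
  split_ifs with h
  · subst h
    have : cw a (Finsupp.single i n) l = cart a l i * (n : ℤ) := by
      unfold cw
      rw [Finset.sum_eq_single i]
      · simp
      · intro j _ hj
        rw [Finsupp.single_eq_of_ne hj]
        simp
      · intro h
        exact absurd (Finset.mem_univ i) h
    rw [this]
    push_cast
    ring
  · simp

theorem dlg_one (a : I → I → ℕ) (l : I) : dlg a 1 l = 0 := by
  unfold dlg
  rw [Units.val_one, dD_one, zero_mul]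

theorem dlg_mul (a : I → I → ℕ) (u v : (MvPowerSeries I ℚ)ˣ) (l : I) :
    dlg a (u * v) l = dlg a u l + dlg a v l := by
  unfold dlg
  rw [Units.val_mul, dD_mul, mul_inv_rev, Units.val_mul]
  have hu : (u : MvPowerSeries I ℚ) * ((u⁻¹ : (MvPowerSeries I ℚ)ˣ) : MvPowerSeries I ℚ) = 1 :=
    Units.mul_inv u
  have hv : (v : MvPowerSeries I ℚ) * ((v⁻¹ : (MvPowerSeries I ℚ)ˣ) : MvPowerSeries I ℚ) = 1 :=
    Units.mul_inv v
  linear_combination (dD a l (u : MvPowerSeries I ℚ) * ((u⁻¹ : (MvPowerSeries I ℚ)ˣ) : MvPowerSeries I ℚ)) * hv +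
    (dD a l (v : MvPowerSeries I ℚ) * ((v⁻¹ : (MvPowerSeries I ℚ)ˣ) : MvPowerSeries I ℚ)) * hu

theorem dlg_inv (a : I → I → ℕ) (u : (MvPowerSeries I ℚ)ˣ) (l : I) :
    dlg a u⁻¹ l = - dlg a u l := by
  have h := dlg_mul a u u⁻¹ l
  rw [mul_inv_cancel, dlg_one] at h
  exact (neg_eq_of_add_eq_zero_right h.symm).symm

theorem KQDer_dlg_pow (a : I → I → ℕ) (u : (MvPowerSeries I ℚ)ˣ) (n : ℕ) (l : I) :
    dlg a (u ^ n) l = (n : MvPowerSeries I ℚ) * dlg a u l := by
  induction n with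
  | zero => rw [pow_zero, dlg_one, Nat.cast_zero, zero_mul]
  | succ n ih =>
    rw [pow_succ, dlg_mul, ih]
    push_cast
    ring

theorem dlg_zpow (a : I → I → ℕ) (u : (MvPowerSeries I ℚ)ˣ) (n : ℤ) (l : I) :
    dlg a (u ^ n) l = (n : MvPowerSeries I ℚ) * dlg a u l := by
  cases n with
  | ofNat n =>
    rw [Int.ofNat_eq_natCast, zpow_natCast, KQDer_dlg_pow, Int.cast_natCast]
  | negSucc n =>
    rw [zpow_negSucc, dlg_inv, KQDer_dlg_pow]
    push_cast
    ring

theorem dlg_prod {ι : Type} (a : I → I → ℕ) (s : Finset ι) (u : ι → (MvPowerSeries I ℚ)ˣ) (l : I) :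
    dlg a (∏ j ∈ s, u j) l = ∑ j ∈ s, dlg a (u j) l := by
  classical
  induction s using Finset.induction_on with
  | empty => simp [dlg_one]
  | insert j s hj ih => rw [Finset.prod_insert hj, Finset.sum_insert hj, dlg_mul, ih]

/-- `D_l F = F * dlg F`. -/
theorem dD_eq_dlg (a : I → I → ℕ) (u : (MvPowerSeries I ℚ)ˣ) (l : I) :
    dD a l (u : MvPowerSeries I ℚ) = (u : MvPowerSeries I ℚ) * dlg a u l := by
  unfold dlg
  have hu : (u : MvPowerSeries I ℚ) * ((u⁻¹ : (MvPowerSeries I ℚ)ˣ) : MvPowerSeries I ℚ) = 1 :=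
    Units.mul_inv u
  linear_combination (-(dD a l (u : MvPowerSeries I ℚ))) * hu

theorem xv_zero (a : I → I → ℕ) (i l : I) : xv a i 0 l = 0 := by
  unfold xv
  have h : uu a i 0 = 1 := by
    apply Units.ext
    rw [uu_coe, uS_zero, Units.val_one]
  rw [h, dlg_one]
  simp

theorem xv_one (a : I → I → ℕ) (i l : I) : xv a i 1 l = if i = l then 1 else 0 := by
  unfold xv
  have h : uu a i 1 = 1 := by
    apply Units.ext
    rw [uu_coe, uS_one, Units.val_one]
  rw [h, dlg_one]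
  simp

/-- `uu` satisfies the Q-system as elements of the ring. -/
theorem uu_rec (a : I → I → ℕ) (i : I) (k : ℕ) :
    (uu a i (k + 2) : MvPowerSeries I ℚ) * (uu a i k : MvPowerSeries I ℚ) =
      (uu a i (k + 1) : MvPowerSeries I ℚ) ^ 2 - (X i) ^ (k + 1) *
        ∏ j, (uu a j (k + 1) : MvPowerSeries I ℚ) ^ (a i j) := by
  simp only [uu_coe]
  exact uS_rec a i k

end Pool.Agent.H27.KAC
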