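import Pool.Agent.H27.KAC.KQDer

/-!
KAC module KQFil: the filtration `Fil a x r` (all monomials `Y^β` occurring satisfy `(Cβ)_x ≤ r`).
`β ↦ (Cβ)_x` is additive, so everything is elementary; for the inverse of a unit `u ∈ Fil 0`
with constant coefficient 1 use strong induction on the total degree of `β` in the recursion
`coeff β (u⁻¹) = - ∑_{(β1,β2), β2 ≠ β} coeff β1 u * coeff β2 u⁻¹`.
-/

namespace Pool.Agent.H27.KAC

open scoped BigOperators
open MvPowerSeries

variable {I : Type} [Fintype I] [DecidableEq I]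

theorem Fil.mono {a : I → I → ℕ} {x : I} {r s : ℤ} {F : MvPowerSeries I ℚ} (h : Fil a x r F)
    (hrs : r ≤ s) : Fil a x s F := fun β hβ => (h β hβ).trans hrs

theorem Fil_zero (a : I → I → ℕ) (x : I) (r : ℤ) : Fil a x r 0 := by
  intro β hβ
  exact absurd (coeff β).map_zero hβ

theorem Fil_C (a : I → I → ℕ) (x : I) (q : ℚ) : Fil a x 0 (C q : MvPowerSeries I ℚ) := by
  classical
  intro β hβ
  rw [coeff_C] at hβ
  split_ifs at hβ with h
  · rw [h, cw_zero]
  · exact absurd rfl hβ

theorem Fil_one (a : I → I → ℕ) (x : I) : Fil a x 0 (1 : MvPowerSeries I ℚ) := by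
  have h := Fil_C a x 1
  rwa [map_one] at h

theorem Fil_natCast (a : I → I → ℕ) (x : I) (n : ℕ) : Fil a x 0 (n : MvPowerSeries I ℚ) := by
  have h := Fil_C a x n
  rwa [map_natCast] at h

theorem Fil_intCast (a : I → I → ℕ) (x : I) (n : ℤ) : Fil a x 0 (n : MvPowerSeries I ℚ) := by
  have h := Fil_C a x n
  rwa [map_intCast] at h

theorem Fil.add {a : I → I → ℕ} {x : I} {r : ℤ} {F G : MvPowerSeries I ℚ} (h : Fil a x r F)
    (h' : Fil a x r G) : Fil a x r (F + G) := by
  intro β hβ
  rw [map_add] at hβ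
  by_cases hF : coeff β F = 0
  · refine h' β fun hG => hβ ?_
    rw [hF, hG, add_zero]
  · exact h β hF

theorem Fil.neg {a : I → I → ℕ} {x : I} {r : ℤ} {F : MvPowerSeries I ℚ} (h : Fil a x r F) :
    Fil a x r (-F) := by
  intro β hβ
  rw [map_neg] at hβ
  exact h β fun h0 => hβ (by rw [h0, neg_zero])

theorem Fil.sub {a : I → I → ℕ} {x : I} {r : ℤ} {F G : MvPowerSeries I ℚ} (h : Fil a x r F)
    (h' : Fil a x r G) : Fil a x r (F - G) := by
  rw [sub_eq_add_neg]
  exact h.add h'.neg

theorem Fil.mul {a : I → I → ℕ} {x : I} {r s : ℤ} {F G : MvPowerSeries I ℚ} (h : Fil a x r F)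
    (h' : Fil a x s G) : Fil a x (r + s) (F * G) := by
  classical
  intro β hβ
  rw [coeff_mul] at hβ
  obtain ⟨p, hp, hne⟩ := Finset.exists_ne_zero_of_sum_ne_zero hβ
  have h1 := h p.1 (left_ne_zero_of_mul hne)
  have h2 := h' p.2 (right_ne_zero_of_mul hne)
  rw [← Finset.HasAntidiagonal.mem_antidiagonal.1 hp, cw_add]
  exact add_le_add h1 h2

theorem Fil.pow {a : I → I → ℕ} {x : I} {r : ℤ} {F : MvPowerSeries I ℚ} (h : Fil a x r F) (n : ℕ) :
    Fil a x (n * r) (F ^ n) := by
  induction n with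
  | zero =>
    rw [pow_zero, Nat.cast_zero, zero_mul]
    exact Fil_one a x
  | succ n ih =>
    rw [pow_succ]
    refine (ih.mul h).mono (le_of_eq ?_)
    push_cast
    ring

theorem Fil.sum {ι : Type} {a : I → I → ℕ} {x : I} {r : ℤ} {s : Finset ι}
    {F : ι → MvPowerSeries I ℚ} (h : ∀ j ∈ s, Fil a x r (F j)) : Fil a x r (∑ j ∈ s, F j) := by
  classical
  induction s using Finset.induction_on with
  | empty =>
    rw [Finset.sum_empty]
    exact Fil_zero a x r
  | insert j s hj ih =>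
    rw [Finset.sum_insert hj]
    exact (h j (Finset.mem_insert_self j s)).add
      (ih fun i hi => h i (Finset.mem_insert_of_mem hi))

theorem Fil.prod {ι : Type} {a : I → I → ℕ} {x : I} {r : ι → ℤ} {s : Finset ι}
    {F : ι → MvPowerSeries I ℚ} (h : ∀ j ∈ s, Fil a x (r j) (F j)) :
    Fil a x (∑ j ∈ s, r j) (∏ j ∈ s, F j) := by
  classical
  induction s using Finset.induction_on with
  | empty =>
    rw [Finset.sum_empty, Finset.prod_empty]
    exact Fil_one a x
  | insert j s hj ih =>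
    rw [Finset.sum_insert hj, Finset.prod_insert hj]
    exact (h j (Finset.mem_insert_self j s)).mul
      (ih fun i hi => h i (Finset.mem_insert_of_mem hi))

theorem Fil_X_pow (a : I → I → ℕ) (x i : I) (n : ℕ) :
    Fil a x (n * cart a x i) ((X i : MvPowerSeries I ℚ) ^ n) := by
  classical
  intro β hβ
  rw [coeff_X_pow] at hβ
  split_ifs at hβ with h
  · rw [h]
    refine le_of_eq ?_
    unfold cw
    rw [Finset.sum_eq_single i]
    · rw [Finsupp.single_eq_same, mul_comm]
    · intro j _ hj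
      rw [Finsupp.single_eq_of_ne hj]
      simp
    · intro hi
      exact absurd (Finset.mem_univ i) hi
  · exact absurd rfl hβ

theorem Fil_inv {a : I → I → ℕ} {x : I} {u : (MvPowerSeries I ℚ)ˣ}
    (h : Fil a x 0 (u : MvPowerSeries I ℚ)) (h1 : constantCoeff (u : MvPowerSeries I ℚ) = 1) :
    Fil a x 0 ((u⁻¹ : (MvPowerSeries I ℚ)ˣ) : MvPowerSeries I ℚ) := by
  classical
  have hmul : (u : MvPowerSeries I ℚ) * ((u⁻¹ : (MvPowerSeries I ℚ)ˣ) : MvPowerSeries I ℚ) = 1 :=
    u.mul_inv
  have key : ∀ n : ℕ, ∀ β : I →₀ ℕ, (∑ j, β j) = n →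
      coeff β ((u⁻¹ : (MvPowerSeries I ℚ)ˣ) : MvPowerSeries I ℚ) ≠ 0 → cw a β x ≤ 0 := by
    intro n
    induction n using Nat.strong_induction_on with
    | _ n ih =>
      intro β hβn hβ
      by_cases hβ0 : β = 0
      · rw [hβ0, cw_zero]
      · have h2 : coeff β ((u : MvPowerSeries I ℚ) *
            ((u⁻¹ : (MvPowerSeries I ℚ)ˣ) : MvPowerSeries I ℚ)) = 0 := by
          rw [hmul, coeff_one, if_neg hβ0]
        rw [coeff_mul] at h2
        have hmem : ((0 : I →₀ ℕ), β) ∈ Finset.HasAntidiagonal.antidiagonal β := by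
          rw [Finset.HasAntidiagonal.mem_antidiagonal]
          exact zero_add β
        rw [← Finset.add_sum_erase _ _ hmem] at h2
        have h3 : coeff (0 : I →₀ ℕ) (u : MvPowerSeries I ℚ) = 1 := by
          rw [← h1]
          rfl
        simp only at h2
        rw [h3, one_mul] at h2
        have h4 : (∑ p ∈ (Finset.HasAntidiagonal.antidiagonal β).erase ((0 : I →₀ ℕ), β),
            coeff p.1 (u : MvPowerSeries I ℚ) *
              coeff p.2 ((u⁻¹ : (MvPowerSeries I ℚ)ˣ) : MvPowerSeries I ℚ)) ≠ 0 := by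
          intro h5
          rw [h5, add_zero] at h2
          exact hβ h2
        obtain ⟨p, hp, hne⟩ := Finset.exists_ne_zero_of_sum_ne_zero h4
        rw [Finset.mem_erase, Finset.HasAntidiagonal.mem_antidiagonal] at hp
        have h6 := h p.1 (left_ne_zero_of_mul hne)
        have h7 : (∑ j, p.2 j) < n := by
          rw [← hβn, ← hp.2]
          have h8 : ∑ j, (p.1 + p.2) j = ∑ j, p.1 j + ∑ j, p.2 j := by
            rw [← Finset.sum_add_distrib]
            rfl
          rw [h8]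
          have h9 : 0 < ∑ j, p.1 j := by
            rw [Nat.pos_iff_ne_zero]
            intro h10
            apply hp.1
            have h11 : p.1 = 0 := by
              ext j
              exact Finset.sum_eq_zero_iff.1 h10 j (Finset.mem_univ j)
            have h12 : p.2 = β := by
              rw [← hp.2, h11, zero_add]
            exact Prod.ext h11 h12
          omega
        have h8 := ih _ h7 p.2 rfl (right_ne_zero_of_mul hne)
        rw [← hp.2, cw_add]
        omega
  exact fun β hβ => key _ β rfl hβ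

theorem Fil_zpow {a : I → I → ℕ} {x : I} {u : (MvPowerSeries I ℚ)ˣ}
    (h : Fil a x 0 (u : MvPowerSeries I ℚ)) (h1 : constantCoeff (u : MvPowerSeries I ℚ) = 1)
    (n : ℤ) : Fil a x 0 ((u ^ n : (MvPowerSeries I ℚ)ˣ) : MvPowerSeries I ℚ) := by
  obtain ⟨m, hm | hm⟩ := n.eq_nat_or_neg
  · rw [hm, zpow_natCast, Units.val_pow_eq_pow_val]
    exact (h.pow m).mono (by simp)
  · rw [hm, zpow_neg, zpow_natCast, ← inv_pow, Units.val_pow_eq_pow_val]
    exact ((Fil_inv h h1).pow m).mono (by simp)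

theorem Fil_dD {a : I → I → ℕ} {x : I} {r : ℤ} {F : MvPowerSeries I ℚ} (h : Fil a x r F) (l : I) :
    Fil a x r (dD a l F) := by
  intro β hβ
  rw [coeff_dD] at hβ
  exact h β (right_ne_zero_of_mul hβ)

/-- `r F + D_x F` has no monomials with `(Cβ)_x = r`. -/
theorem Fil_dD_gain {a : I → I → ℕ} {x : I} {r : ℤ} {F : MvPowerSeries I ℚ} (h : Fil a x r F) :
    Fil a x (r - 1) ((r : MvPowerSeries I ℚ) * F + dD a x F) := by
  intro β hβ
  have h1 : coeff β ((r : MvPowerSeries I ℚ) * F + dD a x F) =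
      ((r : ℚ) - (cw a β x : ℤ)) * coeff β F := by
    have h2 : (r : MvPowerSeries I ℚ) = C (r : ℚ) :=
      (map_intCast (C : ℚ →+* MvPowerSeries I ℚ) r).symm
    rw [map_add, coeff_dD, h2, coeff_C_mul]
    ring
  rw [h1] at hβ
  have h3 := h β (right_ne_zero_of_mul hβ)
  have h4 : cw a β x ≠ r := by
    intro h5
    apply left_ne_zero_of_mul hβ
    rw [h5, sub_self]
  omega

theorem Fil.coeff_eq_zero {a : I → I → ℕ} {x : I} {r : ℤ} {F : MvPowerSeries I ℚ}
    (h : Fil a x r F) {γ : I →₀ ℕ} (hγ : r < cw a γ x) : coeff γ F = 0 := by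
  by_contra h0
  exact absurd (h γ h0) (not_le.2 hγ)

/-- For a vertex with loops every power series is in `Fil 0`. -/
theorem Fil_loop {a : I → I → ℕ} {x : I} (hx : 2 ≤ a x x) (F : MvPowerSeries I ℚ) :
    Fil a x 0 F := by
  intro β _
  unfold cw
  refine Finset.sum_nonpos fun j _ => ?_
  refine mul_nonpos_of_nonpos_of_nonneg ?_ (Int.natCast_nonneg _)
  unfold cart
  split_ifs with h
  · rw [← h]
    omega
  · omega

theorem VReg.add {a : I → I → ℕ} {x : I} {r : ℤ} {v w : I → MvPowerSeries I ℚ}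
    (h : VReg a x r v) (h' : VReg a x r w) : VReg a x r (fun l => v l + w l) :=
  ⟨fun l hl => (h.1 l hl).add (h'.1 l hl), h.2.add h'.2⟩

theorem VReg.smul {a : I → I → ℕ} {x : I} {r s : ℤ} {F : MvPowerSeries I ℚ}
    {v : I → MvPowerSeries I ℚ} (h : Fil a x s F) (h' : VReg a x r v) :
    VReg a x (s + r) (fun l => F * v l) :=
  ⟨fun l hl => h.mul (h'.1 l hl), (h.mul h'.2).mono (by omega)⟩

theorem VReg.sum {ι : Type} {a : I → I → ℕ} {x : I} {r : ℤ} {s : Finset ι}
    {v : ι → I → MvPowerSeries I ℚ} (h : ∀ j ∈ s, VReg a x r (v j)) :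
    VReg a x r (fun l => ∑ j ∈ s, v j l) :=
  ⟨fun l hl => Fil.sum fun j hj => (h j hj).1 l hl, Fil.sum fun j hj => (h j hj).2⟩

theorem VReg.mono {a : I → I → ℕ} {x : I} {r s : ℤ} {v : I → MvPowerSeries I ℚ}
    (h : VReg a x r v) (hrs : r ≤ s) : VReg a x s v :=
  ⟨fun l hl => (h.1 l hl).mono hrs, h.2.mono (by omega)⟩

/-- determinant of regular columns: row `x` gains one. -/
theorem det_reg {a : I → I → ℕ} {x : I} {r : I → ℤ} {c : I → I → MvPowerSeries I ℚ}
    (h : ∀ i, VReg a x (r i) (c i)) : Fil a x ((∑ i, r i) - 1) (colMat c).det := by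
  rw [Matrix.det_apply']
  refine Fil.sum fun σ _ => ?_
  have h1 : Fil a x ((∑ i, r i) - 1) (∏ i, colMat c (σ i) i) := by
    have h2 : Fil a x (∑ i, (r i - if σ i = x then 1 else 0)) (∏ i, colMat c (σ i) i) := by
      refine Fil.prod fun i _ => ?_
      show Fil a x (r i - if σ i = x then 1 else 0) (c i (σ i))
      split_ifs with hi
      · rw [hi]
        exact (h i).2
      · rw [sub_zero]
        exact (h i).1 _ hi
    refine h2.mono (le_of_eq ?_)
    rw [Finset.sum_sub_distrib]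
    congr 1
    have h3 : ∀ i, (if σ i = x then (1 : ℤ) else 0) = if i = σ.symm x then 1 else 0 := by
      intro i
      congr 1
      exact propext ⟨fun h4 => by rw [← h4, Equiv.symm_apply_apply], fun h4 => by
        rw [h4, Equiv.apply_symm_apply]⟩
    rw [Finset.sum_congr rfl fun i _ => h3 i, Finset.sum_ite_eq' Finset.univ (σ.symm x),
      if_pos (Finset.mem_univ _)]
  have h5 := (Fil_intCast a x (((Equiv.Perm.sign σ : ℤˣ) : ℤ))).mul h1
  exact h5.mono (by omega)

end Pool.Agent.H27.KAC
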