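import Pool.Agent.H27.KAC.Defs

/-!
Project KAC: definitions used by the statements of `Interface.lean`.
-/

namespace Pool.Agent.H27.KAC

open scoped BigOperators
open Polynomial

/-- Euler derivation `X_j d/dX_j` on power series. -/
noncomputable def eul {I R : Type} [CommRing R] (j : I) (F : MvPowerSeries I R) :
    MvPowerSeries I R :=
  fun d => (d j : R) * MvPowerSeries.coeff d F

/-- The power series `∑ d_i d_j f_d X^d`, i.e. `θ_i θ_j V`, where `V = ∑ f_d X^d`. -/
noncomputable def wSer {I : Type} (f : (I → ℕ) → ℚ) (i j : I) : MvPowerSeries I ℚ :=
  fun d => (d i : ℚ) * (d j : ℚ) * f (fun l => d l)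

/-- Total degree of an exponent. -/
def tdeg {I : Type} [Fintype I] (d : I →₀ ℕ) : ℕ := ∑ i, d i

/-- Kac polynomial at one (rational number; the polynomial exists by `kacPoly_exists`). -/
noncomputable def kacOne {I E : Type} (Q : Quiv I E) (α : I → ℕ) : ℚ := by
  classical
  exact if h : ∃ p : ℚ[X], IsKacPoly Q α p then (Classical.choose h).eval 1 else 0

/-- The quiver `Q` with one more vertex `none`, carrying one loop and one arrow to `i0`. -/
def extQ {I E : Type} (Q : Quiv I E) (i0 : I) : Quiv (Option I) (Option (Option E)) where
  src := fun e => match e with
    | none => none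
    | some none => none
    | some (some e) => some (Q.src e)
  tgt := fun e => match e with
    | none => none
    | some none => some i0
    | some (some e) => some (Q.tgt e)

/-- dimension vector extended by zero. -/
def extDim {I : Type} (α : I → ℕ) : Option I → ℕ := fun o => match o with
  | none => 0
  | some i => α i

end Pool.Agent.H27.KAC
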