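import Pool.Agent.H27.KAC.PII_HuaK

/-!
Project KAC, part II.3: the limit `q → 1` of the logarithm.
-/

set_option autoImplicit false

namespace Pool.Agent.H27.KAC

open scoped BigOperators
open Polynomial

variable {I : Type} [Fintype I]

/-- `LK_β * (q^(β_i) - 1)` as a power series in `ε = q - 1`. -/
noncomputable def hQ (p : (I → ℕ) → ℚ[X]) (i : I) (β : I →₀ ℕ) : PowerSeries ℚ :=
  ∑ N ∈ (Finset.range (∑ i, β i + 1)).filter (fun N => 1 ≤ N ∧ ∀ i, N ∣ β i),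
    PowerSeries.C ((N : ℚ)⁻¹) *
      (aeval ((1 + PowerSeries.X : PowerSeries ℚ) ^ N) (p (fun i => β i / N)) *
        ∑ t ∈ Finset.range (β i / N), (1 + PowerSeries.X : PowerSeries ℚ) ^ (N * t))

theorem Lim_ιQ_var : ιQ (1 + PowerSeries.X) = qK := rfl

theorem Lim_ιQ_aeval (P : ℚ[X]) (f : PowerSeries ℚ) : ιQ (aeval f P) = aeval (ιQ f) P := by
  unfold ιQ
  rw [aeval_algebraMap_apply]

theorem Lim_ιQ_C (r : ℚ) : ιQ (PowerSeries.C r) = algebraMap ℚ KK r := by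
  unfold ιQ
  rw [IsScalarTower.algebraMap_apply ℚ (PowerSeries ℚ) KK]
  rfl

/-- `q^(β_i) - 1 = (q^N - 1) ∑_(t < β_i / N) q^(N t)`. -/
theorem LK_mul (p : (I → ℕ) → ℚ[X]) (i : I) (β : I →₀ ℕ) :
    LK p β * (qK ^ (β i) - 1) = ιQ (hQ p i β) := by
  unfold LK hQ
  rw [Finset.sum_mul, map_sum]
  refine Finset.sum_congr rfl fun N hN => ?_
  rw [Finset.mem_filter] at hN
  have hN1 : 1 ≤ N := hN.2.1
  have hdvd : N ∣ β i := hN.2.2 i
  rw [map_mul, map_mul, Lim_ιQ_C, Lim_ιQ_aeval, map_sum, map_pow, Lim_ιQ_var]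
  have h1 : ∀ t, ιQ ((1 + PowerSeries.X : PowerSeries ℚ) ^ (N * t)) = (qK ^ N) ^ t := by
    intro t
    rw [map_pow, Lim_ιQ_var, pow_mul]
  simp only [h1]
  have h2 : qK ^ (β i) - 1 = (∑ t ∈ Finset.range (β i / N), (qK ^ N) ^ t) * (qK ^ N - 1) := by
    rw [geom_sum_mul, ← pow_mul, Nat.mul_div_cancel' hdvd]
  have h3 : qK ^ N - 1 ≠ 0 := by
    have h4 := qK_pow_ne (N - 1)
    rw [Nat.sub_add_cancel hN1] at h4
    exact sub_ne_zero.2 h4
  have : CharZero KK := algebraRat.charZero KK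
  have h5 : (N : KK) ≠ 0 := Nat.cast_ne_zero.2 (by omega)
  rw [h2, map_inv₀, map_natCast]
  field_simp

theorem constantCoeff_hQ (p : (I → ℕ) → ℚ[X]) (i : I) (β : I →₀ ℕ) :
    PowerSeries.constantCoeff (hQ p i β) = (β i : ℚ) * fOf (fun α => (p α).eval 1) (fun l => β l) := by
  unfold hQ fOf
  rw [map_sum, Finset.mul_sum]
  refine Finset.sum_congr rfl fun N hN => ?_
  rw [Finset.mem_filter] at hN
  have hN1 : 1 ≤ N := hN.2.1
  have hdvd : N ∣ β i := hN.2.2 i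
  have h1 : PowerSeries.constantCoeff (1 + PowerSeries.X : PowerSeries ℚ) = 1 := by simp
  have h2 : PowerSeries.constantCoeff (aeval ((1 + PowerSeries.X : PowerSeries ℚ) ^ N)
      (p (fun i => β i / N))) = (p (fun i => β i / N)).eval 1 := by
    rw [aeval_def, hom_eval₂, map_pow, h1, one_pow]
    have h3 : (PowerSeries.constantCoeff (R := ℚ)).comp (algebraMap ℚ (PowerSeries ℚ)) =
        RingHom.id ℚ := RingHom.ext_rat _ _
    rw [h3, eval₂_id]
  rw [map_mul, map_mul, PowerSeries.constantCoeff_C, h2, map_sum]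
  simp only [map_pow, h1, one_pow, Finset.sum_const, Finset.card_range, nsmul_eq_mul, mul_one]
  have h5 : (N : ℚ) ≠ 0 := Nat.cast_ne_zero.2 (by omega)
  rw [Nat.cast_div hdvd h5]
  field_simp

end Pool.Agent.H27.KAC
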