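import Pool.Agent.H27.KAC.PII_QT
import Pool.Agent.H27.KAC.PII_Lim

/-!
Project KAC, part II.3: the Q-system at `q = 1`.
-/

set_option autoImplicit false

namespace Pool.Agent.H27.KAC

open scoped BigOperators
open Polynomial

variable {I E : Type} [Fintype I] [DecidableEq I] [Fintype E]

/-- The setup for a quiver: `R = ℤ⟦ε⟧`, `K = KK`, `S = ℤ`, `u = 1 + ε`. -/
noncomputable def kacSetup (Q : Quiv I E) : Setup I (PowerSeries ℤ) KK ℤ where
  A := adj Q
  symm := adj_symm Q
  even := adj_even Q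
  ι := ιZ
  inj := ιZ_inj
  ev := PowerSeries.constantCoeff
  u := Classical.choose exists_unit
  evu := by
    rw [Classical.choose_spec exists_unit]
    simp
  ne := by
    intro j
    rw [Classical.choose_spec exists_unit]
    have h : ιZ (1 + PowerSeries.X) = qK := by simp [ιZ, ιQ, qK]
    rw [h]
    exact qK_pow_ne j

theorem kacSetup_q (Q : Quiv I E) : (kacSetup Q).q = qK := by
  show ιZ (Classical.choose exists_unit : (PowerSeries ℤ)ˣ).1 = qK
  rw [Classical.choose_spec exists_unit]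
  simp [ιZ, ιQ, qK]

/-- The series `∑_β β_j hQ_β X^β`. -/
noncomputable def Main_H (p : (I → ℕ) → ℚ[X]) (i j : I) : MvPowerSeries I (PowerSeries ℚ) :=
  fun β => (β j : PowerSeries ℚ) * hQ p i β

omit [DecidableEq I] in
theorem Main_coeff_H (p : (I → ℕ) → ℚ[X]) (i j : I) (β : I →₀ ℕ) :
    MvPowerSeries.coeff β (Main_H p i j) = (β j : PowerSeries ℚ) * hQ p i β := rfl

omit [DecidableEq I] in
theorem Main_map_H (p : (I → ℕ) → ℚ[X]) (i j : I) :
    pscl qK i (LKser p j) - LKser p j = MvPowerSeries.map ιQ (Main_H p i j) := by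
  ext β
  rw [map_sub, coeff_pscl, coeff_LKser, MvPowerSeries.coeff_map, Main_coeff_H, map_mul,
    map_natCast, ← LK_mul]
  ring

omit [DecidableEq I] in
theorem Main_const_H (p : (I → ℕ) → ℚ[X]) (i j : I) :
    MvPowerSeries.map PowerSeries.constantCoeff (Main_H p i j) =
      wSer (fOf (fun α => (p α).eval 1)) i j := by
  ext β
  rw [MvPowerSeries.coeff_map, Main_coeff_H, map_mul, map_natCast, constantCoeff_hQ]
  show _ = (β i : ℚ) * (β j : ℚ) * fOf (fun α => (p α).eval 1) (fun l => β l)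
  ring

theorem Main_F_size (Q : Quiv I E) (i : I) :
    (kacSetup Q).F (sizev i) = pscl qK i (Fs qK (adj Q) 0) := by
  ext α
  rw [coeff_pscl]
  show MvPowerSeries.coeff α (Fs (kacSetup Q).q (adj Q) (sizev i)) = _
  rw [kacSetup_q]
  exact coeff_Fs_size qK (adj Q) i α

theorem Main_F_zero (Q : Quiv I E) : (kacSetup Q).F 0 = Fs qK (adj Q) 0 := by
  show Fs (kacSetup Q).q (adj Q) 0 = _
  rw [kacSetup_q]

/-- Let `G = (kacSetup Q).G 0 (sizev i)`, `P = Fs qK (adj Q) 0`.  `map ιZ G = pscl qK i P * P⁻¹`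
(`Setup.map_G`, `coeff_Fs_size`), so by `hua_K` and `eul_quot`
`eul j (map ιZ G) = map ιZ G * (β ↦ β_j LK_β (q^(β_i) - 1))`, and by `LK_mul` the last factor is
`map ιQ H`, `H = (β ↦ β_j hQ β)`.  By the injectivity of `ιQ` this is the identity
`eul j G' = G' * H`, `G' = map (PowerSeries.map (Int.castRingHom ℚ)) G`, of power series over
`PowerSeries ℚ`; apply `map constantCoeff` (`constantCoeff_hQ`). -/
theorem eul_Tinf (Q : Quiv I E) {p : (I → ℕ) → ℚ[X]} (hp : ∀ α, IsKacPoly Q α (p α)) (i j : I) :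
    eul j (MvPowerSeries.map (Int.castRingHom ℚ) ((kacSetup Q).Tinf i)) =
      MvPowerSeries.map (Int.castRingHom ℚ) ((kacSetup Q).Tinf i) *
        wSer (fOf (fun α => (p α).eval 1)) i j := by
  have h1 : MvPowerSeries.map ιZ ((kacSetup Q).G 0 (sizev i)) =
      pscl qK i (Fs qK (adj Q) 0) * (Fs qK (adj Q) 0)⁻¹ := by
    rw [← Main_F_size, ← Main_F_zero]
    exact (kacSetup Q).map_G 0 (sizev i)
  have h2 : Fs qK (adj Q) 0 * (Fs qK (adj Q) 0)⁻¹ = 1 := by
    rw [← Main_F_zero]
    exact (kacSetup Q).F_mul_inv 0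
  have h3 := eul_quot qK i j (hua_K Q hp j) h2
  rw [← h1, Main_map_H] at h3
  set G := (kacSetup Q).G 0 (sizev i) with hG
  have h4 : MvPowerSeries.map ιZ G =
      MvPowerSeries.map ιQ (MvPowerSeries.map (PowerSeries.map (Int.castRingHom ℚ)) G) := by
    ext β
    rw [MvPowerSeries.coeff_map, MvPowerSeries.coeff_map, MvPowerSeries.coeff_map]
    rfl
  rw [h4, ← eul_map, ← map_mul] at h3
  have h5 : eul j (MvPowerSeries.map (PowerSeries.map (Int.castRingHom ℚ)) G) =
      MvPowerSeries.map (PowerSeries.map (Int.castRingHom ℚ)) G * Main_H p i j := by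
    ext1 β
    have h6 := congrArg (MvPowerSeries.coeff β) h3
    rw [MvPowerSeries.coeff_map, MvPowerSeries.coeff_map] at h6
    exact ιQ_inj h6
  have h7 := congrArg (MvPowerSeries.map PowerSeries.constantCoeff) h5
  rw [eul_map, map_mul, Main_const_H] at h7
  have h8 : MvPowerSeries.map PowerSeries.constantCoeff
      (MvPowerSeries.map (PowerSeries.map (Int.castRingHom ℚ)) G) =
      MvPowerSeries.map (Int.castRingHom ℚ) ((kacSetup Q).Tinf i) := by
    ext β
    rw [MvPowerSeries.coeff_map, MvPowerSeries.coeff_map, MvPowerSeries.coeff_map]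
    show _ = (Int.castRingHom ℚ) (MvPowerSeries.coeff β (MvPowerSeries.map
      PowerSeries.constantCoeff G))
    rw [MvPowerSeries.coeff_map, ← PowerSeries.coeff_zero_eq_constantCoeff_apply,
      PowerSeries.coeff_map, PowerSeries.coeff_zero_eq_constantCoeff_apply]
  rw [h8] at h7
  exact h7

theorem qsys_of_poly (Q : Quiv I E) {p : (I → ℕ) → ℚ[X]} (hp : ∀ α, IsKacPoly Q α (p α)) :
    ∃ (T : I → ℕ → MvPowerSeries I ℤ) (G : I → MvPowerSeries I ℤ),
      (∀ i, T i 0 = 1) ∧
      (∀ i k, MvPowerSeries.constantCoeff (T i k) = 1) ∧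
      (∀ i k, (T i (k + 1)) ^ 2 = T i k * T i (k + 2) +
        (MvPowerSeries.X i) ^ (k + 1) * ∏ j, (T j (k + 1)) ^ (adj Q i j)) ∧
      (∀ i k (d : I →₀ ℕ), tdeg d ≤ k →
        MvPowerSeries.coeff d (T i k) = MvPowerSeries.coeff d (G i)) ∧
      (∀ i j, eul j (MvPowerSeries.map (Int.castRingHom ℚ) (G i)) =
        MvPowerSeries.map (Int.castRingHom ℚ) (G i) *
          wSer (fOf (fun α => (p α).eval 1)) i j) :=
  ⟨fun i k => (kacSetup Q).T i k, fun i => (kacSetup Q).Tinf i, fun i => (kacSetup Q).T_zero i,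
    fun i k => (kacSetup Q).T_const i k, fun i k => (kacSetup Q).T_rel i k,
    fun i k d hd => (kacSetup Q).T_inf i k d hd, fun i j => eul_Tinf Q hp i j⟩

/-- Stated with an assumption on `g` in order to be independent of the definition of `kacOne`. -/
theorem qsys_of_kacOne (Q : Quiv I E) (hex : ∀ α, ∃ p : ℚ[X], IsKacPoly Q α p) :
    ∃ (T : I → ℕ → MvPowerSeries I ℤ) (G : I → MvPowerSeries I ℤ),
      (∀ i, T i 0 = 1) ∧
      (∀ i k, MvPowerSeries.constantCoeff (T i k) = 1) ∧
      (∀ i k, (T i (k + 1)) ^ 2 = T i k * T i (k + 2) +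
        (MvPowerSeries.X i) ^ (k + 1) * ∏ j, (T j (k + 1)) ^ (adj Q i j)) ∧
      (∀ i k (d : I →₀ ℕ), tdeg d ≤ k →
        MvPowerSeries.coeff d (T i k) = MvPowerSeries.coeff d (G i)) ∧
      (∀ i j, eul j (MvPowerSeries.map (Int.castRingHom ℚ) (G i)) =
        MvPowerSeries.map (Int.castRingHom ℚ) (G i) * wSer (fOf (kacOne Q)) i j) := by
  have h : (fun α => (Classical.choose (hex α)).eval 1) = kacOne Q := by
    funext α
    unfold kacOne
    rw [dif_pos (hex α)]
  have h1 := qsys_of_poly Q (p := fun α => Classical.choose (hex α))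
    fun α => Classical.choose_spec (hex α)
  rw [h] at h1
  exact h1

end Pool.Agent.H27.KAC
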