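import Pool.Agent.H27.KAC.PR_Out
import Pool.Agent.H27.KAC.PII_Main

/-!
Project KAC: output of parts I and II (statements used by all later parts): `kacPoly_exists`, `kacPoly_unique`,
`kac_reflect`, `kac_reflect_neg`, `kac_simple_one`, `kac_simple_ge_two`, `kac_disconnected` are in `PR_Out`.
-/

namespace Pool.Agent.H27.KAC

open scoped BigOperators
open Polynomial

variable {I E : Type} [Fintype I] [DecidableEq I] [Fintype E]

/-- (II.3) the Q-system at `q = 1`. -/
theorem qsys_main (Q : Quiv I E) :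
    ∃ (T : I → ℕ → MvPowerSeries I ℤ) (G : I → MvPowerSeries I ℤ),
      (∀ i, T i 0 = 1) ∧
      (∀ i k, MvPowerSeries.constantCoeff (T i k) = 1) ∧
      (∀ i k, (T i (k + 1)) ^ 2 = T i k * T i (k + 2) +
        (MvPowerSeries.X i) ^ (k + 1) * ∏ j, (T j (k + 1)) ^ (adj Q i j)) ∧
      (∀ i k (d : I →₀ ℕ), tdeg d ≤ k →
        MvPowerSeries.coeff d (T i k) = MvPowerSeries.coeff d (G i)) ∧
      (∀ i j, eul j (MvPowerSeries.map (Int.castRingHom ℚ) (G i)) =
        MvPowerSeries.map (Int.castRingHom ℚ) (G i) * wSer (fOf (kacOne Q)) i j) :=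
  qsys_of_kacOne Q (kacPoly_exists Q)

end Pool.Agent.H27.KAC
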