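import Pool.Agent.H27.KAC.KJ3

/-!
KAC module KJ4: the top formula.

* `top_val`: `coeff α F = coeff α (φ F * ∏ w_i^(-α_i) * det (jacM w))` (`residue`) for
  `F = ∏ U_{i,K+1}^(-s_i) U_{iK}^(s_i) * det(columns)`, `s_i = -(Cα)_i`.
  `∏_i w_i^(-α_i) = ∏_j T_{j1}^((Cα)_j)`; `φ(∏ U ..) = ∏ T_{i,K+1}^(-s_i) T_{iK}^(s_i) T_{i1}^(s_i)`, so all the
  powers of `T_{j1}` cancel.  `det (jacM w) = det (1 - C Λ) = det (1 - Λ C)`
  (`Matrix.det_one_sub_mul_comm` or `det_one_add_mul_comm`).  The determinant of `F` (transposed) has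
  rows `x_{i,K+1} - h_i x_{iK}`, so after multiplication by `1 - Λ C` (`sub_xv`):
  `(K+1) - Λ^{(K+1)} C - diag(h) (K - Λ^{(K)} C)`.  Modulo total degree `> K` (an ideal; `tdeg α ≤ K`)
  `T_{i,K+1}`, `T_{iK}` and `G_i` agree, `θ_j G_i / G_i = wSer f i j`.
* `top_poly`: the coefficient of the determinant of
  `(1 + ε K μ_i) δ_{il} - ε μ_i (W C)_{il}` is a polynomial in `ε`; constant term `coeff α 1 = 0`; the
  derivative at `0` is the coefficient of the trace:
  `- ∑_i μ_i ∑_j α_i α_j f(α) C_{ji} = f(α) ∑_i μ_i α_i s_i`.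
-/

namespace Pool.Agent.H27.KAC

open scoped BigOperators
open MvPowerSeries

variable {I : Type} [Fintype I] [DecidableEq I]

/-- Power series without monomials of total degree at most `K`. -/
def KJ4I (I : Type) [Fintype I] (K : ℕ) : Ideal (MvPowerSeries I ℚ) where
  carrier := {F | ∀ d : I →₀ ℕ, tdeg d ≤ K → coeff d F = 0}
  add_mem' := by
    intro F G hF hG d hd
    rw [map_add, hF d hd, hG d hd, add_zero]
  zero_mem' := fun d _ => by rw [map_zero]
  smul_mem' := by
    classical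
    intro F G hG d hd
    rw [smul_eq_mul, MvPowerSeries.coeff_mul]
    refine Finset.sum_eq_zero fun p hp => ?_
    have h1 : p.1 + p.2 = d := Finset.HasAntidiagonal.mem_antidiagonal.1 hp
    have h2 : tdeg p.2 ≤ K := by
      refine le_trans ?_ hd
      unfold tdeg
      refine Finset.sum_le_sum fun i _ => ?_
      rw [← h1, Finsupp.add_apply]
      omega
    rw [hG p.2 h2, mul_zero]

theorem KJ4_mk_eq {I : Type} [Fintype I] {K : ℕ} {F G : MvPowerSeries I ℚ} :
    Ideal.Quotient.mk (KJ4I I K) F = Ideal.Quotient.mk (KJ4I I K) G ↔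
      ∀ d : I →₀ ℕ, tdeg d ≤ K → coeff d F = coeff d G := by
  rw [Ideal.Quotient.eq]
  constructor
  · intro h d hd
    have h1 := h d hd
    rw [map_sub] at h1
    exact sub_eq_zero.1 h1
  · intro h d hd
    rw [map_sub, h d hd, sub_self]

theorem KJ4_mk_eul {K : ℕ} {F G : MvPowerSeries I ℚ}
    (h : Ideal.Quotient.mk (KJ4I I K) F = Ideal.Quotient.mk (KJ4I I K) G) (j : I) :
    Ideal.Quotient.mk (KJ4I I K) (eul j F) = Ideal.Quotient.mk (KJ4I I K) (eul j G) := by
  rw [KJ4_mk_eq] at h ⊢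
  intro d hd
  rw [coeff_eul, coeff_eul, h d hd]

theorem KJ4_tU_coe (T : I → ℕ → MvPowerSeries I ℚ) (hT : ∀ i k, constantCoeff (T i k) = 1) (i : I)
    (k : ℕ) : ((tU T hT i k : (MvPowerSeries I ℚ)ˣ) : MvPowerSeries I ℚ) = T i k := rfl

/-- `Λ` modulo high total degree. -/
theorem KJ4_lam (f : (I → ℕ) → ℚ) {K k : ℕ} (T : I → ℕ → MvPowerSeries I ℚ)
    (G : I → MvPowerSeries I ℚ) (hT : ∀ i k, constantCoeff (T i k) = 1)
    (hTG : ∀ i, Ideal.Quotient.mk (KJ4I I K) (T i k) = Ideal.Quotient.mk (KJ4I I K) (G i))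
    (hG : ∀ i j, eul j (G i) = G i * wSer f i j) (i j : I) :
    Ideal.Quotient.mk (KJ4I I K) (lamT T hT k i j) =
      Ideal.Quotient.mk (KJ4I I K) (wSer f i j) := by
  have h1 : lamT T hT k i j = eul j (T i k) *
    (((tU T hT i k)⁻¹ : (MvPowerSeries I ℚ)ˣ) : MvPowerSeries I ℚ) := rfl
  have h2 : Ideal.Quotient.mk (KJ4I I K) (T i k) * Ideal.Quotient.mk (KJ4I I K)
      (((tU T hT i k)⁻¹ : (MvPowerSeries I ℚ)ˣ) : MvPowerSeries I ℚ) = 1 := by
    rw [← map_mul, ← KJ4_tU_coe T hT i k, Units.mul_inv, map_one]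
  rw [h1, map_mul, KJ4_mk_eul (hTG i) j, hG, map_mul, ← hTG i]
  linear_combination (Ideal.Quotient.mk (KJ4I I K) (wSer f i j)) * h2

theorem KJ4_prod_zpow {ι A : Type} [CommGroup A] (s : Finset ι) (x : A) (g : ι → ℤ) :
    ∏ i ∈ s, x ^ (g i) = x ^ (∑ i ∈ s, g i) := by
  classical
  induction s using Finset.induction_on with
  | empty => simp
  | insert i s hi ih => rw [Finset.prod_insert hi, Finset.sum_insert hi, ih, zpow_add]

/-- the image of the product of the powers of the `U`'s. -/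
theorem KJ4_units (a : I → I → ℕ) (hs : ∀ i j, a i j = a j i) (T : I → ℕ → MvPowerSeries I ℚ)
    (hT0 : ∀ i, T i 0 = 1) (hT : ∀ i k, constantCoeff (T i k) = 1)
    (hrec : ∀ i k, (T i (k + 1)) ^ 2 = T i k * T i (k + 2) +
      (X i) ^ (k + 1) * ∏ j, (T j (k + 1)) ^ (a i j))
    (φ : MvPowerSeries I ℚ →+* MvPowerSeries I ℚ) (h : IsSub (wT a T hT) φ) (α : I →₀ ℕ) (K : ℕ) :
    φ (((∏ i, ((uu a i (K + 1)) ^ (-(-cw a α i)) * (uu a i K) ^ (-cw a α i)) :
      (MvPowerSeries I ℚ)ˣ) : MvPowerSeries I ℚ)) *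
      (((∏ i, (wT a T hT i) ^ (-(α i : ℤ))) : (MvPowerSeries I ℚ)ˣ) : MvPowerSeries I ℚ) =
    (((∏ i, ((tU T hT i (K + 1)) ^ (-(-cw a α i)) * (tU T hT i K) ^ (-cw a α i))) :
      (MvPowerSeries I ℚ)ˣ) : MvPowerSeries I ℚ) := by
  have hU : ∀ i k, Units.map (φ : MvPowerSeries I ℚ →* MvPowerSeries I ℚ) (uu a i k) =
      tU T hT i k * (tU T hT i 1) ^ (-(k : ℤ)) := by
    intro i k
    apply Units.ext
    exact sub_U a T hT0 hT hrec φ h i k
  have h1 : φ (((∏ i, ((uu a i (K + 1)) ^ (-(-cw a α i)) * (uu a i K) ^ (-cw a α i)) :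
      (MvPowerSeries I ℚ)ˣ) : MvPowerSeries I ℚ)) =
      ((Units.map (φ : MvPowerSeries I ℚ →* MvPowerSeries I ℚ)
        (∏ i, ((uu a i (K + 1)) ^ (-(-cw a α i)) * (uu a i K) ^ (-cw a α i))) :
        (MvPowerSeries I ℚ)ˣ) : MvPowerSeries I ℚ) := rfl
  rw [h1, ← Units.val_mul]
  congr 1
  rw [map_prod]
  have h2 : ∀ i, (wT a T hT i) ^ (-(α i : ℤ)) = ∏ j, (tU T hT j 1) ^ ((cart a j i) * (α i : ℤ)) := by
    intro i
    unfold wT
    rw [← Finset.prod_zpow]
    refine Finset.prod_congr rfl fun j _ => ?_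
    rw [← zpow_mul]
    congr 1
    have h3 : cart a i j = cart a j i := by
      unfold cart
      rw [hs i j]
      simp only [eq_comm]
    rw [h3]
    ring
  have h4 : ∏ i, (wT a T hT i) ^ (-(α i : ℤ)) = ∏ j, (tU T hT j 1) ^ (cw a α j) := by
    rw [Finset.prod_congr rfl fun i _ => h2 i, Finset.prod_comm]
    refine Finset.prod_congr rfl fun j _ => ?_
    unfold cw
    rw [KJ4_prod_zpow]
  rw [h4, ← Finset.prod_mul_distrib]
  refine Finset.prod_congr rfl fun i _ => ?_
  rw [map_mul, map_zpow, map_zpow, hU, hU, mul_zpow, mul_zpow, ← zpow_mul, ← zpow_mul]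
  have h5 : tU T hT i 1 ^ (-((K + 1 : ℕ) : ℤ) * -(-cw a α i)) *
      tU T hT i 1 ^ (-(K : ℤ) * -cw a α i) * tU T hT i 1 ^ cw a α i = 1 := by
    rw [← zpow_add, ← zpow_add]
    have : -((K + 1 : ℕ) : ℤ) * -(-cw a α i) + -(K : ℤ) * -cw a α i + cw a α i = 0 := by
      push_cast
      ring
    rw [this, zpow_zero]
  calc tU T hT i (K + 1) ^ (-(-cw a α i)) * tU T hT i 1 ^ (-((K + 1 : ℕ) : ℤ) * -(-cw a α i)) *
        (tU T hT i K ^ (-cw a α i) * tU T hT i 1 ^ (-(K : ℤ) * -cw a α i)) *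
        tU T hT i 1 ^ cw a α i
      = tU T hT i (K + 1) ^ (-(-cw a α i)) * tU T hT i K ^ (-cw a α i) *
        (tU T hT i 1 ^ (-((K + 1 : ℕ) : ℤ) * -(-cw a α i)) *
          tU T hT i 1 ^ (-(K : ℤ) * -cw a α i) * tU T hT i 1 ^ cw a α i) := by
        simp only [mul_assoc, mul_left_comm, mul_comm]
    _ = _ := by rw [h5, mul_one]

/-- the units `T_{i,K+1}` and `T_{iK}` agree modulo high total degree. -/
theorem KJ4_one {K : ℕ} (T : I → ℕ → MvPowerSeries I ℚ) (hT : ∀ i k, constantCoeff (T i k) = 1)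
    (hTT : ∀ i, Ideal.Quotient.mk (KJ4I I K) (T i (K + 1)) =
      Ideal.Quotient.mk (KJ4I I K) (T i K)) (s : I → ℤ) :
    Ideal.Quotient.mk (KJ4I I K)
      (((∏ i, ((tU T hT i (K + 1)) ^ (-(s i)) * (tU T hT i K) ^ (s i))) :
        (MvPowerSeries I ℚ)ˣ) : MvPowerSeries I ℚ) = 1 := by
  have h1 : ∀ i, Units.map (Ideal.Quotient.mk (KJ4I I K) : MvPowerSeries I ℚ →*
      MvPowerSeries I ℚ ⧸ KJ4I I K) (tU T hT i (K + 1)) =
      Units.map (Ideal.Quotient.mk (KJ4I I K) : MvPowerSeries I ℚ →*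
        MvPowerSeries I ℚ ⧸ KJ4I I K) (tU T hT i K) := by
    intro i
    apply Units.ext
    exact hTT i
  have h2 : Units.map (Ideal.Quotient.mk (KJ4I I K) : MvPowerSeries I ℚ →*
      MvPowerSeries I ℚ ⧸ KJ4I I K)
      (∏ i, ((tU T hT i (K + 1)) ^ (-(s i)) * (tU T hT i K) ^ (s i))) = 1 := by
    rw [map_prod]
    refine Finset.prod_eq_one fun i _ => ?_
    rw [map_mul, map_zpow, map_zpow, h1 i, ← zpow_add, neg_add_cancel, zpow_zero]
  exact congrArg Units.val h2

theorem top_val (a : I → I → ℕ) (hs : ∀ i j, a i j = a j i) (f : (I → ℕ) → ℚ)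
    (hK : KacData a f) (α : I →₀ ℕ) (K : ℕ) (hα : tdeg α ≤ K) (h : I → ℚ) :
    Val a α ⟨fun _ => K + 1, fun i => -cw a α i, fun i => -cw a α i,
      fun l i => if l = i then h i else 0⟩ =
    coeff α (Matrix.of (fun i l : I =>
      (if i = l then C ((K : ℚ) + 1 - K * h i) else (0 : MvPowerSeries I ℚ)) -
        C (1 - h i) * ∑ j, wSer f i j * C ((cart a j l : ℤ) : ℚ))).det := by
  obtain ⟨T, G, hT0, hT, hrec, hTG, hG⟩ := hK
  obtain ⟨φ, hφ⟩ := exists_sub (wT a T hT)
  have hg1 : ∀ i, Ideal.Quotient.mk (KJ4I I K) (T i (K + 1)) =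
      Ideal.Quotient.mk (KJ4I I K) (G i) := fun i =>
    KJ4_mk_eq.2 fun d hd => hTG i (K + 1) d (by omega)
  have hg0 : ∀ i, Ideal.Quotient.mk (KJ4I I K) (T i K) =
      Ideal.Quotient.mk (KJ4I I K) (G i) := fun i =>
    KJ4_mk_eq.2 fun d hd => hTG i K d hd
  set σ : Sta I := ⟨fun _ => K + 1, fun i => -cw a α i, fun i => -cw a α i,
      fun l i => if l = i then h i else 0⟩ with hσ
  have hval : Val a α σ = coeff α (facS a σ * (colMat (colS a σ)).det) := rfl
  rw [hval, residue hφ]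
  refine KJ4_mk_eq.1 ?_ α hα
  -- the power factors
  have hfac : φ (facS a σ) *
      (((∏ i, (wT a T hT i) ^ (-(α i : ℤ))) : (MvPowerSeries I ℚ)ˣ) : MvPowerSeries I ℚ) =
      (((∏ i, ((tU T hT i (K + 1)) ^ (-(-cw a α i)) * (tU T hT i K) ^ (-cw a α i))) :
      (MvPowerSeries I ℚ)ˣ) : MvPowerSeries I ℚ) :=
    KJ4_units a hs T hT0 hT hrec φ hφ α K
  -- the determinant
  have hcol : ∀ i l, colS a σ i l = xv a i (K + 1) l - C (h i) * xv a i K l := by
    intro i l
    have h1 : colS a σ i l = xv a i (K + 1) l -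
        ∑ l', C (if l' = i then h i else 0) * xv a l' K l := rfl
    rw [h1, Finset.sum_eq_single i]
    · rw [if_pos rfl]
    · intro l' _ hl'
      rw [if_neg hl', map_zero, zero_mul]
    · intro hi
      exact absurd (Finset.mem_univ i) hi
  have hN : (φ.mapMatrix (colMat (colS a σ))).transpose =
      Matrix.of (fun i l => φ (xv a i (K + 1) l)) -
        Matrix.diagonal (fun i => (C (h i) : MvPowerSeries I ℚ)) *
          Matrix.of (fun i l => φ (xv a i K l)) := by
    ext1 i l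
    rw [Matrix.sub_apply, Matrix.diagonal_mul]
    show φ (colS a σ i l) = φ (xv a i (K + 1) l) - C (h i) * φ (xv a i K l)
    rw [hcol, map_sub, map_mul, hφ.map_C]
  have hdet : φ (colMat (colS a σ)).det * (jacM (wT a T hT)).det =
      (((K + 1 : ℕ) : Matrix I I (MvPowerSeries I ℚ)) - lamT T hT (K + 1) * carM a -
        Matrix.diagonal (fun i => (C (h i) : MvPowerSeries I ℚ)) *
          ((K : Matrix I I (MvPowerSeries I ℚ)) - lamT T hT K * carM a)).det := by
    rw [RingHom.map_det, ← Matrix.det_transpose, hN, jacM_wT, Matrix.det_one_sub_mul_comm,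
      ← Matrix.det_mul, sub_mul, Matrix.mul_assoc,
      sub_xv a hs T hT0 hT hrec φ hφ (K + 1), sub_xv a hs T hT0 hT hrec φ hφ K]
  have hE : φ (facS a σ * (colMat (colS a σ)).det) *
      (((∏ i, (wT a T hT i) ^ (-(α i : ℤ))) : (MvPowerSeries I ℚ)ˣ) : MvPowerSeries I ℚ) *
        (jacM (wT a T hT)).det =
      (((∏ i, ((tU T hT i (K + 1)) ^ (-(-cw a α i)) * (tU T hT i K) ^ (-cw a α i))) :
      (MvPowerSeries I ℚ)ˣ) : MvPowerSeries I ℚ) *
      (((K + 1 : ℕ) : Matrix I I (MvPowerSeries I ℚ)) - lamT T hT (K + 1) * carM a -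
        Matrix.diagonal (fun i => (C (h i) : MvPowerSeries I ℚ)) *
          ((K : Matrix I I (MvPowerSeries I ℚ)) - lamT T hT K * carM a)).det := by
    rw [map_mul, ← hfac, ← hdet]
    ring
  rw [hE, map_mul, KJ4_one T hT (fun i => (hg1 i).trans (hg0 i).symm) (fun i => -cw a α i),
    one_mul, RingHom.map_det, RingHom.map_det]
  congr 1
  ext1 i l
  have hL1 : ∀ j, Ideal.Quotient.mk (KJ4I I K) (lamT T hT (K + 1) i j) =
      Ideal.Quotient.mk (KJ4I I K) (wSer f i j) := fun j => KJ4_lam f T G hT hg1 hG i j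
  have hL0 : ∀ j, Ideal.Quotient.mk (KJ4I I K) (lamT T hT K i j) =
      Ideal.Quotient.mk (KJ4I I K) (wSer f i j) := fun j => KJ4_lam f T G hT hg0 hG i j
  have hS1 : Ideal.Quotient.mk (KJ4I I K) ((lamT T hT (K + 1) * carM a) i l) =
      Ideal.Quotient.mk (KJ4I I K) (∑ j, wSer f i j * C ((cart a j l : ℤ) : ℚ)) := by
    rw [Matrix.mul_apply, map_sum, map_sum]
    refine Finset.sum_congr rfl fun j _ => ?_
    rw [map_mul, map_mul, hL1 j]
    rfl
  have hS0 : Ideal.Quotient.mk (KJ4I I K) ((lamT T hT K * carM a) i l) =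
      Ideal.Quotient.mk (KJ4I I K) (∑ j, wSer f i j * C ((cart a j l : ℤ) : ℚ)) := by
    rw [Matrix.mul_apply, map_sum, map_sum]
    refine Finset.sum_congr rfl fun j _ => ?_
    rw [map_mul, map_mul, hL0 j]
    rfl
  have hn0 : ∀ n : ℕ, (n : Matrix I I (MvPowerSeries I ℚ)) i l =
      if i = l then (n : MvPowerSeries I ℚ) else 0 := fun n => by
    rw [Matrix.natCast_apply]
    split_ifs
    · rfl
    · exact Nat.cast_zero
  rw [RingHom.mapMatrix_apply, RingHom.mapMatrix_apply, Matrix.map_apply, Matrix.map_apply,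
    Matrix.sub_apply, Matrix.sub_apply, Matrix.diagonal_mul, Matrix.sub_apply, Matrix.of_apply,
    map_sub, map_sub, map_sub, map_mul, map_sub, hS1, hS0, map_mul (Ideal.Quotient.mk (KJ4I I K))
      (C (1 - h i)), hn0, hn0]
  set S := Ideal.Quotient.mk (KJ4I I K) (∑ j, wSer f i j * C ((cart a j l : ℤ) : ℚ)) with hS
  have e1 : (C (1 - h i) : MvPowerSeries I ℚ) = 1 - C (h i) := by
    rw [map_sub, map_one]
  have e2 : (C ((K : ℚ) + 1 - K * h i) : MvPowerSeries I ℚ) = (K : MvPowerSeries I ℚ) + 1 -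
      (K : MvPowerSeries I ℚ) * C (h i) := by
    rw [map_sub, map_add, map_one, map_mul, map_natCast]
  by_cases hil : i = l
  · rw [if_pos hil, if_pos hil, if_pos hil, e1, e2]
    simp only [map_sub, map_add, map_mul, map_one, map_natCast]
    push_cast
    ring
  · rw [if_neg hil, if_neg hil, if_neg hil, e1]
    simp only [map_sub, map_zero, map_one]
    ring

theorem top_poly (a : I → I → ℕ) (hs : ∀ i j, a i j = a j i) (f : (I → ℕ) → ℚ)
    (hK : KacData a f) (α : I →₀ ℕ) (hα0 : α ≠ 0) (K : ℕ) (hα : tdeg α ≤ K) (μ : I → ℚ) :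
    ∃ q : Polynomial ℚ,
      (∀ ε : ℚ, Val a α ⟨fun _ => K + 1, fun i => -cw a α i, fun i => -cw a α i,
        fun l i => if l = i then 1 - ε * μ i else 0⟩ = q.eval ε) ∧
      q.eval 0 = 0 ∧
      q.derivative.eval 0 = f α * ∑ i, μ i * (α i : ℚ) * (-(cw a α i : ℤ) : ℚ) := by
  set M : Matrix I I (MvPowerSeries I ℚ) := Matrix.of (fun i l : I =>
    (if i = l then C ((K : ℚ) * μ i) else (0 : MvPowerSeries I ℚ)) -
      C (μ i) * ∑ j, wSer f i j * C ((cart a j l : ℤ) : ℚ)) with hM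
  set P : Polynomial (MvPowerSeries I ℚ) :=
    (1 + (Polynomial.X : Polynomial (MvPowerSeries I ℚ)) • M.map Polynomial.C).det with hP
  have hPeval : ∀ c : MvPowerSeries I ℚ, P.eval c = (1 + c • M).det := by
    intro c
    rw [hP, ← Polynomial.coe_evalRingHom, RingHom.map_det]
    congr 1
    ext1 i l
    rw [RingHom.mapMatrix_apply, Matrix.map_apply, Matrix.add_apply, Matrix.add_apply,
      Matrix.smul_apply, Matrix.smul_apply, Matrix.map_apply, map_add, smul_eq_mul, smul_eq_mul,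
      map_mul]
    rw [Polynomial.coe_evalRingHom, Polynomial.eval_X, Polynomial.eval_C]
    congr 1
    rw [Matrix.one_apply, Matrix.one_apply]
    split_ifs
    · simp
    · simp
  have hzero : ∀ c : ℚ, coeff α (C c : MvPowerSeries I ℚ) = 0 := by
    intro c
    classical
    rw [coeff_C, if_neg hα0]
  refine ⟨∑ n ∈ Finset.range (P.natDegree + 1), Polynomial.monomial n (coeff α (P.coeff n)),
    ?_, ?_, ?_⟩
  · intro ε
    rw [top_val a hs f hK α K hα]
    have h1 : (∑ n ∈ Finset.range (P.natDegree + 1),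
        Polynomial.monomial n (coeff α (P.coeff n))).eval ε = coeff α (P.eval (C ε)) := by
      rw [Polynomial.eval_finsetSum, Polynomial.eval_eq_sum_range, map_sum]
      refine Finset.sum_congr rfl fun n _ => ?_
      rw [Polynomial.eval_monomial, ← map_pow, coeff_mul_C]
    rw [h1, hPeval]
    congr 1
    congr 1
    ext1 i l
    rw [Matrix.of_apply, Matrix.add_apply, Matrix.smul_apply, hM, Matrix.of_apply, smul_eq_mul,
      Matrix.one_apply]
    have e1 : (C (1 - (1 - ε * μ i)) : MvPowerSeries I ℚ) = C ε * C (μ i) := by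
      rw [← map_mul]
      congr 1
      ring
    by_cases hil : i = l
    · rw [if_pos hil, if_pos hil, if_pos hil, e1]
      have e2 : (C ((K : ℚ) + 1 - K * (1 - ε * μ i)) : MvPowerSeries I ℚ) =
          1 + C ε * C ((K : ℚ) * μ i) := by
        rw [← map_mul, ← map_one (C (σ := I) (R := ℚ)), ← map_add]
        congr 1
        ring
      rw [e2]
      ring
    · rw [if_neg hil, if_neg hil, if_neg hil, e1]
      ring
  · have h1 : (∑ n ∈ Finset.range (P.natDegree + 1),
        Polynomial.monomial n (coeff α (P.coeff n))).eval 0 = coeff α (P.eval (C 0)) := by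
      rw [Polynomial.eval_finsetSum, Polynomial.eval_eq_sum_range, map_sum]
      refine Finset.sum_congr rfl fun n _ => ?_
      rw [Polynomial.eval_monomial, ← map_pow, coeff_mul_C]
    rw [h1, hPeval, map_zero, zero_smul, add_zero, Matrix.det_one,
      ← map_one (C (σ := I) (R := ℚ))]
    exact hzero 1
  · have hcoef : ∀ n, (∑ n ∈ Finset.range (P.natDegree + 1),
        Polynomial.monomial n (coeff α (P.coeff n))).coeff n = coeff α (P.coeff n) := by
      intro n
      rw [Polynomial.finsetSum_coeff]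
      by_cases hn : n ∈ Finset.range (P.natDegree + 1)
      · rw [Finset.sum_eq_single_of_mem n hn]
        · rw [Polynomial.coeff_monomial, if_pos rfl]
        · intro b _ hb
          rw [Polynomial.coeff_monomial, if_neg hb]
      · rw [Finset.sum_eq_zero]
        · rw [Finset.mem_range, not_lt] at hn
          rw [Polynomial.coeff_eq_zero_of_natDegree_lt (by omega), map_zero]
        · intro b hb
          rw [Polynomial.coeff_monomial, if_neg]
          rintro rfl
          exact hn hb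
    have h1 : ∀ Q : Polynomial ℚ, Q.derivative.eval 0 = Q.coeff 1 := by
      intro Q
      rw [← Polynomial.coeff_zero_eq_eval_zero, Polynomial.coeff_derivative]
      simp
    have h2 : P.coeff 1 = M.trace := by
      rw [← Matrix.derivative_det_one_add_X_smul M, ← Polynomial.coeff_zero_eq_eval_zero,
        Polynomial.coeff_derivative]
      simp [hP]
    rw [h1, hcoef, h2, Matrix.trace, map_sum, Finset.mul_sum]
    refine Finset.sum_congr rfl fun i _ => ?_
    rw [Matrix.diag_apply, hM, Matrix.of_apply, if_pos rfl, map_sub, hzero, zero_sub, coeff_C_mul,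
      map_sum]
    have h3 : ∀ j, coeff α (wSer f i j * C ((cart a j i : ℤ) : ℚ)) =
        (α i : ℚ) * (α j : ℚ) * f (fun l => α l) * ((cart a j i : ℤ) : ℚ) := by
      intro j
      rw [coeff_mul_C]
      rfl
    rw [Finset.sum_congr rfl fun j _ => h3 j]
    have h4 : ∑ j, (α i : ℚ) * (α j : ℚ) * f (fun l => α l) * ((cart a j i : ℤ) : ℚ) =
        f (fun l => α l) * (α i : ℚ) * (cw a α i : ℤ) := by
      unfold cw
      push_cast
      rw [Finset.mul_sum]
      refine Finset.sum_congr rfl fun j _ => ?_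
      have h5 : cart a j i = cart a i j := by
        unfold cart
        rw [hs j i]
        simp only [eq_comm]
      rw [h5]
      ring
    rw [h4]
    have h6 : f (fun l => α l) = f α := rfl
    rw [h6]
    ring

end Pool.Agent.H27.KAC
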