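import Pool.Agent.H27.KAC.KQEta

/-!
KAC module KQRaw3: replacement of `x_{x,k}` at a wall.

`x` loop-free, column `x` is `u = x_{x,k+1}`, power `q ≥ 1` of `z = U_{x,k}`, other columns
`r_j + h_j v`, `v = x_{x,k}`.  Then `v` may be replaced by `w = (1/2) ∑_l a_{xl} x_{l,k}`.
Proof.  `k = 0`: both `v` and `w` vanish (`xv_zero`).  `k ≥ 1`: by multilinearity (at most one column
is replaced at a time: `det (R + (v - w) h^T + w h^T)`, and the determinant is affine in `v`)
it suffices that `raw γ (F z^q) (…, column j = v - w, …, column x = u) = 0` for regular other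
columns (`w` is regular).  With `c = (X x)^k * cU a x k` (as an element), (R):
`U_{x,k+1} U_{x,k-1} = z^2 - c`, and differentiating (`D_l c = c * (2 w_l)` up to the `X`-factor:
`D_l c = c * (∑_l' a_{xl'} x_{l',k}(l) - 2 k δ_{xl})`, note `(k δ)` bookkeeping: work with
`t`-homogeneous elements: `z^2 (v_l - w_l)` equals
`(1/2) U_{x,k+1} U_{x,k-1} (u_l + x_{x,k-1}(l) - 2 w_l)`):
(*) `z^2 (v_l - w_l) = (1/2) U_{x,k+1} U_{x,k-1} (u_l + x_{x,k-1}(l) - 2 w_l)`.
For q ≥ 2: the `u`-part is proportional to column `x` and dies, the rest is regular and has the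
factor `U_{x,k+1}`; `vanish_general` (b = 1 …) gives 0.  For q = 1: multiply by
`c = z^2 - U_{x,k+1}U_{x,k-1}`: `c z (v - w) = z^3 (v-w) - U_{x,k+1} U_{x,k-1} z (v - w)`, both parts
vanish by the same argument at `γ + 2k e_x`-shifted index; `c = (X x)^k * unit` in `Fil (2k)`, and the
unit can be absorbed in `F`: apply the vanishing statement to `F' = F * cU⁻¹` and to `raw_X_pow`.
-/

namespace Pool.Agent.H27.KAC

open scoped BigOperators
open MvPowerSeries

variable {I : Type} [Fintype I] [DecidableEq I]

/-- half of the sum of the neighbouring forms. -/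
private noncomputable def KQRaw3_w (a : I → I → ℕ) (x : I) (k : ℕ) (l : I) : MvPowerSeries I ℚ :=
  ∑ l', C ((a x l' : ℚ) / 2) * xv a l' k l

private theorem KQRaw3_wreg (a : I → I → ℕ) (hs : ∀ i j, a i j = a j i) (x : I) (hx : a x x = 0)
    (k : ℕ) : VReg a x 0 (KQRaw3_w a x k) := by
  unfold KQRaw3_w
  refine VReg.sum (fun l' _ => ?_)
  by_cases h : l' = x
  · subst h
    rw [hx]
    have h0 : (fun l => C (((0 : ℕ) : ℚ) / 2) * xv a l' k l) = fun _ => (0 : MvPowerSeries I ℚ) := by
      funext l
      rw [Nat.cast_zero, zero_div, map_zero, zero_mul]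
    rw [h0]
    exact ⟨fun l _ => Fil_zero a l' 0, Fil_zero a l' _⟩
  · have h1 := VReg.smul (Fil_C a x ((a x l' : ℚ) / 2)) (xv_reg a hs x hx l' h k)
    rw [zero_add] at h1
    exact h1

private theorem KQRaw3_det (a : I → I → ℕ) (x : I) (γ : I →₀ ℕ) (s : ℤ) (G : MvPowerSeries I ℚ)
    (hG : Fil a x s G) (ρ : I → ℤ) (c : I → I → MvPowerSeries I ℚ) (hc : ∀ i, VReg a x (ρ i) (c i))
    (h : s + (∑ i, ρ i) - 1 < cw a γ x) : raw γ G c = 0 := by
  unfold raw
  refine Fil.coeff_eq_zero (hG.mul (det_reg hc)) ?_
  linarith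

private theorem KQRaw3_two (a : I → I → ℕ) (x : I) (γ : I →₀ ℕ) (s α β : ℤ)
    (G A B : MvPowerSeries I ℚ) (hG : Fil a x s G) (c : I → I → MvPowerSeries I ℚ)
    (hc : ∀ i, i ≠ x → VReg a x 0 (c i)) (j : I) (hj : j ≠ x) (v u : I → MvPowerSeries I ℚ)
    (hv : VReg a x α (fun l => A * v l)) (hu : VReg a x β (fun l => B * u l))
    (h : s + α + β - 1 < cw a γ x) :
    raw γ (G * A * B) (Function.update (Function.update c j v) x u) = 0 := by
  rw [← raw_smul, Function.update_comm hj, ← raw_smul]
  refine KQRaw3_det a x γ s G hG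
    (fun i => (if i = j then α else 0) + (if i = x then β else 0)) _ ?_ ?_
  · intro i
    by_cases h1 : i = j
    · subst h1
      rw [Function.update_self, if_pos rfl, if_neg hj, add_zero]
      exact hv
    · rw [Function.update_of_ne h1, if_neg h1, zero_add]
      by_cases h2 : i = x
      · subst h2
        rw [Function.update_self, if_pos rfl]
        exact hu
      · rw [Function.update_of_ne h2, if_neg h2]
        exact hc i h2
  · rw [Finset.sum_add_distrib, Finset.sum_ite_eq', Finset.sum_ite_eq', if_pos (Finset.mem_univ _),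
      if_pos (Finset.mem_univ _)]
    linarith

private theorem KQRaw3_eq_col (γ : I →₀ ℕ) (G : MvPowerSeries I ℚ) (c : I → I → MvPowerSeries I ℚ)
    (j x : I) (hj : j ≠ x) (u : I → MvPowerSeries I ℚ) :
    raw γ G (Function.update (Function.update c j u) x u) = 0 := by
  unfold raw
  have h : (colMat (Function.update (Function.update c j u) x u)).det = 0 := by
    refine Matrix.det_zero_of_column_eq hj fun l => ?_
    unfold colMat
    rw [Matrix.of_apply, Matrix.of_apply, Function.update_self, Function.update_of_ne hj,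
      Function.update_self]
  rw [h, mul_zero, map_zero]

private theorem KQRaw3_lam (a : I → I → ℕ) (hs : ∀ i j, a i j = a j i) (x : I)
    (k : ℕ) (l : I) : lamV a x k l = 2 * (xv a x k l - KQRaw3_w a x k l) := by
  unfold lamV KQRaw3_w
  have h1 : ∀ l', C ((cart a l' x : ℤ) : ℚ) * xv a l' k l =
      (if l' = x then 2 * xv a l' k l else 0) - 2 * (C ((a x l' : ℚ) / 2) * xv a l' k l) := by
    intro l'
    have h2 : (2 : MvPowerSeries I ℚ) = C (2 : ℚ) := by
      rw [map_ofNat]
    unfold cart
    rw [hs l' x]
    split_ifs with h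
    · have h4 : (C (((2 - (a x l' : ℤ) : ℤ)) : ℚ) : MvPowerSeries I ℚ) =
          2 - 2 * C ((a x l' : ℚ) / 2) := by
        rw [h2, ← map_mul, ← map_sub]
        congr 1
        push_cast
        ring
      rw [h4]
      ring
    · have h4 : (C (((0 - (a x l' : ℤ) : ℤ)) : ℚ) : MvPowerSeries I ℚ) =
          0 - 2 * C ((a x l' : ℚ) / 2) := by
        rw [h2, ← map_mul, zero_sub, zero_sub, ← map_neg]
        congr 1
        push_cast
        ring
      rw [h4]
      ring
  rw [Finset.sum_congr rfl (fun l' _ => h1 l'), Finset.sum_sub_distrib, Finset.sum_ite_eq',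
    if_pos (Finset.mem_univ _), ← Finset.mul_sum, mul_sub]

private theorem KQRaw3_star (a : I → I → ℕ) (hs : ∀ i j, a i j = a j i) (x : I)
    (k : ℕ) (l : I) :
    uS a x (k + 1) ^ 2 * (xv a x (k + 1) l - KQRaw3_w a x (k + 1) l) =
      (C (1 / 2 : ℚ) * uS a x (k + 2) * uS a x k) *
        (xv a x (k + 2) l + (xv a x k l - 2 * KQRaw3_w a x (k + 1) l)) := by
  have h1 := uS_eta a x k
  have h2 := xv_eta a hs x k l
  rw [KQRaw3_lam a hs x (k + 1) l] at h2
  have h3 : (C (1 / 2 : ℚ) : MvPowerSeries I ℚ) * 2 = 1 := by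
    have h4 : (2 : MvPowerSeries I ℚ) = C (2 : ℚ) := by
      rw [map_ofNat]
    rw [h4, ← map_mul]
    norm_num
  set η := etaS a x (k + 1) with hη
  set z := uS a x (k + 1) with hz
  set A := uS a x (k + 2) with hA
  set B := uS a x k with hB
  set v := xv a x (k + 1) l with hv
  set u := xv a x (k + 2) l with hu
  set y := xv a x k l with hy
  set w := KQRaw3_w a x (k + 1) l with hw
  set t := (C (1 / 2 : ℚ) : MvPowerSeries I ℚ) with ht
  have h5 : A * B * (u - 2 * v + y) = z ^ 2 * (η * (2 * (v - w))) := by
    rw [h1]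
    linear_combination z ^ 2 * h2
  have h6 : A * B * (u + y - 2 * w) = 2 * (z ^ 2 * (v - w)) := by
    linear_combination h5 + 2 * (v - w) * h1
  calc z ^ 2 * (v - w) = (t * 2) * (z ^ 2 * (v - w)) := by rw [h3, one_mul]
    _ = t * (A * B * (u + y - 2 * w)) := by rw [h6]; ring
    _ = t * A * B * (u + (y - 2 * w)) := by ring

private theorem KQRaw3_van2 (a : I → I → ℕ) (hs : ∀ i j, a i j = a j i) (x : I) (hx : a x x = 0)
    (k q : ℕ) (γ : I →₀ ℕ) (hγ : cw a γ x = ((k + 1 : ℕ) : ℤ) * ((q + 2 : ℕ) : ℤ))
    (F : MvPowerSeries I ℚ) (hF : Fil a x 0 F) (c : I → I → MvPowerSeries I ℚ)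
    (hc : ∀ i, i ≠ x → VReg a x 0 (c i)) (j : I) (hj : j ≠ x) :
    raw γ (F * uS a x (k + 1) ^ (q + 2)) (Function.update (Function.update c j
      (fun l => xv a x (k + 1) l - KQRaw3_w a x (k + 1) l)) x (xv a x (k + 2))) = 0 := by
  have e1 : F * uS a x (k + 1) ^ (q + 2) = (F * uS a x (k + 1) ^ q) * uS a x (k + 1) ^ 2 := by ring
  rw [e1, Function.update_comm hj, ← raw_smul]
  have e2 : (fun l => uS a x (k + 1) ^ 2 * (xv a x (k + 1) l - KQRaw3_w a x (k + 1) l)) =
      fun l => (C (1 / 2 : ℚ) * uS a x (k + 2) * uS a x k) *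
        (xv a x (k + 2) l + (xv a x k l - 2 * KQRaw3_w a x (k + 1) l)) :=
    funext fun l => KQRaw3_star a hs x k l
  rw [e2, raw_smul, raw_add]
  have e3 := KQRaw3_eq_col γ (F * uS a x (k + 1) ^ q * (C (1 / 2 : ℚ) * uS a x (k + 2) * uS a x k))
    c j x hj (xv a x (k + 2))
  rw [Function.update_comm hj] at e3
  have e3' : raw γ (F * uS a x (k + 1) ^ q * (C (1 / 2 : ℚ) * uS a x (k + 2) * uS a x k))
      (Function.update (Function.update c x (xv a x (k + 2))) j (fun l => xv a x (k + 2) l)) = 0 :=
    e3
  rw [e3', zero_add, Function.update_comm (Ne.symm hj)]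
  have e4 : F * uS a x (k + 1) ^ q * (C (1 / 2 : ℚ) * uS a x (k + 2) * uS a x k) =
      (F * uS a x (k + 1) ^ q * C (1 / 2 : ℚ)) * uS a x k * uS a x (k + 2) := by ring
  rw [e4]
  refine KQRaw3_two a x γ (0 + (q : ℤ) * ((k + 1 : ℕ) : ℤ) + 0) (k : ℤ) ((k + 2 : ℕ) : ℤ) _ _ _
    ((hF.mul ((uS_fil_self a hs x hx (k + 1)).pow q)).mul (Fil_C a x _)) c hc j hj _ _ ?_ ?_ ?_
  · have g1 := xv_pole a hs x hx k
    have g2 := VReg.smul ((uS_fil_self a hs x hx k).mul (Fil_C a x (-2)))
      (KQRaw3_wreg a hs x hx (k + 1))
    rw [add_zero, add_zero] at g2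
    have g3 := g1.add g2
    have g4 : (fun l => uS a x k * (xv a x k l - 2 * KQRaw3_w a x (k + 1) l)) =
        fun l => uS a x k * xv a x k l + uS a x k * C (-2 : ℚ) * KQRaw3_w a x (k + 1) l := by
      funext l
      have g5 : (C (-2 : ℚ) : MvPowerSeries I ℚ) = -2 := by
        rw [map_neg, map_ofNat]
      rw [g5]
      ring
    rw [g4]
    exact g3
  · exact xv_pole a hs x hx (k + 2)
  · rw [hγ]
    push_cast
    nlinarith

private theorem KQRaw3_van (a : I → I → ℕ) (hs : ∀ i j, a i j = a j i) (x : I) (hx : a x x = 0)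
    (k q : ℕ) (hq : 1 ≤ q) (γ : I →₀ ℕ) (hγ : cw a γ x = ((k + 1 : ℕ) : ℤ) * (q : ℤ))
    (F : MvPowerSeries I ℚ) (hF : Fil a x 0 F) (c : I → I → MvPowerSeries I ℚ)
    (hc : ∀ i, i ≠ x → VReg a x 0 (c i)) (j : I) (hj : j ≠ x) :
    raw γ (F * uS a x (k + 1) ^ q) (Function.update (Function.update c j
      (fun l => xv a x (k + 1) l - KQRaw3_w a x (k + 1) l)) x (xv a x (k + 2))) = 0 := by
  rcases q with _ | _ | q
  · omega
  · rw [zero_add, pow_one]
    set Dm := Function.update (Function.update c j
      (fun l => xv a x (k + 1) l - KQRaw3_w a x (k + 1) l)) x (xv a x (k + 2)) with hDm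
    set γ' : I →₀ ℕ := γ + Finsupp.single x (k + 1) with hγ'
    have hcw : cw a γ' x = ((k + 1 : ℕ) : ℤ) * ((1 + 2 : ℕ) : ℤ) := by
      rw [hγ', cw_add, hγ]
      have e1 : cw a (Finsupp.single x (k + 1)) x = 2 * ((k + 1 : ℕ) : ℤ) := by
        unfold cw
        rw [Finset.sum_eq_single x]
        · rw [Finsupp.single_eq_same]
          unfold cart
          rw [if_pos rfl, hx]
          push_cast
          ring
        · intro i _ hi
          rw [Finsupp.single_eq_of_ne hi]
          simp
        · intro h
          exact absurd (Finset.mem_univ _) h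
      rw [e1]
      push_cast
      ring
    set cu := cU a x (k + 1) with hcu
    have hprod : (cu : MvPowerSeries I ℚ) = ∏ l, uS a l (k + 1) ^ (a x l) := by
      rw [hcu]
      unfold cU
      rw [Units.coe_prod]
      exact Finset.prod_congr rfl fun l _ => by rw [Units.val_pow_eq_pow_val, uu_coe]
    have hcuinv : Fil a x 0 ((cu⁻¹ : (MvPowerSeries I ℚ)ˣ) : MvPowerSeries I ℚ) := by
      refine Fil_inv ?_ ?_
      · rw [hprod]
        have e1 : Fil a x (∑ _l : I, (0 : ℤ)) (∏ l, uS a l (k + 1) ^ (a x l)) := by
          refine Fil.prod (r := fun _ => 0) fun l _ => ?_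
          by_cases hl : l = x
          · subst hl
            rw [hx, pow_zero]
            exact Fil_one a l
          · have e2 := (uS_fil_ne a hs x hx l hl (k + 1)).pow (a x l)
            rw [mul_zero] at e2
            exact e2
        rw [Finset.sum_const_zero] at e1
        exact e1
      · rw [hprod, map_prod]
        exact Finset.prod_eq_one fun l _ => by rw [map_pow, uS_const, one_pow]
    set F' := F * ((cu⁻¹ : (MvPowerSeries I ℚ)ˣ) : MvPowerSeries I ℚ) with hF'
    have hF'f : Fil a x 0 F' := by
      have e1 := hF.mul hcuinv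
      rw [add_zero] at e1
      exact e1
    have hrec := uS_rec a x k
    rw [← hprod] at hrec
    have hcc : (cu : MvPowerSeries I ℚ) * ((cu⁻¹ : (MvPowerSeries I ℚ)ˣ) : MvPowerSeries I ℚ) = 1 :=
      cu.mul_inv
    have hsplit : F' * uS a x (k + 1) ^ (1 + 2) =
        (X x) ^ (k + 1) * (F * uS a x (k + 1)) +
          (F' * uS a x k) * uS a x (k + 1) * uS a x (k + 2) := by
      have e1 : (X x) ^ (k + 1) * (cu : MvPowerSeries I ℚ) =
          uS a x (k + 1) ^ 2 - uS a x (k + 2) * uS a x k := by
        linear_combination hrec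
      have e2 : (X x) ^ (k + 1) * (F * uS a x (k + 1)) =
          F' * ((X x) ^ (k + 1) * (cu : MvPowerSeries I ℚ)) * uS a x (k + 1) := by
        rw [hF']
        linear_combination (-(X x : MvPowerSeries I ℚ) ^ (k + 1) * F * uS a x (k + 1)) * hcc
      rw [e2, e1]
      ring
    have h1 := KQRaw3_van2 a hs x hx k 1 γ' hcw F' hF'f c hc j hj
    rw [hsplit, raw_add_left] at h1
    have h2 : raw γ' ((F' * uS a x k) * uS a x (k + 1) * uS a x (k + 2)) Dm = 0 := by
      refine KQRaw3_two a x γ' (0 + (k : ℤ)) ((k + 1 : ℕ) : ℤ) ((k + 2 : ℕ) : ℤ) _ _ _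
        (hF'f.mul (uS_fil_self a hs x hx k)) c hc j hj _ _ ?_ ?_ ?_
      · have g1 := xv_pole a hs x hx (k + 1)
        have g2 := VReg.smul ((uS_fil_self a hs x hx (k + 1)).mul (Fil_C a x (-1)))
          (KQRaw3_wreg a hs x hx (k + 1))
        rw [add_zero, add_zero] at g2
        have g3 := g1.add g2
        have g4 : (fun l => uS a x (k + 1) * (xv a x (k + 1) l - KQRaw3_w a x (k + 1) l)) =
            fun l => uS a x (k + 1) * xv a x (k + 1) l +
              uS a x (k + 1) * C (-1 : ℚ) * KQRaw3_w a x (k + 1) l := by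
          funext l
          have g5 : (C (-1 : ℚ) : MvPowerSeries I ℚ) = -1 := by
            rw [map_neg, map_one]
          rw [g5]
          ring
        rw [g4]
        exact g3
      · exact xv_pole a hs x hx (k + 2)
      · rw [hcw]
        push_cast
        linarith
    rw [h2, add_zero, raw_X_pow] at h1
    unfold rawSub at h1
    rw [if_pos (by rw [hγ', Finsupp.add_apply, Finsupp.single_eq_same]; omega)] at h1
    have h3 : γ' - Finsupp.single x (k + 1) = γ := by
      rw [hγ']
      exact add_tsub_cancel_right _ _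
    rw [h3] at h1
    exact h1
  · exact KQRaw3_van2 a hs x hx k q γ hγ F hF c hc j hj

private theorem KQRaw3_clear (γ : I →₀ ℕ) (G : MvPowerSeries I ℚ) (c : I → I → MvPowerSeries I ℚ)
    (j : I) (g : I → ℚ) (t : Finset I) (hj : j ∉ t) :
    raw γ G (fun i l => c i l + (if i ∈ t then C (g i) else 0) * c j l) = raw γ G c := by
  induction t using Finset.induction_on with
  | empty =>
    congr 1
    funext i l
    simp
  | insert i t hi ih =>
    rw [Finset.mem_insert, not_or] at hj
    rw [← ih hj.2]
    have h1 := raw_add_col γ G (C (g i))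
      (fun i' l => c i' l + (if i' ∈ t then C (g i') else 0) * c j l) j i hj.1
    rw [← h1]
    congr 1
    funext i' l
    by_cases h : i' = i
    · subst h
      rw [Function.update_self, if_pos (Finset.mem_insert_self _ _), if_neg hi, if_neg hj.2,
        zero_mul, add_zero, add_zero]
    · rw [Function.update_of_ne h]
      simp only [Finset.mem_insert, h, false_or]

private theorem KQRaw3_ind (a : I → I → ℕ) (hs : ∀ i j, a i j = a j i) (x : I) (hx : a x x = 0)
    (k q : ℕ) (hq : 1 ≤ q) (γ : I →₀ ℕ) (hγ : cw a γ x = ((k + 1 : ℕ) : ℤ) * q)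
    (F : MvPowerSeries I ℚ) (hF : Fil a x 0 F) (r : I → I → MvPowerSeries I ℚ)
    (hr : ∀ i, i ≠ x → VReg a x 0 (r i)) (h : I → ℚ) (t : Finset I) (hxt : x ∉ t) :
    raw γ (F * uS a x (k + 1) ^ q)
      (Function.update (fun i l => r i l + C (h i) *
        (if i ∈ t then xv a x (k + 1) l else KQRaw3_w a x (k + 1) l)) x (xv a x (k + 2))) =
    raw γ (F * uS a x (k + 1) ^ q)
      (Function.update (fun i l => r i l + C (h i) * KQRaw3_w a x (k + 1) l)
        x (xv a x (k + 2))) := by
  induction t using Finset.induction_on with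
  | empty =>
    congr 1
  | insert j t hj ih =>
    rw [Finset.mem_insert, not_or] at hxt
    have hjx : j ≠ x := fun e => hxt.1 e.symm
    rw [← ih hxt.2]
    set v := xv a x (k + 1) with hv
    set w := KQRaw3_w a x (k + 1) with hw
    set u := xv a x (k + 2) with hu
    set B := (fun (i l : I) => r i l + C (h i) * (if i ∈ t then v l else w l)) with hB
    have e1 : (fun (i l : I) => r i l + C (h i) * (if i ∈ insert j t then v l else w l)) =
        Function.update B j (fun l => (r j l + C (h j) * w l) + C (h j) * (v l - w l)) := by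
      funext i l
      by_cases hi : i = j
      · subst hi
        rw [Function.update_self, if_pos (Finset.mem_insert_self _ _)]
        ring
      · rw [Function.update_of_ne hi]
        simp only [hB, Finset.mem_insert, hi, false_or]
    rw [e1, Function.update_comm hjx, raw_add]
    have e2 : Function.update (Function.update B x u) j (fun l => r j l + C (h j) * w l) =
        Function.update B x u := by
      have e3 : (fun l => r j l + C (h j) * w l) = Function.update B x u j := by
        rw [Function.update_of_ne hjx]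
        funext l
        simp only [hB, if_neg hj]
      rw [e3, Function.update_eq_self]
    rw [e2, raw_smul]
    have e4 : raw γ (F * uS a x (k + 1) ^ q * C (h j))
        (Function.update (Function.update B x u) j (fun l => v l - w l)) = 0 := by
      set B0 := (fun (i l : I) => r i l + C (h i) * w l) with hB0
      have e5 := KQRaw3_clear γ (F * uS a x (k + 1) ^ q * C (h j))
        (Function.update (Function.update B0 x u) j (fun l => v l - w l)) j h t hj
      have e6 : (fun i l => Function.update (Function.update B0 x u) j (fun l => v l - w l) i l +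
          (if i ∈ t then C (h i) else 0) *
            Function.update (Function.update B0 x u) j (fun l => v l - w l) j l) =
          Function.update (Function.update B x u) j (fun l => v l - w l) := by
        funext i l
        rw [Function.update_self]
        by_cases hi : i = j
        · subst hi
          rw [Function.update_self, if_neg hj, zero_mul, add_zero, Function.update_self]
        · rw [Function.update_of_ne hi, Function.update_of_ne hi]
          by_cases hi2 : i = x
          · subst hi2
            rw [Function.update_self, if_neg hxt.2, zero_mul, add_zero, Function.update_self]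
          · rw [Function.update_of_ne hi2, Function.update_of_ne hi2]
            simp only [hB, hB0]
            split_ifs <;> ring
      rw [e6] at e5
      rw [e5]
      have e7 : F * uS a x (k + 1) ^ q * C (h j) = (F * C (h j)) * uS a x (k + 1) ^ q := by ring
      rw [e7, Function.update_comm (Ne.symm hjx)]
      refine KQRaw3_van a hs x hx k q hq γ hγ _ ?_ B0 ?_ j hjx
      · have e8 := hF.mul (Fil_C a x (h j))
        rw [add_zero] at e8
        exact e8
      · intro i hi
        have e9 := VReg.smul (Fil_C a x (h i)) (KQRaw3_wreg a hs x hx (k + 1))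
        rw [add_zero] at e9
        exact (hr i hi).add e9
    rw [e4, add_zero]

theorem raw_replace (a : I → I → ℕ) (hs : ∀ i j, a i j = a j i) (x : I) (hx : a x x = 0)
    (k q : ℕ) (hq : 1 ≤ q) (γ : I →₀ ℕ) (hγ : cw a γ x = (k : ℤ) * q)
    (F : MvPowerSeries I ℚ) (hF : Fil a x 0 F) (r : I → I → MvPowerSeries I ℚ)
    (hr : ∀ i, i ≠ x → VReg a x 0 (r i)) (h : I → ℚ) :
    raw γ (F * uS a x k ^ q)
      (Function.update (fun i l => r i l + C (h i) * xv a x k l) x (xv a x (k + 1))) =
    raw γ (F * uS a x k ^ q)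
      (Function.update (fun i l => r i l + C (h i) * ∑ l', C ((a x l' : ℚ) / 2) * xv a l' k l)
        x (xv a x (k + 1))) := by
  rcases k with _ | k
  · congr 1
    funext i l
    by_cases hi : i = x
    · subst hi
      rw [Function.update_self, Function.update_self]
    · rw [Function.update_of_ne hi, Function.update_of_ne hi]
      simp only [xv_zero, mul_zero, Finset.sum_const_zero]
  · have h1 := KQRaw3_ind a hs x hx k q hq γ hγ F hF r hr h (Finset.univ.erase x)
      (Finset.notMem_erase _ _)
    have h2 : Function.update (fun i l => r i l + C (h i) *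
        (if i ∈ Finset.univ.erase x then xv a x (k + 1) l else KQRaw3_w a x (k + 1) l)) x
          (xv a x (k + 2)) =
        Function.update (fun i l => r i l + C (h i) * xv a x (k + 1) l) x (xv a x (k + 2)) := by
      funext i l
      by_cases hi : i = x
      · subst hi
        rw [Function.update_self, Function.update_self]
      · rw [Function.update_of_ne hi, Function.update_of_ne hi,
          if_pos (Finset.mem_erase.2 ⟨hi, Finset.mem_univ _⟩)]
    rw [h2] at h1
    exact h1

end Pool.Agent.H27.KAC
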