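import Pool.Agent.H27.KAC.KQEta

/-!
KAC module KQRaw4: reduction of the power of `z = U_{x,k}` by two at a wall `x` (column `x` is
`x_{x,k+1}`), `k ≥ 1`.  `z^2 = U_{x,k+1} U_{x,k-1} + (X x)^k cU` (`uS_rec`); the first summand
gives a regular integrand (`vanish_general` with b = 1 and exponents of the regular
polynomial factor `U_{x,k-1}` put into `F`?  no: `U_{x,k-1} ∈ Fil (k-1)`; use the degree count
directly: the integrand lies in `Fil (q k - 1)`).  So prove it from `det_reg`/`xv_pole`: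
`U_{x,k+1} * det(...; x_{x,k+1}) ∈ Fil (k+1-1)`, times `U_{x,k-1} z^{q-2} F ∈ Fil (k-1 + (q-2)k)`.
Total `Fil (q k - 1)`, and `(Cγ)_x = q k`.
-/

namespace Pool.Agent.H27.KAC

open scoped BigOperators
open MvPowerSeries

variable {I : Type} [Fintype I] [DecidableEq I]

theorem raw_reduce (a : I → I → ℕ) (hs : ∀ i j, a i j = a j i) (x : I) (hx : a x x = 0)
    (k q : ℕ) (hk : 1 ≤ k) (γ : I →₀ ℕ) (hγ : cw a γ x = (k : ℤ) * (q + 2))
    (F : MvPowerSeries I ℚ) (hF : Fil a x 0 F) (c : I → I → MvPowerSeries I ℚ)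
    (hc : ∀ i, i ≠ x → VReg a x 0 (c i)) (hcx : c x = xv a x (k + 1)) :
    raw γ (F * uS a x k ^ (q + 2)) c =
      rawSub γ x k (F * ((cU a x k : (MvPowerSeries I ℚ)ˣ) : MvPowerSeries I ℚ) *
        uS a x k ^ q) c := by
  obtain ⟨k, rfl⟩ : ∃ k', k = k' + 1 := ⟨k - 1, by omega⟩
  have hcU : ((cU a x (k + 1) : (MvPowerSeries I ℚ)ˣ) : MvPowerSeries I ℚ) =
      ∏ j, uS a j (k + 1) ^ (a x j) := by
    unfold cU
    rw [Units.coe_prod]
    refine Finset.prod_congr rfl fun j _ => ?_
    rw [Units.val_pow_eq_pow_val, uu_coe]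
  have hrec := uS_rec a x k
  rw [← hcU] at hrec
  have hsplit : F * uS a x (k + 1) ^ (q + 2) =
      (F * uS a x (k + 1) ^ q * uS a x k) * uS a x (k + 2) +
      (X x) ^ (k + 1) * (F * ((cU a x (k + 1) : (MvPowerSeries I ℚ)ˣ) : MvPowerSeries I ℚ) *
        uS a x (k + 1) ^ q) := by
    linear_combination (-(F * uS a x (k + 1) ^ q)) * hrec
  rw [hsplit, raw_add_left, raw_X_pow]
  have hzero : raw γ ((F * uS a x (k + 1) ^ q * uS a x k) * uS a x (k + 2)) c = 0 := by
    have h1 : raw γ ((F * uS a x (k + 1) ^ q * uS a x k) * uS a x (k + 2)) c =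
        raw γ (F * uS a x (k + 1) ^ q * uS a x k)
          (Function.update c x (fun l => uS a x (k + 2) * c x l)) := by
      rw [raw_smul, Function.update_eq_self]
    rw [h1]
    unfold raw
    have hdet : Fil a x ((∑ i, (if i = x then ((k + 2 : ℕ) : ℤ) else 0)) - 1)
        (colMat (Function.update c x (fun l => uS a x (k + 2) * c x l))).det := by
      apply det_reg
      intro i
      by_cases hi : i = x
      · subst hi
        rw [Function.update_self, if_pos rfl, hcx]
        exact xv_pole a hs i hx (k + 2)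
      · rw [Function.update_of_ne hi, if_neg hi]
        exact hc i hi
    rw [Finset.sum_ite_eq' Finset.univ x, if_pos (Finset.mem_univ x)] at hdet
    have hF2 := ((hF.mul ((uS_fil_self a hs x hx (k + 1)).pow q)).mul
      (uS_fil_self a hs x hx k)).mul hdet
    apply hF2.coeff_eq_zero
    rw [hγ]
    push_cast
    linarith
  rw [hzero, zero_add]

end Pool.Agent.H27.KAC
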