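import Pool.Agent.H27.KAC.KQSt1
import Pool.Agent.H27.KAC.KQRaw3
import Pool.Agent.H27.KAC.KQRaw4

/-!
KAC module KQSt4: wall creation, D to A, and reduction of the power of a wall.

* `st_create`: `P j = 0`, `p j ≥ 1`.  The part `- ∑ H l j v_l` of column `j` contributes 0
  (`vanish_general`, b = 0, g = 0, c = p j), then `raw_replace` (h i = - H j i, k = κ j - 1) replaces
  `v_j` in the other columns by `(1/2) ∑ a j l v_l` (the neighbours are at the same level).
* `st_DtoA`: a D-wall with positive power is an A-wall (same argument).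
* `st_reduce`: `raw_reduce` with k = κ x - 1; the neighbours are one level below, so that
  `U_{l,κ x - 1} = U_{l, κ l}`.
-/

namespace Pool.Agent.H27.KAC

open scoped BigOperators
open MvPowerSeries

variable {I : Type} [Fintype I] [DecidableEq I]

theorem kqst4_vreg_neg {a : I → I → ℕ} {x : I} {v : I → MvPowerSeries I ℚ} (h : VReg a x 0 v) :
    VReg a x 0 (fun l => - v l) :=
  ⟨fun l hl => (h.1 l hl).neg, h.2.neg⟩

theorem kqst4_vreg_zero (a : I → I → ℕ) (x : I) : VReg a x 0 (fun _ => (0 : MvPowerSeries I ℚ)) :=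
  ⟨fun _ _ => Fil_zero a x 0, Fil_zero a x (0 - 1)⟩

/-- the lower forms of the vertices other than `x` are regular. -/
theorem kqst4_vreg_lin (a : I → I → ℕ) (hs : ∀ i j, a i j = a j i) (x : I) (hx : a x x = 0)
    (h : I → ℚ) (n : I → ℕ) :
    VReg a x 0 (fun l => ∑ l' ∈ Finset.univ.erase x, C (h l') * xv a l' (n l') l) := by
  apply VReg.sum (s := Finset.univ.erase x) (v := fun l' l => C (h l') * xv a l' (n l') l)
  intro l' hl'
  have hl : l' ≠ x := Finset.ne_of_mem_erase hl'
  have h1 := VReg.smul (Fil_C a x (h l')) (xv_reg a hs x hx l' hl (n l'))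
  rw [add_zero] at h1
  exact h1

/-- the factor of the vertex `i`. -/
noncomputable def kqst4_g (a : I → I → ℕ) (κ : I → ℕ) (P p : I → ℤ) (i : I) :
    (MvPowerSeries I ℚ)ˣ :=
  (uu a i (κ i)) ^ (-(P i)) * (uu a i (κ i - 1)) ^ (p i)

theorem kqst4_g_fil (a : I → I → ℕ) (hs : ∀ i j, a i j = a j i) (x : I) (hx : a x x = 0)
    (κ : I → ℕ) (P p : I → ℤ) (i : I) (hi : i ≠ x) :
    Fil a x 0 ((kqst4_g a κ P p i : (MvPowerSeries I ℚ)ˣ) : MvPowerSeries I ℚ) := by
  unfold kqst4_g
  rw [Units.val_mul]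
  have h1 := (uu_zpow_fil a hs x hx i hi (κ i) (-(P i))).mul
    (uu_zpow_fil a hs x hx i hi (κ i - 1) (p i))
  rw [add_zero] at h1
  exact h1

theorem kqst4_prod_fil (a : I → I → ℕ) (x : I) (s : Finset I) (g : I → (MvPowerSeries I ℚ)ˣ)
    (hg : ∀ i ∈ s, Fil a x 0 ((g i : (MvPowerSeries I ℚ)ˣ) : MvPowerSeries I ℚ)) :
    Fil a x 0 (((∏ i ∈ s, g i : (MvPowerSeries I ℚ)ˣ)) : MvPowerSeries I ℚ) := by
  rw [Units.coe_prod]
  have h1 := Fil.prod (a := a) (x := x) (r := fun _ : I => (0 : ℤ)) (s := s)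
    (F := fun i => ((g i : (MvPowerSeries I ℚ)ˣ) : MvPowerSeries I ℚ)) hg
  simpa using h1

/-- the product of the factors of the vertices other than `x`. -/
noncomputable def kqst4_F (a : I → I → ℕ) (κ : I → ℕ) (P p : I → ℤ) (x : I) :
    MvPowerSeries I ℚ :=
  ((∏ i ∈ Finset.univ.erase x, kqst4_g a κ P p i : (MvPowerSeries I ℚ)ˣ) : MvPowerSeries I ℚ)

theorem kqst4_F_fil (a : I → I → ℕ) (hs : ∀ i j, a i j = a j i) (x : I) (hx : a x x = 0)
    (κ : I → ℕ) (P p : I → ℤ) : Fil a x 0 (kqst4_F a κ P p x) :=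
  kqst4_prod_fil a x _ _ fun i hi => kqst4_g_fil a hs x hx κ P p i (Finset.ne_of_mem_erase hi)

/-- the factor of a state with `P x = 0`. -/
theorem kqst4_facS (a : I → I → ℕ) (σ : Sta I) (x : I) (q : ℕ) (hP : σ.P x = 0)
    (hq : σ.p x = q) :
    facS a σ = kqst4_F a σ.κ σ.P σ.p x * uS a x (σ.κ x - 1) ^ q := by
  have h1 : facS a σ = ((∏ i, kqst4_g a σ.κ σ.P σ.p i : (MvPowerSeries I ℚ)ˣ) :
    MvPowerSeries I ℚ) := rfl
  rw [h1, ← Finset.prod_erase_mul _ _ (Finset.mem_univ x), Units.val_mul]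
  unfold kqst4_F
  congr 1
  unfold kqst4_g
  rw [hP, hq, neg_zero, zpow_zero, one_mul, zpow_natCast, Units.val_pow_eq_pow_val, uu_coe]

/-- splitting off the lower form of `x` in column `i`. -/
theorem kqst4_col (a : I → I → ℕ) (σ : Sta I) (x i : I) (l : I) :
    colS a σ i l = (xv a i (σ.κ i) l -
      ∑ l' ∈ Finset.univ.erase x, C (σ.H l' i) * xv a l' (σ.κ l' - 1) l) +
      C (-(σ.H x i)) * xv a x (σ.κ x - 1) l := by
  unfold colS
  rw [← Finset.add_sum_erase _ _ (Finset.mem_univ x), map_neg]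
  ring

theorem st_create (a : I → I → ℕ) (hs : ∀ i j, a i j = a j i) (γ : I →₀ ℕ) (σ : Sta I)
    (hκ1 : ∀ i, 1 ≤ σ.κ i) (j : I) (hj : a j j = 0) (hP : σ.P j = 0) (hp : 1 ≤ σ.p j)
    (hn : ∀ l, 0 < a j l → σ.κ l = σ.κ j) (hc : Cons a γ σ j) :
    Val a γ σ = Val a γ (staCr a σ j) := by
  obtain ⟨k, hk⟩ : ∃ k, σ.κ j = k + 1 := ⟨σ.κ j - 1, by have := hκ1 j; omega⟩
  obtain ⟨q, hq⟩ := Int.eq_ofNat_of_zero_le (le_trans zero_le_one hp)
  have hq1 : 1 ≤ q := by
    have h1 := hp
    rw [hq] at h1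
    exact_mod_cast h1
  have hγ : cw a γ j = (k : ℤ) * q := by
    have h1 := hc
    unfold Cons at h1
    rw [h1, hP, hk, hq]
    push_cast
    ring
  have hF := kqst4_F_fil a hs j hj σ.κ σ.P σ.p
  obtain ⟨F, hFd⟩ : ∃ F, F = kqst4_F a σ.κ σ.P σ.p j := ⟨_, rfl⟩
  rw [← hFd] at hF
  have hk1 : σ.κ j - 1 = k := by omega
  have hfac : facS a σ = F * uS a j k ^ q := by
    rw [kqst4_facS a σ j q hP hq, hFd, hk1]
  have hfac' : facS a (staCr a σ j) = F * uS a j k ^ q := hfac
  -- the regular parts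
  obtain ⟨ρ, hρd⟩ : ∃ ρ : I → I → MvPowerSeries I ℚ, ρ = fun i l =>
      - ∑ l' ∈ Finset.univ.erase j, C (σ.H l' i) * xv a l' (σ.κ l' - 1) l := ⟨_, rfl⟩
  have hρ : ∀ i, VReg a j 0 (ρ i) := by
    intro i
    rw [hρd]
    exact kqst4_vreg_neg (kqst4_vreg_lin a hs j hj (fun l' => σ.H l' i) (fun l' => σ.κ l' - 1))
  obtain ⟨r, hrd⟩ : ∃ r : I → I → MvPowerSeries I ℚ, r = fun i l =>
      xv a i (σ.κ i) l + ρ i l := ⟨_, rfl⟩
  have hr : ∀ i, i ≠ j → VReg a j 0 (r i) := by
    intro i hi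
    rw [hrd]
    exact (xv_reg a hs j hj i hi (σ.κ i)).add (hρ i)
  obtain ⟨h, hhd⟩ : ∃ h : I → ℚ, h = fun i => -(σ.H j i) := ⟨_, rfl⟩
  have hcol : ∀ i l, colS a σ i l = r i l + C (h i) * xv a j k l := by
    intro i l
    rw [kqst4_col a σ j i l, hrd, hρd, hhd, hk1]
    ring
  -- column `j`
  have hL : colS a σ = Function.update (fun i l => r i l + C (h i) * xv a j k l) j
      (fun l => xv a j (k + 1) l + (ρ j l + C (h j) * xv a j k l)) := by
    funext i l
    by_cases hi : i = j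
    · rw [hi, Function.update_self, hcol, hrd]
      simp only
      rw [hk]
      ring
    · rw [Function.update_of_ne hi, hcol]
  have hvan : raw γ (F * uS a j k ^ q)
      (Function.update (fun i l => r i l + C (h i) * xv a j k l) j
      (fun l => ρ j l + C (h j) * xv a j k l)) = 0 := by
    have h1 := vanish_general a hs j hj (k + 1) (Nat.succ_le_succ (Nat.zero_le k)) 0 q F hF
      (fun i => if i = j then ρ j else r i) (by
        intro i
        by_cases hi : i = j
        · simp only [hi, if_true]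
          exact hρ j
        · simp only [hi, if_false]
          exact hr i hi) (fun _ => 0) h (fun _ _ => rfl) (by omega) γ (by
        rw [hγ]
        push_cast
        ring)
    have h2 : k + 1 - 1 = k := rfl
    rw [pow_zero, mul_one, h2] at h1
    rw [← h1]
    congr 1
    funext i l
    by_cases hi : i = j
    · rw [hi, Function.update_self]
      simp
    · rw [Function.update_of_ne hi]
      simp [hi]
  have hrep := raw_replace a hs j hj k q hq1 γ hγ F hF r hr h
  have hR : colS a (staCr a σ j) =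
      Function.update (fun i l => r i l + C (h i) * ∑ l', C ((a j l' : ℚ) / 2) * xv a l' k l)
        j (xv a j (k + 1)) := by
    funext i l
    by_cases hi : i = j
    · rw [hi, Function.update_self]
      unfold colS staCr
      simp only [true_or, if_true, map_zero, zero_mul, Finset.sum_const_zero, sub_zero]
      rw [hk]
    · rw [Function.update_of_ne hi]
      unfold colS staCr
      simp only [hi, false_or]
      rw [← Finset.add_sum_erase Finset.univ
        (fun l' => C (if l' = j then 0 else σ.H l' i + (a l' j : ℚ) / 2 * σ.H j i) *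
          xv a l' (σ.κ l' - 1) l) (Finset.mem_univ j),
        ← Finset.add_sum_erase Finset.univ (fun l' => C ((a j l' : ℚ) / 2) * xv a l' k l)
        (Finset.mem_univ j)]
      rw [if_pos rfl, map_zero, zero_mul, zero_add, hj, hrd, hρd, hhd]
      have h0 : (C (((0 : ℕ) : ℚ) / 2) : MvPowerSeries I ℚ) = 0 := by
        rw [Nat.cast_zero, zero_div, map_zero]
      rw [h0, zero_mul, zero_add, Finset.mul_sum]
      simp only
      rw [sub_eq_add_neg, add_assoc]
      congr 1
      rw [← sub_eq_zero]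
      have h1 : ∀ l' ∈ Finset.univ.erase j,
          C (if l' = j then 0 else σ.H l' i + (a l' j : ℚ) / 2 * σ.H j i) *
            xv a l' (σ.κ l' - 1) l =
          C (σ.H l' i) * xv a l' (σ.κ l' - 1) l -
            C (-(σ.H j i)) * (C ((a j l' : ℚ) / 2) * xv a l' k l) := by
        intro l' hl'
        have hl : l' ≠ j := Finset.ne_of_mem_erase hl'
        rw [if_neg hl, hs l' j]
        by_cases h2 : a j l' = 0
        · rw [h2]
          simp
        · have h3 : σ.κ l' - 1 = k := by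
            rw [hn l' (Nat.pos_of_ne_zero h2)]
            exact hk1
          rw [h3, map_add, map_neg, map_mul]
          ring
      rw [Finset.sum_congr rfl h1, Finset.sum_sub_distrib]
      ring
  unfold Val
  rw [hfac, hfac', hL, raw_add, hvan, add_zero, hrep, hR]

theorem kqst4_diag (a : I → I → ℕ) (hs : ∀ i j, a i j = a j i) (γ : I →₀ ℕ) (σ : Sta I)
    (hκ1 : ∀ i, 1 ≤ σ.κ i) (x : I) (hxx : a x x = 0) (hP : σ.P x = 0)
    (hrow : ∀ i, i ≠ x → σ.H x i = 0) (hcol : ∀ l, l ≠ x → σ.H l x = 0)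
    (hp : 1 ≤ σ.p x) (hc : Cons a γ σ x) :
    Val a γ σ = raw γ (facS a σ) (Function.update (colS a σ) x (xv a x (σ.κ x))) := by
  obtain ⟨k, hk⟩ : ∃ k, σ.κ x = k + 1 := ⟨σ.κ x - 1, by have := hκ1 x; omega⟩
  obtain ⟨q, hq⟩ := Int.eq_ofNat_of_zero_le (le_trans zero_le_one hp)
  have hq1 : 1 ≤ q := by
    have h1 := hp
    rw [hq] at h1
    exact_mod_cast h1
  have hγ : cw a γ x = (k : ℤ) * q := by
    have h1 := hc
    unfold Cons at h1
    rw [h1, hP, hk, hq]
    push_cast
    ring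
  have hk1 : σ.κ x - 1 = k := by omega
  have hfac : facS a σ = kqst4_F a σ.κ σ.P σ.p x * uS a x k ^ q := by
    rw [kqst4_facS a σ x q hP hq, hk1]
  have hreg : ∀ i, i ≠ x → VReg a x 0 (colS a σ i) := by
    intro i hi
    have h1 := (xv_reg a hs x hxx i hi (σ.κ i)).add
      (kqst4_vreg_neg (kqst4_vreg_lin a hs x hxx (fun l' => σ.H l' i) (fun l' => σ.κ l' - 1)))
    have h2 : colS a σ i = fun l => xv a i (σ.κ i) l +
        - ∑ l' ∈ Finset.univ.erase x, C (σ.H l' i) * xv a l' (σ.κ l' - 1) l := by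
      funext l
      rw [kqst4_col a σ x i l, hrow i hi, neg_zero, map_zero, zero_mul, add_zero, sub_eq_add_neg]
    rw [h2]
    exact h1
  have hcx : ∀ l, colS a σ x l = xv a x (σ.κ x) l + C (-(σ.H x x)) * xv a x k l := by
    intro l
    rw [kqst4_col a σ x x l, hk1]
    have h1 : ∑ l' ∈ Finset.univ.erase x, C (σ.H l' x) * xv a l' (σ.κ l' - 1) l = 0 := by
      apply Finset.sum_eq_zero
      intro l' hl'
      rw [hcol l' (Finset.ne_of_mem_erase hl'), map_zero, zero_mul]
    rw [h1, sub_zero]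
  have hL : colS a σ = Function.update (colS a σ) x
      (fun l => xv a x (σ.κ x) l + C (-(σ.H x x)) * xv a x k l) := by
    funext i
    by_cases hi : i = x
    · rw [hi, Function.update_self]
      funext l
      exact hcx l
    · rw [Function.update_of_ne hi]
  have hvan : raw γ (facS a σ) (Function.update (colS a σ) x
      (fun l => C (-(σ.H x x)) * xv a x k l)) = 0 := by
    have h1 := vanish_general a hs x hxx (k + 1) (Nat.succ_le_succ (Nat.zero_le k)) 0 q
      (kqst4_F a σ.κ σ.P σ.p x) (kqst4_F_fil a hs x hxx σ.κ σ.P σ.p)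
      (fun i => if i = x then (fun _ => 0) else colS a σ i) (by
        intro i
        by_cases hi : i = x
        · simp only [hi, if_true]
          exact kqst4_vreg_zero a x
        · simp only [hi, if_false]
          exact hreg i hi) (fun _ => 0) (fun i => if i = x then -(σ.H x x) else 0)
        (fun _ _ => rfl) (by omega) γ (by
        rw [hγ]
        push_cast
        ring)
    have h2 : k + 1 - 1 = k := rfl
    rw [pow_zero, mul_one, h2] at h1
    rw [hfac, ← h1]
    congr 1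
    funext i l
    by_cases hi : i = x
    · rw [hi, Function.update_self]
      simp
    · rw [Function.update_of_ne hi]
      simp [hi]
  unfold Val
  conv_lhs => rw [hL]
  rw [raw_add, hvan, add_zero]

theorem st_DtoA (a : I → I → ℕ) (hs : ∀ i j, a i j = a j i) (γ : I →₀ ℕ) (σ : Sta I)
    (ty : I → Ty) (hS : Shape a σ ty) (hκ1 : ∀ i, 1 ≤ σ.κ i) (x : I) (hx : ty x ≠ Ty.R)
    (hp : 1 ≤ σ.p x) (hc : Cons a γ σ x) (d : ℚ) :
    Val a γ ⟨σ.κ, σ.P, σ.p, fun l i => if l = x ∧ i = x then d else σ.H l i⟩ = Val a γ σ := by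
  have hxx := hS.loopfree x hx
  have hPx := hS.P0 x hx
  have hrow := hS.row x hx
  have hcol := hS.col x hx
  have h1 := kqst4_diag a hs γ ⟨σ.κ, σ.P, σ.p, fun l i => if l = x ∧ i = x then d else σ.H l i⟩
    hκ1 x hxx hPx (by
      intro i hi
      show (if x = x ∧ i = x then d else σ.H x i) = 0
      rw [if_neg (fun h => hi h.2)]
      exact hrow i hi) (by
      intro l hl
      show (if l = x ∧ x = x then d else σ.H l x) = 0
      rw [if_neg (fun h => hl h.1)]
      exact hcol l hl) hp hc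
  have h2 := kqst4_diag a hs γ σ hκ1 x hxx hPx hrow hcol hp hc
  rw [h1, h2]
  have h3 : facS a ⟨σ.κ, σ.P, σ.p, fun l i => if l = x ∧ i = x then d else σ.H l i⟩ =
    facS a σ := rfl
  rw [h3]
  congr 1
  funext i
  by_cases hi : i = x
  · rw [hi, Function.update_self, Function.update_self]
  · rw [Function.update_of_ne hi, Function.update_of_ne hi]
    funext l
    unfold colS
    simp only [hi, and_false, if_false]

theorem st_reduce (a : I → I → ℕ) (hs : ∀ i j, a i j = a j i) (γ : I →₀ ℕ) (σ : Sta I)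
    (ty : I → Ty) (hS : Shape a σ ty) (hκ1 : ∀ i, 1 ≤ σ.κ i) (x : I) (hx : ty x = Ty.A) (k : ℕ)
    (hk : σ.κ x = k + 2) (hp : 2 ≤ σ.p x) (hn : ∀ l, 0 < a x l → σ.κ l = k + 1)
    (hc : Cons a γ σ x) :
    Val a γ σ = VSub a γ x (k + 1) (staRed a σ x) := by
  have hxR : ty x ≠ Ty.R := by rw [hx]; decide
  have hxx := hS.loopfree x hxR
  have hPx := hS.P0 x hxR
  have hrow := hS.row x hxR
  have hcol := hS.col x hxR
  have hdg := hS.diagA x hx
  obtain ⟨q, hq⟩ := Int.eq_ofNat_of_zero_le (sub_nonneg.2 hp)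
  have hq2 : σ.p x = ((q + 2 : ℕ) : ℤ) := by
    have h1 : σ.p x = (q : ℤ) + 2 := by linarith
    rw [h1]
    push_cast
    rfl
  have hγ : cw a γ x = ((k + 1 : ℕ) : ℤ) * (q + 2) := by
    have h1 := hc
    unfold Cons at h1
    rw [h1, hPx, hk, hq2]
    push_cast
    ring
  have hk1 : σ.κ x - 1 = k + 1 := by omega
  have hfac : facS a σ = kqst4_F a σ.κ σ.P σ.p x * uS a x (k + 1) ^ (q + 2) := by
    rw [kqst4_facS a σ x (q + 2) hPx hq2, hk1]
  have hreg : ∀ i, i ≠ x → VReg a x 0 (colS a σ i) := by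
    intro i hi
    have h1 := (xv_reg a hs x hxx i hi (σ.κ i)).add
      (kqst4_vreg_neg (kqst4_vreg_lin a hs x hxx (fun l' => σ.H l' i) (fun l' => σ.κ l' - 1)))
    have h2 : colS a σ i = fun l => xv a i (σ.κ i) l +
        - ∑ l' ∈ Finset.univ.erase x, C (σ.H l' i) * xv a l' (σ.κ l' - 1) l := by
      funext l
      rw [kqst4_col a σ x i l, hrow i hi, neg_zero, map_zero, zero_mul, add_zero, sub_eq_add_neg]
    rw [h2]
    exact h1
  have hcx : colS a σ x = xv a x (k + 1 + 1) := by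
    funext l
    rw [kqst4_col a σ x x l, hdg, neg_zero, map_zero, zero_mul, add_zero]
    have h1 : ∑ l' ∈ Finset.univ.erase x, C (σ.H l' x) * xv a l' (σ.κ l' - 1) l = 0 := by
      apply Finset.sum_eq_zero
      intro l' hl'
      rw [hcol l' (Finset.ne_of_mem_erase hl'), map_zero, zero_mul]
    rw [h1, sub_zero, hk]
  have main := raw_reduce a hs x hxx (k + 1) q (Nat.succ_le_succ (Nat.zero_le k)) γ hγ
    (kqst4_F a σ.κ σ.P σ.p x) (kqst4_F_fil a hs x hxx σ.κ σ.P σ.p) (colS a σ) hreg hcx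
  have hcR : colS a (staRed a σ x) = colS a σ := rfl
  have hPr : (staRed a σ x).P x = 0 := by
    show σ.P x - (a x x : ℤ) = 0
    rw [hPx, hxx]
    simp
  have hpr : (staRed a σ x).p x = q := by
    show Function.update σ.p x (σ.p x - 2) x = q
    rw [Function.update_self, hq]
  have hfR : facS a (staRed a σ x) = kqst4_F a σ.κ σ.P σ.p x *
      ((cU a x (k + 1) : (MvPowerSeries I ℚ)ˣ) : MvPowerSeries I ℚ) * uS a x (k + 1) ^ q := by
    rw [kqst4_facS a (staRed a σ x) x q hPr hpr]
    have h0 : (staRed a σ x).κ x - 1 = k + 1 := hk1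
    rw [h0]
    congr 1
    unfold kqst4_F cU
    rw [← Finset.prod_erase_mul Finset.univ (fun l => uu a l (k + 1) ^ a x l)
      (Finset.mem_univ x), hxx, pow_zero, mul_one, ← Units.val_mul, ← Finset.prod_mul_distrib]
    congr 1
    refine Finset.prod_congr rfl fun i hi => ?_
    have hix : i ≠ x := Finset.ne_of_mem_erase hi
    unfold kqst4_g
    have e1 : (staRed a σ x).κ i = σ.κ i := rfl
    have e2 : (staRed a σ x).P i = σ.P i - (a x i : ℤ) := rfl
    have e3 : (staRed a σ x).p i = σ.p i := by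
      show Function.update σ.p x (σ.p x - 2) i = σ.p i
      rw [Function.update_of_ne hix]
    rw [e1, e2, e3]
    have e4 : uu a i (k + 1) ^ a x i = uu a i (σ.κ i) ^ ((a x i : ℕ) : ℤ) := by
      by_cases h : a x i = 0
      · rw [h]
        simp
      · rw [hn i (Nat.pos_of_ne_zero h), zpow_natCast]
    have e5 : -(σ.P i - (a x i : ℤ)) = -(σ.P i) + (a x i : ℤ) := by ring
    rw [e4, e5, zpow_add]
    exact mul_right_comm _ _ _
  unfold Val VSub
  rw [hfac, main]
  unfold rawSub Val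
  rw [hfR, hcR]

end Pool.Agent.H27.KAC
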