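import Pool.Agent.H27.KAC.KP1
import Pool.Agent.H27.KAC.KQSt4

/-!
KAC module KP6: wall creation in a fresh state (level `k + 2`).

Let `j` be regular with `Ph_j = 0`.  By `alt` `ph_j > 0`; `j` is not fat by `core_fat`
(`(k+1) ph_j ≤ 0` is impossible); so `a j j = 0` (`GoodMat.diag`), no wall is adjacent to `j`,
`P_j = 0`, `p_j = ph_j ≥ 1` (`ph_of_notFat`); all neighbours of `j` are regular, hence at level `k+2`;
`st_create`.  New types: `Function.update ty j Ty.A`.
New exponents: `Ph' = Ph`, `ph'_l = ph_l + (1/2) a_{jl} p_j`, `dfc'_l = dfc_l + (1/2) a_{jl} dfc_j`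
(`Ph_j = 0`).
`pos_Fr_of_Ph1`: induction on the number of regular vertices; if all regular vertices have `Ph > 0`
the state is in phase 1.
-/

namespace Pool.Agent.H27.KAC

open scoped BigOperators
open MvPowerSeries

variable {I : Type} [Fintype I] [DecidableEq I]

/-- the facts about a regular vertex with vanishing upper exponent. -/
theorem KP6_facts (a : I → I → ℕ) (hg : GoodMat a) (γ : I →₀ ℕ) (σ : Sta I)
    (ty : I → Ty) (k : ℕ) (h : Fr a γ σ ty (k + 2)) (j : I) (hj : ty j = Ty.R)
    (hP : PhS a σ ty j = 0) :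
    a j j = 0 ∧ (∀ x, ty x ≠ Ty.R → a x j = 0) ∧ σ.P j = 0 ∧ 1 ≤ σ.p j ∧
      phS a σ ty j = (σ.p j : ℚ) := by
  have hph : 0 < phS a σ ty j := by
    rcases h.alt j hj with h1 | h1
    · exact h1
    · have := h1.2.2.1
      rw [hP] at this
      exact absurd this (lt_irrefl _)
  have hκ := h.reg j hj
  have hnf : ¬ Fat a ty j := by
    intro hf
    have h1 := core_fat a hg γ σ.κ σ.P σ.p ty (core_of_base h.toBase) j hj hf
    have h2 : Ph a σ.κ σ.P σ.p ty j = 0 := hP
    rw [h2, mul_zero, hκ] at h1
    have h3 : (0 : ℚ) < (((k + 2 : ℕ) : ℚ) - 1) := by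
      push_cast
      have : (0 : ℚ) ≤ k := Nat.cast_nonneg k
      linarith
    have h4 : 0 < (((k + 2 : ℕ) : ℚ) - 1) * ph a σ.κ σ.P σ.p ty j := mul_pos h3 hph
    linarith
  obtain ⟨h5, h6⟩ := ph_of_notFat a σ.κ σ.P σ.p ty j hnf
  have h7 : a j j = 0 := by
    have h8 : ¬ 2 ≤ a j j := fun h8 => hnf (Or.inl h8)
    have h9 := hg.diag j
    omega
  have h8 : ∀ x, ty x ≠ Ty.R → a x j = 0 := by
    intro x hx
    by_contra h9
    exact hnf (Or.inr ⟨x, hx, Nat.pos_of_ne_zero h9⟩)
  refine ⟨h7, h8, ?_, ?_, h6⟩
  · have h9 : (σ.P j : ℚ) = 0 := by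
      rw [← h5]
      exact hP
    exact_mod_cast h9
  · have h9 : (0 : ℚ) < σ.p j := by
      rw [← h6]
      exact hph
    have h10 : 0 < σ.p j := by exact_mod_cast h9
    omega

theorem KP6_filter (ty : I → Ty) (j : I) :
    Finset.univ.filter (fun x => Function.update ty j Ty.A x ≠ Ty.R) =
      insert j (Finset.univ.filter (fun x => ty x ≠ Ty.R)) := by
  ext x
  rw [Finset.mem_insert, Finset.mem_filter, Finset.mem_filter]
  by_cases hx : x = j
  · subst hx
    simp
  · rw [Function.update_of_ne hx]
    simp [hx]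

theorem create_step (a : I → I → ℕ) (hg : GoodMat a) (γ : I →₀ ℕ) (σ : Sta I)
    (ty : I → Ty) (k : ℕ) (h : Fr a γ σ ty (k + 2)) (j : I) (hj : ty j = Ty.R)
    (hP : PhS a σ ty j = 0) :
    Fr a γ (staCr a σ j) (Function.update ty j Ty.A) (k + 2) ∧
      Val a γ σ = Val a γ (staCr a σ j) := by
  obtain ⟨hjj, hwj, hPj, hpj, hphj⟩ := KP6_facts a hg γ σ ty k h j hj hP
  have hs := hg.symm
  have hκj := h.reg j hj
  have hne : ∀ l, Function.update ty j Ty.A l = Ty.R → l ≠ j ∧ ty l = Ty.R := by
    intro l hl
    by_cases hlj : l = j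
    · subst hlj
      rw [Function.update_self] at hl
      cases hl
    · rw [Function.update_of_ne hlj] at hl
      exact ⟨hlj, hl⟩
  have hnot : j ∉ Finset.univ.filter (fun x => ty x ≠ Ty.R) := by
    rw [Finset.mem_filter]
    exact fun h1 => h1.2 hj
  have hPh : ∀ l, σ.κ l = k + 2 → PhS a (staCr a σ j) (Function.update ty j Ty.A) l =
      PhS a σ ty l := by
    intro l hl
    show Ph a σ.κ σ.P σ.p (Function.update ty j Ty.A) l = Ph a σ.κ σ.P σ.p ty l
    unfold Ph
    rw [KP6_filter, Finset.sum_insert hnot, hl, hκj]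
    ring
  have hph : ∀ l, σ.κ l = k + 2 → phS a (staCr a σ j) (Function.update ty j Ty.A) l =
      phS a σ ty l + (a j l : ℚ) * (σ.p j : ℚ) / 2 := by
    intro l hl
    show ph a σ.κ σ.P σ.p (Function.update ty j Ty.A) l =
      ph a σ.κ σ.P σ.p ty l + (a j l : ℚ) * (σ.p j : ℚ) / 2
    unfold ph
    rw [KP6_filter, Finset.sum_insert hnot, hl, hκj]
    ring
  have hpQ : (0 : ℚ) < σ.p j := by
    have : (1 : ℚ) ≤ σ.p j := by exact_mod_cast hpj
    linarith
  have hle : ∀ l, ty l = Ty.R → phS a σ ty l ≤
      phS a (staCr a σ j) (Function.update ty j Ty.A) l := by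
    intro l hl
    rw [hph l (h.reg l hl)]
    have : (0 : ℚ) ≤ (a j l : ℚ) * (σ.p j : ℚ) / 2 := by positivity
    linarith
  have hH : ∀ l i, (staCr a σ j).H l i =
      if i = j ∨ l = j then 0 else σ.H l i + (a l j : ℚ) / 2 * σ.H j i := fun _ _ => rfl
  refine ⟨⟨⟨⟨?_, ?_, ?_, ?_, ?_, ?_, ?_, ?_, ?_⟩, h.k1, h.cons, h.lev, ?_, ?_, ?_, ?_, ?_⟩,
    ?_, ?_⟩, ?_⟩
  · -- loopfree
    intro x hx
    by_cases hxj : x = j
    · rw [hxj]
      exact hjj
    · rw [Function.update_of_ne hxj] at hx
      exact h.shape.loopfree x hx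
  · intro x hx
    by_cases hxj : x = j
    · rw [hxj]
      exact hPj
    · rw [Function.update_of_ne hxj] at hx
      exact h.shape.P0 x hx
  · intro x hx
    by_cases hxj : x = j
    · rw [hxj]
      show 0 ≤ σ.p j
      omega
    · rw [Function.update_of_ne hxj] at hx
      exact h.shape.p0 x hx
  · intro x hx
    by_cases hxj : x = j
    · rw [hxj, Function.update_self] at hx
      cases hx
    · rw [Function.update_of_ne hxj] at hx
      exact h.shape.pD x hx
  · -- row
    intro x hx i hi
    rw [hH]
    by_cases hxj : x = j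
    · rw [if_pos (Or.inr hxj)]
    · rw [Function.update_of_ne hxj] at hx
      by_cases hij : i = j
      · rw [if_pos (Or.inl hij)]
      · rw [if_neg (by tauto), h.shape.row x hx i hi, hwj x hx]
        push_cast
        ring
  · -- col
    intro x hx l hl
    rw [hH]
    by_cases hxj : x = j
    · rw [if_pos (Or.inl hxj)]
    · rw [Function.update_of_ne hxj] at hx
      by_cases hlj : l = j
      · rw [if_pos (Or.inr hlj)]
      · rw [if_neg (by tauto), h.shape.col x hx l hl, h.shape.col x hx j (Ne.symm hxj)]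
        ring
  · -- diagA
    intro x hx
    rw [hH]
    by_cases hxj : x = j
    · rw [if_pos (Or.inl hxj)]
    · rw [Function.update_of_ne hxj] at hx
      have hx2 : ty x ≠ Ty.R := by
        rw [hx]
        intro h1
        cases h1
      rw [if_neg (by tauto), h.shape.diagA x hx, h.shape.col x hx2 j (Ne.symm hxj)]
      ring
  · -- diagD
    intro x hx
    rw [hH]
    by_cases hxj : x = j
    · rw [hxj, Function.update_self] at hx
      cases hx
    · rw [Function.update_of_ne hxj] at hx
      have hx2 : ty x ≠ Ty.R := by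
        rw [hx]
        intro h1
        cases h1
      rw [if_neg (by tauto), h.shape.diagD x hx, h.shape.col x hx2 j (Ne.symm hxj)]
      ring
  · -- nonadj
    intro x y hx hy hxy
    by_cases hxj : x = j
    · subst hxj
      rw [Function.update_of_ne (Ne.symm hxy)] at hy
      rw [hs]
      exact hwj y hy
    · rw [Function.update_of_ne hxj] at hx
      by_cases hyj : y = j
      · subst hyj
        exact hwj x hx
      · rw [Function.update_of_ne hyj] at hy
        exact h.shape.nonadj x y hx hy hxy
  · -- Hnn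
    intro l i hl hi
    obtain ⟨hlj, hl⟩ := hne l hl
    obtain ⟨hij, hi⟩ := hne i hi
    rw [hH, if_neg (by tauto)]
    have h1 := h.Hnn l i hl hi
    have h2 := h.Hnn j i hj hi
    positivity
  · -- dnn
    intro l hl
    obtain ⟨hlj, hl⟩ := hne l hl
    have h1 := h.dnn l hl
    have h2 := h.dnn j hj
    have hfil : Finset.univ.filter (fun i => Function.update ty j Ty.A i = Ty.R) =
        (Finset.univ.filter (fun i => ty i = Ty.R)).erase j := by
      ext x
      rw [Finset.mem_erase, Finset.mem_filter, Finset.mem_filter]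
      by_cases hx : x = j
      · subst hx
        simp
      · rw [Function.update_of_ne hx]
        simp [hx]
    have hjR : j ∈ Finset.univ.filter (fun i => ty i = Ty.R) := by
      rw [Finset.mem_filter]
      exact ⟨Finset.mem_univ _, hj⟩
    have hkey : dfc a (staCr a σ j) (Function.update ty j Ty.A) l =
        dfc a σ ty l + (a l j : ℚ) / 2 * dfc a σ ty j := by
      unfold dfc
      rw [hfil, hph l (h.reg l hl), hphj]
      have h3 : ∑ i ∈ (Finset.univ.filter (fun i => ty i = Ty.R)).erase j,
          (staCr a σ j).H l i * PhS a (staCr a σ j) (Function.update ty j Ty.A) i =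
          ∑ i ∈ (Finset.univ.filter (fun i => ty i = Ty.R)).erase j,
            (σ.H l i * PhS a σ ty i + (a l j : ℚ) / 2 * (σ.H j i * PhS a σ ty i)) := by
        apply Finset.sum_congr rfl
        intro i hi
        rw [Finset.mem_erase, Finset.mem_filter] at hi
        rw [hH, if_neg (by tauto), hPh i (h.reg i hi.2.2)]
        ring
      rw [h3, Finset.sum_add_distrib, ← Finset.mul_sum]
      have h4 : ∀ f : I → ℚ, ∑ i ∈ (Finset.univ.filter (fun i => ty i = Ty.R)).erase j,
          f i * PhS a σ ty i = ∑ i ∈ Finset.univ.filter (fun i => ty i = Ty.R),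
            f i * PhS a σ ty i := by
        intro f
        rw [← Finset.add_sum_erase _ _ hjR, hP, mul_zero, zero_add]
      rw [h4 (fun i => σ.H l i), h4 (fun i => σ.H j i), hs j l]
      ring
    rw [hkey]
    positivity
  · -- Pnn
    intro l hl
    obtain ⟨hlj, hl⟩ := hne l hl
    rw [hPh l (h.reg l hl)]
    exact h.Pnn l hl
  · -- alt
    intro l hl
    obtain ⟨hlj, hl⟩ := hne l hl
    rcases h.alt l hl with h1 | ⟨h1, h2, h3, h4, h5, h6⟩
    · exact Or.inl (lt_of_lt_of_le h1 (hle l hl))
    · by_cases haj : a j l = 0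
      · right
        refine ⟨?_, h2, ?_, h4, ?_, ?_⟩
        · rw [hph l (h.reg l hl), h1, haj]
          push_cast
          ring
        · rw [hPh l (h.reg l hl)]
          exact h3
        · intro i
          rw [hH]
          split_ifs
          · rfl
          · rw [h5 i, hs l j, haj]
            push_cast
            ring
        · intro x hx
          by_cases hxj : x = j
          · rw [hxj]
            exact haj
          · rw [Function.update_of_ne hxj] at hx
            exact h6 x hx
      · left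
        rw [hph l (h.reg l hl), h1]
        have : (0 : ℚ) < a j l := by exact_mod_cast Nat.pos_of_ne_zero haj
        positivity
  · -- alt2
    intro l l' hl hl' hll h1 h2
    obtain ⟨hlj, hl⟩ := hne l hl
    obtain ⟨hlj', hl'⟩ := hne l' hl'
    have key : ∀ i, ty i = Ty.R → phS a (staCr a σ j) (Function.update ty j Ty.A) i = 0 →
        phS a σ ty i = 0 := by
      intro i hi h0
      have h3 := hle i hi
      rw [h0] at h3
      rcases h.alt i hi with h4 | h4
      · exact absurd (lt_of_lt_of_le h4 h3) (lt_irrefl _)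
      · exact h4.1
    exact h.alt2 l l' hl hl' hll (key l hl h1) (key l' hl' h2)
  · -- reg
    intro l hl
    obtain ⟨hlj, hl⟩ := hne l hl
    exact h.reg l hl
  · -- wall
    intro x hx
    by_cases hxj : x = j
    · rw [hxj]
      exact Or.inl hκj
    · rw [Function.update_of_ne hxj] at hx
      rcases h.wall x hx with h1 | ⟨h1, h2, h3⟩
      · exact Or.inl h1
      · right
        refine ⟨h1, ?_, h3⟩
        rw [Function.update_of_ne hxj]
        exact h2
  · -- the value
    apply st_create a hs γ σ h.k1 j hjj hPj hpj _ (h.cons j)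
    intro l hl
    rw [hκj]
    apply h.reg l
    by_contra hl2
    have := hwj l hl2
    rw [hs] at this
    omega

theorem pos_Fr_of_Ph1 (a : I → I → ℕ) (hg : GoodMat a) (k : ℕ)
    (IH : ∀ (γ : I →₀ ℕ) (σ : Sta I) (ty : I → Ty), Ph1 a γ σ ty (k + 2) → 0 ≤ Val a γ σ)
    (γ : I →₀ ℕ) (σ : Sta I) (ty : I → Ty) (h : Fr a γ σ ty (k + 2)) : 0 ≤ Val a γ σ := by
  obtain ⟨n, hn⟩ : ∃ n, n = (Finset.univ.filter (fun i => ty i = Ty.R)).card := ⟨_, rfl⟩
  induction n using Nat.strong_induction_on generalizing σ ty with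
  | _ n ih =>
    by_cases hall : ∀ l, ty l = Ty.R → 0 < PhS a σ ty l
    · apply IH γ σ ty
      refine ⟨h.toBase, fun l hl => Or.inl (h.reg l hl), h.wall, fun l hl _ => hall l hl, ?_⟩
      intro l hl hlk
      have := h.reg l hl
      omega
    · push Not at hall
      obtain ⟨j, hj, hj2⟩ := hall
      have hP : PhS a σ ty j = 0 := le_antisymm hj2 (h.Pnn j hj)
      obtain ⟨h1, h2⟩ := create_step a hg γ σ ty k h j hj hP
      rw [h2]
      refine ih _ ?_ (staCr a σ j) (Function.update ty j Ty.A) h1 rfl
      rw [hn]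
      apply Finset.card_lt_card
      rw [Finset.ssubset_iff_of_subset]
      · refine ⟨j, Finset.mem_filter.mpr ⟨Finset.mem_univ _, hj⟩, ?_⟩
        rw [Finset.mem_filter, Function.update_self]
        rintro ⟨-, h3⟩
        cases h3
      · intro x hx
        rw [Finset.mem_filter] at hx ⊢
        refine ⟨Finset.mem_univ _, ?_⟩
        by_cases hxj : x = j
        · rw [hxj]
          exact hj
        · have := hx.2
          rw [Function.update_of_ne hxj] at this
          exact this

end Pool.Agent.H27.KAC
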