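import Pool.Agent.H27.KAC.KPDefs

/-!
KAC module KP7: invariants of phase 2 under the moves of walls that stay walls.

`h : Ph2 a γ σ ty (k+2)`, `x` a wall with `κ x = k+2`; the neighbours of `x` are regular (`Shape.nonadj`), so
at level `k+1`.  In all cases the hatted exponents of the regular vertices and the regular block of `H`
do not change:
* `ph2_red`: `Ph'_l = P_l - a_{xl} + (1/2) a_{xl} (p_x - 2) (-1) + ... = Ph_l`, `ph'_l = ph_l` (factor
  `κ_l - κ_x + 1 = 0`); consistency: `(Cγ')_i = (Cγ)_i - (k+1) C_{ix}`.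
* `ph2_A`, `ph2_D`: `p_x = 0`, nothing changes but the level of `x`.
* `ph2_lag`: `p_x = 1`, level `k + 3`: `Ph'_l = P_l - a_{xl} + (1/2) a_{xl} = Ph_l`,
  `ph'_l = p_l - a_{xl} + (1/2) a_{xl} * 2 = ph_l`; consistency with `γ' = γ - e_x`.
-/

namespace Pool.Agent.H27.KAC

open scoped BigOperators
open MvPowerSeries

variable {I : Type} [Fintype I] [DecidableEq I]

theorem KP7_nbr (a : I → I → ℕ) (σ : Sta I) (ty : I → Ty) (h : Shape a σ ty) (x : I)
    (hx : ty x ≠ Ty.R) (l : I) (hl : 0 < a x l) : ty l = Ty.R := by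
  by_contra h1
  by_cases h2 : x = l
  · subst h2
    rw [h.loopfree x hx] at hl
    exact lt_irrefl 0 hl
  · rw [h.nonadj x l hx h1 h2] at hl
    exact lt_irrefl 0 hl

theorem KP7_zero (a : I → I → ℕ) (σ : Sta I) (ty : I → Ty) (h : Shape a σ ty) (x : I)
    (hx : ty x ≠ Ty.R) (y : I) (hy : ty y ≠ Ty.R) : a x y = 0 := by
  by_contra h1
  exact hy (KP7_nbr a σ ty h x hx y (Nat.pos_of_ne_zero h1))

theorem ph2_nbr (a : I → I → ℕ) (γ : I →₀ ℕ) (σ : Sta I) (ty : I → Ty) (k : ℕ)
    (h : Ph2 a γ σ ty (k + 2)) (x : I) (hx : ty x ≠ Ty.R) (l : I) (hl : 0 < a x l) :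
    ty l = Ty.R ∧ σ.κ l = k + 1 := by
  have h1 : ty l = Ty.R := KP7_nbr a σ ty h.shape x hx l hl
  have h2 := h.reg l h1
  exact ⟨h1, by omega⟩

theorem KP7_sum (W : Finset I) (x : I) (hx : x ∈ W) (F G : I → ℚ)
    (h : ∀ y ∈ W, y ≠ x → F y = G y) : ∑ y ∈ W, F y = ∑ y ∈ W, G y + (F x - G x) := by
  have h1 : ∑ y ∈ W, (F y - G y) = F x - G x :=
    Finset.sum_eq_single_of_mem x hx fun y hy hyx => sub_eq_zero.2 (h y hy hyx)
  rw [Finset.sum_sub_distrib] at h1
  linarith

theorem KP7_cw (a : I → I → ℕ) (γ : I →₀ ℕ) (x : I) (n : ℕ) (hn : n ≤ γ x) (i : I) :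
    cw a (γ - Finsupp.single x n) i = cw a γ i - cart a i x * (n : ℤ) := by
  have hle : Finsupp.single x n ≤ γ := by
    rw [Finsupp.single_le_iff]
    exact hn
  have e0 : cw a (Finsupp.single x n) i = cart a i x * (n : ℤ) := by
    unfold cw
    rw [Finset.sum_eq_single x]
    · rw [Finsupp.single_eq_same]
    · intro b _ hb
      rw [Finsupp.single_eq_of_ne hb]
      simp
    · intro h
      exact absurd (Finset.mem_univ x) h
  have e1 : cw a γ i = cw a (γ - Finsupp.single x n) i + cart a i x * (n : ℤ) := by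
    conv_lhs => rw [← tsub_add_cancel_of_le hle]
    rw [cw_add, e0]
  linarith

theorem KP7_base (a : I → I → ℕ) (γ γ' : I →₀ ℕ) (σ σ' : Sta I) (ty ty' : I → Ty)
    (hb : Base a γ σ ty) (hR : ∀ i, ty' i = Ty.R ↔ ty i = Ty.R) (hshape : Shape a σ' ty')
    (hk1 : ∀ i, 1 ≤ σ'.κ i) (hcons : ∀ i, Cons a γ' σ' i)
    (hlev : ∀ i j, 0 < a i j → σ'.κ i ≤ σ'.κ j + 1)
    (hP : ∀ l, ty l = Ty.R → PhS a σ' ty' l = PhS a σ ty l)
    (hp : ∀ l, ty l = Ty.R → phS a σ' ty' l = phS a σ ty l)
    (hH : ∀ l i, ty l = Ty.R → ty i = Ty.R → σ'.H l i = σ.H l i)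
    (hp0 : ∀ l, ty l = Ty.R → σ.p l = 0 → (∀ x, ty x ≠ Ty.R → a x l = 0) → σ'.p l = 0) :
    Base a γ' σ' ty' := by
  refine ⟨hshape, hk1, hcons, hlev, ?_, ?_, ?_, ?_, ?_⟩
  · intro l i hl hi
    rw [hR] at hl hi
    rw [hH l i hl hi]
    exact hb.Hnn l i hl hi
  · intro l hl
    rw [hR] at hl
    have e : dfc a σ' ty' l = dfc a σ ty l := by
      unfold dfc
      rw [hp l hl]
      have ef : Finset.univ.filter (fun i => ty' i = Ty.R) =
          Finset.univ.filter (fun i => ty i = Ty.R) := by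
        ext i
        rw [Finset.mem_filter, Finset.mem_filter, hR]
      rw [ef]
      congr 1
      refine Finset.sum_congr rfl fun i hi => ?_
      have hi' : ty i = Ty.R := (Finset.mem_filter.1 hi).2
      rw [hH l i hl hi', hP i hi']
    rw [e]
    exact hb.dnn l hl
  · intro l hl
    rw [hR] at hl
    rw [hP l hl]
    exact hb.Pnn l hl
  · intro l hl
    rw [hR] at hl
    rcases hb.alt l hl with h1 | ⟨h1, h2, h3, h4, h5, h6⟩
    · left
      rw [hp l hl]
      exact h1
    · right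
      refine ⟨(hp l hl).trans h1, hp0 l hl h2 h6, ?_, h4, ?_, ?_⟩
      · rw [hP l hl]; exact h3
      · intro i
        by_cases hi : ty i = Ty.R
        · rw [hH l i hl hi]; exact h5 i
        · have hi' : ty' i ≠ Ty.R := by rw [Ne, hR]; exact hi
          exact hshape.col i hi' l (fun h' => hi (h' ▸ hl))
      · intro x hx
        rw [Ne, hR] at hx
        exact h6 x hx
  · intro l l' hl hl' hne h1 h2
    rw [hR] at hl hl'
    rw [hp l hl] at h1
    rw [hp l' hl'] at h2
    exact hb.alt2 l l' hl hl' hne h1 h2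

theorem KP7_lev (a : I → I → ℕ) (hs : ∀ i j, a i j = a j i) (σ : Sta I) (x : I) (ty : I → Ty)
    (h : Shape a σ ty) (hx : ty x ≠ Ty.R) (hlev : ∀ i j, 0 < a i j → σ.κ i ≤ σ.κ j + 1)
    (κ' : I → ℕ) (h1 : ∀ y, y ≠ x → κ' y = σ.κ y) (h2 : ∀ i, 0 < a x i → κ' x ≤ σ.κ i + 1)
    (h3 : ∀ i, 0 < a x i → σ.κ i ≤ κ' x + 1) (i j : I) (hij : 0 < a i j) : κ' i ≤ κ' j + 1 := by
  by_cases hi : i = x
  · subst hi
    have hj : j ≠ i := by
      intro h'
      subst h'
      rw [h.loopfree j hx] at hij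
      exact lt_irrefl 0 hij
    rw [h1 j hj]
    exact h2 j hij
  · rw [h1 i hi]
    by_cases hj : j = x
    · subst hj
      rw [hs i j] at hij
      exact h3 i hij
    · rw [h1 j hj]
      exact hlev i j hij

theorem ph2_red (a : I → I → ℕ) (hs : ∀ i j, a i j = a j i) (γ : I →₀ ℕ) (σ : Sta I)
    (ty : I → Ty) (k : ℕ) (h : Ph2 a γ σ ty (k + 2)) (x : I) (hx : ty x = Ty.A)
    (hxk : σ.κ x = k + 2) (hp : 2 ≤ σ.p x) (hγ : k + 1 ≤ γ x) :
    Ph2 a (γ - Finsupp.single x (k + 1)) (staRed a σ x) ty (k + 2) := by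
  have hxR : ty x ≠ Ty.R := by rw [hx]; exact fun h' => (nomatch h')
  have hxW : x ∈ Finset.univ.filter (fun y => ty y ≠ Ty.R) :=
    Finset.mem_filter.2 ⟨Finset.mem_univ x, hxR⟩
  have hz := KP7_zero a σ ty h.shape x hxR
  have hnb := ph2_nbr a γ σ ty k h x hxR
  have hpx : (staRed a σ x).p x = σ.p x - 2 := by
    show Function.update σ.p x (σ.p x - 2) x = _
    rw [Function.update_self]
  have hpy : ∀ y, y ≠ x → (staRed a σ x).p y = σ.p y := by
    intro y hy
    show Function.update σ.p x (σ.p x - 2) y = _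
    rw [Function.update_of_ne hy]
  have hPy : ∀ y, (staRed a σ x).P y = σ.P y - (a x y : ℤ) := fun y => rfl
  have hκ : ∀ y, (staRed a σ x).κ y = σ.κ y := fun y => rfl
  have hshape : Shape a (staRed a σ x) ty := by
    refine ⟨h.shape.loopfree, ?_, ?_, ?_, h.shape.row, h.shape.col, h.shape.diagA,
      h.shape.diagD, h.shape.nonadj⟩
    · intro y hy
      rw [hPy, h.shape.P0 y hy, hz y hy]
      simp
    · intro y hy
      by_cases hyx : y = x
      · subst hyx
        rw [hpx]
        linarith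
      · rw [hpy y hyx]
        exact h.shape.p0 y hy
    · intro y hy
      have hyx : y ≠ x := by
        intro h'
        rw [h', hx] at hy
        exact (nomatch hy)
      rw [hpy y hyx]
      exact h.shape.pD y hy
  refine ⟨KP7_base a γ _ σ _ ty ty h.toBase (fun i => Iff.rfl) hshape h.k1 ?_ h.lev ?_ ?_
    (fun l i _ _ => rfl) ?_, h.reg, ?_⟩
  · intro i
    have e2 : cw a γ i = ((σ.κ i : ℤ) - 1) * σ.p i - (σ.κ i : ℤ) * σ.P i := h.cons i
    unfold Cons
    rw [KP7_cw a γ x (k + 1) hγ i, e2, hκ, hPy]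
    by_cases hix : i = x
    · subst hix
      rw [hpx, hxk, h.shape.loopfree i hxR]
      have e4 : cart a i i = 2 := by
        unfold cart
        rw [if_pos rfl, h.shape.loopfree i hxR]
        simp
      rw [e4]
      push_cast
      ring
    · rw [hpy i hix]
      have e4 : cart a i x = -(a x i : ℤ) := by
        unfold cart
        rw [if_neg hix, hs i x]
        ring
      rw [e4]
      rcases Nat.eq_zero_or_pos (a x i) with h0 | h0
      · rw [h0]; simp
      · rw [(hnb i h0).2]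
        push_cast
        ring
  · intro l hl
    have hlx : l ≠ x := fun h' => hxR (h' ▸ hl)
    unfold PhS Ph
    rw [KP7_sum _ x hxW
      (fun y => (a y l : ℚ) * ((staRed a σ x).p y : ℚ) *
        (((staRed a σ x).κ l : ℚ) - ((staRed a σ x).κ y : ℚ)))
      (fun y => (a y l : ℚ) * (σ.p y : ℚ) * ((σ.κ l : ℚ) - (σ.κ y : ℚ)))
      (fun y _ hyx => by rw [hpy y hyx, hκ, hκ])]
    rw [hpx, hPy, hκ, hκ]
    rcases Nat.eq_zero_or_pos (a x l) with h0 | h0
    · rw [h0]; simp
    · rw [(hnb l h0).2, hxk]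
      push_cast
      ring
  · intro l hl
    have hlx : l ≠ x := fun h' => hxR (h' ▸ hl)
    unfold phS ph
    rw [KP7_sum _ x hxW
      (fun y => (a y l : ℚ) * ((staRed a σ x).p y : ℚ) *
        (((staRed a σ x).κ l : ℚ) - ((staRed a σ x).κ y : ℚ) + 1))
      (fun y => (a y l : ℚ) * (σ.p y : ℚ) * ((σ.κ l : ℚ) - (σ.κ y : ℚ) + 1))
      (fun y _ hyx => by rw [hpy y hyx, hκ, hκ])]
    rw [hpx, hpy l hlx, hκ, hκ]
    rcases Nat.eq_zero_or_pos (a x l) with h0 | h0
    · rw [h0]; simp
    · rw [(hnb l h0).2, hxk]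
      push_cast
      ring
  · intro l hl h0 _
    have hlx : l ≠ x := fun h' => hxR (h' ▸ hl)
    rw [hpy l hlx]
    exact h0
  · intro y hy
    by_cases hyx : y = x
    · left
      rw [hyx]
      exact hxk
    · rcases h.wall y hy with h1 | h1 | h1
      · exact Or.inl h1
      · exact Or.inr (Or.inl h1)
      · refine Or.inr (Or.inr ⟨h1.1, h1.2.1, ?_⟩)
        rw [hpy y hyx]
        exact h1.2.2

theorem ph2_A (a : I → I → ℕ) (hs : ∀ i j, a i j = a j i) (γ : I →₀ ℕ) (σ : Sta I)
    (ty : I → Ty) (k : ℕ) (h : Ph2 a γ σ ty (k + 2)) (x : I) (hx : ty x = Ty.A)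
    (hxk : σ.κ x = k + 2) (hp : σ.p x = 0) :
    Ph2 a γ (staA σ x) ty (k + 2) := by
  have hxR : ty x ≠ Ty.R := by rw [hx]; exact fun h' => (nomatch h')
  have hnb := ph2_nbr a γ σ ty k h x hxR
  have hκx : (staA σ x).κ x = k + 1 := by
    show Function.update σ.κ x (σ.κ x - 1) x = _
    rw [Function.update_self, hxk]
    rfl
  have hκy : ∀ y, y ≠ x → (staA σ x).κ y = σ.κ y := by
    intro y hy
    show Function.update σ.κ x (σ.κ x - 1) y = _
    rw [Function.update_of_ne hy]
  have hH : ∀ l i, (staA σ x).H l i = if i = x ∨ l = x then 0 else σ.H l i := fun l i => rfl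
  have hshape : Shape a (staA σ x) ty := by
    refine ⟨h.shape.loopfree, h.shape.P0, h.shape.p0, h.shape.pD, ?_, ?_, ?_, ?_,
      h.shape.nonadj⟩
    · intro y hy i hi
      rw [hH]
      split_ifs
      · rfl
      · exact h.shape.row y hy i hi
    · intro y hy l hl
      rw [hH]
      split_ifs
      · rfl
      · exact h.shape.col y hy l hl
    · intro y hy
      rw [hH]
      split_ifs
      · rfl
      · exact h.shape.diagA y hy
    · intro y hy
      have hyx : y ≠ x := by
        intro h'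
        rw [h', hx] at hy
        exact (nomatch hy)
      rw [hH, if_neg (by tauto)]
      exact h.shape.diagD y hy
  refine ⟨KP7_base a γ _ σ _ ty ty h.toBase (fun i => Iff.rfl) hshape ?_ ?_ ?_ ?_ ?_
    ?_ (fun l _ h0 _ => h0), ?_, ?_⟩
  · intro i
    by_cases hix : i = x
    · rw [hix, hκx]; omega
    · rw [hκy i hix]; exact h.k1 i
  · intro i
    have e2 : cw a γ i = ((σ.κ i : ℤ) - 1) * σ.p i - (σ.κ i : ℤ) * σ.P i := h.cons i
    show cw a γ i = (((staA σ x).κ i : ℤ) - 1) * σ.p i - ((staA σ x).κ i : ℤ) * σ.P i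
    by_cases hix : i = x
    · rw [hix] at e2 ⊢
      rw [e2, hp, h.shape.P0 x hxR]
      ring
    · rw [hκy i hix]; exact e2
  · exact KP7_lev a hs σ x ty h.shape hxR h.lev (staA σ x).κ hκy
      (fun i hi => by have := (hnb i hi).2; omega)
      (fun i hi => by have := (hnb i hi).2; omega)
  · intro l hl
    have hlx : l ≠ x := fun h' => hxR (h' ▸ hl)
    show Ph a (staA σ x).κ σ.P σ.p ty l = Ph a σ.κ σ.P σ.p ty l
    unfold Ph
    congr 2
    refine Finset.sum_congr rfl fun y _ => ?_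
    by_cases hyx : y = x
    · rw [hyx, hp]; simp
    · rw [hκy y hyx, hκy l hlx]
  · intro l hl
    have hlx : l ≠ x := fun h' => hxR (h' ▸ hl)
    show ph a (staA σ x).κ σ.P σ.p ty l = ph a σ.κ σ.P σ.p ty l
    unfold ph
    congr 2
    refine Finset.sum_congr rfl fun y _ => ?_
    by_cases hyx : y = x
    · rw [hyx, hp]; simp
    · rw [hκy y hyx, hκy l hlx]
  · intro l i hl hi
    have hlx : l ≠ x := fun h' => hxR (h' ▸ hl)
    have hix : i ≠ x := fun h' => hxR (h' ▸ hi)
    rw [hH, if_neg (by tauto)]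
  · intro l hl
    have hlx : l ≠ x := fun h' => hxR (h' ▸ hl)
    rw [hκy l hlx]
    exact h.reg l hl
  · intro y hy
    by_cases hyx : y = x
    · right; left
      rw [hyx, hκx]
    · rcases h.wall y hy with h1 | h1 | h1
      · left; rw [hκy y hyx]; exact h1
      · right; left; rw [hκy y hyx]; exact h1
      · refine Or.inr (Or.inr ⟨?_, h1.2.1, h1.2.2⟩)
        rw [hκy y hyx]
        exact h1.1

theorem ph2_D (a : I → I → ℕ) (hs : ∀ i j, a i j = a j i) (γ : I →₀ ℕ) (σ : Sta I)
    (ty : I → Ty) (k : ℕ) (h : Ph2 a γ σ ty (k + 2)) (x : I) (hx : ty x ≠ Ty.R)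
    (hxk : σ.κ x = k + 2) (hp : σ.p x = 0) :
    Ph2 a γ (staD σ x) (Function.update ty x Ty.D) (k + 2) := by
  have hxR : ty x ≠ Ty.R := hx
  have hnb := ph2_nbr a γ σ ty k h x hxR
  have hκx : (staD σ x).κ x = k + 1 := by
    show Function.update σ.κ x (σ.κ x - 1) x = _
    rw [Function.update_self, hxk]
    rfl
  have hκy : ∀ y, y ≠ x → (staD σ x).κ y = σ.κ y := by
    intro y hy
    show Function.update σ.κ x (σ.κ x - 1) y = _
    rw [Function.update_of_ne hy]
  have hH : ∀ l i, (staD σ x).H l i =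
      if i = x ∧ l = x then 1 else if i = x ∨ l = x then 0 else σ.H l i := fun l i => rfl
  have htx : Function.update ty x Ty.D x = Ty.D := Function.update_self ..
  have hty : ∀ y, y ≠ x → Function.update ty x Ty.D y = ty y :=
    fun y hy => Function.update_of_ne hy ..
  have hR : ∀ i, Function.update ty x Ty.D i = Ty.R ↔ ty i = Ty.R := by
    intro i
    by_cases hix : i = x
    · subst hix
      rw [htx]
      exact ⟨fun h' => (nomatch h'), fun h' => absurd h' hxR⟩
    · rw [hty i hix]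
  have hshape : Shape a (staD σ x) (Function.update ty x Ty.D) := by
    refine ⟨?_, ?_, ?_, ?_, ?_, ?_, ?_, ?_, ?_⟩
    · intro y hy
      rw [Ne, hR] at hy
      exact h.shape.loopfree y hy
    · intro y hy
      rw [Ne, hR] at hy
      exact h.shape.P0 y hy
    · intro y hy
      rw [Ne, hR] at hy
      exact h.shape.p0 y hy
    · intro y hy
      by_cases hyx : y = x
      · rw [hyx]; exact hp
      · rw [hty y hyx] at hy
        exact h.shape.pD y hy
    · intro y hy i hi
      rw [Ne, hR] at hy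
      rw [hH, if_neg (fun h' => hi (h'.1.trans h'.2.symm))]
      split_ifs
      · rfl
      · exact h.shape.row y hy i hi
    · intro y hy l hl
      rw [Ne, hR] at hy
      rw [hH, if_neg (fun h' => hl (h'.2.trans h'.1.symm))]
      split_ifs
      · rfl
      · exact h.shape.col y hy l hl
    · intro y hy
      have hyx : y ≠ x := by
        intro h'
        rw [h', htx] at hy
        exact (nomatch hy)
      rw [hty y hyx] at hy
      rw [hH, if_neg (by tauto), if_neg (by tauto)]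
      exact h.shape.diagA y hy
    · intro y hy
      by_cases hyx : y = x
      · rw [hH, if_pos ⟨hyx, hyx⟩]
      · rw [hty y hyx] at hy
        rw [hH, if_neg (by tauto), if_neg (by tauto)]
        exact h.shape.diagD y hy
    · intro y z hy hz hyz
      rw [Ne, hR] at hy hz
      exact h.shape.nonadj y z hy hz hyz
  have hfil : Finset.univ.filter (fun y => Function.update ty x Ty.D y ≠ Ty.R) =
      Finset.univ.filter (fun y => ty y ≠ Ty.R) := by
    ext y
    rw [Finset.mem_filter, Finset.mem_filter, Ne, Ne, hR]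
  refine ⟨KP7_base a γ _ σ _ ty (Function.update ty x Ty.D) h.toBase hR hshape ?_ ?_ ?_ ?_ ?_
    ?_ (fun l _ h0 _ => h0), ?_, ?_⟩
  · intro i
    by_cases hix : i = x
    · rw [hix, hκx]; omega
    · rw [hκy i hix]; exact h.k1 i
  · intro i
    have e2 : cw a γ i = ((σ.κ i : ℤ) - 1) * σ.p i - (σ.κ i : ℤ) * σ.P i := h.cons i
    show cw a γ i = (((staD σ x).κ i : ℤ) - 1) * σ.p i - ((staD σ x).κ i : ℤ) * σ.P i
    by_cases hix : i = x
    · rw [hix] at e2 ⊢
      rw [e2, hp, h.shape.P0 x hxR]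
      ring
    · rw [hκy i hix]; exact e2
  · exact KP7_lev a hs σ x ty h.shape hxR h.lev (staD σ x).κ hκy
      (fun i hi => by have := (hnb i hi).2; omega)
      (fun i hi => by have := (hnb i hi).2; omega)
  · intro l hl
    have hlx : l ≠ x := fun h' => hxR (h' ▸ hl)
    show Ph a (staD σ x).κ σ.P σ.p (Function.update ty x Ty.D) l = Ph a σ.κ σ.P σ.p ty l
    unfold Ph
    rw [hfil]
    congr 2
    refine Finset.sum_congr rfl fun y _ => ?_
    by_cases hyx : y = x
    · rw [hyx, hp]; simp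
    · rw [hκy y hyx, hκy l hlx]
  · intro l hl
    have hlx : l ≠ x := fun h' => hxR (h' ▸ hl)
    show ph a (staD σ x).κ σ.P σ.p (Function.update ty x Ty.D) l = ph a σ.κ σ.P σ.p ty l
    unfold ph
    rw [hfil]
    congr 2
    refine Finset.sum_congr rfl fun y _ => ?_
    by_cases hyx : y = x
    · rw [hyx, hp]; simp
    · rw [hκy y hyx, hκy l hlx]
  · intro l i hl hi
    have hlx : l ≠ x := fun h' => hxR (h' ▸ hl)
    have hix : i ≠ x := fun h' => hxR (h' ▸ hi)
    rw [hH, if_neg (by tauto), if_neg (by tauto)]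
  · intro l hl
    rw [hR] at hl
    have hlx : l ≠ x := fun h' => hxR (h' ▸ hl)
    rw [hκy l hlx]
    exact h.reg l hl
  · intro y hy
    rw [Ne, hR] at hy
    by_cases hyx : y = x
    · right; left
      rw [hyx, hκx]
    · rcases h.wall y hy with h1 | h1 | h1
      · left; rw [hκy y hyx]; exact h1
      · right; left; rw [hκy y hyx]; exact h1
      · refine Or.inr (Or.inr ⟨?_, ?_, h1.2.2⟩)
        · rw [hκy y hyx]
          exact h1.1
        · rw [hty y hyx]
          exact h1.2.1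

theorem ph2_lag (a : I → I → ℕ) (hs : ∀ i j, a i j = a j i) (γ : I →₀ ℕ) (σ : Sta I)
    (ty : I → Ty) (k : ℕ) (h : Ph2 a γ σ ty (k + 3)) (x : I) (hx : ty x = Ty.A)
    (hxk : σ.κ x = k + 3) (hp : σ.p x = 1) (hγ : 1 ≤ γ x) :
    Ph2 a (γ - Finsupp.single x 1) (staLag a σ x) ty (k + 3) := by
  have hxR : ty x ≠ Ty.R := by rw [hx]; exact fun h' => (nomatch h')
  have hxW : x ∈ Finset.univ.filter (fun y => ty y ≠ Ty.R) :=
    Finset.mem_filter.2 ⟨Finset.mem_univ x, hxR⟩
  have hz := KP7_zero a σ ty h.shape x hxR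
  have hnb := ph2_nbr a γ σ ty (k + 1) h x hxR
  have hκx : (staLag a σ x).κ x = k + 1 := by
    show Function.update σ.κ x (σ.κ x - 2) x = _
    rw [Function.update_self, hxk]
    rfl
  have hκy : ∀ y, y ≠ x → (staLag a σ x).κ y = σ.κ y := by
    intro y hy
    show Function.update σ.κ x (σ.κ x - 2) y = _
    rw [Function.update_of_ne hy]
  have hH : ∀ l i, (staLag a σ x).H l i = if i = x ∨ l = x then 0 else σ.H l i :=
    fun l i => rfl
  have hpx : (staLag a σ x).p x = 1 := by
    show (if x = x then (1 : ℤ) else σ.p x - (a x x : ℤ)) = 1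
    rw [if_pos rfl]
  have hpy : ∀ y, y ≠ x → (staLag a σ x).p y = σ.p y - (a x y : ℤ) := by
    intro y hy
    show (if y = x then (1 : ℤ) else σ.p y - (a x y : ℤ)) = _
    rw [if_neg hy]
  have hPy : ∀ y, (staLag a σ x).P y = σ.P y - (a x y : ℤ) := fun y => rfl
  have hpw : ∀ y, ty y ≠ Ty.R → y ≠ x → (staLag a σ x).p y = σ.p y := by
    intro y hy hyx
    rw [hpy y hyx, hz y hy]
    simp
  have hshape : Shape a (staLag a σ x) ty := by
    refine ⟨h.shape.loopfree, ?_, ?_, ?_, ?_, ?_, ?_, ?_, h.shape.nonadj⟩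
    · intro y hy
      rw [hPy, h.shape.P0 y hy, hz y hy]
      simp
    · intro y hy
      by_cases hyx : y = x
      · rw [hyx, hpx]
        norm_num
      · rw [hpw y hy hyx]
        exact h.shape.p0 y hy
    · intro y hy
      have hyR : ty y ≠ Ty.R := by rw [hy]; exact fun h' => (nomatch h')
      have hyx : y ≠ x := by
        intro h'
        rw [h', hx] at hy
        exact (nomatch hy)
      rw [hpw y hyR hyx]
      exact h.shape.pD y hy
    · intro y hy i hi
      rw [hH]
      split_ifs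
      · rfl
      · exact h.shape.row y hy i hi
    · intro y hy l hl
      rw [hH]
      split_ifs
      · rfl
      · exact h.shape.col y hy l hl
    · intro y hy
      rw [hH]
      split_ifs
      · rfl
      · exact h.shape.diagA y hy
    · intro y hy
      have hyx : y ≠ x := by
        intro h'
        rw [h', hx] at hy
        exact (nomatch hy)
      rw [hH, if_neg (by tauto)]
      exact h.shape.diagD y hy
  refine ⟨KP7_base a γ _ σ _ ty ty h.toBase (fun i => Iff.rfl) hshape ?_ ?_ ?_ ?_ ?_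
    ?_ ?_, ?_, ?_⟩
  · intro i
    by_cases hix : i = x
    · rw [hix, hκx]; omega
    · rw [hκy i hix]; exact h.k1 i
  · intro i
    have e2 : cw a γ i = ((σ.κ i : ℤ) - 1) * σ.p i - (σ.κ i : ℤ) * σ.P i := h.cons i
    unfold Cons
    rw [KP7_cw a γ x 1 hγ i, e2, hPy]
    by_cases hix : i = x
    · subst hix
      rw [hpx, hκx, hxk, hp, h.shape.loopfree i hxR, h.shape.P0 i hxR]
      have e4 : cart a i i = 2 := by
        unfold cart
        rw [if_pos rfl, h.shape.loopfree i hxR]
        simp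
      rw [e4]
      push_cast
      ring
    · rw [hpy i hix, hκy i hix]
      have e4 : cart a i x = -(a x i : ℤ) := by
        unfold cart
        rw [if_neg hix, hs i x]
        ring
      rw [e4]
      push_cast
      ring
  · exact KP7_lev a hs σ x ty h.shape hxR h.lev (staLag a σ x).κ hκy
      (fun i hi => by have := (hnb i hi).2; omega)
      (fun i hi => by have := (hnb i hi).2; omega)
  · intro l hl
    have hlx : l ≠ x := fun h' => hxR (h' ▸ hl)
    unfold PhS Ph
    rw [KP7_sum _ x hxW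
      (fun y => (a y l : ℚ) * ((staLag a σ x).p y : ℚ) *
        (((staLag a σ x).κ l : ℚ) - ((staLag a σ x).κ y : ℚ)))
      (fun y => (a y l : ℚ) * (σ.p y : ℚ) * ((σ.κ l : ℚ) - (σ.κ y : ℚ)))
      (fun y hy hyx => by
        rw [hpw y (Finset.mem_filter.1 hy).2 hyx, hκy y hyx, hκy l hlx])]
    rw [hpx, hPy, hκx, hκy l hlx, hp, hxk]
    push_cast
    ring
  · intro l hl
    have hlx : l ≠ x := fun h' => hxR (h' ▸ hl)
    unfold phS ph
    rw [KP7_sum _ x hxW
      (fun y => (a y l : ℚ) * ((staLag a σ x).p y : ℚ) *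
        (((staLag a σ x).κ l : ℚ) - ((staLag a σ x).κ y : ℚ) + 1))
      (fun y => (a y l : ℚ) * (σ.p y : ℚ) * ((σ.κ l : ℚ) - (σ.κ y : ℚ) + 1))
      (fun y hy hyx => by
        rw [hpw y (Finset.mem_filter.1 hy).2 hyx, hκy y hyx, hκy l hlx])]
    rw [hpx, hpy l hlx, hκx, hκy l hlx, hp, hxk]
    push_cast
    ring
  · intro l i hl hi
    have hlx : l ≠ x := fun h' => hxR (h' ▸ hl)
    have hix : i ≠ x := fun h' => hxR (h' ▸ hi)
    rw [hH, if_neg (by tauto)]
  · intro l hl h0 h1
    have hlx : l ≠ x := fun h' => hxR (h' ▸ hl)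
    rw [hpy l hlx, h0, h1 x hxR]
    simp
  · intro l hl
    have hlx : l ≠ x := fun h' => hxR (h' ▸ hl)
    rw [hκy l hlx]
    exact h.reg l hl
  · intro y hy
    by_cases hyx : y = x
    · right; right
      rw [hyx]
      exact ⟨by rw [hκx]; omega, hx, hpx⟩
    · rcases h.wall y hy with h1 | h1 | h1
      · left; rw [hκy y hyx]; exact h1
      · right; left; rw [hκy y hyx]; exact h1
      · refine Or.inr (Or.inr ⟨?_, h1.2.1, ?_⟩)
        · rw [hκy y hyx]
          exact h1.1
        · rw [hpw y hy hyx]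
          exact h1.2.2

end Pool.Agent.H27.KAC
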