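import Pool.Agent.H27.KAC.KP1
import Pool.Agent.H27.KAC.KP7

/-!
KAC module KP8: a wall becomes regular (`staEm`), `e = p_x ∈ {0, 1}`, `m ≥ 1`, level `k+2`.

New types `Function.update ty x Ty.R`; `κ_x = k+1`, `P_x = 2m - e > 0`, `p_x = 0`; `Ph'_x = 2m - e`,
`ph'_x = 0` (no wall adjacent to `x`).  For regular `l ≠ x` (old): `Ph'_l = Ph_l - a_{xl} (m - e/2)`
(the term of the wall `x` in `Ph_l` was `-(1/2) a_{xl} e`), `ph'_l = ph_l` (factor 0).
`H'_{lx} = (1/2) ∑_{l'} a_{xl'} H_{ll'}`, `H'_{x·} = 0`.  `dfc'_l = dfc_l`: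
`(m - e/2) ∑ H_{li} a_{xi} = H'_{lx} (2m - e)`; `dfc'_x = 0`.
* If `Ph'_l < 0` for some regular `l ≠ x`, then `ph_l > 0` (if `ph_l = 0` then `a_{xl} = 0` by `alt`, so `Ph'_l = Ph_l > 0`),
  and the value is zero by `core_zero` (`Val_eq_GVal`).
* Otherwise the new state is in phase 2.
-/

namespace Pool.Agent.H27.KAC

open scoped BigOperators
open MvPowerSeries

variable {I : Type} [Fintype I] [DecidableEq I]

private theorem KP8_cw (a : I → I → ℕ) (γ : I →₀ ℕ) (x i : I) (n : ℕ) (hn : n ≤ γ x) :
    cw a (γ - Finsupp.single x n) i = cw a γ i - cart a i x * n := by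
  have h1 : γ = (γ - Finsupp.single x n) + Finsupp.single x n := by
    rw [tsub_add_cancel_of_le]
    rw [Finsupp.single_le_iff]
    exact hn
  have h2 : cw a γ i = cw a (γ - Finsupp.single x n) i + cw a (Finsupp.single x n) i := by
    conv_lhs => rw [h1, cw_add]
  have h3 : cw a (Finsupp.single x n) i = cart a i x * n := by
    unfold cw
    rw [Finset.sum_eq_single x]
    · rw [Finsupp.single_eq_same]
    · intro j _ hj
      rw [Finsupp.single_eq_of_ne hj]
      simp
    · intro hx
      exact absurd (Finset.mem_univ x) hx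
  rw [h2, h3]
  ring

private theorem KP8_filter (ty : I → Ty) (x : I) :
    Finset.univ.filter (fun y => Function.update ty x Ty.R y ≠ Ty.R) =
      (Finset.univ.filter (fun y => ty y ≠ Ty.R)).erase x := by
  ext y
  rw [Finset.mem_erase, Finset.mem_filter, Finset.mem_filter]
  by_cases hy : y = x
  · subst hy
    rw [Function.update_self]
    simp
  · rw [Function.update_of_ne hy]
    simp [hy]

section setup

variable (a : I → I → ℕ) (γ : I →₀ ℕ) (σ : Sta I) (ty : I → Ty) (k : ℕ)

private theorem KP8_Ph_ne (h : Ph2 a γ σ ty (k + 2)) (x : I) (hx : ty x ≠ Ty.R)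
    (hxk : σ.κ x = k + 2) (e : ℕ) (hp : σ.p x = e) (m : ℕ) (l : I) (hl : l ≠ x) :
    PhS a (staEm a σ x m e) (Function.update ty x Ty.R) l =
      PhS a σ ty l - (a x l : ℚ) * ((m : ℚ) - (e : ℚ) / 2) := by
  have hmem : x ∈ Finset.univ.filter (fun y => ty y ≠ Ty.R) :=
    Finset.mem_filter.2 ⟨Finset.mem_univ x, hx⟩
  show Ph a (staEm a σ x m e).κ (staEm a σ x m e).P (staEm a σ x m e).p _ l = Ph a _ _ _ ty l - _
  unfold Ph
  rw [KP8_filter, ← Finset.add_sum_erase _ _ hmem]
  have e1 : ∀ y ∈ (Finset.univ.filter (fun y => ty y ≠ Ty.R)).erase x,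
      (a y l : ℚ) * ((staEm a σ x m e).p y : ℚ) *
        (((staEm a σ x m e).κ l : ℚ) - ((staEm a σ x m e).κ y : ℚ)) =
      (a y l : ℚ) * (σ.p y : ℚ) * ((σ.κ l : ℚ) - (σ.κ y : ℚ)) := by
    intro y hy
    have hyx : y ≠ x := (Finset.mem_erase.1 hy).1
    have f1 : (staEm a σ x m e).p y = σ.p y := Function.update_of_ne hyx _ _
    have f2 : (staEm a σ x m e).κ y = σ.κ y := Function.update_of_ne hyx _ _
    have f3 : (staEm a σ x m e).κ l = σ.κ l := Function.update_of_ne hl _ _
    rw [f1, f2, f3]
  rw [Finset.sum_congr rfl e1]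
  have e2 : ((staEm a σ x m e).P l : ℚ) = (σ.P l : ℚ) - (a x l : ℚ) * m := by
    show (((if l = x then 2 * (m : ℤ) - e else σ.P l - (a x l : ℤ) * m) : ℤ) : ℚ) = _
    rw [if_neg hl]
    push_cast
    ring
  rw [e2, hp, hxk]
  rcases Nat.eq_zero_or_pos (a x l) with h0 | h0
  · rw [h0]
    push_cast
    ring
  · have hk := (ph2_nbr a γ σ ty k h x hx l h0).2
    rw [hk]
    push_cast
    ring

private theorem KP8_ph_ne (h : Ph2 a γ σ ty (k + 2)) (x : I) (hx : ty x ≠ Ty.R)
    (hxk : σ.κ x = k + 2) (e m : ℕ) (l : I) (hl : l ≠ x) :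
    phS a (staEm a σ x m e) (Function.update ty x Ty.R) l = phS a σ ty l := by
  have hmem : x ∈ Finset.univ.filter (fun y => ty y ≠ Ty.R) :=
    Finset.mem_filter.2 ⟨Finset.mem_univ x, hx⟩
  show ph a (staEm a σ x m e).κ (staEm a σ x m e).P (staEm a σ x m e).p _ l = ph a _ _ _ ty l
  unfold ph
  rw [KP8_filter, ← Finset.add_sum_erase _ _ hmem]
  have e1 : ∀ y ∈ (Finset.univ.filter (fun y => ty y ≠ Ty.R)).erase x,
      (a y l : ℚ) * ((staEm a σ x m e).p y : ℚ) *
        (((staEm a σ x m e).κ l : ℚ) - ((staEm a σ x m e).κ y : ℚ) + 1) =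
      (a y l : ℚ) * (σ.p y : ℚ) * ((σ.κ l : ℚ) - (σ.κ y : ℚ) + 1) := by
    intro y hy
    have hyx : y ≠ x := (Finset.mem_erase.1 hy).1
    have f1 : (staEm a σ x m e).p y = σ.p y := Function.update_of_ne hyx _ _
    have f2 : (staEm a σ x m e).κ y = σ.κ y := Function.update_of_ne hyx _ _
    have f3 : (staEm a σ x m e).κ l = σ.κ l := Function.update_of_ne hl _ _
    rw [f1, f2, f3]
  rw [Finset.sum_congr rfl e1]
  have f4 : (staEm a σ x m e).p l = σ.p l := Function.update_of_ne hl _ _
  rw [f4, hxk]
  rcases Nat.eq_zero_or_pos (a x l) with h0 | h0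
  · rw [h0]
    push_cast
    ring
  · have hk := (ph2_nbr a γ σ ty k h x hx l h0).2
    rw [hk]
    push_cast
    ring

private theorem KP8_self (hs : ∀ i j, a i j = a j i) (h : Ph2 a γ σ ty (k + 2)) (x : I)
    (hx : ty x ≠ Ty.R) (e m : ℕ) :
    PhS a (staEm a σ x m e) (Function.update ty x Ty.R) x = 2 * (m : ℚ) - e ∧
    phS a (staEm a σ x m e) (Function.update ty x Ty.R) x = 0 := by
  have hz : ∀ y ∈ (Finset.univ.filter (fun y => ty y ≠ Ty.R)).erase x, a y x = 0 := by
    intro y hy
    rw [Finset.mem_erase, Finset.mem_filter] at hy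
    exact h.shape.nonadj y x hy.2.2 hx hy.1
  constructor
  · show Ph a (staEm a σ x m e).κ (staEm a σ x m e).P (staEm a σ x m e).p _ x = _
    unfold Ph
    rw [KP8_filter, Finset.sum_eq_zero]
    · show (((if x = x then 2 * (m : ℤ) - e else σ.P x - (a x x : ℤ) * m) : ℤ) : ℚ) + 0 / 2 = _
      rw [if_pos rfl]
      push_cast
      ring
    · intro y hy
      rw [hz y hy]
      push_cast
      ring
  · show ph a (staEm a σ x m e).κ (staEm a σ x m e).P (staEm a σ x m e).p _ x = _
    unfold ph
    rw [KP8_filter, Finset.sum_eq_zero]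
    · show ((Function.update σ.p x 0 x : ℤ) : ℚ) + 0 / 2 = _
      rw [Function.update_self]
      push_cast
      ring
    · intro y hy
      rw [hz y hy]
      push_cast
      ring

end setup

theorem ph2_em (a : I → I → ℕ) (hg : GoodMat a) (γ : I →₀ ℕ) (σ : Sta I)
    (ty : I → Ty) (k : ℕ) (h : Ph2 a γ σ ty (k + 2)) (x : I) (hx : ty x ≠ Ty.R)
    (hxk : σ.κ x = k + 2) (e : ℕ) (he : e ≤ 1) (hp : σ.p x = e) (m : ℕ) (hm : 1 ≤ m)
    (hγ : (k + 1) * m ≤ γ x) :
    Val a (γ - Finsupp.single x ((k + 1) * m)) (staEm a σ x m e) = 0 ∨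
      Ph2 a (γ - Finsupp.single x ((k + 1) * m)) (staEm a σ x m e)
        (Function.update ty x Ty.R) (k + 2) := by
  have hs := hg.symm
  have hxx : a x x = 0 := h.shape.loopfree x hx
  have hnb : ∀ l, 0 < a x l → ty l = Ty.R ∧ σ.κ l = k + 1 := fun l hl =>
    ph2_nbr a γ σ ty k h x hx l hl
  have hwall : ∀ y, ty y ≠ Ty.R → a x y = 0 := by
    intro y hy
    by_cases hyx : y = x
    · rw [hyx, hxx]
    · rw [hs]
      exact h.shape.nonadj y x hy hx hyx
  have hPh := fun l hl => KP8_Ph_ne a γ σ ty k h x hx hxk e hp m l hl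
  have hph := fun l hl => KP8_ph_ne a γ σ ty k h x hx hxk e m l hl
  obtain ⟨hPx, hpx⟩ := KP8_self a γ σ ty k hs h x hx e m
  have hm1 : (1 : ℚ) ≤ m := by exact_mod_cast hm
  have he1 : (e : ℚ) ≤ 1 := by exact_mod_cast he
  have he0 : (0 : ℚ) ≤ e := Nat.cast_nonneg e
  -- the components of the new state
  have tne : ∀ y, y ≠ x → Function.update ty x Ty.R y = ty y := fun y hy =>
    Function.update_of_ne hy _ _
  have tx : Function.update ty x Ty.R x = Ty.R := Function.update_self _ _ _
  have twall : ∀ y, Function.update ty x Ty.R y ≠ Ty.R → y ≠ x ∧ ty y ≠ Ty.R := by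
    intro y hy
    have h1 : y ≠ x := by
      rintro rfl
      exact hy tx
    rw [tne y h1] at hy
    exact ⟨h1, hy⟩
  have kne : ∀ y, y ≠ x → (staEm a σ x m e).κ y = σ.κ y := fun y hy =>
    Function.update_of_ne hy _ _
  have kx : (staEm a σ x m e).κ x = k + 1 := by
    show Function.update σ.κ x (σ.κ x - 1) x = k + 1
    rw [Function.update_self, hxk]
    rfl
  have pne : ∀ y, y ≠ x → (staEm a σ x m e).p y = σ.p y := fun y hy =>
    Function.update_of_ne hy _ _
  have px : (staEm a σ x m e).p x = 0 := Function.update_self _ _ _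
  have Pne : ∀ y, y ≠ x → (staEm a σ x m e).P y = σ.P y - (a x y : ℤ) * m := fun y hy =>
    if_neg hy
  have Px : (staEm a σ x m e).P x = 2 * (m : ℤ) - e := if_pos rfl
  have Hx : ∀ i, (staEm a σ x m e).H x i = 0 := fun i => if_pos rfl
  have Hlx : ∀ l, l ≠ x → (staEm a σ x m e).H l x = (∑ l', (a x l' : ℚ) * σ.H l l') / 2 := by
    intro l hl
    show (if l = x then (0 : ℚ) else if x = x then (∑ l', (a x l' : ℚ) * σ.H l l') / 2
      else σ.H l x) = _
    rw [if_neg hl, if_pos rfl]
  have Hne : ∀ l i, l ≠ x → i ≠ x → (staEm a σ x m e).H l i = σ.H l i := by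
    intro l i hl hi
    show (if l = x then (0 : ℚ) else if i = x then (∑ l', (a x l' : ℚ) * σ.H l l') / 2
      else σ.H l i) = _
    rw [if_neg hl, if_neg hi]
  -- shape and consistency
  have hshape : Shape a (staEm a σ x m e) (Function.update ty x Ty.R) := by
    refine ⟨?_, ?_, ?_, ?_, ?_, ?_, ?_, ?_, ?_⟩
    · intro y hy
      exact h.shape.loopfree y (twall y hy).2
    · intro y hy
      obtain ⟨h1, h2⟩ := twall y hy
      rw [Pne y h1, h.shape.P0 y h2, hwall y h2]
      simp
    · intro y hy
      obtain ⟨h1, h2⟩ := twall y hy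
      rw [pne y h1]
      exact h.shape.p0 y h2
    · intro y hy
      have hyR : Function.update ty x Ty.R y ≠ Ty.R := by
        rw [hy]
        exact fun h' => by cases h'
      obtain ⟨h1, h2⟩ := twall y hyR
      rw [tne y h1] at hy
      rw [pne y h1]
      exact h.shape.pD y hy
    · intro y hy i hi
      obtain ⟨h1, h2⟩ := twall y hy
      by_cases hix : i = x
      · rw [hix, Hlx y h1, Finset.sum_eq_zero, zero_div]
        intro l' _
        by_cases hl' : l' = y
        · rw [hl', hwall y h2]
          simp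
        · rw [h.shape.row y h2 l' hl', mul_zero]
      · rw [Hne y i h1 hix]
        exact h.shape.row y h2 i hi
    · intro y hy l hl
      obtain ⟨h1, h2⟩ := twall y hy
      by_cases hlx : l = x
      · rw [hlx]
        exact Hx y
      · rw [Hne l y hlx h1]
        exact h.shape.col y h2 l hl
    · intro y hy
      have hyR : Function.update ty x Ty.R y ≠ Ty.R := by
        rw [hy]
        exact fun h' => by cases h'
      obtain ⟨h1, h2⟩ := twall y hyR
      rw [tne y h1] at hy
      rw [Hne y y h1 h1]
      exact h.shape.diagA y hy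
    · intro y hy
      have hyR : Function.update ty x Ty.R y ≠ Ty.R := by
        rw [hy]
        exact fun h' => by cases h'
      obtain ⟨h1, h2⟩ := twall y hyR
      rw [tne y h1] at hy
      rw [Hne y y h1 h1]
      exact h.shape.diagD y hy
    · intro y z hy hz hyz
      exact h.shape.nonadj y z (twall y hy).2 (twall z hz).2 hyz
  have hk1 : ∀ i, 1 ≤ (staEm a σ x m e).κ i := by
    intro i
    by_cases hi : i = x
    · rw [hi, kx]
      omega
    · rw [kne i hi]
      exact h.k1 i
  have hcons : ∀ i, Cons a (γ - Finsupp.single x ((k + 1) * m)) (staEm a σ x m e) i := by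
    intro i
    have h1 := h.cons i
    unfold Cons at h1 ⊢
    rw [KP8_cw a γ x i _ hγ, h1]
    by_cases hi : i = x
    · rw [hi, kx, px, Px, hp, h.shape.P0 x hx, hxk]
      unfold cart
      rw [if_pos rfl, hxx]
      push_cast
      ring
    · rw [kne i hi, pne i hi, Pne i hi]
      unfold cart
      rw [if_neg hi, hs i x]
      rcases Nat.eq_zero_or_pos (a x i) with h0 | h0
      · rw [h0]
        push_cast
        ring
      · rw [(hnb i h0).2]
        push_cast
        ring
  by_cases hneg : ∃ l, l ≠ x ∧ ty l = Ty.R ∧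
      PhS a (staEm a σ x m e) (Function.update ty x Ty.R) l < 0
  · left
    obtain ⟨l, hlx, hlR, hl0⟩ := hneg
    have hcore : Core a (γ - Finsupp.single x ((k + 1) * m)) (staEm a σ x m e).κ
        (staEm a σ x m e).P (staEm a σ x m e).p (Function.update ty x Ty.R) :=
      ⟨hshape.loopfree, hshape.P0, hshape.nonadj, hk1, hcons⟩
    have hpos : 0 < phS a (staEm a σ x m e) (Function.update ty x Ty.R) l := by
      rw [hph l hlx]
      rcases h.alt l hlR with h1 | ⟨_, _, h3, _, _, h6⟩
      · exact h1
      · exfalso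
        rw [hPh l hlx, h6 x hx] at hl0
        push_cast at hl0
        linarith
    rw [Val_eq_GVal]
    exact core_zero a hg _ _ _ _ _ hcore l (by rw [tne l hlx]; exact hlR) hl0 hpos _ _
  · right
    push Not at hneg
    have hPh0 : ∀ l, Function.update ty x Ty.R l = Ty.R →
        0 ≤ PhS a (staEm a σ x m e) (Function.update ty x Ty.R) l := by
      intro l hl
      by_cases hlx : l = x
      · rw [hlx, hPx]
        linarith
      · rw [tne l hlx] at hl
        exact hneg l hlx hl
    have hHnn : ∀ l l', ty l = Ty.R → 0 ≤ (a x l' : ℚ) * σ.H l l' := by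
      intro l l' hl
      rcases Nat.eq_zero_or_pos (a x l') with h0 | h0
      · rw [h0]
        simp
      · exact mul_nonneg (Nat.cast_nonneg _) (h.Hnn l l' hl (hnb l' h0).1)
    have hlev : ∀ i j, 0 < a i j → (staEm a σ x m e).κ i ≤ (staEm a σ x m e).κ j + 1 := by
      intro i j hij
      by_cases hi : i = x
      · by_cases hj : j = x
        · rw [hi, hj, hxx] at hij
          omega
        · rw [hi] at hij ⊢
          rw [kx, kne j hj, (hnb j hij).2]
          omega
      · by_cases hj : j = x
        · rw [hj, hs] at hij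
          rw [hj, kx, kne i hi, (hnb i hij).2]
          omega
        · rw [kne i hi, kne j hj]
          exact h.lev i j hij
    have hfR : Finset.univ.filter (fun i => Function.update ty x Ty.R i = Ty.R) =
        insert x (Finset.univ.filter (fun i => ty i = Ty.R)) := by
      ext y
      rw [Finset.mem_insert, Finset.mem_filter, Finset.mem_filter]
      by_cases hy : y = x
      · rw [hy, tx]
        simp
      · rw [tne y hy]
        simp [hy]
    have hxR : x ∉ Finset.univ.filter (fun i => ty i = Ty.R) := by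
      rw [Finset.mem_filter]
      exact fun h' => hx h'.2
    have hdfc : ∀ l, l ≠ x → dfc a (staEm a σ x m e) (Function.update ty x Ty.R) l =
        dfc a σ ty l := by
      intro l hl
      unfold dfc
      rw [hph l hl, hfR, Finset.sum_insert hxR, hPx, Hlx l hl]
      have e1 : ∑ i ∈ Finset.univ.filter (fun i => ty i = Ty.R), (staEm a σ x m e).H l i *
          PhS a (staEm a σ x m e) (Function.update ty x Ty.R) i =
          ∑ i ∈ Finset.univ.filter (fun i => ty i = Ty.R), (σ.H l i * PhS a σ ty i -
            ((m : ℚ) - (e : ℚ) / 2) * ((a x i : ℚ) * σ.H l i)) := by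
        refine Finset.sum_congr rfl fun i hi => ?_
        have hix : i ≠ x := by
          rintro rfl
          exact hxR hi
        rw [Hne l i hl hix, hPh i hix]
        ring
      have e2 : ∑ l', (a x l' : ℚ) * σ.H l l' =
          ∑ i ∈ Finset.univ.filter (fun i => ty i = Ty.R), (a x i : ℚ) * σ.H l i := by
        symm
        apply Finset.sum_subset (Finset.subset_univ _)
        intro i _ hi
        have hiR : ty i ≠ Ty.R := fun h' => hi (Finset.mem_filter.2 ⟨Finset.mem_univ i, h'⟩)
        rw [hwall i hiR]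
        simp
      rw [e1, Finset.sum_sub_distrib, ← Finset.mul_sum, e2]
      ring
    refine { shape := hshape, k1 := hk1, cons := hcons, lev := hlev, Hnn := ?_, dnn := ?_,
             Pnn := hPh0, alt := ?_, alt2 := ?_, reg := ?_, wall := ?_ }
    · intro l i hl hi
      by_cases hlx : l = x
      · rw [hlx, Hx]
      · rw [tne l hlx] at hl
        by_cases hix : i = x
        · rw [hix, Hlx l hlx]
          have := Finset.sum_nonneg (s := Finset.univ) fun l' _ => hHnn l l' hl
          linarith
        · rw [tne i hix] at hi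
          rw [Hne l i hlx hix]
          exact h.Hnn l i hl hi
    · intro l hl
      by_cases hlx : l = x
      · rw [hlx]
        unfold dfc
        rw [hpx, Finset.sum_eq_zero, sub_zero]
        intro i _
        rw [Hx, zero_mul]
      · rw [tne l hlx] at hl
        rw [hdfc l hlx]
        exact h.dnn l hl
    · intro l hl
      by_cases hlx : l = x
      · right
        subst hlx
        refine ⟨hpx, px, ?_, hxx, Hx, ?_⟩
        · rw [hPx]
          linarith
        · intro y hy
          rw [hs]
          exact hwall y (twall y hy).2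
      · rw [tne l hlx] at hl
        rcases h.alt l hl with h1 | ⟨h1, h2, h3, h4, h5, h6⟩
        · left
          rw [hph l hlx]
          exact h1
        · right
          refine ⟨?_, ?_, ?_, h4, ?_, ?_⟩
          · rw [hph l hlx]
            exact h1
          · rw [pne l hlx]
            exact h2
          · rw [hPh l hlx, h6 x hx]
            push_cast
            linarith
          · intro i
            by_cases hix : i = x
            · rw [hix, Hlx l hlx, Finset.sum_eq_zero, zero_div]
              intro l' _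
              rw [h5 l', mul_zero]
            · rw [Hne l i hlx hix]
              exact h5 i
          · intro y hy
            exact h6 y (twall y hy).2
    · intro l l' hl hl' hll' h1 h2
      have key : ∀ j, j ≠ x → ty j = Ty.R →
          phS a (staEm a σ x m e) (Function.update ty x Ty.R) j = 0 → a x j = 0 := by
        intro j hj hjR hj0
        rw [hph j hj] at hj0
        rcases h.alt j hjR with h3 | ⟨_, _, _, _, _, h6⟩
        · rw [hj0] at h3
          exact absurd h3 (lt_irrefl _)
        · exact h6 x hx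
      by_cases hlx : l = x
      · have hlx' : l' ≠ x := fun h' => hll' (hlx.trans h'.symm)
        rw [tne l' hlx'] at hl'
        rw [hlx]
        exact key l' hlx' hl' h2
      · rw [tne l hlx] at hl
        by_cases hlx' : l' = x
        · rw [hlx', hs]
          exact key l hlx hl h1
        · rw [tne l' hlx'] at hl'
          rw [hph l hlx] at h1
          rw [hph l' hlx'] at h2
          exact h.alt2 l l' hl hl' hll' h1 h2
    · intro l hl
      by_cases hlx : l = x
      · rw [hlx, kx]
      · rw [tne l hlx] at hl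
        rw [kne l hlx]
        exact h.reg l hl
    · intro y hy
      obtain ⟨h1, h2⟩ := twall y hy
      rw [kne y h1]
      rcases h.wall y h2 with h3 | h3 | h3
      · exact Or.inl h3
      · exact Or.inr (Or.inl h3)
      · right
        right
        unfold Lag at h3 ⊢
        rw [kne y h1, tne y h1, pne y h1]
        exact h3

end Pool.Agent.H27.KAC
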