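import Pool.Agent.H27.KAC.KQEta

/-!
KAC module KQRaw5: expansion of a wall column, even case and D case (pure identities, no
regularity needed).  Level `k+2`, `η = η_{x,k+1}`, `λ = λ_{x,k+1}`:
`x_{x,k+2} = x_{x,k+1} + (x_{x,k+1} - x_{x,k}) + ∑_{m ≥ 1} η^m λ` (from `xv_eta`), and terms with
`(k+1) m > γ x` do not contribute.
-/

namespace Pool.Agent.H27.KAC

open scoped BigOperators
open MvPowerSeries

variable {I : Type} [Fintype I] [DecidableEq I]

theorem KQRaw5_eta (a : I → I → ℕ) (x : I) (k m : ℕ) (γ : I →₀ ℕ)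
    (F : MvPowerSeries I ℚ) (c : I → I → MvPowerSeries I ℚ) :
    raw γ (F * etaS a x (k + 1) ^ m) c =
      rawSub γ x ((k + 1) * m)
        (F * (((cU a x (k + 1)) ^ m * (uu a x (k + 1)) ^ ((0 : ℤ) - 2 * (m : ℤ)) :
          (MvPowerSeries I ℚ)ˣ) : MvPowerSeries I ℚ)) c := by
  rw [← raw_X_pow]
  congr 1
  have h1 : ((cU a x (k + 1)) * (uu a x (k + 1)) ^ (-2 : ℤ) : (MvPowerSeries I ℚ)ˣ) ^ m =
      (cU a x (k + 1)) ^ m * (uu a x (k + 1)) ^ ((0 : ℤ) - 2 * (m : ℤ)) := by
    rw [mul_pow, ← zpow_natCast ((uu a x (k + 1)) ^ (-2 : ℤ)) m, ← zpow_mul]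
    congr 2
    ring
  unfold etaS
  rw [← h1, mul_pow, ← pow_mul, Units.val_pow_eq_pow_val]
  ring

theorem KQRaw5_iter (a : I → I → ℕ) (hs : ∀ i j, a i j = a j i) (x : I) (k : ℕ) (γ : I →₀ ℕ)
    (F : MvPowerSeries I ℚ) (c : I → I → MvPowerSeries I ℚ) (M : ℕ) :
    raw γ F (Function.update c x
        (fun l => xv a x (k + 2) l - 2 * xv a x (k + 1) l + xv a x k l)) =
      ∑ m ∈ Finset.Icc 1 M,
        raw γ (F * etaS a x (k + 1) ^ m) (Function.update c x (lamV a x (k + 1))) +
      raw γ (F * etaS a x (k + 1) ^ M) (Function.update c x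
        (fun l => xv a x (k + 2) l - 2 * xv a x (k + 1) l + xv a x k l)) := by
  induction M with
  | zero => simp
  | succ M ih =>
    rw [Finset.sum_Icc_succ_top (by omega), ih, add_assoc]
    congr 1
    have hw : (fun l => xv a x (k + 2) l - 2 * xv a x (k + 1) l + xv a x k l) =
        fun l => (fun l => etaS a x (k + 1) * lamV a x (k + 1) l) l +
          (fun l => etaS a x (k + 1) *
            (xv a x (k + 2) l - 2 * xv a x (k + 1) l + xv a x k l)) l := by
      funext l
      have := xv_eta a hs x k l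
      show xv a x (k + 2) l - 2 * xv a x (k + 1) l + xv a x k l =
        etaS a x (k + 1) * lamV a x (k + 1) l +
          etaS a x (k + 1) * (xv a x (k + 2) l - 2 * xv a x (k + 1) l + xv a x k l)
      linear_combination this
    conv_lhs => rw [hw, raw_add, raw_smul, raw_smul, mul_assoc, ← pow_succ]

theorem KQRaw5_main (a : I → I → ℕ) (hs : ∀ i j, a i j = a j i) (x : I) (k : ℕ) (γ : I →₀ ℕ)
    (F : MvPowerSeries I ℚ) (c : I → I → MvPowerSeries I ℚ) :
    raw γ F (Function.update c x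
        (fun l => xv a x (k + 2) l - 2 * xv a x (k + 1) l + xv a x k l)) =
      etaSum a γ x (k + 2) 0 F c := by
  rw [KQRaw5_iter a hs x k γ F c (γ x / (k + 1) + 1),
    Finset.sum_Icc_succ_top (Nat.le_add_left 1 _)]
  have hlt : ¬ (k + 1) * (γ x / (k + 1) + 1) ≤ γ x := by
    have := Nat.lt_mul_div_succ (γ x) (Nat.succ_pos k)
    push Not
    exact this
  have h0 : ∀ v, raw γ (F * etaS a x (k + 1) ^ (γ x / (k + 1) + 1)) v = 0 := by
    intro v
    rw [KQRaw5_eta]
    unfold rawSub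
    rw [if_neg hlt]
  rw [h0, h0, add_zero, add_zero]
  unfold etaSum
  refine Finset.sum_congr rfl fun m _ => ?_
  rw [KQRaw5_eta]
  rfl

theorem raw_wall_even (a : I → I → ℕ) (hs : ∀ i j, a i j = a j i) (x : I) (k : ℕ) (γ : I →₀ ℕ)
    (F : MvPowerSeries I ℚ) (c : I → I → MvPowerSeries I ℚ) :
    raw γ F (Function.update c x (xv a x (k + 2))) =
      raw γ F (Function.update c x (xv a x (k + 1))) +
      raw γ F (Function.update c x (fun l => xv a x (k + 1) l - xv a x k l)) +
      etaSum a γ x (k + 2) 0 F c := by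
  rw [← KQRaw5_main a hs x k γ F c, ← raw_add, ← raw_add]
  congr 2
  funext l
  ring

theorem raw_wall_D (a : I → I → ℕ) (hs : ∀ i j, a i j = a j i) (x : I) (k : ℕ) (γ : I →₀ ℕ)
    (F : MvPowerSeries I ℚ) (c : I → I → MvPowerSeries I ℚ) :
    raw γ F (Function.update c x (fun l => xv a x (k + 2) l - xv a x (k + 1) l)) =
      raw γ F (Function.update c x (fun l => xv a x (k + 1) l - xv a x k l)) +
      etaSum a γ x (k + 2) 0 F c := by
  rw [← KQRaw5_main a hs x k γ F c, ← raw_add]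
  congr 2
  funext l
  ring

end Pool.Agent.H27.KAC
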