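import Pool.Agent.H27.KAC.KQEta

/-!
KAC module KQRaw6: expansion of a wall column, odd case.

`x` loop-free, `z = U_{x,k+1}`, column `x` is `x_{x,k+2}`, `(Cγ)_x = k+1`.
As in `raw_wall_even`, `z x_{x,k+2} = 2 z x_{x,k+1} - z x_{x,k} + ∑_{m≥1} z η^m λ`.
* `2 z x_{x,k+1}` is regular: gives 0 (`vanish_general`/`det_reg`, total in `Fil (k+1-1)`).
* the sum is `etaSum` with exponent q = 1.
* `- z x_{x,k}`: for `k = 0` it is zero (`xv_zero`).  For `k ≥ 1`: with `y = U_{x,k}`,
  `c_j := (X x)^j cU a x j` one has (`uS_rec`)  `U_{x,k+1} U_{x,k-1} = y^2 - c_k` and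
  `U_{x,k+2} y = z^2 - c_{k+1}`, hence
  `- z c_k = z^2 U_{x,k-1} - z y^2 = c_{k+1} U_{x,k-1} + y * G`,
  `G = U_{x,k+2} U_{x,k-1} - z y`.  So `- z x_{x,k}` may be replaced by
  `(c_{k+1} / c_k) U_{x,k-1} x_{x,k}`, where `c_{k+1} / c_k = (X x) * cU a x (k+1) * (cU a x k)⁻¹`:
  the difference `y G c_k^{-1} x_{x,k}` is regular (`y x_{x,k}` is `xv_pole`) of total
  degree `< k+1`.  (To avoid dividing by `(X x)^k`, compare the raw integrals at `γ + k e_x`:
  `raw γ H c = raw (γ + n e_x) ((X x)^n H) c`.)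
-/

namespace Pool.Agent.H27.KAC

open scoped BigOperators
open MvPowerSeries

variable {I : Type} [Fintype I] [DecidableEq I]

theorem KQRaw6_shift (γ : I →₀ ℕ) (x : I) (n : ℕ) (H : MvPowerSeries I ℚ)
    (c : I → I → MvPowerSeries I ℚ) :
    raw (γ + Finsupp.single x n) ((X x) ^ n * H) c = raw γ H c := by
  rw [raw_X_pow]
  unfold rawSub
  rw [if_pos (by simp), add_tsub_cancel_right]

theorem KQRaw6_cw_shift (a : I → I → ℕ) (γ : I →₀ ℕ) (x : I) (hx : a x x = 0) (n : ℕ) :
    cw a (γ + Finsupp.single x n) x = cw a γ x + 2 * n := by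
  rw [cw_add]
  congr 1
  unfold cw
  rw [Finset.sum_eq_single x]
  · simp [cart, hx]
  · intro b _ hb
    simp [Finsupp.single_eq_of_ne hb]
  · intro h
    exact absurd (Finset.mem_univ x) h

theorem KQRaw6_vanish (a : I → I → ℕ) (x : I) (s n : ℤ) (γ : I →₀ ℕ) (H : MvPowerSeries I ℚ)
    (hH : Fil a x s H) (c : I → I → MvPowerSeries I ℚ) (hc : ∀ i, i ≠ x → VReg a x 0 (c i))
    (v : I → MvPowerSeries I ℚ) (hv : VReg a x n v) (hγ : s + n - 1 < cw a γ x) :
    raw γ H (Function.update c x v) = 0 := by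
  unfold raw
  have h1 : ∀ i, VReg a x (if i = x then n else 0) (Function.update c x v i) := by
    intro i
    by_cases hi : i = x
    · subst hi
      simp only [if_true, Function.update_self]
      exact hv
    · simp only [hi, if_false]
      rw [Function.update_of_ne hi]
      exact hc i hi
  have h2 := det_reg h1
  have h3 := hH.mul h2
  refine h3.coeff_eq_zero ?_
  have h4 : (∑ i : I, if i = x then n else 0) = n := by simp
  rw [h4]
  linarith

theorem KQRaw6_cU_const (a : I → I → ℕ) (x : I) (k : ℕ) :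
    constantCoeff ((cU a x k : (MvPowerSeries I ℚ)ˣ) : MvPowerSeries I ℚ) = 1 := by
  unfold cU
  rw [Units.coe_prod, map_prod]
  refine Finset.prod_eq_one fun l _ => ?_
  rw [Units.val_pow_eq_pow_val, map_pow, uu_coe, uS_const, one_pow]

theorem KQRaw6_cU_coe (a : I → I → ℕ) (x : I) (k : ℕ) :
    ((cU a x k : (MvPowerSeries I ℚ)ˣ) : MvPowerSeries I ℚ) = ∏ l, uS a l k ^ (a x l) := by
  unfold cU
  rw [Units.coe_prod]
  refine Finset.prod_congr rfl fun l _ => ?_
  rw [Units.val_pow_eq_pow_val, uu_coe]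

theorem KQRaw6_cU_fil (a : I → I → ℕ) (hs : ∀ i j, a i j = a j i) (x : I) (hx : a x x = 0) (k : ℕ) :
    Fil a x 0 ((cU a x k : (MvPowerSeries I ℚ)ˣ) : MvPowerSeries I ℚ) := by
  rw [KQRaw6_cU_coe]
  have h : Fil a x (∑ _l : I, (0:ℤ)) (∏ l, uS a l k ^ (a x l)) := by
    refine Fil.prod fun l _ => ?_
    by_cases hl : l = x
    · subst hl
      rw [hx, pow_zero]
      exact Fil_one a l
    · have h2 := (uS_fil_ne a hs x hx l hl k).pow (a x l)
      rw [mul_zero] at h2
      exact h2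
  rw [Finset.sum_const_zero] at h
  exact h

theorem KQRaw6_cU_inv_fil (a : I → I → ℕ) (hs : ∀ i j, a i j = a j i) (x : I) (hx : a x x = 0)
    (k : ℕ) : Fil a x 0 (((cU a x k)⁻¹ : (MvPowerSeries I ℚ)ˣ) : MvPowerSeries I ℚ) :=
  Fil_inv (KQRaw6_cU_fil a hs x hx k) (KQRaw6_cU_const a x k)

/-- `raw` with a zero column -/
theorem KQRaw6_zero_col (γ : I →₀ ℕ) (F : MvPowerSeries I ℚ) (c : I → I → MvPowerSeries I ℚ)
    (x : I) : raw γ F (Function.update c x (fun _ => 0)) = 0 := by
  have h := raw_smul γ F 0 c x (fun _ => 0)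
  simp only [zero_mul] at h
  rw [h]
  unfold raw
  rw [mul_zero, zero_mul, map_zero]

/-- sums in the column `x` -/
theorem KQRaw6_sum (γ : I →₀ ℕ) (F : MvPowerSeries I ℚ) (c : I → I → MvPowerSeries I ℚ)
    (x : I) (s : Finset ℕ) (v : ℕ → I → MvPowerSeries I ℚ) :
    raw γ F (Function.update c x (fun l => ∑ m ∈ s, v m l)) =
      ∑ m ∈ s, raw γ F (Function.update c x (v m)) := by
  induction s using Finset.induction_on with
  | empty =>
    simp only [Finset.sum_empty]
    exact KQRaw6_zero_col γ F c x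
  | insert m s hm ih =>
    simp only [Finset.sum_insert hm]
    rw [raw_add, ih]

theorem KQRaw6_neg (γ : I →₀ ℕ) (F : MvPowerSeries I ℚ) (c : I → I → MvPowerSeries I ℚ) :
    raw γ (-F) c = - raw γ F c := by
  unfold raw
  rw [neg_mul, map_neg]

/-- the geometric expansion -/
theorem KQRaw6_geom (a : I → I → ℕ) (hs : ∀ i j, a i j = a j i) (x : I) (k N : ℕ) (l : I) :
    xv a x (k + 2) l - 2 * xv a x (k + 1) l + xv a x k l =
      (∑ m ∈ Finset.Icc 1 N, etaS a x (k + 1) ^ m * lamV a x (k + 1) l) +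
      etaS a x (k + 1) ^ (N + 1) *
        (xv a x (k + 2) l - 2 * xv a x (k + 1) l + xv a x k l + lamV a x (k + 1) l) := by
  have h := xv_eta a hs x k l
  induction N with
  | zero =>
    simp only [zero_add, pow_one]
    rw [show Finset.Icc 1 0 = (∅ : Finset ℕ) from rfl, Finset.sum_empty, zero_add]
    linear_combination h
  | succ N ih =>
    rw [Finset.sum_Icc_succ_top (by omega), pow_succ _ (N + 1)]
    linear_combination ih + etaS a x (k + 1) ^ (N + 1) * h

theorem KQRaw6_eta_pow (a : I → I → ℕ) (x : I) (k m : ℕ) (F : MvPowerSeries I ℚ) :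
    F * uS a x k * etaS a x k ^ m = (X x) ^ (k * m) *
      (F * (((cU a x k) ^ m * (uu a x k) ^ ((1:ℤ) - 2 * (m : ℤ)) :
      (MvPowerSeries I ℚ)ˣ) : MvPowerSeries I ℚ)) := by
  have h1 : (uu a x k) ^ ((1:ℤ) - 2 * (m : ℤ)) = uu a x k * ((uu a x k) ^ (-2 : ℤ)) ^ m := by
    rw [← zpow_natCast, ← zpow_mul, ← zpow_one_add]
    congr 1
  unfold etaS
  rw [h1, mul_pow, ← pow_mul, ← Units.val_pow_eq_pow_val, mul_pow]
  push_cast
  rw [uu_coe]
  ring

theorem raw_wall_odd (a : I → I → ℕ) (hs : ∀ i j, a i j = a j i) (x : I) (hx : a x x = 0)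
    (k : ℕ) (γ : I →₀ ℕ) (hγ : cw a γ x = (k : ℤ) + 1)
    (F : MvPowerSeries I ℚ) (hF : Fil a x 0 F) (c : I → I → MvPowerSeries I ℚ)
    (hc : ∀ i, i ≠ x → VReg a x 0 (c i)) :
    raw γ (F * uS a x (k + 1)) (Function.update c x (xv a x (k + 2))) =
      (if k = 0 then 0 else rawSub γ x 1
        (F * ((cU a x (k + 1) * (cU a x k)⁻¹ : (MvPowerSeries I ℚ)ˣ) : MvPowerSeries I ℚ) *
          uS a x (k - 1)) (Function.update c x (xv a x k))) +
      etaSum a γ x (k + 2) 1 F c := by
  have hfin : γ x < (k + 1) * (γ x / (k + 1) + 1) := by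
    have := Nat.lt_mul_div_succ (γ x) (Nat.succ_pos k)
    simpa using this
  -- expansion of the column
  have e1 : (xv a x (k + 2)) = fun l => (2 * xv a x (k + 1) l) + ((-1 * xv a x k l) +
      ((∑ m ∈ Finset.Icc 1 (γ x / (k + 1)), etaS a x (k + 1) ^ m * lamV a x (k + 1) l) +
      etaS a x (k + 1) ^ (γ x / (k + 1) + 1) *
        (xv a x (k + 2) l - 2 * xv a x (k + 1) l + xv a x k l + lamV a x (k + 1) l))) := by
    funext l
    have := KQRaw6_geom a hs x k (γ x / (k + 1)) l
    linear_combination this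
  have e2 : raw γ (F * uS a x (k + 1)) (Function.update c x (xv a x (k + 2))) =
      raw γ (F * uS a x (k + 1)) (Function.update c x (fun l => 2 * xv a x (k + 1) l)) +
      (raw γ (F * uS a x (k + 1)) (Function.update c x (fun l => -1 * xv a x k l)) +
      ((∑ m ∈ Finset.Icc 1 (γ x / (k + 1)), raw γ (F * uS a x (k + 1))
        (Function.update c x (fun l => etaS a x (k + 1) ^ m * lamV a x (k + 1) l))) +
      raw γ (F * uS a x (k + 1)) (Function.update c x
        (fun l => etaS a x (k + 1) ^ (γ x / (k + 1) + 1) *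
        (xv a x (k + 2) l - 2 * xv a x (k + 1) l + xv a x k l + lamV a x (k + 1) l))))) := by
    conv_lhs => rw [e1]
    rw [raw_add, raw_add, raw_add, KQRaw6_sum]
  -- the remainder vanishes
  have e3 : raw γ (F * uS a x (k + 1)) (Function.update c x
        (fun l => etaS a x (k + 1) ^ (γ x / (k + 1) + 1) *
        (xv a x (k + 2) l - 2 * xv a x (k + 1) l + xv a x k l + lamV a x (k + 1) l))) = 0 := by
    rw [raw_smul, KQRaw6_eta_pow, raw_X_pow]
    unfold rawSub
    rw [if_neg (by omega)]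
  -- the eta sum
  have e4 : (∑ m ∈ Finset.Icc 1 (γ x / (k + 1)), raw γ (F * uS a x (k + 1))
        (Function.update c x (fun l => etaS a x (k + 1) ^ m * lamV a x (k + 1) l))) =
      etaSum a γ x (k + 2) 1 F c := by
    unfold etaSum
    have h0 : k + 2 - 1 = k + 1 := rfl
    rw [h0]
    refine Finset.sum_congr rfl fun m _ => ?_
    rw [raw_smul, KQRaw6_eta_pow, raw_X_pow]
  -- the regular part
  have e5 : raw γ (F * uS a x (k + 1)) (Function.update c x (fun l => 2 * xv a x (k + 1) l)) = 0 := by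
    have h1 : (fun l => 2 * xv a x (k + 1) l) = fun l => (C (2:ℚ) : MvPowerSeries I ℚ) * xv a x (k + 1) l := by
      funext l
      have h2 : (C (2:ℚ) : MvPowerSeries I ℚ) = 2 := map_ofNat _ 2
      rw [h2]
    rw [h1, raw_smul, mul_right_comm, ← raw_smul]
    refine KQRaw6_vanish a x 0 ((k + 1 : ℕ) : ℤ) γ _ ?_ c hc _ (xv_pole a hs x hx (k + 1)) ?_
    · have := hF.mul (Fil_C a x 2)
      rwa [add_zero] at this
    · rw [hγ]
      push_cast
      linarith
  have e6 : raw γ (F * uS a x (k + 1)) (Function.update c x (fun l => -1 * xv a x k l)) =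
      (if k = 0 then 0 else rawSub γ x 1
        (F * ((cU a x (k + 1) * (cU a x k)⁻¹ : (MvPowerSeries I ℚ)ˣ) : MvPowerSeries I ℚ) *
          uS a x (k - 1)) (Function.update c x (xv a x k))) := by
    rcases Nat.eq_zero_or_pos k with hk0 | hk
    · subst hk0
      rw [if_pos rfl]
      have h1 : (fun l => -1 * xv a x 0 l) = fun _ => (0 : MvPowerSeries I ℚ) := by
        funext l
        rw [xv_zero, mul_zero]
      rw [h1]
      exact KQRaw6_zero_col _ _ _ _
    · rw [if_neg (by omega)]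
      obtain ⟨n, rfl⟩ : ∃ n, k = n + 1 := ⟨k - 1, by omega⟩
      have hn : n + 1 - 1 = n := rfl
      rw [hn, raw_smul]
      have r1 := uS_rec a x n
      have r2 := uS_rec a x (n + 1)
      rw [← KQRaw6_cU_coe] at r1 r2
      have hinv : ((cU a x (n + 1) : (MvPowerSeries I ℚ)ˣ) : MvPowerSeries I ℚ) *
          (((cU a x (n + 1))⁻¹ : (MvPowerSeries I ℚ)ˣ) : MvPowerSeries I ℚ) = 1 := Units.mul_inv _
      have h1 : (X x) ^ (n + 1) * (F * uS a x (n + 1 + 1) * -1) =
          (X x) ^ (n + 1) * ((X x) ^ 1 * (F * ((cU a x (n + 1 + 1) * (cU a x (n + 1))⁻¹ :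
            (MvPowerSeries I ℚ)ˣ) : MvPowerSeries I ℚ) * uS a x n)) +
          F * (((cU a x (n + 1))⁻¹ : (MvPowerSeries I ℚ)ˣ) : MvPowerSeries I ℚ) *
            (uS a x (n + 3) * uS a x n - uS a x (n + 2) * uS a x (n + 1)) * uS a x (n + 1) := by
        push_cast
        have r1' : uS a x (n + 2) * uS a x n = uS a x (n + 1) ^ 2 -
          X x ^ (n + 1) * ((cU a x (n + 1) : (MvPowerSeries I ℚ)ˣ) : MvPowerSeries I ℚ) := r1
        have r2' : uS a x (n + 3) * uS a x (n + 1) = uS a x (n + 2) ^ 2 -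
          X x ^ (n + 2) * ((cU a x (n + 2) : (MvPowerSeries I ℚ)ˣ) : MvPowerSeries I ℚ) := r2
        have e : n + 1 + 1 = n + 2 := rfl
        rw [e]
        have e' : (X x : MvPowerSeries I ℚ) ^ (n + 2) = X x ^ (n + 1) * X x := pow_succ _ _
        rw [e'] at r2'
        generalize (((cU a x (n + 1))⁻¹ : (MvPowerSeries I ℚ)ˣ) : MvPowerSeries I ℚ) = ci at *
        generalize ((cU a x (n + 1) : (MvPowerSeries I ℚ)ˣ) : MvPowerSeries I ℚ) = c1 at *
        generalize ((cU a x (n + 2) : (MvPowerSeries I ℚ)ˣ) : MvPowerSeries I ℚ) = c2 at *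
        generalize uS a x (n + 3) = u3 at *
        generalize uS a x (n + 2) = u2 at *
        generalize uS a x (n + 1) = u1 at *
        generalize uS a x n = u0 at *
        generalize (X x : MvPowerSeries I ℚ) ^ (n + 1) = Y at *
        linear_combination (-(F * ci * u0)) * r2' + (-(F * ci * u2)) * r1' + (F * u2 * Y) * hinv
      rw [← KQRaw6_shift γ x (n + 1), h1, raw_add_left, KQRaw6_shift, raw_X_pow, ← raw_smul]
      have h2 : raw (γ + Finsupp.single x (n + 1))
          (F * (((cU a x (n + 1))⁻¹ : (MvPowerSeries I ℚ)ˣ) : MvPowerSeries I ℚ) *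
            (uS a x (n + 3) * uS a x n - uS a x (n + 2) * uS a x (n + 1)))
          (Function.update c x (fun l => uS a x (n + 1) * xv a x (n + 1) l)) = 0 := by
        refine KQRaw6_vanish a x (2 * (n:ℤ) + 3) ((n + 1 : ℕ) : ℤ) _ _ ?_ c hc _
          (xv_pole a hs x hx (n + 1)) ?_
        · have g1 := hF.mul (KQRaw6_cU_inv_fil a hs x hx (n + 1))
          have g2 := (uS_fil_self a hs x hx (n + 3)).mul (uS_fil_self a hs x hx n)
          have g3 := (uS_fil_self a hs x hx (n + 2)).mul (uS_fil_self a hs x hx (n + 1))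
          have g4 : Fil a x (2 * (n:ℤ) + 3)
              (uS a x (n + 3) * uS a x n - uS a x (n + 2) * uS a x (n + 1)) :=
            (g2.mono (by push_cast; linarith)).sub (g3.mono (by push_cast; linarith))
          exact (g1.mul g4).mono (by linarith)
        · rw [KQRaw6_cw_shift a γ x hx, hγ]
          push_cast
          linarith
      rw [h2, add_zero]
  rw [e2, e3, e4, e5, e6]
  ring

end Pool.Agent.H27.KAC
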