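import Pool.Agent.H27.KAC.KQSt1
import Pool.Agent.H27.KAC.KQRaw5
import Pool.Agent.H27.KAC.KQRaw6

/-!
KAC module KQSt5: a wall goes down.  `κ x = k + 2`, neighbours `l` of `x` at level `k + 1`.
In the terms with `m ≥ 1` factors `η_x`, column `x` is `λ_x = 2 x_{x,k+1} - ∑_l a x l u_l`;
this is `GVal` with `M = 1` except `M x x = 2`, `M l x = - a x l`, `N l x = 0`, and
`GVal_norm` (det M = 2) gives twice the value of `staEm`.
`st_odd` uses `raw_wall_odd`: `cU a x (k+1)` are upper, `cU a x k` lower powers of the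
neighbours.
-/

namespace Pool.Agent.H27.KAC

open scoped BigOperators
open MvPowerSeries

variable {I : Type} [Fintype I] [DecidableEq I]

/-- factor of one vertex. -/
private noncomputable def KQSt5_g (a : I → I → ℕ) (σ : Sta I) (i : I) : (MvPowerSeries I ℚ)ˣ :=
  (uu a i (σ.κ i)) ^ (-(σ.P i)) * (uu a i (σ.κ i - 1)) ^ (σ.p i)

private theorem KQSt5_facS (a : I → I → ℕ) (σ : Sta I) :
    facS a σ = ((∏ i, KQSt5_g a σ i : (MvPowerSeries I ℚ)ˣ) : MvPowerSeries I ℚ) := rfl

/-- the columns `i ≠ x` do not change. -/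
private theorem KQSt5_col_ne (a : I → I → ℕ) (σ σ' : Sta I) (x : I)
    (hκ : ∀ l, l ≠ x → σ'.κ l = σ.κ l) (hH : ∀ l i, l ≠ x → i ≠ x → σ'.H l i = σ.H l i)
    (h0 : ∀ i, i ≠ x → σ.H x i = 0) (h0' : ∀ i, i ≠ x → σ'.H x i = 0) (i : I) (hi : i ≠ x) :
    colS a σ' i = colS a σ i := by
  funext l
  unfold colS
  rw [hκ i hi]
  congr 1
  refine Finset.sum_congr rfl fun l' _ => ?_
  by_cases hl : l' = x
  · subst hl
    rw [h0 i hi, h0' i hi, map_zero, zero_mul, zero_mul]
  · rw [hκ l' hl, hH l' i hl hi]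

private theorem KQSt5_col_x (a : I → I → ℕ) (σ : Sta I) (x : I) (h : ∀ l, σ.H l x = 0) :
    colS a σ x = xv a x (σ.κ x) := by
  funext l
  unfold colS
  simp [h]

private theorem KQSt5_col_D (a : I → I → ℕ) (σ : Sta I) (x : I) (h : ∀ l, l ≠ x → σ.H l x = 0)
    (h1 : σ.H x x = 1) :
    colS a σ x = fun l => xv a x (σ.κ x) l - xv a x (σ.κ x - 1) l := by
  funext l
  unfold colS
  rw [Finset.sum_eq_single x]
  · rw [h1, map_one, one_mul]
  · intro l' _ hl'
    rw [h l' hl', map_zero, zero_mul]
  · intro h'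
    exact absurd (Finset.mem_univ _) h'

/-- two descriptions of the columns. -/
private theorem KQSt5_upd (a : I → I → ℕ) (σ σ' : Sta I) (x : I)
    (hκ : ∀ l, l ≠ x → σ'.κ l = σ.κ l) (hH : ∀ l i, l ≠ x → i ≠ x → σ'.H l i = σ.H l i)
    (h0 : ∀ i, i ≠ x → σ.H x i = 0) (h0' : ∀ i, i ≠ x → σ'.H x i = 0)
    (v : I → MvPowerSeries I ℚ) (hv : colS a σ' x = v) :
    colS a σ' = Function.update (colS a σ) x v := by
  funext i
  by_cases hi : i = x
  · subst hi
    rw [Function.update_self, hv]
  · rw [Function.update_of_ne hi, KQSt5_col_ne a σ σ' x hκ hH h0 h0' i hi]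

/-- facts on a wall. -/
private theorem KQSt5_staA (a : I → I → ℕ) (γ : I →₀ ℕ) (σ : Sta I) (ty : I → Ty)
    (hS : Shape a σ ty) (x : I) (hx : ty x ≠ Ty.R) (k : ℕ) (hk : σ.κ x = k + 2) (hp : σ.p x = 0) :
    Val a γ (staA σ x) = raw γ (facS a σ) (Function.update (colS a σ) x (xv a x (k + 1))) := by
  have hfac : facS a (staA σ x) = facS a σ := by
    rw [KQSt5_facS, KQSt5_facS]
    congr 1
    refine Finset.prod_congr rfl fun i _ => ?_
    unfold KQSt5_g staA
    by_cases hi : i = x
    · subst hi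
      simp only [hS.P0 _ hx, hp]
      simp
    · simp only [Function.update_of_ne hi]
  unfold Val
  rw [hfac, KQSt5_upd a σ (staA σ x) x (fun l hl => Function.update_of_ne hl _ _)
    (fun l i hl hi => by simp [staA, hl, hi]) (hS.row x hx) (fun i _ => by simp [staA])
    (xv a x (k + 1))]
  rw [KQSt5_col_x a (staA σ x) x fun l => by simp [staA]]
  simp [staA, hk]

private theorem KQSt5_staD (a : I → I → ℕ) (γ : I →₀ ℕ) (σ : Sta I) (ty : I → Ty)
    (hS : Shape a σ ty) (x : I) (hx : ty x ≠ Ty.R) (k : ℕ) (hk : σ.κ x = k + 2) (hp : σ.p x = 0) :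
    Val a γ (staD σ x) = raw γ (facS a σ)
      (Function.update (colS a σ) x (fun l => xv a x (k + 1) l - xv a x k l)) := by
  have hfac : facS a (staD σ x) = facS a σ := by
    rw [KQSt5_facS, KQSt5_facS]
    congr 1
    refine Finset.prod_congr rfl fun i _ => ?_
    unfold KQSt5_g staD
    by_cases hi : i = x
    · subst hi
      simp only [hS.P0 _ hx, hp]
      simp
    · simp only [Function.update_of_ne hi]
  unfold Val
  rw [hfac, KQSt5_upd a σ (staD σ x) x (fun l hl => Function.update_of_ne hl _ _)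
    (fun l i hl hi => by simp [staD, hl, hi]) (hS.row x hx) (fun i hi => by simp [staD, hi])
    (fun l => xv a x (k + 1) l - xv a x k l)]
  rw [KQSt5_col_D a (staD σ x) x (fun l hl => by simp [staD, hl]) (by simp [staD])]
  simp [staD, hk]

private theorem KQSt5_facEm (a : I → I → ℕ) (σ : Sta I) (ty : I → Ty)
    (hS : Shape a σ ty) (x : I) (hx : ty x ≠ Ty.R) (k : ℕ) (hk : σ.κ x = k + 2)
    (hn : ∀ l, 0 < a x l → σ.κ l = k + 1) (m e : ℕ) (hp : σ.p x = e) :
    (∏ i, KQSt5_g a (staEm a σ x m e) i : (MvPowerSeries I ℚ)ˣ) =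
      (∏ i, KQSt5_g a σ i) * ((cU a x (k + 1)) ^ m * (uu a x (k + 1)) ^ (-(2 * (m : ℤ)))) := by
  have h1 : (uu a x (k + 1)) ^ (-(2 * (m : ℤ))) =
      ∏ i, (if i = x then (uu a x (k + 1)) ^ (-(2 * (m : ℤ))) else 1) := by
    rw [Finset.prod_ite_eq' Finset.univ x]
    simp
  unfold cU
  rw [h1, ← Finset.prod_pow, ← Finset.prod_mul_distrib, ← Finset.prod_mul_distrib]
  refine Finset.prod_congr rfl fun i _ => ?_
  unfold KQSt5_g staEm
  by_cases hi : i = x
  · subst hi
    simp only [hS.P0 _ hx, hp, hS.loopfree _ hx, hk, Function.update_self, if_true, neg_zero,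
      zpow_zero, pow_zero, one_pow, one_mul, mul_one, zpow_natCast, Nat.add_one_sub_one]
    rw [← zpow_natCast, ← zpow_add]
    congr 1
    ring
  · simp only [Function.update_of_ne hi, if_neg hi, mul_one]
    rcases Nat.eq_zero_or_pos (a x i) with h0 | h0
    · simp [h0]
    · rw [hn i h0, ← pow_mul, neg_sub, sub_eq_add_neg, zpow_add, ← zpow_natCast]
      push_cast
      simp only [mul_comm, mul_assoc]

/-- a term of the sum over `m`. -/
private theorem KQSt5_term (a : I → I → ℕ) (hs : ∀ i j, a i j = a j i) (γ : I →₀ ℕ) (σ : Sta I)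
    (ty : I → Ty) (hS : Shape a σ ty) (x : I) (hx : ty x ≠ Ty.R) (k : ℕ) (hk : σ.κ x = k + 2)
    (hn : ∀ l, 0 < a x l → σ.κ l = k + 1) (m e : ℕ) (hp : σ.p x = e) :
    raw γ (facS a σ * (((cU a x (k + 1)) ^ m * (uu a x (k + 1)) ^ (-(2 * (m : ℤ))) :
        (MvPowerSeries I ℚ)ˣ) : MvPowerSeries I ℚ))
      (Function.update (colS a σ) x (lamV a x (k + 1))) = 2 * Val a γ (staEm a σ x m e) := by
  have hax := hS.loopfree x hx
  have hcart : ∀ l, l ≠ x → ((cart a l x : ℤ) : ℚ) = -(a x l : ℚ) := by
    intro l hl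
    unfold cart
    rw [if_neg hl, hs l x]
    push_cast
    ring
  have hcx : ((cart a x x : ℤ) : ℚ) = 2 := by
    unfold cart
    rw [if_pos rfl, hax]
    norm_num
  set M : I → I → ℚ := fun l i => if i = x then ((cart a l x : ℤ) : ℚ) else
    if l = i then 1 else 0 with hM
  set N : I → I → ℚ := fun l i => if i = x then 0 else σ.H l i with hN
  have hdet : (Matrix.of M).det = 2 := by
    have h1 : Matrix.of M = (1 : Matrix I I ℚ).updateCol x (fun l => ((cart a l x : ℤ) : ℚ)) := by
      ext l i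
      by_cases hi : i = x
      · subst hi
        simp [hM]
      · simp [hM, hi, Matrix.one_apply]
    rw [h1, ← Matrix.cramer_apply, Matrix.cramer_one]
    exact hcx
  have hnorm := GVal_norm a γ (staEm a σ x m e).κ (staEm a σ x m e).P (staEm a σ x m e).p M N
    (staEm a σ x m e).H (by
      intro l i
      by_cases hl : l = x
      · subst hl
        simp only [hN, staEm, if_true, zero_mul, Finset.sum_const_zero]
        by_cases hi : i = l
        · rw [if_pos hi]
        · rw [if_neg hi, hS.row l hx i hi]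
      · by_cases hi : i = x
        · subst hi
          simp only [hN, hM, staEm, if_true, if_neg hl]
          rw [← Finset.add_sum_erase _ _ (Finset.mem_univ i)]
          simp only [if_true, hcx]
          have h2 : ∑ y ∈ Finset.univ.erase i, (if y = i then (∑ l', (a i l' : ℚ) * σ.H l l') / 2
              else σ.H l y) * ((cart a y i : ℤ) : ℚ) =
              -∑ y ∈ Finset.univ.erase i, (a i y : ℚ) * σ.H l y := by
            rw [← Finset.sum_neg_distrib]
            refine Finset.sum_congr rfl fun y hy => ?_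
            have hy' := (Finset.mem_erase.1 hy).1
            rw [if_neg hy', hcart y hy']
            ring
          rw [h2, ← Finset.add_sum_erase _ (fun l' => (a i l' : ℚ) * σ.H l l')
            (Finset.mem_univ i), hax]
          push_cast
          ring
        · simp only [hN, hM, staEm, if_neg hl, if_neg hi]
          rw [Finset.sum_eq_single i]
          · simp [hi]
          · intro y _ hy
            simp [hy]
          · intro h'
            exact absurd (Finset.mem_univ _) h')
  rw [hdet] at hnorm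
  rw [show (⟨(staEm a σ x m e).κ, (staEm a σ x m e).P, (staEm a σ x m e).p,
    (staEm a σ x m e).H⟩ : Sta I) = staEm a σ x m e from rfl] at hnorm
  rw [← hnorm]
  unfold GVal
  congr 1
  · rw [KQSt5_facS, ← Units.val_mul, ← KQSt5_facEm a σ ty hS x hx k hk hn m e hp]
    rfl
  · funext i l
    by_cases hi : i = x
    · subst hi
      rw [Function.update_self]
      unfold colG lamV
      simp only [hN, hM, if_true, map_zero, zero_mul, Finset.sum_const_zero, sub_zero]
      refine Finset.sum_congr rfl fun l' _ => ?_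
      by_cases hl : l' = i
      · subst hl
        simp [staEm, hk]
      · rcases Nat.eq_zero_or_pos (a i l') with h0 | h0
        · rw [hcart l' hl, h0]
          simp
        · have : (staEm a σ i m e).κ l' = k + 1 := by
            simp only [staEm, Function.update_of_ne hl]
            exact hn l' h0
          rw [this]
    · rw [Function.update_of_ne hi]
      unfold colG colS
      simp only [hN, hM, if_neg hi]
      congr 1
      · rw [Finset.sum_eq_single i]
        · rw [if_pos rfl, map_one, one_mul]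
          simp only [staEm, Function.update_of_ne hi]
        · intro y _ hy
          rw [if_neg hy, map_zero, zero_mul]
        · intro h'
          exact absurd (Finset.mem_univ _) h'
      · refine Finset.sum_congr rfl fun l' _ => ?_
        by_cases hl : l' = x
        · subst hl
          rw [hS.row l' hx i hi, map_zero, zero_mul, zero_mul]
        · simp only [staEm, Function.update_of_ne hl]

private theorem KQSt5_etaSum (a : I → I → ℕ) (hs : ∀ i j, a i j = a j i) (γ : I →₀ ℕ) (σ : Sta I)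
    (ty : I → Ty) (hS : Shape a σ ty) (x : I) (hx : ty x ≠ Ty.R) (k : ℕ) (hk : σ.κ x = k + 2)
    (hn : ∀ l, 0 < a x l → σ.κ l = k + 1) (e : ℕ) (hp : σ.p x = e) (F : MvPowerSeries I ℚ)
    (hF : facS a σ = F * (((uu a x (k + 1)) ^ (e : ℤ) : (MvPowerSeries I ℚ)ˣ) :
      MvPowerSeries I ℚ)) :
    etaSum a γ x (k + 2) e F (colS a σ) =
      ∑ m ∈ Finset.Icc 1 (γ x / (k + 1)), 2 * VSub a γ x ((k + 1) * m) (staEm a σ x m e) := by
  unfold etaSum
  rw [show k + 2 - 1 = k + 1 from rfl]
  refine Finset.sum_congr rfl fun m _ => ?_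
  unfold rawSub VSub
  split_ifs with h
  · rw [← KQSt5_term a hs _ σ ty hS x hx k hk hn m e hp, hF]
    congr 1
    rw [mul_assoc, ← Units.val_mul]
    congr 2
    rw [sub_eq_add_neg, zpow_add]
    simp only [mul_comm, mul_left_comm]
  · rw [mul_zero]

theorem st_even (a : I → I → ℕ) (hs : ∀ i j, a i j = a j i) (γ : I →₀ ℕ) (σ : Sta I)
    (ty : I → Ty) (hS : Shape a σ ty) (x : I) (hx : ty x = Ty.A) (k : ℕ) (hk : σ.κ x = k + 2)
    (hp : σ.p x = 0) (hn : ∀ l, 0 < a x l → σ.κ l = k + 1) :
    Val a γ σ = Val a γ (staA σ x) + Val a γ (staD σ x) +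
      ∑ m ∈ Finset.Icc 1 (γ x / (k + 1)), 2 * VSub a γ x ((k + 1) * m) (staEm a σ x m 0) := by
  have hx' : ty x ≠ Ty.R := by rw [hx]; decide
  have hcol : ∀ l, σ.H l x = 0 := by
    intro l
    by_cases hl : l = x
    · subst hl; exact hS.diagA _ hx
    · exact hS.col x hx' l hl
  have h1 : colS a σ = Function.update (colS a σ) x (xv a x (k + 2)) :=
    KQSt5_upd a σ σ x (fun _ _ => rfl) (fun _ _ _ _ => rfl) (hS.row x hx') (hS.row x hx') _
      (by rw [KQSt5_col_x a σ x hcol, hk])
  rw [KQSt5_staA a γ σ ty hS x hx' k hk hp, KQSt5_staD a γ σ ty hS x hx' k hk hp,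
    ← KQSt5_etaSum a hs γ σ ty hS x hx' k hk hn 0 (by rw [hp]; rfl) (facS a σ) (by simp)]
  unfold Val
  conv_lhs => rw [h1]
  exact raw_wall_even a hs x k γ (facS a σ) (colS a σ)

theorem st_D (a : I → I → ℕ) (hs : ∀ i j, a i j = a j i) (γ : I →₀ ℕ) (σ : Sta I)
    (ty : I → Ty) (hS : Shape a σ ty) (x : I) (hx : ty x = Ty.D) (k : ℕ) (hk : σ.κ x = k + 2)
    (hn : ∀ l, 0 < a x l → σ.κ l = k + 1) :
    Val a γ σ = Val a γ (staD σ x) +
      ∑ m ∈ Finset.Icc 1 (γ x / (k + 1)), 2 * VSub a γ x ((k + 1) * m) (staEm a σ x m 0) := by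
  have hx' : ty x ≠ Ty.R := by rw [hx]; decide
  have hp := hS.pD x hx
  have h1 : colS a σ = Function.update (colS a σ) x
      (fun l => xv a x (k + 2) l - xv a x (k + 1) l) :=
    KQSt5_upd a σ σ x (fun _ _ => rfl) (fun _ _ _ _ => rfl) (hS.row x hx') (hS.row x hx') _
      (by rw [KQSt5_col_D a σ x (hS.col x hx') (hS.diagD x hx), hk]; rfl)
  rw [KQSt5_staD a γ σ ty hS x hx' k hk hp,
    ← KQSt5_etaSum a hs γ σ ty hS x hx' k hk hn 0 (by rw [hp]; rfl) (facS a σ) (by simp)]
  unfold Val
  conv_lhs => rw [h1]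
  exact raw_wall_D a hs x k γ (facS a σ) (colS a σ)

theorem st_odd (a : I → I → ℕ) (hs : ∀ i j, a i j = a j i) (γ : I →₀ ℕ) (σ : Sta I)
    (ty : I → Ty) (hS : Shape a σ ty) (x : I) (hx : ty x = Ty.A) (k : ℕ) (hk : σ.κ x = k + 2)
    (hκ1 : ∀ i, 1 ≤ σ.κ i) (hp : σ.p x = 1) (hn : ∀ l, 0 < a x l → σ.κ l = k + 1)
    (hc : Cons a γ σ x) :
    Val a γ σ = (if k = 0 then 0 else VSub a γ x 1 (staLag a σ x)) +
      ∑ m ∈ Finset.Icc 1 (γ x / (k + 1)), 2 * VSub a γ x ((k + 1) * m) (staEm a σ x m 1) := by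
  have hx' : ty x ≠ Ty.R := by rw [hx]; decide
  have hax := hS.loopfree x hx'
  have hP := hS.P0 x hx'
  have hcol : ∀ l, σ.H l x = 0 := by
    intro l
    by_cases hl : l = x
    · subst hl; exact hS.diagA _ hx
    · exact hS.col x hx' l hl
  have h1 : colS a σ = Function.update (colS a σ) x (xv a x (k + 2)) :=
    KQSt5_upd a σ σ x (fun _ _ => rfl) (fun _ _ _ _ => rfl) (hS.row x hx') (hS.row x hx') _
      (by rw [KQSt5_col_x a σ x hcol, hk])
  have hcw : cw a γ x = (k : ℤ) + 1 := by
    have := hc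
    unfold Cons at this
    rw [this, hk, hp, hP]
    push_cast
    ring
  set F0 : (MvPowerSeries I ℚ)ˣ := ∏ i ∈ Finset.univ.erase x, KQSt5_g a σ i with hF0
  have hgx : KQSt5_g a σ x = uu a x (k + 1) := by
    unfold KQSt5_g
    rw [hP, hp, hk]
    simp
  have hfac : facS a σ = (F0 : MvPowerSeries I ℚ) * uS a x (k + 1) := by
    rw [KQSt5_facS, ← Finset.mul_prod_erase _ _ (Finset.mem_univ x), hgx, mul_comm, Units.val_mul,
      uu_coe]
  have hFil : Fil a x 0 (F0 : MvPowerSeries I ℚ) := by
    rw [hF0, Units.coe_prod]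
    have h2 : ∀ i ∈ Finset.univ.erase x, Fil a x 0 ((KQSt5_g a σ i : (MvPowerSeries I ℚ)ˣ) :
        MvPowerSeries I ℚ) := by
      intro i hi
      have hi' := (Finset.mem_erase.1 hi).1
      unfold KQSt5_g
      rw [Units.val_mul]
      have := (uu_zpow_fil a hs x hax i hi' (σ.κ i) (-(σ.P i))).mul
        (uu_zpow_fil a hs x hax i hi' (σ.κ i - 1) (σ.p i))
      rwa [add_zero] at this
    have := Fil.prod (r := fun _ => 0) h2
    rwa [Finset.sum_const_zero] at this
  have hreg : ∀ i, i ≠ x → VReg a x 0 (colS a σ i) := by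
    intro i hi
    have h2 : VReg a x 0 (fun l => ∑ l', C (σ.H l' i) * xv a l' (σ.κ l' - 1) l) := by
      refine VReg.sum (v := fun l' l => C (σ.H l' i) * xv a l' (σ.κ l' - 1) l) fun l' _ => ?_
      by_cases hl : l' = x
      · subst hl
        simp only [hS.row l' hx' i hi, map_zero, zero_mul]
        exact ⟨fun _ _ => Fil_zero _ _ _, Fil_zero _ _ _⟩
      · have := VReg.smul (Fil_C a x (σ.H l' i)) (xv_reg a hs x hax l' hl (σ.κ l' - 1))
        rwa [add_zero] at this
    have h3 := VReg.smul (F := -1) (Fil_one a x).neg h2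
    rw [add_zero] at h3
    have h4 := (xv_reg a hs x hax i hi (σ.κ i)).add h3
    have h5 : colS a σ i = fun l => xv a i (σ.κ i) l +
        -1 * ∑ l', C (σ.H l' i) * xv a l' (σ.κ l' - 1) l := by
      funext l
      unfold colS
      ring
    rw [h5]
    exact h4
  have hmain := raw_wall_odd a hs x hax k γ hcw (F0 : MvPowerSeries I ℚ) hFil (colS a σ) hreg
  have hval : Val a γ σ = raw γ ((F0 : MvPowerSeries I ℚ) * uS a x (k + 1))
      (Function.update (colS a σ) x (xv a x (k + 2))) := by
    unfold Val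
    rw [← hfac, ← h1]
  rw [hval, hmain]
  congr 1
  · split_ifs with h0
    · rfl
    · unfold rawSub VSub
      split_ifs with h2
      · unfold Val
        congr 1
        · rw [KQSt5_facS, ← Finset.mul_prod_erase _ _ (Finset.mem_univ x)]
          have e1 : KQSt5_g a (staLag a σ x) x = uu a x (k - 1) := by
            unfold KQSt5_g staLag
            simp [hP, hax, hk]
          have e2 : ∀ j, cU a x j = ∏ i ∈ Finset.univ.erase x, (uu a i j) ^ (a x i) := by
            intro j
            unfold cU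
            rw [← Finset.mul_prod_erase _ _ (Finset.mem_univ x), hax, pow_zero, one_mul]
          have e3 : ∏ i ∈ Finset.univ.erase x, KQSt5_g a (staLag a σ x) i =
              F0 * (cU a x (k + 1) * (cU a x k)⁻¹) := by
            rw [e2, e2, hF0, ← Finset.prod_inv_distrib, ← Finset.prod_mul_distrib,
              ← Finset.prod_mul_distrib]
            refine Finset.prod_congr rfl fun i hi => ?_
            have hi' := (Finset.mem_erase.1 hi).1
            unfold KQSt5_g staLag
            simp only [Function.update_of_ne hi', if_neg hi']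
            rcases Nat.eq_zero_or_pos (a x i) with h0 | h0
            · simp [h0]
            · rw [hn i h0, neg_sub, sub_eq_add_neg, zpow_add, sub_eq_add_neg, zpow_add,
                zpow_neg _ (a x i : ℤ), zpow_natCast, zpow_natCast, Nat.add_sub_cancel]
              simp only [mul_comm, mul_left_comm, mul_assoc]
          rw [e1, e3, Units.val_mul (uu a x (k - 1)), Units.val_mul F0, uu_coe]
          ring
        · symm
          refine KQSt5_upd a σ (staLag a σ x) x (fun l hl => Function.update_of_ne hl _ _)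
            (fun l i hl hi => by simp [staLag, hl, hi]) (hS.row x hx') (fun i _ => by simp [staLag])
            _ ?_
          rw [KQSt5_col_x a (staLag a σ x) x fun l => by simp [staLag]]
          simp [staLag, hk]
      · rfl
  · exact KQSt5_etaSum a hs γ σ ty hS x hx' k hk hn 1 (by rw [hp]; rfl) (F0 : MvPowerSeries I ℚ)
      (by rw [hfac]; simp [uu_coe])

end Pool.Agent.H27.KAC
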