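import Pool.Agent.H27.KAC.KP5
import Pool.Agent.H27.KAC.KP6
import Pool.Agent.H27.KAC.KP8
import Pool.Agent.H27.KAC.KQSt5

/-!
KAC module KP9: positivity of all fresh states.

* `Fr_of_Ph2`: a phase 2 state at level `k+2` without walls at level `k+2` is fresh at level `k+1`.
* `pos_Ph2`: induction on `∑_{x wall, κ x = k+2} ((p x).toNat + 1)`: choose a wall `x` at level `k+2`;
  type D: `st_D`; type A with `p_x = 0`: `st_even`; `p_x = 1`: `st_odd`; `p_x ≥ 2`: `st_reduce`; all terms are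
  nonnegative by `ph2_*`, `ph2_em` and the induction hypothesis (`VSub`: value at `γ - n e_x` or zero).
* `pos_Fr_one`: all levels are 1 (a lagging wall would have level 0), `Val = coeff γ 1`.
* `pos_Fr`: induction on `k`.
-/

namespace Pool.Agent.H27.KAC

open scoped BigOperators
open MvPowerSeries

variable {I : Type} [Fintype I] [DecidableEq I]

theorem Fr_of_Ph2 (a : I → I → ℕ) (γ : I →₀ ℕ) (σ : Sta I) (ty : I → Ty) (k : ℕ)
    (h : Ph2 a γ σ ty (k + 2)) (hn : ∀ x, ty x ≠ Ty.R → σ.κ x ≠ k + 2) :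
    Fr a γ σ ty (k + 1) := by
  refine ⟨h.toBase, fun l hl => ?_, fun x hx => ?_⟩
  · have := h.reg l hl
    omega
  · rcases h.wall x hx with h1 | h1 | h1
    · exact absurd h1 (hn x hx)
    · left
      omega
    · right
      exact h1

/-- the measure for phase 2 -/
def KP9_mu (σ : Sta I) (ty : I → Ty) (K : ℕ) : ℕ :=
  ∑ x ∈ Finset.univ.filter (fun x => ty x ≠ Ty.R ∧ σ.κ x = K), ((σ.p x).toNat + 1)

omit [DecidableEq I] in
theorem KP9_mu_lt (σ σ' : Sta I) (ty ty' : I → Ty) (K : ℕ) (x : I) (hx : ty x ≠ Ty.R)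
    (hxk : σ.κ x = K)
    (h1 : ∀ l, l ≠ x → ty' l ≠ Ty.R → σ'.κ l = K →
      ty l ≠ Ty.R ∧ σ.κ l = K ∧ (σ'.p l).toNat ≤ (σ.p l).toNat)
    (h2 : ty' x ≠ Ty.R → σ'.κ x = K → (σ'.p x).toNat < (σ.p x).toNat) :
    KP9_mu σ' ty' K < KP9_mu σ ty K := by
  classical
  unfold KP9_mu
  rw [Finset.sum_filter, Finset.sum_filter]
  refine Finset.sum_lt_sum (fun l _ => ?_) ⟨x, Finset.mem_univ _, ?_⟩
  · by_cases hl : ty' l ≠ Ty.R ∧ σ'.κ l = K
    · rw [if_pos hl]
      by_cases hlx : l = x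
      · subst hlx
        rw [if_pos ⟨hx, hxk⟩]
        have := h2 hl.1 hl.2
        omega
      · obtain ⟨e1, e2, e3⟩ := h1 l hlx hl.1 hl.2
        rw [if_pos ⟨e1, e2⟩]
        omega
    · rw [if_neg hl]
      exact Nat.zero_le _
  · rw [if_pos (⟨hx, hxk⟩ : ty x ≠ Ty.R ∧ σ.κ x = K)]
    by_cases hl : ty' x ≠ Ty.R ∧ σ'.κ x = K
    · rw [if_pos hl]
      have := h2 hl.1 hl.2
      omega
    · rw [if_neg hl]
      omega

theorem KP9_muA (σ : Sta I) (ty : I → Ty) (K : ℕ) (x : I) (hx : ty x ≠ Ty.R)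
    (hxk : σ.κ x = K + 1) : KP9_mu (staA σ x) ty (K + 1) < KP9_mu σ ty (K + 1) := by
  refine KP9_mu_lt σ _ ty ty (K + 1) x hx hxk (fun l hlx hl hk => ?_) (fun _ hk => ?_)
  · have hk' : Function.update σ.κ x (σ.κ x - 1) l = K + 1 := hk
    rw [Function.update_of_ne hlx] at hk'
    exact ⟨hl, hk', le_rfl⟩
  · exfalso
    have hk' : Function.update σ.κ x (σ.κ x - 1) x = K + 1 := hk
    rw [Function.update_self] at hk'
    omega

theorem KP9_muD (σ : Sta I) (ty : I → Ty) (K : ℕ) (x : I) (hx : ty x ≠ Ty.R)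
    (hxk : σ.κ x = K + 1) :
    KP9_mu (staD σ x) (Function.update ty x Ty.D) (K + 1) < KP9_mu σ ty (K + 1) := by
  refine KP9_mu_lt σ _ ty _ (K + 1) x hx hxk (fun l hlx hl hk => ?_) (fun _ hk => ?_)
  · have hk' : Function.update σ.κ x (σ.κ x - 1) l = K + 1 := hk
    rw [Function.update_of_ne hlx] at hk' hl
    exact ⟨hl, hk', le_rfl⟩
  · exfalso
    have hk' : Function.update σ.κ x (σ.κ x - 1) x = K + 1 := hk
    rw [Function.update_self] at hk'
    omega

theorem KP9_muEm (a : I → I → ℕ) (σ : Sta I) (ty : I → Ty) (K : ℕ) (x : I) (hx : ty x ≠ Ty.R)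
    (hxk : σ.κ x = K) (m e : ℕ) :
    KP9_mu (staEm a σ x m e) (Function.update ty x Ty.R) K < KP9_mu σ ty K := by
  refine KP9_mu_lt σ _ ty _ K x hx hxk (fun l hlx hl hk => ?_) (fun h _ => ?_)
  · have hk' : Function.update σ.κ x (σ.κ x - 1) l = K := hk
    rw [Function.update_of_ne hlx] at hk' hl
    refine ⟨hl, hk', ?_⟩
    show (Function.update σ.p x 0 l).toNat ≤ _
    rw [Function.update_of_ne hlx]
  · exfalso
    rw [Function.update_self] at h
    exact h rfl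

theorem KP9_muRed (a : I → I → ℕ) (σ : Sta I) (ty : I → Ty) (K : ℕ) (x : I) (hx : ty x ≠ Ty.R)
    (hxk : σ.κ x = K) (hp : 2 ≤ σ.p x) : KP9_mu (staRed a σ x) ty K < KP9_mu σ ty K := by
  refine KP9_mu_lt σ _ ty ty K x hx hxk (fun l hlx hl hk => ⟨hl, hk, ?_⟩) (fun _ _ => ?_)
  · show (Function.update σ.p x (σ.p x - 2) l).toNat ≤ _
    rw [Function.update_of_ne hlx]
  · show (Function.update σ.p x (σ.p x - 2) x).toNat < _
    rw [Function.update_self]
    omega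

theorem KP9_muLag (a : I → I → ℕ) (σ : Sta I) (ty : I → Ty) (K : ℕ) (x : I)
    (hx : ty x ≠ Ty.R) (hxk : σ.κ x = K + 1) :
    KP9_mu (staLag a σ x) ty (K + 1) < KP9_mu σ ty (K + 1) := by
  refine KP9_mu_lt σ _ ty ty (K + 1) x hx hxk (fun l hlx hl hk => ?_) (fun _ hk => ?_)
  · have hk' : Function.update σ.κ x (σ.κ x - 2) l = K + 1 := hk
    rw [Function.update_of_ne hlx] at hk'
    refine ⟨hl, hk', ?_⟩
    show (if l = x then (1 : ℤ) else σ.p l - (a x l : ℤ)).toNat ≤ _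
    rw [if_neg hlx]
    omega
  · exfalso
    have hk' : Function.update σ.κ x (σ.κ x - 2) x = K + 1 := hk
    rw [Function.update_self] at hk'
    omega

/-- the terms in which a wall becomes regular -/
theorem KP9_em (a : I → I → ℕ) (hg : GoodMat a) (k : ℕ) (γ : I →₀ ℕ) (σ : Sta I) (ty : I → Ty)
    (h : Ph2 a γ σ ty (k + 2)) (x : I) (hx : ty x ≠ Ty.R) (hxk : σ.κ x = k + 2) (e : ℕ)
    (he : e ≤ 1) (hp : σ.p x = e)
    (ih : ∀ (γ' : I →₀ ℕ) (σ' : Sta I) (ty' : I → Ty), Ph2 a γ' σ' ty' (k + 2) →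
      KP9_mu σ' ty' (k + 2) < KP9_mu σ ty (k + 2) → 0 ≤ Val a γ' σ') :
    0 ≤ ∑ m ∈ Finset.Icc 1 (γ x / (k + 1)), 2 * VSub a γ x ((k + 1) * m) (staEm a σ x m e) := by
  refine Finset.sum_nonneg fun m hm => mul_nonneg (by norm_num) ?_
  unfold VSub
  split_ifs with hγ
  · rcases ph2_em a hg γ σ ty k h x hx hxk e he hp m (Finset.mem_Icc.1 hm).1 hγ with h1 | h1
    · exact h1.ge
    · exact ih _ _ _ h1 (KP9_muEm a σ ty (k + 2) x hx hxk m e)
  · exact le_rfl

theorem KP9_pos (a : I → I → ℕ) (hg : GoodMat a) (k : ℕ)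
    (IH : ∀ (γ : I →₀ ℕ) (σ : Sta I) (ty : I → Ty), Fr a γ σ ty (k + 1) → 0 ≤ Val a γ σ)
    (N : ℕ) : ∀ (γ : I →₀ ℕ) (σ : Sta I) (ty : I → Ty), KP9_mu σ ty (k + 2) = N →
      Ph2 a γ σ ty (k + 2) → 0 ≤ Val a γ σ := by
  induction N using Nat.strong_induction_on with
  | _ N ih =>
    intro γ σ ty hN h
    have ih' : ∀ (γ' : I →₀ ℕ) (σ' : Sta I) (ty' : I → Ty), Ph2 a γ' σ' ty' (k + 2) →
        KP9_mu σ' ty' (k + 2) < KP9_mu σ ty (k + 2) → 0 ≤ Val a γ' σ' :=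
      fun γ' σ' ty' h' hlt => ih _ (hN ▸ hlt) γ' σ' ty' rfl h'
    by_cases hex : ∃ x, ty x ≠ Ty.R ∧ σ.κ x = k + 2
    · obtain ⟨x, hx, hxk⟩ := hex
      have hn : ∀ l, 0 < a x l → σ.κ l = k + 1 := fun l hl => (ph2_nbr a γ σ ty k h x hx l hl).2
      cases hty : ty x with
      | R => exact absurd hty hx
      | D =>
        have hp := h.shape.pD x hty
        rw [st_D a hg.symm γ σ ty h.shape x hty k hxk hn]
        refine add_nonneg ?_ (KP9_em a hg k γ σ ty h x hx hxk 0 (by omega) (by simpa using hp) ih')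
        exact ih' _ _ _ (ph2_D a hg.symm γ σ ty k h x hx hxk hp) (KP9_muD σ ty (k + 1) x hx hxk)
      | A =>
        have hp0 := h.shape.p0 x hx
        rcases (by omega : σ.p x = 0 ∨ σ.p x = 1 ∨ 2 ≤ σ.p x) with hp | hp | hp
        · rw [st_even a hg.symm γ σ ty h.shape x hty k hxk hp hn]
          refine add_nonneg (add_nonneg ?_ ?_)
            (KP9_em a hg k γ σ ty h x hx hxk 0 (by omega) (by simpa using hp) ih')
          · exact ih' _ _ _ (ph2_A a hg.symm γ σ ty k h x hty hxk hp)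
              (KP9_muA σ ty (k + 1) x hx hxk)
          · exact ih' _ _ _ (ph2_D a hg.symm γ σ ty k h x hx hxk hp)
              (KP9_muD σ ty (k + 1) x hx hxk)
        · rw [st_odd a hg.symm γ σ ty h.shape x hty k hxk h.k1 hp hn (h.cons x)]
          refine add_nonneg ?_ (KP9_em a hg k γ σ ty h x hx hxk 1 le_rfl (by simpa using hp) ih')
          split_ifs with hk0
          · exact le_rfl
          · obtain ⟨k', rfl⟩ : ∃ k', k = k' + 1 := ⟨k - 1, by omega⟩
            unfold VSub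
            split_ifs with hγ
            · exact ih' _ _ _ (ph2_lag a hg.symm γ σ ty k' h x hty hxk hp hγ)
                (KP9_muLag a σ ty (k' + 2) x hx hxk)
            · exact le_rfl
        · rw [st_reduce a hg.symm γ σ ty h.shape h.k1 x hty k hxk hp hn (h.cons x)]
          unfold VSub
          split_ifs with hγ
          · exact ih' _ _ _ (ph2_red a hg.symm γ σ ty k h x hty hxk hp hγ)
              (KP9_muRed a σ ty (k + 2) x hx hxk hp)
          · exact le_rfl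
    · refine IH γ σ ty (Fr_of_Ph2 a γ σ ty k h fun x hx hxk => hex ⟨x, hx, hxk⟩)

theorem pos_Ph2 (a : I → I → ℕ) (hg : GoodMat a) (k : ℕ)
    (IH : ∀ (γ : I →₀ ℕ) (σ : Sta I) (ty : I → Ty), Fr a γ σ ty (k + 1) → 0 ≤ Val a γ σ)
    (γ : I →₀ ℕ) (σ : Sta I) (ty : I → Ty) (h : Ph2 a γ σ ty (k + 2)) : 0 ≤ Val a γ σ :=
  KP9_pos a hg k IH _ γ σ ty rfl h

theorem KP9_uu_one (a : I → I → ℕ) (i : I) : uu a i 1 = 1 := Units.ext (uS_one a i)

theorem KP9_uu_zero (a : I → I → ℕ) (i : I) : uu a i 0 = 1 := Units.ext (uS_zero a i)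

theorem KP9_dlg_one (a : I → I → ℕ) (l : I) : dlg a (1 : (MvPowerSeries I ℚ)ˣ) l = 0 := by
  unfold dlg
  have h : dD a l ((1 : (MvPowerSeries I ℚ)ˣ) : MvPowerSeries I ℚ) = 0 := by
    ext β
    show (-(cw a β l : ℤ) : ℚ) * MvPowerSeries.coeff β (1 : MvPowerSeries I ℚ) = 0
    classical
    rw [MvPowerSeries.coeff_one]
    split_ifs with hβ
    · rw [hβ, cw_zero]
      simp
    · rw [mul_zero]
  rw [h, zero_mul]

theorem pos_Fr_one (a : I → I → ℕ) (γ : I →₀ ℕ) (σ : Sta I) (ty : I → Ty)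
    (h : Fr a γ σ ty 1) : 0 ≤ Val a γ σ := by
  have hk : ∀ i, σ.κ i = 1 := by
    intro i
    by_cases hi : ty i = Ty.R
    · exact h.reg i hi
    · rcases h.wall i hi with h1 | h1
      · exact h1
      · have h2 := h1.1
        have h3 := h.k1 i
        omega
  have hfac : facS a σ = 1 := by
    unfold facS
    have : (∏ i, ((uu a i (σ.κ i)) ^ (-(σ.P i)) * (uu a i (σ.κ i - 1)) ^ (σ.p i)) :
        (MvPowerSeries I ℚ)ˣ) = 1 := by
      refine Finset.prod_eq_one fun i _ => ?_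
      rw [hk i, Nat.sub_self, KP9_uu_one, KP9_uu_zero, one_zpow, one_zpow, one_mul]
    rw [this]
    rfl
  have hcol : colMat (colS a σ) = 1 := by
    ext1 l i
    show colS a σ i l = (1 : Matrix I I (MvPowerSeries I ℚ)) l i
    unfold colS
    have h0 : ∑ l', C (σ.H l' i) * xv a l' (σ.κ l' - 1) l = 0 := by
      refine Finset.sum_eq_zero fun l' _ => ?_
      rw [hk l', Nat.sub_self, xv, KP9_uu_zero, KP9_dlg_one]
      simp
    rw [h0, sub_zero, hk i, xv, KP9_uu_one, KP9_dlg_one, add_zero, Matrix.one_apply, Nat.cast_one]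
    exact if_congr eq_comm rfl rfl
  unfold Val raw
  rw [hfac, hcol, Matrix.det_one, mul_one]
  classical
  rw [MvPowerSeries.coeff_one]
  split_ifs
  · exact zero_le_one
  · exact le_rfl

theorem pos_Fr (a : I → I → ℕ) (hg : GoodMat a) (k : ℕ) (hk : 1 ≤ k) (γ : I →₀ ℕ) (σ : Sta I)
    (ty : I → Ty) (h : Fr a γ σ ty k) : 0 ≤ Val a γ σ := by
  obtain ⟨k, rfl⟩ : ∃ k', k = k' + 1 := ⟨k - 1, by omega⟩
  clear hk
  induction k generalizing γ σ ty with
  | zero => exact pos_Fr_one a γ σ ty h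
  | succ k ih =>
    exact pos_Fr_of_Ph1 a hg k (fun γ σ ty h1 => pos_Ph1 a hg k
      (fun γ σ ty h2 => pos_Ph2 a hg k (fun γ σ ty h3 => ih γ σ ty h3) γ σ ty h2) γ σ ty h1) γ σ ty h

end Pool.Agent.H27.KAC
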