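import Pool.Agent.H27.KAC.KFDefs
import Pool.Agent.H27.KAC.KP9
import Pool.Agent.H27.KAC.KJ4

/-!
KAC module KF1: the top state is fresh, positivity of `f` at ample vectors, trichotomy.

* `top_Fr`: all hatted exponents are the exponents `s_i` (walls have exponent 0); `dfc_i = ε s_i ≥ 0`;
  regular vertices have `s_i > 0`.
* `pos_Ample`: `top_poly` with `μ_i = [cw ≠ 0]`, `K = tdeg α`; by `pos_Fr` the polynomial `q` is `≥ 0` on `[0,1]`,
  `q(0) = 0`, hence `q'(0) ≥ 0`.
* `Ample.exists_pos`: otherwise all vertices are loop-free with `s = 0`, pairwise nonadjacent, so by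
  connectedness there is only one, `s_x = -2 α_x < 0`.
* `ample_or`: `a` good, connected, full support, `s_i ≥ 0` at loop-free `i`.  If `a i i ≥ 3` then `s_i > 0`; if
  `a i i = 2` then `s_i = ∑_{j ≠ i} a_ij α_j`, zero only if `i` is alone.  Two adjacent loop-free
  vertices `x, y` with `s = 0`: `2 α_x = ∑ a_xj α_j ≥ 2 α_y` and vice versa, so `α_x = α_y`, `a_xy = 2`, and there
  are no other neighbours, so the quiver is `K(2)`.
-/

namespace Pool.Agent.H27.KAC

open scoped BigOperators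
open MvPowerSeries

variable {I : Type} [Fintype I] [DecidableEq I]

theorem KF1_ty_ne {a : I → I → ℕ} {α : I →₀ ℕ} {x : I} (h : tyB a α x ≠ Ty.R) :
    a x x = 0 ∧ cw a α x = 0 := by
  classical
  by_contra hc
  apply h
  unfold tyB
  rw [if_neg hc]

theorem KF1_ty_A {a : I → I → ℕ} {α : I →₀ ℕ} {x : I} : tyB a α x ≠ Ty.A := by
  classical
  unfold tyB
  split_ifs <;> simp

theorem KF1_s_nonneg {a : I → I → ℕ} {α : I →₀ ℕ} (h : Ample a α) (l : I) :
    0 ≤ -cw a α l := by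
  by_cases hl : a l l = 0
  · exact h.pos l hl
  · exact (h.posl l hl).le

theorem KF1_s_pos {a : I → I → ℕ} {α : I →₀ ℕ} (h : Ample a α) {l : I}
    (hl : tyB a α l = Ty.R) : 0 < -cw a α l := by
  classical
  by_cases hl0 : a l l = 0
  · have h1 := h.pos l hl0
    have h2 : cw a α l ≠ 0 := by
      intro hc
      unfold tyB at hl
      rw [if_pos ⟨hl0, hc⟩] at hl
      exact absurd hl (by simp)
    omega
  · exact h.posl l hl0

theorem KF1_PhS (a : I → I → ℕ) (α : I →₀ ℕ) (K : ℕ) (ε : ℚ) (l : I) :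
    PhS a (topS a α K ε) (tyB a α) l = ((-cw a α l : ℤ) : ℚ) := by
  unfold PhS Ph
  rw [Finset.sum_eq_zero]
  · simp [topS]
  · intro x hx
    rw [Finset.mem_filter] at hx
    have h1 := (KF1_ty_ne hx.2).2
    simp [topS]

theorem KF1_phS (a : I → I → ℕ) (α : I →₀ ℕ) (K : ℕ) (ε : ℚ) (l : I) :
    phS a (topS a α K ε) (tyB a α) l = ((-cw a α l : ℤ) : ℚ) := by
  unfold phS ph
  rw [Finset.sum_eq_zero]
  · simp [topS]
  · intro x hx
    rw [Finset.mem_filter] at hx
    have h1 := (KF1_ty_ne hx.2).2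
    simp [topS, h1]

theorem top_Fr (a : I → I → ℕ) (hg : GoodMat a) (α : I →₀ ℕ) (h : Ample a α) (K : ℕ)
    (ε : ℚ) (h0 : 0 ≤ ε) (h1 : ε ≤ 1) : Fr a α (topS a α K ε) (tyB a α) (K + 1) := by
  classical
  have hs : Shape a (topS a α K ε) (tyB a α) := by
    refine ⟨?_, ?_, ?_, ?_, ?_, ?_, ?_, ?_, ?_⟩
    · intro x hx
      exact (KF1_ty_ne hx).1
    · intro x hx
      show -cw a α x = 0
      rw [(KF1_ty_ne hx).2, neg_zero]
    · intro x hx
      show 0 ≤ -cw a α x
      rw [(KF1_ty_ne hx).2, neg_zero]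
    · intro x hx
      have hx' : tyB a α x ≠ Ty.R := by rw [hx]; simp
      show -cw a α x = 0
      rw [(KF1_ty_ne hx').2, neg_zero]
    · intro x _ i hi
      show (if x = i then 1 - ε * (if cw a α i = 0 then 0 else 1) else 0) = 0
      rw [if_neg (fun hc => hi hc.symm)]
    · intro x _ l hl
      show (if l = x then 1 - ε * (if cw a α x = 0 then 0 else 1) else 0) = 0
      rw [if_neg hl]
    · intro x hx
      exact absurd hx KF1_ty_A
    · intro x hx
      have hx' : tyB a α x ≠ Ty.R := by rw [hx]; simp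
      show (if x = x then 1 - ε * (if cw a α x = 0 then 0 else 1) else 0) = 1
      rw [if_pos rfl, if_pos (KF1_ty_ne hx').2, mul_zero, sub_zero]
    · intro x y hx hy hxy
      exact h.nonadj x y hxy (KF1_ty_ne hx).1 (KF1_ty_ne hy).1 (KF1_ty_ne hx).2 (KF1_ty_ne hy).2
  have hb : Base a α (topS a α K ε) (tyB a α) := by
    refine ⟨hs, ?_, ?_, ?_, ?_, ?_, ?_, ?_, ?_⟩
    · intro i
      show 1 ≤ K + 1
      omega
    · intro i
      show cw a α i = (((K + 1 : ℕ) : ℤ) - 1) * (-cw a α i) - ((K + 1 : ℕ) : ℤ) * (-cw a α i)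
      push_cast
      ring
    · intro i j _
      show K + 1 ≤ K + 1 + 1
      omega
    · intro l i _ _
      show 0 ≤ (if l = i then 1 - ε * (if cw a α i = 0 then 0 else 1) else 0)
      split_ifs <;> linarith
    · intro l hl
      unfold dfc
      rw [Finset.sum_eq_single_of_mem l (Finset.mem_filter.2 ⟨Finset.mem_univ _, hl⟩)]
      · rw [KF1_PhS, KF1_phS]
        have h2 : (0:ℚ) ≤ ((-cw a α l : ℤ) : ℚ) := by exact_mod_cast KF1_s_nonneg h l
        show 0 ≤ ((-cw a α l : ℤ) : ℚ) - (if l = l then 1 - ε * (if cw a α l = 0 then 0 else 1)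
          else 0) * ((-cw a α l : ℤ) : ℚ)
        rw [if_pos rfl]
        have h3 : (0:ℚ) ≤ ε * (if cw a α l = 0 then 0 else 1) := by
          split_ifs <;> linarith
        nlinarith
      · intro i _ hi
        have : (topS a α K ε).H l i = 0 := by
          show (if l = i then 1 - ε * (if cw a α i = 0 then 0 else 1) else 0) = 0
          rw [if_neg (fun hc => hi hc.symm)]
        rw [this, zero_mul]
    · intro l _
      rw [KF1_PhS]
      exact_mod_cast KF1_s_nonneg h l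
    · intro l hl
      left
      rw [KF1_phS]
      exact_mod_cast KF1_s_pos h hl
    · intro l l' hl _ _ h3 _
      rw [KF1_phS] at h3
      have h4 := KF1_s_pos h hl
      have h5 : -cw a α l = 0 := by exact_mod_cast h3
      omega
  exact ⟨hb, fun l _ => rfl, fun x _ => Or.inl rfl⟩

theorem KF1_poly {q : Polynomial ℚ} (h0 : q.eval 0 = 0)
    (h : ∀ ε : ℚ, 0 ≤ ε → ε ≤ 1 → 0 ≤ q.eval ε) : 0 ≤ q.derivative.eval 0 := by
  obtain ⟨r, hr⟩ : Polynomial.X ∣ q := by
    rw [Polynomial.X_dvd_iff, Polynomial.coeff_zero_eq_eval_zero]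
    exact h0
  have h1 : q.derivative.eval 0 = r.eval 0 := by
    rw [hr, Polynomial.derivative_mul]
    simp
  rw [h1]
  have hcont : Filter.Tendsto (fun x : ℚ => r.eval x) (nhdsWithin 0 (Set.Ioi 0))
      (nhds (r.eval 0)) := (r.continuous.tendsto 0).mono_left nhdsWithin_le_nhds
  refine ge_of_tendsto hcont ?_
  have h2 : Set.Ioc (0:ℚ) 1 ∈ nhdsWithin (0:ℚ) (Set.Ioi 0) :=
    Ioc_mem_nhdsGT (by norm_num)
  filter_upwards [h2] with x hx
  have h3 := h x hx.1.le hx.2
  rw [hr, Polynomial.eval_mul, Polynomial.eval_X] at h3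
  exact nonneg_of_mul_nonneg_right h3 hx.1

theorem pos_Ample (a : I → I → ℕ) (hg : GoodMat a) (f : (I → ℕ) → ℚ) (hK : KacData a f)
    (α : I →₀ ℕ) (h : Ample a α) : 0 ≤ f α * ∑ i, (α i : ℚ) * (-(cw a α i : ℤ) : ℚ) := by
  classical
  rcases isEmpty_or_nonempty I with hI | ⟨⟨i0⟩⟩
  · simp
  have hα0 : α ≠ 0 := by
    intro hc
    have h2 := h.supp i0
    rw [hc] at h2
    simp at h2
  obtain ⟨q, hq1, hq2, hq3⟩ := top_poly a hg.symm f hK α hα0 (tdeg α) le_rfl
    (fun i => if cw a α i = 0 then 0 else 1)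
  have h3 : 0 ≤ q.derivative.eval 0 := by
    apply KF1_poly hq2
    intro ε h0 h1
    rw [← hq1 ε]
    exact pos_Fr a hg (tdeg α + 1) (by omega) α (topS a α (tdeg α) ε) (tyB a α)
      (top_Fr a hg α h (tdeg α) ε h0 h1)
  rw [hq3] at h3
  have h4 : ∑ i, (if cw a α i = 0 then (0:ℚ) else 1) * (α i : ℚ) * (-(cw a α i : ℤ) : ℚ) =
      ∑ i, (α i : ℚ) * (-(cw a α i : ℤ) : ℚ) := by
    refine Finset.sum_congr rfl fun i _ => ?_
    split_ifs with hi
    · rw [hi]
      simp
    · ring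
  rw [h4] at h3
  exact h3

theorem KF1_cw (a : I → I → ℕ) (α : I →₀ ℕ) (x : I) :
    cw a α x = 2 * (α x : ℤ) - ∑ j, (a x j : ℤ) * (α j : ℤ) := by
  unfold cw cart
  simp only [sub_mul, Finset.sum_sub_distrib, ite_mul, zero_mul, Finset.sum_ite_eq,
    Finset.mem_univ, if_true]

theorem Ample.exists_pos {a : I → I → ℕ} {α : I →₀ ℕ} (h : Ample a α) (hc : Conn a)
    (hne : Nonempty I) : ∃ r, 0 < -cw a α r := by
  by_contra hcon
  push Not at hcon
  have h0 : ∀ i, a i i = 0 ∧ cw a α i = 0 := by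
    intro i
    have h1 := hcon i
    have h2 : a i i = 0 := by
      by_contra h3
      have := h.posl i h3
      omega
    exact ⟨h2, by have := h.pos i h2; omega⟩
  obtain ⟨x⟩ := hne
  have h1 : ∀ j, a x j = 0 := by
    intro j
    by_cases hj : x = j
    · rw [← hj]; exact (h0 x).1
    · exact h.nonadj x j hj (h0 x).1 (h0 j).1 (h0 x).2 (h0 j).2
  have h2 := (h0 x).2
  rw [KF1_cw] at h2
  simp only [h1, Nat.cast_zero, zero_mul, Finset.sum_const_zero, sub_zero] at h2
  have h3 := h.supp x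
  omega

theorem f_nonneg_Ample (a : I → I → ℕ) (hg : GoodMat a) (f : (I → ℕ) → ℚ) (hK : KacData a f)
    (hc : Conn a) (hne : Nonempty I) (α : I →₀ ℕ) (h : Ample a α) : 0 ≤ f α := by
  obtain ⟨r, hr⟩ := h.exists_pos hc hne
  have h1 := pos_Ample a hg f hK α h
  have h2 : 0 < ∑ i, (α i : ℚ) * (-(cw a α i : ℤ) : ℚ) := by
    apply Finset.sum_pos'
    · intro i _
      have h3 : (0:ℚ) ≤ ((-cw a α i : ℤ) : ℚ) := by exact_mod_cast KF1_s_nonneg h i
      push_cast at h3
      exact mul_nonneg (Nat.cast_nonneg _) h3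
    · refine ⟨r, Finset.mem_univ _, ?_⟩
      have h3 : (0:ℚ) < ((-cw a α r : ℤ) : ℚ) := by exact_mod_cast hr
      push_cast at h3
      have h4 : (0:ℚ) < (α r : ℚ) := by exact_mod_cast h.supp r
      exact mul_pos h4 h3
  exact nonneg_of_mul_nonneg_left h1 h2

theorem KF1_split (a : I → I → ℕ) (α : I →₀ ℕ) (x y : I) (hxy : x ≠ y) :
    ∑ j, (a x j : ℤ) * (α j : ℤ) = (a x x : ℤ) * α x + (a x y : ℤ) * α y +
      ∑ j ∈ (Finset.univ.erase x).erase y, (a x j : ℤ) * (α j : ℤ) := by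
  rw [← Finset.add_sum_erase _ _ (Finset.mem_univ x),
    ← Finset.add_sum_erase _ _ (Finset.mem_erase.2 ⟨hxy.symm, Finset.mem_univ y⟩), add_assoc]

theorem KF1_zero {a : I → I → ℕ} {α : I →₀ ℕ} (h1 : ∀ i, 1 ≤ α i) (x : I) (S : Finset I)
    (h : ∑ j ∈ S, (a x j : ℤ) * (α j : ℤ) ≤ 0) : ∀ j ∈ S, a x j = 0 := by
  intro j hj
  have h2 : ∀ j ∈ S, (0:ℤ) ≤ (a x j : ℤ) * (α j : ℤ) := fun j _ => by positivity
  have h3 := Finset.single_le_sum h2 hj
  have h4 : (a x j : ℤ) * (α j : ℤ) = 0 := le_antisymm (h3.trans h) (h2 j hj)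
  rcases mul_eq_zero.1 h4 with h5 | h5
  · exact_mod_cast h5
  · have := h1 j
    omega

theorem ample_or (a : I → I → ℕ) (hg : GoodMat a) (hc : Conn a) (α : I →₀ ℕ)
    (h1 : ∀ i, 1 ≤ α i) (h2 : ∀ i, a i i = 0 → 0 ≤ -cw a α i) :
    Ample a α ∨ (∃ i, (∀ j, j = i) ∧ a i i = 2) ∨
      (∃ i j, i ≠ j ∧ (∀ l, l = i ∨ l = j) ∧ a i i = 0 ∧ a j j = 0 ∧ a i j = 2 ∧ α i = α j) := by
  classical
  by_cases hA : ∃ i, (∀ j, j = i) ∧ a i i = 2
  · exact Or.inr (Or.inl hA)
  by_cases hB : ∃ i j, i ≠ j ∧ (∀ l, l = i ∨ l = j) ∧ a i i = 0 ∧ a j j = 0 ∧ a i j = 2 ∧ α i = α j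
  · exact Or.inr (Or.inr hB)
  left
  refine ⟨h1, h2, ?_, ?_⟩
  · intro i hi
    have hi2 : 2 ≤ a i i := by
      have := hg.diag i
      omega
    by_contra hcon
    have hcw := KF1_cw a α i
    rw [← Finset.add_sum_erase _ _ (Finset.mem_univ i)] at hcw
    have h3 : (0:ℤ) ≤ ∑ j ∈ Finset.univ.erase i, (a i j : ℤ) * (α j : ℤ) :=
      Finset.sum_nonneg fun j _ => by positivity
    have hα : (1:ℤ) ≤ α i := by exact_mod_cast h1 i
    have hi2' : (2:ℤ) ≤ a i i := by exact_mod_cast hi2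
    have h4 : (a i i : ℤ) = 2 := by nlinarith
    have h5 : ∑ j ∈ Finset.univ.erase i, (a i j : ℤ) * (α j : ℤ) ≤ 0 := by
      rw [h4] at hcw
      linarith
    have h6 := KF1_zero h1 i _ h5
    apply hA
    refine ⟨i, ?_, by exact_mod_cast h4⟩
    by_contra hj
    push Not at hj
    obtain ⟨j, hj⟩ := hj
    obtain ⟨i', hi', j', hj', h7⟩ := hc {i} (Finset.singleton_nonempty i)
      (fun hu => hj (Finset.mem_singleton.1 (hu ▸ Finset.mem_univ j)))
    rw [Finset.mem_singleton] at hi' hj'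
    subst hi'
    have := h6 j' (Finset.mem_erase.2 ⟨hj', Finset.mem_univ _⟩)
    omega
  · intro x y hxy hx hy hcx hcy
    by_contra hne
    have hge : 2 ≤ a x y := by
      have := hg.good x y hxy hx hy
      omega
    have hsym : a y x = a x y := hg.symm y x
    have e1 := KF1_cw a α x
    have e2 := KF1_cw a α y
    rw [KF1_split a α x y hxy, hcx, hx] at e1
    rw [KF1_split a α y x hxy.symm, hcy, hy, hsym] at e2
    have p1 : (0:ℤ) ≤ ∑ j ∈ (Finset.univ.erase x).erase y, (a x j : ℤ) * (α j : ℤ) :=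
      Finset.sum_nonneg fun j _ => by positivity
    have p2 : (0:ℤ) ≤ ∑ j ∈ (Finset.univ.erase y).erase x, (a y j : ℤ) * (α j : ℤ) :=
      Finset.sum_nonneg fun j _ => by positivity
    have hαx : (1:ℤ) ≤ α x := by exact_mod_cast h1 x
    have hαy : (1:ℤ) ≤ α y := by exact_mod_cast h1 y
    have hge' : (2:ℤ) ≤ a x y := by exact_mod_cast hge
    push_cast at e1 e2
    rw [zero_mul, zero_add] at e1 e2
    have q1 : 2 * (α y : ℤ) ≤ (a x y : ℤ) * α y := mul_le_mul_of_nonneg_right hge' (by omega)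
    have q2 : 2 * (α x : ℤ) ≤ (a x y : ℤ) * α x := mul_le_mul_of_nonneg_right hge' (by omega)
    have hxy' : (α x : ℤ) = α y := by linarith
    have h2' : (a x y : ℤ) = 2 := by
      have h3 : (a x y : ℤ) * α y ≤ 2 * α y := by linarith
      exact le_antisymm (le_of_mul_le_mul_right h3 (by omega)) hge'
    have z1 := KF1_zero h1 x ((Finset.univ.erase x).erase y) (by rw [h2'] at e1; linarith)
    have z2 := KF1_zero h1 y ((Finset.univ.erase y).erase x) (by rw [h2'] at e2; linarith)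
    apply hB
    refine ⟨x, y, hxy, ?_, hx, hy, by exact_mod_cast h2', by exact_mod_cast hxy'⟩
    by_contra hl
    push Not at hl
    obtain ⟨l, hl1, hl2⟩ := hl
    obtain ⟨i', hi', j', hj', h7⟩ := hc {x, y} (Finset.insert_nonempty _ _)
      (fun hu => by
        have := hu ▸ Finset.mem_univ l
        rw [Finset.mem_insert, Finset.mem_singleton] at this
        rcases this with h | h
        · exact hl1 h
        · exact hl2 h)
    rw [Finset.mem_insert, Finset.mem_singleton] at hi' hj'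
    push Not at hj'
    rcases hi' with hi' | hi'
    · subst hi'
      have := z1 j' (Finset.mem_erase.2 ⟨hj'.2, Finset.mem_erase.2 ⟨hj'.1, Finset.mem_univ _⟩⟩)
      omega
    · subst hi'
      have := z2 j' (Finset.mem_erase.2 ⟨hj'.1, Finset.mem_erase.2 ⟨hj'.2, Finset.mem_univ _⟩⟩)
      omega

end Pool.Agent.H27.KAC
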