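import Pool.Agent.H27.KAC.KQState

/-!
KAC part IV: definitions for the positivity of the transfer.

Hatted exponents: every wall `x` in mode `A` with power `p_x` is thought of as the factor
`c_{x, κ_x - 1}^{p_x / 2}`, `c_{x,k} = ∏_l U_{l,k}^{a x l}`, extrapolated log-linearly to the levels
`κ_l, κ_l - 1` of the neighbours.
-/

namespace Pool.Agent.H27.KAC

open scoped BigOperators
open MvPowerSeries

variable {I : Type} [Fintype I] [DecidableEq I]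

/-- hatted exponent of the upper variable. -/
def Ph (a : I → I → ℕ) (κ : I → ℕ) (P p : I → ℤ) (ty : I → Ty) (l : I) : ℚ :=
  (P l : ℚ) + (∑ x ∈ Finset.univ.filter (fun x => ty x ≠ Ty.R),
    (a x l : ℚ) * (p x : ℚ) * ((κ l : ℚ) - (κ x : ℚ))) / 2

/-- hatted exponent of the lower variable. -/
def ph (a : I → I → ℕ) (κ : I → ℕ) (P p : I → ℤ) (ty : I → Ty) (l : I) : ℚ :=
  (p l : ℚ) + (∑ x ∈ Finset.univ.filter (fun x => ty x ≠ Ty.R),
    (a x l : ℚ) * (p x : ℚ) * ((κ l : ℚ) - (κ x : ℚ) + 1)) / 2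

abbrev PhS (a : I → I → ℕ) (σ : Sta I) (ty : I → Ty) (l : I) : ℚ := Ph a σ.κ σ.P σ.p ty l

abbrev phS (a : I → I → ℕ) (σ : Sta I) (ty : I → Ty) (l : I) : ℚ := ph a σ.κ σ.P σ.p ty l

/-- the condition on the quiver: symmetric matrix, even diagonal, and two distinct loop-free
vertices are not joined by exactly one arrow. -/
structure GoodMat (a : I → I → ℕ) : Prop where
  symm : ∀ i j, a i j = a j i
  diag : ∀ i, a i i ≠ 1
  good : ∀ i j, i ≠ j → a i i = 0 → a j j = 0 → a i j ≠ 1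

/-- `l` has a loop or is adjacent to a wall. -/
def Fat (a : I → I → ℕ) (ty : I → Ty) (l : I) : Prop :=
  2 ≤ a l l ∨ ∃ x, ty x ≠ Ty.R ∧ 0 < a x l

/-- defect of row `l`: `ph l - (H Ph)_l`. -/
def dfc (a : I → I → ℕ) (σ : Sta I) (ty : I → Ty) (l : I) : ℚ :=
  phS a σ ty l - ∑ i ∈ Finset.univ.filter (fun i => ty i = Ty.R), σ.H l i * PhS a σ ty i

/-- The basic invariants of a frontier state. -/
structure Base (a : I → I → ℕ) (γ : I →₀ ℕ) (σ : Sta I) (ty : I → Ty) : Prop where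
  shape : Shape a σ ty
  k1 : ∀ i, 1 ≤ σ.κ i
  cons : ∀ i, Cons a γ σ i
  lev : ∀ i j, 0 < a i j → σ.κ i ≤ σ.κ j + 1
  Hnn : ∀ l i, ty l = Ty.R → ty i = Ty.R → 0 ≤ σ.H l i
  dnn : ∀ l, ty l = Ty.R → 0 ≤ dfc a σ ty l
  Pnn : ∀ l, ty l = Ty.R → 0 ≤ PhS a σ ty l
  alt : ∀ l, ty l = Ty.R → 0 < phS a σ ty l ∨
    (phS a σ ty l = 0 ∧ σ.p l = 0 ∧ 0 < PhS a σ ty l ∧ a l l = 0 ∧ (∀ i, σ.H l i = 0) ∧
      ∀ x, ty x ≠ Ty.R → a x l = 0)
  alt2 : ∀ l l', ty l = Ty.R → ty l' = Ty.R → l ≠ l' → phS a σ ty l = 0 → phS a σ ty l' = 0 →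
    a l l' = 0

/-- The part of the invariants that concerns the exponents only. -/
structure Core (a : I → I → ℕ) (γ : I →₀ ℕ) (κ : I → ℕ) (P p : I → ℤ) (ty : I → Ty) : Prop where
  loopfree : ∀ x, ty x ≠ Ty.R → a x x = 0
  P0 : ∀ x, ty x ≠ Ty.R → P x = 0
  nonadj : ∀ x y, ty x ≠ Ty.R → ty y ≠ Ty.R → x ≠ y → a x y = 0
  k1 : ∀ i, 1 ≤ κ i
  cons : ∀ i, cw a γ i = ((κ i : ℤ) - 1) * p i - (κ i : ℤ) * P i

/-- effective Cartan entry with respect to all walls. -/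
def effCm (a : I → I → ℕ) (ty : I → Ty) (l j : I) : ℚ :=
  (cart a l j : ℚ) - (∑ x ∈ Finset.univ.filter (fun x => ty x ≠ Ty.R),
    (a x l : ℚ) * (a x j : ℚ)) / 2

/-- the perturbed state: the regular block of `H` is multiplied by `1 - δ`. -/
def pert (σ : Sta I) (ty : I → Ty) (δ : ℚ) : Sta I where
  κ := σ.κ
  P := σ.P
  p := σ.p
  H := fun l i => if l ∈ Finset.univ.filter (fun i => ty i = Ty.R) ∧
    i ∈ Finset.univ.filter (fun i => ty i = Ty.R) then (1 - δ) * σ.H l i else σ.H l i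

/-- lagging wall relative to level `k`. -/
def Lag (σ : Sta I) (ty : I → Ty) (k : ℕ) (x : I) : Prop :=
  σ.κ x + 1 = k ∧ ty x = Ty.A ∧ σ.p x = 1

/-- fresh state at level `k`. -/
structure Fr (a : I → I → ℕ) (γ : I →₀ ℕ) (σ : Sta I) (ty : I → Ty) (k : ℕ) : Prop
    extends Base a γ σ ty where
  reg : ∀ l, ty l = Ty.R → σ.κ l = k
  wall : ∀ x, ty x ≠ Ty.R → σ.κ x = k ∨ Lag σ ty k x

/-- phase 1 at level `k`: some regular vertices are already at level `k - 1`. -/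
structure Ph1 (a : I → I → ℕ) (γ : I →₀ ℕ) (σ : Sta I) (ty : I → Ty) (k : ℕ) : Prop
    extends Base a γ σ ty where
  reg : ∀ l, ty l = Ty.R → σ.κ l = k ∨ σ.κ l + 1 = k
  wall : ∀ x, ty x ≠ Ty.R → σ.κ x = k ∨ Lag σ ty k x
  pos : ∀ l, ty l = Ty.R → σ.κ l = k → 0 < PhS a σ ty l
  posp : ∀ l, ty l = Ty.R → σ.κ l + 1 = k → 0 < phS a σ ty l

/-- phase 2 at level `k`: all regular vertices are at level `k - 1`. -/
structure Ph2 (a : I → I → ℕ) (γ : I →₀ ℕ) (σ : Sta I) (ty : I → Ty) (k : ℕ) : Prop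
    extends Base a γ σ ty where
  reg : ∀ l, ty l = Ty.R → σ.κ l + 1 = k
  wall : ∀ x, ty x ≠ Ty.R → σ.κ x = k ∨ σ.κ x + 1 = k ∨ Lag σ ty (k - 1) x

end Pool.Agent.H27.KAC
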