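import Pool.Agent.H27.KAC.KJDefs
import Pool.Agent.H27.KAC.KPDefs

/-!
KAC: ample dimension vectors, connectedness.
-/

namespace Pool.Agent.H27.KAC

open scoped BigOperators
open MvPowerSeries

section

variable {I : Type} [Fintype I] [DecidableEq I]

/-- `s_i = -(Cα)_i` is `≥ 0` at loop-free vertices, `> 0` at vertices with loops, full support, and the
loop-free vertices with `s_i = 0` are pairwise nonadjacent. -/
structure Ample (a : I → I → ℕ) (α : I →₀ ℕ) : Prop where
  supp : ∀ i, 1 ≤ α i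
  pos : ∀ i, a i i = 0 → 0 ≤ -cw a α i
  posl : ∀ i, a i i ≠ 0 → 0 < -cw a α i
  nonadj : ∀ x y, x ≠ y → a x x = 0 → a y y = 0 → cw a α x = 0 → cw a α y = 0 → a x y = 0

/-- connectedness. -/
def Conn (a : I → I → ℕ) : Prop :=
  ∀ S : Finset I, S.Nonempty → S ≠ Finset.univ → ∃ i ∈ S, ∃ j, j ∉ S ∧ 0 < a i j

/-- types at the top levels. -/
noncomputable def tyB (a : I → I → ℕ) (α : I →₀ ℕ) (i : I) : Ty := by
  classical
  exact if a i i = 0 ∧ cw a α i = 0 then Ty.D else Ty.R

/-- top state: `κ = K + 1`, `P = p = s`, `H = diag (1 - ε μ)`, `μ_i = 1` unless `s_i = 0`. -/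
noncomputable def topS (a : I → I → ℕ) (α : I →₀ ℕ) (K : ℕ) (ε : ℚ) : Sta I where
  κ := fun _ => K + 1
  P := fun i => -cw a α i
  p := fun i => -cw a α i
  H := fun l i => if l = i then 1 - ε * (if cw a α i = 0 then 0 else 1) else 0

end

end Pool.Agent.H27.KAC
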