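import Pool.Agent.H27.KAC.KNDefs

/-!
KAC module KG1: generating function bounds for sums over multipartitions (elementary, independent).

For `0 < x < 1` and nonnegative `c_l(j)` with `∑_{j ≤ J} c_l(j) x^(l j) ≤ b_l` for all `J`:
`∑_{μ : Fin K → ℕ, ∑ (l+1) μ_l = N} ∏_l c_{l+1}(μ_l) ≤ x^(-N) ∏_{l ≤ K} b_l` (induction on `K`; or multiply each term by
`x^(∑ (l+1) μ_l) = x^N` and enlarge the sum to a product of sums).  Here `c_l(j) = 1`, `b_l = (1 - x^l)^(-1)` for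
`l ≤ L0`, and `c_l(j) = C(A + j, j)`, `b_l = (1 - x^l)^(-(A+1))` for `l > L0` (`∑_j C(A+j,j) y^j = (1-y)^(-(A+1))`,
Mathlib: `tsum_choose_mul_geometric_of_norm_lt_one` or an elementary induction on `A` for finite sums).
The sum over `m ∈ Mset K β` of a product over `i` is the product over `i` of the sums for `N = β_i`.
`(1 - x^l)^(-1) ≤ exp(x^l / (1 - x))`, so `∏_{l > L0} b_l ≤ exp((A+1) x^(L0+1) / (1-x)^2)`.
* `gen_bound_all`: `x = 1/2`, `L0 = 0`, `A = A3 n`.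
* `gen_bound_eps`: first choose `x < 1` with `(∑ α_i) log(1/x) ≤ ε/3`, then `L0` with
  `|I| (A3 n + 1) x^(L0+1)/(1-x)^2 ≤ (ε/3)(n + 1)`, i.e. `|I| (A3+1) x^(L0+1)/(1-x)^2 ≤ ε/3`; the factors for
  `l ≤ L0` are a constant.
-/

namespace Pool.Agent.H27.KAC

open scoped BigOperators

variable {I : Type} [Fintype I] [DecidableEq I]

theorem KG1_choose_sum (A J : ℕ) (y : ℝ) (h0 : 0 ≤ y) (h1 : y < 1) :
    ∑ j ∈ Finset.range J, (((A + j).choose j : ℕ) : ℝ) * y ^ j ≤ 1 / (1 - y) ^ (A + 1) := by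
  have hy : ‖y‖ < 1 := by
    rw [Real.norm_of_nonneg h0]
    exact h1
  have h2 := hasSum_choose_mul_geometric_of_norm_lt_one (𝕜 := ℝ) A hy
  have h3 : ∀ j : ℕ, (((A + j).choose j : ℕ) : ℝ) = (((j + A).choose A : ℕ) : ℝ) := by
    intro j
    rw [add_comm A j, Nat.choose_symm_add]
  simp only [h3]
  rw [← h2.tsum_eq]
  exact h2.summable.sum_le_tsum _ (fun j _ => by positivity)

theorem KG1_b (x : ℝ) (hx0 : 0 < x) (hx1 : x < 1) (l A : ℕ) :
    1 / (1 - x ^ (l + 1)) ^ (A + 1) ≤ Real.exp (((A : ℝ) + 1) * (x ^ (l + 1) / (1 - x))) := by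
  have hy0 : 0 < x ^ (l + 1) := by positivity
  have hyx : x ^ (l + 1) ≤ x := by
    calc x ^ (l + 1) ≤ x ^ 1 := pow_le_pow_of_le_one hx0.le hx1.le (by omega)
      _ = x := pow_one x
  have h1 : 0 < 1 - x ^ (l + 1) := by linarith
  have hx1' : 0 < 1 - x := by linarith
  have h2 : 1 / (1 - x ^ (l + 1)) ≤ Real.exp (x ^ (l + 1) / (1 - x)) := by
    have h3 : 1 / (1 - x ^ (l + 1)) = x ^ (l + 1) / (1 - x ^ (l + 1)) + 1 := by
      field_simp
      ring
    rw [h3]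
    refine (Real.add_one_le_exp _).trans ?_
    apply Real.exp_le_exp.2
    apply div_le_div_of_nonneg_left hy0.le hx1'
    linarith
  have h4 : 1 / (1 - x ^ (l + 1)) ^ (A + 1) = (1 / (1 - x ^ (l + 1))) ^ (A + 1) := by
    rw [one_div_pow]
  rw [h4]
  refine (pow_le_pow_left₀ (by positivity) h2 (A + 1)).trans (le_of_eq ?_)
  rw [← Real.exp_nat_mul]
  push_cast
  rfl

theorem KG1_geom (x : ℝ) (hx0 : 0 < x) (hx1 : x < 1) (K : ℕ) :
    ∑ l ∈ Finset.range K, x ^ l ≤ 1 / (1 - x) := by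
  rw [le_div_iff₀ (by linarith), geom_sum_mul_neg]
  have : 0 < x ^ K := by positivity
  linarith

theorem KG1_geom2 (x : ℝ) (hx0 : 0 < x) (hx1 : x < 1) (K L : ℕ) :
    ∑ l ∈ Finset.range K, (if L ≤ l then x ^ (l + 1) else 0) ≤ x ^ (L + 1) / (1 - x) := by
  have h1 : ∑ l ∈ Finset.range K, (if L ≤ l then x ^ (l + 1) else 0) =
      ∑ l ∈ Finset.Ico L K, x ^ (l + 1) := by
    rw [← Finset.sum_filter]
    apply Finset.sum_congr _ fun _ _ => rfl
    ext l
    simp only [Finset.mem_filter, Finset.mem_range, Finset.mem_Ico]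
    tauto
  rw [h1, Finset.sum_Ico_eq_sum_range]
  have h2 : ∑ k ∈ Finset.range (K - L), x ^ (L + k + 1) =
      x ^ (L + 1) * ∑ k ∈ Finset.range (K - L), x ^ k := by
    rw [Finset.mul_sum]
    exact Finset.sum_congr rfl fun k _ => by ring
  rw [h2, div_eq_mul_one_div]
  exact mul_le_mul_of_nonneg_left (KG1_geom x hx0 hx1 _) (by positivity)

theorem KG1_main (x : ℝ) (hx0 : 0 < x) (hx1 : x < 1) (β : I → ℕ) (K L A : ℕ) :
    (∑ m ∈ Mset K β, ∏ l : Fin K, ∏ i : I,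
      (if L ≤ (l : ℕ) then (((A + m l i).choose (m l i) : ℕ) : ℝ) else 1)) * x ^ (∑ i, β i) ≤
    Real.exp ((Fintype.card I : ℝ) * (x / (1 - x) ^ 2) +
      (Fintype.card I : ℝ) * ((A : ℝ) + 1) * (x ^ (L + 1) / (1 - x) ^ 2)) := by
  classical
  have hx1' : 0 < 1 - x := by linarith
  let Al : Fin K → ℕ := fun l => if L ≤ (l : ℕ) then A else 0
  let f : Fin K → ℕ → ℝ := fun l j => (((Al l + j).choose j : ℕ) : ℝ) * x ^ (((l : ℕ) + 1) * j)
  have hf0 : ∀ l j, 0 ≤ f l j := fun l j => by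
    show 0 ≤ (((Al l + j).choose j : ℕ) : ℝ) * x ^ (((l : ℕ) + 1) * j)
    positivity
  have h1 : (∑ m ∈ Mset K β, ∏ l : Fin K, ∏ i : I,
      (if L ≤ (l : ℕ) then (((A + m l i).choose (m l i) : ℕ) : ℝ) else 1)) * x ^ (∑ i, β i) =
      ∑ m ∈ Mset K β, ∏ l : Fin K, ∏ i : I, f l (m l i) := by
    rw [Finset.sum_mul]
    refine Finset.sum_congr rfl fun m hm => ?_
    have h2 : x ^ (∑ i, β i) = ∏ l : Fin K, ∏ i : I, x ^ (((l : ℕ) + 1) * m l i) := by
      unfold Mset at hm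
      rw [Finset.mem_filter] at hm
      rw [Finset.prod_comm, ← Finset.prod_pow_eq_pow_sum]
      refine Finset.prod_congr rfl fun i _ => ?_
      rw [Finset.prod_pow_eq_pow_sum, hm.2 i]
    rw [h2, ← Finset.prod_mul_distrib]
    refine Finset.prod_congr rfl fun l _ => ?_
    rw [← Finset.prod_mul_distrib]
    refine Finset.prod_congr rfl fun i _ => ?_
    show (if L ≤ (l : ℕ) then (((A + m l i).choose (m l i) : ℕ) : ℝ) else 1) *
      x ^ (((l : ℕ) + 1) * m l i) =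
      ((((if L ≤ (l : ℕ) then A else 0) + m l i).choose (m l i) : ℕ) : ℝ) *
        x ^ (((l : ℕ) + 1) * m l i)
    split_ifs
    · rfl
    · rw [zero_add, Nat.choose_self, Nat.cast_one]
  rw [h1]
  have h2 : ∑ m ∈ Mset K β, ∏ l : Fin K, ∏ i : I, f l (m l i) ≤
      ∏ l : Fin K, ∏ i : I, ∑ j ∈ Finset.range (β i + 1), f l j := by
    simp only [Finset.prod_univ_sum]
    apply Finset.sum_le_sum_of_subset_of_nonneg (Finset.filter_subset _ _)
    intro m _ _
    exact Finset.prod_nonneg fun l _ => Finset.prod_nonneg fun i _ => hf0 _ _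
  have h3 : ∀ (l : Fin K) (i : I), ∑ j ∈ Finset.range (β i + 1), f l j ≤
      Real.exp (((Al l : ℝ) + 1) * (x ^ ((l : ℕ) + 1) / (1 - x))) := by
    intro l i
    refine le_trans ?_ (KG1_b x hx0 hx1 l (Al l))
    have hy1 : x ^ ((l : ℕ) + 1) < 1 := pow_lt_one₀ hx0.le hx1 (by omega)
    refine le_trans (le_of_eq ?_) (KG1_choose_sum (Al l) (β i + 1) (x ^ ((l : ℕ) + 1))
      (by positivity) hy1)
    refine Finset.sum_congr rfl fun j _ => ?_
    show (((Al l + j).choose j : ℕ) : ℝ) * x ^ (((l : ℕ) + 1) * j) = _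
    rw [pow_mul]
  refine h2.trans ?_
  have h4 : ∏ l : Fin K, ∏ i : I, ∑ j ∈ Finset.range (β i + 1), f l j ≤
      ∏ l : Fin K, ∏ _i : I, Real.exp (((Al l : ℝ) + 1) * (x ^ ((l : ℕ) + 1) / (1 - x))) := by
    apply Finset.prod_le_prod
    · intro l _
      exact Finset.prod_nonneg fun i _ => Finset.sum_nonneg fun j _ => hf0 _ _
    · intro l _
      apply Finset.prod_le_prod
      · intro i _
        exact Finset.sum_nonneg fun j _ => hf0 _ _
      · intro i _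
        exact h3 l i
  refine h4.trans ?_
  simp only [Finset.prod_const, Finset.card_univ, ← Real.exp_nat_mul, ← Real.exp_sum]
  apply Real.exp_le_exp.2
  rw [← Finset.mul_sum]
  have h5 : ∑ l : Fin K, ((Al l : ℝ) + 1) * (x ^ ((l : ℕ) + 1) / (1 - x)) ≤
      x / (1 - x) ^ 2 + ((A : ℝ) + 1) * (x ^ (L + 1) / (1 - x) ^ 2) := by
    have h6 : ∀ l : Fin K, ((Al l : ℝ) + 1) * (x ^ ((l : ℕ) + 1) / (1 - x)) ≤
        (x ^ ((l : ℕ) + 1) + ((A : ℝ) + 1) * (if L ≤ (l : ℕ) then x ^ ((l : ℕ) + 1) else 0)) /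
          (1 - x) := by
      intro l
      rw [← mul_div_assoc]
      apply div_le_div_of_nonneg_right _ hx1'.le
      have hp : 0 ≤ x ^ ((l : ℕ) + 1) := by positivity
      show (((if L ≤ (l : ℕ) then A else 0 : ℕ) : ℝ) + 1) * x ^ ((l : ℕ) + 1) ≤ _
      split_ifs
      · nlinarith
      · push_cast
        linarith
    refine (Finset.sum_le_sum fun l _ => h6 l).trans ?_
    rw [← Finset.sum_div, Finset.sum_add_distrib, ← Finset.mul_sum]
    rw [Fin.sum_univ_eq_sum_range (fun l => x ^ (l + 1)) K,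
      Fin.sum_univ_eq_sum_range (fun l => if L ≤ l then x ^ (l + 1) else 0) K]
    have g1 : ∑ l ∈ Finset.range K, x ^ (l + 1) ≤ x / (1 - x) := by
      have := KG1_geom2 x hx0 hx1 K 0
      simpa using this
    have g2 := KG1_geom2 x hx0 hx1 K L
    rw [div_le_iff₀ hx1']
    have h7 : (x / (1 - x) ^ 2 + ((A : ℝ) + 1) * (x ^ (L + 1) / (1 - x) ^ 2)) * (1 - x) =
        x / (1 - x) + ((A : ℝ) + 1) * (x ^ (L + 1) / (1 - x)) := by
      field_simp
    rw [h7]
    have g3 := mul_le_mul_of_nonneg_left g2 (show (0:ℝ) ≤ (A : ℝ) + 1 by positivity)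
    linarith
  calc (Fintype.card I : ℝ) * ∑ l : Fin K, ((Al l : ℝ) + 1) * (x ^ ((l : ℕ) + 1) / (1 - x)) ≤
        (Fintype.card I : ℝ) * (x / (1 - x) ^ 2 + ((A : ℝ) + 1) * (x ^ (L + 1) / (1 - x) ^ 2)) :=
        mul_le_mul_of_nonneg_left h5 (Nat.cast_nonneg _)
    _ = _ := by ring

theorem gen_bound_all (α : I → ℕ) (A3 : ℕ) :
    ∃ c C : ℝ, 0 < c ∧ 1 ≤ C ∧ ∀ n K : ℕ,
      (∑ m ∈ Mset K (fun i => n * α i), ∏ l : Fin K, ∏ i : I,
        (((A3 * n + m l i).choose (m l i) : ℕ) : ℝ)) ≤ C * Real.exp (c * n) := by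
  set s : ℕ := ∑ i, α i with hs
  set N : ℝ := (Fintype.card I : ℝ) with hN
  have hN0 : 0 ≤ N := Nat.cast_nonneg _
  have hlog : 0 < Real.log 2 := Real.log_pos (by norm_num)
  refine ⟨s * Real.log 2 + 2 * N * A3 + 1, Real.exp (4 * N), by positivity,
    Real.one_le_exp (by positivity), fun n K => ?_⟩
  have h := KG1_main (1 / 2 : ℝ) (by norm_num) (by norm_num) (fun i => n * α i) K 0 (A3 * n)
  simp only [Nat.zero_le, if_true] at h
  have hsum : ∑ i, n * α i = n * s := by rw [hs, Finset.mul_sum]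
  rw [hsum, ← hN] at h
  set Z := ∑ m ∈ Mset K (fun i => n * α i), ∏ l : Fin K, ∏ i : I,
        (((A3 * n + m l i).choose (m l i) : ℕ) : ℝ) with hZ
  have h2 : ((1:ℝ) / 2) ^ (n * s) = Real.exp (-(n * s * Real.log 2)) := by
    rw [Real.exp_neg, ← Real.rpow_natCast]
    rw [show ((1:ℝ)/2) = (2:ℝ)⁻¹ by norm_num, Real.inv_rpow (by norm_num),
      Real.rpow_def_of_pos (by norm_num)]
    push_cast
    ring_nf
  rw [h2] at h
  have hpos : 0 < Real.exp (-(n * s * Real.log 2)) := Real.exp_pos _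
  have h3 : Z = Z * Real.exp (-(n * s * Real.log 2)) * Real.exp (n * s * Real.log 2) := by
    rw [mul_assoc, ← Real.exp_add, neg_add_cancel, Real.exp_zero, mul_one]
  rw [h3]
  refine (mul_le_mul_of_nonneg_right h (Real.exp_pos _).le).trans ?_
  rw [← Real.exp_add, ← Real.exp_add]
  apply Real.exp_le_exp.2
  push_cast
  have hn : (0:ℝ) ≤ n := Nat.cast_nonneg _
  norm_num
  nlinarith

theorem gen_bound_eps (α : I → ℕ) (A3 : ℕ) (ε : ℝ) (hε : 0 < ε) :
    ∃ L0 : ℕ, 1 ≤ L0 ∧ ∃ C : ℝ, 1 ≤ C ∧ ∀ n K : ℕ,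
      (∑ m ∈ Mset K (fun i => n * α i), ∏ l : Fin K, ∏ i : I,
        (if L0 ≤ (l : ℕ) then (((A3 * n + m l i).choose (m l i) : ℕ) : ℝ) else 1)) ≤
          C * Real.exp (ε * n) := by
  set s : ℕ := ∑ i, α i with hs
  set N : ℝ := (Fintype.card I : ℝ) with hN
  have hN0 : 0 ≤ N := Nat.cast_nonneg _
  set δ : ℝ := ε / (3 * (s + 1)) with hδ
  have hδ0 : 0 < δ := by positivity
  set x := Real.exp (-δ) with hx
  have hx0 : 0 < x := Real.exp_pos _
  have hx1 : x < 1 := by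
    rw [hx, Real.exp_lt_one_iff]
    linarith
  have hx1' : 0 < 1 - x := by linarith
  have hsδ : s * δ ≤ ε / 3 := by
    rw [hδ, ← mul_div_assoc, div_le_iff₀ (by positivity)]
    have : (0:ℝ) ≤ s := Nat.cast_nonneg _
    nlinarith
  have hlim : Filter.Tendsto (fun L : ℕ => N * ((A3 : ℝ) + 1) * (x ^ (L + 1) / (1 - x) ^ 2))
      Filter.atTop (nhds (N * ((A3 : ℝ) + 1) * (0 / (1 - x) ^ 2))) := by
    apply Filter.Tendsto.const_mul
    apply Filter.Tendsto.div_const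
    exact (tendsto_pow_atTop_nhds_zero_of_lt_one hx0.le hx1).comp (Filter.tendsto_add_atTop_nat 1)
  rw [zero_div, mul_zero] at hlim
  have hev := (hlim.eventually (gt_mem_nhds (show (0:ℝ) < ε / 3 by positivity))).and
    (Filter.eventually_ge_atTop 1)
  obtain ⟨L0, hL, hL1⟩ := hev.exists
  refine ⟨L0, hL1, Real.exp (N * (x / (1 - x) ^ 2) + ε / 3),
    Real.one_le_exp (by positivity), fun n K => ?_⟩
  have h := KG1_main x hx0 hx1 (fun i => n * α i) K L0 (A3 * n)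
  have hsum : ∑ i, n * α i = n * s := by rw [hs, Finset.mul_sum]
  rw [hsum, ← hN] at h
  set Z := ∑ m ∈ Mset K (fun i => n * α i), ∏ l : Fin K, ∏ i : I,
        (if L0 ≤ (l : ℕ) then (((A3 * n + m l i).choose (m l i) : ℕ) : ℝ) else 1) with hZ
  have h2 : x ^ (n * s) = Real.exp (-(n * s * δ)) := by
    rw [hx, ← Real.exp_nat_mul]
    push_cast
    ring_nf
  rw [h2] at h
  have h3 : Z = Z * Real.exp (-(n * s * δ)) * Real.exp (n * s * δ) := by
    rw [mul_assoc, ← Real.exp_add, neg_add_cancel, Real.exp_zero, mul_one]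
  rw [h3]
  refine (mul_le_mul_of_nonneg_right h (Real.exp_pos _).le).trans ?_
  rw [← Real.exp_add, ← Real.exp_add]
  apply Real.exp_le_exp.2
  push_cast
  have hn : (0:ℝ) ≤ n := Nat.cast_nonneg _
  set w := x ^ (L0 + 1) / (1 - x) ^ 2 with hw
  have hw0 : 0 ≤ w := by positivity
  have g1 : N * ((A3:ℝ) * n + 1) * w ≤ ε / 3 * (n + 1) := by
    have g2 : N * ((A3:ℝ) * n + 1) * w ≤ N * ((A3 : ℝ) + 1) * w * (n + 1) := by
      have g3 : (A3:ℝ) * n + 1 ≤ ((A3 : ℝ) + 1) * (n + 1) := by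
        have : (0:ℝ) ≤ A3 := Nat.cast_nonneg _
        nlinarith
      calc N * ((A3:ℝ) * n + 1) * w = N * w * ((A3:ℝ) * n + 1) := by ring
        _ ≤ N * w * (((A3 : ℝ) + 1) * (n + 1)) := mul_le_mul_of_nonneg_left g3 (by positivity)
        _ = _ := by ring
    exact g2.trans (mul_le_mul_of_nonneg_right hL.le (by positivity))
  have g4 : n * (s * δ) ≤ n * (ε / 3) := mul_le_mul_of_nonneg_left hsδ hn
  have g5 : (n : ℝ) * s * δ = n * (s * δ) := by ring
  have g6 : 0 ≤ ε * n := by positivity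
  rw [g5]
  linarith

end Pool.Agent.H27.KAC
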