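import Pool.Agent.H27.KAC.KGDefs

/-!
KAC module KG2: the modified multipartition (one window).

Data: `m ∈ Mset K (n α)` with `P_k + 2k ≥ 0`, `L < κ`, `2 L ≤ κ`, `κ ∣ M` (so `M = κ e`), numbers `Θ ≥ 2`, `u ≥ 1`;
`B` = loop-free vertices with `s_i = 0`, `c_i = (M/κ) u α_i` for `i ∈ B` and `0` otherwise, `t = Θ M u`, `n' = n + t`;
`w_i = ∑_{l > L} l m_{li}`, `N_i = w_i / κ` (division), `r_i = w_i % κ`.
`m'`: size 1: `m_{1i} + t α_i - κ c_i + r_i`; sizes `2..L`: `m_{li}`; sizes `L+1..κ-1`: 0; size `κ`: `N_i + c_i`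
(for `L ≥ 1`; if `κ = 1`... excluded by `2 ≤ κ`).
With `PLF_eq`: for `k ≤ L`
`P'_{ki} - P_{ki} = t s_i + ∑_j C_{ij} ((κ-k) c_j + D_j)`, `D_j = - r_j - k N_j + k b_j`, `b_j = ∑_{l > L} m_{lj}`;
`|D_j| ≤ κ + L N_j + L b_j` and `L b_j ≤ W_j + L (n α_j)/κ` where `W_j = ∑_{L < l ≤ κ} l m_{lj}`, `L N_j ≤ L n α_j / κ`.
Hypothesis `hE`: the error is small: for all `j`: `A1 (κ + L N_j + L b_j) + 4 L + 1 ≤ M u` in the form below, where
`A1 ≥ ∑_j |C_{ij}|` for all `i`; `hΘ`: `∑_j a_{ij} α_j + 1 ≤ Θ`.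
For `i ∈ B` (`s_i = 0`; members of `B` are pairwise nonadjacent): `∑_j C_{ij} (κ-k) c_j = 2 (κ-k) c_i ≥ κ c_i ≥ M u`;
for `i ∉ B`: `t s_i ≥ t = Θ M u` and `∑_j C_{ij}(κ-k)c_j ≥ - ∑_{j} a_{ij} M u α_j`, so the sum is `≥ M u` too.
Hence `P'_{ki} ≥ P_{ki} + 4 L + 1 ≥ P_{ki} + 2k`, and `≥ 1`, for `1 ≤ k ≤ L`.  For `L < k < κ`:
`(κ - L) P'_{ki} = (κ-k) P'_{Li} + (k-L) P'_{κi}`, `P'_{κi} = n' s_i ≥ 0`, so `P'_{ki} ≥ 1`.
The weight: `EW a m' ≥` the product over `l ≤ L` (the other factors are `≥ 1`), and `choose` is monotone: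
`C(P+m, m) ≤ C(P'+m', m')` for `P ≤ P'`, `m ≤ m'`.
-/

namespace Pool.Agent.H27.KAC

open scoped BigOperators
open MvPowerSeries

variable {I : Type} [Fintype I] [DecidableEq I]

theorem KG2_cw_nsmul (a : I → I → ℕ) (α : I →₀ ℕ) (n : ℕ) (i : I) :
    cw a (n • α) i = (n : ℤ) * cw a α i := by
  unfold cw
  rw [Finset.mul_sum]
  apply Finset.sum_congr rfl
  intro j _
  rw [Finsupp.smul_apply, smul_eq_mul]
  push_cast
  ring

theorem Ample.nsmul {a : I → I → ℕ} {α : I →₀ ℕ} (h : Ample a α) (n : ℕ) (hn : 1 ≤ n) :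
    Ample a (n • α) := by
  have hn' : (0 : ℤ) < n := by exact_mod_cast hn
  refine ⟨fun i => ?_, fun i hi => ?_, fun i hi => ?_, fun x y hxy hx hy h1 h2 => ?_⟩
  · rw [Finsupp.smul_apply, smul_eq_mul]
    exact Nat.mul_pos hn (h.supp i)
  · rw [KG2_cw_nsmul, ← mul_neg]
    exact mul_nonneg hn'.le (h.pos i hi)
  · rw [KG2_cw_nsmul, ← mul_neg]
    exact mul_pos hn' (h.posl i hi)
  · rw [KG2_cw_nsmul] at h1 h2
    exact h.nonadj x y hxy hx hy ((mul_eq_zero.mp h1).resolve_left hn'.ne')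
      ((mul_eq_zero.mp h2).resolve_left hn'.ne')

theorem KG2_sum_fin {R : Type*} [AddCommMonoid R] (K : ℕ) (f : ℕ → R) :
    ∑ k : Fin K, f ((k : ℕ) + 1) = ∑ l ∈ Finset.Icc 1 K, f l := by
  induction K with
  | zero => simp
  | succ K ih =>
    rw [Fin.sum_univ_castSucc, Finset.sum_Icc_succ_top (by omega)]
    simp only [Fin.val_castSucc, Fin.val_last]
    rw [ih]

theorem KG2_mAt_fin {K : ℕ} (m : Fin K → I → ℕ) (k : Fin K) (i : I) :
    mAt m ((k : ℕ) + 1) i = m k i := by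
  unfold mAt
  rw [dif_pos ⟨by omega, k.2⟩]
  rfl

theorem KG2_mAt_gt {K : ℕ} (m : Fin K → I → ℕ) (l : ℕ) (hl : K < l) (i : I) :
    mAt m l i = 0 := by
  unfold mAt
  rw [dif_neg (by omega)]

theorem KG2_split {R : Type*} [AddCommMonoid R] (K L : ℕ) (f : ℕ → R)
    (hf : ∀ l, K < l → f l = 0) :
    ∑ l ∈ Finset.Icc 1 K, f l =
      ∑ l ∈ Finset.Icc 1 L, f l + ∑ l ∈ Finset.Icc (L + 1) K, f l := by
  rcases le_or_gt L K with h | h
  · rw [← Finset.sum_union]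
    · congr 1
      ext l
      simp only [Finset.mem_union, Finset.mem_Icc]
      omega
    · rw [Finset.disjoint_left]
      intro l
      simp only [Finset.mem_Icc]
      omega
  · rw [Finset.Icc_eq_empty (by omega : ¬ L + 1 ≤ K), Finset.sum_empty, add_zero]
    apply Finset.sum_subset
    · intro l
      simp only [Finset.mem_Icc]
      omega
    · intro l h1 h2
      simp only [Finset.mem_Icc] at h1 h2
      exact hf l (by omega)

/-- sums over all parts, in terms of `mAt`, split at `L`. -/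
theorem KG2_sumc {K : ℕ} (m : Fin K → I → ℕ) (L : ℕ) (c : ℕ → ℤ) (i : I) :
    ∑ k : Fin K, c ((k : ℕ) + 1) * (m k i : ℤ) =
      ∑ l ∈ Finset.Icc 1 L, c l * (mAt m l i : ℤ) +
        ∑ l ∈ Finset.Icc (L + 1) K, c l * (mAt m l i : ℤ) := by
  rw [← KG2_split K L (fun l => c l * (mAt m l i : ℤ)), ← KG2_sum_fin]
  · apply Finset.sum_congr rfl
    intro k _
    rw [KG2_mAt_fin]
  · intro l hl
    simp only [KG2_mAt_gt m l hl, Nat.cast_zero, mul_zero]

/-- the modified multipartition. -/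
def KG2_mm {K : ℕ} (m : Fin K → I → ℕ) (L κ : ℕ) (x y : I → ℕ) : Fin κ → I → ℕ :=
  fun l i => if (l : ℕ) + 1 ≤ L then mAt m ((l : ℕ) + 1) i + (if (l : ℕ) + 1 = 1 then x i else 0)
    else if (l : ℕ) + 1 = κ then y i else 0

theorem KG2_mm_at {K : ℕ} (m : Fin K → I → ℕ) (L κ : ℕ) (x y : I → ℕ) (l : ℕ) (h1 : 1 ≤ l)
    (h2 : l ≤ κ) (i : I) :
    mAt (KG2_mm m L κ x y) l i = if l ≤ L then mAt m l i + (if l = 1 then x i else 0)
      else if l = κ then y i else 0 := by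
  obtain ⟨l, rfl⟩ : ∃ l', l = l' + 1 := ⟨l - 1, by omega⟩
  exact KG2_mAt_fin (KG2_mm m L κ x y) ⟨l, h2⟩ i

/-- sums over the parts of the modified multipartition. -/
theorem KG2_mm_sum {K : ℕ} (m : Fin K → I → ℕ) (L κ : ℕ) (hL : 1 ≤ L) (hκ : L < κ)
    (x y : I → ℕ) (c : ℕ → ℤ) (i : I) :
    ∑ k : Fin κ, c ((k : ℕ) + 1) * (KG2_mm m L κ x y k i : ℤ) =
      ∑ l ∈ Finset.Icc 1 L, c l * (mAt m l i : ℤ) + c 1 * (x i : ℤ) + c κ * (y i : ℤ) := by
  rw [KG2_sumc (KG2_mm m L κ x y) L c i]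
  congr 1
  · have h1 : ∑ l ∈ Finset.Icc 1 L, c l * (mAt (KG2_mm m L κ x y) l i : ℤ) =
        ∑ l ∈ Finset.Icc 1 L, (c l * (mAt m l i : ℤ) + if l = 1 then c l * (x i : ℤ) else 0) := by
      apply Finset.sum_congr rfl
      intro l hl
      rw [Finset.mem_Icc] at hl
      rw [KG2_mm_at m L κ x y l hl.1 (by omega) i, if_pos hl.2]
      split_ifs
      · push_cast
        ring
      · push_cast
        ring
    rw [h1, Finset.sum_add_distrib, Finset.sum_ite_eq' (Finset.Icc 1 L) 1,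
      if_pos (Finset.mem_Icc.mpr ⟨le_rfl, hL⟩)]
  · rw [Finset.sum_eq_single κ]
    · rw [KG2_mm_at m L κ x y κ (by omega) le_rfl i, if_neg (by omega), if_pos rfl]
    · intro l hl hne
      rw [Finset.mem_Icc] at hl
      rw [KG2_mm_at m L κ x y l (by omega) (by omega) i, if_neg (by omega), if_neg hne]
      simp
    · intro h
      exact absurd (Finset.mem_Icc.mpr ⟨by omega, le_rfl⟩) h

theorem KG2_mem_Mset {K : ℕ} (m : Fin K → I → ℕ) (β : I → ℕ)
    (h : ∀ i, ∑ k : Fin K, ((k : ℕ) + 1) * m k i = β i) : m ∈ Mset K β := by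
  unfold Mset
  rw [Finset.mem_filter]
  refine ⟨?_, h⟩
  rw [Fintype.mem_piFinset]
  intro k
  rw [Fintype.mem_piFinset]
  intro i
  rw [Finset.mem_range, Nat.lt_succ_iff, ← h i]
  calc m k i ≤ ((k : ℕ) + 1) * m k i := Nat.le_mul_of_pos_left _ (by omega)
    _ ≤ _ := Finset.single_le_sum (f := fun k : Fin K => ((k : ℕ) + 1) * m k i)
        (fun _ _ => Nat.zero_le _) (Finset.mem_univ k)

theorem KG2_mem_sum {K : ℕ} (m : Fin K → I → ℕ) (β : I → ℕ) (h : m ∈ Mset K β) (i : I) :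
    ∑ k : Fin K, ((k : ℕ) + 1) * m k i = β i := by
  unfold Mset at h
  rw [Finset.mem_filter] at h
  exact h.2 i

/-- error estimate. -/
theorem KG2_err (a : I → I → ℕ) (A1 : ℕ) (i : I) (hA1 : ∑ j, |cart a i j| ≤ (A1 : ℤ))
    (D : I → ℤ) (F : I → ℕ) (hD : ∀ j, |D j| ≤ (F j : ℤ)) (X Y : ℕ)
    (hE : ∀ j, A1 * F j + Y ≤ X) : |∑ j, cart a i j * D j| ≤ (X : ℤ) - Y := by
  obtain ⟨j0, _, hj0⟩ := Finset.exists_max_image Finset.univ F ⟨i, Finset.mem_univ i⟩
  calc |∑ j, cart a i j * D j| ≤ ∑ j, |cart a i j * D j| := Finset.abs_sum_le_sum_abs _ _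
    _ ≤ ∑ j, |cart a i j| * (F j0 : ℤ) := by
        apply Finset.sum_le_sum
        intro j _
        rw [abs_mul]
        apply mul_le_mul_of_nonneg_left _ (abs_nonneg _)
        exact (hD j).trans (by exact_mod_cast hj0 j (Finset.mem_univ j))
    _ = (∑ j, |cart a i j|) * (F j0 : ℤ) := by rw [Finset.sum_mul]
    _ ≤ (A1 : ℤ) * (F j0 : ℤ) := mul_le_mul_of_nonneg_right hA1 (by positivity)
    _ ≤ (X : ℤ) - Y := by
        have := hE j0
        have : ((A1 * F j0 + Y : ℕ) : ℤ) ≤ (X : ℤ) := by exact_mod_cast this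
        push_cast at this
        linarith

/-- main term. -/
theorem KG2_main (a : I → I → ℕ) (α : I →₀ ℕ) (hα : Ample a α)
    (Θ : ℕ) (i : I) (hΘ : ∑ j, a i j * α j + 1 ≤ Θ)
    (k κ e u : ℕ) (hk : 2 * k ≤ κ) (c : I → ℕ)
    (hc1 : ∀ j, a j j = 0 → cw a α j = 0 → c j = e * u * α j)
    (hc2 : ∀ j, ¬ (a j j = 0 ∧ cw a α j = 0) → c j = 0) :
    ((κ * e * u : ℕ) : ℤ) ≤ (Θ * (κ * e) * u : ℕ) * (-cw a α i) +
      ∑ j, cart a i j * (((κ : ℤ) - k) * (c j : ℤ)) := by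
  have hkκ : (0 : ℤ) ≤ (κ : ℤ) - k := by
    have : (2 : ℤ) * k ≤ κ := by exact_mod_cast hk
    have : (0 : ℤ) ≤ k := by positivity
    linarith only [hk]
  by_cases hB : a i i = 0 ∧ cw a α i = 0
  · have h1 : ∑ j, cart a i j * (((κ : ℤ) - k) * (c j : ℤ)) = 2 * (((κ : ℤ) - k) * (c i : ℤ)) := by
      rw [Finset.sum_eq_single i]
      · unfold cart
        rw [if_pos rfl, hB.1]
        simp
      · intro j _ hj
        by_cases hBj : a j j = 0 ∧ cw a α j = 0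
        · have h2 := hα.nonadj i j (Ne.symm hj) hB.1 hBj.1 hB.2 hBj.2
          unfold cart
          rw [if_neg (Ne.symm hj), h2]
          simp
        · rw [hc2 j hBj]
          simp
      · intro h
        exact absurd (Finset.mem_univ i) h
    rw [h1, hB.2, hc1 i hB.1 hB.2]
    have h3 : (1 : ℤ) ≤ α i := by exact_mod_cast hα.supp i
    have h4 : (κ : ℤ) ≤ 2 * ((κ : ℤ) - k) := by
      have : (2 : ℤ) * k ≤ κ := by exact_mod_cast hk
      linarith
    have h5 : (0 : ℤ) ≤ (e : ℤ) * u := by positivity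
    push_cast
    have h6 : (κ : ℤ) * (e * u) ≤ 2 * ((κ : ℤ) - k) * (e * u) := mul_le_mul_of_nonneg_right h4 h5
    have h7 : 2 * ((κ : ℤ) - k) * (e * u) * 1 ≤ 2 * ((κ : ℤ) - k) * (e * u) * α i :=
      mul_le_mul_of_nonneg_left h3 (by positivity)
    nlinarith only [h6, h7]
  · have hs : (1 : ℤ) ≤ -cw a α i := by
      by_cases h0 : a i i = 0
      · have h1 := hα.pos i h0
        have h2 : cw a α i ≠ 0 := fun h => hB ⟨h0, h⟩
        omega
      · exact hα.posl i h0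
    have h1 : -((κ * e * u : ℕ) : ℤ) * ∑ j, ((a i j * α j : ℕ) : ℤ) ≤
        ∑ j, cart a i j * (((κ : ℤ) - k) * (c j : ℤ)) := by
      rw [Finset.mul_sum]
      apply Finset.sum_le_sum
      intro j _
      by_cases hBj : a j j = 0 ∧ cw a α j = 0
      · have hij : i ≠ j := fun h => hB (h ▸ hBj)
        rw [hc1 j hBj.1 hBj.2]
        unfold cart
        rw [if_neg hij]
        push_cast
        have h5 : (0 : ℤ) ≤ (a i j : ℤ) * (e * u * α j) := by positivity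
        have h6 : (0 : ℤ) ≤ (k : ℤ) := by positivity
        nlinarith only [h6, mul_nonneg h6 h5]
      · rw [hc2 j hBj]
        push_cast
        have h5 : (0 : ℤ) ≤ (κ : ℤ) * e * u * (a i j * α j) := by positivity
        simp only [mul_zero]
        linarith
    have h2 : (∑ j, ((a i j * α j : ℕ) : ℤ)) + 1 ≤ Θ := by exact_mod_cast hΘ
    have h3 : (0 : ℤ) ≤ ((κ * e * u : ℕ) : ℤ) := by positivity
    have h4 : ((Θ * (κ * e) * u : ℕ) : ℤ) = (Θ : ℤ) * ((κ * e * u : ℕ) : ℤ) := by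
      push_cast
      ring
    rw [h4]
    have h7 : (Θ : ℤ) * ((κ * e * u : ℕ) : ℤ) * 1 ≤
        (Θ : ℤ) * ((κ * e * u : ℕ) : ℤ) * (-cw a α i) :=
      mul_le_mul_of_nonneg_left hs (by positivity)
    have h8 : ((∑ j, ((a i j * α j : ℕ) : ℤ)) + 1) * ((κ * e * u : ℕ) : ℤ) ≤
        (Θ : ℤ) * ((κ * e * u : ℕ) : ℤ) := mul_le_mul_of_nonneg_right h2 h3
    nlinarith only [h1, h7, h8]

theorem KG2_choose (P P' m m' : ℕ) (h1 : P ≤ P') (h2 : m ≤ m') :
    (P + m).choose m ≤ (P' + m').choose m' := by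
  calc (P + m).choose m ≤ (P' + m).choose m := Nat.choose_le_choose m (by omega)
    _ = (P' + m).choose P' := (Nat.choose_symm_add (a := P') (b := m)).symm
    _ ≤ (P' + m').choose P' := Nat.choose_le_choose P' (by omega)
    _ = (P' + m').choose m' := Nat.choose_symm_add

theorem window_one (a : I → I → ℕ) (hg : GoodMat a) (α : I →₀ ℕ) (hα : Ample a α)
    (n K : ℕ) (m : Fin K → I → ℕ) (hm : m ∈ Mset K (n • α))
    (hP : ∀ (k : Fin K) (i : I), 0 ≤ PLF a m ((k : ℕ) + 1) i + ((k : ℤ) + 1) * 2)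
    (A1 : ℕ) (hA1 : ∀ i, ∑ j, |cart a i j| ≤ (A1 : ℤ))
    (Θ : ℕ) (hΘ2 : 2 ≤ Θ) (hΘ : ∀ i, ∑ j, a i j * α j + 1 ≤ Θ)
    (L κ M u : ℕ) (hL : 1 ≤ L) (hκ : 2 * L ≤ κ) (hM : κ ∣ M) (hM1 : 1 ≤ M) (hu : 1 ≤ u)
    (hE : ∀ j, A1 * (κ + L * ((∑ l ∈ Finset.Icc (L + 1) K, l * mAt m l j) / κ) +
        L * ∑ l ∈ Finset.Icc (L + 1) K, mAt m l j) + 4 * L + 1 ≤ M * u) :
    ∃ m' : Fin κ → I → ℕ, Adm a ((n + Θ * M * u) • α) m' ∧
      (∏ l ∈ Finset.Icc 1 L, ∏ i,
        ((PLF a m l i + 2 * (l : ℤ)).toNat + mAt m l i).choose (mAt m l i)) ≤ EW a m' := by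
  classical
  obtain ⟨e, rfl⟩ := hM
  obtain ⟨w, hw⟩ : ∃ w : I → ℕ, ∀ j, w j = ∑ l ∈ Finset.Icc (L + 1) K, l * mAt m l j :=
    ⟨_, fun _ => rfl⟩
  obtain ⟨b, hb⟩ : ∃ b : I → ℕ, ∀ j, b j = ∑ l ∈ Finset.Icc (L + 1) K, mAt m l j :=
    ⟨_, fun _ => rfl⟩
  obtain ⟨c, hc1, hc2⟩ : ∃ c : I → ℕ, (∀ j, a j j = 0 → cw a α j = 0 → c j = e * u * α j) ∧
      (∀ j, ¬ (a j j = 0 ∧ cw a α j = 0) → c j = 0) :=
    ⟨fun j => if a j j = 0 ∧ cw a α j = 0 then e * u * α j else 0,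
      fun j h1 h2 => if_pos ⟨h1, h2⟩, fun j h => if_neg h⟩
  have hκ1 : L < κ := by omega
  have hcle : ∀ i, κ * c i + 1 ≤ Θ * (κ * e) * u * α i := by
    intro i
    have h1 : c i ≤ e * u * α i := by
      by_cases hB : a i i = 0 ∧ cw a α i = 0
      · exact (hc1 i hB.1 hB.2).le
      · rw [hc2 i hB]
        exact Nat.zero_le _
    have h2 : κ * c i ≤ κ * (e * u * α i) := Nat.mul_le_mul_left κ h1
    have h3 : 1 ≤ κ * e * u * α i := Nat.mul_pos (Nat.mul_pos hM1 hu) (hα.supp i)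
    have h4 : 2 * (κ * e * u * α i) ≤ Θ * (κ * e * u * α i) := Nat.mul_le_mul_right _ hΘ2
    have h5 : κ * (e * u * α i) = κ * e * u * α i := by ring
    have h6 : Θ * (κ * e * u * α i) = Θ * (κ * e) * u * α i := by ring
    omega
  obtain ⟨x, hx⟩ : ∃ x : I → ℕ, ∀ i, x i = (Θ * (κ * e) * u * α i - κ * c i) + w i % κ :=
    ⟨_, fun _ => rfl⟩
  obtain ⟨y, hy⟩ : ∃ y : I → ℕ, ∀ i, y i = w i / κ + c i := ⟨_, fun _ => rfl⟩
  have hxc : ∀ i, (x i : ℤ) = (Θ * (κ * e) * u : ℕ) * (α i : ℤ) - κ * c i + (w i % κ : ℕ) := by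
    intro i
    have h1 : κ * c i ≤ Θ * (κ * e) * u * α i := by have := hcle i; omega
    rw [hx]
    push_cast [Nat.cast_sub h1]
    ring
  have hyc : ∀ i, (y i : ℤ) = (w i / κ : ℕ) + c i := by
    intro i
    rw [hy]
    push_cast
    ring
  have hdm : ∀ i, (κ : ℤ) * (w i / κ : ℕ) + (w i % κ : ℕ) = w i := by
    intro i
    exact_mod_cast Nat.div_add_mod (w i) κ
  have hwc : ∀ j, (w j : ℤ) = ∑ l ∈ Finset.Icc (L + 1) K, (l : ℤ) * (mAt m l j : ℤ) := by
    intro j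
    rw [hw]
    push_cast
    rfl
  have hbc : ∀ j, (b j : ℤ) = ∑ l ∈ Finset.Icc (L + 1) K, (mAt m l j : ℤ) := by
    intro j
    rw [hb]
    push_cast
    rfl
  have hsnn : ∀ i, 0 ≤ -cw a α i := by
    intro i
    by_cases h0 : a i i = 0
    · exact hα.pos i h0
    · exact (hα.posl i h0).le
  have hmem : KG2_mm m L κ x y ∈ Mset κ ((n + Θ * (κ * e) * u) • α) := by
    apply KG2_mem_Mset
    intro i
    have h1 := KG2_mem_sum m _ hm i
    have h2 := KG2_sumc m L (fun l => (l : ℤ)) i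
    have h3 := KG2_mm_sum m L κ hL hκ1 x y (fun l => (l : ℤ)) i
    rw [Finsupp.smul_apply, smul_eq_mul] at h1 ⊢
    zify
    zify at h1
    simp only [Nat.cast_add, Nat.cast_one] at h2 h3
    rw [h3]
    rw [h2, ← hwc i] at h1
    rw [hxc, hyc]
    have h4 := hdm i
    push_cast at h4 ⊢
    linear_combination h1 + h4
  have hP1 : ∀ k, 1 ≤ k → ∀ i, 0 ≤ PLF a m k i + (k : ℤ) * 2 := by
    intro k hk i
    rcases le_or_gt k K with h | h
    · have h1 := hP ⟨k - 1, by omega⟩ i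
      have h2 : k - 1 + 1 = k := by omega
      have h3 : ((k - 1 : ℕ) : ℤ) + 1 = k := by omega
      simp only [h2, h3] at h1
      exact h1
    · rw [PLF_top a (n • α) m hm k h.le i, KG2_cw_nsmul, ← mul_neg]
      have h1 := mul_nonneg (Int.natCast_nonneg n) (hsnn i)
      positivity
  -- the difference for small k
  have hdiff : ∀ k, 1 ≤ k → k ≤ L → ∀ i,
      PLF a m k i + 4 * L + 1 ≤ PLF a (KG2_mm m L κ x y) k i := by
    intro k hk hkL i
    have h1 := PLF_eq a (n • α) m hm k i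
    have h2 := PLF_eq a ((n + Θ * (κ * e) * u) • α) _ hmem k i
    have h3 : ∀ j, ∑ l' : Fin κ, (((l' : ℕ) + 1 - k : ℕ) : ℤ) * (KG2_mm m L κ x y l' j : ℤ) =
        ∑ l' : Fin K, (((l' : ℕ) + 1 - k : ℕ) : ℤ) * (m l' j : ℤ) +
          ((κ : ℤ) - k) * c j + (-((w j % κ : ℕ) : ℤ) - k * (w j / κ : ℕ) + k * b j) := by
      intro j
      have h4 := KG2_mm_sum m L κ hL hκ1 x y (fun l => ((l - k : ℕ) : ℤ)) j
      have h5 := KG2_sumc m L (fun l => ((l - k : ℕ) : ℤ)) j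
      have h6 : ∑ l ∈ Finset.Icc (L + 1) K, ((l - k : ℕ) : ℤ) * (mAt m l j : ℤ) =
          w j - k * b j := by
        rw [hwc, hbc, Finset.mul_sum, ← Finset.sum_sub_distrib]
        apply Finset.sum_congr rfl
        intro l hl
        rw [Finset.mem_Icc] at hl
        rw [Nat.cast_sub (by omega)]
        ring
      have h7 : 1 - k = 0 := by omega
      have h8 : ((κ - k : ℕ) : ℤ) = (κ : ℤ) - k := Nat.cast_sub (by omega)
      simp only [h7, h8, Nat.cast_zero, zero_mul, add_zero] at h4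
      rw [h4, h5, h6, hyc]
      have h9 := hdm j
      linear_combination h9
    have h4 : PLF a (KG2_mm m L κ x y) k i = PLF a m k i +
        ((Θ * (κ * e) * u : ℕ) * (-cw a α i) +
          ∑ j, cart a i j * (((κ : ℤ) - k) * (c j : ℤ))) +
        ∑ j, cart a i j * (-((w j % κ : ℕ) : ℤ) - k * (w j / κ : ℕ) + k * b j) := by
      rw [h1, h2]
      simp only [h3, mul_add, Finset.sum_add_distrib]
      rw [KG2_cw_nsmul, KG2_cw_nsmul]
      push_cast
      ring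
    have h5 := KG2_main a α hα Θ i (hΘ i) k κ e u (by omega) c hc1 hc2
    have h6 := KG2_err a A1 i (hA1 i)
      (fun j => -((w j % κ : ℕ) : ℤ) - k * (w j / κ : ℕ) + k * b j)
      (fun j => κ + L * (w j / κ) + L * b j) (by
        intro j
        have hkL' : (k : ℤ) ≤ L := by exact_mod_cast hkL
        have g1 : (0 : ℤ) ≤ (w j / κ : ℕ) := Int.natCast_nonneg _
        have g2 : (0 : ℤ) ≤ (b j : ℤ) := Int.natCast_nonneg _
        have g3 : (0 : ℤ) ≤ (w j % κ : ℕ) := Int.natCast_nonneg _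
        have g4 : ((w j % κ : ℕ) : ℤ) ≤ κ := by
          exact_mod_cast (Nat.mod_lt (w j) (by omega)).le
        have g5 := mul_le_mul_of_nonneg_right hkL' g1
        have g6 := mul_le_mul_of_nonneg_right hkL' g2
        have g7 : (0 : ℤ) ≤ (k : ℤ) * (w j / κ : ℕ) := mul_nonneg (Int.natCast_nonneg _) g1
        have g8 : (0 : ℤ) ≤ (k : ℤ) * b j := mul_nonneg (Int.natCast_nonneg _) g2
        have g9 : ((κ + L * (w j / κ) + L * b j : ℕ) : ℤ) =
          (κ : ℤ) + L * (w j / κ : ℕ) + L * b j := by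
            push_cast
            ring
        rw [g9, abs_le]
        constructor <;> linarith only [g4, g5, g6, g8, g7]) (κ * e * u) (4 * L + 1) (by
        intro j
        have := hE j
        rw [← hw, ← hb] at this
        have g1 : A1 * (κ + L * (w j / κ) + L * b j) + (4 * L + 1) =
          A1 * (κ + L * (w j / κ) + L * b j) + 4 * L + 1 := by ring
        rw [g1]
        exact this)
    have h7 := (abs_le.mp h6).1
    rw [h4]
    push_cast at h5 h7 ⊢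
    linarith only [h5, h7]
  -- the values above L
  have hlin : ∀ k, L ≤ k → k ≤ κ → ∀ i, PLF a (KG2_mm m L κ x y) k i =
      ((n + Θ * (κ * e) * u : ℕ) : ℤ) * (-cw a α i) +
        ((κ : ℤ) - k) * ∑ j, cart a i j * (y j : ℤ) := by
    intro k hk hkκ i
    rw [PLF_eq a ((n + Θ * (κ * e) * u) • α) _ hmem k i, KG2_cw_nsmul, Finset.mul_sum, mul_neg]
    congr 1
    apply Finset.sum_congr rfl
    intro j _
    have h4 := KG2_mm_sum m L κ hL hκ1 x y (fun l => ((l - k : ℕ) : ℤ)) j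
    have h5 : ∑ l ∈ Finset.Icc 1 L, ((l - k : ℕ) : ℤ) * (mAt m l j : ℤ) = 0 := by
      apply Finset.sum_eq_zero
      intro l hl
      rw [Finset.mem_Icc] at hl
      have : l - k = 0 := by omega
      rw [this]
      simp
    have h7 : 1 - k = 0 := by omega
    have h8 : ((κ - k : ℕ) : ℤ) = (κ : ℤ) - k := Nat.cast_sub (by omega)
    simp only [h5, h7, h8, Nat.cast_zero, zero_mul, add_zero, zero_add] at h4
    rw [h4]
    ring
  have hPL : ∀ k, 1 ≤ k → k ≤ L → ∀ i, 1 ≤ PLF a (KG2_mm m L κ x y) k i := by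
    intro k hk hkL i
    have h1 := hdiff k hk hkL i
    have h2 := hP1 k hk i
    have h3 : (k : ℤ) ≤ L := by exact_mod_cast hkL
    have h4 : (1 : ℤ) ≤ k := by exact_mod_cast hk
    linarith only [hkL, h1, h2]
  refine ⟨KG2_mm m L κ x y, ⟨hmem, fun i => ?_, fun l hl1 hlκ i => ?_⟩, ?_⟩
  · rw [KG2_mm_at m L κ x y 1 le_rfl (by omega) i, if_pos hL, if_pos rfl, hx]
    have := hcle i
    omega
  · rcases le_or_gt l L with h | h
    · exact hPL l hl1 h i
    · have h1 := hlin l h.le hlκ.le i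
      have h2 := hlin L le_rfl hκ1.le i
      have h3 := hPL L hL le_rfl i
      have h4 : (0 : ℤ) < (κ : ℤ) - l := by
        have : (l : ℤ) < κ := by exact_mod_cast hlκ
        linarith only [hlκ]
      have h5 : (0 : ℤ) < (l : ℤ) - L := by
        have : (L : ℤ) < l := by exact_mod_cast h
        linarith only [h]
      have h6 : ((κ : ℤ) - L) * PLF a (KG2_mm m L κ x y) l i =
          ((κ : ℤ) - l) * PLF a (KG2_mm m L κ x y) L i +
            ((l : ℤ) - L) * (((n + Θ * (κ * e) * u : ℕ) : ℤ) * (-cw a α i)) := by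
        rw [h1, h2]
        ring
      have h7 : (0 : ℤ) ≤ ((l : ℤ) - L) * (((n + Θ * (κ * e) * u : ℕ) : ℤ) * (-cw a α i)) :=
        mul_nonneg h5.le (mul_nonneg (Int.natCast_nonneg _) (hsnn i))
      have h8 : (0 : ℤ) < ((κ : ℤ) - l) * PLF a (KG2_mm m L κ x y) L i :=
        mul_pos h4 (by linarith)
      have h9 : (0 : ℤ) < ((κ : ℤ) - L) * PLF a (KG2_mm m L κ x y) l i := by
        rw [h6]
        linarith
      exact (mul_pos_iff_of_pos_left (by linarith)).mp h9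
  · unfold EW
    have hsub : Finset.Icc 1 L ⊆ Finset.Icc 1 κ := by
      intro l
      simp only [Finset.mem_Icc]
      omega
    rw [← Finset.prod_sdiff hsub]
    have h1 : (∏ l ∈ Finset.Icc 1 L, ∏ i,
        ((PLF a m l i + 2 * (l : ℤ)).toNat + mAt m l i).choose (mAt m l i)) ≤
        ∏ l ∈ Finset.Icc 1 L, ∏ i, ((PLF a (KG2_mm m L κ x y) l i).toNat +
          mAt (KG2_mm m L κ x y) l i).choose (mAt (KG2_mm m L κ x y) l i) := by
      apply Finset.prod_le_prod'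
      intro l hl
      rw [Finset.mem_Icc] at hl
      apply Finset.prod_le_prod'
      intro i _
      apply KG2_choose
      · apply Int.toNat_le_toNat
        have h2 := hdiff l hl.1 hl.2 i
        have h3 : (l : ℤ) ≤ L := by exact_mod_cast hl.2
        linarith
      · rw [KG2_mm_at m L κ x y l hl.1 (by omega) i, if_pos hl.2]
        omega
    refine h1.trans (Nat.le_mul_of_pos_left _ ?_)
    apply Finset.prod_pos
    intro l _
    apply Finset.prod_pos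
    intro i _
    exact Nat.choose_pos (by omega)

end Pool.Agent.H27.KAC
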