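import Pool.Agent.H27.KAC.KG2

/-!
KAC module KG3: choice of the window (pigeonhole) and of the parameters.

Given `q ≥ 1`, `L0 ≥ 1`.  Let `A1`, `Θ` be as in `window_one`, `S = ∑ α_i`.  Choose `Λ ≥ 2`, `R ≥ 1` with
`A1 S (2/Λ + 1/R) ≤ 1/(2 q Θ)` (for instance `Λ = R = 8 q Θ A1 S + 2`), `L_r = L0 Λ^r`, `M = L_R`,
`u = n / (q Θ M) + 1`, so `M u ≥ n/(q Θ)` (real division), `Θ M u ≤ n/q + Θ M`.
The windows `(L_r, L_{r+1}]`, `r < R`, are disjoint, `∑_r ∑_j W_j^{(r)} ≤ n S`, so for some `r` the window weight is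
`≤ n S / R`.  With `L = L_r`, `κ = L_{r+1} = Λ L`: `L N_j ≤ L n α_j / κ ≤ n S/Λ`, and
`L b_j ≤ W_j + L ∑_{l > κ} m_{lj} ≤ n S/R + n S/Λ` (for `l > κ`: `L m_l ≤ (l/Λ) m_l`).  So the condition `hE` of
`window_one` holds as soon as `A1 M + 4 M + 1 ≤ n/(2 q Θ)`, which defines `n0`.
-/

namespace Pool.Agent.H27.KAC

open scoped BigOperators
open MvPowerSeries

variable {I : Type} [Fintype I] [DecidableEq I]

theorem KG3_ind (Lr : ℕ → ℕ) (hmono : ∀ r, Lr r ≤ Lr (r + 1)) (l x R : ℕ) :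
    ∑ r ∈ Finset.range R, (if Lr r < l ∧ l ≤ Lr (r + 1) then x else 0) ≤
      if l ≤ Lr R then x else 0 := by
  induction R with
  | zero => simp
  | succ R ih =>
    rw [Finset.sum_range_succ]
    have h1 := hmono R
    by_cases h2 : l ≤ Lr R
    · rw [if_pos h2] at ih
      rw [if_neg (fun hc => absurd h2 (not_le.2 hc.1)), if_pos (h2.trans h1)]
      omega
    · rw [if_neg h2] at ih
      by_cases h3 : l ≤ Lr (R + 1)
      · rw [if_pos ⟨not_le.1 h2, h3⟩, if_pos h3]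
        omega
      · rw [if_neg (fun hc => h3 hc.2), if_neg h3]
        omega

theorem KG3_total {K : ℕ} (m : Fin K → I → ℕ) (i : I) :
    ∑ l ∈ Finset.Icc 1 K, l * mAt m l i = ∑ k : Fin K, ((k : ℕ) + 1) * m k i := by
  have h1 : ∑ l ∈ Finset.Icc 1 K, l * mAt m l i =
      ∑ k ∈ Finset.range K, (k + 1) * mAt m (k + 1) i := by
    rw [Finset.range_eq_Ico, Finset.sum_Ico_add' (fun l => l * mAt m l i) 0 K 1]
    apply Finset.sum_congr _ fun _ _ => rfl
    ext l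
    simp only [Finset.mem_Icc, Finset.mem_Ico]
    omega
  rw [h1, ← Fin.sum_univ_eq_sum_range (fun k => (k + 1) * mAt m (k + 1) i) K]
  refine Finset.sum_congr rfl fun k _ => ?_
  have h2 : mAt m ((k : ℕ) + 1) i = m k i := by
    unfold mAt
    rw [dif_pos ⟨by omega, by have := k.2; omega⟩]
    congr 1
  rw [h2]

theorem window (a : I → I → ℕ) (hg : GoodMat a) (α : I →₀ ℕ) (hα : Ample a α)
    (q : ℕ) (hq : 1 ≤ q) (L0 : ℕ) (hL0 : 1 ≤ L0) :
    ∃ n0 T : ℕ, ∀ n : ℕ, n0 ≤ n → ∀ (K : ℕ) (m : Fin K → I → ℕ), m ∈ Mset K (n • α) →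
      (∀ (k : Fin K) (i : I), 0 ≤ PLF a m ((k : ℕ) + 1) i + ((k : ℤ) + 1) * 2) →
      ∃ L κ n' : ℕ, L0 ≤ L ∧ 2 ≤ κ ∧ 1 ≤ n' ∧ n' ≤ n + n / q + T ∧
        ∃ m' : Fin κ → I → ℕ, Adm a (n' • α) m' ∧
          (∏ l ∈ Finset.Icc 1 L, ∏ i,
            ((PLF a m l i + 2 * (l : ℤ)).toNat + mAt m l i).choose (mAt m l i)) ≤ EW a m' := by
  classical
  obtain ⟨A1, hA1⟩ : ∃ A1 : ℕ, ∀ i, ∑ j, |cart a i j| ≤ (A1 : ℤ) := by
    refine ⟨(∑ i, ∑ j, |cart a i j|).toNat, fun i => ?_⟩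
    have h1 : ∑ j, |cart a i j| ≤ ∑ i, ∑ j, |cart a i j| :=
      Finset.single_le_sum (f := fun i => ∑ j, |cart a i j|)
        (fun i _ => Finset.sum_nonneg fun j _ => abs_nonneg _) (Finset.mem_univ i)
    exact h1.trans (Int.self_le_toNat _)
  obtain ⟨Θ, hΘ2, hΘ⟩ : ∃ Θ : ℕ, 2 ≤ Θ ∧ ∀ i, ∑ j, a i j * α j + 1 ≤ Θ := by
    refine ⟨(∑ i, ∑ j, a i j * α j) + 2, by omega, fun i => ?_⟩
    have h1 : ∑ j, a i j * α j ≤ ∑ i, ∑ j, a i j * α j :=
      Finset.single_le_sum (f := fun i => ∑ j, a i j * α j) (fun _ _ => Nat.zero_le _)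
        (Finset.mem_univ i)
    omega
  set S := ∑ i, α i with hS
  set c := 2 * q * Θ with hc
  set Λ := 3 * c * A1 * S + 2 with hΛ
  set Lr : ℕ → ℕ := fun r => L0 * Λ ^ r with hLr
  set M := Lr Λ with hM
  have hΛ2 : 2 ≤ Λ := by rw [hΛ]; omega
  have hΛ0 : 0 < Λ := by omega
  have hsucc : ∀ r, Lr (r + 1) = Λ * Lr r := by
    intro r
    simp only [hLr]
    ring
  have hmono : ∀ r, Lr r ≤ Lr (r + 1) := by
    intro r
    rw [hsucc]
    exact Nat.le_mul_of_pos_left _ hΛ0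
  have hLr1 : ∀ r, L0 ≤ Lr r := by
    intro r
    simp only [hLr]
    exact Nat.le_mul_of_pos_right _ (Nat.pow_pos hΛ0)
  have hMr : ∀ r, r < Λ → Lr (r + 1) ∣ M := by
    intro r hr
    simp only [hM, hLr]
    exact Nat.mul_dvd_mul_left _ (pow_dvd_pow _ (by omega))
  have hM1 : 1 ≤ M := hL0.trans (hLr1 Λ)
  have hc0 : 0 < c := by
    rw [hc]
    exact Nat.mul_pos (by omega) (by omega)
  refine ⟨c * (A1 * M + 4 * M + 1), Θ * M, ?_⟩
  intro n hn K m hm hP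
  -- the sums of the parts
  have htot : ∀ j, ∑ l ∈ Finset.Icc 1 K, l * mAt m l j = n * α j := by
    intro j
    rw [KG3_total]
    unfold Mset at hm
    rw [Finset.mem_filter] at hm
    rw [hm.2 j]
    rfl
  -- pigeonhole
  let V : ℕ → I → ℕ := fun r j => ∑ l ∈ Finset.Icc 1 K,
    (if Lr r < l ∧ l ≤ Lr (r + 1) then l * mAt m l j else 0)
  have hV : ∑ r ∈ Finset.range Λ, ∑ j, V r j ≤ n * S := by
    rw [Finset.sum_comm, hS, Finset.mul_sum]
    refine Finset.sum_le_sum fun j _ => ?_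
    rw [← htot j]
    show ∑ r ∈ Finset.range Λ, ∑ l ∈ Finset.Icc 1 K,
      (if Lr r < l ∧ l ≤ Lr (r + 1) then l * mAt m l j else 0) ≤ _
    rw [Finset.sum_comm]
    refine Finset.sum_le_sum fun l _ => ?_
    refine (KG3_ind Lr hmono l (l * mAt m l j) Λ).trans ?_
    split_ifs <;> omega
  obtain ⟨r, hr, hVr⟩ : ∃ r < Λ, Λ * ∑ j, V r j ≤ n * S := by
    by_contra hcon
    push Not at hcon
    have h1 : ∑ _r ∈ Finset.range Λ, n * S < ∑ r ∈ Finset.range Λ, Λ * ∑ j, V r j := by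
      apply Finset.sum_lt_sum_of_nonempty
      · exact Finset.nonempty_range_iff.2 (by omega)
      · intro r hr
        exact hcon r (Finset.mem_range.1 hr)
    rw [Finset.sum_const, Finset.card_range, smul_eq_mul, ← Finset.mul_sum] at h1
    have h2 := Nat.mul_le_mul_left Λ hV
    omega
  set L := Lr r with hL
  set κ := Lr (r + 1) with hκ
  have hκL : κ = Λ * L := hsucc r
  have hL1 : 1 ≤ L := hL0.trans (hLr1 r)
  have hκM : κ ∣ M := hMr r hr
  have hκM' : κ ≤ M := Nat.le_of_dvd hM1 hκM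
  have hLκ : 2 * L ≤ κ := by
    rw [hκL]
    exact Nat.mul_le_mul_right _ hΛ2
  have hκ0 : 0 < κ := by omega
  have hVj : ∀ j, Λ * V r j ≤ n * S := by
    intro j
    refine le_trans (Nat.mul_le_mul_left _ ?_) hVr
    exact Finset.single_le_sum (f := fun j => V r j) (fun _ _ => Nat.zero_le _) (Finset.mem_univ j)
  have hαS : ∀ j, n * α j ≤ n * S := fun j => Nat.mul_le_mul_left _
    (Finset.single_le_sum (f := fun j => α j) (fun _ _ => Nat.zero_le _) (Finset.mem_univ j))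
  have hsub : Finset.Icc (L + 1) K ⊆ Finset.Icc 1 K := by
    intro l hl
    rw [Finset.mem_Icc] at hl ⊢
    omega
  have hw : ∀ j, ∑ l ∈ Finset.Icc (L + 1) K, l * mAt m l j ≤ n * S := by
    intro j
    refine le_trans ?_ (hαS j)
    rw [← htot j]
    exact Finset.sum_le_sum_of_subset hsub
  -- Λ L (w / κ) ≤ n S
  have hY1 : ∀ j, Λ * (L * ((∑ l ∈ Finset.Icc (L + 1) K, l * mAt m l j) / κ)) ≤ n * S := by
    intro j
    refine le_trans ?_ (hw j)
    rw [← mul_assoc, ← hκL]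
    exact Nat.mul_div_le _ _
  -- Λ L b ≤ 2 n S
  have hY2 : ∀ j, Λ * (L * ∑ l ∈ Finset.Icc (L + 1) K, mAt m l j) ≤ 2 * (n * S) := by
    intro j
    have h1 : Λ * (L * ∑ l ∈ Finset.Icc (L + 1) K, mAt m l j) ≤
        ∑ l ∈ Finset.Icc 1 K, (Λ * (if L < l ∧ l ≤ κ then l * mAt m l j else 0) +
          l * mAt m l j) := by
      rw [Finset.mul_sum, Finset.mul_sum]
      refine le_trans ?_ (Finset.sum_le_sum_of_subset hsub)
      refine Finset.sum_le_sum fun l hl => ?_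
      rw [Finset.mem_Icc] at hl
      by_cases h2 : l ≤ κ
      · rw [if_pos ⟨by omega, h2⟩]
        have h3 : Λ * (L * mAt m l j) ≤ Λ * (l * mAt m l j) :=
          Nat.mul_le_mul_left _ (Nat.mul_le_mul_right _ (by omega))
        omega
      · rw [if_neg (fun hc => h2 hc.2), ← mul_assoc, ← hκL]
        have h3 : κ * mAt m l j ≤ l * mAt m l j := Nat.mul_le_mul_right _ (by omega)
        omega
    rw [Finset.sum_add_distrib, ← Finset.mul_sum, htot j] at h1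
    have h2 := hVj j
    have h3 := hαS j
    have h4 : Λ * (∑ l ∈ Finset.Icc 1 K, (if L < l ∧ l ≤ κ then l * mAt m l j else 0)) ≤ n * S :=
      h2
    omega
  set u := n / (q * Θ * M) + 1 with hu
  have hu1 : 1 ≤ u := Nat.le_add_left 1 _
  have hqΘM : 0 < q * Θ * M := Nat.mul_pos (Nat.mul_pos (by omega) (by omega)) (by omega)
  have hMu : 2 * n ≤ c * (M * u) := by
    have h1 : n < q * Θ * M * u := by
      rw [hu, mul_add, mul_one]
      have := Nat.div_add_mod n (q * Θ * M)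
      have h2 := Nat.mod_lt n hqΘM
      omega
    have h2 : c * (M * u) = 2 * (q * Θ * M * u) := by
      rw [hc]; ring
    omega
  have hE : ∀ j, A1 * (κ + L * ((∑ l ∈ Finset.Icc (L + 1) K, l * mAt m l j) / κ) +
        L * ∑ l ∈ Finset.Icc (L + 1) K, mAt m l j) + 4 * L + 1 ≤ M * u := by
    intro j
    set y1 := L * ((∑ l ∈ Finset.Icc (L + 1) K, l * mAt m l j) / κ) with hy1
    set y2 := L * ∑ l ∈ Finset.Icc (L + 1) K, mAt m l j with hy2
    have h1 : Λ * y1 ≤ n * S := hY1 j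
    have h2 : Λ * y2 ≤ 2 * (n * S) := hY2 j
    have h3 : c * A1 * (y1 + y2) ≤ n := by
      have h4 : (c * A1 * (y1 + y2)) * Λ ≤ n * Λ := by
        calc (c * A1 * (y1 + y2)) * Λ = c * A1 * (Λ * y1 + Λ * y2) := by ring
          _ ≤ c * A1 * (n * S + 2 * (n * S)) := Nat.mul_le_mul_left _ (by omega)
          _ = n * (3 * c * A1 * S) := by ring
          _ ≤ n * Λ := Nat.mul_le_mul_left _ (by rw [hΛ]; omega)
      exact Nat.le_of_mul_le_mul_right h4 hΛ0
    have h5 : c * (A1 * κ + 4 * L + 1) ≤ n := by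
      refine le_trans (Nat.mul_le_mul_left _ ?_) hn
      have h6 : A1 * κ ≤ A1 * M := Nat.mul_le_mul_left _ hκM'
      omega
    have h6 : c * (A1 * (κ + y1 + y2) + 4 * L + 1) ≤ c * (M * u) := by
      calc c * (A1 * (κ + y1 + y2) + 4 * L + 1) =
            c * (A1 * κ + 4 * L + 1) + c * A1 * (y1 + y2) := by ring
        _ ≤ c * (M * u) := by omega
    exact Nat.le_of_mul_le_mul_left h6 hc0
  obtain ⟨m', hm1, hm2⟩ := window_one a hg α hα n K m hm hP A1 hA1 Θ hΘ2 hΘ L κ M u hL1 hLκ hκM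
    hM1 hu1 hE
  refine ⟨L, κ, n + Θ * M * u, hLr1 r, by omega, ?_, ?_, m', hm1, hm2⟩
  · have : 0 < Θ * M * u := Nat.mul_pos (Nat.mul_pos (by omega) hM1) hu1
    omega
  · have h1 : Θ * M * (n / (q * Θ * M)) ≤ n / q := by
      rw [Nat.le_div_iff_mul_le (by omega)]
      calc Θ * M * (n / (q * Θ * M)) * q = q * Θ * M * (n / (q * Θ * M)) := by ring
        _ ≤ n := Nat.mul_div_le _ _
    have h2 : Θ * M * u = Θ * M * (n / (q * Θ * M)) + Θ * M := by
      rw [hu]; ring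
    omega

end Pool.Agent.H27.KAC
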