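import Pool.Agent.H27.KAC.KL5
import Pool.Agent.H27.KAC.KF1

/-!
KAC module KL6: the lower bound for `f`.

`K0 ≥ 2`, `α` ample, `m ∈ Mset K0 α`, `m 1 i ≥ 1`, vacancy numbers `PLF k i ≥ 1` for `1 ≤ k < K0` (all `i`).
(`PLF K0 i = s_i`; `s_i ≥ 1` unless `i ∈ B`, where `B` = loop-free vertices with `s_i = 0` = vertices of type D.)
* `lb_mid`: the state at level `K0 + 1` with types `tyB`, `P = p = s`, index `α`: `lb_phase1` (level `k + 2 = K0 + 1`) for the
  regular vertices with `m = mAt m K0`, weights `wt (s_i) (m_i)`; final `Ph_i = PLF (K0-1) i + (1/2) ∑_{x ∈ B} a_{xi} PLF (K0-1) x ≥ 1`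
  (because `2 m_x - n_x = PLF (K0-1) x`, `n_x = ∑_{l ∉ B} a_{xl} m_l`), then `lb_wallsE` and `lb_low` (level `K0`, `k = K0 - 1`).
* `lb_up`: for `k ≥ K0` the state at level `k + 1` with types `tyB`, `P = p = s`, index `α` (all `κ = k+1`): induction on
  `k`; step: `lb_phase1` with `m = 0`, `ω = 1` (`finPh = 2 s - s = s`), then `lb_wallsD`.
* `lower_bound`: `topS a α K ε`, `0 < ε < 1`, is fresh (`top_Fr`), `dfc_r = ε s_r` (`r` with `s_r ≥ 1`), so
  `ε s_r Ω ≤ Val = q(ε)` with `q` from `top_poly`, `q(0) = 0`, hence `s_r Ω ≤ q'(0) = f(α) ∑ α_i s_i`.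
-/

namespace Pool.Agent.H27.KAC

open scoped BigOperators
open MvPowerSeries

variable {I : Type} [Fintype I] [DecidableEq I]

/-- the weight of a multipartition in the lower bound. -/
noncomputable def lbW (a : I → I → ℕ) (α : I →₀ ℕ) {K0 : ℕ} (m : Fin K0 → I → ℕ) : ℚ :=
  (∏ l ∈ Finset.Icc 1 (K0 - 1), ∏ i, wt (PLF a m l i).toNat (mAt m l i)) *
    ∏ i ∈ Finset.univ.filter (fun i => tyB a α i = Ty.R),
      wt (-cw a α i).toNat (mAt m K0 i)

theorem kl6_wt_nonneg (P m : ℕ) : 0 ≤ wt P m := by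
  unfold wt
  positivity

theorem kl6_prod_nonneg (a : I → I → ℕ) {K0 : ℕ} (m : Fin K0 → I → ℕ) (n : ℕ) :
    0 ≤ ∏ l ∈ Finset.Icc 1 n, ∏ i, wt (PLF a m l i).toNat (mAt m l i) :=
  Finset.prod_nonneg fun _ _ => Finset.prod_nonneg fun _ _ => kl6_wt_nonneg _ _

theorem kl6_lbW_nonneg (a : I → I → ℕ) (α : I →₀ ℕ) {K0 : ℕ} (m : Fin K0 → I → ℕ) :
    0 ≤ lbW a α m :=
  mul_nonneg (kl6_prod_nonneg a m _) (Finset.prod_nonneg fun _ _ => kl6_wt_nonneg _ _)

theorem kl6_tyB_wall (a : I → I → ℕ) (α : I →₀ ℕ) (i : I) (h : tyB a α i ≠ Ty.R) :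
    tyB a α i = Ty.D ∧ a i i = 0 ∧ cw a α i = 0 := by
  unfold tyB at h ⊢
  by_cases h1 : a i i = 0 ∧ cw a α i = 0
  · rw [if_pos h1]
    exact ⟨rfl, h1⟩
  · rw [if_neg h1] at h
    exact absurd rfl h

theorem kl6_tyB_reg (a : I → I → ℕ) (α : I →₀ ℕ) (hα : Ample a α) (i : I)
    (h : tyB a α i = Ty.R) : 0 < -cw a α i := by
  have h1 : ¬ (a i i = 0 ∧ cw a α i = 0) := by
    intro h1
    unfold tyB at h
    rw [if_pos h1] at h
    exact absurd h (by decide)
  by_cases h2 : a i i = 0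
  · have h3 := hα.pos i h2
    have h4 : cw a α i ≠ 0 := fun h4 => h1 ⟨h2, h4⟩
    omega
  · exact hα.posl i h2

theorem kl6_Ph1 (a : I → I → ℕ) (α : I →₀ ℕ) (hα : Ample a α) (k : ℕ) (σ : Sta I)
    (h : Fr a α σ (tyB a α) (k + 2)) (hκ : ∀ i, σ.κ i = k + 2) (h1 : ∀ i, σ.P i = -cw a α i) :
    Ph1 a α σ (tyB a α) (k + 2) where
  toBase := h.toBase
  reg := fun l _ => Or.inl (hκ l)
  wall := h.wall
  pos := by
    intro l hl _
    rw [PhS_eq_P a σ (tyB a α) l (fun x _ _ => by rw [hκ x, hκ l]), h1]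
    exact_mod_cast kl6_tyB_reg a α hα l hl
  posp := by
    intro l _ h2
    rw [hκ l] at h2
    omega

theorem kl6_unp (a : I → I → ℕ) (α : I →₀ ℕ) (k : ℕ) (σ : Sta I) (hκ : ∀ i, σ.κ i = k + 2) :
    unp σ (tyB a α) k = Finset.univ.filter (fun i => tyB a α i = Ty.R) := by
  unfold unp
  apply Finset.filter_congr
  intro i _
  constructor
  · exact fun h => h.1
  · exact fun h => ⟨h, hκ i⟩

theorem kl6_finT (a : I → I → ℕ) (α : I →₀ ℕ) (k : ℕ) (σ : Sta I) (m' : I → ℕ) (x : I) :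
    finT a σ (tyB a α) k m' x = Ty.R ↔ tyB a α x = Ty.R := by
  unfold finT
  split_ifs with h
  · rw [h.1]
    decide
  · exact Iff.rfl

/-- final exponents at level `k + 2`, all the vertices unprocessed. -/
theorem kl6_finP_reg (a : I → I → ℕ) (α : I →₀ ℕ) (k : ℕ) (σ : Sta I) (hκ : ∀ i, σ.κ i = k + 2)
    (h1 : ∀ i, σ.P i = -cw a α i) (h2 : ∀ i, σ.p i = -cw a α i) (m' : I → ℕ) (i : I)
    (hi : tyB a α i = Ty.R) :
    finP a σ (tyB a α) k m' i = -cw a α i +
      ∑ l ∈ Finset.univ.filter (fun l => tyB a α l = Ty.R), cart a i l * (m' l : ℤ) := by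
  unfold finP
  rw [if_pos hi, kl6_unp a α k σ hκ, if_pos (by
    rw [Finset.mem_filter]
    exact ⟨Finset.mem_univ i, hi⟩), h1, h2]
  ring

theorem kl6_finp_wall (a : I → I → ℕ) (α : I →₀ ℕ) (k : ℕ) (σ : Sta I) (hκ : ∀ i, σ.κ i = k + 2)
    (h2 : ∀ i, σ.p i = -cw a α i) (m' : I → ℕ) (x : I)
    (hx : tyB a α x ≠ Ty.R) :
    finp a σ (tyB a α) k m' x =
      ∑ l ∈ Finset.univ.filter (fun l => tyB a α l = Ty.R), (a x l : ℤ) * (m' l : ℤ) := by
  unfold finp
  rw [if_neg hx, kl6_unp a α k σ hκ, h2, (kl6_tyB_wall a α x hx).2.2]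
  ring

theorem kl6_finPh (a : I → I → ℕ) (α : I →₀ ℕ) (k : ℕ) (σ : Sta I) (hκ : ∀ i, σ.κ i = k + 2)
    (h1 : ∀ i, σ.P i = -cw a α i) (h2 : ∀ i, σ.p i = -cw a α i) (m' : I → ℕ) (i : I)
    (hi : tyB a α i = Ty.R) :
    finPh a σ (tyB a α) k m' i = ((finP a σ (tyB a α) k m' i : ℤ) : ℚ) -
      (∑ x ∈ Finset.univ.filter (fun x => tyB a α x ≠ Ty.R),
        (a x i : ℚ) * ((finp a σ (tyB a α) k m' x : ℤ) : ℚ)) / 2 := by
  unfold finPh Ph
  have e0 : Finset.univ.filter (fun x => finT a σ (tyB a α) k m' x ≠ Ty.R) =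
      Finset.univ.filter (fun x => tyB a α x ≠ Ty.R) := by
    apply Finset.filter_congr
    intro x _
    rw [Ne, kl6_finT]
  rw [e0, sub_eq_add_neg, ← neg_div, ← Finset.sum_neg_distrib]
  congr 2
  apply Finset.sum_congr rfl
  intro x hx
  have hx' : tyB a α x ≠ Ty.R := (Finset.mem_filter.1 hx).2
  have e1 : finK σ (tyB a α) k i = k + 1 := by
    unfold finK
    rw [if_pos hi]
  have e2 : finK σ (tyB a α) k x = k + 2 := by
    unfold finK
    rw [if_neg hx', hκ x]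
  rw [e1, e2]
  push_cast
  ring

theorem kl6_split (F : I → ℤ) (a : I → I → ℕ) (α : I →₀ ℕ) :
    ∑ j, F j = ∑ j ∈ Finset.univ.filter (fun j => tyB a α j = Ty.R), F j +
      ∑ j ∈ Finset.univ.filter (fun j => tyB a α j ≠ Ty.R), F j :=
  (Finset.sum_filter_add_sum_filter_not Finset.univ (fun j => tyB a α j = Ty.R) F).symm

theorem kl6_ord (a : I → I → ℕ) (hg : GoodMat a) (hc : Conn a) (r : I) :
    ∃ (ord : I → ℕ) (t : ℕ), Function.Injective ord ∧ ∀ i, ord i < t := by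
  obtain ⟨ord, h1, _, _⟩ := exists_ord a hg.symm hc r
  refine ⟨ord, (Finset.univ.sup ord) + 1, h1, fun i => ?_⟩
  exact Nat.lt_succ_of_le (Finset.le_sup (Finset.mem_univ i))

/-- the last part sizes. -/
theorem kl6_gam {K0 : ℕ} (hK0 : 2 ≤ K0) (α : I →₀ ℕ) (m : Fin K0 → I → ℕ) (hm : m ∈ Mset K0 α)
    (i : I) : α i = gam m (K0 - 1) i + K0 * mAt m K0 i := by
  have h1 := gam_top α m hm K0 le_rfl
  have h2 : gam m K0 i = gam m (K0 - 1) i + K0 * mAt m K0 i := by
    show ∑ l ∈ Finset.Icc 1 K0, l * mAt m l i =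
      ∑ l ∈ Finset.Icc 1 (K0 - 1), l * mAt m l i + K0 * mAt m K0 i
    obtain ⟨n, rfl⟩ : ∃ n, K0 = n + 1 := ⟨K0 - 1, by omega⟩
    rw [Finset.sum_Icc_succ_top (by omega)]
    rfl
  rw [h1] at h2
  exact h2

/-- the vacancy numbers at the level below the last parts. -/
theorem kl6_PLF (a : I → I → ℕ) {K0 : ℕ} (hK0 : 2 ≤ K0) (α : I →₀ ℕ) (m : Fin K0 → I → ℕ)
    (hm : m ∈ Mset K0 α) (i : I) :
    PLF a m (K0 - 1) i = -cw a α i + ∑ j, cart a i j * (mAt m K0 j : ℤ) := by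
  obtain ⟨n, rfl⟩ : ∃ n, K0 = n + 1 := ⟨K0 - 1, by omega⟩
  have h1 := PLF_rec a m n i
  have h2 := PLF_top a α m hm (n + 1) le_rfl i
  have h3 := PLF_top a α m hm (n + 2) (by omega) i
  rw [h2, h3] at h1
  show PLF a m n i = _
  rw [h1]
  ring

theorem kl6_PLF_wall (a : I → I → ℕ) (α : I →₀ ℕ) (hα : Ample a α)
    {K0 : ℕ} (hK0 : 2 ≤ K0) (m : Fin K0 → I → ℕ)
    (hm : m ∈ Mset K0 α) (x : I) (hx : tyB a α x ≠ Ty.R) :
    PLF a m (K0 - 1) x = 2 * (mAt m K0 x : ℤ) -
      ∑ l ∈ Finset.univ.filter (fun l => tyB a α l = Ty.R), (a x l : ℤ) * (mAt m K0 l : ℤ) := by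
  obtain ⟨_, hxx, hcx⟩ := kl6_tyB_wall a α x hx
  rw [kl6_PLF a hK0 α m hm x, hcx, kl6_split _ a α]
  have h1 : ∑ j ∈ Finset.univ.filter (fun j => tyB a α j ≠ Ty.R),
      cart a x j * (mAt m K0 j : ℤ) = 2 * (mAt m K0 x : ℤ) := by
    rw [Finset.sum_eq_single x]
    · unfold cart
      rw [if_pos rfl, hxx]
      push_cast
      ring
    · intro y hy hyx
      obtain ⟨_, hyy, hcy⟩ := kl6_tyB_wall a α y (Finset.mem_filter.1 hy).2
      unfold cart
      rw [if_neg (Ne.symm hyx), hα.nonadj x y (Ne.symm hyx) hxx hyy hcx hcy]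
      simp
    · intro h
      exact absurd (Finset.mem_filter.2 ⟨Finset.mem_univ x, hx⟩) h
  have h2 : ∑ j ∈ Finset.univ.filter (fun j => tyB a α j = Ty.R),
      cart a x j * (mAt m K0 j : ℤ) =
      - ∑ l ∈ Finset.univ.filter (fun l => tyB a α l = Ty.R), (a x l : ℤ) * (mAt m K0 l : ℤ) := by
    rw [← Finset.sum_neg_distrib]
    apply Finset.sum_congr rfl
    intro j hj
    have hj' : tyB a α j = Ty.R := (Finset.mem_filter.1 hj).2
    have hne : x ≠ j := by
      rintro rfl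
      exact hx hj'
    unfold cart
    rw [if_neg hne]
    ring
  rw [h1, h2]
  ring

theorem kl6_PLF_reg (a : I → I → ℕ) (hs : ∀ i j, a i j = a j i) (α : I →₀ ℕ)
    {K0 : ℕ} (hK0 : 2 ≤ K0) (m : Fin K0 → I → ℕ)
    (hm : m ∈ Mset K0 α) (i : I) (hi : tyB a α i = Ty.R) :
    PLF a m (K0 - 1) i = (-cw a α i +
      ∑ l ∈ Finset.univ.filter (fun l => tyB a α l = Ty.R), cart a i l * (mAt m K0 l : ℤ)) -
      ∑ x ∈ Finset.univ.filter (fun x => tyB a α x ≠ Ty.R), (a x i : ℤ) * (mAt m K0 x : ℤ) := by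
  rw [kl6_PLF a hK0 α m hm i, kl6_split _ a α]
  have h2 : ∑ j ∈ Finset.univ.filter (fun j => tyB a α j ≠ Ty.R),
      cart a i j * (mAt m K0 j : ℤ) =
      - ∑ l ∈ Finset.univ.filter (fun l => tyB a α l ≠ Ty.R), (a l i : ℤ) * (mAt m K0 l : ℤ) := by
    rw [← Finset.sum_neg_distrib]
    apply Finset.sum_congr rfl
    intro j hj
    have hj' : tyB a α j ≠ Ty.R := (Finset.mem_filter.1 hj).2
    have hne : i ≠ j := by
      rintro rfl
      exact hj' hi
    unfold cart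
    rw [if_neg hne, hs i j]
    ring
  rw [h2]
  ring

theorem lb_mid (a : I → I → ℕ) (hg : GoodMat a) (hc : Conn a) (α : I →₀ ℕ) (hα : Ample a α)
    {K0 : ℕ} (hK0 : 2 ≤ K0) (m : Fin K0 → I → ℕ) (hm : m ∈ Mset K0 α)
    (hm1 : ∀ i, 1 ≤ mAt m 1 i) (hP : ∀ l, 1 ≤ l → l < K0 → ∀ i, 1 ≤ PLF a m l i)
    (r : I) (hr : tyB a α r = Ty.R) (σ : Sta I) (h : Fr a α σ (tyB a α) (K0 + 1))
    (hκ : ∀ i, σ.κ i = K0 + 1) (h1 : ∀ i, σ.P i = -cw a α i) (h2 : ∀ i, σ.p i = -cw a α i) :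
    lbW a α m * dfc a σ (tyB a α) r ≤ Val a α σ := by
  obtain ⟨k, hk⟩ : ∃ k, K0 = k + 1 := ⟨K0 - 1, by omega⟩
  have hk1 : K0 - 1 = k := by omega
  have hkk : K0 + 1 = k + 2 := by omega
  have hκ' : ∀ i, σ.κ i = k + 2 := fun i => by rw [hκ i, hkk]
  rw [hkk] at h
  obtain ⟨ord, t, hord, ht⟩ := kl6_ord a hg hc r
  have hPl : ∀ i, 1 ≤ PLF a m (K0 - 1) i := hP (K0 - 1) (by omega) (by omega)
  -- final exponents
  have hfP : ∀ i, tyB a α i = Ty.R →
      finP a σ (tyB a α) k (mAt m K0) i = PLF a m (K0 - 1) i +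
        ∑ x ∈ Finset.univ.filter (fun x => tyB a α x ≠ Ty.R),
          (a x i : ℤ) * (mAt m K0 x : ℤ) := by
    intro i hi
    rw [kl6_finP_reg a α k σ hκ' h1 h2 (mAt m K0) i hi, kl6_PLF_reg a hg.symm α hK0 m hm i hi]
    ring
  have hfp : ∀ x, tyB a α x ≠ Ty.R →
      finp a σ (tyB a α) k (mAt m K0) x = 2 * (mAt m K0 x : ℤ) - PLF a m (K0 - 1) x := by
    intro x hx
    rw [kl6_finp_wall a α k σ hκ' h2 (mAt m K0) x hx, kl6_PLF_wall a α hα hK0 m hm x hx]
    ring
  have hfPh : ∀ i, tyB a α i = Ty.R → 1 ≤ finPh a σ (tyB a α) k (mAt m K0) i := by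
    intro i hi
    rw [kl6_finPh a α k σ hκ' h1 h2 (mAt m K0) i hi, hfP i hi]
    have e1 : ∑ x ∈ Finset.univ.filter (fun x => tyB a α x ≠ Ty.R),
        (a x i : ℚ) * ((finp a σ (tyB a α) k (mAt m K0) x : ℤ) : ℚ) =
        2 * ((∑ x ∈ Finset.univ.filter (fun x => tyB a α x ≠ Ty.R),
          (a x i : ℤ) * (mAt m K0 x : ℤ) : ℤ) : ℚ) -
        ∑ x ∈ Finset.univ.filter (fun x => tyB a α x ≠ Ty.R),
          (a x i : ℚ) * ((PLF a m (K0 - 1) x : ℤ) : ℚ) := by
      push_cast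
      rw [Finset.mul_sum, ← Finset.sum_sub_distrib]
      apply Finset.sum_congr rfl
      intro x hx
      rw [hfp x (Finset.mem_filter.1 hx).2]
      push_cast
      ring
    have e2 : 0 ≤ ∑ x ∈ Finset.univ.filter (fun x => tyB a α x ≠ Ty.R),
        (a x i : ℚ) * ((PLF a m (K0 - 1) x : ℤ) : ℚ) := by
      apply Finset.sum_nonneg
      intro x _
      apply mul_nonneg (Nat.cast_nonneg _)
      have e3 := hPl x
      exact_mod_cast le_trans zero_le_one e3
    have e3 : (1 : ℚ) ≤ ((PLF a m (K0 - 1) i : ℤ) : ℚ) := by exact_mod_cast hPl i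
    rw [e1, Int.cast_add]
    linarith
  have main := lb_phase1 a hg k r ord hord (mAt m K0)
    (fun i => wt (-cw a α i).toNat (mAt m K0 i))
    (∏ l ∈ Finset.Icc 1 (K0 - 1), ∏ i, wt (PLF a m l i).toNat (mAt m l i))
    (kl6_prod_nonneg a m _) t α σ (tyB a α) (kl6_Ph1 a α hα k σ h hκ' h1)
    (fun x _ => hκ' x) hr (fun i _ => ⟨fun _ => ht i, fun _ => hκ' i⟩)
    (by
      intro l _
      have h3 := kl6_gam hK0 α m hm l
      rw [← hk]
      omega) hfPh
    (by
      intro i _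
      refine ⟨kl6_wt_nonneg _ _, Or.inl ?_⟩
      rw [h1 i])
    (by
      intro σ' hPh2 hκ2 hP2 hp2
      have hwall : ∀ x, finT a σ (tyB a α) k (mAt m K0) x ≠ Ty.R ↔ tyB a α x ≠ Ty.R := by
        intro x
        rw [Ne, Ne, kl6_finT]
      have hfil : Finset.univ.filter (fun x => finT a σ (tyB a α) k (mAt m K0) x ≠ Ty.R) =
          Finset.univ.filter (fun x => tyB a α x ≠ Ty.R) := by
        apply Finset.filter_congr
        intro x _
        exact hwall x
      have hG : ∀ x, finG α σ (tyB a α) k (mAt m K0) x =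
          if tyB a α x = Ty.R then α x - K0 * mAt m K0 x else α x := by
        intro x
        unfold finG
        rw [kl6_unp a α k σ hκ', Finsupp.tsub_apply, Finsupp.finset_sum_apply]
        by_cases hx : tyB a α x = Ty.R
        · rw [if_pos hx, Finset.sum_eq_single x]
          · rw [Finsupp.single_eq_same, ← hk]
          · intro y _ hyx
            rw [Finsupp.single_eq_of_ne (Ne.symm hyx)]
          · intro h3
            exact absurd (Finset.mem_filter.2 ⟨Finset.mem_univ x, hx⟩) h3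
        · rw [if_neg hx, Finset.sum_eq_zero, Nat.sub_zero]
          intro y hy
          have hyx : x ≠ y := by
            rintro rfl
            exact hx (Finset.mem_filter.1 hy).2
          rw [Finsupp.single_eq_of_ne hyx]
      apply lb_wallsE a hg k r _ (kl6_prod_nonneg a m _) (gam m (K0 - 1)) (PLF a m (K0 - 1))
        (PLF a m K0) _ hPl (finG α σ (tyB a α) k (mAt m K0)) σ'
        (finT a σ (tyB a α) k (mAt m K0)) (mAt m K0) hPh2
      · intro x hx
        rw [hκ2]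
        unfold finK
        rw [if_neg ((hwall x).1 hx), hκ' x]
      · rw [kl6_finT]
        exact hr
      · intro x hx
        rw [hp2, hfp x ((hwall x).1 hx)]
        have h3 := hPl x
        omega
      · intro x hx
        rw [hG x, if_neg ((hwall x).1 hx), ← hk]
        have h3 := kl6_gam hK0 α m hm x
        omega
      · rw [hfil]
        ext x
        rw [Finsupp.tsub_apply, Finsupp.finset_sum_apply, hG x]
        have h3 := kl6_gam hK0 α m hm x
        by_cases hx : tyB a α x = Ty.R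
        · rw [if_pos hx, Finset.sum_eq_zero]
          · omega
          · intro y hy
            have hyx : x ≠ y := by
              rintro rfl
              exact (Finset.mem_filter.1 hy).2 hx
            rw [Finsupp.single_eq_of_ne hyx]
        · rw [if_neg hx, Finset.sum_eq_single x]
          · rw [Finsupp.single_eq_same, ← hk]
            omega
          · intro y _ hyx
            rw [Finsupp.single_eq_of_ne (Ne.symm hyx)]
          · intro h4
            exact absurd (Finset.mem_filter.2 ⟨Finset.mem_univ x, hx⟩) h4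
      · intro i
        rw [hfil, hP2, hp2]
        by_cases hi : tyB a α i = Ty.R
        · rw [if_pos ((kl6_finT a α k σ _ i).2 hi), hfP i hi]
          ring
        · rw [if_neg ((hwall i).2 hi), hfp i hi]
          ring
      · intro i
        rw [hp2, PLF_top a α m hm K0 le_rfl i]
        by_cases hi : tyB a α i = Ty.R
        · rw [if_pos ((kl6_finT a α k σ _ i).2 hi)]
          unfold finp
          rw [if_pos hi, if_pos (by
            rw [kl6_unp a α k σ hκ', Finset.mem_filter]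
            exact ⟨Finset.mem_univ i, hi⟩), h1]
        · rw [if_neg ((hwall i).2 hi), (kl6_tyB_wall a α i hi).2.2, neg_zero]
      · intro τ hτ hτP hτp
        have h3 := lb_low a hg hc m hm1 r (K0 - 1) (by omega) (by omega) hP τ (by
          have h4 : K0 - 1 + 1 = k + 1 := by omega
          rw [h4]
          exact hτ) (fun i => by rw [hτP]) (fun i => by
          have h4 : K0 - 1 + 1 = K0 := by omega
          rw [h4, hτp])
        exact h3)
  rw [kl6_unp a α k σ hκ'] at main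
  exact main

theorem lb_up (a : I → I → ℕ) (hg : GoodMat a) (hc : Conn a) (α : I →₀ ℕ) (hα : Ample a α)
    {K0 : ℕ} (hK0 : 2 ≤ K0) (m : Fin K0 → I → ℕ) (hm : m ∈ Mset K0 α)
    (hm1 : ∀ i, 1 ≤ mAt m 1 i) (hP : ∀ l, 1 ≤ l → l < K0 → ∀ i, 1 ≤ PLF a m l i)
    (r : I) (hr : tyB a α r = Ty.R) (k : ℕ) (hk : K0 ≤ k) :
    ∀ σ : Sta I, Fr a α σ (tyB a α) (k + 1) → (∀ i, σ.κ i = k + 1) →
      (∀ i, σ.P i = -cw a α i) → (∀ i, σ.p i = -cw a α i) →
      lbW a α m * dfc a σ (tyB a α) r ≤ Val a α σ := by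
  induction k, hk using Nat.le_induction with
  | base =>
    intro σ h hκ h1 h2
    exact lb_mid a hg hc α hα hK0 m hm hm1 hP r hr σ h hκ h1 h2
  | succ k hk ih =>
    intro σ h hκ h1 h2
    obtain ⟨ord, t, hord, ht⟩ := kl6_ord a hg hc r
    have hfPr : ∀ i, tyB a α i = Ty.R → finP a σ (tyB a α) k (fun _ => 0) i = -cw a α i := by
      intro i hi
      rw [kl6_finP_reg a α k σ hκ h1 h2 (fun _ => 0) i hi]
      simp
    have hfpw : ∀ x, tyB a α x ≠ Ty.R → finp a σ (tyB a α) k (fun _ => 0) x = 0 := by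
      intro x hx
      rw [kl6_finp_wall a α k σ hκ h2 (fun _ => 0) x hx]
      simp
    have hfPh : ∀ i, tyB a α i = Ty.R →
        finPh a σ (tyB a α) k (fun _ => 0) i = ((-cw a α i : ℤ) : ℚ) := by
      intro i hi
      rw [kl6_finPh a α k σ hκ h1 h2 (fun _ => 0) i hi, hfPr i hi, Finset.sum_eq_zero]
      · ring
      · intro x hx
        rw [hfpw x (Finset.mem_filter.1 hx).2]
        simp
    have hG : finG α σ (tyB a α) k (fun _ => 0) = α := by
      unfold finG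
      simp
    have hT : finT a σ (tyB a α) k (fun _ => 0) = tyB a α := by
      funext x
      unfold finT
      simp
    have main := lb_phase1 a hg k r ord hord (fun _ => 0) (fun _ => 1) (lbW a α m)
      (kl6_lbW_nonneg a α m) t α σ (tyB a α) (kl6_Ph1 a α hα k σ h hκ h1)
      (fun x _ => hκ x) hr (fun i _ => ⟨fun _ => ht i, fun _ => hκ i⟩)
      (by
        intro l _
        simp)
      (by
        intro i hi
        rw [hfPh i hi]
        have h3 := kl6_tyB_reg a α hα i hi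
        exact_mod_cast h3)
      (by
        intro i hi
        rw [kl6_unp a α k σ hκ] at hi
        refine ⟨zero_le_one, Or.inr ⟨le_rfl, rfl, ?_⟩⟩
        rw [hfPh i (Finset.mem_filter.1 hi).2, h1 i])
      (by
        intro σ' hPh2 hκ2 hP2 hp2
        rw [hG, hT] at hPh2 ⊢
        have hPP : σ'.P = fun i => -cw a α i := by
          rw [hP2]
          funext i
          by_cases hi : tyB a α i = Ty.R
          · exact hfPr i hi
          · unfold finP
            rw [if_neg hi, h1]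
        have hpp : σ'.p = fun i => -cw a α i := by
          rw [hp2]
          funext i
          by_cases hi : tyB a α i = Ty.R
          · unfold finp
            rw [if_pos hi, if_pos (by
              rw [kl6_unp a α k σ hκ, Finset.mem_filter]
              exact ⟨Finset.mem_univ i, hi⟩), h1]
          · rw [hfpw i hi, (kl6_tyB_wall a α i hi).2.2, neg_zero]
        apply lb_wallsD a hg k r (lbW a α m) α (tyB a α) hr
          (fun x hx => (kl6_tyB_wall a α x hx).1) (fun i => -cw a α i) (fun i => -cw a α i) _ σ' hPh2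
        · intro x hx
          left
          rw [hκ2]
          unfold finK
          rw [if_neg hx, hκ x]
        · exact hPP
        · exact hpp
        · intro τ hτ hτκ hτP hτp
          exact ih τ hτ hτκ (fun i => by rw [hτP]) (fun i => by rw [hτp]))
    rw [Finset.prod_const_one, mul_one] at main
    exact main

theorem kl6_limit (q : Polynomial ℚ) (A : ℚ) (h0 : q.eval 0 = 0)
    (h : ∀ ε : ℚ, 0 < ε → ε < 1 → A * ε ≤ q.eval ε) : A ≤ q.derivative.eval 0 := by
  obtain ⟨p, hp⟩ : ∃ p : Polynomial ℚ, q = Polynomial.X * p := by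
    have h1 : Polynomial.X ∣ q := by
      rw [Polynomial.X_dvd_iff, Polynomial.coeff_zero_eq_eval_zero]
      exact h0
    exact h1
  have h1 : q.derivative.eval 0 = p.eval 0 := by
    rw [hp, Polynomial.derivative_mul, Polynomial.derivative_X]
    simp
  rw [h1]
  have h2 : Filter.Tendsto (fun ε : ℚ => p.eval ε) (nhdsWithin 0 (Set.Ioi 0)) (nhds (p.eval 0)) :=
    (p.continuous.tendsto 0).mono_left nhdsWithin_le_nhds
  refine ge_of_tendsto h2 ?_
  filter_upwards [Ioo_mem_nhdsGT (zero_lt_one : (0 : ℚ) < 1)] with ε hε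
  have h3 := h ε hε.1 hε.2
  rw [hp, Polynomial.eval_mul, Polynomial.eval_X, mul_comm A ε] at h3
  exact le_of_mul_le_mul_left h3 hε.1

theorem lower_bound (a : I → I → ℕ) (hg : GoodMat a) (hc : Conn a) (hne : Nonempty I)
    (f : (I → ℕ) → ℚ) (hK : KacData a f) (α : I →₀ ℕ) (hα : Ample a α)
    {K0 : ℕ} (hK0 : 2 ≤ K0) (m : Fin K0 → I → ℕ) (hm : m ∈ Mset K0 α)
    (hm1 : ∀ i, 1 ≤ mAt m 1 i) (hP : ∀ l, 1 ≤ l → l < K0 → ∀ i, 1 ≤ PLF a m l i) :
    lbW a α m ≤ f α * ∑ i, (α i : ℚ) * (-(cw a α i : ℤ) : ℚ) := by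
  obtain ⟨r, hr⟩ := hα.exists_pos hc hne
  have hα0 : α ≠ 0 := by
    rintro rfl
    have h1 := hα.supp r
    simp at h1
  have hrR : tyB a α r = Ty.R := by
    by_contra h
    have h1 := (kl6_tyB_wall a α r h).2.2
    omega
  obtain ⟨K, hKd⟩ : ∃ K, K = max (tdeg α) K0 := ⟨_, rfl⟩
  have hK1 : tdeg α ≤ K := by rw [hKd]; exact le_max_left _ _
  have hK2 : K0 ≤ K := by rw [hKd]; exact le_max_right _ _
  obtain ⟨q, hq, hq0, hq1⟩ := top_poly a hg.symm f hK α hα0 K hK1
    (fun i => if cw a α i = 0 then 0 else 1)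
  have hdfc : ∀ ε : ℚ, dfc a (topS a α K ε) (tyB a α) r = ε * ((-cw a α r : ℤ) : ℚ) := by
    intro ε
    have e1 : ∀ l, phS a (topS a α K ε) (tyB a α) l = ((-cw a α l : ℤ) : ℚ) := by
      intro l
      show (((-cw a α l : ℤ)) : ℚ) + (∑ x ∈ Finset.univ.filter (fun x => tyB a α x ≠ Ty.R),
        (a x l : ℚ) * ((-cw a α x : ℤ) : ℚ) * (((K + 1 : ℕ) : ℚ) - ((K + 1 : ℕ) : ℚ) + 1)) / 2 = _
      rw [Finset.sum_eq_zero]
      · ring
      · intro x hx
        rw [(kl6_tyB_wall a α x (Finset.mem_filter.1 hx).2).2.2]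
        simp
    have e2 : ∀ l, PhS a (topS a α K ε) (tyB a α) l = ((-cw a α l : ℤ) : ℚ) := by
      intro l
      show (((-cw a α l : ℤ)) : ℚ) + (∑ x ∈ Finset.univ.filter (fun x => tyB a α x ≠ Ty.R),
        (a x l : ℚ) * ((-cw a α x : ℤ) : ℚ) * (((K + 1 : ℕ) : ℚ) - ((K + 1 : ℕ) : ℚ))) / 2 = _
      rw [Finset.sum_eq_zero]
      · ring
      · intro x hx
        rw [(kl6_tyB_wall a α x (Finset.mem_filter.1 hx).2).2.2]
        simp
    unfold dfc
    rw [e1, Finset.sum_eq_single r]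
    · rw [e2]
      show ((-cw a α r : ℤ) : ℚ) - (if r = r then 1 - ε * (if cw a α r = 0 then 0 else 1) else 0) *
        ((-cw a α r : ℤ) : ℚ) = _
      rw [if_pos rfl, if_neg (by omega)]
      ring
    · intro i _ hir
      show (if r = i then 1 - ε * (if cw a α i = 0 then 0 else 1) else 0) *
        PhS a (topS a α K ε) (tyB a α) i = 0
      rw [if_neg (Ne.symm hir), zero_mul]
    · intro h
      exact absurd (Finset.mem_filter.2 ⟨Finset.mem_univ r, hrR⟩) h
  have hlow : ∀ ε : ℚ, 0 < ε → ε < 1 →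
      (lbW a α m * ((-cw a α r : ℤ) : ℚ)) * ε ≤ q.eval ε := by
    intro ε h0 h1
    have h2 := lb_up a hg hc α hα hK0 m hm hm1 hP r hrR K hK2 (topS a α K ε)
      (top_Fr a hg α hα K ε h0.le h1.le) (fun _ => rfl) (fun _ => rfl) (fun _ => rfl)
    rw [hdfc] at h2
    have h3 : Val a α (topS a α K ε) = q.eval ε := by
      rw [← hq ε]
      rfl
    rw [h3] at h2
    linarith
  have h4 := kl6_limit q _ hq0 hlow
  rw [hq1] at h4
  have h5 : ∑ i, (fun i => if cw a α i = 0 then (0 : ℚ) else 1) i * (α i : ℚ) *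
      (-(cw a α i : ℤ) : ℚ) = ∑ i, (α i : ℚ) * (-(cw a α i : ℤ) : ℚ) := by
    apply Finset.sum_congr rfl
    intro i _
    by_cases hi : cw a α i = 0
    · simp [hi]
    · simp [hi]
  rw [h5] at h4
  refine le_trans ?_ h4
  have h6 : (1 : ℚ) ≤ ((-cw a α r : ℤ) : ℚ) := by exact_mod_cast hr
  have h7 := kl6_lbW_nonneg a α m
  nlinarith

end Pool.Agent.H27.KAC
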