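import Pool.Agent.H27.KAC.KG2
import Pool.Agent.H27.KAC.KL6

/-!
KAC module KG4: admissible multipartitions: sums, existence, comparison with `f`.

* `Adm_add`, `EW_add`: `PLF`, `mAt` are additive in `m`; `C(P+m,m) C(P'+m',m') ≤ C(P+P'+m+m', m+m')`
  (Vandermonde); the vacancy numbers are `≥ 0` for `1 ≤ l ≤ K` (`PLF_top`).
* `Adm_exists`: `m` = one part of size `K` at each vertex of `B` (loop-free, `s_i = 0`), the rest parts of size 1:
  by `PLF_eq`, `PLF l i = n s_i + ∑_{x ∈ B} C_{ix} (K - l)`: for `i ∈ B` it is `2 (K-l) ≥ 1`; for `i ∉ B` it is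
  `≥ n - ∑_x a_{xi} K ≥ 1` for large `n`.
* `PLF_le`: `PLF l i ≤ ∑_j a_ij β_j`.
* `EW_le_f`: `wt P m = C(P+m,m)/(P+m)` for `P ≥ 1`, and `C(0+m,m) = 1`; so `EW ≤ lbW * ∏ (P+m)`, each `P + m ≤ C n`;
  `lbW ≤ f * n^2 ∑ α_i s_i` by `lower_bound` for `n • α` (`Ample.nsmul`).
-/

namespace Pool.Agent.H27.KAC

open scoped BigOperators
open MvPowerSeries

variable {I : Type} [Fintype I] [DecidableEq I]

private theorem KG4_mem {K : ℕ} (β : I → ℕ) (m : Fin K → I → ℕ) :
    m ∈ Mset K β ↔ ∀ i, ∑ k : Fin K, ((k : ℕ) + 1) * m k i = β i := by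
  unfold Mset
  rw [Finset.mem_filter]
  constructor
  · exact fun h => h.2
  · intro h
    refine ⟨?_, h⟩
    rw [Fintype.mem_piFinset]
    intro k
    rw [Fintype.mem_piFinset]
    intro i
    rw [Finset.mem_range, Nat.lt_succ_iff, ← h i]
    calc m k i ≤ ((k : ℕ) + 1) * m k i := Nat.le_mul_of_pos_left _ (Nat.succ_pos _)
      _ ≤ _ := Finset.single_le_sum (f := fun k : Fin K => ((k : ℕ) + 1) * m k i)
          (fun _ _ => Nat.zero_le _) (Finset.mem_univ k)

private theorem KG4_mAt_add {K : ℕ} (m m' : Fin K → I → ℕ) (l : ℕ) (i : I) :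
    mAt (fun k i => m k i + m' k i) l i = mAt m l i + mAt m' l i := by
  unfold mAt
  split_ifs with h
  · rfl
  · rfl

private theorem KG4_PLF_add (a : I → I → ℕ) {K : ℕ} (m m' : Fin K → I → ℕ) (l : ℕ) (i : I) :
    PLF a (fun k i => m k i + m' k i) l i = PLF a m l i + PLF a m' l i := by
  unfold PLF
  rw [← Finset.sum_add_distrib]
  refine Finset.sum_congr rfl fun j _ => ?_
  rw [← Finset.sum_add_distrib]
  refine Finset.sum_congr rfl fun k _ => ?_
  push_cast
  ring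

theorem Adm_add (a : I → I → ℕ) {K : ℕ} (β β' : I →₀ ℕ) (m m' : Fin K → I → ℕ)
    (h : Adm a β m) (h' : Adm a β' m') : Adm a (β + β') (fun k i => m k i + m' k i) := by
  refine ⟨?_, ?_, ?_⟩
  · rw [KG4_mem]
    intro i
    have h1 := (KG4_mem _ _).mp h.1 i
    have h2 := (KG4_mem _ _).mp h'.1 i
    rw [Finsupp.add_apply, ← h1, ← h2, ← Finset.sum_add_distrib]
    exact Finset.sum_congr rfl fun k _ => by ring
  · intro i
    rw [KG4_mAt_add]
    exact (h.2.1 i).trans (Nat.le_add_right _ _)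
  · intro l h1 h2 i
    rw [KG4_PLF_add]
    have e1 := h.2.2 l h1 h2 i
    have e2 := h'.2.2 l h1 h2 i
    omega

private theorem KG4_choose (P m P' m' : ℕ) :
    (P + m).choose m * (P' + m').choose m' ≤ (P + P' + (m + m')).choose (m + m') := by
  have h1 : P + P' + (m + m') = (P + m) + (P' + m') := by ring
  rw [h1, Nat.add_choose_eq (P + m) (P' + m') (m + m')]
  exact Finset.single_le_sum (f := fun ij : ℕ × ℕ => (P + m).choose ij.1 * (P' + m').choose ij.2)
    (fun _ _ => Nat.zero_le _)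
    (Finset.HasAntidiagonal.mem_antidiagonal.mpr (rfl : (m, m').1 + (m, m').2 = m + m'))

private theorem KG4_PLF_nn (a : I → I → ℕ) {K : ℕ} (β : I →₀ ℕ) (m : Fin K → I → ℕ)
    (h : Adm a β m) (hβ : ∀ i, 0 ≤ -cw a β i) (l : ℕ) (hl : l ∈ Finset.Icc 1 K) (i : I) :
    0 ≤ PLF a m l i := by
  rw [Finset.mem_Icc] at hl
  rcases lt_or_ge l K with h1 | h1
  · have := h.2.2 l hl.1 h1 i
    omega
  · rw [PLF_top a β m h.1 l h1 i]
    exact hβ i

theorem EW_add (a : I → I → ℕ) {K : ℕ} (β β' : I →₀ ℕ) (m m' : Fin K → I → ℕ)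
    (h : Adm a β m) (h' : Adm a β' m') (hβ : ∀ i, 0 ≤ -cw a β i) (hβ' : ∀ i, 0 ≤ -cw a β' i) :
    EW a m * EW a m' ≤ EW a (fun k i => m k i + m' k i) := by
  unfold EW
  rw [← Finset.prod_mul_distrib]
  refine Finset.prod_le_prod' fun l hl => ?_
  rw [← Finset.prod_mul_distrib]
  refine Finset.prod_le_prod' fun i _ => ?_
  rw [KG4_PLF_add, KG4_mAt_add,
    Int.toNat_add (KG4_PLF_nn a β m h hβ l hl i) (KG4_PLF_nn a β' m' h' hβ' l hl i)]
  exact KG4_choose _ _ _ _

theorem EW_pos (a : I → I → ℕ) {K : ℕ} (m : Fin K → I → ℕ) : 1 ≤ EW a m := by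
  unfold EW
  refine Finset.one_le_prod' fun l _ => Finset.one_le_prod' fun i _ => ?_
  exact Nat.choose_pos (Nat.le_add_left _ _)

private theorem KG4_cw_nsmul (a : I → I → ℕ) (α : I →₀ ℕ) (n : ℕ) (i : I) :
    cw a (n • α) i = n * cw a α i := by
  unfold cw
  rw [Finset.mul_sum]
  refine Finset.sum_congr rfl fun j _ => ?_
  rw [Finsupp.smul_apply, smul_eq_mul]
  push_cast
  ring

private theorem KG4_cw_nn {a : I → I → ℕ} {α : I →₀ ℕ} (hα : Ample a α) (i : I) :
    0 ≤ -cw a α i := by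
  by_cases h : a i i = 0
  · exact hα.pos i h
  · exact (hα.posl i h).le

theorem Adm_exists (a : I → I → ℕ) (hg : GoodMat a) (α : I →₀ ℕ) (hα : Ample a α) (K : ℕ)
    (hK : 2 ≤ K) : ∃ N0 : ℕ, ∀ n : ℕ, N0 ≤ n → ∃ m : Fin K → I → ℕ, Adm a (n • α) m := by
  classical
  refine ⟨K + 1 + K * ∑ i, ∑ j, a i j, fun n hn => ?_⟩
  have hnK : K + 1 ≤ n := (Nat.le_add_right _ _).trans hn
  set B : I → Prop := fun i => a i i = 0 ∧ cw a α i = 0 with hB
  have hge : ∀ i, K + 1 ≤ n * α i := fun i =>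
    hnK.trans (Nat.le_mul_of_pos_right _ (hα.supp i))
  obtain ⟨K', rfl⟩ : ∃ K', K = K' + 2 := ⟨K - 2, by omega⟩
  set m : Fin (K' + 2) → I → ℕ := fun k i =>
    if (k : ℕ) = 0 then (if B i then n * α i - (K' + 2) else n * α i)
    else if (k : ℕ) = K' + 1 then (if B i then 1 else 0) else 0 with hm
  have hm0 : ∀ (k : Fin (K' + 2)) (i : I), (k : ℕ) = 0 →
      m k i = if B i then n * α i - (K' + 2) else n * α i := by
    intro k i hk
    simp only [hm]
    rw [if_pos hk]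
  have hmK : ∀ (k : Fin (K' + 2)) (i : I), (k : ℕ) = K' + 1 →
      m k i = if B i then 1 else 0 := by
    intro k i hk
    simp only [hm]
    rw [if_neg (by omega), if_pos hk]
  have hmo : ∀ (k : Fin (K' + 2)) (i : I), (k : ℕ) ≠ 0 → (k : ℕ) ≠ K' + 1 → m k i = 0 := by
    intro k i h1 h2
    simp only [hm]
    rw [if_neg h1, if_neg h2]
  have hlast : (((Fin.last K').succ : Fin (K' + 2)) : ℕ) = K' + 1 := by simp
  have hmid : ∀ k : Fin K', ((k.castSucc.succ : Fin (K' + 2)) : ℕ) = k + 1 := by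
    intro k
    simp
  have hmem : m ∈ Mset (K' + 2) (n • α : I →₀ ℕ) := by
    rw [KG4_mem]
    intro i
    rw [Finsupp.smul_apply, smul_eq_mul, Fin.sum_univ_succ, Fin.sum_univ_castSucc]
    have h1 : ∑ k : Fin K', (((k.castSucc.succ : Fin (K' + 2)) : ℕ) + 1) *
        m k.castSucc.succ i = 0 := by
      refine Finset.sum_eq_zero fun k _ => ?_
      have hk := k.2
      have e1 := hmid k
      rw [hmo _ _ (by omega) (by omega), mul_zero]
    rw [h1, zero_add, hm0 0 i (Fin.val_zero _), hmK _ i hlast, hlast, Fin.val_zero]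
    have h3 := hge i
    split_ifs with hb
    · omega
    · omega
  refine ⟨m, hmem, ?_, ?_⟩
  · intro i
    unfold mAt
    rw [dif_pos ⟨le_refl 1, by omega⟩]
    have h3 := hge i
    rw [hm0 _ i (by simp)]
    split_ifs with hb
    · omega
    · omega
  · intro l hl1 hlK i
    rw [PLF_eq a (n • α) m hmem l i]
    have hin : ∀ j, ∑ l' : Fin (K' + 2), (((l' : ℕ) + 1 - l : ℕ) : ℤ) * (m l' j : ℤ) =
        if B j then ((K' + 2 - l : ℕ) : ℤ) else 0 := by
      intro j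
      rw [Fin.sum_univ_succ, Fin.sum_univ_castSucc]
      have h1 : ∑ k : Fin K', (((((k.castSucc.succ : Fin (K' + 2)) : ℕ) + 1 - l : ℕ) : ℤ) *
          (m k.castSucc.succ j : ℤ)) = 0 := by
        refine Finset.sum_eq_zero fun k _ => ?_
        have hk := k.2
        have e1 := hmid k
        rw [hmo _ _ (by omega) (by omega), Nat.cast_zero, mul_zero]
      have h3 : ((((0 : Fin (K' + 2)) : ℕ) + 1 - l : ℕ) : ℤ) = 0 := by
        rw [Fin.val_zero]
        have : 0 + 1 - l = 0 := by omega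
        rw [this, Nat.cast_zero]
      rw [h1, h3, zero_mul, zero_add, zero_add, hmK _ j hlast, hlast]
      have h4 : K' + 1 + 1 - l = K' + 2 - l := by omega
      rw [h4]
      split_ifs <;> simp
    simp only [hin]
    rw [KG4_cw_nsmul]
    set D : ℤ := ((K' + 2 - l : ℕ) : ℤ) with hD
    have hD1 : 1 ≤ D := by
      rw [hD]
      have : 1 ≤ K' + 2 - l := by omega
      exact_mod_cast this
    have hD2 : D ≤ (K' + 2 : ℤ) := by
      rw [hD]
      have : K' + 2 - l ≤ K' + 2 := Nat.sub_le _ _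
      exact_mod_cast this
    by_cases hi : B i
    · have h1 : ∑ j, cart a i j * (if B j then D else 0) = 2 * D := by
        rw [Finset.sum_eq_single i]
        · rw [if_pos hi]
          unfold cart
          rw [if_pos rfl, hi.1]
          simp
        · intro j _ hj
          split_ifs with hb
          · have h2 := hα.nonadj i j (Ne.symm hj) hi.1 hb.1 hi.2 hb.2
            unfold cart
            rw [if_neg (Ne.symm hj), h2]
            simp
          · rw [mul_zero]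
        · intro h
          exact absurd (Finset.mem_univ i) h
      rw [h1, hi.2]
      omega
    · have hs1 : 1 ≤ -cw a α i := by
        by_cases h : a i i = 0
        · have h1 := hα.pos i h
          have h2 : cw a α i ≠ 0 := fun h3 => hi ⟨h, h3⟩
          omega
        · have := hα.posl i h
          omega
      have h1 : -((K' + 2 : ℤ) * ∑ j, (a i j : ℤ)) ≤ ∑ j, cart a i j * (if B j then D else 0) := by
        rw [Finset.mul_sum, ← Finset.sum_neg_distrib]
        refine Finset.sum_le_sum fun j _ => ?_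
        have ha0 : (0 : ℤ) ≤ (a i j : ℤ) := Int.natCast_nonneg _
        split_ifs with hb
        · have hij : i ≠ j := fun h => hi (h ▸ hb)
          unfold cart
          rw [if_neg hij]
          nlinarith only [hD2]
        · rw [mul_zero, neg_nonpos]
          positivity
      have h2 : (∑ j, (a i j : ℤ)) ≤ ∑ i, ∑ j, (a i j : ℤ) :=
        Finset.single_le_sum (f := fun i => ∑ j, (a i j : ℤ))
          (fun i _ => Finset.sum_nonneg fun j _ => Int.natCast_nonneg _) (Finset.mem_univ i)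
      have h3 : ((K' + 2 + 1 + (K' + 2) * ∑ i, ∑ j, a i j : ℕ) : ℤ) ≤ (n : ℤ) := by
        exact_mod_cast hn
      push_cast at h3
      have h4 : (n : ℤ) * 1 ≤ (n : ℤ) * (-cw a α i) :=
        mul_le_mul_of_nonneg_left hs1 (Int.natCast_nonneg _)
      have h5 : ((K' : ℤ) + 2) * ∑ j, (a i j : ℤ) ≤ ((K' : ℤ) + 2) * ∑ i, ∑ j, (a i j : ℤ) :=
        mul_le_mul_of_nonneg_left h2 (by positivity)
      have h6 : -((n : ℤ) * cw a α i) = (n : ℤ) * (-cw a α i) := by ring
      rw [h6]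
      have hK0 : (0 : ℤ) ≤ (K' : ℤ) := Int.natCast_nonneg _
      linarith

theorem PLF_le (a : I → I → ℕ) {K : ℕ} (β : I →₀ ℕ) (m : Fin K → I → ℕ) (hm : m ∈ Mset K β)
    (l : ℕ) (i : I) : PLF a m l i ≤ ∑ j, (a i j : ℤ) * (β j : ℤ) := by
  unfold PLF
  refine Finset.sum_le_sum fun j _ => ?_
  have h1 := (KG4_mem _ _).mp hm j
  rw [← h1]
  push_cast
  rw [Finset.mul_sum]
  refine Finset.sum_le_sum fun k _ => ?_
  have hmin0 : (0 : ℤ) ≤ min (l : ℤ) ((k : ℕ) + 1 : ℤ) := le_min (by positivity) (by positivity)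
  have hmin1 : min (l : ℤ) ((k : ℕ) + 1 : ℤ) ≤ ((k : ℕ) + 1 : ℤ) := min_le_right _ _
  have hc : -cart a i j ≤ (a i j : ℤ) := by
    unfold cart
    split_ifs <;> omega
  have hm0 : (0 : ℤ) ≤ (m k j : ℤ) := Int.natCast_nonneg _
  have ha0 : (0 : ℤ) ≤ (a i j : ℤ) := Int.natCast_nonneg _
  calc min (l : ℤ) ((k : ℕ) + 1 : ℤ) * -cart a i j * (m k j : ℤ)
      ≤ min (l : ℤ) ((k : ℕ) + 1 : ℤ) * (a i j : ℤ) * (m k j : ℤ) :=
        mul_le_mul_of_nonneg_right (mul_le_mul_of_nonneg_left hc hmin0) hm0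
    _ ≤ ((k : ℕ) + 1 : ℤ) * (a i j : ℤ) * (m k j : ℤ) :=
        mul_le_mul_of_nonneg_right (mul_le_mul_of_nonneg_right hmin1 ha0) hm0
    _ = (a i j : ℤ) * (((k : ℕ) + 1 : ℤ) * (m k j : ℤ)) := by ring

private theorem KG4_mAt_le {K : ℕ} (β : I →₀ ℕ) (m : Fin K → I → ℕ) (hm : m ∈ Mset K β)
    (l : ℕ) (i : I) : mAt m l i ≤ β i := by
  unfold mAt
  split_ifs with h
  · rw [← (KG4_mem _ _).mp hm i]
    calc m ⟨l - 1, by omega⟩ i ≤ ((⟨l - 1, by omega⟩ : Fin K) + 1 : ℕ) * m ⟨l - 1, by omega⟩ i :=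
          Nat.le_mul_of_pos_left _ (Nat.succ_pos _)
      _ ≤ _ := Finset.single_le_sum (f := fun k : Fin K => ((k : ℕ) + 1) * m k i)
          (fun _ _ => Nat.zero_le _) (Finset.mem_univ _)
  · exact Nat.zero_le _

private theorem KG4_wt (P m : ℕ) (hP : 1 ≤ P) :
    (((P + m).choose m : ℕ) : ℚ) = ((P + m : ℕ) : ℚ) * wt P m := by
  unfold wt
  have h2 : ((P + m).choose m : ℚ) = ((P + m).factorial : ℚ) / ((P.factorial : ℚ) * (m.factorial : ℚ)) := by
    rw [Nat.cast_choose ℚ (Nat.le_add_left m P), Nat.add_sub_cancel, mul_comm (m.factorial : ℚ)]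
  rw [h2]
  obtain ⟨q, hq⟩ : ∃ q, P + m = q + 1 := ⟨P + m - 1, by omega⟩
  rw [hq, Nat.factorial_succ, Nat.add_sub_cancel]
  push_cast
  ring

theorem EW_le_f (a : I → I → ℕ) (hg : GoodMat a) (hc : Conn a) (hne : Nonempty I)
    (f : (I → ℕ) → ℚ) (hK : KacData a f) (α : I →₀ ℕ) (hα : Ample a α) (K : ℕ) (hK2 : 2 ≤ K) :
    ∃ C : ℕ, 1 ≤ C ∧ ∀ n : ℕ, 1 ≤ n → ∀ m : Fin K → I → ℕ, Adm a (n • α) m →
      (EW a m : ℝ) ≤ ((C : ℝ) * n) ^ C * ((f (n • α) : ℚ) : ℝ) := by
  classical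
  obtain ⟨K1, rfl⟩ : ∃ K1, K = K1 + 1 := ⟨K - 1, by omega⟩
  have hs0 : ∀ i, 0 ≤ -cw a α i := KG4_cw_nn hα
  set S : ℕ := (∑ i, (α i : ℤ) * (-cw a α i)).toNat with hS
  have hS0 : 0 ≤ ∑ i, (α i : ℤ) * (-cw a α i) :=
    Finset.sum_nonneg fun i _ => mul_nonneg (Int.natCast_nonneg _) (hs0 i)
  have hSZ : ((S : ℕ) : ℤ) = ∑ i, (α i : ℤ) * (-cw a α i) := Int.toNat_of_nonneg hS0
  set C0 : ℕ := ∑ i, ∑ j, a i j * α j + ∑ i, α i + 1 with hC0
  set E : ℕ := (K1 + 1) * Fintype.card I with hE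
  refine ⟨C0 + S + E + 2, by omega, fun n hn m h => ?_⟩
  set C : ℕ := C0 + S + E + 2 with hC
  have hAβ : Ample a (n • α) := hα.nsmul n hn
  have hsβ : ∀ i, 0 ≤ -cw a (n • α) i := KG4_cw_nn hAβ
  have hn0 : (0 : ℚ) < (n : ℚ) := by exact_mod_cast hn
  have hwt : ∀ P m : ℕ, 0 < wt P m := fun P m => by
    unfold wt
    positivity
  -- bound for `P + m`
  have hA : ∀ l i, (PLF a m l i).toNat + mAt m l i ≤ C0 * n := by
    intro l i
    have h1 := PLF_le a (n • α) m h.1 l i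
    have h2 := KG4_mAt_le (n • α) m h.1 l i
    have h3 : ∑ j, (a i j : ℤ) * (((n • α : I →₀ ℕ) j : ℕ) : ℤ) =
        ((n * ∑ j, a i j * α j : ℕ) : ℤ) := by
      simp only [Finsupp.smul_apply, smul_eq_mul]
      push_cast
      rw [Finset.mul_sum]
      refine Finset.sum_congr rfl fun j _ => ?_
      ring
    rw [h3] at h1
    have h4 : (PLF a m l i).toNat ≤ n * ∑ j, a i j * α j := by
      rw [Int.toNat_le]
      exact h1
    have h5 : ∑ j, a i j * α j ≤ ∑ i, ∑ j, a i j * α j :=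
      Finset.single_le_sum (f := fun i => ∑ j, a i j * α j) (fun _ _ => Nat.zero_le _)
        (Finset.mem_univ i)
    have h6 : α i ≤ ∑ i, α i :=
      Finset.single_le_sum (f := fun i => α i) (fun _ _ => Nat.zero_le _) (Finset.mem_univ i)
    rw [Finsupp.smul_apply, smul_eq_mul] at h2
    calc (PLF a m l i).toNat + mAt m l i ≤ n * ∑ j, a i j * α j + n * α i := add_le_add h4 h2
      _ ≤ n * (∑ i, ∑ j, a i j * α j) + n * ∑ i, α i :=
          add_le_add (Nat.mul_le_mul_left _ h5) (Nat.mul_le_mul_left _ h6)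
      _ ≤ C0 * n := by
          rw [hC0]
          nlinarith only []
  have hAQ : ∀ l i, (((PLF a m l i).toNat + mAt m l i : ℕ) : ℚ) ≤ (C0 : ℚ) * n := by
    intro l i
    exact_mod_cast hA l i
  have hCn1 : (1 : ℚ) ≤ (C0 : ℚ) * n := by
    have h1 : 1 ≤ C0 * n := Nat.one_le_iff_ne_zero.mpr (by
      apply Nat.mul_ne_zero
      · omega
      · omega)
    exact_mod_cast h1
  have hPK : ∀ i, PLF a m (K1 + 1) i = -cw a (n • α) i := fun i =>
    PLF_top a (n • α) m h.1 (K1 + 1) le_rfl i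
  -- the product formula
  have hB1 : ∀ l ∈ Finset.Icc 1 K1, ∀ i : I,
      ((((PLF a m l i).toNat + mAt m l i).choose (mAt m l i) : ℕ) : ℚ) ≤
        ((C0 : ℚ) * n) * wt (PLF a m l i).toNat (mAt m l i) := by
    intro l hl i
    rw [Finset.mem_Icc] at hl
    have h1 := h.2.2 l hl.1 (by omega) i
    have h2 : 1 ≤ (PLF a m l i).toNat := by omega
    rw [KG4_wt _ _ h2]
    exact mul_le_mul_of_nonneg_right (hAQ l i) (hwt _ _).le
  have hB2 : ∀ i : I,
      ((((PLF a m (K1 + 1) i).toNat + mAt m (K1 + 1) i).choose (mAt m (K1 + 1) i) : ℕ) : ℚ) ≤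
        ((C0 : ℚ) * n) * (if tyB a (n • α) i = Ty.R then
          wt (-cw a (n • α) i).toNat (mAt m (K1 + 1) i) else 1) := by
    intro i
    by_cases hi : a i i = 0 ∧ cw a (n • α) i = 0
    · have h1 : tyB a (n • α) i = Ty.D := by
        unfold tyB
        rw [if_pos hi]
      rw [h1, if_neg (by decide), mul_one, hPK i, hi.2]
      simp only [neg_zero, Int.toNat_zero, zero_add, Nat.choose_self, Nat.cast_one]
      exact hCn1
    · have h1 : tyB a (n • α) i = Ty.R := by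
        unfold tyB
        rw [if_neg hi]
      rw [if_pos h1, ← hPK i]
      have h2 : 1 ≤ (PLF a m (K1 + 1) i).toNat := by
        rw [hPK i]
        have h3 := hsβ i
        by_cases h4 : a i i = 0
        · have h5 : cw a (n • α) i ≠ 0 := fun h6 => hi ⟨h4, h6⟩
          omega
        · have h5 := hAβ.posl i h4
          omega
      rw [KG4_wt _ _ h2]
      exact mul_le_mul_of_nonneg_right (hAQ _ i) (hwt _ _).le
  have hlb0 : 0 < lbW a (n • α) m := by
    unfold lbW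
    refine mul_pos ?_ ?_
    · exact Finset.prod_pos fun l _ => Finset.prod_pos fun i _ => hwt _ _
    · exact Finset.prod_pos fun i _ => hwt _ _
  have hEW : ((EW a m : ℕ) : ℚ) ≤ ((C0 : ℚ) * n) ^ E * lbW a (n • α) m := by
    unfold EW lbW
    rw [Finset.prod_Icc_succ_top (by omega)]
    push_cast
    have e1 : ∏ l ∈ Finset.Icc 1 K1, ∏ i,
        ((((PLF a m l i).toNat + mAt m l i).choose (mAt m l i) : ℕ) : ℚ) ≤
        ∏ l ∈ Finset.Icc 1 K1, ∏ i, (((C0 : ℚ) * n) * wt (PLF a m l i).toNat (mAt m l i)) :=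
      Finset.prod_le_prod (fun l _ => Finset.prod_nonneg fun i _ => Nat.cast_nonneg _)
        fun l hl => Finset.prod_le_prod (fun i _ => Nat.cast_nonneg _) fun i _ => hB1 l hl i
    have e2 : ∏ i,
        ((((PLF a m (K1 + 1) i).toNat + mAt m (K1 + 1) i).choose (mAt m (K1 + 1) i) : ℕ) : ℚ) ≤
        ∏ i, (((C0 : ℚ) * n) * (if tyB a (n • α) i = Ty.R then
          wt (-cw a (n • α) i).toNat (mAt m (K1 + 1) i) else 1)) :=
      Finset.prod_le_prod (fun i _ => Nat.cast_nonneg _) fun i _ => hB2 i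
    have e3 : ∏ l ∈ Finset.Icc 1 K1, ∏ i, (((C0 : ℚ) * n) * wt (PLF a m l i).toNat (mAt m l i)) =
        ((C0 : ℚ) * n) ^ (K1 * Fintype.card I) *
          ∏ l ∈ Finset.Icc 1 K1, ∏ i, wt (PLF a m l i).toNat (mAt m l i) := by
      have e4 : ∀ l, ∏ i : I, (((C0 : ℚ) * n) * wt (PLF a m l i).toNat (mAt m l i)) =
          ((C0 : ℚ) * n) ^ (Fintype.card I) * ∏ i, wt (PLF a m l i).toNat (mAt m l i) := by
        intro l
        rw [Finset.prod_mul_distrib, Finset.prod_const, Finset.card_univ]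
      simp only [e4]
      rw [Finset.prod_mul_distrib, Finset.prod_const, Nat.card_Icc, ← pow_mul]
      congr 2
      rw [Nat.add_sub_cancel, mul_comm]
    have e5 : ∏ i : I, (((C0 : ℚ) * n) * (if tyB a (n • α) i = Ty.R then
          wt (-cw a (n • α) i).toNat (mAt m (K1 + 1) i) else 1)) =
        ((C0 : ℚ) * n) ^ (Fintype.card I) *
          ∏ i ∈ Finset.univ.filter (fun i => tyB a (n • α) i = Ty.R),
            wt (-cw a (n • α) i).toNat (mAt m (K1 + 1) i) := by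
      rw [Finset.prod_mul_distrib, Finset.prod_const, Finset.card_univ, Finset.prod_filter]
    rw [e3] at e1
    rw [e5] at e2
    refine (mul_le_mul e1 e2 (Finset.prod_nonneg fun i _ => Nat.cast_nonneg _) ?_).trans
      (le_of_eq ?_)
    · refine mul_nonneg (by positivity) ?_
      exact Finset.prod_nonneg fun l _ => Finset.prod_nonneg fun i _ => (hwt _ _).le
    · rw [hE, add_mul, one_mul, pow_add]
      ring
  have hlow := lower_bound a hg hc hne f hK (n • α) hAβ hK2 m h.1 h.2.1 h.2.2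
  have hsum : ∑ i, (((n • α) i : ℕ) : ℚ) * (-(cw a (n • α) i : ℤ) : ℚ) = (n : ℚ) ^ 2 * S := by
    have h1 : (S : ℚ) = ∑ i, (α i : ℚ) * (-(cw a α i : ℤ) : ℚ) := by
      have h2 : ((S : ℤ) : ℚ) = ((∑ i, (α i : ℤ) * (-cw a α i) : ℤ) : ℚ) := by rw [hSZ]
      push_cast at h2
      exact h2
    rw [h1, Finset.mul_sum]
    refine Finset.sum_congr rfl fun i _ => ?_
    rw [KG4_cw_nsmul, Finsupp.smul_apply, smul_eq_mul]
    push_cast
    ring
  rw [hsum] at hlow
  have hf : 0 < f (n • α) := by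
    have h1 : 0 < f ((n • α : I →₀ ℕ) : I → ℕ) * ((n : ℚ) ^ 2 * S) := hlb0.trans_le hlow
    by_contra hneg
    have h2 : f ((n • α : I →₀ ℕ) : I → ℕ) * ((n : ℚ) ^ 2 * S) ≤ 0 :=
      mul_nonpos_of_nonpos_of_nonneg (not_lt.mp hneg) (by positivity)
    exact absurd h1 (not_lt.mpr h2)
  have hfin : ((EW a m : ℕ) : ℚ) ≤ ((C : ℚ) * n) ^ C * f (n • α) := by
    have hC0C : (C0 : ℚ) ≤ C := by
      rw [hC]
      push_cast
      have : (0 : ℚ) ≤ (S : ℚ) + E := by positivity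
      linarith only []
    have hSC : (S : ℚ) ≤ C := by
      rw [hC]
      push_cast
      have : (0 : ℚ) ≤ (C0 : ℚ) + E := by positivity
      linarith only []
    have hC1 : (1 : ℚ) ≤ C := by
      have : 1 ≤ C := by omega
      exact_mod_cast this
    have hn1 : (1 : ℚ) ≤ n := by exact_mod_cast hn
    have g1 : ((C0 : ℚ) * n) ^ E ≤ ((C : ℚ) * n) ^ E :=
      pow_le_pow_left₀ (by positivity) (mul_le_mul_of_nonneg_right hC0C hn0.le) _
    have g2 : (n : ℚ) ^ 2 * S ≤ ((C : ℚ) * n) ^ 2 := by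
      have : (S : ℚ) ≤ (C : ℚ) ^ 2 := by nlinarith only [hSC, hC1]
      calc (n : ℚ) ^ 2 * S ≤ (n : ℚ) ^ 2 * (C : ℚ) ^ 2 := mul_le_mul_of_nonneg_left this (by positivity)
        _ = _ := by ring
    have g3 : ((C : ℚ) * n) ^ (E + 2) ≤ ((C : ℚ) * n) ^ C :=
      pow_le_pow_right₀ (by nlinarith only [hCn1, hC0C]) (by omega)
    calc ((EW a m : ℕ) : ℚ) ≤ ((C0 : ℚ) * n) ^ E * lbW a (n • α) m := hEW
      _ ≤ ((C0 : ℚ) * n) ^ E * (f (n • α) * ((n : ℚ) ^ 2 * S)) :=
          mul_le_mul_of_nonneg_left hlow (by positivity)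
      _ = (((C0 : ℚ) * n) ^ E * ((n : ℚ) ^ 2 * S)) * f (n • α) := by ring
      _ ≤ (((C : ℚ) * n) ^ E * ((C : ℚ) * n) ^ 2) * f (n • α) :=
          mul_le_mul_of_nonneg_right
            (mul_le_mul g1 g2 (by positivity) (by positivity)) hf.le
      _ = ((C : ℚ) * n) ^ (E + 2) * f (n • α) := by rw [pow_add]
      _ ≤ _ := mul_le_mul_of_nonneg_right g3 hf.le
  exact_mod_cast hfin

end Pool.Agent.H27.KAC
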