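import Pool.Agent.H27.KAC.KJ2
import Pool.Agent.H27.KAC.KQDer

/-!
KAC module KJ3: the Q-system under the substitution.

`T` is a solution of the Q-system with constant coefficients 1, `tU T hT i k` the corresponding units,
`wT i = ∏_j T_{j1}^(-C_{ij})`, `φ` the substitution.  Then
* `sub_U`: `φ (U_{ik}) = T_{ik} T_{i1}^(-k)`.  Induction on `k` (two steps): `φ` of the recursion of `U` and the
  recursion of `T`: `Y_i^k ∏_j U_{jk}^(a_ij) ↦ X_i^k T_{i1}^(-2k) ∏_j T_{jk}^(a_ij)`.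
* `jacM_wT`: `jacM wT = 1 - C Λ`, `Λ_{lj} = θ_j log T_{l1}`  (`eul_units_prod`, `eul_units_zpow`).
* `sub_xv`: the matrix `(φ (x_{ik})_l)_{il}` times `(1 - Λ C)` is `k - Λ^{(k)} C`:
  `D_l = - ∑_j C_{lj} θ_j`, so `φ (x_{ik}(l)) = k δ_{il} - ∑_j Φ_{ij} C_{jl}`, `Φ_{ij} = φ (θ_j U_{ik}) φ(U_{ik})^(-1)`;
  chain rule: `Φ (1 - C Λ) = Λ^{(k)} - k Λ^{(1)}`; multiply by `C`.
-/

namespace Pool.Agent.H27.KAC

open scoped BigOperators
open MvPowerSeries

variable {I : Type} [Fintype I] [DecidableEq I]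

/-- `T i k` as a unit. -/
noncomputable def tU (T : I → ℕ → MvPowerSeries I ℚ)
    (hT : ∀ i k, constantCoeff (T i k) = 1) (i : I) (k : ℕ) : (MvPowerSeries I ℚ)ˣ :=
  (show IsUnit (T i k) by
    rw [MvPowerSeries.isUnit_iff_constantCoeff, hT]; exact isUnit_one).unit

/-- `w_i = ∏_j T_{j1}^(-C_{ij})`. -/
noncomputable def wT (a : I → I → ℕ) (T : I → ℕ → MvPowerSeries I ℚ)
    (hT : ∀ i k, constantCoeff (T i k) = 1) (i : I) : (MvPowerSeries I ℚ)ˣ :=
  ∏ j, (tU T hT j 1) ^ (-(cart a i j))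

/-- `Λ^{(k)}_{ij} = θ_j log T_{ik}`. -/
noncomputable def lamT (T : I → ℕ → MvPowerSeries I ℚ)
    (hT : ∀ i k, constantCoeff (T i k) = 1) (k : ℕ) : Matrix I I (MvPowerSeries I ℚ) :=
  Matrix.of (fun i j => eul j (T i k) *
    (((tU T hT i k)⁻¹ : (MvPowerSeries I ℚ)ˣ) : MvPowerSeries I ℚ))

/-- the Cartan matrix over the power series ring. -/
noncomputable def carM (a : I → I → ℕ) : Matrix I I (MvPowerSeries I ℚ) :=
  Matrix.of (fun i j => C ((cart a i j : ℤ) : ℚ))

theorem dD_eq_eul (a : I → I → ℕ) (l : I) (F : MvPowerSeries I ℚ) :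
    dD a l F = -∑ j, C ((cart a l j : ℤ) : ℚ) * eul j F := by
  ext β
  rw [coeff_dD, map_neg, map_sum]
  simp_rw [MvPowerSeries.coeff_C_mul, coeff_eul]
  unfold cw
  push_cast
  rw [neg_mul, Finset.sum_mul]
  congr 1
  refine Finset.sum_congr rfl ?_
  intro j _
  ring

private theorem KJ3_wT_pow (a : I → I → ℕ) (T : I → ℕ → MvPowerSeries I ℚ)
    (hT : ∀ i k, constantCoeff (T i k) = 1) (i : I) (n : ℕ) :
    (wT a T hT i) ^ n * ∏ j, ((tU T hT j 1) ^ (-(n : ℤ))) ^ (a i j) =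
      (tU T hT i 1) ^ (-(2 * (n : ℤ))) := by
  have h1 : wT a T hT i = (tU T hT i 1) ^ (-(2 : ℤ)) * ∏ j, (tU T hT j 1) ^ (a i j) := by
    unfold wT
    have h2 : ∀ j, (tU T hT j 1) ^ (-(cart a i j)) =
        (tU T hT j 1) ^ (-(if i = j then (2 : ℤ) else 0)) * (tU T hT j 1) ^ (a i j) := by
      intro j
      rw [← zpow_natCast (tU T hT j 1) (a i j), ← zpow_add]
      congr 1
      unfold cart
      ring
    simp_rw [h2]
    rw [Finset.prod_mul_distrib]
    congr 1
    rw [Finset.prod_eq_single i]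
    · simp
    · intro j _ hj
      simp [Ne.symm hj]
    · intro hi
      exact absurd (Finset.mem_univ i) hi
  rw [h1, mul_pow, ← Finset.prod_pow, mul_assoc, ← Finset.prod_mul_distrib]
  have h3 : ∏ j, ((tU T hT j 1 ^ (a i j)) ^ n * ((tU T hT j 1) ^ (-(n : ℤ))) ^ (a i j)) = 1 := by
    refine Finset.prod_eq_one ?_
    intro j _
    rw [← pow_mul, mul_comm (a i j) n, pow_mul, ← mul_pow, zpow_neg, zpow_natCast,
      mul_inv_cancel, one_pow]
  rw [h3, mul_one, ← zpow_natCast, ← zpow_mul]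
  congr 1

theorem sub_U (a : I → I → ℕ) (T : I → ℕ → MvPowerSeries I ℚ) (hT0 : ∀ i, T i 0 = 1)
    (hT : ∀ i k, constantCoeff (T i k) = 1)
    (hrec : ∀ i k, (T i (k + 1)) ^ 2 = T i k * T i (k + 2) +
      (X i) ^ (k + 1) * ∏ j, (T j (k + 1)) ^ (a i j))
    (φ : MvPowerSeries I ℚ →+* MvPowerSeries I ℚ) (h : IsSub (wT a T hT) φ) (i : I) (k : ℕ) :
    φ (uS a i k) = ((tU T hT i k * (tU T hT i 1) ^ (-(k : ℤ)) : (MvPowerSeries I ℚ)ˣ) :
      MvPowerSeries I ℚ) := by
  have key : ∀ k : ℕ, (∀ i, φ (uS a i k) =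
      ((tU T hT i k * (tU T hT i 1) ^ (-(k : ℤ)) : (MvPowerSeries I ℚ)ˣ) :
        MvPowerSeries I ℚ)) ∧ (∀ i, φ (uS a i (k + 1)) =
      ((tU T hT i (k + 1) * (tU T hT i 1) ^ (-((k + 1 : ℕ) : ℤ)) : (MvPowerSeries I ℚ)ˣ) :
        MvPowerSeries I ℚ)) := by
    intro k
    induction k with
    | zero =>
      refine ⟨fun i => ?_, fun i => ?_⟩
      · have h0 : tU T hT i 0 = 1 := Units.ext (hT0 i)
        rw [uS_zero, map_one, h0]
        simp
      · rw [uS_one, map_one]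
        simp
    | succ k ih =>
      refine ⟨ih.2, fun i => ?_⟩
      have h1 := congrArg φ (uS_rec a i k)
      rw [map_mul, map_sub, map_pow, map_mul, map_pow, map_prod, h.map_X] at h1
      simp_rw [map_pow] at h1
      rw [ih.1 i] at h1
      simp_rw [ih.2] at h1
      have h2 := KJ3_wT_pow a T hT i (k + 1)
      have h3 := congrArg (fun u : (MvPowerSeries I ℚ)ˣ => (u : MvPowerSeries I ℚ)) h2
      simp only [Units.val_mul, Units.val_pow_eq_pow_val, Units.coe_prod] at h3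
      have h4 : (X i * (wT a T hT i : MvPowerSeries I ℚ)) ^ (k + 1) *
          ∏ j, ((tU T hT j (k + 1) * (tU T hT j 1) ^ (-((k + 1 : ℕ) : ℤ)) :
            (MvPowerSeries I ℚ)ˣ) : MvPowerSeries I ℚ) ^ (a i j) =
          (((tU T hT i 1) ^ (-(2 * ((k + 1 : ℕ) : ℤ))) : (MvPowerSeries I ℚ)ˣ) :
            MvPowerSeries I ℚ) * ((X i) ^ (k + 1) * ∏ j, (T j (k + 1)) ^ (a i j)) := by
        rw [← h3]
        have h5 : ∏ j, ((tU T hT j (k + 1) * (tU T hT j 1) ^ (-((k + 1 : ℕ) : ℤ)) :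
            (MvPowerSeries I ℚ)ˣ) : MvPowerSeries I ℚ) ^ (a i j) =
            (∏ j, (T j (k + 1)) ^ (a i j)) *
              ∏ j, (((tU T hT j 1) ^ (-((k + 1 : ℕ) : ℤ)) : (MvPowerSeries I ℚ)ˣ) :
                MvPowerSeries I ℚ) ^ (a i j) := by
          rw [← Finset.prod_mul_distrib]
          refine Finset.prod_congr rfl ?_
          intro j _
          rw [Units.val_mul, mul_pow]
          rfl
        rw [h5, mul_pow]
        ring
      rw [h4] at h1
      have h6 : ((tU T hT i (k + 1) * (tU T hT i 1) ^ (-((k + 1 : ℕ) : ℤ)) :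
            (MvPowerSeries I ℚ)ˣ) : MvPowerSeries I ℚ) ^ 2 =
          (((tU T hT i 1) ^ (-(2 * ((k + 1 : ℕ) : ℤ))) : (MvPowerSeries I ℚ)ˣ) :
            MvPowerSeries I ℚ) * (T i (k + 1)) ^ 2 := by
        have h7 : (tU T hT i (k + 1) * (tU T hT i 1) ^ (-((k + 1 : ℕ) : ℤ))) ^ 2 =
            (tU T hT i 1) ^ (-(2 * ((k + 1 : ℕ) : ℤ))) * (tU T hT i (k + 1)) ^ 2 := by
          rw [mul_pow, mul_comm, ← zpow_natCast ((tU T hT i 1) ^ (-((k + 1 : ℕ) : ℤ))) 2,
            ← zpow_mul]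
          congr 2
          push_cast
          ring
        have h8 := congrArg (fun u : (MvPowerSeries I ℚ)ˣ => (u : MvPowerSeries I ℚ)) h7
        simp only [Units.val_mul, Units.val_pow_eq_pow_val] at h8
        rw [Units.val_mul]
        exact h8
      rw [h6, ← mul_sub, hrec i k, add_sub_cancel_right] at h1
      have h9 : (((tU T hT i 1) ^ (-(2 * ((k + 1 : ℕ) : ℤ))) : (MvPowerSeries I ℚ)ˣ) :
            MvPowerSeries I ℚ) * (T i k * T i (k + 2)) =
          ((tU T hT i (k + 2) * (tU T hT i 1) ^ (-((k + 2 : ℕ) : ℤ)) :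
            (MvPowerSeries I ℚ)ˣ) : MvPowerSeries I ℚ) *
          ((tU T hT i k * (tU T hT i 1) ^ (-(k : ℤ)) : (MvPowerSeries I ℚ)ˣ) :
            MvPowerSeries I ℚ) := by
        have h10 : (tU T hT i 1) ^ (-(2 * ((k + 1 : ℕ) : ℤ))) *
            (tU T hT i k * tU T hT i (k + 2)) =
            (tU T hT i (k + 2) * (tU T hT i 1) ^ (-((k + 2 : ℕ) : ℤ))) *
              (tU T hT i k * (tU T hT i 1) ^ (-(k : ℤ))) := by
          have h11 : (tU T hT i 1) ^ (-(2 * ((k + 1 : ℕ) : ℤ))) =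
              (tU T hT i 1) ^ (-((k + 2 : ℕ) : ℤ)) * (tU T hT i 1) ^ (-(k : ℤ)) := by
            rw [← zpow_add]
            congr 1
            push_cast
            ring
          rw [h11]
          simp only [mul_comm, mul_left_comm, mul_assoc]
        have h12 := congrArg (fun u : (MvPowerSeries I ℚ)ˣ => (u : MvPowerSeries I ℚ)) h10
        simp only [Units.val_mul] at h12
        rw [Units.val_mul, Units.val_mul]
        exact h12
      rw [h9] at h1
      exact (Units.mul_left_inj _).mp h1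
  exact (key k).1 i

theorem jacM_wT (a : I → I → ℕ) (T : I → ℕ → MvPowerSeries I ℚ)
    (hT : ∀ i k, constantCoeff (T i k) = 1) :
    jacM (wT a T hT) = 1 - carM a * lamT T hT 1 := by
  refine Matrix.ext fun i j => ?_
  unfold jacM
  rw [Matrix.of_apply, Matrix.sub_apply, Matrix.mul_apply, Matrix.one_apply]
  unfold wT
  rw [eul_units_prod, sub_eq_add_neg, ← Finset.sum_neg_distrib]
  congr 1
  refine Finset.sum_congr rfl ?_
  intro l _
  rw [eul_units_zpow]
  unfold carM lamT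
  rw [Matrix.of_apply, Matrix.of_apply]
  have h1 : ((-(cart a i l) : ℤ) : MvPowerSeries I ℚ) =
      - (C ((cart a i l : ℤ) : ℚ) : MvPowerSeries I ℚ) := by
    rw [Int.cast_neg, map_intCast]
  rw [h1, neg_mul]
  rfl

theorem sub_xv (a : I → I → ℕ) (hs : ∀ i j, a i j = a j i) (T : I → ℕ → MvPowerSeries I ℚ)
    (hT0 : ∀ i, T i 0 = 1) (hT : ∀ i k, constantCoeff (T i k) = 1)
    (hrec : ∀ i k, (T i (k + 1)) ^ 2 = T i k * T i (k + 2) +
      (X i) ^ (k + 1) * ∏ j, (T j (k + 1)) ^ (a i j))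
    (φ : MvPowerSeries I ℚ →+* MvPowerSeries I ℚ) (h : IsSub (wT a T hT) φ) (k : ℕ) :
    (Matrix.of (fun i l => φ (xv a i k l))) * (1 - lamT T hT 1 * carM a) =
      (k : Matrix I I (MvPowerSeries I ℚ)) - lamT T hT k * carM a := by
  have hsC : ∀ i j, cart a i j = cart a j i := by
    intro i j
    unfold cart
    rw [hs i j]
    by_cases hij : i = j
    · subst hij; rfl
    · simp [hij, Ne.symm hij]
  -- the matrix of the logarithmic derivatives
  set Φ : Matrix I I (MvPowerSeries I ℚ) := Matrix.of (fun i j =>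
    φ (eul j (uS a i k)) *
      φ (((uu a i k)⁻¹ : (MvPowerSeries I ℚ)ˣ) : MvPowerSeries I ℚ)) with hΦ
  have h1 : Matrix.of (fun i l => φ (xv a i k l)) =
      (k : Matrix I I (MvPowerSeries I ℚ)) - Φ * carM a := by
    refine Matrix.ext fun i l => ?_
    rw [Matrix.of_apply, Matrix.sub_apply, Matrix.mul_apply]
    unfold xv dlg
    rw [uu_coe, dD_eq_eul, map_add, map_mul, map_neg, map_sum]
    have h2 : (k : Matrix I I (MvPowerSeries I ℚ)) i l =
        if i = l then (k : MvPowerSeries I ℚ) else 0 := by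
      rw [← Matrix.diagonal_natCast, Matrix.diagonal_apply]
    rw [h2, sub_eq_add_neg]
    congr 1
    · split_ifs <;> simp
    · rw [neg_mul, Finset.sum_mul]
      congr 1
      refine Finset.sum_congr rfl ?_
      intro j _
      rw [map_mul, h.map_C, hΦ, Matrix.of_apply]
      unfold carM
      rw [Matrix.of_apply, hsC j l]
      ring
  have h3 : Φ * (1 - carM a * lamT T hT 1) =
      lamT T hT k - (k : Matrix I I (MvPowerSeries I ℚ)) * lamT T hT 1 := by
    rw [← jacM_wT]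
    refine Matrix.ext fun i j => ?_
    rw [Matrix.mul_apply, Matrix.sub_apply]
    have h4 := h.chain (uS a i k) j
    set v : (MvPowerSeries I ℚ)ˣ := tU T hT i k * (tU T hT i 1) ^ (-(k : ℤ)) with hv
    have h5 : φ (uS a i k) = (v : MvPowerSeries I ℚ) := sub_U a T hT0 hT hrec φ h i k
    have h6 : φ (((uu a i k)⁻¹ : (MvPowerSeries I ℚ)ˣ) : MvPowerSeries I ℚ) =
        ((v⁻¹ : (MvPowerSeries I ℚ)ˣ) : MvPowerSeries I ℚ) := by
      have h7 : (v : MvPowerSeries I ℚ) *
          φ (((uu a i k)⁻¹ : (MvPowerSeries I ℚ)ˣ) : MvPowerSeries I ℚ) = 1 := by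
        rw [← h5, ← map_mul, ← uu_coe, Units.mul_inv, map_one]
      exact (Units.inv_eq_of_mul_eq_one_right h7).symm
    have h8 : ∑ l, Φ i l * jacM (wT a T hT) l j =
        eul j (v : MvPowerSeries I ℚ) * ((v⁻¹ : (MvPowerSeries I ℚ)ˣ) : MvPowerSeries I ℚ) := by
      rw [← h5, h4, Finset.sum_mul]
      refine Finset.sum_congr rfl ?_
      intro l _
      rw [hΦ, Matrix.of_apply, h6]
      ring
    rw [h8, hv, eul_units_mul, eul_units_zpow]
    have h9 : ((k : Matrix I I (MvPowerSeries I ℚ)) * lamT T hT 1) i j =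
        (k : MvPowerSeries I ℚ) * lamT T hT 1 i j := by
      rw [← Matrix.diagonal_natCast, Matrix.diagonal_mul]
    rw [h9]
    unfold lamT
    rw [Matrix.of_apply, Matrix.of_apply]
    have h10 : ((-(k : ℤ) : ℤ) : MvPowerSeries I ℚ) = -(k : MvPowerSeries I ℚ) := by
      push_cast
      rfl
    rw [h10, neg_mul, sub_eq_add_neg]
    rfl
  rw [h1]
  have h11 : (k : Matrix I I (MvPowerSeries I ℚ)) * (lamT T hT 1 * carM a) =
      ((k : Matrix I I (MvPowerSeries I ℚ)) * lamT T hT 1) * carM a := by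
    rw [mul_assoc]
  calc ((k : Matrix I I (MvPowerSeries I ℚ)) - Φ * carM a) * (1 - lamT T hT 1 * carM a)
      = (k : Matrix I I (MvPowerSeries I ℚ)) -
          (k : Matrix I I (MvPowerSeries I ℚ)) * lamT T hT 1 * carM a -
          (Φ * (1 - carM a * lamT T hT 1)) * carM a := by noncomm_ring
    _ = _ := by
        rw [h3]
        noncomm_ring

end Pool.Agent.H27.KAC
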