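import Pool.Agent.H27.KAC.KN2
import Pool.Agent.H27.KAC.KJ3

/-!
KAC module KN3: `EV` at the top level through the residue formula, and the upper bound for `f`.

* `EV_res`: `residue` for the substitution of `KJ3`:
  `φ (∏ U_{iK}^(A_i) U_{i,K+1}^(-B_i)) = ∏ T_{iK}^(A_i) T_{i,K+1}^(-B_i) T_{i1}^(-K A_i + (K+1) B_i)` with
  `A_i = s_i + 1 + (K+1)ν`, `B_i = s_i + 1 + Kν`, so `- K A_i + (K+1) B_i = s_i + 1`; times
  `∏ w_i^(-α_i) = ∏ T_{j1}^(-s_j)`.  Hence the coefficient is that of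
  `∏ T_{iK}^(A_i) T_{i,K+1}^(-B_i) * (∏ T_{i1}) * det (1 - C Λ)`, and modulo total degree `> K`
  `T_{iK}^(A_i) T_{i,K+1}^(-B_i) = G_i^ν`.  `R0 = (∏ T_{i1}) * det (jacM w)`.
* `coeff_G_nonneg`: `d_j G_d = ∑ G_{d-d'} W_{d'}`, `W ≥ 0`; induction on the degree.
* `f_le_coeff_G`: `α_j [G_j]_α = ∑_β [G_j]_{α-β} α..`, the term `β = α` is `α_j^2 f_α`; so `f_α ≤ [G_j]_α` if `α_j ≥ 1`.
* `f_le_Msum`: choose `K` large.  Put `M1 = (∏ G_i) R0`, `M2 = (∏ G_i) M1`.  All coefficients of `M1` are `≥ 0`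
  (`EV_res` with `ν = 1` and `EV_eq_Msum`, with `K` depending on the coefficient), constant
  coefficient 1.  So `f_α ≤ [∏ G_i]_α ≤ [M2]_α = Msum a K 2 α`.
-/

namespace Pool.Agent.H27.KAC

open scoped BigOperators
open MvPowerSeries

variable {I : Type} [Fintype I] [DecidableEq I]

theorem KN3_tdeg_add (x y : I →₀ ℕ) : tdeg (x + y) = tdeg x + tdeg y := by
  simp [tdeg, Finset.sum_add_distrib]

/-- equality of the coefficients of total degree at most `K`. -/
def KN3_cong (K : ℕ) (F G : MvPowerSeries I ℚ) : Prop :=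
  ∀ d : I →₀ ℕ, tdeg d ≤ K → coeff d F = coeff d G

omit [DecidableEq I] in
theorem KN3_cong_refl (K : ℕ) (F : MvPowerSeries I ℚ) : KN3_cong K F F := fun _ _ => rfl

theorem KN3_cong_mul {K : ℕ} {F G F' G' : MvPowerSeries I ℚ} (h : KN3_cong K F G)
    (h' : KN3_cong K F' G') : KN3_cong K (F * F') (G * G') := by
  intro d hd
  rw [MvPowerSeries.coeff_mul, MvPowerSeries.coeff_mul]
  refine Finset.sum_congr rfl fun x hx => ?_
  rw [Finset.HasAntidiagonal.mem_antidiagonal] at hx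
  have h1 := KN3_tdeg_add x.1 x.2
  rw [hx] at h1
  rw [h _ (by omega), h' _ (by omega)]

theorem KN3_cong_prod {K : ℕ} {ι : Type} (s : Finset ι) (F G : ι → MvPowerSeries I ℚ)
    (h : ∀ i, KN3_cong K (F i) (G i)) : KN3_cong K (∏ i ∈ s, F i) (∏ i ∈ s, G i) := by
  classical
  induction s using Finset.induction_on with
  | empty => simpa using KN3_cong_refl K 1
  | insert i s hi ih =>
    rw [Finset.prod_insert hi, Finset.prod_insert hi]
    exact KN3_cong_mul (h i) ih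

theorem KN3_cong_pow {K : ℕ} {F G : MvPowerSeries I ℚ} (h : KN3_cong K F G) (n : ℕ) :
    KN3_cong K (F ^ n) (G ^ n) := by
  induction n with
  | zero => simpa using KN3_cong_refl K 1
  | succ n ih =>
    rw [pow_succ, pow_succ]
    exact KN3_cong_mul ih h

theorem KN3_cong_inv {K : ℕ} (u : (MvPowerSeries I ℚ)ˣ)
    (h : KN3_cong K (u : MvPowerSeries I ℚ) 1) :
    KN3_cong K ((u⁻¹ : (MvPowerSeries I ℚ)ˣ) : MvPowerSeries I ℚ) 1 := by
  have h1 := KN3_cong_mul (KN3_cong_refl K ((u⁻¹ : (MvPowerSeries I ℚ)ˣ) : MvPowerSeries I ℚ)) h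
  rw [Units.inv_mul, mul_one] at h1
  exact fun d hd => (h1 d hd).symm

theorem KN3_cong_zpow {K : ℕ} (u : (MvPowerSeries I ℚ)ˣ)
    (h : KN3_cong K (u : MvPowerSeries I ℚ) 1) (n : ℤ) :
    KN3_cong K ((u ^ n : (MvPowerSeries I ℚ)ˣ) : MvPowerSeries I ℚ) 1 := by
  cases n with
  | ofNat n =>
    have h1 := KN3_cong_pow h n
    rw [one_pow] at h1
    simpa using h1
  | negSucc n =>
    rw [zpow_negSucc]
    apply KN3_cong_inv
    have h1 := KN3_cong_pow h (n + 1)
    rw [one_pow] at h1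
    simpa using h1

theorem KN3_prod_zpow {A : Type} [CommGroup A] {ι : Type} (s : Finset ι) (t : A) (n : ι → ℤ) :
    ∏ i ∈ s, t ^ (n i) = t ^ (∑ i ∈ s, n i) := by
  classical
  induction s using Finset.induction_on with
  | empty => simp
  | insert i s hi ih => rw [Finset.prod_insert hi, Finset.sum_insert hi, zpow_add, ih]

theorem KN3_wT (a : I → I → ℕ) (hs : ∀ i j, a i j = a j i) (T : I → ℕ → MvPowerSeries I ℚ)
    (hT : ∀ i k, constantCoeff (T i k) = 1) (α : I →₀ ℕ) :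
    ∏ i, (wT a T hT i) ^ (-(α i : ℤ)) = ∏ j, (tU T hT j 1) ^ (cw a α j) := by
  have hc : ∀ i j, cart a i j = cart a j i := by
    intro i j
    unfold cart
    rw [hs i j]
    by_cases h : i = j
    · subst h; rfl
    · rw [if_neg h, if_neg (fun h' => h h'.symm)]
  calc ∏ i, (wT a T hT i) ^ (-(α i : ℤ))
      = ∏ i, ∏ j, (tU T hT j 1) ^ (cart a j i * (α i : ℤ)) := by
        refine Finset.prod_congr rfl fun i _ => ?_
        unfold wT
        rw [← Finset.prod_zpow]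
        refine Finset.prod_congr rfl fun j _ => ?_
        rw [← zpow_mul, hc i j]
        congr 1
        ring
    _ = ∏ j, ∏ i, (tU T hT j 1) ^ (cart a j i * (α i : ℤ)) := Finset.prod_comm
    _ = _ := by
        refine Finset.prod_congr rfl fun j _ => ?_
        rw [KN3_prod_zpow]
        rfl

theorem KN3_const_G (T : I → ℕ → MvPowerSeries I ℚ) (G : I → MvPowerSeries I ℚ)
    (hT : ∀ i k, constantCoeff (T i k) = 1)
    (hG : ∀ i k (d : I →₀ ℕ), tdeg d ≤ k → coeff d (T i k) = coeff d (G i)) (i : I) :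
    constantCoeff (G i) = 1 := by
  rw [← hT i 0, ← MvPowerSeries.coeff_zero_eq_constantCoeff_apply,
    ← MvPowerSeries.coeff_zero_eq_constantCoeff_apply]
  exact (hG i 0 0 (by simp [tdeg])).symm

theorem EV_res (a : I → I → ℕ) (hs : ∀ i j, a i j = a j i)
    (T : I → ℕ → MvPowerSeries I ℚ) (G : I → MvPowerSeries I ℚ) (hT0 : ∀ i, T i 0 = 1)
    (hT : ∀ i k, constantCoeff (T i k) = 1)
    (hrec : ∀ i k, (T i (k + 1)) ^ 2 = T i k * T i (k + 2) +
      (X i) ^ (k + 1) * ∏ j, (T j (k + 1)) ^ (a i j))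
    (hG : ∀ i k (d : I →₀ ℕ), tdeg d ≤ k → coeff d (T i k) = coeff d (G i))
    (α : I →₀ ℕ) (K ν : ℕ) (hK : tdeg α ≤ K) :
    EV a α (K + 1) (fun i => -cw a α i + (K : ℤ) * ν + 1)
      (fun i => -cw a α i + ((K : ℤ) + 1) * ν + 1) =
    coeff α ((∏ i, G i) ^ ν * ((∏ i, T i 1) * (jacM (wT a T hT)).det)) := by
  obtain ⟨φ, hφ⟩ := exists_sub (wT a T hT)
  set P : I → ℤ := fun i => -cw a α i + (K : ℤ) * ν + 1 with hP
  set p : I → ℤ := fun i => -cw a α i + ((K : ℤ) + 1) * ν + 1 with hp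
  set Φ := Units.map (φ : MvPowerSeries I ℚ →* MvPowerSeries I ℚ) with hΦdef
  have hΦ : ∀ i k, Φ (uu a i k) = tU T hT i k * (tU T hT i 1) ^ (-(k : ℤ)) := fun i k =>
    Units.ext (sub_U a T hT0 hT hrec φ hφ i k)
  unfold EV
  rw [residue hφ]
  have hfac : φ (facG a (fun _ => K + 1) P p) = ((Φ (∏ i, ((uu a i (K + 1)) ^ (-(P i)) *
      (uu a i (K + 1 - 1)) ^ (p i))) : (MvPowerSeries I ℚ)ˣ) : MvPowerSeries I ℚ) := rfl
  rw [hfac, ← Units.val_mul]
  have hprod : Φ (∏ i, ((uu a i (K + 1)) ^ (-(P i)) * (uu a i (K + 1 - 1)) ^ (p i))) *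
      ∏ i, (wT a T hT i) ^ (-(α i : ℤ)) =
      (∏ i, (tU T hT i K * (tU T hT i (K + 1))⁻¹) ^ (P i)) *
        ((∏ i, tU T hT i K) ^ ν * ∏ i, tU T hT i 1) := by
    rw [KN3_wT a hs T hT α, map_prod, ← Finset.prod_pow, ← Finset.prod_mul_distrib,
      ← Finset.prod_mul_distrib, ← Finset.prod_mul_distrib]
    refine Finset.prod_congr rfl fun i _ => ?_
    rw [map_mul, map_zpow, map_zpow, hΦ, hΦ, Nat.add_sub_cancel]
    generalize hx : tU T hT i (K + 1) = x
    generalize hy : tU T hT i K = y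
    generalize hz : tU T hT i 1 = z
    rw [mul_zpow, mul_zpow, mul_zpow, inv_zpow', ← zpow_mul, ← zpow_mul, ← zpow_natCast y ν]
    have e1 : x ^ (-P i) * z ^ (-((K + 1 : ℕ) : ℤ) * -P i) * (y ^ p i * z ^ (-(K : ℤ) * p i)) *
        z ^ cw a α i = x ^ (-P i) * (y ^ p i * (z ^ (-((K + 1 : ℕ) : ℤ) * -P i) *
          z ^ (-(K : ℤ) * p i) * z ^ cw a α i)) := by
      simp only [mul_assoc, mul_comm, mul_left_comm]
    have e2 : z ^ (-((K + 1 : ℕ) : ℤ) * -P i) * z ^ (-(K : ℤ) * p i) * z ^ cw a α i = z := by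
      rw [← zpow_add, ← zpow_add]
      have : -((K + 1 : ℕ) : ℤ) * -P i + -(K : ℤ) * p i + cw a α i = 1 := by
        rw [hP, hp]; push_cast; ring
      rw [this, zpow_one]
    have e3 : y ^ p i = y ^ P i * y ^ (ν : ℤ) := by
      rw [← zpow_add]
      congr 1
      rw [hP, hp]; ring
    rw [e1, e2, e3]
    simp only [mul_assoc, mul_comm, mul_left_comm]
  rw [hprod]
  have hV : ∀ i, KN3_cong K (((tU T hT i K * (tU T hT i (K + 1))⁻¹ : (MvPowerSeries I ℚ)ˣ)) :
      MvPowerSeries I ℚ) 1 := by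
    intro i
    have h1 : KN3_cong K (T i K) (T i (K + 1)) := fun d hd => by
      rw [hG i K d hd, hG i (K + 1) d (by omega)]
    have h2 := KN3_cong_mul h1 (KN3_cong_refl K
      (((tU T hT i (K + 1))⁻¹ : (MvPowerSeries I ℚ)ˣ) : MvPowerSeries I ℚ))
    have h3 : T i (K + 1) * (((tU T hT i (K + 1))⁻¹ : (MvPowerSeries I ℚ)ˣ) :
        MvPowerSeries I ℚ) = 1 := Units.mul_inv (tU T hT i (K + 1))
    rw [h3] at h2
    exact h2
  have hcong : KN3_cong K ((((∏ i, (tU T hT i K * (tU T hT i (K + 1))⁻¹) ^ (P i)) *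
        ((∏ i, tU T hT i K) ^ ν * ∏ i, tU T hT i 1) : (MvPowerSeries I ℚ)ˣ) :
        MvPowerSeries I ℚ) * (jacM (wT a T hT)).det)
      ((∏ i, G i) ^ ν * ((∏ i, T i 1) * (jacM (wT a T hT)).det)) := by
    have h1 : KN3_cong K (((∏ i, (tU T hT i K * (tU T hT i (K + 1))⁻¹) ^ (P i) :
        (MvPowerSeries I ℚ)ˣ)) : MvPowerSeries I ℚ) 1 := by
      rw [Units.coe_prod]
      have := KN3_cong_prod (K := K) Finset.univ (fun i => (((tU T hT i K *
        (tU T hT i (K + 1))⁻¹) ^ (P i) : (MvPowerSeries I ℚ)ˣ) : MvPowerSeries I ℚ)) (fun _ => 1)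
        (fun i => KN3_cong_zpow _ (hV i) (P i))
      simpa using this
    have h2 : KN3_cong K ((∏ i, T i K) ^ ν) ((∏ i, G i) ^ ν) := by
      apply KN3_cong_pow
      apply KN3_cong_prod
      intro i d hd
      exact hG i K d hd
    have h3 := KN3_cong_mul (KN3_cong_mul h1 (KN3_cong_mul h2 (KN3_cong_refl K (∏ i, T i 1))))
      (KN3_cong_refl K (jacM (wT a T hT)).det)
    have e1 : (((∏ i, (tU T hT i K * (tU T hT i (K + 1))⁻¹) ^ (P i)) *
        ((∏ i, tU T hT i K) ^ ν * ∏ i, tU T hT i 1) : (MvPowerSeries I ℚ)ˣ) :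
        MvPowerSeries I ℚ) = ((∏ i, (tU T hT i K * (tU T hT i (K + 1))⁻¹) ^ (P i) :
        (MvPowerSeries I ℚ)ˣ) : MvPowerSeries I ℚ) * ((∏ i, T i K) ^ ν * ∏ i, T i 1) := by
      rw [Units.val_mul, Units.val_mul, Units.val_pow_eq_pow_val, Units.coe_prod (fun i => tU T hT i K),
        Units.coe_prod (fun i => tU T hT i 1)]
      rfl
    rw [e1]
    have e2 : 1 * ((∏ i, G i) ^ ν * ∏ i, T i 1) * (jacM (wT a T hT)).det =
        (∏ i, G i) ^ ν * ((∏ i, T i 1) * (jacM (wT a T hT)).det) := by ring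
    rw [← e2]
    exact h3
  exact hcong α hK

theorem coeff_G_nonneg (f : (I → ℕ) → ℚ) (hf : ∀ β, 0 ≤ f β) (i : I) (G : MvPowerSeries I ℚ)
    (h1 : constantCoeff G = 1) (hG : ∀ j, eul j G = G * wSer f i j) (d : I →₀ ℕ) :
    0 ≤ coeff d G := by
  have key : ∀ n : ℕ, ∀ d : I →₀ ℕ, tdeg d = n → 0 ≤ coeff d G := by
    intro n
    induction n using Nat.strong_induction_on with
    | _ n ih =>
      intro d hd
      by_cases h0 : d = 0
      · rw [h0, MvPowerSeries.coeff_zero_eq_constantCoeff_apply, h1]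
        exact zero_le_one
      · obtain ⟨j, hj⟩ : ∃ j, d j ≠ 0 := by
          by_contra hcon
          push Not at hcon
          exact h0 (Finsupp.ext hcon)
        have h2 : (d j : ℚ) * coeff d G = coeff d (G * wSer f i j) := by
          rw [← hG j, coeff_eul]
        have h3 : 0 ≤ coeff d (G * wSer f i j) := by
          rw [MvPowerSeries.coeff_mul]
          refine Finset.sum_nonneg fun x hx => ?_
          rw [Finset.HasAntidiagonal.mem_antidiagonal] at hx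
          have hw : coeff x.2 (wSer f i j) = (x.2 i : ℚ) * (x.2 j : ℚ) * f (fun l => x.2 l) := rfl
          have hw0 : 0 ≤ coeff x.2 (wSer f i j) := by
            rw [hw]
            exact mul_nonneg (by positivity) (hf _)
          by_cases hx2 : x.2 = 0
          · rw [hw, hx2]; simp
          · apply mul_nonneg _ hw0
            refine ih (tdeg x.1) ?_ x.1 rfl
            have h4 := KN3_tdeg_add x.1 x.2
            rw [hx, hd] at h4
            have h5 : tdeg x.2 ≠ 0 := by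
              intro h6
              unfold tdeg at h6
              rw [Finset.sum_eq_zero_iff] at h6
              exact hx2 (Finsupp.ext fun l => h6 l (Finset.mem_univ l))
            omega
        have hdj : (0:ℚ) < (d j : ℚ) := by exact_mod_cast Nat.pos_of_ne_zero hj
        rw [← h2] at h3
        exact nonneg_of_mul_nonneg_right h3 hdj
  exact key _ d rfl

theorem f_le_coeff_G (f : (I → ℕ) → ℚ) (hf : ∀ β, 0 ≤ f β) (i : I) (G : MvPowerSeries I ℚ)
    (h1 : constantCoeff G = 1) (hG : ∀ j, eul j G = G * wSer f i j) (α : I →₀ ℕ)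
    (hα : 1 ≤ α i) : f α ≤ coeff α G := by
  have h2 : (α i : ℚ) * coeff α G = coeff α (G * wSer f i i) := by
    rw [← hG i, coeff_eul]
  have h3 : (α i : ℚ) * (α i : ℚ) * f α ≤ coeff α (G * wSer f i i) := by
    rw [MvPowerSeries.coeff_mul]
    have hmem : ((0 : I →₀ ℕ), α) ∈ Finset.HasAntidiagonal.antidiagonal α := by
      rw [Finset.HasAntidiagonal.mem_antidiagonal, zero_add]
    have hterm : coeff (0 : I →₀ ℕ) G * coeff α (wSer f i i) = (α i : ℚ) * (α i : ℚ) * f α := by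
      rw [MvPowerSeries.coeff_zero_eq_constantCoeff_apply, h1, one_mul]
      rfl
    rw [← hterm]
    refine Finset.single_le_sum (f := fun x : (I →₀ ℕ) × (I →₀ ℕ) =>
      coeff x.1 G * coeff x.2 (wSer f i i)) (fun x _ => ?_) hmem
    apply mul_nonneg (coeff_G_nonneg f hf i G h1 hG x.1)
    have hw : coeff x.2 (wSer f i i) = (x.2 i : ℚ) * (x.2 i : ℚ) * f (fun l => x.2 l) := rfl
    rw [hw]
    exact mul_nonneg (by positivity) (hf _)
  rw [← h2] at h3
  have hα' : (1:ℚ) ≤ (α i : ℚ) := by exact_mod_cast hα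
  have hα0 : (0:ℚ) < (α i : ℚ) := by linarith
  have h4 : (α i : ℚ) * f α ≤ coeff α G := by
    have h5 : (α i : ℚ) * ((α i : ℚ) * f α) ≤ (α i : ℚ) * coeff α G := by linarith
    exact le_of_mul_le_mul_left h5 hα0
  have h6 := hf α
  nlinarith

/-- all coefficients are nonnegative. -/
def KN3_nn (F : MvPowerSeries I ℚ) : Prop := ∀ d : I →₀ ℕ, 0 ≤ coeff d F

theorem KN3_nn_mul {F G : MvPowerSeries I ℚ} (hF : KN3_nn F) (hG : KN3_nn G) :
    KN3_nn (F * G) := by
  intro d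
  rw [MvPowerSeries.coeff_mul]
  exact Finset.sum_nonneg fun x _ => mul_nonneg (hF _) (hG _)

theorem KN3_nn_one : KN3_nn (1 : MvPowerSeries I ℚ) := by
  intro d
  rw [MvPowerSeries.coeff_one]
  split_ifs <;> norm_num

theorem KN3_nn_prod (s : Finset I) (F : I → MvPowerSeries I ℚ) (h : ∀ i, KN3_nn (F i)) :
    KN3_nn (∏ i ∈ s, F i) := by
  induction s using Finset.induction_on with
  | empty => simpa using KN3_nn_one
  | insert i s hi ih =>
    rw [Finset.prod_insert hi]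
    exact KN3_nn_mul (h i) ih

theorem KN3_le_mul {F G : MvPowerSeries I ℚ} (hF : KN3_nn F) (hG : KN3_nn G)
    (h1 : constantCoeff G = 1) (d : I →₀ ℕ) : coeff d F ≤ coeff d (F * G) := by
  rw [MvPowerSeries.coeff_mul]
  have hmem : (d, (0 : I →₀ ℕ)) ∈ Finset.HasAntidiagonal.antidiagonal d := by
    rw [Finset.HasAntidiagonal.mem_antidiagonal, add_zero]
  have hterm : coeff d F * coeff (0 : I →₀ ℕ) G = coeff d F := by
    rw [MvPowerSeries.coeff_zero_eq_constantCoeff_apply, h1, mul_one]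
  calc coeff d F = coeff d F * coeff (0 : I →₀ ℕ) G := hterm.symm
    _ ≤ _ := Finset.single_le_sum (f := fun x : (I →₀ ℕ) × (I →₀ ℕ) =>
      coeff x.1 F * coeff x.2 G) (fun x _ => mul_nonneg (hF _) (hG _)) hmem

theorem KN3_const_det (w : I → (MvPowerSeries I ℚ)ˣ) :
    constantCoeff (jacM w).det = 1 := by
  rw [RingHom.map_det]
  have h : (constantCoeff (σ := I) (R := ℚ)).mapMatrix (jacM w) = 1 := by
    ext i j
    rw [RingHom.mapMatrix_apply, Matrix.map_apply]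
    unfold jacM
    rw [Matrix.of_apply, map_add, map_mul]
    have h0 : constantCoeff (eul j (w i : MvPowerSeries I ℚ)) = 0 := by
      rw [← MvPowerSeries.coeff_zero_eq_constantCoeff_apply, coeff_eul]
      simp
    rw [h0, zero_mul, add_zero, Matrix.one_apply]
    split_ifs <;> simp
  rw [h, Matrix.det_one]

theorem KN3_Msum_nonneg (a : I → I → ℕ) (K ν : ℕ) (β : I → ℕ) : 0 ≤ Msum a K ν β := by
  unfold Msum
  refine Finset.sum_nonneg fun m _ => ?_
  exact Finset.prod_nonneg fun k _ => Finset.prod_nonneg fun i _ => by positivity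

theorem f_le_Msum (a : I → I → ℕ) (hs : ∀ i j, a i j = a j i) (ha : ∀ i, a i i ≠ 1)
    (f : (I → ℕ) → ℚ) (hK : KacData a f) (hf : ∀ β, 0 ≤ f β) (α : I →₀ ℕ) (hα : α ≠ 0)
    (K : ℕ) (h1 : tdeg α ≤ K) (h2 : ∀ i, 0 ≤ -cw a α i + (K : ℤ) * 2) :
    f α ≤ Msum a K 2 α := by
  obtain ⟨T, G, hT0, hT, hrec, hG, heul⟩ := hK
  have hG1 : ∀ i, constantCoeff (G i) = 1 := KN3_const_G T G hT hG
  set R0 := (∏ i, T i 1) * (jacM (wT a T hT)).det with hR0
  have hEV : ∀ (ν : ℕ) (β : I →₀ ℕ) (K' : ℕ), tdeg β ≤ K' → (∀ i, 0 ≤ -cw a β i + (K' : ℤ) * ν) →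
      Msum a K' ν β = coeff β ((∏ i, G i) ^ ν * R0) := by
    intro ν β K' hK1 hK2
    rw [← EV_eq_Msum a hs ha K' ν β hK2, EV_res a hs T G hT0 hT hrec hG β K' ν hK1]
  -- the series M1
  have hM1 : KN3_nn ((∏ i, G i) * R0) := by
    intro β
    obtain ⟨K', hK1, hK2⟩ : ∃ K' : ℕ, tdeg β ≤ K' ∧ ∀ i, 0 ≤ -cw a β i + (K' : ℤ) * ((1 : ℕ) : ℤ) := by
      refine ⟨tdeg β + ∑ i, (cw a β i).toNat, by omega, fun i => ?_⟩
      have h3 : (cw a β i).toNat ≤ ∑ i, (cw a β i).toNat :=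
        Finset.single_le_sum (f := fun i => (cw a β i).toNat) (fun _ _ => Nat.zero_le _)
          (Finset.mem_univ i)
      have h4 : cw a β i ≤ ((cw a β i).toNat : ℤ) := Int.self_le_toNat _
      have h5 : ((cw a β i).toNat : ℤ) ≤ ((∑ i, (cw a β i).toNat : ℕ) : ℤ) := by exact_mod_cast h3
      push_cast at h5 ⊢
      have h6 : (0:ℤ) ≤ (tdeg β : ℤ) := by positivity
      linarith
    have h3 := hEV 1 β K' hK1 hK2
    rw [pow_one] at h3
    rw [← h3]
    exact KN3_Msum_nonneg a K' 1 β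
  have hprod1 : ∀ s : Finset I, constantCoeff (∏ i ∈ s, G i) = 1 := by
    intro s
    rw [map_prod]
    exact Finset.prod_eq_one fun i _ => hG1 i
  have hM1c : constantCoeff ((∏ i, G i) * R0) = 1 := by
    rw [map_mul, hprod1, hR0, map_mul, map_prod, KN3_const_det, one_mul, mul_one]
    exact Finset.prod_eq_one fun i _ => hT i 1
  have hGnn : ∀ i, KN3_nn (G i) := fun i d => coeff_G_nonneg f hf i (G i) (hG1 i) (heul i) d
  obtain ⟨i, hi⟩ : ∃ i, α i ≠ 0 := by
    by_contra hcon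
    push Not at hcon
    exact hα (Finsupp.ext hcon)
  have hM := hEV 2 α K h1 (fun i => by exact_mod_cast h2 i)
  rw [hM]
  have e : (∏ i, G i) ^ 2 * R0 = (∏ i, G i) * ((∏ i, G i) * R0) := by ring
  rw [e]
  calc f α ≤ coeff α (G i) :=
        f_le_coeff_G f hf i (G i) (hG1 i) (heul i) α (Nat.one_le_iff_ne_zero.2 hi)
    _ ≤ coeff α (G i * ∏ j ∈ Finset.univ.erase i, G j) :=
        KN3_le_mul (hGnn i) (KN3_nn_prod _ _ hGnn) (hprod1 _) α
    _ = coeff α (∏ i, G i) := by rw [Finset.mul_prod_erase _ _ (Finset.mem_univ i)]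
    _ ≤ _ := KN3_le_mul (KN3_nn_prod _ _ hGnn) hM1 hM1c α

end Pool.Agent.H27.KAC
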