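import Pool.Agent.H27.KAC.KG1
import Pool.Agent.H27.KAC.KG3
import Pool.Agent.H27.KAC.KG4
import Pool.Agent.H27.KAC.KN3

/-!
KAC module KG5: upper bound for `f`, and the supremum `h`.

`hsup a α` = supremum of `log (EW a m) / n` over all `K ≥ 2`, `n ≥ 1`, `m` admissible for `n α`.
* `EW_le_exp`: `EW a m` is at most the sum in `gen_bound_all` with `A3 = ∑_{i,j} a_ij α_j` (one term of the sum dominates the
  weight: `PLF ≤ A3 n`, `PLF_le`), so `hsup` is a supremum of a bounded set; nonempty by `Adm_exists`.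
* `le_hsup`: `EW a m ≤ exp (n * hsup)`.
* `f_upper`: `f(nα) ≤ Msum a K 2 (nα)` (`f_le_Msum`, K large).  Each term: split `l ≤ L` and `l > L` (`L` from `window`),
  the first part is `≤ EW a m' ≤ exp(n' hsup)`, `n' ≤ n + n/q + T`; in the second part
  `PLF + 2l ≤ A3 n` if `m_l i ≥ 1` (then `l ≤ n α_i`; take `A3 = ∑ a_ij α_j + 2 ∑ α_i`), and `L ≥ L0`, so it is at most the
  summand of `gen_bound_eps`.  Hence `f(nα) ≤ exp((n + n/q + T) hsup) * C exp(ε n)` for `n ≥ n0`.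
-/

namespace Pool.Agent.H27.KAC

open scoped BigOperators
open MvPowerSeries

variable {I : Type} [Fintype I] [DecidableEq I]

/-- the growth rate. -/
noncomputable def hsup (a : I → I → ℕ) (α : I →₀ ℕ) : ℝ :=
  sSup {x : ℝ | ∃ K n : ℕ, 2 ≤ K ∧ 1 ≤ n ∧ ∃ m : Fin K → I → ℕ, Adm a (n • α) m ∧
    x = Real.log (EW a m) / n}

theorem KG5_mAt {K : ℕ} (m : Fin K → I → ℕ) (l : Fin K) (i : I) :
    mAt m ((l : ℕ) + 1) i = m l i := by
  unfold mAt
  rw [dif_pos ⟨by omega, by omega⟩]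
  congr 1

theorem KG5_prod_Icc (g : ℕ → ℕ) : ∀ K : ℕ,
    ∏ l ∈ Finset.Icc 1 K, g l = ∏ l : Fin K, g ((l : ℕ) + 1)
  | 0 => by simp
  | K + 1 => by
    rw [Finset.prod_Icc_succ_top (by omega), Fin.prod_univ_castSucc, KG5_prod_Icc g K]
    simp

theorem KG5_coe (α : I →₀ ℕ) (n : ℕ) : ((n • α : I →₀ ℕ) : I → ℕ) = fun i => n * α i := by
  funext i
  simp

/-- the vacancy numbers are at most linear in `n`. -/
theorem KG5_PLF (a : I → I → ℕ) (α : I →₀ ℕ) {n K : ℕ} (m : Fin K → I → ℕ)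
    (hm : m ∈ Mset K (n • α)) (l : ℕ) (i : I) :
    PLF a m l i ≤ (((∑ i, ∑ j, a i j * α j) * n : ℕ) : ℤ) := by
  refine (PLF_le a (n • α) m hm l i).trans ?_
  have h1 : ∑ j, (a i j : ℤ) * (((n • α : I →₀ ℕ) j : ℕ) : ℤ) = (((∑ j, a i j * α j) * n : ℕ) : ℤ) := by
    push_cast
    rw [Finset.sum_mul]
    refine Finset.sum_congr rfl (fun j _ => ?_)
    simp only [Pi.smul_apply, smul_eq_mul]
    push_cast
    ring
  rw [h1]
  have h2 : ∑ j, a i j * α j ≤ ∑ i, ∑ j, a i j * α j :=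
    Finset.single_le_sum (f := fun i => ∑ j, a i j * α j) (fun _ _ => Nat.zero_le _)
      (Finset.mem_univ i)
  exact_mod_cast Nat.mul_le_mul_right n h2

theorem KG5_EW_le (a : I → I → ℕ) (α : I →₀ ℕ) :
    ∃ c C : ℝ, 0 < c ∧ 1 ≤ C ∧ ∀ (n K : ℕ) (m : Fin K → I → ℕ), m ∈ Mset K (n • α) →
      (EW a m : ℝ) ≤ C * Real.exp (c * n) := by
  obtain ⟨c, C, hc, hC, h⟩ := gen_bound_all (fun i => α i) (∑ i, ∑ j, a i j * α j)
  refine ⟨c, C, hc, hC, fun n K m hm => ?_⟩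
  refine le_trans ?_ (h n K)
  have h1 : EW a m ≤ ∏ l : Fin K, ∏ i : I,
      (((∑ i, ∑ j, a i j * α j) * n + m l i).choose (m l i)) := by
    unfold EW
    rw [KG5_prod_Icc]
    refine Finset.prod_le_prod' (fun l _ => Finset.prod_le_prod' (fun i _ => ?_))
    rw [KG5_mAt]
    refine Nat.choose_le_choose _ ?_
    have := Int.toNat_le.2 (KG5_PLF a α m hm ((l : ℕ) + 1) i)
    omega
  have h2 : (EW a m : ℝ) ≤ ∏ l : Fin K, ∏ i : I,
      ((((∑ i, ∑ j, a i j * α j) * n + m l i).choose (m l i) : ℕ) : ℝ) := by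
    have h3 : (EW a m : ℝ) ≤ ((∏ l : Fin K, ∏ i : I,
      (((∑ i, ∑ j, a i j * α j) * n + m l i).choose (m l i)) : ℕ) : ℝ) := by exact_mod_cast h1
    push_cast at h3
    exact h3
  refine h2.trans ?_
  have hm' : m ∈ Mset K (fun i => n * α i) := by
    rw [← KG5_coe]
    exact hm
  exact Finset.single_le_sum (f := fun m : Fin K → I → ℕ => ∏ l : Fin K, ∏ i : I,
      ((((∑ i, ∑ j, a i j * α j) * n + m l i).choose (m l i) : ℕ) : ℝ))
    (fun m _ => Finset.prod_nonneg (fun l _ => Finset.prod_nonneg (fun i _ => Nat.cast_nonneg _)))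
    hm'

theorem hsup_bdd (a : I → I → ℕ) (α : I →₀ ℕ) (hα : Ample a α) :
    BddAbove {x : ℝ | ∃ K n : ℕ, 2 ≤ K ∧ 1 ≤ n ∧ ∃ m : Fin K → I → ℕ, Adm a (n • α) m ∧
      x = Real.log (EW a m) / n} := by
  obtain ⟨c, C, hc, hC, h⟩ := KG5_EW_le a α
  refine ⟨Real.log C + c, ?_⟩
  rintro x ⟨K, n, hK, hn, m, hm, rfl⟩
  have hn0 : (0 : ℝ) < n := by exact_mod_cast hn
  have hn1 : (1 : ℝ) ≤ n := by exact_mod_cast hn
  rw [div_le_iff₀ hn0]
  have h1 := h n K m hm.1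
  have h2 : (0 : ℝ) < EW a m := by
    have := EW_pos a m
    exact_mod_cast this
  have h3 := Real.log_le_log h2 h1
  rw [Real.log_mul (by positivity) (Real.exp_pos _).ne', Real.log_exp] at h3
  have h4 : 0 ≤ Real.log C := Real.log_nonneg hC
  nlinarith

theorem hsup_nonneg (a : I → I → ℕ) (hg : GoodMat a) (α : I →₀ ℕ) (hα : Ample a α) :
    0 ≤ hsup a α := by
  refine Real.sSup_nonneg ?_
  rintro x ⟨K, n, hK, hn, m, hm, rfl⟩
  refine div_nonneg (Real.log_nonneg ?_) (Nat.cast_nonneg _)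
  exact_mod_cast EW_pos a m

theorem le_hsup (a : I → I → ℕ) (α : I →₀ ℕ) (hα : Ample a α) (K n : ℕ) (hK : 2 ≤ K)
    (hn : 1 ≤ n) (m : Fin K → I → ℕ) (hm : Adm a (n • α) m) :
    (EW a m : ℝ) ≤ Real.exp (n * hsup a α) := by
  have h1 : Real.log (EW a m) / n ≤ hsup a α :=
    le_csSup (hsup_bdd a α hα) ⟨K, n, hK, hn, m, hm, rfl⟩
  have hn0 : (0 : ℝ) < n := by exact_mod_cast hn
  rw [div_le_iff₀ hn0] at h1
  have h2 : (0 : ℝ) < EW a m := by
    have := EW_pos a m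
    exact_mod_cast this
  rw [← Real.log_le_iff_le_exp h2]
  linarith

/-- one term of the upper sum. -/
theorem KG5_term (a : I → I → ℕ) (α : I →₀ ℕ) {n K : ℕ} (m : Fin K → I → ℕ)
    (hm : m ∈ Mset K (n • α)) (L L0 : ℕ) (hL : L0 ≤ L) :
    ∏ k : Fin K, ∏ i : I,
      ((PLF a m ((k : ℕ) + 1) i + ((k : ℤ) + 1) * ((2 : ℕ) : ℤ)).toNat + m k i).choose (m k i) ≤
    (∏ l ∈ Finset.Icc 1 L, ∏ i,
        ((PLF a m l i + 2 * (l : ℤ)).toNat + mAt m l i).choose (mAt m l i)) *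
      ∏ k : Fin K, ∏ i : I, (if L0 ≤ (k : ℕ) then
        (((∑ i, ∑ j, a i j * α j + 2 * ∑ i, α i) * n + m k i).choose (m k i)) else 1) := by
  set G : ℕ → ℕ := fun l => ∏ i,
        ((PLF a m l i + 2 * (l : ℤ)).toNat + mAt m l i).choose (mAt m l i) with hG
  have hG1 : ∀ l, 1 ≤ G l := by
    intro l
    refine Finset.one_le_prod' (fun i _ => ?_)
    exact Nat.choose_pos (by omega)
  have h1 : ∀ k : Fin K, (∏ i : I,
      ((PLF a m ((k : ℕ) + 1) i + ((k : ℤ) + 1) * ((2 : ℕ) : ℤ)).toNat + m k i).choose (m k i)) ≤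
      (if (k : ℕ) + 1 ≤ L then G ((k : ℕ) + 1) else 1) * ∏ i : I, (if L0 ≤ (k : ℕ) then
        (((∑ i, ∑ j, a i j * α j + 2 * ∑ i, α i) * n + m k i).choose (m k i)) else 1) := by
    intro k
    have h2 : (∏ i : I,
      ((PLF a m ((k : ℕ) + 1) i + ((k : ℤ) + 1) * ((2 : ℕ) : ℤ)).toNat + m k i).choose (m k i)) =
        G ((k : ℕ) + 1) := by
      simp only [hG]
      refine Finset.prod_congr rfl (fun i _ => ?_)
      rw [KG5_mAt]
      have h3 : PLF a m ((k : ℕ) + 1) i + ((k : ℤ) + 1) * ((2 : ℕ) : ℤ) =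
          PLF a m ((k : ℕ) + 1) i + 2 * (((k : ℕ) + 1 : ℕ) : ℤ) := by
        push_cast
        ring
      rw [h3]
    rw [h2]
    by_cases hk : (k : ℕ) + 1 ≤ L
    · rw [if_pos hk]
      have h3 : 1 ≤ ∏ i : I, (if L0 ≤ (k : ℕ) then
        (((∑ i, ∑ j, a i j * α j + 2 * ∑ i, α i) * n + m k i).choose (m k i)) else 1) := by
        refine Finset.one_le_prod' (fun i _ => ?_)
        split_ifs
        · exact Nat.choose_pos (by omega)
        · exact le_refl 1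
      exact Nat.le_mul_of_pos_right _ h3
    · rw [if_neg hk, one_mul]
      push Not at hk
      simp only [hG]
      refine Finset.prod_le_prod' (fun i _ => ?_)
      rw [if_pos (by omega), KG5_mAt]
      rcases Nat.eq_zero_or_pos (m k i) with h0 | h0
      · rw [h0]
        simp
      · refine Nat.choose_le_choose _ ?_
        have h4 : ((k : ℕ) + 1) * m k i ≤ n * α i := by
          have h5 := (Finset.mem_filter.1 hm).2 i
          have h6 : ((k : ℕ) + 1) * m k i ≤ ∑ k : Fin K, ((k : ℕ) + 1) * m k i :=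
            Finset.single_le_sum (f := fun k : Fin K => ((k : ℕ) + 1) * m k i)
              (fun _ _ => Nat.zero_le _) (Finset.mem_univ k)
          rw [h5] at h6
          simpa using h6
        have h5 : (k : ℕ) + 1 ≤ n * α i := (Nat.le_mul_of_pos_right _ h0).trans h4
        have h6 : α i ≤ ∑ i, α i :=
          Finset.single_le_sum (f := fun i => α i) (fun _ _ => Nat.zero_le _) (Finset.mem_univ i)
        have h7 : n * α i ≤ n * ∑ i, α i := Nat.mul_le_mul_left n h6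
        have h8 := KG5_PLF a α m hm ((k : ℕ) + 1) i
        have h9 : PLF a m ((k : ℕ) + 1) i + 2 * (((k : ℕ) + 1 : ℕ) : ℤ) ≤
            (((∑ i, ∑ j, a i j * α j + 2 * ∑ i, α i) * n : ℕ) : ℤ) := by
          have h10 : (((k : ℕ) + 1 : ℕ) : ℤ) ≤ ((n * ∑ i, α i : ℕ) : ℤ) := by
            exact_mod_cast h5.trans h7
          have h11 : (((∑ i, ∑ j, a i j * α j + 2 * ∑ i, α i) * n : ℕ) : ℤ) =
              (((∑ i, ∑ j, a i j * α j) * n : ℕ) : ℤ) + 2 * ((n * ∑ i, α i : ℕ) : ℤ) := by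
            push_cast
            ring
          rw [h11]
          linarith
        have h10 := Int.toNat_le.2 h9
        omega
  refine (Finset.prod_le_prod' (fun k _ => h1 k)).trans ?_
  rw [Finset.prod_mul_distrib]
  refine Nat.mul_le_mul_right _ ?_
  rw [← KG5_prod_Icc (fun l => if l ≤ L then G l else 1) K, ← Finset.prod_filter]
  refine Finset.prod_le_prod_of_subset_of_one_le' ?_ (fun l _ _ => hG1 l)
  intro l hl
  rw [Finset.mem_filter, Finset.mem_Icc] at hl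
  rw [Finset.mem_Icc]
  exact ⟨hl.1.1, hl.2⟩

theorem f_upper (a : I → I → ℕ) (hg : GoodMat a)
    (f : (I → ℕ) → ℚ) (hK : KacData a f) (hf : ∀ β, 0 ≤ f β) (α : I →₀ ℕ) (hα : Ample a α)
    (hne : Nonempty I) (ε : ℝ) (hε : 0 < ε) (q : ℕ) (hq : 1 ≤ q) :
    ∃ (n0 T : ℕ) (C : ℝ), 1 ≤ C ∧ ∀ n : ℕ, n0 ≤ n →
      ((f (n • α) : ℚ) : ℝ) ≤
        Real.exp (((n : ℝ) + (n : ℝ) / q + T) * hsup a α) * (C * Real.exp (ε * n)) := by
  obtain ⟨L0, hL0, C, hC, hgen⟩ :=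
    gen_bound_eps (fun i => α i) (∑ i, ∑ j, a i j * α j + 2 * ∑ i, α i) ε hε
  obtain ⟨n0, T, hwin⟩ := window a hg α hα q hq L0 hL0
  refine ⟨max n0 1, T, C, hC, fun n hn => ?_⟩
  have hn0 : n0 ≤ n := (le_max_left _ _).trans hn
  have hn1 : 1 ≤ n := (le_max_right _ _).trans hn
  have hα' := Ample.nsmul hα n hn1
  have hcw : ∀ i, 0 ≤ -cw a (n • α) i := by
    intro i
    by_cases hi : a i i = 0
    · exact hα'.pos i hi
    · exact (hα'.posl i hi).le
  have hne0 : n • α ≠ 0 := by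
    obtain ⟨i⟩ := hne
    intro h0
    have h1 := hα'.supp i
    rw [h0] at h1
    simp at h1
  have h1 := f_le_Msum a hg.symm hg.diag f hK hf (n • α) hne0 (tdeg (n • α)) le_rfl
    (fun i => by
      have := hcw i
      positivity)
  set K : ℕ := tdeg (n • α) with hKdef
  have h2 : ((f (n • α) : ℚ) : ℝ) ≤ ((Msum a K 2 (n • α) : ℚ) : ℝ) := by exact_mod_cast h1
  refine h2.trans ?_
  set E : ℝ := Real.exp (((n : ℝ) + (n : ℝ) / q + T) * hsup a α) with hE
  have hE0 : 0 ≤ E := (Real.exp_pos _).le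
  have hterm : ∀ m ∈ (Mset K (n • α)).filter (fun m => ∀ (k : Fin K) (i : I),
      0 ≤ PLF a m ((k : ℕ) + 1) i + ((k : ℤ) + 1) * ((2 : ℕ) : ℤ)),
      ((∏ k : Fin K, ∏ i : I,
        ((PLF a m ((k : ℕ) + 1) i + ((k : ℤ) + 1) * ((2 : ℕ) : ℤ)).toNat + m k i).choose (m k i) :
          ℕ) : ℝ) ≤ E * ∏ l : Fin K, ∏ i : I,
        (if L0 ≤ (l : ℕ) then ((((∑ i, ∑ j, a i j * α j + 2 * ∑ i, α i) * n + m l i).choose
          (m l i) : ℕ) : ℝ) else 1) := by
    intro m hm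
    obtain ⟨hm1, hm2⟩ := Finset.mem_filter.1 hm
    obtain ⟨L, κ, n', hL, hκ, hn', hn'', m', hm', hprod⟩ := hwin n hn0 K m hm1
      (fun k i => by simpa using hm2 k i)
    have h3 := KG5_term a α m hm1 L L0 hL
    have h4 := h3.trans (Nat.mul_le_mul_right _ hprod)
    have h5 : ((∏ k : Fin K, ∏ i : I,
        ((PLF a m ((k : ℕ) + 1) i + ((k : ℤ) + 1) * ((2 : ℕ) : ℤ)).toNat + m k i).choose (m k i) :
          ℕ) : ℝ) ≤ (EW a m' : ℝ) * ∏ l : Fin K, ∏ i : I,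
        (if L0 ≤ (l : ℕ) then ((((∑ i, ∑ j, a i j * α j + 2 * ∑ i, α i) * n + m l i).choose
          (m l i) : ℕ) : ℝ) else 1) := by
      have h6 : ((∏ k : Fin K, ∏ i : I,
        ((PLF a m ((k : ℕ) + 1) i + ((k : ℤ) + 1) * ((2 : ℕ) : ℤ)).toNat + m k i).choose (m k i) :
          ℕ) : ℝ) ≤ ((EW a m' * ∏ k : Fin K, ∏ i : I, (if L0 ≤ (k : ℕ) then
        (((∑ i, ∑ j, a i j * α j + 2 * ∑ i, α i) * n + m k i).choose (m k i)) else 1) : ℕ) : ℝ) :=
        Nat.cast_le.2 h4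
      refine h6.trans (le_of_eq ?_)
      rw [Nat.cast_mul, Nat.cast_prod]
      congr 1
      refine Finset.prod_congr rfl (fun k _ => ?_)
      rw [Nat.cast_prod]
      refine Finset.prod_congr rfl (fun i _ => ?_)
      split_ifs
      · rfl
      · simp
    refine h5.trans (mul_le_mul_of_nonneg_right ?_ ?_)
    · refine (le_hsup a α hα κ n' hκ hn' m' hm').trans ?_
      rw [hE]
      refine Real.exp_le_exp.2 (mul_le_mul_of_nonneg_right ?_ (hsup_nonneg a hg α hα))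
      have h7 : (n' : ℝ) ≤ ((n + n / q + T : ℕ) : ℝ) := by exact_mod_cast hn''
      have h8 : ((n / q : ℕ) : ℝ) ≤ (n : ℝ) / q := Nat.cast_div_le
      push_cast at h7
      linarith
    · refine Finset.prod_nonneg (fun l _ => Finset.prod_nonneg (fun i _ => ?_))
      split_ifs
      · exact Nat.cast_nonneg _
      · exact zero_le_one
  have h3 : ((Msum a K 2 (n • α) : ℚ) : ℝ) =
      ∑ m ∈ (Mset K (n • α)).filter (fun m => ∀ (k : Fin K) (i : I),
      0 ≤ PLF a m ((k : ℕ) + 1) i + ((k : ℤ) + 1) * ((2 : ℕ) : ℤ)),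
      ((∏ k : Fin K, ∏ i : I,
        ((PLF a m ((k : ℕ) + 1) i + ((k : ℤ) + 1) * ((2 : ℕ) : ℤ)).toNat + m k i).choose (m k i) :
          ℕ) : ℝ) := by
    unfold Msum
    push_cast
    rfl
  rw [h3]
  refine (Finset.sum_le_sum hterm).trans ?_
  rw [← Finset.mul_sum]
  refine mul_le_mul_of_nonneg_left ?_ hE0
  refine le_trans ?_ (hgen n K)
  rw [← KG5_coe]
  refine Finset.sum_le_sum_of_subset_of_nonneg (Finset.filter_subset _ _) (fun m _ _ => ?_)
  refine Finset.prod_nonneg (fun l _ => Finset.prod_nonneg (fun i _ => ?_))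
  split_ifs
  · exact Nat.cast_nonneg _
  · exact zero_le_one

end Pool.Agent.H27.KAC
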