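import Pool.Agent.H27.KAC.KL5

/-!
KAC part V: definitions for the growth theorem.
-/

namespace Pool.Agent.H27.KAC

open scoped BigOperators
open MvPowerSeries

section

variable {I : Type} [Fintype I] [DecidableEq I]

/-- admissible multipartitions of `β` with parts at most `K`. -/
def Adm (a : I → I → ℕ) {K : ℕ} (β : I →₀ ℕ) (m : Fin K → I → ℕ) : Prop :=
  m ∈ Mset K β ∧ (∀ i, 1 ≤ mAt m 1 i) ∧ ∀ l, 1 ≤ l → l < K → ∀ i, 1 ≤ PLF a m l i

/-- the entropy weight of a multipartition. -/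
def EW (a : I → I → ℕ) {K : ℕ} (m : Fin K → I → ℕ) : ℕ :=
  ∏ l ∈ Finset.Icc 1 K, ∏ i, ((PLF a m l i).toNat + mAt m l i).choose (mAt m l i)

end

end Pool.Agent.H27.KAC
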