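import Pool.Agent.H27.KAC.KG5

/-!
KAC module KGMain: the growth theorem for ample vectors.

`l = hsup a α`.
* lower bound: given `η > 0` choose `K ≥ 2`, `n0 ≥ 1`, `m0` admissible for `n0 α` with
  `log (EW m0) / n0 ≥ hsup - η` (`exists_lt_of_lt_csSup`).  For large `n` write `n = q' n0 + r` with
  `N0 ≤ r < N0 + n0` (`Adm_exists`, N0 ≥ 1), add `q'` copies of `m0` and one admissible `m_r`
  (`Adm_add`, `EW_add`, `EW_pos`): `EW m ≥ (EW m0)^q'`; with `EW_le_f`:
  `log f(nα) ≥ q' log (EW m0) - C log (C n)`; in particular `f(nα) > 0`.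
* upper bound: `f_upper` with `ε` and `q` large.
-/

namespace Pool.Agent.H27.KAC

open scoped BigOperators
open MvPowerSeries Filter Topology

variable {I : Type} [Fintype I] [DecidableEq I]

theorem kGMain_log (C : ℝ) (hC : 0 < C) :
    Tendsto (fun n : ℕ => Real.log (C * n) / n) atTop (𝓝 0) := by
  have h1 : Tendsto (fun y : ℝ => Real.log y / y) atTop (𝓝 0) := by
    have := Real.isLittleO_log_id_atTop.tendsto_div_nhds_zero
    simpa using this
  have h2 : Tendsto (fun n : ℕ => C * (n : ℝ)) atTop atTop :=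
    (tendsto_natCast_atTop_atTop).const_mul_atTop hC
  have h3 := (h1.comp h2).const_mul C
  rw [mul_zero] at h3
  refine h3.congr' ?_
  filter_upwards [eventually_ge_atTop 1] with n hn
  have hn' : (n : ℝ) ≠ 0 := by
    have : (0 : ℝ) < n := by exact_mod_cast hn
    exact this.ne'
  have hC' : C ≠ 0 := hC.ne'
  simp only [Function.comp]
  field_simp

theorem kGMain_cw {a : I → I → ℕ} {β : I →₀ ℕ} (h : Ample a β) (i : I) : 0 ≤ -cw a β i := by
  by_cases h0 : a i i = 0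
  · exact h.pos i h0
  · exact (h.posl i h0).le

theorem kGMain_iter (a : I → I → ℕ) (α : I →₀ ℕ) (hα : Ample a α) {K : ℕ} (n0 r : ℕ)
    (hn0 : 1 ≤ n0) (hr : 1 ≤ r) (m0 mr : Fin K → I → ℕ) (h0 : Adm a (n0 • α) m0)
    (hr' : Adm a (r • α) mr) (q : ℕ) :
    ∃ m : Fin K → I → ℕ, Adm a ((q * n0 + r) • α) m ∧ (EW a m0) ^ q ≤ EW a m := by
  induction q with
  | zero =>
    refine ⟨mr, ?_, ?_⟩
    · rw [Nat.zero_mul, Nat.zero_add]
      exact hr'
    · rw [pow_zero]
      exact EW_pos a mr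
  | succ q ih =>
    obtain ⟨m, hm, hE⟩ := ih
    have hA0 : Ample a (n0 • α) := hα.nsmul n0 hn0
    have hA1 : Ample a ((q * n0 + r) • α) := hα.nsmul _ (by omega)
    have h1 := Adm_add a _ _ m0 m h0 hm
    have h2 := EW_add a _ _ m0 m h0 hm (fun i => kGMain_cw hA0 i) (fun i => kGMain_cw hA1 i)
    rw [← add_smul] at h1
    refine ⟨fun k i => m0 k i + m k i, ?_, ?_⟩
    · have h3 : (q + 1) * n0 + r = n0 + (q * n0 + r) := by ring
      rw [h3]
      exact h1
    · refine le_trans ?_ h2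
      rw [pow_succ, mul_comm]
      exact Nat.mul_le_mul_left _ hE

theorem kGMain_coe (f : (I → ℕ) → ℚ) (α : I →₀ ℕ) (n : ℕ) :
    f (fun i => n * α i) = f (n • α) := by
  congr 1

/-- lower bound from one admissible multipartition. -/
theorem kGMain_lower (a : I → I → ℕ) (hg : GoodMat a) (hc : Conn a) (hne : Nonempty I)
    (f : (I → ℕ) → ℚ) (hK : KacData a f) (α : I →₀ ℕ) (h : Ample a α) (K n0 : ℕ) (hK2 : 2 ≤ K)
    (hn0 : 1 ≤ n0) (m0 : Fin K → I → ℕ) (h0 : Adm a (n0 • α) m0) :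
    ∃ (N1 C : ℕ), 1 ≤ N1 ∧ 1 ≤ C ∧ ∀ n : ℕ, N1 ≤ n → 0 < f (fun i => n * α i) ∧
      (1 - ((N1 : ℝ) + n0) / n) * (Real.log (EW a m0) / n0) - C * (Real.log (C * n) / n) ≤
        Real.log ((f (fun i => n * α i) : ℚ) : ℝ) / n := by
  obtain ⟨N0, hN0⟩ := Adm_exists a hg α h K hK2
  obtain ⟨C, hC1, hC⟩ := EW_le_f a hg hc hne f hK α h K hK2
  refine ⟨max N0 1, C, le_max_right _ _, hC1, ?_⟩
  intro n hn
  have hN1 : 1 ≤ max N0 1 := le_max_right _ _
  have hN0' : N0 ≤ max N0 1 := le_max_left _ _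
  generalize max N0 1 = N1 at *
  -- division with remainder
  set q := (n - N1) / n0 with hq
  set r := n - q * n0 with hr
  have hdiv : q * n0 ≤ n - N1 := Nat.div_mul_le_self _ _
  have hlt : n - N1 < (q + 1) * n0 := by
    rw [hq, add_mul, one_mul]
    have := Nat.lt_div_mul_add (a := n - N1) (b := n0) (by omega)
    exact this
  have hrN : N1 ≤ r := by omega
  have hqr : q * n0 + r = n := by omega
  obtain ⟨mr, hmr⟩ := hN0 r (hN0'.trans hrN)
  obtain ⟨m, hm, hE⟩ := kGMain_iter a α h n0 r hn0 (hN1.trans hrN) m0 mr h0 hmr q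
  rw [hqr] at hm
  have hn1 : 1 ≤ n := hN1.trans hn
  have hnpos : (0 : ℝ) < n := by exact_mod_cast hn1
  have hCpos : (0 : ℝ) < C := by exact_mod_cast hC1
  have hn0pos : (0 : ℝ) < n0 := by exact_mod_cast hn0
  have h1 := hC n hn1 m hm
  have hE1 : (1 : ℝ) ≤ EW a m0 := by exact_mod_cast EW_pos a m0
  have hE2 : ((EW a m0 : ℝ)) ^ q ≤ EW a m := by exact_mod_cast hE
  have hE3 : (1 : ℝ) ≤ (EW a m0 : ℝ) ^ q := one_le_pow₀ hE1
  have hpow : (0 : ℝ) < ((C : ℝ) * n) ^ C := by positivity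
  have hfpos : (0 : ℝ) < ((f (n • α) : ℚ) : ℝ) := by
    by_contra hcon
    push Not at hcon
    have : ((C : ℝ) * n) ^ C * ((f (n • α) : ℚ) : ℝ) ≤ 0 :=
      mul_nonpos_of_nonneg_of_nonpos hpow.le hcon
    linarith
  rw [kGMain_coe f α n]
  refine ⟨by exact_mod_cast hfpos, ?_⟩
  have hlog : (q : ℝ) * Real.log (EW a m0) ≤
      C * Real.log (C * n) + Real.log ((f (n • α) : ℚ) : ℝ) := by
    have h2 : Real.log ((EW a m0 : ℝ) ^ q) ≤
        Real.log (((C : ℝ) * n) ^ C * ((f (n • α) : ℚ) : ℝ)) :=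
      Real.log_le_log (by positivity) (hE2.trans h1)
    rw [Real.log_pow, Real.log_mul hpow.ne' hfpos.ne', Real.log_pow] at h2
    exact h2
  have hE0 : 0 ≤ Real.log (EW a m0) := Real.log_nonneg hE1
  have hqn : ((n : ℝ) - N1 - n0) / n0 ≤ q := by
    rw [div_le_iff₀ hn0pos]
    have h3 : n < (q + 1) * n0 + N1 := by omega
    have h4 : (n : ℝ) < (q + 1) * n0 + N1 := by exact_mod_cast h3
    linarith
  have h5 : ((n : ℝ) - N1 - n0) / n0 * Real.log (EW a m0) ≤ q * Real.log (EW a m0) :=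
    mul_le_mul_of_nonneg_right hqn hE0
  rw [le_div_iff₀ hnpos]
  have h6 : ((1 - ((N1 : ℝ) + n0) / n) * (Real.log (EW a m0) / n0) -
      C * (Real.log (C * n) / n)) * n =
      ((n : ℝ) - N1 - n0) / n0 * Real.log (EW a m0) - C * Real.log (C * n) := by
    field_simp
    ring
  rw [h6]
  linarith

theorem growth_Ample (a : I → I → ℕ) (hg : GoodMat a) (hc : Conn a) (hne : Nonempty I)
    (f : (I → ℕ) → ℚ) (hK : KacData a f) (hf : ∀ β, 0 ≤ f β) (α : I →₀ ℕ) (h : Ample a α) :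
    ∃ l : ℝ, 0 ≤ l ∧ (∀ᶠ n : ℕ in atTop, 0 < f (fun i => n * α i)) ∧
      Tendsto (fun n : ℕ => Real.log ((f (fun i => n * α i) : ℚ) : ℝ) / n) atTop (𝓝 l) := by
  -- the set of the supremum is nonempty
  have hnon : {x : ℝ | ∃ K n : ℕ, 2 ≤ K ∧ 1 ≤ n ∧ ∃ m : Fin K → I → ℕ, Adm a (n • α) m ∧
      x = Real.log (EW a m) / n}.Nonempty := by
    obtain ⟨N0, hN0⟩ := Adm_exists a hg α h 2 le_rfl
    obtain ⟨m, hm⟩ := hN0 (max N0 1) (le_max_left _ _)
    exact ⟨_, 2, max N0 1, le_rfl, le_max_right _ _, m, hm, rfl⟩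
  have hpos : ∀ᶠ n : ℕ in atTop, 0 < f (fun i => n * α i) := by
    obtain ⟨x, K, n0, hK2, hn0, m0, hm0, -⟩ := hnon
    obtain ⟨N1, C, hN1, hC1, hlow⟩ := kGMain_lower a hg hc hne f hK α h K n0 hK2 hn0 m0 hm0
    filter_upwards [eventually_ge_atTop N1] with n hn
    exact (hlow n hn).1
  refine ⟨hsup a α, hsup_nonneg a hg α h, hpos, ?_⟩
  have hinv : Tendsto (fun n : ℕ => ((n : ℝ))⁻¹) atTop (𝓝 0) :=
    tendsto_inv_atTop_nhds_zero_nat
  refine tendsto_order.2 ⟨?_, ?_⟩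
  · intro b hb
    obtain ⟨x, ⟨K, n0, hK2, hn0, m0, hm0, rfl⟩, hbx⟩ := exists_lt_of_lt_csSup hnon hb
    obtain ⟨N1, C, hN1, hC1, hlow⟩ := kGMain_lower a hg hc hne f hK α h K n0 hK2 hn0 m0 hm0
    have hCpos : (0 : ℝ) < C := by exact_mod_cast hC1
    have hlim : Tendsto (fun n : ℕ => (1 - ((N1 : ℝ) + n0) / n) * (Real.log (EW a m0) / n0) -
        C * (Real.log (C * n) / n)) atTop
        (𝓝 ((1 - 0) * (Real.log (EW a m0) / n0) - C * 0)) := by
      refine Tendsto.sub (Tendsto.mul_const _ (Tendsto.sub tendsto_const_nhds ?_))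
        ((kGMain_log C hCpos).const_mul _)
      have := hinv.const_mul ((N1 : ℝ) + n0)
      rw [mul_zero] at this
      exact this
    rw [sub_zero, one_mul, mul_zero, sub_zero] at hlim
    filter_upwards [hlim.eventually (lt_mem_nhds hbx), eventually_ge_atTop N1] with n h1 h2
    exact lt_of_lt_of_le h1 (hlow n h2).2
  · intro b hb
    have hε : 0 < (b - hsup a α) / 3 := by linarith
    have hh0 := hsup_nonneg a hg α h
    obtain ⟨q, hq⟩ := exists_nat_gt (hsup a α / ((b - hsup a α) / 3))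
    have hq0 : (0 : ℝ) < q := lt_of_le_of_lt (by positivity) hq
    have hq1 : 1 ≤ q := by
      have : 0 < q := by exact_mod_cast hq0
      omega
    have hqh : hsup a α / q < (b - hsup a α) / 3 := by
      rw [div_lt_iff₀ hε] at hq
      rw [div_lt_iff₀ hq0]
      linarith
    obtain ⟨N2, T, C, hC1, hup⟩ := f_upper a hg f hK hf α h hne _ hε q hq1
    have hlim : Tendsto (fun n : ℕ => (1 + 1 / (q : ℝ) + T * (n : ℝ)⁻¹) * hsup a α +
        Real.log C * (n : ℝ)⁻¹ + (b - hsup a α) / 3) atTop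
        (𝓝 ((1 + 1 / (q : ℝ) + T * 0) * hsup a α + Real.log C * 0 + (b - hsup a α) / 3)) :=
      (((tendsto_const_nhds.add (hinv.const_mul _)).mul_const _).add (hinv.const_mul _)).add
        tendsto_const_nhds
    have hlt : (1 + 1 / (q : ℝ) + T * 0) * hsup a α + Real.log C * 0 + (b - hsup a α) / 3 < b := by
      have h1 : 1 / (q : ℝ) * hsup a α = hsup a α / q := by ring
      have h2 : (1 + 1 / (q : ℝ) + T * 0) * hsup a α + Real.log C * 0 + (b - hsup a α) / 3 =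
          hsup a α + 1 / (q : ℝ) * hsup a α + (b - hsup a α) / 3 := by ring
      rw [h2, h1]
      linarith
    filter_upwards [hlim.eventually (gt_mem_nhds hlt), eventually_ge_atTop N2,
      eventually_ge_atTop 1, hpos] with n h1 h2 h3 h4
    refine lt_of_le_of_lt ?_ h1
    have hnpos : (0 : ℝ) < n := by exact_mod_cast h3
    have h5 := hup n h2
    rw [kGMain_coe f α n] at h4 ⊢
    have h6 : (0 : ℝ) < ((f (n • α) : ℚ) : ℝ) := by exact_mod_cast h4
    have hCpos : (0 : ℝ) < C := by linarith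
    have h7 := Real.log_le_log h6 h5
    rw [Real.log_mul (Real.exp_pos _).ne' (mul_pos hCpos (Real.exp_pos _)).ne',
      Real.log_mul hCpos.ne' (Real.exp_pos _).ne', Real.log_exp, Real.log_exp] at h7
    rw [div_le_iff₀ hnpos]
    refine h7.trans (le_of_eq ?_)
    field_simp
    ring

end Pool.Agent.H27.KAC
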