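import Pool.Agent.H27.KAC.KHDefs

/-!
KAC module KH1: elementary properties of the entropy `ent P m = (P + m) log (P + m) - P log P - m log m`.

* `ent_add` (superadditivity = concavity of a function homogeneous of degree one): log sum inequality
  `a log (a/c) + b log (b/d) ≥ (a + b) log ((a + b)/(c + d))` applied twice, or `ent_dual` with the optimal
  `x = (m + m') / (P + P' + m + m')`: `ent (P+P') (m+m') = - (m+m') log x - (P+P') log (1-x)` and `ent_dual` for both terms
  (cases with a zero argument separately).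
* `ent_dual`: minimum over `x` of the right side (tangent line); for `P, m > 0` use `log t ≤ t - 1` with
  `t = x (P+m)/m` and `t = (1-x)(P+m)/P`.
* `ent_mono` from `ent_add` and `ent_nonneg`.
* continuity: `Real.continuous_mul_log` or `Real.negMulLog`.
* `log_choose_le`: `C(P+m, m) x^m (1-x)^P ≤ 1` for `x = m/(P+m)` (one term of the binomial expansion of `(x + (1-x))^(P+m)`).
* `ent_le_log_choose`: the term `j = m` of `∑_j C(n, j) x^j (1-x)^(n-j) = 1`, `n = P + m`, `x = m/n`, is the largest of
  the `n + 1` terms (ratio of consecutive terms), so it is at least `1/(n+1)`.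
-/

set_option autoImplicit false

namespace Pool.Agent.H27.KAC

open scoped BigOperators

theorem ent_zero_left (m : ℝ) : ent 0 m = 0 := by
  simp [ent]

theorem ent_zero_right (P : ℝ) : ent P 0 = 0 := by
  simp [ent]

theorem ent_continuous : Continuous (fun p : ℝ × ℝ => ent p.1 p.2) := by
  unfold ent
  exact ((Real.continuous_mul_log.comp (continuous_fst.add continuous_snd)).sub
    (Real.continuous_mul_log.comp continuous_fst)).sub
    (Real.continuous_mul_log.comp continuous_snd)

private theorem KH1_mul_log {t x : ℝ} (ht : 0 < t) :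
    (t * x) * Real.log (t * x) = t * (x * Real.log x) + t * x * Real.log t := by
  rcases eq_or_ne x 0 with rfl | hx
  · simp
  · rw [Real.log_mul ht.ne' hx]; ring

theorem ent_smul {t P m : ℝ} (ht : 0 ≤ t) (hP : 0 ≤ P) (hm : 0 ≤ m) :
    ent (t * P) (t * m) = t * ent P m := by
  rcases ht.eq_or_lt with rfl | ht
  · simp [ent]
  · unfold ent
    rw [← mul_add, KH1_mul_log ht, KH1_mul_log ht, KH1_mul_log ht]
    ring

private theorem KH1_tangent {a b : ℝ} (ha : 0 ≤ a) (hb : 0 < b) :
    a * Real.log b - a * Real.log a ≤ b - a := by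
  rcases ha.eq_or_lt with rfl | ha
  · simpa using hb.le
  · have h1 : Real.log (b / a) ≤ b / a - 1 := Real.log_le_sub_one_of_pos (div_pos hb ha)
    rw [Real.log_div hb.ne' ha.ne'] at h1
    have h2 := mul_le_mul_of_nonneg_left h1 ha.le
    have h3 : a * (b / a - 1) = b - a := by field_simp
    rw [h3] at h2
    linarith

theorem ent_dual {P m x : ℝ} (hP : 0 ≤ P) (hm : 0 ≤ m) (h0 : 0 < x) (h1 : x < 1) :
    ent P m ≤ -(m * Real.log x) - P * Real.log (1 - x) := by
  unfold ent
  rcases (add_nonneg hP hm).eq_or_lt with h | h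
  · have hP0 : P = 0 := by linarith
    have hm0 : m = 0 := by linarith
    simp [hP0, hm0]
  · have hx1 : 0 < 1 - x := by linarith
    have e1 := KH1_tangent hm (mul_pos h0 h)
    have e2 := KH1_tangent hP (mul_pos hx1 h)
    rw [Real.log_mul h0.ne' h.ne'] at e1
    rw [Real.log_mul hx1.ne' h.ne'] at e2
    nlinarith [e1, e2]

theorem ent_nonneg {P m : ℝ} (hP : 0 ≤ P) (hm : 0 ≤ m) : 0 ≤ ent P m := by
  have key : ∀ a b : ℝ, 0 ≤ a → 0 ≤ b → a * Real.log a ≤ a * Real.log (a + b) := by
    intro a b ha hb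
    rcases ha.eq_or_lt with rfl | ha
    · simp
    · exact mul_le_mul_of_nonneg_left (Real.log_le_log ha (by linarith)) ha.le
  have e1 := key P m hP hm
  have e2 := key m P hm hP
  rw [add_comm m P] at e2
  unfold ent
  nlinarith [e1, e2]

theorem ent_add {P m P' m' : ℝ} (hP : 0 ≤ P) (hm : 0 ≤ m) (hP' : 0 ≤ P') (hm' : 0 ≤ m') :
    ent P m + ent P' m' ≤ ent (P + P') (m + m') := by
  rcases (add_nonneg hm hm').eq_or_lt with h | hM
  · have h1 : m = 0 := by linarith
    have h2 : m' = 0 := by linarith
    simp [h1, h2, ent_zero_right]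
  rcases (add_nonneg hP hP').eq_or_lt with h | hQ
  · have h1 : P = 0 := by linarith
    have h2 : P' = 0 := by linarith
    simp [h1, h2, ent_zero_left]
  have hS : 0 < (P + P') + (m + m') := by linarith
  set x : ℝ := (m + m') / ((P + P') + (m + m')) with hx
  have hx0 : 0 < x := div_pos hM hS
  have hx1 : x < 1 := by rw [hx, div_lt_one hS]; linarith
  have e1 := ent_dual hP hm hx0 hx1
  have e2 := ent_dual hP' hm' hx0 hx1
  have hlx : Real.log x = Real.log (m + m') - Real.log ((P + P') + (m + m')) := by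
    rw [hx, Real.log_div hM.ne' hS.ne']
  have hl1 : Real.log (1 - x) = Real.log (P + P') - Real.log ((P + P') + (m + m')) := by
    rw [← Real.log_div hQ.ne' hS.ne']
    congr 1
    rw [hx]
    field_simp
    ring
  rw [hlx, hl1] at e1 e2
  have e3 : ent (P + P') (m + m') = ((P + P') + (m + m')) * Real.log ((P + P') + (m + m'))
      - (P + P') * Real.log (P + P') - (m + m') * Real.log (m + m') := rfl
  rw [e3]
  nlinarith [e1, e2]

theorem ent_mono {P m P' m' : ℝ} (hP : 0 ≤ P) (hm : 0 ≤ m) (h1 : P ≤ P') (h2 : m ≤ m') :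
    ent P m ≤ ent P' m' := by
  have e1 := ent_add hP hm (sub_nonneg.2 h1) (sub_nonneg.2 h2)
  have e2 := ent_nonneg (sub_nonneg.2 h1) (sub_nonneg.2 h2)
  rw [add_sub_cancel, add_sub_cancel] at e1
  linarith

private theorem KH1_pow_log (k : ℕ) : Real.log ((k : ℝ) ^ k) = k * Real.log k := by
  rw [Real.log_pow]

theorem log_choose_le (P m : ℕ) : Real.log ((P + m).choose m) ≤ ent P m := by
  have h1 : m ^ m * P ^ P * (P + m).choose m ≤ (m + P) ^ (m + P) := by
    rw [add_pow]
    have h2 := Finset.single_le_sum (f := fun k => m ^ k * P ^ (m + P - k) * (m + P).choose k)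
      (s := Finset.range (m + P + 1)) (fun _ _ => Nat.zero_le _)
      (Finset.mem_range.2 (show m < m + P + 1 by omega))
    simpa [Nat.add_comm P m] using h2
  have h2 : ((m : ℝ) ^ m * (P : ℝ) ^ P * ((P + m).choose m : ℝ)) ≤ ((m : ℝ) + P) ^ (m + P) := by
    exact_mod_cast h1
  have hc : 0 < ((P + m).choose m : ℝ) := by
    exact_mod_cast Nat.choose_pos (by omega)
  have pp : ∀ k : ℕ, 0 < (k : ℝ) ^ k := by
    intro k
    rcases Nat.eq_zero_or_pos k with rfl | hk
    · simp
    · have : (0 : ℝ) < k := by exact_mod_cast hk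
      positivity
  have h3 := Real.log_le_log (mul_pos (mul_pos (pp m) (pp P)) hc) h2
  rw [Real.log_mul (mul_pos (pp m) (pp P)).ne' hc.ne', Real.log_mul (pp m).ne' (pp P).ne',
    KH1_pow_log, KH1_pow_log, Real.log_pow] at h3
  unfold ent
  push_cast at h3
  rw [add_comm (P : ℝ) (m : ℝ)]
  linarith

private theorem KH1_up {P m j : ℕ} (hP : 0 < P) (hj : j < m) :
    m ^ j * P ^ (m + P - j) * (m + P).choose j ≤
      m ^ (j + 1) * P ^ (m + P - (j + 1)) * (m + P).choose (j + 1) := by
  have h1 : (m + P).choose (j + 1) * (j + 1) = (m + P).choose j * (m + P - j) :=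
    Nat.choose_succ_right_eq _ _
  have h2 : P ^ (m + P - j) = P ^ (m + P - (j + 1)) * P := by
    rw [← pow_succ]; congr 1; omega
  have h3 : (j + 1) * P ≤ (m + P - j) * m := by
    obtain ⟨d, rfl⟩ := Nat.exists_eq_add_of_lt hj
    have : j + d + 1 + P - j = d + 1 + P := by omega
    rw [this]
    nlinarith
  refine Nat.le_of_mul_le_mul_left (c := j + 1) ?_ (Nat.succ_pos j)
  calc (j + 1) * (m ^ j * P ^ (m + P - j) * (m + P).choose j)
      = m ^ j * P ^ (m + P - (j + 1)) * (m + P).choose j * ((j + 1) * P) := by rw [h2]; ring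
    _ ≤ m ^ j * P ^ (m + P - (j + 1)) * (m + P).choose j * ((m + P - j) * m) :=
        Nat.mul_le_mul_left _ h3
    _ = m ^ (j + 1) * P ^ (m + P - (j + 1)) * ((m + P).choose j * (m + P - j)) := by ring
    _ = (j + 1) * (m ^ (j + 1) * P ^ (m + P - (j + 1)) * (m + P).choose (j + 1)) := by
        rw [← h1]; ring

private theorem KH1_down {P m j : ℕ} (hP : 0 < P) (hj : m ≤ j) (hjn : j < m + P) :
    m ^ (j + 1) * P ^ (m + P - (j + 1)) * (m + P).choose (j + 1) ≤
      m ^ j * P ^ (m + P - j) * (m + P).choose j := by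
  have h1 : (m + P).choose (j + 1) * (j + 1) = (m + P).choose j * (m + P - j) :=
    Nat.choose_succ_right_eq _ _
  have h2 : P ^ (m + P - j) = P ^ (m + P - (j + 1)) * P := by
    rw [← pow_succ]; congr 1; omega
  have h3 : (m + P - j) * m ≤ (j + 1) * P := by
    obtain ⟨d, rfl⟩ := Nat.exists_eq_add_of_le hj
    have : m + P - (m + d) ≤ P := by omega
    calc (m + P - (m + d)) * m ≤ P * m := Nat.mul_le_mul_right _ this
      _ ≤ (m + d + 1) * P := by nlinarith
  refine Nat.le_of_mul_le_mul_left (c := j + 1) ?_ (Nat.succ_pos j)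
  calc (j + 1) * (m ^ (j + 1) * P ^ (m + P - (j + 1)) * (m + P).choose (j + 1))
      = m ^ (j + 1) * P ^ (m + P - (j + 1)) * ((m + P).choose j * (m + P - j)) := by
        rw [← h1]; ring
    _ = m ^ j * P ^ (m + P - (j + 1)) * (m + P).choose j * ((m + P - j) * m) := by ring
    _ ≤ m ^ j * P ^ (m + P - (j + 1)) * (m + P).choose j * ((j + 1) * P) :=
        Nat.mul_le_mul_left _ h3
    _ = (j + 1) * (m ^ j * P ^ (m + P - j) * (m + P).choose j) := by rw [h2]; ring

private theorem KH1_max {P m : ℕ} (hP : 0 < P) (j : ℕ) (hj : j ≤ m + P) :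
    m ^ j * P ^ (m + P - j) * (m + P).choose j ≤ m ^ m * P ^ (m + P - m) * (m + P).choose m := by
  rcases le_total j m with h | h
  · obtain ⟨d, rfl⟩ := Nat.exists_eq_add_of_le h
    -- induction on the distance
    have key : ∀ e : ℕ, e ≤ d → (j + d) ^ j * P ^ (j + d + P - j) * (j + d + P).choose j ≤
        (j + d) ^ (j + e) * P ^ (j + d + P - (j + e)) * (j + d + P).choose (j + e) := by
      intro e
      induction e with
      | zero => intro _; simp
      | succ e ih =>
        intro he
        exact (ih (by omega)).trans (KH1_up (j := j + e) hP (by omega))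
    exact key d le_rfl
  · obtain ⟨d, rfl⟩ := Nat.exists_eq_add_of_le h
    have key : ∀ e : ℕ, e ≤ d → m ^ (m + e) * P ^ (m + P - (m + e)) * (m + P).choose (m + e) ≤
        m ^ m * P ^ (m + P - m) * (m + P).choose m := by
      intro e
      induction e with
      | zero => intro _; simp
      | succ e ih =>
        intro he
        exact (KH1_down (j := m + e) hP (by omega) (by omega)).trans (ih (by omega))
    exact key d le_rfl

theorem ent_le_log_choose (P m : ℕ) :
    ent P m ≤ Real.log ((P + m).choose m) + Real.log ((P : ℝ) + m + 1) := by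
  rcases Nat.eq_zero_or_pos P with rfl | hP
  · simp only [Nat.cast_zero, ent_zero_left, zero_add, Nat.choose_self, Nat.cast_one, Real.log_one]
    exact Real.log_nonneg (by have : (0 : ℝ) ≤ m := Nat.cast_nonneg m
                              linarith)
  have h1 : (m + P) ^ (m + P) ≤ (m + P + 1) * (m ^ m * P ^ P * (P + m).choose m) := by
    rw [add_pow]
    have h2 : ∀ k ∈ Finset.range (m + P + 1), m ^ k * P ^ (m + P - k) * (m + P).choose k ≤
        m ^ m * P ^ P * (P + m).choose m := by
      intro k hk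
      have := KH1_max (m := m) hP k (by rw [Finset.mem_range] at hk; omega)
      simpa [Nat.add_comm P m] using this
    have h3 := Finset.sum_le_card_nsmul _ _ _ h2
    simpa using h3
  have h2 : ((m : ℝ) + P) ^ (m + P) ≤
      ((m : ℝ) + P + 1) * ((m : ℝ) ^ m * (P : ℝ) ^ P * ((P + m).choose m : ℝ)) := by
    exact_mod_cast h1
  have hc : 0 < ((P + m).choose m : ℝ) := by
    exact_mod_cast Nat.choose_pos (by omega)
  have pp : ∀ k : ℕ, 0 < (k : ℝ) ^ k := by
    intro k
    rcases Nat.eq_zero_or_pos k with rfl | hk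
    · simp
    · have : (0 : ℝ) < k := by exact_mod_cast hk
      positivity
  have hPR : (0 : ℝ) < P := by exact_mod_cast hP
  have hmR : (0 : ℝ) ≤ m := Nat.cast_nonneg m
  have hs : (0 : ℝ) < (m : ℝ) + P := by linarith
  have h3 := Real.log_le_log (pow_pos hs (m + P)) h2
  rw [Real.log_mul (by linarith : (0 : ℝ) < (m : ℝ) + P + 1).ne'
      (mul_pos (mul_pos (pp m) (pp P)) hc).ne',
    Real.log_mul (mul_pos (pp m) (pp P)).ne' hc.ne', Real.log_mul (pp m).ne' (pp P).ne',
    KH1_pow_log, KH1_pow_log, Real.log_pow] at h3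
  unfold ent
  push_cast at h3
  rw [add_comm (P : ℝ) (m : ℝ)]
  linarith

end Pool.Agent.H27.KAC
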