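import Pool.Agent.H27.KAC.KH3
import Pool.Agent.H27.KAC.KG5

/-!
KAC module KH9: `hsup a α ≤ PhiR a α` for ample `α`.

PROOF.  `hsup` is the supremum of a nonempty set (`Adm_exists`), so it is enough to bound one element: `m` admissible for
`n • α` with parts at most `K` (`m : Fin K → I → ℕ`).  Real multipartition `m' l i = mAt m l i / n` (`mAt m l i` = number of parts of size
`l`, zero outside `1..K`); `vacR a K m' k i = PLF a m k i / n`; it is feasible for `α`: the vacancy numbers are `≥ 0` by `Adm`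
for `1 ≤ k < K`, zero for `k = 0`, and for `k ≥ K` equal to `-cw a α i ≥ 0` (`Ample`; compare `PLF_top` in KN or KL).
`log (EW a m) = ∑ log C(P + m, m) ≤ ∑ ent P m = n * EntR a K m'` (`log_choose_le`, `ent_smul`).
-/

set_option autoImplicit false

namespace Pool.Agent.H27.KAC

open scoped BigOperators

variable {I : Type} [Fintype I] [DecidableEq I]

theorem KH9_sum_Icc (g : ℕ → ℝ) : ∀ K : ℕ,
    ∑ l ∈ Finset.Icc 1 K, g l = ∑ l : Fin K, g ((l : ℕ) + 1)
  | 0 => by simp
  | K + 1 => by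
    rw [Finset.sum_Icc_succ_top (by omega), Fin.sum_univ_castSucc, KH9_sum_Icc g K]
    simp

theorem KH9_vac (a : I → I → ℕ) {K : ℕ} (m : Fin K → I → ℕ) (t : ℝ) (k : ℕ) (i : I) :
    vacR a K (fun l j => t * (mAt m l j : ℝ)) k i = t * (PLF a m k i : ℝ) := by
  unfold vacR PLF cR
  rw [KH9_sum_Icc]
  push_cast
  rw [Finset.sum_comm, Finset.mul_sum]
  refine Finset.sum_congr rfl fun l _ => ?_
  rw [← Finset.sum_neg_distrib, Finset.mul_sum, Finset.mul_sum]
  refine Finset.sum_congr rfl fun j _ => ?_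
  rw [KG5_mAt]
  ring

theorem KH9_mass {K : ℕ} (m : Fin K → I → ℕ) (t : ℝ) (β : I → ℕ) (hm : m ∈ Mset K β) (i : I) :
    massR K (fun l j => t * (mAt m l j : ℝ)) i = t * (β i : ℝ) := by
  unfold massR
  rw [KH9_sum_Icc]
  have h : ∑ k : Fin K, ((k : ℕ) + 1) * m k i = β i := (Finset.mem_filter.1 hm).2 i
  rw [← h]
  push_cast
  rw [Finset.mul_sum]
  refine Finset.sum_congr rfl fun l _ => ?_
  rw [KG5_mAt]
  ring

theorem KH9_Adm_vac (a : I → I → ℕ) (α : I →₀ ℕ) (hα : Ample a α) {n K : ℕ}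
    (m : Fin K → I → ℕ) (hm : Adm a (n • α) m) (k : ℕ) (i : I) : 0 ≤ PLF a m k i := by
  rcases Nat.eq_zero_or_pos k with rfl | hk
  · rw [PLF_zero]
  · by_cases h : k < K
    · exact zero_le_one.trans (hm.2.2 k hk h i)
    · rw [PLF_top a (n • α) m hm.1 k (not_lt.1 h) i]
      have h1 : cw a (n • α) i = n * cw a α i := by
        unfold cw
        rw [Finset.mul_sum]
        refine Finset.sum_congr rfl fun j _ => ?_
        simp only [Finsupp.smul_apply, smul_eq_mul]
        push_cast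
        ring
      rw [h1]
      have h2 : 0 ≤ -cw a α i := by
        by_cases h : a i i = 0
        · exact hα.pos i h
        · exact (hα.posl i h).le
      nlinarith [Int.natCast_nonneg n]

/-- an admissible multipartition gives a feasible real one. -/
theorem KH9_feas (a : I → I → ℕ) (α : I →₀ ℕ) (hα : Ample a α) {n K : ℕ} (hn : 1 ≤ n)
    (m : Fin K → I → ℕ) (hm : Adm a (n • α) m) :
    Feas a K (fun l j => (n : ℝ)⁻¹ * (mAt m l j : ℝ)) (fun i => (α i : ℝ)) := by
  have hn' : (0 : ℝ) < n := by exact_mod_cast hn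
  refine ⟨fun l i => by positivity, fun l i h => ?_, fun i => ?_, fun k i => ?_⟩
  · have : mAt m l i = 0 := by
      unfold mAt
      rw [dif_neg]
      omega
    simp [this]
  · rw [KH9_mass m _ _ hm.1]
    simp only [Finsupp.smul_apply, smul_eq_mul]
    push_cast
    field_simp
  · rw [KH9_vac]
    have := KH9_Adm_vac a α hα m hm k i
    have h2 : (0 : ℝ) ≤ (PLF a m k i : ℝ) := by exact_mod_cast this
    positivity

theorem KH9_log_EW (a : I → I → ℕ) {K : ℕ} (m : Fin K → I → ℕ) :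
    Real.log (EW a m) = ∑ l ∈ Finset.Icc 1 K, ∑ i,
      Real.log (((PLF a m l i).toNat + mAt m l i).choose (mAt m l i)) := by
  unfold EW
  rw [Nat.cast_prod, Real.log_prod]
  · refine Finset.sum_congr rfl fun l _ => ?_
    rw [Nat.cast_prod, Real.log_prod]
    intro i _
    exact_mod_cast (Nat.choose_pos (Nat.le_add_left _ _)).ne'
  · intro l _
    rw [Nat.cast_prod]
    refine Finset.prod_ne_zero_iff.2 fun i _ => ?_
    exact_mod_cast (Nat.choose_pos (Nat.le_add_left _ _)).ne'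

theorem KH9_ent (a : I → I → ℕ) (α : I →₀ ℕ) (hα : Ample a α) {n K : ℕ} (hn : 1 ≤ n)
    (m : Fin K → I → ℕ) (hm : Adm a (n • α) m) :
    EntR a K (fun l j => (n : ℝ)⁻¹ * (mAt m l j : ℝ)) =
      (n : ℝ)⁻¹ * ∑ l ∈ Finset.Icc 1 K, ∑ i, ent ((PLF a m l i).toNat : ℝ) (mAt m l i : ℝ) := by
  have hn' : (0 : ℝ) < n := by exact_mod_cast hn
  unfold EntR
  rw [Finset.mul_sum]
  refine Finset.sum_congr rfl fun l _ => ?_
  rw [Finset.mul_sum]
  refine Finset.sum_congr rfl fun i _ => ?_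
  have h1 := KH9_Adm_vac a α hα m hm l i
  have h2 : ((PLF a m l i).toNat : ℝ) = (PLF a m l i : ℝ) := by
    have : (((PLF a m l i).toNat : ℤ) : ℝ) = (PLF a m l i : ℝ) := by rw [Int.toNat_of_nonneg h1]
    exact_mod_cast this
  rw [KH9_vac, h2, ent_smul (by positivity) (by exact_mod_cast h1) (by positivity)]

theorem hsup_le_PhiR (a : I → I → ℕ) (hg : GoodMat a) (α : I →₀ ℕ) (hα : Ample a α) :
    hsup a α ≤ PhiR a (fun i => (α i : ℝ)) := by
  unfold hsup
  refine csSup_le ?_ ?_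
  · obtain ⟨N0, hN0⟩ := Adm_exists a hg α hα 2 le_rfl
    obtain ⟨m, hm⟩ := hN0 (max N0 1) (le_max_left _ _)
    exact ⟨_, 2, max N0 1, le_rfl, le_max_right _ _, m, hm, rfl⟩
  · rintro x ⟨K, n, hK, hn, m, hm, rfl⟩
    have hn' : (0 : ℝ) < n := by exact_mod_cast hn
    refine le_trans ?_ (le_PhiR (KH9_feas a α hα hn m hm))
    rw [KH9_ent a α hα hn m hm, KH9_log_EW, div_eq_inv_mul]
    refine mul_le_mul_of_nonneg_left ?_ (by positivity)
    exact Finset.sum_le_sum fun l _ => Finset.sum_le_sum fun i _ => log_choose_le _ _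

end Pool.Agent.H27.KAC
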