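import Pool.Agent.H27.KAC.KH3
import Pool.Agent.H27.KAC.KH9
import Pool.Agent.H27.KAC.KGMain

/-!
KAC module KH10: `PhiR a α ≤ hsup a α` for ample `α`.

PROOF.  By `PhiR_le` let `m` be feasible for `α` with parts at most `K`; `K ≥ 2` by `Feas.enlarge`, `EntR_enlarge`.
(1) There is a strictly feasible real `m0` with parts at most `K`: `m0` feasible for `α`, `m0 1 i > 0`, `vacR a K m0 k i > 0` for
`1 ≤ k < K` (take `mAt m / n` of an admissible multipartition from `Adm_exists`).  `mη = (1-η) m + η m0` is strictly feasible and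
its entropy is `≥ (1-η) EntR a K m` (`Feas.add`, `Feas.smul`, `EntR_add`).
(2) Integer approximation: for large `n` put `M l i = ⌊n * mη l i⌋₊` for `2 ≤ l ≤ K` and `M 1 i = n * α i - ∑_(2 ≤ l ≤ K) l * M l i`.  Then
`M l i / n → mη l i`, the vacancy numbers divided by `n` converge to those of `mη`, so for large `n` the multipartition `M` is
admissible (`Adm`) for `n • α` (integers `> 0` are `≥ 1`), and `log EW ≥ ∑ (ent (P) (M) - log (P + M + 1))`
(`ent_le_log_choose`), `hsup ≥ log EW / n ≥ ∑ ent (P/n) (M/n) - K |I| log (c n + 1) / n → EntR a K mη`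
(`ent_smul`, `ent_continuous`, `hsup_bdd`, `le_csSup`).
-/

set_option autoImplicit false

namespace Pool.Agent.H27.KAC

open scoped BigOperators
open Filter Topology

variable {I : Type} [Fintype I] [DecidableEq I]

theorem KH10_sum_Icc (g : ℕ → ℕ) : ∀ K : ℕ,
    ∑ l ∈ Finset.Icc 1 K, g l = ∑ l : Fin K, g ((l : ℕ) + 1)
  | 0 => by simp
  | K + 1 => by
    rw [Finset.sum_Icc_succ_top (by omega), Fin.sum_univ_castSucc, KH10_sum_Icc g K]
    simp

theorem KH10_mem {K : ℕ} (β : I → ℕ) (m : Fin K → I → ℕ)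
    (h : ∀ i, ∑ k : Fin K, ((k : ℕ) + 1) * m k i = β i) : m ∈ Mset K β := by
  unfold Mset
  rw [Finset.mem_filter]
  refine ⟨?_, h⟩
  rw [Fintype.mem_piFinset]
  intro k
  rw [Fintype.mem_piFinset]
  intro i
  rw [Finset.mem_range, Nat.lt_succ_iff, ← h i]
  calc m k i ≤ ((k : ℕ) + 1) * m k i := Nat.le_mul_of_pos_left _ (Nat.succ_pos _)
    _ ≤ _ := Finset.single_le_sum (f := fun k : Fin K => ((k : ℕ) + 1) * m k i)
        (fun _ _ => Nat.zero_le _) (Finset.mem_univ k)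

theorem KH10_ent_tendsto {f g : ℕ → ℝ} {x y : ℝ} (hf : Tendsto f atTop (𝓝 x))
    (hg : Tendsto g atTop (𝓝 y)) : Tendsto (fun n => ent (f n) (g n)) atTop (𝓝 (ent x y)) :=
  (ent_continuous.tendsto (x, y)).comp (hf.prodMk_nhds hg)

/-- the integer approximation. -/
noncomputable def KH10_M (K : ℕ) (w : ℕ → I → ℝ) (α : I → ℕ) (n : ℕ) (l : ℕ) (i : I) : ℕ :=
  if l = 1 then n * α i - ∑ l' ∈ Finset.Icc 2 K, l' * ⌊w l' i * n⌋₊ else ⌊w l i * n⌋₊

/-- the same as a function on `Fin K`. -/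
noncomputable def KH10_F (K : ℕ) (w : ℕ → I → ℝ) (α : I → ℕ) (n : ℕ) (k : Fin K) (i : I) : ℕ :=
  KH10_M K w α n ((k : ℕ) + 1) i

theorem KH10_mAt (K : ℕ) (w : ℕ → I → ℝ) (α : I → ℕ) (n : ℕ) (l : ℕ) (h1 : 1 ≤ l) (h2 : l ≤ K)
    (i : I) : mAt (KH10_F K w α n) l i = KH10_M K w α n l i := by
  unfold mAt KH10_F
  rw [dif_pos ⟨h1, h2⟩]
  congr 1
  show l - 1 + 1 = l
  omega

theorem KH10_split (K : ℕ) (hK : 1 ≤ K) (g : ℕ → ℝ) :
    ∑ l ∈ Finset.Icc 1 K, g l = g 1 + ∑ l ∈ Finset.Icc 2 K, g l := by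
  have : Finset.Icc 1 K = insert 1 (Finset.Icc 2 K) := by
    ext x
    simp only [Finset.mem_Icc, Finset.mem_insert]
    omega
  rw [this, Finset.sum_insert (by simp)]

theorem KH10_splitN (K : ℕ) (hK : 1 ≤ K) (g : ℕ → ℕ) :
    ∑ l ∈ Finset.Icc 1 K, g l = g 1 + ∑ l ∈ Finset.Icc 2 K, g l := by
  have : Finset.Icc 1 K = insert 1 (Finset.Icc 2 K) := by
    ext x
    simp only [Finset.mem_Icc, Finset.mem_insert]
    omega
  rw [this, Finset.sum_insert (by simp)]

theorem KH10_R_le (K : ℕ) (hK : 1 ≤ K) (w : ℕ → I → ℝ) (α : I → ℕ) (hw : ∀ l i, 0 ≤ w l i)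
    (hm : ∀ i, massR K w i = α i) (n : ℕ) (i : I) :
    ∑ l' ∈ Finset.Icc 2 K, l' * ⌊w l' i * n⌋₊ ≤ n * α i := by
  have h1 : ((∑ l' ∈ Finset.Icc 2 K, l' * ⌊w l' i * n⌋₊ : ℕ) : ℝ) ≤ ((n * α i : ℕ) : ℝ) := by
    push_cast
    rw [← hm i]
    unfold massR
    rw [KH10_split K hK, mul_add, Finset.mul_sum]
    have h2 : 0 ≤ (n : ℝ) * (((1 : ℕ) : ℝ) * w 1 i) := by
      have := hw 1 i
      positivity
    refine le_trans ?_ (le_add_of_nonneg_left h2)
    refine Finset.sum_le_sum fun l _ => ?_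
    have h3 := Nat.floor_le (mul_nonneg (hw l i) (Nat.cast_nonneg n))
    calc (l : ℝ) * (⌊w l i * n⌋₊ : ℝ) ≤ l * (w l i * n) :=
          mul_le_mul_of_nonneg_left h3 (Nat.cast_nonneg _)
      _ = n * (l * w l i) := by ring
  exact_mod_cast h1

theorem KH10_mass (K : ℕ) (hK : 1 ≤ K) (w : ℕ → I → ℝ) (α : I → ℕ) (hw : ∀ l i, 0 ≤ w l i)
    (hm : ∀ i, massR K w i = α i) (n : ℕ) :
    KH10_F K w α n ∈ Mset K (fun i => n * α i) := by
  refine KH10_mem _ _ fun i => ?_
  unfold KH10_F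
  rw [← KH10_sum_Icc (fun l => l * KH10_M K w α n l i) K, KH10_splitN K hK]
  have h1 : ∑ l ∈ Finset.Icc 2 K, l * KH10_M K w α n l i =
      ∑ l' ∈ Finset.Icc 2 K, l' * ⌊w l' i * n⌋₊ := by
    refine Finset.sum_congr rfl fun l hl => ?_
    have : l ≠ 1 := by
      rw [Finset.mem_Icc] at hl
      omega
    unfold KH10_M
    rw [if_neg this]
  rw [h1]
  have h2 := KH10_R_le K hK w α hw hm n i
  unfold KH10_M
  rw [if_pos rfl]
  omega

theorem KH10_tendsto (K : ℕ) (hK : 1 ≤ K) (w : ℕ → I → ℝ) (α : I → ℕ) (hw : ∀ l i, 0 ≤ w l i)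
    (hm : ∀ i, massR K w i = α i) (l : ℕ) (h1 : 1 ≤ l) (h2 : l ≤ K) (i : I) :
    Tendsto (fun n : ℕ => (n : ℝ)⁻¹ * (mAt (KH10_F K w α n) l i : ℝ)) atTop (𝓝 (w l i)) := by
  have hfl : ∀ l, Tendsto (fun n : ℕ => (n : ℝ)⁻¹ * (⌊w l i * n⌋₊ : ℝ)) atTop (𝓝 (w l i)) := by
    intro l
    have := (tendsto_nat_floor_mul_div_atTop (R := ℝ) (hw l i)).comp tendsto_natCast_atTop_atTop
    refine this.congr fun n => ?_
    simp only [Function.comp]
    rw [div_eq_inv_mul]
  by_cases hl : l = 1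
  · subst hl
    have h3 : Tendsto (fun n : ℕ => (α i : ℝ) - ∑ l' ∈ Finset.Icc 2 K,
        (l' : ℝ) * ((n : ℝ)⁻¹ * (⌊w l' i * n⌋₊ : ℝ))) atTop
        (𝓝 ((α i : ℝ) - ∑ l' ∈ Finset.Icc 2 K, (l' : ℝ) * w l' i)) :=
      tendsto_const_nhds.sub (tendsto_finsetSum _ fun l' _ => (hfl l').const_mul _)
    have h4 : (α i : ℝ) - ∑ l' ∈ Finset.Icc 2 K, (l' : ℝ) * w l' i = w 1 i := by
      rw [← hm i]
      unfold massR
      rw [KH10_split K hK]
      push_cast
      ring
    rw [h4] at h3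
    refine h3.congr' ?_
    filter_upwards [eventually_ge_atTop 1] with n hn
    have hn' : (0 : ℝ) < n := by exact_mod_cast hn
    rw [KH10_mAt K w α n 1 h1 h2]
    unfold KH10_M
    rw [if_pos rfl, Nat.cast_sub (KH10_R_le K hK w α hw hm n i)]
    push_cast
    rw [mul_sub, Finset.mul_sum]
    congr 1
    · field_simp
    · refine Finset.sum_congr rfl fun l' _ => ?_
      ring
  · refine (hfl l).congr fun n => ?_
    rw [KH10_mAt K w α n l h1 h2]
    unfold KH10_M
    rw [if_neg hl]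

theorem KH10_vac_tendsto (a : I → I → ℕ) (K : ℕ) (hK : 1 ≤ K) (w : ℕ → I → ℝ) (α : I → ℕ)
    (hw : ∀ l i, 0 ≤ w l i) (hm : ∀ i, massR K w i = α i) (k : ℕ) (i : I) :
    Tendsto (fun n : ℕ => (n : ℝ)⁻¹ * (PLF a (KH10_F K w α n) k i : ℝ)) atTop
      (𝓝 (vacR a K w k i)) := by
  have h : Tendsto (fun n : ℕ =>
      vacR a K (fun l j => (n : ℝ)⁻¹ * (mAt (KH10_F K w α n) l j : ℝ)) k i) atTop
      (𝓝 (vacR a K w k i)) := by
    unfold vacR cR
    refine tendsto_finsetSum _ fun l hl => ?_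
    rw [Finset.mem_Icc] at hl
    refine Tendsto.const_mul _ (Tendsto.neg ?_)
    refine tendsto_finsetSum _ fun j _ => ?_
    exact (KH10_tendsto K hK w α hw hm l hl.1 hl.2 j).const_mul _
  refine h.congr fun n => ?_
  rw [KH9_vac]

theorem KH10_strict (a : I → I → ℕ) (α : I →₀ ℕ) (hα : Ample a α) (K : ℕ) (hK : 2 ≤ K)
    (w : ℕ → I → ℝ) (hw : Feas a K w (fun i => (α i : ℝ))) (h1 : ∀ i, 0 < w 1 i)
    (hv : ∀ k i, 1 ≤ k → k < K → 0 < vacR a K w k i) : EntR a K w ≤ hsup a α := by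
  have hK1 : 1 ≤ K := by omega
  -- eventually admissible
  have hA : ∀ᶠ n : ℕ in atTop, Adm a (n • α) (KH10_F K w α n) := by
    have e1 : ∀ i, ∀ᶠ n : ℕ in atTop, 1 ≤ mAt (KH10_F K w α n) 1 i := by
      intro i
      have := (KH10_tendsto K hK1 w α hw.nn hw.mass 1 le_rfl hK1 i).eventually
        (eventually_gt_nhds (h1 i))
      filter_upwards [this] with n hn
      by_contra hc
      have : mAt (KH10_F K w α n) 1 i = 0 := by omega
      rw [this] at hn
      simp at hn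
    have e2 : ∀ i, ∀ k ∈ Finset.Ico 1 K, ∀ᶠ n : ℕ in atTop, 1 ≤ PLF a (KH10_F K w α n) k i := by
      intro i k hk
      rw [Finset.mem_Ico] at hk
      have := (KH10_vac_tendsto a K hK1 w α hw.nn hw.mass k i).eventually
        (eventually_gt_nhds (hv k i hk.1 hk.2))
      filter_upwards [this, eventually_ge_atTop 1] with n hn hn1
      have hn' : (0 : ℝ) < n := by exact_mod_cast hn1
      have h5 : (0 : ℝ) < (PLF a (KH10_F K w α n) k i : ℝ) := by
        by_contra hc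
        have := mul_nonpos_of_nonneg_of_nonpos (inv_nonneg.2 hn'.le) (not_lt.1 hc)
        linarith
      have h6 : 0 < PLF a (KH10_F K w α n) k i := by exact_mod_cast h5
      omega
    have e3 : ∀ᶠ n : ℕ in atTop, ∀ i, 1 ≤ mAt (KH10_F K w α n) 1 i := eventually_all.2 e1
    have e4 : ∀ᶠ n : ℕ in atTop, ∀ i, ∀ k ∈ Finset.Ico 1 K, 1 ≤ PLF a (KH10_F K w α n) k i :=
      eventually_all.2 fun i => (eventually_all_finset _).2 (e2 i)
    filter_upwards [e3, e4] with n h3 h4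
    refine ⟨?_, h3, fun l hl hlK i => h4 i l (Finset.mem_Ico.2 ⟨hl, hlK⟩)⟩
    have := KH10_mass K hK1 w α hw.nn hw.mass n
    rw [KG5_coe]
    exact this
  -- the bound for the logarithms
  set C : ℝ := ((∑ i, ∑ j, a i j * α j + ∑ i, α i + 1 : ℕ) : ℝ) with hC
  have hCpos : 0 < C := by
    rw [hC]
    positivity
  have hb : ∀ᶠ n : ℕ in atTop,
      EntR a K (fun l j => (n : ℝ)⁻¹ * (mAt (KH10_F K w α n) l j : ℝ)) -
        (K * Fintype.card I : ℕ) * (Real.log (C * n) / n) ≤ hsup a α := by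
    filter_upwards [hA, eventually_ge_atTop 1] with n hn hn1
    have hn' : (0 : ℝ) < n := by exact_mod_cast hn1
    have h2 : Real.log (EW a (KH10_F K w α n)) / n ≤ hsup a α :=
      le_csSup (hsup_bdd a α hα) ⟨K, n, hK, hn1, _, hn, rfl⟩
    refine le_trans ?_ h2
    rw [KH9_ent a α hα hn1 _ hn, KH9_log_EW, div_eq_inv_mul, div_eq_inv_mul, mul_left_comm,
      ← mul_sub]
    refine mul_le_mul_of_nonneg_left ?_ (inv_nonneg.2 hn'.le)
    have h3 : ((K * Fintype.card I : ℕ) : ℝ) * Real.log (C * n) =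
        ∑ l ∈ Finset.Icc 1 K, ∑ i : I, Real.log (C * n) := by
      simp [mul_assoc]
    rw [h3, ← Finset.sum_sub_distrib]
    refine Finset.sum_le_sum fun l hl => ?_
    rw [Finset.mem_Icc] at hl
    rw [← Finset.sum_sub_distrib]
    refine Finset.sum_le_sum fun i _ => ?_
    have h4 := ent_le_log_choose (PLF a (KH10_F K w α n) l i).toNat (mAt (KH10_F K w α n) l i)
    have h5 : Real.log (((PLF a (KH10_F K w α n) l i).toNat : ℝ) +
        (mAt (KH10_F K w α n) l i : ℝ) + 1) ≤ Real.log (C * n) := by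
      refine Real.log_le_log (by positivity) ?_
      have h6 : (PLF a (KH10_F K w α n) l i).toNat ≤ (∑ i, ∑ j, a i j * α j) * n := by
        have := Int.toNat_le.2 (KG5_PLF a α (KH10_F K w α n) hn.1 l i)
        exact this
      have h7 : mAt (KH10_F K w α n) l i ≤ (∑ i, α i) * n := by
        have h8 : mAt (KH10_F K w α n) l i ≤ n * α i := by
          unfold mAt
          rw [dif_pos hl]
          have h9 := (Finset.mem_filter.1 hn.1).2 i
          simp only [Finsupp.smul_apply, smul_eq_mul] at h9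
          rw [← h9]
          calc KH10_F K w α n ⟨l - 1, by omega⟩ i
              ≤ ((⟨l - 1, by omega⟩ : Fin K) + 1 : ℕ) * KH10_F K w α n ⟨l - 1, by omega⟩ i :=
                Nat.le_mul_of_pos_left _ (Nat.succ_pos _)
            _ ≤ _ := Finset.single_le_sum
                (f := fun k : Fin K => ((k : ℕ) + 1) * KH10_F K w α n k i)
                (fun _ _ => Nat.zero_le _) (Finset.mem_univ _)
        refine h8.trans ?_
        rw [mul_comm]
        exact Nat.mul_le_mul_right n (Finset.single_le_sum (f := fun i => α i)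
          (fun _ _ => Nat.zero_le _) (Finset.mem_univ i))
      have h10 : (PLF a (KH10_F K w α n) l i).toNat + mAt (KH10_F K w α n) l i + 1 ≤
          (∑ i, ∑ j, a i j * α j + ∑ i, α i + 1) * n := by
        nlinarith
      rw [hC]
      exact_mod_cast h10
    linarith
  have hlim : Tendsto (fun n : ℕ =>
      EntR a K (fun l j => (n : ℝ)⁻¹ * (mAt (KH10_F K w α n) l j : ℝ)) -
        (K * Fintype.card I : ℕ) * (Real.log (C * n) / n)) atTop
      (𝓝 (EntR a K w - (K * Fintype.card I : ℕ) * 0)) := by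
    refine Tendsto.sub ?_ ((kGMain_log C hCpos).const_mul _)
    unfold EntR
    refine tendsto_finsetSum _ fun l hl => ?_
    rw [Finset.mem_Icc] at hl
    refine tendsto_finsetSum _ fun i _ => ?_
    have h3 : Tendsto (fun n : ℕ =>
        vacR a K (fun l j => (n : ℝ)⁻¹ * (mAt (KH10_F K w α n) l j : ℝ)) l i) atTop
        (𝓝 (vacR a K w l i)) := by
      refine (KH10_vac_tendsto a K hK1 w α hw.nn hw.mass l i).congr fun n => ?_
      rw [KH9_vac]
    have h4 := KH10_tendsto K hK1 w α hw.nn hw.mass l hl.1 hl.2 i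
    exact KH10_ent_tendsto h3 h4
  rw [mul_zero, sub_zero] at hlim
  exact le_of_tendsto hlim hb

theorem PhiR_le_hsup (a : I → I → ℕ) (hg : GoodMat a) (α : I →₀ ℕ) (hα : Ample a α) :
    PhiR a (fun i => (α i : ℝ)) ≤ hsup a α := by
  obtain ⟨N0, hN0⟩ := Adm_exists a hg α hα 2 le_rfl
  obtain ⟨m1, hm1⟩ := hN0 (max N0 1) (le_max_left _ _)
  have hkon : Kon a (fun i => (α i : ℝ)) :=
    (KH9_feas a α hα (le_max_right _ _) m1 hm1).kon
  refine PhiR_le hkon fun K0 m hm0 => ?_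
  obtain ⟨K, hK, hK0⟩ : ∃ K, 2 ≤ K ∧ K0 ≤ K := ⟨max K0 2, le_max_right _ _, le_max_left _ _⟩
  have hm := hm0.enlarge hK0
  rw [← EntR_enlarge hm0 hK0]
  clear hm0 hK0
  obtain ⟨N1, hN1⟩ := Adm_exists a hg α hα K hK
  obtain ⟨m2, hm2⟩ := hN1 (max N1 1) (le_max_left _ _)
  set n := max N1 1 with hn
  have hn1 : 1 ≤ n := le_max_right _ _
  have hn' : (0 : ℝ) < n := by exact_mod_cast hn1
  have hf := KH9_feas a α hα hn1 m2 hm2
  have hf1 : ∀ i, 0 < (n : ℝ)⁻¹ * (mAt m2 1 i : ℝ) := by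
    intro i
    have : (0 : ℝ) < (mAt m2 1 i : ℝ) := by exact_mod_cast hm2.2.1 i
    positivity
  have hf2 : ∀ k i, 1 ≤ k → k < K →
      0 < vacR a K (fun l j => (n : ℝ)⁻¹ * (mAt m2 l j : ℝ)) k i := by
    intro k i h1 h2
    rw [KH9_vac]
    have : (0 : ℝ) < (PLF a m2 k i : ℝ) := by
      have := hm2.2.2 k h1 h2 i
      exact_mod_cast this
    positivity
  have key : ∀ η : ℝ, 0 < η → η < 1 → (1 - η) * EntR a K m ≤ hsup a α := by
    intro η h0 h1
    have g1 := hm.smul (t := 1 - η) (by linarith)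
    have g2 := hf.smul (t := η) h0.le
    have g3 := g1.add g2
    have g4 : (1 - η) • (fun i => (α i : ℝ)) + η • (fun i => (α i : ℝ)) = fun i => (α i : ℝ) := by
      rw [← add_smul]
      simp
    rw [g4] at g3
    have g5 := EntR_add g1 g2
    rw [EntR_smul hm (by linarith), EntR_smul hf h0.le] at g5
    have g6 := hf.EntR_nonneg
    have g7 : (1 - η) * EntR a K m ≤ (1 - η) * EntR a K m + η *
        EntR a K (fun l j => (n : ℝ)⁻¹ * (mAt m2 l j : ℝ)) :=
      le_add_of_nonneg_right (mul_nonneg h0.le g6)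
    refine (g7.trans g5).trans ?_
    refine KH10_strict a α hα K hK _ g3 (fun i => ?_) (fun k i hk hkK => ?_)
    · have := hm.nn 1 i
      have h2 := hf1 i
      have h3 : 0 ≤ (1 - η) * m 1 i := mul_nonneg (by linarith) this
      have h4 : 0 < η * ((n : ℝ)⁻¹ * (mAt m2 1 i : ℝ)) := mul_pos h0 h2
      linarith
    · rw [vacR_add, vacR_smul, vacR_smul]
      have h2 := hm.vac k i
      have h3 := hf2 k i hk hkK
      have h4 : 0 ≤ (1 - η) * vacR a K m k i := mul_nonneg (by linarith) h2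
      have h5 := mul_pos h0 h3
      linarith
  -- let η tend to zero
  have hE := hm.EntR_nonneg
  by_contra hc
  have hc' : hsup a α < EntR a K m := not_le.1 hc
  have hpos : 0 < EntR a K m := lt_of_le_of_lt (hsup_nonneg a hg α hα) hc'
  have h2 := key (1 - (hsup a α + EntR a K m) / (2 * EntR a K m)) (by
    rw [sub_pos, div_lt_one (by positivity)]
    linarith) (by
    have := hsup_nonneg a hg α hα
    have : 0 < (hsup a α + EntR a K m) / (2 * EntR a K m) := by positivity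
    linarith)
  rw [sub_sub_cancel] at h2
  have h3 : (hsup a α + EntR a K m) / (2 * EntR a K m) * EntR a K m =
      (hsup a α + EntR a K m) / 2 := by
    field_simp
  rw [h3] at h2
  linarith

end Pool.Agent.H27.KAC
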