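import Pool.Agent.H27.KAC.KH3

/-!
KAC module KH11: the growth function and restriction to a subset `S` of the vertices containing the support.

PROOF.  Feasible multipartitions of `y` vanish outside `S` (mass); restriction to `S` and extension by zero are inverse
bijections which preserve `cR` at the vertices of `S` (`Finset.sum_coe_sort`), hence the vacancy numbers at
`S`, and the entropy (`ent P 0 = 0` outside `S`); for a vertex `i ∉ S` the vacancy numbers are sums of nonnegative terms
`min k l * a i j * m l j`.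
-/

set_option autoImplicit false

namespace Pool.Agent.H27.KAC

open scoped BigOperators

variable {I : Type} [Fintype I] [DecidableEq I]

theorem KH11_cart (a : I → I → ℕ) (S : Finset I) (i j : {i // i ∈ S}) :
    cart (fun i j : {i // i ∈ S} => a i j) i j = cart a i j := by
  unfold cart
  by_cases h : i = j
  · subst h
    rw [if_pos rfl, if_pos rfl]
  · have h' : (i : I) ≠ (j : I) := fun h' => h (Subtype.ext h')
    rw [if_neg h, if_neg h']

omit [DecidableEq I] in
theorem KH11_sum (S : Finset I) (f : I → ℝ) (hf : ∀ i, i ∉ S → f i = 0) :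
    ∑ i : {i // i ∈ S}, f i = ∑ i, f i := by
  rw [Finset.sum_coe_sort S f]
  exact Finset.sum_subset (Finset.subset_univ S) fun i _ hi => hf i hi

theorem KH11_cR (a : I → I → ℕ) (S : Finset I) (x : I → ℝ) (hx : ∀ i, i ∉ S → x i = 0)
    (i : {i // i ∈ S}) :
    cR (fun i j : {i // i ∈ S} => a i j) (fun j => x j) i = cR a x i := by
  unfold cR
  rw [← KH11_sum S (fun j => (cart a i j : ℝ) * x j) (fun j hj => by simp [hx j hj])]
  exact Finset.sum_congr rfl fun j _ => by rw [KH11_cart]

theorem KH11_vac (a : I → I → ℕ) (S : Finset I) (K : ℕ) (m : ℕ → I → ℝ)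
    (hm : ∀ l ∈ Finset.Icc 1 K, ∀ i, i ∉ S → m l i = 0) (k : ℕ) (i : {i // i ∈ S}) :
    vacR (fun i j : {i // i ∈ S} => a i j) K (fun l j => m l j) k i = vacR a K m k i := by
  unfold vacR
  exact Finset.sum_congr rfl fun l hl => by rw [KH11_cR a S (m l) (hm l hl) i]

theorem KH11_ent (a : I → I → ℕ) (S : Finset I) (K : ℕ) (m : ℕ → I → ℝ)
    (hm : ∀ l ∈ Finset.Icc 1 K, ∀ i, i ∉ S → m l i = 0) :
    EntR (fun i j : {i // i ∈ S} => a i j) K (fun l j => m l j) = EntR a K m := by
  unfold EntR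
  refine Finset.sum_congr rfl fun k hk => ?_
  rw [← KH11_sum S (fun i => ent (vacR a K m k i) (m k i))
    (fun i hi => by rw [hm k hk i hi, ent_zero_right])]
  exact Finset.sum_congr rfl fun i _ => by rw [KH11_vac a S K m hm k i]

theorem KH11_feas (a : I → I → ℕ) (S : Finset I) (K : ℕ) (m : ℕ → I → ℝ) (y : I → ℝ)
    (hS : ∀ i, i ∉ S → y i = 0)
    (hm : ∀ l ∈ Finset.Icc 1 K, ∀ i, i ∉ S → m l i = 0)
    (hnn : ∀ l i, i ∉ S → 0 ≤ m l i) (hout : ∀ l i, i ∉ S → K < l → m l i = 0) :
    Feas (fun i j : {i // i ∈ S} => a i j) K (fun l j => m l j) (fun i => y i) ↔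
      Feas a K m y := by
  constructor
  · intro h
    have hnn' : ∀ l i, 0 ≤ m l i := by
      intro l i
      by_cases hi : i ∈ S
      · exact h.nn l ⟨i, hi⟩
      · exact hnn l i hi
    refine ⟨hnn', ?_, ?_, ?_⟩
    · intro l i hl
      by_cases hi : i ∈ S
      · exact h.out l ⟨i, hi⟩ hl
      · exact hout l i hi hl
    · intro i
      by_cases hi : i ∈ S
      · exact h.mass ⟨i, hi⟩
      · rw [hS i hi]
        exact Finset.sum_eq_zero fun l hl => by rw [hm l hl i hi, mul_zero]
    · intro k i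
      by_cases hi : i ∈ S
      · have := h.vac k ⟨i, hi⟩
        rwa [KH11_vac a S K m hm k ⟨i, hi⟩] at this
      · refine Finset.sum_nonneg fun l hl => ?_
        exact mul_nonneg (Nat.cast_nonneg _)
          (neg_nonneg.2 (cR_nonpos_of_zero a (m l) (fun j => hnn' l j) i (hm l hl i hi)))
  · intro h
    refine ⟨fun l i => h.nn l i, fun l i hl => h.out l i hl, fun i => h.mass i, ?_⟩
    intro k i
    rw [KH11_vac a S K m hm k i]
    exact h.vac k i

theorem KH11_zero (a : I → I → ℕ) (S : Finset I) (K : ℕ) (m : ℕ → I → ℝ) (y : I → ℝ)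
    (hS : ∀ i, i ∉ S → y i = 0) (h : Feas a K m y) :
    ∀ l ∈ Finset.Icc 1 K, ∀ i, i ∉ S → m l i = 0 := by
  intro l hl i hi
  have h1 : ∑ l ∈ Finset.Icc 1 K, (l : ℝ) * m l i = 0 := by
    have := h.mass i
    rw [hS i hi] at this
    exact this
  have h2 := (Finset.sum_eq_zero_iff_of_nonneg
    (fun l _ => mul_nonneg (Nat.cast_nonneg l) (h.nn l i))).1 h1 l hl
  rcases mul_eq_zero.1 h2 with h3 | h3
  · have : 1 ≤ l := (Finset.mem_Icc.1 hl).1
    have h4 : l = 0 := by exact_mod_cast h3
    omega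
  · exact h3

theorem PhiR_restrict (a : I → I → ℕ) (S : Finset I) (y : I → ℝ) (hS : ∀ i, i ∉ S → y i = 0) :
    PhiR (fun i j : {i // i ∈ S} => a i j) (fun i => y i) = PhiR a y := by
  unfold PhiR
  congr 1
  ext x
  constructor
  · rintro ⟨K, m', h, rfl⟩
    have hm' : m' = fun l (j : {i // i ∈ S}) =>
        (fun (l : ℕ) (i : I) => if hi : i ∈ S then m' l ⟨i, hi⟩ else 0) l j := by
      funext l j
      simp [j.2]
    have hm : ∀ l ∈ Finset.Icc 1 K, ∀ i, i ∉ S →
        (fun (l : ℕ) (i : I) => if hi : i ∈ S then m' l ⟨i, hi⟩ else 0) l i = 0 := by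
      intro l _ i hi
      simp [hi]
    refine ⟨K, fun l i => if hi : i ∈ S then m' l ⟨i, hi⟩ else 0, ?_, ?_⟩
    · refine (KH11_feas a S K _ y hS hm ?_ ?_).1 ?_
      · intro l i hi
        simp [hi]
      · intro l i hi _
        simp [hi]
      · rw [← hm']
        exact h
    · rw [← KH11_ent a S K _ hm, ← hm']
  · rintro ⟨K, m, h, rfl⟩
    have hm := KH11_zero a S K m y hS h
    exact ⟨K, fun l j => m l j, (KH11_feas a S K m y hS hm (fun l i _ => h.nn l i)
      (fun l i _ hl => h.out l i hl)).2 h, (KH11_ent a S K m hm).symm⟩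

end Pool.Agent.H27.KAC
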