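import Pool.Agent.H27.KAC.PR_Out

/-!
Project KAC: the number `kacOne Q α` is an integer.
-/

set_option autoImplicit false

namespace Pool.Agent.H27.KAC

open scoped BigOperators
open Polynomial

/-- A common denominator of the coefficients. -/
theorem kint_denom (p : ℚ[X]) : ∃ (D : ℕ) (P : ℤ[X]), 1 ≤ D ∧
    P.map (Int.castRingHom ℚ) = C (D : ℚ) * p := by
  induction p using Polynomial.induction_on' with
  | add p q hp hq =>
    obtain ⟨D, P, hD, hP⟩ := hp
    obtain ⟨D', P', hD', hP'⟩ := hq
    refine ⟨D * D', C (D' : ℤ) * P + C (D : ℤ) * P', Nat.mul_pos hD hD', ?_⟩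
    rw [Polynomial.map_add, Polynomial.map_mul, Polynomial.map_mul, hP, hP', map_C, map_C]
    simp only [eq_intCast, Int.cast_natCast, Nat.cast_mul, C_mul]
    ring
  | monomial n a =>
    refine ⟨a.den, Polynomial.monomial n a.num, a.den_pos, ?_⟩
    rw [map_monomial, C_mul_monomial, eq_intCast, Rat.den_mul_eq_num]

theorem kacOne_int {I E : Type} (Q : Quiv I E) (α : I → ℕ) : ∃ z : ℤ, kacOne Q α = z := by
  by_cases hex : ∃ p : ℚ[X], IsKacPoly Q α p
  · obtain ⟨p, hp⟩ := hex
    rw [kacOne_eq Q α p hp]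
    obtain ⟨D, P, hD, hP⟩ := kint_denom p
    obtain ⟨l, hl, hlp⟩ := Nat.exists_infinite_primes (D + 1)
    have : Fact (Nat.Prime l) := ⟨hlp⟩
    have hcop : Nat.Coprime l D := by
      rw [Nat.Prime.coprime_iff_not_dvd hlp]
      intro h
      have := Nat.le_of_dvd (by omega) h
      omega
    have hN0 : Nat.totient D ≠ 0 := (Nat.totient_pos.2 (by omega)).ne'
    have hfin : Finite (GaloisField l (Nat.totient D)) := by
      apply Nat.finite_of_card_ne_zero
      rw [GaloisField.card l _ hN0]
      exact pow_ne_zero _ hlp.ne_zero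
    let _ : Fintype (GaloisField l (Nat.totient D)) := Fintype.ofFinite _
    have hcard : Fintype.card (GaloisField l (Nat.totient D)) = l ^ Nat.totient D := by
      rw [← Nat.card_eq_fintype_card, GaloisField.card l _ hN0]
    have h1 := hp (GaloisField l (Nat.totient D))
    rw [hcard] at h1
    set c := kacCount Q (GaloisField l (Nat.totient D)) α with hc
    set q := l ^ Nat.totient D with hq
    have hev : ∀ z : ℤ, ((P.eval z : ℤ) : ℚ) = (D : ℚ) * p.eval (z : ℚ) := by
      intro z
      have h2 := congrArg (fun f : ℚ[X] => f.eval (z : ℚ)) hP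
      simp only [eval_mul, eval_C] at h2
      rw [← h2, eval_intCast_map]
      simp
    have h3 : (D : ℤ) ∣ P.eval (1 : ℤ) := by
      have h4 : (q : ℤ) - 1 ∣ P.eval (q : ℤ) - P.eval 1 := sub_dvd_eval_sub _ _ _
      have h5 : (D : ℤ) ∣ (q : ℤ) - 1 := by
        have h6 := Nat.ModEq.pow_totient hcop
        rw [← hq] at h6
        have h7 := (Nat.modEq_iff_dvd.1 h6.symm)
        simpa using h7
      have h8 : (D : ℤ) ∣ P.eval (q : ℤ) := by
        refine ⟨(c : ℤ), ?_⟩
        have h9 := hev (q : ℤ)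
        rw [Int.cast_natCast, ← h1] at h9
        exact_mod_cast h9
      have h10 := dvd_sub h8 (h5.trans h4)
      simpa using h10
    obtain ⟨z, hz⟩ := h3
    refine ⟨z, ?_⟩
    have h11 := hev 1
    rw [hz] at h11
    push_cast at h11
    have hD' : (D : ℚ) ≠ 0 := by positivity
    exact (mul_left_cancel₀ hD' h11).symm
  · refine ⟨0, ?_⟩
    unfold kacOne
    rw [dif_neg hex]
    simp

end Pool.Agent.H27.KAC
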