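import Pool.Agent.H27.KAC.KFDefs

/-!
KAC, final part: extension of dimension vectors by zero.
-/

namespace Pool.Agent.H27.KAC

open scoped BigOperators

/-- Extension by zero of a dimension vector on `S`. -/
def ext0 {I : Type} [DecidableEq I] (S : Finset I) (β : {i // i ∈ S} → ℕ) : I → ℕ :=
  fun i => if h : i ∈ S then β ⟨i, h⟩ else 0

/-- The matrix restricted to `S`. -/
def resM {I : Type} (a : I → I → ℕ) (S : Finset I) (i j : {i // i ∈ S}) : ℕ := a i j

end Pool.Agent.H27.KAC
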