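import Pool.Agent.H27.KAC.Interface
import Pool.Agent.H27.KAC.KMDefs

/-!
KAC module KM1: the numbers `fOf (kacOne Q)` come from a solution of the Q-system.
-/

set_option autoImplicit false

namespace Pool.Agent.H27.KAC

open scoped BigOperators
open MvPowerSeries

variable {I E : Type} [Fintype I] [DecidableEq I] [Fintype E]

theorem kacData_kac (Q : Quiv I E) : KacData (adj Q) (fOf (kacOne Q)) := by
  obtain ⟨T, G, h1, h2, h3, h4, h5⟩ := qsys_main Q
  refine ⟨fun i k => map (Int.castRingHom ℚ) (T i k), fun i => map (Int.castRingHom ℚ) (G i),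
    ?_, ?_, ?_, ?_, ?_⟩
  · intro i
    show map (Int.castRingHom ℚ) (T i 0) = 1
    rw [h1 i, map_one]
  · intro i k
    show constantCoeff (map (Int.castRingHom ℚ) (T i k)) = 1
    have h := h2 i k
    rw [← coeff_zero_eq_constantCoeff_apply] at h ⊢
    rw [coeff_map, h, map_one]
  · intro i k
    have h := congrArg (map (Int.castRingHom ℚ)) (h3 i k)
    simp only [map_pow, map_add, map_mul, map_prod, map_X] at h
    exact h
  · intro i k d hd
    show coeff d (map (Int.castRingHom ℚ) (T i k)) = coeff d (map (Int.castRingHom ℚ) (G i))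
    rw [coeff_map, coeff_map, h4 i k d hd]
  · intro i j
    exact h5 i j

end Pool.Agent.H27.KAC
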