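import Pool.Agent.H27.KAC.KIKron

/-!
KAC module KM3: one vertex with one loop.

PROOF (copy of `KIKronC`, `KIKron`, simpler).  Replace the arrows `i → i` by one arrow: the quiver
`oneQ : Quiv I (Unit ⊕ {e : E // ¬ (Q.src e = i ∧ Q.tgt e = i)})` has the same matrix `adj` (`adj Q i i = 2` is twice the number
of loops), so the same `kacCount` (`kacCount_congr_adj`).  A representation of dimension `n` at `i` and zero at the other
vertices is one matrix `C` of size `n`; it is indecomposable iff `CInd C`; two are isomorphic iff the matrices are conjugate.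
Absolutely indecomposable: `kron_eigen` and `CInd.exists_Jn` give `C` conjugate to `c • 1 + Jn F n`, `c ∈ F`; these are
pairwise not conjugate (`det_smul_add_Jn`, `det_Jn`) and absolutely indecomposable (`CInd_Jn`, `CInd_smul_add`, `map_Jn`).
So `kacCount Q F (..) = Fintype.card F` and the Kac polynomial is `X` (`kacOne_eq`).
-/

set_option autoImplicit false

namespace Pool.Agent.H27.KAC

open scoped BigOperators
open Polynomial

section count

/-- One loop. -/
def KM3_L : Quiv Unit Unit where
  src := fun _ => ()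
  tgt := fun _ => ()

variable {K : Type} [Field K] {n : ℕ}

/-- The matrix `C` as a representation. -/
def KM3_rep (C : Matrix (Fin n) (Fin n) K) : Rp KM3_L K (fun _ => n) := fun _ => C

theorem KM3_isom_iff {x y : Rp KM3_L K (fun _ => n)} : Isom x y ↔
    ∃ g : Matrix (Fin n) (Fin n) K, IsUnit g ∧ g * x () = y () * g := by
  constructor
  · rintro ⟨g, hg⟩
    exact ⟨g (), (g ()).isUnit, hg ()⟩
  · rintro ⟨g, hg, h1⟩
    exact ⟨fun _ => hg.unit, fun _ => h1⟩

theorem KM3_indec_iff (hn : 1 ≤ n) {x : Rp KM3_L K (fun _ => n)} :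
    Indec x ↔ CInd (x ()) := by
  have h0 : (fun _ : Unit => n) ≠ 0 := by
    intro h
    have := congrFun h ()
    simp only [Pi.zero_apply] at this
    omega
  constructor
  · intro h p hp hpp
    rcases h.2 (fun _ => p) (fun _ => hp) (fun _ => hpp) with h1 | h1
    · exact Or.inl (h1 ())
    · exact Or.inr (h1 ())
  · intro h
    refine ⟨h0, fun p hp hpp => ?_⟩
    rcases h (p ()) (hp ()) (hpp ()) with h1 | h1
    · exact Or.inl fun _ => h1
    · exact Or.inr fun _ => h1

variable {F : Type} [Field F]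

/-- The `q` representations. -/
def KM3_std (F : Type) [Field F] (n : ℕ) (c : F) : Rp KM3_L F (fun _ => n) :=
  KM3_rep (c • (1 : Matrix (Fin n) (Fin n) F) + Jn F n)

theorem KM3_std_absIndec (hn : 1 ≤ n) (c : F) : AbsIndec (KM3_std F n c) := by
  unfold AbsIndec
  rw [KM3_indec_iff hn]
  show CInd ((c • (1 : Matrix (Fin n) (Fin n) F) + Jn F n).map
    (algebraMap F (AlgebraicClosure F)))
  have h2 : (c • (1 : Matrix (Fin n) (Fin n) F) + Jn F n).map
      (algebraMap F (AlgebraicClosure F)) = algebraMap F (AlgebraicClosure F) c •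
      (1 : Matrix (Fin n) (Fin n) (AlgebraicClosure F)) + Jn (AlgebraicClosure F) n := by
    ext a b
    rw [Matrix.map_apply, Matrix.add_apply, Matrix.smul_apply, Matrix.add_apply,
      Matrix.smul_apply, smul_eq_mul, smul_eq_mul, map_add, map_mul,
      ← map_Jn (AlgebraicClosure F) (algebraMap F (AlgebraicClosure F)), Matrix.map_apply,
      Matrix.one_apply, Matrix.one_apply]
    congr 2
    split_ifs
    · exact map_one _
    · exact map_zero _
  rw [h2]
  exact CInd_smul_add CInd_Jn _

theorem KM3_std_inj (hn : 1 ≤ n) (c c' : F) (h : Isom (KM3_std F n c) (KM3_std F n c')) :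
    c = c' := by
  obtain ⟨g, hg, h1⟩ := KM3_isom_iff.1 h
  have hgd := ((Matrix.isUnit_iff_isUnit_det _).1 hg).ne_zero
  have h1' : g * (c • (1 : Matrix (Fin n) (Fin n) F) + Jn F n) =
      (c' • (1 : Matrix (Fin n) (Fin n) F) + Jn F n) * g := h1
  have h3 : g * ((c • (1 : Matrix (Fin n) (Fin n) F) + Jn F n) -
      c • (1 : Matrix (Fin n) (Fin n) F)) =
      ((c' • (1 : Matrix (Fin n) (Fin n) F) + Jn F n) -
      c • (1 : Matrix (Fin n) (Fin n) F)) * g := by
    rw [Matrix.mul_sub, Matrix.sub_mul, h1', Matrix.mul_smul, Matrix.smul_mul, Matrix.mul_one,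
      Matrix.one_mul]
  have h4 := congrArg Matrix.det h3
  rw [Matrix.det_mul, Matrix.det_mul] at h4
  have h6 : ((c • (1 : Matrix (Fin n) (Fin n) F) + Jn F n) -
      c • (1 : Matrix (Fin n) (Fin n) F)).det = 0 := by
    rw [add_sub_cancel_left]
    exact det_Jn hn
  rw [h6, mul_zero] at h4
  have h7 : ((c' • (1 : Matrix (Fin n) (Fin n) F) + Jn F n) -
      c • (1 : Matrix (Fin n) (Fin n) F)).det = 0 := (mul_eq_zero.1 h4.symm).resolve_right hgd
  have h8 : (c' • (1 : Matrix (Fin n) (Fin n) F) + Jn F n) -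
      c • (1 : Matrix (Fin n) (Fin n) F) =
      (c' - c) • (1 : Matrix (Fin n) (Fin n) F) + Jn F n := by
    rw [sub_smul]
    abel
  rw [h8, det_smul_add_Jn] at h7
  have h9 := pow_eq_zero_iff (by omega : n ≠ 0) |>.1 h7
  rw [sub_eq_zero.1 h9]

theorem KM3_std_surj [Fintype F] (hn : 1 ≤ n) (x : Rp KM3_L F (fun _ => n)) (hx : AbsIndec x) :
    ∃ c, Isom (KM3_std F n c) x := by
  have hP : CInd ((x ()).map (algebraMap F (AlgebraicClosure F))) := (KM3_indec_iff hn).1 hx
  have hPF : CInd (x ()) := (KM3_indec_iff hn).1 hx.indec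
  obtain ⟨c, hc⟩ := kron_eigen hn (x ()) hP
  have hCF : CInd (x () - c • (1 : Matrix (Fin n) (Fin n) F)) := by
    have h3 := CInd_smul_add hPF (-c)
    rw [neg_smul, neg_add_eq_sub] at h3
    exact h3
  obtain ⟨S, hS, hNS⟩ := hCF.exists_Jn hc hn
  refine ⟨c, KM3_isom_iff.2 ⟨S, hS, ?_⟩⟩
  show S * (c • (1 : Matrix (Fin n) (Fin n) F) + Jn F n) = x () * S
  rw [Matrix.mul_add, ← hNS, Matrix.mul_smul, Matrix.mul_one, Matrix.sub_mul, Matrix.smul_mul,
    Matrix.one_mul, add_sub_cancel]

theorem KM3_kacCount (F : Type) [Field F] [Fintype F] (hn : 1 ≤ n) :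
    kacCount KM3_L F (fun _ => n) = Fintype.card F := by
  classical
  unfold kacCount
  have h1 : absIndecClasses KM3_L F (fun _ => n) =
      Set.range (fun c : F => {y | Isom (KM3_std F n c) y}) := by
    ext c
    constructor
    · rintro ⟨x, hx, rfl⟩
      obtain ⟨o, ho⟩ := KM3_std_surj hn x hx
      refine ⟨o, ?_⟩
      ext y
      exact ⟨fun h => (isom_equivalence KM3_L F _).trans ((isom_equivalence KM3_L F _).symm ho) h,
        fun h => (isom_equivalence KM3_L F _).trans ho h⟩
    · rintro ⟨o, rfl⟩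
      exact ⟨KM3_std F n o, KM3_std_absIndec hn o, rfl⟩
  have h2 : Function.Injective (fun c : F => {y | Isom (KM3_std F n c) y}) := by
    intro o o' h
    apply KM3_std_inj hn
    have h3 : KM3_std F n o' ∈ {y | Isom (KM3_std F n o) y} := by
      have h4 : KM3_std F n o' ∈ {y | Isom (KM3_std F n o') y} :=
        (isom_equivalence KM3_L F _).refl _
      have h5 : {y | Isom (KM3_std F n o) y} = {y | Isom (KM3_std F n o') y} := h
      rw [h5]
      exact h4
    exact h3
  rw [h1, ← Set.image_univ, Set.ncard_image_of_injective _ h2, Set.ncard_univ,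
    Nat.card_eq_fintype_card]

end count

section

variable {I E : Type} [DecidableEq I]

/-- the arrow `e` is a loop at `i` -/
def KM3_lp (Q : Quiv I E) (i : I) (e : E) : Prop := Q.src e = i ∧ Q.tgt e = i

instance (Q : Quiv I E) (i : I) : DecidablePred (KM3_lp Q i) := fun e => by
  unfold KM3_lp
  infer_instance

/-- The quiver with one loop at `i` instead of the loops at `i`. -/
def KM3_oneQ (Q : Quiv I E) (i : I) : Quiv I (Unit ⊕ {e : E // ¬ KM3_lp Q i e}) where
  src := Sum.elim (fun _ => i) (fun e => Q.src e.1)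
  tgt := Sum.elim (fun _ => i) (fun e => Q.tgt e.1)

variable [Fintype I] [Fintype E]

theorem KM3_sum_not_lp (Q : Quiv I E) (i : I) (f : E → ℕ) :
    ∑ e : {e : E // ¬ KM3_lp Q i e}, f e.1 = ∑ e, if ¬ KM3_lp Q i e then f e else 0 := by
  rw [← Finset.sum_filter]
  exact (Finset.sum_subtype _ (fun e => by simp) f).symm

theorem KM3_adj_oneQ (Q : Quiv I E) (i : I) (h : adj Q i i = 2) :
    adj (KM3_oneQ Q i) = adj Q := by
  funext a b
  have hS : ∀ a b : I, (∑ e, if (KM3_oneQ Q i).src e = a ∧ (KM3_oneQ Q i).tgt e = b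
      then 1 else 0) = (if i = a ∧ i = b then 1 else 0) +
        ∑ e, if ¬ KM3_lp Q i e then (if Q.src e = a ∧ Q.tgt e = b then 1 else 0) else 0 := by
    intro a b
    rw [Fintype.sum_sum_type, ← KM3_sum_not_lp Q i (fun e => if Q.src e = a ∧ Q.tgt e = b
      then 1 else 0)]
    congr 1
  rw [adj_eq_sum, hS a b, hS b a]
  by_cases hab : a = i ∧ b = i
  · obtain ⟨rfl, rfl⟩ := hab
    rw [h, if_pos ⟨rfl, rfl⟩]
    have hz : (∑ e, if ¬ KM3_lp Q b e then (if Q.src e = b ∧ Q.tgt e = b then 1 else 0)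
        else 0) = 0 := by
      apply Finset.sum_eq_zero
      intro e _
      by_cases hb : KM3_lp Q b e
      · rw [if_neg (not_not.2 hb)]
      · rw [if_pos hb, if_neg (show ¬ (Q.src e = b ∧ Q.tgt e = b) from hb)]
    rw [hz]
  · have hz : ∀ a b : I, ¬ (a = i ∧ b = i) →
        (∑ e, if ¬ KM3_lp Q i e then (if Q.src e = a ∧ Q.tgt e = b then 1 else 0) else 0) =
          ∑ e, if Q.src e = a ∧ Q.tgt e = b then 1 else 0 := by
      intro a b hab
      refine Finset.sum_congr rfl fun e _ => ?_
      by_cases hb : KM3_lp Q i e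
      · rw [if_neg (not_not.2 hb), if_neg]
        rintro ⟨h1, h2⟩
        apply hab
        unfold KM3_lp at hb
        rw [h1, h2] at hb
        exact hb
      · rw [if_pos hb]
    have hba : ¬ (b = i ∧ a = i) := by tauto
    rw [hz a b hab, hz b a hba, if_neg (fun h1 => hab ⟨h1.1.symm, h1.2.symm⟩),
      if_neg (fun h1 => hba ⟨h1.1.symm, h1.2.symm⟩), zero_add, zero_add, ← adj_eq_sum]

theorem KM3_oneQ_zero (Q : Quiv I E) (i : I) {α : I → ℕ} (hα : ∀ l, l ≠ i → α l = 0)
    {K : Type} [Field K] (x : Rp (KM3_oneQ Q i) K α) (e : {e : E // ¬ KM3_lp Q i e}) :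
    x (Sum.inr e) = 0 := by
  apply rp_zero
  by_contra hc
  push Not at hc
  have h1 : α (Q.src e.1) ≠ 0 := hc.1
  have h2 : α (Q.tgt e.1) ≠ 0 := hc.2
  have h3 : Q.src e.1 = i := by
    by_contra h
    exact h1 (hα _ h)
  have h4 : Q.tgt e.1 = i := by
    by_contra h
    exact h2 (hα _ h)
  exact e.2 ⟨h3, h4⟩

/-- the restriction to the vertex -/
def KM3_res {Q : Quiv I E} {i : I} {α : I → ℕ} {K : Type} [Field K] (x : Rp (KM3_oneQ Q i) K α) :
    Rp KM3_L K (fun _ => α i) := fun _ => x (Sum.inl ())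

theorem KM3_oneQ_isom_iff (Q : Quiv I E) (i : I) {α : I → ℕ} (hα : ∀ l, l ≠ i → α l = 0)
    {K : Type} [Field K] (x y : Rp (KM3_oneQ Q i) K α) :
    Isom x y ↔ Isom (KM3_res x) (KM3_res y) := by
  constructor
  · rintro ⟨g, hg⟩
    exact ⟨fun _ => g i, fun _ => hg (Sum.inl ())⟩
  · rintro ⟨g, hg⟩
    let gi : (Matrix (Fin (α i)) (Fin (α i)) K)ˣ := g ()
    let G : (l : I) → (Matrix (Fin (α l)) (Fin (α l)) K)ˣ :=
      Function.update (fun _ => 1) i gi
    have hGi : G i = gi := Function.update_self _ _ _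
    refine ⟨G, fun e => ?_⟩
    rcases e with b | e
    · let x' : Matrix (Fin (α i)) (Fin (α i)) K := x (Sum.inl b)
      let y' : Matrix (Fin (α i)) (Fin (α i)) K := y (Sum.inl b)
      show (G i).1 * x' = y' * (G i).1
      rw [hGi]
      exact hg ()
    · show (G _).1 * x (Sum.inr e) = y (Sum.inr e) * (G _).1
      rw [KM3_oneQ_zero Q i hα x e, KM3_oneQ_zero Q i hα y e, Matrix.mul_zero,
        Matrix.zero_mul]

theorem KM3_oneQ_indec_iff (Q : Quiv I E) (i : I) {α : I → ℕ} (hα : ∀ l, l ≠ i → α l = 0)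
    {K : Type} [Field K] (x : Rp (KM3_oneQ Q i) K α) : Indec x ↔ Indec (KM3_res x) := by
  have h0 : α ≠ 0 ↔ (fun _ : Unit => α i) ≠ 0 := by
    rw [not_iff_not]
    constructor
    · rintro rfl
      rfl
    · intro h
      funext l
      by_cases h1 : l = i
      · rw [h1]
        exact congrFun h ()
      · exact hα l h1
  unfold Indec
  refine and_congr h0 ?_
  have hempty : ∀ l, l ≠ i → ∀ M N : Matrix (Fin (α l)) (Fin (α l)) K, M = N := by
    intro l h1 M N
    ext a b
    exact Fin.elim0 (Fin.cast (hα l h1) a)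
  constructor
  · intro h p hp hpp
    let pi : Matrix (Fin (α i)) (Fin (α i)) K := p ()
    let P : (l : I) → Matrix (Fin (α l)) (Fin (α l)) K :=
      Function.update (fun _ => 0) i pi
    have hPi : P i = pi := Function.update_self _ _ _
    have h1 : IsMor x x P := by
      intro e
      rcases e with b | e
      · let x' : Matrix (Fin (α i)) (Fin (α i)) K := x (Sum.inl b)
        show P i * x' = x' * P i
        rw [hPi]
        exact hp ()
      · show P _ * x (Sum.inr e) = x (Sum.inr e) * P _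
        rw [KM3_oneQ_zero Q i hα x e, Matrix.mul_zero, Matrix.zero_mul]
    have h2 : ∀ l, P l * P l = P l := by
      intro l
      by_cases hl : l = i
      · subst hl
        rw [hPi]
        exact hpp ()
      · exact hempty l hl _ _
    rcases h P h1 h2 with h3 | h3
    · left
      intro _
      exact hPi.symm.trans (h3 i)
    · right
      intro _
      exact hPi.symm.trans (h3 i)
  · intro h P hP hPP
    rcases h (fun _ => P i) (fun _ => hP (Sum.inl ())) (fun _ => hPP _) with h3 | h3
    · left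
      intro l
      by_cases hl : l = i
      · subst hl
        exact h3 ()
      · exact hempty l hl _ _
    · right
      intro l
      by_cases hl : l = i
      · subst hl
        exact h3 ()
      · exact hempty l hl _ _

theorem KM3_kacCount_oneQ (Q : Quiv I E) (i : I) {α : I → ℕ} (hα : ∀ l, l ≠ i → α l = 0)
    (F : Type) [Field F] : kacCount (KM3_oneQ Q i) F α = kacCount KM3_L F (fun _ => α i) := by
  unfold kacCount absIndecClasses
  apply ncard_classes_eq (fun x => AbsIndec x) (fun y => AbsIndec y) (fun x y => Isom x y)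
    (fun x y => Isom x y) (isom_equivalence _ _ _) (isom_equivalence _ _ _)
    (fun x y => y = KM3_res x)
  · intro x hx
    exact ⟨KM3_res x, (KM3_oneQ_indec_iff Q i hα _).1 hx, rfl⟩
  · intro y hy
    let x : Rp (KM3_oneQ Q i) F α := fun e => match e with
      | Sum.inl b => y b
      | Sum.inr _ => 0
    refine ⟨x, (KM3_oneQ_indec_iff Q i hα _).2 hy, rfl⟩
  · rintro x x' _ _ rfl rfl
    exact KM3_oneQ_isom_iff Q i hα x x'

end

variable {I E : Type} [DecidableEq I] [Fintype I] [Fintype E]

theorem kac_loop (Q : Quiv I E) (i : I) (h : adj Q i i = 2) (n : ℕ) (hn : 1 ≤ n) :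
    kacOne Q (fun l => if l = i then n else 0) = 1 := by
  have h1 : IsKacPoly Q (fun l => if l = i then n else 0) X := by
    intro F _ _
    rw [← kacCount_congr_adj (KM3_oneQ Q i) Q (KM3_adj_oneQ Q i h),
      KM3_kacCount_oneQ Q i (fun l h1 => by simp [h1])]
    have h2 : (fun _ : Unit => if i = i then n else 0) = fun _ => n := by
      funext v
      simp
    rw [h2, KM3_kacCount F hn]
    simp
  rw [kacOne_eq Q _ _ h1]
  simp

end Pool.Agent.H27.KAC
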