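import Pool.Agent.H27.KAC.KF1
import Pool.Agent.H27.KAC.KM1
import Pool.Agent.H27.KAC.KM3

/-!
KAC module KM4: reduction of a ray of dimension vectors by reflections.

A vector `α` is primitive if its entries have gcd one.  `kac_induct`: a property of sequences `N ↦ kacOne Q (N α)`,
`α` primitive, holds for all primitive `α` if it holds for the zero sequence, for `1, 0, 0, …`, for the constant sequences
`1` and `2`, and for those `α` which are ample on their support.
-/

set_option autoImplicit false

namespace Pool.Agent.H27.KAC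

open scoped BigOperators

section

variable {I : Type} [Fintype I]

/-- primitive vectors. -/
def Prim (α : I → ℕ) : Prop := ∀ k : ℕ, (∀ i, k ∣ α i) → k = 1

omit [Fintype I] in
theorem Prim.exists_ne {α : I → ℕ} (h : Prim α) : ∃ i, α i ≠ 0 := by
  by_contra hc
  push Not at hc
  have := h 0 (fun i => by rw [hc i])
  omega

theorem exists_prim (β : I → ℕ) (h : ∃ i, β i ≠ 0) :
    ∃ (g : ℕ) (α : I → ℕ), 1 ≤ g ∧ Prim α ∧ ∀ i, β i = g * α i := by
  obtain ⟨i0, hi0⟩ := h
  have hd : ∀ i, Finset.univ.gcd β ∣ β i := fun i => Finset.gcd_dvd (Finset.mem_univ i)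
  have hg : 1 ≤ Finset.univ.gcd β := by
    rcases Nat.eq_zero_or_pos (Finset.univ.gcd β) with h0 | h0
    · have := hd i0
      rw [h0, zero_dvd_iff] at this
      exact absurd this hi0
    · exact h0
  refine ⟨Finset.univ.gcd β, fun i => β i / Finset.univ.gcd β, hg, ?_,
    fun i => (Nat.mul_div_cancel' (hd i)).symm⟩
  intro k hk
  have h1 : Finset.univ.gcd β * k ∣ Finset.univ.gcd β := by
    apply Finset.dvd_gcd
    intro i _
    obtain ⟨c, hc⟩ := hk i
    refine ⟨c, ?_⟩
    have h2 := Nat.mul_div_cancel' (hd i)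
    have h3 : β i = Finset.univ.gcd β * (k * c) := by rw [← hc]; exact h2.symm
    rw [mul_assoc]
    exact h3
  have h2 : k ∣ 1 := by
    have h3 : Finset.univ.gcd β * k ∣ Finset.univ.gcd β * 1 := by rw [mul_one]; exact h1
    exact Nat.dvd_of_mul_dvd_mul_left hg h3
  exact Nat.dvd_one.1 h2

omit [Fintype I] in
theorem Prim.dvd_iff {α : I → ℕ} (h : Prim α) {N : ℕ} (hN : 1 ≤ N) (k : ℕ) :
    (∀ i, k ∣ N * α i) ↔ k ∣ N := by
  constructor
  · intro hk
    rcases Nat.eq_zero_or_pos k with h0 | h0
    · subst h0
      obtain ⟨i, hi⟩ := h.exists_ne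
      have h1 := hk i
      rw [zero_dvd_iff] at h1
      rcases Nat.mul_eq_zero.1 h1 with h2 | h2
      · omega
      · exact absurd h2 hi
    · have hgpos : 0 < Nat.gcd k N := Nat.gcd_pos_of_pos_left _ h0
      have h1 : k / Nat.gcd k N = 1 := by
        apply h
        intro i
        have h2 : k / Nat.gcd k N ∣ (N / Nat.gcd k N) * α i := by
          have h3 : k / Nat.gcd k N ∣ (N * α i) / Nat.gcd k N :=
            Nat.div_dvd_div (Nat.gcd_dvd_left k N) (hk i)
          rwa [Nat.mul_div_right_comm (Nat.gcd_dvd_right k N)] at h3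
        exact (Nat.coprime_div_gcd_div_gcd hgpos).dvd_of_dvd_mul_left h2
      have h2 : k = Nat.gcd k N := by
        have h3 := Nat.div_mul_cancel (Nat.gcd_dvd_left k N)
        rw [h1, one_mul] at h3
        exact h3.symm
      rw [h2]
      exact Nat.gcd_dvd_right k N
  · intro hk i
    exact hk.mul_right _

theorem fOf_prim (A : (I → ℕ) → ℚ) (α : I → ℕ) (hα : Prim α) (N : ℕ) (hN : 1 ≤ N) :
    fOf A (fun i => N * α i) =
      ∑ k ∈ N.divisors, A (fun i => N / k * α i) / (k : ℚ) ^ 2 := by
  unfold fOf
  have hset : (Finset.range (∑ i, N * α i + 1)).filter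
      (fun k => 1 ≤ k ∧ ∀ i, k ∣ N * α i) = N.divisors := by
    ext k
    rw [Finset.mem_filter, Finset.mem_range, hα.dvd_iff hN, Nat.mem_divisors]
    constructor
    · rintro ⟨_, _, h3⟩
      exact ⟨h3, by omega⟩
    · rintro ⟨h1, h2⟩
      have hk : k ≤ N := Nat.le_of_dvd hN h1
      have hk1 : 1 ≤ k := Nat.pos_of_dvd_of_pos h1 hN
      obtain ⟨i, hi⟩ := hα.exists_ne
      have h3 : N * α i ≤ ∑ i, N * α i :=
        Finset.single_le_sum (f := fun i => N * α i) (fun _ _ => Nat.zero_le _)
          (Finset.mem_univ i)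
      have h4 : N * 1 ≤ N * α i := Nat.mul_le_mul_left _ (Nat.pos_of_ne_zero hi)
      exact ⟨by omega, hk1, h1⟩
  rw [hset]
  apply Finset.sum_congr rfl
  intro k hk
  have hkN : k ∣ N := (Nat.mem_divisors.1 hk).1
  congr 1
  congr 1
  funext i
  exact Nat.mul_div_right_comm hkN (α i)

theorem fOf_prim_sq (A : (I → ℕ) → ℚ) (α : I → ℕ) (hα : Prim α) (N : ℕ) (hN : 1 ≤ N) :
    (N : ℚ) ^ 2 * fOf A (fun i => N * α i) =
      ∑ d ∈ N.divisors, (d : ℚ) ^ 2 * A (fun i => d * α i) := by
  rw [fOf_prim A α hα N hN, ← Nat.sum_div_divisors N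
    (fun d => (d : ℚ) ^ 2 * A (fun i => d * α i)), Finset.mul_sum]
  apply Finset.sum_congr rfl
  intro k hk
  have hkN : k ∣ N := (Nat.mem_divisors.1 hk).1
  have hk0 : (k : ℚ) ≠ 0 := by
    have := Nat.pos_of_dvd_of_pos hkN hN
    positivity
  rw [Nat.cast_div hkN hk0]
  field_simp

end

section

variable {I : Type} [Fintype I] [DecidableEq I]

/-- restriction of a vector to `S`, as a finitely supported function. -/
noncomputable def rV (α : I → ℕ) (S : Finset I) : {i // i ∈ S} →₀ ℕ :=
  Finsupp.equivFunOnFinite.symm (fun i => α i)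

theorem rV_apply (α : I → ℕ) (S : Finset I) (i : {i // i ∈ S}) : rV α S i = α i := rfl

theorem cw_rV (a : I → I → ℕ) (α : I → ℕ) (S : Finset I) (hS : ∀ i, α i ≠ 0 → i ∈ S)
    (i : {i // i ∈ S}) : cw (resM a S) (rV α S) i = -sw a α i := by
  unfold cw sw
  rw [neg_neg, ← Finset.sum_subset (Finset.subset_univ S)
    (f := fun j => cart a i j * (α j : ℤ))]
  · rw [← Finset.sum_coe_sort S (fun j => cart a i j * (α j : ℤ))]
    apply Finset.sum_congr rfl
    intro j _
    rw [rV_apply]
    congr 1
    unfold cart resM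
    congr 1
    by_cases h : i = j
    · rw [if_pos h, if_pos (congrArg Subtype.val h)]
    · rw [if_neg h, if_neg (fun hc => h (Subtype.ext hc))]
  · intro j _ hj
    have : α j = 0 := by
      by_contra hc
      exact hj (hS j hc)
    rw [this]
    simp

theorem ext0_rV (α : I → ℕ) (S : Finset I) (hS : ∀ i, α i ≠ 0 → i ∈ S) (N : ℕ) :
    ext0 S (fun i => N * rV α S i) = fun i => N * α i := by
  funext i
  unfold ext0
  by_cases h : i ∈ S
  · rw [dif_pos h]
    rfl
  · rw [dif_neg h]
    have : α i = 0 := by
      by_contra hc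
      exact h (hS i hc)
    rw [this, mul_zero]

theorem sw_smul (a : I → I → ℕ) (α : I → ℕ) (N : ℕ) (i : I) :
    sw a (fun i => N * α i) i = N * sw a α i := by
  unfold sw
  rw [mul_neg, Finset.mul_sum]
  congr 1
  apply Finset.sum_congr rfl
  intro j _
  push_cast
  ring

end

section

variable {I E : Type} [Fintype I] [DecidableEq I] [Fintype E]

theorem kac_induct (Q : Quiv I E) (hg : GoodMat (adj Q)) (P : (ℕ → ℚ) → Prop)
    (hz : ∀ A : ℕ → ℚ, (∀ N, 1 ≤ N → A N = 0) → P A)
    (hs : ∀ A : ℕ → ℚ, A 1 = 1 → (∀ N, 2 ≤ N → A N = 0) → P A)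
    (hl : ∀ A : ℕ → ℚ, (∀ N, 1 ≤ N → A N = 1) → P A)
    (hk : ∀ A : ℕ → ℚ, (∀ N, 1 ≤ N → A N = 2) → P A)
    (hc : ∀ A B : ℕ → ℚ, (∀ N, 1 ≤ N → A N = B N) → P A → P B)
    (ha : ∀ (α : I → ℕ) (S : Finset I), (∀ i, i ∈ S ↔ α i ≠ 0) → Prim α →
      Conn (resM (adj Q) S) → Nonempty {i // i ∈ S} → Ample (resM (adj Q) S) (rV α S) →
      P (fun N => kacOne Q (fun i => N * α i)))
    (α : I → ℕ) (hα : Prim α) : P (fun N => kacOne Q (fun i => N * α i)) := by
  obtain ⟨h, hh⟩ : ∃ h, ∑ i, α i = h := ⟨_, rfl⟩
  induction h using Nat.strong_induction_on generalizing α with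
  | _ h ih =>
  obtain ⟨S, hS⟩ : ∃ S : Finset I, ∀ i, i ∈ S ↔ α i ≠ 0 :=
    ⟨Finset.univ.filter (fun i => α i ≠ 0), fun i => by simp⟩
  obtain ⟨i0, hi0⟩ := hα.exists_ne
  have hne : Nonempty {i // i ∈ S} := ⟨⟨i0, (hS i0).2 hi0⟩⟩
  by_cases hconn : Conn (resM (adj Q) S)
  swap
  · -- disconnected support
    apply hz
    intro N hN
    unfold Conn at hconn
    push Not at hconn
    obtain ⟨U, hU1, hU2, hU3⟩ := hconn
    apply kac_disconnected Q (fun i => N * α i) (fun i => ∃ h : i ∈ S, (⟨i, h⟩ : {i // i ∈ S}) ∈ U)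
    · obtain ⟨u, hu⟩ := hU1
      refine ⟨u, ⟨u.2, hu⟩, ?_⟩
      exact Nat.mul_ne_zero (by omega) ((hS u).1 u.2)
    · obtain ⟨v, hv⟩ : ∃ v, v ∉ U := by
        by_contra hcon
        push Not at hcon
        exact hU2 (Finset.eq_univ_of_forall hcon)
      refine ⟨v, ?_, ?_⟩
      · rintro ⟨h1, h2⟩
        exact hv h2
      · exact Nat.mul_ne_zero (by omega) ((hS v).1 v.2)
    · rintro i j ⟨hi, hi'⟩ hj hai haj
      have hj1 : j ∈ S := by
        rw [hS]
        intro h0
        exact haj (by rw [h0, mul_zero])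
      have hj2 : (⟨j, hj1⟩ : {i // i ∈ S}) ∉ U := fun hcon => hj ⟨hj1, hcon⟩
      have := hU3 ⟨i, hi⟩ hi' ⟨j, hj1⟩ hj2
      exact Nat.le_zero.1 this
  by_cases hneg : ∃ i : I, adj Q i i = 0 ∧ α i ≠ 0 ∧ sw (adj Q) α i < 0
  · obtain ⟨i, hi, hαi, hsi⟩ := hneg
    by_cases hj : ∃ j, j ≠ i ∧ α j ≠ 0
    · obtain ⟨j, hji, hαj⟩ := hj
      by_cases hr : (α i : ℤ) + sw (adj Q) α i < 0
      · apply hz
        intro N hN
        apply kac_reflect_neg Q i hi
        · exact ⟨j, hji, Nat.mul_ne_zero (by omega) hαj⟩
        · rw [sw_smul]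
          have hN' : (0 : ℤ) < N := by exact_mod_cast hN
          push_cast
          nlinarith
      · push Not at hr
        obtain ⟨c, hc'⟩ := Int.eq_ofNat_of_zero_le hr
        let α' : I → ℕ := Function.update α i c
        have hα'i : α' i = c := Function.update_self _ _ _
        have hα'j : ∀ j, j ≠ i → α' j = α j := fun j hj => Function.update_of_ne hj _ _
        have hsum : ∑ i, α' i < h := by
          rw [← hh]
          apply Finset.sum_lt_sum
          · intro l _
            by_cases hl' : l = i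
            · subst hl'
              rw [hα'i]
              omega
            · rw [hα'j l hl']
          · exact ⟨i, Finset.mem_univ i, by rw [hα'i]; omega⟩
        have hprim : Prim α' := by
          intro k hk'
          apply hα
          have h1 : ∀ j, j ≠ i → k ∣ α j := fun j hj => by rw [← hα'j j hj]; exact hk' j
          intro l
          by_cases hl' : l = i
          · subst hl'
            have h2 : (α l : ℤ) = -(c : ℤ) + ∑ j ∈ Finset.univ.erase l,
                (adj Q l j : ℤ) * (α j : ℤ) := by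
              have h3 : sw (adj Q) α l = -(2 * (α l : ℤ)) + ∑ j ∈ Finset.univ.erase l,
                  (adj Q l j : ℤ) * (α j : ℤ) := by
                unfold sw
                rw [← Finset.add_sum_erase _ _ (Finset.mem_univ l), neg_add, ← Finset.sum_neg_distrib]
                congr 1
                · unfold cart
                  rw [if_pos rfl, hi]
                  simp
                · apply Finset.sum_congr rfl
                  intro j hj
                  unfold cart
                  rw [if_neg (Ne.symm (Finset.ne_of_mem_erase hj))]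
                  ring
              have h4 : (α l : ℤ) + sw (adj Q) α l = (c : ℤ) := hc'
              linarith
            have h3 : (k : ℤ) ∣ (α l : ℤ) := by
              rw [h2]
              apply dvd_add
              · rw [dvd_neg]
                have := hk' l
                rw [hα'i] at this
                exact_mod_cast this
              · apply Finset.dvd_sum
                intro j hj
                apply Dvd.dvd.mul_left
                have := h1 j (Finset.ne_of_mem_erase hj)
                exact_mod_cast this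
            exact_mod_cast h3
          · exact h1 l hl'
        apply hc _ _ _ (ih _ hsum α' hprim rfl)
        intro N hN
        apply kac_reflect Q i hi (fun i => N * α i) (fun i => N * α' i)
        · exact ⟨j, hji, Nat.mul_ne_zero (by omega) hαj⟩
        · intro j hj
          show N * α' j = N * α j
          rw [hα'j j hj]
        · show ((N * α' i : ℕ) : ℤ) = ((N * α i : ℕ) : ℤ) + _
          rw [sw_smul, hα'i]
          have h4 : (α i : ℤ) + sw (adj Q) α i = (c : ℤ) := hc'
          push_cast
          rw [← h4]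
          ring
    · -- simple root
      push Not at hj
      have hα1 : α i = 1 := by
        apply hα
        intro l
        by_cases hl' : l = i
        · rw [hl']
        · rw [hj l hl']
          exact dvd_zero _
      have hα2 : ∀ N : ℕ, (fun l => N * α l) = Pi.single i N := by
        intro N
        funext l
        by_cases hl' : l = i
        · rw [hl', hα1, Pi.single_eq_same, mul_one]
        · rw [hj l hl', Pi.single_eq_of_ne hl', mul_zero]
      apply hs
      · show kacOne Q (fun l => 1 * α l) = 1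
        rw [hα2 1]
        exact kac_simple_one Q i hi
      · intro N hN
        show kacOne Q (fun l => N * α l) = 0
        rw [hα2 N]
        exact kac_simple_ge_two Q i hi N hN
  -- no reflection decreases the height
  push Not at hneg
  have hgood : GoodMat (resM (adj Q) S) :=
    ⟨fun i j => hg.symm i j, fun i => hg.diag i,
      fun i j hij h1 h2 => hg.good i j (fun hcon => hij (Subtype.ext hcon)) h1 h2⟩
  have hS' : ∀ i, α i ≠ 0 → i ∈ S := fun i hi => (hS i).2 hi
  have hor := ample_or (resM (adj Q) S) hgood hconn (rV α S)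
    (fun i => by rw [rV_apply]; exact Nat.pos_of_ne_zero ((hS i).1 i.2))
    (fun i hi => by
      rw [cw_rV _ _ _ hS', neg_neg]
      exact hneg i hi ((hS i).1 i.2))
  rcases hor with hamp | ⟨i, hi1, hi2⟩ | ⟨i, j, hij, hl', hi, hj, haij, hαij⟩
  · exact ha α S hS hα hconn hne hamp
  · -- one loop
    have hz' : ∀ l, l ≠ (i : I) → α l = 0 := by
      intro l hl'
      by_contra hcon
      exact hl' (congrArg Subtype.val (hi1 ⟨l, hS' l hcon⟩))
    have hpos : 1 ≤ α i := Nat.pos_of_ne_zero ((hS i).1 i.2)
    apply hl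
    intro N hN
    have hfun : (fun l => N * α l) = (fun l => if l = (i : I) then N * α i else 0) := by
      funext l
      by_cases hl' : l = (i : I)
      · rw [if_pos hl', hl']
      · rw [if_neg hl', hz' l hl', mul_zero]
    show kacOne Q (fun l => N * α l) = 1
    rw [hfun]
    exact kac_loop Q i hi2 (N * α i) (Nat.mul_pos hN hpos)
  · -- Kronecker quiver
    have hij' : (i : I) ≠ j := fun hcon => hij (Subtype.ext hcon)
    have hz' : ∀ l, l ≠ (i : I) → l ≠ (j : I) → α l = 0 := by
      intro l h1 h2
      by_contra hcon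
      rcases hl' ⟨l, hS' l hcon⟩ with h3 | h3
      · exact h1 (congrArg Subtype.val h3)
      · exact h2 (congrArg Subtype.val h3)
    have hpos : 1 ≤ α i := Nat.pos_of_ne_zero ((hS i).1 i.2)
    have heq : α j = α i := by
      rw [rV_apply, rV_apply] at hαij
      exact hαij.symm
    apply hk
    intro N hN
    have hfun : (fun l => N * α l) =
        (fun l => if l = (i : I) ∨ l = (j : I) then N * α i else 0) := by
      funext l
      by_cases h1 : l = (i : I)
      · rw [if_pos (Or.inl h1), h1]
      · by_cases h2 : l = (j : I)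
        · rw [if_pos (Or.inr h2), h2, heq]
        · rw [if_neg (by tauto), hz' l h1 h2, mul_zero]
    show kacOne Q (fun l => N * α l) = 2
    rw [hfun]
    exact kac_kron Q i j hij' hi hj haij (N * α i) (Nat.mul_pos hN hpos)

end

end Pool.Agent.H27.KAC
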