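import Mathlib

/-!
KAC module KM5: from the growth of `F_N = ∑_(d | N) A_d (d / N)^2` to the growth of `A_N` (elementary analysis).

PROOF.  Moebius inversion (`ArithmeticFunction.sum_eq_iff_sum_mul_moebius_eq` for `d^2 A_d` and `N^2 F_N`):
`N^2 A_N = ∑_(x y = N) μ(x) y^2 F_y`, so
(U) `|A_N| N^2 ≤ ∑_(d | N) d^2 F_d ≤ N^3 max_(d ≤ N) F_d`,
(L) `N^2 A_N ≥ N^2 F_N - ∑_(d | N, d < N) d^2 F_d ≥ N^2 F_N - N^3 max_(d ≤ N / 2) F_d`.
For each `ε > 0` there is `C ≥ 1` with `F_d ≤ C exp ((l + ε) d)` for all `d ≥ 1`.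
Upper bound: by (U) `A_N ≤ N C exp ((l + ε) N)`, so `log A_N / N ≤ l + 2 ε` for large `N` with `A_N > 0`.
Lower bound, `l = 0`: `A_N` is an integer, so `A_N ≥ 1`, `log A_N ≥ 0`.
Lower bound, `l > 0`: take `ε < l / 8`; `F_N ≥ exp ((l - ε) N)` for large `N`, and
`N max_(d ≤ N / 2) F_d ≤ N C exp ((l + ε) N / 2) ≤ exp ((l - ε) N) / 2` for large `N`, so `A_N ≥ exp ((l - ε) N) / 2`.
Apply this to `N = n g`, `n → ∞`, and `log A_(n g) / n = g * (log A_(n g) / (n g))`.
-/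

set_option autoImplicit false

namespace Pool.Agent.H27.KAC

open scoped BigOperators
open Filter Topology

private theorem KM5_bound (F : ℕ → ℝ) (hF0 : ∀ N, 0 ≤ F N) (l : ℝ) (hl : 0 ≤ l)
    (hlim : Tendsto (fun N : ℕ => Real.log (F N) / N) atTop (𝓝 l)) (ε : ℝ) (hε : 0 < ε) :
    ∃ C : ℝ, 1 ≤ C ∧ ∀ d : ℕ, F d ≤ C * Real.exp ((l + ε) * d) := by
  have h1 : ∀ᶠ N : ℕ in atTop, Real.log (F N) / N < l + ε :=
    hlim.eventually_lt_const (by linarith)
  obtain ⟨N0, hN0⟩ := eventually_atTop.1 h1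
  have hsum : 0 ≤ ∑ d ∈ Finset.range (N0 + 1), F d := Finset.sum_nonneg fun d _ => hF0 d
  refine ⟨1 + ∑ d ∈ Finset.range (N0 + 1), F d, by linarith, fun d => ?_⟩
  have hexp : 1 ≤ Real.exp ((l + ε) * d) := Real.one_le_exp (by positivity)
  by_cases hd : d < N0 + 1
  · have h2 : F d ≤ ∑ d ∈ Finset.range (N0 + 1), F d :=
      Finset.single_le_sum (f := F) (fun i _ => hF0 i) (Finset.mem_range.2 hd)
    nlinarith
  · rw [not_lt] at hd
    have h3 : F d ≤ Real.exp ((l + ε) * d) := by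
      rcases (hF0 d).lt_or_eq with h | h
      · have hd0 : (0 : ℝ) < d := by
          have : 0 < d := by omega
          exact_mod_cast this
        have h4 := hN0 d (by omega)
        rw [div_lt_iff₀ hd0] at h4
        rw [← Real.exp_log h]
        exact Real.exp_le_exp.2 h4.le
      · rw [← h]
        exact (Real.exp_pos _).le
    nlinarith

private theorem KM5_moebius (A F : ℕ → ℝ)
    (hAF : ∀ N : ℕ, 1 ≤ N → (N : ℝ) ^ 2 * F N = ∑ d ∈ N.divisors, (d : ℝ) ^ 2 * A d) (N : ℕ) (hN : 1 ≤ N) :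
    (N : ℝ) ^ 2 * A N = ∑ x ∈ N.divisorsAntidiagonal,
      ((ArithmeticFunction.moebius x.1 : ℤ) : ℝ) * ((x.2 : ℝ) ^ 2 * F x.2) := by
  have h := (ArithmeticFunction.sum_eq_iff_sum_mul_moebius_eq
    (f := fun n : ℕ => (n : ℝ) ^ 2 * A n) (g := fun n : ℕ => (n : ℝ) ^ 2 * F n)).1
    (fun n hn => (hAF n hn).symm) N hN
  exact h.symm

private theorem KM5_term (F : ℕ → ℝ) (hF0 : ∀ N, 0 ≤ F N) (C c : ℝ) (hC : 1 ≤ C) (hc : 0 ≤ c)
    (hF : ∀ d : ℕ, F d ≤ C * Real.exp (c * d)) (x y N : ℕ) (T : ℝ) (hyT : (y : ℝ) ≤ T) (hyN : y ≤ N) :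
    |((ArithmeticFunction.moebius x : ℤ) : ℝ) * ((y : ℝ) ^ 2 * F y)| ≤ (N : ℝ) ^ 2 * (C * Real.exp (c * T)) := by
  have h1 : |((ArithmeticFunction.moebius x : ℤ) : ℝ)| ≤ 1 := by
    have h2 := ArithmeticFunction.abs_moebius_le_one (n := x)
    exact_mod_cast h2
  have h3 : 0 ≤ (y : ℝ) ^ 2 * F y := mul_nonneg (sq_nonneg _) (hF0 y)
  rw [abs_mul, abs_of_nonneg h3]
  have hyN' : (y : ℝ) ≤ N := by exact_mod_cast hyN
  have h4 : F y ≤ C * Real.exp (c * T) := (hF y).trans (by gcongr)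
  calc |((ArithmeticFunction.moebius x : ℤ) : ℝ)| * ((y : ℝ) ^ 2 * F y) ≤ 1 * ((y : ℝ) ^ 2 * F y) :=
        mul_le_mul_of_nonneg_right h1 h3
    _ = (y : ℝ) ^ 2 * F y := one_mul _
    _ ≤ (N : ℝ) ^ 2 * (C * Real.exp (c * T)) := by
        refine mul_le_mul ?_ h4 (hF0 y) (sq_nonneg _)
        exact pow_le_pow_left₀ (Nat.cast_nonneg y) hyN' 2

private theorem KM5_card (N : ℕ) : (N.divisorsAntidiagonal.card : ℝ) ≤ N := by
  have h1 : N.divisorsAntidiagonal.card = N.divisors.card := by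
    rw [← Nat.map_div_right_divisors, Finset.card_map]
  rw [h1]
  exact_mod_cast Nat.card_divisors_le_self N

private theorem KM5_upper (A F : ℕ → ℝ)
    (hAF : ∀ N : ℕ, 1 ≤ N → (N : ℝ) ^ 2 * F N = ∑ d ∈ N.divisors, (d : ℝ) ^ 2 * A d)
    (hF0 : ∀ N, 0 ≤ F N) (C c : ℝ) (hC : 1 ≤ C) (hc : 0 ≤ c)
    (hF : ∀ d : ℕ, F d ≤ C * Real.exp (c * d)) (N : ℕ) (hN : 1 ≤ N) :
    A N ≤ N * (C * Real.exp (c * N)) := by
  have h1 := KM5_moebius A F hAF N hN
  have hN0 : (0 : ℝ) < N := by exact_mod_cast hN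
  have h2 : (N : ℝ) ^ 2 * A N ≤ N * ((N : ℝ) ^ 2 * (C * Real.exp (c * N))) := by
    rw [h1]
    refine (le_abs_self _).trans ((Finset.abs_sum_le_sum_abs _ _).trans ?_)
    refine (Finset.sum_le_card_nsmul _ _ ((N : ℝ) ^ 2 * (C * Real.exp (c * N))) ?_).trans ?_
    · intro x hx
      have hx2 : x.2 ≤ N := Nat.divisor_le (Nat.snd_mem_divisors_of_mem_antidiagonal hx)
      exact KM5_term F hF0 C c hC hc hF x.1 x.2 N N (by exact_mod_cast hx2) hx2
    · rw [nsmul_eq_mul]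
      exact mul_le_mul_of_nonneg_right (KM5_card N) (by positivity)
  have h3 : (N : ℝ) ^ 2 * A N ≤ (N : ℝ) ^ 2 * (N * (C * Real.exp (c * N))) := by
    calc _ ≤ N * ((N : ℝ) ^ 2 * (C * Real.exp (c * N))) := h2
      _ = _ := by ring
  exact le_of_mul_le_mul_left h3 (by positivity)

private theorem KM5_lower (A F : ℕ → ℝ)
    (hAF : ∀ N : ℕ, 1 ≤ N → (N : ℝ) ^ 2 * F N = ∑ d ∈ N.divisors, (d : ℝ) ^ 2 * A d)
    (hF0 : ∀ N, 0 ≤ F N) (C c : ℝ) (hC : 1 ≤ C) (hc : 0 ≤ c)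
    (hF : ∀ d : ℕ, F d ≤ C * Real.exp (c * d)) (N : ℕ) (hN : 1 ≤ N) :
    F N - N * (C * Real.exp (c * (N / 2))) ≤ A N := by
  have h1 := KM5_moebius A F hAF N hN
  have hN0 : (0 : ℝ) < N := by exact_mod_cast hN
  have hmem : (1, N) ∈ N.divisorsAntidiagonal := by
    rw [Nat.mem_divisorsAntidiagonal]
    exact ⟨one_mul N, by omega⟩
  rw [← Finset.add_sum_erase _ _ hmem] at h1
  have hm1 : ((ArithmeticFunction.moebius 1 : ℤ) : ℝ) = 1 := by
    rw [ArithmeticFunction.moebius_apply_one]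
    norm_num
  rw [hm1, one_mul] at h1
  have h2 : |∑ x ∈ N.divisorsAntidiagonal.erase (1, N),
      ((ArithmeticFunction.moebius x.1 : ℤ) : ℝ) * ((x.2 : ℝ) ^ 2 * F x.2)| ≤
      N * ((N : ℝ) ^ 2 * (C * Real.exp (c * (N / 2)))) := by
    refine (Finset.abs_sum_le_sum_abs _ _).trans ?_
    refine (Finset.sum_le_card_nsmul _ _ ((N : ℝ) ^ 2 * (C * Real.exp (c * (N / 2)))) ?_).trans ?_
    · intro x hx
      rw [Finset.mem_erase, Nat.mem_divisorsAntidiagonal] at hx
      obtain ⟨hne, hxy, -⟩ := hx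
      have hx1 : 2 ≤ x.1 := by
        rcases Nat.lt_or_ge x.1 2 with h | h
        · exfalso
          interval_cases hx1 : x.1
          · rw [zero_mul] at hxy
            omega
          · rw [one_mul] at hxy
            exact hne (Prod.ext hx1 hxy)
        · exact h
      have hx2 : 2 * x.2 ≤ N := by
        rw [← hxy]
        exact Nat.mul_le_mul_right _ hx1
      have hx2' : (x.2 : ℝ) ≤ N / 2 := by
        have : (2 : ℝ) * x.2 ≤ N := by exact_mod_cast hx2
        linarith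
      exact KM5_term F hF0 C c hC hc hF x.1 x.2 N (N / 2) hx2' (by omega)
    · rw [nsmul_eq_mul]
      refine mul_le_mul_of_nonneg_right ?_ (by positivity)
      refine le_trans ?_ (KM5_card N)
      exact_mod_cast Finset.card_le_card (Finset.erase_subset _ _)
  have h3 := (abs_le.1 h2).1
  have h4 : (N : ℝ) ^ 2 * (F N - N * (C * Real.exp (c * (N / 2)))) ≤ (N : ℝ) ^ 2 * A N := by
    rw [h1]
    have : (N : ℝ) ^ 2 * (F N - N * (C * Real.exp (c * (N / 2)))) =
        (N : ℝ) ^ 2 * F N - N * ((N : ℝ) ^ 2 * (C * Real.exp (c * (N / 2)))) := by ring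
    rw [this]
    linarith
  exact le_of_mul_le_mul_left h4 (by positivity)

private theorem KM5_main (A F : ℕ → ℝ)
    (hAF : ∀ N : ℕ, 1 ≤ N → (N : ℝ) ^ 2 * F N = ∑ d ∈ N.divisors, (d : ℝ) ^ 2 * A d)
    (hF0 : ∀ N, 0 ≤ F N) (hint : ∀ N, ∃ z : ℤ, A N = z) (l : ℝ) (hl : 0 ≤ l)
    (hFpos : ∀ᶠ N : ℕ in atTop, 0 < F N)
    (hlim : Tendsto (fun N : ℕ => Real.log (F N) / N) atTop (𝓝 l)) (ε : ℝ) (hε : 0 < ε) :
    ∀ᶠ N : ℕ in atTop, 0 < A N → |Real.log (A N) / N - l| ≤ ε := by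
  have hlogN : Tendsto (fun N : ℕ => Real.log N / N) atTop (𝓝 0) :=
    (Real.isLittleO_log_id_atTop.tendsto_div_nhds_zero).comp tendsto_natCast_atTop_atTop
  have hconst : ∀ b : ℝ, Tendsto (fun N : ℕ => b / (N : ℝ)) atTop (𝓝 0) := fun b =>
    tendsto_const_div_atTop_nhds_zero_nat b
  -- upper bound
  have hup : ∀ᶠ N : ℕ in atTop, 0 < A N → Real.log (A N) / N ≤ l + ε := by
    obtain ⟨C, hC, hCF⟩ := KM5_bound F hF0 l hl hlim (ε / 2) (by linarith)
    have h1 : Tendsto (fun N : ℕ => Real.log N / N + Real.log C / N) atTop (𝓝 0) := by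
      have := hlogN.add (hconst (Real.log C))
      rwa [add_zero] at this
    filter_upwards [h1.eventually_lt_const (show (0 : ℝ) < ε / 2 by linarith), eventually_ge_atTop 1]
      with N hN hN1 hA
    have hN0 : (0 : ℝ) < N := by exact_mod_cast hN1
    have h2 := KM5_upper A F hAF hF0 C (l + ε / 2) hC (by linarith) hCF N hN1
    have h3 : Real.log (A N) ≤ Real.log N + (Real.log C + (l + ε / 2) * N) := by
      refine (Real.log_le_log hA h2).trans (le_of_eq ?_)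
      rw [Real.log_mul hN0.ne' (by positivity), Real.log_mul (by positivity) (Real.exp_ne_zero _),
        Real.log_exp]
    rw [← add_div, div_lt_iff₀ hN0] at hN
    rw [div_le_iff₀ hN0]
    nlinarith
  -- lower bound
  have hlo : ∀ᶠ N : ℕ in atTop, 0 < A N → l - ε ≤ Real.log (A N) / N := by
    rcases hl.eq_or_lt with hl0 | hl0
    · filter_upwards with N hA
      obtain ⟨z, hz⟩ := hint N
      have hz1 : 1 ≤ z := by
        have : (0 : ℝ) < z := by rw [← hz]; exact hA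
        have : 0 < z := by exact_mod_cast this
        omega
      have h1 : 0 ≤ Real.log (A N) := by
        rw [hz]
        exact Real.log_nonneg (by exact_mod_cast hz1)
      have h2 : 0 ≤ Real.log (A N) / N := by positivity
      linarith
    · obtain ⟨δ, hδ⟩ : ∃ δ : ℝ, δ = min (ε / 2) (l / 8) := ⟨_, rfl⟩
      have hδ1 : δ ≤ ε / 2 := hδ ▸ min_le_left _ _
      have hδ2 : δ ≤ l / 8 := hδ ▸ min_le_right _ _
      have hδ0 : 0 < δ := by rw [hδ]; exact lt_min (by linarith) (by linarith)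
      obtain ⟨C, hC, hCF⟩ := KM5_bound F hF0 l hl hlim δ hδ0
      have h1 : ∀ᶠ N : ℕ in atTop, l - δ < Real.log (F N) / N :=
        hlim.eventually_const_lt (by linarith)
      have h2 : Tendsto (fun N : ℕ => 2 * C * ((N : ℝ) ^ 1 * Real.exp (-(l / 4) * N))) atTop (𝓝 0) := by
        have h3 := (Real.tendsto_pow_mul_exp_neg_atTop_nhds_zero 1)
        have h4 : Tendsto (fun N : ℕ => l / 4 * (N : ℝ)) atTop atTop :=
          tendsto_natCast_atTop_atTop.const_mul_atTop (by linarith)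
        have h5 := (h3.comp h4).const_mul (2 * C * (4 / l))
        rw [mul_zero] at h5
        refine h5.congr fun N => ?_
        show 2 * C * (4 / l) * ((l / 4 * (N : ℝ)) ^ 1 * Real.exp (-(l / 4 * (N : ℝ)))) = _
        rw [pow_one, pow_one, neg_mul]
        field_simp
      filter_upwards [h1, h2.eventually_lt_const (show (0 : ℝ) < 1 by norm_num),
        (hconst (Real.log 2)).eventually_lt_const (show (0 : ℝ) < ε / 2 by linarith), hFpos,
        eventually_ge_atTop 1] with N hN hN2 hN3 hFN hN1 hA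
      have hN0 : (0 : ℝ) < N := by exact_mod_cast hN1
      have h6 := KM5_lower A F hAF hF0 C (l + δ) hC (by linarith) hCF N hN1
      rw [lt_div_iff₀ hN0] at hN
      have h7 : Real.exp ((l - δ) * N) ≤ F N := by
        rw [← Real.exp_log hFN]
        exact Real.exp_le_exp.2 hN.le
      have h8 : N * (C * Real.exp ((l + δ) * (N / 2))) ≤ Real.exp ((l - δ) * N) / 2 := by
        have h9 : Real.exp ((l + δ) * (N / 2)) ≤ Real.exp ((l - δ) * N) * Real.exp (-(l / 4) * N) := by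
          rw [← Real.exp_add]
          refine Real.exp_le_exp.2 ?_
          nlinarith
        have h10 : 2 * C * ((N : ℝ) ^ 1 * Real.exp (-(l / 4) * N)) < 1 := hN2
        rw [pow_one] at h10
        have h11 : 0 < Real.exp ((l - δ) * N) := Real.exp_pos _
        calc N * (C * Real.exp ((l + δ) * (N / 2)))
            ≤ N * (C * (Real.exp ((l - δ) * N) * Real.exp (-(l / 4) * N))) := by gcongr
          _ = Real.exp ((l - δ) * N) / 2 * (2 * C * (N * Real.exp (-(l / 4) * N))) := by ring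
          _ ≤ Real.exp ((l - δ) * N) / 2 * 1 := by
              refine mul_le_mul_of_nonneg_left h10.le (by positivity)
          _ = _ := mul_one _
      have h12 : Real.exp ((l - δ) * N) / 2 ≤ A N := by linarith
      have h13 : (l - δ) * N - Real.log 2 ≤ Real.log (A N) := by
        refine le_trans (le_of_eq ?_) (Real.log_le_log (by positivity) h12)
        rw [Real.log_div (Real.exp_ne_zero _) (by norm_num), Real.log_exp]
      rw [div_lt_iff₀ hN0] at hN3
      rw [le_div_iff₀ hN0]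
      nlinarith
  filter_upwards [hup, hlo] with N h1 h2 hA
  rw [abs_le]
  constructor
  · linarith [h2 hA]
  · linarith [h1 hA]

theorem limit_A_of_F (A F : ℕ → ℝ)
    (hAF : ∀ N : ℕ, 1 ≤ N → (N : ℝ) ^ 2 * F N = ∑ d ∈ N.divisors, (d : ℝ) ^ 2 * A d)
    (hF0 : ∀ N, 0 ≤ F N) (hint : ∀ N, ∃ z : ℤ, A N = z) (l : ℝ) (hl : 0 ≤ l)
    (hFpos : ∀ᶠ N : ℕ in atTop, 0 < F N)
    (hlim : Tendsto (fun N : ℕ => Real.log (F N) / N) atTop (𝓝 l)) (g : ℕ) (hg : 1 ≤ g)
    (hA : ∀ᶠ n : ℕ in atTop, 0 < A (n * g)) :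
    Tendsto (fun n : ℕ => Real.log (A (n * g)) / n) atTop (𝓝 (g * l)) := by
  have hgr : (0 : ℝ) < g := by exact_mod_cast hg
  have hng : Tendsto (fun n : ℕ => n * g) atTop atTop :=
    tendsto_id.atTop_mul_const' (by omega)
  have h1 : Tendsto (fun n : ℕ => Real.log (A (n * g)) / ((n * g : ℕ) : ℝ)) atTop (𝓝 l) := by
    rw [Metric.tendsto_nhds]
    intro ε hε
    have h2 := KM5_main A F hAF hF0 hint l hl hFpos hlim (ε / 2) (by linarith)
    filter_upwards [hng.eventually h2, hA] with n hn hA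
    rw [Real.dist_eq]
    linarith [hn hA]
  have h3 := h1.const_mul (g : ℝ)
  refine h3.congr' ?_
  filter_upwards [eventually_ge_atTop 1] with n hn
  have hn0 : (0 : ℝ) < n := by exact_mod_cast hn
  push_cast
  field_simp

end Pool.Agent.H27.KAC
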