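import Pool.Agent.H27.KAC.KM2
import Pool.Agent.H27.KAC.KM4
import Pool.Agent.H27.KAC.KM5
import Pool.Agent.H27.KAC.KGMain
import Pool.Agent.H27.KAC.KIInt

/-!
KAC module KM6: `fOf (kacOne Q) ≥ 0` and the growth of the Kac polynomials at one along the rays.
-/

set_option autoImplicit false

namespace Pool.Agent.H27.KAC

open scoped BigOperators
open Filter Topology

variable {I E : Type} [Fintype I] [DecidableEq I] [Fintype E]

omit [Fintype I] in
theorem goodMat_resM {a : I → I → ℕ} (hg : GoodMat a) (S : Finset I) : GoodMat (resM a S) :=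
  ⟨fun i j => hg.symm i j, fun i => hg.diag i,
    fun i j hij h1 h2 => hg.good i j (fun hcon => hij (Subtype.ext hcon)) h1 h2⟩

theorem Ample.smul {a : I → I → ℕ} {α : I →₀ ℕ} (h : Ample a α) (N : ℕ) (hN : 1 ≤ N) :
    Ample a (N • α) := by
  have hcw : ∀ i, cw a (N • α) i = N * cw a α i := by
    intro i
    unfold cw
    rw [Finset.mul_sum]
    apply Finset.sum_congr rfl
    intro j _
    rw [Finsupp.smul_apply, smul_eq_mul]
    push_cast
    ring
  have hN' : (0 : ℤ) < N := by exact_mod_cast hN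
  refine ⟨fun i => ?_, fun i hi => ?_, fun i hi => ?_, fun x y hxy hx hy hx' hy' => ?_⟩
  · rw [Finsupp.smul_apply, smul_eq_mul]
    exact Nat.mul_pos hN (h.supp i)
  · rw [hcw, ← mul_neg]
    exact mul_nonneg hN'.le (h.pos i hi)
  · rw [hcw, ← mul_neg]
    exact mul_pos hN' (h.posl i hi)
  · rw [hcw] at hx' hy'
    exact h.nonadj x y hxy hx hy ((mul_eq_zero.1 hx').resolve_left hN'.ne')
      ((mul_eq_zero.1 hy').resolve_left hN'.ne')

theorem fOf_kac_zero (A : (I → ℕ) → ℚ) (β : I → ℕ) (h : ∀ i, β i = 0) : fOf A β = 0 := by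
  unfold fOf
  apply Finset.sum_eq_zero
  intro k hk
  rw [Finset.mem_filter, Finset.mem_range] at hk
  have : ∑ i, β i = 0 := Finset.sum_eq_zero (fun i _ => h i)
  omega

theorem f_nonneg (Q : Quiv I E) (hg : GoodMat (adj Q)) (β : I → ℕ) :
    0 ≤ fOf (kacOne Q) β := by
  by_cases hβ : ∃ i, β i ≠ 0
  swap
  · push Not at hβ
    rw [fOf_kac_zero _ β hβ]
  obtain ⟨g, α, hg1, hα, hβα⟩ := exists_prim β hβ
  have hfun : β = fun i => g * α i := funext hβα
  rw [hfun]
  have hP : ∀ N : ℕ, 1 ≤ N →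
      0 ≤ ∑ k ∈ N.divisors, (fun N : ℕ => kacOne Q (fun i => N * α i)) (N / k) / (k : ℚ) ^ 2 := by
    apply kac_induct Q hg (fun A => ∀ N : ℕ, 1 ≤ N →
      0 ≤ ∑ k ∈ N.divisors, A (N / k) / (k : ℚ) ^ 2) _ _ _ _ _ _ α hα
    · intro A hA N hN
      apply Finset.sum_nonneg
      intro k hk
      have h1 : 1 ≤ N / k := Nat.div_pos (Nat.divisor_le hk) (Nat.pos_of_mem_divisors hk)
      rw [hA _ h1, zero_div]
    · intro A hA1 hA2 N hN
      apply Finset.sum_nonneg
      intro k hk
      have h1 : 1 ≤ N / k := Nat.div_pos (Nat.divisor_le hk) (Nat.pos_of_mem_divisors hk)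
      apply div_nonneg _ (by positivity)
      rcases Nat.eq_or_lt_of_le h1 with h2 | h2
      · rw [← h2, hA1]
        exact zero_le_one
      · rw [hA2 _ h2]
    · intro A hA N hN
      apply Finset.sum_nonneg
      intro k hk
      have h1 : 1 ≤ N / k := Nat.div_pos (Nat.divisor_le hk) (Nat.pos_of_mem_divisors hk)
      rw [hA _ h1]
      positivity
    · intro A hA N hN
      apply Finset.sum_nonneg
      intro k hk
      have h1 : 1 ≤ N / k := Nat.div_pos (Nat.divisor_le hk) (Nat.pos_of_mem_divisors hk)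
      rw [hA _ h1]
      positivity
    · intro A B hAB hA N hN
      have h2 := hA N hN
      rwa [Finset.sum_congr rfl (fun k hk => by
        rw [hAB _ (Nat.div_pos (Nat.divisor_le hk) (Nat.pos_of_mem_divisors hk))])] at h2
    · intro α S hS hα hconn hne hamp N hN
      have hS' : ∀ i, α i ≠ 0 → i ∈ S := fun i hi => (hS i).2 hi
      have h1 := f_nonneg_Ample (resM (adj Q) S) (goodMat_resM hg S)
        (fun β => fOf (kacOne Q) (ext0 S β)) ((kacData_kac Q).restrict S) hconn hne
        (N • rV α S) (hamp.smul N hN)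
      have h2 : ext0 S ((N • rV α S : {i // i ∈ S} →₀ ℕ) : {i // i ∈ S} → ℕ) =
          fun i => N * α i := ext0_rV α S hS' N
      have h3 : 0 ≤ fOf (kacOne Q) (fun i => N * α i) := by
        rw [← h2]
        exact h1
      rw [fOf_prim _ α hα N hN] at h3
      exact h3
  rw [fOf_prim _ α hα g hg1]
  exact hP g hg1

/-- the limit along a ray. -/
theorem kac_limit (Q : Quiv I E) (hg : GoodMat (adj Q)) (β : I → ℕ)
    (hβ : ∀ᶠ n : ℕ in atTop, 0 < kacOne Q (fun i => n * β i)) :
    ∃ l : ℝ, Tendsto (fun n : ℕ => Real.log ((kacOne Q (fun i => n * β i) : ℚ) : ℝ) / n)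
      atTop (𝓝 l) := by
  by_cases hβ0 : ∃ i, β i ≠ 0
  swap
  · push Not at hβ0
    obtain ⟨n, hn⟩ := hβ.exists
    have h0 : (fun i => n * β i) = (0 : I → ℕ) := by
      funext i
      rw [hβ0 i, mul_zero]
      rfl
    rw [h0, kacOne_zero] at hn
    exact absurd hn (lt_irrefl _)
  obtain ⟨g, α, hg1, hα, hβα⟩ := exists_prim β hβ0
  have hfun : ∀ n : ℕ, (fun i => n * β i) = fun i => (n * g) * α i := by
    intro n
    funext i
    rw [hβα i, mul_assoc]
  simp only [hfun] at hβ ⊢
  have hconst : ∀ c : ℝ, Tendsto (fun n : ℕ => c / (n : ℝ)) atTop (𝓝 0) := fun c =>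
    tendsto_const_div_atTop_nhds_zero_nat c
  have key : (∀ᶠ n : ℕ in atTop, 0 < (fun N : ℕ => kacOne Q (fun i => N * α i)) (n * g)) →
      ∃ l : ℝ, Tendsto (fun n : ℕ =>
        Real.log (((fun N : ℕ => kacOne Q (fun i => N * α i)) (n * g) : ℚ) : ℝ) / n)
      atTop (𝓝 l) := by
    apply kac_induct Q hg (fun A => (∀ᶠ n : ℕ in atTop, 0 < A (n * g)) →
      ∃ l : ℝ, Tendsto (fun n : ℕ => Real.log ((A (n * g) : ℚ) : ℝ) / n) atTop (𝓝 l))
      _ _ _ _ _ _ α hα
    · intro A hA hpos
      obtain ⟨n, hn, hn1⟩ := (hpos.and (eventually_ge_atTop 1)).exists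
      rw [hA _ (Nat.mul_pos hn1 hg1)] at hn
      exact absurd hn (lt_irrefl _)
    · intro A hA1 hA hpos
      obtain ⟨n, hn, hn1⟩ := (hpos.and (eventually_ge_atTop 2)).exists
      rw [hA _ (by calc 2 = 2 * 1 := rfl
        _ ≤ n * g := Nat.mul_le_mul hn1 hg1)] at hn
      exact absurd hn (lt_irrefl _)
    · intro A hA _
      refine ⟨0, (hconst (Real.log 1)).congr' ?_⟩
      filter_upwards [eventually_ge_atTop 1] with n hn
      rw [hA _ (Nat.mul_pos hn hg1)]
      norm_num
    · intro A hA _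
      refine ⟨0, (hconst (Real.log 2)).congr' ?_⟩
      filter_upwards [eventually_ge_atTop 1] with n hn
      rw [hA _ (Nat.mul_pos hn hg1)]
      norm_num
    · intro A B hAB hA hpos
      have h1 : ∀ᶠ n : ℕ in atTop, 0 < A (n * g) := by
        filter_upwards [hpos, eventually_ge_atTop 1] with n hn hn1
        rw [hAB _ (Nat.mul_pos hn1 hg1)]
        exact hn
      obtain ⟨l, hl⟩ := hA h1
      refine ⟨l, hl.congr' ?_⟩
      filter_upwards [eventually_ge_atTop 1] with n hn
      rw [hAB _ (Nat.mul_pos hn hg1)]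
    · intro α S hS hα hconn hne hamp hpos
      have hS' : ∀ i, α i ≠ 0 → i ∈ S := fun i hi => (hS i).2 hi
      obtain ⟨l, hl0, hFpos, hFlim⟩ := growth_Ample (resM (adj Q) S) (goodMat_resM hg S) hconn hne
        (fun β => fOf (kacOne Q) (ext0 S β)) ((kacData_kac Q).restrict S)
        (fun β => f_nonneg Q hg _) (rV α S) hamp
      have hext : ∀ n : ℕ, fOf (kacOne Q) (ext0 S (fun i => n * rV α S i)) =
          fOf (kacOne Q) (fun i => n * α i) := by
        intro n
        rw [ext0_rV α S hS' n]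
      simp only [hext] at hFpos hFlim
      refine ⟨g * l, limit_A_of_F (fun N => ((kacOne Q (fun i => N * α i) : ℚ) : ℝ))
        (fun N => ((fOf (kacOne Q) (fun i => N * α i) : ℚ) : ℝ)) ?_ ?_ ?_ l hl0 ?_ hFlim g hg1 ?_⟩
      · intro N hN
        have h1 := fOf_prim_sq (kacOne Q) α hα N hN
        have h2 := congrArg (fun x : ℚ => (x : ℝ)) h1
        push_cast at h2
        exact h2
      · intro N
        show (0 : ℝ) ≤ ((fOf (kacOne Q) (fun i => N * α i) : ℚ) : ℝ)
        exact_mod_cast f_nonneg Q hg (fun i => N * α i)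
      · intro N
        obtain ⟨z, hz⟩ := kacOne_int Q (fun i => N * α i)
        refine ⟨z, ?_⟩
        show ((kacOne Q (fun i => N * α i) : ℚ) : ℝ) = z
        rw [hz]
        push_cast
        rfl
      · filter_upwards [hFpos] with n hn
        exact_mod_cast hn
      · filter_upwards [hpos] with n hn
        exact_mod_cast hn
  exact key hβ

end Pool.Agent.H27.KAC
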