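import Pool.Agent.H27.KAC.KH8
import Pool.Agent.H27.KAC.KH9
import Pool.Agent.H27.KAC.KH10
import Pool.Agent.H27.KAC.KH11
import Pool.Agent.H27.KAC.KM6

/-!
KAC module KH12: for dimension vectors in the fundamental cone the growth rate is `PhiR`.

PROOF.  `growth_Ample_hsup`: the proof of `growth_Ample` (KGMain) gives the limit `hsup a α`; copy it.
`kac_limit_Phi`: as `kac_limit` in KM6, without reflections.  `β = g α`, `α` primitive (`exists_prim`), `S` = support.  The support is
connected, otherwise `kacOne = 0` (`kac_disconnected`, as in `kac_induct`), contradiction.  `ample_or` for `resM (adj Q) S`, `rV α S`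
(`cw_rV`).  Ample: `growth_Ample_hsup`, `f_nonneg`, `limit_A_of_F` as in `kac_limit`; the limit is
`g * hsup = g * PhiR (resM ..) .. = g * PhiR (adj Q) α = PhiR (adj Q) β` (`hsup_le_PhiR`, `PhiR_le_hsup`, `PhiR_restrict`, `PhiR_smul`).
One loop, or two vertices and two arrows: `kac_loop`, `kac_kron`, the limit is 0 and `PhiR (adj Q) β = 0` by `PhiR_isotropic`.
-/

set_option autoImplicit false

namespace Pool.Agent.H27.KAC

open scoped BigOperators
open Filter Topology

section

variable {I : Type} [Fintype I] [DecidableEq I]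

theorem growth_Ample_hsup (a : I → I → ℕ) (hg : GoodMat a) (hc : Conn a) (hne : Nonempty I)
    (f : (I → ℕ) → ℚ) (hK : KacData a f) (hf : ∀ β, 0 ≤ f β) (α : I →₀ ℕ) (h : Ample a α) :
    0 ≤ hsup a α ∧ (∀ᶠ n : ℕ in atTop, 0 < f (fun i => n * α i)) ∧
      Tendsto (fun n : ℕ => Real.log ((f (fun i => n * α i) : ℚ) : ℝ) / n) atTop
        (𝓝 (hsup a α)) := by
  -- the set of the supremum is nonempty
  have hnon : {x : ℝ | ∃ K n : ℕ, 2 ≤ K ∧ 1 ≤ n ∧ ∃ m : Fin K → I → ℕ, Adm a (n • α) m ∧
      x = Real.log (EW a m) / n}.Nonempty := by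
    obtain ⟨N0, hN0⟩ := Adm_exists a hg α h 2 le_rfl
    obtain ⟨m, hm⟩ := hN0 (max N0 1) (le_max_left _ _)
    exact ⟨_, 2, max N0 1, le_rfl, le_max_right _ _, m, hm, rfl⟩
  have hpos : ∀ᶠ n : ℕ in atTop, 0 < f (fun i => n * α i) := by
    obtain ⟨x, K, n0, hK2, hn0, m0, hm0, -⟩ := hnon
    obtain ⟨N1, C, hN1, hC1, hlow⟩ := kGMain_lower a hg hc hne f hK α h K n0 hK2 hn0 m0 hm0
    filter_upwards [eventually_ge_atTop N1] with n hn
    exact (hlow n hn).1
  refine ⟨hsup_nonneg a hg α h, hpos, ?_⟩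
  have hinv : Tendsto (fun n : ℕ => ((n : ℝ))⁻¹) atTop (𝓝 0) :=
    tendsto_inv_atTop_nhds_zero_nat
  refine tendsto_order.2 ⟨?_, ?_⟩
  · intro b hb
    obtain ⟨x, ⟨K, n0, hK2, hn0, m0, hm0, rfl⟩, hbx⟩ := exists_lt_of_lt_csSup hnon hb
    obtain ⟨N1, C, hN1, hC1, hlow⟩ := kGMain_lower a hg hc hne f hK α h K n0 hK2 hn0 m0 hm0
    have hCpos : (0 : ℝ) < C := by exact_mod_cast hC1
    have hlim : Tendsto (fun n : ℕ => (1 - ((N1 : ℝ) + n0) / n) * (Real.log (EW a m0) / n0) -
        C * (Real.log (C * n) / n)) atTop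
        (𝓝 ((1 - 0) * (Real.log (EW a m0) / n0) - C * 0)) := by
      refine Tendsto.sub (Tendsto.mul_const _ (Tendsto.sub tendsto_const_nhds ?_))
        ((kGMain_log C hCpos).const_mul _)
      have := hinv.const_mul ((N1 : ℝ) + n0)
      rw [mul_zero] at this
      exact this
    rw [sub_zero, one_mul, mul_zero, sub_zero] at hlim
    filter_upwards [hlim.eventually (lt_mem_nhds hbx), eventually_ge_atTop N1] with n h1 h2
    exact lt_of_lt_of_le h1 (hlow n h2).2
  · intro b hb
    have hε : 0 < (b - hsup a α) / 3 := by linarith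
    have hh0 := hsup_nonneg a hg α h
    obtain ⟨q, hq⟩ := exists_nat_gt (hsup a α / ((b - hsup a α) / 3))
    have hq0 : (0 : ℝ) < q := lt_of_le_of_lt (by positivity) hq
    have hq1 : 1 ≤ q := by
      have : 0 < q := by exact_mod_cast hq0
      omega
    have hqh : hsup a α / q < (b - hsup a α) / 3 := by
      rw [div_lt_iff₀ hε] at hq
      rw [div_lt_iff₀ hq0]
      linarith
    obtain ⟨N2, T, C, hC1, hup⟩ := f_upper a hg f hK hf α h hne _ hε q hq1
    have hlim : Tendsto (fun n : ℕ => (1 + 1 / (q : ℝ) + T * (n : ℝ)⁻¹) * hsup a α +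
        Real.log C * (n : ℝ)⁻¹ + (b - hsup a α) / 3) atTop
        (𝓝 ((1 + 1 / (q : ℝ) + T * 0) * hsup a α + Real.log C * 0 + (b - hsup a α) / 3)) :=
      (((tendsto_const_nhds.add (hinv.const_mul _)).mul_const _).add (hinv.const_mul _)).add
        tendsto_const_nhds
    have hlt : (1 + 1 / (q : ℝ) + T * 0) * hsup a α + Real.log C * 0 + (b - hsup a α) / 3 < b := by
      have h1 : 1 / (q : ℝ) * hsup a α = hsup a α / q := by ring
      have h2 : (1 + 1 / (q : ℝ) + T * 0) * hsup a α + Real.log C * 0 + (b - hsup a α) / 3 =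
          hsup a α + 1 / (q : ℝ) * hsup a α + (b - hsup a α) / 3 := by ring
      rw [h2, h1]
      linarith
    filter_upwards [hlim.eventually (gt_mem_nhds hlt), eventually_ge_atTop N2,
      eventually_ge_atTop 1, hpos] with n h1 h2 h3 h4
    refine lt_of_le_of_lt ?_ h1
    have hnpos : (0 : ℝ) < n := by exact_mod_cast h3
    have h5 := hup n h2
    rw [kGMain_coe f α n] at h4 ⊢
    have h6 : (0 : ℝ) < ((f (n • α) : ℚ) : ℝ) := by exact_mod_cast h4
    have hCpos : (0 : ℝ) < C := by linarith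
    have h7 := Real.log_le_log h6 h5
    rw [Real.log_mul (Real.exp_pos _).ne' (mul_pos hCpos (Real.exp_pos _)).ne',
      Real.log_mul hCpos.ne' (Real.exp_pos _).ne', Real.log_exp, Real.log_exp] at h7
    rw [div_le_iff₀ hnpos]
    refine h7.trans (le_of_eq ?_)
    field_simp
    ring

end

variable {I E : Type} [Fintype I] [DecidableEq I] [Fintype E]

omit [Fintype E] in
theorem KH12_cR (a : I → I → ℕ) (β : I → ℕ) (i : I) :
    cR a (fun i => (β i : ℝ)) i = -((sw a β i : ℤ) : ℝ) := by
  unfold cR sw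
  push_cast
  rw [neg_neg]

theorem kac_limit_Phi (Q : Quiv I E) (hg : GoodMat (adj Q)) (β : I → ℕ)
    (hK : ∀ i, 0 ≤ sw (adj Q) β i)
    (hβ : ∀ᶠ n : ℕ in atTop, 0 < kacOne Q (fun i => n * β i)) :
    Tendsto (fun n : ℕ => Real.log ((kacOne Q (fun i => n * β i) : ℚ) : ℝ) / n)
      atTop (𝓝 (PhiR (adj Q) (fun i => (β i : ℝ)))) := by
  by_cases hβ0 : ∃ i, β i ≠ 0
  swap
  · push Not at hβ0
    obtain ⟨n, hn⟩ := hβ.exists
    have h0 : (fun i => n * β i) = (0 : I → ℕ) := by
      funext i
      rw [hβ0 i, mul_zero]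
      rfl
    rw [h0, kacOne_zero] at hn
    exact absurd hn (lt_irrefl _)
  obtain ⟨g, α, hg1, hα, hβα⟩ := exists_prim β hβ0
  have hfun : ∀ n : ℕ, (fun i => n * β i) = fun i => (n * g) * α i := by
    intro n
    funext i
    rw [hβα i, mul_assoc]
  have hg1' : (0 : ℤ) < g := by exact_mod_cast hg1
  have hKα : ∀ i, 0 ≤ sw (adj Q) α i := by
    intro i
    have h1 := hK i
    have h2 : β = fun i => g * α i := funext hβα
    rw [h2, sw_smul] at h1
    exact nonneg_of_mul_nonneg_right h1 hg1'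
  have hkon : Kon (adj Q) (fun i => (α i : ℝ)) := by
    refine ⟨fun i => Nat.cast_nonneg _, fun i => ?_⟩
    rw [KH12_cR]
    have : (0 : ℝ) ≤ ((sw (adj Q) α i : ℤ) : ℝ) := by exact_mod_cast hKα i
    linarith
  have hphi : PhiR (adj Q) (fun i => (β i : ℝ)) = g * PhiR (adj Q) (fun i => (α i : ℝ)) := by
    have h1 : (fun i => (β i : ℝ)) = (g : ℝ) • (fun i => (α i : ℝ)) := by
      funext i
      rw [Pi.smul_apply, smul_eq_mul, hβα i]
      push_cast
      rfl
    rw [h1, PhiR_smul hkon (Nat.cast_nonneg g)]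
  rw [hphi]
  simp only [hfun] at hβ ⊢
  obtain ⟨S, hS⟩ : ∃ S : Finset I, ∀ i, i ∈ S ↔ α i ≠ 0 :=
    ⟨Finset.univ.filter (fun i => α i ≠ 0), fun i => by simp⟩
  obtain ⟨i0, hi0⟩ := hα.exists_ne
  have hne : Nonempty {i // i ∈ S} := ⟨⟨i0, (hS i0).2 hi0⟩⟩
  have hS' : ∀ i, α i ≠ 0 → i ∈ S := fun i hi => (hS i).2 hi
  by_cases hconn : Conn (resM (adj Q) S)
  swap
  · -- disconnected support
    exfalso
    obtain ⟨n, hn, hn1⟩ := (hβ.and (eventually_ge_atTop 1)).exists
    have hN : 1 ≤ n * g := Nat.mul_pos hn1 hg1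
    obtain ⟨N, hNN⟩ : ∃ N, N = n * g := ⟨_, rfl⟩
    rw [← hNN] at hn hN
    have h0 : kacOne Q (fun i => N * α i) = 0 := by
      unfold Conn at hconn
      push Not at hconn
      obtain ⟨U, hU1, hU2, hU3⟩ := hconn
      apply kac_disconnected Q (fun i => N * α i)
        (fun i => ∃ h : i ∈ S, (⟨i, h⟩ : {i // i ∈ S}) ∈ U)
      · obtain ⟨u, hu⟩ := hU1
        refine ⟨u, ⟨u.2, hu⟩, ?_⟩
        exact Nat.mul_ne_zero (by omega) ((hS u).1 u.2)
      · obtain ⟨v, hv⟩ : ∃ v, v ∉ U := by
          by_contra hcon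
          push Not at hcon
          exact hU2 (Finset.eq_univ_of_forall hcon)
        refine ⟨v, ?_, ?_⟩
        · rintro ⟨h1, h2⟩
          exact hv h2
        · exact Nat.mul_ne_zero (by omega) ((hS v).1 v.2)
      · rintro i j ⟨hi, hi'⟩ hj hai haj
        have hj1 : j ∈ S := by
          rw [hS]
          intro h0
          exact haj (by rw [h0, mul_zero])
        have hj2 : (⟨j, hj1⟩ : {i // i ∈ S}) ∉ U := fun hcon => hj ⟨hj1, hcon⟩
        have := hU3 ⟨i, hi⟩ hi' ⟨j, hj1⟩ hj2
        exact Nat.le_zero.1 this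
    rw [h0] at hn
    exact lt_irrefl _ hn
  have hor := ample_or (resM (adj Q) S) (goodMat_resM hg S) hconn (rV α S)
    (fun i => by rw [rV_apply]; exact Nat.pos_of_ne_zero ((hS i).1 i.2))
    (fun i _ => by
      rw [cw_rV _ _ _ hS', neg_neg]
      exact hKα i)
  have hconst : ∀ c : ℝ, Tendsto (fun n : ℕ => c / (n : ℝ)) atTop (𝓝 0) := fun c =>
    tendsto_const_div_atTop_nhds_zero_nat c
  rcases hor with hamp | ⟨i, hi1, hi2⟩ | ⟨i, j, hij, hl', hi, hj, haij, hαij⟩
  · obtain ⟨hl0, hFpos, hFlim⟩ := growth_Ample_hsup (resM (adj Q) S) (goodMat_resM hg S) hconn hne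
      (fun β => fOf (kacOne Q) (ext0 S β)) ((kacData_kac Q).restrict S)
      (fun β => f_nonneg Q hg _) (rV α S) hamp
    have hext : ∀ n : ℕ, fOf (kacOne Q) (ext0 S (fun i => n * rV α S i)) =
        fOf (kacOne Q) (fun i => n * α i) := by
      intro n
      rw [ext0_rV α S hS' n]
    simp only [hext] at hFpos hFlim
    have hval : hsup (resM (adj Q) S) (rV α S) = PhiR (adj Q) (fun i => (α i : ℝ)) := by
      rw [← PhiR_restrict (adj Q) S (fun i => (α i : ℝ)) (fun i hi => by
        by_contra hc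
        exact hi (hS' i (fun h0 => hc (by simp only [h0, Nat.cast_zero]))))]
      exact le_antisymm (hsup_le_PhiR _ (goodMat_resM hg S) _ hamp)
        (PhiR_le_hsup _ (goodMat_resM hg S) _ hamp)
    rw [← hval]
    refine limit_A_of_F (fun N => ((kacOne Q (fun i => N * α i) : ℚ) : ℝ))
      (fun N => ((fOf (kacOne Q) (fun i => N * α i) : ℚ) : ℝ)) ?_ ?_ ?_ _ hl0 ?_ hFlim g hg1 ?_
    · intro N hN
      have h1 := fOf_prim_sq (kacOne Q) α hα N hN
      have h2 := congrArg (fun x : ℚ => (x : ℝ)) h1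
      push_cast at h2
      exact h2
    · intro N
      show (0 : ℝ) ≤ ((fOf (kacOne Q) (fun i => N * α i) : ℚ) : ℝ)
      exact_mod_cast f_nonneg Q hg (fun i => N * α i)
    · intro N
      obtain ⟨z, hz⟩ := kacOne_int Q (fun i => N * α i)
      refine ⟨z, ?_⟩
      show ((kacOne Q (fun i => N * α i) : ℚ) : ℝ) = z
      rw [hz]
      push_cast
      rfl
    · filter_upwards [hFpos] with n hn
      exact_mod_cast hn
    · filter_upwards [hβ] with n hn
      exact_mod_cast hn
  · -- one loop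
    have hz' : ∀ l, l ≠ (i : I) → α l = 0 := by
      intro l hl'
      by_contra hcon
      exact hl' (congrArg Subtype.val (hi1 ⟨l, hS' l hcon⟩))
    have hpos : 1 ≤ α i := Nat.pos_of_ne_zero ((hS i).1 i.2)
    have h0 : PhiR (adj Q) (fun i => (α i : ℝ)) = 0 := by
      refine PhiR_isotropic (adj Q) hg.symm _ hkon fun l hl => ?_
      have hl1 : l = (i : I) := by
        by_contra hc
        simp only [hz' l hc, Nat.cast_zero, lt_irrefl] at hl
      subst hl1
      unfold cR
      rw [Finset.sum_eq_single (i : I)]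
      · have : cart (adj Q) (i : I) (i : I) = 0 := by
          unfold cart
          have h2 : adj Q (i : I) (i : I) = 2 := hi2
          rw [if_pos rfl, h2]
          norm_num
        rw [this]
        simp
      · intro b _ hb
        simp only [hz' b hb, Nat.cast_zero, mul_zero]
      · intro h
        exact absurd (Finset.mem_univ _) h
    rw [h0, mul_zero]
    refine (hconst (Real.log 1)).congr' ?_
    filter_upwards [eventually_ge_atTop 1] with n hn
    have hN : 1 ≤ n * g := Nat.mul_pos hn hg1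
    have hfun2 : (fun l => (n * g) * α l) = (fun l => if l = (i : I) then (n * g) * α i else 0) := by
      funext l
      by_cases hl' : l = (i : I)
      · rw [if_pos hl', hl']
      · rw [if_neg hl', hz' l hl', mul_zero]
    rw [hfun2, kac_loop Q i hi2 ((n * g) * α i) (Nat.mul_pos hN hpos)]
    norm_num
  · -- Kronecker quiver
    have hij' : (i : I) ≠ j := fun hcon => hij (Subtype.ext hcon)
    have hz' : ∀ l, l ≠ (i : I) → l ≠ (j : I) → α l = 0 := by
      intro l h1 h2
      by_contra hcon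
      rcases hl' ⟨l, hS' l hcon⟩ with h3 | h3
      · exact h1 (congrArg Subtype.val h3)
      · exact h2 (congrArg Subtype.val h3)
    have hpos : 1 ≤ α i := Nat.pos_of_ne_zero ((hS i).1 i.2)
    have heq : α j = α i := by
      rw [rV_apply, rV_apply] at hαij
      exact hαij.symm
    have hi' : adj Q (i : I) (i : I) = 0 := hi
    have hj' : adj Q (j : I) (j : I) = 0 := hj
    have haij' : adj Q (i : I) (j : I) = 2 := haij
    have haji' : adj Q (j : I) (i : I) = 2 := by rw [hg.symm]; exact haij'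
    have hsum : ∀ l : I, cR (adj Q) (fun i => (α i : ℝ)) l =
        (cart (adj Q) l i : ℝ) * α i + (cart (adj Q) l j : ℝ) * α i := by
      intro l
      unfold cR
      have h1 : ∑ x, (cart (adj Q) l x : ℝ) * (α x : ℝ) =
          ∑ x ∈ ({(i : I), (j : I)} : Finset I), (cart (adj Q) l x : ℝ) * (α x : ℝ) := by
        symm
        refine Finset.sum_subset (Finset.subset_univ _) fun x _ hx => ?_
        simp only [Finset.mem_insert, Finset.mem_singleton, not_or] at hx
        simp only [hz' x hx.1 hx.2, Nat.cast_zero, mul_zero]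
      rw [h1, Finset.sum_pair hij', heq]
    have h0 : PhiR (adj Q) (fun i => (α i : ℝ)) = 0 := by
      refine PhiR_isotropic (adj Q) hg.symm _ hkon fun l hl => ?_
      rw [hsum l]
      have hl1 : l = (i : I) ∨ l = (j : I) := by
        by_contra hc
        push Not at hc
        simp only [hz' l hc.1 hc.2, Nat.cast_zero, lt_irrefl] at hl
      rcases hl1 with rfl | rfl
      · unfold cart
        rw [if_pos rfl, if_neg hij', hi', haij']
        push_cast
        ring
      · unfold cart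
        rw [if_pos rfl, if_neg (Ne.symm hij'), hj', haji']
        push_cast
        ring
    rw [h0, mul_zero]
    refine (hconst (Real.log 2)).congr' ?_
    filter_upwards [eventually_ge_atTop 1] with n hn
    have hN : 1 ≤ n * g := Nat.mul_pos hn hg1
    have hfun2 : (fun l => (n * g) * α l) =
        (fun l => if l = (i : I) ∨ l = (j : I) then (n * g) * α i else 0) := by
      funext l
      by_cases h1 : l = (i : I)
      · rw [if_pos (Or.inl h1), h1]
      · by_cases h2 : l = (j : I)
        · rw [if_pos (Or.inr h2), h2, heq]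
        · rw [if_neg (by tauto), hz' l h1 h2, mul_zero]
    rw [hfun2, kac_kron Q i j hij' hi' hj' haij' ((n * g) * α i) (Nat.mul_pos hN hpos)]
    norm_num

end Pool.Agent.H27.KAC
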