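import Pool.Agent.H27.KAC.KM6

/-!
KAC module KH13: reflections of dimension vectors whose multiples are eventually roots, and descent to the fundamental cone.

PROOF.  `kac_refl`: `β` is not supported in `{i}`: otherwise `β = Pi.single i c`, and `kacOne Q (Pi.single i (n c)) = 0` for `n ≥ 2`
(`kac_simple_ge_two`; `c = 0`: `kacOne_zero`), contradiction with `hβ`.  `β i + sw (adj Q) β i ≥ 0`: otherwise `kac_reflect_neg` for all
`n β` (`sw_smul`), contradiction.  Take `β' = Function.update β i (β i + sw (adj Q) β i).toNat` and `kac_reflect`.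
`kac_descent`: induction on `∑ β i`.  If `sw (adj Q) β i < 0` for some `i`: then `adj Q i i = 0` (otherwise `adj Q i i ≥ 2`, `adj_self`
even, and `sw = (adj Q i i - 2) β i + ∑_(j ≠ i) adj Q i j β j ≥ 0`); apply `kac_refl`: `β' ≤ β`, smaller sum, and the form
`∑ β i * sw β i` does not change (`adj` symmetric: the reflection preserves the form).
-/

set_option autoImplicit false

namespace Pool.Agent.H27.KAC

open scoped BigOperators
open Filter Topology

variable {I E : Type} [Fintype I] [DecidableEq I] [Fintype E]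

omit [Fintype I] in
theorem KH13_adj (Q : Quiv I E) (i : I) :
    adj Q i i = 2 * (Finset.univ.filter (fun e : E => Q.src e = i ∧ Q.tgt e = i)).card := by
  unfold adj
  ring

theorem kac_refl (Q : Quiv I E) (β : I → ℕ) (hβ : ∀ᶠ n : ℕ in atTop, 0 < kacOne Q (fun i => n * β i))
    (i : I) (hi : adj Q i i = 0) :
    ∃ β' : I → ℕ, (∀ j, (β' j : ℤ) = (β j : ℤ) + if j = i then sw (adj Q) β i else 0) ∧
      ∀ n : ℕ, 1 ≤ n → kacOne Q (fun j => n * β' j) = kacOne Q (fun j => n * β j) := by
  obtain ⟨n0, hn0, hn2⟩ := (hβ.and (eventually_ge_atTop 2)).exists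
  -- not supported at `i`
  have hj : ∃ j, j ≠ i ∧ β j ≠ 0 := by
    by_contra hc
    push Not at hc
    have h1 : (fun l => n0 * β l) = Pi.single i (n0 * β i) := by
      funext l
      by_cases hl : l = i
      · rw [hl, Pi.single_eq_same]
      · rw [hc l hl, Pi.single_eq_of_ne hl, mul_zero]
    rw [h1] at hn0
    rcases Nat.eq_zero_or_pos (β i) with h0 | h0
    · rw [h0, mul_zero, Pi.single_zero, kacOne_zero] at hn0
      exact lt_irrefl _ hn0
    · rw [kac_simple_ge_two Q i hi (n0 * β i) (by nlinarith)] at hn0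
      exact lt_irrefl _ hn0
  obtain ⟨j, hji, hβj⟩ := hj
  have hr : 0 ≤ (β i : ℤ) + sw (adj Q) β i := by
    by_contra hc
    have hc' := not_le.1 hc
    have h1 : kacOne Q (fun l => n0 * β l) = 0 := by
      refine kac_reflect_neg Q i hi _ ⟨j, hji, Nat.mul_ne_zero (by omega) hβj⟩ ?_
      rw [sw_smul]
      have hN' : (0 : ℤ) < n0 := by
        have : 0 < n0 := by omega
        exact_mod_cast this
      push_cast
      nlinarith
    rw [h1] at hn0
    exact lt_irrefl _ hn0
  obtain ⟨c, hc⟩ := Int.eq_ofNat_of_zero_le hr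
  refine ⟨Function.update β i c, fun l => ?_, fun n hn => ?_⟩
  · by_cases hl : l = i
    · subst hl
      rw [Function.update_self, if_pos rfl, hc]
    · rw [Function.update_of_ne hl, if_neg hl, add_zero]
  · refine kac_reflect Q i hi (fun l => n * β l) (fun l => n * Function.update β i c l)
      ⟨j, hji, Nat.mul_ne_zero (by omega) hβj⟩ (fun l hl => ?_) ?_
    · show n * Function.update β i c l = n * β l
      rw [Function.update_of_ne hl]
    · show ((n * Function.update β i c i : ℕ) : ℤ) = ((n * β i : ℕ) : ℤ) + _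
      rw [sw_smul, Function.update_self]
      have h4 : (β i : ℤ) + sw (adj Q) β i = (c : ℤ) := hc
      push_cast
      rw [← h4]
      ring

theorem KH13_form (a : I → I → ℕ) (hs : ∀ i j, a i j = a j i) (β β' : I → ℕ) (i : I)
    (hi : a i i = 0) (h : ∀ j, (β' j : ℤ) = (β j : ℤ) + if j = i then sw a β i else 0) :
    ∑ l, (β' l : ℤ) * sw a β' l = ∑ l, (β l : ℤ) * sw a β l := by
  obtain ⟨s, hs'⟩ : ∃ s, s = sw a β i := ⟨_, rfl⟩
  have h1 : ∀ l, sw a β' l = sw a β l - cart a l i * s := by
    intro l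
    unfold sw
    have h2 : ∑ j, cart a l j * (β' j : ℤ) = ∑ j, (cart a l j * (β j : ℤ) +
        if j = i then cart a l i * s else 0) := by
      refine Finset.sum_congr rfl fun j _ => ?_
      rw [h j, mul_add, hs']
      congr 1
      split_ifs with hj
      · rw [hj]
      · rw [mul_zero]
    rw [h2, Finset.sum_add_distrib, Finset.sum_ite_eq' Finset.univ i, if_pos (Finset.mem_univ i)]
    ring
  have h3 : ∀ l, (β' l : ℤ) * sw a β' l = (β l : ℤ) * sw a β l - s * (cart a i l * (β l : ℤ)) +
      if l = i then s * (sw a β l - cart a l i * s) else 0 := by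
    intro l
    have hcart : cart a l i = cart a i l := by
      unfold cart
      rw [hs l i]
      by_cases hl : l = i
      · rw [if_pos hl, if_pos hl.symm]
      · rw [if_neg hl, if_neg (Ne.symm hl)]
    rw [h1 l, h l, ← hs', hcart]
    split_ifs with hl
    · ring
    · ring
  rw [Finset.sum_congr rfl fun l _ => h3 l, Finset.sum_add_distrib, Finset.sum_sub_distrib,
    Finset.sum_ite_eq' Finset.univ i, if_pos (Finset.mem_univ i), ← Finset.mul_sum]
  have h4 : ∑ l, cart a i l * (β l : ℤ) = -s := by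
    rw [hs']
    unfold sw
    rw [neg_neg]
  have h5 : cart a i i = 2 := by
    unfold cart
    rw [if_pos rfl, hi]
    norm_num
  rw [h4, h5, ← hs']
  ring

theorem kac_descent (Q : Quiv I E) (β : I → ℕ)
    (hβ : ∀ᶠ n : ℕ in atTop, 0 < kacOne Q (fun i => n * β i)) :
    ∃ β' : I → ℕ, (∀ n : ℕ, 1 ≤ n → kacOne Q (fun j => n * β' j) = kacOne Q (fun j => n * β j)) ∧
      (∀ i, β' i ≤ β i) ∧ (∀ i, 0 ≤ sw (adj Q) β' i) ∧
      ∑ i, (β' i : ℤ) * sw (adj Q) β' i = ∑ i, (β i : ℤ) * sw (adj Q) β i := by
  obtain ⟨h, hh⟩ : ∃ h, ∑ i, β i = h := ⟨_, rfl⟩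
  induction h using Nat.strong_induction_on generalizing β with
  | _ h ih =>
  by_cases hneg : ∃ i, sw (adj Q) β i < 0
  swap
  · push Not at hneg
    exact ⟨β, fun _ _ => rfl, fun _ => le_rfl, hneg, rfl⟩
  obtain ⟨i, hi⟩ := hneg
  have hai : adj Q i i = 0 := by
    by_contra hc
    have h2 : 2 ≤ adj Q i i := by
      have := KH13_adj Q i
      omega
    have h3 : 0 ≤ sw (adj Q) β i := by
      unfold sw
      rw [← Finset.sum_neg_distrib]
      refine Finset.sum_nonneg fun j _ => ?_
      rw [← neg_mul]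
      refine mul_nonneg ?_ (Int.natCast_nonneg _)
      unfold cart
      split_ifs with hj
      · subst hj
        omega
      · omega
    omega
  obtain ⟨β', h1, h2⟩ := kac_refl Q β hβ i hai
  have hβ' : ∀ᶠ n : ℕ in atTop, 0 < kacOne Q (fun i => n * β' i) := by
    filter_upwards [hβ, eventually_ge_atTop 1] with n hn hn1
    rw [h2 n hn1]
    exact hn
  have hle : ∀ j, β' j ≤ β j := by
    intro j
    have := h1 j
    split_ifs at this with hj
    · omega
    · omega
  have hsum : ∑ j, β' j < h := by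
    rw [← hh]
    refine Finset.sum_lt_sum (fun j _ => hle j) ⟨i, Finset.mem_univ i, ?_⟩
    have := h1 i
    rw [if_pos rfl] at this
    omega
  obtain ⟨β'', k1, k2, k3, k4⟩ := ih _ hsum β' hβ' rfl
  refine ⟨β'', fun n hn => (k1 n hn).trans (h2 n hn), fun j => (k2 j).trans (hle j), k3, ?_⟩
  rw [k4]
  exact KH13_form (adj Q) (fun i j => by unfold adj; ring) β β' i hai h1

end Pool.Agent.H27.KAC
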