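import Pool.Agent.H27.KAC.KH3

/-!
KAC module KH8: invariance of the growth function under changes along isotropic vectors.

`PhiR_shift`: let `D` be the support of `d`.  `(C d)_i = 0` on `D`, `≤ 0` elsewhere.  `∑_j y1_j (C d)_j = 0`, all terms are `≤ 0`, so
`(C d)_j = 0` if `y1_j > 0`; for `j ∉ D`, `y1_j > 0` this means that `j` is not adjacent to `D`.  Let `m` be feasible for `y1`.
`∑_i d_i vacR a K m k i = - ∑_l min k l ∑_j (C d)_j m_(l j) = 0` (`m_(l j) = 0` if `y1_j = 0`), so `vacR a K m k i = 0` for `i ∈ D`.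
New multipartition `m'`: on `D` all parts of size one, `m'_1 i = y2 i`; off `D` equal to `m` (on sizes `1..K`).  It is feasible for `y2`: for
`i ∈ D` the vacancy number is `- (C y2)_i = 0` (the vertices of the support of `y2` outside `D` are not adjacent to `D`); for
`i ∉ D` with `y1 i > 0` it is the old one; for `i ∉ D` with `y1 i = 0` all contributions are nonnegative.  The entropy is
the same: the terms at `D` are `ent 0 _ = 0`, the terms with `m = 0` are zero.
`PhiR_eq_of_form`: `d = y - y'`; by symmetry `0 = q(y) - q(y') = ∑ d_i ((C y)_i + (C y')_i)`, all terms are `≤ 0`, so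
`d_i (C y)_i = 0 = d_i (C y')_i`; apply `PhiR_shift` twice.
`PhiR_isotropic`: `y' = 0` in `PhiR_eq_of_form`.
-/

set_option autoImplicit false

namespace Pool.Agent.H27.KAC

open scoped BigOperators

variable {I : Type} [Fintype I] [DecidableEq I]

private theorem KH8_cart_ne (a : I → I → ℕ) {i j : I} (h : i ≠ j) :
    ((cart a i j : ℤ) : ℝ) = -(a i j : ℝ) := by
  simp [cart, h]

private theorem KH8_cart_zero (a : I → I → ℕ) {i j : I} (h : i ≠ j) (h0 : a i j = 0) :
    ((cart a i j : ℤ) : ℝ) = 0 := by
  rw [KH8_cart_ne a h, h0]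
  simp

/-- vertices of the support of `y1` outside the support of `d` are not adjacent to it. -/
private theorem KH8_sep (a : I → I → ℕ) (hs : ∀ i j, a i j = a j i) (y1 d : I → ℝ)
    (h1 : ∀ i, 0 ≤ y1 i) (hd : ∀ i, 0 ≤ d i) (hd0 : ∀ i, 0 < d i → cR a d i = 0)
    (hd1 : ∑ i, d i * cR a y1 i = 0) :
    (∀ j, 0 < y1 j → cR a d j = 0) ∧
      ∀ j, d j = 0 → 0 < y1 j → ∀ i, 0 < d i → a j i = 0 := by
  have hC : ∀ j, cR a d j ≤ 0 := by
    intro j
    rcases (hd j).lt_or_eq with h | h
    · exact (hd0 j h).le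
    · exact cR_nonpos_of_zero a d hd j h.symm
  have hsum : ∑ j, y1 j * cR a d j = 0 := by
    rw [← hd1]
    exact cR_symm a hs y1 d
  have hz : ∀ j, y1 j * cR a d j = 0 := by
    intro j
    have hle : ∀ j ∈ Finset.univ, y1 j * cR a d j ≤ 0 := fun j _ =>
      mul_nonpos_of_nonneg_of_nonpos (h1 j) (hC j)
    exact (Finset.sum_eq_zero_iff_of_nonpos hle).1 hsum j (Finset.mem_univ j)
  have h3 : ∀ j, 0 < y1 j → cR a d j = 0 := by
    intro j hj
    rcases mul_eq_zero.1 (hz j) with h | h
    · exact absurd h hj.ne'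
    · exact h
  refine ⟨h3, ?_⟩
  intro j hdj hyj i hdi
  have h4 := h3 j hyj
  unfold cR at h4
  have hle : ∀ i ∈ Finset.univ, (cart a j i : ℝ) * d i ≤ 0 := by
    intro i _
    by_cases hij : j = i
    · subst hij
      rw [hdj]
      simp
    · rw [KH8_cart_ne a hij]
      have : (0 : ℝ) ≤ (a j i : ℝ) := Nat.cast_nonneg _
      nlinarith [hd i]
  have h5 := (Finset.sum_eq_zero_iff_of_nonpos hle).1 h4 i (Finset.mem_univ i)
  have hij : j ≠ i := by
    rintro rfl
    rw [hdj] at hdi
    exact lt_irrefl _ hdi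
  rw [KH8_cart_ne a hij] at h5
  have h6 : (a j i : ℝ) = 0 := by
    rcases mul_eq_zero.1 h5 with h | h
    · linarith
    · exact absurd h hdi.ne'
  exact_mod_cast h6

/-- parts of a vertex of mass zero. -/
private theorem KH8_part_zero {a : I → I → ℕ} {K : ℕ} {m : ℕ → I → ℝ} {y : I → ℝ}
    (h : Feas a K m y) (j : I) (hj : y j = 0) (l : ℕ) (hl : l ∈ Finset.Icc 1 K) : m l j = 0 := by
  have h1 := h.mass j
  rw [hj] at h1
  unfold massR at h1
  have h2 := (Finset.sum_eq_zero_iff_of_nonneg (fun l _ =>
    mul_nonneg (Nat.cast_nonneg l) (h.nn l j))).1 h1 l hl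
  rcases mul_eq_zero.1 h2 with h3 | h3
  · rw [Finset.mem_Icc] at hl
    have : l = 0 := by exact_mod_cast h3
    omega
  · exact h3

/-- the vacancy numbers vanish on the support of `d`. -/
private theorem KH8_vac_zero (a : I → I → ℕ) (hs : ∀ i j, a i j = a j i) (y1 d : I → ℝ)
    (hd : ∀ i, 0 ≤ d i) (h3 : ∀ j, 0 < y1 j → cR a d j = 0) (K : ℕ) (m : ℕ → I → ℝ)
    (h : Feas a K m y1) (hy : ∀ i, 0 ≤ y1 i) (k : ℕ) (i : I) (hi : 0 < d i) :
    vacR a K m k i = 0 := by
  have h4 : ∑ i, d i * vacR a K m k i = 0 := by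
    unfold vacR
    have h5 : ∀ i, d i * ∑ l ∈ Finset.Icc 1 K, ((min k l : ℕ) : ℝ) * (-cR a (m l) i) =
        ∑ l ∈ Finset.Icc 1 K, -(((min k l : ℕ) : ℝ) * (d i * cR a (m l) i)) := by
      intro i
      rw [Finset.mul_sum]
      exact Finset.sum_congr rfl fun l _ => by ring
    rw [Finset.sum_congr rfl fun i _ => h5 i, Finset.sum_comm]
    refine Finset.sum_eq_zero fun l hl => ?_
    rw [Finset.sum_neg_distrib, ← Finset.mul_sum, cR_symm a hs d (m l)]
    have h6 : ∑ j, m l j * cR a d j = 0 := by
      refine Finset.sum_eq_zero fun j _ => ?_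
      rcases (hy j).lt_or_eq with hj | hj
      · rw [h3 j hj, mul_zero]
      · rw [KH8_part_zero h j hj.symm l hl, zero_mul]
    rw [h6]
    simp
  have h5 := (Finset.sum_eq_zero_iff_of_nonneg (fun i _ =>
    mul_nonneg (hd i) (h.vac k i))).1 h4 i (Finset.mem_univ i)
  rcases mul_eq_zero.1 h5 with h6 | h6
  · exact absurd h6 hi.ne'
  · exact h6

/-- the new multipartition. -/
private noncomputable def KH8_new (m : ℕ → I → ℝ) (y2 d : I → ℝ) (l : ℕ) (i : I) : ℝ :=
  if 0 < d i then (if l = 1 then y2 i else 0) else m l i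

theorem PhiR_shift (a : I → I → ℕ) (hs : ∀ i j, a i j = a j i) (y1 y2 d : I → ℝ)
    (h1 : Kon a y1) (h2 : Kon a y2) (hd : ∀ i, 0 ≤ d i) (hd0 : ∀ i, 0 < d i → cR a d i = 0)
    (hd1 : ∑ i, d i * cR a y1 i = 0) (hd2 : ∀ i, 0 < d i → cR a y2 i = 0)
    (heq : ∀ i, d i = 0 → y1 i = y2 i) : PhiR a y1 ≤ PhiR a y2 := by
  obtain ⟨hC, hsep⟩ := KH8_sep a hs y1 d h1.1 hd hd0 hd1
  refine PhiR_le h1 ?_
  intro K0 m h0
  rw [← EntR_enlarge h0 (Nat.le_succ K0)]
  have h : Feas a (K0 + 1) m y1 := h0.enlarge (Nat.le_succ K0)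
  set K : ℕ := K0 + 1 with hK
  have hK1 : 1 ≤ K := by omega
  set m' : ℕ → I → ℝ := KH8_new m y2 d with hm'
  have hD : ∀ l i, 0 < d i → m' l i = if l = 1 then y2 i else 0 := by
    intro l i hi
    rw [hm']
    unfold KH8_new
    rw [if_pos hi]
  have hN : ∀ l i, d i = 0 → m' l i = m l i := by
    intro l i hi
    rw [hm']
    unfold KH8_new
    rw [if_neg (by rw [hi]; exact lt_irrefl _)]
  have hcases : ∀ i, 0 < d i ∨ d i = 0 := fun i => by
    rcases (hd i).lt_or_eq with h | h
    · exact Or.inl h
    · exact Or.inr h.symm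
  have hnn : ∀ l i, 0 ≤ m' l i := by
    intro l i
    rcases hcases i with hi | hi
    · rw [hD l i hi]
      split_ifs
      · exact h2.1 i
      · exact le_rfl
    · rw [hN l i hi]
      exact h.nn l i
  -- the vacancy numbers on the support of `d`
  have hvD : ∀ k i, 0 < d i → vacR a K m' k i = 0 := by
    intro k i hi
    unfold vacR
    refine Finset.sum_eq_zero fun l hl => ?_
    have hz : cR a (m' l) i = 0 := by
      by_cases hl1 : l = 1
      · have hcy : cR a y2 i = 0 := hd2 i hi
        rw [← hcy]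
        unfold cR
        refine Finset.sum_congr rfl fun j _ => ?_
        rcases hcases j with hj | hj
        · rw [hD l j hj, if_pos hl1]
        · rw [hN l j hj, ← heq j hj]
          rcases (h1.1 j).lt_or_eq with hy | hy
          · have hij : i ≠ j := by
              rintro rfl
              rw [hj] at hi
              exact lt_irrefl _ hi
            have ha : a i j = 0 := by rw [hs i j]; exact hsep j hj hy i hi
            rw [KH8_cart_zero a hij ha]
            simp
          · rw [KH8_part_zero h j hy.symm l hl, ← hy]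
      · unfold cR
        refine Finset.sum_eq_zero fun j _ => ?_
        rcases hcases j with hj | hj
        · rw [hD l j hj, if_neg hl1, mul_zero]
        · rw [hN l j hj]
          rcases (h1.1 j).lt_or_eq with hy | hy
          · have hij : i ≠ j := by
              rintro rfl
              rw [hj] at hi
              exact lt_irrefl _ hi
            have ha : a i j = 0 := by rw [hs i j]; exact hsep j hj hy i hi
            rw [KH8_cart_zero a hij ha]
            simp
          · rw [KH8_part_zero h j hy.symm l hl, mul_zero]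
    rw [hz]
    simp
  -- the old vacancy numbers off the support of `d`
  have hvN : ∀ k i, d i = 0 → 0 < y1 i → vacR a K m' k i = vacR a K m k i := by
    intro k i hi hy
    unfold vacR
    refine Finset.sum_congr rfl fun l _ => ?_
    have hz : cR a (m' l) i = cR a (m l) i := by
      unfold cR
      refine Finset.sum_congr rfl fun j _ => ?_
      rcases hcases j with hj | hj
      · have hij : i ≠ j := by
          rintro rfl
          rw [hi] at hj
          exact lt_irrefl _ hj
        rw [KH8_cart_zero a hij (hsep i hi hy j hj)]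
        simp
      · rw [hN l j hj]
    rw [hz]
  have hfeas : Feas a K m' y2 := by
    refine ⟨hnn, ?_, ?_, ?_⟩
    · intro l i hl
      rcases hcases i with hi | hi
      · rw [hD l i hi, if_neg (by omega)]
      · rw [hN l i hi]
        exact h.out l i hl
    · intro i
      rcases hcases i with hi | hi
      · unfold massR
        rw [Finset.sum_eq_single 1]
        · rw [hD 1 i hi, if_pos rfl]
          simp
        · intro l _ hl
          rw [hD l i hi, if_neg hl, mul_zero]
        · intro hn
          exact absurd (Finset.mem_Icc.2 ⟨le_rfl, hK1⟩) hn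
      · rw [← heq i hi, ← h.mass i]
        unfold massR
        exact Finset.sum_congr rfl fun l _ => by rw [hN l i hi]
    · intro k i
      rcases hcases i with hi | hi
      · rw [hvD k i hi]
      · rcases (h1.1 i).lt_or_eq with hy | hy
        · rw [hvN k i hi hy]
          exact h.vac k i
        · unfold vacR
          refine Finset.sum_nonneg fun l hl => ?_
          have h5 : m' l i = 0 := by
            rw [hN l i hi]
            exact KH8_part_zero h i hy.symm l hl
          have h6 := cR_nonpos_of_zero a (m' l) (hnn l) i h5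
          have h7 : (0 : ℝ) ≤ ((min k l : ℕ) : ℝ) := Nat.cast_nonneg _
          exact mul_nonneg h7 (by linarith)
  have hent : EntR a K m = EntR a K m' := by
    unfold EntR
    refine Finset.sum_congr rfl fun k hk => Finset.sum_congr rfl fun i _ => ?_
    rcases hcases i with hi | hi
    · rw [hvD k i hi, KH8_vac_zero a hs y1 d hd hC K m h h1.1 k i hi, ent_zero_left, ent_zero_left]
    · rcases (h1.1 i).lt_or_eq with hy | hy
      · rw [hvN k i hi hy, hN k i hi]
      · rw [hN k i hi, KH8_part_zero h i hy.symm k hk, ent_zero_right, ent_zero_right]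
  rw [hent]
  exact le_PhiR hfeas

theorem PhiR_eq_of_form (a : I → I → ℕ) (hs : ∀ i j, a i j = a j i) (y y' : I → ℝ)
    (hy : Kon a y) (hy' : Kon a y') (hle : ∀ i, y' i ≤ y i)
    (hq : ∑ i, y i * cR a y i = ∑ i, y' i * cR a y' i) : PhiR a y = PhiR a y' := by
  set d : I → ℝ := y - y' with hdd
  have hd : ∀ i, 0 ≤ d i := fun i => by
    rw [hdd, Pi.sub_apply]
    exact sub_nonneg.2 (hle i)
  have hsum : ∑ i, d i * (cR a y i + cR a y' i) = 0 := by
    have h1 : ∀ i, d i * (cR a y i + cR a y' i) =
        (y i * cR a y i - y' i * cR a y' i) + (y i * cR a y' i - y' i * cR a y i) := by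
      intro i
      rw [hdd, Pi.sub_apply]
      ring
    rw [Finset.sum_congr rfl fun i _ => h1 i, Finset.sum_add_distrib, Finset.sum_sub_distrib,
      Finset.sum_sub_distrib, hq, cR_symm a hs y y']
    ring
  have hterm : ∀ i, d i * (cR a y i + cR a y' i) = 0 := by
    intro i
    refine (Finset.sum_eq_zero_iff_of_nonpos (fun i _ => ?_)).1 hsum i (Finset.mem_univ i)
    exact mul_nonpos_of_nonneg_of_nonpos (hd i) (add_nonpos (hy.2 i) (hy'.2 i))
  have hpos : ∀ i, 0 < d i → cR a y i = 0 ∧ cR a y' i = 0 := by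
    intro i hi
    have h1 := hterm i
    rcases mul_eq_zero.1 h1 with h | h
    · exact absurd h hi.ne'
    · have := hy.2 i
      have := hy'.2 i
      exact ⟨by linarith, by linarith⟩
  have hcd : ∀ i, 0 < d i → cR a d i = 0 := by
    intro i hi
    rw [hdd, cR_sub, (hpos i hi).1, (hpos i hi).2, sub_zero]
  have hz1 : ∑ i, d i * cR a y i = 0 := by
    refine Finset.sum_eq_zero fun i _ => ?_
    rcases (hd i).lt_or_eq with h | h
    · rw [(hpos i h).1, mul_zero]
    · rw [← h, zero_mul]
  have hz2 : ∑ i, d i * cR a y' i = 0 := by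
    refine Finset.sum_eq_zero fun i _ => ?_
    rcases (hd i).lt_or_eq with h | h
    · rw [(hpos i h).2, mul_zero]
    · rw [← h, zero_mul]
  have he : ∀ i, d i = 0 → y i = y' i := by
    intro i hi
    rw [hdd, Pi.sub_apply] at hi
    linarith
  refine le_antisymm ?_ ?_
  · exact PhiR_shift a hs y y' d hy hy' hd hcd hz1 (fun i hi => (hpos i hi).2) he
  · exact PhiR_shift a hs y' y d hy' hy hd hcd hz2 (fun i hi => (hpos i hi).1)
      (fun i hi => (he i hi).symm)

theorem PhiR_isotropic (a : I → I → ℕ) (hs : ∀ i j, a i j = a j i) (y : I → ℝ)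
    (hy : Kon a y) (h0 : ∀ i, 0 < y i → cR a y i = 0) : PhiR a y = 0 := by
  have hc0 : ∀ i, cR a (0 : I → ℝ) i = 0 := by
    intro i
    simp [cR]
  have hK : Kon a (0 : I → ℝ) := ⟨fun i => le_rfl, fun i => (hc0 i).le⟩
  rw [PhiR_eq_of_form a hs y 0 hy hK hy.1 ?_, PhiR_zero]
  have h1 : ∑ i, y i * cR a y i = 0 := by
    refine Finset.sum_eq_zero fun i _ => ?_
    rcases (hy.1 i).lt_or_eq with h | h
    · rw [h0 i h, mul_zero]
    · rw [← h, zero_mul]
  rw [h1]
  symm
  refine Finset.sum_eq_zero fun i _ => ?_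
  rw [hc0 i, mul_zero]

end Pool.Agent.H27.KAC
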