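import Pool.Agent.H27.KAC.KH7
import Pool.Agent.H27.KAC.KH8

/-!
KAC module KH14: functions near a point of the real cone.

PROOF.  Otherwise there are `x n → y`, `G (x n) (v n)`, `|v n - PhiR y| ≥ ε`; `x' n` from `hG` is bounded
(`0 ≤ x' n ≤ x n`), so a subsequence converges to some `y'`; `y' ∈ Kon` (`Kon_closed`), `y' ≤ y`, the forms of `y'` and `y` are equal
(continuity), so `PhiR y = PhiR y'` (`PhiR_eq_of_form`), and `v n = PhiR (x' n) → PhiR y'` (`PhiR_continuousOn`).  Contradiction.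
-/

set_option autoImplicit false

namespace Pool.Agent.H27.KAC

open scoped BigOperators
open Filter Topology

variable {I : Type} [Fintype I] [DecidableEq I]

theorem local_K (a : I → I → ℕ) (hs : ∀ i j, a i j = a j i) (hd : ∀ i, a i i ≠ 1)
    (G : (I → ℝ) → ℝ → Prop)
    (hG : ∀ x v, G x v → ∃ x' : I → ℝ, Kon a x' ∧ (∀ i, x' i ≤ x i) ∧
      ∑ i, x i * cR a x i = ∑ i, x' i * cR a x' i ∧ v = PhiR a x')
    (y : I → ℝ) (hy : Kon a y) (ε : ℝ) (hε : 0 < ε) :
    ∃ δ : ℝ, 0 < δ ∧ ∀ x v, G x v → dist x y < δ → |v - PhiR a y| < ε := by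
  by_contra hcon
  push Not at hcon
  have hseq : ∀ n : ℕ, ∃ x v, G x v ∧ dist x y < 1 / ((n : ℝ) + 1) ∧ ε ≤ |v - PhiR a y| :=
    fun n => hcon (1 / ((n : ℝ) + 1)) (by positivity)
  choose x v hxv hdist hfar using hseq
  have hG' : ∀ n, ∃ x' : I → ℝ, Kon a x' ∧ (∀ i, x' i ≤ x n i) ∧
      ∑ i, x n i * cR a (x n) i = ∑ i, x' i * cR a x' i ∧ v n = PhiR a x' :=
    fun n => hG (x n) (v n) (hxv n)
  choose x' hK hle hform hval using hG'
  have hx : Tendsto x atTop (𝓝 y) := by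
    rw [tendsto_iff_dist_tendsto_zero]
    refine squeeze_zero (fun n => dist_nonneg) (fun n => (hdist n).le) ?_
    exact tendsto_one_div_add_atTop_nhds_zero_nat
  have hmem : ∀ n, x' n ∈ Set.Icc (0 : I → ℝ) (fun i => y i + 1) := by
    intro n
    refine ⟨fun i => (hK n).1 i, fun i => (hle n i).trans ?_⟩
    have h1 : dist (x n i) (y i) ≤ dist (x n) y := dist_le_pi_dist (x n) y i
    have h2 : (1 : ℝ) / ((n : ℝ) + 1) ≤ 1 := by
      rw [div_le_one (by positivity)]
      have : (0 : ℝ) ≤ n := Nat.cast_nonneg n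
      linarith
    have h3 : x n i - y i ≤ dist (x n i) (y i) := by
      rw [Real.dist_eq]
      exact le_abs_self _
    have h4 := hdist n
    show x n i ≤ y i + 1
    linarith
  obtain ⟨y', -, φ, hφ, hlim⟩ := isCompact_Icc.tendsto_subseq hmem
  have hxφ : Tendsto (x ∘ φ) atTop (𝓝 y) := hx.comp hφ.tendsto_atTop
  have hy' : Kon a y' :=
    (Kon_closed a).mem_of_tendsto hlim (Eventually.of_forall fun n => hK (φ n))
  have hly : ∀ i, y' i ≤ y i := by
    intro i
    exact le_of_tendsto_of_tendsto' ((tendsto_pi_nhds.1 hlim) i) ((tendsto_pi_nhds.1 hxφ) i)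
      (fun n => hle (φ n) i)
  have hcont : Continuous (fun z : I → ℝ => ∑ i, z i * cR a z i) := by
    unfold cR
    fun_prop
  have hq : ∑ i, y i * cR a y i = ∑ i, y' i * cR a y' i := by
    have h1 : Tendsto (fun n => ∑ i, (x ∘ φ) n i * cR a ((x ∘ φ) n) i) atTop
        (𝓝 (∑ i, y i * cR a y i)) := (hcont.tendsto y).comp hxφ
    have h2 : Tendsto (fun n => ∑ i, (x' ∘ φ) n i * cR a ((x' ∘ φ) n) i) atTop
        (𝓝 (∑ i, y' i * cR a y' i)) := (hcont.tendsto y').comp hlim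
    refine tendsto_nhds_unique h1 (h2.congr fun n => ?_)
    exact (hform (φ n)).symm
  have hPhi : PhiR a y = PhiR a y' := PhiR_eq_of_form a hs y y' hy hy' hly hq
  have hlimPhi : Tendsto (fun n => PhiR a ((x' ∘ φ) n)) atTop (𝓝 (PhiR a y')) := by
    have h1 : Tendsto (PhiR a) (𝓝[{y : I → ℝ | Kon a y}] y') (𝓝 (PhiR a y')) :=
      PhiR_continuousOn a hs hd y' hy'
    refine h1.comp (tendsto_nhdsWithin_iff.2 ⟨hlim, Eventually.of_forall fun n => ?_⟩)
    exact hK (φ n)
  have hv : Tendsto (fun n => |v (φ n) - PhiR a y|) atTop (𝓝 0) := by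
    have h1 : Tendsto (fun n => v (φ n)) atTop (𝓝 (PhiR a y')) :=
      hlimPhi.congr fun n => (hval (φ n)).symm
    have h2 := (h1.sub_const (PhiR a y)).abs
    rw [hPhi, sub_self, abs_zero] at h2
    rw [hPhi]
    exact h2
  have := ge_of_tendsto' hv (fun n => hfar (φ n))
  linarith

end Pool.Agent.H27.KAC
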