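import Pool.Agent.H27.KAC.KH14

/-!
KAC module KH15: functions near an arbitrary point.

PROOF.  Fix `ε`.  Call `ξ` good if the conclusion holds for `ξ`.  `ρ_i x = x - (C x)_i e_i` (continuous).  (0) If `ξ` is not in the closure
of `{x | ∃ v, G x v}` it is good.  (1) If the reflected vector `ρ_i ξ` (`a i i = 0`) is good then so is `ξ` (`ρ_i` is continuous, `hR`).
(2) Let `O` be the set of all vectors obtained from `ξ` by successive reflections at vertices with `a i i = 0`
(`Relation.ReflTransGen`); if one of them is good, so is `ξ`.  All are in the closure (`ρ_i` is continuous and maps `{x | ∃ v, G x v}` to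
itself), hence have entries `≥ 0` (`hG`: `0 ≤ x' ≤ x`).  Let `y` be a minimum of `h(x) = ∑ x i` on the closure of `O` (compactness).
`y ∈ Kon`: for a vertex with `a i i ≥ 2` `cR a y i ≤ 0` since `y ≥ 0`; if `a i i = 0` then `ρ_i y` is in the closure of `O`, so
`h(y) ≤ h(ρ_i y) = h(y) - cR a y i`.  By `local_K` there is `δ` for `y`; an `η ∈ O` with
`dist η y < δ/2` is good with `δ/2` and `v0 = PhiR a y`.
-/

set_option autoImplicit false

namespace Pool.Agent.H27.KAC

open scoped BigOperators
open Filter Topology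

variable {I : Type} [Fintype I] [DecidableEq I]

/-- the reflection. -/
private def rho (a : I → I → ℕ) (i : I) (x : I → ℝ) : I → ℝ :=
  fun j => x j - if j = i then cR a x i else 0

private theorem continuous_cR (a : I → I → ℕ) (i : I) : Continuous (fun x : I → ℝ => cR a x i) := by
  unfold cR
  fun_prop

private theorem continuous_rho (a : I → I → ℕ) (i : I) : Continuous (rho a i) := by
  unfold rho
  refine continuous_pi fun j => ?_
  by_cases h : j = i
  · simp only [h, if_true]
    exact (continuous_apply i).sub (continuous_cR a i)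
  · simp only [h, if_false]
    exact (continuous_apply j).sub continuous_const

private theorem sum_rho (a : I → I → ℕ) (i : I) (x : I → ℝ) :
    ∑ j, rho a i x j = ∑ j, x j - cR a x i := by
  simp [rho, Finset.sum_sub_distrib]

theorem local_all (a : I → I → ℕ) (hs : ∀ i j, a i j = a j i) (hd : ∀ i, a i i ≠ 1)
    (G : (I → ℝ) → ℝ → Prop)
    (hG : ∀ x v, G x v → ∃ x' : I → ℝ, Kon a x' ∧ (∀ i, x' i ≤ x i) ∧
      ∑ i, x i * cR a x i = ∑ i, x' i * cR a x' i ∧ v = PhiR a x')
    (hR : ∀ x v, G x v → ∀ i, a i i = 0 → G (fun j => x j - if j = i then cR a x i else 0) v)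
    (ξ : I → ℝ) (ε : ℝ) (hε : 0 < ε) :
    ∃ δ : ℝ, 0 < δ ∧ ∃ v0 : ℝ, ∀ x v, G x v → dist x ξ < δ → |v - v0| < ε := by
  classical
  -- the set of points with a value
  set S : Set (I → ℝ) := {x | ∃ v, G x v} with hS
  by_cases hξ : ξ ∈ closure S
  swap
  · -- not in the closure: vacuous
    have hopen : IsOpen (closure S)ᶜ := isClosed_closure.isOpen_compl
    obtain ⟨δ, hδ, hball⟩ := Metric.isOpen_iff.mp hopen ξ hξ
    refine ⟨δ, hδ, 0, fun x v hx hdx => ?_⟩
    exact absurd (subset_closure (show x ∈ S from ⟨v, hx⟩)) (hball (Metric.mem_ball.mpr hdx))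
  -- the orbit
  let r : (I → ℝ) → (I → ℝ) → Prop := fun x x' => ∃ i, a i i = 0 ∧ x' = rho a i x
  set O : Set (I → ℝ) := {x | Relation.ReflTransGen r ξ x} with hO
  -- good points
  let Good : (I → ℝ) → Prop := fun η =>
    ∃ δ : ℝ, 0 < δ ∧ ∃ v0 : ℝ, ∀ x v, G x v → dist x η < δ → |v - v0| < ε
  have hstep : ∀ η η', r η η' → Good η' → Good η := by
    rintro η η' ⟨i, hi, rfl⟩ ⟨δ', hδ', v0, hv0⟩
    obtain ⟨δ, hδ, hcont⟩ := Metric.continuous_iff.mp (continuous_rho a i) η δ' hδ'
    exact ⟨δ, hδ, v0, fun x v hx hdx => hv0 _ v (hR x v hx i hi) (hcont x hdx)⟩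
  have hgen : ∀ ζ η, Relation.ReflTransGen r ζ η → Good η → Good ζ := by
    intro ζ η h
    induction h using Relation.ReflTransGen.head_induction_on with
    | refl => exact id
    | head h _ ih => exact fun hg => hstep _ _ h (ih hg)
  -- the closure of `S` consists of vectors with nonnegative entries
  have hS0 : ∀ x ∈ S, ∀ i, 0 ≤ x i := by
    rintro x ⟨v, hv⟩ i
    obtain ⟨x', hx', hle, _⟩ := hG x v hv
    exact (hx'.1 i).trans (hle i)
  have hclosedpos : IsClosed {x : I → ℝ | ∀ i, 0 ≤ x i} := by
    have : {x : I → ℝ | ∀ i, 0 ≤ x i} = ⋂ i, {x : I → ℝ | 0 ≤ x i} := by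
      ext x; simp
    rw [this]
    exact isClosed_iInter fun i => isClosed_le continuous_const (continuous_apply i)
  have hcS0 : ∀ x ∈ closure S, ∀ i, 0 ≤ x i := by
    intro x hx
    exact (closure_minimal (fun x hx => hS0 x hx) hclosedpos) hx
  -- the closure of `S` is stable
  have hSrho : ∀ i, a i i = 0 → ∀ x ∈ closure S, rho a i x ∈ closure S := by
    intro i hi x hx
    have hm : Set.MapsTo (rho a i) S S := by
      rintro z ⟨v, hv⟩
      exact ⟨v, hR z v hv i hi⟩
    exact hm.closure (continuous_rho a i) hx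
  have hOS : ∀ x ∈ O, x ∈ closure S := by
    intro x hx
    have hx' : Relation.ReflTransGen r ξ x := hx
    clear hx
    induction hx' with
    | refl => exact hξ
    | tail _ h ih =>
      obtain ⟨i, hi, rfl⟩ := h
      exact hSrho i hi _ ih
  have hcOS : closure O ⊆ closure S := closure_minimal hOS isClosed_closure
  -- the closure of `O` is stable
  have hOrho : ∀ i, a i i = 0 → ∀ x ∈ closure O, rho a i x ∈ closure O := by
    intro i hi x hx
    have hm : Set.MapsTo (rho a i) O O := by
      intro z hz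
      have hz' : Relation.ReflTransGen r ξ z := hz
      exact hz'.tail ⟨i, hi, rfl⟩
    exact hm.closure (continuous_rho a i) hx
  have hξO : ξ ∈ O := Relation.ReflTransGen.refl
  -- the height
  let h : (I → ℝ) → ℝ := fun x => ∑ i, x i
  have hcont : Continuous h := by
    show Continuous (fun x : I → ℝ => ∑ i, x i)
    fun_prop
  set K0 : Set (I → ℝ) := closure O ∩ {x | h x ≤ h ξ} with hK0
  have hK0sub : K0 ⊆ Set.Icc (fun _ => 0) (fun _ => h ξ) := by
    rintro x ⟨hx1, hx2⟩
    have h0 := hcS0 x (hcOS hx1)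
    refine ⟨fun i => h0 i, fun i => ?_⟩
    have h1 : x i ≤ h x := Finset.single_le_sum (f := x) (fun j _ => h0 j) (Finset.mem_univ i)
    exact h1.trans hx2
  have hK0closed : IsClosed K0 :=
    isClosed_closure.inter (isClosed_le hcont continuous_const)
  have hK0comp : IsCompact K0 := isCompact_Icc.of_isClosed_subset hK0closed hK0sub
  have hK0ne : K0.Nonempty := ⟨ξ, subset_closure hξO, le_refl (h ξ)⟩
  obtain ⟨y, hy, hmin⟩ := hK0comp.exists_isMinOn hK0ne hcont.continuousOn
  have hmin' : ∀ z ∈ closure O, h y ≤ h z := by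
    intro z hz
    by_cases hz' : h z ≤ h ξ
    · exact hmin (show z ∈ K0 from ⟨hz, hz'⟩)
    · exact hy.2.trans (le_of_lt (not_le.mp hz'))
  have hy0 : ∀ i, 0 ≤ y i := hcS0 y (hcOS hy.1)
  have hyK : Kon a y := by
    refine ⟨hy0, fun i => ?_⟩
    by_cases hi : a i i = 0
    · have h1 := hmin' _ (hOrho i hi y hy.1)
      have h2 : h (rho a i y) = h y - cR a y i := sum_rho a i y
      rw [h2] at h1
      linarith
    · have h2 : 2 ≤ a i i := by
        have := hd i
        omega
      unfold cR
      refine Finset.sum_nonpos fun j _ => ?_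
      refine mul_nonpos_of_nonpos_of_nonneg ?_ (hy0 j)
      have hc : cart a i j ≤ 0 := by
        unfold cart
        by_cases hij : i = j
        · subst hij
          simp only [if_true]
          have : (2 : ℤ) ≤ (a i i : ℤ) := by exact_mod_cast h2
          linarith
        · simp only [hij, if_false]
          have : (0 : ℤ) ≤ (a i j : ℤ) := by positivity
          linarith
      exact_mod_cast hc
  obtain ⟨δ, hδ, hloc⟩ := local_K a hs hd G hG y hyK ε hε
  obtain ⟨η, hηO, hηd⟩ := Metric.mem_closure_iff.mp hy.1 (δ / 2) (by linarith)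
  have hgood : Good η := by
    refine ⟨δ / 2, by linarith, PhiR a y, fun x v hx hdx => hloc x v hx ?_⟩
    calc dist x y ≤ dist x η + dist η y := dist_triangle _ _ _
      _ < δ / 2 + δ / 2 := by
        rw [dist_comm η y]
        exact add_lt_add hdx hηd
      _ = δ := by ring
  exact hgen ξ η hηO hgood

end Pool.Agent.H27.KAC
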