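import Mathlib

/-!
KAC module KH16: extension of a homogeneous function given by a graph with the Cauchy property (pure topology).

PROOF.  `G x v`, `G x v'` imply `v = v'` (hypothesis `hloc` at `x`).  Let `D = {x | ∃ v, G x v}`, `f : (I → ℝ) → ℝ` with `G x (f x)` on `D`.
For every `ξ` the function `f` has a limit along `𝓝[D] ξ` (Cauchy filter by `hloc`, completeness; `cauchy_map_iff` or
`Metric.cauchy_iff`; trivial if `𝓝[D] ξ = ⊥`), so `extendFrom D f` is continuous on `closure D` (`continuousOn_extendFrom`) and equal to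
`f` on `D`.  Let `A = closure D ∩ sphere 0 1` (closed).  Tietze (`ContinuousMap.exists_restrict_eq` or `ContinuousMap.exists_extension`):
a continuous `g : (I → ℝ) → ℝ` equal to `extendFrom D f` on `A`.  Put `F x = ‖x‖ * g (‖x‖⁻¹ • x)` for `x ≠ 0`, `F 0 = 0`.  Continuous at
`x ≠ 0`; at 0 because `g` is bounded on the compact sphere.  Homogeneous.  If `G x v`, `x ≠ 0`: `G (‖x‖⁻¹ • x) (‖x‖⁻¹ * v)`, so
`F x = v`.  If `G 0 v`: `G 0 (2 * v)`, so `v = 2 * v = 0`.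
-/

set_option autoImplicit false

namespace Pool.Agent.H27.KAC

open Filter Topology

private theorem KH16_uniq {I : Type} [Fintype I] (G : (I → ℝ) → ℝ → Prop)
    (hloc : ∀ (ξ : I → ℝ) (ε : ℝ), 0 < ε → ∃ δ : ℝ, 0 < δ ∧ ∃ v0 : ℝ,
      ∀ x v, G x v → dist x ξ < δ → |v - v0| < ε) (x : I → ℝ) (v v' : ℝ)
    (h : G x v) (h' : G x v') : v = v' := by
  by_contra hne
  have hpos : 0 < |v - v'| := abs_pos.2 (sub_ne_zero.2 hne)
  obtain ⟨δ, hδ, v0, hv0⟩ := hloc x (|v - v'| / 2) (by linarith)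
  have h1 := hv0 x v h (by rw [dist_self]; exact hδ)
  have h2 := hv0 x v' h' (by rw [dist_self]; exact hδ)
  have h3 : |v - v'| ≤ |v - v0| + |v' - v0| := by
    have e : v - v' = (v - v0) - (v' - v0) := by ring
    rw [e]
    exact abs_sub _ _
  linarith

private theorem KH16_lim {I : Type} [Fintype I] (G : (I → ℝ) → ℝ → Prop)
    (hloc : ∀ (ξ : I → ℝ) (ε : ℝ), 0 < ε → ∃ δ : ℝ, 0 < δ ∧ ∃ v0 : ℝ,
      ∀ x v, G x v → dist x ξ < δ → |v - v0| < ε)
    (f : (I → ℝ) → ℝ) (hf : ∀ x v, G x v → G x (f x)) (ξ : I → ℝ)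
    (hξ : ξ ∈ closure {x | ∃ v, G x v}) :
    ∃ y, Tendsto f (𝓝[{x | ∃ v, G x v}] ξ) (𝓝 y) := by
  have : (𝓝[{x | ∃ v, G x v}] ξ).NeBot := mem_closure_iff_nhdsWithin_neBot.1 hξ
  apply cauchy_map_iff_exists_tendsto.1
  rw [Metric.cauchy_iff]
  refine ⟨inferInstance, fun ε hε => ?_⟩
  obtain ⟨δ, hδ, v0, hv0⟩ := hloc ξ (ε / 2) (by linarith)
  refine ⟨f '' (Metric.ball ξ δ ∩ {x | ∃ v, G x v}), ?_, ?_⟩
  · apply Filter.image_mem_map
    rw [Set.inter_comm]
    exact inter_mem_nhdsWithin _ (Metric.ball_mem_nhds ξ hδ)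
  · rintro _ ⟨x, ⟨hx, v, hxv⟩, rfl⟩ _ ⟨y, ⟨hy, w, hyw⟩, rfl⟩
    have h1 := hv0 x _ (hf x v hxv) hx
    have h2 := hv0 y _ (hf y w hyw) hy
    rw [Real.dist_eq]
    have e : f x - f y = (f x - v0) - (f y - v0) := by ring
    rw [e]
    have := abs_sub (f x - v0) (f y - v0)
    linarith

private theorem KH16_val {I : Type} [Fintype I] (G : (I → ℝ) → ℝ → Prop)
    (hloc : ∀ (ξ : I → ℝ) (ε : ℝ), 0 < ε → ∃ δ : ℝ, 0 < δ ∧ ∃ v0 : ℝ,
      ∀ x v, G x v → dist x ξ < δ → |v - v0| < ε)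
    (f : (I → ℝ) → ℝ) (hf : ∀ x v, G x v → G x (f x)) (ξ : I → ℝ) (w : ℝ) (hξ : G ξ w) :
    Tendsto f (𝓝[{x | ∃ v, G x v}] ξ) (𝓝 (f ξ)) := by
  rw [Metric.tendsto_nhdsWithin_nhds]
  intro ε hε
  obtain ⟨δ, hδ, v0, hv0⟩ := hloc ξ (ε / 2) (by linarith)
  refine ⟨δ, hδ, ?_⟩
  rintro x ⟨v, hxv⟩ hx
  have h1 := hv0 x _ (hf x v hxv) hx
  have h2 := hv0 ξ _ (hf ξ w hξ) (by rw [dist_self]; exact hδ)
  rw [Real.dist_eq]
  have e : f x - f ξ = (f x - v0) - (f ξ - v0) := by ring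
  rw [e]
  have := abs_sub (f x - v0) (f ξ - v0)
  linarith

private theorem KH16_cont {I : Type} [Fintype I] (g : (I → ℝ) → ℝ) (hg : Continuous g) :
    Continuous (fun x : I → ℝ => ‖x‖ * g (‖x‖⁻¹ • x)) := by
  rw [continuous_iff_continuousAt]
  intro x
  by_cases hx : x = 0
  · subst hx
    obtain ⟨C, hC⟩ := (isCompact_sphere (0 : I → ℝ) 1).exists_bound_of_continuousOn
      hg.continuousOn
    have h0 : Tendsto (fun x : I → ℝ => ‖x‖ * |C|) (𝓝 0) (𝓝 0) := by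
      have : Tendsto (fun x : I → ℝ => ‖x‖ * |C|) (𝓝 0) (𝓝 (‖(0 : I → ℝ)‖ * |C|)) :=
        (continuous_norm.mul continuous_const).tendsto _
      simpa using this
    unfold ContinuousAt
    have hz : (fun x : I → ℝ => ‖x‖ * g (‖x‖⁻¹ • x)) 0 = 0 := by simp
    rw [hz]
    refine squeeze_zero_norm (fun y => ?_) h0
    by_cases hy : y = 0
    · simp [hy]
    · rw [norm_mul, norm_norm]
      refine mul_le_mul_of_nonneg_left ?_ (norm_nonneg _)
      refine (hC _ ?_).trans (le_abs_self C)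
      rw [mem_sphere_zero_iff_norm, norm_smul, norm_inv, norm_norm,
        inv_mul_cancel₀ (norm_ne_zero_iff.2 hy)]
  · have h1 : ContinuousAt (fun x : I → ℝ => ‖x‖⁻¹ • x) x :=
      (continuous_norm.continuousAt.inv₀ (norm_ne_zero_iff.2 hx)).smul continuousAt_id
    exact continuous_norm.continuousAt.mul (hg.continuousAt.comp h1)

theorem homog_ext {I : Type} [Fintype I] (G : (I → ℝ) → ℝ → Prop)
    (hpos : ∀ x v (t : ℝ), 0 < t → G x v → G (t • x) (t * v))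
    (hloc : ∀ (ξ : I → ℝ) (ε : ℝ), 0 < ε → ∃ δ : ℝ, 0 < δ ∧ ∃ v0 : ℝ,
      ∀ x v, G x v → dist x ξ < δ → |v - v0| < ε) :
    ∃ F : (I → ℝ) → ℝ, Continuous F ∧ (∀ (t : ℝ) (x : I → ℝ), 0 ≤ t → F (t • x) = t * F x) ∧
      ∀ x v, G x v → F x = v := by
  classical
  set D : Set (I → ℝ) := {x | ∃ v, G x v} with hD
  obtain ⟨f, hf⟩ : ∃ f : (I → ℝ) → ℝ, ∀ x v, G x v → G x (f x) := by
    refine ⟨fun x => if h : ∃ v, G x v then Classical.choose h else 0, fun x v h => ?_⟩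
    have h' : ∃ v, G x v := ⟨v, h⟩
    simp only [dif_pos h']
    exact Classical.choose_spec h'
  have huniq : ∀ x v, G x v → f x = v := fun x v h =>
    KH16_uniq G hloc x _ _ (hf x v h) h
  have hcont : ContinuousOn (extendFrom D f) (closure D) :=
    continuousOn_extendFrom subset_rfl (fun x hx => KH16_lim G hloc f hf x hx)
  have hval : ∀ x v, G x v → extendFrom D f x = v := by
    intro x v h
    rw [← huniq x v h]
    exact extendFrom_eq (subset_closure ⟨v, h⟩) (KH16_val G hloc f hf x v h)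
  obtain ⟨g, hg⟩ := ContinuousMap.exists_restrict_eq
    (isClosed_closure (s := D)) ⟨_, hcont.domRestrict⟩
  have hgv : ∀ x v, G x v → g x = v := by
    intro x v h
    have h1 := congrArg (fun k => k ⟨x, subset_closure ⟨v, h⟩⟩) hg
    simp only [ContinuousMap.restrict_apply, ContinuousMap.coe_mk, Set.domRestrict_apply] at h1
    rw [h1]
    exact hval x v h
  refine ⟨fun x => ‖x‖ * g (‖x‖⁻¹ • x), KH16_cont g g.continuous, ?_, ?_⟩
  · intro t x ht
    rcases eq_or_lt_of_le ht with h0 | h0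
    · rw [← h0]
      simp
    · have e1 : ‖t • x‖ = t * ‖x‖ := by rw [norm_smul, Real.norm_of_nonneg ht]
      have e2 : ‖t • x‖⁻¹ • (t • x) = ‖x‖⁻¹ • x := by
        rw [e1, smul_smul]
        congr 1
        rw [mul_inv, mul_comm t⁻¹, mul_assoc, inv_mul_cancel₀ h0.ne', mul_one]
      show ‖t • x‖ * g (‖t • x‖⁻¹ • (t • x)) = t * (‖x‖ * g (‖x‖⁻¹ • x))
      rw [e2, e1, mul_assoc]
  · intro x v h
    show ‖x‖ * g (‖x‖⁻¹ • x) = v
    by_cases hx : x = 0
    · subst hx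
      have h2 := hpos 0 v 2 two_pos h
      rw [smul_zero] at h2
      have h3 := KH16_uniq G hloc 0 _ _ h h2
      rw [norm_zero, zero_mul]
      linarith
    · have hn : 0 < ‖x‖ := norm_pos_iff.2 hx
      rw [hgv _ _ (hpos x v ‖x‖⁻¹ (inv_pos.2 hn) h), ← mul_assoc, mul_inv_cancel₀ hn.ne',
        one_mul]

end Pool.Agent.H27.KAC
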