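import Pool.Agent.H27.KAC.KM6

/-!
KAC, homogeneous continuity: the graph of the growth function.
-/

namespace Pool.Agent.H27.KAC

open scoped BigOperators
open Filter Topology

variable {I E : Type} [Fintype I] [DecidableEq I] [Fintype E]

/-- `x = t β`, `v = t l`, where `l` is the growth rate along the ray of `β`. -/
def GrQ (Q : Quiv I E) (x : I → ℝ) (v : ℝ) : Prop :=
  ∃ (β : I → ℕ) (t l : ℝ), 0 < t ∧ (∀ᶠ n : ℕ in atTop, 0 < kacOne Q (fun i => n * β i)) ∧
    Tendsto (fun n : ℕ => Real.log ((kacOne Q (fun i => n * β i) : ℚ) : ℝ) / n) atTop (𝓝 l) ∧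
    (∀ i, x i = t * β i) ∧ v = t * l

end Pool.Agent.H27.KAC
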