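import Pool.Agent.H27.KAC.KH12
import Pool.Agent.H27.KAC.KH13
import Pool.Agent.H27.KAC.KHGr

/-!
KAC module KH18: the graph of the growth function of a quiver: descent to the cone and reflections.

`GrQ_descent`: for `GrQ Q x v` there is `x' ∈ Kon`, `x' ≤ x`, same form, `v = PhiR (adj Q) x'`: `kac_descent`, `kac_limit_Phi`, uniqueness
of limits, `PhiR_smul`; `cR (adj Q) β i = - sw (adj Q) β i` for integer vectors.
`GrQ_refl`: `kac_refl`.
-/

set_option autoImplicit false

namespace Pool.Agent.H27.KAC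

open scoped BigOperators
open Filter Topology

variable {I E : Type} [Fintype I] [DecidableEq I] [Fintype E]

theorem GrQ_descent (Q : Quiv I E) (hg : GoodMat (adj Q)) (x : I → ℝ) (v : ℝ) (h : GrQ Q x v) :
    ∃ x' : I → ℝ, Kon (adj Q) x' ∧ (∀ i, x' i ≤ x i) ∧
      ∑ i, x i * cR (adj Q) x i = ∑ i, x' i * cR (adj Q) x' i ∧ v = PhiR (adj Q) x' := by
  obtain ⟨β, t, l, ht, hβ, hl, hx, hv⟩ := h
  obtain ⟨β', h1, h2, h3, h4⟩ := kac_descent Q β hβ
  have hβ' : ∀ᶠ n : ℕ in atTop, 0 < kacOne Q (fun i => n * β' i) := by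
    filter_upwards [hβ, eventually_ge_atTop 1] with n hn hn1
    rw [h1 n hn1]
    exact hn
  have hlim := kac_limit_Phi Q hg β' h3 hβ'
  have hlim2 : Tendsto (fun n : ℕ => Real.log ((kacOne Q (fun i => n * β' i) : ℚ) : ℝ) / n)
      atTop (𝓝 l) := by
    refine hl.congr' ?_
    filter_upwards [eventually_ge_atTop 1] with n hn
    rw [h1 n hn]
  have hl2 := tendsto_nhds_unique hlim2 hlim
  have hkon : Kon (adj Q) (fun i => (β' i : ℝ)) := by
    refine ⟨fun i => Nat.cast_nonneg _, fun i => ?_⟩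
    rw [KH12_cR]
    have : (0 : ℝ) ≤ ((sw (adj Q) β' i : ℤ) : ℝ) := by exact_mod_cast h3 i
    linarith
  have hform : ∀ (γ : I → ℕ), ∑ i, (t • (fun i => (γ i : ℝ))) i *
      cR (adj Q) (t • (fun i => (γ i : ℝ))) i =
      t * t * (((-∑ i, (γ i : ℤ) * sw (adj Q) γ i : ℤ)) : ℝ) := by
    intro γ
    push_cast
    rw [← Finset.sum_neg_distrib, Finset.mul_sum]
    refine Finset.sum_congr rfl fun i _ => ?_
    rw [cR_smul, KH12_cR, Pi.smul_apply, smul_eq_mul]
    ring
  have hxx : x = t • (fun i => (β i : ℝ)) := by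
    funext i
    rw [hx i, Pi.smul_apply, smul_eq_mul]
  refine ⟨t • (fun i => (β' i : ℝ)), hkon.smul ht.le, fun i => ?_, ?_, ?_⟩
  · rw [hx i, Pi.smul_apply, smul_eq_mul]
    refine mul_le_mul_of_nonneg_left ?_ ht.le
    exact_mod_cast h2 i
  · rw [hxx, hform β, hform β', h4]
  · rw [PhiR_smul hkon ht.le, hv, hl2]

theorem GrQ_refl (Q : Quiv I E) (x : I → ℝ) (v : ℝ) (h : GrQ Q x v) (i : I)
    (hi : adj Q i i = 0) :
    GrQ Q (fun j => x j - if j = i then cR (adj Q) x i else 0) v := by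
  obtain ⟨β, t, l, ht, hβ, hl, hx, hv⟩ := h
  obtain ⟨β', h1, h2⟩ := kac_refl Q β hβ i hi
  refine ⟨β', t, l, ht, ?_, ?_, fun j => ?_, hv⟩
  · filter_upwards [hβ, eventually_ge_atTop 1] with n hn hn1
    rw [h2 n hn1]
    exact hn
  · refine hl.congr' ?_
    filter_upwards [eventually_ge_atTop 1] with n hn
    rw [h2 n hn]
  · have hxx : x = t • (fun i => (β i : ℝ)) := by
      funext i
      rw [hx i, Pi.smul_apply, smul_eq_mul]
    have h3 : (β' j : ℝ) = (β j : ℝ) + if j = i then ((sw (adj Q) β i : ℤ) : ℝ) else 0 := by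
      have := congrArg (fun z : ℤ => (z : ℝ)) (h1 j)
      push_cast at this
      exact this
    show x j - (if j = i then cR (adj Q) x i else 0) = t * (β' j : ℝ)
    rw [h3, hxx, cR_smul, KH12_cR]
    split_ifs with hj
    · rw [Pi.smul_apply, smul_eq_mul]
      ring
    · rw [Pi.smul_apply, smul_eq_mul]
      ring

end Pool.Agent.H27.KAC
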