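import Pool.Agent.H27.KAC.KM6

/-!
KAC module KM7: the final theorem for quivers in which two distinct loop-free vertices are not joined by exactly one
arrow.
-/

set_option autoImplicit false

namespace Pool.Agent.H27.KAC

open scoped BigOperators
open Filter Topology Polynomial

section

variable {I E : Type} [DecidableEq I] [Fintype E]

theorem adj_self (Q : Quiv I E) (i : I) :
    adj Q i i = 2 * (Finset.univ.filter (fun e : E => Q.src e = i ∧ Q.tgt e = i)).card := by
  unfold adj
  ring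

theorem adj_comm (Q : Quiv I E) (i j : I) : adj Q i j = adj Q j i := by
  unfold adj
  ring

theorem adj_self_eq_zero (Q : Quiv I E) (i : I) (h : adj Q i i = 0) (e : E) :
    ¬ (Q.src e = i ∧ Q.tgt e = i) := by
  intro he
  rw [adj_self] at h
  have h1 : (Finset.univ.filter (fun e : E => Q.src e = i ∧ Q.tgt e = i)).card = 0 := by omega
  rw [Finset.card_eq_zero] at h1
  have h2 : e ∈ Finset.univ.filter (fun e : E => Q.src e = i ∧ Q.tgt e = i) := by
    rw [Finset.mem_filter]
    exact ⟨Finset.mem_univ _, he⟩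
  rw [h1] at h2
  simp at h2

theorem adj_eq_card (Q : Quiv I E) (i j : I) (hij : i ≠ j) :
    adj Q i j = (Finset.univ.filter (fun e : E => (Q.src e = i ∧ Q.tgt e = j) ∨
      (Q.src e = j ∧ Q.tgt e = i))).card := by
  classical
  unfold adj
  rw [← Finset.card_union_of_disjoint]
  · congr 1
    ext e
    simp only [Finset.mem_union, Finset.mem_filter, Finset.mem_univ, true_and]
  · rw [Finset.disjoint_left]
    intro e h1 h2
    rw [Finset.mem_filter] at h1 h2
    exact hij (h1.2.1.symm.trans h2.2.1)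

/-- The hypothesis in elementary terms. -/
theorem goodMat_adj (Q : Quiv I E)
    (h : ∀ i j : I, i ≠ j → (∀ e, ¬ (Q.src e = i ∧ Q.tgt e = i)) →
      (∀ e, ¬ (Q.src e = j ∧ Q.tgt e = j)) →
      ¬ ∃! e, (Q.src e = i ∧ Q.tgt e = j) ∨ (Q.src e = j ∧ Q.tgt e = i)) :
    GoodMat (adj Q) := by
  refine ⟨adj_comm Q, fun i => ?_, fun i j hij hi hj h1 => ?_⟩
  · rw [adj_self]
    omega
  · apply h i j hij (adj_self_eq_zero Q i hi) (adj_self_eq_zero Q j hj)
    rw [adj_eq_card Q i j hij, Finset.card_eq_one] at h1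
    obtain ⟨e, he⟩ := h1
    refine ⟨e, ?_, fun e' he' => ?_⟩
    · have h2 : e ∈ ({e} : Finset E) := Finset.mem_singleton_self e
      rw [← he, Finset.mem_filter] at h2
      exact h2.2
    · have h2 : e' ∈ Finset.univ.filter (fun e : E => (Q.src e = i ∧ Q.tgt e = j) ∨
          (Q.src e = j ∧ Q.tgt e = i)) := by
        rw [Finset.mem_filter]
        exact ⟨Finset.mem_univ _, he'⟩
      rw [he, Finset.mem_singleton] at h2
      exact h2

end

/-- every real function on `ℕ^I` is the restriction of a continuous function on `ℝ^I`. -/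
theorem exists_cont_ext {I : Type} [Finite I] (l : (I → ℕ) → ℝ) :
    ∃ F : (I → ℝ) → ℝ, Continuous F ∧ ∀ α : I → ℕ, F (fun i => (α i : ℝ)) = l α := by
  have := Fintype.ofFinite I
  have he : IsClosedEmbedding (fun (α : I → ℕ) (i : I) => (α i : ℝ)) := by
    apply Isometry.isClosedEmbedding
    intro x y
    rw [edist_pi_def, edist_pi_def]
    apply Finset.sup_congr rfl
    intro i _
    rw [edist_dist, edist_dist, Nat.dist_eq, Real.dist_eq]
  have hd : DiscreteTopology (I → ℕ) := Pi.discreteTopology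
  obtain ⟨g, hg⟩ := ContinuousMap.exists_extension he
    (⟨l, continuous_of_discreteTopology⟩ : C(I → ℕ, ℝ))
  refine ⟨g, g.continuous, fun α => ?_⟩
  have := DFunLike.congr_fun hg α
  exact this

theorem kac_growth {I E : Type} [Finite I] [Finite E] (Q : Quiv I E)
    (h : ∀ i j : I, i ≠ j → (∀ e, ¬ (Q.src e = i ∧ Q.tgt e = i)) →
      (∀ e, ¬ (Q.src e = j ∧ Q.tgt e = j)) →
      ¬ ∃! e, (Q.src e = i ∧ Q.tgt e = j) ∨ (Q.src e = j ∧ Q.tgt e = i)) :
    ∃ p : (I → ℕ) → ℚ[X], (∀ α, IsKacPoly Q α (p α)) ∧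
      ∃ F : (I → ℝ) → ℝ, Continuous F ∧ ∀ α : I → ℕ,
        (∀ᶠ n : ℕ in atTop, 0 < (p (fun i => n * α i)).eval 1) →
        Tendsto (fun n : ℕ => Real.log (((p (fun i => n * α i)).eval 1 : ℚ) : ℝ) / n) atTop
          (𝓝 (F (fun i => (α i : ℝ)))) := by
  classical
  have := Fintype.ofFinite I
  have := Fintype.ofFinite E
  have hg := goodMat_adj Q h
  choose p hp using fun α => kacPoly_exists Q α
  refine ⟨p, hp, ?_⟩
  have h1 : ∀ α, kacOne Q α = (p α).eval 1 := fun α => kacOne_eq Q α (p α) (hp α)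
  have h2 : ∀ α : I → ℕ, ∃ l : ℝ, (∀ᶠ n : ℕ in atTop, 0 < (p (fun i => n * α i)).eval 1) →
      Tendsto (fun n : ℕ => Real.log (((p (fun i => n * α i)).eval 1 : ℚ) : ℝ) / n) atTop
        (𝓝 l) := by
    intro α
    by_cases hα : ∀ᶠ n : ℕ in atTop, 0 < (p (fun i => n * α i)).eval 1
    · obtain ⟨l, hl⟩ := kac_limit Q hg α (by
        filter_upwards [hα] with n hn
        rw [h1]
        exact hn)
      refine ⟨l, fun _ => ?_⟩
      simpa only [h1] using hl
    · exact ⟨0, fun hc => absurd hc hα⟩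
  choose l hl using h2
  obtain ⟨F, hF, hFl⟩ := exists_cont_ext l
  refine ⟨F, hF, fun α hα => ?_⟩
  rw [hFl α]
  exact hl α hα

end Pool.Agent.H27.KAC
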