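import Pool.Agent.H27.KAC.KH15
import Pool.Agent.H27.KAC.KH18
import Pool.Agent.H27.KAC.KH16
import Pool.Agent.H27.KAC.KM7

/-!
KAC module KH17: the final theorem with a continuous and positively homogeneous growth function.
-/

set_option autoImplicit false

namespace Pool.Agent.H27.KAC

open scoped BigOperators
open Filter Topology Polynomial

theorem kac_growth_homog {I E : Type} [Finite I] [Finite E] (Q : Quiv I E)
    (h : ∀ i j : I, i ≠ j → (∀ e, ¬ (Q.src e = i ∧ Q.tgt e = i)) →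
      (∀ e, ¬ (Q.src e = j ∧ Q.tgt e = j)) →
      ¬ ∃! e, (Q.src e = i ∧ Q.tgt e = j) ∨ (Q.src e = j ∧ Q.tgt e = i)) :
    ∃ p : (I → ℕ) → ℚ[X], (∀ α, IsKacPoly Q α (p α)) ∧
      ∃ F : (I → ℝ) → ℝ, Continuous F ∧ (∀ (t : ℝ) (x : I → ℝ), 0 ≤ t → F (t • x) = t * F x) ∧
        ∀ α : I → ℕ, (∀ᶠ n : ℕ in atTop, 0 < (p (fun i => n * α i)).eval 1) →
        Tendsto (fun n : ℕ => Real.log (((p (fun i => n * α i)).eval 1 : ℚ) : ℝ) / n) atTop
          (𝓝 (F (fun i => (α i : ℝ)))) := by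
  classical
  have := Fintype.ofFinite I
  have := Fintype.ofFinite E
  have hg := goodMat_adj Q h
  choose p hp using fun α => kacPoly_exists Q α
  refine ⟨p, hp, ?_⟩
  have h1 : ∀ α, kacOne Q α = (p α).eval 1 := fun α => kacOne_eq Q α (p α) (hp α)
  obtain ⟨F, hF, hF1, hF2⟩ := homog_ext (GrQ Q)
    (by
      rintro x v t ht ⟨β, s, l, hs, hβ, hl, hx, hv⟩
      refine ⟨β, t * s, l, mul_pos ht hs, hβ, hl, fun i => ?_, ?_⟩
      · rw [Pi.smul_apply, smul_eq_mul, hx i, mul_assoc]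
      · rw [hv, mul_assoc])
    (fun ξ ε hε => local_all (adj Q) (adj_comm Q) (fun i hi => by
        have h2 := adj_self Q i
        omega) (GrQ Q) (fun x v h => GrQ_descent Q hg x v h)
        (fun x v h i hi => GrQ_refl Q x v h i hi) ξ ε hε)
  refine ⟨F, hF, hF1, fun α hα => ?_⟩
  have hα' : ∀ᶠ n : ℕ in atTop, 0 < kacOne Q (fun i => n * α i) := by
    filter_upwards [hα] with n hn
    rw [h1]
    exact hn
  obtain ⟨l, hl⟩ := kac_limit Q hg α hα'
  have h2 : F (fun i => (α i : ℝ)) = l :=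
    hF2 _ _ ⟨α, 1, l, one_pos, hα', hl, fun i => (one_mul _).symm, (one_mul _).symm⟩
  rw [h2]
  simpa only [h1] using hl

end Pool.Agent.H27.KAC
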