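import Pool.Agent.H27.KAC.KH1

/-!
KAC module KH2: real multipartitions, linear algebra and bounds.

* `Feas.vac_le`: `-cart a i j ≤ a i j`, `min k l ≤ l`, `m ≥ 0`.
* `Feas.vac_top`: for `k ≥ K` one has `min k l = l`.
* `Feas.tail`: `ent_dual` with `x^k` in place of `x`; `-log (1 - t) ≤ t / (1 - t)`, `1 - x^k ≥ 1 - x`,
  `∑_(k > L) x^k ≤ x^(L+1) / (1 - x)`, `Feas.vac_le`.
-/

set_option autoImplicit false

namespace Pool.Agent.H27.KAC

open scoped BigOperators

variable {I : Type} [Fintype I] [DecidableEq I]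

theorem cR_add (a : I → I → ℕ) (x y : I → ℝ) (i : I) : cR a (x + y) i = cR a x i + cR a y i := by
  simp [cR, mul_add, Finset.sum_add_distrib]

theorem cR_smul (a : I → I → ℕ) (t : ℝ) (x : I → ℝ) (i : I) : cR a (t • x) i = t * cR a x i := by
  simp only [cR, Pi.smul_apply, smul_eq_mul, Finset.mul_sum]
  exact Finset.sum_congr rfl fun j _ => by ring

theorem cR_sub (a : I → I → ℕ) (x y : I → ℝ) (i : I) : cR a (x - y) i = cR a x i - cR a y i := by
  simp [cR, mul_sub, Finset.sum_sub_distrib]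

theorem cR_symm (a : I → I → ℕ) (hs : ∀ i j, a i j = a j i) (x y : I → ℝ) :
    ∑ i, x i * cR a y i = ∑ i, y i * cR a x i := by
  have hc : ∀ i j, (cart a i j : ℝ) = (cart a j i : ℝ) := by
    intro i j
    unfold cart
    rw [hs i j]
    by_cases h : i = j
    · rw [h]
    · rw [if_neg h, if_neg (fun h' => h h'.symm)]
  simp only [cR, Finset.mul_sum]
  rw [Finset.sum_comm]
  refine Finset.sum_congr rfl fun j _ => Finset.sum_congr rfl fun i _ => ?_
  rw [hc i j]
  ring

private theorem KH2_cR_neg_le (a : I → I → ℕ) (x : I → ℝ) (hx : ∀ i, 0 ≤ x i) (i : I) :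
    -cR a x i ≤ ∑ j, (a i j : ℝ) * x j := by
  unfold cR
  rw [← Finset.sum_neg_distrib]
  refine Finset.sum_le_sum fun j _ => ?_
  have h0 := hx j
  unfold cart
  by_cases h : i = j
  · rw [if_pos h]
    push_cast
    nlinarith
  · rw [if_neg h]
    push_cast
    nlinarith

/-- off-diagonal entries are nonpositive. -/
theorem cR_nonpos_of_zero (a : I → I → ℕ) (x : I → ℝ) (hx : ∀ i, 0 ≤ x i) (i : I)
    (hi : x i = 0) : cR a x i ≤ 0 := by
  unfold cR
  refine Finset.sum_nonpos fun j _ => ?_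
  by_cases h : i = j
  · rw [← h, hi, mul_zero]
  · have h0 := hx j
    have h1 : (0 : ℝ) ≤ (a i j : ℝ) := Nat.cast_nonneg _
    unfold cart
    rw [if_neg h]
    push_cast
    nlinarith

theorem massR_sum_cR (a : I → I → ℕ) (K : ℕ) (m : ℕ → I → ℝ) (i : I) :
    ∑ l ∈ Finset.Icc 1 K, (l : ℝ) * cR a (m l) i = cR a (massR K m) i := by
  simp only [cR, massR, Finset.mul_sum]
  rw [Finset.sum_comm]
  refine Finset.sum_congr rfl fun j _ => Finset.sum_congr rfl fun l _ => ?_
  ring

private theorem KH2_sum_enlarge (f : ℕ → ℝ) (K K' : ℕ) (hK : K ≤ K') (hf : ∀ l, K < l → f l = 0) :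
    ∑ l ∈ Finset.Icc 1 K', f l = ∑ l ∈ Finset.Icc 1 K, f l := by
  symm
  apply Finset.sum_subset
  · intro l hl
    rw [Finset.mem_Icc] at hl ⊢
    omega
  · intro l hl hl'
    rw [Finset.mem_Icc] at hl hl'
    exact hf l (by omega)

private theorem KH2_cR_zero (a : I → I → ℕ) (x : I → ℝ) (hx : ∀ j, x j = 0) (i : I) :
    cR a x i = 0 := by
  unfold cR
  exact Finset.sum_eq_zero fun j _ => by rw [hx j, mul_zero]

private theorem KH2_vac_enlarge {a : I → I → ℕ} {K K' : ℕ} {m : ℕ → I → ℝ}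
    (hout : ∀ l i, K < l → m l i = 0) (hK : K ≤ K') (k : ℕ) (i : I) :
    vacR a K' m k i = vacR a K m k i := by
  unfold vacR
  apply KH2_sum_enlarge _ K K' hK
  intro l hl
  rw [KH2_cR_zero a (m l) (fun j => hout l j hl) i, neg_zero, mul_zero]

theorem Feas.enlarge {a : I → I → ℕ} {K K' : ℕ} {m : ℕ → I → ℝ} {y : I → ℝ}
    (h : Feas a K m y) (hK : K ≤ K') : Feas a K' m y where
  nn := h.nn
  out := fun l i hl => h.out l i (by omega)
  mass := by
    intro i
    rw [← h.mass i]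
    unfold massR
    apply KH2_sum_enlarge _ K K' hK
    intro l hl
    rw [h.out l i hl, mul_zero]
  vac := by
    intro k i
    rw [KH2_vac_enlarge h.out hK]
    exact h.vac k i

theorem EntR_enlarge {a : I → I → ℕ} {K K' : ℕ} {m : ℕ → I → ℝ} {y : I → ℝ}
    (h : Feas a K m y) (hK : K ≤ K') : EntR a K' m = EntR a K m := by
  unfold EntR
  rw [KH2_sum_enlarge _ K K' hK]
  · refine Finset.sum_congr rfl fun k _ => Finset.sum_congr rfl fun i _ => ?_
    rw [KH2_vac_enlarge h.out hK]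
  · intro l hl
    refine Finset.sum_eq_zero fun i _ => ?_
    rw [h.out l i hl, ent_zero_right]

theorem vacR_add (a : I → I → ℕ) (K : ℕ) (m m' : ℕ → I → ℝ) (k : ℕ) (i : I) :
    vacR a K (fun l j => m l j + m' l j) k i = vacR a K m k i + vacR a K m' k i := by
  unfold vacR
  rw [← Finset.sum_add_distrib]
  refine Finset.sum_congr rfl fun l _ => ?_
  have e : cR a (fun j => m l j + m' l j) i = cR a (m l) i + cR a (m' l) i :=
    cR_add a (m l) (m' l) i
  rw [e]
  ring

theorem vacR_smul (a : I → I → ℕ) (K : ℕ) (t : ℝ) (m : ℕ → I → ℝ) (k : ℕ) (i : I) :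
    vacR a K (fun l j => t * m l j) k i = t * vacR a K m k i := by
  unfold vacR
  rw [Finset.mul_sum]
  refine Finset.sum_congr rfl fun l _ => ?_
  have e : cR a (fun j => t * m l j) i = t * cR a (m l) i :=
    cR_smul a t (m l) i
  rw [e]
  ring

theorem Feas.add {a : I → I → ℕ} {K : ℕ} {m m' : ℕ → I → ℝ} {y y' : I → ℝ}
    (h : Feas a K m y) (h' : Feas a K m' y') :
    Feas a K (fun l j => m l j + m' l j) (y + y') where
  nn := fun l i => add_nonneg (h.nn l i) (h'.nn l i)
  out := by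
    intro l i hl
    show m l i + m' l i = 0
    rw [h.out l i hl, h'.out l i hl, add_zero]
  mass := by
    intro i
    rw [Pi.add_apply, ← h.mass i, ← h'.mass i]
    unfold massR
    rw [← Finset.sum_add_distrib]
    exact Finset.sum_congr rfl fun l _ => by ring
  vac := by
    intro k i
    rw [vacR_add]
    exact add_nonneg (h.vac k i) (h'.vac k i)

theorem EntR_add {a : I → I → ℕ} {K : ℕ} {m m' : ℕ → I → ℝ} {y y' : I → ℝ}
    (h : Feas a K m y) (h' : Feas a K m' y') :
    EntR a K m + EntR a K m' ≤ EntR a K (fun l j => m l j + m' l j) := by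
  unfold EntR
  rw [← Finset.sum_add_distrib]
  refine Finset.sum_le_sum fun k _ => ?_
  rw [← Finset.sum_add_distrib]
  refine Finset.sum_le_sum fun i _ => ?_
  rw [vacR_add]
  exact ent_add (h.vac k i) (h.nn k i) (h'.vac k i) (h'.nn k i)

theorem Feas.smul {a : I → I → ℕ} {K : ℕ} {m : ℕ → I → ℝ} {y : I → ℝ}
    (h : Feas a K m y) {t : ℝ} (ht : 0 ≤ t) : Feas a K (fun l j => t * m l j) (t • y) where
  nn := fun l i => mul_nonneg ht (h.nn l i)
  out := by
    intro l i hl
    show t * m l i = 0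
    rw [h.out l i hl, mul_zero]
  mass := by
    intro i
    rw [Pi.smul_apply, smul_eq_mul, ← h.mass i]
    unfold massR
    rw [Finset.mul_sum]
    exact Finset.sum_congr rfl fun l _ => by ring
  vac := by
    intro k i
    rw [vacR_smul]
    exact mul_nonneg ht (h.vac k i)

theorem EntR_smul {a : I → I → ℕ} {K : ℕ} {m : ℕ → I → ℝ} {y : I → ℝ}
    (h : Feas a K m y) {t : ℝ} (ht : 0 ≤ t) :
    EntR a K (fun l j => t * m l j) = t * EntR a K m := by
  unfold EntR
  rw [Finset.mul_sum]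
  refine Finset.sum_congr rfl fun k _ => ?_
  rw [Finset.mul_sum]
  refine Finset.sum_congr rfl fun i _ => ?_
  rw [vacR_smul]
  exact ent_smul ht (h.vac k i) (h.nn k i)

theorem Feas.EntR_nonneg {a : I → I → ℕ} {K : ℕ} {m : ℕ → I → ℝ} {y : I → ℝ}
    (h : Feas a K m y) : 0 ≤ EntR a K m := by
  unfold EntR
  exact Finset.sum_nonneg fun k _ => Finset.sum_nonneg fun i _ =>
    ent_nonneg (h.vac k i) (h.nn k i)

theorem Feas.vac_top {a : I → I → ℕ} {K : ℕ} {m : ℕ → I → ℝ} {y : I → ℝ}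
    (h : Feas a K m y) (k : ℕ) (hk : K ≤ k) (i : I) : vacR a K m k i = -cR a y i := by
  have e : massR K m = y := funext h.mass
  rw [← e, ← massR_sum_cR, ← Finset.sum_neg_distrib]
  unfold vacR
  refine Finset.sum_congr rfl fun l hl => ?_
  rw [Finset.mem_Icc] at hl
  rw [min_eq_right (by omega)]
  ring

theorem Feas.kon {a : I → I → ℕ} {K : ℕ} {m : ℕ → I → ℝ} {y : I → ℝ}
    (h : Feas a K m y) : Kon a y := by
  refine ⟨fun i => ?_, fun i => ?_⟩
  · rw [← h.mass i]
    unfold massR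
    exact Finset.sum_nonneg fun l _ => mul_nonneg (Nat.cast_nonneg _) (h.nn l i)
  · have h1 := h.vac_top K le_rfl i
    have h2 := h.vac K i
    linarith

theorem Feas.vac_le {a : I → I → ℕ} {K : ℕ} {m : ℕ → I → ℝ} {y : I → ℝ}
    (h : Feas a K m y) (k : ℕ) (i : I) : vacR a K m k i ≤ ∑ j, (a i j : ℝ) * y j := by
  have e : ∑ j, (a i j : ℝ) * y j = ∑ l ∈ Finset.Icc 1 K, (l : ℝ) * ∑ j, (a i j : ℝ) * m l j := by
    simp only [← h.mass, massR, Finset.mul_sum]
    rw [Finset.sum_comm]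
    refine Finset.sum_congr rfl fun l _ => Finset.sum_congr rfl fun j _ => ?_
    ring
  rw [e]
  unfold vacR
  refine Finset.sum_le_sum fun l _ => ?_
  have h1 := KH2_cR_neg_le a (m l) (h.nn l) i
  have h2 : 0 ≤ ∑ j, (a i j : ℝ) * m l j :=
    Finset.sum_nonneg fun j _ => mul_nonneg (Nat.cast_nonneg _) (h.nn l j)
  have h3 : ((min k l : ℕ) : ℝ) ≤ l := by exact_mod_cast min_le_right k l
  calc ((min k l : ℕ) : ℝ) * (-cR a (m l) i) ≤ ((min k l : ℕ) : ℝ) * ∑ j, (a i j : ℝ) * m l j :=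
        mul_le_mul_of_nonneg_left h1 (Nat.cast_nonneg _)
    _ ≤ (l : ℝ) * ∑ j, (a i j : ℝ) * m l j := mul_le_mul_of_nonneg_right h3 h2

/-- all parts of size one. -/
theorem Feas.one {a : I → I → ℕ} {y : I → ℝ} (hy : Kon a y) :
    Feas a 1 (fun l i => if l = 1 then y i else 0) y where
  nn := by
    intro l i
    show 0 ≤ if l = 1 then y i else 0
    split_ifs
    · exact hy.1 i
    · exact le_rfl
  out := by
    intro l i hl
    show (if l = 1 then y i else 0) = 0
    rw [if_neg (by omega)]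
  mass := by
    intro i
    unfold massR
    simp
  vac := by
    intro k i
    unfold vacR
    rw [Finset.Icc_self, Finset.sum_singleton]
    refine mul_nonneg (Nat.cast_nonneg _) ?_
    have e : (fun (l : ℕ) (i : I) => if l = 1 then y i else 0) 1 = y := by
      funext i
      simp
    rw [e]
    have := hy.2 i
    linarith

theorem Feas.tail {a : I → I → ℕ} {K : ℕ} {m : ℕ → I → ℝ} {y : I → ℝ}
    (h : Feas a K m y) {x : ℝ} (h0 : 0 < x) (h1 : x < 1) (L : ℕ) :
    ∑ k ∈ Finset.Icc (L + 1) K, ∑ i, ent (vacR a K m k i) (m k i) ≤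
      (∑ i, y i) * (-Real.log x) +
        (∑ i, ∑ j, (a i j : ℝ) * y j) * (x ^ (L + 1) / (1 - x) ^ 2) := by
  have hlog : 0 ≤ -Real.log x := by
    have := Real.log_nonpos h0.le h1.le
    linarith
  have h1x : 0 < 1 - x := by linarith
  have hy := h.kon
  have hB : ∀ i, 0 ≤ ∑ j, (a i j : ℝ) * y j := fun i =>
    Finset.sum_nonneg fun j _ => mul_nonneg (Nat.cast_nonneg _) (hy.1 j)
  have hterm : ∀ k ∈ Finset.Icc (L + 1) K, ∀ i ∈ (Finset.univ : Finset I),
      ent (vacR a K m k i) (m k i) ≤ (k : ℝ) * m k i * (-Real.log x) +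
        (∑ j, (a i j : ℝ) * y j) * (x ^ k / (1 - x)) := by
    intro k hk i _
    rw [Finset.mem_Icc] at hk
    have hk1 : k ≠ 0 := by omega
    have hx0 : 0 < x ^ k := pow_pos h0 k
    have hx1 : x ^ k < 1 := pow_lt_one₀ h0.le h1 hk1
    have hxx : x ^ k ≤ x := by
      calc x ^ k ≤ x ^ 1 := pow_le_pow_of_le_one h0.le h1.le (by omega)
        _ = x := pow_one x
    have hd := ent_dual (h.vac k i) (h.nn k i) hx0 hx1
    rw [Real.log_pow] at hd
    have hl : -Real.log (1 - x ^ k) ≤ x ^ k / (1 - x) := by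
      have hpos : 0 < 1 - x ^ k := by linarith
      have h2 := Real.one_sub_inv_le_log_of_pos hpos
      have h3 : (1 - x ^ k)⁻¹ - 1 = x ^ k / (1 - x ^ k) := by field_simp; ring
      have h4 : x ^ k / (1 - x ^ k) ≤ x ^ k / (1 - x) :=
        div_le_div_of_nonneg_left hx0.le h1x (by linarith)
      linarith
    have hl0 : 0 ≤ x ^ k / (1 - x) := by positivity
    have hv := h.vac_le k i
    have hv0 := h.vac k i
    have h5 : vacR a K m k i * (-Real.log (1 - x ^ k)) ≤
        (∑ j, (a i j : ℝ) * y j) * (x ^ k / (1 - x)) :=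
      (mul_le_mul_of_nonneg_left hl hv0).trans (mul_le_mul_of_nonneg_right hv hl0)
    calc ent (vacR a K m k i) (m k i) ≤
          -(m k i * (k * Real.log x)) - vacR a K m k i * Real.log (1 - x ^ k) := hd
      _ = (k : ℝ) * m k i * (-Real.log x) + vacR a K m k i * (-Real.log (1 - x ^ k)) := by ring
      _ ≤ _ := by linarith
  have hs := Finset.sum_le_sum fun k hk => Finset.sum_le_sum (hterm k hk)
  refine hs.trans ?_
  have e1 : ∑ k ∈ Finset.Icc (L + 1) K, ∑ i, ((k : ℝ) * m k i * (-Real.log x) +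
        (∑ j, (a i j : ℝ) * y j) * (x ^ k / (1 - x))) =
      (∑ i, ∑ k ∈ Finset.Icc (L + 1) K, (k : ℝ) * m k i) * (-Real.log x) +
        (∑ i, ∑ j, (a i j : ℝ) * y j) * ((∑ k ∈ Finset.Icc (L + 1) K, x ^ k) / (1 - x)) := by
    simp only [Finset.sum_add_distrib]
    congr 1
    · rw [Finset.sum_comm, Finset.sum_mul]
      exact Finset.sum_congr rfl fun i _ => by rw [Finset.sum_mul]
    · rw [Finset.sum_div, Finset.mul_sum]
      exact Finset.sum_congr rfl fun k _ => by rw [Finset.sum_mul]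
  rw [e1]
  refine add_le_add ?_ ?_
  · refine mul_le_mul_of_nonneg_right (Finset.sum_le_sum fun i _ => ?_) hlog
    rw [← h.mass i]
    unfold massR
    refine Finset.sum_le_sum_of_subset_of_nonneg ?_ ?_
    · intro k hk
      rw [Finset.mem_Icc] at hk ⊢
      omega
    · intro k _ _
      exact mul_nonneg (Nat.cast_nonneg _) (h.nn k i)
  · refine mul_le_mul_of_nonneg_left ?_ (Finset.sum_nonneg fun i _ => hB i)
    have e2 : Finset.Icc (L + 1) K = Finset.Ico (L + 1) (K + 1) := by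
      ext k
      rw [Finset.mem_Icc, Finset.mem_Ico]
      omega
    have hg : ∑ k ∈ Finset.Icc (L + 1) K, x ^ k ≤ x ^ (L + 1) / (1 - x) := by
      rw [e2]
      exact geom_sum_Ico_le_of_lt_one h0.le h1
    calc (∑ k ∈ Finset.Icc (L + 1) K, x ^ k) / (1 - x) ≤ x ^ (L + 1) / (1 - x) / (1 - x) :=
          div_le_div_of_nonneg_right hg h1x.le
      _ = x ^ (L + 1) / (1 - x) ^ 2 := by rw [div_div, sq]

end Pool.Agent.H27.KAC
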