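import Pool.Agent.H27.KAC.KH2

/-!
KAC module KH3: the growth function `PhiR` on the real cone: boundedness, superadditivity, homogeneity, lower
semicontinuity.

* bounded: `Feas.tail` with `L = 0`, `x = 1/2`.
* `PhiR_add`: `exists_Feas_lt` for both, `Feas.enlarge` to a common `K`, `Feas.add`, `EntR_add`.
* `PhiR_smul`: for `t > 0` apply `Feas.smul` with `t` and `1/t`; for `t = 0`: a feasible multipartition of `0` is zero on
  `1..K`, so its entropy is zero.
* `PhiR_lsc`: choose `0 < η ≤ 1` with `η * PhiR a y ≤ ε`.  For `z ∈ Kon` close to `y` the vector `z - (1 - η) y` is in `Kon`: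
  if `y i = 0` then `z i ≥ 0`; if `y i > 0` it is close to `η y i > 0`; if `cR a y i = 0` then `cR a z i ≤ 0`; if
  `cR a y i < 0` it is close to `η cR a y i < 0`.  Then `PhiR a z ≥ PhiR a ((1 - η) y) + 0`.
-/

set_option autoImplicit false

namespace Pool.Agent.H27.KAC

open scoped BigOperators

variable {I : Type} [Fintype I] [DecidableEq I]

theorem PhiR_bdd (a : I → I → ℕ) (y : I → ℝ) :
    BddAbove {x : ℝ | ∃ (K : ℕ) (m : ℕ → I → ℝ), Feas a K m y ∧ x = EntR a K m} := by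
  refine ⟨(∑ i, y i) * (-Real.log (1 / 2 : ℝ)) +
    (∑ i, ∑ j, (a i j : ℝ) * y j) * ((1 / 2 : ℝ) ^ (0 + 1) / (1 - 1 / 2 : ℝ) ^ 2), ?_⟩
  rintro x ⟨K, m, h, rfl⟩
  exact h.tail (by norm_num) (by norm_num) 0

theorem le_PhiR {a : I → I → ℕ} {K : ℕ} {m : ℕ → I → ℝ} {y : I → ℝ} (h : Feas a K m y) :
    EntR a K m ≤ PhiR a y := by
  exact le_csSup (PhiR_bdd a y) ⟨K, m, h, rfl⟩

theorem PhiR_nonneg {a : I → I → ℕ} {y : I → ℝ} (hy : Kon a y) : 0 ≤ PhiR a y := by
  exact (Feas.one hy).EntR_nonneg.trans (le_PhiR (Feas.one hy))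

theorem PhiR_le {a : I → I → ℕ} {y : I → ℝ} (hy : Kon a y) {b : ℝ}
    (h : ∀ (K : ℕ) (m : ℕ → I → ℝ), Feas a K m y → EntR a K m ≤ b) : PhiR a y ≤ b := by
  refine csSup_le ⟨_, 1, _, Feas.one hy, rfl⟩ ?_
  rintro x ⟨K, m, h1, rfl⟩
  exact h K m h1

theorem exists_Feas_lt {a : I → I → ℕ} {y : I → ℝ} (hy : Kon a y) {b : ℝ} (hb : b < PhiR a y) :
    ∃ (K : ℕ) (m : ℕ → I → ℝ), Feas a K m y ∧ b < EntR a K m := by
  obtain ⟨x, ⟨K, m, h1, rfl⟩, h2⟩ := exists_lt_of_lt_csSup
    (⟨_, 1, _, Feas.one hy, rfl⟩ :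
      {x : ℝ | ∃ (K : ℕ) (m : ℕ → I → ℝ), Feas a K m y ∧ x = EntR a K m}.Nonempty) hb
  exact ⟨K, m, h1, h2⟩

theorem Kon.add {a : I → I → ℕ} {y y' : I → ℝ} (hy : Kon a y) (hy' : Kon a y') :
    Kon a (y + y') := by
  refine ⟨fun i => add_nonneg (hy.1 i) (hy'.1 i), fun i => ?_⟩
  rw [cR_add]
  have h1 := hy.2 i
  have h2 := hy'.2 i
  linarith

theorem Kon.smul {a : I → I → ℕ} {y : I → ℝ} (hy : Kon a y) {t : ℝ} (ht : 0 ≤ t) :
    Kon a (t • y) := by
  refine ⟨fun i => mul_nonneg ht (hy.1 i), fun i => ?_⟩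
  rw [cR_smul]
  exact mul_nonpos_of_nonneg_of_nonpos ht (hy.2 i)

private theorem KH3_cont (a : I → I → ℕ) (i : I) : Continuous fun y : I → ℝ => cR a y i := by
  unfold cR
  exact continuous_finset_sum _ fun j _ => continuous_const.mul (continuous_apply j)

theorem Kon_closed (a : I → I → ℕ) : IsClosed {y : I → ℝ | Kon a y} := by
  have h1 : {y : I → ℝ | Kon a y} = (⋂ i, {y : I → ℝ | 0 ≤ y i}) ∩ ⋂ i, {y : I → ℝ | cR a y i ≤ 0} := by
    ext y
    simp only [Kon, Set.mem_setOf_eq, Set.mem_inter_iff, Set.mem_iInter]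
  rw [h1]
  refine (isClosed_iInter fun i => isClosed_le continuous_const (continuous_apply i)).inter
    (isClosed_iInter fun i => isClosed_le (KH3_cont a i) continuous_const)

theorem PhiR_add {a : I → I → ℕ} {y y' : I → ℝ} (hy : Kon a y) (hy' : Kon a y') :
    PhiR a y + PhiR a y' ≤ PhiR a (y + y') := by
  refine le_of_forall_pos_le_add fun ε hε => ?_
  obtain ⟨K, m, h1, h2⟩ := exists_Feas_lt hy (b := PhiR a y - ε / 2) (by linarith)
  obtain ⟨K', m', h1', h2'⟩ := exists_Feas_lt hy' (b := PhiR a y' - ε / 2) (by linarith)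
  have h3 := h1.enlarge (le_max_left K K')
  have h3' := h1'.enlarge (le_max_right K K')
  have h4 := EntR_add h3 h3'
  have h5 := le_PhiR (h3.add h3')
  rw [EntR_enlarge h1 (le_max_left K K'), EntR_enlarge h1' (le_max_right K K')] at h4
  linarith

theorem PhiR_zero (a : I → I → ℕ) : PhiR a (0 : I → ℝ) = 0 := by
  have hK : Kon a (0 : I → ℝ) := by
    refine ⟨fun i => le_rfl, fun i => ?_⟩
    simp [cR]
  refine le_antisymm (PhiR_le hK fun K m h => ?_) (PhiR_nonneg hK)
  have h1 : ∀ k ∈ Finset.Icc 1 K, ∀ i, m k i = 0 := by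
    intro k hk i
    have h2 := h.mass i
    unfold massR at h2
    have h3 : ∀ l ∈ Finset.Icc 1 K, 0 ≤ (l : ℝ) * m l i :=
      fun l _ => mul_nonneg (Nat.cast_nonneg l) (h.nn l i)
    have h4 := (Finset.sum_eq_zero_iff_of_nonneg h3).1 h2 k hk
    have h5 : (k : ℝ) ≠ 0 := by
      have := (Finset.mem_Icc.1 hk).1
      positivity
    exact (mul_eq_zero.1 h4).resolve_left h5
  unfold EntR
  refine le_of_eq (Finset.sum_eq_zero fun k hk => Finset.sum_eq_zero fun i _ => ?_)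
  rw [h1 k hk i, ent_zero_right]

private theorem KH3_smul_le {a : I → I → ℕ} {y : I → ℝ} (hy : Kon a y) {t : ℝ} (ht : 0 < t) :
    t * PhiR a y ≤ PhiR a (t • y) := by
  have h1 : PhiR a y ≤ PhiR a (t • y) / t := by
    refine PhiR_le hy fun K m h => ?_
    rw [le_div_iff₀ ht, mul_comm, ← EntR_smul h ht.le]
    exact le_PhiR (h.smul ht.le)
  rw [le_div_iff₀ ht] at h1
  linarith

theorem PhiR_smul {a : I → I → ℕ} {y : I → ℝ} (hy : Kon a y) {t : ℝ} (ht : 0 ≤ t) :
    PhiR a (t • y) = t * PhiR a y := by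
  rcases ht.eq_or_lt with rfl | h0
  · rw [zero_smul, PhiR_zero, zero_mul]
  · refine le_antisymm ?_ (KH3_smul_le hy h0)
    have h1 := KH3_smul_le (hy.smul ht) (inv_pos.2 h0)
    rw [inv_smul_smul₀ h0.ne', inv_mul_le_iff₀ h0] at h1
    exact h1

theorem PhiR_lsc (a : I → I → ℕ) (y : I → ℝ) (hy : Kon a y) (ε : ℝ) (hε : 0 < ε) :
    ∃ δ : ℝ, 0 < δ ∧ ∀ z : I → ℝ, Kon a z → dist z y < δ → PhiR a y - ε ≤ PhiR a z := by
  have hΦ := PhiR_nonneg hy
  obtain ⟨η, hη0, hη1, hη⟩ : ∃ η : ℝ, 0 < η ∧ η ≤ 1 ∧ η * PhiR a y ≤ ε := by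
    refine ⟨min 1 (ε / (PhiR a y + 1)), lt_min one_pos (by positivity), min_le_left _ _, ?_⟩
    calc min 1 (ε / (PhiR a y + 1)) * PhiR a y ≤ (ε / (PhiR a y + 1)) * PhiR a y :=
          mul_le_mul_of_nonneg_right (min_le_right _ _) hΦ
      _ ≤ (ε / (PhiR a y + 1)) * (PhiR a y + 1) := by
          apply mul_le_mul_of_nonneg_left (by linarith) (by positivity)
      _ = ε := by field_simp
  have h1 : ∀ᶠ z in nhds y, ∀ i, (0 < y i → (1 - η) * y i < z i) ∧
      (cR a y i < 0 → cR a z i < (1 - η) * cR a y i) := by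
    refine Filter.eventually_all.2 fun i => ?_
    refine Filter.Eventually.and ?_ ?_
    · by_cases h : 0 < y i
      · have h2 : (1 - η) * y i < y i := by nlinarith
        have h3 : ∀ᶠ z in nhds y, (1 - η) * y i < z i :=
          (continuous_apply i).tendsto y |>.eventually_const_lt h2
        filter_upwards [h3] with z hz
        exact fun _ => hz
      · exact Filter.Eventually.of_forall fun z h' => absurd h' h
    · by_cases h : cR a y i < 0
      · have h2 : cR a y i < (1 - η) * cR a y i := by nlinarith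
        have h3 : ∀ᶠ z in nhds y, cR a z i < (1 - η) * cR a y i :=
          (KH3_cont a i).tendsto y |>.eventually_lt_const h2
        filter_upwards [h3] with z hz
        exact fun _ => hz
      · exact Filter.Eventually.of_forall fun z h' => absurd h' h
  obtain ⟨δ, hδ, h2⟩ := Metric.eventually_nhds_iff.1 h1
  refine ⟨δ, hδ, fun z hz hzy => ?_⟩
  have h3 := h2 hzy
  have h4 : Kon a (z - (1 - η) • y) := by
    refine ⟨fun i => ?_, fun i => ?_⟩
    · show 0 ≤ z i - (1 - η) * y i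
      rcases (hy.1 i).eq_or_lt with h | h
      · rw [← h, mul_zero, sub_zero]
        exact hz.1 i
      · have := (h3 i).1 h
        linarith
    · rw [cR_sub, cR_smul]
      rcases (hy.2 i).eq_or_lt with h | h
      · rw [h, mul_zero, sub_zero]
        exact hz.2 i
      · have := (h3 i).2 h
        linarith
  have h5 := PhiR_add (hy.smul (t := 1 - η) (by linarith)) h4
  have h6 : (1 - η) • y + (z - (1 - η) • y) = z := by abel
  rw [h6, PhiR_smul hy (by linarith)] at h5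
  have h7 := PhiR_nonneg h4
  have h8 : (1 - η) * PhiR a y = PhiR a y - η * PhiR a y := by ring
  linarith

end Pool.Agent.H27.KAC
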