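import Pool.Agent.H27.KAC.KH2

/-!
KAC module KH4: strict feasibility data for every vector `y` of the real cone (arbitrary symmetric matrix, even diagonal
or at least without entries 1 on the diagonal).

PROOF.  `supp = {i | 0 < y i}`.  `D` = the set of `i ∈ supp` such that `cR a y j = 0` for all `j` reachable from `i` in `supp`
(`Relation.ReflTransGen (fun i j => 0 < a i j ∧ 0 < y j)`).  `Dsep` is clear.  `B` = the set of `i ∈ supp`, `i ∉ D`,
`cR a y i = 0`.  If `i ∈ supp`, `cR a y i = 0` and `a i i ≠ 0` then `a i i = 2` and `i` has no other neighbour in `supp`, so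
`i ∈ D`; hence `a i i = 0` on `B`.
Consider the vectors `u` with `u > 0` on `B`, `u = 0` outside `B`, `cR a u i ≥ 0` for `i ∈ B`.  Example: `u = y` on `B`
(`cR a u i = cR a y i + ∑_(j ∉ B) a i j y j ≥ 0`).  Choose `u` such that `T = {i ∈ B | cR a u i > 0}` has maximal cardinality.
Suppose `Z = B \ T` is not empty.
(i) There are `i ∈ Z`, `j ∈ T` with `a i j > 0`: replace `u` by `u - ε e_j`; `cR a u l` increases by `ε a l j` for `l ≠ j`, and
`cR a u j` decreases by `2 ε`; `u j > 0` since `u > 0` on `B`; for small `ε` the new `T` contains the old `T` and `i`.  Contradiction.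
(ii) Otherwise `Z` and `T` are not adjacent.  Let `z` = `u` restricted to `Z`; `cR a z = 0` on `Z`.  With `v` = `y` restricted to `B`:
`∑_(i ∈ Z) u i * cR a v i = ∑ z i * cR a v i = ∑ v i * cR a z i = ∑_(i ∈ Z) + ∑_(i ∈ T) = 0` (for `i ∈ T` `cR a z i = 0` by
nonadjacency).  As `cR a v i ≥ 0`, `u i > 0` on `Z`, we get `cR a v i = 0` for `i ∈ Z`, so
`∑_(j ∈ supp, j ∉ B) a i j y j = 0`: the elements of `Z` have no neighbours in `supp` outside `B`, nor in `T`; so all vertices
reachable from `Z` are in `Z`, where `cR a y = 0`: `Z ⊆ D`, contradiction.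
-/

set_option autoImplicit false

namespace Pool.Agent.H27.KAC

open scoped BigOperators

variable {I : Type} [Fintype I] [DecidableEq I]

private theorem KH4_cR_eq (a : I → I → ℕ) (x : I → ℝ) (i : I) :
    cR a x i = 2 * x i - ∑ j, (a i j : ℝ) * x j := by
  unfold cR cart
  have h : ∀ j, (((if i = j then (2 : ℤ) else 0) - (a i j : ℤ) : ℤ) : ℝ) * x j =
      (if i = j then 2 * x j else 0) - (a i j : ℝ) * x j := by
    intro j
    split_ifs with hij
    · push_cast; ring
    · push_cast; ring
  rw [Finset.sum_congr rfl fun j _ => h j, Finset.sum_sub_distrib]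
  simp

private theorem KH4_restrict (a : I → I → ℕ) (y : I → ℝ) (B : Finset I) (i : I) (hi : i ∈ B) :
    cR a (fun j => if j ∈ B then y j else 0) i =
      cR a y i + ∑ j, (a i j : ℝ) * (if j ∈ B then 0 else y j) := by
  rw [KH4_cR_eq, KH4_cR_eq]
  have h : ∑ j, (a i j : ℝ) * y j = ∑ j, (a i j : ℝ) * (if j ∈ B then y j else 0) +
      ∑ j, (a i j : ℝ) * (if j ∈ B then 0 else y j) := by
    rw [← Finset.sum_add_distrib]
    refine Finset.sum_congr rfl fun j _ => ?_
    split_ifs <;> ring
  simp only [hi, if_true]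
  rw [h]
  ring

/-- the step: from a good `u` with a nonempty zero set get one with a smaller zero set. -/
private theorem KH4_step (a : I → I → ℕ) (hs : ∀ i j, a i j = a j i)
    (y : I → ℝ) (hy : Kon a y) (B : Finset I)
    (hB0 : ∀ i ∈ B, cR a y i = 0)
    (hBr : ∀ Z : Finset I, Z ⊆ B → (∀ i ∈ Z, ∀ j, 0 < a i j → 0 < y j → j ∈ Z) → Z = ∅)
    (u : I → ℝ) (h1 : ∀ i ∈ B, 0 < u i) (h2 : ∀ i, i ∉ B → u i = 0)
    (h3 : ∀ i ∈ B, 0 ≤ cR a u i) (hne : (B.filter (fun i => cR a u i = 0)).Nonempty) :
    ∃ u' : I → ℝ, (∀ i ∈ B, 0 < u' i) ∧ (∀ i, i ∉ B → u' i = 0) ∧ (∀ i ∈ B, 0 ≤ cR a u' i) ∧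
      (B.filter (fun i => cR a u' i = 0)).card < (B.filter (fun i => cR a u i = 0)).card := by
  classical
  by_cases hadj : ∃ i ∈ B, cR a u i = 0 ∧ ∃ j ∈ B, cR a u j ≠ 0 ∧ 0 < a i j
  · -- case (i)
    obtain ⟨i, hiB, hi0, j, hjB, hj0, haij⟩ := hadj
    have hjpos : 0 < cR a u j := lt_of_le_of_ne (h3 j hjB) (Ne.symm hj0)
    have huj := h1 j hjB
    obtain ⟨ε, hε, hε1, hε2⟩ : ∃ ε : ℝ, 0 < ε ∧ ε < u j ∧ 2 * ε < cR a u j := by
      refine ⟨min (u j / 2) (cR a u j / 4), by positivity, ?_, ?_⟩
      · exact lt_of_le_of_lt (min_le_left _ _) (by linarith)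
      · have := min_le_right (u j / 2) (cR a u j / 4)
        linarith
    have hcr : ∀ l, cR a (fun k => u k - (if k = j then ε else 0)) l =
        cR a u l - 2 * (if l = j then ε else 0) + (a l j : ℝ) * ε := by
      intro l
      rw [KH4_cR_eq, KH4_cR_eq]
      have : ∑ k, (a l k : ℝ) * (u k - (if k = j then ε else 0)) =
          ∑ k, (a l k : ℝ) * u k - (a l j : ℝ) * ε := by
        simp [mul_sub, Finset.sum_sub_distrib]
      rw [this]
      ring
    have hij : i ≠ j := by
      rintro rfl
      exact hj0 hi0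
    refine ⟨fun k => u k - (if k = j then ε else 0), ?_, ?_, ?_, ?_⟩
    · intro k hk
      by_cases hkj : k = j
      · subst hkj
        simp only [if_true]
        linarith
      · simp only [hkj, if_false, sub_zero]
        exact h1 k hk
    · intro k hk
      have hkj : k ≠ j := by
        rintro rfl
        exact hk hjB
      simp only [hkj, if_false, sub_zero]
      exact h2 k hk
    · intro k hk
      rw [hcr]
      have hak : (0 : ℝ) ≤ (a k j : ℝ) * ε := by positivity
      by_cases hkj : k = j
      · subst hkj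
        simp only [if_true]
        linarith
      · simp only [hkj, if_false, mul_zero, sub_zero]
        have := h3 k hk
        linarith
    · apply Finset.card_lt_card
      rw [Finset.ssubset_iff_of_subset]
      · refine ⟨i, ?_, ?_⟩
        · simp [hiB, hi0]
        · intro hmem
          rw [Finset.mem_filter] at hmem
          have h := hmem.2
          rw [hcr, hi0] at h
          simp only [hij, if_false, mul_zero, sub_zero, zero_add] at h
          have : (0 : ℝ) < (a i j : ℝ) * ε := by
            have : (0 : ℝ) < (a i j : ℝ) := by exact_mod_cast haij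
            positivity
          linarith
      · intro k hk
        rw [Finset.mem_filter] at hk ⊢
        refine ⟨hk.1, ?_⟩
        have h := hk.2
        rw [hcr] at h
        have hak : (0 : ℝ) ≤ (a k j : ℝ) * ε := by positivity
        by_cases hkj : k = j
        · subst hkj
          simp only [if_true] at h
          linarith
        · simp only [hkj, if_false, mul_zero, sub_zero] at h
          have := h3 k hk.1
          linarith
  · -- case (ii)
    exfalso
    set Z : Finset I := B.filter (fun i => cR a u i = 0) with hZ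
    have hZB : Z ⊆ B := Finset.filter_subset _ _
    have hZmem : ∀ i, i ∈ Z ↔ i ∈ B ∧ cR a u i = 0 := fun i => by rw [hZ, Finset.mem_filter]
    have hna : ∀ i ∈ Z, ∀ j ∈ B, j ∉ Z → a i j = 0 := by
      intro i hi j hj hjZ
      by_contra hc
      refine hadj ⟨i, hZB hi, ((hZmem i).1 hi).2, j, hj, ?_, Nat.pos_of_ne_zero hc⟩
      intro h0
      exact hjZ ((hZmem j).2 ⟨hj, h0⟩)
    let z : I → ℝ := fun j => if j ∈ Z then u j else 0
    let v : I → ℝ := fun j => if j ∈ B then y j else 0
    have hz : ∀ i ∈ B, cR a z i = 0 := by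
      intro i hi
      by_cases hiZ : i ∈ Z
      · have h := KH4_restrict a u Z i hiZ
        have h0 : ∑ j, (a i j : ℝ) * (if j ∈ Z then 0 else u j) = 0 := by
          refine Finset.sum_eq_zero fun j _ => ?_
          split_ifs with hjZ
          · simp
          · by_cases hjB : j ∈ B
            · rw [hna i hiZ j hjB hjZ]
              simp
            · rw [h2 j hjB]
              simp
        rw [h0, ((hZmem i).1 hiZ).2, add_zero] at h
        exact h
      · rw [KH4_cR_eq]
        have hzi : z i = 0 := by simp [z, hiZ]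
        rw [hzi]
        have : ∑ j, (a i j : ℝ) * z j = 0 := by
          refine Finset.sum_eq_zero fun j _ => ?_
          by_cases hjZ : j ∈ Z
          · rw [hs i j, hna j hjZ i hi hiZ]
            simp
          · simp [z, hjZ]
        rw [this]
        simp
    have hsum : ∑ i, z i * cR a v i = 0 := by
      rw [cR_symm a hs z v]
      refine Finset.sum_eq_zero fun i _ => ?_
      by_cases hi : i ∈ B
      · rw [hz i hi, mul_zero]
      · simp [v, hi]
    have hv : ∀ i ∈ B, cR a v i = ∑ j, (a i j : ℝ) * (if j ∈ B then 0 else y j) := by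
      intro i hi
      have h := KH4_restrict a y B i hi
      rw [hB0 i hi, zero_add] at h
      exact h
    have hvnn : ∀ i ∈ B, 0 ≤ cR a v i := by
      intro i hi
      rw [hv i hi]
      refine Finset.sum_nonneg fun j _ => ?_
      split_ifs
      · simp
      · exact mul_nonneg (Nat.cast_nonneg _) (hy.1 j)
    have hterm : ∀ i ∈ Finset.univ, z i * cR a v i = 0 := by
      rw [Finset.sum_eq_zero_iff_of_nonneg] at hsum
      · exact hsum
      · intro i _
        by_cases hiZ : i ∈ Z
        · refine mul_nonneg ?_ (hvnn i (hZB hiZ))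
          simp only [z, hiZ, if_true]
          exact (h1 i (hZB hiZ)).le
        · simp [z, hiZ]
    have hvZ : ∀ i ∈ Z, ∀ j, j ∉ B → 0 < y j → a i j = 0 := by
      intro i hi j hj hyj
      have h := hterm i (Finset.mem_univ i)
      have hzi : z i = u i := by simp [z, hi]
      rw [hzi, mul_eq_zero] at h
      rcases h with h | h
      · exact absurd h (h1 i (hZB hi)).ne'
      · rw [hv i (hZB hi), Finset.sum_eq_zero_iff_of_nonneg] at h
        · have h' := h j (Finset.mem_univ j)
          simp only [hj, if_false] at h'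
          rw [mul_eq_zero] at h'
          rcases h' with h' | h'
          · exact_mod_cast h'
          · exact absurd h' hyj.ne'
        · intro k _
          split_ifs
          · simp
          · exact mul_nonneg (Nat.cast_nonneg _) (hy.1 k)
    have hZe : Z = ∅ := by
      refine hBr Z hZB fun i hi j haij hyj => ?_
      by_contra hjZ
      by_cases hjB : j ∈ B
      · rw [hna i hi j hjB hjZ] at haij
        exact absurd haij (lt_irrefl 0)
      · rw [hvZ i hi j hjB hyj] at haij
        exact absurd haij (lt_irrefl 0)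
    rw [hZe] at hne
    exact Finset.not_nonempty_empty hne

theorem strict_exists (a : I → I → ℕ) (hs : ∀ i j, a i j = a j i) (hd : ∀ i, a i i ≠ 1)
    (y : I → ℝ) (hy : Kon a y) : ∃ (D : Finset I) (u : I → ℝ), StrictData a y D u := by
  classical
  let R : I → I → Prop := fun p q => 0 < a p q ∧ 0 < y q
  let D : Finset I := Finset.univ.filter
    (fun i => 0 < y i ∧ ∀ j, Relation.ReflTransGen R i j → cR a y j = 0)
  have hDmem : ∀ i, i ∈ D ↔ 0 < y i ∧ ∀ j, Relation.ReflTransGen R i j → cR a y j = 0 := by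
    intro i
    simp [D]
  have hDclosed : ∀ i ∈ D, ∀ j, 0 < a i j → 0 < y j → j ∈ D := by
    intro i hi j haij hyj
    rw [hDmem] at hi ⊢
    exact ⟨hyj, fun k hk => hi.2 k (Relation.ReflTransGen.head ⟨haij, hyj⟩ hk)⟩
  let B : Finset I := Finset.univ.filter (fun i => 0 < y i ∧ i ∉ D ∧ cR a y i = 0)
  have hBmem : ∀ i, i ∈ B ↔ 0 < y i ∧ i ∉ D ∧ cR a y i = 0 := by
    intro i
    simp [B]
  have hBr : ∀ Z : Finset I, Z ⊆ B → (∀ i ∈ Z, ∀ j, 0 < a i j → 0 < y j → j ∈ Z) → Z = ∅ := by
    intro Z hZB hZc
    by_contra hne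
    obtain ⟨i, hi⟩ := Finset.nonempty_iff_ne_empty.2 hne
    have hiB := (hBmem i).1 (hZB hi)
    apply hiB.2.1
    rw [hDmem]
    refine ⟨hiB.1, fun j hj => ?_⟩
    have hjZ : j ∈ Z := by
      induction hj with
      | refl => exact hi
      | tail _ hbc ih =>
        have hbc' : 0 < a _ _ ∧ 0 < y _ := hbc
        exact hZc _ ih _ hbc'.1 hbc'.2
    exact ((hBmem j).1 (hZB hjZ)).2.2
  have hBy : ∀ i ∈ B, 0 < y i := fun i hi => ((hBmem i).1 hi).1
  have hB0 : ∀ i ∈ B, cR a y i = 0 := fun i hi => ((hBmem i).1 hi).2.2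
  have key : ∀ n : ℕ, ∀ u : I → ℝ, (∀ i ∈ B, 0 < u i) → (∀ i, i ∉ B → u i = 0) →
      (∀ i ∈ B, 0 ≤ cR a u i) → (B.filter (fun i => cR a u i = 0)).card = n →
      ∃ u' : I → ℝ, (∀ i ∈ B, 0 < u' i) ∧ (∀ i, i ∉ B → u' i = 0) ∧
        (∀ i ∈ B, 0 < cR a u' i) := by
    intro n
    induction n using Nat.strong_induction_on with
    | _ n ih =>
      intro u h1 h2 h3 hn
      by_cases hne : (B.filter (fun i => cR a u i = 0)).Nonempty
      · obtain ⟨u', g1, g2, g3, g4⟩ := KH4_step a hs y hy B hB0 hBr u h1 h2 h3 hne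
        rw [hn] at g4
        exact ih _ g4 u' g1 g2 g3 rfl
      · refine ⟨u, h1, h2, fun i hi => lt_of_le_of_ne (h3 i hi) fun h0 => hne ⟨i, ?_⟩⟩
        rw [Finset.mem_filter]
        exact ⟨hi, h0.symm⟩
  obtain ⟨u, g1, g2, g3⟩ := key _ (fun j => if j ∈ B then y j else 0)
    (fun i hi => by
      simp only [hi, if_true]
      exact hBy i hi)
    (fun i hi => by simp [hi])
    (fun i hi => by
      rw [KH4_restrict a y B i hi, hB0 i hi, zero_add]
      refine Finset.sum_nonneg fun j _ => ?_
      split_ifs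
      · simp
      · exact mul_nonneg (Nat.cast_nonneg _) (hy.1 j))
    rfl
  refine ⟨D, u, ?_, ?_, ?_, ?_, ?_, ?_, ?_⟩
  · exact fun i hi => ((hDmem i).1 hi).1
  · exact fun i hi => ((hDmem i).1 hi).2 i Relation.ReflTransGen.refl
  · intro i hi j hj hyj
    by_contra hc
    exact hj (hDclosed i hi j (Nat.pos_of_ne_zero hc) hyj)
  · intro i
    by_cases hi : i ∈ B
    · exact (g1 i hi).le
    · exact (g2 i hi).ge
  · intro i hi
    apply g2
    intro hiB
    exact absurd (hBy i hiB) (by rw [hi]; exact lt_irrefl 0)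
  · intro i hi
    apply g2
    intro hiB
    exact ((hBmem i).1 hiB).2.1 hi
  · intro i hiD hyi hi0
    exact g3 i ((hBmem i).2 ⟨hyi, hiD, hi0⟩)

end Pool.Agent.H27.KAC
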