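import Pool.Agent.H27.KAC.KH2

/-!
KAC module KH5: limits of multipartitions along an ultrafilter.

PROOF.  Fix an ultrafilter `U ≤ atTop` on the natural numbers (`Filter.hyperfilter`).  All `m n l i` (`l ≥ 1`) are in `[0, M]`, and
all vacancy numbers are in `[0, M']` (`Feas.mass`, `Feas.vac_le`, `z` is bounded), so `m' k i = lim_U (m n k i)` and
`P k i = lim_U (vacR a (K n) (m n) k i)` exist (compactness of closed intervals; `m' 0 i = 0`, or any value `≥ 0`).
* `mass`: `massR L (m n) i ≤ z n i` for all `L` (`out` for `l > K n`).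
* `rel`: for `1 ≤ k ≤ L` and `K n` replaced by any larger number:
  `vacR a (K n) (m n) k i = vacR a L (m n) k i - k * cR a (b n) i`, `b n j = ∑_(l > L) m n l j`, and for every `L' > L`
  `b n j ≤ ∑_(L < l ≤ L') m n l j + z n j / L'`, so in the limit `|P k i - vacR a L m' k i| ≤ c L (∑_(L < l ≤ L') ∑_j m' l j + c'/L')`
  for all `L'`, hence `≤ c ∑_j ∑_(l > L) l m' l j` (let `L'` tend to infinity), which tends to zero as `L → ∞`, because
  `∑_l l m' l j` converges by `mass`.
* entropy: `ent` is continuous, so `∑_(k ≤ L) ∑_i ent` converges along `U` for fixed `L`, and the tails `k > L` are uniformly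
  small by `Feas.tail` (first choose `x` close to 1, then `L0`).
-/

set_option autoImplicit false

namespace Pool.Agent.H27.KAC

open scoped BigOperators
open Filter Topology

variable {I : Type} [Fintype I] [DecidableEq I]

theorem KH5_lim (U : Ultrafilter ℕ) (f : ℕ → ℝ) (B : ℝ)
    (h : ∀ᶠ n in (U : Filter ℕ), 0 ≤ f n ∧ f n ≤ B) :
    ∃ x : ℝ, 0 ≤ x ∧ Tendsto f (U : Filter ℕ) (𝓝 x) := by
  obtain ⟨x, hx, hle⟩ := (isCompact_Icc (a := (0 : ℝ)) (b := B)).ultrafilter_le_nhds (U.map f)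
    (by rw [le_principal_iff]; exact h)
  exact ⟨x, hx.1, hle⟩

theorem KH5_entT0 {p q : ℝ} : Tendsto (fun p : ℝ × ℝ => ent p.1 p.2) (𝓝 (p, q))
    (𝓝 (ent p q)) := ent_continuous.tendsto (p, q)

theorem KH5_entT {U : Filter ℕ} {f g : ℕ → ℝ} {p q : ℝ} (hf : Tendsto f U (𝓝 p))
    (hg : Tendsto g U (𝓝 q)) : Tendsto (fun n => ent (f n) (g n)) U (𝓝 (ent p q)) := by
  have h3 := hf.prodMk_nhds hg
  have h4 := Tendsto.comp (KH5_entT0 (p := p) (q := q)) h3
  exact h4

theorem KH5_Icc (K : ℕ) : Finset.Icc 1 K = Finset.Ioc 0 K := by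
  ext l
  rw [Finset.mem_Icc, Finset.mem_Ioc]
  omega

theorem KH5_vac_out {a : I → I → ℕ} {K K' : ℕ} {m : ℕ → I → ℝ} {y : I → ℝ}
    (h : Feas a K m y) (hK : K ≤ K') (k : ℕ) (i : I) : vacR a K' m k i = vacR a K m k i := by
  unfold vacR
  symm
  apply Finset.sum_subset (Finset.Icc_subset_Icc_right hK)
  intro l hl hnl
  have h1 : K < l := by
    rw [Finset.mem_Icc] at hl hnl
    omega
  have h2 : cR a (m l) i = 0 := by
    unfold cR
    apply Finset.sum_eq_zero
    intro j _
    rw [h.out l j h1, mul_zero]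
  rw [h2]
  simp

theorem KH5_mass_le {a : I → I → ℕ} {K : ℕ} {m : ℕ → I → ℝ} {y : I → ℝ}
    (h : Feas a K m y) (L : ℕ) (i : I) : massR L m i ≤ y i := by
  have h1 := h.enlarge (le_max_left K L)
  rw [← h1.mass i]
  unfold massR
  apply Finset.sum_le_sum_of_subset_of_nonneg (Finset.Icc_subset_Icc_right (le_max_right K L))
  intro l _ _
  exact mul_nonneg (Nat.cast_nonneg l) (h.nn l i)

theorem KH5_m_le {a : I → I → ℕ} {K : ℕ} {m : ℕ → I → ℝ} {y : I → ℝ}
    (h : Feas a K m y) (l : ℕ) (hl : 1 ≤ l) (i : I) : m l i ≤ y i := by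
  refine le_trans ?_ (KH5_mass_le h l i)
  unfold massR
  have h1 : (l : ℝ) * m l i ≤ ∑ l' ∈ Finset.Icc 1 l, (l' : ℝ) * m l' i := by
    apply Finset.single_le_sum (f := fun l' : ℕ => (l' : ℝ) * m l' i)
    · intro l' _
      exact mul_nonneg (Nat.cast_nonneg l') (h.nn l' i)
    · rw [Finset.mem_Icc]
      omega
  refine le_trans ?_ h1
  have h2 : (1 : ℝ) ≤ l := by exact_mod_cast hl
  have h3 := h.nn l i
  nlinarith

theorem KH5_cR_abs (a : I → I → ℕ) (w : I → ℝ) (hw : ∀ j, 0 ≤ w j) (i : I) :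
    |cR a w i| ≤ ∑ j, |(cart a i j : ℝ)| * w j := by
  unfold cR
  refine (Finset.abs_sum_le_sum_abs _ _).trans (Finset.sum_le_sum ?_)
  intro j _
  rw [abs_mul, abs_of_nonneg (hw j)]

theorem KH5_mass_sub (m : ℕ → I → ℝ) {L L' : ℕ} (hL : L ≤ L') (j : I) :
    massR L' m j - massR L m j = ∑ l ∈ Finset.Ioc L L', (l : ℝ) * m l j := by
  unfold massR
  rw [KH5_Icc, KH5_Icc, ← Finset.sum_Ioc_consecutive (fun l : ℕ => (l : ℝ) * m l j) (Nat.zero_le L) hL]
  ring

theorem KH5_diff {a : I → I → ℕ} {K : ℕ} {m : ℕ → I → ℝ} {y : I → ℝ}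
    (h : Feas a K m y) {L L' : ℕ} (hL : L ≤ L') (hL' : 0 < L') (k : ℕ) (hk : k ≤ L) (i : I) :
    |vacR a K m k i - vacR a L m k i| ≤
      ∑ j, |(cart a i j : ℝ)| * ((massR L' m j - massR L m j) + (L : ℝ) / L' * y j) := by
  classical
  set K' := max K L' with hK'
  have hKK : K ≤ K' := le_max_left _ _
  have hLK : L' ≤ K' := le_max_right _ _
  have hF := h.enlarge hKK
  have hLpos : (0 : ℝ) < L' := by exact_mod_cast hL'
  have h1 : vacR a K m k i - vacR a L m k i
      = ∑ l ∈ Finset.Ioc L K', ((min k l : ℕ) : ℝ) * (-cR a (m l) i) := by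
    rw [← KH5_vac_out h hKK k i]
    unfold vacR
    rw [KH5_Icc, KH5_Icc, ← Finset.sum_Ioc_consecutive
      (fun l : ℕ => ((min k l : ℕ) : ℝ) * (-cR a (m l) i)) (Nat.zero_le L) (hL.trans hLK)]
    ring
  have hw : ∀ l, 0 ≤ ∑ j, |(cart a i j : ℝ)| * m l j := fun l =>
    Finset.sum_nonneg fun j _ => mul_nonneg (abs_nonneg _) (h.nn l j)
  have hterm : ∀ l, |((min k l : ℕ) : ℝ) * (-cR a (m l) i)|
      ≤ (k : ℝ) * ∑ j, |(cart a i j : ℝ)| * m l j := by
    intro l
    rw [abs_mul, abs_neg, Nat.abs_cast]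
    apply mul_le_mul _ (KH5_cR_abs a (m l) (h.nn l) i) (abs_nonneg _) (Nat.cast_nonneg k)
    exact_mod_cast min_le_left k l
  rw [h1]
  refine (Finset.abs_sum_le_sum_abs _ _).trans ?_
  refine (Finset.sum_le_sum fun l _ => hterm l).trans ?_
  rw [← Finset.sum_Ioc_consecutive (fun l : ℕ => (k : ℝ) * ∑ j, |(cart a i j : ℝ)| * m l j) hL hLK]
  have hA : ∑ l ∈ Finset.Ioc L L', (k : ℝ) * ∑ j, |(cart a i j : ℝ)| * m l j
      ≤ ∑ j, |(cart a i j : ℝ)| * (massR L' m j - massR L m j) := by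
    calc ∑ l ∈ Finset.Ioc L L', (k : ℝ) * ∑ j, |(cart a i j : ℝ)| * m l j
        ≤ ∑ l ∈ Finset.Ioc L L', (l : ℝ) * ∑ j, |(cart a i j : ℝ)| * m l j := by
          apply Finset.sum_le_sum
          intro l hl
          apply mul_le_mul_of_nonneg_right _ (hw l)
          rw [Finset.mem_Ioc] at hl
          exact_mod_cast (by omega : k ≤ l)
      _ = ∑ j, |(cart a i j : ℝ)| * (massR L' m j - massR L m j) := by
          simp_rw [KH5_mass_sub m hL, Finset.mul_sum]
          rw [Finset.sum_comm]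
          exact Finset.sum_congr rfl fun j _ => Finset.sum_congr rfl fun l _ => by ring
  have hB : ∑ l ∈ Finset.Ioc L' K', (k : ℝ) * ∑ j, |(cart a i j : ℝ)| * m l j
      ≤ ∑ j, |(cart a i j : ℝ)| * ((L : ℝ) / L' * y j) := by
    calc ∑ l ∈ Finset.Ioc L' K', (k : ℝ) * ∑ j, |(cart a i j : ℝ)| * m l j
        ≤ ∑ l ∈ Finset.Ioc L' K', ((L : ℝ) / L' * l) * ∑ j, |(cart a i j : ℝ)| * m l j := by
          apply Finset.sum_le_sum
          intro l hl
          apply mul_le_mul_of_nonneg_right _ (hw l)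
          rw [Finset.mem_Ioc] at hl
          have h2 : (k : ℝ) ≤ L := by exact_mod_cast hk
          have h3 : (L' : ℝ) ≤ l := by exact_mod_cast hl.1.le
          have h4 : (L : ℝ) / L' * L' = L := by field_simp
          have h5 : (0 : ℝ) ≤ (L : ℝ) / L' := by positivity
          nlinarith
      _ = ∑ j, |(cart a i j : ℝ)| * ((L : ℝ) / L' * (massR K' m j - massR L' m j)) := by
          simp_rw [KH5_mass_sub m hLK, Finset.mul_sum]
          rw [Finset.sum_comm]
          exact Finset.sum_congr rfl fun j _ => Finset.sum_congr rfl fun l _ => by ring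
      _ ≤ ∑ j, |(cart a i j : ℝ)| * ((L : ℝ) / L' * y j) := by
          apply Finset.sum_le_sum
          intro j _
          apply mul_le_mul_of_nonneg_left _ (abs_nonneg _)
          apply mul_le_mul_of_nonneg_left _ (by positivity)
          rw [hF.mass j]
          have : 0 ≤ massR L' m j := by
            unfold massR
            exact Finset.sum_nonneg fun l _ => mul_nonneg (Nat.cast_nonneg l) (h.nn l j)
          linarith
  calc _ ≤ ∑ j, |(cart a i j : ℝ)| * (massR L' m j - massR L m j)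
        + ∑ j, |(cart a i j : ℝ)| * ((L : ℝ) / L' * y j) := add_le_add hA hB
    _ = _ := by
      rw [← Finset.sum_add_distrib]
      exact Finset.sum_congr rfl fun j _ => by ring

theorem KH5_tail {m : ℕ → I → ℝ} (hm : ∀ l i, 0 ≤ m l i) {y : I → ℝ}
    (hy : ∀ L i, massR L m i ≤ y i) (δ : ℝ) (hδ : 0 < δ) :
    ∃ L0 : ℕ, ∀ L L', L0 ≤ L → L ≤ L' → ∀ j, massR L' m j - massR L m j ≤ δ := by
  have h1 : ∀ j : I, ∃ L0 : ℕ, ∀ L L', L0 ≤ L → L ≤ L' → massR L' m j - massR L m j ≤ δ := by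
    intro j
    have hmono : Monotone (fun L => massR L m j) := by
      intro L L' hL
      have h2 := KH5_mass_sub m hL j
      have h3 : 0 ≤ ∑ l ∈ Finset.Ioc L L', (l : ℝ) * m l j :=
        Finset.sum_nonneg fun l _ => mul_nonneg (Nat.cast_nonneg l) (hm l j)
      show massR L m j ≤ massR L' m j
      linarith
    have hbdd : BddAbove (Set.range (fun L => massR L m j)) := by
      refine ⟨y j, ?_⟩
      rintro _ ⟨L, rfl⟩
      exact hy L j
    have ht := tendsto_atTop_ciSup hmono hbdd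
    set s := ⨆ L, massR L m j with hs
    have h4 : ∀ᶠ L in atTop, s - δ < massR L m j :=
      ht.eventually (lt_mem_nhds (by linarith))
    obtain ⟨L0, hL0⟩ := eventually_atTop.1 h4
    refine ⟨L0, fun L L' hL hLL => ?_⟩
    have h5 := hL0 L hL
    have h6 : massR L' m j ≤ s := le_ciSup hbdd L'
    linarith
  choose f hf using h1
  refine ⟨∑ j, f j, fun L L' hL hLL j => hf j L L' (le_trans ?_ hL) hLL⟩
  exact Finset.single_le_sum (f := f) (fun _ _ => Nat.zero_le _) (Finset.mem_univ j)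

theorem limData_exists (a : I → I → ℕ) (y : I → ℝ) (z : ℕ → I → ℝ)
    (hz : Tendsto z atTop (𝓝 y)) (K : ℕ → ℕ) (m : ℕ → ℕ → I → ℝ)
    (hm : ∀ n, Feas a (K n) (m n) (z n)) (E : ℝ) (hE : ∀ n, E ≤ EntR a (K n) (m n)) :
    ∃ P m' : ℕ → I → ℝ, LimData a y P m' ∧ ∀ ε : ℝ, 0 < ε → ∃ L0 : ℕ, ∀ L, L0 ≤ L →
      E - ε ≤ ∑ k ∈ Finset.Icc 1 L, ∑ i, ent (P k i) (m' k i) := by
  classical
  let U : Ultrafilter ℕ := Filter.hyperfilter ℕ
  have hU : (U : Filter ℕ) ≤ atTop := Nat.hyperfilter_le_atTop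
  have hzi : ∀ i, Tendsto (fun n => z n i) (U : Filter ℕ) (𝓝 (y i)) := fun i =>
    ((tendsto_pi_nhds.1 hz) i).mono_left hU
  have hzb : ∀ i, ∀ᶠ n in (U : Filter ℕ), z n i ≤ y i + 1 := fun i =>
    ((hzi i).eventually (gt_mem_nhds (by linarith : y i < y i + 1))).mono fun n hn => hn.le
  have hM : ∀ k i, ∃ x : ℝ, 0 ≤ x ∧ (1 ≤ k → Tendsto (fun n => m n k i) (U : Filter ℕ) (𝓝 x)) := by
    intro k i
    by_cases hk : 1 ≤ k
    · obtain ⟨x, hx0, hx⟩ := KH5_lim U (fun n => m n k i) (y i + 1) (by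
        filter_upwards [hzb i] with n hn
        exact ⟨(hm n).nn k i, (KH5_m_le (hm n) k hk i).trans hn⟩)
      exact ⟨x, hx0, fun _ => hx⟩
    · exact ⟨0, le_rfl, fun h => absurd h hk⟩
  have hP : ∀ k i, ∃ x : ℝ, 0 ≤ x ∧
      Tendsto (fun n => vacR a (K n) (m n) k i) (U : Filter ℕ) (𝓝 x) := by
    intro k i
    apply KH5_lim U _ (∑ j, (a i j : ℝ) * (y j + 1))
    have h1 : ∀ᶠ n in (U : Filter ℕ), ∀ j, z n j ≤ y j + 1 := eventually_all.2 hzb
    filter_upwards [h1] with n hn
    refine ⟨(hm n).vac k i, ((hm n).vac_le k i).trans (Finset.sum_le_sum fun j _ => ?_)⟩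
    exact mul_le_mul_of_nonneg_left (hn j) (Nat.cast_nonneg _)
  choose m' hm'0 hm' using hM
  choose P hP0 hPt using hP
  have hmassT : ∀ L i, Tendsto (fun n => massR L (m n) i) (U : Filter ℕ) (𝓝 (massR L m' i)) := by
    intro L i
    unfold massR
    apply tendsto_finsetSum
    intro l hl
    exact (hm' l i (Finset.mem_Icc.1 hl).1).const_mul _
  have hmass : ∀ L i, massR L m' i ≤ y i := fun L i =>
    le_of_tendsto_of_tendsto' (hmassT L i) (hzi i) fun n => KH5_mass_le (hm n) L i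
  have hvacT : ∀ L k i, Tendsto (fun n => vacR a L (m n) k i) (U : Filter ℕ)
      (𝓝 (vacR a L m' k i)) := by
    intro L k i
    unfold vacR
    apply tendsto_finsetSum
    intro l hl
    apply Tendsto.const_mul
    apply Tendsto.neg
    unfold cR
    apply tendsto_finsetSum
    intro j _
    exact (hm' l j (Finset.mem_Icc.1 hl).1).const_mul _
  refine ⟨P, m', ⟨hm'0, hP0, hmass, ?_⟩, ?_⟩
  · -- rel
    intro ε hε
    set C : ℝ := 1 + ∑ i, ∑ j, |(cart a i j : ℝ)| with hC
    have hC1 : 0 < C := by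
      have : 0 ≤ ∑ i, ∑ j, |(cart a i j : ℝ)| :=
        Finset.sum_nonneg fun i _ => Finset.sum_nonneg fun j _ => abs_nonneg _
      linarith
    set δ : ℝ := ε / (2 * C) with hδ
    have hδ0 : 0 < δ := by positivity
    obtain ⟨L0, hL0⟩ := KH5_tail hm'0 hmass δ hδ0
    refine ⟨L0, fun L hL k hk1 hkL i => ?_⟩
    set Y : ℝ := ∑ j, |y j| with hY
    have hYj : ∀ j, y j ≤ Y := fun j => (le_abs_self _).trans
      (Finset.single_le_sum (f := fun j => |y j|) (fun _ _ => abs_nonneg _) (Finset.mem_univ j))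
    have hY0 : 0 ≤ Y := Finset.sum_nonneg fun _ _ => abs_nonneg _
    obtain ⟨N, hN⟩ := exists_nat_gt ((L : ℝ) * Y / δ)
    set L' := max (N + 1) L with hL'
    have hL'1 : 0 < L' := lt_of_lt_of_le (Nat.succ_pos N) (le_max_left _ _)
    have hLL' : L ≤ L' := le_max_right _ _
    have hlim : |P k i - vacR a L m' k i| ≤
        ∑ j, |(cart a i j : ℝ)| * ((massR L' m' j - massR L m' j) + (L : ℝ) / L' * y j) := by
      have ht1 : Tendsto (fun n => |vacR a (K n) (m n) k i - vacR a L (m n) k i|) (U : Filter ℕ)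
          (𝓝 |P k i - vacR a L m' k i|) := ((hPt k i).sub (hvacT L k i)).abs
      have ht2 : Tendsto (fun n => ∑ j, |(cart a i j : ℝ)| *
          ((massR L' (m n) j - massR L (m n) j) + (L : ℝ) / L' * z n j)) (U : Filter ℕ)
          (𝓝 (∑ j, |(cart a i j : ℝ)| *
            ((massR L' m' j - massR L m' j) + (L : ℝ) / L' * y j))) := by
        apply tendsto_finsetSum
        intro j _
        apply Tendsto.const_mul
        exact ((hmassT L' j).sub (hmassT L j)).add ((hzi j).const_mul _)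
      exact le_of_tendsto_of_tendsto' ht1 ht2 fun n => KH5_diff (hm n) hLL' hL'1 k hkL i
    refine hlim.trans ?_
    have hL'pos : (0 : ℝ) < L' := by exact_mod_cast hL'1
    have hq : (L : ℝ) / L' * Y ≤ δ := by
      have h1 : (N : ℝ) + 1 ≤ L' := by exact_mod_cast le_max_left (N + 1) L
      have h2 : (L : ℝ) * Y < δ * L' := by
        have h3 : (L : ℝ) * Y / δ < L' := by linarith
        rw [div_lt_iff₀ hδ0] at h3
        linarith
      rw [div_mul_eq_mul_div, div_le_iff₀ hL'pos]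
      linarith
    have hterm : ∀ j, |(cart a i j : ℝ)| *
        ((massR L' m' j - massR L m' j) + (L : ℝ) / L' * y j)
        ≤ |(cart a i j : ℝ)| * (2 * δ) := by
      intro j
      apply mul_le_mul_of_nonneg_left _ (abs_nonneg _)
      have h1 := hL0 L L' hL hLL' j
      have h2 : (L : ℝ) / L' * y j ≤ (L : ℝ) / L' * Y :=
        mul_le_mul_of_nonneg_left (hYj j) (by positivity)
      linarith
    refine (Finset.sum_le_sum fun j _ => hterm j).trans ?_
    rw [← Finset.sum_mul]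
    have h3 : ∑ j, |(cart a i j : ℝ)| ≤ C := by
      have h4 : ∑ j, |(cart a i j : ℝ)| ≤ ∑ i, ∑ j, |(cart a i j : ℝ)| :=
        Finset.single_le_sum (f := fun i => ∑ j, |(cart a i j : ℝ)|)
          (fun _ _ => Finset.sum_nonneg fun _ _ => abs_nonneg _) (Finset.mem_univ i)
      linarith
    calc (∑ j, |(cart a i j : ℝ)|) * (2 * δ) ≤ C * (2 * δ) :=
          mul_le_mul_of_nonneg_right h3 (by positivity)
      _ = ε := by
          rw [hδ]
          field_simp
  · -- entropy
    intro ε hε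
    set Y : ℝ := ∑ i, y i with hY
    set A : ℝ := ∑ i, ∑ j, (a i j : ℝ) * y j with hA
    -- the inequality in the limit
    have hlim : ∀ (x : ℝ), 0 < x → x < 1 → ∀ L : ℕ,
        E ≤ (∑ k ∈ Finset.Icc 1 L, ∑ i, ent (P k i) (m' k i)) +
          (Y * (-Real.log x) + A * (x ^ (L + 1) / (1 - x) ^ 2)) := by
      intro x hx0 hx1 L
      have ht1 : Tendsto (fun n => (∑ k ∈ Finset.Icc 1 L, ∑ i,
          ent (vacR a (K n) (m n) k i) (m n k i)) +
          ((∑ i, z n i) * (-Real.log x) +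
            (∑ i, ∑ j, (a i j : ℝ) * z n j) * (x ^ (L + 1) / (1 - x) ^ 2))) (U : Filter ℕ)
          (𝓝 ((∑ k ∈ Finset.Icc 1 L, ∑ i, ent (P k i) (m' k i)) +
            (Y * (-Real.log x) + A * (x ^ (L + 1) / (1 - x) ^ 2)))) := by
        have hA1 : Tendsto (fun n => ∑ k ∈ Finset.Icc 1 L, ∑ i,
            ent (vacR a (K n) (m n) k i) (m n k i)) (U : Filter ℕ)
            (𝓝 (∑ k ∈ Finset.Icc 1 L, ∑ i, ent (P k i) (m' k i))) := by
          apply tendsto_finsetSum
          intro k hk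
          apply tendsto_finsetSum
          intro i _
          exact KH5_entT (hPt k i) (hm' k i (Finset.mem_Icc.1 hk).1)
        have hB1 : Tendsto (fun n => (∑ i, z n i) * (-Real.log x)) (U : Filter ℕ)
            (𝓝 (Y * (-Real.log x))) := by
          have h1 : Tendsto (fun n => ∑ i, z n i) (U : Filter ℕ) (𝓝 Y) :=
            tendsto_finsetSum _ fun i _ => hzi i
          exact h1.mul_const _
        have hC1 : Tendsto (fun n => (∑ i, ∑ j, (a i j : ℝ) * z n j) *
            (x ^ (L + 1) / (1 - x) ^ 2)) (U : Filter ℕ)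
            (𝓝 (A * (x ^ (L + 1) / (1 - x) ^ 2))) := by
          have h1 : Tendsto (fun n => ∑ i, ∑ j, (a i j : ℝ) * z n j) (U : Filter ℕ) (𝓝 A) := by
            apply tendsto_finsetSum
            intro i _
            apply tendsto_finsetSum
            intro j _
            exact (hzi j).const_mul _
          exact h1.mul_const _
        exact hA1.add (hB1.add hC1)
      refine ge_of_tendsto' ht1 fun n => ?_
      have hF := (hm n).enlarge (le_max_left (K n) L)
      have h2 := EntR_enlarge (hm n) (le_max_left (K n) L)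
      have h3 := hE n
      rw [← h2] at h3
      refine h3.trans ?_
      unfold EntR
      rw [KH5_Icc, ← Finset.sum_Ioc_consecutive
        (fun k : ℕ => ∑ i, ent (vacR a (max (K n) L) (m n) k i) (m n k i)) (Nat.zero_le L)
        (le_max_right (K n) L)]
      apply add_le_add
      · rw [← KH5_Icc]
        apply le_of_eq
        apply Finset.sum_congr rfl
        intro k _
        apply Finset.sum_congr rfl
        intro i _
        rw [KH5_vac_out (hm n) (le_max_left (K n) L) k i]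
      · have h4 := hF.tail hx0 hx1 L
        have h5 : Finset.Icc (L + 1) (max (K n) L) = Finset.Ioc L (max (K n) L) := by
          ext l
          rw [Finset.mem_Icc, Finset.mem_Ioc]
          omega
        rw [h5] at h4
        exact h4
    -- choose x
    have hx : ∃ x : ℝ, 0 < x ∧ x < 1 ∧ Y * (-Real.log x) ≤ ε / 2 := by
      have h1 : Tendsto (fun x : ℝ => Y * (-Real.log x)) (𝓝[<] 1) (𝓝 (Y * (-Real.log 1))) := by
        apply Tendsto.mono_left _ nhdsWithin_le_nhds
        exact ((Real.continuousAt_log one_ne_zero).tendsto.neg).const_mul _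
      rw [Real.log_one, neg_zero, mul_zero] at h1
      have h2 : ∀ᶠ x in 𝓝[<] (1 : ℝ), Y * (-Real.log x) < ε / 2 :=
        h1.eventually (gt_mem_nhds (by linarith))
      have h3 : ∀ᶠ x in 𝓝[<] (1 : ℝ), 0 < x :=
        nhdsWithin_le_nhds (lt_mem_nhds zero_lt_one)
      have h4 : ∀ᶠ x in 𝓝[<] (1 : ℝ), x < 1 := self_mem_nhdsWithin
      obtain ⟨x, hx1, hx2, hx3⟩ := (h2.and (h3.and h4)).exists
      exact ⟨x, hx2, hx3, hx1.le⟩
    obtain ⟨x, hx0, hx1, hx⟩ := hx
    have ht : Tendsto (fun L : ℕ => A * (x ^ (L + 1) / (1 - x) ^ 2)) atTop (𝓝 0) := by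
      have h1 : Tendsto (fun L : ℕ => x ^ (L + 1)) atTop (𝓝 0) :=
        (tendsto_pow_atTop_nhds_zero_of_lt_one hx0.le hx1).comp (tendsto_add_atTop_nat 1)
      have h2 := (h1.div_const ((1 - x) ^ 2)).const_mul A
      rwa [zero_div, mul_zero] at h2
    obtain ⟨L0, hL0⟩ := eventually_atTop.1 (ht.eventually (gt_mem_nhds (by linarith : (0 : ℝ) < ε / 2)))
    refine ⟨L0, fun L hL => ?_⟩
    have h1 := hlim x hx0 hx1 L
    have h2 := hL0 L hL
    linarith

end Pool.Agent.H27.KAC
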