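import Pool.Agent.H27.KAC.KH2

/-!
KAC module KH6: from limit data to a finite feasible multipartition.

PROOF.  `D`, `u` as in `StrictData`.
(0) `P k i = 0` for `i ∈ D`, `k ≥ 1`: `∑_(i ∈ D) y i * vacR a L m k i = - ∑_l min k l ∑_j (C y_D)_j m l j = 0`, `y_D` = `y` restricted
to `D`: `(C y_D)_j = 0` for `j ∈ D` (`Dzero`, `Dsep`) and for `j ∉ D`, `y j > 0` (`Dsep`), and `m l j = 0` if `y j = 0` (`mass`); then
use `rel`, `Pnn`, `Dpos`.
(1) Choose `c > 0` with `c u ≤ y` and `c |cR a u i| ≤ |cR a y i| / 2` whenever `cR a y i < 0`.  There is `ρ > 0` with: for all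
`i ∉ D` with `y i > 0` and all `0 ≤ t ≤ 1`: `- cR a y i + c t cR a u i ≥ ρ t` (`t = 1 - k/K` below).
(2) Parameters `0 < η < 1`, `L ≥ L0` with the error of `rel` at most `ε1`, `K > L` large.  Define `m'`: for `i ∈ D`: `m' 1 i = y i`,
other sizes zero.  For `i ∉ D`: size `l`, `2 ≤ l ≤ L`: `(1-η) m l i`; size 1: `(1-η) m 1 i + η (y i - c u i)`; size `K`:
`((1-η) (y i - massR L m i) + η c u i) / K`.  The mass is `y`.
(3) Vacancy numbers at `i ∉ D`, `y i > 0`, `1 ≤ k ≤ K` (`D` is not adjacent to `i`):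
`(1-η) [vacR a L m k i - (k/K) cR a (d) i] + η [- cR a y i + c (1 - k/K) cR a u i]`, `d = y - massR L m` (restricted to the complement of
`D`).  The first bracket is `≥ - ε1 - (L/K) c'` for `k ≤ L` (as `P k i ≥ 0`), for `k = K` it is `- cR a y i ≥ 0`, and it is affine in `k`
on `[L, K]`; so it is `≥ - 2 ε2 (1 - k/K)`, `ε2 = ε1 + (L/K) c'`, if `K ≥ 2 L`.  The second one is `≥ ρ (1 - k/K)`.  So the vacancy number
is `≥ 0` if `2 ε2 ≤ η ρ`.  At `i ∉ D` with `y i = 0` all `m' l i = 0` and the vacancy number is a sum of nonnegative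
terms; at `i ∈ D` it is `- cR a y i = 0` (`Dsep`).
(4) Entropy: all terms are nonnegative; the terms with `k ≤ L0`, `i ∉ D` converge to `ent (P k i) (m k i)` as `η → 0`, `L → ∞`,
`K → ∞` (in this order of choice: given `ε`, choose `η` small, then `L` large, then `K` large), the terms with `i ∈ D` of the
left side are `ent 0 (m k i) = 0`.
-/

set_option autoImplicit false

namespace Pool.Agent.H27.KAC

open scoped BigOperators
open Filter Topology

variable {I : Type} [Fintype I] [DecidableEq I]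

/-- the truncated multipartition off `D` -/
noncomputable def KH6_w (y u : I → ℝ) (m : ℕ → I → ℝ) (L K : ℕ) (η c : ℝ) (l : ℕ) (i : I) : ℝ :=
  (if l ≤ L then (1 - η) * m l i else 0) + (if l = 1 then η * (y i - c * u i) else 0) +
    (if l = K then ((1 - η) * (y i - massR L m i) + η * (c * u i)) / K else 0)

/-- the truncated multipartition -/
noncomputable def KH6_m (y u : I → ℝ) (m : ℕ → I → ℝ) (D : Finset I) (L K : ℕ) (η c : ℝ) (l : ℕ)
    (i : I) : ℝ :=
  if i ∈ D then (if l = 1 then y i else 0) else KH6_w y u m L K η c l i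

private theorem KH6_sum (L K : ℕ) (h1 : 1 ≤ L) (h2 : L < K) (w A : ℕ → ℝ) (B C : ℝ) :
    ∑ l ∈ Finset.Icc 1 K, w l * ((if l ≤ L then A l else 0) + (if l = 1 then B else 0) +
      (if l = K then C else 0)) = ∑ l ∈ Finset.Icc 1 L, w l * A l + w 1 * B + w K * C := by
  have e1 : ∑ l ∈ Finset.Icc 1 K, w l * (if l ≤ L then A l else 0) =
      ∑ l ∈ Finset.Icc 1 L, w l * A l := by
    have : Finset.Icc 1 L = (Finset.Icc 1 K).filter (fun l => l ≤ L) := by
      ext l
      simp only [Finset.mem_Icc, Finset.mem_filter]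
      omega
    rw [this, Finset.sum_filter]
    refine Finset.sum_congr rfl fun l _ => ?_
    split_ifs <;> simp
  have e2 : ∑ l ∈ Finset.Icc 1 K, w l * (if l = 1 then B else 0) = w 1 * B := by
    rw [Finset.sum_eq_single 1]
    · simp
    · intro l _ hl
      rw [if_neg hl, mul_zero]
    · intro h
      exact absurd (Finset.mem_Icc.2 ⟨le_rfl, by omega⟩) h
  have e3 : ∑ l ∈ Finset.Icc 1 K, w l * (if l = K then C else 0) = w K * C := by
    rw [Finset.sum_eq_single K]
    · simp
    · intro l _ hl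
      rw [if_neg hl, mul_zero]
    · intro h
      exact absurd (Finset.mem_Icc.2 ⟨by omega, le_rfl⟩) h
  rw [← e1, ← e2, ← e3, ← Finset.sum_add_distrib, ← Finset.sum_add_distrib]
  refine Finset.sum_congr rfl fun l _ => ?_
  ring

section

variable {a : I → I → ℕ} {y : I → ℝ} {D : Finset I} {u : I → ℝ} {P m : ℕ → I → ℝ}

private theorem KH6_mass_nn (hl : LimData a y P m) (L : ℕ) (i : I) : 0 ≤ massR L m i := by
  unfold massR
  exact Finset.sum_nonneg fun l _ => mul_nonneg (Nat.cast_nonneg l) (hl.mnn l i)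

private theorem KH6_mzero (hl : LimData a y P m) {i : I} (hi : y i = 0) {l : ℕ} (h1 : 1 ≤ l) :
    m l i = 0 := by
  have h2 := hl.mass l i
  rw [hi] at h2
  have h3 : (l : ℝ) * m l i ≤ massR l m i := by
    unfold massR
    exact Finset.single_le_sum (f := fun l : ℕ => (l : ℝ) * m l i)
      (fun l _ => mul_nonneg (Nat.cast_nonneg l) (hl.mnn l i)) (Finset.mem_Icc.2 ⟨h1, le_rfl⟩)
  have h4 : (0 : ℝ) < l := by exact_mod_cast h1
  have h5 := hl.mnn l i
  nlinarith

private theorem KH6_cart {i j : I} (hij : i ≠ j) (h : a i j = 0) : cart a i j = 0 := by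
  unfold cart
  rw [if_neg hij, h]
  simp

private theorem KH6_cR_D (hD : StrictData a y D u) (hy : Kon a y) {x : I → ℝ}
    (hx : ∀ j, j ∉ D → y j = 0 → x j = 0) {i : I} (hi : i ∈ D) :
    cR a x i = ∑ j ∈ D, (cart a i j : ℝ) * x j := by
  unfold cR
  symm
  refine Finset.sum_subset (Finset.subset_univ D) fun j _ hj => ?_
  rcases (hy.1 j).eq_or_lt with h | h
  · rw [hx j hj h.symm, mul_zero]
  · have hij : i ≠ j := fun e => hj (e ▸ hi)
    rw [KH6_cart hij (hD.Dsep i hi j hj h)]
    simp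

private theorem KH6_cR_off (hs : ∀ i j, a i j = a j i) (hD : StrictData a y D u) {i : I}
    (hi : i ∉ D) (hyi : 0 < y i) {x x' : I → ℝ} (hx : ∀ j, j ∉ D → x j = x' j) :
    cR a x i = cR a x' i := by
  unfold cR
  refine Finset.sum_congr rfl fun j _ => ?_
  by_cases hj : j ∈ D
  · have hij : i ≠ j := fun e => hi (e ▸ hj)
    rw [KH6_cart hij (by rw [hs]; exact hD.Dsep j hj i hi hyi)]
    simp
  · rw [hx j hj]

private theorem KH6_sumD (hs : ∀ i j, a i j = a j i) (hD : StrictData a y D u) (hy : Kon a y)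
    (hl : LimData a y P m) {l : ℕ} (h1 : 1 ≤ l) : ∑ i ∈ D, y i * cR a (m l) i = 0 := by
  unfold cR
  simp only [Finset.mul_sum]
  rw [Finset.sum_comm]
  refine Finset.sum_eq_zero fun j _ => ?_
  by_cases hj : j ∈ D
  · have h2 : ∑ i ∈ D, (cart a j i : ℝ) * y i = 0 := by
      rw [← KH6_cR_D hD hy (fun j _ h => h) hj]
      exact hD.Dzero j hj
    have hc : ∀ i, cart a i j = cart a j i := by
      intro i
      unfold cart
      rw [hs i j]
      by_cases h : i = j
      · rw [if_pos h, if_pos h.symm]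
      · rw [if_neg h, if_neg fun e => h e.symm]
    calc ∑ i ∈ D, y i * ((cart a i j : ℝ) * m l j) = (∑ i ∈ D, (cart a j i : ℝ) * y i) * m l j := by
          rw [Finset.sum_mul]
          refine Finset.sum_congr rfl fun i _ => ?_
          rw [hc i]
          ring
      _ = 0 := by rw [h2, zero_mul]
  · rcases (hy.1 j).eq_or_lt with h | h
    · refine Finset.sum_eq_zero fun i _ => ?_
      rw [KH6_mzero hl h.symm h1, mul_zero, mul_zero]
    · refine Finset.sum_eq_zero fun i hi => ?_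
      have hij : i ≠ j := fun e => hj (e ▸ hi)
      rw [KH6_cart hij (hD.Dsep i hi j hj h)]
      simp

private theorem KH6_P0 (hs : ∀ i j, a i j = a j i) (hD : StrictData a y D u) (hy : Kon a y)
    (hl : LimData a y P m) {k : ℕ} (h1 : 1 ≤ k) {i : I} (hi : i ∈ D) : P k i = 0 := by
  have h2 : ∀ L, ∑ i ∈ D, y i * vacR a L m k i = 0 := by
    intro L
    unfold vacR
    simp only [Finset.mul_sum]
    rw [Finset.sum_comm]
    refine Finset.sum_eq_zero fun l hll => ?_
    have h3 := KH6_sumD hs hD hy hl (Finset.mem_Icc.1 hll).1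
    calc ∑ i ∈ D, y i * (((min k l : ℕ) : ℝ) * (-cR a (m l) i)) =
          -(((min k l : ℕ) : ℝ) * ∑ i ∈ D, y i * cR a (m l) i) := by
          rw [Finset.mul_sum, ← Finset.sum_neg_distrib]
          refine Finset.sum_congr rfl fun i _ => ?_
          ring
      _ = 0 := by rw [h3, mul_zero, neg_zero]
  have h3 : ∑ i ∈ D, y i * P k i ≤ 0 := by
    refine le_of_forall_pos_le_add fun ε hε => ?_
    have hY : 0 ≤ ∑ i ∈ D, y i := Finset.sum_nonneg fun i _ => hy.1 i
    obtain ⟨L0, h4⟩ := hl.rel (ε / (∑ i ∈ D, y i + 1)) (by positivity)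
    have h5 : ∀ i ∈ D, y i * P k i ≤ y i * vacR a (max L0 k) m k i +
        y i * (ε / (∑ i ∈ D, y i + 1)) := by
      intro i _
      rw [← mul_add]
      apply mul_le_mul_of_nonneg_left _ (hy.1 i)
      have h6 := h4 (max L0 k) (le_max_left _ _) k h1 (le_max_right _ _) i
      have h7 := (abs_le.1 h6).2
      linarith
    refine (Finset.sum_le_sum h5).trans ?_
    rw [Finset.sum_add_distrib, h2, ← Finset.sum_mul, zero_add, zero_add]
    calc (∑ i ∈ D, y i) * (ε / (∑ i ∈ D, y i + 1)) ≤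
          (∑ i ∈ D, y i + 1) * (ε / (∑ i ∈ D, y i + 1)) := by
          apply mul_le_mul_of_nonneg_right (by linarith) (by positivity)
      _ = ε := by field_simp
  have h4 : ∀ i ∈ D, 0 ≤ y i * P k i := fun i _ => mul_nonneg (hy.1 i) (hl.Pnn k i)
  have h5 := (Finset.sum_eq_zero_iff_of_nonneg h4).1 (le_antisymm h3 (Finset.sum_nonneg h4)) i hi
  exact (mul_eq_zero.1 h5).resolve_left (hD.Dpos i hi).ne'

private theorem KH6_c (hD : StrictData a y D u) (hy : Kon a y) :
    ∃ c : ℝ, 0 < c ∧ (∀ i, c * u i ≤ y i) ∧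
      ∀ i, cR a y i < 0 → c * |cR a u i| ≤ -cR a y i / 2 := by
  have key : ∀ s t : ℝ, 0 < t → ∀ᶠ c in 𝓝[>] (0 : ℝ), c * s ≤ t := by
    intro s t ht
    have h1 : Tendsto (fun c : ℝ => c * s) (𝓝[>] (0 : ℝ)) (𝓝 0) := by
      have : Tendsto (fun c : ℝ => c * s) (𝓝 (0 : ℝ)) (𝓝 (0 * s)) :=
        (continuous_id.mul continuous_const).tendsto 0
      rw [zero_mul] at this
      exact this.mono_left nhdsWithin_le_nhds
    filter_upwards [h1.eventually_lt_const ht] with c hc
    exact hc.le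
  have h1 : ∀ᶠ c in 𝓝[>] (0 : ℝ), ∀ i, c * u i ≤ y i := by
    refine Filter.eventually_all.2 fun i => ?_
    rcases (hy.1 i).eq_or_lt with h | h
    · refine Filter.Eventually.of_forall fun c => ?_
      rw [hD.usupp i h.symm, mul_zero]
      exact hy.1 i
    · exact key _ _ h
  have h2 : ∀ᶠ c in 𝓝[>] (0 : ℝ), ∀ i, cR a y i < 0 → c * |cR a u i| ≤ -cR a y i / 2 := by
    refine Filter.eventually_all.2 fun i => ?_
    by_cases h : cR a y i < 0
    · filter_upwards [key |cR a u i| (-cR a y i / 2) (by linarith)] with c hc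
      exact fun _ => hc
    · exact Filter.Eventually.of_forall fun c h' => absurd h' h
  obtain ⟨c, ⟨h3, h4⟩, h5⟩ := ((h1.and h2).and self_mem_nhdsWithin).exists
  exact ⟨c, h5, h3, h4⟩

private theorem KH6_rho (hD : StrictData a y D u) (hy : Kon a y) {c : ℝ} (hc : 0 < c)
    (hcc : ∀ i, cR a y i < 0 → c * |cR a u i| ≤ -cR a y i / 2) :
    ∃ ρ : ℝ, 0 < ρ ∧ ∀ i, i ∉ D → 0 < y i → ∀ t : ℝ, 0 ≤ t → t ≤ 1 →
      ρ * t ≤ -cR a y i + c * t * cR a u i := by
  have key : ∀ s : ℝ, 0 < s → ∀ᶠ ρ in 𝓝[>] (0 : ℝ), ρ ≤ s := by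
    intro s hs
    filter_upwards [Ioc_mem_nhdsGT hs] with ρ hρ
    exact hρ.2
  have h1 : ∀ᶠ ρ in 𝓝[>] (0 : ℝ), ∀ i, i ∉ D → 0 < y i → ∀ t : ℝ, 0 ≤ t → t ≤ 1 →
      ρ * t ≤ -cR a y i + c * t * cR a u i := by
    refine Filter.eventually_all.2 fun i => ?_
    by_cases hi : i ∉ D ∧ 0 < y i
    · rcases (hy.2 i).eq_or_lt with h | h
      · have hu := hD.upos i hi.1 hi.2 h
        filter_upwards [key (c * cR a u i) (mul_pos hc hu)] with ρ hρ
        intro _ _ t ht _
        rw [h, neg_zero, zero_add]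
        calc ρ * t ≤ (c * cR a u i) * t := mul_le_mul_of_nonneg_right hρ ht
          _ = c * t * cR a u i := by ring
      · filter_upwards [key (-cR a y i / 2) (by linarith)] with ρ hρ
        intro _ _ t ht ht1
        have h2 := hcc i h
        have h3 : -(c * |cR a u i|) ≤ c * t * cR a u i := by
          have h4 : |c * t * cR a u i| ≤ c * |cR a u i| := by
            rw [abs_mul, abs_mul, abs_of_pos hc, abs_of_nonneg ht]
            have h5 : c * t ≤ c := by nlinarith
            exact mul_le_mul_of_nonneg_right h5 (abs_nonneg _)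
          have := (abs_le.1 h4).1
          linarith
        have h6 : ρ * t ≤ -cR a y i / 2 := by
          have h7 : ρ * t ≤ (-cR a y i / 2) * t := mul_le_mul_of_nonneg_right hρ ht
          have h8 : (-cR a y i / 2) * t ≤ -cR a y i / 2 := by nlinarith
          linarith
        linarith
    · exact Filter.Eventually.of_forall fun ρ h1 h2 => absurd ⟨h1, h2⟩ hi
  obtain ⟨ρ, h2, h3⟩ := (h1.and self_mem_nhdsWithin).exists
  exact ⟨ρ, h3, h2⟩

private theorem KH6_wzero (hD : StrictData a y D u) (hl : LimData a y P m) {i : I}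
    (hi : y i = 0) (L K : ℕ) (η c : ℝ) {l : ℕ} (h1 : 1 ≤ l) : KH6_w y u m L K η c l i = 0 := by
  have h2 : massR L m i = 0 := by
    have h3 := hl.mass L i
    rw [hi] at h3
    exact le_antisymm h3 (KH6_mass_nn hl L i)
  unfold KH6_w
  rw [KH6_mzero hl hi h1, hD.usupp i hi, hi, h2]
  simp

private theorem KH6_cRw (L K : ℕ) (η c : ℝ) (l : ℕ) (i : I) :
    cR a (KH6_w y u m L K η c l) i =
      (if l ≤ L then (1 - η) * cR a (m l) i else 0) +
      (if l = 1 then η * (cR a y i - c * cR a u i) else 0) +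
      (if l = K then ((1 - η) * (cR a y i - cR a (massR L m) i) + η * (c * cR a u i)) / K else 0) := by
  have e : KH6_w y u m L K η c l =
      (if l ≤ L then (1 - η) • m l else 0) + (if l = 1 then η • (y - c • u) else 0) +
      (if l = K then ((1 / (K : ℝ)) • ((1 - η) • (y - massR L m) + (η * c) • u)) else 0) := by
    funext j
    unfold KH6_w
    simp only [Pi.add_apply]
    congr 1
    · congr 1
      · split_ifs <;> simp
      · split_ifs <;> simp
    · split_ifs
      · simp only [Pi.smul_apply, Pi.add_apply, Pi.sub_apply, smul_eq_mul]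
        ring
      · simp
  have h0 : cR a (0 : I → ℝ) i = 0 := by simp [cR]
  rw [e, cR_add, cR_add]
  congr 1
  · congr 1
    · split_ifs
      · rw [cR_smul]
      · exact h0
    · split_ifs
      · rw [cR_smul, cR_sub, cR_smul]
      · exact h0
  · split_ifs
    · rw [cR_smul, cR_add, cR_smul, cR_sub, cR_smul]
      ring
    · exact h0

end

section

variable {a : I → I → ℕ} {y : I → ℝ} {D : Finset I} {u : I → ℝ} {P m : ℕ → I → ℝ}

private theorem KH6_vacw (L K : ℕ) (h1 : 1 ≤ L) (h2 : L < K) (η c : ℝ) (k : ℕ) (hk : 1 ≤ k)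
    (hkK : k ≤ K) (i : I) :
    vacR a K (KH6_w y u m L K η c) k i = (1 - η) * (vacR a L m k i -
      ((k : ℝ) / K) * (cR a y i - cR a (massR L m) i)) +
      η * (-cR a y i + c * (1 - (k : ℝ) / K) * cR a u i) := by
  have hK0 : (K : ℝ) ≠ 0 := by
    have : 0 < K := by omega
    positivity
  have e1 : vacR a K (KH6_w y u m L K η c) k i = ∑ l ∈ Finset.Icc 1 K, ((min k l : ℕ) : ℝ) *
      ((if l ≤ L then -((1 - η) * cR a (m l) i) else 0) +
      (if l = 1 then -(η * (cR a y i - c * cR a u i)) else 0) +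
      (if l = K then -(((1 - η) * (cR a y i - cR a (massR L m) i) + η * (c * cR a u i)) / K)
        else 0)) := by
    unfold vacR
    refine Finset.sum_congr rfl fun l _ => ?_
    rw [KH6_cRw]
    congr 1
    split_ifs <;> ring
  rw [e1, KH6_sum L K h1 h2 (fun l => ((min k l : ℕ) : ℝ))]
  have e2 : ∑ l ∈ Finset.Icc 1 L, ((min k l : ℕ) : ℝ) * -((1 - η) * cR a (m l) i) =
      (1 - η) * vacR a L m k i := by
    unfold vacR
    rw [Finset.mul_sum]
    refine Finset.sum_congr rfl fun l _ => ?_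
    ring
  rw [e2, min_eq_right hk, min_eq_left hkK]
  push_cast
  field_simp
  ring

private theorem KH6_core (hs : ∀ i j, a i j = a j i) (hD : StrictData a y D u) (hy : Kon a y)
    (hl : LimData a y P m) {c ρ η e1 e2 : ℝ} {L K : ℕ} (hc0 : 0 < c) (hcu : ∀ i, c * u i ≤ y i)
    (hρ : ∀ i, i ∉ D → 0 < y i → ∀ t : ℝ, 0 ≤ t → t ≤ 1 →
      ρ * t ≤ -cR a y i + c * t * cR a u i) (hρ0 : 0 < ρ)
    (hη0 : 0 ≤ η) (hη1 : η ≤ 1) (he1 : 0 ≤ e1) (hL : 1 ≤ L) (hLK : 2 * L ≤ K)
    (hrel : ∀ k, 1 ≤ k → k ≤ L → ∀ i, |P k i - vacR a L m k i| ≤ e1)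
    (he2 : e1 + (L : ℝ) / K * (∑ i, ∑ j, |(cart a i j : ℝ)| * y j) ≤ e2)
    (h2 : 2 * e2 ≤ η * ρ) :
    Feas a K (KH6_m y u m D L K η c) y ∧ ∀ k, 1 ≤ k → k ≤ L → ∀ i, i ∉ D → 0 < y i →
      (1 - η) * P k i - e2 ≤ vacR a K (KH6_m y u m D L K η c) k i ∧
      (1 - η) * m k i ≤ KH6_m y u m D L K η c k i := by
  have hK0' : 0 < K := by omega
  have hK0 : (0 : ℝ) < K := by exact_mod_cast hK0'
  have hLK' : L < K := by omega
  have hLKr : 2 * (L : ℝ) ≤ K := by exact_mod_cast hLK
  have hc' : ∀ i, cR a y i - cR a (massR L m) i ≤ ∑ i, ∑ j, |(cart a i j : ℝ)| * y j := by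
    intro i
    rw [← cR_sub]
    have h3 : cR a (y - massR L m) i ≤ ∑ j, |(cart a i j : ℝ)| * y j := by
      unfold cR
      refine Finset.sum_le_sum fun j _ => ?_
      have h4 : 0 ≤ (y - massR L m) j := sub_nonneg.2 (hl.mass L j)
      have h5 : (y - massR L m) j ≤ y j := by
        show y j - massR L m j ≤ y j
        have := KH6_mass_nn hl L j
        linarith
      calc (cart a i j : ℝ) * (y - massR L m) j ≤ |(cart a i j : ℝ)| * (y - massR L m) j :=
            mul_le_mul_of_nonneg_right (le_abs_self _) h4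
        _ ≤ |(cart a i j : ℝ)| * y j := mul_le_mul_of_nonneg_left h5 (abs_nonneg _)
    exact h3.trans (Finset.single_le_sum (f := fun i => ∑ j, |(cart a i j : ℝ)| * y j)
      (fun i _ => Finset.sum_nonneg fun j _ => mul_nonneg (abs_nonneg _) (hy.1 j))
      (Finset.mem_univ i))
  have hc'0 : 0 ≤ ∑ i, ∑ j, |(cart a i j : ℝ)| * y j :=
    Finset.sum_nonneg fun i _ => Finset.sum_nonneg fun j _ => mul_nonneg (abs_nonneg _) (hy.1 j)
  have he20 : 0 ≤ e2 := le_trans (by positivity) he2
  -- nonnegativity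
  have hwnn : ∀ l i, 0 ≤ KH6_w y u m L K η c l i := by
    intro l i
    unfold KH6_w
    have t1 : 0 ≤ (1 - η) * m l i := mul_nonneg (by linarith) (hl.mnn l i)
    have t2 : 0 ≤ η * (y i - c * u i) := mul_nonneg hη0 (sub_nonneg.2 (hcu i))
    have t3 : 0 ≤ ((1 - η) * (y i - massR L m i) + η * (c * u i)) / K := by
      apply div_nonneg _ hK0.le
      apply add_nonneg
      · exact mul_nonneg (by linarith) (sub_nonneg.2 (hl.mass L i))
      · exact mul_nonneg hη0 (mul_nonneg hc0.le (hD.unn i))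
    split_ifs <;> linarith
  have hnn : ∀ l i, 0 ≤ KH6_m y u m D L K η c l i := by
    intro l i
    unfold KH6_m
    split_ifs
    · exact hy.1 i
    · exact le_rfl
    · exact hwnn l i
  have hmass : ∀ i, massR K (KH6_m y u m D L K η c) i = y i := by
    intro i
    by_cases hi : i ∈ D
    · unfold massR
      rw [Finset.sum_eq_single 1]
      · simp [KH6_m, hi]
      · intro l _ hl1
        simp [KH6_m, hi, hl1]
      · intro h
        exact absurd (Finset.mem_Icc.2 ⟨le_rfl, by omega⟩) h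
    · have e3 : massR K (KH6_m y u m D L K η c) i = ∑ l ∈ Finset.Icc 1 K, (l : ℝ) *
          ((if l ≤ L then (1 - η) * m l i else 0) + (if l = 1 then η * (y i - c * u i) else 0) +
          (if l = K then ((1 - η) * (y i - massR L m i) + η * (c * u i)) / K else 0)) := by
        unfold massR
        refine Finset.sum_congr rfl fun l _ => ?_
        unfold KH6_m KH6_w massR
        rw [if_neg hi]
      rw [e3, KH6_sum L K hL hLK' (fun l => (l : ℝ))]
      have e4 : ∑ l ∈ Finset.Icc 1 L, (l : ℝ) * ((1 - η) * m l i) = (1 - η) * massR L m i := by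
        unfold massR
        rw [Finset.mul_sum]
        refine Finset.sum_congr rfl fun l _ => ?_
        ring
      rw [e4]
      push_cast
      field_simp
      ring
  have hmassf : massR K (KH6_m y u m D L K η c) = y := funext hmass
  have hm0 : ∀ l, 1 ≤ l → ∀ j, j ∉ D → y j = 0 → KH6_m y u m D L K η c l j = 0 := by
    intro l hl1 j hj hyj
    unfold KH6_m
    rw [if_neg hj]
    exact KH6_wzero hD hl hyj L K η c hl1
  -- vacancy numbers off `D`
  have hoff : ∀ k i, i ∉ D → 0 < y i → vacR a K (KH6_m y u m D L K η c) k i =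
      vacR a K (KH6_w y u m L K η c) k i := by
    intro k i hi hyi
    unfold vacR
    refine Finset.sum_congr rfl fun l _ => ?_
    rw [KH6_cR_off hs hD hi hyi (x' := KH6_w y u m L K η c l) fun j hj => by
      unfold KH6_m
      rw [if_neg hj]]
  have hbr2 : ∀ k, k ≤ K → ∀ i, i ∉ D → 0 < y i →
      ρ * (1 - (k : ℝ) / K) ≤ -cR a y i + c * (1 - (k : ℝ) / K) * cR a u i := by
    intro k hk i hi hyi
    have hkK : (k : ℝ) ≤ K := by exact_mod_cast hk
    have h3 : (k : ℝ) / K ≤ 1 := by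
      rw [div_le_one hK0]
      exact hkK
    have h4 : 0 ≤ (k : ℝ) / K := by positivity
    exact hρ i hi hyi _ (by linarith) (by linarith)
  have hsmall : ∀ k, 1 ≤ k → k ≤ L → ∀ i, i ∉ D → 0 < y i →
      P k i - e2 ≤ vacR a L m k i - ((k : ℝ) / K) * (cR a y i - cR a (massR L m) i) := by
    intro k hk hkL i _ _
    have h3 := (abs_le.1 (hrel k hk hkL i)).2
    have h4 : ((k : ℝ) / K) * (cR a y i - cR a (massR L m) i) ≤
        (L : ℝ) / K * (∑ i, ∑ j, |(cart a i j : ℝ)| * y j) := by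
      have h5 : (k : ℝ) / K ≤ (L : ℝ) / K := by
        apply div_le_div_of_nonneg_right _ hK0.le
        exact_mod_cast hkL
      calc ((k : ℝ) / K) * (cR a y i - cR a (massR L m) i)
          ≤ ((k : ℝ) / K) * (∑ i, ∑ j, |(cart a i j : ℝ)| * y j) :=
            mul_le_mul_of_nonneg_left (hc' i) (by positivity)
        _ ≤ (L : ℝ) / K * (∑ i, ∑ j, |(cart a i j : ℝ)| * y j) :=
            mul_le_mul_of_nonneg_right h5 hc'0
    linarith
  have hlarge : ∀ k, L ≤ k → k ≤ K → ∀ i, i ∉ D → 0 < y i →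
      -((1 - (k : ℝ) / K) * e1) ≤
        vacR a L m k i - ((k : ℝ) / K) * (cR a y i - cR a (massR L m) i) := by
    intro k hk hkK i _ _
    have h3 : ∀ k', L ≤ k' → vacR a L m k' i = -cR a (massR L m) i := by
      intro k' hk'
      rw [← massR_sum_cR a L m i]
      unfold vacR
      rw [← Finset.sum_neg_distrib]
      refine Finset.sum_congr rfl fun l hll => ?_
      rw [min_eq_right ((Finset.mem_Icc.1 hll).2.trans hk')]
      ring
    have h4 := (abs_le.1 (hrel L hL le_rfl i)).2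
    rw [h3 L le_rfl] at h4
    have h5 := hl.Pnn L i
    rw [h3 k hk]
    have hkK' : (k : ℝ) / K ≤ 1 := by
      rw [div_le_one hK0]
      exact_mod_cast hkK
    have h6 : 0 ≤ (k : ℝ) / K := by positivity
    have h7 : 0 ≤ (1 - (k : ℝ) / K) * (-cR a (massR L m) i + e1) :=
      mul_nonneg (by linarith) (by linarith)
    have h8 : 0 ≤ (k : ℝ) / K * -cR a y i := mul_nonneg h6 (by linarith [hy.2 i])
    nlinarith
  have he12 : e1 ≤ e2 := by
    have : 0 ≤ (L : ℝ) / K * (∑ i, ∑ j, |(cart a i j : ℝ)| * y j) := by positivity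
    linarith
  refine ⟨⟨hnn, ?_, hmass, ?_⟩, ?_⟩
  · intro l i hlK
    unfold KH6_m KH6_w
    have t1 : ¬ l = 1 := by omega
    have t2 : ¬ l ≤ L := by omega
    have t3 : ¬ l = K := by omega
    rw [if_neg t1, if_neg t2, if_neg t1, if_neg t3]
    split_ifs <;> ring
  · intro k i
    rcases Nat.eq_zero_or_pos k with rfl | hk
    · unfold vacR
      simp
    rcases Nat.lt_or_ge K k with hkK | hkK
    · have h3 : vacR a K (KH6_m y u m D L K η c) k i = -cR a y i := by
        rw [← hmassf, ← massR_sum_cR, hmassf]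
        unfold vacR
        rw [← Finset.sum_neg_distrib]
        refine Finset.sum_congr rfl fun l hll => ?_
        rw [min_eq_right ((Finset.mem_Icc.1 hll).2.trans hkK.le)]
        ring
      rw [h3]
      linarith [hy.2 i]
    by_cases hi : i ∈ D
    · have h3 : ∀ l, 1 ≤ l → cR a (KH6_m y u m D L K η c l) i = 0 := by
        intro l hl1
        rw [KH6_cR_D hD hy (hm0 l hl1) hi]
        by_cases h1 : l = 1
        · rw [← hD.Dzero i hi, KH6_cR_D hD hy (fun j _ h => h) hi]
          refine Finset.sum_congr rfl fun j hj => ?_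
          unfold KH6_m
          rw [if_pos hj, if_pos h1]
        · refine Finset.sum_eq_zero fun j hj => ?_
          unfold KH6_m
          rw [if_pos hj, if_neg h1, mul_zero]
      unfold vacR
      refine (Finset.sum_eq_zero fun l hll => ?_).ge
      rw [h3 l (Finset.mem_Icc.1 hll).1, neg_zero, mul_zero]
    rcases (hy.1 i).eq_or_lt with hyi | hyi
    · unfold vacR
      refine Finset.sum_nonneg fun l hll => ?_
      have h3 := cR_nonpos_of_zero a (KH6_m y u m D L K η c l) (hnn l) i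
        (hm0 l (Finset.mem_Icc.1 hll).1 i hi hyi.symm)
      exact mul_nonneg (Nat.cast_nonneg _) (by linarith)
    · rw [hoff k i hi hyi, KH6_vacw L K hL hLK' η c k hk hkK i]
      have h3 := hbr2 k hkK i hi hyi
      have hkK' : (k : ℝ) / K ≤ 1 := by
        rw [div_le_one hK0]
        exact_mod_cast hkK
      have h4 : -(2 * e2 * (1 - (k : ℝ) / K)) ≤
          vacR a L m k i - ((k : ℝ) / K) * (cR a y i - cR a (massR L m) i) := by
        rcases Nat.lt_or_ge L k with hk2 | hk2
        · have h5 := hlarge k hk2.le hkK i hi hyi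
          have h6 : (1 - (k : ℝ) / K) * e1 ≤ 2 * e2 * (1 - (k : ℝ) / K) := by
            have : 0 ≤ 1 - (k : ℝ) / K := by linarith
            nlinarith
          linarith
        · have h5 := hsmall k hk hk2 i hi hyi
          have h6 := hl.Pnn k i
          have h7 : (k : ℝ) / K ≤ 1 / 2 := by
            rw [div_le_div_iff₀ hK0 two_pos]
            have : (k : ℝ) ≤ L := by exact_mod_cast hk2
            linarith
          have h8 : e2 ≤ 2 * e2 * (1 - (k : ℝ) / K) := by nlinarith
          linarith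
      have h5 : (1 - η) * -(2 * e2 * (1 - (k : ℝ) / K)) ≤ (1 - η) *
          (vacR a L m k i - ((k : ℝ) / K) * (cR a y i - cR a (massR L m) i)) :=
        mul_le_mul_of_nonneg_left h4 (by linarith)
      have h6 : η * (ρ * (1 - (k : ℝ) / K)) ≤
          η * (-cR a y i + c * (1 - (k : ℝ) / K) * cR a u i) :=
        mul_le_mul_of_nonneg_left h3 hη0
      have h7 : 0 ≤ 1 - (k : ℝ) / K := by linarith
      have h8 : 0 ≤ (η * ρ - 2 * e2) * (1 - (k : ℝ) / K) := mul_nonneg (by linarith) h7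
      have h9 : 0 ≤ η * (2 * e2 * (1 - (k : ℝ) / K)) := by positivity
      nlinarith
  · intro k hk hkL i hi hyi
    constructor
    · rw [hoff k i hi hyi, KH6_vacw L K hL hLK' η c k hk (by omega) i]
      have h3 := hbr2 k (by omega) i hi hyi
      have hkK' : (k : ℝ) / K ≤ 1 := by
        rw [div_le_one hK0]
        exact_mod_cast (by omega : k ≤ K)
      have h4 := mul_le_mul_of_nonneg_left (hsmall k hk hkL i hi hyi) (by linarith : 0 ≤ 1 - η)
      have h5 : 0 ≤ -cR a y i + c * (1 - (k : ℝ) / K) * cR a u i := by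
        refine le_trans ?_ h3
        exact mul_nonneg hρ0.le (by linarith)
      have h6 := mul_nonneg hη0 h5
      have h7 : 0 ≤ η * e2 := mul_nonneg hη0 he20
      nlinarith
    · unfold KH6_m KH6_w
      rw [if_neg hi, if_pos hkL]
      have t2 : 0 ≤ η * (y i - c * u i) := mul_nonneg hη0 (sub_nonneg.2 (hcu i))
      have t3 : 0 ≤ ((1 - η) * (y i - massR L m i) + η * (c * u i)) / K := by
        apply div_nonneg _ hK0.le
        apply add_nonneg
        · exact mul_nonneg (by linarith) (sub_nonneg.2 (hl.mass L i))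
        · exact mul_nonneg hη0 (mul_nonneg hc0.le (hD.unn i))
      split_ifs <;> linarith

end

theorem truncate (a : I → I → ℕ) (hs : ∀ i j, a i j = a j i) (y : I → ℝ) (hy : Kon a y)
    (D : Finset I) (u : I → ℝ) (hD : StrictData a y D u) (P m : ℕ → I → ℝ)
    (hl : LimData a y P m) (L0 : ℕ) (ε : ℝ) (hε : 0 < ε) :
    ∃ (K : ℕ) (m' : ℕ → I → ℝ), Feas a K m' y ∧
      (∑ k ∈ Finset.Icc 1 L0, ∑ i, ent (P k i) (m k i)) - ε ≤ EntR a K m' := by
  classical
  obtain ⟨c, hc0, hcu, hcc⟩ := KH6_c hD hy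
  obtain ⟨ρ, hρ0, hρ⟩ := KH6_rho hD hy hc0 hcc
  obtain ⟨F, hFd⟩ : ∃ F : ℝ × ℝ → ℝ, F = fun p => ∑ k ∈ Finset.Icc 1 L0, ∑ i,
    ent (max 0 ((1 - p.1) * P k i - p.2)) ((1 - p.1) * m k i) := ⟨_, rfl⟩
  have hF : Continuous F := by
    rw [hFd]
    refine continuous_finsetSum _ fun k _ => continuous_finsetSum _ fun i _ => ?_
    have h1 : Continuous fun p : ℝ × ℝ =>
        (max 0 ((1 - p.1) * P k i - p.2), (1 - p.1) * m k i) := by
      refine Continuous.prodMk ?_ ?_
      · exact continuous_const.max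
          (((continuous_const.sub continuous_fst).mul continuous_const).sub continuous_snd)
      · exact (continuous_const.sub continuous_fst).mul continuous_const
    exact ent_continuous.comp h1
  have hF0 : F (0, 0) = ∑ k ∈ Finset.Icc 1 L0, ∑ i, ent (P k i) (m k i) := by
    rw [hFd]
    refine Finset.sum_congr rfl fun k _ => Finset.sum_congr rfl fun i _ => ?_
    simp only [sub_zero, one_mul]
    rw [max_eq_right (hl.Pnn k i)]
  have h1 : ∀ᶠ p in 𝓝 ((0, 0) : ℝ × ℝ), F (0, 0) - ε < F p :=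
    (hF.tendsto (0, 0)).eventually_const_lt (by linarith)
  obtain ⟨δ, hδ, h2⟩ := Metric.eventually_nhds_iff.1 h1
  obtain ⟨η, hηd⟩ : ∃ η : ℝ, η = min (δ / 2) (1 / 2) := ⟨_, rfl⟩
  have hη0 : 0 < η := by rw [hηd]; exact lt_min (by linarith) (by norm_num)
  have hη1 : η ≤ 1 := by
    have : η ≤ 1 / 2 := by rw [hηd]; exact min_le_right _ _
    linarith
  have hηδ : η < δ := by
    have : η ≤ δ / 2 := by rw [hηd]; exact min_le_left _ _
    linarith
  obtain ⟨e2, he2d⟩ : ∃ e2 : ℝ, e2 = min (δ / 2) (η * ρ / 2) := ⟨_, rfl⟩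
  have he20 : 0 < e2 := by rw [he2d]; exact lt_min (by linarith) (by positivity)
  have he2ρ : 2 * e2 ≤ η * ρ := by
    have : e2 ≤ η * ρ / 2 := by rw [he2d]; exact min_le_right _ _
    linarith
  have he2δ : e2 < δ := by
    have : e2 ≤ δ / 2 := by rw [he2d]; exact min_le_left _ _
    linarith
  obtain ⟨L1, hL1⟩ := hl.rel (e2 / 2) (by linarith)
  obtain ⟨L, hLd⟩ : ∃ L : ℕ, L = max (max L0 L1) 1 := ⟨_, rfl⟩
  have hLL0 : L0 ≤ L := by omega
  have hLL1 : L1 ≤ L := by omega
  have hL1' : 1 ≤ L := by omega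
  obtain ⟨C, hCd⟩ : ∃ C : ℝ, C = ∑ i, ∑ j, |(cart a i j : ℝ)| * y j := ⟨_, rfl⟩
  obtain ⟨K0, hK0⟩ := exists_nat_ge (2 * L * C / e2)
  obtain ⟨K, hKd⟩ : ∃ K : ℕ, K = max K0 (2 * L) := ⟨_, rfl⟩
  have hKL : 2 * L ≤ K := by omega
  have hKK0 : K0 ≤ K := by omega
  have hKpos : (0 : ℝ) < K := by
    have : 0 < K := by omega
    exact_mod_cast this
  have he2' : e2 / 2 + (L : ℝ) / K * (∑ i, ∑ j, |(cart a i j : ℝ)| * y j) ≤ e2 := by
    rw [← hCd]
    have h3 : 2 * (L : ℝ) * C / e2 ≤ K := hK0.trans (by exact_mod_cast hKK0)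
    rw [div_le_iff₀ he20] at h3
    have h4 : (L : ℝ) / K * C ≤ e2 / 2 := by
      rw [div_mul_eq_mul_div, div_le_div_iff₀ hKpos two_pos]
      linarith
    linarith
  obtain ⟨hfe, hlow⟩ := KH6_core hs hD hy hl hc0 hcu hρ hρ0 hη0.le hη1 (by linarith : 0 ≤ e2 / 2)
    hL1' hKL (hL1 L hLL1) he2' he2ρ
  refine ⟨K, KH6_m y u m D L K η c, hfe, ?_⟩
  have h3 : F (0, 0) - ε < F (η, e2) := by
    apply h2
    rw [Prod.dist_eq, Real.dist_eq, Real.dist_eq, sub_zero, sub_zero, abs_of_pos hη0,
      abs_of_pos he20]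
    exact max_lt hηδ he2δ
  have h4 : F (η, e2) ≤ EntR a K (KH6_m y u m D L K η c) := by
    have h5 : ∀ k ∈ Finset.Icc 1 L0, ∀ i, ent (max 0 ((1 - η) * P k i - e2)) ((1 - η) * m k i) ≤
        ent (vacR a K (KH6_m y u m D L K η c) k i) (KH6_m y u m D L K η c k i) := by
      intro k hk i
      rw [Finset.mem_Icc] at hk
      have h6 := ent_nonneg (hfe.vac k i) (hfe.nn k i)
      by_cases hi : i ∈ D
      · rw [KH6_P0 hs hD hy hl hk.1 hi, mul_zero, zero_sub, max_eq_left (by linarith),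
          ent_zero_left]
        exact h6
      · rcases (hy.1 i).eq_or_lt with hyi | hyi
        · rw [KH6_mzero hl hyi.symm hk.1, mul_zero, ent_zero_right]
          exact h6
        · obtain ⟨h7, h8⟩ := hlow k hk.1 (hk.2.trans hLL0) i hi hyi
          exact ent_mono (le_max_left _ _) (mul_nonneg (by linarith) (hl.mnn k i))
            (max_le (hfe.vac k i) h7) h8
    rw [hFd]
    calc ∑ k ∈ Finset.Icc 1 L0, ∑ i, ent (max 0 ((1 - η) * P k i - e2)) ((1 - η) * m k i)
        ≤ ∑ k ∈ Finset.Icc 1 L0, ∑ i, ent (vacR a K (KH6_m y u m D L K η c) k i)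
          (KH6_m y u m D L K η c k i) :=
          Finset.sum_le_sum fun k hk => Finset.sum_le_sum fun i _ => h5 k hk i
      _ ≤ EntR a K (KH6_m y u m D L K η c) := by
          unfold EntR
          refine Finset.sum_le_sum_of_subset_of_nonneg ?_ ?_
          · intro k hk
            rw [Finset.mem_Icc] at hk ⊢
            omega
          · intro k _ _
            exact Finset.sum_nonneg fun i _ => ent_nonneg (hfe.vac k i) (hfe.nn k i)
  rw [← hF0]
  linarith

end Pool.Agent.H27.KAC
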