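import Pool.Agent.H27.KAC.KH3
import Pool.Agent.H27.KAC.KH4
import Pool.Agent.H27.KAC.KH5
import Pool.Agent.H27.KAC.KH6

/-!
KAC module KH7: continuity of the growth function on the real cone.

`PhiR_usc`: otherwise there are `z n ∈ Kon`, `dist (z n) y < 1/(n+1)`, `PhiR a (z n) > PhiR a y + ε`, and (`exists_Feas_lt`) feasible
`m n` for `z n` with entropy `> PhiR a y + ε`; `limData_exists` with `E = PhiR a y + ε`, error `ε/3`, then `truncate` with error `ε/3`
and `le_PhiR`.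
-/

set_option autoImplicit false

namespace Pool.Agent.H27.KAC

open scoped BigOperators
open Filter Topology

variable {I : Type} [Fintype I] [DecidableEq I]

theorem PhiR_usc (a : I → I → ℕ) (hs : ∀ i j, a i j = a j i) (hd : ∀ i, a i i ≠ 1)
    (y : I → ℝ) (hy : Kon a y) (ε : ℝ) (hε : 0 < ε) :
    ∃ δ : ℝ, 0 < δ ∧ ∀ z : I → ℝ, Kon a z → dist z y < δ → PhiR a z ≤ PhiR a y + ε := by
  by_contra hcon
  push Not at hcon
  have h1 : ∀ n : ℕ, ∃ z : I → ℝ, Kon a z ∧ dist z y < 1 / ((n : ℝ) + 1) ∧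
      PhiR a y + ε < PhiR a z := fun n => by
    obtain ⟨z, hz1, hz2, hz3⟩ := hcon (1 / ((n : ℝ) + 1)) (by positivity)
    exact ⟨z, hz1, hz2, hz3⟩
  choose z hzK hzd hzP using h1
  have h2 : ∀ n : ℕ, ∃ (K : ℕ) (m : ℕ → I → ℝ), Feas a K m (z n) ∧ PhiR a y + ε < EntR a K m :=
    fun n => exists_Feas_lt (hzK n) (hzP n)
  choose K m hF hE using h2
  have hzt : Tendsto z atTop (𝓝 y) := by
    rw [tendsto_iff_dist_tendsto_zero]
    exact squeeze_zero (fun _ => dist_nonneg) (fun n => (hzd n).le)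
      tendsto_one_div_add_atTop_nhds_zero_nat
  obtain ⟨P, m', hl, hlim⟩ := limData_exists a y z hzt K m hF (PhiR a y + ε) (fun n => (hE n).le)
  obtain ⟨L0, hL0⟩ := hlim (ε / 3) (by positivity)
  obtain ⟨D, u, hD⟩ := strict_exists a hs hd y hy
  obtain ⟨K', m'', hF', hE'⟩ := truncate a hs y hy D u hD P m' hl L0 (ε / 3) (by positivity)
  have h3 := hL0 L0 le_rfl
  have h4 := le_PhiR hF'
  linarith

theorem PhiR_continuousOn (a : I → I → ℕ) (hs : ∀ i j, a i j = a j i) (hd : ∀ i, a i i ≠ 1) :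
    ContinuousOn (PhiR a) {y : I → ℝ | Kon a y} := by
  rw [Metric.continuousOn_iff]
  intro y hy ε hε
  obtain ⟨δ1, hδ1, h1⟩ := PhiR_usc a hs hd y hy (ε / 2) (by positivity)
  obtain ⟨δ2, hδ2, h2⟩ := PhiR_lsc a y hy (ε / 2) (by positivity)
  refine ⟨min δ1 δ2, lt_min hδ1 hδ2, fun z hz hzy => ?_⟩
  have h3 := h1 z hz (hzy.trans_le (min_le_left _ _))
  have h4 := h2 z hz (hzy.trans_le (min_le_right _ _))
  rw [Real.dist_eq, abs_lt]
  constructor <;> linarith

end Pool.Agent.H27.KAC
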