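import Pool.Agent.H27.KAC.Defs

/-!
KAC, homogeneous continuity: real multipartitions and the growth function on the real cone.
-/

namespace Pool.Agent.H27.KAC

open scoped BigOperators

/-- entropy. -/
noncomputable def ent (P m : ℝ) : ℝ :=
  (P + m) * Real.log (P + m) - P * Real.log P - m * Real.log m

section

variable {I : Type} [Fintype I] [DecidableEq I]

/-- `(C x)_i` for real vectors. -/
def cR (a : I → I → ℕ) (x : I → ℝ) (i : I) : ℝ := ∑ j, (cart a i j : ℝ) * x j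

/-- the real fundamental cone. -/
def Kon (a : I → I → ℕ) (y : I → ℝ) : Prop := (∀ i, 0 ≤ y i) ∧ ∀ i, cR a y i ≤ 0

/-- total mass of the parts of size at most `K`. -/
def massR (K : ℕ) (m : ℕ → I → ℝ) (i : I) : ℝ := ∑ l ∈ Finset.Icc 1 K, (l : ℝ) * m l i

/-- real vacancy numbers. -/
def vacR (a : I → I → ℕ) (K : ℕ) (m : ℕ → I → ℝ) (k : ℕ) (i : I) : ℝ :=
  ∑ l ∈ Finset.Icc 1 K, ((min k l : ℕ) : ℝ) * (-cR a (m l) i)

/-- entropy of a real multipartition. -/
noncomputable def EntR (a : I → I → ℕ) (K : ℕ) (m : ℕ → I → ℝ) : ℝ :=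
  ∑ k ∈ Finset.Icc 1 K, ∑ i, ent (vacR a K m k i) (m k i)

/-- feasible real multipartitions of `y` with parts at most `K`. -/
structure Feas (a : I → I → ℕ) (K : ℕ) (m : ℕ → I → ℝ) (y : I → ℝ) : Prop where
  nn : ∀ l i, 0 ≤ m l i
  out : ∀ l i, K < l → m l i = 0
  mass : ∀ i, massR K m i = y i
  vac : ∀ k i, 0 ≤ vacR a K m k i

/-- the growth function on the real cone. -/
noncomputable def PhiR (a : I → I → ℕ) (y : I → ℝ) : ℝ :=
  sSup {x : ℝ | ∃ (K : ℕ) (m : ℕ → I → ℝ), Feas a K m y ∧ x = EntR a K m}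

/-- `D` = the part of the support of `y` consisting of isotropic components, `u` = a direction in which the
vanishing `(C y)_i` outside `D` become positive. -/
structure StrictData (a : I → I → ℕ) (y : I → ℝ) (D : Finset I) (u : I → ℝ) : Prop where
  Dpos : ∀ i ∈ D, 0 < y i
  Dzero : ∀ i ∈ D, cR a y i = 0
  Dsep : ∀ i ∈ D, ∀ j, j ∉ D → 0 < y j → a i j = 0
  unn : ∀ i, 0 ≤ u i
  usupp : ∀ i, y i = 0 → u i = 0
  uD : ∀ i ∈ D, u i = 0
  upos : ∀ i, i ∉ D → 0 < y i → cR a y i = 0 → 0 < cR a u i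

/-- limits of the vacancy numbers and of the multiplicities of a sequence of multipartitions. -/
structure LimData (a : I → I → ℕ) (y : I → ℝ) (P m : ℕ → I → ℝ) : Prop where
  mnn : ∀ k i, 0 ≤ m k i
  Pnn : ∀ k i, 0 ≤ P k i
  mass : ∀ L i, massR L m i ≤ y i
  rel : ∀ ε : ℝ, 0 < ε → ∃ L0 : ℕ, ∀ L, L0 ≤ L → ∀ k, 1 ≤ k → k ≤ L → ∀ i,
    |P k i - vacR a L m k i| ≤ ε

end

end Pool.Agent.H27.KAC
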