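import Pool.Agent.H27.KAC.PR_Exact

/-!
Project KAC, part I.2: Bernstein-Gelfand-Ponomarev reflection at a sink.

`qIn` is the quiver with vertices `Option I0` in which `none` is a sink, `qOut` the quiver with the arrows at `none`
reversed.  Two representations are related (`BR`) if they agree on `I0` and the maps at `none` form a split exact
sequence.
-/

set_option autoImplicit false

namespace Pool.Agent.H27.KAC

open scoped BigOperators

variable {I0 E0 J : Type}

/-- `none` is a sink. -/
def qIn (Q0 : Quiv I0 E0) (o : J → I0) : Quiv (Option I0) (E0 ⊕ J) where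
  src := Sum.elim (fun e => some (Q0.src e)) (fun j => some (o j))
  tgt := Sum.elim (fun e => some (Q0.tgt e)) (fun _ => none)

/-- `none` is a source. -/
def qOut (Q0 : Quiv I0 E0) (o : J → I0) : Quiv (Option I0) (E0 ⊕ J) where
  src := Sum.elim (fun e => some (Q0.src e)) (fun _ => none)
  tgt := Sum.elim (fun e => some (Q0.tgt e)) (fun j => some (o j))

/-- dimension `n` at `none` and `β` at the other vertices. -/
def oc (n : ℕ) (β : I0 → ℕ) : Option I0 → ℕ := fun v => v.elim n β

section

variable {Q0 : Quiv I0 E0} {o : J → I0} {F : Type} [Field F] {n m : ℕ} {β : I0 → ℕ}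

/-- the index set of the middle term -/
abbrev Mid (o : J → I0) (β : I0 → ℕ) : Type := Σ j : J, Fin (β (o j))

/-- restriction to `I0` of a representation of `qIn` -/
def resIn (x : Rp (qIn Q0 o) F (oc n β)) (e : E0) :
    Matrix (Fin (β (Q0.tgt e))) (Fin (β (Q0.src e))) F := x (Sum.inl e)

/-- restriction to `I0` of a representation of `qOut` -/
def resOut (y : Rp (qOut Q0 o) F (oc m β)) (e : E0) :
    Matrix (Fin (β (Q0.tgt e))) (Fin (β (Q0.src e))) F := y (Sum.inl e)

/-- the arrows ending at `none` -/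
def hj (x : Rp (qIn Q0 o) F (oc n β)) (j : J) : Matrix (Fin n) (Fin (β (o j))) F :=
  x (Sum.inr j)

/-- the arrows starting at `none` -/
def lj (y : Rp (qOut Q0 o) F (oc m β)) (j : J) : Matrix (Fin (β (o j))) (Fin m) F :=
  y (Sum.inr j)

/-- the map of the middle term to the space at `none` -/
def hM (x : Rp (qIn Q0 o) F (oc n β)) : Matrix (Fin n) (Mid o β) F :=
  fun a p => hj x p.1 a p.2

/-- the map of the space at `none` to the middle term -/
def lM (y : Rp (qOut Q0 o) F (oc m β)) : Matrix (Mid o β) (Fin m) F :=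
  fun p a => lj y p.1 p.2 a

/-- a family of matrices on `I0` -/
abbrev Fam (F : Type) (β : I0 → ℕ) : Type := (v : I0) → Matrix (Fin (β v)) (Fin (β v)) F

/-- a family of matrices on `Option I0` -/
abbrev Fam' (F : Type) (n : ℕ) (β : I0 → ℕ) : Type :=
  (v : Option I0) → Matrix (Fin (oc n β v)) (Fin (oc n β v)) F

/-- the restriction of a family -/
def fs (f : Fam' F n β) : Fam F β := fun v => f (some v)

/-- the component at `none` -/
def fn (f : Fam' F n β) : Matrix (Fin n) (Fin n) F := f none

/-- the family with the given components -/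
def fc (g : Matrix (Fin n) (Fin n) F) (f : Fam F β) : Fam' F n β := fun v =>
  match v with
  | none => g
  | some v => f v

variable [Fintype J] [DecidableEq J]

/-- the action of a family on the middle term -/
def dM (o : J → I0) (f : Fam F β) : Matrix (Mid o β) (Mid o β) F :=
  Matrix.blockDiagonal' (fun j => f (o j))

theorem dM_mul (f g : Fam F β) : dM o (fun v => f v * g v) = dM o f * dM o g := by
  unfold dM
  rw [← Matrix.blockDiagonal'_mul]

theorem dM_one : dM o (fun _ => 1 : Fam F β) = 1 := by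
  unfold dM
  exact Matrix.blockDiagonal'_one

theorem dM_zero : dM o (fun _ => 0 : Fam F β) = 0 := by
  unfold dM
  exact Matrix.blockDiagonal'_zero

/-- morphism on the restrictions -/
def Mor0 (x y : (e : E0) → Matrix (Fin (β (Q0.tgt e))) (Fin (β (Q0.src e))) F) (f : Fam F β) :
    Prop := ∀ e, f (Q0.tgt e) * x e = y e * f (Q0.src e)

theorem hM_mul_dM (x : Rp (qIn Q0 o) F (oc n β)) (f : Fam F β) (a : Fin n) (p : Mid o β) :
    (hM x * dM o f) a p = (hj x p.1 * f (o p.1)) a p.2 := by
  obtain ⟨j, b⟩ := p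
  rw [Matrix.mul_apply, Matrix.mul_apply, Fintype.sum_sigma, Finset.sum_eq_single j]
  · refine Finset.sum_congr rfl fun c _ => ?_
    unfold hM dM
    rw [Matrix.blockDiagonal'_apply_eq]
  · intro j' _ hj
    refine Finset.sum_eq_zero fun c _ => ?_
    unfold dM
    rw [Matrix.blockDiagonal'_apply_ne _ _ _ hj, mul_zero]
  · intro h
    exact absurd (Finset.mem_univ j) h

theorem dM_mul_lM (y : Rp (qOut Q0 o) F (oc m β)) (f : Fam F β) (p : Mid o β) (a : Fin m) :
    (dM o f * lM y) p a = (f (o p.1) * lj y p.1) p.2 a := by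
  obtain ⟨j, b⟩ := p
  rw [Matrix.mul_apply, Matrix.mul_apply, Fintype.sum_sigma, Finset.sum_eq_single j]
  · refine Finset.sum_congr rfl fun c _ => ?_
    unfold lM dM
    rw [Matrix.blockDiagonal'_apply_eq]
  · intro j' _ hj
    refine Finset.sum_eq_zero fun c _ => ?_
    unfold dM
    rw [Matrix.blockDiagonal'_apply_ne _ _ _ (Ne.symm hj), zero_mul]
  · intro h
    exact absurd (Finset.mem_univ j) h

theorem isMor_in_iff (x y : Rp (qIn Q0 o) F (oc n β)) (f : Fam' F n β) :
    IsMor x y f ↔ Mor0 (resIn x) (resIn y) (fs f) ∧ fn f * hM x = hM y * dM o (fs f) := by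
  constructor
  · intro h
    refine ⟨fun e => h (Sum.inl e), ?_⟩
    ext a p
    rw [hM_mul_dM]
    have h1 := h (Sum.inr p.1)
    change fn f * hj x p.1 = hj y p.1 * fs f (o p.1) at h1
    rw [← h1]
    rfl
  · rintro ⟨h1, h2⟩ e
    rcases e with e | j
    · exact h1 e
    · show fn f * hj x j = hj y j * fs f (o j)
      ext a b
      have h3 := congrFun (congrFun h2 a) ⟨j, b⟩
      rw [hM_mul_dM] at h3
      rw [← h3]
      rfl

theorem isMor_out_iff (x y : Rp (qOut Q0 o) F (oc m β)) (f : Fam' F m β) :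
    IsMor x y f ↔ Mor0 (resOut x) (resOut y) (fs f) ∧ dM o (fs f) * lM x = lM y * fn f := by
  constructor
  · intro h
    refine ⟨fun e => h (Sum.inl e), ?_⟩
    ext p a
    rw [dM_mul_lM]
    have h1 := h (Sum.inr p.1)
    change fs f (o p.1) * lj x p.1 = lj y p.1 * fn f at h1
    rw [h1]
    rfl
  · rintro ⟨h1, h2⟩ e
    rcases e with e | j
    · exact h1 e
    · show fs f (o j) * lj x j = lj y j * fn f
      ext b a
      have h3 := congrFun (congrFun h2 ⟨j, b⟩) a
      rw [dM_mul_lM] at h3
      rw [h3]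
      rfl

/-- The reflection relation. -/
def BR (x : Rp (qIn Q0 o) F (oc n β)) (y : Rp (qOut Q0 o) F (oc m β)) : Prop :=
  resIn x = resOut y ∧ ∃ (S : Matrix (Mid o β) (Fin n) F) (T : Matrix (Fin m) (Mid o β) F),
    hM x * lM y = 0 ∧ hM x * S = 1 ∧ T * lM y = 1 ∧ S * hM x + lM y * T = 1

/-- transfer of morphisms from `qIn` to `qOut` -/
theorem in_to_out {H H' : Matrix (Fin n) (Mid o β) F} {L L' : Matrix (Mid o β) (Fin m) F}
    {S' : Matrix (Mid o β) (Fin n) F} {T' : Matrix (Fin m) (Mid o β) F}
    (hHL : H * L = 0) (h' : S' * H' + L' * T' = 1) {D : Matrix (Mid o β) (Mid o β) F}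
    {g : Matrix (Fin n) (Fin n) F} (hg : g * H = H' * D) :
    D * L = L' * (T' * D * L) := by
  have h0 : H' * (D * L) = 0 := by rw [← Matrix.mul_assoc, ← hg, Matrix.mul_assoc, hHL,
    Matrix.mul_zero]
  calc D * L = (S' * H' + L' * T') * (D * L) := by rw [h', Matrix.one_mul]
    _ = S' * (H' * (D * L)) + L' * (T' * (D * L)) := by
      rw [Matrix.add_mul, Matrix.mul_assoc, Matrix.mul_assoc]
    _ = L' * (T' * D * L) := by rw [h0, Matrix.mul_zero, zero_add, Matrix.mul_assoc T' D L]

/-- transfer of morphisms from `qOut` to `qIn` -/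
theorem out_to_in {H H' : Matrix (Fin n) (Mid o β) F} {L L' : Matrix (Mid o β) (Fin m) F}
    {S : Matrix (Mid o β) (Fin n) F} {T : Matrix (Fin m) (Mid o β) F}
    (hHL' : H' * L' = 0) (h : S * H + L * T = 1) {D : Matrix (Mid o β) (Mid o β) F}
    {g : Matrix (Fin m) (Fin m) F} (hg : D * L = L' * g) :
    (H' * D * S) * H = H' * D := by
  have h0 : (H' * D) * L = 0 := by rw [Matrix.mul_assoc, hg, ← Matrix.mul_assoc, hHL',
    Matrix.zero_mul]
  calc (H' * D * S) * H = (H' * D) * (S * H) + ((H' * D) * L) * T := by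
        rw [h0, Matrix.zero_mul, add_zero, Matrix.mul_assoc (H' * D) S H]
    _ = (H' * D) * (S * H + L * T) := by
      rw [Matrix.mul_add, Matrix.mul_assoc (H' * D) L T]
    _ = H' * D := by rw [h, Matrix.mul_one]

theorem dM_mul_eq_one {f g : Fam F β} (h : ∀ v, f v * g v = 1) : dM o f * dM o g = 1 := by
  rw [← dM_mul]
  have : (fun v => f v * g v) = (fun _ => 1 : Fam F β) := funext h
  rw [this, dM_one]

theorem BR.isom_iff {x x' : Rp (qIn Q0 o) F (oc n β)} {y y' : Rp (qOut Q0 o) F (oc m β)}
    (h : BR x y) (h' : BR x' y') : Isom x x' ↔ Isom y y' := by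
  obtain ⟨h0, S, T, h1, h2, h3, h4⟩ := h
  obtain ⟨h0', S', T', h1', h2', h3', h4'⟩ := h'
  rw [isom_iff_inv, isom_iff_inv]
  constructor
  · rintro ⟨f, fi, hf, hfi, hffi, hfif⟩
    rw [isMor_in_iff] at hf hfi
    have e1 := dM_mul_eq_one (o := o) (f := fs f) (g := fs fi) fun v => hffi (some v)
    have e2 := dM_mul_eq_one (o := o) (f := fs fi) (g := fs f) fun v => hfif (some v)
    have k1 := in_to_out h1 h4' hf.2
    have k2 := in_to_out h1' h4 hfi.2
    refine ⟨fc (T' * dM o (fs f) * lM y) (fs f), fc (T * dM o (fs fi) * lM y') (fs fi),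
      (isMor_out_iff _ _ _).2 ⟨?_, k1⟩, (isMor_out_iff _ _ _).2 ⟨?_, k2⟩, ?_, ?_⟩
    · rw [← h0, ← h0']
      exact hf.1
    · rw [← h0, ← h0']
      exact hfi.1
    · intro v
      rcases v with _ | v
      · show T' * dM o (fs f) * lM y * (T * dM o (fs fi) * lM y') = 1
        have e3 : lM y' * ((T' * dM o (fs f) * lM y) * (T * dM o (fs fi) * lM y')) = lM y' := by
          rw [← Matrix.mul_assoc, ← k1, Matrix.mul_assoc, ← k2, ← Matrix.mul_assoc, e1,
            Matrix.one_mul]
        calc _ = (T' * lM y') *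
              ((T' * dM o (fs f) * lM y) * (T * dM o (fs fi) * lM y')) := by
              rw [h3', Matrix.one_mul]
          _ = T' * (lM y' * ((T' * dM o (fs f) * lM y) * (T * dM o (fs fi) * lM y'))) :=
              Matrix.mul_assoc _ _ _
          _ = 1 := by rw [e3, h3']
      · exact hffi (some v)
    · intro v
      rcases v with _ | v
      · show (T * dM o (fs fi) * lM y') * (T' * dM o (fs f) * lM y) = 1
        have e3 : lM y * ((T * dM o (fs fi) * lM y') * (T' * dM o (fs f) * lM y)) = lM y := by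
          rw [← Matrix.mul_assoc, ← k2, Matrix.mul_assoc, ← k1, ← Matrix.mul_assoc, e2,
            Matrix.one_mul]
        calc _ = (T * lM y) *
              ((T * dM o (fs fi) * lM y') * (T' * dM o (fs f) * lM y)) := by
              rw [h3, Matrix.one_mul]
          _ = T * (lM y * ((T * dM o (fs fi) * lM y') * (T' * dM o (fs f) * lM y))) :=
              Matrix.mul_assoc _ _ _
          _ = 1 := by rw [e3, h3]
      · exact hfif (some v)
  · rintro ⟨f, fi, hf, hfi, hffi, hfif⟩
    rw [isMor_out_iff] at hf hfi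
    have e1 := dM_mul_eq_one (o := o) (f := fs f) (g := fs fi) fun v => hffi (some v)
    have e2 := dM_mul_eq_one (o := o) (f := fs fi) (g := fs f) fun v => hfif (some v)
    have k1 := out_to_in h1' h4 hf.2
    have k2 := out_to_in h1 h4' hfi.2
    refine ⟨fc (hM x' * dM o (fs f) * S) (fs f), fc (hM x * dM o (fs fi) * S') (fs fi),
      (isMor_in_iff _ _ _).2 ⟨?_, k1⟩, (isMor_in_iff _ _ _).2 ⟨?_, k2⟩, ?_, ?_⟩
    · rw [h0, h0']
      exact hf.1
    · rw [h0, h0']
      exact hfi.1
    · intro v
      rcases v with _ | v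
      · show (hM x' * dM o (fs f) * S) * (hM x * dM o (fs fi) * S') = 1
        have e3 : ((hM x' * dM o (fs f) * S) * (hM x * dM o (fs fi) * S')) * hM x' = hM x' := by
          rw [Matrix.mul_assoc, k2, ← Matrix.mul_assoc, k1, Matrix.mul_assoc, e1, Matrix.mul_one]
        calc _ = ((hM x' * dM o (fs f) * S) * (hM x * dM o (fs fi) * S')) * (hM x' * S') := by
              rw [h2', Matrix.mul_one]
          _ = (((hM x' * dM o (fs f) * S) * (hM x * dM o (fs fi) * S')) * hM x') * S' :=
              (Matrix.mul_assoc _ _ _).symm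
          _ = 1 := by rw [e3, h2']
      · exact hffi (some v)
    · intro v
      rcases v with _ | v
      · show (hM x * dM o (fs fi) * S') * (hM x' * dM o (fs f) * S) = 1
        have e3 : ((hM x * dM o (fs fi) * S') * (hM x' * dM o (fs f) * S)) * hM x = hM x := by
          rw [Matrix.mul_assoc, k1, ← Matrix.mul_assoc, k2, Matrix.mul_assoc, e2, Matrix.mul_one]
        calc _ = ((hM x * dM o (fs fi) * S') * (hM x' * dM o (fs f) * S)) * (hM x * S) := by
              rw [h2, Matrix.mul_one]
          _ = (((hM x * dM o (fs fi) * S') * (hM x' * dM o (fs f) * S)) * hM x) * S :=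
              (Matrix.mul_assoc _ _ _).symm
          _ = 1 := by rw [e3, h2]
      · exact hfif (some v)

theorem oc_ne_zero (n : ℕ) {β : I0 → ℕ} (hβ : β ≠ 0) : oc n β ≠ 0 := by
  intro h
  apply hβ
  funext v
  exact congrFun h (some v)

theorem BR.indec_iff {x : Rp (qIn Q0 o) F (oc n β)} {y : Rp (qOut Q0 o) F (oc m β)}
    (h : BR x y) (hβ : β ≠ 0) : Indec x ↔ Indec y := by
  obtain ⟨h0, S, T, h1, h2, h3, h4⟩ := h
  constructor
  · intro hx
    refine ⟨oc_ne_zero m hβ, fun p hp hpp => ?_⟩
    rw [isMor_out_iff] at hp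
    have hD : dM o (fs p) * dM o (fs p) = dM o (fs p) := by
      rw [← dM_mul]
      congr 1
      funext v
      exact hpp (some v)
    have k1 := out_to_in h1 h4 hp.2
    have hq : IsMor x x (fc (hM x * dM o (fs p) * S) (fs p)) :=
      (isMor_in_iff _ _ _).2 ⟨by rw [h0]; exact hp.1, k1⟩
    have hqq : ∀ v, fc (hM x * dM o (fs p) * S) (fs p) v *
        fc (hM x * dM o (fs p) * S) (fs p) v = fc (hM x * dM o (fs p) * S) (fs p) v := by
      intro v
      rcases v with _ | v
      · show (hM x * dM o (fs p) * S) * (hM x * dM o (fs p) * S) = hM x * dM o (fs p) * S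
        calc _ = ((hM x * dM o (fs p) * S) * hM x) * dM o (fs p) * S := by
              simp only [Matrix.mul_assoc]
          _ = _ := by rw [k1, Matrix.mul_assoc (hM x), hD]
      · exact hpp (some v)
    rcases hx.2 _ hq hqq with h5 | h5
    · left
      have h6 : fs p = fun _ => 0 := funext fun v => h5 (some v)
      intro v
      rcases v with _ | v
      · have h7 := hp.2
        rw [h6, dM_zero, Matrix.zero_mul] at h7
        show fn p = 0
        calc fn p = T * lM y * fn p := by rw [h3, Matrix.one_mul]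
          _ = 0 := by rw [Matrix.mul_assoc, ← h7, Matrix.mul_zero]
      · exact h5 (some v)
    · right
      have h6 : fs p = fun _ => 1 := funext fun v => h5 (some v)
      intro v
      rcases v with _ | v
      · have h7 := hp.2
        rw [h6, dM_one, Matrix.one_mul] at h7
        show fn p = 1
        calc fn p = T * lM y * fn p := by rw [h3, Matrix.one_mul]
          _ = 1 := by rw [Matrix.mul_assoc, ← h7, h3]
      · exact h5 (some v)
  · intro hy
    refine ⟨oc_ne_zero n hβ, fun p hp hpp => ?_⟩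
    rw [isMor_in_iff] at hp
    have hD : dM o (fs p) * dM o (fs p) = dM o (fs p) := by
      rw [← dM_mul]
      congr 1
      funext v
      exact hpp (some v)
    have k1 := in_to_out h1 h4 hp.2
    have hq : IsMor y y (fc (T * dM o (fs p) * lM y) (fs p)) :=
      (isMor_out_iff _ _ _).2 ⟨by rw [← h0]; exact hp.1, k1⟩
    have hqq : ∀ v, fc (T * dM o (fs p) * lM y) (fs p) v *
        fc (T * dM o (fs p) * lM y) (fs p) v = fc (T * dM o (fs p) * lM y) (fs p) v := by
      intro v
      rcases v with _ | v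
      · show (T * dM o (fs p) * lM y) * (T * dM o (fs p) * lM y) = T * dM o (fs p) * lM y
        calc _ = T * dM o (fs p) * (lM y * (T * dM o (fs p) * lM y)) := by
              simp only [Matrix.mul_assoc]
          _ = _ := by rw [← k1, ← Matrix.mul_assoc, Matrix.mul_assoc T, hD]
      · exact hpp (some v)
    rcases hy.2 _ hq hqq with h5 | h5
    · left
      have h6 : fs p = fun _ => 0 := funext fun v => h5 (some v)
      intro v
      rcases v with _ | v
      · have h7 := hp.2
        rw [h6, dM_zero, Matrix.mul_zero] at h7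
        show fn p = 0
        calc fn p = fn p * (hM x * S) := by rw [h2, Matrix.mul_one]
          _ = 0 := by rw [← Matrix.mul_assoc, h7, Matrix.zero_mul]
      · exact h5 (some v)
    · right
      have h6 : fs p = fun _ => 1 := funext fun v => h5 (some v)
      intro v
      rcases v with _ | v
      · have h7 := hp.2
        rw [h6, dM_one, Matrix.mul_one] at h7
        show fn p = 1
        calc fn p = fn p * (hM x * S) := by rw [h2, Matrix.mul_one]
          _ = 1 := by rw [← Matrix.mul_assoc, h7, h2]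
      · exact h5 (some v)

theorem BR.map {L : Type} [Field L] (s : F →+* L) {x : Rp (qIn Q0 o) F (oc n β)}
    {y : Rp (qOut Q0 o) F (oc m β)} (h : BR x y) : BR (mapRp s x) (mapRp s y) := by
  obtain ⟨h0, S, T, h1, h2, h3, h4⟩ := h
  refine ⟨?_, S.map s, T.map s, ?_, ?_, ?_, ?_⟩
  · funext e
    have h5 := congrFun h0 e
    show (resIn x e).map s = (resOut y e).map s
    rw [h5]
  · have := congrArg (fun M => M.map s) h1
    simp only [Matrix.map_mul, Matrix.map_zero _ (map_zero s)] at this
    exact this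
  · have := congrArg (fun M => M.map s) h2
    simp only [Matrix.map_mul, Matrix.map_one _ (map_zero s) (map_one s)] at this
    exact this
  · have := congrArg (fun M => M.map s) h3
    simp only [Matrix.map_mul, Matrix.map_one _ (map_zero s) (map_one s)] at this
    exact this
  · have := congrArg (fun M => M.map s) h4
    simp only [Matrix.map_add _ (map_add s), Matrix.map_mul,
      Matrix.map_one _ (map_zero s) (map_one s)] at this
    exact this

theorem BR.absIndec_iff {x : Rp (qIn Q0 o) F (oc n β)} {y : Rp (qOut Q0 o) F (oc m β)}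
    (h : BR x y) (hβ : β ≠ 0) : AbsIndec x ↔ AbsIndec y :=
  (h.map (algebraMap F (AlgebraicClosure F))).indec_iff hβ

theorem fam_one_ne_zero {β : I0 → ℕ} (hβ : β ≠ 0) (g : Matrix (Fin n) (Fin n) F) :
    ¬ ∀ v, fc g (fun _ => 1 : Fam F β) v = 0 := by
  intro h
  apply hβ
  funext v
  by_contra hv
  have h1 := h (some v)
  have h2 := congrFun (congrFun h1 ⟨0, Nat.pos_of_ne_zero hv⟩) ⟨0, Nat.pos_of_ne_zero hv⟩
  change (1 : Matrix (Fin (β v)) (Fin (β v)) F) ⟨0, Nat.pos_of_ne_zero hv⟩
    ⟨0, Nat.pos_of_ne_zero hv⟩ = 0 at h2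
  rw [Matrix.one_apply_eq] at h2
  exact one_ne_zero h2

theorem exists_right_of_indec {x : Rp (qIn Q0 o) F (oc n β)} (hx : Indec x) (hβ : β ≠ 0) :
    ∃ S : Matrix (Mid o β) (Fin n) F, hM x * S = 1 := by
  apply exists_right_inverse
  intro p hpp hp
  have hq : IsMor x x (fc p (fun _ => 1)) := by
    rw [isMor_in_iff]
    refine ⟨fun e => ?_, ?_⟩
    · show 1 * _ = _ * 1
      rw [Matrix.one_mul, Matrix.mul_one]
    · show p * hM x = hM x * dM o (fun _ => 1)
      rw [dM_one, Matrix.mul_one, hp]
  have hqq : ∀ v, fc p (fun _ => 1 : Fam F β) v * fc p (fun _ => 1 : Fam F β) v =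
      fc p (fun _ => 1 : Fam F β) v := by
    intro v
    rcases v with _ | v
    · exact hpp
    · exact Matrix.one_mul 1
  rcases hx.2 _ hq hqq with h | h
  · exact absurd h (fam_one_ne_zero hβ p)
  · exact h none

theorem exists_left_of_indec {y : Rp (qOut Q0 o) F (oc m β)} (hy : Indec y) (hβ : β ≠ 0) :
    ∃ T : Matrix (Fin m) (Mid o β) F, T * lM y = 1 := by
  apply exists_left_inverse
  intro p hpp hp
  have hq : IsMor y y (fc p (fun _ => 1)) := by
    rw [isMor_out_iff]
    refine ⟨fun e => ?_, ?_⟩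
    · show 1 * _ = _ * 1
      rw [Matrix.one_mul, Matrix.mul_one]
    · show dM o (fun _ => 1) * lM y = lM y * p
      rw [dM_one, Matrix.one_mul, hp]
  have hqq : ∀ v, fc p (fun _ => 1 : Fam F β) v * fc p (fun _ => 1 : Fam F β) v =
      fc p (fun _ => 1 : Fam F β) v := by
    intro v
    rcases v with _ | v
    · exact hpp
    · exact Matrix.one_mul 1
  rcases hy.2 _ hq hqq with h | h
  · exact absurd h (fam_one_ne_zero hβ p)
  · exact h none

theorem exists_BR_right (h : n + m = Fintype.card (Mid o β)) {x : Rp (qIn Q0 o) F (oc n β)}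
    (hx : Indec x) (hβ : β ≠ 0) : ∃ y : Rp (qOut Q0 o) F (oc m β), BR x y := by
  obtain ⟨S, hS⟩ := exists_right_of_indec hx hβ
  obtain ⟨L, T, h1, h2, h3⟩ := exact_completion n m (hM x) S hS h
  refine ⟨fun e => match e with
    | Sum.inl e => resIn x e
    | Sum.inr j => fun b a => L ⟨j, b⟩ a, rfl, S, T, h1, hS, h2, h3⟩

theorem exists_BR_left (h : n + m = Fintype.card (Mid o β)) {y : Rp (qOut Q0 o) F (oc m β)}
    (hy : Indec y) (hβ : β ≠ 0) : ∃ x : Rp (qIn Q0 o) F (oc n β), BR x y := by
  obtain ⟨T, hT⟩ := exists_left_of_indec hy hβ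
  obtain ⟨H, S, h1, h2, h3⟩ := exact_completion' n m (lM y) T hT h
  refine ⟨fun e => match e with
    | Sum.inl e => resOut y e
    | Sum.inr j => fun a b => H a ⟨j, b⟩, rfl, S, T, h1, h2, hT, h3⟩

theorem kacCount_bgp (F : Type) [Field F] (h : n + m = ∑ j, β (o j)) (hβ : β ≠ 0) :
    kacCount (qIn Q0 o) F (oc n β) = kacCount (qOut Q0 o) F (oc m β) := by
  have h' : n + m = Fintype.card (Mid o β) := by
    rw [Fintype.card_sigma]
    simpa using h
  unfold kacCount absIndecClasses
  apply ncard_classes_eq (fun x => AbsIndec x) (fun y => AbsIndec y) (fun x y => Isom x y)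
    (fun x y => Isom x y) (isom_equivalence _ _ _) (isom_equivalence _ _ _) BR
  · intro x hx
    obtain ⟨y, hy⟩ := exists_BR_right h' hx.indec hβ
    exact ⟨y, (hy.absIndec_iff hβ).1 hx, hy⟩
  · intro y hy
    obtain ⟨x, hx⟩ := exists_BR_left h' hy.indec hβ
    exact ⟨x, (hx.absIndec_iff hβ).2 hy, hx⟩
  · intro x x' y y' hxy hxy'
    exact hxy.isom_iff hxy'

theorem kacCount_in_zero (F : Type) [Field F] (h : ∑ j, β (o j) < n) (hβ : β ≠ 0) :
    kacCount (qIn Q0 o) F (oc n β) = 0 := by
  apply kacCount_eq_zero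
  intro x hx
  obtain ⟨S, hS⟩ := exists_right_of_indec hx.indec hβ
  have h1 : (hM x * S).rank ≤ (hM x).rank := Matrix.rank_mul_le_left _ _
  rw [hS, Matrix.rank_one, Fintype.card_fin] at h1
  have h2 := Matrix.rank_le_card_width (hM x)
  rw [Fintype.card_sigma] at h2
  simp only [Fintype.card_fin] at h2
  omega

end

end Pool.Agent.H27.KAC
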