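import Pool.Agent.H27.KAC.PR_Poly
import Pool.Agent.H27.KAC.PR_Bgp

/-!
Project KAC, parts I.2 and II.2: relabelling of the vertices, and the statements about `kacCount` used by the
interface.
-/

set_option autoImplicit false

namespace Pool.Agent.H27.KAC

open scoped BigOperators
open Polynomial

section map

variable {I I' E : Type}

/-- relabelling of the vertices -/
def Quiv.map (Q : Quiv I E) (σ : I ≃ I') : Quiv I' E where
  src := fun e => σ (Q.src e)
  tgt := fun e => σ (Q.tgt e)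

theorem isom_map_iff (Q : Quiv I E) (σ : I ≃ I') {F : Type} [Field F] {α : I' → ℕ}
    (x y : Rp Q F (fun i => α (σ i))) :
    Isom (Q := Q.map σ) (α := α) x y ↔ Isom (Q := Q) (α := fun i => α (σ i)) x y := by
  constructor
  · rintro ⟨g, hg⟩
    exact ⟨fun i => g (σ i), fun e => hg e⟩
  · rintro ⟨g, hg⟩
    refine ⟨Equiv.piCongrLeft (fun i' => (Matrix (Fin (α i')) (Fin (α i')) F)ˣ) σ g, ?_⟩
    intro e
    have h1 := Equiv.piCongrLeft_apply_apply
      (fun i' => (Matrix (Fin (α i')) (Fin (α i')) F)ˣ) σ g (Q.tgt e)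
    have h2 := Equiv.piCongrLeft_apply_apply
      (fun i' => (Matrix (Fin (α i')) (Fin (α i')) F)ˣ) σ g (Q.src e)
    have h3 := hg e
    show (Equiv.piCongrLeft (fun i' => (Matrix (Fin (α i')) (Fin (α i')) F)ˣ) σ g
      (σ (Q.tgt e))).1 * x e = y e * (Equiv.piCongrLeft
        (fun i' => (Matrix (Fin (α i')) (Fin (α i')) F)ˣ) σ g (σ (Q.src e))).1
    rw [h1, h2]
    exact h3

theorem indec_map_iff (Q : Quiv I E) (σ : I ≃ I') {F : Type} [Field F] {α : I' → ℕ}
    (x : Rp Q F (fun i => α (σ i))) :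
    Indec (Q := Q.map σ) (α := α) x ↔ Indec (Q := Q) (α := fun i => α (σ i)) x := by
  have h0 : α ≠ 0 ↔ (fun i => α (σ i)) ≠ 0 := by
    rw [not_iff_not]
    constructor
    · rintro rfl
      rfl
    · intro h
      funext i'
      have := congrFun h (σ.symm i')
      simpa using this
  unfold Indec
  refine and_congr h0 ?_
  constructor
  · intro h p hp hpp
    let P := Equiv.piCongrLeft (fun i' => Matrix (Fin (α i')) (Fin (α i')) F) σ p
    have hP : ∀ i, P (σ i) = p i := fun i => Equiv.piCongrLeft_apply_apply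
      (fun i' => Matrix (Fin (α i')) (Fin (α i')) F) σ p i
    have h1 : IsMor (Q := Q.map σ) (α := α) (β := α) x x P := by
      intro e
      show P (σ (Q.tgt e)) * x e = x e * P (σ (Q.src e))
      rw [hP, hP]
      exact hp e
    have h2 : ∀ i', P i' * P i' = P i' := by
      intro i'
      obtain ⟨i, rfl⟩ := σ.surjective i'
      rw [hP]
      exact hpp i
    rcases h P h1 h2 with h3 | h3
    · left
      intro i
      rw [← hP i]
      exact h3 (σ i)
    · right
      intro i
      rw [← hP i]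
      exact h3 (σ i)
  · intro h P hP hPP
    rcases h (fun i => P (σ i)) (fun e => hP e) (fun i => hPP (σ i)) with h3 | h3
    · left
      intro i'
      obtain ⟨i, rfl⟩ := σ.surjective i'
      exact h3 i
    · right
      intro i'
      obtain ⟨i, rfl⟩ := σ.surjective i'
      exact h3 i

theorem kacCount_map (Q : Quiv I E) (σ : I ≃ I') (F : Type) [Field F] (α : I' → ℕ) :
    kacCount (Q.map σ) F α = kacCount Q F (fun i => α (σ i)) := by
  unfold kacCount absIndecClasses
  apply ncard_classes_eq (X := Rp (Q.map σ) F α) (Y := Rp Q F (fun i => α (σ i)))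
    (fun x => AbsIndec x) (fun y => AbsIndec y) (fun x y => Isom x y)
    (fun x y => Isom x y) (isom_equivalence _ _ _) (isom_equivalence _ _ _) (fun x y => y = x)
  · intro x hx
    exact ⟨x, (indec_map_iff Q σ _).1 hx, rfl⟩
  · intro y hy
    exact ⟨y, (indec_map_iff Q σ _).2 hy, rfl⟩
  · rintro x x' y y' rfl rfl
    exact isom_map_iff Q σ y y'

theorem adj_map [DecidableEq I] [DecidableEq I'] [Fintype E] (Q : Quiv I E) (σ : I ≃ I')
    (a b : I) : adj (Q.map σ) (σ a) (σ b) = adj Q a b := by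
  unfold adj Quiv.map
  simp only [EmbeddingLike.apply_eq_iff_eq]

end map

section cut

variable {I E : Type} [Fintype I] [DecidableEq I] [Fintype E]

/-- the quiver without the vertex `i` -/
def cutQ (Q : Quiv I E) (i : I) :
    Quiv {j : I // j ≠ i} {e : E // Q.src e ≠ i ∧ Q.tgt e ≠ i} where
  src := fun e => ⟨Q.src e.1, e.2.1⟩
  tgt := fun e => ⟨Q.tgt e.1, e.2.2⟩

/-- the arrows at `i` -/
abbrev cutJ (Q : Quiv I E) (i : I) : Type := Σ j : {j : I // j ≠ i}, Fin (adj Q i j)

theorem adj_eq_sum (Q : Quiv I E) (a b : I) :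
    adj Q a b = (∑ e, if Q.src e = a ∧ Q.tgt e = b then 1 else 0) +
      ∑ e, if Q.src e = b ∧ Q.tgt e = a then 1 else 0 := by
  unfold adj
  rw [Finset.card_filter, Finset.card_filter]

theorem sum_cut (Q : Quiv I E) (i : I) (a b : {j : I // j ≠ i}) :
    (∑ e, if (cutQ Q i).src e = a ∧ (cutQ Q i).tgt e = b then 1 else 0) =
      ∑ e, if Q.src e = a ∧ Q.tgt e = b then 1 else 0 := by
  rw [← Finset.card_filter, ← Finset.card_filter,
    ← Finset.card_map (Function.Embedding.subtype (fun e => Q.src e ≠ i ∧ Q.tgt e ≠ i))]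
  congr 1
  ext e
  simp only [Finset.mem_map, Finset.mem_filter, Finset.mem_univ, true_and]
  constructor
  · rintro ⟨e, ⟨h1, h2⟩, rfl⟩
    rw [← h1, ← h2]
    exact ⟨rfl, rfl⟩
  · rintro ⟨h1, h2⟩
    have h3 : Q.src e ≠ i := by
      rw [h1]
      exact a.2
    have h4 : Q.tgt e ≠ i := by
      rw [h2]
      exact b.2
    exact ⟨⟨e, h3, h4⟩, ⟨Subtype.ext h1, Subtype.ext h2⟩, rfl⟩

theorem sum_cutJ (Q : Quiv I E) (i : I) (b : {j : I // j ≠ i}) :
    (∑ x : cutJ Q i, if x.1 = b then 1 else 0) = adj Q i b := by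
  have h : ∀ x : {j : I // j ≠ i}, (∑ _y : Fin (adj Q i x), if x = b then 1 else 0) =
      if x = b then adj Q i b else 0 := by
    intro x
    by_cases hx : x = b
    · subst hx
      simp
    · simp [hx]
  rw [Fintype.sum_sigma]
  calc _ = ∑ x : {j : I // j ≠ i}, if x = b then adj Q i b else 0 :=
        Finset.sum_congr rfl fun x _ => h x
    _ = _ := by rw [Finset.sum_ite_eq', if_pos (Finset.mem_univ _)]

theorem adj_qIn (Q : Quiv I E) (i : I) (hi : adj Q i i = 0) (a b : Option {j : I // j ≠ i}) :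
    adj (qIn (cutQ Q i) (fun x : cutJ Q i => x.1)) a b =
      adj Q (Equiv.optionSubtypeNe i a) (Equiv.optionSubtypeNe i b) := by
  have h1 : ∀ b : {j : I // j ≠ i},
      adj (qIn (cutQ Q i) (fun x : cutJ Q i => x.1)) none (some b) = adj Q i b := by
    intro b
    rw [adj_eq_sum, Fintype.sum_sum_type, Fintype.sum_sum_type]
    simp only [qIn, Sum.elim_inl, Sum.elim_inr, reduceCtorEq, false_and, if_false, and_false,
      Finset.sum_const_zero, Option.some_inj, and_true, zero_add]
    exact sum_cutJ Q i b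
  rcases a with _ | a
  · rcases b with _ | b
    · rw [Equiv.optionSubtypeNe_none, hi, adj_eq_sum, Fintype.sum_sum_type]
      simp [qIn]
    · rw [Equiv.optionSubtypeNe_none, Equiv.optionSubtypeNe_some, h1]
  · rcases b with _ | b
    · rw [Equiv.optionSubtypeNe_none, Equiv.optionSubtypeNe_some, pr_adj_symm, h1, pr_adj_symm]
    · rw [Equiv.optionSubtypeNe_some, Equiv.optionSubtypeNe_some, adj_eq_sum,
        Fintype.sum_sum_type, Fintype.sum_sum_type, adj_eq_sum, ← sum_cut, ← sum_cut]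
      simp only [qIn, Sum.elim_inl, Sum.elim_inr, reduceCtorEq, and_false, if_false,
        Finset.sum_const_zero, Option.some_inj, add_zero]

theorem adj_qOut (Q : Quiv I E) (i : I) (a b : Option {j : I // j ≠ i}) :
    adj (qOut (cutQ Q i) (fun x : cutJ Q i => x.1)) a b =
      adj (qIn (cutQ Q i) (fun x : cutJ Q i => x.1)) a b := by
  have k1 : ∀ a b : Option {j : I // j ≠ i},
      (∑ e, if (qOut (cutQ Q i) (fun x : cutJ Q i => x.1)).src e = a ∧
        (qOut (cutQ Q i) (fun x : cutJ Q i => x.1)).tgt e = b then 1 else 0) =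
      (∑ e, if some ((cutQ Q i).src e) = a ∧ some ((cutQ Q i).tgt e) = b then 1 else 0) +
      ∑ x : cutJ Q i, if (none : Option {j : I // j ≠ i}) = a ∧ some x.1 = b then 1 else 0 := by
    intro a b
    rw [Fintype.sum_sum_type]
    rfl
  have k2 : ∀ a b : Option {j : I // j ≠ i},
      (∑ e, if (qIn (cutQ Q i) (fun x : cutJ Q i => x.1)).src e = a ∧
        (qIn (cutQ Q i) (fun x : cutJ Q i => x.1)).tgt e = b then 1 else 0) =
      (∑ e, if some ((cutQ Q i).src e) = a ∧ some ((cutQ Q i).tgt e) = b then 1 else 0) +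
      ∑ x : cutJ Q i, if some x.1 = a ∧ (none : Option {j : I // j ≠ i}) = b then 1 else 0 := by
    intro a b
    rw [Fintype.sum_sum_type]
    rfl
  have h1 : ∀ a b : Option {j : I // j ≠ i}, (∑ x : cutJ Q i,
      if (none : Option {j : I // j ≠ i}) = a ∧ some x.1 = b then 1 else 0) = ∑ x : cutJ Q i,
      if some x.1 = b ∧ (none : Option {j : I // j ≠ i}) = a then 1 else 0 := by
    intro a b
    exact Finset.sum_congr rfl fun x _ => if_congr and_comm rfl rfl
  rw [adj_eq_sum, adj_eq_sum, k1, k1, k2, k2, h1 a b, h1 b a]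
  ring

theorem adj_cut_in (Q : Quiv I E) (i : I) (hi : adj Q i i = 0) :
    adj ((qIn (cutQ Q i) (fun x : cutJ Q i => x.1)).map (Equiv.optionSubtypeNe i)) = adj Q := by
  funext a b
  obtain ⟨a, rfl⟩ := (Equiv.optionSubtypeNe i).surjective a
  obtain ⟨b, rfl⟩ := (Equiv.optionSubtypeNe i).surjective b
  rw [adj_map, adj_qIn Q i hi]

theorem adj_cut_out (Q : Quiv I E) (i : I) (hi : adj Q i i = 0) :
    adj ((qOut (cutQ Q i) (fun x : cutJ Q i => x.1)).map (Equiv.optionSubtypeNe i)) = adj Q := by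
  funext a b
  obtain ⟨a, rfl⟩ := (Equiv.optionSubtypeNe i).surjective a
  obtain ⟨b, rfl⟩ := (Equiv.optionSubtypeNe i).surjective b
  rw [adj_map, adj_qOut, adj_qIn Q i hi]

theorem comp_oc (i : I) (α : I → ℕ) : (fun a => α (Equiv.optionSubtypeNe i a)) =
    oc (α i) (fun j : {j : I // j ≠ i} => α j) := by
  funext a
  rcases a with _ | a
  · rw [Equiv.optionSubtypeNe_none]
    rfl
  · rw [Equiv.optionSubtypeNe_some]
    rfl

theorem kacCount_cut_in (Q : Quiv I E) (i : I) (hi : adj Q i i = 0) (α : I → ℕ) (F : Type)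
    [Field F] [Fintype F] : kacCount Q F α =
      kacCount (qIn (cutQ Q i) (fun x : cutJ Q i => x.1)) F
        (oc (α i) (fun j : {j : I // j ≠ i} => α j)) := by
  rw [← kacCount_congr_adj _ Q (adj_cut_in Q i hi) α F, kacCount_map, comp_oc]

theorem kacCount_cut_out (Q : Quiv I E) (i : I) (hi : adj Q i i = 0) (α : I → ℕ) (F : Type)
    [Field F] [Fintype F] : kacCount Q F α =
      kacCount (qOut (cutQ Q i) (fun x : cutJ Q i => x.1)) F
        (oc (α i) (fun j : {j : I // j ≠ i} => α j)) := by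
  rw [← kacCount_congr_adj _ Q (adj_cut_out Q i hi) α F, kacCount_map, comp_oc]

theorem sum_adj_cut (Q : Quiv I E) (i : I) (hi : adj Q i i = 0) (α : I → ℕ) :
    ∑ x : cutJ Q i, α x.1 = ∑ j, adj Q i j * α j := by
  rw [← Equiv.sum_comp (Equiv.optionSubtypeNe i), Fintype.sum_option, Fintype.sum_sigma]
  simp [hi]

theorem sw_eq (Q : Quiv I E) (i : I) (α : I → ℕ) :
    sw (adj Q) α i = -2 * (α i : ℤ) + (∑ j, adj Q i j * α j : ℕ) := by
  unfold sw cart
  simp only [sub_mul, Finset.sum_sub_distrib, ite_mul, zero_mul, Finset.sum_ite_eq,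
    Finset.mem_univ, if_true]
  push_cast
  ring

theorem kacCount_reflect (Q : Quiv I E) (i : I) (hi : adj Q i i = 0) (α α' : I → ℕ)
    (hα : ∃ j, j ≠ i ∧ α j ≠ 0) (h : ∀ j, j ≠ i → α' j = α j)
    (h' : (α' i : ℤ) = (α i : ℤ) + sw (adj Q) α i) (F : Type) [Field F] [Fintype F] :
    kacCount Q F α' = kacCount Q F α := by
  rw [kacCount_cut_in Q i hi α F, kacCount_cut_out Q i hi α' F]
  have h1 : (fun j : {j : I // j ≠ i} => α' j) = fun j : {j : I // j ≠ i} => α j := by
    funext j
    exact h j.1 j.2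
  rw [h1]
  symm
  apply kacCount_bgp
  · rw [sum_adj_cut Q i hi α]
    rw [sw_eq] at h'
    have : ((α i + α' i : ℕ) : ℤ) = ((∑ j, adj Q i j * α j : ℕ) : ℤ) := by
      rw [Nat.cast_add]
      linarith
    exact_mod_cast this
  · obtain ⟨j, hj, hj'⟩ := hα
    intro h2
    exact hj' (congrFun h2 ⟨j, hj⟩)

theorem kacCount_reflect_neg (Q : Quiv I E) (i : I) (hi : adj Q i i = 0) (α : I → ℕ)
    (hα : ∃ j, j ≠ i ∧ α j ≠ 0) (h' : (α i : ℤ) + sw (adj Q) α i < 0) (F : Type) [Field F]
    [Fintype F] : kacCount Q F α = 0 := by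
  rw [kacCount_cut_in Q i hi α F]
  apply kacCount_in_zero
  · rw [sum_adj_cut Q i hi α]
    rw [sw_eq] at h'
    have : ((∑ j, adj Q i j * α j : ℕ) : ℤ) < (α i : ℤ) := by linarith
    exact_mod_cast this
  · obtain ⟨j, hj, hj'⟩ := hα
    intro h2
    exact hj' (congrFun h2 ⟨j, hj⟩)

end cut

end Pool.Agent.H27.KAC
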