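import Pool.Agent.H27.KAC.IDefs
import Pool.Agent.H27.KAC.PR_Main

/-!
Project KAC, parts I.2 and II.2: the statements of the interface.
-/

set_option autoImplicit false

namespace Pool.Agent.H27.KAC

open scoped BigOperators
open Polynomial

section

variable {I E : Type}

theorem kacOne_eq (Q : Quiv I E) (α : I → ℕ) (p : ℚ[X]) (h : IsKacPoly Q α p) :
    kacOne Q α = p.eval 1 := by
  unfold kacOne
  rw [dif_pos ⟨p, h⟩]
  exact kacPoly_choose Q α p h ⟨p, h⟩

theorem kacPoly_unique (Q : Quiv I E) (α : I → ℕ) (p p' : ℚ[X]) (h : IsKacPoly Q α p)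
    (h' : IsKacPoly Q α p') : p = p' := kacPoly_unique' Q α p p' h h'

/-- `kacOne` depends on the numbers of absolutely indecomposable representations only. -/
theorem kacOne_congr {I' E' : Type} (Q : Quiv I E) (Q' : Quiv I' E') (α : I → ℕ)
    (α' : I' → ℕ)
    (h : ∀ (F : Type) [Field F] [Fintype F], kacCount Q F α = kacCount Q' F α') :
    kacOne Q α = kacOne Q' α' := by
  by_cases hp : ∃ p : ℚ[X], IsKacPoly Q α p
  · obtain ⟨p, hp⟩ := hp
    rw [kacOne_eq Q α p hp, kacOne_eq Q' α' p ((isKacPoly_congr Q Q' α α' h p).1 hp)]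
  · have hp' : ¬ ∃ p : ℚ[X], IsKacPoly Q' α' p := by
      rintro ⟨p, h2⟩
      exact hp ⟨p, (isKacPoly_congr Q Q' α α' h p).2 h2⟩
    unfold kacOne
    rw [dif_neg hp, dif_neg hp']

theorem kacOne_const (Q : Quiv I E) (α : I → ℕ) (c : ℕ)
    (h : ∀ (F : Type) [Field F] [Fintype F], kacCount Q F α = c) : kacOne Q α = c := by
  have hp : IsKacPoly Q α (C (c : ℚ)) := by
    intro F _ _
    rw [h F, eval_C]
  rw [kacOne_eq Q α _ hp, eval_C]

end

section

variable {I E : Type} [Fintype I] [DecidableEq I] [Fintype E]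

/-- (II.2) Kac polynomials exist. -/
theorem kacPoly_exists (Q : Quiv I E) (α : I → ℕ) : ∃ p : ℚ[X], IsKacPoly Q α p :=
  kacPoly_exists' Q α

/-- Independence of the orientation. -/
theorem kacOne_congr_adj {E' : Type} [Fintype E'] (Q : Quiv I E) (Q' : Quiv I E')
    (h : adj Q = adj Q') (α : I → ℕ) : kacOne Q α = kacOne Q' α :=
  kacOne_congr Q Q' α α fun F _ _ => kacCount_congr_adj Q Q' h α F

/-- (I.2) invariance under the reflection at a loop-free vertex. -/
theorem kac_reflect (Q : Quiv I E) (i : I) (hi : adj Q i i = 0) (α α' : I → ℕ)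
    (hα : ∃ j, j ≠ i ∧ α j ≠ 0) (h : ∀ j, j ≠ i → α' j = α j)
    (h' : (α' i : ℤ) = (α i : ℤ) + sw (adj Q) α i) : kacOne Q α' = kacOne Q α :=
  kacOne_congr Q Q α' α fun F _ _ => kacCount_reflect Q i hi α α' hα h h' F

theorem kac_reflect_neg (Q : Quiv I E) (i : I) (hi : adj Q i i = 0) (α : I → ℕ)
    (hα : ∃ j, j ≠ i ∧ α j ≠ 0) (h' : (α i : ℤ) + sw (adj Q) α i < 0) : kacOne Q α = 0 := by
  rw [kacOne_const Q α 0 fun F _ _ => kacCount_reflect_neg Q i hi α hα h' F, Nat.cast_zero]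

theorem kac_simple_one (Q : Quiv I E) (i : I) (hi : adj Q i i = 0) :
    kacOne Q (Pi.single i 1) = 1 := by
  rw [kacOne_const Q _ 1 fun F _ _ => kacCount_single_one Q F i hi, Nat.cast_one]

theorem kac_simple_ge_two (Q : Quiv I E) (i : I) (hi : adj Q i i = 0) (n : ℕ) (hn : 2 ≤ n) :
    kacOne Q (Pi.single i n) = 0 := by
  rw [kacOne_const Q _ 0 fun F _ _ => kacCount_single_ge_two Q F i hi n hn, Nat.cast_zero]

/-- (I.3) a dimension vector with disconnected support has Kac number zero. -/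
theorem kac_disconnected (Q : Quiv I E) (α : I → ℕ) (S : I → Prop)
    (h1 : ∃ i, S i ∧ α i ≠ 0) (h2 : ∃ i, ¬ S i ∧ α i ≠ 0)
    (h : ∀ i j, S i → ¬ S j → α i ≠ 0 → α j ≠ 0 → adj Q i j = 0) : kacOne Q α = 0 := by
  classical
  rw [kacOne_const Q α 0 fun F _ _ => kacCount_disconnected Q F α (Finset.univ.filter S)
    (by simpa using h1) (by simpa using h2)
    (fun i hi j hj => h i j (by simpa using hi) (by simpa using hj)), Nat.cast_zero]

theorem kacOne_zero (Q : Quiv I E) : kacOne Q (0 : I → ℕ) = 0 := by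
  rw [kacOne_const Q _ 0 fun F _ _ => kacCount_zero Q F, Nat.cast_zero]

end

end Pool.Agent.H27.KAC
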