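import Pool.Agent.H27.KAC.KIKronC
import Pool.Agent.H27.KAC.PR_Out

/-!
Project KAC: two loop-free vertices joined by exactly two arrows, dimension vector `(n, n)`.
-/

set_option autoImplicit false

namespace Pool.Agent.H27.KAC

open scoped BigOperators
open Polynomial

section

variable {I E : Type} [DecidableEq I]

/-- the arrow `e` is between `i` and `j` -/
def btw (Q : Quiv I E) (i j : I) (e : E) : Prop :=
  (Q.src e = i ∧ Q.tgt e = j) ∨ (Q.src e = j ∧ Q.tgt e = i)

instance (Q : Quiv I E) (i j : I) : DecidablePred (btw Q i j) := fun e => by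
  unfold btw
  infer_instance

/-- The quiver with two arrows from `i` to `j` instead of the arrows between `i` and `j`. -/
def twoQ (Q : Quiv I E) (i j : I) : Quiv I (Bool ⊕ {e : E // ¬ btw Q i j e}) where
  src := Sum.elim (fun _ => i) (fun e => Q.src e.1)
  tgt := Sum.elim (fun _ => j) (fun e => Q.tgt e.1)

variable [Fintype I] [Fintype E]

theorem sum_not_btw (Q : Quiv I E) (i j : I) (f : E → ℕ) :
    ∑ e : {e : E // ¬ btw Q i j e}, f e.1 = ∑ e, if ¬ btw Q i j e then f e else 0 := by
  rw [← Finset.sum_filter]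
  exact (Finset.sum_subtype _ (fun e => by simp) f).symm

theorem adj_twoQ (Q : Quiv I E) (i j : I) (hij : i ≠ j) (h : adj Q i j = 2) :
    adj (twoQ Q i j) = adj Q := by
  funext a b
  have hS : ∀ a b : I, (∑ e, if (twoQ Q i j).src e = a ∧ (twoQ Q i j).tgt e = b then 1 else 0) =
      (if i = a ∧ j = b then 2 else 0) +
        ∑ e, if ¬ btw Q i j e then (if Q.src e = a ∧ Q.tgt e = b then 1 else 0) else 0 := by
    intro a b
    rw [Fintype.sum_sum_type, ← sum_not_btw Q i j (fun e => if Q.src e = a ∧ Q.tgt e = b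
      then 1 else 0)]
    congr 1
    · show (∑ _x : Bool, if i = a ∧ j = b then 1 else 0) = _
      rw [Finset.sum_const, Finset.card_univ, Fintype.card_bool]
      split_ifs <;> rfl
  rw [adj_eq_sum, hS a b, hS b a]
  by_cases hab : (a = i ∧ b = j) ∨ (a = j ∧ b = i)
  · have hz : ∀ a b : I, ((a = i ∧ b = j) ∨ (a = j ∧ b = i)) →
        (∑ e, if ¬ btw Q i j e then (if Q.src e = a ∧ Q.tgt e = b then 1 else 0) else 0) = 0 := by
      intro a b hab
      apply Finset.sum_eq_zero
      intro e _
      by_cases hb : btw Q i j e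
      · rw [if_neg (not_not.2 hb)]
      · rw [if_pos hb, if_neg]
        rintro ⟨h1, h2⟩
        apply hb
        unfold btw
        rw [h1, h2]
        exact hab
    have hba : (b = i ∧ a = j) ∨ (b = j ∧ a = i) := by tauto
    rw [hz a b hab, hz b a hba]
    rcases hab with ⟨rfl, rfl⟩ | ⟨rfl, rfl⟩
    · rw [h, if_pos ⟨rfl, rfl⟩, if_neg (fun h1 => hij h1.1)]
    · rw [pr_adj_symm, h, if_neg (fun h1 => hij h1.1), if_pos ⟨rfl, rfl⟩]
  · have hz : ∀ a b : I, ¬ ((a = i ∧ b = j) ∨ (a = j ∧ b = i)) →
        (∑ e, if ¬ btw Q i j e then (if Q.src e = a ∧ Q.tgt e = b then 1 else 0) else 0) =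
          ∑ e, if Q.src e = a ∧ Q.tgt e = b then 1 else 0 := by
      intro a b hab
      refine Finset.sum_congr rfl fun e _ => ?_
      by_cases hb : btw Q i j e
      · rw [if_neg (not_not.2 hb), if_neg]
        rintro ⟨h1, h2⟩
        apply hab
        unfold btw at hb
        rw [h1, h2] at hb
        exact hb
      · rw [if_pos hb]
    have hba : ¬ ((b = i ∧ a = j) ∨ (b = j ∧ a = i)) := by tauto
    rw [hz a b hab, hz b a hba, if_neg (fun h1 => hab (Or.inl ⟨h1.1.symm, h1.2.symm⟩)),
      if_neg (fun h1 => hba (Or.inl ⟨h1.1.symm, h1.2.symm⟩)), zero_add, zero_add, ← adj_eq_sum]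

/-- the dimension vector at the two vertices -/
def b2 (i j : I) (α : I → ℕ) : Bool → ℕ := fun v => α (bif v then j else i)

theorem twoQ_zero (Q : Quiv I E) (i j : I) (hi : adj Q i i = 0) (hj : adj Q j j = 0)
    {α : I → ℕ} (hα : ∀ l, l ≠ i → l ≠ j → α l = 0) {K : Type} [Field K]
    (x : Rp (twoQ Q i j) K α) (e : {e : E // ¬ btw Q i j e}) : x (Sum.inr e) = 0 := by
  apply rp_zero
  by_contra hc
  push Not at hc
  have h1 : α (Q.src e.1) ≠ 0 := hc.1
  have h2 : α (Q.tgt e.1) ≠ 0 := hc.2
  have h3 : Q.src e.1 = i ∨ Q.src e.1 = j := by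
    by_contra h
    push Not at h
    exact h1 (hα _ h.1 h.2)
  have h4 : Q.tgt e.1 = i ∨ Q.tgt e.1 = j := by
    by_contra h
    push Not at h
    exact h2 (hα _ h.1 h.2)
  have h5 := adj_pos_left Q e.1
  rcases h3 with h3 | h3
  · rcases h4 with h4 | h4
    · rw [h3, h4] at h5
      omega
    · exact e.2 (Or.inl ⟨h3, h4⟩)
  · rcases h4 with h4 | h4
    · exact e.2 (Or.inr ⟨h3, h4⟩)
    · rw [h3, h4] at h5
      omega

/-- the restriction to the two vertices -/
def res2 {Q : Quiv I E} {i j : I} {α : I → ℕ} {K : Type} [Field K] (x : Rp (twoQ Q i j) K α) :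
    Rp K2 K (b2 i j α) := fun b => x (Sum.inl b)

theorem twoQ_isom_iff (Q : Quiv I E) (i j : I) (hij : i ≠ j) (hi : adj Q i i = 0)
    (hj : adj Q j j = 0) {α : I → ℕ} (hα : ∀ l, l ≠ i → l ≠ j → α l = 0) {K : Type} [Field K]
    (x y : Rp (twoQ Q i j) K α) : Isom x y ↔ Isom (res2 x) (res2 y) := by
  constructor
  · rintro ⟨g, hg⟩
    exact ⟨fun v => g (bif v then j else i), fun e => hg (Sum.inl e)⟩
  · rintro ⟨g, hg⟩
    let gi : (Matrix (Fin (α i)) (Fin (α i)) K)ˣ := g false
    let gj : (Matrix (Fin (α j)) (Fin (α j)) K)ˣ := g true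
    let G : (l : I) → (Matrix (Fin (α l)) (Fin (α l)) K)ˣ :=
      Function.update (Function.update (fun _ => 1) i gi) j gj
    have hGi : G i = gi := by
      simp only [G]
      rw [Function.update_of_ne hij, Function.update_self]
    have hGj : G j = gj := Function.update_self _ _ _
    refine ⟨G, fun e => ?_⟩
    rcases e with b | e
    · let x' : Matrix (Fin (α j)) (Fin (α i)) K := x (Sum.inl b)
      let y' : Matrix (Fin (α j)) (Fin (α i)) K := y (Sum.inl b)
      show (G j).1 * x' = y' * (G i).1
      rw [hGi, hGj]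
      exact hg b
    · show (G _).1 * x (Sum.inr e) = y (Sum.inr e) * (G _).1
      rw [twoQ_zero Q i j hi hj hα x e, twoQ_zero Q i j hi hj hα y e, Matrix.mul_zero,
        Matrix.zero_mul]

theorem twoQ_indec_iff (Q : Quiv I E) (i j : I) (hij : i ≠ j) (hi : adj Q i i = 0)
    (hj : adj Q j j = 0) {α : I → ℕ} (hα : ∀ l, l ≠ i → l ≠ j → α l = 0) {K : Type} [Field K]
    (x : Rp (twoQ Q i j) K α) : Indec x ↔ Indec (res2 x) := by
  have h0 : α ≠ 0 ↔ b2 i j α ≠ 0 := by
    rw [not_iff_not]
    constructor
    · rintro rfl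
      rfl
    · intro h
      funext l
      by_cases h1 : l = i
      · rw [h1]
        exact congrFun h false
      · by_cases h2 : l = j
        · rw [h2]
          exact congrFun h true
        · exact hα l h1 h2
  unfold Indec
  refine and_congr h0 ?_
  have hempty : ∀ l, l ≠ i → l ≠ j → ∀ M N : Matrix (Fin (α l)) (Fin (α l)) K, M = N := by
    intro l h1 h2 M N
    ext a b
    exact Fin.elim0 (Fin.cast (hα l h1 h2) a)
  constructor
  · intro h p hp hpp
    let pi : Matrix (Fin (α i)) (Fin (α i)) K := p false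
    let pj : Matrix (Fin (α j)) (Fin (α j)) K := p true
    let P : (l : I) → Matrix (Fin (α l)) (Fin (α l)) K :=
      Function.update (Function.update (fun _ => 0) i pi) j pj
    have hPi : P i = pi := by
      simp only [P]
      rw [Function.update_of_ne hij, Function.update_self]
    have hPj : P j = pj := Function.update_self _ _ _
    have h1 : IsMor x x P := by
      intro e
      rcases e with b | e
      · let x' : Matrix (Fin (α j)) (Fin (α i)) K := x (Sum.inl b)
        show P j * x' = x' * P i
        rw [hPi, hPj]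
        exact hp b
      · show P _ * x (Sum.inr e) = x (Sum.inr e) * P _
        rw [twoQ_zero Q i j hi hj hα x e, Matrix.mul_zero, Matrix.zero_mul]
    have h2 : ∀ l, P l * P l = P l := by
      intro l
      by_cases hl : l = i
      · subst hl
        rw [hPi]
        exact hpp false
      · by_cases hl' : l = j
        · subst hl'
          rw [hPj]
          exact hpp true
        · exact hempty l hl hl' _ _
    rcases h P h1 h2 with h3 | h3
    · left
      intro v
      cases v
      · exact hPi.symm.trans (h3 i)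
      · exact hPj.symm.trans (h3 j)
    · right
      intro v
      cases v
      · exact hPi.symm.trans (h3 i)
      · exact hPj.symm.trans (h3 j)
  · intro h P hP hPP
    rcases h (fun v => P (bif v then j else i)) (fun e => hP (Sum.inl e))
      (fun v => hPP _) with h3 | h3
    · left
      intro l
      by_cases hl : l = i
      · subst hl
        exact h3 false
      · by_cases hl' : l = j
        · subst hl'
          exact h3 true
        · exact hempty l hl hl' _ _
    · right
      intro l
      by_cases hl : l = i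
      · subst hl
        exact h3 false
      · by_cases hl' : l = j
        · subst hl'
          exact h3 true
        · exact hempty l hl hl' _ _

theorem kacCount_twoQ (Q : Quiv I E) (i j : I) (hij : i ≠ j) (hi : adj Q i i = 0)
    (hj : adj Q j j = 0) {α : I → ℕ} (hα : ∀ l, l ≠ i → l ≠ j → α l = 0) (F : Type) [Field F] :
    kacCount (twoQ Q i j) F α = kacCount K2 F (b2 i j α) := by
  unfold kacCount absIndecClasses
  apply ncard_classes_eq (fun x => AbsIndec x) (fun y => AbsIndec y) (fun x y => Isom x y)
    (fun x y => Isom x y) (isom_equivalence _ _ _) (isom_equivalence _ _ _)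
    (fun x y => y = res2 x)
  · intro x hx
    exact ⟨res2 x, (twoQ_indec_iff Q i j hij hi hj hα _).1 hx, rfl⟩
  · intro y hy
    let x : Rp (twoQ Q i j) F α := fun e => match e with
      | Sum.inl b => y b
      | Sum.inr _ => 0
    refine ⟨x, (twoQ_indec_iff Q i j hij hi hj hα _).2 hy, rfl⟩
  · rintro x x' _ _ rfl rfl
    exact twoQ_isom_iff Q i j hij hi hj hα x x'

theorem kac_kron (Q : Quiv I E) (i j : I) (hij : i ≠ j) (hi : adj Q i i = 0)
    (hj : adj Q j j = 0) (h : adj Q i j = 2) (n : ℕ) (hn : 1 ≤ n) :
    kacOne Q (fun l => if l = i ∨ l = j then n else 0) = 2 := by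
  have h1 : IsKacPoly Q (fun l => if l = i ∨ l = j then n else 0) (X + 1) := by
    intro F _ _
    rw [← kacCount_congr_adj (twoQ Q i j) Q (adj_twoQ Q i j hij h),
      kacCount_twoQ Q i j hij hi hj (fun l h1 h2 => by simp [h1, h2])]
    have h2 : b2 i j (fun l => if l = i ∨ l = j then n else 0) = fun _ => n := by
      funext v
      cases v
      · show (if i = i ∨ i = j then n else 0) = n
        simp
      · show (if j = i ∨ j = j then n else 0) = n
        simp
    rw [h2, kacCount_K2 F hn]
    simp
  rw [kacOne_eq Q _ _ h1]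
  simp
  norm_num

end

end Pool.Agent.H27.KAC
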