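import Pool.Agent.H27.KAC.PR_Exact

/-!
Project KAC: pairs of square matrices, linear algebra for the quiver with two arrows.
-/

set_option autoImplicit false

namespace Pool.Agent.H27.KAC

open scoped BigOperators
open Polynomial

section pencil

variable {K : Type} [Field K] {n : ℕ}

/-- the pair `(A, B)` is indecomposable -/
def PInd (A B : Matrix (Fin n) (Fin n) K) : Prop :=
  ∀ p q : Matrix (Fin n) (Fin n) K, q * A = A * p → q * B = B * p → p * p = p → q * q = q →
    (p = 0 ∧ q = 0) ∨ (p = 1 ∧ q = 1)

/-- the only idempotents commuting with `C` are zero and one -/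
def CInd (C : Matrix (Fin n) (Fin n) K) : Prop :=
  ∀ p : Matrix (Fin n) (Fin n) K, p * C = C * p → p * p = p → p = 0 ∨ p = 1

theorem PInd.left_inverse {A B : Matrix (Fin n) (Fin n) K} (h : PInd A B) :
    ∃ T : Matrix (Fin n) (Fin n ⊕ Fin n) K, T * Matrix.fromRows A B = 1 := by
  apply exists_left_inverse
  intro p hp hL
  rw [Matrix.fromRows_mul] at hL
  have hL := Matrix.fromRows_inj hL
  rcases h p 1 (by rw [Matrix.one_mul, hL.1]) (by rw [Matrix.one_mul, hL.2]) hp
    (Matrix.one_mul 1) with h1 | h1
  · rw [h1.1, ← h1.2]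
  · exact h1.1

theorem PInd.reflect {A B : Matrix (Fin n) (Fin n) K} (h : PInd A B) :
    ∃ A' B' : Matrix (Fin n) (Fin n) K, A' * A + B' * B = 0 ∧ PInd B' (-A') := by
  obtain ⟨T, hT⟩ := h.left_inverse
  obtain ⟨H, S, h1, h2, h3⟩ := exact_completion' n n (Matrix.fromRows A B) T hT (by simp)
  refine ⟨H.toCols₁, H.toCols₂, ?_, ?_⟩
  · rw [← Matrix.fromCols_mul_fromRows, Matrix.fromCols_toCols, h1]
  · intro p' q' hq1 hq2 hp' hq'
    let D : Matrix (Fin n ⊕ Fin n) (Fin n ⊕ Fin n) K := Matrix.fromBlocks p' 0 0 p'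
    have hD : D * D = D := by
      show Matrix.fromBlocks _ _ _ _ * Matrix.fromBlocks _ _ _ _ = _
      rw [Matrix.fromBlocks_multiply, hp']
      simp [D]
    have hH : q' * H = H * D := by
      have e1 : H = Matrix.fromCols H.toCols₁ H.toCols₂ := (Matrix.fromCols_toCols H).symm
      rw [e1, Matrix.mul_fromCols, Matrix.fromCols_mul_fromBlocks]
      rw [hq1]
      have e2 : q' * H.toCols₁ = H.toCols₁ * p' := by
        rw [Matrix.mul_neg, Matrix.neg_mul] at hq2
        exact neg_injective hq2
      rw [e2]
      simp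
    have hL : Matrix.fromRows A B * (T * D * Matrix.fromRows A B) = D * Matrix.fromRows A B := by
      have e3 : Matrix.fromRows A B * T = 1 - S * H := by
        rw [← h3]
        abel
      rw [← Matrix.mul_assoc, ← Matrix.mul_assoc, e3, Matrix.sub_mul, Matrix.one_mul,
        Matrix.mul_assoc S H D, ← hH, Matrix.sub_mul, Matrix.mul_assoc S, Matrix.mul_assoc q' H,
        h1, Matrix.mul_zero, Matrix.mul_zero, sub_zero]
    have hDL : D * Matrix.fromRows A B = Matrix.fromRows (p' * A) (p' * B) := by
      simp only [D]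
      rw [Matrix.fromBlocks_mul_fromRows]
      simp
    have hpp : (T * D * Matrix.fromRows A B) * (T * D * Matrix.fromRows A B) =
        T * D * Matrix.fromRows A B := by
      rw [Matrix.mul_assoc (T * D), hL, ← Matrix.mul_assoc, Matrix.mul_assoc T, hD]
    rw [hDL, Matrix.fromRows_mul] at hL
    have hL := Matrix.fromRows_inj hL
    rcases h _ p' hL.1.symm hL.2.symm hpp hp' with h4 | h4
    · refine Or.inl ⟨h4.2, ?_⟩
      have e4 : D = 0 := by
        show Matrix.fromBlocks _ _ _ _ = _
        rw [h4.2]
        exact Matrix.fromBlocks_zero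
      calc q' = q' * (H * S) := by rw [h2, Matrix.mul_one]
        _ = 0 := by rw [← Matrix.mul_assoc, hH, e4, Matrix.mul_zero, Matrix.zero_mul]
    · refine Or.inr ⟨h4.2, ?_⟩
      have e4 : D = 1 := by
        show Matrix.fromBlocks _ _ _ _ = _
        rw [h4.2]
        exact Matrix.fromBlocks_one
      calc q' = q' * (H * S) := by rw [h2, Matrix.mul_one]
        _ = 1 := by rw [← Matrix.mul_assoc, hH, e4, Matrix.mul_one, h2]

theorem PInd.no_kernel (m : ℕ) : ∀ {A B : Matrix (Fin n) (Fin n) K}, PInd A B →
    ∀ v : ℕ → (Fin n → K), A.mulVec (v 0) = 0 → (∀ k, A.mulVec (v (k + 1)) + B.mulVec (v k) = 0) →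
      (∀ k, m ≤ k → v k = 0) → ∀ k, v k = 0 := by
  induction m with
  | zero => exact fun _ v _ _ h k => h k (Nat.zero_le k)
  | succ m ih =>
    intro A B h v h0 h1 h2
    obtain ⟨A', B', h3, h4⟩ := h.reflect
    have hA : ∀ u : Fin n → K, B'.mulVec (B.mulVec u) = -(A'.mulVec (A.mulVec u)) := by
      intro u
      have e1 := congrArg (fun M => Matrix.mulVec M u) h3
      simp only [Matrix.add_mulVec, ← Matrix.mulVec_mulVec, Matrix.zero_mulVec] at e1
      exact eq_neg_of_add_eq_zero_right e1
    have h5 : ∀ k, B.mulVec (v k) = 0 := by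
      apply ih h4 (fun k => B.mulVec (v k))
      · show B'.mulVec (B.mulVec (v 0)) = 0
        rw [hA, h0, Matrix.mulVec_zero, neg_zero]
      · intro k
        show B'.mulVec (B.mulVec (v (k + 1))) + (-A').mulVec (B.mulVec (v k)) = 0
        have e2 : B.mulVec (v k) = -A.mulVec (v (k + 1)) := eq_neg_of_add_eq_zero_right (h1 k)
        rw [hA, e2, Matrix.neg_mulVec, Matrix.mulVec_neg]
        simp
      · intro k hk
        show B.mulVec (v k) = 0
        have e3 := h1 k
        rw [h2 (k + 1) (by omega), Matrix.mulVec_zero, zero_add] at e3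
        exact e3
    obtain ⟨T, hT⟩ := h.left_inverse
    intro k
    have h6 : A.mulVec (v k) = 0 := by
      cases k with
      | zero => exact h0
      | succ k =>
        have e4 := h1 k
        rw [h5 k, add_zero] at e4
        exact e4
    have h7 : (Matrix.fromRows A B).mulVec (v k) = 0 := by
      rw [Matrix.fromRows_mulVec, h6, h5 k]
      funext x
      rcases x with x | x <;> rfl
    calc v k = (1 : Matrix (Fin n) (Fin n) K).mulVec (v k) := (Matrix.one_mulVec _).symm
      _ = 0 := by rw [← hT, ← Matrix.mulVec_mulVec, h7, Matrix.mulVec_zero]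

theorem PInd.det_ne {A B : Matrix (Fin n) (Fin n) K} (h : PInd A B) :
    (A.map (C : K →+* K[X]) + (X : K[X]) • B.map (C : K →+* K[X])).det ≠ 0 := by
  intro hdet
  obtain ⟨v, hv, hMv⟩ := Matrix.exists_mulVec_eq_zero_iff.2 hdet
  apply hv
  have hcoef : ∀ k i, ∑ j, (A i j * (v j).coeff (k + 1) + B i j * (v j).coeff k) = 0 := by
    intro k i
    have h1 := congrFun hMv i
    have h2 := congrArg (fun p : K[X] => p.coeff (k + 1)) h1
    simp only [Matrix.mulVec, dotProduct, Matrix.add_apply, Matrix.map_apply, Matrix.smul_apply,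
      smul_eq_mul, finset_sum_coeff, Pi.zero_apply, coeff_zero] at h2
    rw [← h2]
    refine Finset.sum_congr rfl fun j _ => ?_
    rw [add_mul, coeff_add, coeff_C_mul, mul_assoc, coeff_X_mul, coeff_C_mul]
  have hcoef0 : ∀ i, ∑ j, A i j * (v j).coeff 0 = 0 := by
    intro i
    have h1 := congrFun hMv i
    have h2 := congrArg (fun p : K[X] => p.coeff 0) h1
    simp only [Matrix.mulVec, dotProduct, Matrix.add_apply, Matrix.map_apply, Matrix.smul_apply,
      smul_eq_mul, finset_sum_coeff, Pi.zero_apply, coeff_zero] at h2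
    rw [← h2]
    refine Finset.sum_congr rfl fun j _ => ?_
    rw [add_mul, coeff_add, coeff_C_mul, mul_assoc]
    simp
  let m := Finset.univ.sup (fun j => (v j).natDegree) + 1
  have h3 := PInd.no_kernel m h (fun k j => (v j).coeff k) (by
    funext i
    exact hcoef0 i) (by
    intro k
    funext i
    have := hcoef k i
    rw [Finset.sum_add_distrib] at this
    exact this) (by
    intro k hk
    funext j
    apply coeff_eq_zero_of_natDegree_lt
    have : (v j).natDegree ≤ Finset.univ.sup (fun j => (v j).natDegree) :=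
      Finset.le_sup (f := fun j => (v j).natDegree) (Finset.mem_univ j)
    omega)
  funext j
  ext k
  exact congrFun (h3 k) j

theorem PInd.exists_det_ne [Infinite K] {A B : Matrix (Fin n) (Fin n) K} (h : PInd A B) :
    ∃ t : K, (A + t • B).det ≠ 0 := by
  by_contra hcon
  push Not at hcon
  apply h.det_ne
  apply Polynomial.funext
  intro t
  rw [eval_zero, ← Polynomial.coe_evalRingHom, RingHom.map_det, ← hcon t]
  congr 1
  ext i j
  simp only [RingHom.mapMatrix_apply, Matrix.map_apply, Matrix.add_apply, Matrix.smul_apply,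
    smul_eq_mul, coe_evalRingHom, eval_add, eval_C, eval_mul, eval_X]

/-- Fitting: nilpotent or invertible. -/
theorem CInd.nil_or_unit {C : Matrix (Fin n) (Fin n) K} (h : CInd C) :
    IsNilpotent C ∨ IsUnit C := by
  have h0 : C.charpoly ≠ 0 := C.charpoly_monic.ne_zero
  obtain ⟨g, hg, hXg⟩ := Polynomial.exists_eq_pow_rootMultiplicity_mul_and_not_dvd C.charpoly h0 0
  rw [map_zero, sub_zero] at hg hXg
  set a := C.charpoly.rootMultiplicity 0 with ha
  have hcop : IsCoprime (X ^ a : K[X]) g := by
    apply IsCoprime.pow_left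
    rw [Polynomial.irreducible_X.coprime_iff_not_dvd]
    exact hXg
  obtain ⟨u, w, huw⟩ := hcop
  have hCH : aeval C C.charpoly = 0 := Matrix.aeval_self_charpoly C
  let e := aeval C (w * g)
  have he1 : 1 - e = aeval C (u * X ^ a) := by
    have e1 : (1 : Matrix (Fin n) (Fin n) K) = aeval C (u * X ^ a + w * g) := by
      rw [huw, map_one]
    rw [e1, map_add]
    simp [e]
  have hmul : aeval C (u * X ^ a) * aeval C (w * g) = 0 := by
    rw [← map_mul, show u * X ^ a * (w * g) = u * w * (X ^ a * g) by ring, ← hg, map_mul, hCH,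
      mul_zero]
  have hee : e * e = e := by
    have : (1 - e) * e = 0 := by
      rw [he1]
      exact hmul
    rw [sub_mul, one_mul, sub_eq_zero] at this
    exact this.symm
  have hcomm : e * C = C * e := by
    have h1 : C = aeval C (X : K[X]) := (aeval_X C).symm
    show aeval C (w * g) * C = C * aeval C (w * g)
    conv_lhs => rw [h1]
    conv_rhs => rw [h1]
    simp only [aeval_X]
    have h2 := congrArg (aeval C) (mul_comm (w * g) X)
    rw [map_mul, map_mul (aeval C) X, aeval_X] at h2
    exact h2
  rcases h e hcomm hee with h2 | h2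
  · right
    rw [h2, sub_zero] at he1
    rcases Nat.eq_zero_or_pos a with h3 | h3
    · rw [Matrix.isUnit_iff_isUnit_det, isUnit_iff_ne_zero]
      intro hdet
      apply hXg
      rw [h3, pow_zero, one_mul] at hg
      rw [← hg, Polynomial.X_dvd_iff, Matrix.charpoly, Polynomial.coeff_zero_eq_eval_zero,
        ← Polynomial.coe_evalRingHom, RingHom.map_det]
      have h4 : (evalRingHom (0 : K)).mapMatrix C.charmatrix = -C := by
        ext i j
        simp only [RingHom.mapMatrix_apply, Matrix.map_apply, Matrix.charmatrix_apply,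
          Matrix.diagonal_apply, coe_evalRingHom, eval_sub, eval_C, Matrix.neg_apply]
        split_ifs <;> simp
      rw [h4, Matrix.det_neg, hdet, mul_zero]
    · have h5 : aeval C (u * X ^ (a - 1)) * C = 1 := by
        rw [he1]
        have h6 : u * X ^ a = u * X ^ (a - 1) * X := by
          rw [mul_assoc, ← pow_succ, Nat.sub_add_cancel h3]
        rw [h6, map_mul _ (u * X ^ (a - 1)) X, aeval_X]
      exact IsUnit.of_mul_eq_one _ (mul_eq_one_comm.1 h5)
  · left
    refine ⟨a, ?_⟩
    have h3 : C ^ a * e = 0 := by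
      show C ^ a * aeval C (w * g) = 0
      have h4 : C ^ a = aeval C (X ^ a : K[X]) := by rw [map_pow, aeval_X]
      rw [h4, ← map_mul, show X ^ a * (w * g) = w * (X ^ a * g) by ring, ← hg, map_mul, hCH,
        mul_zero]
    rwa [h2, mul_one] at h3

end pencil

end Pool.Agent.H27.KAC
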