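import Pool.Agent.H27.KAC.KIKronA

/-!
Project KAC: single Jordan blocks.
-/

set_option autoImplicit false

namespace Pool.Agent.H27.KAC

open scoped BigOperators
open Polynomial

section pencil

variable {K : Type} [Field K] {n : ℕ}

/-- `A = G (1 - t C)`, `B = G C`. -/
theorem PInd.inv_or_inv [Infinite K] {A B : Matrix (Fin n) (Fin n) K} (h : PInd A B) :
    IsUnit A ∨ IsUnit B := by
  obtain ⟨t, ht⟩ := h.exists_det_ne
  set G := A + t • B with hG
  have hGu : IsUnit G.det := isUnit_iff_ne_zero.2 ht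
  let C := G⁻¹ * B
  have hB : B = G * C := by
    show B = G * (G⁻¹ * B)
    rw [← Matrix.mul_assoc, Matrix.mul_nonsing_inv _ hGu, Matrix.one_mul]
  have hA : A = G * (1 - t • C) := by
    rw [Matrix.mul_sub, Matrix.mul_one, Matrix.mul_smul, ← hB, hG]
    abel
  have hC : CInd C := by
    intro p hp hpp
    have h1 : p * (1 - t • C) = (1 - t • C) * p := by
      rw [Matrix.mul_sub, Matrix.sub_mul, Matrix.mul_one, Matrix.one_mul, Matrix.mul_smul,
        Matrix.smul_mul, hp]
    have hGG : G⁻¹ * G = 1 := Matrix.nonsing_inv_mul _ hGu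
    have h2 : ∀ M : Matrix (Fin n) (Fin n) K, p * M = M * p →
        (G * p * G⁻¹) * (G * M) = (G * M) * p := by
      intro M hM
      calc (G * p * G⁻¹) * (G * M) = G * p * (G⁻¹ * G) * M := by simp only [Matrix.mul_assoc]
        _ = (G * M) * p := by rw [hGG, Matrix.mul_one, Matrix.mul_assoc, hM, Matrix.mul_assoc]
    have h3 : (G * p * G⁻¹) * (G * p * G⁻¹) = G * p * G⁻¹ := by
      calc (G * p * G⁻¹) * (G * p * G⁻¹) = G * p * (G⁻¹ * G) * p * G⁻¹ := by
            simp only [Matrix.mul_assoc]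
        _ = G * p * G⁻¹ := by rw [hGG, Matrix.mul_one, Matrix.mul_assoc G p p, hpp]
    rcases h p (G * p * G⁻¹) (by rw [hA]; exact h2 _ h1) (by rw [hB]; exact h2 _ hp) hpp h3
      with h4 | h4
    · exact Or.inl h4.1
    · exact Or.inr h4.1
  rcases hC.nil_or_unit with h5 | h5
  · left
    rw [hA]
    refine IsUnit.mul ((Matrix.isUnit_iff_isUnit_det _).2 hGu) ?_
    exact IsNilpotent.isUnit_one_sub (h5.smul t)
  · right
    rw [hB]
    exact IsUnit.mul ((Matrix.isUnit_iff_isUnit_det _).2 hGu) h5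

/-- The nilpotent Jordan block. -/
def Jn (K : Type) [Field K] (n : ℕ) : Matrix (Fin n) (Fin n) K :=
  fun a b => if (a : ℕ) = (b : ℕ) + 1 then 1 else 0

/-- Multiplication by the block on the left shifts the rows. -/
theorem Jn_mul {ι : Type} (M : Matrix (Fin n) ι K) (a : Fin n) (c : ι) :
    (Jn K n * M) a c = if h : 0 < (a : ℕ) then M ⟨a - 1, by omega⟩ c else 0 := by
  rw [Matrix.mul_apply]
  split_ifs with h
  · rw [Finset.sum_eq_single ⟨(a : ℕ) - 1, by omega⟩]
    · unfold Jn
      rw [if_pos (by show (a : ℕ) = (a : ℕ) - 1 + 1; omega), one_mul]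
    · intro b _ hb
      unfold Jn
      rw [if_neg, zero_mul]
      intro h1
      apply hb
      ext
      show (b : ℕ) = (a : ℕ) - 1
      omega
    · intro h1
      exact absurd (Finset.mem_univ _) h1
  · apply Finset.sum_eq_zero
    intro b _
    unfold Jn
    rw [if_neg (by omega), zero_mul]

theorem mul_Jn {ι : Type} (M : Matrix ι (Fin n) K) (a : ι) (c : Fin n) :
    (M * Jn K n) a c = if h : (c : ℕ) + 1 < n then M a ⟨c + 1, h⟩ else 0 := by
  rw [Matrix.mul_apply]
  split_ifs with h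
  · rw [Finset.sum_eq_single ⟨(c : ℕ) + 1, h⟩]
    · unfold Jn
      rw [if_pos rfl, mul_one]
    · intro b _ hb
      unfold Jn
      rw [if_neg, mul_zero]
      intro h1
      exact hb (Fin.ext h1)
    · intro h1
      exact absurd (Finset.mem_univ _) h1
  · apply Finset.sum_eq_zero
    intro b _
    unfold Jn
    rw [if_neg (by omega), mul_zero]

/-- A matrix commuting with the block is lower triangular with constant diagonal. -/
theorem commute_Jn {p : Matrix (Fin n) (Fin n) K} (h : p * Jn K n = Jn K n * p) (d : ℕ) :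
    ∀ a b : Fin n, (b : ℕ) = (a : ℕ) + d → 0 < d → p a b = 0 := by
  intro a
  induction ha : (a : ℕ) generalizing a with
  | zero =>
    intro b hb hd
    have h1 := congrFun (congrFun h a) ⟨(b : ℕ) - 1, by omega⟩
    rw [mul_Jn, Jn_mul, dif_pos (by show (b : ℕ) - 1 + 1 < n; omega), dif_neg (by omega)] at h1
    rw [← h1]
    congr 1
    ext
    show (b : ℕ) = (b : ℕ) - 1 + 1
    omega
  | succ k ih =>
    intro b hb hd
    have h1 := congrFun (congrFun h a) ⟨(b : ℕ) - 1, by omega⟩
    rw [mul_Jn, Jn_mul, dif_pos (by show (b : ℕ) - 1 + 1 < n; omega), dif_pos (by omega),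
      ih ⟨(a : ℕ) - 1, by omega⟩ (by show (a : ℕ) - 1 = k; omega) ⟨(b : ℕ) - 1, by omega⟩
        (by show (b : ℕ) - 1 = k + d; omega) hd] at h1
    rw [← h1]
    congr 1
    ext
    show (b : ℕ) = (b : ℕ) - 1 + 1
    omega

theorem commute_Jn_diag {p : Matrix (Fin n) (Fin n) K} (h : p * Jn K n = Jn K n * p)
    (z : Fin n) (hz : (z : ℕ) = 0) : ∀ a : Fin n, p a a = p z z := by
  intro a
  induction ha : (a : ℕ) generalizing a with
  | zero =>
    have : a = z := Fin.ext (by omega)
    rw [this]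
  | succ k ih =>
    have h1 := congrFun (congrFun h a) ⟨(a : ℕ) - 1, by omega⟩
    rw [mul_Jn, Jn_mul, dif_pos (by show (a : ℕ) - 1 + 1 < n; omega), dif_pos (by omega),
      ih ⟨(a : ℕ) - 1, by omega⟩ (by show (a : ℕ) - 1 = k; omega)] at h1
    rw [← h1]
    congr 1
    ext
    show (a : ℕ) = (a : ℕ) - 1 + 1
    omega

theorem lower_unit {p : Matrix (Fin n) (Fin n) K} (h : ∀ a b : Fin n, (a : ℕ) < (b : ℕ) → p a b = 0)
    (h' : ∀ a, p a a ≠ 0) : IsUnit p := by
  rw [Matrix.isUnit_iff_isUnit_det, Matrix.det_of_lowerTriangular p (by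
    intro i j hij
    exact h i j hij), isUnit_iff_ne_zero]
  exact Finset.prod_ne_zero_iff.2 fun a _ => h' a

/-- The block plus a scalar is indecomposable. -/
theorem CInd_Jn : CInd (Jn K n) := by
  intro p hp hpp
  rcases Nat.eq_zero_or_pos n with hn | hn
  · subst hn
    left
    ext a
    exact Fin.elim0 a
  · let z : Fin n := ⟨0, hn⟩
    have hlow : ∀ a b : Fin n, (a : ℕ) < (b : ℕ) → p a b = 0 := fun a b hab =>
      commute_Jn hp ((b : ℕ) - (a : ℕ)) a b (by omega) (by omega)
    have hdiag := commute_Jn_diag hp z rfl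
    by_cases h1 : p z z = 1
    · right
      have hu : IsUnit p := lower_unit hlow fun a => by
        rw [hdiag, h1]
        exact one_ne_zero
      have h2 : p * p = p * 1 := by rw [hpp, Matrix.mul_one]
      exact hu.mul_left_cancel h2
    · left
      have hu : IsUnit (1 - p) := by
        apply lower_unit
        · intro a b hab
          rw [Matrix.sub_apply, hlow a b hab, sub_zero, Matrix.one_apply_ne]
          intro hab'
          rw [hab'] at hab
          omega
        · intro a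
          rw [Matrix.sub_apply, Matrix.one_apply_eq, hdiag]
          exact sub_ne_zero.2 (Ne.symm h1)
      have h2 : (1 - p) * p = (1 - p) * 0 := by
        rw [Matrix.sub_mul, Matrix.one_mul, hpp, sub_self, Matrix.mul_zero]
      exact hu.mul_left_cancel h2

theorem det_Jn (hn : 1 ≤ n) : (Jn K n).det = 0 := by
  apply Matrix.det_eq_zero_of_row_eq_zero ⟨0, hn⟩
  intro b
  unfold Jn
  rw [if_neg]
  show ¬ (0 = (b : ℕ) + 1)
  omega

theorem det_smul_add_Jn (c : K) : (c • (1 : Matrix (Fin n) (Fin n) K) + Jn K n).det = c ^ n := by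
  rw [Matrix.det_of_lowerTriangular]
  · have : ∀ i : Fin n, (c • (1 : Matrix (Fin n) (Fin n) K) + Jn K n) i i = c := by
      intro i
      rw [Matrix.add_apply, Matrix.smul_apply, Matrix.one_apply_eq]
      unfold Jn
      rw [if_neg (by omega)]
      simp
    simp only [this, Finset.prod_const, Finset.card_univ, Fintype.card_fin]
  · intro i j hij
    have hij' : (i : ℕ) < (j : ℕ) := hij
    rw [Matrix.add_apply, Matrix.smul_apply, Matrix.one_apply_ne (by
      intro h
      rw [h] at hij'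
      omega)]
    unfold Jn
    rw [if_neg (by omega)]
    simp

/-- A nilpotent indecomposable matrix is a Jordan block. -/
theorem CInd.exists_Jn {N : Matrix (Fin n) (Fin n) K} (h : CInd N) (hN : IsNilpotent N)
    (hn : 1 ≤ n) : ∃ S : Matrix (Fin n) (Fin n) K, IsUnit S ∧ N * S = S * Jn K n := by
  classical
  have hne : Nonempty (Fin n) := ⟨⟨0, hn⟩⟩
  obtain ⟨k, hk1, hk2⟩ : ∃ k, N ^ (k + 1) = 0 ∧ N ^ k ≠ 0 := by
    have hex : ∃ m, N ^ m = 0 := hN
    have hm0 : Nat.find hex ≠ 0 := by
      intro h0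
      have h1 := Nat.find_spec hex
      rw [h0, pow_zero] at h1
      exact one_ne_zero h1
    refine ⟨Nat.find hex - 1, ?_, fun h1 => ?_⟩
    · rw [Nat.sub_add_cancel (by omega)]
      exact Nat.find_spec hex
    · have := Nat.find_min' hex h1
      omega
  have hab : ∃ a b, (N ^ k) a b ≠ 0 := by
    by_contra hcon
    push Not at hcon
    exact hk2 (Matrix.ext hcon)
  obtain ⟨a, b, hab⟩ := hab
  have hzero : ∀ m, k < m → N ^ m = 0 := by
    intro m hm
    obtain ⟨r, rfl⟩ := Nat.exists_eq_add_of_lt hm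
    rw [show k + r + 1 = (k + 1) + r by ring, pow_add, hk1, zero_mul]
  let S : Matrix (Fin n) (Fin (k + 1)) K := fun c j => (N ^ (j : ℕ)) c b
  let T : Matrix (Fin (k + 1)) (Fin n) K := fun j c => (N ^ (k - (j : ℕ))) a c
  have hTS : ∀ i j : Fin (k + 1), (T * S) i j = (N ^ (k - (i : ℕ) + (j : ℕ))) a b := by
    intro i j
    rw [Matrix.mul_apply, pow_add, Matrix.mul_apply]
  have hNS : N * S = S * Jn K (k + 1) := by
    ext c j
    rw [mul_Jn]
    have h1 : (N * S) c j = (N ^ ((j : ℕ) + 1)) c b := by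
      rw [Matrix.mul_apply, pow_succ', Matrix.mul_apply]
    rw [h1]
    split_ifs with h2
    · rfl
    · rw [hzero _ (by omega)]
      rfl
  have hTN : T * N = Jn K (k + 1) * T := by
    ext j c
    rw [Jn_mul]
    have h1 : (T * N) j c = (N ^ (k - (j : ℕ) + 1)) a c := by
      rw [Matrix.mul_apply, pow_succ, Matrix.mul_apply]
    rw [h1]
    split_ifs with h2
    · show _ = (N ^ (k - ((j : ℕ) - 1))) a c
      have e1 : k - (j : ℕ) + 1 = k - ((j : ℕ) - 1) := by omega
      rw [e1]
    · rw [hzero _ (by omega)]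
      rfl
  have hMu : IsUnit (T * S) := by
    apply lower_unit
    · intro i j hij
      rw [hTS, hzero _ (by omega)]
      rfl
    · intro i
      rw [hTS, Nat.sub_add_cancel (by omega)]
      exact hab
  have hMdet : IsUnit (T * S).det := (Matrix.isUnit_iff_isUnit_det _).1 hMu
  have hMJ : T * S * Jn K (k + 1) = Jn K (k + 1) * (T * S) := by
    rw [Matrix.mul_assoc, ← hNS, ← Matrix.mul_assoc, hTN, Matrix.mul_assoc]
  have hMi : (T * S)⁻¹ * (T * S) = 1 := Matrix.nonsing_inv_mul _ hMdet
  have hMi' : (T * S) * (T * S)⁻¹ = 1 := Matrix.mul_nonsing_inv _ hMdet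
  have hMJ' : (T * S)⁻¹ * Jn K (k + 1) = Jn K (k + 1) * (T * S)⁻¹ := by
    calc (T * S)⁻¹ * Jn K (k + 1) = (T * S)⁻¹ * (Jn K (k + 1) * (T * S)) * (T * S)⁻¹ := by
          rw [Matrix.mul_assoc, Matrix.mul_assoc (Jn K (k + 1)), hMi', Matrix.mul_one]
      _ = Jn K (k + 1) * (T * S)⁻¹ := by
          rw [← hMJ, ← Matrix.mul_assoc, hMi, Matrix.one_mul]
  set M := T * S with hM
  have hp1 : (S * M⁻¹ * T) * (S * M⁻¹ * T) = S * M⁻¹ * T := by
    calc (S * M⁻¹ * T) * (S * M⁻¹ * T) = S * M⁻¹ * (T * S) * M⁻¹ * T := by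
          simp only [Matrix.mul_assoc]
      _ = S * M⁻¹ * T := by rw [← hM, Matrix.mul_assoc S, hMi, Matrix.mul_one]
  have hp2 : (S * M⁻¹ * T) * N = N * (S * M⁻¹ * T) := by
    calc (S * M⁻¹ * T) * N = S * (M⁻¹ * Jn K (k + 1)) * T := by
          rw [Matrix.mul_assoc (S * M⁻¹), hTN]
          simp only [Matrix.mul_assoc]
      _ = N * (S * M⁻¹ * T) := by
          rw [hMJ', ← Matrix.mul_assoc S, ← hNS]
          simp only [Matrix.mul_assoc]
  have hp3 : S * M⁻¹ * T = 1 := by
    rcases h _ hp2 hp1 with h1 | h1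
    · exfalso
      have h2 : T * (S * M⁻¹ * T) * S = M := by
        calc T * (S * M⁻¹ * T) * S = (T * S) * M⁻¹ * (T * S) := by simp only [Matrix.mul_assoc]
          _ = M := by rw [← hM, hMi', Matrix.one_mul]
      rw [h1, Matrix.mul_zero, Matrix.zero_mul] at h2
      rw [← h2] at hMu
      exact not_isUnit_zero hMu
    · exact h1
  have hcard : n = k + 1 := by
    have h1 : Fintype.card (Fin n) = Fintype.card (Fin (k + 1)) :=
      Matrix.square_of_invertible S (M⁻¹ * T) (by rw [← Matrix.mul_assoc]; exact hp3)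
        (by rw [Matrix.mul_assoc, ← hM]; exact hMi)
    simpa using h1
  clear_value M
  subst hcard
  refine ⟨S, ?_, hNS⟩
  rw [Matrix.mul_assoc] at hp3
  exact IsUnit.of_mul_eq_one _ hp3

end pencil

end Pool.Agent.H27.KAC
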