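import Pool.Agent.H27.KAC.KIKronB

/-!
Project KAC: the quiver with two arrows, dimension vector `(n, n)`.
-/

set_option autoImplicit false

namespace Pool.Agent.H27.KAC

open scoped BigOperators
open Polynomial

section frob

variable {F : Type} [Field F] [Fintype F]

theorem kron_mem_of_pow {K : Type} [Field K] [Algebra F K] (z : K)
    (h : z ^ Fintype.card F = z) : ∃ a : F, algebraMap F K a = z := by
  classical
  by_contra hcon
  push Not at hcon
  have hdeg : (X ^ Fintype.card F - X : K[X]).natDegree = Fintype.card F :=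
    FiniteField.X_pow_card_sub_X_natDegree_eq K Fintype.one_lt_card
  have hne : (X ^ Fintype.card F - X : K[X]) ≠ 0 :=
    FiniteField.X_pow_card_sub_X_ne_zero K Fintype.one_lt_card
  let s : Finset K := Finset.univ.map ⟨algebraMap F K, (algebraMap F K).injective⟩
  have hs : z ∉ s := by
    intro hz
    rw [Finset.mem_map] at hz
    obtain ⟨a, _, ha⟩ := hz
    exact hcon a ha
  have hsub : (insert z s).val ⊆ (X ^ Fintype.card F - X : K[X]).roots := by
    intro w hw
    rw [Polynomial.mem_roots hne, IsRoot.def, eval_sub, eval_pow, eval_X, sub_eq_zero]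
    have hw' : w ∈ insert z s := hw
    rw [Finset.mem_insert] at hw'
    rcases hw' with rfl | hw'
    · exact h
    · rw [Finset.mem_map] at hw'
      obtain ⟨a, _, rfl⟩ := hw'
      show (algebraMap F K a) ^ Fintype.card F = algebraMap F K a
      rw [← map_pow, FiniteField.pow_card]
  have h1 := Polynomial.card_le_degree_of_subset_roots hsub
  rw [hdeg, Finset.card_insert_of_notMem hs, Finset.card_map, Finset.card_univ] at h1
  omega

/-- A matrix over `F` which is indecomposable over the algebraic closure has an eigenvalue in `F`. -/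
theorem kron_eigen {n : ℕ} (hn : 1 ≤ n) (C : Matrix (Fin n) (Fin n) F)
    (h : CInd (C.map (algebraMap F (AlgebraicClosure F)))) :
    ∃ c : F, IsNilpotent (C - c • (1 : Matrix (Fin n) (Fin n) F)) := by
  classical
  have hne : Nonempty (Fin n) := ⟨⟨0, hn⟩⟩
  set K := AlgebraicClosure F with hK
  set D := C.map (algebraMap F K) with hD
  obtain ⟨z, hz⟩ := IsAlgClosed.exists_root D.charpoly (by
    rw [Matrix.charpoly_degree_eq_dim, Fintype.card_fin]
    exact_mod_cast (show n ≠ 0 by omega))
  have hdet : (D - z • (1 : Matrix (Fin n) (Fin n) K)).det = 0 := by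
    have h1 : (z • (1 : Matrix (Fin n) (Fin n) K) - D).det = 0 := by
      rw [IsRoot.def, Matrix.eval_charpoly] at hz
      rw [← hz]
      congr 1
      ext i j
      simp [Matrix.scalar_apply, Matrix.diagonal_apply, Matrix.one_apply]
    rw [← neg_sub, Matrix.det_neg, h1, mul_zero]
  have hCI : CInd (D - z • (1 : Matrix (Fin n) (Fin n) K)) := by
    intro p hp hpp
    apply h p _ hpp
    have h2 : p * (z • (1 : Matrix (Fin n) (Fin n) K)) = (z • (1 : Matrix (Fin n) (Fin n) K)) * p := by
      rw [Matrix.mul_smul, Matrix.smul_mul, Matrix.mul_one, Matrix.one_mul]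
    rw [Matrix.mul_sub, Matrix.sub_mul, h2] at hp
    exact sub_left_injective hp
  have hnil : IsNilpotent (D - z • (1 : Matrix (Fin n) (Fin n) K)) := by
    rcases hCI.nil_or_unit with h3 | h3
    · exact h3
    · rw [Matrix.isUnit_iff_isUnit_det, hdet] at h3
      exact absurd h3 not_isUnit_zero
  let φ : K →ₐ[F] K := FiniteField.frobeniusAlgHom F K
  have hφD : φ.toRingHom.mapMatrix D = D := by
    ext i j
    show φ (algebraMap F K (C i j)) = algebraMap F K (C i j)
    exact φ.commutes _
  have hφz : φ.toRingHom.mapMatrix (z • (1 : Matrix (Fin n) (Fin n) K)) =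
      (z ^ Fintype.card F) • (1 : Matrix (Fin n) (Fin n) K) := by
    ext i j
    show φ ((z • (1 : Matrix (Fin n) (Fin n) K)) i j) = _
    rw [Matrix.smul_apply, Matrix.smul_apply, smul_eq_mul, smul_eq_mul, map_mul, Matrix.one_apply]
    have h4 : φ z = z ^ Fintype.card F := rfl
    split_ifs
    · rw [map_one, h4]
    · rw [map_zero, h4]
  have hnil2 := hnil.map φ.toRingHom.mapMatrix
  rw [map_sub, hφD, hφz] at hnil2
  have hcomm : Commute (D - z • (1 : Matrix (Fin n) (Fin n) K))
      (D - (z ^ Fintype.card F) • (1 : Matrix (Fin n) (Fin n) K)) := by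
    have h5 : ∀ c : K, Commute D (c • (1 : Matrix (Fin n) (Fin n) K)) := fun c =>
      (Commute.one_right D).smul_right c
    have h6 : ∀ c c' : K, Commute (c • (1 : Matrix (Fin n) (Fin n) K))
      (c' • (1 : Matrix (Fin n) (Fin n) K)) := fun c c' =>
      ((Commute.one_right _).smul_right c').smul_left c
    exact ((Commute.refl D).sub_right (h5 _)).sub_left ((h5 _).symm.sub_right (h6 _ _))
  have hdiff := hcomm.isNilpotent_sub hnil hnil2
  have hzz : z ^ Fintype.card F = z := by
    obtain ⟨m, hm⟩ := hdiff
    have h7 : D - z • (1 : Matrix (Fin n) (Fin n) K) -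
        (D - (z ^ Fintype.card F) • (1 : Matrix (Fin n) (Fin n) K)) =
        (z ^ Fintype.card F - z) • (1 : Matrix (Fin n) (Fin n) K) := by
      rw [sub_smul]
      abel
    rw [h7, _root_.smul_pow, one_pow] at hm
    have h8 := congrFun (congrFun hm ⟨0, hn⟩) ⟨0, hn⟩
    rw [Matrix.smul_apply, Matrix.one_apply_eq, smul_eq_mul, mul_one, Matrix.zero_apply] at h8
    rcases Nat.eq_zero_or_pos m with h9 | h9
    · rw [h9, pow_zero] at h8
      exact absurd h8 one_ne_zero
    · exact sub_eq_zero.1 ((pow_eq_zero_iff h9.ne').1 h8)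
  obtain ⟨c, hc⟩ := kron_mem_of_pow (F := F) z hzz
  refine ⟨c, ?_⟩
  have h10 : (algebraMap F K).mapMatrix (C - c • (1 : Matrix (Fin n) (Fin n) F)) =
      D - z • (1 : Matrix (Fin n) (Fin n) K) := by
    ext i j
    show algebraMap F K ((C - c • (1 : Matrix (Fin n) (Fin n) F)) i j) = _
    rw [Matrix.sub_apply, Matrix.sub_apply, map_sub, Matrix.smul_apply, Matrix.smul_apply,
      smul_eq_mul, smul_eq_mul, map_mul, hc, Matrix.one_apply, Matrix.one_apply]
    split_ifs
    · rw [map_one]
      rfl
    · rw [map_zero]
      rfl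
  rw [← h10] at hnil
  obtain ⟨m, hm⟩ := hnil
  refine ⟨m, ?_⟩
  rw [← map_pow] at hm
  have h11 : Function.Injective ((algebraMap F K).mapMatrix (m := Fin n)) := by
    intro M N hMN
    ext i j
    exact (algebraMap F K).injective (congrFun (congrFun hMN i) j)
  exact h11 (by rw [hm, map_zero])

end frob

section count

/-- Two arrows from `false` to `true`. -/
def K2 : Quiv Bool Bool where
  src := fun _ => false
  tgt := fun _ => true

variable {K : Type} [Field K] {n : ℕ}

/-- The pair `(A, B)` as a representation. -/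
def k2rep (A B : Matrix (Fin n) (Fin n) K) : Rp K2 K (fun _ => n) := fun b => bif b then B else A

theorem k2_isom_iff {x y : Rp K2 K (fun _ => n)} : Isom x y ↔
    ∃ g h : Matrix (Fin n) (Fin n) K, IsUnit g ∧ IsUnit h ∧ h * x false = y false * g ∧
      h * x true = y true * g := by
  constructor
  · rintro ⟨g, hg⟩
    exact ⟨g false, g true, (g false).isUnit, (g true).isUnit, hg false, hg true⟩
  · rintro ⟨g, h, hg, hh, h1, h2⟩
    refine ⟨fun v => match v with
      | false => hg.unit
      | true => hh.unit, fun e => ?_⟩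
    cases e
    · exact h1
    · exact h2

theorem k2_indec_iff (hn : 1 ≤ n) {x : Rp K2 K (fun _ => n)} :
    Indec x ↔ PInd (x false) (x true) := by
  have h0 : (fun _ : Bool => n) ≠ 0 := by
    intro h
    have := congrFun h true
    simp only [Pi.zero_apply] at this
    omega
  constructor
  · intro h p q hq1 hq2 hp hq
    rcases h.2 (fun v => match v with
      | false => p
      | true => q) (fun e => by
        cases e
        · exact hq1
        · exact hq2) (fun v => by
        cases v
        · exact hp
        · exact hq) with h1 | h1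
    · exact Or.inl ⟨h1 false, h1 true⟩
    · exact Or.inr ⟨h1 false, h1 true⟩
  · intro h
    refine ⟨h0, fun p hp hpp => ?_⟩
    rcases h (p false) (p true) (hp false) (hp true) (hpp false) (hpp true) with h1 | h1
    · left
      intro v
      cases v
      · exact h1.1
      · exact h1.2
    · right
      intro v
      cases v
      · exact h1.1
      · exact h1.2

theorem PInd_one_left {C : Matrix (Fin n) (Fin n) K} (h : CInd C) : PInd 1 C := by
  intro p q h1 h2 hp _
  rw [Matrix.mul_one, Matrix.one_mul] at h1
  subst h1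
  rcases h q h2 hp with h3 | h3
  · exact Or.inl ⟨h3, h3⟩
  · exact Or.inr ⟨h3, h3⟩

theorem PInd_one_right {C : Matrix (Fin n) (Fin n) K} (h : CInd C) : PInd C 1 := by
  intro p q h1 h2 hp _
  rw [Matrix.mul_one, Matrix.one_mul] at h2
  subst h2
  rcases h q h1 hp with h3 | h3
  · exact Or.inl ⟨h3, h3⟩
  · exact Or.inr ⟨h3, h3⟩

theorem CInd_smul_add {C : Matrix (Fin n) (Fin n) K} (h : CInd C) (c : K) :
    CInd (c • (1 : Matrix (Fin n) (Fin n) K) + C) := by
  intro p hp hpp
  apply h p _ hpp
  have h2 : p * (c • (1 : Matrix (Fin n) (Fin n) K)) = (c • (1 : Matrix (Fin n) (Fin n) K)) * p := by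
    rw [Matrix.mul_smul, Matrix.smul_mul, Matrix.mul_one, Matrix.one_mul]
  rw [Matrix.mul_add, Matrix.add_mul, h2] at hp
  exact add_left_cancel hp

/-- If `(A, B)` is indecomposable and `A` is invertible then `A⁻¹ B` is indecomposable. -/
theorem PInd.CInd_left {A B : Matrix (Fin n) (Fin n) K} (h : PInd A B) (hA : IsUnit A) :
    CInd (A⁻¹ * B) := by
  have hAd := (Matrix.isUnit_iff_isUnit_det _).1 hA
  have h1 : A * A⁻¹ = 1 := Matrix.mul_nonsing_inv _ hAd
  have h1' : A⁻¹ * A = 1 := Matrix.nonsing_inv_mul _ hAd
  intro p hp hpp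
  rcases h p (A * p * A⁻¹) (by rw [Matrix.mul_assoc, h1', Matrix.mul_one]) (by
      calc A * p * A⁻¹ * B = A * (p * (A⁻¹ * B)) := by simp only [Matrix.mul_assoc]
        _ = (A * A⁻¹) * (B * p) := by rw [hp]; simp only [Matrix.mul_assoc]
        _ = B * p := by rw [h1, Matrix.one_mul]) hpp (by
      calc A * p * A⁻¹ * (A * p * A⁻¹) = A * (p * (A⁻¹ * A) * p) * A⁻¹ := by
            simp only [Matrix.mul_assoc]
        _ = A * p * A⁻¹ := by rw [h1', Matrix.mul_one, hpp]) with h2 | h2
  · exact Or.inl h2.1
  · exact Or.inr h2.1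

theorem PInd.swap {A B : Matrix (Fin n) (Fin n) K} (h : PInd A B) : PInd B A :=
  fun p q h1 h2 h3 h4 => h p q h2 h1 h3 h4

variable {F : Type} [Field F]

/-- The `q + 1` representations. -/
def k2std (F : Type) [Field F] (n : ℕ) (o : Option F) : Rp K2 F (fun _ => n) :=
  match o with
  | none => k2rep (Jn F n) 1
  | some c => k2rep 1 (c • (1 : Matrix (Fin n) (Fin n) F) + Jn F n)

theorem map_Jn (L : Type) [Field L] (f : F →+* L) : (Jn F n).map f = Jn L n := by
  ext a b
  rw [Matrix.map_apply]
  unfold Jn
  split_ifs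
  · exact map_one f
  · exact map_zero f

theorem k2std_absIndec (hn : 1 ≤ n) (o : Option F) : AbsIndec (k2std F n o) := by
  unfold AbsIndec
  rw [k2_indec_iff hn]
  have h1 : ((1 : Matrix (Fin n) (Fin n) F)).map (algebraMap F (AlgebraicClosure F)) = 1 := by
    rw [Matrix.map_one _ (map_zero _) (map_one _)]
  cases o with
  | none =>
    show PInd ((Jn F n).map (algebraMap F (AlgebraicClosure F)))
      ((1 : Matrix (Fin n) (Fin n) F).map (algebraMap F (AlgebraicClosure F)))
    rw [map_Jn, h1]
    exact PInd_one_right CInd_Jn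
  | some c =>
    show PInd ((1 : Matrix (Fin n) (Fin n) F).map (algebraMap F (AlgebraicClosure F)))
      ((c • (1 : Matrix (Fin n) (Fin n) F) + Jn F n).map (algebraMap F (AlgebraicClosure F)))
    have h2 : (c • (1 : Matrix (Fin n) (Fin n) F) + Jn F n).map
        (algebraMap F (AlgebraicClosure F)) = algebraMap F (AlgebraicClosure F) c •
        (1 : Matrix (Fin n) (Fin n) (AlgebraicClosure F)) + Jn (AlgebraicClosure F) n := by
      ext a b
      rw [Matrix.map_apply, Matrix.add_apply, Matrix.smul_apply, Matrix.add_apply,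
        Matrix.smul_apply, smul_eq_mul, smul_eq_mul, map_add, map_mul,
        ← map_Jn (AlgebraicClosure F) (algebraMap F (AlgebraicClosure F)), Matrix.map_apply,
        Matrix.one_apply, Matrix.one_apply]
      congr 2
      split_ifs
      · exact map_one _
      · exact map_zero _
    rw [h1, h2]
    exact PInd_one_left (CInd_smul_add CInd_Jn _)

theorem k2std_inj (hn : 1 ≤ n) (o o' : Option F) (h : Isom (k2std F n o) (k2std F n o')) :
    o = o' := by
  obtain ⟨g, k, hg, hk, h1, h2⟩ := k2_isom_iff.1 h
  have hgd := ((Matrix.isUnit_iff_isUnit_det _).1 hg).ne_zero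
  have hkd := ((Matrix.isUnit_iff_isUnit_det _).1 hk).ne_zero
  have key : ∀ c : F, ((k2std F n o true - c • k2std F n o false).det = 0 ↔
      (k2std F n o' true - c • k2std F n o' false).det = 0) := by
    intro c
    have h3 : k * (k2std F n o true - c • k2std F n o false) =
        (k2std F n o' true - c • k2std F n o' false) * g := by
      rw [Matrix.mul_sub, Matrix.sub_mul, Matrix.mul_smul, Matrix.smul_mul, h1, h2]
    have h4 := congrArg Matrix.det h3
    rw [Matrix.det_mul, Matrix.det_mul] at h4
    constructor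
    · intro h5
      rw [h5, mul_zero] at h4
      exact (mul_eq_zero.1 h4.symm).resolve_right hgd
    · intro h5
      rw [h5, zero_mul] at h4
      exact (mul_eq_zero.1 h4).resolve_left hkd
  have key0 : ((k2std F n o false).det = 0 ↔ (k2std F n o' false).det = 0) := by
    have h4 := congrArg Matrix.det h1
    rw [Matrix.det_mul, Matrix.det_mul] at h4
    constructor
    · intro h5
      rw [h5, mul_zero] at h4
      exact (mul_eq_zero.1 h4.symm).resolve_right hgd
    · intro h5
      rw [h5, zero_mul] at h4
      exact (mul_eq_zero.1 h4).resolve_left hkd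
  have hone : ((1 : Matrix (Fin n) (Fin n) F)).det ≠ 0 := by
    rw [Matrix.det_one]
    exact one_ne_zero
  cases o with
  | none =>
    cases o' with
    | none => rfl
    | some c' =>
      exfalso
      exact hone (key0.1 (det_Jn hn))
  | some c =>
    cases o' with
    | none =>
      exfalso
      exact hone (key0.2 (det_Jn hn))
    | some c' =>
      have h6 : ((c • (1 : Matrix (Fin n) (Fin n) F) + Jn F n) -
          c • (1 : Matrix (Fin n) (Fin n) F)).det = 0 := by
        rw [add_sub_cancel_left]
        exact det_Jn hn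
      have h7 : ((c' • (1 : Matrix (Fin n) (Fin n) F) + Jn F n) -
          c • (1 : Matrix (Fin n) (Fin n) F)).det = 0 := (key c).1 h6
      have h8 : (c' • (1 : Matrix (Fin n) (Fin n) F) + Jn F n) -
          c • (1 : Matrix (Fin n) (Fin n) F) =
          (c' - c) • (1 : Matrix (Fin n) (Fin n) F) + Jn F n := by
        rw [sub_smul]
        abel
      rw [h8, det_smul_add_Jn] at h7
      have h9 := pow_eq_zero_iff (by omega : n ≠ 0) |>.1 h7
      rw [sub_eq_zero.1 h9]

theorem k2std_surj [Fintype F] (hn : 1 ≤ n) (x : Rp K2 F (fun _ => n)) (hx : AbsIndec x) :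
    ∃ o, Isom (k2std F n o) x := by
  have hP : PInd ((x false).map (algebraMap F (AlgebraicClosure F)))
      ((x true).map (algebraMap F (AlgebraicClosure F))) := (k2_indec_iff hn).1 hx
  have hPF : PInd (x false) (x true) := (k2_indec_iff hn).1 hx.indec
  have hdet : ∀ M : Matrix (Fin n) (Fin n) F,
      IsUnit (M.map (algebraMap F (AlgebraicClosure F))) → IsUnit M := by
    intro M hM
    rw [Matrix.isUnit_iff_isUnit_det, isUnit_iff_ne_zero] at hM ⊢
    intro h0
    apply hM
    have := (algebraMap F (AlgebraicClosure F)).map_det M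
    rw [h0, map_zero] at this
    exact this.symm
  by_cases hA : IsUnit (x false)
  · have hAd := (Matrix.isUnit_iff_isUnit_det _).1 hA
    have hAA : x false * (x false)⁻¹ = 1 := Matrix.mul_nonsing_inv _ hAd
    set C := (x false)⁻¹ * x true with hC
    have hCI : CInd (C.map (algebraMap F (AlgebraicClosure F))) := by
      have hAu : IsUnit ((x false).map (algebraMap F (AlgebraicClosure F))) :=
        hA.map (algebraMap F (AlgebraicClosure F)).mapMatrix
      have h1 := hP.CInd_left hAu
      have h2 : C.map (algebraMap F (AlgebraicClosure F)) =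
          ((x false).map (algebraMap F (AlgebraicClosure F)))⁻¹ *
            (x true).map (algebraMap F (AlgebraicClosure F)) := by
        have h5 : (x false).map (algebraMap F (AlgebraicClosure F)) *
            ((x false)⁻¹).map (algebraMap F (AlgebraicClosure F)) = 1 := by
          rw [← Matrix.map_mul, hAA, Matrix.map_one _ (map_zero _) (map_one _)]
        rw [Matrix.inv_eq_right_inv h5, ← Matrix.map_mul]
      rw [h2]
      exact h1
    obtain ⟨c, hc⟩ := kron_eigen hn C hCI
    have hCF : CInd (C - c • (1 : Matrix (Fin n) (Fin n) F)) := by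
      have h3 := CInd_smul_add (hPF.CInd_left hA) (-c)
      rw [neg_smul, neg_add_eq_sub] at h3
      exact h3
    obtain ⟨S, hS, hNS⟩ := hCF.exists_Jn hc hn
    refine ⟨some c, k2_isom_iff.2 ⟨S, x false * S, hS, hA.mul hS, ?_, ?_⟩⟩
    · show x false * S * 1 = x false * S
      rw [Matrix.mul_one]
    · show x false * S * (c • (1 : Matrix (Fin n) (Fin n) F) + Jn F n) = x true * S
      have h4 : x true = x false * C := by
        rw [hC, ← Matrix.mul_assoc, hAA, Matrix.one_mul]
      have h5 : c • S + (C - c • (1 : Matrix (Fin n) (Fin n) F)) * S = C * S := by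
        rw [Matrix.sub_mul, Matrix.smul_mul, Matrix.one_mul, add_sub_cancel]
      rw [Matrix.mul_assoc, Matrix.mul_add, ← hNS, Matrix.mul_smul, Matrix.mul_one, h5,
        ← Matrix.mul_assoc, ← h4]
  · have hB : IsUnit (x true) := by
      rcases hP.inv_or_inv with h1 | h1
      · exact absurd (hdet _ h1) hA
      · exact hdet _ h1
    have hBd := (Matrix.isUnit_iff_isUnit_det _).1 hB
    have hBB : x true * (x true)⁻¹ = 1 := Matrix.mul_nonsing_inv _ hBd
    have hCI : CInd ((x true)⁻¹ * x false) := hPF.swap.CInd_left hB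
    have h4 : x false = x true * ((x true)⁻¹ * x false) := by
      rw [← Matrix.mul_assoc, hBB, Matrix.one_mul]
    have hnil : IsNilpotent ((x true)⁻¹ * x false) := by
      rcases hCI.nil_or_unit with h1 | h1
      · exact h1
      · exfalso
        apply hA
        rw [h4]
        exact hB.mul h1
    obtain ⟨S, hS, hNS⟩ := hCI.exists_Jn hnil hn
    refine ⟨none, k2_isom_iff.2 ⟨S, x true * S, hS, hB.mul hS, ?_, ?_⟩⟩
    · show x true * S * Jn F n = x false * S
      rw [Matrix.mul_assoc, ← hNS, ← Matrix.mul_assoc, ← h4]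
    · show x true * S * 1 = x true * S
      rw [Matrix.mul_one]

theorem kacCount_K2 (F : Type) [Field F] [Fintype F] (hn : 1 ≤ n) :
    kacCount K2 F (fun _ => n) = Fintype.card F + 1 := by
  classical
  unfold kacCount
  have h1 : absIndecClasses K2 F (fun _ => n) =
      Set.range (fun o : Option F => {y | Isom (k2std F n o) y}) := by
    ext c
    constructor
    · rintro ⟨x, hx, rfl⟩
      obtain ⟨o, ho⟩ := k2std_surj hn x hx
      refine ⟨o, ?_⟩
      ext y
      exact ⟨fun h => (isom_equivalence K2 F _).trans ((isom_equivalence K2 F _).symm ho) h,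
        fun h => (isom_equivalence K2 F _).trans ho h⟩
    · rintro ⟨o, rfl⟩
      exact ⟨k2std F n o, k2std_absIndec hn o, rfl⟩
  have h2 : Function.Injective (fun o : Option F => {y | Isom (k2std F n o) y}) := by
    intro o o' h
    apply k2std_inj hn
    have h3 : k2std F n o' ∈ {y | Isom (k2std F n o) y} := by
      have h4 : k2std F n o' ∈ {y | Isom (k2std F n o') y} := (isom_equivalence K2 F _).refl _
      have h5 : {y | Isom (k2std F n o) y} = {y | Isom (k2std F n o') y} := h
      rw [h5]
      exact h4
    exact h3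
  rw [h1, ← Set.image_univ, Set.ncard_image_of_injective _ h2, Set.ncard_univ,
    Nat.card_eq_fintype_card, Fintype.card_option]

end count

end Pool.Agent.H27.KAC
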