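import Pool.Agent.H27.KAC.KJ1

/-!
KAC module KJ2: the substitution `X_i ↦ X_i w_i` and the residue formula.

* `exists_sub`: existence of the ring homomorphism with its coefficient formula.  Either through
  `MvPowerSeries.subst` (Mathlib, `HasSubst`: the `X_i w_i` have constant coefficient zero, `I` finite), or directly:
  define `φ F` by the coefficient formula; multiplicativity: `coeff α (X^β w^β)` vanishes unless `β ≤ α`,
  and both sides of `φ (F G) = φ F φ G` have the same coefficient at `α` because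
  `X^(β+β') w^(β+β') = X^β w^β X^β' w^β'`.
* `IsSub.coeff_mul`: `coeff α (φ F * g) = ∑_{β ≤ α} F_β coeff α (X^β w^β g)`.
* `IsSub.chain`: `θ_j (φ F) = ∑_l φ (θ_l F) * (jacM w) l j`: compare coefficients with `IsSub.coeff_mul`;
  `θ_j (X^β w^β) = X^β w^β ∑_l β_l (jacM w) l j`.
* `residue`: by `IsSub.coeff_mul` it is enough to see that `coeff α (X^β w^β w^(-α) det) = 1` if
  `β = α` and `0` if `β ≤ α`, `β ≠ α`: it is `coeff (α - β) (w^(-(α-β)) det)`, `jac_core`; for `β = α` the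
  constant coefficient of the determinant is the determinant of the identity matrix.
-/

namespace Pool.Agent.H27.KAC

open scoped BigOperators
open MvPowerSeries

variable {I : Type} [Fintype I] [DecidableEq I]

/-- the unit `w^β`. -/
noncomputable def KJ2_W (w : I → (MvPowerSeries I ℚ)ˣ) (β : I →₀ ℕ) : (MvPowerSeries I ℚ)ˣ :=
  ∏ i, (w i) ^ (β i)

theorem KJ2_prod (w : I → (MvPowerSeries I ℚ)ˣ) (β : I →₀ ℕ) :
    (β.prod fun s e => (X s * (w s : MvPowerSeries I ℚ)) ^ e) =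
      monomial β (1 : ℚ) * ((KJ2_W w β : (MvPowerSeries I ℚ)ˣ) : MvPowerSeries I ℚ) := by
  rw [MvPowerSeries.monomial_eq', map_one, one_mul, Finsupp.prod_fintype _ _ (fun i => pow_zero _),
    Finsupp.prod_fintype _ _ (fun i => pow_zero _), KJ2_W, Units.coe_prod,
    ← Finset.prod_mul_distrib]
  refine Finset.prod_congr rfl fun i _ => ?_
  rw [mul_pow, Units.val_pow_eq_pow_val]

theorem KJ2_coeff_zero {α β : I →₀ ℕ} (h : ¬ β ≤ α) (g : MvPowerSeries I ℚ) :
    MvPowerSeries.coeff α (monomial β (1 : ℚ) * g) = 0 := by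
  classical
  rw [MvPowerSeries.coeff_monomial_mul, if_neg h]

theorem exists_sub (w : I → (MvPowerSeries I ℚ)ˣ) :
    ∃ φ : MvPowerSeries I ℚ →+* MvPowerSeries I ℚ, IsSub w φ := by
  classical
  have ha : HasSubst (fun i : I => (X i * (w i : MvPowerSeries I ℚ) : MvPowerSeries I ℚ)) :=
    hasSubst_of_constantCoeff_zero (fun s => by
      rw [map_mul, MvPowerSeries.constantCoeff_X, zero_mul])
  refine ⟨(substAlgHom (R := ℚ) ha : MvPowerSeries I ℚ →ₐ[ℚ] MvPowerSeries I ℚ), ?_, ?_, ?_⟩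
  · intro i
    exact substAlgHom_X (R := ℚ) ha i
  · intro c
    exact (substAlgHom (R := ℚ) ha).commutes c
  · intro F α
    show MvPowerSeries.coeff α (substAlgHom (R := ℚ) ha F) = _
    rw [substAlgHom_apply, coeff_subst ha]
    rw [finsum_eq_sum_of_support_subset (s := Finset.Iic α)]
    · refine Finset.sum_congr rfl fun β _ => ?_
      rw [KJ2_prod, smul_eq_mul]
      rfl
    · intro β hβ
      rw [Function.mem_support] at hβ
      rw [Finset.mem_coe, Finset.mem_Iic]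
      by_contra hc
      apply hβ
      rw [KJ2_prod, KJ2_coeff_zero hc, smul_zero]

theorem IsSub.coeff_mul {w : I → (MvPowerSeries I ℚ)ˣ}
    {φ : MvPowerSeries I ℚ →+* MvPowerSeries I ℚ} (h : IsSub w φ) (F g : MvPowerSeries I ℚ)
    (α : I →₀ ℕ) :
    MvPowerSeries.coeff α (φ F * g) = ∑ β ∈ Finset.Iic α, MvPowerSeries.coeff β F *
      MvPowerSeries.coeff α (monomial β (1 : ℚ) *
        (((∏ i, (w i) ^ (β i)) : (MvPowerSeries I ℚ)ˣ) : MvPowerSeries I ℚ) * g) := by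
  classical
  rw [MvPowerSeries.coeff_mul]
  have h1 : ∀ p ∈ Finset.HasAntidiagonal.antidiagonal α,
      MvPowerSeries.coeff p.1 (φ F) * MvPowerSeries.coeff p.2 g =
      ∑ β ∈ Finset.Iic α, MvPowerSeries.coeff β F * (MvPowerSeries.coeff p.1 (monomial β (1 : ℚ) *
        (((∏ i, (w i) ^ (β i)) : (MvPowerSeries I ℚ)ˣ) : MvPowerSeries I ℚ)) *
        MvPowerSeries.coeff p.2 g) := by
    intro p hp
    rw [Finset.HasAntidiagonal.mem_antidiagonal] at hp
    rw [h.coeff, Finset.sum_mul]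
    have hpα : p.1 ≤ α := by
      rw [← hp]
      exact le_self_add
    rw [← Finset.sum_subset (Finset.Iic_subset_Iic.2 hpα)]
    · exact Finset.sum_congr rfl fun β _ => by rw [mul_assoc]
    · intro β _ hβ
      rw [Finset.mem_Iic] at hβ
      rw [KJ2_coeff_zero hβ, zero_mul, mul_zero]
  rw [Finset.sum_congr rfl h1, Finset.sum_comm]
  refine Finset.sum_congr rfl fun β _ => ?_
  rw [← Finset.mul_sum, ← MvPowerSeries.coeff_mul]

theorem KJ2_eul_monomial (j : I) (β : I →₀ ℕ) :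
    eul j (monomial β (1 : ℚ)) = (β j : MvPowerSeries I ℚ) * monomial β (1 : ℚ) := by
  classical
  ext d
  rw [coeff_eul, ← map_natCast (MvPowerSeries.C (σ := I) (R := ℚ)), MvPowerSeries.coeff_C_mul,
    MvPowerSeries.coeff_monomial]
  split_ifs with hd
  · rw [hd]
  · simp

theorem KJ2_eul_unit (j : I) (u : (MvPowerSeries I ℚ)ˣ) :
    eul j (u : MvPowerSeries I ℚ) = (u : MvPowerSeries I ℚ) *
      (eul j (u : MvPowerSeries I ℚ) * ((u⁻¹ : (MvPowerSeries I ℚ)ˣ) : MvPowerSeries I ℚ)) := by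
  rw [mul_comm (eul j (u : MvPowerSeries I ℚ)), ← mul_assoc, Units.mul_inv, one_mul]

theorem KJ2_eul_W (w : I → (MvPowerSeries I ℚ)ˣ) (β : I →₀ ℕ) (j : I) :
    eul j (monomial β (1 : ℚ) * ((KJ2_W w β : (MvPowerSeries I ℚ)ˣ) : MvPowerSeries I ℚ)) =
      monomial β (1 : ℚ) * ((KJ2_W w β : (MvPowerSeries I ℚ)ˣ) : MvPowerSeries I ℚ) *
        ∑ l, (β l : MvPowerSeries I ℚ) * jacM w l j := by
  have h1 : eul j ((KJ2_W w β : (MvPowerSeries I ℚ)ˣ) : MvPowerSeries I ℚ) *
      (((KJ2_W w β)⁻¹ : (MvPowerSeries I ℚ)ˣ) : MvPowerSeries I ℚ) =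
      ∑ l, (β l : MvPowerSeries I ℚ) * (eul j (w l : MvPowerSeries I ℚ) *
        (((w l)⁻¹ : (MvPowerSeries I ℚ)ˣ) : MvPowerSeries I ℚ)) := by
    unfold KJ2_W
    rw [eul_units_prod]
    refine Finset.sum_congr rfl fun l _ => ?_
    have h2 := eul_units_zpow j (w l) (β l : ℤ)
    rw [zpow_natCast] at h2
    rw [h2, Int.cast_natCast]
  rw [eul_mul, KJ2_eul_monomial, KJ2_eul_unit, h1]
  have h3 : ∑ l, (β l : MvPowerSeries I ℚ) * jacM w l j = (β j : MvPowerSeries I ℚ) +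
      ∑ l, (β l : MvPowerSeries I ℚ) * (eul j (w l : MvPowerSeries I ℚ) *
        (((w l)⁻¹ : (MvPowerSeries I ℚ)ˣ) : MvPowerSeries I ℚ)) := by
    unfold jacM
    simp only [Matrix.of_apply, mul_add, Finset.sum_add_distrib, mul_ite, mul_one, mul_zero,
      Finset.sum_ite_eq', Finset.mem_univ, if_true]
  rw [h3]
  ring

theorem IsSub.chain {w : I → (MvPowerSeries I ℚ)ˣ}
    {φ : MvPowerSeries I ℚ →+* MvPowerSeries I ℚ} (h : IsSub w φ) (F : MvPowerSeries I ℚ)
    (j : I) : eul j (φ F) = ∑ l, φ (eul l F) * jacM w l j := by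
  classical
  ext α
  rw [coeff_eul, map_sum, h.coeff, Finset.mul_sum]
  simp only [h.coeff_mul, coeff_eul]
  rw [Finset.sum_comm]
  refine Finset.sum_congr rfl fun β _ => ?_
  have h1 := congrArg (MvPowerSeries.coeff α) (KJ2_eul_W w β j)
  rw [coeff_eul, Finset.mul_sum, map_sum] at h1
  unfold KJ2_W at h1
  have h2 : (α j : ℚ) * (MvPowerSeries.coeff β F * MvPowerSeries.coeff α (monomial β (1 : ℚ) *
        (((∏ i, (w i) ^ (β i)) : (MvPowerSeries I ℚ)ˣ) : MvPowerSeries I ℚ))) =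
      MvPowerSeries.coeff β F * ((α j : ℚ) * MvPowerSeries.coeff α (monomial β (1 : ℚ) *
        (((∏ i, (w i) ^ (β i)) : (MvPowerSeries I ℚ)ˣ) : MvPowerSeries I ℚ))) := by ring
  rw [h2, h1, Finset.mul_sum]
  refine Finset.sum_congr rfl fun l _ => ?_
  have h3 : monomial β (1 : ℚ) *
        (((∏ i, (w i) ^ (β i)) : (MvPowerSeries I ℚ)ˣ) : MvPowerSeries I ℚ) *
        ((β l : MvPowerSeries I ℚ) * jacM w l j) = MvPowerSeries.C (β l : ℚ) * (monomial β (1 : ℚ) *
        (((∏ i, (w i) ^ (β i)) : (MvPowerSeries I ℚ)ˣ) : MvPowerSeries I ℚ) * jacM w l j) := by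
    rw [map_natCast]
    ring
  rw [h3, MvPowerSeries.coeff_C_mul]
  ring

theorem KJ2_const_eul (j : I) (F : MvPowerSeries I ℚ) : constantCoeff (eul j F) = 0 := by
  rw [← MvPowerSeries.coeff_zero_eq_constantCoeff_apply, coeff_eul]
  simp

theorem KJ2_const_det (w : I → (MvPowerSeries I ℚ)ˣ) :
    constantCoeff ((jacM w).det) = 1 := by
  rw [RingHom.map_det]
  have h : (constantCoeff (σ := I) (R := ℚ)).mapMatrix (jacM w) = 1 := by
    ext i j
    rw [RingHom.mapMatrix_apply, Matrix.map_apply]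
    unfold jacM
    rw [Matrix.of_apply, map_add, map_mul, KJ2_const_eul, zero_mul, add_zero, Matrix.one_apply]
    split_ifs <;> simp
  rw [h, Matrix.det_one]

theorem residue {w : I → (MvPowerSeries I ℚ)ˣ}
    {φ : MvPowerSeries I ℚ →+* MvPowerSeries I ℚ} (h : IsSub w φ) (F : MvPowerSeries I ℚ)
    (α : I →₀ ℕ) :
    MvPowerSeries.coeff α F = MvPowerSeries.coeff α (φ F *
      (((∏ i, (w i) ^ (-(α i : ℤ))) : (MvPowerSeries I ℚ)ˣ) : MvPowerSeries I ℚ) *
        (jacM w).det) := by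
  classical
  rw [mul_assoc, h.coeff_mul]
  rw [Finset.sum_eq_single_of_mem α (Finset.mem_Iic.2 le_rfl)]
  · have h1 : monomial α (1 : ℚ) *
        (((∏ i, (w i) ^ (α i)) : (MvPowerSeries I ℚ)ˣ) : MvPowerSeries I ℚ) *
        ((((∏ i, (w i) ^ (-(α i : ℤ))) : (MvPowerSeries I ℚ)ˣ) : MvPowerSeries I ℚ) *
        (jacM w).det) = monomial α (1 : ℚ) * (jacM w).det := by
      have h2 : (((∏ i, (w i) ^ (α i)) : (MvPowerSeries I ℚ)ˣ) : MvPowerSeries I ℚ) *
          (((∏ i, (w i) ^ (-(α i : ℤ))) : (MvPowerSeries I ℚ)ˣ) : MvPowerSeries I ℚ) = 1 := by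
        rw [← Units.val_mul, ← Finset.prod_mul_distrib]
        rw [Finset.prod_eq_one, Units.val_one]
        intro i _
        rw [zpow_neg, zpow_natCast, mul_inv_cancel]
      rw [mul_assoc, ← mul_assoc (((∏ i, (w i) ^ (α i)) : (MvPowerSeries I ℚ)ˣ) :
        MvPowerSeries I ℚ), h2, one_mul]
    rw [h1, MvPowerSeries.coeff_monomial_mul, if_pos le_rfl, one_mul, tsub_self,
      MvPowerSeries.coeff_zero_eq_constantCoeff_apply, KJ2_const_det, mul_one]
  · intro β hβ hne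
    rw [Finset.mem_Iic] at hβ
    have hδ : α - β ≠ 0 := by
      intro hc
      apply hne
      exact le_antisymm hβ (tsub_eq_zero_iff_le.1 hc)
    have h1 : monomial β (1 : ℚ) *
        (((∏ i, (w i) ^ (β i)) : (MvPowerSeries I ℚ)ˣ) : MvPowerSeries I ℚ) *
        ((((∏ i, (w i) ^ (-(α i : ℤ))) : (MvPowerSeries I ℚ)ˣ) : MvPowerSeries I ℚ) *
        (jacM w).det) = monomial β (1 : ℚ) *
        ((((∏ i, (w i) ^ (-((α - β) i : ℤ))) : (MvPowerSeries I ℚ)ˣ) : MvPowerSeries I ℚ) *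
        (jacM w).det) := by
      have h2 : (((∏ i, (w i) ^ (β i)) : (MvPowerSeries I ℚ)ˣ) : MvPowerSeries I ℚ) *
          (((∏ i, (w i) ^ (-(α i : ℤ))) : (MvPowerSeries I ℚ)ˣ) : MvPowerSeries I ℚ) =
          (((∏ i, (w i) ^ (-((α - β) i : ℤ))) : (MvPowerSeries I ℚ)ˣ) : MvPowerSeries I ℚ) := by
        rw [← Units.val_mul, ← Finset.prod_mul_distrib]
        congr 1
        refine Finset.prod_congr rfl fun i _ => ?_
        rw [← zpow_natCast, ← zpow_add]
        congr 1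
        rw [Finsupp.tsub_apply, Nat.cast_sub (hβ i)]
        ring
      rw [mul_assoc, ← mul_assoc (((∏ i, (w i) ^ (β i)) : (MvPowerSeries I ℚ)ˣ) :
        MvPowerSeries I ℚ), h2]
    rw [h1, MvPowerSeries.coeff_monomial_mul, if_pos hβ, one_mul, jac_core w _ hδ, mul_zero]

end Pool.Agent.H27.KAC
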