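import Pool.Agent.H27.KAC.KQBasic

/-!
KAC part III-b: the data of the Q-system, independent of the quiver.
-/

namespace Pool.Agent.H27.KAC

open scoped BigOperators
open MvPowerSeries

/-- `f` comes from a solution of the Q-system (over the rational numbers). -/
def KacData {I : Type} [Fintype I] [DecidableEq I] (a : I → I → ℕ) (f : (I → ℕ) → ℚ) : Prop :=
  ∃ (T : I → ℕ → MvPowerSeries I ℚ) (G : I → MvPowerSeries I ℚ),
    (∀ i, T i 0 = 1) ∧
    (∀ i k, constantCoeff (T i k) = 1) ∧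
    (∀ i k, (T i (k + 1)) ^ 2 = T i k * T i (k + 2) +
      (X i) ^ (k + 1) * ∏ j, (T j (k + 1)) ^ (a i j)) ∧
    (∀ i k (d : I →₀ ℕ), tdeg d ≤ k → coeff d (T i k) = coeff d (G i)) ∧
    (∀ i j, eul j (G i) = G i * wSer f i j)

section

variable {I : Type} [Fintype I] [DecidableEq I]

/-- Jacobian matrix `θ_j log Y_i`, `Y_i = X_i w_i`. -/
noncomputable def jacM (w : I → (MvPowerSeries I ℚ)ˣ) : Matrix I I (MvPowerSeries I ℚ) :=
  Matrix.of (fun i j => (if i = j then 1 else 0) +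
    eul j (w i : MvPowerSeries I ℚ) * (((w i)⁻¹ : (MvPowerSeries I ℚ)ˣ) : MvPowerSeries I ℚ))

/-- `φ` is the substitution `X_i ↦ X_i w_i`. -/
structure IsSub (w : I → (MvPowerSeries I ℚ)ˣ)
    (φ : MvPowerSeries I ℚ →+* MvPowerSeries I ℚ) : Prop where
  map_X : ∀ i, φ (X i) = X i * (w i : MvPowerSeries I ℚ)
  map_C : ∀ c : ℚ, φ (C c) = C c
  coeff : ∀ (F : MvPowerSeries I ℚ) (α : I →₀ ℕ),
    coeff α (φ F) = ∑ β ∈ Finset.Iic α, coeff β F *
      coeff α (monomial β (1 : ℚ) * (((∏ i, (w i) ^ (β i)) : (MvPowerSeries I ℚ)ˣ) :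
        MvPowerSeries I ℚ))

end

end Pool.Agent.H27.KAC
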