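import Pool.Agent.H27.KAC.KLDefs
import Pool.Agent.H27.KAC.KP9

/-!
KAC module KL1: one step of the lower bound; the final data do not change.

* `Val_pert_ge`: polynomial in `δ` (`Val_poly`), `dfc` of the perturbed state is `(1-δ) dfc + δ ph`; let `δ → 0`.
* `lb_step`: `st_reg`; all terms are `≥ 0` (`stepJ_pos`, `pos_Ph1` with `pos_Ph2`, `pos_Fr`); keep the
  term `m`: in the alternative `GVal = 0` of `stepJ_pos` ... (one shows directly from `stepJ_tau`, `hP`, `hst` that `τ > 0` and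
  from `GVal_norm`, `MJ_det`, `NJ_eq` that the term is `wtJ * τ * Val`).
* `fin_step`: with `σ' = staJ a σ ty j (m j)`, `unp σ' = (unp σ).erase j`, all final data agree.
* `finPh_le`: after the step at `j`, for processed vertices `i` (including `j`) the current `PhS` is
  `finPh i + ∑_{l unprocessed} m_l effA_{il} ≥ finPh i`.
-/

namespace Pool.Agent.H27.KAC

open scoped BigOperators
open MvPowerSeries

variable {I : Type} [Fintype I] [DecidableEq I]

theorem pos_Ph1' (a : I → I → ℕ) (hg : GoodMat a) (k : ℕ) (γ : I →₀ ℕ) (σ : Sta I) (ty : I → Ty)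
    (h : Ph1 a γ σ ty (k + 2)) : 0 ≤ Val a γ σ :=
  pos_Ph1 a hg k (fun γ' σ' ty' h' => pos_Ph2 a hg k
    (fun γ'' σ'' ty'' h'' => pos_Fr a hg (k + 1) (by omega) γ'' σ'' ty'' h'') γ' σ' ty' h') γ σ ty h

theorem Val_pert_ge (a : I → I → ℕ) (γ : I →₀ ℕ) (σ : Sta I) (ty : I → Ty) (r : I) (c : ℚ)
    (h : ∀ δ : ℚ, 0 < δ → δ < 1 →
      c * dfc a (pert σ ty δ) ty r ≤ Val a γ (pert σ ty δ)) :
    c * dfc a σ ty r ≤ Val a γ σ := by
  obtain ⟨q, hq⟩ := Val_poly a γ σ (Finset.univ.filter (fun i => ty i = Ty.R))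
  have hq' : ∀ δ : ℚ, Val a γ (pert σ ty δ) = q.eval δ := hq
  have hpert0 : pert σ ty 0 = σ := by
    unfold pert
    cases σ
    simp
  have hcont : Continuous (fun δ : ℚ => q.eval δ - c * dfc a (pert σ ty δ) ty r) := by
    refine (Polynomial.continuous q).sub (continuous_const.mul ?_)
    show Continuous (fun δ : ℚ => phS a σ ty r -
      ∑ i ∈ Finset.univ.filter (fun i => ty i = Ty.R), (pert σ ty δ).H r i * PhS a σ ty i)
    refine Continuous.sub continuous_const (continuous_finsetSum _ fun i _ => ?_)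
    refine Continuous.mul ?_ continuous_const
    show Continuous (fun δ : ℚ => if r ∈ Finset.univ.filter (fun i => ty i = Ty.R) ∧
      i ∈ Finset.univ.filter (fun i => ty i = Ty.R) then (1 - δ) * σ.H r i else σ.H r i)
    split_ifs
    · exact (continuous_const.sub continuous_id).mul continuous_const
    · exact continuous_const
  have hlim : Filter.Tendsto (fun δ : ℚ => q.eval δ - c * dfc a (pert σ ty δ) ty r)
      (nhdsWithin 0 (Set.Ioi 0)) (nhds (q.eval 0 - c * dfc a (pert σ ty 0) ty r)) :=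
    (hcont.tendsto 0).mono_left nhdsWithin_le_nhds
  have hge : 0 ≤ q.eval 0 - c * dfc a (pert σ ty 0) ty r := by
    refine ge_of_tendsto hlim ?_
    filter_upwards [Ioo_mem_nhdsGT (show (0:ℚ) < 1 by norm_num)] with δ hδ
    have := h δ hδ.1 hδ.2
    rw [hq'] at this
    linarith
  rw [← hq' 0, hpert0] at hge
  linarith

theorem kL1_tau_pos (a : I → I → ℕ) (hg : GoodMat a) (γ : I →₀ ℕ) (σ : Sta I)
    (ty : I → Ty) (k : ℕ) (h : Ph1 a γ σ ty (k + 2)) (j : I) (hj : ty j = Ty.R)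
    (hjk : σ.κ j = k + 2) (hw : ∀ x, ty x ≠ Ty.R → 0 < a x j → σ.κ x = k + 2)
    (hst : 0 < dfc a σ ty j ∨ phS a σ ty j = 0) (m : ℕ)
    (hP : ∀ l, ty l = Ty.R → 0 ≤ PhS a (staJ a σ ty j m) (tyJ a ty j m) l) :
    0 < tauJ a σ ty j m := by
  have h1 := stepJ_tau a hg.symm γ σ ty k h j hj hjk m (Or.inr hw)
  have h2 := h.pos j hj hjk
  have h3 : 0 < (if m = 0 then PhS a σ ty j else 1) := by
    split_ifs
    · exact h2
    · norm_num
  have h4 : 0 ≤ ∑ l ∈ Finset.univ.filter (fun l => ty l = Ty.R ∧ l ≠ j),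
        σ.H j l * PhS a (staJ a σ ty j m) (tyJ a ty j m) l := by
    apply Finset.sum_nonneg
    intro l hl
    have hl' := (Finset.mem_filter.1 hl).2.1
    exact mul_nonneg (h.Hnn j l hj hl') (hP l hl')
  have h5 : 0 < (if m = 0 then PhS a σ ty j else 1) * tauJ a σ ty j m := by
    rw [h1]
    rcases hst with h6 | h6
    · have := hP j hj
      linarith
    · have h7 := h.dnn j hj
      rcases h.alt j hj with h8 | h8
      · exact absurd h6 h8.ne'
      · obtain ⟨_, _, h9, h10, _, h11⟩ := h8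
        have h12 := stepJ_Ph a hg.symm γ σ ty k h j hj hjk m (Or.inr hw) j hj
        rw [if_pos rfl, h6] at h12
        have h13 : effC a (wallsAt σ ty j) j = 2 := by
          unfold effC
          rw [h10, Finset.sum_eq_zero]
          · norm_num
          · intro x hx
            have hx' := (Finset.mem_filter.1 hx).2.1
            rw [h11 x hx']
            norm_num
        rw [h13] at h12
        have h14 : (0:ℚ) ≤ m := Nat.cast_nonneg m
        linarith
  exact (mul_pos_iff_of_pos_left h3).1 h5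

theorem lb_step (a : I → I → ℕ) (hg : GoodMat a) (γ : I →₀ ℕ) (σ : Sta I)
    (ty : I → Ty) (k : ℕ) (h : Ph1 a γ σ ty (k + 2)) (j : I) (hj : ty j = Ty.R)
    (hjk : σ.κ j = k + 2) (hw : ∀ x, ty x ≠ Ty.R → 0 < a x j → σ.κ x = k + 2)
    (hst : 0 < dfc a σ ty j ∨ phS a σ ty j = 0) (m : ℕ) (hm : (k + 1) * m ≤ γ j)
    (hP : ∀ l, ty l = Ty.R → 0 ≤ PhS a (staJ a σ ty j m) (tyJ a ty j m) l) :
    0 < tauJ a σ ty j m ∧
      Ph1 a (γ - Finsupp.single j ((k + 1) * m)) (staJ a σ ty j m) (tyJ a ty j m) (k + 2) ∧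
      wtJ σ j m * (tauJ a σ ty j m *
        Val a (γ - Finsupp.single j ((k + 1) * m)) (staJ a σ ty j m)) ≤ Val a γ σ := by
  have ht := kL1_tau_pos a hg γ σ ty k h j hj hjk hw hst m hP
  refine ⟨ht, stepJ_Ph1 a hg γ σ ty k h j hj hjk m hm (Or.inr hw) ht hP, ?_⟩
  have hw' : ∀ x, ty x ≠ Ty.R → 0 < a x j → σ.κ x = σ.κ j := by
    intro x h1 h2
    rw [hw x h1 h2, hjk]
  have hPj : 1 ≤ σ.P j := by
    have h1 := h.pos j hj hjk
    rw [PhS_eq_P a σ ty j hw'] at h1
    have h2 : (0:ℤ) < σ.P j := by exact_mod_cast h1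
    omega
  have hreg := st_reg a hg.symm γ σ ty h.shape h.k1 j hj k hjk hPj
    (fun x _ hx => by
      rcases h.reg x hx with h1 | h1
      · left; omega
      · right; omega)
    hw' (fun x _ => h.cons x)
  rw [hreg]
  have hwt : ∀ m', 0 ≤ wtJ σ j m' := by
    intro m'
    unfold wtJ
    split_ifs
    · norm_num
    · unfold wt
      positivity
  have hmem : m ∈ Finset.range (γ j / (k + 1) + 1) := by
    rw [Finset.mem_range, Nat.lt_succ_iff, Nat.le_div_iff_mul_le (by omega)]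
    rw [mul_comm]
    exact hm
  have hterm : wtJ σ j m * (tauJ a σ ty j m *
        Val a (γ - Finsupp.single j ((k + 1) * m)) (staJ a σ ty j m)) =
      wtJ σ j m *
      GVal a (γ - Finsupp.single j ((k + 1) * m)) (kapJ σ j) (PJ a σ j m) (pJ a σ j m)
        (MJ a σ ty j m) (NJ a σ ty j m) := by
    rw [GVal_norm a _ (kapJ σ j) (PJ a σ j m) (pJ a σ j m) (MJ a σ ty j m) (NJ a σ ty j m)
      (HJ a σ ty j m) (fun l i => NJ_eq a σ ty h.shape j m hj ht.ne' l i), MJ_det a σ ty j m hj]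
    rfl
  rw [hterm]
  refine Finset.single_le_sum (f := fun m' => wtJ σ j m' *
      GVal a (γ - Finsupp.single j ((k + 1) * m')) (kapJ σ j) (PJ a σ j m') (pJ a σ j m')
        (MJ a σ ty j m') (NJ a σ ty j m')) ?_ hmem
  intro m' hm'
  rw [Finset.mem_range, Nat.lt_succ_iff, Nat.le_div_iff_mul_le (by omega), mul_comm] at hm'
  refine mul_nonneg (hwt m') ?_
  rcases stepJ_pos a hg γ σ ty k h j hj hjk m' hm' (Or.inr hw) hst with h1 | ⟨h1, h2, h3⟩
  · rw [h1]
  · rw [h3]
    exact mul_nonneg h1.le (pos_Ph1' a hg k _ _ _ h2)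

theorem unp_step (a : I → I → ℕ) (σ : Sta I) (ty : I → Ty) (k : ℕ) (j : I)
    (hj : ty j = Ty.R) (hjk : σ.κ j = k + 2) (m : ℕ) :
    unp (staJ a σ ty j m) (tyJ a ty j m) k = (unp σ ty k).erase j := by
  ext i
  unfold unp
  rw [Finset.mem_erase, Finset.mem_filter, Finset.mem_filter, tyJ_R]
  by_cases hij : i = j
  · subst hij
    have h1 : (staJ a σ ty i m).κ i = k + 1 := by
      show Function.update σ.κ i (σ.κ i - 1) i = k + 1
      rw [Function.update_self, hjk]
      rfl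
    constructor
    · rintro ⟨_, _, h2⟩
      rw [h1] at h2
      omega
    · rintro ⟨h2, _⟩
      exact absurd rfl h2
  · have h1 : (staJ a σ ty j m).κ i = σ.κ i := by
      show Function.update σ.κ j (σ.κ j - 1) i = σ.κ i
      rw [Function.update_of_ne hij]
    rw [h1]
    tauto

theorem kL1_mem_unp (σ : Sta I) (ty : I → Ty) (k : ℕ) (i : I) :
    i ∈ unp σ ty k ↔ ty i = Ty.R ∧ σ.κ i = k + 2 := by
  unfold unp
  rw [Finset.mem_filter]
  exact ⟨fun h => h.2, fun h => ⟨Finset.mem_univ i, h⟩⟩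

theorem fin_step (a : I → I → ℕ) (hs : ∀ i j, a i j = a j i) (γ : I →₀ ℕ) (σ : Sta I)
    (ty : I → Ty) (k : ℕ) (h : Ph1 a γ σ ty (k + 2)) (hwk : ∀ x, ty x ≠ Ty.R → σ.κ x = k + 2)
    (m : I → ℕ) (j : I) (hj : ty j = Ty.R) (hjk : σ.κ j = k + 2)
    (hm : ∀ l ∈ unp σ ty k, (k + 1) * m l ≤ γ l) :
    finK (staJ a σ ty j (m j)) (tyJ a ty j (m j)) k = finK σ ty k ∧
    finP a (staJ a σ ty j (m j)) (tyJ a ty j (m j)) k m = finP a σ ty k m ∧
    finp a (staJ a σ ty j (m j)) (tyJ a ty j (m j)) k m = finp a σ ty k m ∧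
    finT a (staJ a σ ty j (m j)) (tyJ a ty j (m j)) k m = finT a σ ty k m ∧
    finG (γ - Finsupp.single j ((k + 1) * m j)) (staJ a σ ty j (m j)) (tyJ a ty j (m j)) k m =
      finG γ σ ty k m := by
  have hjU : j ∈ unp σ ty k := (kL1_mem_unp σ ty k j).2 ⟨hj, hjk⟩
  have hU := unp_step a σ ty k j hj hjk (m j)
  -- values of the new state
  have hκ : ∀ i, i ≠ j → (staJ a σ ty j (m j)).κ i = σ.κ i := by
    intro i hi
    show Function.update σ.κ j (σ.κ j - 1) i = σ.κ i
    rw [Function.update_of_ne hi]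
  have hPj : (staJ a σ ty j (m j)).P j = 2 * σ.P j - σ.p j + cart a j j * m j := by
    show PJ a σ j (m j) j = _
    unfold PJ
    rw [if_pos rfl]
  have hpj : (staJ a σ ty j (m j)).p j = σ.P j := by
    show pJ a σ j (m j) j = _
    unfold pJ
    rw [if_pos rfl]
  have hPu : ∀ i, i ≠ j → σ.κ i = k + 2 → (staJ a σ ty j (m j)).P i = σ.P i := by
    intro i hi hik
    show PJ a σ j (m j) i = _
    unfold PJ
    rw [if_neg hi, if_neg (by omega)]
  have hPp : ∀ i, i ≠ j → σ.κ i + 1 = k + 2 →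
      (staJ a σ ty j (m j)).P i = σ.P i - (a i j : ℤ) * m j := by
    intro i hi hik
    show PJ a σ j (m j) i = _
    unfold PJ
    rw [if_neg hi, if_pos (by omega)]
  have hpu : ∀ i, i ≠ j → σ.κ i = k + 2 →
      (staJ a σ ty j (m j)).p i = σ.p i + (a i j : ℤ) * m j := by
    intro i hi hik
    show pJ a σ j (m j) i = _
    unfold pJ
    rw [if_neg hi, if_pos (by omega)]
  have hpp : ∀ i, i ≠ j → σ.κ i + 1 = k + 2 → (staJ a σ ty j (m j)).p i = σ.p i := by
    intro i hi hik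
    show pJ a σ j (m j) i = _
    unfold pJ
    rw [if_neg hi, if_neg (by omega)]
  have hcart : ∀ i, i ≠ j → cart a i j = -(a i j : ℤ) := by
    intro i hi
    unfold cart
    rw [if_neg hi]
    ring
  have hsumI : ∀ f : I → ℤ, ∑ l ∈ unp σ ty k, f l = f j + ∑ l ∈ (unp σ ty k).erase j, f l :=
    fun f => (Finset.add_sum_erase _ f hjU).symm
  have hsumN : ∀ f : I → ℕ, ∑ l ∈ unp σ ty k, f l = f j + ∑ l ∈ (unp σ ty k).erase j, f l :=
    fun f => (Finset.add_sum_erase _ f hjU).symm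
  refine ⟨?_, ?_, ?_, ?_, ?_⟩
  · funext i
    unfold finK
    simp only [tyJ_R]
    by_cases hi : ty i = Ty.R
    · rw [if_pos hi, if_pos hi]
    · rw [if_neg hi, if_neg hi]
      apply hκ
      rintro rfl
      exact hi hj
  · funext i
    unfold finP
    simp only [tyJ_R, hU]
    by_cases hi : ty i = Ty.R
    · rw [if_pos hi, if_pos hi, hsumI (fun l => cart a i l * (m l : ℤ))]
      by_cases hij : i = j
      · subst hij
        rw [if_neg (Finset.notMem_erase _ _), if_pos hjU, hPj]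
        ring
      · by_cases hiU : i ∈ unp σ ty k
        · have hik := ((kL1_mem_unp σ ty k i).1 hiU).2
          rw [if_pos (Finset.mem_erase.2 ⟨hij, hiU⟩), if_pos hiU, hPu i hij hik, hpu i hij hik,
            hcart i hij]
          ring
        · have hik : σ.κ i + 1 = k + 2 := by
            rcases h.reg i hi with h1 | h1
            · exact absurd ((kL1_mem_unp σ ty k i).2 ⟨hi, h1⟩) hiU
            · exact h1
          rw [if_neg (fun hc => hiU (Finset.mem_of_mem_erase hc)), if_neg hiU, hPp i hij hik,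
            hcart i hij]
          ring
    · rw [if_neg hi, if_neg hi]
      apply hPu i _ (hwk i hi)
      rintro rfl
      exact hi hj
  · funext i
    unfold finp
    simp only [tyJ_R, hU]
    by_cases hi : ty i = Ty.R
    · rw [if_pos hi, if_pos hi]
      by_cases hij : i = j
      · subst hij
        rw [if_neg (Finset.notMem_erase _ _), if_pos hjU, hpj]
      · by_cases hiU : i ∈ unp σ ty k
        · have hik := ((kL1_mem_unp σ ty k i).1 hiU).2
          rw [if_pos (Finset.mem_erase.2 ⟨hij, hiU⟩), if_pos hiU, hPu i hij hik]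
        · have hik : σ.κ i + 1 = k + 2 := by
            rcases h.reg i hi with h1 | h1
            · exact absurd ((kL1_mem_unp σ ty k i).2 ⟨hi, h1⟩) hiU
            · exact h1
          rw [if_neg (fun hc => hiU (Finset.mem_of_mem_erase hc)), if_neg hiU, hpp i hij hik]
    · have hij : i ≠ j := by
        rintro rfl
        exact hi hj
      rw [if_neg hi, if_neg hi, hpu i hij (hwk i hi), hsumI (fun l => (a i l : ℤ) * (m l : ℤ))]
      ring
  · funext i
    unfold finT
    simp only [hU]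
    rw [hsumN (fun l => a i l * m l)]
    by_cases hD : ty i = Ty.D
    · by_cases hc : 0 < m j ∧ 0 < a i j
      · have h1 : tyJ a ty j (m j) i = Ty.A := by
          unfold tyJ
          rw [if_pos ⟨hD, hc.1, hc.2⟩]
        have h2 : 0 < a i j * m j + ∑ l ∈ (unp σ ty k).erase j, a i l * m l :=
          Nat.add_pos_left (Nat.mul_pos hc.2 hc.1) _
        rw [h1, if_neg (by rintro ⟨h3, _⟩; exact absurd h3 (by decide)), if_pos ⟨hD, h2⟩]
      · have h1 : tyJ a ty j (m j) i = Ty.D := by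
          unfold tyJ
          rw [if_neg (fun h2 => hc h2.2), hD]
        have h2 : a i j * m j = 0 := by
          rcases Nat.eq_zero_or_pos (m j) with h3 | h3
          · rw [h3, mul_zero]
          · rcases Nat.eq_zero_or_pos (a i j) with h4 | h4
            · rw [h4, zero_mul]
            · exact absurd ⟨h3, h4⟩ hc
        rw [h1, hD, h2, zero_add]
    · have h1 : tyJ a ty j (m j) i = ty i := by
        unfold tyJ
        rw [if_neg (fun h2 => hD h2.1)]
      rw [h1, if_neg (fun h2 => hD h2.1), if_neg (fun h2 => hD h2.1)]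
  · unfold finG
    rw [hU, tsub_tsub, Finset.add_sum_erase _ (fun l => Finsupp.single l ((k + 1) * m l)) hjU]

theorem kL1_finT_R (a : I → I → ℕ) (σ : Sta I) (ty : I → Ty) (k : ℕ) (m : I → ℕ) (i : I) :
    finT a σ ty k m i = Ty.R ↔ ty i = Ty.R := by
  unfold finT
  split_ifs with h
  · rw [h.1]
    constructor <;> intro h1 <;> exact absurd h1 (by decide)
  · exact Iff.rfl

theorem kL1_finPh (a : I → I → ℕ) (σ : Sta I)
    (ty : I → Ty) (k : ℕ) (hwk : ∀ x, ty x ≠ Ty.R → σ.κ x = k + 2)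
    (m : I → ℕ) (i : I) (hi : ty i = Ty.R) :
    finPh a σ ty k m i = (finP a σ ty k m i : ℚ) -
      (∑ x ∈ Finset.univ.filter (fun x => ty x ≠ Ty.R), (a x i : ℚ) * (σ.p x : ℚ)) / 2 -
      ∑ l ∈ unp σ ty k, (m l : ℚ) * ((∑ x ∈ Finset.univ.filter (fun x => ty x ≠ Ty.R),
        (a x i : ℚ) * (a x l : ℚ)) / 2) := by
  unfold finPh Ph
  have h1 : Finset.univ.filter (fun x => finT a σ ty k m x ≠ Ty.R) =
      Finset.univ.filter (fun x => ty x ≠ Ty.R) := by
    apply Finset.filter_congr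
    intro x _
    rw [Ne, kL1_finT_R]
  rw [h1]
  have h2 : ∑ x ∈ Finset.univ.filter (fun x => ty x ≠ Ty.R),
      (a x i : ℚ) * (finp a σ ty k m x : ℚ) * ((finK σ ty k i : ℚ) - (finK σ ty k x : ℚ)) =
      ∑ x ∈ Finset.univ.filter (fun x => ty x ≠ Ty.R),
        (-((a x i : ℚ) * (σ.p x : ℚ)) -
          ∑ l ∈ unp σ ty k, (m l : ℚ) * ((a x i : ℚ) * (a x l : ℚ))) := by
    apply Finset.sum_congr rfl
    intro x hx
    have hx' := (Finset.mem_filter.1 hx).2
    have h3 : finK σ ty k i = k + 1 := by unfold finK; rw [if_pos hi]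
    have h4 : finK σ ty k x = k + 2 := by unfold finK; rw [if_neg hx', hwk x hx']
    have h5 : (finp a σ ty k m x : ℚ) = (σ.p x : ℚ) + ∑ l ∈ unp σ ty k, (a x l : ℚ) * (m l : ℚ) := by
      unfold finp
      rw [if_neg hx']
      push_cast
      rfl
    rw [h3, h4, h5]
    push_cast
    have h6 : ∑ l ∈ unp σ ty k, (m l : ℚ) * ((a x i : ℚ) * (a x l : ℚ)) =
        (a x i : ℚ) * ∑ l ∈ unp σ ty k, (a x l : ℚ) * (m l : ℚ) := by
      rw [Finset.mul_sum]
      apply Finset.sum_congr rfl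
      intro l _
      ring
    rw [h6]
    ring
  rw [h2, Finset.sum_sub_distrib, Finset.sum_neg_distrib, Finset.sum_comm]
  have h7 : ∑ l ∈ unp σ ty k, (m l : ℚ) * ((∑ x ∈ Finset.univ.filter (fun x => ty x ≠ Ty.R),
        (a x i : ℚ) * (a x l : ℚ)) / 2) =
      (∑ l ∈ unp σ ty k, ∑ x ∈ Finset.univ.filter (fun x => ty x ≠ Ty.R),
        (m l : ℚ) * ((a x i : ℚ) * (a x l : ℚ))) / 2 := by
    rw [Finset.sum_div]
    apply Finset.sum_congr rfl
    intro l _
    rw [← Finset.mul_sum]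
    ring
  rw [h7]
  ring

/-- current hatted exponent of a processed vertex in terms of the final one. -/
theorem finPh_proc (a : I → I → ℕ) (hs : ∀ i j, a i j = a j i) (γ : I →₀ ℕ) (σ : Sta I)
    (ty : I → Ty) (k : ℕ) (h : Ph1 a γ σ ty (k + 2)) (hwk : ∀ x, ty x ≠ Ty.R → σ.κ x = k + 2)
    (m : I → ℕ) (i : I) (hi : ty i = Ty.R) (hik : σ.κ i = k + 1) :
    PhS a σ ty i = finPh a σ ty k m i +
      ∑ l ∈ unp σ ty k, (m l : ℚ) * effA a (Finset.univ.filter (fun x => ty x ≠ Ty.R)) i l := by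
  rw [kL1_finPh a σ ty k hwk m i hi]
  have hiU : i ∉ unp σ ty k := by
    rw [kL1_mem_unp]
    rintro ⟨_, h1⟩
    omega
  have h1 : (finP a σ ty k m i : ℚ) = (σ.P i : ℚ) - ∑ l ∈ unp σ ty k, (m l : ℚ) * (a i l : ℚ) := by
    unfold finP
    rw [if_pos hi, if_neg hiU]
    push_cast
    rw [sub_eq_add_neg, ← Finset.sum_neg_distrib]
    congr 1
    apply Finset.sum_congr rfl
    intro l hl
    have hil : i ≠ l := by
      rintro rfl
      exact hiU hl
    unfold cart
    rw [if_neg hil]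
    push_cast
    ring
  have h2 : PhS a σ ty i = (σ.P i : ℚ) -
      (∑ x ∈ Finset.univ.filter (fun x => ty x ≠ Ty.R), (a x i : ℚ) * (σ.p x : ℚ)) / 2 := by
    show Ph a σ.κ σ.P σ.p ty i = _
    unfold Ph
    have h3 : ∑ x ∈ Finset.univ.filter (fun x => ty x ≠ Ty.R),
        (a x i : ℚ) * (σ.p x : ℚ) * ((σ.κ i : ℚ) - (σ.κ x : ℚ)) =
        ∑ x ∈ Finset.univ.filter (fun x => ty x ≠ Ty.R), -((a x i : ℚ) * (σ.p x : ℚ)) := by
      apply Finset.sum_congr rfl
      intro x hx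
      rw [hik, hwk x (Finset.mem_filter.1 hx).2]
      push_cast
      ring
    rw [h3, Finset.sum_neg_distrib]
    ring
  rw [h1, h2]
  have h4 : ∑ l ∈ unp σ ty k, (m l : ℚ) *
      effA a (Finset.univ.filter (fun x => ty x ≠ Ty.R)) i l =
      ∑ l ∈ unp σ ty k, (m l : ℚ) * (a i l : ℚ) +
      ∑ l ∈ unp σ ty k, (m l : ℚ) * ((∑ x ∈ Finset.univ.filter (fun x => ty x ≠ Ty.R),
        (a x i : ℚ) * (a x l : ℚ)) / 2) := by
    rw [← Finset.sum_add_distrib]
    apply Finset.sum_congr rfl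
    intro l _
    unfold effA
    ring
  rw [h4]
  ring

/-- final hatted exponent of an unprocessed vertex. -/
theorem finPh_unp (a : I → I → ℕ) (hs : ∀ i j, a i j = a j i) (γ : I →₀ ℕ) (σ : Sta I)
    (ty : I → Ty) (k : ℕ) (h : Ph1 a γ σ ty (k + 2)) (hwk : ∀ x, ty x ≠ Ty.R → σ.κ x = k + 2)
    (m : I → ℕ) (i : I) (hi : ty i = Ty.R) (hik : σ.κ i = k + 2) :
    finPh a σ ty k m i = 2 * PhS a σ ty i - phS a σ ty i +
      ∑ l ∈ unp σ ty k, effCm a ty i l * (m l : ℚ) := by
  rw [kL1_finPh a σ ty k hwk m i hi]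
  have hiU : i ∈ unp σ ty k := (kL1_mem_unp σ ty k i).2 ⟨hi, hik⟩
  have h1 : (finP a σ ty k m i : ℚ) = 2 * (σ.P i : ℚ) - (σ.p i : ℚ) +
      ∑ l ∈ unp σ ty k, (cart a i l : ℚ) * (m l : ℚ) := by
    unfold finP
    rw [if_pos hi, if_pos hiU]
    push_cast
    rfl
  have h2 : PhS a σ ty i = (σ.P i : ℚ) := by
    show Ph a σ.κ σ.P σ.p ty i = _
    unfold Ph
    have h3 : ∑ x ∈ Finset.univ.filter (fun x => ty x ≠ Ty.R),
        (a x i : ℚ) * (σ.p x : ℚ) * ((σ.κ i : ℚ) - (σ.κ x : ℚ)) = 0 := by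
      apply Finset.sum_eq_zero
      intro x hx
      rw [hik, hwk x (Finset.mem_filter.1 hx).2]
      ring
    rw [h3]
    ring
  have h3 : phS a σ ty i = (σ.p i : ℚ) +
      (∑ x ∈ Finset.univ.filter (fun x => ty x ≠ Ty.R), (a x i : ℚ) * (σ.p x : ℚ)) / 2 := by
    show ph a σ.κ σ.P σ.p ty i = _
    unfold ph
    have h4 : ∑ x ∈ Finset.univ.filter (fun x => ty x ≠ Ty.R),
        (a x i : ℚ) * (σ.p x : ℚ) * ((σ.κ i : ℚ) - (σ.κ x : ℚ) + 1) =
        ∑ x ∈ Finset.univ.filter (fun x => ty x ≠ Ty.R), (a x i : ℚ) * (σ.p x : ℚ) := by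
      apply Finset.sum_congr rfl
      intro x hx
      rw [hik, hwk x (Finset.mem_filter.1 hx).2]
      ring
    rw [h4]
  rw [h1, h2, h3]
  have h4 : ∑ l ∈ unp σ ty k, effCm a ty i l * (m l : ℚ) =
      ∑ l ∈ unp σ ty k, (cart a i l : ℚ) * (m l : ℚ) -
      ∑ l ∈ unp σ ty k, (m l : ℚ) * ((∑ x ∈ Finset.univ.filter (fun x => ty x ≠ Ty.R),
        (a x i : ℚ) * (a x l : ℚ)) / 2) := by
    rw [← Finset.sum_sub_distrib]
    apply Finset.sum_congr rfl
    intro l _
    unfold effCm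
    ring
  rw [h4]
  ring

end Pool.Agent.H27.KAC
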