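import Pool.Agent.H27.KAC.KL1

/-!
KAC module KL2: phase 1 of the lower bound.

`ord` injective; the unprocessed regular vertices are those with `ord < t`; they are processed by decreasing `ord`
(here any order would do).  `ω i` are lower bounds of the weights.
Induction on `t`.  `t = 0`: the state is in phase 2 with the final data.  `t + 1`: if no regular vertex has
`ord = t`, nothing to do; otherwise process this vertex `j` with `m j`.  By `Val_pert_ge` (with
`c * ∏ ω`) one may assume that the state is strict (`pert` does not change the exponents, so the final data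
are the same).  The hypotheses of `lb_step`: new `PhS` of unprocessed `l` is the old one, `> 0`
(`Ph1.pos`); of processed `l` (and `j`) it is `≥ finPh ≥ 1` (`finPh_proc` for the new state).
`j ≠ r`: `wtJ * τ ≥ ω_j`: for `m j ≥ 1`, `wtJ = wt`, `τ = τ^ ≥ Ph'_j ≥ 1` (`stepJ_tau`); for `m j = 0`, `wtJ = 1`,
`Ph_j τ = τ^ ≥ Ph'_j`, so `τ ≥ 1/P_j = wt P_j 0` and `τ ≥ 1` if `P_j ≤ finPh j` (`P_j = Ph_j`, `PhS_eq_P`).  And
`dfc_r' ≥ dfc_r` (`stepJ_dfc`).
`j = r`: `τ dfc_r' = scl dfc_r` (`stepJ_dfc_self`), `wtJ * scl ≥ ω_r` (`m = 0`: `1`, and `wt P 0 ≤ 1`; `m ≥ 1`: `wt * P_r ≥ wt`).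
All `Val ≥ 0`; the weight of unprocessed vertices does not change because `P'_l = P_l` for them.
-/

namespace Pool.Agent.H27.KAC

open scoped BigOperators
open MvPowerSeries

variable {I : Type} [Fintype I] [DecidableEq I]

private theorem KL2_wt_zero (P : ℕ) (hP : 1 ≤ P) : wt P 0 = 1 / (P : ℚ) := by
  obtain ⟨n, rfl⟩ : ∃ n, P = n + 1 := ⟨P - 1, by omega⟩
  unfold wt
  have h1 : n + 1 + 0 - 1 = n := by omega
  have h2 : ((n.factorial : ℕ) : ℚ) ≠ 0 := by exact_mod_cast Nat.factorial_ne_zero n
  have h3 : ((n : ℚ) + 1) ≠ 0 := by positivity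
  rw [h1, Nat.factorial_succ, Nat.factorial_zero]
  push_cast
  field_simp

private theorem KL2_wt_nonneg (P m : ℕ) : 0 ≤ wt P m := by
  unfold wt
  positivity

private theorem KL2_effC (a : I → I → ℕ) (ty : I → Ty) (j : I) :
    effCm a ty j j = effC a (Finset.univ.filter (fun x => ty x ≠ Ty.R)) j := by
  unfold effCm effC cart
  rw [if_pos rfl]
  have h1 : ∑ x ∈ Finset.univ.filter (fun x => ty x ≠ Ty.R), (a x j : ℚ) * (a x j : ℚ) =
      ∑ x ∈ Finset.univ.filter (fun x => ty x ≠ Ty.R), (a x j : ℚ) ^ 2 :=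
    Finset.sum_congr rfl fun x _ => by ring
  rw [h1]
  push_cast
  ring

private theorem KL2_effA (a : I → I → ℕ) (ty : I → Ty) (j l : I) (h : j ≠ l) :
    effCm a ty j l = -effA a (Finset.univ.filter (fun x => ty x ≠ Ty.R)) j l := by
  unfold effCm effA cart
  rw [if_neg h]
  push_cast
  ring

private theorem KL2_walls (σ : Sta I) (ty : I → Ty) (k : ℕ) (j : I)
    (hwk : ∀ x, ty x ≠ Ty.R → σ.κ x = k + 2) (hjk : σ.κ j = k + 2) :
    wallsAt σ ty j = Finset.univ.filter (fun x => ty x ≠ Ty.R) := by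
  unfold wallsAt
  apply Finset.filter_congr
  intro x _
  constructor
  · exact fun h => h.1
  · exact fun h => ⟨h, by rw [hwk x h, hjk]⟩

private theorem KL2_newPh (a : I → I → ℕ) (hs : ∀ i j, a i j = a j i) (γ : I →₀ ℕ) (σ : Sta I)
    (ty : I → Ty) (k : ℕ) (h : Ph1 a γ σ ty (k + 2)) (hwk : ∀ x, ty x ≠ Ty.R → σ.κ x = k + 2)
    (m : I → ℕ) (j : I) (hj : ty j = Ty.R) (hjk : σ.κ j = k + 2) (l : I) (hl : ty l = Ty.R)
    (hlj : l = j ∨ σ.κ l = k + 1) :
    finPh a σ ty k m l ≤ PhS a (staJ a σ ty j (m j)) (tyJ a ty j (m j)) l := by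
  have hju : j ∈ unp σ ty k := Finset.mem_filter.2 ⟨Finset.mem_univ j, hj, hjk⟩
  rw [stepJ_Ph a hs γ σ ty k h j hj hjk (m j) (Or.inr fun x hx _ => hwk x hx) l hl,
    KL2_walls σ ty k j hwk hjk]
  by_cases hlj' : l = j
  · subst hlj'
    rw [if_pos rfl, finPh_unp a hs γ σ ty k h hwk m l hl hjk, ← Finset.add_sum_erase _ _ hju,
      KL2_effC]
    have h1 : ∑ i ∈ (unp σ ty k).erase l, effCm a ty l i * (m i : ℚ) ≤ 0 := by
      apply Finset.sum_nonpos
      intro i hi
      rw [KL2_effA a ty l i (Finset.mem_erase.1 hi).1.symm]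
      have h2 := effA_nonneg a (Finset.univ.filter (fun x => ty x ≠ Ty.R)) l i
      have h3 : (0 : ℚ) ≤ m i := Nat.cast_nonneg _
      have h4 := mul_nonneg h2 h3
      linarith
    linarith
  · have hlk : σ.κ l = k + 1 := hlj.resolve_left hlj'
    rw [if_neg hlj', if_pos (by rw [hlk, hjk]), finPh_proc a hs γ σ ty k h hwk m l hl hlk]
    have h1 : (m j : ℚ) * effA a (Finset.univ.filter (fun x => ty x ≠ Ty.R)) l j ≤
        ∑ i ∈ unp σ ty k, (m i : ℚ) * effA a (Finset.univ.filter (fun x => ty x ≠ Ty.R)) l i :=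
      Finset.single_le_sum
        (f := fun i => (m i : ℚ) * effA a (Finset.univ.filter (fun x => ty x ≠ Ty.R)) l i)
        (fun i _ => mul_nonneg (Nat.cast_nonneg _) (effA_nonneg a _ l i)) hju
    linarith

private theorem KL2_hJ (a : I → I → ℕ) (γ : I →₀ ℕ) (σ : Sta I)
    (ty : I → Ty) (k : ℕ) (h : Ph1 a γ σ ty (k + 2)) (j : I) (hj : ty j = Ty.R)
    (m : ℕ) (hP : 0 ≤ (σ.P j : ℚ)) (l : I) (hl : ty l = Ty.R) :
    0 ≤ hJ a σ ty j m l := by
  unfold hJ
  have h1 : 0 ≤ scl σ j m := by
    unfold scl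
    split_ifs
    · exact zero_le_one
    · exact hP
  have h2 : 0 ≤ scl σ j m * σ.H l j := mul_nonneg h1 (h.Hnn l j hl hj)
  have hm : (0 : ℚ) ≤ m := Nat.cast_nonneg m
  have h3 : 0 ≤ (if ty l = Ty.R ∧ σ.κ l = σ.κ j then (m : ℚ) * effA a (wallsAt σ ty j) l j
      else 0) := by
    split_ifs
    · exact mul_nonneg hm (effA_nonneg a _ l j)
    · exact le_rfl
  have h4 : 0 ≤ (m : ℚ) * ∑ l' ∈ procd σ ty j, effA a (wallsAt σ ty j) l' j * σ.H l l' := by
    refine mul_nonneg hm (Finset.sum_nonneg fun l' hl' => ?_)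
    unfold procd at hl'
    rw [Finset.mem_filter] at hl'
    exact mul_nonneg (effA_nonneg a _ l' j) (h.Hnn l l' hl hl'.2.2.1)
  linarith

/-- the weights of one step -/
private theorem KL2_weight (a : I → I → ℕ) (hg : GoodMat a) (γ : I →₀ ℕ) (σ : Sta I)
    (ty : I → Ty) (k : ℕ) (h : Ph1 a γ σ ty (k + 2)) (hwk : ∀ x, ty x ≠ Ty.R → σ.κ x = k + 2)
    (r : I) (hr : ty r = Ty.R) (m : I → ℕ) (j : I) (hj : ty j = Ty.R) (hjk : σ.κ j = k + 2)
    (hfin : ∀ i, ty i = Ty.R → 1 ≤ finPh a σ ty k m i) (w : ℚ)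
    (hnew : ∀ l, ty l = Ty.R → 0 ≤ PhS a (staJ a σ ty j (m j)) (tyJ a ty j (m j)) l)
    (hw : w ≤ wt (σ.P j).toNat (m j) ∨
        (w ≤ 1 ∧ m j = 0 ∧ (σ.P j : ℚ) ≤ finPh a σ ty k m j))
    (ht : 0 < tauJ a σ ty j (m j)) :
    w * dfc a σ ty r ≤ wtJ σ j (m j) * (tauJ a σ ty j (m j) *
      dfc a (staJ a σ ty j (m j)) (tyJ a ty j (m j)) r) := by
  have hs := hg.symm
  have hwj : m j = 0 ∨ ∀ x, ty x ≠ Ty.R → 0 < a x j → σ.κ x = k + 2 :=
    Or.inr fun x hx _ => hwk x hx
  have hPj : PhS a σ ty j = σ.P j := PhS_eq_P a σ ty j fun x hx _ => by rw [hwk x hx, hjk]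
  have hPpos : 0 < (σ.P j : ℚ) := by
    rw [← hPj]
    exact h.pos j hj hjk
  have hPint : 1 ≤ σ.P j := by
    have : 0 < σ.P j := by exact_mod_cast hPpos
    omega
  have hPone : (1 : ℚ) ≤ (σ.P j : ℚ) := by exact_mod_cast hPint
  have hnat : 1 ≤ (σ.P j).toNat := by omega
  have hcast : (((σ.P j).toNat : ℕ) : ℚ) = (σ.P j : ℚ) := by
    have h1 : (((σ.P j).toNat : ℕ) : ℤ) = σ.P j := Int.toNat_of_nonneg (by omega)
    exact_mod_cast congrArg (fun z : ℤ => (z : ℚ)) h1
  have hwt0 : wt (σ.P j).toNat 0 = 1 / (σ.P j : ℚ) := by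
    rw [KL2_wt_zero _ hnat, hcast]
  have hinv : 1 / (σ.P j : ℚ) ≤ 1 := by
    rw [div_le_one hPpos]
    exact hPone
  have hdr := h.dnn r hr
  have hdj := h.dnn j hj
  have htau : finPh a σ ty k m j ≤
      (if m j = 0 then PhS a σ ty j else 1) * tauJ a σ ty j (m j) := by
    rw [stepJ_tau a hs γ σ ty k h j hj hjk (m j) hwj]
    have h1 := KL2_newPh a hs γ σ ty k h hwk m j hj hjk j hj (Or.inl rfl)
    have h2 : 0 ≤ ∑ l ∈ Finset.univ.filter (fun l => ty l = Ty.R ∧ l ≠ j),
        σ.H j l * PhS a (staJ a σ ty j (m j)) (tyJ a ty j (m j)) l := by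
      refine Finset.sum_nonneg fun l hl => ?_
      rw [Finset.mem_filter] at hl
      exact mul_nonneg (h.Hnn j l hj hl.2.1) (hnew l hl.2.1)
    linarith
  have hfj := hfin j hj
  by_cases hrj : r = j
  · subst hrj
    rw [stepJ_dfc_self a hs γ σ ty k h r hj hjk (m r) hwj ht.ne']
    have e1 : tauJ a σ ty r (m r) * (scl σ r (m r) / tauJ a σ ty r (m r) * dfc a σ ty r) =
        scl σ r (m r) * dfc a σ ty r := by
      field_simp
    rw [e1, ← mul_assoc]
    refine mul_le_mul_of_nonneg_right ?_ hdj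
    unfold wtJ scl
    by_cases hm : m r = 0
    · rw [if_pos hm, if_pos hm]
      rw [hm, hwt0] at hw
      rcases hw with hw | hw
      · linarith
      · linarith [hw.1]
    · rw [if_neg hm, if_neg hm]
      rcases hw with hw | hw
      · have h1 := KL2_wt_nonneg (σ.P r).toNat (m r)
        have h2 := mul_le_mul_of_nonneg_left hPone h1
        linarith
      · exact absurd hw.2.1 hm
  · rw [stepJ_dfc a hs γ σ ty k h j hj hjk (m j) hwj ht.ne' r hr hrj]
    have h1 : dfc a σ ty r ≤ dfc a σ ty r + hJ a σ ty j (m j) r / tauJ a σ ty j (m j) *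
        dfc a σ ty j := by
      have h2 := KL2_hJ a γ σ ty k h j hj (m j) hPpos.le r hr
      have h3 : 0 ≤ hJ a σ ty j (m j) r / tauJ a σ ty j (m j) * dfc a σ ty j :=
        mul_nonneg (div_nonneg h2 ht.le) hdj
      linarith
    have h4 : w ≤ wtJ σ j (m j) * tauJ a σ ty j (m j) := by
      unfold wtJ
      by_cases hm : m j = 0
      · rw [if_pos hm, one_mul]
        rw [if_pos hm, hPj] at htau
        rw [hm] at hw
        rw [hwt0] at hw
        rcases hw with hw | hw
        · refine hw.trans ?_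
          rw [div_le_iff₀ hPpos]
          rw [hm] at htau ⊢
          linarith
        · refine hw.1.trans ?_
          have h5 := hw.2.2.trans htau
          have h6 : (σ.P j : ℚ) * 1 ≤ (σ.P j : ℚ) * tauJ a σ ty j (m j) := by
            linarith
          exact le_of_mul_le_mul_left h6 hPpos
      · rw [if_neg hm]
        rw [if_neg hm, one_mul] at htau
        rcases hw with hw | hw
        · have h5 := KL2_wt_nonneg (σ.P j).toNat (m j)
          have h6 := mul_le_mul_of_nonneg_left (hfj.trans htau) h5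
          linarith
        · exact absurd hw.2.1 hm
    have h7 : 0 ≤ wtJ σ j (m j) * tauJ a σ ty j (m j) := by
      refine mul_nonneg ?_ ht.le
      unfold wtJ
      split_ifs
      · exact zero_le_one
      · exact KL2_wt_nonneg _ _
    calc w * dfc a σ ty r ≤ (wtJ σ j (m j) * tauJ a σ ty j (m j)) * dfc a σ ty r :=
          mul_le_mul_of_nonneg_right h4 hdr
      _ ≤ (wtJ σ j (m j) * tauJ a σ ty j (m j)) * (dfc a σ ty r +
          hJ a σ ty j (m j) r / tauJ a σ ty j (m j) * dfc a σ ty j) :=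
          mul_le_mul_of_nonneg_left h1 h7
      _ = _ := by ring

theorem lb_phase1 (a : I → I → ℕ) (hg : GoodMat a) (k : ℕ) (r : I) (ord : I → ℕ)
    (hord : Function.Injective ord) (m : I → ℕ) (ω : I → ℚ) (c : ℚ) (hc : 0 ≤ c) (t : ℕ) :
    ∀ (γ : I →₀ ℕ) (σ : Sta I) (ty : I → Ty), Ph1 a γ σ ty (k + 2) →
      (∀ x, ty x ≠ Ty.R → σ.κ x = k + 2) → ty r = Ty.R →
      (∀ i, ty i = Ty.R → (σ.κ i = k + 2 ↔ ord i < t)) →
      (∀ l ∈ unp σ ty k, (k + 1) * m l ≤ γ l) →
      (∀ i, ty i = Ty.R → 1 ≤ finPh a σ ty k m i) →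
      (∀ i ∈ unp σ ty k, 0 ≤ ω i ∧ (ω i ≤ wt (σ.P i).toNat (m i) ∨
        (ω i ≤ 1 ∧ m i = 0 ∧ (σ.P i : ℚ) ≤ finPh a σ ty k m i))) →
      (∀ σ' : Sta I, Ph2 a (finG γ σ ty k m) σ' (finT a σ ty k m) (k + 2) →
        σ'.κ = finK σ ty k → σ'.P = finP a σ ty k m → σ'.p = finp a σ ty k m →
        c * dfc a σ' (finT a σ ty k m) r ≤ Val a (finG γ σ ty k m) σ') →
      c * (∏ i ∈ unp σ ty k, ω i) * dfc a σ ty r ≤ Val a γ σ := by
  have hs := hg.symm
  induction t with
  | zero =>
    intro γ σ ty h hwk hr hordt hγ hfin hω hend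
    have hlow : ∀ i, ty i = Ty.R → σ.κ i = k + 1 := by
      intro i hi
      have h1 : ¬ σ.κ i = k + 2 := fun h' => Nat.not_lt_zero _ ((hordt i hi).1 h')
      have h2 := (h.reg i hi).resolve_left h1
      omega
    have hunp : unp σ ty k = ∅ := by
      unfold unp
      rw [Finset.filter_eq_empty_iff]
      intro i _ h'
      have := hlow i h'.1
      omega
    have hPh2 : Ph2 a γ σ ty (k + 2) :=
      { toBase := h.toBase
        reg := fun l hl => by rw [hlow l hl]
        wall := fun x hx => Or.inl (hwk x hx) }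
    have eG : finG γ σ ty k m = γ := by
      unfold finG
      rw [hunp, Finset.sum_empty, tsub_zero]
    have eT : finT a σ ty k m = ty := by
      funext i
      unfold finT
      rw [hunp, Finset.sum_empty, if_neg (by simp)]
    have eK : finK σ ty k = σ.κ := by
      funext i
      unfold finK
      split_ifs with hi
      · rw [hlow i hi]
      · rfl
    have eP : finP a σ ty k m = σ.P := by
      funext i
      unfold finP
      rw [hunp]
      simp
    have ep : finp a σ ty k m = σ.p := by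
      funext i
      unfold finp
      rw [hunp]
      simp
    have h1 := hend σ (by rw [eG, eT]; exact hPh2) eK.symm eP.symm ep.symm
    rw [eG, eT] at h1
    rw [hunp, Finset.prod_empty, mul_one]
    exact h1
  | succ t ih =>
    intro γ σ ty h hwk hr hordt hγ hfin hω hend
    by_cases hex : ∃ j, ty j = Ty.R ∧ ord j = t
    · obtain ⟨j, hj, hjt⟩ := hex
      have hjk : σ.κ j = k + 2 := (hordt j hj).2 (by omega)
      have hju : j ∈ unp σ ty k := Finset.mem_filter.2 ⟨Finset.mem_univ j, hj, hjk⟩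
      apply Val_pert_ge
      intro δ hδ0 hδ1
      obtain ⟨h', hst⟩ := pert_Ph1 a γ σ ty (k + 2) h δ hδ0 hδ1
      obtain ⟨τ, hτ⟩ : ∃ τ, τ = pert σ ty δ := ⟨_, rfl⟩
      have eκ : τ.κ = σ.κ := by rw [hτ]; rfl
      have eP : τ.P = σ.P := by rw [hτ]; rfl
      have ep : τ.p = σ.p := by rw [hτ]; rfl
      have eunp : unp τ ty k = unp σ ty k := by
        unfold unp
        rw [eκ]
      have efK : finK τ ty k = finK σ ty k := by
        funext i
        unfold finK
        rw [eκ]
      have efP : finP a τ ty k m = finP a σ ty k m := by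
        funext i
        unfold finP
        rw [eunp, eP, ep]
      have efp : finp a τ ty k m = finp a σ ty k m := by
        funext i
        unfold finp
        rw [eunp, eP, ep]
      have efT : finT a τ ty k m = finT a σ ty k m := by
        funext i
        unfold finT
        rw [eunp]
      have efG : finG γ τ ty k m = finG γ σ ty k m := by
        unfold finG
        rw [eunp]
      have efPh : ∀ i, finPh a τ ty k m i = finPh a σ ty k m i := by
        intro i
        unfold finPh
        rw [efK, efP, efp, efT]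
      rw [← hτ] at h' hst ⊢
      rw [← eκ] at hwk hordt hjk
      rw [← eunp] at hγ hω hju ⊢
      rw [← efG, ← efT, ← efK, ← efP, ← efp] at hend
      rw [← eP] at hω
      have hfin' : ∀ i, ty i = Ty.R → 1 ≤ finPh a τ ty k m i := fun i hi => by
        rw [efPh]
        exact hfin i hi
      have hω' : ∀ i ∈ unp τ ty k, 0 ≤ ω i ∧ (ω i ≤ wt (τ.P i).toNat (m i) ∨
        (ω i ≤ 1 ∧ m i = 0 ∧ (τ.P i : ℚ) ≤ finPh a τ ty k m i)) := fun i hi => by
        rw [efPh]
        exact hω i hi
      clear hω hfin hτ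
      -- the new state
      have hnew : ∀ l, ty l = Ty.R →
          0 ≤ PhS a (staJ a τ ty j (m j)) (tyJ a ty j (m j)) l := by
        intro l hl
        by_cases hlj : l = j ∨ τ.κ l = k + 1
        · have h1 := KL2_newPh a hs γ τ ty k h' hwk m j hj hjk l hl hlj
          have h2 := hfin' l hl
          linarith
        · push Not at hlj
          have hlk : τ.κ l = k + 2 := by
            rcases h'.reg l hl with h1 | h1
            · exact h1
            · omega
          rw [stepJ_Ph a hs γ τ ty k h' j hj hjk (m j) (Or.inr fun x hx _ => hwk x hx) l hl,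
            if_neg hlj.1, if_neg (by omega)]
          exact (h'.pos l hl hlk).le
      obtain ⟨ht, hPh1, hval⟩ := lb_step a hg γ τ ty k h' j hj hjk (fun x hx _ => hwk x hx)
        (hst j hj) (m j) (hγ j hju) hnew
      obtain ⟨gK, gP, gp, gT, gG⟩ := fin_step a hs γ τ ty k h' hwk m j hj hjk hγ
      have gunp := unp_step a τ ty k j hj hjk (m j)
      have gPh : ∀ i, finPh a (staJ a τ ty j (m j)) (tyJ a ty j (m j)) k m i =
          finPh a τ ty k m i := by
        intro i
        unfold finPh
        rw [gK, gP, gp, gT]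
      have kne : ∀ i, i ≠ j → (staJ a τ ty j (m j)).κ i = τ.κ i := fun i hi =>
        Function.update_of_ne hi _ _
      have kj : (staJ a τ ty j (m j)).κ j = k + 1 := by
        show Function.update τ.κ j (τ.κ j - 1) j = k + 1
        rw [Function.update_self, hjk]
        rfl
      have hih := ih (γ - Finsupp.single j ((k + 1) * m j)) (staJ a τ ty j (m j))
        (tyJ a ty j (m j)) hPh1
        (by
          intro x hx
          have hx' : ty x ≠ Ty.R := fun h1 => hx ((tyJ_R a ty j (m j) x).2 h1)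
          have hxj : x ≠ j := by
            rintro rfl
            exact hx' hj
          rw [kne x hxj]
          exact hwk x hx')
        ((tyJ_R a ty j (m j) r).2 hr)
        (by
          intro i hi
          have hi' := (tyJ_R a ty j (m j) i).1 hi
          by_cases hij : i = j
          · rw [hij, kj, hjt]
            constructor
            · intro h1
              omega
            · intro h1
              omega
          · rw [kne i hij, hordt i hi']
            have h1 : ord i ≠ t := fun h1 => hij (hord (h1.trans hjt.symm))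
            omega)
        (by
          intro l hl
          rw [gunp, Finset.mem_erase] at hl
          have h1 : (γ - Finsupp.single j ((k + 1) * m j)) l = γ l := by
            rw [Finsupp.tsub_apply, Finsupp.single_eq_of_ne hl.1, Nat.sub_zero]
          rw [h1]
          exact hγ l hl.2)
        (by
          intro i hi
          rw [gPh]
          exact hfin' i ((tyJ_R a ty j (m j) i).1 hi))
        (by
          intro i hi
          rw [gunp, Finset.mem_erase] at hi
          have hik : τ.κ i = k + 2 := (Finset.mem_filter.1 hi.2).2.2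
          have h1 : (staJ a τ ty j (m j)).P i = τ.P i := by
            show PJ a τ j (m j) i = τ.P i
            unfold PJ
            rw [if_neg hi.1, if_neg (by omega)]
          rw [h1, gPh]
          exact hω' i hi.2)
        (by
          intro σ' hσ' h1 h2 h3
          rw [gT, gG] at hσ' ⊢
          exact hend σ' hσ' (h1.trans gK) (h2.trans gP) (h3.trans gp))
      rw [gunp] at hih
      have hprod : 0 ≤ c * ∏ i ∈ (unp τ ty k).erase j, ω i :=
        mul_nonneg hc (Finset.prod_nonneg fun i hi => (hω' i (Finset.mem_erase.1 hi).2).1)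
      have hwt := KL2_weight a hg γ τ ty k h' hwk r hr m j hj hjk hfin' (ω j) hnew
        (hω' j hju).2 ht
      have hwtJ : 0 ≤ wtJ τ j (m j) := by
        unfold wtJ
        split_ifs
        · exact zero_le_one
        · exact KL2_wt_nonneg _ _
      rw [← Finset.mul_prod_erase _ _ hju]
      calc c * (ω j * ∏ i ∈ (unp τ ty k).erase j, ω i) * dfc a τ ty r
          = (c * ∏ i ∈ (unp τ ty k).erase j, ω i) * (ω j * dfc a τ ty r) := by ring
        _ ≤ (c * ∏ i ∈ (unp τ ty k).erase j, ω i) * (wtJ τ j (m j) * (tauJ a τ ty j (m j) *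
            dfc a (staJ a τ ty j (m j)) (tyJ a ty j (m j)) r)) :=
            mul_le_mul_of_nonneg_left hwt hprod
        _ = wtJ τ j (m j) * (tauJ a τ ty j (m j) * ((c * ∏ i ∈ (unp τ ty k).erase j, ω i) *
            dfc a (staJ a τ ty j (m j)) (tyJ a ty j (m j)) r)) := by ring
        _ ≤ wtJ τ j (m j) * (tauJ a τ ty j (m j) *
            Val a (γ - Finsupp.single j ((k + 1) * m j)) (staJ a τ ty j (m j))) :=
            mul_le_mul_of_nonneg_left (mul_le_mul_of_nonneg_left hih ht.le) hwtJ
        _ ≤ Val a γ τ := hval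
    · push Not at hex
      refine ih γ σ ty h hwk hr (fun i hi => ?_) hγ hfin hω hend
      rw [hordt i hi]
      have := hex i hi
      omega

end Pool.Agent.H27.KAC
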