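import Pool.Agent.H27.KAC.KL1

/-!
KAC module KL3: the last level (level 2, all vertices regular).

`m i ≥ 1` for all `i`; final `P` is zero and final index `0`; `ord` injective, `ord r = 0`, every other
vertex has a neighbour of smaller `ord`; unprocessed vertices: `ord < t`, `t ≥ 1` (so `r` is unprocessed).
Induction on `t` as in `KL2` (perturbation `Val_pert_ge`, `lb_step`).
`t = 1`, only `r` is left: `τ_r = τ^_r ≥ dfc_r` (`stepJ_tau`, `Ph' = finPh = 0` for all vertices), and the new state has all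
levels 1, index 0, value `coeff 0 1 = 1`.  (If `dfc_r = 0` there is nothing to show.)
`t + 1 ≥ 2`, `ord j = t`: `j ≠ r`, `τ_j ≥ Ph'_j = finPh_j + ∑_{l unprocessed} m_l a_{jl} ≥ 1` because a neighbour with smaller
`ord` is unprocessed, and `dfc_r` does not decrease.  Since all types are `R`, `Ph = P`, `ph = p`.
-/

namespace Pool.Agent.H27.KAC

open scoped BigOperators
open MvPowerSeries

variable {I : Type} [Fintype I] [DecidableEq I]

theorem KL3_tyJ (a : I → I → ℕ) (j : I) (m : ℕ) :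
    tyJ a (fun _ => Ty.R) j m = fun _ => Ty.R := by
  funext i
  simp [tyJ]

theorem KL3_PhS (a : I → I → ℕ) (σ : Sta I) (l : I) :
    PhS a σ (fun _ => Ty.R) l = (σ.P l : ℚ) := by
  simp [Ph]

theorem KL3_mem_unp (σ : Sta I) (i : I) :
    i ∈ unp σ (fun _ => Ty.R) 0 ↔ σ.κ i = 2 := by
  simp [unp]

theorem KL3_dlg_one (a : I → I → ℕ) (i : I) (k : ℕ) (hk : k ≤ 1) (l : I) :
    dlg a (uu a i k) l = 0 := by
  have h1 : ((uu a i k : (MvPowerSeries I ℚ)ˣ) : MvPowerSeries I ℚ) = 1 := by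
    rw [uu_coe]
    interval_cases k
    · exact uS_zero a i
    · exact uS_one a i
  unfold dlg
  rw [h1]
  have h2 : dD a l (1 : MvPowerSeries I ℚ) = 0 := by
    ext β
    have h3 : coeff β (dD a l (1 : MvPowerSeries I ℚ)) =
        (-(cw a β l : ℤ) : ℚ) * MvPowerSeries.coeff β (1 : MvPowerSeries I ℚ) := rfl
    rw [h3, MvPowerSeries.coeff_one]
    by_cases hβ : β = 0
    · subst hβ
      simp [cw_zero]
    · simp [hβ]
  rw [h2, zero_mul]

theorem KL3_uu_one (a : I → I → ℕ) (i : I) (k : ℕ) (hk : k ≤ 1) : uu a i k = 1 := by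
  apply Units.ext
  rw [uu_coe]
  interval_cases k
  · exact uS_zero a i
  · exact uS_one a i

theorem KL3_val_one (a : I → I → ℕ) (σ : Sta I) (h1 : ∀ i, σ.κ i = 1) : Val a 0 σ = 1 := by
  have hf : facS a σ = 1 := by
    unfold facS
    have : (∏ i, ((uu a i (σ.κ i)) ^ (-(σ.P i)) * (uu a i (σ.κ i - 1)) ^ (σ.p i)) :
        (MvPowerSeries I ℚ)ˣ) = 1 := by
      apply Finset.prod_eq_one
      intro i _
      rw [h1 i, KL3_uu_one a i 1 le_rfl, KL3_uu_one a i (1 - 1) (by omega)]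
      simp
    rw [this]
    rfl
  have hc : colMat (colS a σ) = 1 := by
    ext1 l i
    have hx0 : ∀ l' : I, xv a l' 0 l = 0 := by
      intro l'
      unfold xv
      rw [KL3_dlg_one a l' 0 (by omega)]
      simp
    have hx1 : xv a i 1 l = if i = l then 1 else 0 := by
      unfold xv
      rw [KL3_dlg_one a i 1 le_rfl]
      simp
    show colS a σ i l = _
    unfold colS
    rw [h1 i, hx1]
    have : ∑ l', C (σ.H l' i) * xv a l' (σ.κ l' - 1) l = 0 := by
      apply Finset.sum_eq_zero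
      intro l' _
      rw [h1 l', show (1 - 1 : ℕ) = 0 from rfl, hx0 l', mul_zero]
    rw [this, sub_zero, Matrix.one_apply]
    by_cases hil : i = l
    · rw [if_pos hil, if_pos hil.symm]
    · rw [if_neg hil, if_neg (fun h => hil h.symm)]
  unfold Val raw
  rw [hf, hc, Matrix.det_one, mul_one]
  simp

theorem KL3_wtnn (P m : ℕ) : 0 ≤ wt P m := by
  unfold wt
  positivity

theorem KL3_PJ (a : I → I → ℕ) (σ : Sta I) (m : I → ℕ)
    (hP : ∀ i, finP a σ (fun _ => Ty.R) 0 m i = 0) (j : I) (hjk : σ.κ j = 2)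
    (i : I) (hi : i = j ∨ σ.κ i + 1 = 2) :
    PJ a σ j (m j) i =
      ∑ l ∈ (unp σ (fun _ => Ty.R) 0).erase j, (a i l : ℤ) * (m l : ℤ) := by
  have hj : j ∈ unp σ (fun _ => Ty.R) 0 := by rw [KL3_mem_unp]; exact hjk
  have h := hP i
  unfold finP at h
  rw [if_pos rfl] at h
  by_cases hij : i = j
  · subst hij
    rw [if_pos hj, ← Finset.add_sum_erase _ _ hj] at h
    have h2 : ∑ l ∈ (unp σ (fun _ => Ty.R) 0).erase i, cart a i l * (m l : ℤ) =
        - ∑ l ∈ (unp σ (fun _ => Ty.R) 0).erase i, (a i l : ℤ) * (m l : ℤ) := by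
      rw [← Finset.sum_neg_distrib]
      apply Finset.sum_congr rfl
      intro l hl
      have hne : i ≠ l := (Finset.ne_of_mem_erase hl).symm
      unfold cart
      rw [if_neg hne]
      ring
    unfold PJ
    rw [if_pos rfl]
    rw [h2] at h
    linarith
  · have hi2 : σ.κ i + 1 = 2 := by
      rcases hi with h0 | h0
      · exact absurd h0 hij
      · exact h0
    have hiu : i ∉ unp σ (fun _ => Ty.R) 0 := by rw [KL3_mem_unp]; omega
    rw [if_neg hiu, ← Finset.add_sum_erase _ _ hj] at h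
    have h2 : ∑ l ∈ (unp σ (fun _ => Ty.R) 0).erase j, cart a i l * (m l : ℤ) =
        - ∑ l ∈ (unp σ (fun _ => Ty.R) 0).erase j, (a i l : ℤ) * (m l : ℤ) := by
      rw [← Finset.sum_neg_distrib]
      apply Finset.sum_congr rfl
      intro l hl
      have hne : i ≠ l := by
        rintro rfl
        exact hiu (Finset.mem_of_mem_erase hl)
      unfold cart
      rw [if_neg hne]
      ring
    have h3 : cart a i j = - (a i j : ℤ) := by
      unfold cart
      rw [if_neg hij]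
      ring
    unfold PJ
    rw [if_neg hij, if_pos (by omega)]
    rw [h2, h3] at h
    linarith

theorem KL3_PJ_nonneg (a : I → I → ℕ) (γ : I →₀ ℕ) (σ : Sta I) (m : I → ℕ)
    (h : Ph1 a γ σ (fun _ => Ty.R) 2)
    (hP : ∀ i, finP a σ (fun _ => Ty.R) 0 m i = 0) (j : I) (hjk : σ.κ j = 2)
    (i : I) : 0 ≤ PJ a σ j (m j) i := by
  by_cases hi : i = j ∨ σ.κ i + 1 = 2
  · rw [KL3_PJ a σ m hP j hjk i hi]
    exact Finset.sum_nonneg (fun l _ => by positivity)
  · push Not at hi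
    have h2 : σ.κ i = 2 := by
      rcases h.reg i rfl with h0 | h0
      · exact h0
      · exact absurd h0 hi.2
    unfold PJ
    rw [if_neg hi.1, if_neg (by omega)]
    have h3 := h.pos i rfl h2
    rw [KL3_PhS] at h3
    have h4 : (0 : ℤ) < σ.P i := by exact_mod_cast h3
    omega

theorem KL3_one (a : I → I → ℕ) (hg : GoodMat a) (γ : I →₀ ℕ) (σ : Sta I) (m : I → ℕ)
    (h : Ph1 a γ σ (fun _ => Ty.R) 2) (j : I) (hjk : σ.κ j = 2) (hm1 : 1 ≤ m j)
    (hm : ∀ l ∈ unp σ (fun _ => Ty.R) 0, m l ≤ γ l)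
    (hP : ∀ i, finP a σ (fun _ => Ty.R) 0 m i = 0)
    (hst : 0 < dfc a σ (fun _ => Ty.R) j ∨ phS a σ (fun _ => Ty.R) j = 0) :
    0 < tauJ a σ (fun _ => Ty.R) j (m j) ∧
      Ph1 a (γ - Finsupp.single j (m j)) (staJ a σ (fun _ => Ty.R) j (m j))
        (fun _ => Ty.R) 2 ∧
      wt (σ.P j).toNat (m j) * (tauJ a σ (fun _ => Ty.R) j (m j) *
        Val a (γ - Finsupp.single j (m j)) (staJ a σ (fun _ => Ty.R) j (m j))) ≤ Val a γ σ ∧
      tauJ a σ (fun _ => Ty.R) j (m j) =
        (PJ a σ j (m j) j : ℚ) +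
        (∑ l ∈ Finset.univ.filter (fun l : I => l ≠ j),
          σ.H j l * (PJ a σ j (m j) l : ℚ)) + dfc a σ (fun _ => Ty.R) j ∧
      unp (staJ a σ (fun _ => Ty.R) j (m j)) (fun _ => Ty.R) 0 =
        (unp σ (fun _ => Ty.R) 0).erase j ∧
      (∀ i, finP a (staJ a σ (fun _ => Ty.R) j (m j)) (fun _ => Ty.R) 0 m i = 0) ∧
      finG (γ - Finsupp.single j (m j)) (staJ a σ (fun _ => Ty.R) j (m j))
        (fun _ => Ty.R) 0 m = finG γ σ (fun _ => Ty.R) 0 m := by
  have hj : j ∈ unp σ (fun _ => Ty.R) 0 := by rw [KL3_mem_unp]; exact hjk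
  have hty := KL3_tyJ a j (m j)
  have hmj : m j ≤ γ j := hm j hj
  have e1 : (0 + 1) * m j = m j := by omega
  have hPn : ∀ l, (fun _ => Ty.R) l = Ty.R → 0 ≤ PhS a (staJ a σ (fun _ => Ty.R) j (m j))
      (tyJ a (fun _ => Ty.R) j (m j)) l := by
    intro l _
    rw [hty, KL3_PhS]
    have := KL3_PJ_nonneg a γ σ m h hP j hjk l
    have h2 : (0 : ℚ) ≤ ((PJ a σ j (m j) l : ℤ) : ℚ) := by exact_mod_cast this
    exact h2
  have hst' := lb_step a hg γ σ (fun _ => Ty.R) 0 h j rfl hjk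
    (fun x hx => absurd rfl hx) hst (m j) (by rw [e1]; exact hmj) hPn
  rw [hty, e1] at hst'
  obtain ⟨t1, t2, t3⟩ := hst'
  have hw : m j = 0 ∨ ∀ x, (fun _ => Ty.R) x ≠ Ty.R → 0 < a x j → σ.κ x = 0 + 2 :=
    Or.inr (fun x hx => absurd rfl hx)
  have htau := stepJ_tau a hg.symm γ σ (fun _ => Ty.R) 0 h j rfl hjk (m j) hw
  rw [if_neg (by omega), one_mul, hty, KL3_PhS] at htau
  have hunp := unp_step a σ (fun _ => Ty.R) 0 j rfl hjk (m j)
  rw [hty] at hunp
  have hfin := fin_step a hg.symm γ σ (fun _ => Ty.R) 0 h (fun x hx => absurd rfl hx) m j rfl hjk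
    (fun l hl => by rw [zero_add, one_mul]; exact hm l hl)
  rw [hty, e1] at hfin
  obtain ⟨_, f2, _, _, f5⟩ := hfin
  refine ⟨t1, t2, ?_, ?_, hunp, ?_, f5⟩
  · unfold wtJ at t3
    rw [if_neg (by omega)] at t3
    exact t3
  · rw [htau]
    congr 1
    congr 1
    apply Finset.sum_congr
    · ext l
      simp
    · intro l _
      rw [KL3_PhS]
      rfl
  · intro i
    rw [f2]
    exact hP i

theorem KL3_base (a : I → I → ℕ) (hg : GoodMat a) (γ : I →₀ ℕ) (σ : Sta I) (m : I → ℕ)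
    (h : Ph1 a γ σ (fun _ => Ty.R) 2) (r : I) (hm1 : 1 ≤ m r)
    (hκ : ∀ i, σ.κ i = 2 ↔ i = r)
    (hm : ∀ l ∈ unp σ (fun _ => Ty.R) 0, m l ≤ γ l)
    (hP : ∀ i, finP a σ (fun _ => Ty.R) 0 m i = 0)
    (hG : finG γ σ (fun _ => Ty.R) 0 m = 0) :
    wt (σ.P r).toNat (m r) * dfc a σ (fun _ => Ty.R) r ≤ Val a γ σ := by
  have hrk : σ.κ r = 2 := (hκ r).2 rfl
  rcases (h.dnn r rfl).eq_or_lt with h0 | h0
  · rw [← h0, mul_zero]
    exact pos_Ph1' a hg 0 γ σ _ h
  · obtain ⟨t1, t2, t3, t4, t5, t6, t7⟩ := KL3_one a hg γ σ m h r hrk hm1 hm hP (Or.inl h0)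
    have hunp : (unp σ (fun _ => Ty.R) 0).erase r = ∅ := by
      ext l
      rw [Finset.mem_erase, KL3_mem_unp, hκ l]
      simp
    have hPJ : ∀ i, PJ a σ r (m r) i = 0 := by
      intro i
      have hi : i = r ∨ σ.κ i + 1 = 2 := by
        by_cases hir : i = r
        · exact Or.inl hir
        · right
          rcases h.reg i rfl with h1 | h1
          · exact absurd ((hκ i).1 h1) hir
          · exact h1
      rw [KL3_PJ a σ m hP r hrk i hi, hunp, Finset.sum_empty]
    have htau : tauJ a σ (fun _ => Ty.R) r (m r) = dfc a σ (fun _ => Ty.R) r := by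
      rw [t4, hPJ r]
      rw [Finset.sum_eq_zero (fun l _ => by rw [hPJ l]; simp)]
      simp
    have hγ : γ - Finsupp.single r (m r) = 0 := by
      have h1 : finG γ σ (fun _ => Ty.R) 0 m = γ - Finsupp.single r (m r) := by
        unfold finG
        have hu : unp σ (fun _ => Ty.R) 0 = {r} := by
          ext l
          rw [KL3_mem_unp, hκ l, Finset.mem_singleton]
        rw [hu, Finset.sum_singleton]
        simp
      rw [← h1, hG]
    have hV : Val a (γ - Finsupp.single r (m r)) (staJ a σ (fun _ => Ty.R) r (m r)) = 1 := by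
      rw [hγ]
      apply KL3_val_one
      intro i
      show kapJ σ r i = 1
      unfold kapJ
      by_cases hir : i = r
      · subst hir
        rw [Function.update_self, hrk]
      · rw [Function.update_of_ne hir]
        rcases h.reg i rfl with h1 | h1
        · exact absurd ((hκ i).1 h1) hir
        · omega
    rw [hV, mul_one, htau] at t3
    exact t3

theorem KL3_hJ_nonneg (a : I → I → ℕ) (γ : I →₀ ℕ) (σ : Sta I)
    (h : Ph1 a γ σ (fun _ => Ty.R) 2) (j : I) (hjk : σ.κ j = 2) (m : ℕ) (l : I) :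
    0 ≤ hJ a σ (fun _ => Ty.R) j m l := by
  have hPj : (0 : ℚ) < (σ.P j : ℚ) := by
    have := h.pos j rfl hjk
    rwa [KL3_PhS] at this
  unfold hJ
  apply add_nonneg
  · apply add_nonneg
    · apply mul_nonneg
      · unfold scl
        split_ifs
        · exact zero_le_one
        · exact hPj.le
      · exact h.Hnn l j rfl rfl
    · split_ifs
      · exact mul_nonneg (by positivity) (effA_nonneg a _ l j)
      · exact le_rfl
  · apply mul_nonneg (by positivity)
    apply Finset.sum_nonneg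
    intro l' _
    exact mul_nonneg (effA_nonneg a _ l' j) (h.Hnn l l' rfl rfl)

theorem KL3_strict (a : I → I → ℕ) (hg : GoodMat a) (r : I) (ord : I → ℕ)
    (hord : Function.Injective ord) (hr : ord r = 0)
    (hn : ∀ j, j ≠ r → ∃ l, 0 < a j l ∧ ord l < ord j) (m : I → ℕ) (hm1 : ∀ i, 1 ≤ m i) (t : ℕ)
    (ih : ∀ (γ : I →₀ ℕ) (σ : Sta I), Ph1 a γ σ (fun _ => Ty.R) 2 →
      (∀ i, (σ.κ i = 2 ↔ ord i < t + 1)) →
      (∀ l ∈ unp σ (fun _ => Ty.R) 0, m l ≤ γ l) →
      (∀ i, finP a σ (fun _ => Ty.R) 0 m i = 0) →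
      finG γ σ (fun _ => Ty.R) 0 m = 0 →
      (∏ i ∈ unp σ (fun _ => Ty.R) 0, wt (σ.P i).toNat (m i)) * dfc a σ (fun _ => Ty.R) r ≤
        Val a γ σ)
    (γ : I →₀ ℕ) (σ : Sta I) (h : Ph1 a γ σ (fun _ => Ty.R) 2)
    (hκ : ∀ i, (σ.κ i = 2 ↔ ord i < t + 2))
    (hm : ∀ l ∈ unp σ (fun _ => Ty.R) 0, m l ≤ γ l)
    (hP : ∀ i, finP a σ (fun _ => Ty.R) 0 m i = 0)
    (hG : finG γ σ (fun _ => Ty.R) 0 m = 0)
    (j : I) (hj : ord j = t + 1)
    (hst : 0 < dfc a σ (fun _ => Ty.R) j ∨ phS a σ (fun _ => Ty.R) j = 0) :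
    (∏ i ∈ unp σ (fun _ => Ty.R) 0, wt (σ.P i).toNat (m i)) * dfc a σ (fun _ => Ty.R) r ≤
        Val a γ σ := by
  have hjk : σ.κ j = 2 := (hκ j).2 (by omega)
  have hjr : r ≠ j := by
    rintro rfl
    omega
  have hju : j ∈ unp σ (fun _ => Ty.R) 0 := by rw [KL3_mem_unp]; exact hjk
  obtain ⟨t1, t2, t3, t4, t5, t6, t7⟩ := KL3_one a hg γ σ m h j hjk (hm1 j) hm hP hst
  have hw : m j = 0 ∨ ∀ x, (fun _ => Ty.R) x ≠ Ty.R → 0 < a x j → σ.κ x = 0 + 2 :=
    Or.inr (fun x hx => absurd rfl hx)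
  have hdfc := stepJ_dfc a hg.symm γ σ (fun _ => Ty.R) 0 h j rfl hjk (m j) hw t1.ne' r rfl hjr
  rw [KL3_tyJ] at hdfc
  have hdr : dfc a σ (fun _ => Ty.R) r ≤
      dfc a (staJ a σ (fun _ => Ty.R) j (m j)) (fun _ => Ty.R) r := by
    rw [hdfc]
    have h1 := KL3_hJ_nonneg a γ σ h j hjk (m j) r
    have h2 := h.dnn j rfl
    have h3 : 0 ≤ hJ a σ (fun _ => Ty.R) j (m j) r / tauJ a σ (fun _ => Ty.R) j (m j) *
        dfc a σ (fun _ => Ty.R) j := mul_nonneg (div_nonneg h1 t1.le) h2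
    linarith
  have htau : 1 ≤ tauJ a σ (fun _ => Ty.R) j (m j) := by
    rw [t4]
    have h1 : (1 : ℚ) ≤ (PJ a σ j (m j) j : ℚ) := by
      rw [KL3_PJ a σ m hP j hjk j (Or.inl rfl)]
      obtain ⟨l, hl1, hl2⟩ := hn j hjr.symm
      have hlu : l ∈ (unp σ (fun _ => Ty.R) 0).erase j := by
        rw [Finset.mem_erase, KL3_mem_unp, hκ l]
        refine ⟨?_, by omega⟩
        rintro rfl
        omega
      have h2 : (a j l : ℤ) * (m l : ℤ) ≤
          ∑ l ∈ (unp σ (fun _ => Ty.R) 0).erase j, (a j l : ℤ) * (m l : ℤ) :=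
        Finset.single_le_sum (f := fun l => (a j l : ℤ) * (m l : ℤ))
          (fun l _ => by positivity) hlu
      have h3 : (1 : ℤ) ≤ (a j l : ℤ) * (m l : ℤ) := by
        have h4 : 1 ≤ a j l * m l := Nat.mul_pos hl1 (hm1 l)
        exact_mod_cast h4
      exact_mod_cast h3.trans h2
    have h2 : 0 ≤ ∑ l ∈ Finset.univ.filter (fun l : I => l ≠ j),
        σ.H j l * (PJ a σ j (m j) l : ℚ) := by
      apply Finset.sum_nonneg
      intro l _
      apply mul_nonneg (h.Hnn j l rfl rfl)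
      exact_mod_cast KL3_PJ_nonneg a γ σ m h hP j hjk l
    have h3 := h.dnn j rfl
    linarith
  have hV := pos_Ph1' a hg 0 _ _ _ t2
  have hih := ih (γ - Finsupp.single j (m j)) (staJ a σ (fun _ => Ty.R) j (m j)) t2 (by
      intro i
      show kapJ σ j i = 2 ↔ _
      unfold kapJ
      by_cases hij : i = j
      · subst hij
        rw [Function.update_self, hjk]
        constructor
        · intro h0; omega
        · intro h0; omega
      · rw [Function.update_of_ne hij, hκ i]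
        have hne : ord i ≠ t + 1 := by
          intro h0
          exact hij (hord (h0.trans hj.symm))
        omega)
    (by
      intro l hl
      rw [t5, Finset.mem_erase] at hl
      have h1 := hm l hl.2
      rw [Finsupp.tsub_apply, Finsupp.single_apply, if_neg (fun h0 => hl.1 h0.symm)]
      omega)
    t6 (by rw [t7]; exact hG)
  rw [t5] at hih
  have hprod : ∏ i ∈ (unp σ (fun _ => Ty.R) 0).erase j,
      wt ((staJ a σ (fun _ => Ty.R) j (m j)).P i).toNat (m i) =
      ∏ i ∈ (unp σ (fun _ => Ty.R) 0).erase j, wt (σ.P i).toNat (m i) := by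
    apply Finset.prod_congr rfl
    intro i hi
    rw [Finset.mem_erase, KL3_mem_unp] at hi
    have h1 : (staJ a σ (fun _ => Ty.R) j (m j)).P i = σ.P i := by
      show PJ a σ j (m j) i = _
      unfold PJ
      rw [if_neg hi.1, if_neg (by omega)]
    rw [h1]
  rw [hprod] at hih
  rw [← Finset.mul_prod_erase _ _ hju]
  set Q := ∏ i ∈ (unp σ (fun _ => Ty.R) 0).erase j, wt (σ.P i).toNat (m i) with hQ
  have hQ0 : 0 ≤ Q := Finset.prod_nonneg (fun i _ => KL3_wtnn _ _)
  have hw0 := KL3_wtnn (σ.P j).toNat (m j)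
  calc wt (σ.P j).toNat (m j) * Q * dfc a σ (fun _ => Ty.R) r
      ≤ wt (σ.P j).toNat (m j) *
        (Q * dfc a (staJ a σ (fun _ => Ty.R) j (m j)) (fun _ => Ty.R) r) := by
        rw [mul_assoc]
        exact mul_le_mul_of_nonneg_left (mul_le_mul_of_nonneg_left hdr hQ0) hw0
    _ ≤ wt (σ.P j).toNat (m j) *
        Val a (γ - Finsupp.single j (m j)) (staJ a σ (fun _ => Ty.R) j (m j)) :=
        mul_le_mul_of_nonneg_left hih hw0
    _ ≤ wt (σ.P j).toNat (m j) * (tauJ a σ (fun _ => Ty.R) j (m j) *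
        Val a (γ - Finsupp.single j (m j)) (staJ a σ (fun _ => Ty.R) j (m j))) := by
        apply mul_le_mul_of_nonneg_left _ hw0
        nlinarith
    _ ≤ Val a γ σ := t3

theorem lb_last (a : I → I → ℕ) (hg : GoodMat a) (r : I) (ord : I → ℕ)
    (hord : Function.Injective ord) (hr : ord r = 0)
    (hn : ∀ j, j ≠ r → ∃ l, 0 < a j l ∧ ord l < ord j) (m : I → ℕ) (hm1 : ∀ i, 1 ≤ m i) (t : ℕ) :
    ∀ (γ : I →₀ ℕ) (σ : Sta I), Ph1 a γ σ (fun _ => Ty.R) 2 →
      (∀ i, (σ.κ i = 2 ↔ ord i < t + 1)) →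
      (∀ l ∈ unp σ (fun _ => Ty.R) 0, m l ≤ γ l) →
      (∀ i, finP a σ (fun _ => Ty.R) 0 m i = 0) →
      finG γ σ (fun _ => Ty.R) 0 m = 0 →
      (∏ i ∈ unp σ (fun _ => Ty.R) 0, wt (σ.P i).toNat (m i)) * dfc a σ (fun _ => Ty.R) r ≤
        Val a γ σ := by
  induction t with
  | zero =>
    intro γ σ h hκ hm hP hG
    have hκ' : ∀ i, σ.κ i = 2 ↔ i = r := by
      intro i
      rw [hκ i]
      constructor
      · intro h0
        apply hord
        omega
      · rintro rfl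
        omega
    have hu : unp σ (fun _ => Ty.R) 0 = {r} := by
      ext l
      rw [KL3_mem_unp, hκ' l, Finset.mem_singleton]
    rw [hu, Finset.prod_singleton]
    exact KL3_base a hg γ σ m h r (hm1 r) hκ' hm hP hG
  | succ t ih =>
    intro γ σ h hκ hm hP hG
    by_cases hex : ∃ j, ord j = t + 1
    · obtain ⟨j, hj⟩ := hex
      apply Val_pert_ge a γ σ (fun _ => Ty.R) r
      intro δ h0 h1
      obtain ⟨p1, p2⟩ := pert_Ph1 a γ σ (fun _ => Ty.R) 2 h δ h0 h1
      exact KL3_strict a hg r ord hord hr hn m hm1 t ih γ (pert σ (fun _ => Ty.R) δ) p1 hκ hm hP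
        hG j hj (p2 j rfl)
    · push Not at hex
      refine ih γ σ h (fun i => ?_) hm hP hG
      rw [hκ i]
      have := hex i
      omega

theorem KL3_ord_aux (a : I → I → ℕ) (hs : ∀ i j, a i j = a j i) (hc : Conn a) (r : I) (n : ℕ) :
    n + 1 ≤ Fintype.card I → ∃ (S : Finset I) (ord : I → ℕ), r ∈ S ∧ S.card = n + 1 ∧
      (∀ i ∈ S, ∀ j ∈ S, ord i = ord j → i = j) ∧ ord r = 0 ∧ (∀ i ∈ S, ord i < n + 1) ∧
      ∀ j ∈ S, j ≠ r → ∃ l ∈ S, 0 < a j l ∧ ord l < ord j := by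
  induction n with
  | zero =>
    intro _
    refine ⟨{r}, fun _ => 0, by simp, by simp, ?_, rfl, by simp, ?_⟩
    · intro i hi j hj _
      rw [Finset.mem_singleton] at hi hj
      rw [hi, hj]
    · intro j hj hjr
      rw [Finset.mem_singleton] at hj
      exact absurd hj hjr
  | succ n ih =>
    intro hn
    obtain ⟨S, ord, h1, h2, h3, h4, h5, h6⟩ := ih (by omega)
    have hne : S ≠ Finset.univ := by
      intro h0
      rw [h0, Finset.card_univ] at h2
      omega
    obtain ⟨i, hi, j, hj, haij⟩ := hc S ⟨r, h1⟩ hne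
    have hSj : ∀ l ∈ S, l ≠ j := by
      rintro l hl rfl
      exact hj hl
    have hup : ∀ l ∈ S, Function.update ord j (n + 1) l = ord l :=
      fun l hl => Function.update_of_ne (hSj l hl) _ _
    have hupj : Function.update ord j (n + 1) j = n + 1 := Function.update_self _ _ _
    refine ⟨insert j S, Function.update ord j (n + 1), Finset.mem_insert_of_mem h1, ?_, ?_, ?_,
      ?_, ?_⟩
    · rw [Finset.card_insert_of_notMem hj, h2]
    · intro x hx y hy hxy
      rw [Finset.mem_insert] at hx hy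
      rcases hx with rfl | hx
      · rcases hy with rfl | hy
        · rfl
        · rw [hupj, hup y hy] at hxy
          have := h5 y hy
          omega
      · rcases hy with rfl | hy
        · rw [hupj, hup x hx] at hxy
          have := h5 x hx
          omega
        · rw [hup x hx, hup y hy] at hxy
          exact h3 x hx y hy hxy
    · rw [hup r h1, h4]
    · intro x hx
      rw [Finset.mem_insert] at hx
      rcases hx with rfl | hx
      · rw [hupj]
        omega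
      · rw [hup x hx]
        have := h5 x hx
        omega
    · intro x hx hxr
      rw [Finset.mem_insert] at hx
      rcases hx with rfl | hx
      · refine ⟨i, Finset.mem_insert_of_mem hi, ?_, ?_⟩
        · rw [hs]
          exact haij
        · rw [hupj, hup i hi]
          exact h5 i hi
      · obtain ⟨l, hl, hl2, hl3⟩ := h6 x hx hxr
        refine ⟨l, Finset.mem_insert_of_mem hl, hl2, ?_⟩
        rw [hup l hl, hup x hx]
        exact hl3

theorem exists_ord (a : I → I → ℕ) (hs : ∀ i j, a i j = a j i) (hc : Conn a) (r : I) :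
    ∃ ord : I → ℕ, Function.Injective ord ∧ ord r = 0 ∧
      ∀ j, j ≠ r → ∃ l, 0 < a j l ∧ ord l < ord j := by
  have hpos : 0 < Fintype.card I := Fintype.card_pos_iff.2 ⟨r⟩
  obtain ⟨S, ord, h1, h2, h3, h4, h5, h6⟩ :=
    KL3_ord_aux a hs hc r (Fintype.card I - 1) (by omega)
  have hS : S = Finset.univ := by
    rw [← Finset.card_eq_iff_eq_univ]
    omega
  subst hS
  refine ⟨ord, fun i j hij => h3 i (Finset.mem_univ _) j (Finset.mem_univ _) hij, h4, ?_⟩
  intro j hj
  obtain ⟨l, _, hl1, hl2⟩ := h6 j (Finset.mem_univ _) hj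
  exact ⟨l, hl1, hl2⟩

end Pool.Agent.H27.KAC
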