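import Pool.Agent.H27.KAC.KL1

/-!
KAC module KL4: the walls in the lower bound (phase 2).

* `lb_wallsD` (upper levels): all walls are of type D; each wall at level `k+2` goes down as a D-wall
  (`st_D`: `Val σ = Val (staD σ x) + 2 ∑ ...`, the other terms are `≥ 0` by `ph2_em` and `pos_Ph2`, `pos_Fr`), induction on
  the number of walls at level `k+2`; `dfc_r` does not change (same regular block and exponents).  When no wall is
  left at level `k+2` the state is fresh at level `k+1` (`Fr_of_Ph2`).
* `lb_wallsE` (the level where all walls become regular): all walls are at level `k+2`; induction on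
  `∑_{walls} (p_x.toNat + 1)`.  For a wall `x`: type A with `p_x ≥ 2`: `st_reduce`, `m x ↦ m x - 1`, `p_x ↦ p_x - 2`;
  `p_x = e ∈ {0,1}` (type A) or type D: keep the term with `m x` factors `η` in `st_even`, `st_odd`, `st_D` (weight `2 ≥ 1`,
  all the other terms `≥ 0`), `m x ≥ 1` because `2 m x - p_x ≥ 1`.  The new state is in phase 2 by `ph2_em`/`KP8` (if
  its value is 0 ... use: the final `Ph ≥ 1`, hence the new `Ph ≥ 0`; or: if the value is zero the bound follows
  from `dfc`?? no: so show `Ph2` directly as in KP8: the alternative `Val = 0` occurs there only if some `Ph' < 0`;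
  reprove or refine that lemma as `ph2_em'` below).  `dfc_r` does not change (KP8 header).
-/

namespace Pool.Agent.H27.KAC

open scoped BigOperators
open MvPowerSeries

variable {I : Type} [Fintype I] [DecidableEq I]

/-- the walls of the new types -/
theorem KL4_walls (ty : I → Ty) (x : I) :
    Finset.univ.filter (fun y => Function.update ty x Ty.R y ≠ Ty.R) =
      (Finset.univ.filter (fun y => ty y ≠ Ty.R)).erase x := by
  ext y
  rw [Finset.mem_erase, Finset.mem_filter, Finset.mem_filter]
  by_cases hy : y = x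
  · subst hy
    simp
  · rw [Function.update_of_ne hy]
    simp [hy]

theorem KL4_regs (ty : I → Ty) (x : I) :
    Finset.univ.filter (fun y => Function.update ty x Ty.R y = Ty.R) =
      insert x (Finset.univ.filter (fun y => ty y = Ty.R)) := by
  ext y
  rw [Finset.mem_insert, Finset.mem_filter, Finset.mem_filter]
  by_cases hy : y = x
  · subst hy
    simp
  · rw [Function.update_of_ne hy]
    simp [hy]

theorem KL4_cw_sub (a : I → I → ℕ) (γ : I →₀ ℕ) (x : I) (n : ℕ) (hn : n ≤ γ x) (i : I) :
    cw a (γ - Finsupp.single x n) i = cw a γ i - cart a i x * (n : ℤ) := by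
  unfold cw
  have h1 : ∀ j, (((γ - Finsupp.single x n) j : ℕ) : ℤ) = (γ j : ℤ) - (if j = x then (n : ℤ) else 0) := by
    intro j
    rw [Finsupp.tsub_apply]
    by_cases hj : j = x
    · subst hj
      rw [Finsupp.single_eq_same, if_pos rfl, Nat.cast_sub hn]
    · rw [Finsupp.single_eq_of_ne hj, if_neg hj]
      simp
  simp_rw [h1, mul_sub, Finset.sum_sub_distrib]
  congr 1
  simp

/-- hatted exponents of the regular vertices after `staEm`. -/
theorem KL4_em_Ph (a : I → I → ℕ) (γ : I →₀ ℕ) (σ : Sta I)
    (ty : I → Ty) (k : ℕ) (h : Ph2 a γ σ ty (k + 2)) (x : I) (hx : ty x ≠ Ty.R)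
    (hxk : σ.κ x = k + 2) (e : ℕ) (hp : σ.p x = e) (m : ℕ) (l : I) (hl : l ≠ x) :
    PhS a (staEm a σ x m e) (Function.update ty x Ty.R) l =
      PhS a σ ty l - (a x l : ℚ) * ((m : ℚ) - (e : ℚ) / 2) := by
  show Ph a (staEm a σ x m e).κ (staEm a σ x m e).P (staEm a σ x m e).p (Function.update ty x Ty.R) l =
    Ph a σ.κ σ.P σ.p ty l - (a x l : ℚ) * ((m : ℚ) - (e : ℚ) / 2)
  unfold Ph
  rw [KL4_walls]
  have hxW : x ∈ Finset.univ.filter (fun y => ty y ≠ Ty.R) := Finset.mem_filter.2 ⟨Finset.mem_univ _, hx⟩
  rw [← Finset.add_sum_erase _ _ hxW]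
  have h1 : ∑ y ∈ (Finset.univ.filter (fun y => ty y ≠ Ty.R)).erase x,
      (a y l : ℚ) * ((staEm a σ x m e).p y : ℚ) * (((staEm a σ x m e).κ l : ℚ) - ((staEm a σ x m e).κ y : ℚ)) =
      ∑ y ∈ (Finset.univ.filter (fun y => ty y ≠ Ty.R)).erase x,
      (a y l : ℚ) * (σ.p y : ℚ) * ((σ.κ l : ℚ) - (σ.κ y : ℚ)) := by
    refine Finset.sum_congr rfl fun y hy => ?_
    have hyx : y ≠ x := (Finset.mem_erase.1 hy).1
    show (a y l : ℚ) * ((Function.update σ.p x 0 y : ℤ) : ℚ) *
      (((Function.update σ.κ x (σ.κ x - 1) l : ℕ) : ℚ) - ((Function.update σ.κ x (σ.κ x - 1) y : ℕ) : ℚ)) = _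
    rw [Function.update_of_ne hyx, Function.update_of_ne hyx, Function.update_of_ne hl]
  rw [h1]
  have h2 : ((staEm a σ x m e).P l : ℚ) = (σ.P l : ℚ) - (a x l : ℚ) * (m : ℚ) := by
    show (((if l = x then 2 * (m : ℤ) - e else σ.P l - (a x l : ℤ) * m) : ℤ) : ℚ) = _
    rw [if_neg hl]
    push_cast
    ring
  rw [h2]
  have h3 : (a x l : ℚ) * (σ.p x : ℚ) * ((σ.κ l : ℚ) - (σ.κ x : ℚ)) = - ((a x l : ℚ) * (e : ℚ)) := by
    rcases Nat.eq_zero_or_pos (a x l) with h0 | h0
    · rw [h0]
      simp
    · rw [hp, hxk, (ph2_nbr a γ σ ty k h x hx l h0).2]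
      push_cast
      ring
  rw [h3]
  ring

theorem KL4_em_ph (a : I → I → ℕ) (γ : I →₀ ℕ) (σ : Sta I)
    (ty : I → Ty) (k : ℕ) (h : Ph2 a γ σ ty (k + 2)) (x : I) (hx : ty x ≠ Ty.R)
    (hxk : σ.κ x = k + 2) (e : ℕ) (m : ℕ) (l : I) (hl : l ≠ x) :
    phS a (staEm a σ x m e) (Function.update ty x Ty.R) l = phS a σ ty l := by
  show ph a (staEm a σ x m e).κ (staEm a σ x m e).P (staEm a σ x m e).p (Function.update ty x Ty.R) l =
    ph a σ.κ σ.P σ.p ty l
  unfold ph
  rw [KL4_walls]
  have hxW : x ∈ Finset.univ.filter (fun y => ty y ≠ Ty.R) := Finset.mem_filter.2 ⟨Finset.mem_univ _, hx⟩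
  rw [← Finset.add_sum_erase (Finset.univ.filter (fun y => ty y ≠ Ty.R)) _ hxW]
  have h1 : ∑ y ∈ (Finset.univ.filter (fun y => ty y ≠ Ty.R)).erase x,
      (a y l : ℚ) * ((staEm a σ x m e).p y : ℚ) *
        (((staEm a σ x m e).κ l : ℚ) - ((staEm a σ x m e).κ y : ℚ) + 1) =
      ∑ y ∈ (Finset.univ.filter (fun y => ty y ≠ Ty.R)).erase x,
      (a y l : ℚ) * (σ.p y : ℚ) * ((σ.κ l : ℚ) - (σ.κ y : ℚ) + 1) := by
    refine Finset.sum_congr rfl fun y hy => ?_
    have hyx : y ≠ x := (Finset.mem_erase.1 hy).1
    show (a y l : ℚ) * ((Function.update σ.p x 0 y : ℤ) : ℚ) *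
      (((Function.update σ.κ x (σ.κ x - 1) l : ℕ) : ℚ) - ((Function.update σ.κ x (σ.κ x - 1) y : ℕ) : ℚ) + 1) = _
    rw [Function.update_of_ne hyx, Function.update_of_ne hyx, Function.update_of_ne hl]
  rw [h1]
  have h2 : ((staEm a σ x m e).p l : ℚ) = (σ.p l : ℚ) := by
    show ((Function.update σ.p x 0 l : ℤ) : ℚ) = _
    rw [Function.update_of_ne hl]
  rw [h2]
  have h3 : (a x l : ℚ) * (σ.p x : ℚ) * ((σ.κ l : ℚ) - (σ.κ x : ℚ) + 1) = 0 := by
    rcases Nat.eq_zero_or_pos (a x l) with h0 | h0
    · rw [h0]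
      simp
    · rw [hxk, (ph2_nbr a γ σ ty k h x hx l h0).2]
      push_cast
      ring
  rw [h3, zero_add]

/-- no wall is adjacent to the wall `x`. -/
theorem KL4_nonadj {a : I → I → ℕ} {γ : I →₀ ℕ} {σ : Sta I} {ty : I → Ty} (h : Base a γ σ ty)
    {x y : I} (hx : ty x ≠ Ty.R) (hy : ty y ≠ Ty.R) : a y x = 0 := by
  by_cases hxy : y = x
  · subst hxy
    exact h.shape.loopfree y hy
  · exact h.shape.nonadj y x hy hx hxy

theorem KL4_em_self (a : I → I → ℕ) (γ : I →₀ ℕ) (σ : Sta I)
    (ty : I → Ty) (k : ℕ) (h : Ph2 a γ σ ty (k + 2)) (x : I) (hx : ty x ≠ Ty.R) (e : ℕ) (m : ℕ) :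
    PhS a (staEm a σ x m e) (Function.update ty x Ty.R) x = 2 * (m : ℚ) - e ∧
    phS a (staEm a σ x m e) (Function.update ty x Ty.R) x = 0 := by
  have hz : ∀ g : I → ℚ, ∑ y ∈ Finset.univ.filter (fun y => Function.update ty x Ty.R y ≠ Ty.R),
      (a y x : ℚ) * ((staEm a σ x m e).p y : ℚ) * g y = 0 := by
    intro g
    rw [KL4_walls]
    refine Finset.sum_eq_zero fun y hy => ?_
    rw [Finset.mem_erase, Finset.mem_filter] at hy
    rw [KL4_nonadj h.toBase hx hy.2.2]
    simp
  constructor
  · show Ph a (staEm a σ x m e).κ (staEm a σ x m e).P (staEm a σ x m e).p (Function.update ty x Ty.R) x = _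
    unfold Ph
    rw [hz]
    show (((if x = x then 2 * (m : ℤ) - e else σ.P x - (a x x : ℤ) * m) : ℤ) : ℚ) + 0 / 2 = _
    rw [if_pos rfl]
    push_cast
    ring
  · show ph a (staEm a σ x m e).κ (staEm a σ x m e).P (staEm a σ x m e).p (Function.update ty x Ty.R) x = _
    unfold ph
    rw [hz]
    show ((Function.update σ.p x 0 x : ℤ) : ℚ) + 0 / 2 = 0
    rw [Function.update_self]
    simp

theorem KL4_em_H (a : I → I → ℕ) (σ : Sta I) (x : I) (m e : ℕ) (l i : I) :
    (staEm a σ x m e).H l i = if l = x then 0 else if i = x then (∑ l', (a x l' : ℚ) * σ.H l l') / 2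
      else σ.H l i := rfl

/-- the new state is in phase 2 if the new exponents are nonnegative, and the defects do not change. -/
theorem ph2_em' (a : I → I → ℕ) (hg : GoodMat a) (γ : I →₀ ℕ) (σ : Sta I)
    (ty : I → Ty) (k : ℕ) (h : Ph2 a γ σ ty (k + 2)) (x : I) (hx : ty x ≠ Ty.R)
    (hxk : σ.κ x = k + 2) (e : ℕ) (he : e ≤ 1) (hp : σ.p x = e) (m : ℕ) (hm : 1 ≤ m)
    (hγ : (k + 1) * m ≤ γ x)
    (hP : ∀ l, ty l = Ty.R →
      0 ≤ PhS a (staEm a σ x m e) (Function.update ty x Ty.R) l) :
    Ph2 a (γ - Finsupp.single x ((k + 1) * m)) (staEm a σ x m e)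
        (Function.update ty x Ty.R) (k + 2) ∧
      ∀ l, ty l = Ty.R →
        dfc a (staEm a σ x m e) (Function.update ty x Ty.R) l = dfc a σ ty l := by
  have hs := hg.symm
  have hnx : ∀ l, ty l = Ty.R → l ≠ x := by
    rintro l hl rfl
    exact hx hl
  have hloop : a x x = 0 := h.shape.loopfree x hx
  have hnb : ∀ l, 0 < a x l → ty l = Ty.R ∧ σ.κ l = k + 1 := fun l hl => ph2_nbr a γ σ ty k h x hx l hl
  have hnb' : ∀ l, 0 < a l x → ty l = Ty.R ∧ σ.κ l = k + 1 := fun l hl => hnb l (by rw [hs x l]; exact hl)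
  have hPl := KL4_em_Ph a γ σ ty k h x hx hxk e hp m
  have hpl := KL4_em_ph a γ σ ty k h x hx hxk e m
  obtain ⟨hPx, hpx⟩ := KL4_em_self a γ σ ty k h x hx e m
  have hκ : (staEm a σ x m e).κ = Function.update σ.κ x (k + 1) := by
    show Function.update σ.κ x (σ.κ x - 1) = _
    rw [hxk]
    rfl
  have hκx : (staEm a σ x m e).κ x = k + 1 := by rw [hκ, Function.update_self]
  have hκl : ∀ l, l ≠ x → (staEm a σ x m e).κ l = σ.κ l := fun l hl => by
    rw [hκ, Function.update_of_ne hl]
  have hpp : ∀ l, l ≠ x → (staEm a σ x m e).p l = σ.p l := fun l hl => by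
    show Function.update σ.p x 0 l = _
    rw [Function.update_of_ne hl]
  have hppx : (staEm a σ x m e).p x = 0 := by
    show Function.update σ.p x 0 x = _
    rw [Function.update_self]
  have hPP : ∀ l, l ≠ x → (staEm a σ x m e).P l = σ.P l - (a x l : ℤ) * m := fun l hl => by
    show (if l = x then 2 * (m : ℤ) - e else σ.P l - (a x l : ℤ) * m) = _
    rw [if_neg hl]
  have hPPx : (staEm a σ x m e).P x = 2 * (m : ℤ) - e := by
    show (if x = x then 2 * (m : ℤ) - e else σ.P x - (a x x : ℤ) * m) = _
    rw [if_pos rfl]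
  have hty : ∀ y, Function.update ty x Ty.R y ≠ Ty.R → y ≠ x ∧ ty y ≠ Ty.R := by
    intro y hy
    by_cases hyx : y = x
    · subst hyx
      rw [Function.update_self] at hy
      exact absurd rfl hy
    · rw [Function.update_of_ne hyx] at hy
      exact ⟨hyx, hy⟩
  have htyR : ∀ y, Function.update ty x Ty.R y = Ty.R → y = x ∨ (y ≠ x ∧ ty y = Ty.R) := by
    intro y hy
    by_cases hyx : y = x
    · exact Or.inl hyx
    · rw [Function.update_of_ne hyx] at hy
      exact Or.inr ⟨hyx, hy⟩
  have hmq : (1 : ℚ) ≤ (m : ℚ) := by exact_mod_cast hm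
  have heq : (e : ℚ) ≤ 1 := by exact_mod_cast he
  -- the defects
  have hd : ∀ l, ty l = Ty.R →
      dfc a (staEm a σ x m e) (Function.update ty x Ty.R) l = dfc a σ ty l := by
    intro l hl
    have hlx := hnx l hl
    unfold dfc
    rw [hpl l hlx, KL4_regs]
    have hxn : x ∉ Finset.univ.filter (fun y => ty y = Ty.R) := by
      simp [hx]
    rw [Finset.sum_insert hxn, hPx]
    congr 1
    have h1 : ∑ i ∈ Finset.univ.filter (fun i => ty i = Ty.R),
        (staEm a σ x m e).H l i * PhS a (staEm a σ x m e) (Function.update ty x Ty.R) i =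
        ∑ i ∈ Finset.univ.filter (fun i => ty i = Ty.R), σ.H l i * PhS a σ ty i -
          ((m : ℚ) - (e : ℚ) / 2) * ∑ i ∈ Finset.univ.filter (fun i => ty i = Ty.R),
            (a x i : ℚ) * σ.H l i := by
      rw [Finset.mul_sum, ← Finset.sum_sub_distrib]
      refine Finset.sum_congr rfl fun i hi => ?_
      have hix := hnx i (Finset.mem_filter.1 hi).2
      rw [hPl i hix, KL4_em_H, if_neg hlx, if_neg hix]
      ring
    have h2 : ∑ i ∈ Finset.univ.filter (fun i => ty i = Ty.R), (a x i : ℚ) * σ.H l i =
        ∑ l', (a x l' : ℚ) * σ.H l l' := by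
      refine Finset.sum_subset (Finset.filter_subset _ _) fun y _ hy => ?_
      rcases Nat.eq_zero_or_pos (a x y) with h0 | h0
      · rw [h0]
        simp
      · exact absurd (by simpa using (hnb y h0).1 : y ∈ Finset.univ.filter (fun i => ty i = Ty.R)) hy
    rw [h1, h2, KL4_em_H, if_neg hlx, if_pos rfl]
    ring
  refine ⟨?_, hd⟩
  -- exponents of an old regular vertex with `ph = 0`
  have halt : ∀ l, ty l = Ty.R → phS a σ ty l = 0 → a x l = 0 := by
    intro l hl h0
    rcases h.alt l hl with h1 | h1
    · rw [h0] at h1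
      exact absurd h1 (lt_irrefl _)
    · exact h1.2.2.2.2.2 x hx
  refine ⟨⟨?_, ?_, ?_, ?_, ?_, ?_, ?_, ?_, ?_⟩, ?_, ?_⟩
  · -- shape
    refine ⟨?_, ?_, ?_, ?_, ?_, ?_, ?_, ?_, ?_⟩
    · intro y hy
      exact h.shape.loopfree y (hty y hy).2
    · intro y hy
      obtain ⟨hyx, hyR⟩ := hty y hy
      rw [hPP y hyx, h.shape.P0 y hyR, KL4_nonadj h.toBase hyR hx]
      simp
    · intro y hy
      obtain ⟨hyx, hyR⟩ := hty y hy
      rw [hpp y hyx]
      exact h.shape.p0 y hyR
    · intro y hy
      have hyR : Function.update ty x Ty.R y ≠ Ty.R := by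
        rw [hy]
        decide
      obtain ⟨hyx, hyR'⟩ := hty y hyR
      rw [Function.update_of_ne hyx] at hy
      rw [hpp y hyx]
      exact h.shape.pD y hy
    · intro y hy i hiy
      obtain ⟨hyx, hyR⟩ := hty y hy
      rw [KL4_em_H, if_neg hyx]
      split_ifs with hix
      · have : ∑ l', (a x l' : ℚ) * σ.H y l' = 0 := by
          refine Finset.sum_eq_zero fun l' _ => ?_
          by_cases hl' : l' = y
          · subst hl'
            rw [KL4_nonadj h.toBase hyR hx]
            simp
          · rw [h.shape.row y hyR l' hl', mul_zero]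
        rw [this]
        simp
      · exact h.shape.row y hyR i hiy
    · intro y hy l hly
      obtain ⟨hyx, hyR⟩ := hty y hy
      rw [KL4_em_H]
      split_ifs with hlx
      · rfl
      · exact h.shape.col y hyR l hly
    · intro y hy
      have hyR : Function.update ty x Ty.R y ≠ Ty.R := by
        rw [hy]
        decide
      obtain ⟨hyx, hyR'⟩ := hty y hyR
      rw [Function.update_of_ne hyx] at hy
      rw [KL4_em_H, if_neg hyx, if_neg hyx]
      exact h.shape.diagA y hy
    · intro y hy
      have hyR : Function.update ty x Ty.R y ≠ Ty.R := by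
        rw [hy]
        decide
      obtain ⟨hyx, hyR'⟩ := hty y hyR
      rw [Function.update_of_ne hyx] at hy
      rw [KL4_em_H, if_neg hyx, if_neg hyx]
      exact h.shape.diagD y hy
    · intro y z hy hz hyz
      exact h.shape.nonadj y z (hty y hy).2 (hty z hz).2 hyz
  · -- k1
    intro i
    by_cases hix : i = x
    · subst hix
      rw [hκx]
      omega
    · rw [hκl i hix]
      exact h.k1 i
  · -- cons
    intro i
    show cw a (γ - Finsupp.single x ((k + 1) * m)) i =
      (((staEm a σ x m e).κ i : ℤ) - 1) * (staEm a σ x m e).p i -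
        ((staEm a σ x m e).κ i : ℤ) * (staEm a σ x m e).P i
    rw [KL4_cw_sub a γ x _ hγ i]
    have hc : cw a γ i = ((σ.κ i : ℤ) - 1) * σ.p i - (σ.κ i : ℤ) * σ.P i := h.cons i
    rw [hc]
    by_cases hix : i = x
    · subst hix
      rw [hκx, hppx, hPPx, hxk, hp, h.shape.P0 i hx]
      unfold cart
      rw [if_pos rfl, hloop]
      push_cast
      ring
    · rw [hκl i hix, hpp i hix, hPP i hix]
      unfold cart
      rw [if_neg hix, hs i x]
      rcases Nat.eq_zero_or_pos (a x i) with h0 | h0
      · rw [h0]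
        push_cast
        ring
      · rw [(hnb i h0).2]
        push_cast
        ring
  · -- lev
    intro i j hij
    by_cases hix : i = x
    · subst hix
      rw [hκx]
      by_cases hjx : j = i
      · subst hjx
        omega
      · rw [hκl j hjx, (hnb j hij).2]
        omega
    · rw [hκl i hix]
      by_cases hjx : j = x
      · subst hjx
        rw [hκx, (hnb' i hij).2]
        omega
      · rw [hκl j hjx]
        exact h.lev i j hij
  · -- Hnn
    intro l i hl hi
    rw [KL4_em_H]
    split_ifs with hlx hix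
    · exact le_rfl
    · have hl' : ty l = Ty.R := by
        rw [Function.update_of_ne hlx] at hl
        exact hl
      refine div_nonneg (Finset.sum_nonneg fun l' _ => ?_) (by norm_num)
      rcases Nat.eq_zero_or_pos (a x l') with h0 | h0
      · rw [h0]
        simp
      · exact mul_nonneg (Nat.cast_nonneg _) (h.Hnn l l' hl' (hnb l' h0).1)
    · rw [Function.update_of_ne hlx] at hl
      rw [Function.update_of_ne hix] at hi
      exact h.Hnn l i hl hi
  · -- dnn
    intro l hl
    rcases htyR l hl with rfl | ⟨hlx, hlR⟩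
    · unfold dfc
      rw [hpx]
      have : ∑ i ∈ Finset.univ.filter (fun i => Function.update ty l Ty.R i = Ty.R),
          (staEm a σ l m e).H l i * PhS a (staEm a σ l m e) (Function.update ty l Ty.R) i = 0 := by
        refine Finset.sum_eq_zero fun i _ => ?_
        rw [KL4_em_H, if_pos rfl, zero_mul]
      rw [this]
      norm_num
    · rw [hd l hlR]
      exact h.dnn l hlR
  · -- Pnn
    intro l hl
    rcases htyR l hl with rfl | ⟨_, hlR⟩
    · rw [hPx]
      linarith
    · exact hP l hlR
  · -- alt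
    intro l hl
    rcases htyR l hl with rfl | ⟨hlx, hlR⟩
    · right
      refine ⟨hpx, hppx, ?_, hloop, fun i => ?_, fun y hy => ?_⟩
      · rw [hPx]
        linarith
      · rw [KL4_em_H, if_pos rfl]
      · exact KL4_nonadj h.toBase hx (hty y hy).2
    · rcases h.alt l hlR with h1 | ⟨h1, h2, h3, h4, h5, h6⟩
      · left
        rw [hpl l hlx]
        exact h1
      · right
        have hax : a x l = 0 := h6 x hx
        refine ⟨?_, ?_, ?_, h4, fun i => ?_, fun y hy => h6 y (hty y hy).2⟩
        · rw [hpl l hlx]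
          exact h1
        · rw [hpp l hlx]
          exact h2
        · rw [hPl l hlx, hax]
          simpa using h3
        · rw [KL4_em_H, if_neg hlx]
          split_ifs
          · have : ∑ l', (a x l' : ℚ) * σ.H l l' = 0 :=
              Finset.sum_eq_zero fun l' _ => by rw [h5 l', mul_zero]
            rw [this]
            simp
          · exact h5 i
  · -- alt2
    intro l l' hl hl' hll h0 h0'
    rcases htyR l hl with rfl | ⟨hlx, hlR⟩
    · rcases htyR l' hl' with rfl | ⟨hlx', hlR'⟩
      · exact absurd rfl hll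
      · rw [hpl l' hlx'] at h0'
        exact halt l' hlR' h0'
    · rcases htyR l' hl' with rfl | ⟨hlx', hlR'⟩
      · rw [hpl l hlx] at h0
        rw [hs]
        exact halt l hlR h0
      · rw [hpl l hlx] at h0
        rw [hpl l' hlx'] at h0'
        exact h.alt2 l l' hlR hlR' hll h0 h0'
  · -- reg
    intro l hl
    rcases htyR l hl with rfl | ⟨hlx, hlR⟩
    · rw [hκx]
    · rw [hκl l hlx]
      exact h.reg l hlR
  · -- wall
    intro y hy
    obtain ⟨hyx, hyR⟩ := hty y hy
    rw [hκl y hyx]
    rcases h.wall y hyR with h1 | h1 | h1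
    · exact Or.inl h1
    · exact Or.inr (Or.inl h1)
    · refine Or.inr (Or.inr ⟨?_, ?_, ?_⟩)
      · rw [hκl y hyx]
        exact h1.1
      · rw [Function.update_of_ne hyx]
        exact h1.2.1
      · rw [hpp y hyx]
        exact h1.2.2

theorem KL4_pos (a : I → I → ℕ) (hg : GoodMat a) (k : ℕ) (γ : I →₀ ℕ) (σ : Sta I) (ty : I → Ty)
    (h : Ph2 a γ σ ty (k + 2)) : 0 ≤ Val a γ σ :=
  pos_Ph2 a hg k (fun γ σ ty h => pos_Fr a hg (k + 1) (by omega) γ σ ty h) γ σ ty h

theorem KL4_em_nonneg (a : I → I → ℕ) (hg : GoodMat a) (γ : I →₀ ℕ) (σ : Sta I)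
    (ty : I → Ty) (k : ℕ) (h : Ph2 a γ σ ty (k + 2)) (x : I) (hx : ty x ≠ Ty.R)
    (hxk : σ.κ x = k + 2) (e : ℕ) (he : e ≤ 1) (hp : σ.p x = e) (m : ℕ) (hm : 1 ≤ m) :
    0 ≤ VSub a γ x ((k + 1) * m) (staEm a σ x m e) := by
  unfold VSub
  split_ifs with hγ
  · rcases ph2_em a hg γ σ ty k h x hx hxk e he hp m hm hγ with h1 | h1
    · rw [h1]
    · exact KL4_pos a hg k _ _ _ h1
  · exact le_rfl

theorem KL4_dfc_D (a : I → I → ℕ) (σ : Sta I) (ty : I → Ty) (hS : Shape a σ ty)
    (hD : ∀ x, ty x ≠ Ty.R → ty x = Ty.D) (l : I) :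
    dfc a σ ty l = (σ.p l : ℚ) -
      ∑ i ∈ Finset.univ.filter (fun i => ty i = Ty.R), σ.H l i * (σ.P i : ℚ) := by
  have h1 : ∀ (g : I → ℚ) (i : I), ∑ x ∈ Finset.univ.filter (fun x => ty x ≠ Ty.R),
      (a x i : ℚ) * (σ.p x : ℚ) * g x = 0 := by
    intro g i
    refine Finset.sum_eq_zero fun x hx => ?_
    rw [hS.pD x (hD x (Finset.mem_filter.1 hx).2)]
    simp
  have h2 : ∀ i, PhS a σ ty i = (σ.P i : ℚ) := by
    intro i
    show Ph a σ.κ σ.P σ.p ty i = _
    unfold Ph
    rw [h1]
    simp
  have h3 : phS a σ ty l = (σ.p l : ℚ) := by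
    show ph a σ.κ σ.P σ.p ty l = _
    unfold ph
    rw [h1]
    simp
  unfold dfc
  rw [h3]
  simp_rw [h2]

theorem lb_wallsD (a : I → I → ℕ) (hg : GoodMat a) (k : ℕ) (r : I) (c : ℚ) (γ : I →₀ ℕ)
    (ty : I → Ty) (hr : ty r = Ty.R) (hD : ∀ x, ty x ≠ Ty.R → ty x = Ty.D) (P p : I → ℤ)
    (IH : ∀ σ' : Sta I, Fr a γ σ' ty (k + 1) → (∀ i, σ'.κ i = k + 1) → σ'.P = P → σ'.p = p →
      c * dfc a σ' ty r ≤ Val a γ σ')
    (σ : Sta I) (h : Ph2 a γ σ ty (k + 2))
    (hκ : ∀ x, ty x ≠ Ty.R → σ.κ x = k + 2 ∨ σ.κ x = k + 1) (h1 : σ.P = P) (h2 : σ.p = p) :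
    c * dfc a σ ty r ≤ Val a γ σ := by
  have key : ∀ n : ℕ, ∀ σ : Sta I, (Finset.univ.filter (fun x => ty x ≠ Ty.R ∧ σ.κ x = k + 2)).card = n →
      Ph2 a γ σ ty (k + 2) → (∀ x, ty x ≠ Ty.R → σ.κ x = k + 2 ∨ σ.κ x = k + 1) → σ.P = P → σ.p = p →
      c * dfc a σ ty r ≤ Val a γ σ := by
    intro n
    induction n with
    | zero =>
      intro σ hn h hκ h1 h2
      rw [Finset.card_eq_zero] at hn
      have hno : ∀ x, ty x ≠ Ty.R → σ.κ x ≠ k + 2 := by
        intro x hx hxk
        have : x ∈ Finset.univ.filter (fun x => ty x ≠ Ty.R ∧ σ.κ x = k + 2) :=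
          Finset.mem_filter.2 ⟨Finset.mem_univ _, hx, hxk⟩
        rw [hn] at this
        exact absurd this (Finset.notMem_empty x)
      refine IH σ (Fr_of_Ph2 a γ σ ty k h hno) (fun i => ?_) h1 h2
      by_cases hi : ty i = Ty.R
      · have := h.reg i hi
        omega
      · exact (hκ i hi).resolve_left (hno i hi)
    | succ n ih =>
      intro σ hn h hκ h1 h2
      have hne : (Finset.univ.filter (fun x => ty x ≠ Ty.R ∧ σ.κ x = k + 2)).Nonempty := by
        rw [← Finset.card_pos]
        omega
      obtain ⟨x, hxm⟩ := hne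
      have hxm' := Finset.mem_filter.1 hxm
      obtain ⟨_, hx, hxk⟩ := hxm'
      have hxD := hD x hx
      have hp0 : σ.p x = 0 := h.shape.pD x hxD
      have hst := st_D a hg.symm γ σ ty h.shape x hxD k hxk
        (fun l hl => (ph2_nbr a γ σ ty k h x hx l hl).2)
      have hrest : 0 ≤ ∑ m ∈ Finset.Icc 1 (γ x / (k + 1)),
          2 * VSub a γ x ((k + 1) * m) (staEm a σ x m 0) := by
        refine Finset.sum_nonneg fun m hm => ?_
        have := KL4_em_nonneg a hg γ σ ty k h x hx hxk 0 (by omega) (by rw [hp0]; rfl) m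
          (Finset.mem_Icc.1 hm).1
        linarith
      have hty : Function.update ty x Ty.D = ty := by
        rw [← hxD]
        exact Function.update_eq_self x ty
      have hPh := ph2_D a hg.symm γ σ ty k h x hx hxk hp0
      rw [hty] at hPh
      have hκ' : (staD σ x).κ = Function.update σ.κ x (k + 1) := by
        show Function.update σ.κ x (σ.κ x - 1) = _
        rw [hxk]
        rfl
      have hcard : (Finset.univ.filter (fun y => ty y ≠ Ty.R ∧ (staD σ x).κ y = k + 2)).card = n := by
        have heq : Finset.univ.filter (fun y => ty y ≠ Ty.R ∧ (staD σ x).κ y = k + 2) =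
            (Finset.univ.filter (fun y => ty y ≠ Ty.R ∧ σ.κ y = k + 2)).erase x := by
          ext y
          rw [Finset.mem_erase, Finset.mem_filter, Finset.mem_filter, hκ']
          by_cases hy : y = x
          · subst hy
            simp
          · rw [Function.update_of_ne hy]
            simp [hy]
        rw [heq, Finset.card_erase_of_mem hxm, hn]
        rfl
      have hrx : r ≠ x := by
        rintro rfl
        exact hx hr
      have hdfc : dfc a (staD σ x) ty r = dfc a σ ty r := by
        rw [KL4_dfc_D a (staD σ x) ty hPh.shape hD r, KL4_dfc_D a σ ty h.shape hD r]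
        show (σ.p r : ℚ) - _ = (σ.p r : ℚ) - _
        congr 1
        refine Finset.sum_congr rfl fun i hi => ?_
        have hix : i ≠ x := by
          rintro rfl
          exact hx (Finset.mem_filter.1 hi).2
        have hH : (staD σ x).H r i = σ.H r i := by
          show (if i = x ∧ r = x then (1 : ℚ) else if i = x ∨ r = x then 0 else σ.H r i) = _
          rw [if_neg (fun hh => hix hh.1), if_neg (fun hh => hh.elim hix hrx)]
        rw [hH]
        rfl
      have hmain := ih (staD σ x) hcard hPh (fun y hy => by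
        rw [hκ']
        by_cases hyx : y = x
        · subst hyx
          right
          rw [Function.update_self]
        · rw [Function.update_of_ne hyx]
          exact hκ y hy) h1 h2
      rw [hdfc] at hmain
      rw [hst]
      linarith
  exact key _ σ rfl h hκ h1 h2

/-- hatted exponents after the reduction of the power of a wall. -/
theorem KL4_red (a : I → I → ℕ) (γ : I →₀ ℕ) (σ : Sta I)
    (ty : I → Ty) (k : ℕ) (h : Ph2 a γ σ ty (k + 2)) (x : I) (hx : ty x ≠ Ty.R)
    (hxk : σ.κ x = k + 2) (l : I) (hl : ty l = Ty.R) :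
    PhS a (staRed a σ x) ty l = PhS a σ ty l ∧ phS a (staRed a σ x) ty l = phS a σ ty l := by
  have hlx : l ≠ x := by
    rintro rfl
    exact hx hl
  have hxW : x ∈ Finset.univ.filter (fun y => ty y ≠ Ty.R) := Finset.mem_filter.2 ⟨Finset.mem_univ _, hx⟩
  have hp : ∀ y, y ≠ x → (staRed a σ x).p y = σ.p y := fun y hy => by
    show Function.update σ.p x (σ.p x - 2) y = _
    rw [Function.update_of_ne hy]
  have hpx : (staRed a σ x).p x = σ.p x - 2 := by
    show Function.update σ.p x (σ.p x - 2) x = _
    rw [Function.update_self]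
  have hP : (staRed a σ x).P l = σ.P l - (a x l : ℤ) := rfl
  have hκ : (staRed a σ x).κ = σ.κ := rfl
  constructor
  · show Ph a (staRed a σ x).κ (staRed a σ x).P (staRed a σ x).p ty l = Ph a σ.κ σ.P σ.p ty l
    unfold Ph
    rw [← Finset.add_sum_erase _ _ hxW, ← Finset.add_sum_erase (Finset.univ.filter (fun y => ty y ≠ Ty.R)) _ hxW]
    have h1 : ∑ y ∈ (Finset.univ.filter (fun y => ty y ≠ Ty.R)).erase x,
        (a y l : ℚ) * ((staRed a σ x).p y : ℚ) * (((staRed a σ x).κ l : ℚ) - ((staRed a σ x).κ y : ℚ)) =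
        ∑ y ∈ (Finset.univ.filter (fun y => ty y ≠ Ty.R)).erase x,
        (a y l : ℚ) * (σ.p y : ℚ) * ((σ.κ l : ℚ) - (σ.κ y : ℚ)) :=
      Finset.sum_congr rfl fun y hy => by rw [hp y (Finset.mem_erase.1 hy).1, hκ]
    rw [h1, hpx, hP, hκ]
    rcases Nat.eq_zero_or_pos (a x l) with h0 | h0
    · rw [h0]
      push_cast
      ring
    · rw [hxk, (ph2_nbr a γ σ ty k h x hx l h0).2]
      push_cast
      ring
  · show ph a (staRed a σ x).κ (staRed a σ x).P (staRed a σ x).p ty l = ph a σ.κ σ.P σ.p ty l
    unfold ph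
    rw [← Finset.add_sum_erase _ _ hxW, ← Finset.add_sum_erase (Finset.univ.filter (fun y => ty y ≠ Ty.R)) _ hxW]
    have h1 : ∑ y ∈ (Finset.univ.filter (fun y => ty y ≠ Ty.R)).erase x,
        (a y l : ℚ) * ((staRed a σ x).p y : ℚ) * (((staRed a σ x).κ l : ℚ) - ((staRed a σ x).κ y : ℚ) + 1) =
        ∑ y ∈ (Finset.univ.filter (fun y => ty y ≠ Ty.R)).erase x,
        (a y l : ℚ) * (σ.p y : ℚ) * ((σ.κ l : ℚ) - (σ.κ y : ℚ) + 1) :=
      Finset.sum_congr rfl fun y hy => by rw [hp y (Finset.mem_erase.1 hy).1, hκ]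
    rw [h1, hpx, hκ, hp l hlx]
    rcases Nat.eq_zero_or_pos (a x l) with h0 | h0
    · rw [h0]
      push_cast
      ring
    · rw [hxk, (ph2_nbr a γ σ ty k h x hx l h0).2]
      push_cast
      ring

/-- one term of the expansion at a wall. -/
theorem KL4_keep (a : I → I → ℕ) (hg : GoodMat a) (γ : I →₀ ℕ) (σ : Sta I)
    (ty : I → Ty) (k : ℕ) (h : Ph2 a γ σ ty (k + 2)) (x : I) (hx : ty x ≠ Ty.R)
    (hxk : σ.κ x = k + 2) (e : ℕ) (he : e ≤ 1) (hp : σ.p x = e) (m : ℕ) (hm : 1 ≤ m)
    (hγ : (k + 1) * m ≤ γ x) :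
    2 * Val a (γ - Finsupp.single x ((k + 1) * m)) (staEm a σ x m e) ≤ Val a γ σ := by
  have hn : ∀ l, 0 < a x l → σ.κ l = k + 1 := fun l hl => (ph2_nbr a γ σ ty k h x hx l hl).2
  have hV : VSub a γ x ((k + 1) * m) (staEm a σ x m e) =
      Val a (γ - Finsupp.single x ((k + 1) * m)) (staEm a σ x m e) := by
    unfold VSub
    rw [if_pos hγ]
  have hmem : m ∈ Finset.Icc 1 (γ x / (k + 1)) := by
    rw [Finset.mem_Icc]
    refine ⟨hm, ?_⟩
    rw [Nat.le_div_iff_mul_le (by omega), mul_comm]
    exact hγ
  have hsum : 2 * VSub a γ x ((k + 1) * m) (staEm a σ x m e) ≤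
      ∑ m ∈ Finset.Icc 1 (γ x / (k + 1)), 2 * VSub a γ x ((k + 1) * m) (staEm a σ x m e) := by
    refine Finset.single_le_sum (f := fun m => 2 * VSub a γ x ((k + 1) * m) (staEm a σ x m e)) ?_ hmem
    intro m' hm'
    have := KL4_em_nonneg a hg γ σ ty k h x hx hxk e he hp m' (Finset.mem_Icc.1 hm').1
    show 0 ≤ 2 * VSub a γ x ((k + 1) * m') (staEm a σ x m' e)
    linarith
  rw [← hV]
  cases hcase : ty x with
  | R => exact absurd hcase hx
  | D =>
    have hp0 : σ.p x = 0 := h.shape.pD x hcase
    have he0 : e = 0 := by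
      rw [hp0] at hp
      exact_mod_cast hp.symm
    subst he0
    rw [st_D a hg.symm γ σ ty h.shape x hcase k hxk hn]
    have hPh := KL4_pos a hg k _ _ _ (ph2_D a hg.symm γ σ ty k h x hx hxk hp0)
    linarith
  | A =>
    rcases Nat.le_one_iff_eq_zero_or_eq_one.1 he with he0 | he1
    · subst he0
      have hp0 : σ.p x = 0 := by rw [hp]; rfl
      rw [st_even a hg.symm γ σ ty h.shape x hcase k hxk hp0 hn]
      have h1 := KL4_pos a hg k _ _ _ (ph2_D a hg.symm γ σ ty k h x hx hxk hp0)
      have h2 := KL4_pos a hg k _ _ _ (ph2_A a hg.symm γ σ ty k h x hcase hxk hp0)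
      linarith
    · subst he1
      have hp1 : σ.p x = 1 := by rw [hp]; rfl
      rw [st_odd a hg.symm γ σ ty h.shape x hcase k hxk h.k1 hp1 hn (h.cons x)]
      have h1 : 0 ≤ (if k = 0 then 0 else VSub a γ x 1 (staLag a σ x)) := by
        split_ifs with hk0
        · exact le_rfl
        · unfold VSub
          split_ifs with hγ1
          · obtain ⟨k', rfl⟩ : ∃ k', k = k' + 1 := ⟨k - 1, by omega⟩
            exact KL4_pos a hg (k' + 1) _ _ _ (ph2_lag a hg.symm γ σ ty k' h x hcase hxk hp1 hγ1)
          · exact le_rfl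
      linarith

/-- the walls, all at level `k + 2`, become regular with `m x` parts of size `k + 1` altogether. -/
theorem lb_wallsE (a : I → I → ℕ) (hg : GoodMat a) (k : ℕ) (r : I) (c : ℚ) (hc : 0 ≤ c)
    (γ0 : I →₀ ℕ) (P0 p0 : I → ℤ)
    (IH : ∀ σ' : Sta I, Fr a γ0 σ' (fun _ => Ty.R) (k + 1) → σ'.P = P0 → σ'.p = p0 →
      c * dfc a σ' (fun _ => Ty.R) r ≤ Val a γ0 σ')
    (hP0 : ∀ i, 1 ≤ P0 i) :
    ∀ (γ : I →₀ ℕ) (σ : Sta I) (ty : I → Ty) (m : I → ℕ), Ph2 a γ σ ty (k + 2) →
      (∀ x, ty x ≠ Ty.R → σ.κ x = k + 2) → ty r = Ty.R →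
      (∀ x, ty x ≠ Ty.R → σ.p x + 1 ≤ 2 * (m x : ℤ)) →
      (∀ x, ty x ≠ Ty.R → (k + 1) * m x ≤ γ x) →
      (γ0 = γ - ∑ x ∈ Finset.univ.filter (fun x => ty x ≠ Ty.R),
        Finsupp.single x ((k + 1) * m x)) →
      (∀ i, P0 i = if ty i = Ty.R then σ.P i -
          ∑ x ∈ Finset.univ.filter (fun x => ty x ≠ Ty.R), (a x i : ℤ) * (m x : ℤ)
        else 2 * (m i : ℤ) - σ.p i) →
      (∀ i, p0 i = if ty i = Ty.R then σ.p i else 0) →
      c * dfc a σ ty r ≤ Val a γ σ := by
  have key : ∀ (N : ℕ) (γ : I →₀ ℕ) (σ : Sta I) (ty : I → Ty) (m : I → ℕ),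
      ∑ x ∈ Finset.univ.filter (fun x => ty x ≠ Ty.R), ((σ.p x).toNat + 1) = N →
      Ph2 a γ σ ty (k + 2) →
      (∀ x, ty x ≠ Ty.R → σ.κ x = k + 2) → ty r = Ty.R →
      (∀ x, ty x ≠ Ty.R → σ.p x + 1 ≤ 2 * (m x : ℤ)) →
      (∀ x, ty x ≠ Ty.R → (k + 1) * m x ≤ γ x) →
      (γ0 = γ - ∑ x ∈ Finset.univ.filter (fun x => ty x ≠ Ty.R),
        Finsupp.single x ((k + 1) * m x)) →
      (∀ i, P0 i = if ty i = Ty.R then σ.P i -
          ∑ x ∈ Finset.univ.filter (fun x => ty x ≠ Ty.R), (a x i : ℤ) * (m x : ℤ)
        else 2 * (m i : ℤ) - σ.p i) →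
      (∀ i, p0 i = if ty i = Ty.R then σ.p i else 0) →
      c * dfc a σ ty r ≤ Val a γ σ := by
    intro N
    induction N using Nat.strong_induction_on with
    | _ N ih =>
    intro γ σ ty m hN h hw hr hm hγ hγ0 hP hp
    rcases Finset.eq_empty_or_nonempty (Finset.univ.filter (fun x => ty x ≠ Ty.R)) with hW | ⟨x, hxW⟩
    · have hall : ∀ i, ty i = Ty.R := by
        intro i
        by_contra hi
        have : i ∈ Finset.univ.filter (fun x => ty x ≠ Ty.R) := Finset.mem_filter.2 ⟨Finset.mem_univ _, hi⟩
        rw [hW] at this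
        exact absurd this (Finset.notMem_empty i)
      rw [hW, Finset.sum_empty, tsub_zero] at hγ0
      subst hγ0
      have htye : ty = fun _ => Ty.R := funext hall
      have h1 : σ.P = P0 := by
        funext i
        rw [hP i, if_pos (hall i), hW, Finset.sum_empty, sub_zero]
      have h2 : σ.p = p0 := by
        funext i
        rw [hp i, if_pos (hall i)]
      have hF := Fr_of_Ph2 a γ0 σ ty k h (fun x hx => absurd (hall x) hx)
      rw [htye] at hF ⊢
      exact IH σ hF h1 h2
    · have hx : ty x ≠ Ty.R := (Finset.mem_filter.1 hxW).2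
      have hxk := hw x hx
      have hp0 : 0 ≤ σ.p x := h.shape.p0 x hx
      have hmx := hm x hx
      have hγx := hγ x hx
      have hrx : r ≠ x := by
        rintro rfl
        exact hx hr
      by_cases hred : ty x = Ty.A ∧ 2 ≤ σ.p x
      · -- reduction of the power
        obtain ⟨hxA, hp2⟩ := hred
        have hm1 : 1 ≤ m x := by omega
        have hγ1 : k + 1 ≤ γ x := by
          calc k + 1 = (k + 1) * 1 := by ring
            _ ≤ (k + 1) * m x := Nat.mul_le_mul_left _ hm1
            _ ≤ γ x := hγx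
        have hst := st_reduce a hg.symm γ σ ty h.shape h.k1 x hxA k hxk hp2
          (fun l hl => (ph2_nbr a γ σ ty k h x hx l hl).2) (h.cons x)
        unfold VSub at hst
        rw [if_pos hγ1] at hst
        have hPh := ph2_red a hg.symm γ σ ty k h x hxA hxk hp2 hγ1
        have hpx' : (staRed a σ x).p x = σ.p x - 2 := by
          show Function.update σ.p x (σ.p x - 2) x = _
          rw [Function.update_self]
        have hpy' : ∀ y, y ≠ x → (staRed a σ x).p y = σ.p y := fun y hy => by
          show Function.update σ.p x (σ.p x - 2) y = _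
          rw [Function.update_of_ne hy]
        have hmx' : Function.update m x (m x - 1) x = m x - 1 := Function.update_self _ _ _
        have hmy' : ∀ y, y ≠ x → Function.update m x (m x - 1) y = m y := fun y hy =>
          Function.update_of_ne hy _ _
        have hdfc : dfc a (staRed a σ x) ty r = dfc a σ ty r := by
          unfold dfc
          rw [(KL4_red a γ σ ty k h x hx hxk r hr).2]
          congr 1
          refine Finset.sum_congr rfl fun i hi => ?_
          rw [(KL4_red a γ σ ty k h x hx hxk i (Finset.mem_filter.1 hi).2).1]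
          rfl
        have hmain := ih (∑ y ∈ Finset.univ.filter (fun y => ty y ≠ Ty.R), (((staRed a σ x).p y).toNat + 1)) (by
            rw [← hN]
            refine Finset.sum_lt_sum (fun y _ => ?_) ⟨x, hxW, ?_⟩
            · by_cases hy : y = x
              · subst hy
                rw [hpx']
                omega
              · rw [hpy' y hy]
            · rw [hpx']
              omega)
          (γ - Finsupp.single x (k + 1)) (staRed a σ x) ty (Function.update m x (m x - 1)) rfl hPh hw hr
          (fun y hy => by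
            by_cases hyx : y = x
            · subst hyx
              rw [hpx', hmx']
              omega
            · rw [hpy' y hyx, hmy' y hyx]
              exact hm y hy)
          (fun y hy => by
            rw [Finsupp.tsub_apply]
            by_cases hyx : y = x
            · subst hyx
              rw [hmx', Finsupp.single_eq_same]
              have : (k + 1) * (m y - 1) = (k + 1) * m y - (k + 1) := by
                rw [Nat.mul_sub, mul_one]
              rw [this]
              exact Nat.sub_le_sub_right hγx _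
            · rw [hmy' y hyx, Finsupp.single_eq_of_ne hyx]
              exact hγ y hy)
          (by
            rw [hγ0, ← tsub_add_eq_tsub_tsub]
            congr 1
            rw [← Finset.add_sum_erase _ _ hxW, ← Finset.add_sum_erase
              (Finset.univ.filter (fun y => ty y ≠ Ty.R)) _ hxW, ← add_assoc, hmx']
            congr 1
            · rw [← Finsupp.single_add]
              congr 1
              obtain ⟨m', hm'⟩ : ∃ m', m x = m' + 1 := ⟨m x - 1, by omega⟩
              rw [hm', Nat.add_sub_cancel]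
              ring
            · refine Finset.sum_congr rfl fun y hy => ?_
              rw [hmy' y (Finset.mem_erase.1 hy).1])
          (fun i => by
            rw [hP i]
            by_cases hi : ty i = Ty.R
            · rw [if_pos hi, if_pos hi]
              show _ = σ.P i - (a x i : ℤ) - _
              rw [← Finset.add_sum_erase _ _ hxW, ← Finset.add_sum_erase
                (Finset.univ.filter (fun y => ty y ≠ Ty.R)) _ hxW, hmx']
              have hs1 : ∑ y ∈ (Finset.univ.filter (fun y => ty y ≠ Ty.R)).erase x,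
                  (a y i : ℤ) * ((Function.update m x (m x - 1) y : ℕ) : ℤ) =
                  ∑ y ∈ (Finset.univ.filter (fun y => ty y ≠ Ty.R)).erase x, (a y i : ℤ) * (m y : ℤ) :=
                Finset.sum_congr rfl fun y hy => by rw [hmy' y (Finset.mem_erase.1 hy).1]
              rw [hs1, Nat.cast_sub hm1]
              push_cast
              ring
            · rw [if_neg hi, if_neg hi]
              by_cases hix : i = x
              · subst hix
                rw [hmx', hpx', Nat.cast_sub hm1]
                push_cast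
                ring
              · rw [hmy' i hix, hpy' i hix])
          (fun i => by
            rw [hp i]
            by_cases hi : ty i = Ty.R
            · have hix : i ≠ x := by
                rintro rfl
                exact hx hi
              rw [if_pos hi, if_pos hi, hpy' i hix]
            · rw [if_neg hi, if_neg hi])
        rw [hdfc] at hmain
        rw [hst]
        exact hmain
      · -- the wall becomes regular
        have hple : σ.p x ≤ 1 := by
          by_contra hcon
          push Not at hcon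
          apply hred
          refine ⟨?_, by omega⟩
          cases hcase : ty x with
          | R => exact absurd hcase hx
          | A => rfl
          | D =>
            have := h.shape.pD x hcase
            omega
        obtain ⟨e, he⟩ : ∃ e : ℕ, σ.p x = e := ⟨(σ.p x).toNat, (Int.toNat_of_nonneg hp0).symm⟩
        have he1 : e ≤ 1 := by
          rw [he] at hple
          exact_mod_cast hple
        have hm1 : 1 ≤ m x := by omega
        have hkeep := KL4_keep a hg γ σ ty k h x hx hxk e he1 he (m x) hm1 hγx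
        have hPnew : ∀ l, ty l = Ty.R →
            0 ≤ PhS a (staEm a σ x (m x) e) (Function.update ty x Ty.R) l := by
          intro l hl
          have hlx : l ≠ x := by
            rintro rfl
            exact hx hl
          rw [KL4_em_Ph a γ σ ty k h x hx hxk e he (m x) l hlx]
          have h1 : PhS a σ ty l = (σ.P l : ℚ) -
              (∑ y ∈ Finset.univ.filter (fun y => ty y ≠ Ty.R), (a y l : ℚ) * (σ.p y : ℚ)) / 2 := by
            show Ph a σ.κ σ.P σ.p ty l = _
            unfold Ph
            rw [sub_eq_add_neg, ← neg_div, ← Finset.sum_neg_distrib]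
            congr 2
            refine Finset.sum_congr rfl fun y hy => ?_
            have hk1 : σ.κ l = k + 1 := by
              have := h.reg l hl
              omega
            rw [hk1, hw y (Finset.mem_filter.1 hy).2]
            push_cast
            ring
          have h2 : (1 : ℚ) ≤ (σ.P l : ℚ) -
              ∑ y ∈ Finset.univ.filter (fun y => ty y ≠ Ty.R), (a y l : ℚ) * (m y : ℚ) := by
            have h3 := hP0 l
            rw [hP l, if_pos hl] at h3
            exact_mod_cast h3
          rw [h1]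
          rw [← Finset.add_sum_erase _ _ hxW] at h2 ⊢
          have h4 : (∑ y ∈ (Finset.univ.filter (fun y => ty y ≠ Ty.R)).erase x, (a y l : ℚ) * (σ.p y : ℚ)) / 2 ≤
              ∑ y ∈ (Finset.univ.filter (fun y => ty y ≠ Ty.R)).erase x, (a y l : ℚ) * (m y : ℚ) := by
            rw [Finset.sum_div]
            refine Finset.sum_le_sum fun y hy => ?_
            have hy' := hm y (Finset.mem_filter.1 (Finset.mem_erase.1 hy).2).2
            have hyq : (σ.p y : ℚ) + 1 ≤ 2 * (m y : ℚ) := by exact_mod_cast hy'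
            have ha : (0 : ℚ) ≤ (a y l : ℚ) := Nat.cast_nonneg _
            rw [mul_div_assoc]
            exact mul_le_mul_of_nonneg_left (by linarith) ha
          rw [he]
          push_cast
          linarith
        obtain ⟨hPh, hdfc⟩ := ph2_em' a hg γ σ ty k h x hx hxk e he1 he (m x) hm1 hγx hPnew
        have hpos := KL4_pos a hg k _ _ _ hPh
        have hpy' : ∀ y, y ≠ x → (staEm a σ x (m x) e).p y = σ.p y := fun y hy => by
          show Function.update σ.p x 0 y = _
          rw [Function.update_of_ne hy]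
        have hpx' : (staEm a σ x (m x) e).p x = 0 := by
          show Function.update σ.p x 0 x = _
          rw [Function.update_self]
        have hty : ∀ y, Function.update ty x Ty.R y ≠ Ty.R → y ≠ x ∧ ty y ≠ Ty.R := by
          intro y hy
          by_cases hyx : y = x
          · subst hyx
            rw [Function.update_self] at hy
            exact absurd rfl hy
          · rw [Function.update_of_ne hyx] at hy
            exact ⟨hyx, hy⟩
        have hmain := ih (∑ y ∈ Finset.univ.filter (fun y => Function.update ty x Ty.R y ≠ Ty.R),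
            (((staEm a σ x (m x) e).p y).toNat + 1)) (by
            rw [← hN, KL4_walls, ← Finset.add_sum_erase (Finset.univ.filter (fun y => ty y ≠ Ty.R)) _ hxW]
            have hs1 : ∑ y ∈ (Finset.univ.filter (fun y => ty y ≠ Ty.R)).erase x,
                (((staEm a σ x (m x) e).p y).toNat + 1) =
                ∑ y ∈ (Finset.univ.filter (fun y => ty y ≠ Ty.R)).erase x, ((σ.p y).toNat + 1) :=
              Finset.sum_congr rfl fun y hy => by rw [hpy' y (Finset.mem_erase.1 hy).1]
            rw [hs1]
            omega)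
          (γ - Finsupp.single x ((k + 1) * m x)) (staEm a σ x (m x) e) (Function.update ty x Ty.R) m rfl hPh
          (fun y hy => by
            obtain ⟨hyx, hyR⟩ := hty y hy
            show Function.update σ.κ x (σ.κ x - 1) y = _
            rw [Function.update_of_ne hyx]
            exact hw y hyR)
          (by rw [Function.update_of_ne hrx]; exact hr)
          (fun y hy => by
            obtain ⟨hyx, hyR⟩ := hty y hy
            rw [hpy' y hyx]
            exact hm y hyR)
          (fun y hy => by
            obtain ⟨hyx, hyR⟩ := hty y hy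
            rw [Finsupp.tsub_apply, Finsupp.single_eq_of_ne hyx]
            exact hγ y hyR)
          (by
            rw [hγ0, ← tsub_add_eq_tsub_tsub, KL4_walls]
            congr 1
            exact (Finset.add_sum_erase _ (fun y => Finsupp.single y ((k + 1) * m y)) hxW).symm)
          (fun i => by
            rw [hP i, KL4_walls]
            by_cases hix : i = x
            · subst hix
              rw [if_neg hx, Function.update_self, if_pos rfl]
              have hs1 : ∑ y ∈ (Finset.univ.filter (fun y => ty y ≠ Ty.R)).erase i,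
                  (a y i : ℤ) * (m y : ℤ) = 0 := by
                refine Finset.sum_eq_zero fun y hy => ?_
                rw [KL4_nonadj h.toBase hx (Finset.mem_filter.1 (Finset.mem_erase.1 hy).2).2]
                simp
              rw [hs1, sub_zero, he]
              show _ = if i = i then 2 * (m i : ℤ) - e else σ.P i - (a i i : ℤ) * (m i : ℤ)
              rw [if_pos rfl]
            · rw [Function.update_of_ne hix]
              by_cases hi : ty i = Ty.R
              · rw [if_pos hi, if_pos hi]
                show _ = (if i = x then 2 * (m x : ℤ) - e else σ.P i - (a x i : ℤ) * (m x : ℤ)) - _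
                rw [if_neg hix, ← Finset.add_sum_erase _ _ hxW]
                ring
              · rw [if_neg hi, if_neg hi, hpy' i hix])
          (fun i => by
            rw [hp i]
            by_cases hix : i = x
            · subst hix
              rw [if_neg hx, Function.update_self, if_pos rfl, hpx']
            · rw [Function.update_of_ne hix, hpy' i hix])
        rw [hdfc r hr] at hmain
        linarith
  intro γ σ ty m
  exact key _ γ σ ty m rfl

end Pool.Agent.H27.KAC
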