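import Pool.Agent.H27.KAC.KN1

/-!
KAC module KN2: `EV` as a sum over multipartitions.

* `EV_sum`: induction on `k`.  `k = 0`: `EV_one`, `Mset 0 γ` is the singleton if `γ = 0` and empty otherwise.
  Step (level `k + 2`): if `P_x ≤ 0` for some `x`: if `a x x = 0` both sides vanish (`EV_vanish`; on the right
  `Pseq (k+1) x = P_x`); if `a x x ≥ 2` then `(Cγ)_x ≤ 0` and consistency gives
  `(k+2) P_x = (k+1) p_x + 1 - (Cγ)_x > 0`, impossible.
  If all `P_i ≥ 1`: `EV_expand`, the new data `(P', P)` are again consistent, `P ≥ 1`, and induction; the bijection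
  `(m, m') ↦` function on `Fin (k+1)` (`Fin.snocEquiv`/`Fin.snoc`) identifies the sums;
  `Pseq` of the new data is `Pseq` of the old data.
* `PLF_eq`: `PLF a m l i = s_i + ∑_j C_{ij} ∑_{l' > l} (l' - l) m_{l'j}`, `s = -Cα`, because
  `min(l,l') = l' - (l' - l)`.
* `EV_eq_Msum`: `EV_sum` with `P = s + Kν + 1`, `p = s + (K+1)ν + 1`; `Pseq l = PLF l + lν + 1`.
-/

namespace Pool.Agent.H27.KAC

open scoped BigOperators
open MvPowerSeries

variable {I : Type} [Fintype I] [DecidableEq I]

private theorem KN2_mem_Mset {K : ℕ} {α : I → ℕ} {m : Fin K → I → ℕ} :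
    m ∈ Mset K α ↔ ∀ i, ∑ k : Fin K, ((k : ℕ) + 1) * m k i = α i := by
  unfold Mset
  rw [Finset.mem_filter]
  constructor
  · exact fun h => h.2
  · intro h
    refine ⟨?_, h⟩
    rw [Fintype.mem_piFinset]
    intro k
    rw [Fintype.mem_piFinset]
    intro i
    rw [Finset.mem_range]
    have h1 : ((k : ℕ) + 1) * m k i ≤ ∑ k : Fin K, ((k : ℕ) + 1) * m k i :=
      Finset.single_le_sum (f := fun k : Fin K => ((k : ℕ) + 1) * m k i)
        (fun _ _ => Nat.zero_le _) (Finset.mem_univ k)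
    rw [h i] at h1
    have h2 : m k i ≤ ((k : ℕ) + 1) * m k i := Nat.le_mul_of_pos_left _ (Nat.succ_pos _)
    omega

private theorem KN2_Pseq_last (a : I → I → ℕ) {k : ℕ} (P p : I → ℤ) (m : Fin (k + 1) → I → ℕ)
    (i : I) : Pseq a P p m (k + 1) i = P i := by
  unfold Pseq
  have h1 : ∀ l' : Fin (k + 1), ((l' : ℕ) + 1 - (k + 1)) = 0 := fun l' => by omega
  simp [h1]

private theorem KN2_Pseq_snoc (a : I → I → ℕ) {k : ℕ} (P p : I → ℤ) (m' : Fin k → I → ℕ)
    (m : I → ℕ) (l : ℕ) (hl : l ≤ k + 1) (i : I) :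
    Pseq a P p (Fin.snoc (α := fun _ => I → ℕ) m' m : Fin (k + 1) → I → ℕ) l i =
      Pseq a (fun i => 2 * P i - p i + ∑ j, cart a i j * (m j : ℤ)) P m' l i := by
  unfold Pseq
  simp only [Fin.sum_univ_castSucc, Fin.snoc_castSucc, Fin.snoc_last, Fin.val_castSucc,
    Fin.val_last]
  have h1 : (((k + 1 - l : ℕ)) : ℤ) = (k : ℤ) + 1 - l := by
    rw [Nat.cast_sub hl]
    push_cast
    ring
  have h2 : ∑ j, cart a i j * (∑ l' : Fin k, (((l' : ℕ) + 1 - l : ℕ) : ℤ) * (m' l' j : ℤ) +
      ((k + 1 - l : ℕ) : ℤ) * (m j : ℤ)) =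
      (∑ j, cart a i j * ∑ l' : Fin k, (((l' : ℕ) + 1 - l : ℕ) : ℤ) * (m' l' j : ℤ)) +
        ((k : ℤ) + 1 - l) * ∑ j, cart a i j * (m j : ℤ) := by
    rw [Finset.mul_sum, ← Finset.sum_add_distrib]
    refine Finset.sum_congr rfl fun j _ => ?_
    rw [h1]
    ring
  rw [h2]
  push_cast
  ring

private theorem KN2_cw_sub (a : I → I → ℕ) (γ : I →₀ ℕ) (k : ℕ) (m : I → ℕ)
    (hm : ∀ j, (k + 1) * m j ≤ γ j) (i : I) :
    cw a (γ - (k + 1) • toF m) i = cw a γ i - ((k : ℤ) + 1) * ∑ j, cart a i j * (m j : ℤ) := by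
  unfold cw
  rw [Finset.mul_sum, ← Finset.sum_sub_distrib]
  refine Finset.sum_congr rfl fun j _ => ?_
  have h1 : (γ - (k + 1) • toF m) j = γ j - (k + 1) * m j := rfl
  rw [h1, Nat.cast_sub (hm j)]
  push_cast
  ring

private theorem KN2_Mset_iff (γ : I →₀ ℕ) (k : ℕ) (M : Fin (k + 1) → I → ℕ) :
    M ∈ Mset (k + 1) γ ↔ (∀ j, (k + 1) * M (Fin.last k) j ≤ γ j) ∧
      (Fin.init M : Fin k → I → ℕ) ∈ Mset k (γ - (k + 1) • toF (M (Fin.last k))) := by
  rw [KN2_mem_Mset, KN2_mem_Mset]
  have h1 : ∀ i, (γ - (k + 1) • toF (M (Fin.last k))) i = γ i - (k + 1) * M (Fin.last k) i :=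
    fun i => rfl
  have h2 : ∀ i, ∑ l : Fin (k + 1), ((l : ℕ) + 1) * M l i =
      (∑ l : Fin k, ((l : ℕ) + 1) * (Fin.init M : Fin k → I → ℕ) l i) +
        (k + 1) * M (Fin.last k) i := by
    intro i
    rw [Fin.sum_univ_castSucc]
    rfl
  constructor
  · intro h
    refine ⟨fun j => ?_, fun i => ?_⟩
    · have := h j
      rw [h2] at this
      omega
    · have := h i
      rw [h2] at this
      rw [h1]
      omega
  · rintro ⟨h3, h4⟩ i
    have h5 := h4 i
    have h6 := h3 i
    rw [h1] at h5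
    rw [h2, h5]
    omega

theorem EV_sum (a : I → I → ℕ) (hs : ∀ i j, a i j = a j i) (ha : ∀ i, a i i ≠ 1) (k : ℕ)
    (γ : I →₀ ℕ) (P p : I → ℤ) (hp : ∀ i, 1 ≤ p i)
    (hc : ∀ i, cw a γ i = (k : ℤ) * p i - ((k : ℤ) + 1) * P i + 1) :
    EV a γ (k + 1) P p =
      ∑ m ∈ (Mset k γ).filter (fun m => ∀ (l : Fin k) (i : I), 1 ≤ Pseq a P p m ((l : ℕ) + 1) i),
        ∏ l : Fin k, ∏ i : I,
          ((((Pseq a P p m ((l : ℕ) + 1) i).toNat - 1 + m l i).choose (m l i) : ℕ) : ℚ) := by
  induction k generalizing γ P p with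
  | zero =>
    rw [zero_add, EV_one]
    by_cases hγ : γ = 0
    · rw [if_pos hγ]
      have h1 : (Mset 0 γ).filter (fun m => ∀ (l : Fin 0) (i : I),
          1 ≤ Pseq a P p m ((l : ℕ) + 1) i) = {fun l => Fin.elim0 l} := by
        ext m
        rw [Finset.mem_filter, Finset.mem_singleton, KN2_mem_Mset]
        constructor
        · intro _
          funext l
          exact Fin.elim0 l
        · intro _
          refine ⟨fun i => ?_, fun l => Fin.elim0 l⟩
          rw [hγ]
          simp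
      rw [h1, Finset.sum_singleton]
      simp
    · rw [if_neg hγ]
      symm
      apply Finset.sum_eq_zero
      intro m hm
      exfalso
      rw [Finset.mem_filter, KN2_mem_Mset] at hm
      apply hγ
      ext i
      have h1 := hm.1 i
      rw [Fin.sum_univ_zero] at h1
      exact h1.symm
  | succ k ih =>
    by_cases hP : ∀ i, 1 ≤ P i
    · rw [EV_expand a hs γ k P p hP]
      have hA : ∀ m ∈ Fintype.piFinset (fun i => Finset.range (γ i / (k + 1) + 1)),
          ∀ j, (k + 1) * m j ≤ γ j := by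
        intro m hm j
        rw [Fintype.mem_piFinset] at hm
        have h1 := Finset.mem_range.1 (hm j)
        have h2 : m j ≤ γ j / (k + 1) := by omega
        have h3 := (Nat.le_div_iff_mul_le (Nat.succ_pos k)).1 h2
        rw [mul_comm]
        exact h3
      have hstep : ∀ m ∈ Fintype.piFinset (fun i => Finset.range (γ i / (k + 1) + 1)),
          (∏ i, ((((P i).toNat - 1 + m i).choose (m i) : ℕ) : ℚ)) *
            EV a (γ - (k + 1) • toF m) (k + 1)
              (fun i => 2 * P i - p i + ∑ j, cart a i j * (m j : ℤ)) P =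
          ∑ m' ∈ (Mset k (γ - (k + 1) • toF m : I →₀ ℕ)).filter (fun m' => ∀ (l : Fin k) (i : I),
            1 ≤ Pseq a (fun i => 2 * P i - p i + ∑ j, cart a i j * (m j : ℤ)) P m'
              ((l : ℕ) + 1) i),
            (∏ i, ((((P i).toNat - 1 + m i).choose (m i) : ℕ) : ℚ)) * ∏ l : Fin k, ∏ i : I,
              ((((Pseq a (fun i => 2 * P i - p i + ∑ j, cart a i j * (m j : ℤ)) P m'
                ((l : ℕ) + 1) i).toNat - 1 + m' l i).choose (m' l i) : ℕ) : ℚ) := by
        intro m hm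
        rw [ih (γ - (k + 1) • toF m) (fun i => 2 * P i - p i + ∑ j, cart a i j * (m j : ℤ)) P hP
          (by
            intro i
            rw [KN2_cw_sub a γ k m (hA m hm) i, hc i]
            push_cast
            ring), Finset.mul_sum]
      rw [Finset.sum_congr rfl hstep, Finset.sum_sigma']
      refine Finset.sum_nbij'
        (fun x => (Fin.snoc (α := fun _ => I → ℕ) x.2 x.1 : Fin (k + 1) → I → ℕ))
        (fun M => ⟨M (Fin.last k), Fin.init M⟩) ?_ ?_ ?_ ?_ ?_
      · rintro ⟨m, m'⟩ hx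
        rw [Finset.mem_sigma, Finset.mem_filter] at hx
        obtain ⟨hx1, hx2, hx3⟩ := hx
        rw [Finset.mem_filter, KN2_Mset_iff]
        refine ⟨⟨?_, ?_⟩, ?_⟩
        · intro j
          show (k + 1) * (Fin.snoc (α := fun _ => I → ℕ) m' m : Fin (k + 1) → I → ℕ)
            (Fin.last k) j ≤ γ j
          rw [Fin.snoc_last]
          exact hA m hx1 j
        · show (Fin.init (Fin.snoc (α := fun _ => I → ℕ) m' m) : Fin k → I → ℕ) ∈
            Mset k (γ - (k + 1) • toF ((Fin.snoc (α := fun _ => I → ℕ) m' m :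
              Fin (k + 1) → I → ℕ) (Fin.last k)) : I →₀ ℕ)
          rw [Fin.snoc_last, Fin.init_snoc]
          exact hx2
        · intro l
          refine Fin.lastCases ?_ ?_ l
          · intro i
            rw [Fin.val_last, KN2_Pseq_last]
            exact hP i
          · intro l i
            rw [Fin.val_castSucc]
            show 1 ≤ Pseq a P p (Fin.snoc (α := fun _ => I → ℕ) m' m : Fin (k + 1) → I → ℕ)
              ((l : ℕ) + 1) i
            rw [KN2_Pseq_snoc a P p m' m ((l : ℕ) + 1) (by omega) i]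
            exact hx3 l i
      · intro M hM
        rw [Finset.mem_filter, KN2_Mset_iff] at hM
        obtain ⟨⟨h1, h2⟩, h3⟩ := hM
        rw [Finset.mem_sigma, Finset.mem_filter]
        refine ⟨?_, h2, ?_⟩
        · rw [Fintype.mem_piFinset]
          intro i
          rw [Finset.mem_range]
          have h4 : M (Fin.last k) i ≤ γ i / (k + 1) := by
            rw [Nat.le_div_iff_mul_le (Nat.succ_pos k), mul_comm]
            exact h1 i
          exact Nat.lt_succ_of_le h4
        · intro l i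
          have h5 := h3 (Fin.castSucc l) i
          have h6 := KN2_Pseq_snoc a P p (Fin.init M : Fin k → I → ℕ) (M (Fin.last k))
            ((l : ℕ) + 1) (by omega) i
          rw [Fin.snoc_init_self] at h6
          rw [Fin.val_castSucc, h6] at h5
          exact h5
      · rintro ⟨m, m'⟩ _
        show (⟨(Fin.snoc (α := fun _ => I → ℕ) m' m : Fin (k + 1) → I → ℕ) (Fin.last k),
          Fin.init (Fin.snoc (α := fun _ => I → ℕ) m' m)⟩ : Σ _ : I → ℕ, Fin k → I → ℕ) = ⟨m, m'⟩
        rw [Fin.snoc_last, Fin.init_snoc]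
      · intro M _
        exact Fin.snoc_init_self M
      · rintro ⟨m, m'⟩ _
        show (∏ i, ((((P i).toNat - 1 + m i).choose (m i) : ℕ) : ℚ)) * ∏ l : Fin k, ∏ i : I,
              ((((Pseq a (fun i => 2 * P i - p i + ∑ j, cart a i j * (m j : ℤ)) P m'
                ((l : ℕ) + 1) i).toNat - 1 + m' l i).choose (m' l i) : ℕ) : ℚ) =
          ∏ l : Fin (k + 1), ∏ i : I,
            ((((Pseq a P p (Fin.snoc (α := fun _ => I → ℕ) m' m : Fin (k + 1) → I → ℕ)
              ((l : ℕ) + 1) i).toNat - 1 +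
              (Fin.snoc (α := fun _ => I → ℕ) m' m : Fin (k + 1) → I → ℕ) l i).choose
              ((Fin.snoc (α := fun _ => I → ℕ) m' m : Fin (k + 1) → I → ℕ) l i) : ℕ) : ℚ)
        rw [Fin.prod_univ_castSucc, mul_comm]
        congr 1
        · refine Finset.prod_congr rfl fun l _ => Finset.prod_congr rfl fun i _ => ?_
          rw [Fin.snoc_castSucc, Fin.val_castSucc,
            KN2_Pseq_snoc a P p m' m ((l : ℕ) + 1) (by omega) i]
        · refine Finset.prod_congr rfl fun i _ => ?_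
          rw [Fin.snoc_last, Fin.val_last, KN2_Pseq_last]
    · push Not at hP
      obtain ⟨x, hx⟩ := hP
      have hx0 : P x ≤ 0 := by omega
      by_cases hax : a x x = 0
      · rw [EV_vanish a hs x hax γ (k + 1 + 1) (by omega) P p hx0 (by have := hp x; omega) (by
          rw [hc x]
          push_cast
          ring)]
        symm
        apply Finset.sum_eq_zero
        intro m hm
        exfalso
        rw [Finset.mem_filter] at hm
        have h1 := hm.2 (Fin.last k) x
        rw [Fin.val_last, KN2_Pseq_last] at h1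
        omega
      · exfalso
        have hax2 : 2 ≤ a x x := by
          have := ha x
          omega
        have hcw : cw a γ x ≤ 0 := by
          unfold cw
          apply Finset.sum_nonpos
          intro j _
          have h1 : cart a x j ≤ 0 := by
            unfold cart
            by_cases hj : x = j
            · rw [if_pos hj, ← hj]
              have : (2 : ℤ) ≤ (a x x : ℤ) := by exact_mod_cast hax2
              linarith
            · rw [if_neg hj]
              have : (0 : ℤ) ≤ (a x j : ℤ) := Nat.cast_nonneg _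
              linarith
          exact mul_nonpos_of_nonpos_of_nonneg h1 (Nat.cast_nonneg _)
        have h2 := hc x
        have h3 := hp x
        have h4 : (0 : ℤ) ≤ ((k + 1 : ℕ) : ℤ) := Nat.cast_nonneg _
        have h5 : 0 ≤ ((k + 1 : ℕ) : ℤ) * p x := mul_nonneg h4 (by omega)
        have h6 : (((k + 1 : ℕ) : ℤ) + 1) * P x ≤ 0 :=
          mul_nonpos_of_nonneg_of_nonpos (by omega) hx0
        linarith

theorem PLF_eq (a : I → I → ℕ) {K : ℕ} (α : I →₀ ℕ) (m : Fin K → I → ℕ) (hm : m ∈ Mset K α)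
    (l : ℕ) (i : I) :
    PLF a m l i = -cw a α i +
      ∑ j, cart a i j * ∑ l' : Fin K, (((l' : ℕ) + 1 - l : ℕ) : ℤ) * (m l' j : ℤ) := by
  rw [KN2_mem_Mset] at hm
  unfold PLF cw
  rw [← Finset.sum_neg_distrib, ← Finset.sum_add_distrib]
  refine Finset.sum_congr rfl fun j _ => ?_
  have h1 : (α j : ℤ) = ∑ l' : Fin K, (((l' : ℕ) : ℤ) + 1) * (m l' j : ℤ) := by
    rw [← hm j]
    push_cast
    rfl
  rw [h1, Finset.mul_sum, ← Finset.sum_neg_distrib, Finset.mul_sum, ← Finset.sum_add_distrib]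
  refine Finset.sum_congr rfl fun l' _ => ?_
  have h2 : (min (l : ℤ) (((l' : ℕ) : ℤ) + 1)) =
      (((l' : ℕ) : ℤ) + 1) - (((l' : ℕ) + 1 - l : ℕ) : ℤ) := by
    rcases Nat.le_total l ((l' : ℕ) + 1) with h | h
    · rw [Nat.cast_sub h, min_eq_left (by exact_mod_cast h)]
      push_cast
      ring
    · rw [Nat.sub_eq_zero_of_le h, min_eq_right (by exact_mod_cast h)]
      push_cast
      ring
  rw [h2]
  ring

theorem EV_eq_Msum (a : I → I → ℕ) (hs : ∀ i j, a i j = a j i) (ha : ∀ i, a i i ≠ 1)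
    (K ν : ℕ) (α : I →₀ ℕ) (hK : ∀ i, 0 ≤ -cw a α i + (K : ℤ) * ν) :
    EV a α (K + 1) (fun i => -cw a α i + (K : ℤ) * ν + 1)
      (fun i => -cw a α i + ((K : ℤ) + 1) * ν + 1) = Msum a K ν α := by
  have hν : (0 : ℤ) ≤ ν := Nat.cast_nonneg ν
  rw [EV_sum a hs ha K α (fun i => -cw a α i + (K : ℤ) * ν + 1)
    (fun i => -cw a α i + ((K : ℤ) + 1) * ν + 1) (fun i => by
      have := hK i
      show 1 ≤ -cw a α i + ((K : ℤ) + 1) * ν + 1
      linarith) (fun i => by
      show cw a α i = (K : ℤ) * (-cw a α i + ((K : ℤ) + 1) * ν + 1) -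
        ((K : ℤ) + 1) * (-cw a α i + (K : ℤ) * ν + 1) + 1
      ring)]
  have hkey : ∀ m ∈ Mset K α, ∀ (l : ℕ) (i : I),
      Pseq a (fun i => -cw a α i + (K : ℤ) * ν + 1) (fun i => -cw a α i + ((K : ℤ) + 1) * ν + 1)
        m l i = PLF a m l i + (l : ℤ) * ν + 1 := by
    intro m hm l i
    rw [PLF_eq a α m hm l i]
    unfold Pseq
    ring
  unfold Msum
  have hfil : (Mset K α).filter (fun m => ∀ (l : Fin K) (i : I),
      1 ≤ Pseq a (fun i => -cw a α i + (K : ℤ) * ν + 1)
        (fun i => -cw a α i + ((K : ℤ) + 1) * ν + 1) m ((l : ℕ) + 1) i) =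
      (Mset K α).filter (fun m => ∀ (k : Fin K) (i : I),
        0 ≤ PLF a m ((k : ℕ) + 1) i + ((k : ℤ) + 1) * ν) := by
    apply Finset.filter_congr
    intro m hm
    refine forall_congr' fun l => forall_congr' fun i => ?_
    rw [hkey m hm]
    push_cast
    constructor
    · intro h
      linarith
    · intro h
      linarith
  rw [hfil]
  refine Finset.sum_congr rfl fun m hm => Finset.prod_congr rfl fun l _ =>
    Finset.prod_congr rfl fun i _ => ?_
  rw [Finset.mem_filter] at hm
  rw [hkey m hm.1]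
  have h1 := hm.2 l i
  have h2 : (PLF a m ((l : ℕ) + 1) i + (((l : ℕ) + 1 : ℕ) : ℤ) * ν + 1).toNat - 1 =
      (PLF a m ((l : ℕ) + 1) i + ((l : ℤ) + 1) * ν).toNat := by
    push_cast
    omega
  rw [h2]

end Pool.Agent.H27.KAC
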