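import Pool.Agent.H27.KAC.KL2
import Pool.Agent.H27.KAC.KL3
import Pool.Agent.H27.KAC.KL4
import Pool.Agent.H27.KAC.KN2

/-!
KAC module KL5: the path of states below level `K0`, from a multipartition.

`m : Fin K0 → I → ℕ`, `m k i` = number of parts of size `k+1`.  `PLF a m k i` are the vacancy numbers:
`PLF 0 = 0`, `PLF (k) = 2 PLF (k+1) - PLF (k+2) + C m_{k+1}` (parts of size `k+1`; second difference of
`min(k,l)` in `k` is `-δ_{kl}`; `mAt m l i` is the number of parts of size `l`), `PLF k = s` for `k ≥ K0`.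
`gam m k` = the index `∑_{l ≤ k} l m_l`.
* `lb_low`: for `1 ≤ k < K0`, fresh states at level `k + 1` with all vertices regular, `P = PLF k ≥ 1`,
  `p = PLF (k+1)`, index `gam m k`: induction on `k`; `k = 1`: `lb_last`; `k + 1`: `lb_phase1` with `m := mAt m (k+1)`,
  `ω = wt`, all walls absent; a phase 2 state without walls is fresh one level below (`Fr_of_Ph2`).
-/

namespace Pool.Agent.H27.KAC

open scoped BigOperators
open MvPowerSeries

variable {I : Type} [Fintype I] [DecidableEq I]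

/-- number of parts of size `l` at `i`. -/
def mAt {K0 : ℕ} (m : Fin K0 → I → ℕ) (l : ℕ) (i : I) : ℕ :=
  if h : 1 ≤ l ∧ l ≤ K0 then m ⟨l - 1, by omega⟩ i else 0

/-- the weight of all the parts of size at most `k`. -/
noncomputable def gam {K0 : ℕ} (m : Fin K0 → I → ℕ) (k : ℕ) : I →₀ ℕ :=
  toF (fun i => ∑ l ∈ Finset.Icc 1 k, l * mAt m l i)

theorem PLF_zero (a : I → I → ℕ) {K0 : ℕ} (m : Fin K0 → I → ℕ) (i : I) : PLF a m 0 i = 0 := by
  unfold PLF
  refine Finset.sum_eq_zero fun j _ => Finset.sum_eq_zero fun l _ => ?_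
  have h : min ((0 : ℕ) : ℤ) (((l : ℕ) : ℤ) + 1) = 0 := by
    rw [min_eq_left]
    · simp
    · push_cast; omega
  rw [h]
  ring

theorem PLF_rec (a : I → I → ℕ) {K0 : ℕ} (m : Fin K0 → I → ℕ) (k : ℕ) (i : I) :
    PLF a m k i = 2 * PLF a m (k + 1) i - PLF a m (k + 2) i +
      ∑ j, cart a i j * (mAt m (k + 1) j : ℤ) := by
  unfold PLF
  rw [Finset.mul_sum, ← Finset.sum_sub_distrib, ← Finset.sum_add_distrib]
  refine Finset.sum_congr rfl fun j _ => ?_
  rw [Finset.mul_sum, ← Finset.sum_sub_distrib]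
  have h : (mAt m (k + 1) j : ℤ) =
      ∑ l : Fin K0, if (l : ℕ) = k then (m l j : ℤ) else 0 := by
    unfold mAt
    by_cases hk : 1 ≤ k + 1 ∧ k + 1 ≤ K0
    · rw [dif_pos hk, Finset.sum_eq_single (⟨k, by omega⟩ : Fin K0)]
      · simp
      · intro b _ hb
        rw [if_neg]
        intro hbk
        exact hb (Fin.ext hbk)
      · intro hb
        exact absurd (Finset.mem_univ _) hb
    · rw [dif_neg hk]
      symm
      refine Finset.sum_eq_zero fun l _ => ?_
      rw [if_neg]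
      intro hl
      apply hk
      have := l.2
      omega
  rw [h, Finset.mul_sum, ← Finset.sum_add_distrib]
  refine Finset.sum_congr rfl fun l _ => ?_
  have e : min ((k : ℕ) : ℤ) (((l : ℕ) : ℤ) + 1) =
      2 * min (((k + 1 : ℕ)) : ℤ) (((l : ℕ) : ℤ) + 1) - min (((k + 2 : ℕ)) : ℤ) (((l : ℕ) : ℤ) + 1)
        - (if (l : ℕ) = k then 1 else 0) := by
    split_ifs with hl
    · push_cast; omega
    · push_cast; omega
  rw [e]
  split_ifs <;> ring

theorem PLF_top (a : I → I → ℕ) {K0 : ℕ} (α : I →₀ ℕ) (m : Fin K0 → I → ℕ)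
    (hm : m ∈ Mset K0 α) (k : ℕ) (hk : K0 ≤ k) (i : I) : PLF a m k i = -cw a α i := by
  have hm' : ∀ j, ∑ l : Fin K0, ((l : ℕ) + 1) * m l j = α j := by
    unfold Mset at hm
    rw [Finset.mem_filter] at hm
    exact hm.2
  unfold PLF cw
  rw [← Finset.sum_neg_distrib]
  refine Finset.sum_congr rfl fun j _ => ?_
  rw [← hm' j]
  push_cast
  rw [Finset.mul_sum, ← Finset.sum_neg_distrib]
  refine Finset.sum_congr rfl fun l _ => ?_
  have h1 : min ((k : ℕ) : ℤ) (((l : ℕ) : ℤ) + 1) = ((l : ℕ) : ℤ) + 1 := by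
    have := l.2
    apply min_eq_right
    omega
  rw [h1]
  ring

theorem KL5_sum {K0 : ℕ} (m : Fin K0 → I → ℕ) (k : ℕ) (hk : K0 ≤ k) (i : I) :
    ∑ l ∈ Finset.Icc 1 k, l * mAt m l i = ∑ l : Fin K0, ((l : ℕ) + 1) * m l i := by
  have h1 : ∑ l ∈ Finset.Icc 1 k, l * mAt m l i = ∑ l ∈ Finset.Icc 1 K0, l * mAt m l i := by
    symm
    apply Finset.sum_subset (Finset.Icc_subset_Icc_right hk)
    intro l _ hl
    rw [Finset.mem_Icc] at hl
    unfold mAt
    rw [dif_neg hl, mul_zero]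
  have h2 : ∑ l ∈ Finset.Icc 1 K0, l * mAt m l i =
      ∑ l ∈ Finset.range K0, (l + 1) * mAt m (l + 1) i := by
    symm
    apply Finset.sum_bij (fun l _ => l + 1)
    · intro l hl
      rw [Finset.mem_range] at hl
      rw [Finset.mem_Icc]
      omega
    · intro l1 _ l2 _ h
      omega
    · intro l hl
      rw [Finset.mem_Icc] at hl
      exact ⟨l - 1, by rw [Finset.mem_range]; omega, by omega⟩
    · intro l _
      rfl
  rw [h1, h2, Finset.sum_range]
  refine Finset.sum_congr rfl fun l _ => ?_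
  unfold mAt
  rw [dif_pos ⟨by omega, by have := l.2; omega⟩]
  rfl

theorem KL5_toF (f : I → ℕ) (i : I) : toF f i = f i := rfl

theorem KL5_gam {K0 : ℕ} (m : Fin K0 → I → ℕ) (k : ℕ) (i : I) :
    gam m k i = ∑ l ∈ Finset.Icc 1 k, l * mAt m l i := rfl

theorem gam_top {K0 : ℕ} (α : I →₀ ℕ) (m : Fin K0 → I → ℕ) (hm : m ∈ Mset K0 α) (k : ℕ)
    (hk : K0 ≤ k) : gam m k = α := by
  ext i
  rw [KL5_gam, KL5_sum m k hk i]
  unfold Mset at hm
  rw [Finset.mem_filter] at hm
  exact hm.2 i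

theorem KL5_wt_nonneg (P m : ℕ) : 0 ≤ wt P m := by
  unfold wt
  positivity

theorem KL5_Ph (a : I → I → ℕ) (κ : I → ℕ) (P p : I → ℤ) (l : I) :
    Ph a κ P p (fun _ => Ty.R) l = (P l : ℚ) := by
  unfold Ph
  simp

theorem KL5_unp (σ : Sta I) (k : ℕ) (h : ∀ i, σ.κ i = k + 2) :
    unp σ (fun _ => Ty.R) k = Finset.univ := by
  unfold unp
  rw [Finset.filter_true_of_mem]
  intro i _
  exact ⟨rfl, h i⟩

theorem KL5_sum_single {K0 : ℕ} (m : Fin K0 → I → ℕ) (k : ℕ) (i : I) :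
    (∑ l, Finsupp.single l ((k + 1) * mAt m (k + 1) l) : I →₀ ℕ) i = (k + 1) * mAt m (k + 1) i := by
  rw [Finsupp.finsetSum_apply, Finset.sum_eq_single i]
  · simp
  · intro b _ hb
    rw [Finsupp.single_eq_of_ne hb.symm]
  · intro hi
    exact absurd (Finset.mem_univ i) hi

theorem KL5_gam_succ {K0 : ℕ} (m : Fin K0 → I → ℕ) (k : ℕ) (i : I) :
    gam m (k + 1) i = gam m k i + (k + 1) * mAt m (k + 1) i := by
  rw [KL5_gam, KL5_gam, Finset.sum_Icc_succ_top (by omega)]

theorem KL5_finG {K0 : ℕ} (m : Fin K0 → I → ℕ) (k : ℕ) (σ : Sta I) (h : ∀ i, σ.κ i = k + 2) :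
    finG (gam m (k + 1)) σ (fun _ => Ty.R) k (mAt m (k + 1)) = gam m k := by
  unfold finG
  rw [KL5_unp σ k h]
  ext i
  rw [Finsupp.tsub_apply, KL5_sum_single, KL5_gam_succ]
  omega

theorem KL5_finP (a : I → I → ℕ) {K0 : ℕ} (m : Fin K0 → I → ℕ) (k : ℕ) (σ : Sta I)
    (h : ∀ i, σ.κ i = k + 2) (hP : ∀ i, σ.P i = PLF a m (k + 1) i)
    (hp : ∀ i, σ.p i = PLF a m (k + 2) i) (i : I) :
    finP a σ (fun _ => Ty.R) k (mAt m (k + 1)) i = PLF a m k i := by
  unfold finP
  rw [KL5_unp σ k h, if_pos rfl, if_pos (Finset.mem_univ i), PLF_rec a m k i, hP, hp]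

theorem KL5_finp (a : I → I → ℕ) {K0 : ℕ} (m : Fin K0 → I → ℕ) (k : ℕ) (σ : Sta I)
    (h : ∀ i, σ.κ i = k + 2) (hP : ∀ i, σ.P i = PLF a m (k + 1) i) (i : I) :
    finp a σ (fun _ => Ty.R) k (mAt m (k + 1)) i = PLF a m (k + 1) i := by
  unfold finp
  rw [KL5_unp σ k h, if_pos rfl, if_pos (Finset.mem_univ i), hP]

theorem KL5_finT (a : I → I → ℕ) (k : ℕ) (σ : Sta I) (m' : I → ℕ) :
    finT a σ (fun _ => Ty.R) k m' = fun _ => Ty.R := by
  funext i
  unfold finT
  rw [if_neg]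
  rintro ⟨h, _⟩
  exact Ty.noConfusion h

theorem KL5_Ph1 (a : I → I → ℕ) {K0 : ℕ} (m : Fin K0 → I → ℕ) (k : ℕ) (γ : I →₀ ℕ) (σ : Sta I)
    (h : Fr a γ σ (fun _ => Ty.R) (k + 2)) (hP : ∀ i, σ.P i = PLF a m (k + 1) i)
    (h1 : ∀ i, 1 ≤ PLF a m (k + 1) i) : Ph1 a γ σ (fun _ => Ty.R) (k + 2) where
  toBase := h.toBase
  reg := fun l hl => Or.inl (h.reg l hl)
  wall := fun x hx => absurd rfl hx
  pos := by
    intro l _ _
    rw [show PhS a σ (fun _ => Ty.R) l = Ph a σ.κ σ.P σ.p (fun _ => Ty.R) l from rfl, KL5_Ph,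
      hP l]
    have h2 := h1 l
    exact_mod_cast (by omega : 0 < PLF a m (k + 1) l)
  posp := by
    intro l hl hl2
    have h3 := h.reg l hl
    omega

theorem lb_low (a : I → I → ℕ) (hg : GoodMat a) (hc : Conn a) {K0 : ℕ} (m : Fin K0 → I → ℕ)
    (hm1 : ∀ i, 1 ≤ mAt m 1 i) (r : I) (k : ℕ) (hk1 : 1 ≤ k) (hk : k < K0)
    (hP : ∀ l, 1 ≤ l → l < K0 → ∀ i, 1 ≤ PLF a m l i) :
    ∀ σ : Sta I, Fr a (gam m k) σ (fun _ => Ty.R) (k + 1) → (∀ i, σ.P i = PLF a m k i) →
      (∀ i, σ.p i = PLF a m (k + 1) i) →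
      (∏ l ∈ Finset.Icc 1 k, ∏ i, wt (PLF a m l i).toNat (mAt m l i)) *
        dfc a σ (fun _ => Ty.R) r ≤ Val a (gam m k) σ := by
  obtain ⟨ord, hord, hr, hn⟩ := exists_ord a hg.symm hc r
  induction k with
  | zero => omega
  | succ k ih =>
    intro σ hF hσP hσp
    have hκ : ∀ i, σ.κ i = k + 2 := fun i => hF.reg i rfl
    have hPh1 := KL5_Ph1 a m k _ σ hF hσP (hP (k + 1) hk1 hk)
    by_cases hk0 : k = 0
    · subst hk0
      have hunp := KL5_unp σ 0 hκ
      have h := lb_last a hg r ord hord hr hn (mAt m 1) hm1 (∑ i, ord i) (gam m 1) σ hPh1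
        (fun i => by
          have h1 : ord i ≤ ∑ i, ord i :=
            Finset.single_le_sum (f := fun i => ord i) (fun _ _ => Nat.zero_le _)
              (Finset.mem_univ i)
          exact ⟨fun _ => by omega, fun _ => hκ i⟩)
        (fun l _ => by
          have h1 := KL5_gam_succ m 0 l
          simp only [Nat.zero_add, one_mul] at h1
          omega)
        (fun i => by rw [KL5_finP a m 0 σ hκ hσP hσp i, PLF_zero])
        (by
          rw [KL5_finG m 0 σ hκ]
          ext i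
          rw [KL5_gam]
          simp)
      rw [hunp] at h
      rw [Finset.Icc_self, Finset.prod_singleton]
      have e : ∏ i, wt (PLF a m (0 + 1) i).toNat (mAt m (0 + 1) i) =
          ∏ i, wt (σ.P i).toNat (mAt m 1 i) := by
        refine Finset.prod_congr rfl fun i _ => ?_
        rw [hσP i]
      rw [e]
      exact h
    · have hk1' : 1 ≤ k := by omega
      have hunp := KL5_unp σ k hκ
      set c : ℚ := ∏ l ∈ Finset.Icc 1 k, ∏ i, wt (PLF a m l i).toNat (mAt m l i) with hcdef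
      have hc0 : 0 ≤ c := Finset.prod_nonneg fun l _ => Finset.prod_nonneg fun i _ =>
        KL5_wt_nonneg _ _
      have h := lb_phase1 a hg k r ord hord (mAt m (k + 1))
        (fun i => wt (σ.P i).toNat (mAt m (k + 1) i)) c hc0 (∑ i, ord i + 1) (gam m (k + 1)) σ
        (fun _ => Ty.R) hPh1 (fun x hx => absurd rfl hx) rfl
        (fun i _ => by
          have h1 : ord i ≤ ∑ i, ord i :=
            Finset.single_le_sum (f := fun i => ord i) (fun _ _ => Nat.zero_le _)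
              (Finset.mem_univ i)
          exact ⟨fun _ => by omega, fun _ => hκ i⟩)
        (fun l _ => by rw [KL5_gam_succ m k l]; omega)
        (fun i _ => by
          unfold finPh
          rw [KL5_finT, KL5_Ph, KL5_finP a m k σ hκ hσP hσp i]
          exact_mod_cast hP k hk1' (by omega) i)
        (fun i _ => ⟨KL5_wt_nonneg _ _, Or.inl le_rfl⟩)
        (by
          rw [KL5_finT, KL5_finG m k σ hκ]
          intro σ' hσ' _ hσ'P hσ'p
          have hF' := Fr_of_Ph2 a _ σ' _ k hσ' (fun x hx => absurd rfl hx)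
          exact ih hk1' (by omega) σ' hF'
            (fun i => by rw [hσ'P, KL5_finP a m k σ hκ hσP hσp i])
            (fun i => by rw [hσ'p, KL5_finp a m k σ hκ hσP i]))
      rw [hunp] at h
      rw [Finset.prod_Icc_succ_top (by omega), ← hcdef]
      have e : ∏ i, wt (PLF a m (k + 1) i).toNat (mAt m (k + 1) i) =
          ∏ i, wt (σ.P i).toNat (mAt m (k + 1) i) := by
        refine Finset.prod_congr rfl fun i _ => ?_
        rw [hσP i]
      rw [e]
      exact h

end Pool.Agent.H27.KAC
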