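import Pool.Agent.H27.KAC.KQState

/-!
KAC part III-c: definitions for the fermionic sums.
-/

namespace Pool.Agent.H27.KAC

open scoped BigOperators
open MvPowerSeries

section

variable {I : Type} [Fintype I] [DecidableEq I]

/-- coefficient of `Y^γ` in `∏ U_{iκ}^(-P_i) U_{i,κ-1}^(p_i)`. -/
noncomputable def EV (a : I → I → ℕ) (γ : I →₀ ℕ) (κ : ℕ) (P p : I → ℤ) : ℚ :=
  coeff γ (facG a (fun _ => κ) P p)

/-- a function on `I` as a `Finsupp`. -/
noncomputable def toF (m : I → ℕ) : I →₀ ℕ := Finsupp.equivFunOnFinite.symm m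

/-- multipartitions of `α` with parts at most `K`: `m k i` is the number of parts of size
`k + 1` at the vertex `i`. -/
def Mset (K : ℕ) (α : I → ℕ) : Finset (Fin K → I → ℕ) :=
  (Fintype.piFinset (fun _ : Fin K => Fintype.piFinset (fun i : I => Finset.range (α i + 1)))).filter
    (fun m => ∀ i, ∑ k : Fin K, ((k : ℕ) + 1) * m k i = α i)

/-- `P_{ik}(m) = ∑_{j,l} min(k,l) (-C_{ij}) m_{jl}`. -/
def PLF (a : I → I → ℕ) {K : ℕ} (m : Fin K → I → ℕ) (k : ℕ) (i : I) : ℤ :=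
  ∑ j, ∑ l : Fin K, (min k ((l : ℕ) + 1) : ℤ) * (-cart a i j) * (m l j : ℤ)

/-- the vacancy numbers computed downwards from the values `P` at level `K` and `p` at level `K+1`. -/
def Pseq (a : I → I → ℕ) {K : ℕ} (P p : I → ℤ) (m : Fin K → I → ℕ) (l : ℕ) (i : I) : ℤ :=
  P i + ((K : ℤ) - l) * (P i - p i) +
    ∑ j, cart a i j * ∑ l' : Fin K, (((l' : ℕ) + 1 - l : ℕ) : ℤ) * (m l' j : ℤ)

/-- the sum `M^{(ν)}_α`. -/
def Msum (a : I → I → ℕ) (K : ℕ) (ν : ℕ) (α : I → ℕ) : ℚ :=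
  ∑ m ∈ (Mset K α).filter (fun m => ∀ (k : Fin K) (i : I),
      0 ≤ PLF a m ((k : ℕ) + 1) i + ((k : ℤ) + 1) * ν),
    ∏ k : Fin K, ∏ i : I,
      (((PLF a m ((k : ℕ) + 1) i + ((k : ℤ) + 1) * ν).toNat + m k i).choose (m k i) : ℚ)

end

end Pool.Agent.H27.KAC
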