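import Pool.Agent.H27.KAC.KFDefs
import Pool.Agent.H27.KAC.KNDefs

/-!
KAC: definitions for the lower bound (one path of states).

`m i` = number of parts of size `k + 1` at the vertex `i`.  `fin*` = the data of the state at the end of phase 1
(level `k + 2`) if from now on the unprocessed regular vertices `i` are processed with `m i`.
-/

namespace Pool.Agent.H27.KAC

open scoped BigOperators
open MvPowerSeries

section

variable {I : Type} [Fintype I] [DecidableEq I]

/-- unprocessed regular vertices. -/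
def unp (σ : Sta I) (ty : I → Ty) (k : ℕ) : Finset I :=
  Finset.univ.filter (fun i => ty i = Ty.R ∧ σ.κ i = k + 2)

def finK (σ : Sta I) (ty : I → Ty) (k : ℕ) (i : I) : ℕ := if ty i = Ty.R then k + 1 else σ.κ i

def finP (a : I → I → ℕ) (σ : Sta I) (ty : I → Ty) (k : ℕ) (m : I → ℕ) (i : I) : ℤ :=
  if ty i = Ty.R then
    (if i ∈ unp σ ty k then 2 * σ.P i - σ.p i else σ.P i) +
      ∑ l ∈ unp σ ty k, cart a i l * (m l : ℤ)
  else σ.P i

def finp (a : I → I → ℕ) (σ : Sta I) (ty : I → Ty) (k : ℕ) (m : I → ℕ) (i : I) : ℤ :=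
  if ty i = Ty.R then (if i ∈ unp σ ty k then σ.P i else σ.p i)
  else σ.p i + ∑ l ∈ unp σ ty k, (a i l : ℤ) * (m l : ℤ)

def finT (a : I → I → ℕ) (σ : Sta I) (ty : I → Ty) (k : ℕ) (m : I → ℕ) (i : I) : Ty :=
  if ty i = Ty.D ∧ 0 < ∑ l ∈ unp σ ty k, a i l * m l then Ty.A else ty i

noncomputable def finG (γ : I →₀ ℕ) (σ : Sta I) (ty : I → Ty) (k : ℕ) (m : I → ℕ) : I →₀ ℕ :=
  γ - ∑ l ∈ unp σ ty k, Finsupp.single l ((k + 1) * m l)

/-- hatted exponent at the end of phase 1. -/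
def finPh (a : I → I → ℕ) (σ : Sta I) (ty : I → Ty) (k : ℕ) (m : I → ℕ) (i : I) : ℚ :=
  Ph a (finK σ ty k) (finP a σ ty k m) (finp a σ ty k m) (finT a σ ty k m) i

end

end Pool.Agent.H27.KAC
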