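import Pool.Agent.H27.KAC.KMDefs

/-!
KAC module KM2: restriction of `KacData` to a subset `S` of the vertices.

PROOF.  `R F` = the series with coefficients `coeff d (R F) = coeff (d extended by zero) F` (the variables outside `S`
are put equal to zero); it is a ring homomorphism (`MvPowerSeries.coeff_mul`: both summands of a vector supported in
`S` are supported in `S`; `Finsupp.embDomain` or `Finsupp.mapDomain` along `Subtype.val`).  `R (X i) = X i` for `i ∈ S`
and `0` for `i ∉ S`; `R (eul j F) = eul j (R F)` for `j ∈ S`; `R (wSer f i j) = wSer (f ∘ ext0 S) i j`;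
`constantCoeff (R F) = constantCoeff F`; the condition on `coeff d (T i k) = coeff d (G i)` for `tdeg d ≤ k` is inherited.

Key point: `R (T j k) = 1` for `j ∉ S`.  There the relation is `R(T_{k+1})^2 = R(T_k) R(T_{k+2})` (`R (X j) = 0`), so with
`t = R (T_1)` one gets `R(T_k) = t^k` (all constant coefficients are one, so these series are units or at least
nonzero divisors).  The coefficients of degree `d` of `R(T_k) = t^k` do not depend on `k ≥ tdeg d`.  If `t ≠ 1` let
`d ≠ 0` be an exponent of minimal total degree `m` with `coeff d t ≠ 0`: then `coeff d (t^k) = k * coeff d t` for all `k`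
(induction on `k`), which is not constant for `k ≥ m`; contradiction.

So for `i ∈ S` the product over all `j` in the relation becomes the product over `j ∈ S`.
-/

set_option autoImplicit false

namespace Pool.Agent.H27.KAC

open scoped BigOperators
open MvPowerSeries

variable {I : Type} [Fintype I] [DecidableEq I]

theorem KM2_tdeg_add {J : Type} [Fintype J] (p q : J →₀ ℕ) : tdeg (p + q) = tdeg p + tdeg q := by
  unfold tdeg
  simp [Finset.sum_add_distrib]

theorem KM2_tdeg_pos {J : Type} [Fintype J] {p : J →₀ ℕ} (h : p ≠ 0) : 0 < tdeg p := by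
  unfold tdeg
  obtain ⟨j, hj⟩ := Finsupp.ne_iff.1 h
  refine Finset.sum_pos' (fun _ _ => Nat.zero_le _) ⟨j, Finset.mem_univ _, ?_⟩
  simpa [Nat.pos_iff_ne_zero] using hj

theorem KM2_coeff_pow {J : Type} [Fintype J] [DecidableEq J] (t : MvPowerSeries J ℚ)
    (ht : constantCoeff t = 1) (d : J →₀ ℕ) (hd : d ≠ 0)
    (h : ∀ d' : J →₀ ℕ, d' ≠ 0 → tdeg d' < tdeg d → coeff d' t = 0) (k : ℕ) :
    coeff d (t ^ k) = k * coeff d t := by
  induction k with
  | zero =>
    rw [pow_zero, MvPowerSeries.coeff_one, if_neg hd]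
    simp
  | succ k ih =>
    rw [pow_succ, MvPowerSeries.coeff_mul]
    rw [Finset.sum_eq_add (d, 0) (0, d)]
    · rw [ih, MvPowerSeries.coeff_zero_eq_constantCoeff_apply,
        MvPowerSeries.coeff_zero_eq_constantCoeff_apply, map_pow, ht, one_pow]
      push_cast
      ring
    · intro hc
      exact hd (Prod.mk.inj hc).1
    · rintro ⟨p, q⟩ hpq hne
      rw [Finset.HasAntidiagonal.mem_antidiagonal] at hpq
      simp only at hpq
      have hq0 : q ≠ 0 := by
        intro hc
        apply hne.1
        rw [hc, add_zero] at hpq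
        rw [hpq, hc]
      have hp0 : p ≠ 0 := by
        intro hc
        apply hne.2
        rw [hc, zero_add] at hpq
        rw [hpq, hc]
      have h1 : tdeg q < tdeg d := by
        rw [← hpq, KM2_tdeg_add]
        have := KM2_tdeg_pos hp0
        omega
      show coeff p (t ^ k) * coeff q t = 0
      rw [h q hq0 h1, mul_zero]
    · intro hc
      exact absurd (Finset.HasAntidiagonal.mem_antidiagonal.2 (by simp)) hc
    · intro hc
      exact absurd (Finset.HasAntidiagonal.mem_antidiagonal.2 (by simp)) hc

theorem KM2_eq_one {J : Type} [Fintype J] [DecidableEq J] (t : MvPowerSeries J ℚ)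
    (ht : constantCoeff t = 1)
    (hst : ∀ (d : J →₀ ℕ) (k : ℕ), tdeg d ≤ k → coeff d (t ^ k) = coeff d (t ^ (k + 1))) :
    t = 1 := by
  have key : ∀ n : ℕ, ∀ d : J →₀ ℕ, d ≠ 0 → tdeg d = n → coeff d t = 0 := by
    intro n
    induction n using Nat.strong_induction_on with
    | _ n ih =>
      intro d hd hn
      have h1 : ∀ d' : J →₀ ℕ, d' ≠ 0 → tdeg d' < tdeg d → coeff d' t = 0 :=
        fun d' hd' hlt => ih (tdeg d') (hn ▸ hlt) d' hd' rfl
      have h2 := hst d (tdeg d) le_rfl
      rw [KM2_coeff_pow t ht d hd h1, KM2_coeff_pow t ht d hd h1] at h2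
      push_cast at h2
      linarith
  ext d
  rw [MvPowerSeries.coeff_one]
  split_ifs with hd
  · rw [hd, MvPowerSeries.coeff_zero_eq_constantCoeff_apply, ht]
  · exact key _ d hd rfl

theorem KM2_seq {J : Type} [Fintype J] [DecidableEq J] (t : ℕ → MvPowerSeries J ℚ)
    (h0 : t 0 = 1) (hc : ∀ k, constantCoeff (t k) = 1)
    (hrec : ∀ k, t (k + 1) ^ 2 = t k * t (k + 2)) (k : ℕ) : t k = t 1 ^ k := by
  have hne : ∀ k, t k ≠ 0 := by
    intro k hk
    have := hc k
    rw [hk] at this
    simp at this
  have h : ∀ k, t k = t 1 ^ k ∧ t (k + 1) = t 1 ^ (k + 1) := by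
    intro k
    induction k with
    | zero => exact ⟨by rw [h0, pow_zero], by rw [zero_add, pow_one]⟩
    | succ k ih =>
      refine ⟨ih.2, ?_⟩
      have h1 := hrec k
      have h2 : t k * t (k + 1 + 1) = t k * t 1 ^ (k + 1 + 1) := by
        rw [← h1, ih.2]
        conv_rhs => rw [ih.1]
        ring
      exact mul_left_cancel₀ (hne k) h2
  exact (h k).1

theorem KacData.restrict {a : I → I → ℕ} {f : (I → ℕ) → ℚ} (hK : KacData a f) (S : Finset I) :
    KacData (resM a S) (fun β => f (ext0 S β)) := by
  classical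
  obtain ⟨T, G, h0, hc, hrec, hst, hG⟩ := hK
  let e : {i // i ∈ S} ↪ I := Function.Embedding.subtype _
  have he : ∀ j : {i // i ∈ S}, e j = (j : I) := fun _ => rfl
  let R : MvPowerSeries I ℚ →ₐ[ℚ] MvPowerSeries {i // i ∈ S} ℚ := killCompl e
  have hRc : ∀ F, constantCoeff (R F) = constantCoeff F := by
    intro F
    rw [← MvPowerSeries.coeff_zero_eq_constantCoeff_apply, coeff_killCompl,
      Finsupp.embDomain_zero, MvPowerSeries.coeff_zero_eq_constantCoeff_apply]
  have hcoe : ∀ (F : MvPowerSeries I ℚ) (d : {i // i ∈ S} →₀ ℕ),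
      coeff d (R F) = coeff (Finsupp.embDomain e d) F := fun F d => coeff_killCompl F d
  have hemb : ∀ (d : {i // i ∈ S} →₀ ℕ) (i : I),
      (Finsupp.embDomain e d) i = ext0 S (fun l => d l) i := by
    intro d i
    unfold ext0
    split_ifs with hi
    · exact Finsupp.embDomain_apply_self e d ⟨i, hi⟩
    · apply Finsupp.embDomain_of_notMem_range
      rintro ⟨j, hj⟩
      exact hi (hj ▸ j.2)
  have htdeg : ∀ d : {i // i ∈ S} →₀ ℕ, tdeg (Finsupp.embDomain e d) = tdeg d := by
    intro d
    unfold tdeg
    have h1 : ∑ i ∈ S, (Finsupp.embDomain e d) i = ∑ i, (Finsupp.embDomain e d) i := by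
      apply Finset.sum_subset (Finset.subset_univ _)
      intro i _ hi
      rw [hemb]
      unfold ext0
      rw [dif_neg hi]
    rw [← h1, ← Finset.sum_coe_sort]
    exact Finset.sum_congr rfl fun j _ => Finsupp.embDomain_apply_self e d j
  -- the series outside S become one
  have hone : ∀ j, j ∉ S → ∀ k, R (T j k) = 1 := by
    intro j hj k
    have hX : R (X j) = 0 := by
      apply killCompl_X_eq_zero
      rintro ⟨i, hi⟩
      exact hj (hi ▸ i.2)
    have hr : ∀ k, R (T j (k + 1)) ^ 2 = R (T j k) * R (T j (k + 2)) := by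
      intro k
      rw [← map_pow, hrec j k, map_add, map_mul, map_mul, map_pow, hX]
      rw [zero_pow (Nat.succ_ne_zero k), zero_mul, add_zero]
    have hpow := KM2_seq (fun k => R (T j k)) (by rw [h0, map_one])
      (fun k => by rw [hRc]; exact hc j k) hr
    have ht : R (T j 1) = 1 := by
      apply KM2_eq_one
      · rw [hRc]; exact hc j 1
      · intro d k hk
        have h1 : R (T j k) = R (T j 1) ^ k := hpow k
        have h2 : R (T j (k + 1)) = R (T j 1) ^ (k + 1) := hpow (k + 1)
        rw [← h1, ← h2, hcoe, hcoe, hst j k _ (by rw [htdeg]; exact hk),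
          hst j (k + 1) _ (by rw [htdeg]; omega)]
    have h3 : R (T j k) = R (T j 1) ^ k := hpow k
    rw [h3, ht, one_pow]
  refine ⟨fun j k => R (T j k), fun j => R (G j), ?_, ?_, ?_, ?_, ?_⟩
  · intro i
    show R (T i 0) = 1
    rw [h0, map_one]
  · intro i k
    show constantCoeff (R (T i k)) = 1
    rw [hRc]
    exact hc i k
  · intro i k
    show R (T i (k + 1)) ^ 2 = R (T i k) * R (T i (k + 2)) +
      (X i) ^ (k + 1) * ∏ j : {i // i ∈ S}, (R (T j (k + 1))) ^ (a i j)
    rw [← map_pow, hrec i k, map_add, map_mul, map_mul, map_pow, map_prod]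
    have hX : R (X (i : I)) = X i := killCompl_X i
    rw [hX]
    congr 2
    rw [Finset.prod_coe_sort S (fun j => R (T j (k + 1)) ^ (a i j))]
    symm
    apply Finset.prod_subset_one_on_sdiff (Finset.subset_univ S)
    · intro j hj
      rw [Finset.mem_sdiff] at hj
      rw [map_pow, hone j hj.2, one_pow]
    · intro j _
      rw [map_pow]
  · intro i k d hd
    show coeff d (R (T i k)) = coeff d (R (G i))
    rw [hcoe, hcoe]
    exact hst i k _ (by rw [htdeg]; exact hd)
  · intro i j
    show eul j (R (G i)) = R (G i) * wSer (fun β => f (ext0 S β)) i j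
    have h1 : eul j (R (G i)) = R (eul (j : I) (G i)) := by
      ext d
      rw [hcoe]
      show (d j : ℚ) * coeff d (R (G i)) =
        ((Finsupp.embDomain e d) j : ℚ) * coeff (Finsupp.embDomain e d) (G i)
      rw [hcoe]
      congr 2
      exact (Finsupp.embDomain_apply_self e d j).symm
    have h2 : wSer (fun β => f (ext0 S β)) i j = R (wSer f (i : I) (j : I)) := by
      ext d
      rw [hcoe]
      show (d i : ℚ) * (d j : ℚ) * f (ext0 S (fun l => d l)) =
        ((Finsupp.embDomain e d) i : ℚ) * ((Finsupp.embDomain e d) j : ℚ) *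
          f (fun l => (Finsupp.embDomain e d) l)
      have h3 : (fun l => (Finsupp.embDomain e d) l) = ext0 S (fun l => d l) := by
        funext l
        exact hemb d l
      rw [h3]
      have h4 : (Finsupp.embDomain e d) (i : I) = d i := Finsupp.embDomain_apply_self e d i
      have h5 : (Finsupp.embDomain e d) (j : I) = d j := Finsupp.embDomain_apply_self e d j
      rw [h4, h5]
    rw [h1, h2, hG, map_mul]

end Pool.Agent.H27.KAC
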