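import Pool.Agent.H27.KAC.KQRawDefs

/-!
KAC module KQEta: basic identities for `η`.

* `uS_eta`: `U_{j,k} = U_{j,k-1}^2 (1 - η_{j,k-1}) / U_{j,k-2}` (k ≥ 2), from `uS_rec`.
* `constantCoeff (η_{j,k}) = 0` for k ≥ 1; `η^m` is divisible by `Y_j^(k m)`.
* `dD_eta`: `D_l η_{j,k} = - λ_{j,k}(l) * η_{j,k}`.
* `xv_eta`: `(1 - η) (x_{j,k} - 2 x_{j,k-1} + x_{j,k-2}) = η λ` i.e.
  `x_{j,k} = 2 x_{j,k-1} - x_{j,k-2} + η λ / (1 - η)`, η = η_{j,k-1}, λ = λ_{j,k-1}.
* `raw_congr_high` : in `raw γ` one may drop summands divisible by `Y_x^n` with n > γ x.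
-/

namespace Pool.Agent.H27.KAC

open scoped BigOperators
open MvPowerSeries

variable {I : Type} [Fintype I] [DecidableEq I]

omit [Fintype I] in
theorem KQEta_colMat_update (c : I → I → MvPowerSeries I ℚ) (j : I) (v : I → MvPowerSeries I ℚ) :
    colMat (Function.update c j v) = (colMat c).updateCol j v := by
  ext l i
  unfold colMat
  rw [Matrix.of_apply, Matrix.updateCol_apply]
  by_cases h : i = j
  · rw [if_pos h, h, Function.update_self]
  · rw [if_neg h, Function.update_of_ne h, Matrix.of_apply]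

theorem KQEta_cU_coe (a : I → I → ℕ) (x : I) (k : ℕ) :
    ((cU a x k : (MvPowerSeries I ℚ)ˣ) : MvPowerSeries I ℚ) = ∏ l, uS a l k ^ (a x l) := by
  unfold cU
  rw [Units.coe_prod]
  refine Finset.prod_congr rfl fun l _ => ?_
  rw [Units.val_pow_eq_pow_val, uu_coe]

theorem eta_const (a : I → I → ℕ) (j : I) (k : ℕ) (hk : 1 ≤ k) :
    constantCoeff (etaS a j k) = 0 := by
  unfold etaS
  rw [map_mul, map_pow, constantCoeff_X, zero_pow (by omega), zero_mul]

/-- `1 - η` is a unit. -/
theorem one_sub_eta_isUnit (a : I → I → ℕ) (j : I) (k : ℕ) (hk : 1 ≤ k) :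
    IsUnit (1 - etaS a j k) := by
  rw [MvPowerSeries.isUnit_iff_constantCoeff, map_sub, eta_const a j k hk, map_one, sub_zero]
  exact isUnit_one

theorem uS_eta (a : I → I → ℕ) (j : I) (k : ℕ) :
    uS a j (k + 2) * uS a j k = uS a j (k + 1) ^ 2 * (1 - etaS a j (k + 1)) := by
  rw [uS_rec]
  unfold etaS
  rw [Units.val_mul, KQEta_cU_coe]
  have h1 : uS a j (k + 1) ^ 2 *
      (((uu a j (k + 1)) ^ (-2 : ℤ) : (MvPowerSeries I ℚ)ˣ) : MvPowerSeries I ℚ) = 1 := by
    rw [← uu_coe, ← Units.val_pow_eq_pow_val, ← Units.val_mul, ← zpow_natCast, ← zpow_add]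
    norm_num
  linear_combination (X j) ^ (k + 1) * (∏ l, uS a l (k + 1) ^ (a j l)) * h1

theorem dD_eta (a : I → I → ℕ) (hs : ∀ i j, a i j = a j i) (j : I) (k : ℕ) (l : I) :
    dD a l (etaS a j k) = - (lamV a j k l * etaS a j k) := by
  have h1 : dlg a (cU a j k * (uu a j k) ^ (-2 : ℤ)) l =
      (∑ l', (a j l' : MvPowerSeries I ℚ) * dlg a (uu a l' k) l) - 2 * dlg a (uu a j k) l := by
    rw [dlg_mul, dlg_zpow]
    unfold cU
    rw [dlg_prod]
    have h2 : ∀ l', dlg a ((uu a l' k) ^ (a j l')) l =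
        (a j l' : MvPowerSeries I ℚ) * dlg a (uu a l' k) l := by
      intro l'
      rw [← zpow_natCast, dlg_zpow, Int.cast_natCast]
    rw [Finset.sum_congr rfl fun l' _ => h2 l']
    push_cast
    ring
  have h3 : lamV a j k l = C ((cart a l j : ℤ) : ℚ) * (k : MvPowerSeries I ℚ) +
      (2 * dlg a (uu a j k) l - ∑ l', (a j l' : MvPowerSeries I ℚ) * dlg a (uu a l' k) l) := by
    unfold lamV xv
    have h4 : ∀ l', C ((cart a l' j : ℤ) : ℚ) *
        ((if l' = l then (k : MvPowerSeries I ℚ) else 0) + dlg a (uu a l' k) l) =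
        (if l' = l then C ((cart a l' j : ℤ) : ℚ) * (k : MvPowerSeries I ℚ) else 0) +
        ((if l' = j then 2 * dlg a (uu a l' k) l else 0) -
          (a j l' : MvPowerSeries I ℚ) * dlg a (uu a l' k) l) := by
      intro l'
      have h5 : (C ((cart a l' j : ℤ) : ℚ) : MvPowerSeries I ℚ) =
          (if l' = j then 2 else 0) - (a j l' : MvPowerSeries I ℚ) := by
        rw [map_intCast]
        unfold cart
        rw [hs l' j]
        split_ifs <;> push_cast <;> ring
      rw [mul_add]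
      congr 1
      · split_ifs with h6
        · rfl
        · rw [mul_zero]
      · rw [h5, sub_mul]
        congr 1
        split_ifs with h6
        · rfl
        · rw [zero_mul]
    rw [Finset.sum_congr rfl fun l' _ => h4 l', Finset.sum_add_distrib, Finset.sum_sub_distrib,
      Finset.sum_ite_eq' Finset.univ l, Finset.sum_ite_eq' Finset.univ j,
      if_pos (Finset.mem_univ _), if_pos (Finset.mem_univ _)]
  unfold etaS
  rw [dD_mul, dD_X_pow, dD_eq_dlg, h1, h3]
  have h7 : (C (-((k : ℚ) * (cart a l j : ℤ))) : MvPowerSeries I ℚ) =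
      -(C ((cart a l j : ℤ) : ℚ) * (k : MvPowerSeries I ℚ)) := by
    rw [map_neg, map_mul, map_natCast, mul_comm]
  rw [h7]
  ring

theorem xv_eta (a : I → I → ℕ) (hs : ∀ i j, a i j = a j i) (j : I) (k : ℕ) (l : I) :
    (1 - etaS a j (k + 1)) * (xv a j (k + 2) l - 2 * xv a j (k + 1) l + xv a j k l) =
      etaS a j (k + 1) * lamV a j (k + 1) l := by
  obtain ⟨E, hE⟩ := one_sub_eta_isUnit a j (k + 1) (by omega)
  have h1 : uu a j (k + 2) * uu a j k = uu a j (k + 1) * uu a j (k + 1) * E := by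
    apply Units.ext
    rw [Units.val_mul, Units.val_mul, Units.val_mul, uu_coe, uu_coe, uu_coe, hE, uS_eta, pow_two]
  have h2 : dlg a (uu a j (k + 2)) l + dlg a (uu a j k) l =
      dlg a (uu a j (k + 1)) l + dlg a (uu a j (k + 1)) l + dlg a E l := by
    rw [← dlg_mul, h1, dlg_mul, dlg_mul]
  have h3 : (1 - etaS a j (k + 1)) * dlg a E l = etaS a j (k + 1) * lamV a j (k + 1) l := by
    rw [← hE, ← dD_eq_dlg, hE, dD_sub, dD_one, dD_eta a hs]
    ring
  rw [← h3]
  congr 1
  unfold xv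
  have h4 : dlg a E l = dlg a (uu a j (k + 2)) l + dlg a (uu a j k) l -
      2 * dlg a (uu a j (k + 1)) l := by
    rw [h2]
    ring
  rw [h4]
  split_ifs
  · push_cast
    ring
  · ring

theorem raw_add (γ : I →₀ ℕ) (F : MvPowerSeries I ℚ) (c : I → I → MvPowerSeries I ℚ) (j : I)
    (v w : I → MvPowerSeries I ℚ) :
    raw γ F (Function.update c j (fun l => v l + w l)) =
      raw γ F (Function.update c j v) + raw γ F (Function.update c j w) := by
  unfold raw
  rw [KQEta_colMat_update, KQEta_colMat_update, KQEta_colMat_update]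
  have h1 : (fun l => v l + w l) = v + w := rfl
  rw [h1, Matrix.det_updateCol_add, mul_add, map_add]

theorem raw_smul (γ : I →₀ ℕ) (F G : MvPowerSeries I ℚ) (c : I → I → MvPowerSeries I ℚ) (j : I)
    (v : I → MvPowerSeries I ℚ) :
    raw γ F (Function.update c j (fun l => G * v l)) =
      raw γ (F * G) (Function.update c j v) := by
  unfold raw
  rw [KQEta_colMat_update, KQEta_colMat_update]
  have h1 : (fun l => G * v l) = G • v := rfl
  rw [h1, Matrix.det_updateCol_smul, mul_assoc]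

theorem raw_add_left (γ : I →₀ ℕ) (F G : MvPowerSeries I ℚ) (c : I → I → MvPowerSeries I ℚ) :
    raw γ (F + G) c = raw γ F c + raw γ G c := by
  unfold raw
  rw [add_mul, map_add]

/-- a factor `X x ^ n` can be taken out. -/
theorem raw_X_pow (γ : I →₀ ℕ) (x : I) (n : ℕ) (F : MvPowerSeries I ℚ)
    (c : I → I → MvPowerSeries I ℚ) :
    raw γ ((X x) ^ n * F) c = rawSub γ x n F c := by
  classical
  unfold rawSub raw
  rw [mul_assoc, X_pow_eq, coeff_monomial_mul]
  by_cases h : n ≤ γ x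
  · rw [if_pos h, if_pos (Finsupp.single_le_iff.2 h), one_mul]
  · rw [if_neg h, if_neg (fun h' => h (Finsupp.single_le_iff.1 h'))]

/-- adding a multiple of another column does not change `raw`. -/
theorem raw_add_col (γ : I →₀ ℕ) (F G : MvPowerSeries I ℚ) (c : I → I → MvPowerSeries I ℚ)
    (i j : I) (hij : i ≠ j) :
    raw γ F (Function.update c j (fun l => c j l + G * c i l)) = raw γ F c := by
  unfold raw
  rw [KQEta_colMat_update]
  have h1 := Matrix.det_updateCol_add_smul_self (colMat c) hij.symm G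
  have h2 : (fun l => c j l + G * c i l) = fun l => colMat c l j + G • colMat c l i := rfl
  rw [h2, h1]

end Pool.Agent.H27.KAC
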