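import Pool.Agent.H27.KAC.KQLaur

/-!
KAC module KQVan: regularity of the one-forms and the general vanishing lemma.

`x` is a vertex without loops.
* `xv_reg`: for `i ≠ x` the form `x_{ik}` is regular in `t_x` (`Fil_dD_gain` with r = 0).
* `xv_pole`: `U_{xk} x_{xk}` is regular of degree `k` (`Fil_dD_gain` with r = k for `l = x`).
* `vanish_general`: all columns are `r_j + g_j u + h_j v` with `u = x_{x,k}`, `v = x_{x,k-1}` and
  regular `r_j`.  Bordered determinant trick: with two extra rows and columns,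
  `det (R + u g^T + v h^T) = det [[R, -u, -v], [g^T, 1, 0], [h^T, 0, 1]]`
  (`Matrix.det_fromBlocks_one₂₂`), so
  `U_{xk}^b U_{x,k-1}^c det(...)` is the determinant of a matrix with regular columns
  (multiply the column of `u` by `U_{xk}` if b ≥ 1, the column of `v` by `U_{x,k-1}` if c ≥ 1; if
  b = 0 then g = 0 and the column is not needed, similarly c).  Alternatively expand the
  determinant multilinearly and use that a determinant with two equal columns vanishes:
  `det (R + u g^T) = det R + ∑_j g_j det (R with column j replaced by u)`.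
  The result lies in `Fil (k b + (k-1) c - 1)`, so its coefficient at `γ` vanishes if
  `(Cγ)_x = k b + (k-1) c`.
-/

namespace Pool.Agent.H27.KAC

open scoped BigOperators
open MvPowerSeries

variable {I : Type} [Fintype I] [DecidableEq I]

theorem uS_fil_ne (a : I → I → ℕ) (hs : ∀ i j, a i j = a j i) (x : I) (hx : a x x = 0) (j : I)
    (hj : j ≠ x) (k : ℕ) : Fil a x 0 (uS a j k) := (laurent_main a hs x hx k).1 j hj

theorem uS_fil_self (a : I → I → ℕ) (hs : ∀ i j, a i j = a j i) (x : I) (hx : a x x = 0) (k : ℕ) :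
    Fil a x k (uS a x k) := (laurent_main a hs x hx k).2

theorem uu_zpow_fil (a : I → I → ℕ) (hs : ∀ i j, a i j = a j i) (x : I) (hx : a x x = 0) (j : I)
    (hj : j ≠ x) (k : ℕ) (n : ℤ) :
    Fil a x 0 (((uu a j k) ^ n : (MvPowerSeries I ℚ)ˣ) : MvPowerSeries I ℚ) := by
  apply Fil_zpow
  · rw [uu_coe]
    exact uS_fil_ne a hs x hx j hj k
  · rw [uu_coe]
    exact uS_const a j k

theorem xv_reg (a : I → I → ℕ) (hs : ∀ i j, a i j = a j i) (x : I) (hx : a x x = 0) (i : I)
    (hi : i ≠ x) (k : ℕ) : VReg a x 0 (xv a i k) := by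
  have hu : Fil a x 0 ((uu a i k : (MvPowerSeries I ℚ)ˣ) : MvPowerSeries I ℚ) := by
    rw [uu_coe]
    exact uS_fil_ne a hs x hx i hi k
  have hc : constantCoeff ((uu a i k : (MvPowerSeries I ℚ)ˣ) : MvPowerSeries I ℚ) = 1 := by
    rw [uu_coe]
    exact uS_const a i k
  have hv := Fil_inv hu hc
  refine ⟨fun l _ => ?_, ?_⟩
  · unfold xv dlg
    refine Fil.add ?_ ?_
    · split_ifs
      · exact Fil_natCast a x k
      · exact Fil_zero a x 0
    · have h := (Fil_dD hu l).mul hv
      rw [add_zero] at h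
      exact h
  · unfold xv dlg
    rw [if_neg hi, zero_add]
    have h0 := Fil_dD_gain hu
    rw [Int.cast_zero, zero_mul, zero_add] at h0
    have h := h0.mul hv
    rw [add_zero] at h
    exact h

theorem xv_pole (a : I → I → ℕ) (hs : ∀ i j, a i j = a j i) (x : I) (hx : a x x = 0) (k : ℕ) :
    VReg a x k (fun l => uS a x k * xv a x k l) := by
  have hu := uS_fil_self a hs x hx k
  have key : ∀ l, uS a x k * xv a x k l =
      (if x = l then (k : MvPowerSeries I ℚ) else 0) * uS a x k + dD a l (uS a x k) := by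
    intro l
    have h1 : uS a x k * (((uu a x k)⁻¹ : (MvPowerSeries I ℚ)ˣ) : MvPowerSeries I ℚ) = 1 := by
      rw [← uu_coe, Units.mul_inv]
    unfold xv dlg
    rw [uu_coe]
    linear_combination (dD a l (uS a x k)) * h1
  refine ⟨fun l hl => ?_, ?_⟩
  · show Fil a x k (uS a x k * xv a x k l)
    rw [key l, if_neg (Ne.symm hl), zero_mul, zero_add]
    exact Fil_dD hu l
  · show Fil a x ((k : ℤ) - 1) (uS a x k * xv a x k x)
    rw [key x, if_pos rfl]
    have h := Fil_dD_gain hu
    rw [Int.cast_natCast] at h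
    exact h

private theorem KQVan_det {J : Type} [Fintype J] [DecidableEq J] {a : I → I → ℕ} {x : I} (x0 : J)
    (rr : J → ℤ) (M : Matrix J J (MvPowerSeries I ℚ))
    (h1 : ∀ l i, l ≠ x0 → Fil a x (rr i) (M l i)) (h2 : ∀ i, Fil a x (rr i - 1) (M x0 i)) :
    Fil a x ((∑ i, rr i) - 1) M.det := by
  rw [Matrix.det_apply']
  apply Fil.sum
  intro σ _
  have h3 : Fil a x (∑ i, (rr i - if σ i = x0 then (1:ℤ) else 0)) (∏ i, M (σ i) i) := by
    apply Fil.prod
    intro i _
    split_ifs with h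
    · rw [h]
      exact h2 i
    · rw [sub_zero]
      exact h1 _ _ h
  have h4 : ∑ i, (rr i - if σ i = x0 then (1:ℤ) else 0) = (∑ i, rr i) - 1 := by
    rw [Finset.sum_sub_distrib]
    congr 1
    rw [Equiv.sum_comp σ (fun j => if j = x0 then (1:ℤ) else 0)]
    simp
  rw [h4] at h3
  have h5 := (Fil_intCast a x ((Equiv.Perm.sign σ : ℤˣ) : ℤ)).mul h3
  rw [zero_add] at h5
  exact h5

/-- the pole of `u = x_{x,k}` is cancelled by `U^b`, if it occurs -/
private theorem KQVan_col (a : I → I → ℕ) (hs : ∀ i j, a i j = a j i) (x : I) (hx : a x x = 0)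
    (k b : ℕ) (g : I → ℚ) (hb : b = 0 → ∀ j, g j = 0) :
    ∃ u : I → MvPowerSeries I ℚ, (∀ j l, C (g j) * xv a x k l = C (g j) * u l) ∧
      VReg a x ((k : ℤ) * b) (fun l => u l * uS a x k ^ b) := by
  rcases Nat.eq_zero_or_pos b with rfl | hb'
  · refine ⟨fun _ => 0, fun j l => ?_, fun l _ => ?_, ?_⟩
    · rw [hb rfl j, map_zero, zero_mul, zero_mul]
    · show Fil a x _ (0 * uS a x k ^ 0)
      rw [zero_mul]
      exact Fil_zero a x _
    · show Fil a x _ (0 * uS a x k ^ 0)
      rw [zero_mul]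
      exact Fil_zero a x _
  · obtain ⟨c, rfl⟩ : ∃ c, b = c + 1 := ⟨b - 1, by omega⟩
    refine ⟨xv a x k, fun _ _ => rfl, ?_⟩
    have h := ((uS_fil_self a hs x hx k).pow c)
    have h2 := VReg.smul h (xv_pole a hs x hx k)
    have e1 : (fun l => uS a x k ^ c * (uS a x k * xv a x k l)) =
        (fun l => xv a x k l * uS a x k ^ (c + 1)) := by
      funext l
      ring
    rw [e1] at h2
    have e2 : (c : ℤ) * k + k = (k : ℤ) * ((c + 1 : ℕ) : ℤ) := by
      push_cast
      ring
    rw [e2] at h2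
    exact h2

/-- General vanishing lemma. -/
theorem vanish_general (a : I → I → ℕ) (hs : ∀ i j, a i j = a j i) (x : I) (hx : a x x = 0)
    (k : ℕ) (hk : 1 ≤ k) (b c : ℕ) (F : MvPowerSeries I ℚ) (hF : Fil a x 0 F)
    (r : I → I → MvPowerSeries I ℚ) (hr : ∀ j, VReg a x 0 (r j)) (g h : I → ℚ)
    (hb : b = 0 → ∀ j, g j = 0) (hc : c = 0 → ∀ j, h j = 0) (γ : I →₀ ℕ)
    (hγ : cw a γ x = (k : ℤ) * b + ((k : ℤ) - 1) * c) :
    raw γ (F * uS a x k ^ b * uS a x (k - 1) ^ c)
      (fun j l => r j l + C (g j) * xv a x k l + C (h j) * xv a x (k - 1) l) = 0 := by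
  obtain ⟨u, hu1, hu2⟩ := KQVan_col a hs x hx k b g hb
  obtain ⟨v, hv1, hv2⟩ := KQVan_col a hs x hx (k - 1) c h hc
  have hU := (uS_fil_self a hs x hx k).pow b
  have hV := (uS_fil_self a hs x hx (k - 1)).pow c
  obtain ⟨M, hM⟩ : ∃ M : Matrix (I ⊕ Fin 2) (I ⊕ Fin 2) (MvPowerSeries I ℚ),
      M = Matrix.fromBlocks (Matrix.of (fun l i => r i l))
        (-(Matrix.of (fun l t => ![u l, v l] t)))
        (Matrix.of (fun t j => ![(C (g j) : MvPowerSeries I ℚ), C (h j)] t)) 1 := ⟨_, rfl⟩
  have hdet : (colMat (fun j l => r j l + C (g j) * xv a x k l +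
      C (h j) * xv a x (k - 1) l)).det = M.det := by
    rw [hM, Matrix.det_fromBlocks_one₂₂]
    congr 1
    ext1 l i
    simp only [colMat, Matrix.of_apply, Matrix.sub_apply, Matrix.mul_apply, Fin.sum_univ_two,
      Matrix.neg_apply, Matrix.cons_val_zero, Matrix.cons_val_one]
    rw [hu1, hv1]
    ring
  obtain ⟨d, hd⟩ : ∃ d : I ⊕ Fin 2 → MvPowerSeries I ℚ,
      d = Sum.elim (fun _ => 1) ![uS a x k ^ b, uS a x (k - 1) ^ c] := ⟨_, rfl⟩
  obtain ⟨rr, hrr⟩ : ∃ rr : I ⊕ Fin 2 → ℤ,
      rr = Sum.elim (fun _ => 0) ![(k : ℤ) * b, ((k - 1 : ℕ) : ℤ) * c] := ⟨_, rfl⟩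
  have hprod : uS a x k ^ b * uS a x (k - 1) ^ c * M.det = (M * Matrix.diagonal d).det := by
    rw [Matrix.det_mul, Matrix.det_diagonal, hd, Fintype.prod_sum_type, Fin.prod_univ_two]
    simp only [Sum.elim_inl, Sum.elim_inr, Finset.prod_const_one, one_mul, Matrix.cons_val_zero,
      Matrix.cons_val_one]
    ring
  have hU' : Fil a x ((k : ℤ) * b) (uS a x k ^ b) := by
    rw [mul_comm]
    exact hU
  have hV' : Fil a x (((k - 1 : ℕ) : ℤ) * c) (uS a x (k - 1) ^ c) := by
    rw [mul_comm]
    exact hV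
  have hfil : Fil a x ((∑ i, rr i) - 1) (M * Matrix.diagonal d).det := by
    apply KQVan_det (Sum.inl x)
    · intro l i hl
      rw [Matrix.mul_diagonal, hM, hd, hrr]
      rcases l with l | t <;> rcases i with i | s
      · have hl' : l ≠ x := fun h => hl (by rw [h])
        simp only [Matrix.fromBlocks_apply₁₁, Matrix.of_apply, Sum.elim_inl, mul_one]
        exact (hr i).1 l hl'
      · have hl' : l ≠ x := fun h => hl (by rw [h])
        simp only [Matrix.fromBlocks_apply₁₂, Matrix.neg_apply, Matrix.of_apply, Sum.elim_inr,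
          neg_mul]
        apply Fil.neg
        fin_cases s
        · exact hu2.1 l hl'
        · exact hv2.1 l hl'
      · simp only [Matrix.fromBlocks_apply₂₁, Matrix.of_apply, Sum.elim_inl, mul_one]
        fin_cases t
        · exact Fil_C a x _
        · exact Fil_C a x _
      · simp only [Matrix.fromBlocks_apply₂₂, Sum.elim_inr, Matrix.one_apply]
        split_ifs
        · rw [one_mul]
          fin_cases s
          · exact hU'
          · exact hV'
        · rw [zero_mul]
          exact Fil_zero a x _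
    · intro i
      rw [Matrix.mul_diagonal, hM, hd, hrr]
      rcases i with i | s
      · simp only [Matrix.fromBlocks_apply₁₁, Matrix.of_apply, Sum.elim_inl, mul_one]
        exact (hr i).2
      · simp only [Matrix.fromBlocks_apply₁₂, Matrix.neg_apply, Matrix.of_apply, Sum.elim_inr,
          neg_mul]
        apply Fil.neg
        fin_cases s
        · exact hu2.2
        · exact hv2.2
  have hsum : ∑ i, rr i = (k : ℤ) * b + ((k : ℤ) - 1) * c := by
    rw [hrr, Fintype.sum_sum_type, Fin.sum_univ_two]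
    simp only [Sum.elim_inl, Sum.elim_inr, Finset.sum_const_zero, zero_add, Matrix.cons_val_zero,
      Matrix.cons_val_one]
    push_cast [Nat.cast_sub hk]
    ring
  unfold raw
  rw [hdet, show F * uS a x k ^ b * uS a x (k - 1) ^ c * M.det =
    F * (uS a x k ^ b * uS a x (k - 1) ^ c * M.det) by ring, hprod]
  refine Fil.coeff_eq_zero (hF.mul hfil) ?_
  rw [hγ, hsum]
  omega

end Pool.Agent.H27.KAC
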