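import Pool.Agent.H27.KAC.KNDefs
import Pool.Agent.H27.KAC.KQEta
import Pool.Agent.H27.KAC.KQVan

/-!
KAC module KN1: expansion of `EV` by one level, vanishing.

* `EV_expand`: for all `i`: `U_{i,k+2}^(-P_i) = U_{i,k+1}^(-2P_i) U_{ik}^(P_i) (1 - η_i)^(-P_i)`, `η_i = etaS a i (k+1)`
  (`uS_eta`), `(1-η)^(-P) = ∑_m C(P-1+m, m) η^m`; `η_i^m` is divisible by `Y_i^((k+1)m)`, so only
  `m_i ≤ γ_i/(k+1)` contribute; `η_i^(m_i) = Y_i^((k+1) m_i) ∏_l U_{l,k+1}^(a_il m_i) U_{i,k+1}^(-2 m_i)`.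
  The total exponent of `U_{i,k+1}` is `p_i - 2P_i - ∑_j C_{ij} m_j`.
  (One may treat the vertices one after the other, or expand the finite product; finite version of the
  binomial series modulo `η^N` as in `KQRaw1`.)
* `EV_vanish`: `x` loop-free, `P_x ≤ 0 ≤ p_x`: the series lies in `Fil a x (κ |P_x| + (κ-1) p_x)`, which equals
  `(Cγ)_x - 1`.
-/

namespace Pool.Agent.H27.KAC

open scoped BigOperators
open MvPowerSeries

variable {I : Type} [Fintype I] [DecidableEq I]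

private theorem KN1_S {R : Type} [CommRing R] (η : R) (P N : ℕ) :
    (1 - η) * ∑ m ∈ Finset.range N, (((P + 1 + m).choose (P + 1) : ℕ) : R) * η ^ m =
      ∑ m ∈ Finset.range N, (((P + m).choose P : ℕ) : R) * η ^ m -
        (((P + N).choose (P + 1) : ℕ) : R) * η ^ N := by
  induction N with
  | zero => simp
  | succ N ih =>
    rw [Finset.sum_range_succ, mul_add, ih, Finset.sum_range_succ]
    have h1 : (P + 1 + N).choose (P + 1) = (P + N).choose P + (P + N).choose (P + 1) := by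
      rw [show P + 1 + N = (P + N) + 1 by ring]
      exact Nat.choose_succ_succ _ _
    have h2 : (P + (N + 1)).choose (P + 1) = (P + N).choose P + (P + N).choose (P + 1) := by
      rw [show P + (N + 1) = (P + N) + 1 by ring]
      exact Nat.choose_succ_succ _ _
    rw [h1, h2]
    push_cast
    ring

private theorem KN1_Q {R : Type} [CommRing R] (η : R) (P N : ℕ) :
    ∃ Q : R, (1 - η) ^ (P + 1) * ∑ m ∈ Finset.range N, (((P + m).choose P : ℕ) : R) * η ^ m =
      1 - η ^ N * Q := by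
  induction P with
  | zero =>
    refine ⟨1, ?_⟩
    simp only [zero_add, Nat.choose_zero_right, Nat.cast_one, one_mul, pow_one, mul_one]
    exact mul_neg_geom_sum η N
  | succ P ih =>
    obtain ⟨Q, hQ⟩ := ih
    refine ⟨Q + (1 - η) ^ (P + 1) * (((P + N).choose (P + 1) : ℕ) : R), ?_⟩
    rw [pow_succ (1 - η) (P + 1), mul_assoc, KN1_S, mul_sub, hQ]
    ring

private theorem KN1_U {R : Type} [CommRing R] (η : R) (w : Rˣ) (hw : (w : R) = 1 - η)
    (P N : ℕ) :
    ∃ Q : R, ((w ^ (-((P : ℤ) + 1)) : Rˣ) : R) =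
      ∑ m ∈ Finset.range N, (((P + m).choose P : ℕ) : R) * η ^ m + η ^ N * Q := by
  obtain ⟨Q, hQ⟩ := KN1_Q η P N
  have h1 : ((w ^ (-((P : ℤ) + 1)) : Rˣ) : R) * (1 - η) ^ (P + 1) = 1 := by
    rw [← hw, ← Units.val_pow_eq_pow_val, ← Units.val_mul]
    have h2 : w ^ (-((P : ℤ) + 1)) * w ^ (P + 1) = 1 := by
      rw [← zpow_natCast w (P + 1), ← zpow_add]
      push_cast
      rw [neg_add_cancel, zpow_zero]
    rw [h2, Units.val_one]
  refine ⟨Q * ((w ^ (-((P : ℤ) + 1)) : Rˣ) : R), ?_⟩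
  linear_combination (-((w ^ (-((P : ℤ) + 1)) : Rˣ) : R)) * hQ +
    (∑ m ∈ Finset.range N, (((P + m).choose P : ℕ) : R) * η ^ m) * h1

/-- the ideal of the power series whose coefficients at all `β ≤ γ` vanish. -/
private noncomputable def KN1_J (γ : I →₀ ℕ) : Ideal (MvPowerSeries I ℚ) where
  carrier := {F | ∀ β ≤ γ, coeff β F = 0}
  zero_mem' := by
    intro β _
    simp
  add_mem' := by
    intro F G hF hG β hβ
    rw [map_add, hF β hβ, hG β hβ, add_zero]
  smul_mem' := by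
    intro G F hF β hβ
    rw [smul_eq_mul, coeff_mul]
    refine Finset.sum_eq_zero fun q hq => ?_
    rw [Finset.HasAntidiagonal.mem_antidiagonal] at hq
    have h : q.2 ≤ γ := le_trans (by rw [← hq]; exact le_add_self) hβ
    rw [hF q.2 h, mul_zero]

omit [Fintype I] in
private theorem KN1_mem (γ : I →₀ ℕ) (F : MvPowerSeries I ℚ) :
    F ∈ KN1_J γ ↔ ∀ β ≤ γ, coeff β F = 0 := Iff.rfl

private theorem KN1_eta_mem (a : I → I → ℕ) (γ : I →₀ ℕ) (j : I) (k : ℕ) (Q : MvPowerSeries I ℚ) :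
    etaS a j (k + 1) ^ (γ j / (k + 1) + 1) * Q ∈ KN1_J γ := by
  have h1 : etaS a j (k + 1) ^ (γ j / (k + 1) + 1) * Q =
      (((cU a j (k + 1) * (uu a j (k + 1)) ^ (-2 : ℤ) : (MvPowerSeries I ℚ)ˣ) :
          MvPowerSeries I ℚ) ^ (γ j / (k + 1) + 1) * Q) *
        (X j : MvPowerSeries I ℚ) ^ ((k + 1) * (γ j / (k + 1) + 1)) := by
    rw [etaS, mul_pow, ← pow_mul]
    ring
  rw [h1]
  apply Ideal.mul_mem_left
  rw [KN1_mem]
  intro β hβ
  rw [X_pow_eq, coeff_monomial, if_neg]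
  intro h
  have h2 : γ j < (k + 1) * (γ j / (k + 1) + 1) := Nat.lt_mul_div_succ (γ j) (Nat.succ_pos k)
  have h3 := hβ j
  rw [h, Finsupp.single_eq_same] at h3
  omega

private theorem KN1_prod (γ : I →₀ ℕ) (S T : I → MvPowerSeries I ℚ) (hT : ∀ i, T i ∈ KN1_J γ)
    (A : MvPowerSeries I ℚ) :
    coeff γ (A * ∏ i, (S i + T i)) = coeff γ (A * ∏ i, S i) := by
  have h1 : ∏ i, (S i + T i) - ∏ i, S i ∈ KN1_J γ := by
    rw [← Ideal.Quotient.eq, map_prod, map_prod]
    refine Finset.prod_congr rfl fun i _ => ?_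
    rw [Ideal.Quotient.eq]
    simpa using hT i
  have h2 := (KN1_J γ).mul_mem_left A h1
  rw [KN1_mem] at h2
  have h3 := h2 γ le_rfl
  rw [mul_sub, map_sub, sub_eq_zero] at h3
  exact h3

private theorem KN1_mono (γ : I →₀ ℕ) (m : I → ℕ) (k : ℕ) (hm : ∀ i, (k + 1) * m i ≤ γ i)
    (F : MvPowerSeries I ℚ) :
    coeff γ ((∏ i, (X i : MvPowerSeries I ℚ) ^ ((k + 1) * m i)) * F) =
      coeff (γ - (k + 1) • toF m) F := by
  have h1 : ∀ s : Finset I, (∏ i ∈ s, (X i : MvPowerSeries I ℚ) ^ ((k + 1) * m i)) =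
      monomial (∑ i ∈ s, Finsupp.single i ((k + 1) * m i)) 1 := by
    intro s
    induction s using Finset.induction_on with
    | empty => simp
    | insert i s his ih =>
      rw [Finset.prod_insert his, Finset.sum_insert his, ih, X_pow_eq, monomial_mul_monomial,
        one_mul]
  have h2 : (∑ i : I, Finsupp.single i ((k + 1) * m i)) = (k + 1) • toF m := by
    ext j
    rw [Finsupp.finsetSum_apply, Finsupp.smul_apply]
    simp [Finsupp.single_apply, toF]
  rw [h1, h2, coeff_monomial_mul, if_pos, one_mul]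
  intro i
  rw [Finsupp.smul_apply]
  simpa [toF] using hm i

/-- the product of `η_i ^ m_i`. -/
private theorem KN1_etaprod (a : I → I → ℕ) (hs : ∀ i j, a i j = a j i) (k : ℕ) (m : I → ℕ) :
    ∏ i, etaS a i (k + 1) ^ m i = (∏ i, (X i : MvPowerSeries I ℚ) ^ ((k + 1) * m i)) *
      ((∏ i, (uu a i (k + 1)) ^ (-∑ j, cart a i j * (m j : ℤ)) : (MvPowerSeries I ℚ)ˣ) :
        MvPowerSeries I ℚ) := by
  have h1 : ∀ i, etaS a i (k + 1) ^ m i = (X i : MvPowerSeries I ℚ) ^ ((k + 1) * m i) *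
      (((cU a i (k + 1) * (uu a i (k + 1)) ^ (-2 : ℤ)) ^ m i : (MvPowerSeries I ℚ)ˣ) :
        MvPowerSeries I ℚ) := by
    intro i
    rw [etaS, mul_pow, ← pow_mul, Units.val_pow_eq_pow_val]
  rw [Finset.prod_congr rfl fun i _ => h1 i, Finset.prod_mul_distrib, ← Units.coe_prod]
  congr 2
  have h2 : ∀ i : I, (cU a i (k + 1) * (uu a i (k + 1)) ^ (-2 : ℤ)) ^ m i =
      (∏ l, (uu a l (k + 1)) ^ ((a i l : ℤ) * (m i : ℤ))) *
        (uu a i (k + 1)) ^ (-2 * (m i : ℤ)) := by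
    intro i
    rw [mul_pow, cU, ← Finset.prod_pow]
    congr 1
    · refine Finset.prod_congr rfl fun l _ => ?_
      rw [← pow_mul, ← zpow_natCast]
      push_cast
      rfl
    · rw [← zpow_natCast, ← zpow_mul]
  rw [Finset.prod_congr rfl fun i _ => h2 i, Finset.prod_mul_distrib, Finset.prod_comm,
    ← Finset.prod_mul_distrib]
  refine Finset.prod_congr rfl fun i _ => ?_
  have h3 : ∀ (u : (MvPowerSeries I ℚ)ˣ) (s : Finset I) (f : I → ℤ),
      ∏ l ∈ s, u ^ (f l) = u ^ (∑ l ∈ s, f l) := by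
    intro u s f
    induction s using Finset.induction_on with
    | empty => simp
    | insert l s hl ih => rw [Finset.prod_insert hl, Finset.sum_insert hl, ih, zpow_add]
  rw [h3, ← zpow_add]
  congr 1
  unfold cart
  simp only [sub_mul, Finset.sum_sub_distrib, ite_mul, zero_mul, Finset.sum_ite_eq,
    Finset.mem_univ, if_true]
  rw [Finset.sum_congr rfl fun l _ => by rw [hs l i]]
  ring

theorem EV_expand (a : I → I → ℕ) (hs : ∀ i j, a i j = a j i) (γ : I →₀ ℕ) (k : ℕ)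
    (P p : I → ℤ) (hP : ∀ i, 1 ≤ P i) :
    EV a γ (k + 2) P p =
      ∑ m ∈ Fintype.piFinset (fun i => Finset.range (γ i / (k + 1) + 1)),
        (∏ i, ((((P i).toNat - 1 + m i).choose (m i) : ℕ) : ℚ)) *
          EV a (γ - (k + 1) • toF m) (k + 1)
            (fun i => 2 * P i - p i + ∑ j, cart a i j * (m j : ℤ)) P := by
  classical
  have hu : ∀ j, IsUnit (1 - etaS a j (k + 1)) := fun j => one_sub_eta_isUnit a j (k + 1) (by omega)
  set w : I → (MvPowerSeries I ℚ)ˣ := fun j => (hu j).unit with hwdef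
  have hw : ∀ j, (w j : MvPowerSeries I ℚ) = 1 - etaS a j (k + 1) := fun j => rfl
  have huu : ∀ j, uu a j (k + 2) = (uu a j (k + 1)) ^ 2 * w j * (uu a j k)⁻¹ := by
    intro j
    rw [eq_mul_inv_iff_mul_eq]
    ext1
    rw [Units.val_mul, Units.val_mul, Units.val_pow_eq_pow_val, uu_coe, uu_coe, uu_coe, hw]
    exact uS_eta a j k
  have hfac : facG a (fun _ => k + 2) P p =
      ((∏ i, ((uu a i (k + 1)) ^ (-(2 * P i - p i)) * (uu a i k) ^ (P i)) :
        (MvPowerSeries I ℚ)ˣ) : MvPowerSeries I ℚ) *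
      ∏ i, ((w i ^ (-(P i)) : (MvPowerSeries I ℚ)ˣ) : MvPowerSeries I ℚ) := by
    rw [facG, ← Units.coe_prod, ← Units.val_mul, ← Finset.prod_mul_distrib]
    congr 1
    refine Finset.prod_congr rfl fun i _ => ?_
    show uu a i (k + 2) ^ (-P i) * uu a i (k + 2 - 1) ^ p i = _
    rw [show k + 2 - 1 = k + 1 from rfl, huu i, mul_zpow, mul_zpow,
      ← zpow_natCast (uu a i (k + 1)) 2, ← zpow_mul, inv_zpow', neg_neg,
      show -(2 * P i - p i) = ((2 : ℕ) : ℤ) * -(P i) + p i by push_cast; ring, zpow_add]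
    simp only [mul_comm, mul_left_comm]
  -- expansion of the powers of `w i`
  have hex : ∀ i, ∃ Q : MvPowerSeries I ℚ,
      ((w i ^ (-(P i)) : (MvPowerSeries I ℚ)ˣ) : MvPowerSeries I ℚ) =
        ∑ m ∈ Finset.range (γ i / (k + 1) + 1),
          ((((P i).toNat - 1 + m).choose m : ℕ) : MvPowerSeries I ℚ) * etaS a i (k + 1) ^ m +
        etaS a i (k + 1) ^ (γ i / (k + 1) + 1) * Q := by
    intro i
    obtain ⟨Q, hQ⟩ := KN1_U (etaS a i (k + 1)) (w i) (hw i) ((P i).toNat - 1) (γ i / (k + 1) + 1)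
    refine ⟨Q, ?_⟩
    have h1 : -(P i) = -((((P i).toNat - 1 : ℕ) : ℤ) + 1) := by
      have := hP i
      omega
    rw [h1, hQ]
    congr 1
    refine Finset.sum_congr rfl fun m _ => ?_
    rw [Nat.choose_symm_add]
  choose Q hQ using hex
  rw [EV, hfac, Finset.prod_congr rfl fun i _ => hQ i,
    KN1_prod γ _ _ (fun i => KN1_eta_mem a γ i k (Q i)), Finset.prod_univ_sum, Finset.mul_sum,
    map_sum]
  refine Finset.sum_congr rfl fun m hm => ?_
  have hm' : ∀ i, (k + 1) * m i ≤ γ i := by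
    intro i
    have h1 := Fintype.mem_piFinset.1 hm i
    rw [Finset.mem_range] at h1
    have h2 : m i ≤ γ i / (k + 1) := by omega
    calc (k + 1) * m i ≤ (k + 1) * (γ i / (k + 1)) := Nat.mul_le_mul_left _ h2
      _ ≤ γ i := Nat.mul_div_le _ _
  have h7 : ∏ i, (((((P i).toNat - 1 + m i).choose (m i) : ℕ) : MvPowerSeries I ℚ) *
      etaS a i (k + 1) ^ m i) =
      (∏ i, ((((P i).toNat - 1 + m i).choose (m i) : ℕ) : MvPowerSeries I ℚ)) *
        ∏ i, etaS a i (k + 1) ^ m i := Finset.prod_mul_distrib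
  rw [h7, KN1_etaprod a hs, EV, ← KN1_mono γ m k hm', facG]
  have h4 : ((∏ i, ((uu a i (k + 1)) ^ (-(2 * P i - p i)) * (uu a i k) ^ (P i)) :
        (MvPowerSeries I ℚ)ˣ) : MvPowerSeries I ℚ) *
      ((∏ i, (uu a i (k + 1)) ^ (-∑ j, cart a i j * (m j : ℤ)) : (MvPowerSeries I ℚ)ˣ) :
        MvPowerSeries I ℚ) =
      ((∏ i, ((uu a i (k + 1)) ^ (-(2 * P i - p i + ∑ j, cart a i j * (m j : ℤ))) *
        (uu a i (k + 1 - 1)) ^ (P i)) : (MvPowerSeries I ℚ)ˣ) : MvPowerSeries I ℚ) := by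
    rw [← Units.val_mul, ← Finset.prod_mul_distrib]
    congr 1
    refine Finset.prod_congr rfl fun i _ => ?_
    rw [show k + 1 - 1 = k from rfl, show -(2 * P i - p i + ∑ j, cart a i j * (m j : ℤ)) =
      -(2 * P i - p i) + -∑ j, cart a i j * (m j : ℤ) by ring, zpow_add, mul_right_comm]
  rw [← h4]
  have h5 : ∀ (F G H : MvPowerSeries I ℚ) (n : I → ℕ),
      coeff γ (F * ((∏ i, ((n i : ℕ) : MvPowerSeries I ℚ)) * (G * H))) =
        (∏ i, ((n i : ℕ) : ℚ)) * coeff γ (G * (F * H)) := by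
    intro F G H n
    have h6 : F * ((∏ i, ((n i : ℕ) : MvPowerSeries I ℚ)) * (G * H)) =
        (∏ i, n i) • (G * (F * H)) := by
      rw [nsmul_eq_mul, Nat.cast_prod]
      ring
    rw [h6, map_nsmul, nsmul_eq_mul, Nat.cast_prod]
  exact h5 _ _ _ _

theorem EV_vanish (a : I → I → ℕ) (hs : ∀ i j, a i j = a j i) (x : I) (hx : a x x = 0)
    (γ : I →₀ ℕ) (κ : ℕ) (hκ : 1 ≤ κ) (P p : I → ℤ) (hP : P x ≤ 0) (hp : 0 ≤ p x)
    (hc : cw a γ x = ((κ : ℤ) - 1) * p x - (κ : ℤ) * P x + 1) :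
    EV a γ κ P p = 0 := by
  classical
  rw [EV, facG, Units.coe_prod]
  have hfil : Fil a x (∑ i, if i = x then ((κ : ℤ) * (-(P x)) + ((κ : ℤ) - 1) * p x) else 0)
      (∏ i, (((uu a i κ) ^ (-(P i)) * (uu a i (κ - 1)) ^ (p i) : (MvPowerSeries I ℚ)ˣ) :
        MvPowerSeries I ℚ)) := by
    apply Fil.prod
    intro i _
    by_cases hi : i = x
    · subst hi
      rw [if_pos rfl, Units.val_mul]
      apply Fil.mul
      · have h1 : -(P i) = (((-(P i)).toNat : ℕ) : ℤ) := by omega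
        rw [h1, zpow_natCast, Units.val_pow_eq_pow_val, uu_coe, mul_comm]
        exact (uS_fil_self a hs i hx κ).pow _
      · have h1 : p i = (((p i).toNat : ℕ) : ℤ) := by omega
        rw [h1, zpow_natCast, Units.val_pow_eq_pow_val, uu_coe, mul_comm]
        have h2 : ((κ : ℤ) - 1) = ((κ - 1 : ℕ) : ℤ) := by omega
        rw [h2]
        exact (uS_fil_self a hs i hx (κ - 1)).pow _
    · rw [if_neg hi, Units.val_mul]
      have h := (uu_zpow_fil a hs x hx i hi κ (-(P i))).mul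
        (uu_zpow_fil a hs x hx i hi (κ - 1) (p i))
      rwa [add_zero] at h
  refine hfil.coeff_eq_zero ?_
  rw [Finset.sum_ite_eq' Finset.univ x, if_pos (Finset.mem_univ x), hc]
  linarith

theorem EV_one (a : I → I → ℕ) (γ : I →₀ ℕ) (P p : I → ℤ) :
    EV a γ 1 P p = if γ = 0 then 1 else 0 := by
  classical
  have h1 : ∀ i, uu a i 1 = 1 := by
    intro i
    ext1
    rw [uu_coe, uS_one, Units.val_one]
  have h0 : ∀ i, uu a i (1 - 1) = 1 := by
    intro i
    ext1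
    rw [uu_coe, Units.val_one]
    exact uS_zero a i
  rw [EV, facG]
  have h2 : (∏ i, ((uu a i 1) ^ (-(P i)) * (uu a i (1 - 1)) ^ (p i)) : (MvPowerSeries I ℚ)ˣ) = 1 := by
    refine Finset.prod_eq_one fun i _ => ?_
    rw [h1, h0, one_zpow, one_zpow, one_mul]
  rw [h2, Units.val_one, coeff_one]

end Pool.Agent.H27.KAC
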