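import Pool.Agent.H27.KAC.KQState
import Pool.Agent.H27.KAC.KQEta

/-!
KAC module KQSt1: elementary lemmas on `GVal` and `Val`.

* `Val_eq_GVal`: M = identity matrix.
* `GVal_norm`: if `N = H M` (matrix product) then the columns of the general state are the columns
  of the normal state times `M` on the right, so `GVal = det M * Val`.
* `GVal_vanish`: from `vanish_general` with `b = -P x`, `c = p x` (natural numbers), the other
  columns/forms are regular (`xv_reg`), and the other factors lie in `Fil 0` (`uu_zpow_fil`).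
* `MJ_det`, `NJ_eq`: linear algebra: `det (MJ) = tauJ` (the matrix is the identity with column `j`
  and row `j` modified) and `NJ = HJ * MJ` if `tauJ ≠ 0`.
* `Val_affine`: scaling a set of columns/rows of `H` by `1 - δ` gives a polynomial in `δ`.
-/

namespace Pool.Agent.H27.KAC

open scoped BigOperators
open MvPowerSeries

variable {I : Type} [Fintype I] [DecidableEq I]

theorem Val_eq_GVal (a : I → I → ℕ) (γ : I →₀ ℕ) (σ : Sta I) :
    Val a γ σ = GVal a γ σ.κ σ.P σ.p (fun l i => if l = i then 1 else 0) σ.H := by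
  unfold Val GVal
  have h1 : facG a σ.κ σ.P σ.p = facS a σ := rfl
  have h2 : colG a σ.κ (fun l i => if l = i then 1 else 0) σ.H = colS a σ := by
    funext i l
    unfold colG colS
    congr 1
    rw [Finset.sum_eq_single i]
    · simp
    · intro b _ hb
      simp [hb]
    · intro h
      exact absurd (Finset.mem_univ i) h
  rw [h1, h2]

theorem GVal_norm (a : I → I → ℕ) (γ : I →₀ ℕ) (κ : I → ℕ) (P p : I → ℤ) (M N H : I → I → ℚ)
    (h : ∀ l i, N l i = ∑ l', H l l' * M l' i) :
    GVal a γ κ P p M N = (Matrix.of M).det * Val a γ ⟨κ, P, p, H⟩ := by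
  have h1 : colMat (colG a κ M N) =
      colMat (colS a ⟨κ, P, p, H⟩) * (Matrix.of M).map (C : ℚ →+* MvPowerSeries I ℚ) := by
    ext1 l i
    rw [Matrix.mul_apply]
    simp only [colMat, Matrix.of_apply, Matrix.map_apply, colG, colS]
    simp only [sub_mul, Finset.sum_sub_distrib]
    congr 1
    · exact Finset.sum_congr rfl fun l' _ => mul_comm _ _
    · simp only [h, map_sum, map_mul, Finset.sum_mul]
      rw [Finset.sum_comm]
      refine Finset.sum_congr rfl fun l' _ => ?_
      refine Finset.sum_congr rfl fun l'' _ => ?_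
      ring
  unfold GVal Val raw
  rw [h1, Matrix.det_mul]
  have h2 : ((Matrix.of M).map (C : ℚ →+* MvPowerSeries I ℚ)).det =
      C (Matrix.of M).det := by
    rw [RingHom.map_det]
    rfl
  have h3 : facG a κ P p = facS a ⟨κ, P, p, H⟩ := rfl
  rw [h2, h3, ← mul_assoc, mul_comm _ (C (Matrix.of M).det), MvPowerSeries.coeff_C_mul]

theorem GVal_vanish (a : I → I → ℕ) (hs : ∀ i j, a i j = a j i) (x : I) (hx : a x x = 0)
    (γ : I →₀ ℕ) (κ : I → ℕ) (hκ : ∀ i, 1 ≤ κ i) (P p : I → ℤ) (M N : I → I → ℚ)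
    (hP : P x ≤ -1) (hp : 1 ≤ p x ∨ (p x = 0 ∧ ∀ i, N x i = 0))
    (hc : cw a γ x = ((κ x : ℤ) - 1) * p x - (κ x : ℤ) * P x) :
    GVal a γ κ P p M N = 0 := by
  obtain ⟨b, hb⟩ : ∃ b : ℕ, P x = -(b : ℤ) := ⟨(-P x).toNat, by omega⟩
  obtain ⟨c, hc'⟩ : ∃ c : ℕ, p x = (c : ℤ) := ⟨(p x).toNat, by omega⟩
  set Fu : (MvPowerSeries I ℚ)ˣ := ∏ i ∈ Finset.univ.erase x,
    ((uu a i (κ i)) ^ (-(P i)) * (uu a i (κ i - 1)) ^ (p i)) with hFu
  have hF : Fil a x 0 (Fu : MvPowerSeries I ℚ) := by
    have h1 : (Fu : MvPowerSeries I ℚ) = ∏ i ∈ Finset.univ.erase x,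
        ((((uu a i (κ i)) ^ (-(P i)) : (MvPowerSeries I ℚ)ˣ) : MvPowerSeries I ℚ) *
          (((uu a i (κ i - 1)) ^ (p i) : (MvPowerSeries I ℚ)ˣ) : MvPowerSeries I ℚ)) := by
      rw [hFu]
      rw [Units.coe_prod]
      refine Finset.prod_congr rfl fun i _ => ?_
      rw [Units.val_mul]
    rw [h1]
    have h2 := Fil.prod (a := a) (x := x) (r := fun _ : I => (0 : ℤ)) (s := Finset.univ.erase x)
      (F := fun i => ((((uu a i (κ i)) ^ (-(P i)) : (MvPowerSeries I ℚ)ˣ) : MvPowerSeries I ℚ) *
          (((uu a i (κ i - 1)) ^ (p i) : (MvPowerSeries I ℚ)ˣ) : MvPowerSeries I ℚ))) ?_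
    · simpa using h2
    · intro i hi
      have hix : i ≠ x := (Finset.mem_erase.1 hi).1
      have h3 := (uu_zpow_fil a hs x hx i hix (κ i) (-(P i))).mul
        (uu_zpow_fil a hs x hx i hix (κ i - 1) (p i))
      simpa using h3
  have hfac : facG a κ P p = (Fu : MvPowerSeries I ℚ) * uS a x (κ x) ^ b *
      uS a x (κ x - 1) ^ c := by
    unfold facG
    rw [← Finset.mul_prod_erase Finset.univ _ (Finset.mem_univ x), ← hFu, hb, hc', neg_neg,
      zpow_natCast, zpow_natCast, Units.val_mul, Units.val_mul, Units.val_pow_eq_pow_val,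
      Units.val_pow_eq_pow_val, uu_coe, uu_coe]
    ring
  have hcol : colG a κ M N = fun j l =>
      (∑ l' ∈ Finset.univ.erase x, C (M l' j) * xv a l' (κ l') l -
        ∑ l' ∈ Finset.univ.erase x, C (N l' j) * xv a l' (κ l' - 1) l) +
        C (M x j) * xv a x (κ x) l + C (-(N x j)) * xv a x (κ x - 1) l := by
    funext j l
    unfold colG
    rw [← Finset.add_sum_erase Finset.univ (fun l' => C (M l' j) * xv a l' (κ l') l)
      (Finset.mem_univ x), ← Finset.add_sum_erase Finset.univ
      (fun l' => C (N l' j) * xv a l' (κ l' - 1) l) (Finset.mem_univ x), map_neg]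
    ring
  have hreg : ∀ j, VReg a x 0 (fun l =>
      (∑ l' ∈ Finset.univ.erase x, C (M l' j) * xv a l' (κ l') l -
        ∑ l' ∈ Finset.univ.erase x, C (N l' j) * xv a l' (κ l' - 1) l)) := by
    intro j
    have h1 : VReg a x 0 (fun l => ∑ l' ∈ Finset.univ.erase x, C (M l' j) * xv a l' (κ l') l) := by
      apply VReg.sum (v := fun l' l => C (M l' j) * xv a l' (κ l') l)
      intro l' hl'
      have := VReg.smul (Fil_C a x (M l' j)) (xv_reg a hs x hx l' (Finset.mem_erase.1 hl').1 (κ l'))
      simpa using this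
    have h2 : VReg a x 0 (fun l => ∑ l' ∈ Finset.univ.erase x,
        C (-(N l' j)) * xv a l' (κ l' - 1) l) := by
      apply VReg.sum (v := fun l' l => C (-(N l' j)) * xv a l' (κ l' - 1) l)
      intro l' hl'
      have := VReg.smul (Fil_C a x (-(N l' j)))
        (xv_reg a hs x hx l' (Finset.mem_erase.1 hl').1 (κ l' - 1))
      simpa using this
    have h3 := h1.add h2
    have h4 : (fun l => ∑ l' ∈ Finset.univ.erase x, C (M l' j) * xv a l' (κ l') l +
        ∑ l' ∈ Finset.univ.erase x, C (-(N l' j)) * xv a l' (κ l' - 1) l) = (fun l =>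
      (∑ l' ∈ Finset.univ.erase x, C (M l' j) * xv a l' (κ l') l -
        ∑ l' ∈ Finset.univ.erase x, C (N l' j) * xv a l' (κ l' - 1) l)) := by
      funext l
      rw [sub_eq_add_neg, ← Finset.sum_neg_distrib]
      congr 1
      refine Finset.sum_congr rfl fun l' _ => ?_
      rw [map_neg, neg_mul]
    rw [h4] at h3
    exact h3
  unfold GVal
  rw [hfac, hcol]
  refine vanish_general a hs x hx (κ x) (hκ x) b c _ hF _ hreg (fun j => M x j)
    (fun j => -(N x j)) ?_ ?_ γ ?_
  · intro h0; exfalso; subst h0; rw [hb] at hP; norm_num at hP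
  · intro h0 j
    subst h0
    rcases hp with hp | ⟨_, hp⟩
    · exfalso; rw [hc'] at hp; norm_num at hp
    · rw [hp j, neg_zero]
  · rw [hc, hb, hc']; ring

theorem Val_vanish (a : I → I → ℕ) (hs : ∀ i j, a i j = a j i) (x : I) (hx : a x x = 0)
    (γ : I →₀ ℕ) (σ : Sta I) (hκ : ∀ i, 1 ≤ σ.κ i)
    (hP : σ.P x ≤ -1) (hp : 1 ≤ σ.p x ∨ (σ.p x = 0 ∧ ∀ i, σ.H x i = 0))
    (hc : Cons a γ σ x) : Val a γ σ = 0 := by
  rw [Val_eq_GVal]
  exact GVal_vanish a hs x hx γ σ.κ hκ σ.P σ.p _ σ.H hP hp hc

theorem MJ_det (a : I → I → ℕ) (σ : Sta I) (ty : I → Ty) (j : I) (m : ℕ) (hj : ty j = Ty.R) :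
    (Matrix.of (MJ a σ ty j m)).det = tauJ a σ ty j m := by
  -- `h` : the row, `v` : the column
  let h : I → ℚ := fun i => if i = j then 0 else - σ.H j i
  let v : I → ℚ := fun l => MJ a σ ty j m l j
  let u : I → ℚ := fun l => if l = j then 1 else 0
  let w : I → ℚ := fun l => v l + (if l = j then ∑ i ∈ Finset.univ.erase j, σ.H j i * v i else 0)
  have hE : (Matrix.of (MJ a σ ty j m)) =
      (1 + Matrix.replicateCol Unit u * Matrix.replicateRow Unit h) *
        (Matrix.updateCol (1 : Matrix I I ℚ) j w) := by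
    ext1 l i
    have hcol : ∀ (x : I → ℚ), (∑ k, (1 + Matrix.replicateCol Unit u *
        Matrix.replicateRow Unit h : Matrix I I ℚ) l k * x k) =
        x l + (if l = j then ∑ k ∈ Finset.univ.erase j, - σ.H j k * x k else 0) := by
      intro x
      simp only [Matrix.add_apply, Matrix.mul_apply, Matrix.replicateCol_apply,
        Matrix.replicateRow_apply, Finset.univ_unique, Finset.sum_const, Finset.card_singleton,
        one_smul, add_mul, Finset.sum_add_distrib]
      congr 1
      · rw [Finset.sum_eq_single l]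
        · simp
        · intro b _ hb; simp [Matrix.one_apply_ne hb.symm]
        · intro hh; exact absurd (Finset.mem_univ l) hh
      · by_cases hl : l = j
        · rw [if_pos hl]
          simp only [u, if_pos hl, one_mul]
          rw [← Finset.add_sum_erase Finset.univ _ (Finset.mem_univ j)]
          simp only [h, if_pos, zero_mul, zero_add]
          refine Finset.sum_congr rfl fun k hk => ?_
          rw [if_neg (Finset.mem_erase.1 hk).1]
        · rw [if_neg hl]
          simp only [u, if_neg hl, zero_mul, Finset.sum_const_zero]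
    rw [Matrix.mul_apply]
    by_cases hi : i = j
    · subst hi
      have e1 : ∀ k, (Matrix.updateCol (1 : Matrix I I ℚ) i w) k i = w k := by
        intro k; simp
      simp only [e1]
      rw [hcol w]
      simp only [Matrix.of_apply, w]
      by_cases hl : l = i
      · subst hl
        simp only [if_true]
        have e2 : ∑ k ∈ Finset.univ.erase l, -σ.H l k *
            (v k + if k = l then ∑ i ∈ Finset.univ.erase l, σ.H l i * v i else 0) =
            - ∑ k ∈ Finset.univ.erase l, σ.H l k * v k := by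
          rw [← Finset.sum_neg_distrib]
          refine Finset.sum_congr rfl fun k hk => ?_
          rw [if_neg (Finset.mem_erase.1 hk).1]
          ring
        rw [e2]
        simp only [v]
        ring
      · simp only [if_neg hl, add_zero, v]
    · have e1 : ∀ k, (Matrix.updateCol (1 : Matrix I I ℚ) j w) k i = if k = i then 1 else 0 := by
        intro k
        rw [Matrix.updateCol_ne hi, Matrix.one_apply]
      simp only [e1]
      rw [hcol (fun k => if k = i then 1 else 0)]
      simp only [Matrix.of_apply, MJ, if_neg hi]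
      by_cases hl : l = j
      · subst hl
        simp only [if_true]
        have e3 : ∑ k ∈ Finset.univ.erase l, -σ.H l k * (if k = i then (1:ℚ) else 0) = - σ.H l i := by
          rw [Finset.sum_eq_single i]
          · simp
          · intro b _ hb; simp [hb]
          · intro hh; exact absurd (Finset.mem_erase.2 ⟨hi, Finset.mem_univ i⟩) hh
        rw [e3]
        ring
      · simp only [if_neg hl, sub_zero, add_zero]
  rw [hE, Matrix.det_mul, Matrix.det_one_add_replicateCol_mul_replicateRow]
  have h2 : (Matrix.updateCol (1 : Matrix I I ℚ) j w).det = w j := by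
    rw [← Matrix.cramer_apply, Matrix.cramer_one]
    rfl
  have h1 : h ⬝ᵥ u = 0 := by
    unfold dotProduct
    refine Finset.sum_eq_zero fun i _ => ?_
    simp only [h, u]
    by_cases hi : i = j <;> simp [hi]
  rw [h1, h2]
  simp only [w, if_true, add_zero, one_mul]
  unfold tauJ
  have h3 : v j = scl σ j m * (2 - σ.H j j) + m * effC a (wallsAt σ ty j) j := by
    simp [v, MJ]
  have h4 : ∑ i ∈ Finset.univ.erase j, σ.H j i * v i =
      - (m * ∑ l ∈ procd σ ty j, effA a (wallsAt σ ty j) l j * σ.H j l) := by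
    have h5 : ∀ i ∈ Finset.univ.erase j, σ.H j i * v i =
        if (ty i = Ty.R ∧ σ.κ i + 1 = σ.κ j) then
          - (m * (effA a (wallsAt σ ty j) i j * σ.H j i)) else 0 := by
      intro i hi
      have hij : i ≠ j := (Finset.mem_erase.1 hi).1
      simp only [v, MJ, if_true, if_neg hij]
      split_ifs with hc
      · ring
      · ring
    rw [Finset.sum_congr rfl h5, ← Finset.sum_filter, Finset.mul_sum, ← Finset.sum_neg_distrib]
    have h6 : (Finset.univ.erase j).filter (fun i => ty i = Ty.R ∧ σ.κ i + 1 = σ.κ j) =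
        procd σ ty j := by
      ext i
      simp [procd]
    rw [h6]
  rw [h3, h4]
  ring

theorem NJ_eq (a : I → I → ℕ) (σ : Sta I) (ty : I → Ty) (hS : Shape a σ ty) (j : I) (m : ℕ)
    (hj : ty j = Ty.R) (ht : tauJ a σ ty j m ≠ 0) (l i : I) :
    NJ a σ ty j m l i = ∑ l', HJ a σ ty j m l l' * MJ a σ ty j m l' i := by
  rw [← Finset.add_sum_erase Finset.univ _ (Finset.mem_univ j)]
  by_cases hi : i = j
  · subst hi
    have h1 : ∑ l' ∈ Finset.univ.erase i, HJ a σ ty i m l l' * MJ a σ ty i m l' i =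
        - (m * ∑ l' ∈ procd σ ty i, effA a (wallsAt σ ty i) l' i * HJ a σ ty i m l l') := by
      have h5 : ∀ l' ∈ Finset.univ.erase i, HJ a σ ty i m l l' * MJ a σ ty i m l' i =
          if (ty l' = Ty.R ∧ σ.κ l' + 1 = σ.κ i) then
            - (m * (effA a (wallsAt σ ty i) l' i * HJ a σ ty i m l l')) else 0 := by
        intro l' hl'
        have hij : l' ≠ i := (Finset.mem_erase.1 hl').1
        simp only [MJ, if_true, if_neg hij]
        split_ifs with hc
        · ring
        · ring
      rw [Finset.sum_congr rfl h5, ← Finset.sum_filter, Finset.mul_sum, ← Finset.sum_neg_distrib]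
      have h6 : (Finset.univ.erase i).filter (fun l' => ty l' = Ty.R ∧ σ.κ l' + 1 = σ.κ i) =
          procd σ ty i := by
        ext l'
        simp [procd]
      rw [h6]
    rw [h1]
    have hMii : MJ a σ ty i m i i = scl σ i m * (2 - σ.H i i) +
        m * effC a (wallsAt σ ty i) i := by simp [MJ]
    rw [hMii]
    set τ := tauJ a σ ty i m with hτ
    have hτ' : τ = scl σ i m * (2 - σ.H i i) + m * effC a (wallsAt σ ty i) i -
      m * ∑ l ∈ procd σ ty i, effA a (wallsAt σ ty i) l i * σ.H i l := rfl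
    have hne : ∀ l' ∈ procd σ ty i, l' ≠ i ∧ ty l' = Ty.R := by
      intro l' hl'
      simp only [procd, Finset.mem_filter] at hl'
      exact ⟨hl'.2.1, hl'.2.2.1⟩
    by_cases hl : l = i
    · subst hl
      have h7 : ∑ l' ∈ procd σ ty l, effA a (wallsAt σ ty l) l' l * HJ a σ ty l m l l' =
          (∑ l' ∈ procd σ ty l, effA a (wallsAt σ ty l) l' l * σ.H l l') * (scl σ l m / τ) := by
        rw [Finset.sum_mul]
        refine Finset.sum_congr rfl fun l' hl' => ?_
        simp only [HJ, if_neg (hne l' hl').1, if_true, ← hτ]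
        ring
      have h8 : HJ a σ ty l m l l = scl σ l m / τ := by simp [HJ, ← hτ]
      rw [h7, h8]
      simp only [NJ, if_true]
      have h9 : scl σ l m / τ * (scl σ l m * (2 - σ.H l l) + m * effC a (wallsAt σ ty l) l) +
          -(m * ((∑ l' ∈ procd σ ty l, effA a (wallsAt σ ty l) l' l * σ.H l l') *
            (scl σ l m / τ))) = scl σ l m / τ * τ := by
        rw [hτ']; ring
      rw [h9, div_mul_cancel₀ _ ht]
    · have h7 : ∑ l' ∈ procd σ ty i, effA a (wallsAt σ ty i) l' i * HJ a σ ty i m l l' =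
          (∑ l' ∈ procd σ ty i, effA a (wallsAt σ ty i) l' i * σ.H l l') +
          (∑ l' ∈ procd σ ty i, effA a (wallsAt σ ty i) l' i * σ.H i l') *
            (hJ a σ ty i m l / τ) := by
        rw [Finset.sum_mul, ← Finset.sum_add_distrib]
        refine Finset.sum_congr rfl fun l' hl' => ?_
        have hR := (hne l' hl').2
        simp only [HJ, if_neg (hne l' hl').1, if_neg hl, ← hτ, HD, hR]
        simp only [reduceCtorEq, false_and, if_false]
        ring
      have h8 : HJ a σ ty i m l i = hJ a σ ty i m l / τ := by simp [HJ, ← hτ, hl]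
      rw [h7, h8]
      have h9 : hJ a σ ty i m l / τ * (scl σ i m * (2 - σ.H i i) +
            m * effC a (wallsAt σ ty i) i) +
          -(m * (∑ l' ∈ procd σ ty i, effA a (wallsAt σ ty i) l' i * σ.H l l' +
            (∑ l' ∈ procd σ ty i, effA a (wallsAt σ ty i) l' i * σ.H i l') *
            (hJ a σ ty i m l / τ))) = hJ a σ ty i m l / τ * τ -
            m * ∑ l' ∈ procd σ ty i, effA a (wallsAt σ ty i) l' i * σ.H l l' := by
        rw [hτ']; ring
      rw [h9, div_mul_cancel₀ _ ht]
      simp only [NJ, if_true, if_neg hl, hJ]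
      ring
  · have h1 : ∑ l' ∈ Finset.univ.erase j, HJ a σ ty j m l l' * MJ a σ ty j m l' i =
        HJ a σ ty j m l i := by
      rw [Finset.sum_eq_single i]
      · simp [MJ, hi]
      · intro b hb hbi
        have hbj : b ≠ j := (Finset.mem_erase.1 hb).1
        simp [MJ, hi, hbi, hbj]
      · intro hh; exact absurd (Finset.mem_erase.2 ⟨hi, Finset.mem_univ i⟩) hh
    have h2 : MJ a σ ty j m j i = - σ.H j i := by
      simp [MJ, hi, Ne.symm hi]
    rw [h1, h2]
    by_cases hl : l = j
    · subst hl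
      simp only [NJ, if_neg hi, if_true, HJ]
      ring
    · simp only [NJ, if_neg hi, if_neg hl, HJ, if_true]
      ring

/-- `Val` is a polynomial in the matrix `H`: restriction to the segment `(1-δ) H` on the regular
block (entries with both indices in `R`). -/
theorem Val_poly (a : I → I → ℕ) (γ : I →₀ ℕ) (σ : Sta I) (R : Finset I) :
    ∃ q : Polynomial ℚ, ∀ δ : ℚ,
      Val a γ ⟨σ.κ, σ.P, σ.p, fun l i => if l ∈ R ∧ i ∈ R then (1 - δ) * σ.H l i else σ.H l i⟩ =
        q.eval δ := by
  let F : MvPowerSeries I ℚ := facS a σ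
  let B : I → I → MvPowerSeries I ℚ := fun l i =>
    ∑ l', C (if l' ∈ R ∧ i ∈ R then σ.H l' i else 0) * xv a l' (σ.κ l' - 1) l
  let Pm : Matrix I I (Polynomial (MvPowerSeries I ℚ)) :=
    Matrix.of fun l i => Polynomial.C (colS a σ i l) + Polynomial.X * Polynomial.C (B l i)
  refine ⟨Pm.det.sum (fun n s => Polynomial.monomial n (coeff γ (F * s))), fun δ => ?_⟩
  have h1 : colMat (colS a ⟨σ.κ, σ.P, σ.p, fun l i =>
      if l ∈ R ∧ i ∈ R then (1 - δ) * σ.H l i else σ.H l i⟩) =
      (Polynomial.evalRingHom (C δ : MvPowerSeries I ℚ)).mapMatrix Pm := by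
    ext1 l i
    simp only [colMat, Matrix.of_apply, RingHom.mapMatrix_apply, Matrix.map_apply, Pm,
      Polynomial.coe_evalRingHom, Polynomial.eval_add, Polynomial.eval_C, Polynomial.eval_mul,
      Polynomial.eval_X, colS, B]
    rw [Finset.mul_sum, sub_add, sub_right_inj, ← Finset.sum_sub_distrib]
    refine Finset.sum_congr rfl fun l' _ => ?_
    by_cases hc : l' ∈ R ∧ i ∈ R
    · simp only [if_pos hc, map_mul, map_sub, map_one]; ring
    · simp only [if_neg hc, map_zero]; ring
  have h2 : (colMat (colS a ⟨σ.κ, σ.P, σ.p, fun l i =>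
      if l ∈ R ∧ i ∈ R then (1 - δ) * σ.H l i else σ.H l i⟩)).det =
      Pm.det.eval (C δ) := by
    rw [h1, ← RingHom.map_det]; rfl
  have h3 : Val a γ ⟨σ.κ, σ.P, σ.p, fun l i =>
      if l ∈ R ∧ i ∈ R then (1 - δ) * σ.H l i else σ.H l i⟩ = coeff γ (F * Pm.det.eval (C δ)) := by
    unfold Val raw
    rw [h2]
    rfl
  rw [h3, Polynomial.eval_eq_sum, Polynomial.sum, Finset.mul_sum, map_sum, Polynomial.sum,
    Polynomial.eval_finsetSum]
  refine Finset.sum_congr rfl fun n _ => ?_
  rw [Polynomial.eval_monomial, ← map_pow, ← mul_assoc, mul_comm _ (C (δ ^ n)),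
    MvPowerSeries.coeff_C_mul]
  ring

end Pool.Agent.H27.KAC
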