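import Pool.Agent.H27.KAC.KPDefs
import Pool.Agent.H27.KAC.KQSt1

/-!
KAC module KP1: consistency in terms of the hatted exponents and the zero lemma.

* `core_eff`: for a regular vertex `l`,
  `(κ_l - 1) ph_l - κ_l Ph_l = (Cγ)_l + (1/2) ∑_{walls x} a_{xl} p_x (κ_x - 1)`
  `= (Cγ)_l + (1/2) ∑_{walls x} a_{xl} (Cγ)_x` (consistency at the wall `x`, `P_x = 0`), and
  `(Cγ)_x = 2 γ_x - ∑_{j ≠ x} a_{xj} γ_j`; the `γ_x` of walls cancel (walls are pairwise nonadjacent and
  loop-free), which gives `∑_{j regular} effCm_{lj} γ_j`.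
* `core_fat`: if `l` has a loop or is adjacent to a wall then `effCm_{lj} ≤ 0` for all regular `j`
  (for `j = l`: `a l l ≥ 2`, or `a l l = 0` and then `a x l ≥ 2` by `GoodMat.good`).
* `core_zero`: if `Ph_l < 0`, `ph_l > 0` then `l` is not fat, so `P_l ≤ -1`, `p_l ≥ 1`, `a l l = 0`; apply
  `GVal_vanish`.
-/

namespace Pool.Agent.H27.KAC

open scoped BigOperators
open MvPowerSeries

variable {I : Type} [Fintype I] [DecidableEq I]

private theorem KP1_cw_split (a : I → I → ℕ) (γ : I →₀ ℕ) (ty : I → Ty) (l : I) :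
    (cw a γ l : ℚ) =
      ∑ j ∈ Finset.univ.filter (fun j => ty j = Ty.R), (cart a l j : ℚ) * (γ j : ℚ) +
      ∑ j ∈ Finset.univ.filter (fun j => ty j ≠ Ty.R), (cart a l j : ℚ) * (γ j : ℚ) := by
  rw [Finset.sum_filter_add_sum_filter_not]
  unfold cw
  push_cast
  rfl

theorem core_eff (a : I → I → ℕ) (hs : ∀ i j, a i j = a j i) (γ : I →₀ ℕ) (κ : I → ℕ)
    (P p : I → ℤ) (ty : I → Ty) (h : Core a γ κ P p ty) (l : I) (hl : ty l = Ty.R) :
    ((κ l : ℚ) - 1) * ph a κ P p ty l - (κ l : ℚ) * Ph a κ P p ty l =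
      ∑ j ∈ Finset.univ.filter (fun j => ty j = Ty.R), effCm a ty l j * (γ j : ℚ) := by
  have hcl : (cw a γ l : ℚ) = ((κ l : ℚ) - 1) * p l - (κ l : ℚ) * P l := by
    have := h.cons l
    have h2 : ((cw a γ l : ℤ) : ℚ) = (((κ l : ℤ) - 1) * p l - (κ l : ℤ) * P l : ℤ) := by
      rw [this]
    push_cast at h2
    exact h2
  have hcx : ∀ x, ty x ≠ Ty.R → ((κ x : ℚ) - 1) * p x =
      2 * (γ x : ℚ) - ∑ j ∈ Finset.univ.filter (fun j => ty j = Ty.R),
        (a x j : ℚ) * (γ j : ℚ) := by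
    intro x hx
    have h1 : (cw a γ x : ℚ) = ((κ x : ℚ) - 1) * p x := by
      have := h.cons x
      rw [h.P0 x hx] at this
      have h2 : ((cw a γ x : ℤ) : ℚ) = (((κ x : ℤ) - 1) * p x - (κ x : ℤ) * 0 : ℤ) := by
        rw [this]
      push_cast at h2
      rw [h2]; ring
    rw [← h1, KP1_cw_split a γ ty x]
    have h3 : ∑ j ∈ Finset.univ.filter (fun j => ty j ≠ Ty.R), (cart a x j : ℚ) * (γ j : ℚ) =
        2 * (γ x : ℚ) := by
      rw [Finset.sum_eq_single x]
      · simp [cart, h.loopfree x hx]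
      · intro j hj hjx
        have hj' : ty j ≠ Ty.R := by simpa using hj
        simp [cart, h.nonadj x j hx hj' (Ne.symm hjx), Ne.symm hjx]
      · intro hx'
        exact (hx' (by simpa using hx)).elim
    have h4 : ∑ j ∈ Finset.univ.filter (fun j => ty j = Ty.R), (cart a x j : ℚ) * (γ j : ℚ) =
        - ∑ j ∈ Finset.univ.filter (fun j => ty j = Ty.R), (a x j : ℚ) * (γ j : ℚ) := by
      rw [← Finset.sum_neg_distrib]
      refine Finset.sum_congr rfl ?_
      intro j hj
      have hj' : ty j = Ty.R := by simpa using hj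
      have hne : x ≠ j := by
        rintro rfl
        exact hx hj'
      simp [cart, hne]
    rw [h3, h4]; ring
  have hwl : ∑ j ∈ Finset.univ.filter (fun j => ty j ≠ Ty.R), (cart a l j : ℚ) * (γ j : ℚ) =
      - ∑ x ∈ Finset.univ.filter (fun j => ty j ≠ Ty.R), (a x l : ℚ) * (γ x : ℚ) := by
    rw [← Finset.sum_neg_distrib]
    refine Finset.sum_congr rfl ?_
    intro j hj
    have hj' : ty j ≠ Ty.R := by simpa using hj
    have hne : l ≠ j := by
      rintro rfl
      exact hj' hl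
    simp [cart, hne, hs l j]
  have hLHS : ((κ l : ℚ) - 1) * ph a κ P p ty l - (κ l : ℚ) * Ph a κ P p ty l =
      (cw a γ l : ℚ) + (∑ x ∈ Finset.univ.filter (fun x => ty x ≠ Ty.R),
        (a x l : ℚ) * (((κ x : ℚ) - 1) * p x)) / 2 := by
    rw [hcl]
    unfold ph Ph
    have e1 : ∑ x ∈ Finset.univ.filter (fun x => ty x ≠ Ty.R),
        (a x l : ℚ) * (((κ x : ℚ) - 1) * p x) =
        ((κ l : ℚ) - 1) * ∑ x ∈ Finset.univ.filter (fun x => ty x ≠ Ty.R),
          (a x l : ℚ) * (p x : ℚ) * ((κ l : ℚ) - (κ x : ℚ) + 1) -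
        (κ l : ℚ) * ∑ x ∈ Finset.univ.filter (fun x => ty x ≠ Ty.R),
          (a x l : ℚ) * (p x : ℚ) * ((κ l : ℚ) - (κ x : ℚ)) := by
      rw [Finset.mul_sum, Finset.mul_sum, ← Finset.sum_sub_distrib]
      refine Finset.sum_congr rfl ?_
      intro x _
      ring
    rw [e1]; ring
  rw [hLHS, KP1_cw_split a γ ty l, hwl]
  have e2 : ∑ x ∈ Finset.univ.filter (fun x => ty x ≠ Ty.R),
        (a x l : ℚ) * (((κ x : ℚ) - 1) * p x) =
      2 * ∑ x ∈ Finset.univ.filter (fun x => ty x ≠ Ty.R), (a x l : ℚ) * (γ x : ℚ) -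
      ∑ j ∈ Finset.univ.filter (fun j => ty j = Ty.R),
        (∑ x ∈ Finset.univ.filter (fun x => ty x ≠ Ty.R), (a x l : ℚ) * (a x j : ℚ)) *
          (γ j : ℚ) := by
    have e3 : ∑ j ∈ Finset.univ.filter (fun j => ty j = Ty.R),
        (∑ x ∈ Finset.univ.filter (fun x => ty x ≠ Ty.R), (a x l : ℚ) * (a x j : ℚ)) *
          (γ j : ℚ) =
        ∑ x ∈ Finset.univ.filter (fun x => ty x ≠ Ty.R),
          ∑ j ∈ Finset.univ.filter (fun j => ty j = Ty.R),
            (a x l : ℚ) * ((a x j : ℚ) * (γ j : ℚ)) := by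
      rw [Finset.sum_comm]
      refine Finset.sum_congr rfl ?_
      intro j _
      rw [Finset.sum_mul]
      refine Finset.sum_congr rfl ?_
      intro x _
      ring
    rw [e3, Finset.mul_sum, ← Finset.sum_sub_distrib]
    refine Finset.sum_congr rfl ?_
    intro x hx
    have hx' : ty x ≠ Ty.R := by simpa using hx
    rw [hcx x hx', ← Finset.mul_sum]
    ring
  rw [e2]
  have e4 : ∑ j ∈ Finset.univ.filter (fun j => ty j = Ty.R), effCm a ty l j * (γ j : ℚ) =
      ∑ j ∈ Finset.univ.filter (fun j => ty j = Ty.R), (cart a l j : ℚ) * (γ j : ℚ) -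
      (∑ j ∈ Finset.univ.filter (fun j => ty j = Ty.R),
        (∑ x ∈ Finset.univ.filter (fun x => ty x ≠ Ty.R), (a x l : ℚ) * (a x j : ℚ)) *
          (γ j : ℚ)) / 2 := by
    rw [Finset.sum_div, ← Finset.sum_sub_distrib]
    refine Finset.sum_congr rfl ?_
    intro j _
    unfold effCm
    ring
  rw [e4]
  ring

theorem core_fat (a : I → I → ℕ) (hg : GoodMat a) (γ : I →₀ ℕ) (κ : I → ℕ)
    (P p : I → ℤ) (ty : I → Ty) (h : Core a γ κ P p ty) (l : I) (hl : ty l = Ty.R)
    (hf : Fat a ty l) :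
    ((κ l : ℚ) - 1) * ph a κ P p ty l ≤ (κ l : ℚ) * Ph a κ P p ty l := by
  have h1 := core_eff a hg.symm γ κ P p ty h l hl
  have h2 : ∑ j ∈ Finset.univ.filter (fun j => ty j = Ty.R), effCm a ty l j * (γ j : ℚ) ≤ 0 := by
    refine Finset.sum_nonpos ?_
    intro j _
    refine mul_nonpos_of_nonpos_of_nonneg ?_ (Nat.cast_nonneg _)
    unfold effCm
    have hnn : 0 ≤ ∑ x ∈ Finset.univ.filter (fun x => ty x ≠ Ty.R),
        (a x l : ℚ) * (a x j : ℚ) := by
      refine Finset.sum_nonneg ?_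
      intro x _
      positivity
    by_cases hjl : l = j
    · subst hjl
      rcases Nat.lt_or_ge (a l l) 2 with hlt | hge
      · have h0 : a l l = 0 := by
          have := hg.diag l
          omega
        rcases hf with hf | ⟨x, hx, hxl⟩
        · omega
        · have hne : x ≠ l := by
            rintro rfl
            exact hx hl
          have h3 : a x l ≠ 1 := hg.good x l hne (h.loopfree x hx) h0
          have h4 : 2 ≤ a x l := by omega
          have h5 : (a x l : ℚ) * (a x l : ℚ) ≤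
              ∑ x ∈ Finset.univ.filter (fun x => ty x ≠ Ty.R), (a x l : ℚ) * (a x l : ℚ) := by
            refine Finset.single_le_sum (f := fun x => (a x l : ℚ) * (a x l : ℚ)) ?_ ?_
            · intro y _
              positivity
            · exact Finset.mem_filter.mpr ⟨Finset.mem_univ _, hx⟩
          have h6 : (2 : ℚ) ≤ (a x l : ℚ) := by exact_mod_cast h4
          have h7 : (cart a l l : ℚ) = 2 := by simp [cart, h0]
          rw [h7]
          nlinarith
      · have h7 : (cart a l l : ℚ) = 2 - (a l l : ℚ) := by simp [cart]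
        have h8 : (2 : ℚ) ≤ (a l l : ℚ) := by exact_mod_cast hge
        rw [h7]
        linarith
    · have h7 : (cart a l j : ℚ) = - (a l j : ℚ) := by simp [cart, hjl]
      rw [h7]
      have : (0 : ℚ) ≤ (a l j : ℚ) := Nat.cast_nonneg _
      linarith
  linarith

theorem ph_of_notFat (a : I → I → ℕ) (κ : I → ℕ) (P p : I → ℤ) (ty : I → Ty) (l : I)
    (hf : ¬ Fat a ty l) : Ph a κ P p ty l = P l ∧ ph a κ P p ty l = p l := by
  have h0 : ∀ x, ty x ≠ Ty.R → a x l = 0 := by
    intro x hx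
    by_contra hne
    exact hf (Or.inr ⟨x, hx, Nat.pos_of_ne_zero hne⟩)
  constructor
  · unfold Ph
    rw [Finset.sum_eq_zero]
    · simp
    · intro x hx
      have hx' : ty x ≠ Ty.R := by simpa using hx
      simp [h0 x hx']
  · unfold ph
    rw [Finset.sum_eq_zero]
    · simp
    · intro x hx
      have hx' : ty x ≠ Ty.R := by simpa using hx
      simp [h0 x hx']

/-- zero lemma. -/
theorem core_zero (a : I → I → ℕ) (hg : GoodMat a) (γ : I →₀ ℕ) (κ : I → ℕ)
    (P p : I → ℤ) (ty : I → Ty) (h : Core a γ κ P p ty) (l : I) (hl : ty l = Ty.R)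
    (h1 : Ph a κ P p ty l < 0) (h2 : 0 < ph a κ P p ty l) (M N : I → I → ℚ) :
    GVal a γ κ P p M N = 0 := by
  have hκ : (1 : ℚ) ≤ (κ l : ℚ) := by exact_mod_cast h.k1 l
  by_cases hf : Fat a ty l
  · exfalso
    have h3 := core_fat a hg γ κ P p ty h l hl hf
    have h4 : 0 ≤ ((κ l : ℚ) - 1) * ph a κ P p ty l :=
      mul_nonneg (by linarith) h2.le
    have h5 : (κ l : ℚ) * Ph a κ P p ty l < 0 :=
      mul_neg_of_pos_of_neg (by linarith) h1
    linarith
  · obtain ⟨e1, e2⟩ := ph_of_notFat a κ P p ty l hf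
    rw [e1] at h1
    rw [e2] at h2
    have h3 : P l < 0 := by exact_mod_cast h1
    have h4 : 0 < p l := by exact_mod_cast h2
    have h5 : a l l = 0 := by
      have h6 : ¬ 2 ≤ a l l := fun h => hf (Or.inl h)
      have := hg.diag l
      omega
    exact GVal_vanish a hg.symm l h5 γ κ h.k1 P p M N (by omega) (Or.inl (by omega)) (h.cons l)

theorem core_of_base {a : I → I → ℕ} {γ : I →₀ ℕ} {σ : Sta I} {ty : I → Ty}
    (h : Base a γ σ ty) : Core a γ σ.κ σ.P σ.p ty := by
  exact ⟨h.shape.loopfree, h.shape.P0, h.shape.nonadj, h.k1, h.cons⟩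

end Pool.Agent.H27.KAC
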