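import Pool.Agent.H27.KAC.KPDefs

/-!
KAC module KP2: exponents after the regular step `staJ` (phase 1, level `k + 2`).

Hypotheses common to all lemmas: `h : Ph1 a γ σ ty (k+2)`, `j` regular, `σ.κ j = k + 2`,
`(k+1) m ≤ γ j`, and `m = 0` or all walls adjacent to `j` are at level `k + 2` (no lagging wall is
adjacent to `j`).  All neighbours of `j` are at level `k+2` or `k+1` (`Ph1.reg`, `Ph1.wall`).
* `stepJ_core`: consistency: `(Cγ')_i = (Cγ)_i - (k+1) m C_{ij}`, cases `i = j`, `κ i = k+2`, `κ i = k+1`, or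
  `a i j = 0`.
* `stepJ_Ph`, `stepJ_ph`: direct computation; `p'_x = p_x + a_{xj} m` for walls `x` at level `k+2`
  (D-walls have `p_x = 0`), for a lagging wall (level `k+1`) `p_x` does not change.
* `PhS_eq_P`: if no lagging wall is adjacent to `j` then `Ph_j = P_j`.
-/

namespace Pool.Agent.H27.KAC

open scoped BigOperators
open MvPowerSeries

variable {I : Type} [Fintype I] [DecidableEq I]

theorem tyJ_R (a : I → I → ℕ) (ty : I → Ty) (j : I) (m : ℕ) (i : I) :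
    tyJ a ty j m i = Ty.R ↔ ty i = Ty.R := by
  unfold tyJ
  split_ifs with h
  · rw [h.1]
    exact ⟨fun h' => (nomatch h'), fun h' => (nomatch h')⟩
  · exact Iff.rfl

theorem KP2_tyJ_D (a : I → I → ℕ) (ty : I → Ty) (j : I) (m : ℕ) (i : I)
    (h : tyJ a ty j m i = Ty.D) : ty i = Ty.D ∧ ¬ (0 < m ∧ 0 < a i j) := by
  unfold tyJ at h
  split_ifs at h with h'
  exact ⟨h, fun h'' => h' ⟨h, h''⟩⟩

theorem KP2_tyJ_A (a : I → I → ℕ) (ty : I → Ty) (j : I) (m : ℕ) (i : I)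
    (h : tyJ a ty j m i = Ty.A) : (ty i = Ty.D ∧ 0 < m ∧ 0 < a i j) ∨ ty i = Ty.A := by
  unfold tyJ at h
  split_ifs at h with h'
  · exact Or.inl h'
  · exact Or.inr h

theorem KP2_lev (a : I → I → ℕ) (γ : I →₀ ℕ) (σ : Sta I) (ty : I → Ty) (k : ℕ)
    (h : Ph1 a γ σ ty (k + 2)) (i : I) : σ.κ i = k + 2 ∨ σ.κ i = k + 1 := by
  by_cases hi : ty i = Ty.R
  · rcases h.reg i hi with h1 | h1
    · exact Or.inl h1
    · right; omega
  · rcases h.wall i hi with h1 | h1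
    · exact Or.inl h1
    · have := h1.1
      right; omega

theorem KP2_wall (a : I → I → ℕ) (σ : Sta I) (ty : I → Ty) (j : I) (c : ℚ) (F G H : I → ℚ)
    (h1 : ∀ x, ty x ≠ Ty.R → σ.κ x = σ.κ j → F x = G x + c * H x)
    (h2 : ∀ x, ty x ≠ Ty.R → σ.κ x ≠ σ.κ j → F x = G x) :
    ∑ x ∈ Finset.univ.filter (fun x => ty x ≠ Ty.R), F x =
      ∑ x ∈ Finset.univ.filter (fun x => ty x ≠ Ty.R), G x + c * ∑ x ∈ wallsAt σ ty j, H x := by
  unfold wallsAt
  rw [← Finset.filter_filter, Finset.sum_filter (fun x => σ.κ x = σ.κ j), Finset.mul_sum,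
    ← Finset.sum_add_distrib]
  refine Finset.sum_congr rfl fun x hx => ?_
  have hx' : ty x ≠ Ty.R := (Finset.mem_filter.1 hx).2
  by_cases hk : σ.κ x = σ.κ j
  · rw [if_pos hk, h1 x hx' hk]
  · rw [if_neg hk, h2 x hx' hk, mul_zero, add_zero]

theorem KP2_filter (a : I → I → ℕ) (ty : I → Ty) (j : I) (m : ℕ) :
    Finset.univ.filter (fun x => tyJ a ty j m x ≠ Ty.R) =
      Finset.univ.filter (fun x => ty x ≠ Ty.R) := by
  ext x
  rw [Finset.mem_filter, Finset.mem_filter, Ne, Ne, tyJ_R]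

theorem KP2_cw_single (a : I → I → ℕ) (j : I) (n : ℕ) (i : I) :
    cw a (Finsupp.single j n) i = cart a i j * (n : ℤ) := by
  unfold cw
  rw [Finset.sum_eq_single j]
  · rw [Finsupp.single_eq_same]
  · intro b _ hb
    rw [Finsupp.single_eq_of_ne hb]
    simp
  · intro h
    exact absurd (Finset.mem_univ j) h

theorem effA_nonneg (a : I → I → ℕ) (W : Finset I) (l j : I) : 0 ≤ effA a W l j := by
  unfold effA
  have : 0 ≤ ∑ x ∈ W, (a x l : ℚ) * (a x j : ℚ) := Finset.sum_nonneg fun x _ => by positivity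
  positivity

theorem PhS_eq_P (a : I → I → ℕ) (σ : Sta I) (ty : I → Ty) (j : I)
    (hw : ∀ x, ty x ≠ Ty.R → 0 < a x j → σ.κ x = σ.κ j) : PhS a σ ty j = σ.P j := by
  unfold PhS Ph
  have h0 : ∑ x ∈ Finset.univ.filter (fun x => ty x ≠ Ty.R),
      (a x j : ℚ) * (σ.p x : ℚ) * ((σ.κ j : ℚ) - (σ.κ x : ℚ)) = 0 := by
    refine Finset.sum_eq_zero fun x hx => ?_
    have hx' : ty x ≠ Ty.R := (Finset.mem_filter.1 hx).2
    rcases Nat.eq_zero_or_pos (a x j) with h1 | h1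
    · rw [h1]; simp
    · rw [hw x hx' h1, sub_self, mul_zero]
  rw [h0]
  simp

theorem KP2_P0 (a : I → I → ℕ) (γ : I →₀ ℕ) (σ : Sta I) (ty : I → Ty) (k : ℕ)
    (h : Ph1 a γ σ ty (k + 2)) (j : I) (hj : ty j = Ty.R) (hjk : σ.κ j = k + 2) (m : ℕ)
    (hw : m = 0 ∨ ∀ x, ty x ≠ Ty.R → 0 < a x j → σ.κ x = k + 2) (x : I) (hx : ty x ≠ Ty.R) :
    PJ a σ j m x = 0 := by
  have hxj : x ≠ j := fun h' => hx (h' ▸ hj)
  unfold PJ
  rw [if_neg hxj, h.shape.P0 x hx]
  split_ifs with h1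
  · rcases hw with hw | hw
    · rw [hw]; simp
    · have h2 : a x j = 0 := by
        by_contra h3
        have := hw x hx (Nat.pos_of_ne_zero h3)
        omega
      rw [h2]; simp
  · rfl

theorem stepJ_core (a : I → I → ℕ) (hs : ∀ i j, a i j = a j i) (γ : I →₀ ℕ) (σ : Sta I)
    (ty : I → Ty) (k : ℕ) (h : Ph1 a γ σ ty (k + 2)) (j : I) (hj : ty j = Ty.R)
    (hjk : σ.κ j = k + 2) (m : ℕ) (hm : (k + 1) * m ≤ γ j)
    (hw : m = 0 ∨ ∀ x, ty x ≠ Ty.R → 0 < a x j → σ.κ x = k + 2) :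
    Core a (γ - Finsupp.single j ((k + 1) * m)) (kapJ σ j) (PJ a σ j m) (pJ a σ j m)
      (tyJ a ty j m) := by
  refine ⟨?_, ?_, ?_, ?_, ?_⟩
  · intro x hx
    rw [Ne, tyJ_R] at hx
    exact h.shape.loopfree x hx
  · intro x hx
    rw [Ne, tyJ_R] at hx
    exact KP2_P0 a γ σ ty k h j hj hjk m hw x hx
  · intro x y hx hy hxy
    rw [Ne, tyJ_R] at hx hy
    exact h.shape.nonadj x y hx hy hxy
  · intro i
    unfold kapJ
    by_cases hij : i = j
    · subst hij
      rw [Function.update_self]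
      omega
    · rw [Function.update_of_ne hij]
      exact h.k1 i
  · intro i
    have hle : Finsupp.single j ((k + 1) * m) ≤ γ := by
      rw [Finsupp.single_le_iff]
      exact hm
    have e1 : cw a γ i = cw a (γ - Finsupp.single j ((k + 1) * m)) i +
        cart a i j * (((k + 1) * m : ℕ) : ℤ) := by
      conv_lhs => rw [← tsub_add_cancel_of_le hle]
      rw [cw_add, KP2_cw_single]
    have e2 : cw a γ i = ((σ.κ i : ℤ) - 1) * σ.p i - (σ.κ i : ℤ) * σ.P i := h.cons i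
    have e3 : cw a (γ - Finsupp.single j ((k + 1) * m)) i =
        ((σ.κ i : ℤ) - 1) * σ.p i - (σ.κ i : ℤ) * σ.P i -
          cart a i j * (((k + 1) * m : ℕ) : ℤ) := by
      linarith
    rw [e3]
    unfold kapJ PJ pJ
    by_cases hij : i = j
    · subst hij
      rw [Function.update_self, if_pos rfl, if_pos rfl, hjk]
      have e4 : k + 2 - 1 = k + 1 := by omega
      rw [e4]
      push_cast
      ring
    · rw [Function.update_of_ne hij, if_neg hij, if_neg hij, hjk]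
      have e4 : cart a i j = -(a i j : ℤ) := by
        unfold cart
        rw [if_neg hij]
        ring
      rw [e4]
      rcases KP2_lev a γ σ ty k h i with h1 | h1
      · rw [h1, if_neg (show ¬ (k + 2 + 1 = k + 2) by omega), if_pos rfl]
        push_cast
        ring
      · rw [h1, if_pos (show k + 1 + 1 = k + 2 by omega),
          if_neg (show ¬ (k + 1 = k + 2) by omega)]
        push_cast
        ring

theorem stepJ_shape (a : I → I → ℕ) (hs : ∀ i j, a i j = a j i) (γ : I →₀ ℕ) (σ : Sta I)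
    (ty : I → Ty) (k : ℕ) (h : Ph1 a γ σ ty (k + 2)) (j : I) (hj : ty j = Ty.R)
    (hjk : σ.κ j = k + 2) (m : ℕ)
    (hw : m = 0 ∨ ∀ x, ty x ≠ Ty.R → 0 < a x j → σ.κ x = k + 2) :
    Shape a (staJ a σ ty j m) (tyJ a ty j m) := by
  have hne : ∀ x, ty x ≠ Ty.R → x ≠ j := fun x hx h' => hx (h' ▸ hj)
  have hJ0 : ∀ x, ty x ≠ Ty.R → hJ a σ ty j m x = 0 := by
    intro x hx
    unfold hJ
    rw [h.shape.row x hx j (hne x hx).symm, if_neg (fun h' => hx h'.1)]
    have h0 : ∑ l' ∈ procd σ ty j, effA a (wallsAt σ ty j) l' j * σ.H x l' = 0 := by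
      refine Finset.sum_eq_zero fun l' hl' => ?_
      have h1 : ty l' = Ty.R := ((Finset.mem_filter.1 hl').2).2.1
      rw [h.shape.row x hx l' (fun h' => hx (h' ▸ h1)), mul_zero]
    rw [h0]
    ring
  refine ⟨?_, ?_, ?_, ?_, ?_, ?_, ?_, ?_, ?_⟩
  · intro x hx
    rw [Ne, tyJ_R] at hx
    exact h.shape.loopfree x hx
  · intro x hx
    rw [Ne, tyJ_R] at hx
    exact KP2_P0 a γ σ ty k h j hj hjk m hw x hx
  · intro x hx
    rw [Ne, tyJ_R] at hx
    show 0 ≤ pJ a σ j m x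
    unfold pJ
    rw [if_neg (hne x hx)]
    have h1 := h.shape.p0 x hx
    split_ifs
    · positivity
    · exact h1
  · intro x hx
    obtain ⟨h1, h2⟩ := KP2_tyJ_D a ty j m x hx
    have hxR : ty x ≠ Ty.R := by rw [h1]; exact fun h' => (nomatch h')
    show pJ a σ j m x = 0
    unfold pJ
    rw [if_neg (hne x hxR), h.shape.pD x h1]
    split_ifs
    · rw [zero_add]
      rcases Nat.eq_zero_or_pos m with h3 | h3
      · rw [h3]; simp
      · have h4 : a x j = 0 := by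
          by_contra h5
          exact h2 ⟨h3, Nat.pos_of_ne_zero h5⟩
        rw [h4]; simp
    · rfl
  · intro x hx i hi
    rw [Ne, tyJ_R] at hx
    show HJ a σ ty j m x i = 0
    unfold HJ
    rw [if_neg (hne x hx), if_neg (hne x hx), hJ0 x hx, zero_div, mul_zero, add_zero]
    split_ifs
    · rfl
    · unfold HD
      split_ifs
      · rfl
      · exact h.shape.row x hx i hi
  · intro x hx l hl
    rw [Ne, tyJ_R] at hx
    show HJ a σ ty j m l x = 0
    unfold HJ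
    rw [if_neg (hne x hx), h.shape.col x hx j (hne x hx).symm, zero_mul, zero_mul, add_zero]
    split_ifs
    · rfl
    · unfold HD
      split_ifs
      · rfl
      · exact h.shape.col x hx l hl
  · intro x hx
    have hxR : ty x ≠ Ty.R := by
      rw [Ne, ← tyJ_R a ty j m x, hx]
      exact fun h' => (nomatch h')
    show HJ a σ ty j m x x = 0
    unfold HJ
    rw [if_neg (hne x hxR), if_neg (hne x hxR), hJ0 x hxR, zero_div, mul_zero, add_zero]
    unfold HD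
    split_ifs with h1
    · rfl
    · rcases KP2_tyJ_A a ty j m x hx with h2 | h2
      · exact absurd h2 h1
      · exact h.shape.diagA x h2
  · intro x hx
    have hxR : ty x ≠ Ty.R := by
      rw [Ne, ← tyJ_R a ty j m x, hx]
      exact fun h' => (nomatch h')
    obtain ⟨h1, h2⟩ := KP2_tyJ_D a ty j m x hx
    show HJ a σ ty j m x x = 1
    unfold HJ
    rw [if_neg (hne x hxR), if_neg (hne x hxR), hJ0 x hxR, zero_div, mul_zero, add_zero]
    unfold HD
    rw [if_neg (fun h' => h2 h'.2)]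
    exact h.shape.diagD x h1
  · intro x y hx hy hxy
    rw [Ne, tyJ_R] at hx hy
    exact h.shape.nonadj x y hx hy hxy

theorem KP2_kapJ (σ : Sta I) (j x : I) (h : x ≠ j) : kapJ σ j x = σ.κ x := by
  unfold kapJ
  rw [Function.update_of_ne h]

theorem KP2_kapJ_self (σ : Sta I) (j : I) (k : ℕ) (h : σ.κ j = k + 2) : kapJ σ j j = k + 1 := by
  unfold kapJ
  rw [Function.update_self, h]
  rfl

theorem KP2_pJ_eq (a : I → I → ℕ) (σ : Sta I) (j x : I) (m : ℕ) (h : x ≠ j)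
    (h' : σ.κ x = σ.κ j) : ((pJ a σ j m x : ℤ) : ℚ) = (σ.p x : ℚ) + (a x j : ℚ) * m := by
  unfold pJ
  rw [if_neg h, if_pos h']
  push_cast
  ring

theorem KP2_pJ_ne (a : I → I → ℕ) (σ : Sta I) (j x : I) (m : ℕ) (h : x ≠ j)
    (h' : σ.κ x ≠ σ.κ j) : ((pJ a σ j m x : ℤ) : ℚ) = (σ.p x : ℚ) := by
  unfold pJ
  rw [if_neg h, if_neg h']

theorem stepJ_Ph (a : I → I → ℕ) (hs : ∀ i j, a i j = a j i) (γ : I →₀ ℕ) (σ : Sta I)
    (ty : I → Ty) (k : ℕ) (h : Ph1 a γ σ ty (k + 2)) (j : I) (hj : ty j = Ty.R)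
    (hjk : σ.κ j = k + 2) (m : ℕ)
    (hw : m = 0 ∨ ∀ x, ty x ≠ Ty.R → 0 < a x j → σ.κ x = k + 2) (l : I) (hl : ty l = Ty.R) :
    PhS a (staJ a σ ty j m) (tyJ a ty j m) l =
      if l = j then 2 * PhS a σ ty j - phS a σ ty j + m * effC a (wallsAt σ ty j) j
      else if σ.κ l + 1 = σ.κ j then PhS a σ ty l - m * effA a (wallsAt σ ty j) l j
      else PhS a σ ty l := by
  have hne : ∀ x, ty x ≠ Ty.R → x ≠ j := fun x hx h' => hx (h' ▸ hj)
  have hlag : ∀ x, σ.κ x ≠ σ.κ j → σ.κ x = k + 1 := by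
    intro x hx
    rcases KP2_lev a γ σ ty k h x with h1 | h1
    · exact absurd (h1.trans hjk.symm) hx
    · exact h1
  have key : ∀ c : ℚ, PhS a (staJ a σ ty j m) (tyJ a ty j m) l =
      (PJ a σ j m l : ℚ) + (∑ x ∈ Finset.univ.filter (fun x => ty x ≠ Ty.R),
        (a x l : ℚ) * (pJ a σ j m x : ℚ) * ((kapJ σ j l : ℚ) - (kapJ σ j x : ℚ))) / 2 := by
    intro c
    show Ph a (kapJ σ j) (PJ a σ j m) (pJ a σ j m) (tyJ a ty j m) l = _
    unfold Ph
    rw [KP2_filter]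
  rw [key 0]
  by_cases hlj : l = j
  · subst hlj
    rw [if_pos rfl, KP2_kapJ_self σ l k hjk]
    rw [KP2_wall a σ ty l (-(m : ℚ))
      (fun x => (a x l : ℚ) * (pJ a σ l m x : ℚ) * (((k + 1 : ℕ) : ℚ) - (kapJ σ l x : ℚ)))
      (fun x => 2 * ((a x l : ℚ) * (σ.p x : ℚ) * ((σ.κ l : ℚ) - (σ.κ x : ℚ))) -
        (a x l : ℚ) * (σ.p x : ℚ) * ((σ.κ l : ℚ) - (σ.κ x : ℚ) + 1))
      (fun x => (a x l : ℚ) ^ 2) ?_ ?_]
    · rw [Finset.sum_sub_distrib, ← Finset.mul_sum]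
      unfold PhS phS Ph ph effC PJ cart
      rw [if_pos rfl, if_pos rfl]
      push_cast
      ring
    · intro x hx hxk
      rw [KP2_kapJ σ l x (hne x hx), KP2_pJ_eq a σ l x m (hne x hx) hxk, hxk, hjk]
      push_cast
      ring
    · intro x hx hxk
      rw [KP2_kapJ σ l x (hne x hx), KP2_pJ_ne a σ l x m (hne x hx) hxk, hlag x hxk, hjk]
      push_cast
      ring
  · rw [if_neg hlj, KP2_kapJ σ j l hlj]
    by_cases hlk : σ.κ l + 1 = σ.κ j
    · rw [if_pos hlk]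
      have hlk' : σ.κ l = k + 1 := by omega
      rw [KP2_wall a σ ty j (-(m : ℚ))
        (fun x => (a x l : ℚ) * (pJ a σ j m x : ℚ) * ((σ.κ l : ℚ) - (kapJ σ j x : ℚ)))
        (fun x => (a x l : ℚ) * (σ.p x : ℚ) * ((σ.κ l : ℚ) - (σ.κ x : ℚ)))
        (fun x => (a x l : ℚ) * (a x j : ℚ)) ?_ ?_]
      · unfold PhS Ph effA PJ
        rw [if_neg hlj, if_pos hlk]
        push_cast
        ring
      · intro x hx hxk
        rw [KP2_kapJ σ j x (hne x hx), KP2_pJ_eq a σ j x m (hne x hx) hxk, hxk, hjk, hlk']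
        push_cast
        ring
      · intro x hx hxk
        rw [KP2_kapJ σ j x (hne x hx), KP2_pJ_ne a σ j x m (hne x hx) hxk]
    · rw [if_neg hlk]
      have hlk' : σ.κ l = k + 2 := by
        rcases KP2_lev a γ σ ty k h l with h1 | h1
        · exact h1
        · omega
      rw [KP2_wall a σ ty j 0
        (fun x => (a x l : ℚ) * (pJ a σ j m x : ℚ) * ((σ.κ l : ℚ) - (kapJ σ j x : ℚ)))
        (fun x => (a x l : ℚ) * (σ.p x : ℚ) * ((σ.κ l : ℚ) - (σ.κ x : ℚ)))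
        (fun x => (a x l : ℚ) * (a x j : ℚ)) ?_ ?_]
      · unfold PhS Ph PJ
        rw [if_neg hlj, if_neg hlk]
        ring
      · intro x hx hxk
        rw [KP2_kapJ σ j x (hne x hx), KP2_pJ_eq a σ j x m (hne x hx) hxk, hxk, hjk, hlk']
        ring
      · intro x hx hxk
        rw [KP2_kapJ σ j x (hne x hx), KP2_pJ_ne a σ j x m (hne x hx) hxk]

theorem stepJ_ph (a : I → I → ℕ) (hs : ∀ i j, a i j = a j i) (γ : I →₀ ℕ) (σ : Sta I)
    (ty : I → Ty) (k : ℕ) (h : Ph1 a γ σ ty (k + 2)) (j : I) (hj : ty j = Ty.R)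
    (hjk : σ.κ j = k + 2) (m : ℕ)
    (hw : m = 0 ∨ ∀ x, ty x ≠ Ty.R → 0 < a x j → σ.κ x = k + 2) (l : I) (hl : ty l = Ty.R) :
    phS a (staJ a σ ty j m) (tyJ a ty j m) l =
      if l = j then PhS a σ ty j
      else if σ.κ l = σ.κ j then phS a σ ty l + m * effA a (wallsAt σ ty j) l j
      else phS a σ ty l := by
  have hne : ∀ x, ty x ≠ Ty.R → x ≠ j := fun x hx h' => hx (h' ▸ hj)
  have hlag : ∀ x, σ.κ x ≠ σ.κ j → σ.κ x = k + 1 := by
    intro x hx
    rcases KP2_lev a γ σ ty k h x with h1 | h1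
    · exact absurd (h1.trans hjk.symm) hx
    · exact h1
  have key : phS a (staJ a σ ty j m) (tyJ a ty j m) l =
      (pJ a σ j m l : ℚ) + (∑ x ∈ Finset.univ.filter (fun x => ty x ≠ Ty.R),
        (a x l : ℚ) * (pJ a σ j m x : ℚ) * ((kapJ σ j l : ℚ) - (kapJ σ j x : ℚ) + 1)) / 2 := by
    show ph a (kapJ σ j) (PJ a σ j m) (pJ a σ j m) (tyJ a ty j m) l = _
    unfold ph
    rw [KP2_filter]
  rw [key]
  by_cases hlj : l = j
  · subst hlj
    rw [if_pos rfl, KP2_kapJ_self σ l k hjk]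
    rw [KP2_wall a σ ty l 0
      (fun x => (a x l : ℚ) * (pJ a σ l m x : ℚ) * (((k + 1 : ℕ) : ℚ) - (kapJ σ l x : ℚ) + 1))
      (fun x => (a x l : ℚ) * (σ.p x : ℚ) * ((σ.κ l : ℚ) - (σ.κ x : ℚ)))
      (fun x => (a x l : ℚ) ^ 2) ?_ ?_]
    · unfold PhS Ph pJ
      rw [if_pos rfl]
      ring
    · intro x hx hxk
      rw [KP2_kapJ σ l x (hne x hx), KP2_pJ_eq a σ l x m (hne x hx) hxk, hxk, hjk]
      push_cast
      ring
    · intro x hx hxk
      rw [KP2_kapJ σ l x (hne x hx), KP2_pJ_ne a σ l x m (hne x hx) hxk, hjk]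
      push_cast
      ring
  · rw [if_neg hlj, KP2_kapJ σ j l hlj]
    by_cases hlk : σ.κ l = σ.κ j
    · rw [if_pos hlk]
      rw [KP2_wall a σ ty j (m : ℚ)
        (fun x => (a x l : ℚ) * (pJ a σ j m x : ℚ) * ((σ.κ l : ℚ) - (kapJ σ j x : ℚ) + 1))
        (fun x => (a x l : ℚ) * (σ.p x : ℚ) * ((σ.κ l : ℚ) - (σ.κ x : ℚ) + 1))
        (fun x => (a x l : ℚ) * (a x j : ℚ)) ?_ ?_]
      · unfold phS ph effA
        rw [KP2_pJ_eq a σ j l m hlj hlk]
        ring
      · intro x hx hxk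
        rw [KP2_kapJ σ j x (hne x hx), KP2_pJ_eq a σ j x m (hne x hx) hxk, hxk, hlk, hjk]
        push_cast
        ring
      · intro x hx hxk
        rw [KP2_kapJ σ j x (hne x hx), KP2_pJ_ne a σ j x m (hne x hx) hxk]
    · rw [if_neg hlk]
      have hlk' : σ.κ l = k + 1 := hlag l hlk
      rw [KP2_wall a σ ty j 0
        (fun x => (a x l : ℚ) * (pJ a σ j m x : ℚ) * ((σ.κ l : ℚ) - (kapJ σ j x : ℚ) + 1))
        (fun x => (a x l : ℚ) * (σ.p x : ℚ) * ((σ.κ l : ℚ) - (σ.κ x : ℚ) + 1))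
        (fun x => (a x l : ℚ) * (a x j : ℚ)) ?_ ?_]
      · unfold phS ph
        rw [KP2_pJ_ne a σ j l m hlj hlk]
        ring
      · intro x hx hxk
        rw [KP2_kapJ σ j x (hne x hx), KP2_pJ_eq a σ j x m (hne x hx) hxk, hxk, hjk, hlk']
        push_cast
        ring
      · intro x hx hxk
        rw [KP2_kapJ σ j x (hne x hx), KP2_pJ_ne a σ j x m (hne x hx) hxk]

end Pool.Agent.H27.KAC
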