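import Pool.Agent.H27.KAC.KP2

/-!
KAC module KP3: `τ` and the defects after the regular step (black box: KP2).

Write `P' = PhS` of the new state, `Σ'` for sums over regular `l ≠ j`, `τ = tauJ`.
* `stepJ_tau`: for `m ≥ 1`, `scl = P_j = Ph_j` (`PhS_eq_P`) and
  `P'_j + Σ' H_{jl} P'_l + dfc_j = 2 Ph_j - H_{jj} Ph_j + m effC - m Σ_{l processed} effA_{lj} H_{jl} = τ`;
  for `m = 0` the left side is `Ph_j (2 - H_{jj}) = Ph_j τ`.
* `stepJ_dfc_self`, `stepJ_dfc`: insert the formulas of KP2 and the definition of `HJ`.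
  (`dfc'_j = Ph_j - (scl/τ) (τ^ - dfc_j)`, `τ^ = c τ`, `c = 1` (m ≥ 1) or `c = Ph_j` (m = 0), `c * scl = Ph_j`.
  For `l ≠ j`: `dfc'_l = ph'_l - Σ' H_{li} P'_i - (hJ_l/τ) (τ^ - dfc_j)` and
  `c hJ_l = Ph_j H_{lj} + m effA_{lj} [unprocessed] + m Σ_{i processed} effA_{ij} H_{li}` — for m ≥ 1 c = 1.)
-/

namespace Pool.Agent.H27.KAC

open scoped BigOperators
open MvPowerSeries

variable {I : Type} [Fintype I] [DecidableEq I]

/-- the regular vertices are `j` and the others. -/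
theorem KP3_filter (ty : I → Ty) (j : I) (hj : ty j = Ty.R) (f : I → ℚ) :
    (∑ i ∈ Finset.univ.filter (fun i => ty i = Ty.R), f i) =
      f j + ∑ i ∈ Finset.univ.filter (fun l => ty l = Ty.R ∧ l ≠ j), f i := by
  have h1 : Finset.univ.filter (fun i => ty i = Ty.R) =
      insert j (Finset.univ.filter (fun l => ty l = Ty.R ∧ l ≠ j)) := by
    ext i
    simp only [Finset.mem_filter, Finset.mem_univ, true_and, Finset.mem_insert]
    constructor
    · intro h
      by_cases hij : i = j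
      · exact Or.inl hij
      · exact Or.inr ⟨h, hij⟩
    · rintro (h | h)
      · rw [h]; exact hj
      · exact h.1
  rw [h1, Finset.sum_insert]
  simp

/-- sums over the new regular vertices. -/
theorem KP3_filter' (a : I → I → ℕ) (ty : I → Ty) (j : I) (m : ℕ) (hj : ty j = Ty.R) (f : I → ℚ) :
    (∑ i ∈ Finset.univ.filter (fun i => tyJ a ty j m i = Ty.R), f i) =
      f j + ∑ i ∈ Finset.univ.filter (fun l => ty l = Ty.R ∧ l ≠ j), f i := by
  have h1 : Finset.univ.filter (fun i => tyJ a ty j m i = Ty.R) =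
      Finset.univ.filter (fun i => ty i = Ty.R) := by
    ext i
    simp only [Finset.mem_filter, Finset.mem_univ, true_and]
    exact tyJ_R a ty j m i
  rw [h1]
  exact KP3_filter ty j hj f

/-- the sum of the changes of the regular exponents. -/
theorem KP3_sum (a : I → I → ℕ) (hs : ∀ i j, a i j = a j i) (γ : I →₀ ℕ) (σ : Sta I)
    (ty : I → Ty) (k : ℕ) (h : Ph1 a γ σ ty (k + 2)) (j : I) (hj : ty j = Ty.R)
    (hjk : σ.κ j = k + 2) (m : ℕ)
    (hw : m = 0 ∨ ∀ x, ty x ≠ Ty.R → 0 < a x j → σ.κ x = k + 2) (c : I → ℚ) :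
    (∑ l ∈ Finset.univ.filter (fun l => ty l = Ty.R ∧ l ≠ j),
        c l * PhS a (staJ a σ ty j m) (tyJ a ty j m) l) =
      (∑ l ∈ Finset.univ.filter (fun l => ty l = Ty.R ∧ l ≠ j), c l * PhS a σ ty l) -
        m * ∑ l ∈ procd σ ty j, effA a (wallsAt σ ty j) l j * c l := by
  have h1 : procd σ ty j = (Finset.univ.filter (fun l => ty l = Ty.R ∧ l ≠ j)).filter
      (fun l => σ.κ l + 1 = σ.κ j) := by
    ext l
    simp only [procd, Finset.mem_filter, Finset.mem_univ, true_and]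
    tauto
  have h2 : (∑ l ∈ procd σ ty j, effA a (wallsAt σ ty j) l j * c l) =
      ∑ l ∈ Finset.univ.filter (fun l => ty l = Ty.R ∧ l ≠ j),
        if σ.κ l + 1 = σ.κ j then effA a (wallsAt σ ty j) l j * c l else 0 := by
    rw [h1, Finset.sum_filter]
  rw [h2, Finset.mul_sum, ← Finset.sum_sub_distrib]
  refine Finset.sum_congr rfl fun l hl => ?_
  simp only [Finset.mem_filter, Finset.mem_univ, true_and] at hl
  rw [stepJ_Ph a hs γ σ ty k h j hj hjk m hw l hl.1, if_neg hl.2]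
  split_ifs <;> ring

theorem KP3_Pj (a : I → I → ℕ) (σ : Sta I) (ty : I → Ty) (k : ℕ) (j : I)
    (hjk : σ.κ j = k + 2) (m : ℕ)
    (hw : m = 0 ∨ ∀ x, ty x ≠ Ty.R → 0 < a x j → σ.κ x = k + 2) (hm : m ≠ 0) :
    (σ.P j : ℚ) = PhS a σ ty j := by
  rcases hw with hw | hw
  · exact absurd hw hm
  · exact (PhS_eq_P a σ ty j (fun x h1 h2 => by rw [hw x h1 h2, hjk])).symm

/-- `c * scl = Ph_j`. -/
theorem KP3_scl (a : I → I → ℕ) (σ : Sta I) (ty : I → Ty) (k : ℕ) (j : I)
    (hjk : σ.κ j = k + 2) (m : ℕ)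
    (hw : m = 0 ∨ ∀ x, ty x ≠ Ty.R → 0 < a x j → σ.κ x = k + 2) :
    (if m = 0 then PhS a σ ty j else 1) * scl σ j m = PhS a σ ty j := by
  unfold scl
  by_cases hm : m = 0
  · rw [if_pos hm, if_pos hm, mul_one]
  · rw [if_neg hm, if_neg hm, one_mul, KP3_Pj a σ ty k j hjk m hw hm]

theorem stepJ_tau (a : I → I → ℕ) (hs : ∀ i j, a i j = a j i) (γ : I →₀ ℕ) (σ : Sta I)
    (ty : I → Ty) (k : ℕ) (h : Ph1 a γ σ ty (k + 2)) (j : I) (hj : ty j = Ty.R)
    (hjk : σ.κ j = k + 2) (m : ℕ)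
    (hw : m = 0 ∨ ∀ x, ty x ≠ Ty.R → 0 < a x j → σ.κ x = k + 2) :
    (if m = 0 then PhS a σ ty j else 1) * tauJ a σ ty j m =
      PhS a (staJ a σ ty j m) (tyJ a ty j m) j +
      (∑ l ∈ Finset.univ.filter (fun l => ty l = Ty.R ∧ l ≠ j),
        σ.H j l * PhS a (staJ a σ ty j m) (tyJ a ty j m) l) + dfc a σ ty j := by
  have h1 := KP3_sum a hs γ σ ty k h j hj hjk m hw (σ.H j)
  have h2 := KP3_filter ty j hj (fun i => σ.H j i * PhS a σ ty i)
  have h3 := stepJ_Ph a hs γ σ ty k h j hj hjk m hw j hj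
  rw [if_pos rfl] at h3
  rw [h1, h3]
  unfold dfc
  rw [h2]
  have h4 := KP3_scl a σ ty k j hjk m hw
  unfold tauJ
  by_cases hm : m = 0
  · subst hm
    simp only [if_true] at h4 ⊢
    simp only [Nat.cast_zero, zero_mul, add_zero, sub_zero]
    linear_combination (2 - σ.H j j) * h4
  · rw [if_neg hm] at h4 ⊢
    linear_combination (2 - σ.H j j) * h4

theorem stepJ_dfc_self (a : I → I → ℕ) (hs : ∀ i j, a i j = a j i) (γ : I →₀ ℕ) (σ : Sta I)
    (ty : I → Ty) (k : ℕ) (h : Ph1 a γ σ ty (k + 2)) (j : I) (hj : ty j = Ty.R)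
    (hjk : σ.κ j = k + 2) (m : ℕ)
    (hw : m = 0 ∨ ∀ x, ty x ≠ Ty.R → 0 < a x j → σ.κ x = k + 2)
    (ht : tauJ a σ ty j m ≠ 0) :
    dfc a (staJ a σ ty j m) (tyJ a ty j m) j = scl σ j m / tauJ a σ ty j m * dfc a σ ty j := by
  have h1 := stepJ_tau a hs γ σ ty k h j hj hjk m hw
  have h2 := KP3_filter' a ty j m hj
    (fun i => (staJ a σ ty j m).H j i * PhS a (staJ a σ ty j m) (tyJ a ty j m) i)
  have h3 := stepJ_ph a hs γ σ ty k h j hj hjk m hw j hj
  rw [if_pos rfl] at h3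
  have h4 := KP3_scl a σ ty k j hjk m hw
  have h5 : (∑ i ∈ Finset.univ.filter (fun l => ty l = Ty.R ∧ l ≠ j),
      (staJ a σ ty j m).H j i * PhS a (staJ a σ ty j m) (tyJ a ty j m) i) =
      scl σ j m / tauJ a σ ty j m * ∑ l ∈ Finset.univ.filter (fun l => ty l = Ty.R ∧ l ≠ j),
        σ.H j l * PhS a (staJ a σ ty j m) (tyJ a ty j m) l := by
    rw [Finset.mul_sum]
    refine Finset.sum_congr rfl fun i hi => ?_
    simp only [Finset.mem_filter, Finset.mem_univ, true_and] at hi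
    have h6 : (staJ a σ ty j m).H j i = σ.H j i * (scl σ j m / tauJ a σ ty j m) := by
      show HJ a σ ty j m j i = _
      unfold HJ
      rw [if_neg hi.2, if_pos rfl]
    rw [h6]
    ring
  have h7 : (staJ a σ ty j m).H j j = scl σ j m / tauJ a σ ty j m := by
    show HJ a σ ty j m j j = _
    unfold HJ
    rw [if_pos rfl, if_pos rfl]
  conv_lhs => unfold dfc
  rw [h2, h5, h3, h7]
  set c : ℚ := if m = 0 then PhS a σ ty j else 1 with hc
  set t := tauJ a σ ty j m with htt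
  set s := scl σ j m with hss
  set A := PhS a (staJ a σ ty j m) (tyJ a ty j m) j with hA
  set B := ∑ l ∈ Finset.univ.filter (fun l => ty l = Ty.R ∧ l ≠ j),
        σ.H j l * PhS a (staJ a σ ty j m) (tyJ a ty j m) l with hB
  have h8 : A + B = c * t - dfc a σ ty j := by linear_combination -h1
  have h9 : s / t * (c * t) = PhS a σ ty j := by
    rw [← h4]
    field_simp
  linear_combination (-(s / t)) * h8 - h9

theorem stepJ_dfc (a : I → I → ℕ) (hs : ∀ i j, a i j = a j i) (γ : I →₀ ℕ) (σ : Sta I)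
    (ty : I → Ty) (k : ℕ) (h : Ph1 a γ σ ty (k + 2)) (j : I) (hj : ty j = Ty.R)
    (hjk : σ.κ j = k + 2) (m : ℕ)
    (hw : m = 0 ∨ ∀ x, ty x ≠ Ty.R → 0 < a x j → σ.κ x = k + 2)
    (ht : tauJ a σ ty j m ≠ 0) (l : I) (hl : ty l = Ty.R) (hlj : l ≠ j) :
    dfc a (staJ a σ ty j m) (tyJ a ty j m) l =
      dfc a σ ty l + hJ a σ ty j m l / tauJ a σ ty j m * dfc a σ ty j := by
  have h1 := stepJ_tau a hs γ σ ty k h j hj hjk m hw
  have h2 := KP3_filter' a ty j m hj
    (fun i => (staJ a σ ty j m).H l i * PhS a (staJ a σ ty j m) (tyJ a ty j m) i)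
  have h3 := stepJ_ph a hs γ σ ty k h j hj hjk m hw l hl
  rw [if_neg hlj] at h3
  have h4 := KP3_scl a σ ty k j hjk m hw
  have h5 : (∑ i ∈ Finset.univ.filter (fun l => ty l = Ty.R ∧ l ≠ j),
      (staJ a σ ty j m).H l i * PhS a (staJ a σ ty j m) (tyJ a ty j m) i) =
      hJ a σ ty j m l / tauJ a σ ty j m * (∑ l ∈ Finset.univ.filter (fun l => ty l = Ty.R ∧ l ≠ j),
        σ.H j l * PhS a (staJ a σ ty j m) (tyJ a ty j m) l) +
      ∑ i ∈ Finset.univ.filter (fun l => ty l = Ty.R ∧ l ≠ j),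
        σ.H l i * PhS a (staJ a σ ty j m) (tyJ a ty j m) i := by
    rw [Finset.mul_sum, ← Finset.sum_add_distrib]
    refine Finset.sum_congr rfl fun i hi => ?_
    simp only [Finset.mem_filter, Finset.mem_univ, true_and] at hi
    have h6 : (staJ a σ ty j m).H l i =
        σ.H l i + σ.H j i * (hJ a σ ty j m l / tauJ a σ ty j m) := by
      show HJ a σ ty j m l i = _
      unfold HJ
      rw [if_neg hi.2, if_neg hlj]
      congr 1
      unfold HD
      rw [if_neg]
      rw [hi.1]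
      rintro ⟨h0, _⟩
      exact absurd h0 (by decide)
    rw [h6]
    ring
  have h7 : (staJ a σ ty j m).H l j = hJ a σ ty j m l / tauJ a σ ty j m := by
    show HJ a σ ty j m l j = _
    unfold HJ
    rw [if_pos rfl, if_neg hlj]
  have h10 := KP3_sum a hs γ σ ty k h j hj hjk m hw (σ.H l)
  have h11 := KP3_filter ty j hj (fun i => σ.H l i * PhS a σ ty i)
  have h12 : (if m = 0 then PhS a σ ty j else 1) * hJ a σ ty j m l =
      PhS a σ ty j * σ.H l j +
        (if σ.κ l = σ.κ j then m * effA a (wallsAt σ ty j) l j else 0) +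
        m * ∑ l' ∈ procd σ ty j, effA a (wallsAt σ ty j) l' j * σ.H l l' := by
    unfold hJ
    by_cases hm : m = 0
    · subst hm
      simp [scl]
    · rw [if_neg hm, one_mul]
      rw [if_neg hm, one_mul] at h4
      rw [h4]
      simp only [hl, true_and]
  conv_lhs => unfold dfc
  conv_rhs => enter [1]; unfold dfc
  rw [h2, h5, h3, h7, h10, h11]
  set c : ℚ := if m = 0 then PhS a σ ty j else 1 with hc
  set t := tauJ a σ ty j m with htt
  set s := hJ a σ ty j m l with hss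
  set A := PhS a (staJ a σ ty j m) (tyJ a ty j m) j with hA
  set B := ∑ l ∈ Finset.univ.filter (fun l => ty l = Ty.R ∧ l ≠ j),
        σ.H j l * PhS a (staJ a σ ty j m) (tyJ a ty j m) l with hB
  have h8 : A + B = c * t - dfc a σ ty j := by linear_combination -h1
  have h9 : s / t * (c * t) = c * s := by
    field_simp
  by_cases hκ : σ.κ l = σ.κ j
  · rw [if_pos hκ] at h12 ⊢
    linear_combination (-(s / t)) * h8 - h9 - h12
  · rw [if_neg hκ] at h12 ⊢
    linear_combination (-(s / t)) * h8 - h9 - h12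

end Pool.Agent.H27.KAC
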