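import Pool.Agent.H27.KAC.KP1
import Pool.Agent.H27.KAC.KP3

/-!
KAC module KP4: one term of the regular step (black boxes: KP1, KP2, KP3, KQSt1).

* `stepJ_Ph1`: if `τ > 0` and all new `Ph ≥ 0` then the new state is again in phase 1.
  `Hnn`: `hJ ≥ 0`, `scl ≥ 0` (for m ≥ 1, `scl = P_j = Ph_j > 0`).  `dnn`: KP3.
  `alt` for `l ≠ j`: if `ph_l > 0` then `ph'_l ≥ ph_l > 0`.  If `ph_l = 0` then `l` is unprocessed (`posp`), no wall
  is adjacent to `l`, so `effA_{lj} = a_{lj}`; if `m a_{lj} > 0` then `ph'_l > 0`; otherwise `ph'_l = 0`, `p'_l = 0`,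
  `Ph'_l = Ph_l > 0` and the row `H'_{l·}` is zero.  `alt` for `j`: `ph'_j = Ph_j > 0`.
* `stepJ_pos`: if some regular `l` has `Ph'_l < 0` then `ph'_l > 0` (it is `j`, or a processed vertex, by
  `stepJ_Ph` and `Ph1.pos`, so `posp`), and `core_zero` applies.  Otherwise `τ > 0` by `stepJ_tau`
  (`dfc_j > 0`; or `ph_j = 0`, then `Ph'_j = 2 Ph_j + m effC > 0` because `effC = 2`: no loops and no
  adjacent walls by `alt`), and `GVal_norm`, `MJ_det`, `NJ_eq`.
-/

namespace Pool.Agent.H27.KAC

open scoped BigOperators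
open MvPowerSeries

variable {I : Type} [Fintype I] [DecidableEq I]

theorem KP4_upd (σ : Sta I) (j l : I) (k : ℕ) (hjk : σ.κ j = k + 2) :
    kapJ σ j l = if l = j then k + 1 else σ.κ l := by
  unfold kapJ
  by_cases hl : l = j
  · subst hl
    rw [Function.update_self, if_pos rfl, hjk]
    rfl
  · rw [Function.update_of_ne hl, if_neg hl]

theorem KP4_scl (a : I → I → ℕ) (γ : I →₀ ℕ) (σ : Sta I)
    (ty : I → Ty) (k : ℕ) (h : Ph1 a γ σ ty (k + 2)) (j : I) (hj : ty j = Ty.R)
    (hjk : σ.κ j = k + 2) (m : ℕ)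
    (hw : m = 0 ∨ ∀ x, ty x ≠ Ty.R → 0 < a x j → σ.κ x = k + 2) : 0 ≤ scl σ j m := by
  unfold scl
  split_ifs with hm
  · exact zero_le_one
  · rcases hw with hw | hw
    · exact absurd hw hm
    · rw [← PhS_eq_P a σ ty j (fun x hx hxa => (hw x hx hxa).trans hjk.symm)]
      exact (h.pos j hj hjk).le

theorem KP4_hJ (a : I → I → ℕ) (γ : I →₀ ℕ) (σ : Sta I)
    (ty : I → Ty) (k : ℕ) (h : Ph1 a γ σ ty (k + 2)) (j : I) (hj : ty j = Ty.R)
    (hjk : σ.κ j = k + 2) (m : ℕ)
    (hw : m = 0 ∨ ∀ x, ty x ≠ Ty.R → 0 < a x j → σ.κ x = k + 2) (l : I) (hl : ty l = Ty.R) :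
    0 ≤ hJ a σ ty j m l := by
  unfold hJ
  have h1 := KP4_scl a γ σ ty k h j hj hjk m hw
  have h2 := h.Hnn l j hl hj
  have h3 : ∀ l', 0 ≤ effA a (wallsAt σ ty j) l' j := fun l' => effA_nonneg a _ l' j
  have h4 : (0 : ℚ) ≤ m := Nat.cast_nonneg m
  apply add_nonneg (add_nonneg (mul_nonneg h1 h2) _)
  · apply mul_nonneg h4
    apply Finset.sum_nonneg
    intro l' hl'
    apply mul_nonneg (h3 l')
    apply h.Hnn l l' hl
    exact (Finset.mem_filter.mp hl').2.2.1
  · split_ifs
    · exact mul_nonneg h4 (h3 l)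
    · exact le_rfl

/-- lower bound for the new hatted lower exponent. -/
theorem KP4_ph_le (a : I → I → ℕ) (hs : ∀ i j, a i j = a j i) (γ : I →₀ ℕ) (σ : Sta I)
    (ty : I → Ty) (k : ℕ) (h : Ph1 a γ σ ty (k + 2)) (j : I) (hj : ty j = Ty.R)
    (hjk : σ.κ j = k + 2) (m : ℕ)
    (hw : m = 0 ∨ ∀ x, ty x ≠ Ty.R → 0 < a x j → σ.κ x = k + 2) (l : I) (hl : ty l = Ty.R)
    (hlj : l ≠ j) : phS a σ ty l ≤ phS a (staJ a σ ty j m) (tyJ a ty j m) l := by
  rw [stepJ_ph a hs γ σ ty k h j hj hjk m hw l hl, if_neg hlj]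
  split_ifs
  · have h1 := effA_nonneg a (wallsAt σ ty j) l j
    have h2 : (0 : ℚ) ≤ m := Nat.cast_nonneg m
    have := mul_nonneg h2 h1
    linarith
  · exact le_rfl

theorem KP4_ph_self (a : I → I → ℕ) (hs : ∀ i j, a i j = a j i) (γ : I →₀ ℕ) (σ : Sta I)
    (ty : I → Ty) (k : ℕ) (h : Ph1 a γ σ ty (k + 2)) (j : I) (hj : ty j = Ty.R)
    (hjk : σ.κ j = k + 2) (m : ℕ)
    (hw : m = 0 ∨ ∀ x, ty x ≠ Ty.R → 0 < a x j → σ.κ x = k + 2) :
    0 < phS a (staJ a σ ty j m) (tyJ a ty j m) j := by
  rw [stepJ_ph a hs γ σ ty k h j hj hjk m hw j hj, if_pos rfl]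
  exact h.pos j hj hjk

theorem stepJ_Ph1 (a : I → I → ℕ) (hg : GoodMat a) (γ : I →₀ ℕ) (σ : Sta I)
    (ty : I → Ty) (k : ℕ) (h : Ph1 a γ σ ty (k + 2)) (j : I) (hj : ty j = Ty.R)
    (hjk : σ.κ j = k + 2) (m : ℕ) (hm : (k + 1) * m ≤ γ j)
    (hw : m = 0 ∨ ∀ x, ty x ≠ Ty.R → 0 < a x j → σ.κ x = k + 2)
    (ht : 0 < tauJ a σ ty j m)
    (hP : ∀ l, ty l = Ty.R → 0 ≤ PhS a (staJ a σ ty j m) (tyJ a ty j m) l) :
    Ph1 a (γ - Finsupp.single j ((k + 1) * m)) (staJ a σ ty j m) (tyJ a ty j m) (k + 2) := by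
  have hs := hg.symm
  have hcore := stepJ_core a hs γ σ ty k h j hj hjk m hm hw
  have hscl := KP4_scl a γ σ ty k h j hj hjk m hw
  have hhJ := KP4_hJ a γ σ ty k h j hj hjk m hw
  have hupd := fun l => KP4_upd σ j l k hjk
  have htyR := tyJ_R a ty j m
  have hself := KP4_ph_self a hs γ σ ty k h j hj hjk m hw
  have hkle : ∀ i, σ.κ i ≤ k + 2 := by
    intro i
    by_cases hi : ty i = Ty.R
    · rcases h.reg i hi with h1 | h1 <;> omega
    · rcases h.wall i hi with h1 | h1
      · omega
      · have := h1.1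
        omega
  have hκ : ∀ l, (staJ a σ ty j m).κ l = if l = j then k + 1 else σ.κ l := fun l => hupd l
  refine ⟨⟨?_, ?_, ?_, ?_, ?_, ?_, ?_, ?_, ?_⟩, ?_, ?_, ?_, ?_⟩
  · exact stepJ_shape a hs γ σ ty k h j hj hjk m hw
  · exact hcore.k1
  · exact hcore.cons
  · -- levels
    intro i i' hii
    rw [hκ i, hκ i']
    have h1 := h.lev i i' hii
    have h2 := hkle i
    split_ifs with h3 h4 h4
    · omega
    · subst h3
      omega
    · omega
    · exact h1
  · -- nonnegative H
    intro l i hl hi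
    rw [htyR] at hl hi
    show 0 ≤ HJ a σ ty j m l i
    unfold HJ
    have hHji := h.Hnn j i hj hi
    split_ifs with h1 h2 h2
    · exact div_nonneg hscl ht.le
    · exact div_nonneg (hhJ l hl) ht.le
    · exact mul_nonneg hHji (div_nonneg hscl ht.le)
    · apply add_nonneg
      · unfold HD
        split_ifs
        · exact le_rfl
        · exact h.Hnn l i hl hi
      · exact mul_nonneg hHji (div_nonneg (hhJ l hl) ht.le)
  · -- defects
    intro l hl
    rw [htyR] at hl
    by_cases hlj : l = j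
    · subst hlj
      rw [stepJ_dfc_self a hs γ σ ty k h l hj hjk m hw ht.ne']
      exact mul_nonneg (div_nonneg hscl ht.le) (h.dnn l hl)
    · rw [stepJ_dfc a hs γ σ ty k h j hj hjk m hw ht.ne' l hl hlj]
      exact add_nonneg (h.dnn l hl) (mul_nonneg (div_nonneg (hhJ l hl) ht.le) (h.dnn j hj))
  · intro l hl
    rw [htyR] at hl
    exact hP l hl
  · -- alternatives
    intro l hl
    rw [htyR] at hl
    by_cases hlj : l = j
    · subst hlj
      exact Or.inl hself
    · rcases h.alt l hl with h1 | ⟨h1, h2, h3, h4, h5, h6⟩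
      · exact Or.inl (lt_of_lt_of_le h1 (KP4_ph_le a hs γ σ ty k h j hj hjk m hw l hl hlj))
      · have hlk : σ.κ l = k + 2 := by
          rcases h.reg l hl with h7 | h7
          · exact h7
          · have := h.posp l hl h7
            rw [h1] at this
            exact absurd this (lt_irrefl _)
        have hlkj : σ.κ l = σ.κ j := hlk.trans hjk.symm
        have heff : effA a (wallsAt σ ty j) l j = (a l j : ℚ) := by
          unfold effA
          have : ∑ x ∈ wallsAt σ ty j, (a x l : ℚ) * (a x j : ℚ) = 0 := by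
            apply Finset.sum_eq_zero
            intro x hx
            have hx2 := (Finset.mem_filter.mp hx).2.1
            rw [h6 x hx2]
            push_cast
            ring
          rw [this]
          ring
        have hph : phS a (staJ a σ ty j m) (tyJ a ty j m) l = (m : ℚ) * (a l j : ℚ) := by
          rw [stepJ_ph a hs γ σ ty k h j hj hjk m hw l hl, if_neg hlj, if_pos hlkj, h1, heff,
            zero_add]
        by_cases hma : m * a l j = 0
        · right
          have hmaQ : (m : ℚ) * (a l j : ℚ) = 0 := by exact_mod_cast hma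
          have hhl : hJ a σ ty j m l = 0 := by
            unfold hJ
            rw [h5 j, if_pos ⟨hl, hlkj⟩, heff, hmaQ, mul_zero, zero_add, zero_add]
            have : ∑ l' ∈ procd σ ty j, effA a (wallsAt σ ty j) l' j * σ.H l l' = 0 := by
              apply Finset.sum_eq_zero
              intro l' _
              rw [h5 l', mul_zero]
            rw [this, mul_zero]
          refine ⟨?_, ?_, ?_, h4, ?_, ?_⟩
          · rw [hph, hmaQ]
          · show pJ a σ j m l = 0
            unfold pJ
            rw [if_neg hlj, if_pos hlkj, h2, zero_add]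
            have : (a l j : ℤ) * m = ((m * a l j : ℕ) : ℤ) := by
              push_cast
              ring
            rw [this, hma]
            rfl
          · rw [stepJ_Ph a hs γ σ ty k h j hj hjk m hw l hl, if_neg hlj, if_neg (by omega)]
            exact h3
          · intro i
            show HJ a σ ty j m l i = 0
            unfold HJ
            rw [if_neg hlj, if_neg hlj, hhl, zero_div, mul_zero, add_zero]
            split_ifs
            · rfl
            · unfold HD
              split_ifs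
              · rfl
              · exact h5 i
          · intro x hx
            apply h6 x
            intro hx2
            exact hx ((htyR x).mpr hx2)
        · left
          rw [hph]
          have : 0 < m * a l j := Nat.pos_of_ne_zero hma
          exact_mod_cast this
  · -- two vanishing exponents
    intro l l' hl hl' hne h1 h2
    rw [htyR] at hl hl'
    have key : ∀ i, ty i = Ty.R → phS a (staJ a σ ty j m) (tyJ a ty j m) i = 0 →
        phS a σ ty i = 0 := by
      intro i hi h0
      have hij : i ≠ j := by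
        rintro rfl
        rw [h0] at hself
        exact lt_irrefl _ hself
      have h3 := KP4_ph_le a hs γ σ ty k h j hj hjk m hw i hi hij
      rw [h0] at h3
      rcases h.alt i hi with h4 | h4
      · exact absurd (lt_of_lt_of_le h4 h3) (lt_irrefl _)
      · exact h4.1
    exact h.alt2 l l' hl hl' hne (key l hl h1) (key l' hl' h2)
  · -- regular vertices
    intro l hl
    rw [htyR] at hl
    rw [hκ l]
    split_ifs with h1
    · exact Or.inr rfl
    · exact h.reg l hl
  · -- walls
    intro x hx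
    have hx0 : ty x ≠ Ty.R := fun hx2 => hx ((htyR x).mpr hx2)
    have hxj : x ≠ j := by
      rintro rfl
      exact hx0 hj
    rw [hκ x, if_neg hxj]
    rcases h.wall x hx0 with h1 | ⟨h1, h2, h3⟩
    · exact Or.inl h1
    · right
      refine ⟨?_, ?_, ?_⟩
      · rw [hκ x, if_neg hxj]
        exact h1
      · unfold tyJ
        rw [if_neg (by rw [h2]; rintro ⟨h4, -⟩; cases h4)]
        exact h2
      · show pJ a σ j m x = 1
        unfold pJ
        rw [if_neg hxj, if_neg (by omega)]
        exact h3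
  · -- positive upper exponents
    intro l hl hlk
    rw [htyR] at hl
    rw [hκ l] at hlk
    have hlj : l ≠ j := by
      rintro rfl
      rw [if_pos rfl] at hlk
      omega
    rw [if_neg hlj] at hlk
    rw [stepJ_Ph a hs γ σ ty k h j hj hjk m hw l hl, if_neg hlj, if_neg (by omega)]
    exact h.pos l hl hlk
  · -- positive lower exponents
    intro l hl hlk
    rw [htyR] at hl
    rw [hκ l] at hlk
    by_cases hlj : l = j
    · subst hlj
      exact hself
    · rw [if_neg hlj] at hlk
      exact lt_of_lt_of_le (h.posp l hl hlk) (KP4_ph_le a hs γ σ ty k h j hj hjk m hw l hl hlj)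

theorem stepJ_pos (a : I → I → ℕ) (hg : GoodMat a) (γ : I →₀ ℕ) (σ : Sta I)
    (ty : I → Ty) (k : ℕ) (h : Ph1 a γ σ ty (k + 2)) (j : I) (hj : ty j = Ty.R)
    (hjk : σ.κ j = k + 2) (m : ℕ) (hm : (k + 1) * m ≤ γ j)
    (hw : m = 0 ∨ ∀ x, ty x ≠ Ty.R → 0 < a x j → σ.κ x = k + 2)
    (hst : 0 < dfc a σ ty j ∨ phS a σ ty j = 0) :
    GVal a (γ - Finsupp.single j ((k + 1) * m)) (kapJ σ j) (PJ a σ j m) (pJ a σ j m)
        (MJ a σ ty j m) (NJ a σ ty j m) = 0 ∨
      (0 < tauJ a σ ty j m ∧
        Ph1 a (γ - Finsupp.single j ((k + 1) * m)) (staJ a σ ty j m) (tyJ a ty j m) (k + 2) ∧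
        GVal a (γ - Finsupp.single j ((k + 1) * m)) (kapJ σ j) (PJ a σ j m) (pJ a σ j m)
          (MJ a σ ty j m) (NJ a σ ty j m) =
        tauJ a σ ty j m *
          Val a (γ - Finsupp.single j ((k + 1) * m)) (staJ a σ ty j m)) := by
  have hs := hg.symm
  have hcore := stepJ_core a hs γ σ ty k h j hj hjk m hm hw
  have htyR := tyJ_R a ty j m
  have hself := KP4_ph_self a hs γ σ ty k h j hj hjk m hw
  have hPj := h.pos j hj hjk
  by_cases hneg : ∃ l, ty l = Ty.R ∧ PhS a (staJ a σ ty j m) (tyJ a ty j m) l < 0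
  · left
    obtain ⟨l, hl, hl2⟩ := hneg
    have hph : 0 < phS a (staJ a σ ty j m) (tyJ a ty j m) l := by
      by_cases hlj : l = j
      · subst hlj
        exact hself
      · rcases h.reg l hl with h1 | h1
        · exfalso
          rw [stepJ_Ph a hs γ σ ty k h j hj hjk m hw l hl, if_neg hlj, if_neg (by omega)] at hl2
          exact lt_irrefl _ (lt_trans hl2 (h.pos l hl h1))
        · exact lt_of_lt_of_le (h.posp l hl h1)
            (KP4_ph_le a hs γ σ ty k h j hj hjk m hw l hl hlj)
    exact core_zero a hg _ _ _ _ _ hcore l ((htyR l).mpr hl) hl2 hph _ _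
  · right
    push Not at hneg
    have hsum : 0 ≤ ∑ l ∈ Finset.univ.filter (fun l => ty l = Ty.R ∧ l ≠ j),
        σ.H j l * PhS a (staJ a σ ty j m) (tyJ a ty j m) l := by
      apply Finset.sum_nonneg
      intro l hl
      have hl2 := (Finset.mem_filter.mp hl).2.1
      exact mul_nonneg (h.Hnn j l hj hl2) (hneg l hl2)
    have htau := stepJ_tau a hs γ σ ty k h j hj hjk m hw
    have hd := h.dnn j hj
    have hrhs : 0 < PhS a (staJ a σ ty j m) (tyJ a ty j m) j +
        (∑ l ∈ Finset.univ.filter (fun l => ty l = Ty.R ∧ l ≠ j),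
          σ.H j l * PhS a (staJ a σ ty j m) (tyJ a ty j m) l) + dfc a σ ty j := by
      rcases hst with h1 | h1
      · have := hneg j hj
        linarith
      · have h2 : 0 < PhS a (staJ a σ ty j m) (tyJ a ty j m) j := by
          rw [stepJ_Ph a hs γ σ ty k h j hj hjk m hw j hj, if_pos rfl, h1]
          rcases h.alt j hj with h3 | ⟨-, -, -, h4, -, h6⟩
          · rw [h1] at h3
            exact absurd h3 (lt_irrefl _)
          · have heff : effC a (wallsAt σ ty j) j = 2 := by
              unfold effC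
              have : ∑ x ∈ wallsAt σ ty j, (a x j : ℚ) ^ 2 = 0 := by
                apply Finset.sum_eq_zero
                intro x hx
                have hx2 := (Finset.mem_filter.mp hx).2.1
                rw [h6 x hx2]
                norm_num
              rw [this, h4]
              norm_num
            rw [heff]
            have : (0 : ℚ) ≤ m := Nat.cast_nonneg m
            linarith
        linarith
    rw [← htau] at hrhs
    have hcoef : 0 < (if m = 0 then PhS a σ ty j else (1 : ℚ)) := by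
      split_ifs
      · exact hPj
      · exact one_pos
    have ht : 0 < tauJ a σ ty j m := (pos_iff_pos_of_mul_pos hrhs).mp hcoef
    refine ⟨ht, stepJ_Ph1 a hg γ σ ty k h j hj hjk m hm hw ht hneg, ?_⟩
    rw [GVal_norm a _ (kapJ σ j) (PJ a σ j m) (pJ a σ j m) (MJ a σ ty j m) (NJ a σ ty j m)
      (HJ a σ ty j m) (NJ_eq a σ ty h.shape j m hj ht.ne'), MJ_det a σ ty j m hj]
    rfl

end Pool.Agent.H27.KAC
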