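import Pool.Agent.H27.KAC.KQEta

/-!
KAC module KQRaw1: expansion at a regular vertex `j` (any vertex, loops allowed), level `k+2`.

`U_{j,k+2}^{-P} = U_{j,k+1}^{-2P} U_{j,k}^P (1-η)^{-P}` with η = η_{j,k+1}, and
`(1-η)^{-P} (φ + η λ/(1-η)) = ∑_{m ≥ 0} wt P m * η^m * (P φ + m λ)` for `P ≥ 1`
(`∑_m C(P+m-1,m) η^m = (1-η)^{-P}`, `∑_m C(P+m-1, m-1) η^m = η (1-η)^{-P-1}`,
`C(P+m-1,m) = P * wt P m`, `C(P+m-1,m-1) = m * wt P m`).
Only `m ≤ γ j / (k+1)` contribute, because `η^m` is divisible by `(X j)^((k+1) m)`.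
Finite version for the proof: with `N = γ j/(k+1) + 1`,
`(1-η)^P * ∑_{m<N} C(P+m-1,m) η^m = 1 - η^N * (polynomial in η)`.
The column `u_j + ρ` is `2 x_{j,k+1} - x_{j,k} + ρ + η λ/(1-η)` by `xv_eta`.
-/

namespace Pool.Agent.H27.KAC

open scoped BigOperators
open MvPowerSeries

variable {I : Type} [Fintype I] [DecidableEq I]

private theorem KQRaw1_S {R : Type} [CommRing R] (η : R) (P N : ℕ) :
    (1 - η) * ∑ m ∈ Finset.range N, (((P + 1 + m).choose (P + 1) : ℕ) : R) * η ^ m =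
      ∑ m ∈ Finset.range N, (((P + m).choose P : ℕ) : R) * η ^ m -
        (((P + N).choose (P + 1) : ℕ) : R) * η ^ N := by
  induction N with
  | zero => simp
  | succ N ih =>
    rw [Finset.sum_range_succ, mul_add, ih, Finset.sum_range_succ]
    have h1 : (P + 1 + N).choose (P + 1) = (P + N).choose P + (P + N).choose (P + 1) := by
      rw [show P + 1 + N = (P + N) + 1 by ring]
      exact Nat.choose_succ_succ _ _
    have h2 : (P + (N + 1)).choose (P + 1) = (P + N).choose P + (P + N).choose (P + 1) := by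
      rw [show P + (N + 1) = (P + N) + 1 by ring]
      exact Nat.choose_succ_succ _ _
    rw [h1, h2]
    push_cast
    ring

private theorem KQRaw1_Q {R : Type} [CommRing R] (η : R) (P N : ℕ) :
    ∃ Q : R, (1 - η) ^ (P + 1) * ∑ m ∈ Finset.range N, (((P + m).choose P : ℕ) : R) * η ^ m =
      1 - η ^ N * Q := by
  induction P with
  | zero =>
    refine ⟨1, ?_⟩
    simp only [zero_add, Nat.choose_zero_right, Nat.cast_one, one_mul, pow_one, mul_one]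
    exact mul_neg_geom_sum η N
  | succ P ih =>
    obtain ⟨Q, hQ⟩ := ih
    refine ⟨Q + (1 - η) ^ (P + 1) * (((P + N).choose (P + 1) : ℕ) : R), ?_⟩
    rw [pow_succ (1 - η) (P + 1), mul_assoc, KQRaw1_S, mul_sub, hQ]
    ring

private theorem KQRaw1_U {R : Type} [CommRing R] (η : R) (w : Rˣ) (hw : (w : R) = 1 - η)
    (P N : ℕ) :
    ∃ Q : R, ((w ^ (-((P : ℤ) + 1)) : Rˣ) : R) =
      ∑ m ∈ Finset.range N, (((P + m).choose P : ℕ) : R) * η ^ m + η ^ N * Q := by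
  obtain ⟨Q, hQ⟩ := KQRaw1_Q η P N
  have h1 : ((w ^ (-((P : ℤ) + 1)) : Rˣ) : R) * (1 - η) ^ (P + 1) = 1 := by
    rw [← hw, ← Units.val_pow_eq_pow_val, ← Units.val_mul]
    have h2 : w ^ (-((P : ℤ) + 1)) * w ^ (P + 1) = 1 := by
      rw [← zpow_natCast w (P + 1), ← zpow_add]
      push_cast
      rw [neg_add_cancel, zpow_zero]
    rw [h2, Units.val_one]
  refine ⟨Q * ((w ^ (-((P : ℤ) + 1)) : Rˣ) : R), ?_⟩
  linear_combination (-((w ^ (-((P : ℤ) + 1)) : Rˣ) : R)) * hQ +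
    (∑ m ∈ Finset.range N, (((P + m).choose P : ℕ) : R) * η ^ m) * h1

private theorem KQRaw1_lin (γ : I →₀ ℕ) (F T : MvPowerSeries I ℚ) (g : ℕ → MvPowerSeries I ℚ)
    (n : ℕ → ℕ) (N : ℕ) (c : I → I → MvPowerSeries I ℚ) :
    raw γ (F * (∑ m ∈ Finset.range N, ((n m : ℕ) : MvPowerSeries I ℚ) * g m + T)) c =
      ∑ m ∈ Finset.range N, (n m : ℚ) * raw γ (F * g m) c + raw γ (F * T) c := by
  rw [mul_add, raw_add_left]
  congr 1
  unfold raw
  rw [Finset.mul_sum, Finset.sum_mul, map_sum]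
  refine Finset.sum_congr rfl fun m _ => ?_
  have h : F * (((n m : ℕ) : MvPowerSeries I ℚ) * g m) * (colMat c).det =
      (n m) • (F * g m * (colMat c).det) := by
    rw [nsmul_eq_mul]
    ring
  rw [h, map_nsmul, nsmul_eq_mul]

private theorem KQRaw1_nat (γ : I →₀ ℕ) (F : MvPowerSeries I ℚ) (n : ℕ)
    (c : I → I → MvPowerSeries I ℚ) :
    raw γ (F * (n : MvPowerSeries I ℚ)) c = (n : ℚ) * raw γ F c := by
  unfold raw
  have h : F * (n : MvPowerSeries I ℚ) * (colMat c).det = n • (F * (colMat c).det) := by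
    rw [nsmul_eq_mul]
    ring
  rw [h, map_nsmul, nsmul_eq_mul]

private theorem KQRaw1_wtP (P m : ℕ) :
    wt (P + 1) m * ((P + 1 : ℕ) : ℚ) = (((P + m).choose P : ℕ) : ℚ) := by
  unfold wt
  rw [Nat.cast_add_choose, show P + 1 + m - 1 = P + m by omega, Nat.factorial_succ P]
  have h1 : (P.factorial : ℚ) ≠ 0 := by exact_mod_cast P.factorial_ne_zero
  have h2 : (m.factorial : ℚ) ≠ 0 := by exact_mod_cast m.factorial_ne_zero
  have h3 : ((P + 1 : ℕ) : ℚ) ≠ 0 := by exact_mod_cast Nat.succ_ne_zero P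
  push_cast at h3 ⊢
  field_simp

private theorem KQRaw1_wtm (P m : ℕ) :
    wt P (m + 1) * ((m + 1 : ℕ) : ℚ) = (((P + m).choose P : ℕ) : ℚ) := by
  unfold wt
  rw [Nat.cast_add_choose, show P + (m + 1) - 1 = P + m by omega, Nat.factorial_succ m]
  have h1 : (P.factorial : ℚ) ≠ 0 := by exact_mod_cast P.factorial_ne_zero
  have h2 : (m.factorial : ℚ) ≠ 0 := by exact_mod_cast m.factorial_ne_zero
  have h3 : ((m + 1 : ℕ) : ℚ) ≠ 0 := by exact_mod_cast Nat.succ_ne_zero m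
  push_cast at h3 ⊢
  field_simp

private theorem KQRaw1_eta_pow (a : I → I → ℕ) (j : I) (k P m : ℕ) (F : MvPowerSeries I ℚ) :
    (X j : MvPowerSeries I ℚ) ^ ((k + 1) * m) *
      (F * (((uu a j (k + 1)) ^ (-(2 * P : ℤ) - 2 * (m : ℤ)) * (uu a j k) ^ (P : ℤ) *
        (cU a j (k + 1)) ^ m : (MvPowerSeries I ℚ)ˣ) : MvPowerSeries I ℚ)) =
    F * (((uu a j (k + 1)) ^ (-(2 * P : ℤ)) * (uu a j k) ^ (P : ℤ) :
      (MvPowerSeries I ℚ)ˣ) : MvPowerSeries I ℚ) * etaS a j (k + 1) ^ m := by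
  have h1 : (uu a j (k + 1)) ^ (-(2 * P : ℤ) - 2 * (m : ℤ)) * (uu a j k) ^ (P : ℤ) *
        (cU a j (k + 1)) ^ m =
      ((uu a j (k + 1)) ^ (-(2 * P : ℤ)) * (uu a j k) ^ (P : ℤ)) *
        (cU a j (k + 1) * (uu a j (k + 1)) ^ (-2 : ℤ)) ^ m := by
    rw [sub_eq_add_neg, zpow_add, mul_pow, ← zpow_natCast ((uu a j (k + 1)) ^ (-2 : ℤ)) m,
      ← zpow_mul, show (-(2 * (m : ℤ))) = -2 * (m : ℤ) by ring]
    simp only [mul_comm, mul_left_comm, mul_assoc]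
  rw [h1, etaS, Units.val_mul, Units.val_pow_eq_pow_val, mul_pow, ← pow_mul]
  ring

private theorem KQRaw1_high (a : I → I → ℕ) (j : I) (k : ℕ) (γ : I →₀ ℕ)
    (F Q : MvPowerSeries I ℚ) (c : I → I → MvPowerSeries I ℚ) :
    raw γ (F * (etaS a j (k + 1) ^ (γ j / (k + 1) + 1) * Q)) c = 0 := by
  have h1 : F * (etaS a j (k + 1) ^ (γ j / (k + 1) + 1) * Q) =
      (X j : MvPowerSeries I ℚ) ^ ((k + 1) * (γ j / (k + 1) + 1)) *
        (F * (((cU a j (k + 1) * (uu a j (k + 1)) ^ (-2 : ℤ) : (MvPowerSeries I ℚ)ˣ) :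
          MvPowerSeries I ℚ) ^ (γ j / (k + 1) + 1) * Q)) := by
    rw [etaS, mul_pow, ← pow_mul]
    ring
  rw [h1, raw_X_pow, rawSub, if_neg]
  have h2 : γ j < (k + 1) * (γ j / (k + 1) + 1) := Nat.lt_mul_div_succ (γ j) (Nat.succ_pos k)
  exact not_le.2 h2

theorem raw_expand (a : I → I → ℕ) (hs : ∀ i j, a i j = a j i) (j : I) (k P : ℕ) (hP : 1 ≤ P)
    (γ : I →₀ ℕ) (F : MvPowerSeries I ℚ) (c : I → I → MvPowerSeries I ℚ)
    (ρ : I → MvPowerSeries I ℚ) :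
    raw γ (F * (((uu a j (k + 2)) ^ (-(P : ℤ)) : (MvPowerSeries I ℚ)ˣ) : MvPowerSeries I ℚ))
      (Function.update c j (fun l => xv a j (k + 2) l + ρ l)) =
    ∑ m ∈ Finset.range (γ j / (k + 1) + 1), wt P m * rawSub γ j ((k + 1) * m)
      (F * (((uu a j (k + 1)) ^ (-(2 * P : ℤ) - 2 * (m : ℤ)) * (uu a j k) ^ (P : ℤ) *
        (cU a j (k + 1)) ^ m : (MvPowerSeries I ℚ)ˣ) : MvPowerSeries I ℚ))
      (Function.update c j (fun l => (P : MvPowerSeries I ℚ) *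
          (2 * xv a j (k + 1) l - xv a j k l + ρ l) +
        (m : MvPowerSeries I ℚ) * lamV a j (k + 1) l)) := by
  -- the unit `1 - η`
  have hu := one_sub_eta_isUnit a j (k + 1) (by omega)
  set η := etaS a j (k + 1) with hη
  obtain ⟨w, hw⟩ : ∃ w : (MvPowerSeries I ℚ)ˣ, (w : MvPowerSeries I ℚ) = 1 - η := ⟨hu.unit, rfl⟩
  set F' : MvPowerSeries I ℚ := F * (((uu a j (k + 1)) ^ (-(2 * P : ℤ)) * (uu a j k) ^ (P : ℤ) :
      (MvPowerSeries I ℚ)ˣ) : MvPowerSeries I ℚ) with hF'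
  have huu : uu a j (k + 2) = (uu a j (k + 1)) ^ 2 * w * (uu a j k)⁻¹ := by
    rw [eq_mul_inv_iff_mul_eq]
    ext1
    rw [Units.val_mul, Units.val_mul, Units.val_pow_eq_pow_val, uu_coe, uu_coe, uu_coe, hw]
    exact uS_eta a j k
  have hpow : ((uu a j (k + 2)) ^ (-(P : ℤ)) : (MvPowerSeries I ℚ)ˣ) =
      ((uu a j (k + 1)) ^ (-(2 * P : ℤ)) * (uu a j k) ^ (P : ℤ)) * w ^ (-(P : ℤ)) := by
    rw [huu, mul_zpow, mul_zpow, ← zpow_natCast (uu a j (k + 1)) 2, ← zpow_mul, inv_zpow',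
      neg_neg, show ((2 : ℕ) : ℤ) * -(P : ℤ) = -(2 * P : ℤ) by push_cast; ring]
    simp only [mul_comm, mul_left_comm]
  have hF0 : F * (((uu a j (k + 2)) ^ (-(P : ℤ)) : (MvPowerSeries I ℚ)ˣ) : MvPowerSeries I ℚ) =
      F' * ((w ^ (-(P : ℤ)) : (MvPowerSeries I ℚ)ˣ) : MvPowerSeries I ℚ) := by
    rw [hpow, Units.val_mul, hF', mul_assoc]
  have hcol : (fun l => xv a j (k + 2) l + ρ l) = (fun l =>
      (2 * xv a j (k + 1) l - xv a j k l + ρ l) +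
        (((w⁻¹ : (MvPowerSeries I ℚ)ˣ) : MvPowerSeries I ℚ) * η) * lamV a j (k + 1) l) := by
    funext l
    have h1 := xv_eta a hs j k l
    rw [← hη, ← hw] at h1
    have h2 : ((w⁻¹ : (MvPowerSeries I ℚ)ˣ) : MvPowerSeries I ℚ) * (w : MvPowerSeries I ℚ) = 1 :=
      Units.inv_mul w
    linear_combination ((w⁻¹ : (MvPowerSeries I ℚ)ˣ) : MvPowerSeries I ℚ) * h1 -
      (xv a j (k + 2) l - 2 * xv a j (k + 1) l + xv a j k l) * h2
  rw [hF0, hcol, raw_add, raw_smul]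
  have hF1 : F' * ((w ^ (-(P : ℤ)) : (MvPowerSeries I ℚ)ˣ) : MvPowerSeries I ℚ) *
      (((w⁻¹ : (MvPowerSeries I ℚ)ˣ) : MvPowerSeries I ℚ) * η) =
      F' * (((w ^ (-((P : ℤ) + 1)) : (MvPowerSeries I ℚ)ˣ) : MvPowerSeries I ℚ) * η) := by
    rw [neg_add, zpow_add, Units.val_mul, zpow_neg_one]
    ring
  rw [hF1]
  obtain ⟨P', rfl⟩ : ∃ P', P = P' + 1 := ⟨P - 1, by omega⟩
  set M := γ j / (k + 1) with hM
  obtain ⟨Q1, hQ1⟩ := KQRaw1_U η w hw P' (M + 1)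
  obtain ⟨Q2, hQ2⟩ := KQRaw1_U η w hw (P' + 1) M
  have e1 : ((w ^ (-((P' + 1 : ℕ) : ℤ)) : (MvPowerSeries I ℚ)ˣ) : MvPowerSeries I ℚ) =
      ∑ m ∈ Finset.range (M + 1), (((P' + m).choose P' : ℕ) : MvPowerSeries I ℚ) * η ^ m +
        η ^ (M + 1) * Q1 := by
    rw [← hQ1]
    push_cast
    rfl
  have e2 : ((w ^ (-(((P' + 1 : ℕ) : ℤ) + 1)) : (MvPowerSeries I ℚ)ˣ) : MvPowerSeries I ℚ) * η =
      ∑ m ∈ Finset.range M, (((P' + 1 + m).choose (P' + 1) : ℕ) : MvPowerSeries I ℚ) *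
        η ^ (m + 1) + η ^ (M + 1) * Q2 := by
    rw [hQ2, add_mul, Finset.sum_mul]
    congr 1
    · refine Finset.sum_congr rfl fun m _ => ?_
      ring
    · ring
  rw [e1, e2, KQRaw1_lin, KQRaw1_lin, hη, KQRaw1_high, KQRaw1_high, add_zero, add_zero]
  have e3 : ∀ m ∈ Finset.range (M + 1), wt (P' + 1) m * rawSub γ j ((k + 1) * m)
      (F * (((uu a j (k + 1)) ^ (-(2 * ((P' + 1 : ℕ) : ℤ)) - 2 * (m : ℤ)) *
        (uu a j k) ^ ((P' + 1 : ℕ) : ℤ) *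
        (cU a j (k + 1)) ^ m : (MvPowerSeries I ℚ)ˣ) : MvPowerSeries I ℚ))
      (Function.update c j (fun l => ((P' + 1 : ℕ) : MvPowerSeries I ℚ) *
          (2 * xv a j (k + 1) l - xv a j k l + ρ l) +
        (m : MvPowerSeries I ℚ) * lamV a j (k + 1) l)) =
      (((P' + m).choose P' : ℕ) : ℚ) * raw γ (F' * etaS a j (k + 1) ^ m)
        (Function.update c j (fun l => 2 * xv a j (k + 1) l - xv a j k l + ρ l)) +
      wt (P' + 1) m * ((m : ℕ) : ℚ) * raw γ (F' * etaS a j (k + 1) ^ m)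
        (Function.update c j (fun l => lamV a j (k + 1) l)) := by
    intro m _
    rw [← raw_X_pow, KQRaw1_eta_pow, ← hF', raw_add, raw_smul, raw_smul, KQRaw1_nat, KQRaw1_nat,
      ← KQRaw1_wtP P' m]
    ring
  rw [Finset.sum_congr rfl e3, Finset.sum_add_distrib]
  congr 1
  rw [Finset.sum_range_succ']
  simp only [Nat.cast_zero, mul_zero, zero_mul, add_zero]
  refine Finset.sum_congr rfl fun m _ => ?_
  rw [KQRaw1_wtm]

end Pool.Agent.H27.KAC
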