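import Pool.Agent.H27.KAC.KQSt1
import Pool.Agent.H27.KAC.KQRaw1
import Pool.Agent.H27.KAC.KQRaw3

/-!
KAC module KQSt2: the regular step, no lagging wall adjacent to `j`.

`σ.κ j = k + 2`, `P_j ≥ 1`.  Apply `raw_expand` to column `j` (`ρ = - ∑ H l j v_l`).  In the `m`-th
term: column `j` is `P (2 x_{j,k+1} - x_{j,k} - ∑ H l j v_l) + m λ_j`; for the neighbours `l` of `j`
the vector `x_{l,k+1}` is `v_l` if `κ l = κ j` and `u_l` if `κ l = κ j - 1`.  For `m = 0` this is the claim
(`wt P 0 * P = 1`; multiply column `j` by `P`).  For `m ≥ 1` and every wall `x` adjacent to `j`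
(all at level `κ j`; they are pairwise nonadjacent): the power of `U_{x,k+1}` is
`p x + a x j * m ≥ 1`.  If `x` is a D-wall, its column `u_x - v_x` may be replaced by `u_x`
(`vanish_general` with b = 0, c ≥ 1: after removing `u_x` no pole of `U_{x,k+2}` is left; column `j` also
contains `v_x`, all other columns do not by `Shape.row`).  Then `raw_replace` replaces `v_x` in column
`j` by `(1/2) ∑_l a x l x_{l,k+1}`.  Do this for one wall after the other (the column of `j` is the
only column containing `v_x` for walls `x`; the replaced vectors do not involve walls since walls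
are pairwise nonadjacent).  Result: `GVal` with `MJ`, `NJ`.
The hypothesis `hcons` (consistency at walls) is preserved: at index `γ - (k+1) m e_j` one has
`(Cγ')_x = (k+1) p_x + (k+1) a x j m`.
-/

namespace Pool.Agent.H27.KAC

open scoped BigOperators
open MvPowerSeries

variable {I : Type} [Fintype I] [DecidableEq I]

theorem KQSt2_raw_C (γ : I →₀ ℕ) (F : MvPowerSeries I ℚ) (r : ℚ)
    (c : I → I → MvPowerSeries I ℚ) : raw γ (F * C r) c = r * raw γ F c := by
  unfold raw
  rw [show F * C r * (colMat c).det = C r * (F * (colMat c).det) by ring, coeff_C_mul]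

theorem KQSt2_vreg_zero (a : I → I → ℕ) (x : I) (r : ℤ) :
    VReg a x r (fun _ => (0 : MvPowerSeries I ℚ)) :=
  ⟨fun _ _ => Fil_zero a x r, Fil_zero a x (r - 1)⟩

theorem KQSt2_vreg_C {a : I → I → ℕ} {x : I} (q : ℚ) {v : I → MvPowerSeries I ℚ}
    (h : VReg a x 0 v) : VReg a x 0 (fun l => C q * v l) := by
  have := VReg.smul (Fil_C a x q) h
  simpa using this

theorem KQSt2_vreg_comb (a : I → I → ℕ) (hs : ∀ i j, a i j = a j i) (x : I) (hx : a x x = 0)
    (κf : I → ℕ) (f : I → ℚ) (hf : f x = 0) :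
    VReg a x 0 (fun l => ∑ l', C (f l') * xv a l' (κf l') l) := by
  refine VReg.sum (s := Finset.univ) (v := fun l' l => C (f l') * xv a l' (κf l') l) ?_
  intro l' _
  by_cases h : l' = x
  · subst h
    simp only [hf, map_zero, zero_mul]
    exact KQSt2_vreg_zero a l' 0
  · exact KQSt2_vreg_C _ (xv_reg a hs x hx l' h (κf l'))

theorem KQSt2_fac_split (a : I → I → ℕ) (hs : ∀ i j, a i j = a j i) (x : I) (hx : a x x = 0)
    (κ : I → ℕ) (P p : I → ℤ) (k : ℕ) (hk : κ x = k + 2) (hP : P x = 0) (q : ℕ)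
    (hq : p x = q) :
    ∃ F : MvPowerSeries I ℚ, Fil a x 0 F ∧ facG a κ P p = F * uS a x (k + 1) ^ q := by
  refine ⟨((∏ i ∈ Finset.univ.erase x, ((uu a i (κ i)) ^ (-(P i)) *
    (uu a i (κ i - 1)) ^ (p i)) : (MvPowerSeries I ℚ)ˣ) : MvPowerSeries I ℚ), ?_, ?_⟩
  · rw [Units.coe_prod]
    have h := Fil.prod (a := a) (x := x) (r := fun _ => 0) (s := Finset.univ.erase x)
      (F := fun i => (((uu a i (κ i)) ^ (-(P i)) * (uu a i (κ i - 1)) ^ (p i) :
        (MvPowerSeries I ℚ)ˣ) : MvPowerSeries I ℚ)) ?_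
    · simpa using h
    · intro i hi
      have hne : i ≠ x := Finset.ne_of_mem_erase hi
      rw [Units.val_mul]
      have := (uu_zpow_fil a hs x hx i hne (κ i) (-(P i))).mul
        (uu_zpow_fil a hs x hx i hne (κ i - 1) (p i))
      simpa using this
  · unfold facG
    rw [← Finset.prod_erase_mul Finset.univ _ (Finset.mem_univ x), Units.val_mul, hk, hP, hq]
    congr 1
    have h1 : k + 2 - 1 = k + 1 := rfl
    rw [h1, neg_zero, zpow_zero, one_mul, zpow_natCast, Units.val_pow_eq_pow_val, uu_coe]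

theorem KQSt2_stepD (a : I → I → ℕ) (hs : ∀ i j, a i j = a j i) (x : I) (hx : a x x = 0)
    (k q : ℕ) (hq : 1 ≤ q) (γ : I →₀ ℕ) (hγ : cw a γ x = ((k : ℤ) + 1) * q)
    (F : MvPowerSeries I ℚ) (hF : Fil a x 0 F) (c r : I → I → MvPowerSeries I ℚ) (h : I → ℚ)
    (hr : ∀ i, i ≠ x → VReg a x 0 (r i))
    (hc : ∀ i, i ≠ x → ∀ l, c i l = r i l + C (h i) * xv a x (k + 1) l) :
    raw γ (F * uS a x (k + 1) ^ q)
      (Function.update c x (fun l => xv a x (k + 2) l - xv a x (k + 1) l)) =
    raw γ (F * uS a x (k + 1) ^ q) (Function.update c x (xv a x (k + 2))) := by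
  have e1 : (fun l => xv a x (k + 2) l - xv a x (k + 1) l) =
      (fun l => xv a x (k + 2) l + (fun l' => - xv a x (k + 1) l') l) := by
    funext l; ring
  rw [e1, raw_add]
  have h0 : raw γ (F * uS a x (k + 1) ^ q)
      (Function.update c x (fun l' => - xv a x (k + 1) l')) = 0 := by
    have hv := vanish_general a hs x hx (k + 2) (by omega) 0 q F hF
      (fun i l => if i = x then 0 else r i l) (by
        intro i
        by_cases hi : i = x
        · simp only [hi, if_true]
          exact KQSt2_vreg_zero a x 0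
        · simp only [hi, if_false]
          exact hr i hi)
      (fun _ => 0) (fun i => if i = x then -1 else h i) (fun _ _ => rfl)
      (fun h0 => by omega) γ (by rw [hγ]; push_cast; ring)
    rw [pow_zero, mul_one] at hv
    have h1 : k + 2 - 1 = k + 1 := rfl
    rw [h1] at hv
    rw [← hv]
    congr 1
    funext i l
    by_cases hi : i = x
    · subst hi
      simp
    · rw [Function.update_of_ne hi, hc i hi l]
      simp [hi]
  rw [h0, add_zero]

/-- the vector with coefficients `f` at level `k + 1`, plus `R`. -/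
noncomputable def KQSt2_vec (a : I → I → ℕ) (k : ℕ) (f : I → ℚ) (R : I → MvPowerSeries I ℚ)
    (l : I) : MvPowerSeries I ℚ :=
  (∑ l', C (f l') * xv a l' (k + 1) l) + R l

theorem KQSt2_stepA (a : I → I → ℕ) (hs : ∀ i j, a i j = a j i) (x : I) (hx : a x x = 0)
    (k q : ℕ) (hq : 1 ≤ q) (γ : I →₀ ℕ) (hγ : cw a γ x = ((k : ℤ) + 1) * q)
    (F : MvPowerSeries I ℚ) (hF : Fil a x 0 F) (c : I → I → MvPowerSeries I ℚ) (j : I)
    (hj : j ≠ x) (hcx : ∀ l, c x l = xv a x (k + 2) l)
    (hr : ∀ i, i ≠ x → i ≠ j → VReg a x 0 (c i)) (f : I → ℚ) (R : I → MvPowerSeries I ℚ)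
    (hR : VReg a x 0 R) :
    raw γ (F * uS a x (k + 1) ^ q) (Function.update c j (KQSt2_vec a k f R)) =
    raw γ (F * uS a x (k + 1) ^ q) (Function.update c j (KQSt2_vec a k
      (fun l' => (if l' = x then 0 else f l') + f x * (a x l' : ℚ) / 2) R)) := by
  have key := raw_replace a hs x hx (k + 1) q hq γ (by rw [hγ]; push_cast; ring) F hF
    (fun i l => if i = j then (∑ l', C (if l' = x then 0 else f l') * xv a l' (k + 1) l) + R l
      else c i l) (by
        intro i hi
        by_cases hij : i = j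
        · simp only [hij, if_true]
          exact VReg.add (KQSt2_vreg_comb a hs x hx (fun _ => k + 1)
            (fun l' => if l' = x then 0 else f l') (by simp)) hR
        · simp only [hij, if_false]
          exact hr i hi hij)
      (fun i => if i = j then f x else 0)
  have h1 : k + 1 + 1 = k + 2 := rfl
  rw [h1] at key
  have eL : Function.update c j (KQSt2_vec a k f R) =
      (Function.update (fun i l => (if i = j then (∑ l', C (if l' = x then 0 else f l') *
        xv a l' (k + 1) l) + R l else c i l) + C (if i = j then f x else 0) *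
        xv a x (k + 1) l) x (xv a x (k + 2))) := by
    funext i l
    by_cases hix : i = x
    · subst hix
      rw [Function.update_self, Function.update_of_ne (Ne.symm hj), hcx]
    · rw [Function.update_of_ne hix]
      by_cases hij : i = j
      · subst hij
        rw [Function.update_self]
        simp only [if_true]
        unfold KQSt2_vec
        have : ∑ l', C (f l') * xv a l' (k + 1) l =
            (∑ l', C (if l' = x then 0 else f l') * xv a l' (k + 1) l) +
              C (f x) * xv a x (k + 1) l := by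
          rw [← Finset.sum_erase_add Finset.univ _ (Finset.mem_univ x),
            ← Finset.sum_erase_add (a := x) Finset.univ
              (fun l' => C (if l' = x then 0 else f l') * xv a l' (k + 1) l) (Finset.mem_univ x)]
          simp only [if_true, map_zero, zero_mul, add_zero]
          congr 1
          refine Finset.sum_congr rfl fun l' hl' => ?_
          rw [if_neg (Finset.ne_of_mem_erase hl')]
        rw [this]
        ring
      · rw [Function.update_of_ne hij]
        simp [hij]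
  have eR : Function.update c j (KQSt2_vec a k
      (fun l' => (if l' = x then 0 else f l') + f x * (a x l' : ℚ) / 2) R) =
      (Function.update (fun i l => (if i = j then (∑ l', C (if l' = x then 0 else f l') *
        xv a l' (k + 1) l) + R l else c i l) + C (if i = j then f x else 0) *
        ∑ l', C ((a x l' : ℚ) / 2) * xv a l' (k + 1) l) x (xv a x (k + 2))) := by
    funext i l
    by_cases hix : i = x
    · subst hix
      rw [Function.update_self, Function.update_of_ne (Ne.symm hj), hcx]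
    · rw [Function.update_of_ne hix]
      by_cases hij : i = j
      · subst hij
        rw [Function.update_self]
        simp only [if_true]
        unfold KQSt2_vec
        have : ∑ l', C ((if l' = x then 0 else f l') + f x * (a x l' : ℚ) / 2) *
            xv a l' (k + 1) l =
            (∑ l', C (if l' = x then 0 else f l') * xv a l' (k + 1) l) +
              C (f x) * ∑ l', C ((a x l' : ℚ) / 2) * xv a l' (k + 1) l := by
          rw [Finset.mul_sum, ← Finset.sum_add_distrib]
          refine Finset.sum_congr rfl fun l' _ => ?_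
          rw [map_add, show f x * (a x l' : ℚ) / 2 = f x * ((a x l' : ℚ) / 2) by ring, map_mul]
          ring
        rw [this]
        ring
      · rw [Function.update_of_ne hij]
        simp [hij]
  rw [eL, eR]
  exact key

theorem KQSt2_unit (a : I → I → ℕ) (hs : ∀ i j, a i j = a j i) (σ : Sta I) (j : I) (k m : ℕ)
    (hk : σ.κ j = k + 2)
    (hn : ∀ x, x ≠ j → 0 < a x j → σ.κ x = σ.κ j ∨ σ.κ x + 1 = σ.κ j) :
    ((∏ i ∈ Finset.univ.erase j, ((uu a i (σ.κ i)) ^ (-(σ.P i)) *
        (uu a i (σ.κ i - 1)) ^ (σ.p i))) * (uu a j (k + 1)) ^ (σ.p j)) *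
      ((uu a j (k + 1)) ^ (-(2 * σ.P j) - 2 * (m : ℤ)) * (uu a j k) ^ (σ.P j) *
        (cU a j (k + 1)) ^ m) =
    ∏ i, ((uu a i (kapJ σ j i)) ^ (-(PJ a σ j m i)) *
      (uu a i (kapJ σ j i - 1)) ^ (pJ a σ j m i)) := by
  have h1 : ∀ i ∈ Finset.univ.erase j, (uu a i (kapJ σ j i)) ^ (-(PJ a σ j m i)) *
      (uu a i (kapJ σ j i - 1)) ^ (pJ a σ j m i) =
      ((uu a i (σ.κ i)) ^ (-(σ.P i)) * (uu a i (σ.κ i - 1)) ^ (σ.p i)) *
        ((uu a i (k + 1)) ^ (a j i)) ^ m := by
    intro i hi
    have hij : i ≠ j := Finset.ne_of_mem_erase hi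
    have e1 : kapJ σ j i = σ.κ i := by
      unfold kapJ; rw [Function.update_of_ne hij]
    rw [e1]
    unfold PJ pJ
    rw [if_neg hij, if_neg hij]
    rcases Nat.eq_zero_or_pos (a i j) with h0 | h0
    · rw [hs j i, h0]
      simp
    · rw [hs j i]
      rcases hn i hij h0 with h | h
      · have e2 : ¬ (σ.κ i + 1 = σ.κ j) := by omega
        rw [if_neg e2, if_pos h]
        have e3 : σ.κ i - 1 = k + 1 := by omega
        rw [e3, zpow_add, mul_assoc, ← pow_mul, ← zpow_natCast]
        push_cast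
        rfl
      · have e2 : ¬ (σ.κ i = σ.κ j) := by omega
        rw [if_neg e2, if_pos h]
        have e3 : σ.κ i = k + 1 := by omega
        rw [e3, mul_right_comm]
        congr 1
        rw [← pow_mul, ← zpow_natCast, ← zpow_add]
        congr 1
        push_cast
        ring
  have h2 : (uu a j (kapJ σ j j)) ^ (-(PJ a σ j m j)) *
      (uu a j (kapJ σ j j - 1)) ^ (pJ a σ j m j) =
      (uu a j (k + 1)) ^ (σ.p j) * ((uu a j (k + 1)) ^ (-(2 * σ.P j) - 2 * (m : ℤ)) *
        (uu a j k) ^ (σ.P j) * ((uu a j (k + 1)) ^ (a j j)) ^ m) := by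
    have e1 : kapJ σ j j = k + 1 := by
      unfold kapJ; rw [Function.update_self, hk]; rfl
    rw [e1]
    unfold PJ pJ
    rw [if_pos rfl, if_pos rfl]
    have e2 : k + 1 - 1 = k := rfl
    rw [e2]
    have e3 : (uu a j (k + 1)) ^ (σ.p j) * ((uu a j (k + 1)) ^ (-(2 * σ.P j) - 2 * (m : ℤ)) *
        (uu a j k) ^ (σ.P j) * ((uu a j (k + 1)) ^ (a j j)) ^ m) =
        ((uu a j (k + 1)) ^ (σ.p j) * (uu a j (k + 1)) ^ (-(2 * σ.P j) - 2 * (m : ℤ)) *
        ((uu a j (k + 1)) ^ (a j j)) ^ m) * (uu a j k) ^ (σ.P j) := by ac_rfl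
    rw [e3, ← pow_mul, ← zpow_natCast, ← zpow_add, ← zpow_add]
    congr 2
    unfold cart
    rw [if_pos rfl]
    push_cast
    ring
  have h4 : ∏ i ∈ Finset.univ.erase j, (((uu a i (σ.κ i)) ^ (-(σ.P i)) *
      (uu a i (σ.κ i - 1)) ^ (σ.p i)) * ((uu a i (k + 1)) ^ (a j i)) ^ m) =
      (∏ i ∈ Finset.univ.erase j, ((uu a i (σ.κ i)) ^ (-(σ.P i)) *
        (uu a i (σ.κ i - 1)) ^ (σ.p i))) *
      (∏ i ∈ Finset.univ.erase j, (uu a i (k + 1)) ^ (a j i)) ^ m := by
    rw [Finset.prod_mul_distrib, Finset.prod_pow]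
  rw [← Finset.prod_erase_mul Finset.univ (fun i => (uu a i (kapJ σ j i)) ^ (-(PJ a σ j m i)) *
      (uu a i (kapJ σ j i - 1)) ^ (pJ a σ j m i)) (Finset.mem_univ j), h2,
    Finset.prod_congr rfl h1, h4]
  have h3 : cU a j (k + 1) = (∏ i ∈ Finset.univ.erase j, (uu a i (k + 1)) ^ (a j i)) *
      (uu a j (k + 1)) ^ (a j j) := by
    unfold cU
    rw [← Finset.prod_erase_mul Finset.univ (fun l => (uu a l (k + 1)) ^ (a j l))
      (Finset.mem_univ j)]
  rw [h3, mul_pow]
  ac_rfl

/-- the part of column `j` which does not change. -/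
noncomputable def KQSt2_R (a : I → I → ℕ) (σ : Sta I) (j : I) (k : ℕ) (l : I) :
    MvPowerSeries I ℚ :=
  C (σ.P j : ℚ) * ((- ∑ l', C (σ.H l' j) * xv a l' (σ.κ l' - 1) l) - xv a j k l)

/-- coefficients of column `j` at the start. -/
noncomputable def KQSt2_f (a : I → I → ℕ) (σ : Sta I) (j : I) (m : ℕ) (l : I) : ℚ :=
  (if l = j then 2 * (σ.P j : ℚ) else 0) + m * ((cart a l j : ℤ) : ℚ)

theorem KQSt2_Rreg (a : I → I → ℕ) (hs : ∀ i j, a i j = a j i) (σ : Sta I) (ty : I → Ty)
    (hS : Shape a σ ty) (j : I) (k : ℕ) (x : I) (hx : ty x ≠ Ty.R) (hxj : j ≠ x) :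
    VReg a x 0 (KQSt2_R a σ j k) := by
  have hx0 := hS.loopfree x hx
  have h1 := KQSt2_vreg_C (-(σ.P j : ℚ)) (KQSt2_vreg_comb a hs x hx0 (fun l' => σ.κ l' - 1)
    (fun l' => σ.H l' j) (hS.row x hx j hxj))
  have h2 := KQSt2_vreg_C (-(σ.P j : ℚ)) (xv_reg a hs x hx0 j hxj k)
  have h3 := h1.add h2
  have e : KQSt2_R a σ j k = (fun l => C (-(σ.P j : ℚ)) *
      (∑ l', C (σ.H l' j) * xv a l' (σ.κ l' - 1) l) + C (-(σ.P j : ℚ)) * xv a j k l) := by
    funext l
    unfold KQSt2_R
    rw [map_neg]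
    ring
  rw [e]
  exact h3

/-- columns of `σ` with the lower forms of the `D`-walls in `S` removed. -/
noncomputable def KQSt2_c (a : I → I → ℕ) (σ : Sta I) (k : ℕ) (S : Finset I) (i l : I) :
    MvPowerSeries I ℚ :=
  colS a σ i l + (if i ∈ S then xv a i (k + 1) l else 0)

theorem KQSt2_creg (a : I → I → ℕ) (hs : ∀ i j, a i j = a j i) (σ : Sta I) (ty : I → Ty)
    (hS : Shape a σ ty) (k : ℕ) (S : Finset I) (x : I) (hx : ty x ≠ Ty.R) (i : I) (hi : i ≠ x) :
    VReg a x 0 (KQSt2_c a σ k S i) := by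
  have hx0 := hS.loopfree x hx
  have h1 := xv_reg a hs x hx0 i hi (σ.κ i)
  have h2 := KQSt2_vreg_C (-1 : ℚ) (KQSt2_vreg_comb a hs x hx0 (fun l' => σ.κ l' - 1)
    (fun l' => σ.H l' i) (hS.row x hx i hi))
  have h3 := (h1.add h2)
  by_cases hiS : i ∈ S
  · have h4 := h3.add (xv_reg a hs x hx0 i hi (k + 1))
    have e : KQSt2_c a σ k S i = (fun l => xv a i (σ.κ i) l + C (-1 : ℚ) *
      (∑ l', C (σ.H l' i) * xv a l' (σ.κ l' - 1) l) + xv a i (k + 1) l) := by
      funext l
      unfold KQSt2_c colS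
      rw [if_pos hiS, map_neg, map_one]
      ring
    rw [e]
    exact h4
  · have e : KQSt2_c a σ k S i = (fun l => xv a i (σ.κ i) l + C (-1 : ℚ) *
      (∑ l', C (σ.H l' i) * xv a l' (σ.κ l' - 1) l)) := by
      funext l
      unfold KQSt2_c colS
      rw [if_neg hiS, map_neg, map_one]
      ring
    rw [e]
    exact h3

/-- column of a wall. -/
theorem KQSt2_wallcol (a : I → I → ℕ) (σ : Sta I) (ty : I → Ty)
    (hS : Shape a σ ty) (x : I) (hx : ty x ≠ Ty.R) (l : I) :
    colS a σ x l = xv a x (σ.κ x) l - C (σ.H x x) * xv a x (σ.κ x - 1) l := by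
  unfold colS
  congr 1
  rw [Finset.sum_eq_single x]
  · intro l' _ hl'
    rw [hS.col x hx l' hl', map_zero, zero_mul]
  · intro h
    exact absurd (Finset.mem_univ x) h

theorem KQSt2_wallfac (a : I → I → ℕ) (hs : ∀ i j, a i j = a j i) (γ' : I →₀ ℕ) (σ : Sta I)
    (ty : I → Ty) (hS : Shape a σ ty) (j : I) (hj : ty j = Ty.R) (k m : ℕ) (hm : 1 ≤ m)
    (hk : σ.κ j = k + 2) (hnW : ∀ x, ty x ≠ Ty.R → 0 < a x j → σ.κ x = σ.κ j)
    (hcw : ∀ x, ty x ≠ Ty.R → 0 < a x j →
      cw a γ' x = ((k : ℤ) + 1) * (σ.p x + (a x j : ℤ) * m))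
    (x : I) (hx : ty x ≠ Ty.R) (hxj : 0 < a x j) :
    ∃ (F : MvPowerSeries I ℚ) (q : ℕ), 1 ≤ q ∧ Fil a x 0 F ∧
      facG a (kapJ σ j) (PJ a σ j m) (pJ a σ j m) = F * uS a x (k + 1) ^ q ∧
      cw a γ' x = ((k : ℤ) + 1) * q := by
  have hne : x ≠ j := by
    rintro rfl
    exact hx hj
  have hp0 := hS.p0 x hx
  have hq : σ.p x + (a x j : ℤ) * m = (((σ.p x).toNat + a x j * m : ℕ) : ℤ) := by
    push_cast
    rw [Int.toNat_of_nonneg hp0]
  have hκx : kapJ σ j x = k + 2 := by
    unfold kapJ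
    rw [Function.update_of_ne hne, hnW x hx hxj, hk]
  have hPx : PJ a σ j m x = 0 := by
    unfold PJ
    have h1 : ¬ (σ.κ x + 1 = σ.κ j) := by
      rw [hnW x hx hxj]; omega
    rw [if_neg hne, if_neg h1, hS.P0 x hx]
  have hpx : pJ a σ j m x = (((σ.p x).toNat + a x j * m : ℕ) : ℤ) := by
    unfold pJ
    rw [if_neg hne, if_pos (hnW x hx hxj), hq]
  obtain ⟨F, hF, hfac⟩ := KQSt2_fac_split a hs x (hS.loopfree x hx) (kapJ σ j) (PJ a σ j m)
    (pJ a σ j m) k hκx hPx _ hpx
  refine ⟨F, (σ.p x).toNat + a x j * m, ?_, hF, hfac, ?_⟩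
  · have : 1 ≤ a x j * m := Nat.one_le_iff_ne_zero.2 (Nat.mul_ne_zero (by omega) (by omega))
    omega
  · rw [hcw x hx hxj, hq]

theorem KQSt2_D (a : I → I → ℕ) (hs : ∀ i j, a i j = a j i) (γ' : I →₀ ℕ) (σ : Sta I)
    (ty : I → Ty) (hS : Shape a σ ty) (j : I) (hj : ty j = Ty.R) (k m : ℕ) (hm : 1 ≤ m)
    (hk : σ.κ j = k + 2) (hnW : ∀ x, ty x ≠ Ty.R → 0 < a x j → σ.κ x = σ.κ j)
    (hcw : ∀ x, ty x ≠ Ty.R → 0 < a x j →
      cw a γ' x = ((k : ℤ) + 1) * (σ.p x + (a x j : ℤ) * m))
    (f : I → ℚ) (R : I → MvPowerSeries I ℚ) (hR : ∀ x, ty x ≠ Ty.R → VReg a x 0 R)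
    (S : Finset I) (hSD : ∀ x ∈ S, ty x = Ty.D ∧ 0 < a x j) :
    raw γ' (facG a (kapJ σ j) (PJ a σ j m) (pJ a σ j m))
      (Function.update (colS a σ) j (KQSt2_vec a k f R)) =
    raw γ' (facG a (kapJ σ j) (PJ a σ j m) (pJ a σ j m))
      (Function.update (KQSt2_c a σ k S) j (KQSt2_vec a k f R)) := by
  classical
  induction S using Finset.induction_on with
  | empty =>
    congr 2
    funext i l
    unfold KQSt2_c
    simp
  | insert x S hxS ih =>
    rw [ih (fun y hy => hSD y (Finset.mem_insert_of_mem hy))]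
    obtain ⟨hxD, hxj⟩ := hSD x (Finset.mem_insert_self x S)
    have hx : ty x ≠ Ty.R := by rw [hxD]; decide
    have hne : x ≠ j := by
      rintro rfl
      exact hx hj
    have hx0 := hS.loopfree x hx
    obtain ⟨F, q, hq, hF, hfac, hcwx⟩ := KQSt2_wallfac a hs γ' σ ty hS j hj k m hm hk hnW hcw x hx
      hxj
    rw [hfac]
    have key := KQSt2_stepD a hs x hx0 k q hq γ' hcwx F hF
      (Function.update (KQSt2_c a σ k S) j (KQSt2_vec a k f R))
      (fun i l => if i = j then (∑ l', C (if l' = x then 0 else f l') * xv a l' (k + 1) l) + R l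
        else KQSt2_c a σ k S i l)
      (fun i => if i = j then f x else 0) (by
        intro i hi
        by_cases hij : i = j
        · simp only [hij, if_true]
          exact VReg.add (KQSt2_vreg_comb a hs x hx0 (fun _ => k + 1)
            (fun l' => if l' = x then 0 else f l') (by simp)) (hR x hx)
        · simp only [hij, if_false]
          exact KQSt2_creg a hs σ ty hS k S x hx i hi) (by
        intro i hi l
        by_cases hij : i = j
        · subst hij
          rw [Function.update_self]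
          simp only [if_true]
          unfold KQSt2_vec
          have : ∑ l', C (f l') * xv a l' (k + 1) l =
              (∑ l', C (if l' = x then 0 else f l') * xv a l' (k + 1) l) +
                C (f x) * xv a x (k + 1) l := by
            rw [← Finset.sum_erase_add Finset.univ _ (Finset.mem_univ x),
              ← Finset.sum_erase_add (a := x) Finset.univ
                (fun l' => C (if l' = x then 0 else f l') * xv a l' (k + 1) l)
                (Finset.mem_univ x)]
            simp only [if_true, map_zero, zero_mul, add_zero]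
            congr 1
            refine Finset.sum_congr rfl fun l' hl' => ?_
            rw [if_neg (Finset.ne_of_mem_erase hl')]
          rw [this]
          ring
        · rw [Function.update_of_ne hij]
          simp [hij])
    have e1 : Function.update (Function.update (KQSt2_c a σ k S) j (KQSt2_vec a k f R)) x
        (fun l => xv a x (k + 2) l - xv a x (k + 1) l) =
        Function.update (KQSt2_c a σ k S) j (KQSt2_vec a k f R) := by
      rw [Function.update_eq_self_iff]
      funext l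
      rw [Function.update_of_ne hne]
      unfold KQSt2_c
      rw [KQSt2_wallcol a σ ty hS x hx l, if_neg hxS, hS.diagD x hxD, hnW x hx hxj, hk]
      have h1 : k + 2 - 1 = k + 1 := rfl
      rw [h1, map_one]
      ring
    have e2 : Function.update (Function.update (KQSt2_c a σ k S) j (KQSt2_vec a k f R)) x
        (xv a x (k + 2)) =
        Function.update (KQSt2_c a σ k (insert x S)) j (KQSt2_vec a k f R) := by
      funext i l
      by_cases hix : i = x
      · subst hix
        rw [Function.update_self, Function.update_of_ne hne]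
        unfold KQSt2_c
        rw [KQSt2_wallcol a σ ty hS i hx l, if_pos (Finset.mem_insert_self i S), hS.diagD i hxD,
          hnW i hx hxj, hk]
        have h1 : k + 2 - 1 = k + 1 := rfl
        rw [h1, map_one]
        ring
      · rw [Function.update_of_ne hix]
        by_cases hij : i = j
        · subst hij
          rw [Function.update_self, Function.update_self]
        · rw [Function.update_of_ne hij, Function.update_of_ne hij]
          unfold KQSt2_c
          simp [Finset.mem_insert, hix]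
    rw [e1, e2] at key
    exact key

/-- coefficients after the replacement of the walls in `T`. -/
noncomputable def KQSt2_fT (a : I → I → ℕ) (f : I → ℚ) (T : Finset I) (l : I) : ℚ :=
  (if l ∈ T then 0 else f l) + ∑ y ∈ T, f y * (a y l : ℚ) / 2

theorem KQSt2_A (a : I → I → ℕ) (hs : ∀ i j, a i j = a j i) (γ' : I →₀ ℕ) (σ : Sta I)
    (ty : I → Ty) (hS : Shape a σ ty) (j : I) (hj : ty j = Ty.R) (k m : ℕ) (hm : 1 ≤ m)
    (hk : σ.κ j = k + 2) (hnW : ∀ x, ty x ≠ Ty.R → 0 < a x j → σ.κ x = σ.κ j)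
    (hcw : ∀ x, ty x ≠ Ty.R → 0 < a x j →
      cw a γ' x = ((k : ℤ) + 1) * (σ.p x + (a x j : ℤ) * m))
    (f : I → ℚ) (R : I → MvPowerSeries I ℚ) (hR : ∀ x, ty x ≠ Ty.R → VReg a x 0 R)
    (S : Finset I) (hSD : ∀ x, x ∈ S ↔ ty x = Ty.D ∧ 0 < a x j)
    (T : Finset I) (hT : ∀ x ∈ T, ty x ≠ Ty.R ∧ 0 < a x j) :
    raw γ' (facG a (kapJ σ j) (PJ a σ j m) (pJ a σ j m))
      (Function.update (KQSt2_c a σ k S) j (KQSt2_vec a k f R)) =
    raw γ' (facG a (kapJ σ j) (PJ a σ j m) (pJ a σ j m))
      (Function.update (KQSt2_c a σ k S) j (KQSt2_vec a k (KQSt2_fT a f T) R)) := by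
  classical
  induction T using Finset.induction_on with
  | empty =>
    congr 3
    funext i
    unfold KQSt2_fT
    simp
  | insert x T hxT ih =>
    rw [ih (fun y hy => hT y (Finset.mem_insert_of_mem hy))]
    obtain ⟨hx, hxj⟩ := hT x (Finset.mem_insert_self x T)
    have hne : x ≠ j := by
      rintro rfl
      exact hx hj
    have hx0 := hS.loopfree x hx
    obtain ⟨F, q, hq, hF, hfac, hcwx⟩ := KQSt2_wallfac a hs γ' σ ty hS j hj k m hm hk hnW hcw x hx
      hxj
    have hyx : ∀ y ∈ T, (a y x : ℚ) = 0 := by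
      intro y hy
      have hyne : y ≠ x := fun h => hxT (h ▸ hy)
      rw [hS.nonadj y x (hT y (Finset.mem_insert_of_mem hy)).1 hx hyne]
      simp
    rw [hfac]
    have hcx : ∀ l, KQSt2_c a σ k S x l = xv a x (k + 2) l := by
      intro l
      unfold KQSt2_c
      rw [KQSt2_wallcol a σ ty hS x hx l, hnW x hx hxj, hk]
      have h1 : k + 2 - 1 = k + 1 := rfl
      rw [h1]
      rcases hty : ty x with _ | _ | _
      · exact absurd hty hx
      · have h2 : x ∉ S := by
          rw [hSD x, hty]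
          rintro ⟨h, -⟩
          exact absurd h (by decide)
        rw [if_neg h2, hS.diagA x hty, map_zero]
        ring
      · have h2 : x ∈ S := by
          rw [hSD x]
          exact ⟨hty, hxj⟩
        rw [if_pos h2, hS.diagD x hty, map_one]
        ring
    have key := KQSt2_stepA a hs x hx0 k q hq γ' hcwx F hF (KQSt2_c a σ k S) j (Ne.symm hne)
      hcx (fun i hi _ => KQSt2_creg a hs σ ty hS k S x hx i hi) (KQSt2_fT a f T) R (hR x hx)
    rw [key]
    congr 3
    funext l
    have e1 : KQSt2_fT a f T x = f x := by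
      unfold KQSt2_fT
      rw [if_neg hxT, Finset.sum_eq_zero, add_zero]
      intro y hy
      rw [hyx y hy]
      ring
    rw [e1]
    unfold KQSt2_fT
    rw [Finset.sum_insert hxT]
    by_cases hl : l = x
    · subst hl
      rw [if_pos rfl, if_pos (Finset.mem_insert_self l T), hx0,
        Finset.sum_eq_zero (s := T) (f := fun y => f y * (a y l : ℚ) / 2)]
      · simp
      · intro y hy
        rw [hyx y hy]
        ring
    · rw [if_neg hl]
      have h2 : (l ∈ insert x T) ↔ l ∈ T := by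
        rw [Finset.mem_insert]
        exact ⟨fun h => h.resolve_left hl, Or.inr⟩
      by_cases hlT : l ∈ T
      · rw [if_pos hlT, if_pos (h2.2 hlT)]
        ring
      · rw [if_neg hlT, if_neg (fun h => hlT (h2.1 h))]
        ring

theorem KQSt2_colne (a : I → I → ℕ) (σ : Sta I) (ty : I → Ty) (hS : Shape a σ ty) (j : I)
    (k m : ℕ) (hk : σ.κ j = k + 2)
    (hnW : ∀ x, ty x ≠ Ty.R → 0 < a x j → σ.κ x = σ.κ j)
    (S : Finset I) (hSD : ∀ x, x ∈ S ↔ ty x = Ty.D ∧ 0 < m ∧ 0 < a x j) (i : I) (hi : i ≠ j)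
    (l : I) :
    colG a (kapJ σ j) (MJ a σ ty j m) (NJ a σ ty j m) i l = KQSt2_c a σ k S i l := by
  have hκi : kapJ σ j i = σ.κ i := by
    unfold kapJ; rw [Function.update_of_ne hi]
  have hκj : kapJ σ j j = k + 1 := by
    unfold kapJ; rw [Function.update_self, hk]; rfl
  have e1 : ∑ l', C (MJ a σ ty j m l' i) * xv a l' (kapJ σ j l') l =
      xv a i (σ.κ i) l - C (σ.H j i) * xv a j (k + 1) l := by
    have h1 : ∀ l', C (MJ a σ ty j m l' i) * xv a l' (kapJ σ j l') l =
        (if l' = i then xv a l' (kapJ σ j l') l else 0) -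
          (if l' = j then C (σ.H j i) * xv a l' (kapJ σ j l') l else 0) := by
      intro l'
      unfold MJ
      rw [if_neg hi, map_sub, sub_mul]
      congr 1
      · split_ifs <;> simp
      · split_ifs <;> simp
    rw [Finset.sum_congr rfl (fun l' _ => h1 l'), Finset.sum_sub_distrib,
      Finset.sum_ite_eq' Finset.univ i, Finset.sum_ite_eq' Finset.univ j,
      if_pos (Finset.mem_univ i), if_pos (Finset.mem_univ j), hκi, hκj]
  have e2 : ∑ l', C (NJ a σ ty j m l' i) * xv a l' (kapJ σ j l' - 1) l =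
      ∑ l' ∈ Finset.univ.erase j, C (HD a σ ty j m l' i) * xv a l' (σ.κ l' - 1) l := by
    rw [← Finset.sum_erase_add Finset.univ _ (Finset.mem_univ j)]
    have h2 : NJ a σ ty j m j i = 0 := by
      unfold NJ
      rw [if_neg hi, if_pos rfl]
    rw [h2, map_zero, zero_mul, add_zero]
    refine Finset.sum_congr rfl fun l' hl' => ?_
    have hne := Finset.ne_of_mem_erase hl'
    unfold NJ kapJ
    rw [if_neg hi, if_neg hne, Function.update_of_ne hne]
  have e3 : ∑ l', C (σ.H l' i) * xv a l' (σ.κ l' - 1) l =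
      (∑ l' ∈ Finset.univ.erase j, C (σ.H l' i) * xv a l' (σ.κ l' - 1) l) +
        C (σ.H j i) * xv a j (k + 1) l := by
    rw [← Finset.sum_erase_add Finset.univ _ (Finset.mem_univ j), hk]
    rfl
  unfold colG
  rw [e1, e2]
  unfold KQSt2_c
  by_cases hc : ty i = Ty.D ∧ 0 < m ∧ 0 < a i j
  · have hx : ty i ≠ Ty.R := by rw [hc.1]; decide
    rw [if_pos ((hSD i).2 hc), KQSt2_wallcol a σ ty hS i hx l, hS.diagD i hc.1,
      hnW i hx hc.2.2, hk, Finset.sum_eq_zero, hS.col i hx j (Ne.symm hi)]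
    · have h1 : k + 2 - 1 = k + 1 := rfl
      rw [h1, map_one, map_zero]
      ring
    · intro l' _
      unfold HD
      rw [if_pos hc, map_zero, zero_mul]
  · rw [if_neg (fun h => hc ((hSD i).1 h))]
    unfold colS
    rw [e3]
    have h4 : ∑ l' ∈ Finset.univ.erase j, C (HD a σ ty j m l' i) * xv a l' (σ.κ l' - 1) l =
        ∑ l' ∈ Finset.univ.erase j, C (σ.H l' i) * xv a l' (σ.κ l' - 1) l := by
      refine Finset.sum_congr rfl fun l' _ => ?_
      unfold HD
      rw [if_neg hc]
    rw [h4]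
    ring

theorem KQSt2_colj (a : I → I → ℕ) (σ : Sta I) (ty : I → Ty)
    (j : I) (k m : ℕ) (hk : σ.κ j = k + 2)
    (hnR : ∀ x, x ≠ j → ty x = Ty.R → σ.κ x = σ.κ j ∨ σ.κ x + 1 = σ.κ j) (l : I) :
    colG a (kapJ σ j) (MJ a σ ty j m) (NJ a σ ty j m) j l =
      C (scl σ j m) * (2 * xv a j (k + 1) l - xv a j k l -
        ∑ l', C (σ.H l' j) * xv a l' (σ.κ l' - 1) l) +
      C (m * effC a (wallsAt σ ty j) j) * xv a j (k + 1) l -
      ∑ l' ∈ Finset.univ.erase j, (if ty l' = Ty.R then
        C (m * effA a (wallsAt σ ty j) l' j) * xv a l' (k + 1) l else 0) := by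
  have hκj : kapJ σ j j = k + 1 := by
    unfold kapJ; rw [Function.update_self, hk]; rfl
  have h1 : MJ a σ ty j m j j = scl σ j m * (2 - σ.H j j) +
      m * effC a (wallsAt σ ty j) j := by
    unfold MJ
    rw [if_pos rfl, if_pos rfl]
  have h2 : NJ a σ ty j m j j = scl σ j m := by
    unfold NJ
    rw [if_pos rfl, if_pos rfl]
  have h3 : (∑ l' ∈ Finset.univ.erase j, C (MJ a σ ty j m l' j) * xv a l' (kapJ σ j l') l) -
      (∑ l' ∈ Finset.univ.erase j, C (NJ a σ ty j m l' j) * xv a l' (kapJ σ j l' - 1) l) =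
      -(C (scl σ j m) * ∑ l' ∈ Finset.univ.erase j, C (σ.H l' j) * xv a l' (σ.κ l' - 1) l) -
      ∑ l' ∈ Finset.univ.erase j, (if ty l' = Ty.R then
        C (m * effA a (wallsAt σ ty j) l' j) * xv a l' (k + 1) l else 0) := by
    rw [← Finset.sum_sub_distrib, Finset.mul_sum, ← Finset.sum_neg_distrib,
      ← Finset.sum_sub_distrib]
    refine Finset.sum_congr rfl fun l' hl' => ?_
    have hne := Finset.ne_of_mem_erase hl'
    have hκ : kapJ σ j l' = σ.κ l' := by
      unfold kapJ; rw [Function.update_of_ne hne]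
    rw [hκ]
    unfold MJ NJ
    rw [if_pos rfl, if_pos rfl, if_neg hne, if_neg hne]
    by_cases hty : ty l' = Ty.R
    · rw [if_pos hty]
      rcases hnR l' hne hty with h | h
      · have h4 : ¬ (ty l' = Ty.R ∧ σ.κ l' + 1 = σ.κ j) := by
          rintro ⟨-, h5⟩; omega
        have h5 : σ.κ l' - 1 = k + 1 := by omega
        rw [if_neg h4, if_pos ⟨hty, h⟩, map_zero, zero_mul, h5, map_add, map_mul]
        ring
      · have h4 : ¬ (ty l' = Ty.R ∧ σ.κ l' = σ.κ j) := by
          rintro ⟨-, h5⟩; omega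
        have h5 : σ.κ l' = k + 1 := by omega
        rw [if_neg h4, if_pos ⟨hty, h⟩, h5, map_neg, add_zero]
        simp only [map_mul]
        ring
    · rw [if_neg hty, if_neg (fun h => hty h.1), if_neg (fun h => hty h.1), map_zero, zero_mul,
        add_zero, map_mul]
      ring
  unfold colG
  rw [← Finset.sum_erase_add Finset.univ (fun l' => C (MJ a σ ty j m l' j) *
      xv a l' (kapJ σ j l') l) (Finset.mem_univ j),
    ← Finset.sum_erase_add Finset.univ (fun l' => C (NJ a σ ty j m l' j) *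
      xv a l' (kapJ σ j l' - 1) l) (Finset.mem_univ j),
    ← Finset.sum_erase_add Finset.univ (fun l' => C (σ.H l' j) *
      xv a l' (σ.κ l' - 1) l) (Finset.mem_univ j), add_sub_add_comm, h3, h1, h2, hκj, hk]
  have h6 : k + 1 - 1 = k := rfl
  have h7 : k + 2 - 1 = k + 1 := rfl
  rw [h6, h7, map_add, map_mul, map_sub, map_ofNat]
  ring

theorem KQSt2_sumW (a : I → I → ℕ) (σ : Sta I) (ty : I → Ty) (j : I)
    (hnW : ∀ x, ty x ≠ Ty.R → 0 < a x j → σ.κ x = σ.κ j) (T : Finset I)
    (hT : ∀ x, x ∈ T ↔ ty x ≠ Ty.R ∧ 0 < a x j) (g : I → ℚ) :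
    ∑ x ∈ wallsAt σ ty j, g x * (a x j : ℚ) = ∑ x ∈ T, g x * (a x j : ℚ) := by
  symm
  apply Finset.sum_subset
  · intro x hx
    obtain ⟨h1, h2⟩ := (hT x).1 hx
    unfold wallsAt
    rw [Finset.mem_filter]
    exact ⟨Finset.mem_univ x, h1, hnW x h1 h2⟩
  · intro x hx hxT
    unfold wallsAt at hx
    rw [Finset.mem_filter] at hx
    have h0 : a x j = 0 := by
      by_contra h
      exact hxT ((hT x).2 ⟨hx.2.1, Nat.pos_of_ne_zero h⟩)
    rw [h0]
    simp

theorem KQSt2_colfin (a : I → I → ℕ) (σ : Sta I) (ty : I → Ty) (hS : Shape a σ ty)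
    (j : I) (hj : ty j = Ty.R) (k m : ℕ) (hm : 1 ≤ m) (hk : σ.κ j = k + 2)
    (hnR : ∀ x, x ≠ j → ty x = Ty.R → σ.κ x = σ.κ j ∨ σ.κ x + 1 = σ.κ j)
    (hnW : ∀ x, ty x ≠ Ty.R → 0 < a x j → σ.κ x = σ.κ j) (T : Finset I)
    (hT : ∀ x, x ∈ T ↔ ty x ≠ Ty.R ∧ 0 < a x j) (l : I) :
    colG a (kapJ σ j) (MJ a σ ty j m) (NJ a σ ty j m) j l =
      KQSt2_vec a k (KQSt2_fT a (KQSt2_f a σ j m) T) (KQSt2_R a σ j k) l := by
  have hscl : scl σ j m = (σ.P j : ℚ) := by
    unfold scl
    rw [if_neg (by omega)]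
  have hjT : j ∉ T := fun h => ((hT j).1 h).1 hj
  have hneT : ∀ y ∈ T, y ≠ j := fun y hy h => hjT (h ▸ hy)
  have hfy : ∀ y, y ≠ j → KQSt2_f a σ j m y = -(m * (a y j : ℚ)) := by
    intro y hy
    unfold KQSt2_f cart
    rw [if_neg hy, if_neg hy]
    push_cast
    ring
  have hfTj : KQSt2_fT a (KQSt2_f a σ j m) T j =
      2 * (σ.P j : ℚ) + m * effC a (wallsAt σ ty j) j := by
    unfold KQSt2_fT
    rw [if_neg hjT]
    have h1 : ∑ y ∈ T, KQSt2_f a σ j m y * (a y j : ℚ) / 2 =
        -(m * (∑ x ∈ wallsAt σ ty j, (a x j : ℚ) * (a x j : ℚ)) / 2) := by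
      rw [KQSt2_sumW a σ ty j hnW T hT (fun x => (a x j : ℚ)), Finset.mul_sum, Finset.sum_div,
        ← Finset.sum_neg_distrib]
      refine Finset.sum_congr rfl fun y hy => ?_
      rw [hfy y (hneT y hy)]
      ring
    rw [h1]
    unfold KQSt2_f cart effC
    rw [if_pos rfl, if_pos rfl]
    have h2 : ∑ x ∈ wallsAt σ ty j, (a x j : ℚ) ^ 2 =
        ∑ x ∈ wallsAt σ ty j, (a x j : ℚ) * (a x j : ℚ) :=
      Finset.sum_congr rfl fun x _ => by ring
    rw [h2]
    push_cast
    ring
  have hfTl : ∀ l', l' ≠ j → KQSt2_fT a (KQSt2_f a σ j m) T l' =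
      if ty l' = Ty.R then -(m * effA a (wallsAt σ ty j) l' j) else 0 := by
    intro l' hl'
    unfold KQSt2_fT
    have h1 : ∑ y ∈ T, KQSt2_f a σ j m y * (a y l' : ℚ) / 2 =
        -(m * (∑ x ∈ wallsAt σ ty j, (a x l' : ℚ) * (a x j : ℚ)) / 2) := by
      rw [KQSt2_sumW a σ ty j hnW T hT (fun x => (a x l' : ℚ)), Finset.mul_sum, Finset.sum_div,
        ← Finset.sum_neg_distrib]
      refine Finset.sum_congr rfl fun y hy => ?_
      rw [hfy y (hneT y hy)]
      ring
    by_cases hty : ty l' = Ty.R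
    · rw [if_pos hty, if_neg (fun h => ((hT l').1 h).1 hty), h1, hfy l' hl']
      unfold effA
      ring
    · rw [if_neg hty]
      have h2 : ∑ y ∈ T, KQSt2_f a σ j m y * (a y l' : ℚ) / 2 = 0 := by
        refine Finset.sum_eq_zero fun y hy => ?_
        have h3 : a y l' = 0 := by
          by_cases hyl : y = l'
          · rw [hyl]
            exact hS.loopfree l' hty
          · exact hS.nonadj y l' ((hT y).1 hy).1 hty hyl
        rw [h3]
        simp
      rw [h2, add_zero]
      by_cases hlT : l' ∈ T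
      · rw [if_pos hlT]
      · rw [if_neg hlT, hfy l' hl']
        have h0 : a l' j = 0 := by
          by_contra h
          exact hlT ((hT l').2 ⟨hty, Nat.pos_of_ne_zero h⟩)
        rw [h0]
        simp
  rw [KQSt2_colj a σ ty j k m hk hnR l]
  unfold KQSt2_vec KQSt2_R
  rw [← Finset.sum_erase_add Finset.univ (fun l' => C (KQSt2_fT a (KQSt2_f a σ j m) T l') *
    xv a l' (k + 1) l) (Finset.mem_univ j), hfTj]
  have h5 : ∑ l' ∈ Finset.univ.erase j, C (KQSt2_fT a (KQSt2_f a σ j m) T l') *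
      xv a l' (k + 1) l = -∑ l' ∈ Finset.univ.erase j, (if ty l' = Ty.R then
        C (m * effA a (wallsAt σ ty j) l' j) * xv a l' (k + 1) l else 0) := by
    rw [← Finset.sum_neg_distrib]
    refine Finset.sum_congr rfl fun l' hl' => ?_
    rw [hfTl l' (Finset.ne_of_mem_erase hl')]
    split_ifs
    · rw [map_neg]
      ring
    · simp
  rw [h5, hscl, map_add]
  simp only [map_mul, map_ofNat]
  ring

theorem st_reg (a : I → I → ℕ) (hs : ∀ i j, a i j = a j i) (γ : I →₀ ℕ) (σ : Sta I)
    (ty : I → Ty) (hS : Shape a σ ty) (hκ1 : ∀ i, 1 ≤ σ.κ i) (j : I) (hj : ty j = Ty.R) (k : ℕ)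
    (hk : σ.κ j = k + 2) (hP : 1 ≤ σ.P j)
    (hnR : ∀ x, x ≠ j → ty x = Ty.R → σ.κ x = σ.κ j ∨ σ.κ x + 1 = σ.κ j)
    (hnW : ∀ x, ty x ≠ Ty.R → 0 < a x j → σ.κ x = σ.κ j)
    (hcons : ∀ x, ty x ≠ Ty.R → Cons a γ σ x) :
    Val a γ σ = ∑ m ∈ Finset.range (γ j / (k + 1) + 1), wtJ σ j m *
      GVal a (γ - Finsupp.single j ((k + 1) * m)) (kapJ σ j) (PJ a σ j m) (pJ a σ j m)
        (MJ a σ ty j m) (NJ a σ ty j m) := by
  classical
  obtain ⟨P, hPz⟩ : ∃ P : ℕ, (P : ℤ) = σ.P j := ⟨(σ.P j).toNat, Int.toNat_of_nonneg (by omega)⟩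
  have hP1 : 1 ≤ P := by omega
  have hPq : ((σ.P j : ℤ) : ℚ) = (P : ℚ) := by rw [← hPz]; simp
  have hPn : (σ.P j).toNat = P := by omega
  have hn : ∀ x, x ≠ j → 0 < a x j → σ.κ x = σ.κ j ∨ σ.κ x + 1 = σ.κ j := by
    intro x hx hxj
    by_cases hty : ty x = Ty.R
    · exact hnR x hx hty
    · exact Or.inl (hnW x hty hxj)
  set F : MvPowerSeries I ℚ := (((∏ i ∈ Finset.univ.erase j, ((uu a i (σ.κ i)) ^ (-(σ.P i)) *
        (uu a i (σ.κ i - 1)) ^ (σ.p i))) * (uu a j (k + 1)) ^ (σ.p j) :
          (MvPowerSeries I ℚ)ˣ) : MvPowerSeries I ℚ) with hF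
  have hfac : facS a σ = F * (((uu a j (k + 2)) ^ (-(P : ℤ)) : (MvPowerSeries I ℚ)ˣ) :
      MvPowerSeries I ℚ) := by
    unfold facS
    rw [hF, ← Units.val_mul, ← Finset.prod_erase_mul Finset.univ _ (Finset.mem_univ j), hk, hPz]
    have h1 : k + 2 - 1 = k + 1 := rfl
    rw [h1, mul_assoc, mul_comm ((uu a j (k + 1)) ^ (σ.p j))]
  set ρ : I → MvPowerSeries I ℚ := fun l => - ∑ l', C (σ.H l' j) * xv a l' (σ.κ l' - 1) l with hρ
  have hcol : colS a σ = Function.update (colS a σ) j (fun l => xv a j (k + 2) l + ρ l) := by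
    symm
    rw [Function.update_eq_self_iff]
    funext l
    unfold colS
    rw [hρ, hk]
    ring
  have hVal : Val a γ σ = raw γ (F * (((uu a j (k + 2)) ^ (-(P : ℤ)) :
      (MvPowerSeries I ℚ)ˣ) : MvPowerSeries I ℚ))
      (Function.update (colS a σ) j (fun l => xv a j (k + 2) l + ρ l)) := by
    unfold Val
    rw [hfac]
    congr 1
  rw [hVal, raw_expand a hs j k P hP1 γ F (colS a σ) ρ]
  refine Finset.sum_congr rfl fun m hm => ?_
  have hmγ : (k + 1) * m ≤ γ j := by
    rw [Finset.mem_range] at hm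
    have h1 : m ≤ γ j / (k + 1) := by omega
    rw [Nat.le_div_iff_mul_le (by omega)] at h1
    rw [mul_comm]
    exact h1
  unfold rawSub
  rw [if_pos hmγ]
  have hFac : F * (((uu a j (k + 1)) ^ (-(2 * P : ℤ) - 2 * (m : ℤ)) * (uu a j k) ^ (P : ℤ) *
        (cU a j (k + 1)) ^ m : (MvPowerSeries I ℚ)ˣ) : MvPowerSeries I ℚ) =
      facG a (kapJ σ j) (PJ a σ j m) (pJ a σ j m) := by
    rw [hF, ← Units.val_mul, hPz, KQSt2_unit a hs σ j k m hk hn]
    rfl
  rw [hFac]
  rcases Nat.eq_zero_or_pos m with hm0 | hm0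
  · subst hm0
    have h1 : (fun l => (P : MvPowerSeries I ℚ) * (2 * xv a j (k + 1) l - xv a j k l + ρ l) +
        ((0 : ℕ) : MvPowerSeries I ℚ) * lamV a j (k + 1) l) =
        (fun l => C (P : ℚ) * (fun l => 2 * xv a j (k + 1) l - xv a j k l + ρ l) l) := by
      funext l
      rw [map_natCast]
      push_cast
      ring
    rw [h1, raw_smul, KQSt2_raw_C]
    have h2 : wt P 0 * (P : ℚ) = 1 := by
      unfold wt
      obtain ⟨n, rfl⟩ : ∃ n, P = n + 1 := ⟨P - 1, by omega⟩
      have h3 : n + 1 + 0 - 1 = n := rfl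
      rw [h3, Nat.factorial_succ, Nat.factorial_zero]
      have h4 : ((n.factorial : ℕ) : ℚ) ≠ 0 := by exact_mod_cast Nat.factorial_ne_zero n
      have h5 : ((n : ℚ) + 1) ≠ 0 := by positivity
      push_cast
      field_simp
    have h3 : wtJ σ j 0 = 1 := by
      unfold wtJ
      rw [if_pos rfl]
    rw [← mul_assoc, h2, h3]
    congr 1
    unfold GVal
    congr 1
    funext i l
    by_cases hij : i = j
    · subst hij
      rw [Function.update_self, KQSt2_colj a σ ty i k 0 hk hnR l]
      have h4 : scl σ i 0 = 1 := by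
        unfold scl
        rw [if_pos rfl]
      rw [h4, Finset.sum_eq_zero (s := Finset.univ.erase i), hρ]
      · simp only [Nat.cast_zero, zero_mul, map_zero, map_one]
        ring
      · intro l' _
        split_ifs <;> simp
    · rw [Function.update_of_ne hij, KQSt2_colne a σ ty hS j k 0 hk hnW ∅ (by simp) i hij l]
      unfold KQSt2_c
      simp
  · have hcw : ∀ x, ty x ≠ Ty.R → 0 < a x j →
        cw a (γ - Finsupp.single j ((k + 1) * m)) x =
          ((k : ℤ) + 1) * (σ.p x + (a x j : ℤ) * m) := by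
      intro x hx hxj
      have hne : x ≠ j := by
        rintro rfl
        exact hx hj
      have h1 : γ = (γ - Finsupp.single j ((k + 1) * m)) + Finsupp.single j ((k + 1) * m) := by
        rw [tsub_add_cancel_of_le]
        rwa [Finsupp.single_le_iff]
      have h2 := cw_add a (γ - Finsupp.single j ((k + 1) * m))
        (Finsupp.single j ((k + 1) * m)) x
      rw [← h1] at h2
      have h3 : cw a (Finsupp.single j ((k + 1) * m)) x = -((a x j : ℤ) * ((k + 1) * m)) := by
        unfold cw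
        rw [Finset.sum_eq_single j]
        · unfold cart
          rw [if_neg hne, Finsupp.single_eq_same]
          push_cast
          ring
        · intro i _ hi
          rw [Finsupp.single_eq_of_ne hi]
          simp
        · intro h
          exact absurd (Finset.mem_univ j) h
      have h4 := hcons x hx
      unfold Cons at h4
      rw [hS.P0 x hx, hnW x hx hxj, hk] at h4
      rw [h3] at h2
      push_cast at h4
      linarith
    have h1 : (fun l => (P : MvPowerSeries I ℚ) * (2 * xv a j (k + 1) l - xv a j k l + ρ l) +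
        (m : MvPowerSeries I ℚ) * lamV a j (k + 1) l) =
        KQSt2_vec a k (KQSt2_f a σ j m) (KQSt2_R a σ j k) := by
      funext l
      unfold KQSt2_vec KQSt2_f KQSt2_R lamV
      have h2 : ∑ l', C ((if l' = j then 2 * (σ.P j : ℚ) else 0) +
          (m : ℚ) * ((cart a l' j : ℤ) : ℚ)) * xv a l' (k + 1) l =
          2 * C (P : ℚ) * xv a j (k + 1) l +
            C (m : ℚ) * ∑ l', C ((cart a l' j : ℤ) : ℚ) * xv a l' (k + 1) l := by
        rw [Finset.mul_sum]
        have h3 : 2 * C (P : ℚ) * xv a j (k + 1) l =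
            ∑ l', (if l' = j then 2 * C (P : ℚ) * xv a l' (k + 1) l else 0) := by
          rw [Finset.sum_ite_eq' Finset.univ j, if_pos (Finset.mem_univ j)]
        rw [h3, ← Finset.sum_add_distrib]
        refine Finset.sum_congr rfl fun l' _ => ?_
        split_ifs
        · rw [map_add, map_mul, map_mul, map_ofNat, hPq]
          ring
        · rw [map_add, map_mul, map_zero]
          ring
      rw [h2, hPq, hρ, map_natCast, map_natCast]
      ring
    have hW : ∀ x, x ∈ Finset.univ.filter (fun x => ty x ≠ Ty.R ∧ 0 < a x j) ↔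
        ty x ≠ Ty.R ∧ 0 < a x j := by
      intro x; simp
    have hD : ∀ x, x ∈ Finset.univ.filter (fun x => ty x = Ty.D ∧ 0 < a x j) ↔
        ty x = Ty.D ∧ 0 < a x j := by
      intro x; simp
    have hRr : ∀ x, ty x ≠ Ty.R → VReg a x 0 (KQSt2_R a σ j k) := by
      intro x hx
      refine KQSt2_Rreg a hs σ ty hS j k x hx ?_
      rintro rfl
      exact hx hj
    have hwt : wtJ σ j m = wt P m := by
      unfold wtJ
      rw [if_neg (by omega), hPn]
    rw [h1, KQSt2_D a hs _ σ ty hS j hj k m hm0 hk hnW hcw _ _ hRr _ (fun x hx => (hD x).1 hx),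
      KQSt2_A a hs _ σ ty hS j hj k m hm0 hk hnW hcw _ _ hRr _ hD _ (fun x hx => (hW x).1 hx), hwt]
    congr 1
    unfold GVal
    congr 1
    funext i l
    by_cases hij : i = j
    · subst hij
      rw [Function.update_self, KQSt2_colfin a σ ty hS i hj k m hm0 hk hnR hnW _ hW l]
    · rw [Function.update_of_ne hij, KQSt2_colne a σ ty hS j k m hk hnW
        (Finset.univ.filter (fun x => ty x = Ty.D ∧ 0 < a x j)) ?_ i hij l]
      intro x
      rw [hD x]
      constructor
      · rintro ⟨h1, h2⟩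
        exact ⟨h1, hm0, h2⟩
      · rintro ⟨h1, -, h2⟩
        exact ⟨h1, h2⟩

end Pool.Agent.H27.KAC
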