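import Pool.Agent.H27.KAC.KQEta

/-!
KAC module KQRaw2: expansion at a vertex `j` adjacent to a lagging wall `x`: only `m = 0` survives.

`x` is loop-free, `a x j ≥ 1`, column `x` is `x_{x,k+1}` (pole at `U_{x,k+1} = 0`), all other
columns and `F` are regular in `t_x`, the power of `U_{x,k}` is `q ≥ 0` (q = 1 is used).
`η_{j,k+1}` is divisible by `U_{x,k+1}^{a j x}`, `a j x ≥ 1`.  The difference of both sides is
`raw` of something of the form  `U_{x,k+1} * regular` resp. `η λ / (1-η)`, where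
`η λ_j` contains `- a_{xj} η x_{x,k+1}`: this part of column `j` is proportional to column `x` and
dies; what remains is regular and has the factor `U_{x,k+1}^{≥1}` which cancels the pole of
column `x` (`vanish_general` with level `k+1`, b ≥ 1, c = q).
-/

namespace Pool.Agent.H27.KAC

open scoped BigOperators
open MvPowerSeries

variable {I : Type} [Fintype I] [DecidableEq I]

/-- `η_{j,k+1} = η' W` with `W = U_{x,k+1}` and `η'` of degree `-(k+1)`. -/
theorem KQRaw2_eta_split (a : I → I → ℕ) (hs : ∀ i j, a i j = a j i) (x : I) (hx : a x x = 0)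
    (j : I) (hj : j ≠ x) (hxj : 1 ≤ a x j) (k : ℕ) :
    ∃ e : MvPowerSeries I ℚ, Fil a x (-((k + 1 : ℕ) : ℤ)) e ∧
      etaS a j (k + 1) = e * uS a x (k + 1) := by
  have hjx : 1 ≤ a j x := by rw [hs j x]; exact hxj
  refine ⟨(X j) ^ (k + 1) * ((∏ l ∈ Finset.univ.erase x, uS a l (k + 1) ^ (a j l)) *
    uS a x (k + 1) ^ (a j x - 1)) *
      (((uu a j (k + 1)) ^ (-2 : ℤ) : (MvPowerSeries I ℚ)ˣ) : MvPowerSeries I ℚ), ?_, ?_⟩
  · have h1 : Fil a x (((k + 1 : ℕ) : ℤ) * cart a x j) ((X j : MvPowerSeries I ℚ) ^ (k + 1)) :=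
      Fil_X_pow a x j (k + 1)
    have h2 : Fil a x (∑ l ∈ Finset.univ.erase x, (0 : ℤ))
        (∏ l ∈ Finset.univ.erase x, uS a l (k + 1) ^ (a j l)) := by
      refine Fil.prod fun l hl => ?_
      have h := (uS_fil_ne a hs x hx l (Finset.ne_of_mem_erase hl) (k + 1)).pow (a j l)
      rw [mul_zero] at h
      exact h
    rw [Finset.sum_const_zero] at h2
    have h3 : Fil a x (((a j x - 1 : ℕ) : ℤ) * ((k + 1 : ℕ) : ℤ))
        (uS a x (k + 1) ^ (a j x - 1)) := (uS_fil_self a hs x hx (k + 1)).pow (a j x - 1)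
    have h4 := uu_zpow_fil a hs x hx j hj (k + 1) (-2)
    refine ((h1.mul (h2.mul h3)).mul h4).mono (le_of_eq ?_)
    have hc : cart a x j = -(a x j : ℤ) := by
      unfold cart
      rw [if_neg (fun h => hj h.symm)]
      ring
    rw [hc, hs j x, Nat.cast_sub hxj]
    push_cast
    ring
  · have h1 : ((cU a j (k + 1) : (MvPowerSeries I ℚ)ˣ) : MvPowerSeries I ℚ) =
        (∏ l ∈ Finset.univ.erase x, uS a l (k + 1) ^ (a j l)) * uS a x (k + 1) ^ (a j x - 1) *
          uS a x (k + 1) := by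
      unfold cU
      rw [Units.coe_prod]
      simp only [Units.val_pow_eq_pow_val, uu_coe]
      rw [← Finset.prod_erase_mul _ _ (Finset.mem_univ x), mul_assoc, ← pow_succ,
        Nat.sub_add_cancel hjx]
    unfold etaS
    rw [Units.val_mul, h1]
    ring

theorem KQRaw2_eta_fil (a : I → I → ℕ) (hs : ∀ i j, a i j = a j i) (x : I) (hx : a x x = 0)
    (j : I) (hj : j ≠ x) (hxj : 1 ≤ a x j) (k : ℕ) : Fil a x 0 (etaS a j (k + 1)) := by
  obtain ⟨e, he, h⟩ := KQRaw2_eta_split a hs x hx j hj hxj k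
  rw [h]
  refine (he.mul (uS_fil_self a hs x hx (k + 1))).mono (le_of_eq ?_)
  ring

theorem KQRaw2_eta_col (a : I → I → ℕ) (hs : ∀ i j, a i j = a j i) (x : I) (hx : a x x = 0)
    (j : I) (hj : j ≠ x) (hxj : 1 ≤ a x j) (k : ℕ) :
    VReg a x 0 (fun l => etaS a j (k + 1) * xv a x (k + 1) l) := by
  obtain ⟨e, he, h⟩ := KQRaw2_eta_split a hs x hx j hj hxj k
  have h1 := VReg.smul he (xv_pole a hs x hx (k + 1))
  have h2 : (fun l => etaS a j (k + 1) * xv a x (k + 1) l) =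
      fun l => e * (uS a x (k + 1) * xv a x (k + 1) l) := by
    funext l
    rw [h]
    ring
  rw [h2]
  refine h1.mono (le_of_eq ?_)
  ring

/-- The factor `η_{j,k+1}` cancels the pole of the column `x`. -/
theorem KQRaw2_van (a : I → I → ℕ) (hs : ∀ i j, a i j = a j i) (x : I) (hx : a x x = 0)
    (j : I) (hj : j ≠ x) (hxj : 1 ≤ a x j) (k q : ℕ)
    (γ : I →₀ ℕ) (hγ : cw a γ x = (k : ℤ) * q)
    (F : MvPowerSeries I ℚ) (hF : Fil a x 0 F) (c : I → I → MvPowerSeries I ℚ)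
    (hc : ∀ i, i ≠ x → i ≠ j → VReg a x 0 (c i)) (hcx : c x = xv a x (k + 1))
    (w : I → MvPowerSeries I ℚ) (hw : VReg a x 0 w) :
    raw γ (F * uS a x k ^ q * etaS a j (k + 1)) (Function.update c j w) = 0 := by
  have h0 : Function.update c j w =
      Function.update (Function.update c j w) x (fun l => xv a x (k + 1) l) := by
    have : (fun l => xv a x (k + 1) l) = Function.update c j w x := by
      rw [Function.update_of_ne (Ne.symm hj), hcx]
    rw [this, Function.update_eq_self]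
  rw [h0, ← raw_smul]
  have hreg : ∀ i, VReg a x 0 (Function.update (Function.update c j w) x
      (fun l => etaS a j (k + 1) * xv a x (k + 1) l) i) := by
    intro i
    by_cases hi : i = x
    · subst hi
      rw [Function.update_self]
      exact KQRaw2_eta_col a hs i hx j hj hxj k
    · rw [Function.update_of_ne hi]
      by_cases hij : i = j
      · subst hij
        rw [Function.update_self]
        exact hw
      · rw [Function.update_of_ne hij]
        exact hc i hi hij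
  have hv := vanish_general a hs x hx (k + 1) (by omega) 0 q F hF _ hreg (fun _ => 0) (fun _ => 0)
    (fun _ _ => rfl) (fun _ _ => rfl) γ (by rw [hγ]; push_cast; ring)
  simp only [map_zero, zero_mul, add_zero, pow_zero, mul_one, Nat.add_sub_cancel] at hv
  exact hv

/-- `(1 - η)^n = 1 + η E` with `E` regular. -/
theorem KQRaw2_pow {a : I → I → ℕ} {x : I} {η : MvPowerSeries I ℚ} (hη : Fil a x 0 η)
    (D : (MvPowerSeries I ℚ)ˣ) (hD : (D : MvPowerSeries I ℚ) = 1 - η)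
    (h1 : constantCoeff (D : MvPowerSeries I ℚ) = 1) (n : ℤ) :
    ∃ E : MvPowerSeries I ℚ, Fil a x 0 E ∧
      ((D ^ n : (MvPowerSeries I ℚ)ˣ) : MvPowerSeries I ℚ) = 1 + η * E := by
  have hDf : Fil a x 0 (D : MvPowerSeries I ℚ) := by
    rw [hD]
    exact (Fil_one a x).sub hη
  have hDi : Fil a x 0 ((D⁻¹ : (MvPowerSeries I ℚ)ˣ) : MvPowerSeries I ℚ) := Fil_inv hDf h1
  have hinv : ((D⁻¹ : (MvPowerSeries I ℚ)ˣ) : MvPowerSeries I ℚ) =
      1 + η * ((D⁻¹ : (MvPowerSeries I ℚ)ˣ) : MvPowerSeries I ℚ) := by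
    have h2 : (D : MvPowerSeries I ℚ) * ((D⁻¹ : (MvPowerSeries I ℚ)ˣ) : MvPowerSeries I ℚ) = 1 :=
      D.mul_inv
    have h3 : (1 - η) * ((D⁻¹ : (MvPowerSeries I ℚ)ˣ) : MvPowerSeries I ℚ) = 1 := by
      rw [← hD]; exact h2
    linear_combination h3
  have mul0 : ∀ {f g : MvPowerSeries I ℚ}, Fil a x 0 f → Fil a x 0 g → Fil a x 0 (f * g) := by
    intro f g hf hg
    exact (hf.mul hg).mono (by norm_num)
  induction n using Int.induction_on with
  | zero =>
    refine ⟨0, Fil_zero a x 0, ?_⟩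
    rw [zpow_zero, Units.val_one]
    ring
  | succ n ih =>
    obtain ⟨E, hE, h⟩ := ih
    refine ⟨E - 1 - η * E, (hE.sub (Fil_one a x)).sub (mul0 hη hE), ?_⟩
    rw [zpow_add_one, Units.val_mul, h, hD]
    ring
  | pred n ih =>
    obtain ⟨E, hE, h⟩ := ih
    refine ⟨E + ((D⁻¹ : (MvPowerSeries I ℚ)ˣ) : MvPowerSeries I ℚ) +
      η * E * ((D⁻¹ : (MvPowerSeries I ℚ)ˣ) : MvPowerSeries I ℚ),
      (hE.add hDi).add (mul0 (mul0 hη hE) hDi), ?_⟩
    rw [zpow_sub_one, Units.val_mul, h]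
    obtain ⟨d, hd⟩ : ∃ d, d = ((D⁻¹ : (MvPowerSeries I ℚ)ˣ) : MvPowerSeries I ℚ) := ⟨_, rfl⟩
    rw [← hd] at hinv ⊢
    linear_combination (1 + η * E) * hinv

theorem raw_expand_lag (a : I → I → ℕ) (hs : ∀ i j, a i j = a j i) (x : I) (hx : a x x = 0)
    (j : I) (hj : j ≠ x) (hxj : 1 ≤ a x j) (k q : ℕ) (P : ℤ)
    (γ : I →₀ ℕ) (hγ : cw a γ x = (k : ℤ) * q)
    (F : MvPowerSeries I ℚ) (hF : Fil a x 0 F) (c : I → I → MvPowerSeries I ℚ)
    (hc : ∀ i, i ≠ x → i ≠ j → VReg a x 0 (c i)) (hcx : c x = xv a x (k + 1))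
    (ρ : I → MvPowerSeries I ℚ) (hρ : VReg a x 0 ρ) :
    raw γ (F * uS a x k ^ q *
        (((uu a j (k + 2)) ^ (-P) : (MvPowerSeries I ℚ)ˣ) : MvPowerSeries I ℚ))
      (Function.update c j (fun l => xv a j (k + 2) l + ρ l)) =
    raw γ (F * uS a x k ^ q * (((uu a j (k + 1)) ^ (-(2 * P)) * (uu a j k) ^ P :
        (MvPowerSeries I ℚ)ˣ) : MvPowerSeries I ℚ))
      (Function.update c j (fun l => 2 * xv a j (k + 1) l - xv a j k l + ρ l)) := by
  have hj1 : 1 ≤ k + 1 := by omega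
  obtain ⟨η, hη⟩ : ∃ η, η = etaS a j (k + 1) := ⟨_, rfl⟩
  have hηf : Fil a x 0 η := by rw [hη]; exact KQRaw2_eta_fil a hs x hx j hj hxj k
  obtain ⟨D, hD⟩ : ∃ D : (MvPowerSeries I ℚ)ˣ, (D : MvPowerSeries I ℚ) = 1 - η := by
    refine ⟨(one_sub_eta_isUnit a j (k + 1) hj1).unit, ?_⟩
    rw [hη]
    rfl
  have hD1 : constantCoeff (D : MvPowerSeries I ℚ) = 1 := by
    rw [hD, map_sub, hη, eta_const a j (k + 1) hj1, map_one, sub_zero]
  have hDf : Fil a x 0 (D : MvPowerSeries I ℚ) := by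
    rw [hD]
    exact (Fil_one a x).sub hηf
  have mul0 : ∀ {f g : MvPowerSeries I ℚ}, Fil a x 0 f → Fil a x 0 g → Fil a x 0 (f * g) := by
    intro f g hf hg
    exact (hf.mul hg).mono (by norm_num)
  -- the relation of the units
  have hrel : uu a j (k + 2) * uu a j k = (uu a j (k + 1)) ^ (2 : ℤ) * D := by
    apply Units.ext
    have h := uS_eta a j k
    rw [← hη, ← hD] at h
    rw [Units.val_mul, Units.val_mul, zpow_ofNat, Units.val_pow_eq_pow_val, uu_coe, uu_coe, uu_coe]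
    exact h
  have hu : uu a j (k + 2) = (uu a j (k + 1)) ^ (2 : ℤ) * D * (uu a j k)⁻¹ := by
    rw [← hrel, mul_inv_cancel_right]
  have hpow : (uu a j (k + 2)) ^ (-P) =
      ((uu a j (k + 1)) ^ (-(2 * P)) * (uu a j k) ^ P) * D ^ (-P) := by
    rw [hu, mul_zpow, mul_zpow, ← zpow_mul, inv_zpow', neg_neg]
    have h2 : (2 : ℤ) * -P = -(2 * P) := by ring
    rw [h2]
    exact mul_right_comm _ _ _
  obtain ⟨G, hG⟩ : ∃ G : (MvPowerSeries I ℚ)ˣ,
      G = (uu a j (k + 1)) ^ (-(2 * P)) * (uu a j k) ^ P := ⟨_, rfl⟩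
  have hGf : Fil a x 0 (G : MvPowerSeries I ℚ) := by
    rw [hG, Units.val_mul]
    exact mul0 (uu_zpow_fil a hs x hx j hj _ _) (uu_zpow_fil a hs x hx j hj _ _)
  rw [hpow, ← hG]
  obtain ⟨E, hE, hEP⟩ := KQRaw2_pow hηf D hD hD1 (-P)
  have hDPf : Fil a x 0 ((D ^ (-P) : (MvPowerSeries I ℚ)ˣ) : MvPowerSeries I ℚ) :=
    Fil_zpow hDf hD1 _
  have hDi : Fil a x 0 ((D⁻¹ : (MvPowerSeries I ℚ)ˣ) : MvPowerSeries I ℚ) := Fil_inv hDf hD1
  -- the column
  have hcol : (fun l => xv a j (k + 2) l + ρ l) = fun l =>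
      (fun l => 2 * xv a j (k + 1) l - xv a j k l + ρ l) l +
        (fun l => (((D⁻¹ : (MvPowerSeries I ℚ)ˣ) : MvPowerSeries I ℚ) * η) *
          lamV a j (k + 1) l) l := by
    funext l
    have h := xv_eta a hs j k l
    rw [← hη, ← hD] at h
    have h2 : ((D⁻¹ : (MvPowerSeries I ℚ)ˣ) : MvPowerSeries I ℚ) * (D : MvPowerSeries I ℚ) = 1 :=
      D.inv_mul
    obtain ⟨d, hd⟩ : ∃ d, d = ((D⁻¹ : (MvPowerSeries I ℚ)ˣ) : MvPowerSeries I ℚ) := ⟨_, rfl⟩
    rw [← hd] at h2 ⊢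
    dsimp only
    linear_combination d * h - (xv a j (k + 2) l - 2 * xv a j (k + 1) l + xv a j k l) * h2
  rw [hcol, raw_add]
  have hφ : VReg a x 0 (fun l => 2 * xv a j (k + 1) l - xv a j k l + ρ l) := by
    have e1 := xv_reg a hs x hx j hj (k + 1)
    have e2 := xv_reg a hs x hx j hj k
    have e3 := VReg.smul (Fil_C a x 2) e1
    have e4 := VReg.smul (Fil_C a x (-1)) e2
    have e5 := ((e3.mono (by norm_num : (0 : ℤ) + 0 ≤ 0)).add
      (e4.mono (by norm_num : (0 : ℤ) + 0 ≤ 0))).add hρ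
    have e6 : (fun l => 2 * xv a j (k + 1) l - xv a j k l + ρ l) =
        fun l => (C (2 : ℚ) * xv a j (k + 1) l + C (-1 : ℚ) * xv a j k l) + ρ l := by
      funext l
      rw [map_neg, map_one, map_ofNat]
      ring
    rw [e6]
    exact e5
  -- the first part
  have first : raw γ (F * uS a x k ^ q * ((G * D ^ (-P) : (MvPowerSeries I ℚ)ˣ) :
      MvPowerSeries I ℚ)) (Function.update c j
        (fun l => 2 * xv a j (k + 1) l - xv a j k l + ρ l)) =
      raw γ (F * uS a x k ^ q * (G : MvPowerSeries I ℚ)) (Function.update c j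
        (fun l => 2 * xv a j (k + 1) l - xv a j k l + ρ l)) := by
    have h1 : F * uS a x k ^ q * ((G * D ^ (-P) : (MvPowerSeries I ℚ)ˣ) : MvPowerSeries I ℚ) =
        F * uS a x k ^ q * (G : MvPowerSeries I ℚ) +
          (F * (G : MvPowerSeries I ℚ) * E) * uS a x k ^ q * etaS a j (k + 1) := by
      rw [Units.val_mul, hEP, ← hη]
      ring
    rw [h1, raw_add_left, KQRaw2_van a hs x hx j hj hxj k q γ hγ _ (mul0 (mul0 hF hGf) hE) c hc hcx
      _ hφ, add_zero]
  -- the second part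
  have second : raw γ (F * uS a x k ^ q * ((G * D ^ (-P) : (MvPowerSeries I ℚ)ˣ) :
      MvPowerSeries I ℚ)) (Function.update c j
        (fun l => (((D⁻¹ : (MvPowerSeries I ℚ)ˣ) : MvPowerSeries I ℚ) * η) *
          lamV a j (k + 1) l)) = 0 := by
    rw [raw_smul]
    obtain ⟨μ, hμ⟩ : ∃ μ : I → MvPowerSeries I ℚ, μ = fun l =>
      ∑ l' ∈ Finset.univ.erase x, C ((cart a l' j : ℤ) : ℚ) * xv a l' (k + 1) l := ⟨_, rfl⟩
    have hμr : VReg a x 0 μ := by
      rw [hμ]
      refine VReg.sum fun l' hl' => ?_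
      exact (VReg.smul (Fil_C a x _) (xv_reg a hs x hx l' (Finset.ne_of_mem_erase hl')
        (k + 1))).mono (by norm_num)
    have hlam : Function.update c j (fun l => lamV a j (k + 1) l) =
        Function.update (Function.update c j μ) j (fun l => (Function.update c j μ) j l +
          C ((cart a x j : ℤ) : ℚ) * (Function.update c j μ) x l) := by
      rw [Function.update_idem]
      congr 1
      funext l
      rw [Function.update_self, Function.update_of_ne (Ne.symm hj), hcx, hμ]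
      unfold lamV
      rw [← Finset.sum_erase_add _ _ (Finset.mem_univ x)]
    rw [hlam, raw_add_col _ _ _ _ _ _ (Ne.symm hj)]
    have h1 : F * uS a x k ^ q * ((G * D ^ (-P) : (MvPowerSeries I ℚ)ˣ) : MvPowerSeries I ℚ) *
        (((D⁻¹ : (MvPowerSeries I ℚ)ˣ) : MvPowerSeries I ℚ) * η) =
        (F * (G : MvPowerSeries I ℚ) * ((D ^ (-P) : (MvPowerSeries I ℚ)ˣ) : MvPowerSeries I ℚ) *
          ((D⁻¹ : (MvPowerSeries I ℚ)ˣ) : MvPowerSeries I ℚ)) * uS a x k ^ q *
            etaS a j (k + 1) := by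
      rw [Units.val_mul, ← hη]
      ring
    rw [h1]
    exact KQRaw2_van a hs x hx j hj hxj k q γ hγ _ (mul0 (mul0 (mul0 hF hGf) hDPf) hDi) c hc hcx
      _ hμr
  rw [first, second, add_zero]

end Pool.Agent.H27.KAC
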