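import Pool.Agent.H27.KAC.KQSt1
import Pool.Agent.H27.KAC.KQRaw2

/-!
KAC module KQSt3: the regular step if a lagging wall `x0` is adjacent to `j`
(`κ x0 = κ j - 1`, mode A): only `m = 0`.  Direct application of `raw_expand_lag`
(with `q = p x0`), all other columns are regular in `t_{x0}` by `Shape`.
-/

namespace Pool.Agent.H27.KAC

open scoped BigOperators
open MvPowerSeries

variable {I : Type} [Fintype I] [DecidableEq I]

theorem kqst3_vreg_neg {a : I → I → ℕ} {x : I} {v : I → MvPowerSeries I ℚ} (h : VReg a x 0 v) :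
    VReg a x 0 (fun l => - v l) :=
  ⟨fun l hl => (h.1 l hl).neg, h.2.neg⟩

theorem kqst3_vreg_zero (a : I → I → ℕ) (x : I) : VReg a x 0 (fun _ => (0 : MvPowerSeries I ℚ)) :=
  ⟨fun _ _ => Fil_zero a x 0, Fil_zero a x (0 - 1)⟩

theorem kqst3_vreg_lin (a : I → I → ℕ) (hs : ∀ i j, a i j = a j i) (x : I) (hx : a x x = 0)
    (h : I → ℚ) (n : I → ℕ) (h0 : h x = 0) :
    VReg a x 0 (fun l => ∑ l', C (h l') * xv a l' (n l') l) := by
  apply VReg.sum (s := Finset.univ) (v := fun l' l => C (h l') * xv a l' (n l') l)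
  intro l' _
  by_cases hl : l' = x
  · have h1 : (fun l => C (h l') * xv a l' (n l') l) = fun _ => (0 : MvPowerSeries I ℚ) := by
      funext l
      rw [hl, h0, map_zero, zero_mul]
    rw [h1]
    exact kqst3_vreg_zero a x
  · have h1 := VReg.smul (Fil_C a x (h l')) (xv_reg a hs x hx l' hl (n l'))
    rw [add_zero] at h1
    exact h1

/-- a column with regular lower forms is regular. -/
theorem kqst3_vreg_col (a : I → I → ℕ) (hs : ∀ i j, a i j = a j i) (x : I) (hx : a x x = 0)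
    (i : I) (hi : i ≠ x) (k : ℕ) (h : I → ℚ) (n : I → ℕ) (h0 : h x = 0) :
    VReg a x 0 (fun l => xv a i k l - ∑ l', C (h l') * xv a l' (n l') l) := by
  have h1 := (xv_reg a hs x hx i hi k).add (kqst3_vreg_neg (kqst3_vreg_lin a hs x hx h n h0))
  simpa only [sub_eq_add_neg] using h1

/-- the factor of the vertex `i`. -/
noncomputable def kqst3_g (a : I → I → ℕ) (κ : I → ℕ) (P p : I → ℤ) (i : I) :
    (MvPowerSeries I ℚ)ˣ :=
  (uu a i (κ i)) ^ (-(P i)) * (uu a i (κ i - 1)) ^ (p i)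

theorem kqst3_g_fil (a : I → I → ℕ) (hs : ∀ i j, a i j = a j i) (x : I) (hx : a x x = 0)
    (κ : I → ℕ) (P p : I → ℤ) (i : I) (hi : i ≠ x) :
    Fil a x 0 ((kqst3_g a κ P p i : (MvPowerSeries I ℚ)ˣ) : MvPowerSeries I ℚ) := by
  unfold kqst3_g
  rw [Units.val_mul]
  have h1 := (uu_zpow_fil a hs x hx i hi (κ i) (-(P i))).mul
    (uu_zpow_fil a hs x hx i hi (κ i - 1) (p i))
  rw [add_zero] at h1
  exact h1

theorem kqst3_prod_fil (a : I → I → ℕ) (x : I) (s : Finset I) (g : I → (MvPowerSeries I ℚ)ˣ)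
    (hg : ∀ i ∈ s, Fil a x 0 ((g i : (MvPowerSeries I ℚ)ˣ) : MvPowerSeries I ℚ)) :
    Fil a x 0 (((∏ i ∈ s, g i : (MvPowerSeries I ℚ)ˣ)) : MvPowerSeries I ℚ) := by
  rw [Units.coe_prod]
  have h1 := Fil.prod (a := a) (x := x) (r := fun _ : I => (0 : ℤ)) (s := s)
    (F := fun i => ((g i : (MvPowerSeries I ℚ)ˣ) : MvPowerSeries I ℚ)) hg
  simpa using h1

theorem st_lag (a : I → I → ℕ) (hs : ∀ i j, a i j = a j i) (γ : I →₀ ℕ) (σ : Sta I)
    (ty : I → Ty) (hS : Shape a σ ty) (hκ1 : ∀ i, 1 ≤ σ.κ i) (j : I) (hj : ty j = Ty.R)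
    (hk : 2 ≤ σ.κ j) (x : I) (hx : ty x = Ty.A) (hxj : 0 < a x j) (hxk : σ.κ x + 1 = σ.κ j)
    (hcons : Cons a γ σ x) :
    Val a γ σ = GVal a γ (kapJ σ j) (PJ a σ j 0) (pJ a σ j 0) (MJ a σ ty j 0) (NJ a σ ty j 0) := by
  obtain ⟨k, hkk⟩ : ∃ k, σ.κ j = k + 2 := ⟨σ.κ j - 2, by omega⟩
  have hκx : σ.κ x = k + 1 := by omega
  have hxR : ty x ≠ Ty.R := by rw [hx]; decide
  have hjx : j ≠ x := by
    rintro rfl
    exact hxR hj
  have hxx := hS.loopfree x hxR
  have hPx := hS.P0 x hxR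
  obtain ⟨q, hq⟩ := Int.eq_ofNat_of_zero_le (hS.p0 x hxR)
  have hγ : cw a γ x = (k : ℤ) * q := by
    have h1 := hcons
    unfold Cons at h1
    rw [h1, hPx, hκx, hq]
    push_cast
    ring
  have hrow := hS.row x hxR
  have hcol := hS.col x hxR
  have hdg := hS.diagA x hx
  -- the common factor
  set gg : I → (MvPowerSeries I ℚ)ˣ := kqst3_g a σ.κ σ.P σ.p with hgg
  obtain ⟨F, hFdef⟩ : ∃ F : MvPowerSeries I ℚ, F =
      (((∏ i ∈ (Finset.univ.erase j).erase x, gg i) * (uu a j (k + 1)) ^ (σ.p j) :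
        (MvPowerSeries I ℚ)ˣ) : MvPowerSeries I ℚ) := ⟨_, rfl⟩
  have hF : Fil a x 0 F := by
    rw [hFdef, Units.val_mul]
    have h1 := (kqst3_prod_fil a x ((Finset.univ.erase j).erase x) gg (fun i hi =>
      kqst3_g_fil a hs x hxx σ.κ σ.P σ.p i (Finset.ne_of_mem_erase hi))).mul
      (uu_zpow_fil a hs x hxx j hjx (k + 1) (σ.p j))
    rw [add_zero] at h1
    exact h1
  have hcreg : ∀ i, i ≠ x → i ≠ j → VReg a x 0 (colS a σ i) := by
    intro i hi _
    exact kqst3_vreg_col a hs x hxx i hi (σ.κ i) (fun l' => σ.H l' i) (fun l' => σ.κ l' - 1)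
      (hrow i hi)
  have hcx : colS a σ x = xv a x (k + 1) := by
    funext l
    unfold colS
    rw [hκx]
    have h1 : ∑ l', C (σ.H l' x) * xv a l' (σ.κ l' - 1) l = 0 := by
      apply Finset.sum_eq_zero
      intro l' _
      by_cases hl : l' = x
      · rw [hl, hdg, map_zero, zero_mul]
      · rw [hcol l' hl, map_zero, zero_mul]
    rw [h1, sub_zero]
  obtain ⟨ρ, hρdef⟩ : ∃ ρ : I → MvPowerSeries I ℚ, ρ =
      fun l => - ∑ l', C (σ.H l' j) * xv a l' (σ.κ l' - 1) l := ⟨_, rfl⟩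
  have hρ : VReg a x 0 ρ := by
    rw [hρdef]
    exact kqst3_vreg_neg (kqst3_vreg_lin a hs x hxx (fun l' => σ.H l' j) (fun l' => σ.κ l' - 1)
      (hrow j hjx))
  have main := raw_expand_lag a hs x hxx j hjx hxj k q (σ.P j) γ hγ F hF (colS a σ) hcreg hcx ρ hρ
  -- left-hand side
  have hunit : ∀ (κ : I → ℕ) (P p : I → ℤ), (∏ i, kqst3_g a κ P p i) =
      (∏ i ∈ (Finset.univ.erase j).erase x, kqst3_g a κ P p i) * kqst3_g a κ P p x *
        kqst3_g a κ P p j := by
    intro κ P p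
    rw [Finset.prod_erase_mul _ _ (Finset.mem_erase.2 ⟨hjx.symm, Finset.mem_univ x⟩),
      Finset.prod_erase_mul _ _ (Finset.mem_univ j)]
  have hgx : ∀ (κ : I → ℕ) (P p : I → ℤ), κ x = k + 1 → P x = 0 → p x = q →
      ((kqst3_g a κ P p x : (MvPowerSeries I ℚ)ˣ) : MvPowerSeries I ℚ) = uS a x k ^ q := by
    intro κ P p h1 h2 h3
    unfold kqst3_g
    rw [h1, h2, h3, neg_zero, zpow_zero, one_mul, zpow_natCast, Units.val_pow_eq_pow_val, uu_coe]
    rfl
  have hL1 : facS a σ = F * uS a x k ^ q *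
      (((uu a j (k + 2)) ^ (-(σ.P j)) : (MvPowerSeries I ℚ)ˣ) : MvPowerSeries I ℚ) := by
    have h1 : facS a σ = ((∏ i, kqst3_g a σ.κ σ.P σ.p i : (MvPowerSeries I ℚ)ˣ) :
      MvPowerSeries I ℚ) := rfl
    rw [h1, hunit, Units.val_mul, Units.val_mul, hgx σ.κ σ.P σ.p hκx hPx hq, hFdef]
    have h2 : ((kqst3_g a σ.κ σ.P σ.p j : (MvPowerSeries I ℚ)ˣ) : MvPowerSeries I ℚ) =
        (((uu a j (k + 2)) ^ (-(σ.P j)) : (MvPowerSeries I ℚ)ˣ) : MvPowerSeries I ℚ) *
        (((uu a j (k + 1)) ^ (σ.p j) : (MvPowerSeries I ℚ)ˣ) : MvPowerSeries I ℚ) := by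
      unfold kqst3_g
      rw [hkk, Units.val_mul]
      rfl
    rw [h2, Units.val_mul, hgg]
    ring
  have hL2 : colS a σ = Function.update (colS a σ) j (fun l => xv a j (k + 2) l + ρ l) := by
    funext i
    by_cases hi : i = j
    · rw [hi, Function.update_self]
      funext l
      unfold colS
      rw [hkk, hρdef, sub_eq_add_neg]
    · rw [Function.update_of_ne hi]
  have hLHS : Val a γ σ = raw γ (F * uS a x k ^ q *
      (((uu a j (k + 2)) ^ (-(σ.P j)) : (MvPowerSeries I ℚ)ˣ) : MvPowerSeries I ℚ))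
      (Function.update (colS a σ) j (fun l => xv a j (k + 2) l + ρ l)) := by
    unfold Val
    rw [← hL1, ← hL2]
  -- right-hand side
  have hkapj : kapJ σ j j = k + 1 := by
    unfold kapJ
    rw [Function.update_self, hkk]
    rfl
  have hkapn : ∀ i, i ≠ j → kapJ σ j i = σ.κ i := by
    intro i hi
    unfold kapJ
    rw [Function.update_of_ne hi]
  have hPn : ∀ i, i ≠ j → PJ a σ j 0 i = σ.P i := by
    intro i hi
    unfold PJ
    rw [if_neg hi]
    split_ifs
    · simp
    · rfl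
  have hpn : ∀ i, i ≠ j → pJ a σ j 0 i = σ.p i := by
    intro i hi
    unfold pJ
    rw [if_neg hi]
    split_ifs
    · simp
    · rfl
  have hPj : PJ a σ j 0 j = 2 * σ.P j - σ.p j := by
    unfold PJ
    rw [if_pos rfl]
    simp
  have hpj : pJ a σ j 0 j = σ.P j := by
    unfold pJ
    rw [if_pos rfl]
  have hR1 : facG a (kapJ σ j) (PJ a σ j 0) (pJ a σ j 0) = F * uS a x k ^ q *
      (((uu a j (k + 1)) ^ (-(2 * σ.P j)) * (uu a j k) ^ (σ.P j) :
        (MvPowerSeries I ℚ)ˣ) : MvPowerSeries I ℚ) := by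
    have h1 : facG a (kapJ σ j) (PJ a σ j 0) (pJ a σ j 0) =
      ((∏ i, kqst3_g a (kapJ σ j) (PJ a σ j 0) (pJ a σ j 0) i : (MvPowerSeries I ℚ)ˣ) :
      MvPowerSeries I ℚ) := rfl
    rw [h1, hunit, Units.val_mul, Units.val_mul, hgx _ _ _
      (by rw [hkapn x hjx.symm, hκx]) (by rw [hPn x hjx.symm, hPx]) (by rw [hpn x hjx.symm, hq]),
      hFdef]
    have h2 : ((kqst3_g a (kapJ σ j) (PJ a σ j 0) (pJ a σ j 0) j : (MvPowerSeries I ℚ)ˣ) :
        MvPowerSeries I ℚ) =
        (((uu a j (k + 1)) ^ (-(2 * σ.P j)) * (uu a j k) ^ (σ.P j) :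
        (MvPowerSeries I ℚ)ˣ) : MvPowerSeries I ℚ) *
        (((uu a j (k + 1)) ^ (σ.p j) : (MvPowerSeries I ℚ)ˣ) : MvPowerSeries I ℚ) := by
      unfold kqst3_g
      rw [hkapj, hPj, hpj, ← Units.val_mul]
      congr 1
      have e1 : -(2 * σ.P j - σ.p j) = -(2 * σ.P j) + σ.p j := by ring
      rw [e1, zpow_add]
      show (uu a j (k + 1)) ^ (-(2 * σ.P j)) * (uu a j (k + 1)) ^ (σ.p j) * (uu a j k) ^ (σ.P j) = _
      exact mul_right_comm _ _ _
    have h3 : (∏ i ∈ (Finset.univ.erase j).erase x,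
        kqst3_g a (kapJ σ j) (PJ a σ j 0) (pJ a σ j 0) i) =
        ∏ i ∈ (Finset.univ.erase j).erase x, gg i := by
      refine Finset.prod_congr rfl fun i hi => ?_
      have hij : i ≠ j := Finset.ne_of_mem_erase (Finset.mem_of_mem_erase hi)
      rw [hgg]
      unfold kqst3_g
      rw [hkapn i hij, hPn i hij, hpn i hij]
    rw [h2, h3, Units.val_mul (∏ i ∈ (Finset.univ.erase j).erase x, gg i)]
    ring
  have hR2 : colG a (kapJ σ j) (MJ a σ ty j 0) (NJ a σ ty j 0) =
      Function.update (colS a σ) j (fun l => 2 * xv a j (k + 1) l - xv a j k l + ρ l) := by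
    have hsplit : ∀ (h : I → ℚ) (l : I), ∑ l', C (h l') * xv a l' (σ.κ l' - 1) l =
        C (h j) * xv a j (k + 1) l +
          ∑ l' ∈ Finset.univ.erase j, C (h l') * xv a l' (σ.κ l' - 1) l := by
      intro h l
      rw [← Finset.add_sum_erase _ _ (Finset.mem_univ j), hkk]
      rfl
    funext i
    by_cases hi : i = j
    · rw [hi, Function.update_self]
      funext l
      unfold colG
      have hM : ∑ l', C (MJ a σ ty j 0 l' j) * xv a l' (kapJ σ j l') l =
          C (2 - σ.H j j) * xv a j (k + 1) l := by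
        rw [Finset.sum_eq_single j]
        · rw [hkapj]
          congr 2
          unfold MJ scl
          simp
        · intro l' _ hl'
          have h0 : MJ a σ ty j 0 l' j = 0 := by
            unfold MJ
            simp [hl']
          rw [h0, map_zero, zero_mul]
        · intro h
          exact absurd (Finset.mem_univ _) h
      have hN : ∑ l', C (NJ a σ ty j 0 l' j) * xv a l' (kapJ σ j l' - 1) l =
          xv a j k l + ∑ l' ∈ Finset.univ.erase j, C (σ.H l' j) * xv a l' (σ.κ l' - 1) l := by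
        rw [← Finset.add_sum_erase _ _ (Finset.mem_univ j)]
        congr 1
        · have h0 : NJ a σ ty j 0 j j = 1 := by
            unfold NJ scl
            simp
          rw [h0, hkapj, map_one, one_mul]
          rfl
        · refine Finset.sum_congr rfl fun l' hl' => ?_
          have hl : l' ≠ j := Finset.ne_of_mem_erase hl'
          have h0 : NJ a σ ty j 0 l' j = σ.H l' j := by
            unfold NJ scl
            simp [hl]
          rw [h0, hkapn l' hl]
      rw [hM, hN, hρdef]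
      simp only
      rw [hsplit (fun l' => σ.H l' j) l, map_sub]
      have h2 : (C (2 : ℚ) : MvPowerSeries I ℚ) = 2 := by
        rw [map_ofNat]
      rw [h2]
      ring
    · rw [Function.update_of_ne hi]
      funext l
      unfold colG colS
      have hM : ∑ l', C (MJ a σ ty j 0 l' i) * xv a l' (kapJ σ j l') l =
          xv a i (σ.κ i) l - C (σ.H j i) * xv a j (k + 1) l := by
        have h0 : ∀ l', C (MJ a σ ty j 0 l' i) * xv a l' (kapJ σ j l') l =
            (if l' = i then xv a l' (kapJ σ j l') l else 0) -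
              (if l' = j then C (σ.H j i) * xv a l' (kapJ σ j l') l else 0) := by
          intro l'
          unfold MJ
          rw [if_neg hi, map_sub, sub_mul]
          congr 1
          · split_ifs
            · rw [map_one, one_mul]
            · rw [map_zero, zero_mul]
          · split_ifs
            · rfl
            · rw [map_zero, zero_mul]
        rw [Finset.sum_congr rfl fun l' _ => h0 l', Finset.sum_sub_distrib,
          Finset.sum_ite_eq' Finset.univ i, Finset.sum_ite_eq' Finset.univ j,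
          if_pos (Finset.mem_univ _), if_pos (Finset.mem_univ _), hkapn i hi, hkapj]
      have hN : ∑ l', C (NJ a σ ty j 0 l' i) * xv a l' (kapJ σ j l' - 1) l =
          ∑ l' ∈ Finset.univ.erase j, C (σ.H l' i) * xv a l' (σ.κ l' - 1) l := by
        rw [← Finset.add_sum_erase _ _ (Finset.mem_univ j)]
        have h0 : NJ a σ ty j 0 j i = 0 := by
          unfold NJ
          simp [hi]
        rw [h0, map_zero, zero_mul, zero_add]
        refine Finset.sum_congr rfl fun l' hl' => ?_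
        have hl : l' ≠ j := Finset.ne_of_mem_erase hl'
        have h1 : NJ a σ ty j 0 l' i = σ.H l' i := by
          unfold NJ HD
          simp [hl, hi]
        rw [h1, hkapn l' hl]
      rw [hM, hN, hsplit (fun l' => σ.H l' i) l]
      ring
  rw [hLHS, main]
  unfold GVal
  rw [hR1, hR2]

end Pool.Agent.H27.KAC
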