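import Pool.Agent.H27.KAC.KP4
import Pool.Agent.H27.KAC.KQSt2
import Pool.Agent.H27.KAC.KQSt3

/-!
KAC module KP5: phase 1 is nonnegative if phase 2 is.

* `pert_Ph1`: for `0 ≤ δ ≤ 1` the perturbed state is in phase 1; for `0 < δ ≤ 1` it is strict:
  `dfc_l(δ) = (1 - δ) dfc_l + δ ph_l`.
* `Val_pert_nonneg`: `Val` of the perturbed state is a polynomial in `δ` (`Val_poly` with `R` = regular vertices);
  if it is `≥ 0` for all `0 < δ < 1` then also for `δ = 0`.
* `pos_Ph1`: induction on the number of regular vertices at level `k + 2`.  If there is none, the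
  state is in phase 2 (`Ph2 (k+2)`: walls at level `k+2` or lagging, that is at level `k+1`).  Otherwise choose
  `j`; by `Val_pert_nonneg` one may assume that the state is strict; if a lagging wall is adjacent to `j`
  use `st_lag`, else `st_reg` (`P_j = Ph_j > 0`, so `P_j ≥ 1`); every term is `≥ 0` by `stepJ_pos` and the
  induction hypothesis (`wtJ ≥ 0`); in the new state the number of regular vertices at level `k+2` is
  smaller (`kapJ`).
-/

namespace Pool.Agent.H27.KAC

open scoped BigOperators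
open MvPowerSeries

variable {I : Type} [Fintype I] [DecidableEq I]

theorem KP5_H_zero (σ : Sta I) (ty : I → Ty) (δ : ℚ) (l i : I) (h : σ.H l i = 0) :
    (pert σ ty δ).H l i = 0 := by
  show (if l ∈ Finset.univ.filter (fun i => ty i = Ty.R) ∧
      i ∈ Finset.univ.filter (fun i => ty i = Ty.R) then (1 - δ) * σ.H l i else σ.H l i) = 0
  rw [h, mul_zero, ite_self]

theorem KP5_dfc (a : I → I → ℕ) (σ : Sta I) (ty : I → Ty) (δ : ℚ) (l : I) (hl : ty l = Ty.R) :
    dfc a (pert σ ty δ) ty l = δ * phS a σ ty l + (1 - δ) * dfc a σ ty l := by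
  have h1 : ∑ i ∈ Finset.univ.filter (fun i => ty i = Ty.R),
      (pert σ ty δ).H l i * PhS a (pert σ ty δ) ty i =
      (1 - δ) * ∑ i ∈ Finset.univ.filter (fun i => ty i = Ty.R), σ.H l i * PhS a σ ty i := by
    rw [Finset.mul_sum]
    refine Finset.sum_congr rfl fun i hi => ?_
    have h2 : (pert σ ty δ).H l i = (1 - δ) * σ.H l i := by
      show (if l ∈ Finset.univ.filter (fun i => ty i = Ty.R) ∧
        i ∈ Finset.univ.filter (fun i => ty i = Ty.R) then (1 - δ) * σ.H l i else σ.H l i) = _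
      rw [if_pos ⟨Finset.mem_filter.2 ⟨Finset.mem_univ l, hl⟩, hi⟩]
    rw [h2, mul_assoc]
    rfl
  have h3 : dfc a (pert σ ty δ) ty l = phS a σ ty l -
      ∑ i ∈ Finset.univ.filter (fun i => ty i = Ty.R),
      (pert σ ty δ).H l i * PhS a (pert σ ty δ) ty i := rfl
  rw [h3, h1]
  unfold dfc
  ring

theorem pert_Ph1 (a : I → I → ℕ) (γ : I →₀ ℕ) (σ : Sta I) (ty : I → Ty) (k : ℕ)
    (h : Ph1 a γ σ ty k) (δ : ℚ) (h0 : 0 < δ) (h1 : δ < 1) :
    Ph1 a γ (pert σ ty δ) ty k ∧
      ∀ l, ty l = Ty.R → 0 < dfc a (pert σ ty δ) ty l ∨ phS a (pert σ ty δ) ty l = 0 := by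
  have hH0 : ∀ l i, σ.H l i = 0 → (pert σ ty δ).H l i = 0 := fun l i h => KP5_H_zero σ ty δ l i h
  have hdfc : ∀ l, ty l = Ty.R →
      dfc a (pert σ ty δ) ty l = δ * phS a σ ty l + (1 - δ) * dfc a σ ty l :=
    fun l hl => KP5_dfc a σ ty δ l hl
  have hph : ∀ l, ty l = Ty.R → 0 ≤ phS a σ ty l := by
    intro l hl
    rcases h.alt l hl with h2 | h2
    · exact h2.le
    · exact h2.1.ge
  have hS := h.shape
  refine ⟨⟨⟨⟨hS.loopfree, hS.P0, hS.p0, hS.pD, ?_, ?_, ?_, ?_, hS.nonadj⟩, h.k1, h.cons, h.lev,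
    ?_, ?_, h.Pnn, ?_, h.alt2⟩, h.reg, h.wall, h.pos, h.posp⟩, ?_⟩
  · intro x hx i hi
    exact hH0 _ _ (hS.row x hx i hi)
  · intro x hx l hl
    exact hH0 _ _ (hS.col x hx l hl)
  · intro x hx
    exact hH0 _ _ (hS.diagA x hx)
  · intro x hx
    show (if x ∈ Finset.univ.filter (fun i => ty i = Ty.R) ∧
      x ∈ Finset.univ.filter (fun i => ty i = Ty.R) then (1 - δ) * σ.H x x else σ.H x x) = 1
    rw [if_neg, hS.diagD x hx]
    rintro ⟨h2, _⟩
    rw [Finset.mem_filter, hx] at h2
    exact absurd h2.2 (by decide)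
  · intro l i hl hi
    have h2 := h.Hnn l i hl hi
    show 0 ≤ (if l ∈ Finset.univ.filter (fun i => ty i = Ty.R) ∧
      i ∈ Finset.univ.filter (fun i => ty i = Ty.R) then (1 - δ) * σ.H l i else σ.H l i)
    split_ifs
    · exact mul_nonneg (by linarith) h2
    · exact h2
  · intro l hl
    rw [hdfc l hl]
    have h2 := hph l hl
    have h3 := h.dnn l hl
    have h4 : 0 ≤ δ * phS a σ ty l := mul_nonneg h0.le h2
    have h5 : 0 ≤ (1 - δ) * dfc a σ ty l := mul_nonneg (by linarith) h3
    linarith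
  · intro l hl
    rcases h.alt l hl with h2 | ⟨h2, h3, h4, h5, h6, h7⟩
    · exact Or.inl h2
    · exact Or.inr ⟨h2, h3, h4, h5, fun i => hH0 _ _ (h6 i), h7⟩
  · intro l hl
    rcases h.alt l hl with h2 | h2
    · left
      rw [hdfc l hl]
      have h3 := h.dnn l hl
      have h4 : 0 < δ * phS a σ ty l := mul_pos h0 h2
      have h5 : 0 ≤ (1 - δ) * dfc a σ ty l := mul_nonneg (by linarith) h3
      linarith
    · right
      exact h2.1

theorem Val_pert_nonneg (a : I → I → ℕ) (γ : I →₀ ℕ) (σ : Sta I) (ty : I → Ty)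
    (h : ∀ δ : ℚ, 0 < δ → δ < 1 → 0 ≤ Val a γ (pert σ ty δ)) : 0 ≤ Val a γ σ := by
  obtain ⟨q, hq⟩ := Val_poly a γ σ (Finset.univ.filter (fun i => ty i = Ty.R))
  have h1 : ∀ δ : ℚ, Val a γ (pert σ ty δ) = q.eval δ := hq
  have h2 : Val a γ σ = q.eval 0 := by
    rw [← h1 0]
    congr 1
    have hH : (pert σ ty 0).H = σ.H := by
      funext l i
      show (if l ∈ Finset.univ.filter (fun i => ty i = Ty.R) ∧
        i ∈ Finset.univ.filter (fun i => ty i = Ty.R) then (1 - 0) * σ.H l i else σ.H l i) = _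
      rw [sub_zero, one_mul, ite_self]
    have h3 : pert σ ty 0 = ⟨σ.κ, σ.P, σ.p, (pert σ ty 0).H⟩ := rfl
    rw [h3, hH]
  rw [h2]
  by_contra hneg
  push Not at hneg
  have hc : Continuous (fun t : ℚ => q.eval t) := q.continuous
  have hopen : IsOpen {t : ℚ | q.eval t < 0} := isOpen_lt hc continuous_const
  have hmem : {t : ℚ | q.eval t < 0} ∈ nhds (0 : ℚ) := hopen.mem_nhds hneg
  rw [Metric.mem_nhds_iff] at hmem
  obtain ⟨ε, hε, hball⟩ := hmem
  obtain ⟨t, ht0, ht1⟩ : ∃ t : ℚ, 0 < t ∧ t < 1 ∧ (t : ℝ) < ε := by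
    obtain ⟨t, ht0, ht1⟩ := exists_rat_btwn (lt_min hε one_pos)
    refine ⟨t, by exact_mod_cast ht0, ?_, lt_of_lt_of_le ht1 (min_le_left _ _)⟩
    have := lt_of_lt_of_le ht1 (min_le_right _ _)
    exact_mod_cast this
  have h5 : q.eval t < 0 := by
    apply hball
    rw [Metric.mem_ball, Rat.dist_eq]
    simp only [Rat.cast_zero, sub_zero]
    have h6 : (0 : ℝ) < (t : ℝ) := by exact_mod_cast ht0
    rw [abs_of_pos h6]
    exact ht1.2
  have h7 := h t ht0 ht1.1
  rw [h1] at h7
  linarith

theorem pos_Ph1 (a : I → I → ℕ) (hg : GoodMat a) (k : ℕ)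
    (IH : ∀ (γ : I →₀ ℕ) (σ : Sta I) (ty : I → Ty), Ph2 a γ σ ty (k + 2) → 0 ≤ Val a γ σ)
    (γ : I →₀ ℕ) (σ : Sta I) (ty : I → Ty) (h : Ph1 a γ σ ty (k + 2)) : 0 ≤ Val a γ σ := by
  have main : ∀ (n : ℕ) (γ : I →₀ ℕ) (σ : Sta I) (ty : I → Ty),
      (Finset.univ.filter (fun l => ty l = Ty.R ∧ σ.κ l = k + 2)).card = n →
      Ph1 a γ σ ty (k + 2) → 0 ≤ Val a γ σ := by
    intro n
    induction n using Nat.strong_induction_on with
    | _ n ih =>
    intro γ σ ty hn h
    by_cases hex : ∃ j, ty j = Ty.R ∧ σ.κ j = k + 2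
    · obtain ⟨j, hj, hjk0⟩ := hex
      refine Val_pert_nonneg a γ σ ty fun δ h0 h1 => ?_
      obtain ⟨hP, hstr⟩ := pert_Ph1 a γ σ ty (k + 2) h δ h0 h1
      have hjk : (pert σ ty δ).κ j = k + 2 := hjk0
      have hn' : (Finset.univ.filter (fun l => ty l = Ty.R ∧ (pert σ ty δ).κ l = k + 2)).card = n :=
        hn
      generalize pert σ ty δ = τ at hP hstr hjk hn'
      have hst := hstr j hj
      -- one term is nonnegative
      have term : ∀ m : ℕ, (k + 1) * m ≤ γ j →
          (m = 0 ∨ ∀ x, ty x ≠ Ty.R → 0 < a x j → τ.κ x = k + 2) →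
          0 ≤ GVal a (γ - Finsupp.single j ((k + 1) * m)) (kapJ τ j) (PJ a τ j m) (pJ a τ j m)
            (MJ a τ ty j m) (NJ a τ ty j m) := by
        intro m hm hw
        rcases stepJ_pos a hg γ τ ty k hP j hj hjk m hm hw hst with h2 | ⟨h2, h3, h4⟩
        · rw [h2]
        · rw [h4]
          refine mul_nonneg h2.le ?_
          refine ih _ ?_ _ _ _ rfl h3
          rw [← hn']
          apply Finset.card_lt_card
          rw [Finset.ssubset_iff_of_subset]
          · refine ⟨j, Finset.mem_filter.2 ⟨Finset.mem_univ j, hj, hjk⟩, ?_⟩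
            intro hmem
            have h5 := (Finset.mem_filter.1 hmem).2.2
            have h6 : (staJ a τ ty j m).κ j = τ.κ j - 1 := by
              show Function.update τ.κ j (τ.κ j - 1) j = τ.κ j - 1
              rw [Function.update_self]
            rw [h6] at h5
            omega
          · intro l hl
            obtain ⟨h5, h6⟩ := (Finset.mem_filter.1 hl).2
            have h7 : ty l = Ty.R := (tyJ_R a ty j m l).1 h5
            refine Finset.mem_filter.2 ⟨Finset.mem_univ l, h7, ?_⟩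
            have h8 : (staJ a τ ty j m).κ l = Function.update τ.κ j (τ.κ j - 1) l := rfl
            by_cases hlj : l = j
            · subst hlj
              exact hjk
            · rw [h8, Function.update_of_ne hlj] at h6
              exact h6
      by_cases hlag : ∀ x, ty x ≠ Ty.R → 0 < a x j → τ.κ x = k + 2
      · -- no lagging wall is adjacent to `j`
        have hPj : 1 ≤ τ.P j := by
          have h2 := PhS_eq_P a τ ty j (fun x hx hxj => by rw [hlag x hx hxj, hjk])
          have h3 := hP.pos j hj hjk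
          rw [h2] at h3
          have h4 : 0 < τ.P j := by exact_mod_cast h3
          omega
        have h2 := st_reg a hg.symm γ τ ty hP.shape hP.k1 j hj k hjk hPj
          (fun x _ hx => by
            rw [hjk]
            exact hP.reg x hx)
          (fun x hx hxj => by rw [hlag x hx hxj, hjk]) (fun x _ => hP.cons x)
        rw [h2]
        refine Finset.sum_nonneg fun m hm => ?_
        have hm' : (k + 1) * m ≤ γ j := by
          have h3 : m ≤ γ j / (k + 1) := by
            have := Finset.mem_range.1 hm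
            omega
          exact (Nat.mul_le_mul_left _ h3).trans (Nat.mul_div_le _ _)
        refine mul_nonneg ?_ (term m hm' (Or.inr hlag))
        unfold wtJ wt
        split_ifs
        · norm_num
        · positivity
      · push Not at hlag
        obtain ⟨x, hx, hxj, hxk⟩ := hlag
        rcases hP.wall x hx with h2 | h2
        · exact absurd h2 hxk
        · have h3 := st_lag a hg.symm γ τ ty hP.shape hP.k1 j hj (by omega) x h2.2.1 hxj
            (by rw [hjk]; exact h2.1) (hP.cons x)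
          rw [h3]
          have h4 := term 0 (by simp) (Or.inl rfl)
          rw [mul_zero, Finsupp.single_zero, tsub_zero] at h4
          exact h4
    · push Not at hex
      refine IH γ σ ty ⟨h.toBase, ?_, ?_⟩
      · intro l hl
        rcases h.reg l hl with h2 | h2
        · exact absurd h2 (hex l hl)
        · exact h2
      · intro x hx
        rcases h.wall x hx with h2 | h2
        · exact Or.inl h2
        · exact Or.inr (Or.inl h2.1)
  exact main _ γ σ ty rfl h

end Pool.Agent.H27.KAC
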