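import Pool.Agent.H27.KAC.KQFil

/-!
KAC module KQLaur: the Laurent phenomenon for the normalised Q-system.

Let `x` be a vertex without loops (`a x x = 0`), `a` symmetric.  Then
(A_k) `Fil a x 0 (uS a j k)` for all `j ≠ x`, and (B_k) `Fil a x k (uS a x k)`.
Proof by strong induction on `k` (`k = 0, 1` trivial).  Write `u_k = uS a x k`,
`c_k = (X x)^k * ∏_{l} (uS a l k)^(a x l)` (the factor `l = x` is trivial), so that
(R) `u_{k+1} u_{k-1} = u_k^2 - c_k`  (k ≥ 1).
* (A_{k+1}) from `uS_rec`: `(X j)^k` lies in `Fil (k * cart x j)`, `cart x j = - a x j`, and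
  `uS a x k ^ (a j x)` in `Fil (k * a j x)`; inverse of `uS a j (k-1)` by `Fil_inv`.
* (B_2): `u_2 = 1 - c_1`, `c_1 = X x`, `(C e_x)_x = 2`.
* (B_{k+1}), k ≥ 2.  For `l ≠ x` with `a x l > 0`:
  `uS l k * uS l (k-2) = (uS l (k-1))^2 - u_{k-1} * g_l` with
  `g_l = (X l)^(k-1) * u_{k-1}^(a l x - 1) * ∏_{j ≠ x} (uS j (k-1))^(a l j)`.
  Taking the product over `l` (with multiplicity `a x l`) and multiplying by `(X x)^(2k-2)`:
  (E) `c_k * c_{k-2} = c_{k-1}^2 - u_{k-1} * e` with an explicit `e`; its filtration degree: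
  in terms of `t_x`-degrees `c_k` has degree 0 (that is, `c_k ∈ Fil (2k)`, because
  `(X x)^k ∈ Fil (2k)`), `u_{k-1} ∈ Fil (k-1)`, `e ∈ Fil (3k-3)`.  (Easiest: prove
  by induction on a finset/list the statement
  `∏ (A_l - u B_l) = ∏ A_l - u * E` with `E ∈ Fil (...)`.)
  Then `c_{k-2} * (u_k^2 - c_k) = u_{k-1} * (u_{k-1}^3 - 2 u_{k-1} c_{k-1} - u_{k-3} u_k^2 + e)`
  for `k ≥ 3` (use (R) at `k-1` and `k-2`), and for `k = 2` the same with `c_0 = 1`, `u_{-1} = 0`
  (directly: `u_2^2 - c_2 = (1 - c_1)^2 - c_2`, `c_2 = c_1^2 - e`, as `u_1 = u_0 = 1`).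
  So `u_{k+1} = (X x)^(-(k-2)) ...`: more precisely, with
  `d := ∏_{l} (uS l (k-2))^(a x l)` (a unit in `Fil 0`), `(X x)^(k-2) * d * u_{k+1}` is equal to
  `u_{k-1}^3 - 2 u_{k-1} c_{k-1} - u_{k-3} u_k^2 + e ∈ Fil (3k-3)`; since
  multiplication by `(X x)^(k-2)` shifts `(Cβ)_x` by exactly `2(k-2)`, we get
  `d * u_{k+1} ∈ Fil (3k - 3 - 2(k-2)) = Fil (k+1)`, and then divide by `d`.
-/

namespace Pool.Agent.H27.KAC

open scoped BigOperators
open MvPowerSeries

variable {I : Type} [Fintype I] [DecidableEq I]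

/-- Cancelling a power of `X x`. -/
theorem KQLaur_cancel {a : I → I → ℕ} {x : I} (hx : a x x = 0) {F : MvPowerSeries I ℚ} {r : ℤ}
    (m : ℕ) (h : Fil a x (r + 2 * m) ((X x : MvPowerSeries I ℚ) ^ m * F)) : Fil a x r F := by
  intro β hβ
  have h1 : coeff (Finsupp.single x m + β) ((X x : MvPowerSeries I ℚ) ^ m * F) = coeff β F := by
    rw [X_pow_eq, coeff_add_monomial_mul, one_mul]
  have h2 := h (Finsupp.single x m + β) (by rw [h1]; exact hβ)
  rw [cw_add] at h2
  have h3 : cw a (Finsupp.single x m) x = 2 * m := by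
    unfold cw
    rw [Finset.sum_eq_single x]
    · simp [cart, hx]
    · intro j _ hj
      rw [Finsupp.single_eq_of_ne hj]
      simp
    · intro hx'
      exact absurd (Finset.mem_univ x) hx'
  omega

/-- Product of two binomials. -/
theorem KQLaur_two {a : I → I → ℕ} {x : I} {u A A' B B' : MvPowerSeries I ℚ} {r : ℤ}
    (hu : Fil a x r u) (hA : Fil a x 0 A) (hA' : Fil a x 0 A') (hB : Fil a x (-r) B)
    (hB' : Fil a x (-r) B') :
    ∃ E, Fil a x (-r) E ∧ (A - u * B) * (A' - u * B') = A * A' - u * E := by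
  refine ⟨A * B' + B * A' - u * (B * B'), ?_, by ring⟩
  have h1 : Fil a x (-r) (A * B') := (hA.mul hB').mono (by omega)
  have h2 : Fil a x (-r) (B * A') := (hB.mul hA').mono (by omega)
  have h3 : Fil a x (-r) (u * (B * B')) := (hu.mul (hB.mul hB')).mono (by omega)
  exact (h1.add h2).sub h3

theorem KQLaur_fil0_pow {a : I → I → ℕ} {x : I} {A : MvPowerSeries I ℚ} (hA : Fil a x 0 A)
    (n : ℕ) : Fil a x 0 (A ^ n) := by
  have h := hA.pow n
  rwa [mul_zero] at h

theorem KQLaur_fil0_prod {ι : Type} {a : I → I → ℕ} {x : I} {s : Finset ι}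
    {A : ι → MvPowerSeries I ℚ} (hA : ∀ l ∈ s, Fil a x 0 (A l)) : Fil a x 0 (∏ l ∈ s, A l) := by
  have h := Fil.prod (r := fun _ => 0) hA
  rwa [Finset.sum_const_zero] at h

theorem KQLaur_pow {a : I → I → ℕ} {x : I} {u A B : MvPowerSeries I ℚ} {r : ℤ}
    (hu : Fil a x r u) (hA : Fil a x 0 A) (hB : Fil a x (-r) B) (n : ℕ) :
    ∃ E, Fil a x (-r) E ∧ (A - u * B) ^ n = A ^ n - u * E := by
  induction n with
  | zero => exact ⟨0, Fil_zero _ _ _, by simp⟩
  | succ n ih =>
    obtain ⟨E, hE, h1⟩ := ih
    obtain ⟨E', hE', h2⟩ := KQLaur_two hu (KQLaur_fil0_pow hA n) hA hE hB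
    exact ⟨E', hE', by rw [pow_succ, h1, h2, pow_succ]⟩

theorem KQLaur_prod {ι : Type} {a : I → I → ℕ} {x : I} (s : Finset ι)
    {A B : ι → MvPowerSeries I ℚ} {u : MvPowerSeries I ℚ} {r : ℤ} (n : ι → ℕ)
    (hu : Fil a x r u) (hA : ∀ l ∈ s, Fil a x 0 (A l)) (hB : ∀ l ∈ s, Fil a x (-r) (B l)) :
    ∃ E, Fil a x (-r) E ∧
      ∏ l ∈ s, (A l - u * B l) ^ (n l) = ∏ l ∈ s, (A l) ^ (n l) - u * E := by
  classical
  induction s using Finset.induction_on with
  | empty => exact ⟨0, Fil_zero _ _ _, by simp⟩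
  | insert b s hb ih =>
    obtain ⟨E, hE, h1⟩ := ih (fun l hl => hA l (Finset.mem_insert_of_mem hl))
      (fun l hl => hB l (Finset.mem_insert_of_mem hl))
    obtain ⟨E', hE', h2⟩ := KQLaur_pow hu (hA b (Finset.mem_insert_self b s))
      (hB b (Finset.mem_insert_self b s)) (n b)
    obtain ⟨E2, hE2, h3⟩ := KQLaur_two hu (KQLaur_fil0_pow (hA b (Finset.mem_insert_self b s)) (n b))
      (KQLaur_fil0_prod (fun l hl => KQLaur_fil0_pow (hA l (Finset.mem_insert_of_mem hl)) (n l)))
      hE' hE
    exact ⟨E2, hE2, by rw [Finset.prod_insert hb, Finset.prod_insert hb, h1, h2, h3]⟩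

/-- The exchange term at the vertex `x`. -/
noncomputable def KQLaur_c (a : I → I → ℕ) (x : I) (k : ℕ) : MvPowerSeries I ℚ :=
  (X x) ^ k * ∏ l, uS a l k ^ (a x l)

theorem KQLaur_rel (a : I → I → ℕ) (x : I) (k : ℕ) :
    uS a x (k + 2) * uS a x k = uS a x (k + 1) ^ 2 - KQLaur_c a x (k + 1) := uS_rec a x k

/-- The cofactor of the exchange term. -/
theorem KQLaur_d (a : I → I → ℕ) (x : I) (hx : a x x = 0) (k : ℕ)
    (hA : ∀ j, j ≠ x → Fil a x 0 (uS a j k)) :
    Fil a x 0 (∏ l, uS a l k ^ (a x l)) := by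
  refine KQLaur_fil0_prod (fun l _ => ?_)
  by_cases hl : l = x
  · subst hl
    rw [hx, pow_zero]
    exact Fil_one _ _
  · exact KQLaur_fil0_pow (hA l hl) _

theorem KQLaur_cfil (a : I → I → ℕ) (x : I) (hx : a x x = 0) (k : ℕ)
    (hA : ∀ j, j ≠ x → Fil a x 0 (uS a j k)) :
    Fil a x (2 * k) (KQLaur_c a x k) := by
  have h1 := (Fil_X_pow a x x k).mul (KQLaur_d a x hx k hA)
  refine h1.mono ?_
  unfold cart
  rw [hx, if_pos rfl]
  push_cast
  linarith

/-- The relation (E). -/
theorem KQLaur_E (a : I → I → ℕ) (hs : ∀ i j, a i j = a j i) (x : I) (hx : a x x = 0) (k : ℕ)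
    (h1A : ∀ j, j ≠ x → Fil a x 0 (uS a j (k + 1))) (h1B : Fil a x (k + 1) (uS a x (k + 1))) :
    ∃ e, Fil a x (3 * (k + 1)) e ∧ KQLaur_c a x (k + 2) * KQLaur_c a x k =
      KQLaur_c a x (k + 1) ^ 2 - uS a x (k + 1) * e := by
  classical
  set u := uS a x (k + 1) with hu
  let g : I → MvPowerSeries I ℚ := fun l => if a x l = 0 then 0 else
    (X l) ^ (k + 1) * (u ^ (a l x - 1) * ∏ j ∈ Finset.univ.erase x, uS a j (k + 1) ^ (a l j))
  have hgfil : ∀ l ∈ (Finset.univ : Finset I), Fil a x (-((k : ℤ) + 1)) (g l) := by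
    intro l _
    by_cases hl : a x l = 0
    · simp only [g, if_pos hl]
      exact Fil_zero _ _ _
    · simp only [g, if_neg hl]
      have hlx : l ≠ x := fun h => hl (by rw [h]; exact hx)
      have e1 := Fil_X_pow a x l (k + 1)
      have e2 := h1B.pow (a l x - 1)
      have e3 : Fil a x 0 (∏ j ∈ Finset.univ.erase x, uS a j (k + 1) ^ (a l j)) :=
        KQLaur_fil0_prod (fun j hj => KQLaur_fil0_pow (h1A j (Finset.ne_of_mem_erase hj)) _)
      refine (e1.mul (e2.mul e3)).mono ?_
      have e4 : cart a x l = -(a x l : ℤ) := by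
        unfold cart
        rw [if_neg (Ne.symm hlx), zero_sub]
      have e5 : 1 ≤ a x l := Nat.one_le_iff_ne_zero.mpr hl
      rw [e4, hs l x]
      push_cast [Nat.cast_sub e5]
      apply le_of_eq
      ring
  obtain ⟨E, hE, hprod⟩ := KQLaur_prod (a := a) (x := x) (Finset.univ : Finset I)
    (A := fun l => if l = x then 0 else uS a l (k + 1) ^ 2) (B := g) (u := u)
    (r := (k : ℤ) + 1) (fun l => a x l) h1B (by
      intro l _
      by_cases hl : l = x
      · simp only [if_pos hl]
        exact Fil_zero _ _ _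
      · simp only [if_neg hl]
        exact KQLaur_fil0_pow (h1A l hl) 2) hgfil
  have hterm : ∀ l, (uS a l (k + 2) * uS a l k) ^ (a x l) =
      ((if l = x then 0 else uS a l (k + 1) ^ 2) - u * g l) ^ (a x l) := by
    intro l
    by_cases hl : a x l = 0
    · rw [hl, pow_zero, pow_zero]
    · have hlx : l ≠ x := fun h => hl (by rw [h]; exact hx)
      congr 1
      simp only [g, if_neg hl, if_neg hlx]
      rw [uS_rec]
      have e6 : ∏ j, uS a j (k + 1) ^ (a l j) =
          u ^ (a l x) * ∏ j ∈ Finset.univ.erase x, uS a j (k + 1) ^ (a l j) := by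
        rw [hu, ← Finset.mul_prod_erase Finset.univ _ (Finset.mem_univ x)]
      have e7 : u ^ (a l x) = u * u ^ (a l x - 1) := by
        rw [← pow_succ']
        congr 1
        have : a l x ≠ 0 := by rw [hs l x]; exact hl
        omega
      rw [e6, e7]
      ring
  have hA2 : ∏ l, (if l = x then 0 else uS a l (k + 1) ^ 2) ^ (a x l) =
      (∏ l, uS a l (k + 1) ^ (a x l)) ^ 2 := by
    rw [← Finset.prod_pow]
    refine Finset.prod_congr rfl (fun l _ => ?_)
    by_cases hlx : l = x
    · subst hlx
      rw [hx, pow_zero, pow_zero, one_pow]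
    · rw [if_neg hlx, ← pow_mul, ← pow_mul, mul_comm]
  refine ⟨(X x) ^ (2 * (k + 1)) * E, ?_, ?_⟩
  · refine ((Fil_X_pow a x x (2 * (k + 1))).mul hE).mono ?_
    unfold cart
    rw [hx, if_pos rfl]
    push_cast
    linarith
  · have h3 : KQLaur_c a x (k + 2) * KQLaur_c a x k =
        (X x) ^ (2 * (k + 1)) * ∏ l, (uS a l (k + 2) * uS a l k) ^ (a x l) := by
      unfold KQLaur_c
      rw [show (∏ l, (uS a l (k + 2) * uS a l k) ^ (a x l)) =
        (∏ l, uS a l (k + 2) ^ (a x l)) * ∏ l, uS a l k ^ (a x l) by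
          rw [← Finset.prod_mul_distrib]
          exact Finset.prod_congr rfl (fun l _ => mul_pow _ _ _)]
      have h4 : 2 * (k + 1) = (k + 2) + k := by omega
      rw [h4, pow_add]
      ring
    rw [h3, Finset.prod_congr rfl (fun l _ => hterm l), hprod, hA2]
    unfold KQLaur_c
    rw [mul_pow, ← pow_mul, mul_comm (k + 1) 2]
    ring

theorem KQLaur_prod_const (a : I → I → ℕ) (x : I) (k : ℕ) :
    constantCoeff (∏ l, uS a l k ^ (a x l)) = 1 := by
  rw [map_prod]
  refine Finset.prod_eq_one (fun l _ => ?_)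
  rw [map_pow, uS_const, one_pow]

/-- Division by a unit in `Fil 0`. -/
theorem KQLaur_div {a : I → I → ℕ} {x : I} {D F : MvPowerSeries I ℚ} {r : ℤ} (hD : Fil a x 0 D)
    (h1 : constantCoeff D = 1) (h : Fil a x r (D * F)) : Fil a x r F := by
  have hu : IsUnit D := by
    rw [MvPowerSeries.isUnit_iff_constantCoeff, h1]
    exact isUnit_one
  obtain ⟨u, rfl⟩ := hu
  have h2 := (Fil_inv hD h1).mul h
  rwa [← mul_assoc, Units.inv_mul, one_mul, zero_add] at h2

theorem laurent_main (a : I → I → ℕ) (hs : ∀ i j, a i j = a j i) (x : I) (hx : a x x = 0) (k : ℕ) :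
    (∀ j, j ≠ x → Fil a x 0 (uS a j k)) ∧ Fil a x k (uS a x k) := by
  induction k using Nat.strong_induction_on with
  | _ k ih =>
    match k, ih with
    | 0, _ =>
      refine ⟨fun j _ => ?_, ?_⟩
      · rw [uS_zero]
        exact Fil_one _ _
      · rw [uS_zero]
        exact (Fil_one _ _).mono (by norm_num)
    | 1, _ =>
      refine ⟨fun j _ => ?_, ?_⟩
      · rw [uS_one]
        exact Fil_one _ _
      · rw [uS_one]
        exact (Fil_one _ _).mono (by norm_num)
    | k + 2, ih =>
      have hk0 := ih k (by omega)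
      have hk1 := ih (k + 1) (by omega)
      refine ⟨fun j hj => ?_, ?_⟩
      · have h1 : Fil a x 0 (uS a j k * uS a j (k + 2)) := by
          rw [mul_comm, uS_rec]
          refine (KQLaur_fil0_pow (hk1.1 j hj) 2).sub ?_
          have e1 := Fil_X_pow a x j (k + 1)
          have e2 : Fil a x ((k + 1 : ℤ) * (a x j : ℤ)) (∏ l, uS a l (k + 1) ^ (a j l)) := by
            rw [← Finset.mul_prod_erase Finset.univ _ (Finset.mem_univ x)]
            have e3 := hk1.2.pow (a j x)
            have e4 : Fil a x 0 (∏ l ∈ Finset.univ.erase x, uS a l (k + 1) ^ (a j l)) :=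
              KQLaur_fil0_prod (fun l hl => KQLaur_fil0_pow (hk1.1 l (Finset.ne_of_mem_erase hl)) _)
            refine (e3.mul e4).mono ?_
            rw [hs j x]
            push_cast
            apply le_of_eq
            ring
          refine (e1.mul e2).mono ?_
          unfold cart
          rw [if_neg (Ne.symm hj)]
          push_cast
          apply le_of_eq
          ring
        exact KQLaur_div (hk0.1 j hj) (uS_const a j k) h1
      · match k, ih, hk0, hk1 with
        | 0, _, _, hk1 =>
          have h1 := KQLaur_rel a x 0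
          rw [uS_zero, mul_one] at h1
          rw [h1]
          have h2 := KQLaur_cfil a x hx 1 hk1.1
          have h3 : Fil a x 2 (uS a x (0 + 1) ^ 2) := by
            rw [zero_add, uS_one, one_pow]
            exact (Fil_one _ _).mono (by norm_num)
          exact (h3.sub (h2.mono (by norm_num))).mono (by norm_num)
        | 1, _, _, hk1 =>
          -- `k = 2` of the sketch
          have hA1 : ∀ j, j ≠ x → Fil a x 0 (uS a j (0 + 1)) := fun j _ => by
            rw [zero_add, uS_one]
            exact Fil_one _ _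
          have hB1 : Fil a x ((0 : ℕ) + 1) (uS a x (0 + 1)) := by
            rw [zero_add, uS_one]
            exact (Fil_one _ _).mono (by norm_num)
          obtain ⟨e, he, hE⟩ := KQLaur_E a hs x hx 0 hA1 hB1
          have hc0 : KQLaur_c a x 0 = 1 := by
            unfold KQLaur_c
            rw [pow_zero, one_mul]
            exact Finset.prod_eq_one (fun l _ => by rw [uS_zero, one_pow])
          rw [hc0, mul_one, zero_add, zero_add, uS_one, one_mul] at hE
          have h1 := KQLaur_rel a x 1
          rw [uS_one, mul_one] at h1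
          have h2 := KQLaur_rel a x 0
          rw [uS_zero, mul_one, zero_add, zero_add, uS_one, one_pow] at h2
          rw [h1]
          have h3 : uS a x (1 + 1) ^ 2 - KQLaur_c a x (1 + 1) =
              1 - KQLaur_c a x 1 - KQLaur_c a x 1 + e := by
            change uS a x 2 ^ 2 - KQLaur_c a x 2 = _
            rw [h2, hE]
            ring
          rw [h3]
          have h4 := KQLaur_cfil a x hx 1 hA1
          have h5 : Fil a x 3 (KQLaur_c a x 1) := h4.mono (by norm_num)
          have h6 : Fil a x 3 (1 : MvPowerSeries I ℚ) := (Fil_one _ _).mono (by norm_num)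
          have h7 : Fil a x 3 e := he.mono (by norm_num)
          exact (((h6.sub h5).sub h5).add h7).mono (by norm_num)
        | k + 2, ih, hk0, hk1 =>
          -- `k + 3` is the `k` of the sketch; the goal is about `k + 4`
          have i0 := ih k (by omega)
          have i1 := ih (k + 1) (by omega)
          obtain ⟨e, he, hE⟩ := KQLaur_E a hs x hx (k + 1) hk0.1 (by
            have := hk0.2
            push_cast at this ⊢
            exact this.mono (by linarith))
          have r1 := KQLaur_rel a x (k + 2)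
          have r2 := KQLaur_rel a x (k + 1)
          have r3 := KQLaur_rel a x k
          set u0 := uS a x k with hu0
          set u1 := uS a x (k + 1) with hu1
          have w2 : uS a x (k + 2) = uS a x (k + 2) := rfl
          have key : uS a x (k + 2) * (KQLaur_c a x (k + 1) * uS a x (k + 2 + 2)) =
              uS a x (k + 2) * (uS a x (k + 2) ^ 3 - 2 * uS a x (k + 2) * KQLaur_c a x (k + 2) -
                u0 * uS a x (k + 3) ^ 2 + e) := by
            have r1' : uS a x (k + 2 + 2) * uS a x (k + 2) =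
              uS a x (k + 3) ^ 2 - KQLaur_c a x (k + 3) := r1
            have r2' : uS a x (k + 3) * u1 = uS a x (k + 2) ^ 2 - KQLaur_c a x (k + 2) := r2
            have r3' : uS a x (k + 2) * u0 = u1 ^ 2 - KQLaur_c a x (k + 1) := r3
            have hE' : KQLaur_c a x (k + 3) * KQLaur_c a x (k + 1) =
              KQLaur_c a x (k + 2) ^ 2 - uS a x (k + 2) * e := hE
            have s1 : KQLaur_c a x (k + 1) = u1 ^ 2 - uS a x (k + 2) * u0 := by
              rw [r3']; ring
            calc uS a x (k + 2) * (KQLaur_c a x (k + 1) * uS a x (k + 2 + 2))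
                = KQLaur_c a x (k + 1) * (uS a x (k + 2 + 2) * uS a x (k + 2)) := by ring
              _ = KQLaur_c a x (k + 1) * uS a x (k + 3) ^ 2 -
                  KQLaur_c a x (k + 3) * KQLaur_c a x (k + 1) := by rw [r1']; ring
              _ = (uS a x (k + 3) * u1) ^ 2 - uS a x (k + 2) * u0 * uS a x (k + 3) ^ 2 -
                  (KQLaur_c a x (k + 2) ^ 2 - uS a x (k + 2) * e) := by
                    rw [hE']
                    rw [s1]
                    ring
              _ = uS a x (k + 2) * (uS a x (k + 2) ^ 3 -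
                  2 * uS a x (k + 2) * KQLaur_c a x (k + 2) -
                u0 * uS a x (k + 3) ^ 2 + e) := by rw [r2']; ring
          have key2 := (uS_isUnit a x (k + 2)).mul_left_cancel key
          have f1 : Fil a x (3 * (k : ℤ) + 6) (uS a x (k + 2) ^ 3) := by
            refine (hk0.2.pow 3).mono ?_
            push_cast
            linarith
          have f2 : Fil a x (3 * (k : ℤ) + 6) (2 * uS a x (k + 2) * KQLaur_c a x (k + 2)) := by
            have g1 := (Fil_natCast a x 2).mul (hk0.2.mul (KQLaur_cfil a x hx (k + 2) hk0.1))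
            rw [mul_assoc]
            refine Fil.mono g1 ?_
            push_cast
            linarith
          have f3 : Fil a x (3 * (k : ℤ) + 6) (u0 * uS a x (k + 3) ^ 2) := by
            refine (i0.2.mul (hk1.2.pow 2)).mono ?_
            push_cast
            linarith
          have f4 : Fil a x (3 * (k : ℤ) + 6) e := by
            refine he.mono ?_
            push_cast
            linarith
          have f5 : Fil a x (3 * (k : ℤ) + 6) (KQLaur_c a x (k + 1) * uS a x (k + 2 + 2)) := by
            rw [key2]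
            exact ((f1.sub f2).sub f3).add f4
          have f6 : Fil a x (((k : ℤ) + 4) + 2 * ((k + 1 : ℕ) : ℤ)) ((X x) ^ (k + 1) *
              ((∏ l, uS a l (k + 1) ^ (a x l)) * uS a x (k + 2 + 2))) := by
            have g2 : KQLaur_c a x (k + 1) * uS a x (k + 2 + 2) = (X x) ^ (k + 1) *
              ((∏ l, uS a l (k + 1) ^ (a x l)) * uS a x (k + 2 + 2)) := by
              unfold KQLaur_c
              ring
            rw [← g2]
            refine f5.mono ?_
            push_cast
            linarith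
          have f7 := KQLaur_div (KQLaur_d a x hx (k + 1) i1.1) (KQLaur_prod_const a x (k + 1))
            (KQLaur_cancel hx (k + 1) f6)
          refine f7.mono ?_
          push_cast
          linarith

end Pool.Agent.H27.KAC
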