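import Pool.Agent.H27.KAC.KQVan

/-!
KAC: definitions used in the raw transition lemmas.
-/

namespace Pool.Agent.H27.KAC

open scoped BigOperators
open MvPowerSeries

variable {I : Type} [Fintype I] [DecidableEq I]

/-- `∏_l U_{l,k}^{a x l}` as a unit. -/
noncomputable def cU (a : I → I → ℕ) (x : I) (k : ℕ) : (MvPowerSeries I ℚ)ˣ :=
  ∏ l, (uu a l k) ^ (a x l)

/-- `λ_x = ∑_l C_{lx} x_{l,k}` (equal to `- d log η_x`). -/
noncomputable def lamV (a : I → I → ℕ) (x : I) (k : ℕ) (l : I) : MvPowerSeries I ℚ :=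
  ∑ l', C ((cart a l' x : ℤ) : ℚ) * xv a l' k l

/-- `η_{x,k} = Y_x^k ∏_l U_{lk}^{a x l} / U_{xk}^2`. -/
noncomputable def etaS (a : I → I → ℕ) (x : I) (k : ℕ) : MvPowerSeries I ℚ :=
  (X x) ^ k * ((cU a x k * (uu a x k) ^ (-2 : ℤ) : (MvPowerSeries I ℚ)ˣ) : MvPowerSeries I ℚ)

/-- weight `(P+m-1)! / (P! m!)` (for `P ≥ 1`). -/
def wt (P m : ℕ) : ℚ := ((P + m - 1).factorial : ℚ) / ((P.factorial : ℚ) * (m.factorial : ℚ))

/-- coefficient extraction which is zero for subtraction below zero. -/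
noncomputable def rawSub (γ : I →₀ ℕ) (x : I) (n : ℕ) (F : MvPowerSeries I ℚ)
    (c : I → I → MvPowerSeries I ℚ) : ℚ :=
  if n ≤ γ x then raw (γ - Finsupp.single x n) F c else 0

/-- the sum over the number `m ≥ 1` of factors `η_x` (level `k - 1`), exponent `q` of `U_{x,k-1}`. -/
noncomputable def etaSum (a : I → I → ℕ) (γ : I →₀ ℕ) (x : I) (k : ℕ) (q : ℤ)
    (F : MvPowerSeries I ℚ) (c : I → I → MvPowerSeries I ℚ) : ℚ :=
  ∑ m ∈ Finset.Icc 1 (γ x / (k - 1)), rawSub γ x ((k - 1) * m)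
    (F * (((cU a x (k - 1)) ^ m * (uu a x (k - 1)) ^ (q - 2 * (m : ℤ)) :
      (MvPowerSeries I ℚ)ˣ) : MvPowerSeries I ℚ))
    (Function.update c x (lamV a x (k - 1)))

end Pool.Agent.H27.KAC
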