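import Pool.Agent.H27.KAC.KQRawDefs

/-!
KAC: definitions for the transitions of frontier states.
-/

namespace Pool.Agent.H27.KAC

open scoped BigOperators
open MvPowerSeries

/-- types of vertices: regular, wall in mode `A`, wall in mode `D`. -/
inductive Ty
  | R
  | A
  | D
deriving DecidableEq

section

variable {I : Type} [Fintype I] [DecidableEq I]

noncomputable def facG (a : I → I → ℕ) (κ : I → ℕ) (P p : I → ℤ) : MvPowerSeries I ℚ :=
  ((∏ i, ((uu a i (κ i)) ^ (-(P i)) * (uu a i (κ i - 1)) ^ (p i)) :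
    (MvPowerSeries I ℚ)ˣ) : MvPowerSeries I ℚ)

noncomputable def colG (a : I → I → ℕ) (κ : I → ℕ) (M N : I → I → ℚ) (i l : I) :
    MvPowerSeries I ℚ :=
  ∑ l', C (M l' i) * xv a l' (κ l') l - ∑ l', C (N l' i) * xv a l' (κ l' - 1) l

/-- general frontier integral with columns `∑ M l i u_l - ∑ N l i v_l`. -/
noncomputable def GVal (a : I → I → ℕ) (γ : I →₀ ℕ) (κ : I → ℕ) (P p : I → ℤ)
    (M N : I → I → ℚ) : ℚ :=
  raw γ (facG a κ P p) (colG a κ M N)

/-- shape of a state with respect to the types of its vertices. -/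
structure Shape (a : I → I → ℕ) (σ : Sta I) (ty : I → Ty) : Prop where
  loopfree : ∀ x, ty x ≠ Ty.R → a x x = 0
  P0 : ∀ x, ty x ≠ Ty.R → σ.P x = 0
  p0 : ∀ x, ty x ≠ Ty.R → 0 ≤ σ.p x
  pD : ∀ x, ty x = Ty.D → σ.p x = 0
  row : ∀ x, ty x ≠ Ty.R → ∀ i, i ≠ x → σ.H x i = 0
  col : ∀ x, ty x ≠ Ty.R → ∀ l, l ≠ x → σ.H l x = 0
  diagA : ∀ x, ty x = Ty.A → σ.H x x = 0
  diagD : ∀ x, ty x = Ty.D → σ.H x x = 1
  nonadj : ∀ x y, ty x ≠ Ty.R → ty y ≠ Ty.R → x ≠ y → a x y = 0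

/-- walls at the level of `j`. -/
def wallsAt (σ : Sta I) (ty : I → Ty) (j : I) : Finset I :=
  Finset.univ.filter (fun x => ty x ≠ Ty.R ∧ σ.κ x = σ.κ j)

/-- effective number of arrows `l - j` in the presence of walls. -/
def effA (a : I → I → ℕ) (W : Finset I) (l j : I) : ℚ :=
  (a l j : ℚ) + (∑ x ∈ W, (a x l : ℚ) * (a x j : ℚ)) / 2

/-- effective diagonal entry `2 - a j j - (1/2) ∑ a x j ^ 2`. -/
def effC (a : I → I → ℕ) (W : Finset I) (j : I) : ℚ :=
  2 - (a j j : ℚ) - (∑ x ∈ W, (a x j : ℚ) ^ 2) / 2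

/-- scale used for column `j`: `1` if `m = 0`, else `P_j`. -/
def scl (σ : Sta I) (j : I) (m : ℕ) : ℚ := if m = 0 then 1 else (σ.P j : ℚ)

def kapJ (σ : Sta I) (j : I) : I → ℕ := Function.update σ.κ j (σ.κ j - 1)

def PJ (a : I → I → ℕ) (σ : Sta I) (j : I) (m : ℕ) (l : I) : ℤ :=
  if l = j then 2 * σ.P j - σ.p j + cart a j j * m
  else if σ.κ l + 1 = σ.κ j then σ.P l - (a l j : ℤ) * m else σ.P l

def pJ (a : I → I → ℕ) (σ : Sta I) (j : I) (m : ℕ) (l : I) : ℤ :=
  if l = j then σ.P j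
  else if σ.κ l = σ.κ j then σ.p l + (a l j : ℤ) * m else σ.p l

/-- `H` after turning the `D`-walls adjacent to `j` into `A`-walls (if `m > 0`). -/
def HD (a : I → I → ℕ) (σ : Sta I) (ty : I → Ty) (j : I) (m : ℕ) (l i : I) : ℚ :=
  if ty i = Ty.D ∧ 0 < m ∧ 0 < a i j then 0 else σ.H l i

def tyJ (a : I → I → ℕ) (ty : I → Ty) (j : I) (m : ℕ) (i : I) : Ty :=
  if ty i = Ty.D ∧ 0 < m ∧ 0 < a i j then Ty.A else ty i

def MJ (a : I → I → ℕ) (σ : Sta I) (ty : I → Ty) (j : I) (m : ℕ) (l i : I) : ℚ :=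
  if i = j then
    (if l = j then scl σ j m * (2 - σ.H j j) + m * effC a (wallsAt σ ty j) j
     else if ty l = Ty.R ∧ σ.κ l + 1 = σ.κ j then -(m * effA a (wallsAt σ ty j) l j) else 0)
  else (if l = i then 1 else 0) - (if l = j then σ.H j i else 0)

def NJ (a : I → I → ℕ) (σ : Sta I) (ty : I → Ty) (j : I) (m : ℕ) (l i : I) : ℚ :=
  if i = j then
    (if l = j then scl σ j m
     else scl σ j m * σ.H l j +
       (if ty l = Ty.R ∧ σ.κ l = σ.κ j then m * effA a (wallsAt σ ty j) l j else 0))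
  else (if l = j then 0 else HD a σ ty j m l i)

/-- processed regular vertices. -/
def procd (σ : Sta I) (ty : I → Ty) (j : I) : Finset I :=
  Finset.univ.filter (fun l => l ≠ j ∧ ty l = Ty.R ∧ σ.κ l + 1 = σ.κ j)

def tauJ (a : I → I → ℕ) (σ : Sta I) (ty : I → Ty) (j : I) (m : ℕ) : ℚ :=
  scl σ j m * (2 - σ.H j j) + m * effC a (wallsAt σ ty j) j -
    m * ∑ l ∈ procd σ ty j, effA a (wallsAt σ ty j) l j * σ.H j l

def hJ (a : I → I → ℕ) (σ : Sta I) (ty : I → Ty) (j : I) (m : ℕ) (l : I) : ℚ :=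
  scl σ j m * σ.H l j +
    (if ty l = Ty.R ∧ σ.κ l = σ.κ j then m * effA a (wallsAt σ ty j) l j else 0) +
    m * ∑ l' ∈ procd σ ty j, effA a (wallsAt σ ty j) l' j * σ.H l l'

def HJ (a : I → I → ℕ) (σ : Sta I) (ty : I → Ty) (j : I) (m : ℕ) (l i : I) : ℚ :=
  if i = j then
    (if l = j then scl σ j m / tauJ a σ ty j m else hJ a σ ty j m l / tauJ a σ ty j m)
  else
    (if l = j then σ.H j i * (scl σ j m / tauJ a σ ty j m)
     else HD a σ ty j m l i + σ.H j i * (hJ a σ ty j m l / tauJ a σ ty j m))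

/-- the state after processing the regular vertex `j` with `m` parts. -/
def staJ (a : I → I → ℕ) (σ : Sta I) (ty : I → Ty) (j : I) (m : ℕ) : Sta I where
  κ := kapJ σ j
  P := PJ a σ j m
  p := pJ a σ j m
  H := HJ a σ ty j m

/-- weight of the choice `m` at `j`. -/
def wtJ (σ : Sta I) (j : I) (m : ℕ) : ℚ := if m = 0 then 1 else wt (σ.P j).toNat m

/-- wall creation at `j`. -/
def staCr (a : I → I → ℕ) (σ : Sta I) (j : I) : Sta I where
  κ := σ.κ
  P := σ.P
  p := σ.p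
  H := fun l i => if i = j ∨ l = j then 0 else σ.H l i + (a l j : ℚ) / 2 * σ.H j i

/-- reduction of the power of a wall by two. -/
def staRed (a : I → I → ℕ) (σ : Sta I) (x : I) : Sta I where
  κ := σ.κ
  P := fun l => σ.P l - (a x l : ℤ)
  p := Function.update σ.p x (σ.p x - 2)
  H := σ.H

/-- wall `x` goes down one level, in mode `A`. -/
def staA (σ : Sta I) (x : I) : Sta I where
  κ := Function.update σ.κ x (σ.κ x - 1)
  P := σ.P
  p := σ.p
  H := fun l i => if i = x ∨ l = x then 0 else σ.H l i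

/-- wall `x` goes down one level, in mode `D`. -/
def staD (σ : Sta I) (x : I) : Sta I where
  κ := Function.update σ.κ x (σ.κ x - 1)
  P := σ.P
  p := σ.p
  H := fun l i => if i = x ∧ l = x then 1 else if i = x ∨ l = x then 0 else σ.H l i

/-- wall `x` becomes regular again: `m` factors `η_x`, `e ∈ {0,1}` the power of `U_{x,κ-1}`. -/
def staEm (a : I → I → ℕ) (σ : Sta I) (x : I) (m e : ℕ) : Sta I where
  κ := Function.update σ.κ x (σ.κ x - 1)
  P := fun l => if l = x then 2 * (m : ℤ) - e else σ.P l - (a x l : ℤ) * m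
  p := Function.update σ.p x 0
  H := fun l i => if l = x then 0 else if i = x then (∑ l', (a x l' : ℚ) * σ.H l l') / 2
    else σ.H l i

/-- an odd wall jumps down two levels. -/
def staLag (a : I → I → ℕ) (σ : Sta I) (x : I) : Sta I where
  κ := Function.update σ.κ x (σ.κ x - 2)
  P := fun l => σ.P l - (a x l : ℤ)
  p := fun l => if l = x then 1 else σ.p l - (a x l : ℤ)
  H := fun l i => if i = x ∨ l = x then 0 else σ.H l i

/-- value at `γ - n e_x`, zero if `γ x < n`. -/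
noncomputable def VSub (a : I → I → ℕ) (γ : I →₀ ℕ) (x : I) (n : ℕ) (σ : Sta I) : ℚ :=
  if n ≤ γ x then Val a (γ - Finsupp.single x n) σ else 0

end

end Pool.Agent.H27.KAC
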