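import Pool.Agent.H27.KAC.PII_Full

/-!
Project KAC, part II.1: the number of the surjective matrices with given product.
-/

set_option autoImplicit false

namespace Pool.Agent.H27.KAC

open scoped BigOperators

variable (F : Type) [Field F] [Fintype F]

/-- a subspace with coordinates -/
theorem PII_CExt_split {K V : Type} [Field K] [AddCommGroup V] [Module K V]
    [FiniteDimensional K V] (P : Submodule K V) {a b : ℕ}
    (ha : Module.finrank K P = a) (hb : Module.finrank K V = a + b) :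
    ∃ f : V ≃ₗ[K] ((Fin a → K) × (Fin b → K)), ∀ x, x ∈ P ↔ (f x).2 = 0 := by
  obtain ⟨Q, hQ⟩ := Submodule.exists_isCompl P
  have hsum := Submodule.finrank_add_eq_of_isCompl hQ
  have hQb : Module.finrank K Q = b := by omega
  have e1 : P ≃ₗ[K] (Fin a → K) :=
    LinearEquiv.ofFinrankEq _ _ (by rw [ha]; simp)
  have e2 : Q ≃ₗ[K] (Fin b → K) :=
    LinearEquiv.ofFinrankEq _ _ (by rw [hQb]; simp)
  refine ⟨(Submodule.prodEquivOfIsCompl P Q hQ).symm.trans (e1.prodCongr e2), ?_⟩
  intro x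
  obtain ⟨⟨p, q⟩, rfl⟩ := (Submodule.prodEquivOfIsCompl P Q hQ).surjective x
  rw [LinearEquiv.trans_apply, LinearEquiv.symm_apply_apply, LinearEquiv.prodCongr_apply,
    Submodule.coe_prodEquivOfIsCompl']
  constructor
  · intro h
    have hq : (q : V) ∈ P := by
      have := P.sub_mem h p.2
      simpa using this
    have : (q : V) ∈ P ⊓ Q := ⟨hq, q.2⟩
    rw [hQ.inf_eq_bot] at this
    have hq0 : q = 0 := by
      ext
      simpa using this
    rw [hq0]
    simp
  · intro h
    have hq0 : q = 0 := by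
      apply e2.injective
      rw [map_zero]
      exact h
    rw [hq0]
    simp

/-- an injective map as the first coordinate -/
theorem PII_CExt_ext {K U V : Type} [Field K] [AddCommGroup V] [Module K V]
    [AddCommGroup U] [Module K U] [FiniteDimensional K U] [FiniteDimensional K V]
    (φ : U →ₗ[K] V) (hφ : Function.Injective φ) {b : ℕ}
    (hb : Module.finrank K V = Module.finrank K U + b) :
    ∃ e : (U × (Fin b → K)) ≃ₗ[K] V, ∀ u, e (u, 0) = φ u := by
  obtain ⟨Q, hQ⟩ := Submodule.exists_isCompl (LinearMap.range φ)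
  have hsum := Submodule.finrank_add_eq_of_isCompl hQ
  have hr : Module.finrank K (LinearMap.range φ) = Module.finrank K U :=
    LinearMap.finrank_range_of_inj hφ
  have hQb : Module.finrank K Q = b := by omega
  have e1 : (Fin b → K) ≃ₗ[K] Q :=
    LinearEquiv.ofFinrankEq _ _ (by rw [hQb]; simp)
  refine ⟨((LinearEquiv.ofInjective φ hφ).prodCongr e1).trans
    (Submodule.prodEquivOfIsCompl (LinearMap.range φ) Q hQ), ?_⟩
  intro u
  simp [LinearEquiv.prodCongr_apply, Submodule.coe_prodEquivOfIsCompl']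

/-- the bijection -/
theorem PII_CExt_card {K U V W R Q : Type} [Field K]
    [AddCommGroup U] [Module K U] [AddCommGroup V] [Module K V] [AddCommGroup W] [Module K W]
    [AddCommGroup R] [Module K R] [AddCommGroup Q] [Module K Q]
    (φ : U →ₗ[K] V) (S : U →ₗ[K] U) (e : (U × W) ≃ₗ[K] V) (he : ∀ u, e (u, 0) = φ u)
    (f : U ≃ₗ[K] (R × Q)) (hf : ∀ x, x ∈ LinearMap.range S ↔ (f x).2 = 0) :
    Nonempty ({τ : V →ₗ[K] U // Function.Surjective τ ∧ τ ∘ₗ φ = S} ≃
      ((W →ₗ[K] R) × {Y : W →ₗ[K] Q // Function.Surjective Y})) := by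
  -- the general form
  let mk : (W →ₗ[K] R) → (W →ₗ[K] Q) → (V →ₗ[K] U) := fun Y1 Y2 =>
    (S ∘ₗ LinearMap.fst K U W + f.symm.toLinearMap ∘ₗ (Y1.prod Y2) ∘ₗ LinearMap.snd K U W) ∘ₗ
      e.symm.toLinearMap
  have hmk : ∀ Y1 Y2 u w, mk Y1 Y2 (e (u, w)) = S u + f.symm (Y1 w, Y2 w) := by
    intro Y1 Y2 u w
    simp [mk]
  have hcomp : ∀ Y1 Y2, mk Y1 Y2 ∘ₗ φ = S := by
    intro Y1 Y2
    ext u
    rw [LinearMap.comp_apply, ← he, hmk]
    simp
  have hsurj : ∀ Y1 Y2, Function.Surjective (mk Y1 Y2) ↔ Function.Surjective Y2 := by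
    intro Y1 Y2
    constructor
    · intro h q
      obtain ⟨v, hv⟩ := h (f.symm (0, q))
      obtain ⟨⟨u, w⟩, rfl⟩ := e.surjective v
      rw [hmk] at hv
      refine ⟨w, ?_⟩
      have h2 := congrArg (fun x => (f x).2) hv
      simp only [map_add, LinearEquiv.apply_symm_apply, Prod.snd_add] at h2
      have h3 : (f (S u)).2 = 0 := (hf _).1 ⟨u, rfl⟩
      rw [h3, zero_add] at h2
      exact h2
    · intro h x
      obtain ⟨w, hw⟩ := h (f x).2
      have h1 : x - f.symm (Y1 w, Y2 w) ∈ LinearMap.range S := by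
        rw [hf]
        simp [hw]
      obtain ⟨u, hu⟩ := h1
      refine ⟨e (u, w), ?_⟩
      rw [hmk, hu]
      abel
  refine ⟨{
    toFun := fun τ =>
      (LinearMap.fst K R Q ∘ₗ f.toLinearMap ∘ₗ τ.1 ∘ₗ e.toLinearMap ∘ₗ LinearMap.inr K U W,
        ⟨LinearMap.snd K R Q ∘ₗ f.toLinearMap ∘ₗ τ.1 ∘ₗ e.toLinearMap ∘ₗ LinearMap.inr K U W, ?_⟩)
    invFun := fun Y => ⟨mk Y.1 Y.2.1, (hsurj _ _).2 Y.2.2, hcomp _ _⟩
    left_inv := ?_
    right_inv := ?_ }⟩
  · intro q
    obtain ⟨v, hv⟩ := τ.2.1 (f.symm (0, q))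
    obtain ⟨⟨u, w⟩, rfl⟩ := e.surjective v
    refine ⟨w, ?_⟩
    have h1 : (u, w) = (u, (0 : W)) + ((0 : U), w) := by simp
    rw [h1, map_add, map_add, he] at hv
    have h2 : τ.1 (φ u) = S u := by
      rw [← LinearMap.comp_apply, τ.2.2]
    rw [h2] at hv
    have h3 := congrArg (fun x => (f x).2) hv
    simp only [map_add, LinearEquiv.apply_symm_apply, Prod.snd_add] at h3
    have h4 : (f (S u)).2 = 0 := (hf _).1 ⟨u, rfl⟩
    rw [h4, zero_add] at h3
    simpa using h3
  · intro τ
    apply Subtype.ext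
    apply LinearMap.ext
    intro v
    obtain ⟨⟨u, w⟩, rfl⟩ := e.surjective v
    have h1 : (u, w) = (u, (0 : W)) + ((0 : U), w) := by simp
    have h2 : τ.1 (φ u) = S u := by
      rw [← LinearMap.comp_apply, τ.2.2]
    show mk _ _ (e (u, w)) = τ.1 (e (u, w))
    rw [hmk]
    conv_rhs => rw [h1, map_add, map_add, he, h2]
    congr 1
    apply f.injective
    rw [LinearEquiv.apply_symm_apply]
    rfl
  · intro Y
    obtain ⟨Y1, Y2, hY⟩ := Y
    refine Prod.ext ?_ (Subtype.ext ?_)
    · apply LinearMap.ext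
      intro w
      show (f (mk Y1 Y2 (e (0, w)))).1 = Y1 w
      rw [hmk]
      simp
    · apply LinearMap.ext
      intro w
      show (f (mk Y1 Y2 (e (0, w)))).2 = Y2 w
      rw [hmk]
      simp

/-- surjective and full rank -/
theorem PII_CExt_surj {K : Type} [Field K] {m n : ℕ} (M : Matrix (Fin m) (Fin n) K) :
    Function.Surjective M.mulVecLin ↔ M.rank = m := by
  rw [← LinearMap.range_eq_top, Matrix.rank]
  constructor
  · intro h
    rw [h]
    simp
  · intro h
    apply Submodule.eq_top_of_finrank_eq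
    rw [h]
    simp

/-- injective and full rank -/
theorem PII_CExt_inj {K : Type} [Field K] {m n : ℕ} (M : Matrix (Fin m) (Fin n) K)
    (h : M.rank = n) : Function.Injective M.mulVecLin := by
  rw [← LinearMap.ker_eq_bot]
  have h1 := LinearMap.finrank_range_add_finrank_ker M.mulVecLin
  have h2 : Module.finrank K (LinearMap.range M.mulVecLin) = n := h
  rw [h2] at h1
  have h3 : Module.finrank K (LinearMap.ker M.mulVecLin) = 0 := by
    have : Module.finrank K (Fin n → K) = n := by simp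
    omega
  exact Submodule.finrank_eq_zero.1 h3

/-- The number of the surjective `τ` with given `τ * φ = S`.  Choose `g ∈ GL_n` with
`g * φ = (1; 0)` and replace `τ` by `τ * g⁻¹`: then `τ = (S | Y)` with an arbitrary `r × (n - r)` matrix
`Y`, and `τ` has rank `r` iff the map `F^(n-r) → F^r / im S` induced by `Y` is surjective
(`F^r / im S` has dimension `s`; `card_full'`, and each map to the quotient has `q^((n-r)(r-s))` lifts). -/
theorem card_ext {n r s : ℕ} {φ : Matrix (Fin n) (Fin r) F} (hφ : φ.rank = r)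
    {S : Matrix (Fin r) (Fin r) F} (hs : S.rank + s = r) :
    (Nat.card {τ : Matrix (Fin r) (Fin n) F // τ.rank = r ∧ τ * φ = S} : ℚ) =
      (Fintype.card F : ℚ) ^ ((n - r) * (r - s)) *
        ∏ i ∈ Finset.range s, ((Fintype.card F : ℚ) ^ (n - r) - (Fintype.card F : ℚ) ^ i) := by
  have hrn : r ≤ n := by
    have := Matrix.rank_le_height φ
    omega
  obtain ⟨e, he⟩ := PII_CExt_ext φ.mulVecLin (PII_CExt_inj φ hφ) (b := n - r)
    (by simp; omega)
  obtain ⟨f, hf⟩ := PII_CExt_split (K := F) (V := Fin r → F) (LinearMap.range S.mulVecLin)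
    (a := r - s) (b := s) (by
      have h : Module.finrank F (LinearMap.range S.mulVecLin) = S.rank := rfl
      rw [h]; omega) (by simp; omega)
  obtain ⟨E⟩ := PII_CExt_card φ.mulVecLin S.mulVecLin e he f hf
  -- the set of matrices
  have E1 : {τ : Matrix (Fin r) (Fin n) F // τ.rank = r ∧ τ * φ = S} ≃
      {τ : (Fin n → F) →ₗ[F] (Fin r → F) // Function.Surjective τ ∧ τ ∘ₗ φ.mulVecLin =
        S.mulVecLin} := by
    refine (Matrix.toLin' (R := F) (m := Fin r) (n := Fin n)).toEquiv.subtypeEquiv ?_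
    intro M
    rw [← PII_CExt_surj M]
    have h1 : (Matrix.toLin' (R := F) (m := Fin r) (n := Fin n)).toEquiv M = M.mulVecLin := rfl
    rw [h1, ← Matrix.mulVecLin_mul]
    constructor
    · rintro ⟨h2, h3⟩
      exact ⟨h2, by rw [h3]⟩
    · rintro ⟨h2, h3⟩
      refine ⟨h2, ?_⟩
      apply Matrix.toLin'.injective
      exact h3
  have E2 : {Y : (Fin (n - r) → F) →ₗ[F] (Fin s → F) // Function.Surjective Y} ≃
      {M : Matrix (Fin s) (Fin (n - r)) F // M.rank = s} := by
    refine ((Matrix.toLin' (R := F) (m := Fin s) (n := Fin (n - r))).toEquiv.subtypeEquiv ?_).symm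
    intro M
    rw [← PII_CExt_surj M]
    rfl
  rw [Nat.card_congr E1, Nat.card_congr E, Nat.card_prod, Nat.card_congr E2, Nat.cast_mul,
    card_full' F (n - r) s]
  congr 1
  have E3 : ((Fin (n - r) → F) →ₗ[F] (Fin (r - s) → F)) ≃ Matrix (Fin (r - s)) (Fin (n - r)) F :=
    (Matrix.toLin' (R := F) (m := Fin (r - s)) (n := Fin (n - r))).symm.toEquiv
  rw [Nat.card_congr E3]
  have h4 : Nat.card (Matrix (Fin (r - s)) (Fin (n - r)) F) =
      Fintype.card F ^ ((n - r) * (r - s)) := by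
    have h5 : Nat.card (Matrix (Fin (r - s)) (Fin (n - r)) F) =
        Nat.card (Fin (r - s) → Fin (n - r) → F) := rfl
    rw [h5, Nat.card_eq_fintype_card]
    simp [← pow_mul]
  rw [h4]
  push_cast
  rfl

end Pool.Agent.H27.KAC
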