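import Pool.Agent.H27.KAC.PI_Base

/-!
Project KAC, part II: multipartitions and the coefficients of the fermionic sum.
-/

set_option autoImplicit false

namespace Pool.Agent.H27.KAC

open scoped BigOperators

/-- `(i, k)` stands for a part of size `k + 1` at the vertex `i`. -/
abbrev Prt (I : Type) : Type := I × ℕ

/-- The weight of one part. -/
noncomputable def pwt {I : Type} (a : Prt I) : I →₀ ℕ := Finsupp.single a.1 (a.2 + 1)

/-- The weight of a multipartition: `m (i, k)` parts of size `k + 1` at `i`. -/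
noncomputable def mwt {I : Type} (m : Prt I →₀ ℕ) : I →₀ ℕ :=
  m.sum fun a x => x • pwt a

/-- The scalar product of a vector `n` and a multipartition. -/
noncomputable def dotm {I : Type} (n : Prt I → ℤ) (m : Prt I →₀ ℕ) : ℤ :=
  m.sum fun a x => n a * (x : ℤ)

/-- `(q⁻¹; q⁻¹)_x`. -/
def qpoch {K : Type} [Field K] (q : K) (x : ℕ) : K :=
  ∏ j ∈ Finset.range x, (1 - (q⁻¹) ^ (j + 1))

section

variable {I : Type} [DecidableEq I]

/-- The matrix `B`: `B_(i,k),(j,l) = C_ij min(k + 1, l + 1)`. -/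
def Bm (A : I → I → ℕ) (a b : Prt I) : ℤ :=
  cart A a.1 b.1 * ((min (a.2 + 1) (b.2 + 1) : ℕ) : ℤ)

/-- Half of the quadratic form `m B m`. -/
noncomputable def hq (A : I → I → ℕ) (m : Prt I →₀ ℕ) : ℤ :=
  (m.sum fun a x => (x : ℤ) * dotm (Bm A a) m) / 2

/-- The coefficients of the fermionic sum. -/
noncomputable def cc {K : Type} [Field K] (q : K) (A : I → I → ℕ) (m : Prt I →₀ ℕ) : K :=
  q ^ (-(hq A m)) * m.prod fun _ x => (qpoch q x)⁻¹

end

theorem PII_Def.mul_le {I : Type} (m : Prt I →₀ ℕ) (a : Prt I) :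
    m a * (a.2 + 1) ≤ mwt m a.1 := by
  by_cases ha : m a = 0
  · rw [ha, zero_mul]
    exact Nat.zero_le _
  · have h1 : mwt m a.1 = ∑ b ∈ m.support, (m b • pwt b) a.1 := by
      unfold mwt Finsupp.sum
      rw [Finsupp.finsetSum_apply]
    rw [h1]
    have h2 := Finset.single_le_sum (f := fun b => (m b • pwt b) a.1)
      (fun _ _ => Nat.zero_le _) (Finsupp.mem_support_iff.2 ha)
    refine le_trans (le_of_eq ?_) h2
    simp only [pwt, Finsupp.smul_apply, Finsupp.single_eq_same, smul_eq_mul]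

/-- Each weight is the weight of finitely many multipartitions: for `mwt m = α` and `m (i, k) ≠ 0` one
has `(k + 1) * m (i, k) ≤ α i`, so `m` is in
`Finset.finsupp (α.support ×ˢ range (degree α)) fun _ => range (degree α + 1)`. -/
theorem finite_mwt {I : Type} (α : I →₀ ℕ) : {m : Prt I →₀ ℕ | mwt m = α}.Finite := by
  classical
  refine Set.Finite.subset (Finset.finite_toSet (Finset.finsupp
    (α.support ×ˢ Finset.range (Finsupp.degree α))
    fun _ => Finset.range (Finsupp.degree α + 1))) ?_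
  intro m hm
  have hm' : mwt m = α := hm
  have key : ∀ a : Prt I, m a * (a.2 + 1) ≤ α a.1 := fun a => hm' ▸ PII_Def.mul_le m a
  have hdeg : ∀ i, α i ≤ Finsupp.degree α := fun i => Finsupp.le_degree i α
  rw [Finset.mem_coe, Finset.mem_finsupp_iff]
  constructor
  · intro a ha
    have h1 : 1 ≤ m a := Nat.one_le_iff_ne_zero.2 (Finsupp.mem_support_iff.1 ha)
    have h2 := key a
    have h3 : a.2 + 1 ≤ α a.1 := by nlinarith
    rw [Finset.mem_product]
    refine ⟨Finsupp.mem_support_iff.2 (by omega), Finset.mem_range.2 ?_⟩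
    have := hdeg a.1
    omega
  · intro a _
    rw [Finset.mem_range]
    have h2 := key a
    have h3 := hdeg a.1
    nlinarith

/-- The multipartitions of weight `α`. -/
noncomputable def mps {I : Type} (α : I →₀ ℕ) : Finset (Prt I →₀ ℕ) := (finite_mwt α).toFinset

theorem mem_mps {I : Type} {α : I →₀ ℕ} {m : Prt I →₀ ℕ} : m ∈ mps α ↔ mwt m = α := by
  unfold mps
  rw [Set.Finite.mem_toFinset]
  exact Iff.rfl

/-- The series `∑_m q^(n . m) c(m) X^(wt m)`. -/
noncomputable def Fs {I : Type} [DecidableEq I] {K : Type} [Field K] (q : K) (A : I → I → ℕ)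
    (n : Prt I → ℤ) : MvPowerSeries I K :=
  fun α => ∑ m ∈ mps α, q ^ (dotm n m) * cc q A m

end Pool.Agent.H27.KAC
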