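import Pool.Agent.H27.KAC.IDefs
import Mathlib

/-!
Project KAC, part II.3: Euler derivations and scaling of the variables of power series.
-/

set_option autoImplicit false

namespace Pool.Agent.H27.KAC

open scoped BigOperators

variable {I R S : Type} [CommRing R] [CommRing S]

theorem pii_coeff_eul (j : I) (f : MvPowerSeries I R) (d : I →₀ ℕ) :
    MvPowerSeries.coeff d (eul j f) = (d j : R) * MvPowerSeries.coeff d f := rfl

theorem pii_eul_one (j : I) : eul j (1 : MvPowerSeries I R) = 0 := by
  classical
  ext d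
  rw [pii_coeff_eul, MvPowerSeries.coeff_one, map_zero]
  split_ifs with h
  · rw [h]
    simp
  · rw [mul_zero]

/-- The product rule. -/
theorem pii_eul_mul (j : I) (f g : MvPowerSeries I R) : eul j (f * g) = eul j f * g + f * eul j g := by
  classical
  ext d
  rw [pii_coeff_eul, map_add, MvPowerSeries.coeff_mul, MvPowerSeries.coeff_mul,
    MvPowerSeries.coeff_mul, Finset.mul_sum, ← Finset.sum_add_distrib]
  refine Finset.sum_congr rfl fun x hx => ?_
  rw [Finset.HasAntidiagonal.mem_antidiagonal] at hx
  rw [pii_coeff_eul, pii_coeff_eul, ← hx, Finsupp.add_apply]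
  push_cast
  ring

theorem eul_map (φ : R →+* S) (j : I) (f : MvPowerSeries I R) :
    MvPowerSeries.map φ (eul j f) = eul j (MvPowerSeries.map φ f) := by
  ext d
  rw [pii_coeff_eul, MvPowerSeries.coeff_map, MvPowerSeries.coeff_map, pii_coeff_eul, map_mul,
    map_natCast]

/-- The substitution `X_i ↦ c X_i`. -/
noncomputable def pscl (c : R) (i : I) (f : MvPowerSeries I R) : MvPowerSeries I R :=
  fun d => c ^ (d i) * MvPowerSeries.coeff d f

theorem coeff_pscl (c : R) (i : I) (f : MvPowerSeries I R) (d : I →₀ ℕ) :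
    MvPowerSeries.coeff d (pscl c i f) = c ^ (d i) * MvPowerSeries.coeff d f := rfl

theorem pscl_mul (c : R) (i : I) (f g : MvPowerSeries I R) :
    pscl c i (f * g) = pscl c i f * pscl c i g := by
  classical
  ext d
  rw [coeff_pscl, MvPowerSeries.coeff_mul, MvPowerSeries.coeff_mul, Finset.mul_sum]
  refine Finset.sum_congr rfl fun x hx => ?_
  rw [Finset.HasAntidiagonal.mem_antidiagonal] at hx
  rw [coeff_pscl, coeff_pscl, ← hx, Finsupp.add_apply, pow_add]
  ring

theorem eul_pscl (c : R) (i j : I) (f : MvPowerSeries I R) :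
    eul j (pscl c i f) = pscl c i (eul j f) := by
  ext d
  rw [pii_coeff_eul, coeff_pscl, coeff_pscl, pii_coeff_eul]
  ring

/-- If `eul j f = f * g` and `f * f' = 1` then
`eul j (pscl c i f * f') = (pscl c i f * f') * (pscl c i g - g)`. -/
theorem eul_quot (c : R) (i j : I) {f f' g : MvPowerSeries I R} (h : eul j f = f * g)
    (h' : f * f' = 1) : eul j (pscl c i f * f') = (pscl c i f * f') * (pscl c i g - g) := by
  have h1 : eul j f * f' + f * eul j f' = 0 := by rw [← pii_eul_mul, h', pii_eul_one]
  rw [h] at h1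
  have h2 : eul j f' = -(g * f') := by
    have h3 : f' * (f * g * f' + f * eul j f') = 0 := by rw [h1, mul_zero]
    have h4 : f' * (f * g * f' + f * eul j f') = (f * f') * (g * f' + eul j f') := by ring
    rw [h4, h', one_mul] at h3
    exact eq_neg_of_add_eq_zero_right h3
  rw [pii_eul_mul, eul_pscl, h, pscl_mul, h2]
  ring

end Pool.Agent.H27.KAC
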