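import Pool.Agent.H27.KAC.PII_Part

/-!
Project KAC, part II.1: multipartitions and their columns.
-/

set_option autoImplicit false

namespace Pool.Agent.H27.KAC

open scoped BigOperators

variable {I E : Type} [Fintype I] [DecidableEq I] [Fintype E]

/-- The partition at the vertex `i`. -/
noncomputable def mcol (m : Prt I →₀ ℕ) (i : I) : ℕ →₀ ℕ :=
  Finsupp.comapDomain (fun k => (i, k)) m (fun _ _ _ _ h => (Prod.mk.inj h).2)

omit [Fintype I] [DecidableEq I] in
theorem exp_mcol_apply (m : Prt I →₀ ℕ) (i : I) (k : ℕ) : mcol m i k = m (i, k) := rfl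

omit [DecidableEq I] in
theorem exp_finite (g : I → ℕ →₀ ℕ) :
    (Function.support fun a : Prt I => g a.1 a.2).Finite := by
  refine Set.Finite.subset (s := ⋃ i : I, (Prod.mk i) '' ((g i).support : Set ℕ)) ?_ ?_
  · exact Set.finite_iUnion fun i => ((g i).support.finite_toSet).image _
  · rintro ⟨i, k⟩ h
    rw [Set.mem_iUnion]
    refine ⟨i, k, ?_, rfl⟩
    rw [Finset.mem_coe, Finsupp.mem_support_iff]
    exact h

/-- Multipartitions are families of partitions. -/
noncomputable def mcolEquiv (I : Type) [Fintype I] [DecidableEq I] :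
    (Prt I →₀ ℕ) ≃ (I → ℕ →₀ ℕ) where
  toFun m i := mcol m i
  invFun g := Finsupp.ofSupportFinite (fun a => g a.1 a.2) (by exact exp_finite g)
  left_inv := by
    intro m
    ext a
    rfl
  right_inv := by
    intro g
    funext i
    ext k
    rfl

omit [Fintype I] [DecidableEq I] in
theorem exp_mcol_zero (i : I) : mcol (0 : Prt I →₀ ℕ) i = 0 := by
  ext k
  rfl

omit [Fintype I] [DecidableEq I] in
theorem exp_mcol_add (m m' : Prt I →₀ ℕ) (i : I) : mcol (m + m') i = mcol m i + mcol m' i := by
  ext k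
  rfl

omit [Fintype I] in
theorem exp_mcol_single (a : Prt I) (x : ℕ) (i : I) :
    mcol (Finsupp.single a x) i = if a.1 = i then Finsupp.single a.2 x else 0 := by
  ext k
  rw [exp_mcol_apply]
  split_ifs with h
  · subst h
    rw [Finsupp.single_apply, Finsupp.single_apply]
    obtain ⟨j, l⟩ := a
    simp
  · rw [Finsupp.single_apply, if_neg]
    · rfl
    · intro h'
      exact h (by rw [h'])

theorem exp_psize_add (μ ν : ℕ →₀ ℕ) : psize (μ + ν) = psize μ + psize ν := by
  unfold psize
  exact Finsupp.sum_add_index' (fun _ => by simp) (fun _ _ _ => by ring)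

theorem exp_psize_zero : psize 0 = 0 := by
  unfold psize
  exact Finsupp.sum_zero_index

theorem exp_psize_single (k x : ℕ) : psize (Finsupp.single k x) = (k + 1) * x := by
  unfold psize
  exact Finsupp.sum_single_index (by simp)

omit [Fintype I] [DecidableEq I] in
theorem exp_mwt_add (m m' : Prt I →₀ ℕ) : mwt (m + m') = mwt m + mwt m' := by
  unfold mwt
  exact Finsupp.sum_add_index' (fun _ => by simp) (fun _ _ _ => by rw [add_smul])

omit [Fintype I] [DecidableEq I] in
theorem exp_mwt_single (a : Prt I) (x : ℕ) : mwt (Finsupp.single a x) = x • pwt a := by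
  unfold mwt
  exact Finsupp.sum_single_index (by simp)

theorem psize_mcol (m : Prt I →₀ ℕ) (i : I) : psize (mcol m i) = mwt m i := by
  induction m using Finsupp.induction_linear with
  | zero =>
    rw [exp_mcol_zero, exp_psize_zero]
    unfold mwt
    rw [Finsupp.sum_zero_index]
    rfl
  | add f g hf hg =>
    rw [exp_mcol_add, exp_psize_add, exp_mwt_add, Finsupp.add_apply, hf, hg]
  | single a x =>
    rw [exp_mcol_single, exp_mwt_single, Finsupp.smul_apply]
    unfold pwt
    rw [Finsupp.single_apply]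
    split_ifs with h
    · rw [exp_psize_single, smul_eq_mul, mul_comm]
    · rw [exp_psize_zero, smul_zero]

theorem prod_mcol {M : Type} [CommMonoid M] (f : ℕ → M) (h : f 0 = 1) (m : Prt I →₀ ℕ) :
    (m.prod fun _ x => f x) = ∏ i, (mcol m i).prod fun _ x => f x := by
  classical
  have h1 : (m.prod fun _ x => f x) =
      ∏ a ∈ (Finset.univ : Finset I) ×ˢ (m.support.image Prod.snd), f (m a) := by
    refine Finsupp.prod_of_support_subset m ?_ _ (fun _ _ => h)
    intro a ha
    exact Finset.mem_product.2 ⟨Finset.mem_univ _, Finset.mem_image_of_mem _ ha⟩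
  rw [h1, Finset.prod_product]
  refine Finset.prod_congr rfl fun i _ => ?_
  symm
  refine Finsupp.prod_of_support_subset (mcol m i) ?_ _ (fun _ _ => h)
  intro k hk
  rw [Finsupp.mem_support_iff, exp_mcol_apply] at hk
  exact Finset.mem_image.2 ⟨(i, k), Finsupp.mem_support_iff.2 hk, rfl⟩

theorem exp_mlam_zero_left (ν : ℕ →₀ ℕ) : mlam 0 ν = 0 := by
  unfold mlam
  exact Finsupp.sum_zero_index

theorem exp_mlam_zero_right (μ : ℕ →₀ ℕ) : mlam μ 0 = 0 := by
  unfold mlam
  simp

theorem exp_mlam_add_left (μ μ' ν : ℕ →₀ ℕ) : mlam (μ + μ') ν = mlam μ ν + mlam μ' ν := by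
  unfold mlam
  refine Finsupp.sum_add_index' (fun _ => by simp) (fun k x y => ?_)
  unfold Finsupp.sum
  rw [← Finset.sum_add_distrib]
  exact Finset.sum_congr rfl fun l _ => by ring

theorem exp_mlam_add_right (μ ν ν' : ℕ →₀ ℕ) : mlam μ (ν + ν') = mlam μ ν + mlam μ ν' := by
  unfold mlam
  rw [← Finsupp.sum_add]
  refine Finsupp.sum_congr fun k _ => ?_
  exact Finsupp.sum_add_index' (fun _ => by simp) (fun l x y => by ring)

theorem exp_mlam_single (k l x y : ℕ) :
    mlam (Finsupp.single k x) (Finsupp.single l y) = min (k + 1) (l + 1) * (x * y) := by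
  unfold mlam
  rw [Finsupp.sum_single_index, Finsupp.sum_single_index]
  · simp
  · simp

omit [Fintype I] [DecidableEq I] in
theorem exp_dotm_add (n : Prt I → ℤ) (m m' : Prt I →₀ ℕ) :
    dotm n (m + m') = dotm n m + dotm n m' := by
  unfold dotm
  exact Finsupp.sum_add_index' (fun _ => by simp) (fun _ _ _ => by push_cast; ring)

omit [Fintype I] [DecidableEq I] in
theorem exp_dotm_zero (n : Prt I → ℤ) : dotm n 0 = 0 := by
  unfold dotm
  exact Finsupp.sum_zero_index

omit [Fintype I] [DecidableEq I] in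
theorem exp_dotm_single (n : Prt I → ℤ) (a : Prt I) (x : ℕ) :
    dotm n (Finsupp.single a x) = n a * (x : ℤ) := by
  unfold dotm
  exact Finsupp.sum_single_index (by simp)

/-- The bilinear form. -/
theorem exp_bilin (A : I → I → ℕ) (m m' : Prt I →₀ ℕ) :
    (m.sum fun a x => (x : ℤ) * dotm (Bm A a) m') =
      ∑ i, ∑ j, cart A i j * ((mlam (mcol m i) (mcol m' j) : ℕ) : ℤ) := by
  induction m using Finsupp.induction_linear with
  | zero =>
    rw [Finsupp.sum_zero_index]
    symm
    refine Finset.sum_eq_zero fun i _ => Finset.sum_eq_zero fun j _ => ?_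
    rw [exp_mcol_zero, exp_mlam_zero_left, Nat.cast_zero, mul_zero]
  | add f g hf hg =>
    rw [Finsupp.sum_add_index' (fun _ => by simp) (fun _ _ _ => by push_cast; ring), hf, hg,
      ← Finset.sum_add_distrib]
    refine Finset.sum_congr rfl fun i _ => ?_
    rw [← Finset.sum_add_distrib]
    refine Finset.sum_congr rfl fun j _ => ?_
    rw [exp_mcol_add, exp_mlam_add_left]
    push_cast
    ring
  | single a x =>
    rw [Finsupp.sum_single_index (by simp)]
    induction m' using Finsupp.induction_linear with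
    | zero =>
      rw [exp_dotm_zero, mul_zero]
      symm
      refine Finset.sum_eq_zero fun i _ => Finset.sum_eq_zero fun j _ => ?_
      rw [exp_mcol_zero, exp_mlam_zero_right, Nat.cast_zero, mul_zero]
    | add f g hf hg =>
      rw [exp_dotm_add, mul_add, hf, hg, ← Finset.sum_add_distrib]
      refine Finset.sum_congr rfl fun i _ => ?_
      rw [← Finset.sum_add_distrib]
      refine Finset.sum_congr rfl fun j _ => ?_
      rw [exp_mcol_add, exp_mlam_add_right]
      push_cast
      ring
    | single b y =>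
      rw [exp_dotm_single]
      rw [Finset.sum_eq_single a.1, Finset.sum_eq_single b.1]
      · rw [exp_mcol_single, exp_mcol_single, if_pos rfl, if_pos rfl, exp_mlam_single]
        unfold Bm
        push_cast
        ring
      · intro j _ hj
        rw [exp_mcol_single b, if_neg (fun h => hj h.symm), exp_mlam_zero_right, Nat.cast_zero,
          mul_zero]
      · intro h
        exact absurd (Finset.mem_univ _) h
      · intro i _ hi
        refine Finset.sum_eq_zero fun j _ => ?_
        rw [exp_mcol_single a, if_neg (fun h => hi h.symm), exp_mlam_zero_left, Nat.cast_zero,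
          mul_zero]
      · intro h
        exact absurd (Finset.mem_univ _) h

/-- `m B m = ∑_ij C_ij ∑_kl min(k + 1, l + 1) m_ik m_jl`. -/
theorem sum_dotm_Bm (A : I → I → ℕ) (m : Prt I →₀ ℕ) :
    (m.sum fun a x => (x : ℤ) * dotm (Bm A a) m) =
      ∑ i, ∑ j, cart A i j * ((mlam (mcol m i) (mcol m j) : ℕ) : ℤ) := by
  exact exp_bilin A m m

theorem exp_sum_card (s t : E → I) (f : I → I → ℤ) :
    ∑ i, ∑ j, ((Finset.univ.filter (fun e : E => s e = i ∧ t e = j)).card : ℤ) * f i j =
      ∑ e : E, f (s e) (t e) := by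
  have h : ∀ i j, ((Finset.univ.filter (fun e : E => s e = i ∧ t e = j)).card : ℤ) * f i j =
      ∑ e : E, if s e = i then (if t e = j then f i j else 0) else 0 := by
    intro i j
    rw [Finset.card_filter, Nat.cast_sum, Finset.sum_mul]
    refine Finset.sum_congr rfl fun e _ => ?_
    by_cases h1 : s e = i
    · by_cases h2 : t e = j
      · simp [h1, h2]
      · simp [h1, h2]
    · simp [h1]
  simp_rw [h]
  have h3 : ∀ i, ∑ j, ∑ e : E, (if s e = i then (if t e = j then f i j else 0) else 0) =
      ∑ e : E, if s e = i then f i (t e) else 0 := by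
    intro i
    rw [Finset.sum_comm]
    refine Finset.sum_congr rfl fun e _ => ?_
    split_ifs with h1
    · simp
    · simp
  simp_rw [h3]
  rw [Finset.sum_comm]
  refine Finset.sum_congr rfl fun e _ => ?_
  simp

/-- `∑_ij adj_ij f i j = 2 ∑_e f (tgt e) (src e)` for symmetric `f`. -/
theorem sum_adj (Q : Quiv I E) (f : I → I → ℤ) (hf : ∀ i j, f i j = f j i) :
    ∑ i, ∑ j, (adj Q i j : ℤ) * f i j = 2 * ∑ e : E, f (Q.tgt e) (Q.src e) := by
  unfold adj
  push_cast
  simp_rw [add_mul, Finset.sum_add_distrib]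
  rw [exp_sum_card Q.src Q.tgt f]
  have h2 : ∑ i, ∑ j, ((Finset.univ.filter (fun e : E => Q.src e = j ∧ Q.tgt e = i)).card : ℤ) *
      f i j = ∑ e : E, f (Q.tgt e) (Q.src e) := by
    rw [← exp_sum_card Q.tgt Q.src f]
    refine Finset.sum_congr rfl fun i _ => Finset.sum_congr rfl fun j _ => ?_
    congr 3
    ext e
    simp only [Finset.mem_filter, Finset.mem_univ, true_and]
    exact and_comm
  rw [h2, two_mul]
  congr 1
  exact Finset.sum_congr rfl fun e _ => hf _ _

theorem adj_symm (Q : Quiv I E) (i j : I) : adj Q i j = adj Q j i := by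
  unfold adj
  rw [add_comm]

theorem adj_even (Q : Quiv I E) (i : I) : Even (adj Q i i) := by
  unfold adj
  exact ⟨_, rfl⟩

theorem neg_hq (Q : Quiv I E) (m : Prt I →₀ ℕ) :
    -(hq (adj Q) m) = ((∑ e : E, mlam (mcol m (Q.tgt e)) (mcol m (Q.src e)) : ℕ) : ℤ) -
      ((∑ i, mlam (mcol m i) (mcol m i) : ℕ) : ℤ) := by
  unfold hq
  rw [sum_dotm_Bm]
  have h1 : ∑ i, ∑ j, cart (adj Q) i j * ((mlam (mcol m i) (mcol m j) : ℕ) : ℤ) =
      2 * ∑ i, ((mlam (mcol m i) (mcol m i) : ℕ) : ℤ) -
        2 * ∑ e : E, ((mlam (mcol m (Q.tgt e)) (mcol m (Q.src e)) : ℕ) : ℤ) := by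
    rw [← sum_adj Q (fun i j => ((mlam (mcol m i) (mcol m j) : ℕ) : ℤ))
      (fun i j => by rw [mlam_comm]), Finset.mul_sum, ← Finset.sum_sub_distrib]
    refine Finset.sum_congr rfl fun i _ => ?_
    unfold cart
    simp_rw [sub_mul, Finset.sum_sub_distrib]
    congr 1
    simp
  rw [h1]
  push_cast
  rw [← mul_sub, Int.mul_ediv_cancel_left _ (by norm_num)]
  ring

end Pool.Agent.H27.KAC
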