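import Pool.Agent.H27.KAC.PII_Typ

/-!
Project KAC, part II.1: rank factorizations.
-/

set_option autoImplicit false

namespace Pool.Agent.H27.KAC

open scoped BigOperators

variable {n r : ℕ} {F : Type} [Field F]

/-- A matrix of full column rank has a left inverse. -/
theorem PII_Fac_left (φ : Matrix (Fin n) (Fin r) F) (h : φ.rank = r) :
    ∃ L : Matrix (Fin r) (Fin n) F, L * φ = 1 := by
  have hinj : Function.Injective φ.mulVecLin := by
    rw [← LinearMap.ker_eq_bot]
    have h1 := LinearMap.finrank_range_add_finrank_ker φ.mulVecLin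
    have h2 : Module.finrank F (LinearMap.range φ.mulVecLin) = r := h
    rw [h2, Module.finrank_fintype_fun_eq_card, Fintype.card_fin] at h1
    exact Submodule.finrank_eq_zero.1 (by omega)
  obtain ⟨g, hg⟩ := LinearMap.exists_leftInverse_of_injective φ.mulVecLin
    (LinearMap.ker_eq_bot.2 hinj)
  refine ⟨LinearMap.toMatrix' g, ?_⟩
  have h3 : LinearMap.toMatrix' (g ∘ₗ φ.mulVecLin) = LinearMap.toMatrix' g * φ := by
    rw [LinearMap.toMatrix'_comp]
    congr 1
    rw [← Matrix.toLin'_apply', LinearMap.toMatrix'_toLin']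
  rw [← h3, hg]
  exact LinearMap.toMatrix'_id

/-- A matrix of full row rank has a right inverse. -/
theorem PII_Fac_right (τ : Matrix (Fin r) (Fin n) F) (h : τ.rank = r) :
    ∃ R : Matrix (Fin n) (Fin r) F, τ * R = 1 := by
  obtain ⟨L, hL⟩ := PII_Fac_left τ.transpose (by rw [Matrix.rank_transpose]; exact h)
  refine ⟨L.transpose, ?_⟩
  have := congrArg Matrix.transpose hL
  rwa [Matrix.transpose_mul, Matrix.transpose_transpose, Matrix.transpose_one] at this

/-- Rank factorization. -/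
theorem exists_fac (T : Matrix (Fin n) (Fin n) F) (h : T.rank = r) :
    ∃ (φ : Matrix (Fin n) (Fin r) F) (τ : Matrix (Fin r) (Fin n) F),
      φ.rank = r ∧ τ.rank = r ∧ φ * τ = T := by
  have hr : Module.finrank F (LinearMap.range T.mulVecLin) = Module.finrank F (Fin r → F) := by
    rw [Module.finrank_fintype_fun_eq_card, Fintype.card_fin]
    exact h
  let e : LinearMap.range T.mulVecLin ≃ₗ[F] (Fin r → F) := LinearEquiv.ofFinrankEq _ _ hr
  let f : (Fin r → F) →ₗ[F] (Fin n → F) := (LinearMap.range T.mulVecLin).subtype ∘ₗ e.symm.toLinearMap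
  let g : (Fin n → F) →ₗ[F] (Fin r → F) := e.toLinearMap ∘ₗ T.mulVecLin.rangeRestrict
  have hf : Function.Injective f := by
    intro a b hab
    have : (e.symm a : Fin n → F) = e.symm b := hab
    exact e.symm.injective (Subtype.ext this)
  have hg : Function.Surjective g :=
    e.surjective.comp (LinearMap.surjective_rangeRestrict _)
  refine ⟨LinearMap.toMatrix' f, LinearMap.toMatrix' g, ?_, ?_, ?_⟩
  · have h1 : (LinearMap.toMatrix' f).mulVecLin = f := by
      rw [← Matrix.toLin'_apply', Matrix.toLin'_toMatrix']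
    unfold Matrix.rank
    rw [h1, LinearMap.finrank_range_of_inj hf, Module.finrank_fintype_fun_eq_card, Fintype.card_fin]
  · have h1 : (LinearMap.toMatrix' g).mulVecLin = g := by
      rw [← Matrix.toLin'_apply', Matrix.toLin'_toMatrix']
    unfold Matrix.rank
    rw [h1, LinearMap.range_eq_top.2 hg, finrank_top, Module.finrank_fintype_fun_eq_card,
      Fintype.card_fin]
  · rw [← LinearMap.toMatrix'_comp]
    have h1 : f ∘ₗ g = T.mulVecLin := by
      ext1
      apply LinearMap.ext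
      intro v
      simp [f, g]
    rw [h1]
    rw [← Matrix.toLin'_apply', LinearMap.toMatrix'_toLin']

/-- Two rank factorizations differ by an element of `GL_r`: left and right inverses of the factors. -/
theorem card_fac [Fintype F] (T : Matrix (Fin n) (Fin n) F) (h : T.rank = r) :
    Nat.card {p : Matrix (Fin n) (Fin r) F × Matrix (Fin r) (Fin n) F //
      p.1.rank = r ∧ p.2.rank = r ∧ p.1 * p.2 = T} = Nat.card (Matrix (Fin r) (Fin r) F)ˣ := by
  obtain ⟨φ₀, τ₀, hφ, hτ, hT⟩ := exists_fac T h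
  obtain ⟨L, hL⟩ := PII_Fac_left φ₀ hφ
  obtain ⟨R, hR⟩ := PII_Fac_right τ₀ hτ
  symm
  refine Nat.card_congr (Equiv.ofBijective
    (fun g : (Matrix (Fin r) (Fin r) F)ˣ => (⟨(φ₀ * (g : Matrix (Fin r) (Fin r) F),
      ((g⁻¹ : (Matrix (Fin r) (Fin r) F)ˣ) : Matrix (Fin r) (Fin r) F) * τ₀), ?_, ?_, ?_⟩ :
      {p : Matrix (Fin n) (Fin r) F × Matrix (Fin r) (Fin n) F //
      p.1.rank = r ∧ p.2.rank = r ∧ p.1 * p.2 = T})) ⟨?_, ?_⟩)
  · show (φ₀ * (g : Matrix (Fin r) (Fin r) F)).rank = r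
    rw [Matrix.rank_mul_eq_left_of_isUnit_det _ _ ((Matrix.isUnit_iff_isUnit_det _).1 g.isUnit)]
    exact hφ
  · show (((g⁻¹ : (Matrix (Fin r) (Fin r) F)ˣ) : Matrix (Fin r) (Fin r) F) * τ₀).rank = r
    rw [Matrix.rank_mul_eq_right_of_isUnit_det _ _
      ((Matrix.isUnit_iff_isUnit_det _).1 (g⁻¹).isUnit)]
    exact hτ
  · show (φ₀ * (g : Matrix (Fin r) (Fin r) F)) *
      (((g⁻¹ : (Matrix (Fin r) (Fin r) F)ˣ) : Matrix (Fin r) (Fin r) F) * τ₀) = T
    rw [Matrix.mul_assoc, ← Matrix.mul_assoc (g : Matrix (Fin r) (Fin r) F), Units.mul_inv,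
      Matrix.one_mul, hT]
  · intro g g' hgg
    have h1 : φ₀ * (g : Matrix (Fin r) (Fin r) F) = φ₀ * (g' : Matrix (Fin r) (Fin r) F) :=
      congrArg (fun p => p.1.1) hgg
    have h2 := congrArg (fun M => L * M) h1
    simp only [← Matrix.mul_assoc, hL, Matrix.one_mul] at h2
    exact Units.ext h2
  · rintro ⟨⟨φ, τ⟩, h1, h2, h3⟩
    simp only at h1 h2 h3
    have h4 : (L * φ) * (τ * R) = 1 := by
      calc (L * φ) * (τ * R) = L * (φ * τ) * R := by simp only [Matrix.mul_assoc]
        _ = L * (φ₀ * τ₀) * R := by rw [h3, hT]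
        _ = (L * φ₀) * (τ₀ * R) := by simp only [Matrix.mul_assoc]
        _ = 1 := by rw [hL, hR, Matrix.one_mul]
    have h5 : (τ * R) * (L * φ) = 1 := mul_eq_one_comm.1 h4
    have h6 : φ * (τ * R) = φ₀ := by
      calc φ * (τ * R) = (φ * τ) * R := by simp only [Matrix.mul_assoc]
        _ = (φ₀ * τ₀) * R := by rw [h3, hT]
        _ = φ₀ := by rw [Matrix.mul_assoc, hR, Matrix.mul_one]
    have h7 : (L * φ) * τ = τ₀ := by
      calc (L * φ) * τ = L * (φ * τ) := by simp only [Matrix.mul_assoc]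
        _ = L * (φ₀ * τ₀) := by rw [h3, hT]
        _ = τ₀ := by rw [← Matrix.mul_assoc, hL, Matrix.one_mul]
    refine ⟨⟨L * φ, τ * R, h4, h5⟩, ?_⟩
    apply Subtype.ext
    apply Prod.ext
    · show φ₀ * (L * φ) = φ
      rw [← h6, Matrix.mul_assoc, h5, Matrix.mul_one]
    · show (τ * R) * τ₀ = τ
      rw [← h7, ← Matrix.mul_assoc, h5, Matrix.one_mul]

end Pool.Agent.H27.KAC
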