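import Pool.Agent.H27.KAC.PII_Fac
import Pool.Agent.H27.KAC.PII_CExt

/-!
Project KAC, part II.1: the number of nilpotent matrices of a given type.
-/

set_option autoImplicit false

namespace Pool.Agent.H27.KAC

open scoped BigOperators

variable (F : Type) [Field F] [Fintype F]

/-- A matrix of type `μ` has rank `n - lam μ 0`. -/
theorem num_rank {F : Type} [Field F] {n : ℕ} {T : Matrix (Fin n) (Fin n) F} {μ : ℕ →₀ ℕ}
    (h : HasType T μ) : T.rank + lam μ 0 = n := by
  have h1 := h.2 0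
  rw [pow_zero, zero_add, pow_one, Matrix.rank_one, Fintype.card_fin] at h1
  exact h1.symm

/-- The number of the nilpotent matrices of type `μ`. -/
noncomputable def Nty (n : ℕ) (μ : ℕ →₀ ℕ) : ℚ :=
  (Nat.card {T : Matrix (Fin n) (Fin n) F // HasType T μ} : ℚ)

/-- Count the pairs `(φ, τ)` with `φ * τ` of type `μ` in two ways: for given `T = φ * τ` (its rank is
`r = n - lam μ 0`) there are `|GL_r|` of them (`card_fac`); for given `φ` (`card_full`) and given
`S = τ * φ` of type `shf μ` (`hasType_mul_iff`; the rank of `S` is `r - lam μ 1`) use `card_ext`. -/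
theorem Nty_rec {n r : ℕ} {μ : ℕ →₀ ℕ} (h : psize μ = n) (hr : r + lam μ 0 = n) :
    (Nat.card (Matrix (Fin r) (Fin r) F)ˣ : ℚ) * Nty F n μ =
      (∏ i ∈ Finset.range r, ((Fintype.card F : ℚ) ^ n - (Fintype.card F : ℚ) ^ i)) *
        (Nty F r (shf μ) * ((Fintype.card F : ℚ) ^ (lam μ 0 * (r - lam μ 1)) *
          ∏ i ∈ Finset.range (lam μ 1),
            ((Fintype.card F : ℚ) ^ (lam μ 0) - (Fintype.card F : ℚ) ^ i))) := by
  classical
  have _ := h
  -- the pairs
  let X := {p : Matrix (Fin n) (Fin r) F × Matrix (Fin r) (Fin n) F //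
    p.1.rank = r ∧ p.2.rank = r ∧ HasType (p.1 * p.2) μ}
  -- first way
  have h1 : Nat.card X = Nat.card (Matrix (Fin r) (Fin r) F)ˣ *
      Nat.card {T : Matrix (Fin n) (Fin n) F // HasType T μ} := by
    let e : X ≃ Σ T : {T : Matrix (Fin n) (Fin n) F // HasType T μ},
        {p : Matrix (Fin n) (Fin r) F × Matrix (Fin r) (Fin n) F //
          p.1.rank = r ∧ p.2.rank = r ∧ p.1 * p.2 = T.1} :=
      { toFun := fun p => ⟨⟨p.1.1 * p.1.2, p.2.2.2⟩, ⟨p.1, p.2.1, p.2.2.1, rfl⟩⟩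
        invFun := fun x => ⟨x.2.1, x.2.2.1, x.2.2.2.1, by
          rw [x.2.2.2.2]
          exact x.1.2⟩
        left_inv := fun p => rfl
        right_inv := fun x => by
          obtain ⟨⟨T, hT⟩, ⟨p, hp⟩⟩ := x
          obtain rfl : p.1 * p.2 = T := hp.2.2
          rfl }
    have : Fintype {T : Matrix (Fin n) (Fin n) F // HasType T μ} := Fintype.ofFinite _
    rw [Nat.card_congr e, Nat.card_sigma, Finset.sum_congr rfl fun T _ => ?_, Finset.sum_const,
      Finset.card_univ, smul_eq_mul, mul_comm, Nat.card_eq_fintype_card (α := {T // HasType T μ})]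
    have h2 := num_rank T.2
    exact card_fac T.1 (by omega)
  -- second way
  have h2 : (Nat.card X : ℚ) =
      (∏ i ∈ Finset.range r, ((Fintype.card F : ℚ) ^ n - (Fintype.card F : ℚ) ^ i)) *
        (Nty F r (shf μ) * ((Fintype.card F : ℚ) ^ (lam μ 0 * (r - lam μ 1)) *
          ∏ i ∈ Finset.range (lam μ 1),
            ((Fintype.card F : ℚ) ^ (lam μ 0) - (Fintype.card F : ℚ) ^ i))) := by
    let e : X ≃ Σ y : {φ : Matrix (Fin n) (Fin r) F // φ.rank = r} ×
        {S : Matrix (Fin r) (Fin r) F // HasType S (shf μ)},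
        {τ : Matrix (Fin r) (Fin n) F // τ.rank = r ∧ τ * y.1.1 = y.2.1} :=
      { toFun := fun p => ⟨(⟨p.1.1, p.2.1⟩, ⟨p.1.2 * p.1.1,
          ((hasType_mul_iff p.2.1 p.2.2.1 μ).1 p.2.2.2).2⟩), ⟨p.1.2, p.2.2.1, rfl⟩⟩
        invFun := fun x => ⟨(x.1.1.1, x.2.1), x.1.1.2, x.2.2.1,
          (hasType_mul_iff x.1.1.2 x.2.2.1 μ).2 ⟨hr, by
            rw [x.2.2.2]
            exact x.1.2.2⟩⟩
        left_inv := fun p => rfl
        right_inv := fun x => by
          obtain ⟨⟨⟨φ, hφ⟩, ⟨S, hS⟩⟩, ⟨τ, hτ⟩⟩ := x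
          obtain rfl : τ * φ = S := hτ.2
          rfl }
    have : Fintype {φ : Matrix (Fin n) (Fin r) F // φ.rank = r} := Fintype.ofFinite _
    have : Fintype {S : Matrix (Fin r) (Fin r) F // HasType S (shf μ)} := Fintype.ofFinite _
    rw [Nat.card_congr e, Nat.card_sigma, Nat.cast_sum, Finset.sum_congr rfl fun y _ => ?_,
      Finset.sum_const, Finset.card_univ, Fintype.card_prod, nsmul_eq_mul, Nat.cast_mul,
      ← Nat.card_eq_fintype_card (α := {φ : Matrix (Fin n) (Fin r) F // φ.rank = r}),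
      ← Nat.card_eq_fintype_card (α := {S : Matrix (Fin r) (Fin r) F // HasType S (shf μ)}),
      card_full, mul_assoc]
    · rfl
    · have h3 := num_rank y.2.2
      rw [lam_shf, zero_add] at h3
      rw [card_ext F y.1.2 h3, show n - r = lam μ 0 by omega]
  rw [← h2, h1, Nat.cast_mul]
  rfl

/-- The last factors of the order of `GL_a`. -/
theorem num_prod {q : ℚ} (hq : 1 < q) (s b : ℕ) :
    ∏ j ∈ Finset.range b, (q ^ (s + b) - q ^ (s + j)) = q ^ ((s + b) * b) * qpoch q b := by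
  have hq0 : q ≠ 0 := by positivity
  unfold qpoch
  rw [← Finset.prod_range_reflect, pow_mul, ← Finset.card_range b, ← Finset.prod_const,
    Finset.card_range, ← Finset.prod_mul_distrib]
  refine Finset.prod_congr rfl fun j hj => ?_
  rw [Finset.mem_range] at hj
  have h1 : s + b = (s + (b - 1 - j)) + (j + 1) := by omega
  rw [mul_sub, mul_one, inv_pow]
  congr 1
  rw [eq_mul_inv_iff_mul_eq₀ (pow_ne_zero _ hq0), ← pow_add, ← h1]

theorem num_qpoch {q : ℚ} (hq : 1 < q) (b : ℕ) : qpoch q b ≠ 0 := by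
  unfold qpoch
  rw [Finset.prod_ne_zero_iff]
  intro j _
  have h1 : q⁻¹ < 1 := inv_lt_one_of_one_lt₀ hq
  have h2 : 0 < q⁻¹ := by positivity
  have h3 : q⁻¹ ^ (j + 1) < 1 := pow_lt_one₀ h2.le h1 (Nat.succ_ne_zero j)
  linarith

/-- The arithmetic of the recursion: with `a = n - r`, `s ≤ a`, `s ≤ r`, `q > 1`:
`∏_(i<r) (q^n - q^i) * q^(a (r - s)) * ∏_(i<s) (q^a - q^i) =
  ∏_(i<n) (q^n - q^i) * q^(-a²) / (q⁻¹; q⁻¹)_(a - s)`.
Proof: `∏_(i<n) (q^n - q^i) = ∏_(i<r) (q^n - q^i) * q^(r a) * ∏_(i<a) (q^a - q^i)`,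
`∏_(s≤i<a) (q^a - q^i) = q^(a (a - s)) * (q⁻¹; q⁻¹)_(a - s)`. -/
theorem num_aux {q : ℚ} (hq : 1 < q) {n r a s : ℕ} (hn : r + a = n) (hs : s ≤ a) (hsr : s ≤ r) :
    (∏ i ∈ Finset.range r, (q ^ n - q ^ i)) * (q ^ (a * (r - s)) *
        ∏ i ∈ Finset.range s, (q ^ a - q ^ i)) =
      (∏ i ∈ Finset.range n, (q ^ n - q ^ i)) * (q ^ (-((a * a : ℕ) : ℤ)) *
        (qpoch q (a - s))⁻¹) := by
  have hq0 : q ≠ 0 := by positivity
  obtain ⟨b, rfl⟩ : ∃ b, a = s + b := ⟨a - s, by omega⟩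
  obtain ⟨t, rfl⟩ : ∃ t, r = s + t := ⟨r - s, by omega⟩
  subst hn
  have h1 : ∏ i ∈ Finset.range (s + t + (s + b)), (q ^ (s + t + (s + b)) - q ^ i) =
      (∏ i ∈ Finset.range (s + t), (q ^ (s + t + (s + b)) - q ^ i)) *
        (q ^ ((s + t) * (s + b)) * ∏ j ∈ Finset.range (s + b), (q ^ (s + b) - q ^ j)) := by
    rw [Finset.prod_range_add, pow_mul, ← Finset.card_range (s + b), ← Finset.prod_const,
      Finset.card_range, ← Finset.prod_mul_distrib]
    congr 1
    refine Finset.prod_congr rfl fun j _ => ?_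
    rw [mul_sub, ← pow_add, ← pow_add]
  have h2 : ∏ j ∈ Finset.range (s + b), (q ^ (s + b) - q ^ j) =
      (∏ j ∈ Finset.range s, (q ^ (s + b) - q ^ j)) * (q ^ ((s + b) * b) * qpoch q b) := by
    rw [Finset.prod_range_add, num_prod hq]
  rw [h1, h2, show s + b - s = b by omega, show s + t - s = t by omega, zpow_neg, zpow_natCast]
  have h3 := num_qpoch hq b
  have h4 : q ^ ((s + b) * (s + b)) ≠ 0 := pow_ne_zero _ hq0
  field_simp
  ring

/-- Induction on `n`: for `n = 0` (`μ = 0`) there is one matrix; otherwise `Nty_rec`, `num_aux` with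
`a = lam μ 0`, `s = lam μ 1`, `a - s = μ 0`, `mlam_rec`, `prod_shf`. -/
theorem Nty_eq {n : ℕ} {μ : ℕ →₀ ℕ} (h : psize μ = n) :
    Nty F n μ = (Nat.card (Matrix (Fin n) (Fin n) F)ˣ : ℚ) *
      ((Fintype.card F : ℚ) ^ (-((mlam μ μ : ℕ) : ℤ)) *
        μ.prod fun _ x => (qpoch (Fintype.card F : ℚ) x)⁻¹) := by
  induction n using Nat.strong_induction_on generalizing μ with
  | _ n ih =>
    have hq : (1 : ℚ) < Fintype.card F := by exact_mod_cast Fintype.one_lt_card (α := F)
    by_cases hμ : μ = 0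
    · subst hμ
      have hn : n = 0 := by rw [← h, psize_eq_zero]
      subst hn
      have h1 : Nty F 0 0 = 1 := by
        unfold Nty
        have h2 : ∀ T : Matrix (Fin 0) (Fin 0) F, HasType T 0 := by
          intro T
          refine ⟨⟨1, Subsingleton.elim _ _⟩, fun k => ?_⟩
          rw [lam_zero_left, add_zero, Subsingleton.elim (T ^ k) (T ^ (k + 1))]
        rw [Nat.card_congr (Equiv.subtypeUnivEquiv h2), Nat.card_unique, Nat.cast_one]
      have h3 : mlam 0 0 = 0 := by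
        unfold mlam
        rw [Finsupp.sum_zero_index]
      rw [h1, card_units, Finset.prod_range_zero, h3, Finsupp.prod_zero_index]
      simp
    · have hps := psize_shf μ
      have hpos := lam_zero_pos hμ
      have hls := lam_succ μ 0
      have hsr : lam μ 1 ≤ psize (shf μ) := by
        have h1 := psize_shf (shf μ)
        rw [lam_shf, zero_add] at h1
        omega
      rw [zero_add] at hls
      have hr : psize (shf μ) + lam μ 0 = n := by omega
      have h1 := Nty_rec F h hr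
      rw [ih (psize (shf μ)) (by omega) rfl] at h1
      have h2 := num_aux hq hr (s := lam μ 1) (by omega) hsr
      rw [show lam μ 0 - lam μ 1 = μ 0 by omega] at h2
      have h3 : (Nat.card (Matrix (Fin (psize (shf μ))) (Fin (psize (shf μ))) F)ˣ : ℚ) ≠ 0 := by
        have : Nat.card (Matrix (Fin (psize (shf μ))) (Fin (psize (shf μ))) F)ˣ ≠ 0 :=
          Nat.card_pos.ne'
        exact_mod_cast this
      apply mul_left_cancel₀ h3
      rw [h1, card_units F n, mlam_rec μ μ,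
        prod_shf (fun x => (qpoch (Fintype.card F : ℚ) x)⁻¹) (by simp [qpoch]) μ]
      have hq0 : (Fintype.card F : ℚ) ≠ 0 := by positivity
      have h4 : (Fintype.card F : ℚ) ^
          (-((lam μ 0 * lam μ 0 + mlam (shf μ) (shf μ) : ℕ) : ℤ)) =
          (Fintype.card F : ℚ) ^ (-((lam μ 0 * lam μ 0 : ℕ) : ℤ)) *
            (Fintype.card F : ℚ) ^ (-((mlam (shf μ) (shf μ) : ℕ) : ℤ)) := by
        rw [← zpow_add₀ hq0]
        congr 1
        push_cast
        ring
      rw [h4]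
      linear_combination (Nat.card (Matrix (Fin (psize (shf μ))) (Fin (psize (shf μ))) F)ˣ : ℚ) *
        ((Fintype.card F : ℚ) ^ (-((mlam (shf μ) (shf μ) : ℕ) : ℤ)) *
          (shf μ).prod fun _ x => (qpoch (Fintype.card F : ℚ) x)⁻¹) * h2

end Pool.Agent.H27.KAC
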