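import Pool.Agent.H27.KAC.PII_Typ

/-!
Project KAC, part II.1: each nilpotent matrix has a type.
-/

set_option autoImplicit false

namespace Pool.Agent.H27.KAC

open scoped BigOperators

variable {n r : ℕ} {F : Type} [Field F]

theorem PII_TypE_rank_add {V : Type} [AddCommGroup V] [Module F V] [FiniteDimensional F V]
    (f : V →ₗ[F] V) (k : ℕ) :
    Module.finrank F (LinearMap.range (f ^ (k + 1)))
      + Module.finrank F ((LinearMap.ker f ⊓ LinearMap.range (f ^ k) : Submodule F V))
      = Module.finrank F (LinearMap.range (f ^ k)) := by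
  have h1 := LinearMap.finrank_range_add_finrank_ker (f.domRestrict (LinearMap.range (f ^ k)))
  have h2 : LinearMap.range (f.domRestrict (LinearMap.range (f ^ k)))
      = LinearMap.range (f ^ (k + 1)) := by
    rw [LinearMap.range_domRestrict, pow_succ', Module.End.mul_eq_comp, LinearMap.range_comp]
  have h3 : Module.finrank F (LinearMap.ker (f.domRestrict (LinearMap.range (f ^ k))))
      = Module.finrank F ((LinearMap.ker f ⊓ LinearMap.range (f ^ k) : Submodule F V)) := by
    rw [LinearMap.ker_domRestrict]
    have h4 : LinearMap.ker f ⊓ LinearMap.range (f ^ k)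
        = (Submodule.comap (LinearMap.range (f ^ k)).subtype (LinearMap.ker f)).map
          (LinearMap.range (f ^ k)).subtype := by
      rw [Submodule.map_comap_subtype, inf_comm]
    rw [h4]
    exact (Submodule.finrank_map_subtype_eq _ _).symm
  rw [h2, h3] at h1
  exact h1

/-- The differences `rank (T ^ k) - rank (T ^ (k + 1))` decrease (`T` maps `range (T ^ k)` onto
`range (T ^ (k + 1))`, the kernel of this map decreases with `k`); they are zero for large `k`, because
`T` is nilpotent; `exists_lam`. -/
theorem exists_type {T : Matrix (Fin n) (Fin n) F} (h : IsNilpotent T) :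
    ∃ μ : ℕ →₀ ℕ, HasType T μ := by
  set f : (Fin n → F) →ₗ[F] (Fin n → F) := T.mulVecLin with hf
  have hpow : ∀ k, (T ^ k).rank = Module.finrank F (LinearMap.range (f ^ k)) := by
    intro k
    have h1 : (T ^ k).mulVecLin = f ^ k := by
      have := map_pow (Matrix.toLinAlgEquiv' (R := F) (n := Fin n)) T k
      exact this
    rw [Matrix.rank, h1]
  obtain ⟨N, hN⟩ := h
  set a : ℕ → ℕ := fun k =>
    Module.finrank F ((LinearMap.ker f ⊓ LinearMap.range (f ^ k) : Submodule F (Fin n → F))) with ha
  have hanti : Antitone a := by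
    refine antitone_nat_of_succ_le fun k => ?_
    refine Submodule.finrank_mono (inf_le_inf le_rfl ?_)
    rw [pow_succ, Module.End.mul_eq_comp]
    exact LinearMap.range_comp_le_range _ _
  have haN : a N = 0 := by
    have h0 : (T ^ N).rank = 0 := by rw [hN, Matrix.rank_zero]
    have h1 := PII_TypE_rank_add (F := F) f N
    rw [← hpow N, h0] at h1
    have h2 : Module.finrank F ((LinearMap.ker f ⊓ LinearMap.range (f ^ N)
        : Submodule F (Fin n → F))) = 0 := by omega
    exact h2
  obtain ⟨μ, hμ⟩ := exists_lam hanti haN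
  refine ⟨μ, ⟨N, hN⟩, fun k => ?_⟩
  rw [hpow, hpow, hμ]
  exact (PII_TypE_rank_add f k).symm

end Pool.Agent.H27.KAC
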