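import Pool.Agent.H27.KAC.PII_Hom
import Pool.Agent.H27.KAC.PII_TypE
import Pool.Agent.H27.KAC.PII_Num
import Pool.Agent.H27.KAC.PII_Exp

/-!
Project KAC, part II.1: the explicit formula for the numbers `Pc`.
-/

set_option autoImplicit false

namespace Pool.Agent.H27.KAC

open scoped BigOperators

variable {I E : Type} [Fintype I] [DecidableEq I] [Fintype E]

/-- The number of the representations with a given nilpotent endomorphism `T` of type `m`: the product
over the arrows of the numbers of `card_hom`. -/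
theorem card_rep (Q : Quiv I E) (F : Type) [Field F] [Fintype F] (α : I → ℕ)
    (T : (i : I) → Matrix (Fin (α i)) (Fin (α i)) F) (m : Prt I →₀ ℕ)
    (hT : ∀ i, HasType (T i) (mcol m i)) :
    Nat.card {x : Rp Q F α // IsMor x x T} =
      Fintype.card F ^ (∑ e : E, mlam (mcol m (Q.tgt e)) (mcol m (Q.src e))) := by
  have e1 : {x : Rp Q F α // IsMor x x T} ≃
      ((e : E) → {y : Matrix (Fin (α (Q.tgt e))) (Fin (α (Q.src e))) F //
        T (Q.tgt e) * y = y * T (Q.src e)}) :=
    Equiv.subtypePiEquivPi (p := fun (e : E)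
      (y : Matrix (Fin (α (Q.tgt e))) (Fin (α (Q.src e))) F) =>
        T (Q.tgt e) * y = y * T (Q.src e))
  rw [Nat.card_congr e1, Nat.card_pi, ← Finset.prod_pow_eq_pow_sum]
  exact Finset.prod_congr rfl fun e _ => card_hom (hT (Q.tgt e)) (hT (Q.src e))

/-- The number of the families `T` of type `m`. -/
theorem card_types (F : Type) [Field F] [Fintype F] (α : I → ℕ) (m : Prt I →₀ ℕ) :
    (Nat.card {T : (i : I) → Matrix (Fin (α i)) (Fin (α i)) F //
      ∀ i, HasType (T i) (mcol m i)} : ℚ) = ∏ i, Nty F (α i) (mcol m i) := by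
  have e1 : {T : (i : I) → Matrix (Fin (α i)) (Fin (α i)) F // ∀ i, HasType (T i) (mcol m i)} ≃
      ((i : I) → {T : Matrix (Fin (α i)) (Fin (α i)) F // HasType T (mcol m i)}) :=
    Equiv.subtypePiEquivPi (p := fun (i : I) (T : Matrix (Fin (α i)) (Fin (α i)) F) =>
      HasType T (mcol m i))
  rw [Nat.card_congr e1, Nat.card_pi]
  push_cast
  rfl

/-- The pairs with `T` of type `m`. -/
theorem card_pairs (Q : Quiv I E) (F : Type) [Field F] [Fintype F] (α : I → ℕ) (m : Prt I →₀ ℕ) :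
    (Nat.card {p : NilPairs Q F α // ∀ i, HasType (p.1.2 i) (mcol m i)} : ℚ) =
      (Fintype.card F : ℚ) ^ (∑ e : E, mlam (mcol m (Q.tgt e)) (mcol m (Q.src e))) *
        ∏ i, Nty F (α i) (mcol m i) := by
  classical
  have e1 : {p : NilPairs Q F α // ∀ i, HasType (p.1.2 i) (mcol m i)} ≃
      (Σ T : {T : (i : I) → Matrix (Fin (α i)) (Fin (α i)) F // ∀ i, HasType (T i) (mcol m i)},
        {x : Rp Q F α // IsMor x x T.1}) :=
    { toFun := fun p => ⟨⟨p.1.1.2, p.2⟩, ⟨p.1.1.1, p.1.2.1⟩⟩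
      invFun := fun s => ⟨⟨(s.2.1, s.1.1), s.2.2, fun i => (s.1.2 i).1⟩, s.1.2⟩
      left_inv := fun p => rfl
      right_inv := fun s => rfl }
  have : Fintype {T : (i : I) → Matrix (Fin (α i)) (Fin (α i)) F // ∀ i, HasType (T i) (mcol m i)} :=
    Fintype.ofFinite _
  have hfin : Finite (Rp Q F α) := by
    unfold Rp
    infer_instance
  rw [Nat.card_congr e1, Nat.card_sigma, ← card_types F α m]
  have h1 : ∀ T : {T : (i : I) → Matrix (Fin (α i)) (Fin (α i)) F //
      ∀ i, HasType (T i) (mcol m i)}, Nat.card {x : Rp Q F α // IsMor x x T.1} =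
      Fintype.card F ^ (∑ e : E, mlam (mcol m (Q.tgt e)) (mcol m (Q.src e))) := fun T =>
    card_rep Q F α T.1 m T.2
  rw [Finset.sum_congr rfl fun T _ => h1 T, Finset.sum_const, Finset.card_univ, smul_eq_mul,
    Nat.card_eq_fintype_card]
  push_cast
  ring

/-- `NilPairs` is the disjoint union over the `m` in `mps α` of the pairs with `T` of type `m`
(`exists_type`, `HasType.unique`, `HasType.size`, `mcolEquiv`, `psize_mcol`). -/
theorem card_nilPairs (Q : Quiv I E) (F : Type) [Field F] [Fintype F] (α : I →₀ ℕ) :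
    (Nat.card (NilPairs Q F α) : ℚ) =
      ∑ m ∈ mps α, (Nat.card {p : NilPairs Q F α // ∀ i, HasType (p.1.2 i) (mcol m i)} : ℚ) := by
  classical
  have hfin : Finite (NilPairs Q F α) := by
    unfold NilPairs Rp
    infer_instance
  have : Fintype (NilPairs Q F α) := Fintype.ofFinite _
  have hex : ∀ (p : NilPairs Q F α) (i : I), ∃ μ : ℕ →₀ ℕ, HasType (p.1.2 i) μ := fun p i =>
    exists_type (p.2.2 i)
  choose μ hμ using hex
  set t : NilPairs Q F α → (Prt I →₀ ℕ) := fun p => (mcolEquiv I).symm (μ p) with ht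
  have htc : ∀ p i, mcol (t p) i = μ p i := by
    intro p i
    have h1 : (mcolEquiv I) (t p) = μ p := (mcolEquiv I).apply_symm_apply (μ p)
    exact congrFun h1 i
  have htype : ∀ p i, HasType (p.1.2 i) (mcol (t p) i) := fun p i => by
    rw [htc p i]
    exact hμ p i
  have hmem : ∀ p, t p ∈ mps α := by
    intro p
    rw [mem_mps]
    ext i
    rw [← psize_mcol]
    exact (htype p i).size
  have hiff : ∀ p m, t p = m ↔ ∀ i, HasType (p.1.2 i) (mcol m i) := by
    intro p m
    constructor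
    · rintro rfl
      exact htype p
    · intro h
      apply (mcolEquiv I).injective
      funext i
      exact (htype p i).unique (h i)
  have h1 : (Finset.univ : Finset (NilPairs Q F α)).card =
      ∑ m ∈ mps α, ((Finset.univ : Finset (NilPairs Q F α)).filter (fun p => t p = m)).card :=
    Finset.card_eq_sum_card_fiberwise (fun p _ => hmem p)
  rw [Nat.card_eq_fintype_card, ← Finset.card_univ, h1]
  push_cast
  refine Finset.sum_congr rfl fun m _ => ?_
  congr 1
  rw [Nat.card_eq_fintype_card, Fintype.card_subtype]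
  congr 1
  ext p
  simp only [Finset.mem_filter, Finset.mem_univ, true_and]
  exact hiff p m

/-- `card_nilPairs`, `card_pairs`, `Nty_eq` (`psize_mcol`), `neg_hq`, `prod_mcol`. -/
theorem Pc_formula (Q : Quiv I E) (F : Type) [Field F] [Fintype F] (α : I →₀ ℕ) :
    Pc Q F α = ∑ m ∈ mps α, cc (Fintype.card F : ℚ) (adj Q) m := by
  have hq : (Fintype.card F : ℚ) ≠ 0 := by
    exact_mod_cast Fintype.card_ne_zero
  have hG : ∀ i, (Nat.card (Matrix (Fin (α i)) (Fin (α i)) F)ˣ : ℚ) ≠ 0 := by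
    intro i
    have : Nat.card (Matrix (Fin (α i)) (Fin (α i)) F)ˣ ≠ 0 := Nat.card_pos.ne'
    exact_mod_cast this
  have hGp : (∏ i, (Nat.card (Matrix (Fin (α i)) (Fin (α i)) F)ˣ : ℚ)) ≠ 0 :=
    Finset.prod_ne_zero_iff.2 fun i _ => hG i
  unfold Pc
  rw [div_eq_iff hGp, card_nilPairs, Finset.sum_mul]
  refine Finset.sum_congr rfl fun m hm => ?_
  rw [mem_mps] at hm
  rw [card_pairs]
  have h1 : ∀ i, Nty F (α i) (mcol m i) = (Nat.card (Matrix (Fin (α i)) (Fin (α i)) F)ˣ : ℚ) *
      ((Fintype.card F : ℚ) ^ (-((mlam (mcol m i) (mcol m i) : ℕ) : ℤ)) *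
        (mcol m i).prod fun _ x => (qpoch (Fintype.card F : ℚ) x)⁻¹) := fun i =>
    Nty_eq F (by rw [psize_mcol, hm])
  rw [Finset.prod_congr rfl fun i _ => h1 i, Finset.prod_mul_distrib, Finset.prod_mul_distrib]
  have h2 : (m.prod fun _ x => (qpoch (Fintype.card F : ℚ) x)⁻¹) =
      ∏ i, (mcol m i).prod fun _ x => (qpoch (Fintype.card F : ℚ) x)⁻¹ :=
    prod_mcol (fun x => (qpoch (Fintype.card F : ℚ) x)⁻¹) (by simp [qpoch]) m
  unfold cc
  rw [h2, neg_hq, zpow_sub₀ hq, zpow_natCast, zpow_natCast]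
  have h3 : ∏ i, (Fintype.card F : ℚ) ^ (-((mlam (mcol m i) (mcol m i) : ℕ) : ℤ)) =
      ((Fintype.card F : ℚ) ^ (∑ i, mlam (mcol m i) (mcol m i)))⁻¹ := by
    rw [← Finset.prod_pow_eq_pow_sum, ← Finset.prod_inv_distrib]
    refine Finset.prod_congr rfl fun i _ => ?_
    rw [zpow_neg, zpow_natCast]
  rw [h3]
  ring

end Pool.Agent.H27.KAC
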