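import Pool.Agent.H27.KAC.PII_Def

/-!
Project KAC, part II.1: numbers of matrices of full rank.
-/

set_option autoImplicit false

namespace Pool.Agent.H27.KAC

open scoped BigOperators

variable (F : Type) [Field F] [Fintype F]

/-- The columns are linearly independent (`card_linearIndependent`); for `r > n` both sides are zero. -/
theorem card_full (n r : ℕ) : (Nat.card {M : Matrix (Fin n) (Fin r) F // M.rank = r} : ℚ) =
    ∏ i ∈ Finset.range r, ((Fintype.card F : ℚ) ^ n - (Fintype.card F : ℚ) ^ i) := by
  classical
  by_cases hr : r ≤ n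
  · have e : {M : Matrix (Fin n) (Fin r) F // M.rank = r} ≃
        {s : Fin r → (Fin n → F) // LinearIndependent F s} := by
      refine Equiv.subtypeEquiv
        ⟨fun M => fun j i => M i j, fun s => Matrix.of fun i j => s j i, fun _ => rfl, fun _ => rfl⟩ ?_
      intro M
      have h1 : M.rank = Module.finrank F (Submodule.span F (Set.range fun (j : Fin r) (i : Fin n) => M i j)) := by
        rw [Matrix.rank_eq_finrank_span_cols]
        rfl
      rw [linearIndependent_iff_card_eq_finrank_span, h1, Fintype.card_fin, Set.finrank]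
      exact eq_comm
    rw [Nat.card_congr e]
    have h2 := card_linearIndependent (K := F) (V := Fin n → F) (k := r) (by
      rw [Module.finrank_fintype_fun_eq_card, Fintype.card_fin]; exact hr)
    rw [h2, Module.finrank_fintype_fun_eq_card, Fintype.card_fin, Finset.prod_range]
    push_cast
    refine Finset.prod_congr rfl fun i _ => ?_
    rw [Nat.cast_sub]
    · push_cast; rfl
    · exact Nat.pow_le_pow_right Fintype.card_pos (by omega)
  · have h1 : IsEmpty {M : Matrix (Fin n) (Fin r) F // M.rank = r} := by
      constructor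
      rintro ⟨M, hM⟩
      have := Matrix.rank_le_height M
      omega
    rw [Nat.card_eq_zero.2 (Or.inl h1)]
    rw [eq_comm, Nat.cast_zero]
    exact Finset.prod_eq_zero (Finset.mem_range.2 (show n < r by omega)) (sub_self _)

/-- Transposition. -/
theorem card_full' (n r : ℕ) : (Nat.card {M : Matrix (Fin r) (Fin n) F // M.rank = r} : ℚ) =
    ∏ i ∈ Finset.range r, ((Fintype.card F : ℚ) ^ n - (Fintype.card F : ℚ) ^ i) := by
  rw [← card_full F n r]
  congr 1
  refine Nat.card_congr (Equiv.subtypeEquiv
    ⟨fun M => M.transpose, fun M => M.transpose, fun _ => rfl, fun _ => rfl⟩ ?_)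
  intro M
  show M.rank = r ↔ M.transpose.rank = r
  rw [Matrix.rank_transpose]

/-- `Matrix.card_GL_field`. -/
theorem card_units (n : ℕ) : (Nat.card (Matrix (Fin n) (Fin n) F)ˣ : ℚ) =
    ∏ i ∈ Finset.range n, ((Fintype.card F : ℚ) ^ n - (Fintype.card F : ℚ) ^ i) := by
  have h := Matrix.card_GL_field (𝔽 := F) n
  have h' : Nat.card (Matrix (Fin n) (Fin n) F)ˣ =
      ∏ i : Fin n, (Fintype.card F ^ n - Fintype.card F ^ (i : ℕ)) := by
    simpa using h
  rw [h', Finset.prod_range]
  push_cast
  refine Finset.prod_congr rfl fun i _ => ?_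
  rw [Nat.cast_sub]
  · push_cast; rfl
  · exact Nat.pow_le_pow_right Fintype.card_pos (by omega)

end Pool.Agent.H27.KAC
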