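import Pool.Agent.H27.KAC.PII_Reg

/-!
Project KAC, part II.3: the limit `q → 1`.
-/

set_option autoImplicit false

namespace Pool.Agent.H27.KAC

open scoped BigOperators

variable {I R K S : Type} [Fintype I] [DecidableEq I] [CommRing R] [Field K] [CommRing S]

/-- The lift of `Q n n'` to `R`. -/
noncomputable def Setup.G (s : Setup I R K S) (n n' : Prt I → ℤ) : MvPowerSeries I R :=
  Classical.choose (s.exists_G n n')

theorem Setup.map_G (s : Setup I R K S) (n n' : Prt I → ℤ) :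
    MvPowerSeries.map s.ι (s.G n n') = s.Q n n' := Classical.choose_spec (s.exists_G n n')

/-- The value of `Q n n'` at `q = 1`. -/
noncomputable def Setup.Γ (s : Setup I R K S) (n n' : Prt I → ℤ) : MvPowerSeries I S :=
  MvPowerSeries.map s.ev (s.G n n')

theorem PII_Gam.map_inj (s : Setup I R K S) {f g : MvPowerSeries I R}
    (h : MvPowerSeries.map s.ι f = MvPowerSeries.map s.ι g) : f = g := by
  ext d
  apply s.inj
  have h1 := congrArg (MvPowerSeries.coeff d) h
  rwa [MvPowerSeries.coeff_map, MvPowerSeries.coeff_map] at h1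

theorem PII_Gam.map_zpow (s : Setup I R K S) (z : ℤ) :
    s.ι ((s.u ^ z : Rˣ) : R) = s.q ^ z := by
  have h1 : s.ι ((s.u ^ z : Rˣ) : R) = ((Units.map (s.ι : R →* K) (s.u ^ z) : Kˣ) : K) := rfl
  rw [h1, _root_.map_zpow, Units.val_zpow_eq_zpow_val]
  rfl

theorem PII_Gam.ev_zpow (s : Setup I R K S) (z : ℤ) : s.ev ((s.u ^ z : Rˣ) : R) = 1 := by
  have h1 : s.ev ((s.u ^ z : Rˣ) : R) = ((Units.map (s.ev : R →* S) (s.u ^ z) : Sˣ) : S) := rfl
  have h2 : Units.map (s.ev : R →* S) s.u = 1 := by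
    ext
    exact s.evu
  rw [h1, _root_.map_zpow, h2, one_zpow, Units.val_one]

theorem PII_Gam.map_monomial {R' T' : Type} [CommRing R'] [CommRing T'] (f : R' →+* T')
    (d : I →₀ ℕ) (c : R') :
    MvPowerSeries.map f (MvPowerSeries.monomial d c) = MvPowerSeries.monomial d (f c) := by
  ext e
  rw [MvPowerSeries.coeff_map, MvPowerSeries.coeff_monomial, MvPowerSeries.coeff_monomial]
  split_ifs
  · rfl
  · exact map_zero f

/-- `MvPowerSeries.map ι` is injective; `Q_self`. -/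
theorem Setup.Γ_self (s : Setup I R K S) (n : Prt I → ℤ) : s.Γ n n = 1 := by
  have h : s.G n n = 1 := by
    apply PII_Gam.map_inj s
    rw [s.map_G, s.Q_self, map_one]
  unfold Setup.Γ
  rw [h, map_one]

theorem Setup.Γ_mul (s : Setup I R K S) (n n' n'' : Prt I → ℤ) :
    s.Γ n n' * s.Γ n' n'' = s.Γ n n'' := by
  have h : s.G n n' * s.G n' n'' = s.G n n'' := by
    apply PII_Gam.map_inj s
    rw [map_mul, s.map_G, s.map_G, s.map_G, s.Q_mul]
  unfold Setup.Γ
  rw [← map_mul, h]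

theorem Setup.Γ_const (s : Setup I R K S) (n n' : Prt I → ℤ) :
    MvPowerSeries.constantCoeff (s.Γ n n') = 1 := by
  have h : MvPowerSeries.constantCoeff (s.G n n') = 1 := by
    apply s.inj
    have h1 := s.Q_const n n'
    rw [← s.map_G, MvPowerSeries.constantCoeff_map] at h1
    rw [h1, map_one]
  unfold Setup.Γ
  rw [MvPowerSeries.constantCoeff_map, h, map_one]

/-- The powers of `q` become one. -/
theorem Setup.Γ_step (s : Setup I R K S) (n : Prt I → ℤ) (a : Prt I) :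
    s.Γ n (n - Pi.single a 1) = 1 -
      MvPowerSeries.monomial (pwt a) 1 * s.Γ n (n - Bm s.A a) := by
  have h : s.G n (n - Pi.single a 1) = 1 -
      MvPowerSeries.monomial (pwt a) ((s.u ^ (n a - Bm s.A a a / 2) : Rˣ) : R) *
        s.G n (n - Bm s.A a) := by
    apply PII_Gam.map_inj s
    rw [map_sub, map_one, map_mul, s.map_G, s.map_G, PII_Gam.map_monomial, PII_Gam.map_zpow,
      s.Q_step]
  unfold Setup.Γ
  rw [h, map_sub, map_one, map_mul, PII_Gam.map_monomial, PII_Gam.ev_zpow]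

theorem Setup.Γ_congr (s : Setup I R K S) {n m n' m' : Prt I → ℤ} {D : ℕ}
    (h : ∀ a : Prt I, a.2 + 1 ≤ D → n a = n' a) (h' : ∀ a : Prt I, a.2 + 1 ≤ D → m a = m' a) :
    EqTo D (s.Γ n m) (s.Γ n' m') := by
  intro d hd
  have h1 := s.Q_congr h h' d hd
  rw [← s.map_G, ← s.map_G, MvPowerSeries.coeff_map, MvPowerSeries.coeff_map] at h1
  unfold Setup.Γ
  rw [MvPowerSeries.coeff_map, MvPowerSeries.coeff_map, s.inj h1]

theorem PII_Gam.pwt_ne (a : Prt I) : pwt a ≠ 0 := by
  intro h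
  have h1 := DFunLike.congr_fun h a.1
  unfold pwt at h1
  rw [Finsupp.single_eq_same, Finsupp.coe_zero, Pi.zero_apply] at h1
  omega

theorem PII_Gam.shift_aux (s : Setup I R K S) (D : ℕ)
    (h1 : ∀ (m : Prt I → ℤ) (a : Prt I) (n : Prt I → ℤ),
      EqTo D (s.Γ (m + n) (m - Pi.single a 1 + n)) (s.Γ m (m - Pi.single a 1)))
    (m m' n : Prt I → ℤ) :
    EqTo D (s.Γ (m + n) (m' + n)) (s.Γ m m') := by
  refine shift_induction D (fun m m' => ∀ n, EqTo D (s.Γ (m + n) (m' + n)) (s.Γ m m'))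
    ?_ ?_ ?_ ?_ m m' n
  · intro m m' hm n
    have e1 : EqTo D (s.Γ (m + n) (m' + n)) (s.Γ (m + n) (m + n)) :=
      s.Γ_congr (fun a _ => rfl) (fun a ha => by
        rw [Pi.add_apply, Pi.add_apply, hm a ha])
    have e2 : EqTo D (s.Γ m m') (s.Γ m m) :=
      s.Γ_congr (fun a _ => rfl) (fun a ha => (hm a ha).symm)
    rw [s.Γ_self] at e1 e2
    exact e1.trans e2.symm
  · intro m m' hm n
    refine EqTo.of_mul_eq_one (hm n) ?_ ?_
    · rw [s.Γ_mul, s.Γ_self]
    · rw [s.Γ_mul, s.Γ_self]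
  · intro m m' m'' h h' n
    rw [← s.Γ_mul (m + n) (m' + n) (m'' + n), ← s.Γ_mul m m' m'']
    exact (h n).mul (h' n)
  · intro m a n
    exact h1 m a n

/-- Translation invariance up to the degree `D`, by induction on `D`; in the step use
`shift_induction` for `P m m' := ∀ n, EqTo D (Γ (m + n) (m' + n)) (Γ m m')`. -/
theorem Setup.Γ_shift_to (s : Setup I R K S) (D : ℕ) (m m' n : Prt I → ℤ) :
    EqTo D (s.Γ (m + n) (m' + n)) (s.Γ m m') := by
  induction D generalizing m m' n with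
  | zero =>
    refine PII_Gam.shift_aux s 0 ?_ m m' n
    intro m a n
    have e : m - Pi.single a 1 + n = (m + n) - Pi.single a 1 := by abel
    rw [e, s.Γ_step, s.Γ_step]
    exact (EqTo.refl 0 1).sub (EqTo.monomial_mul_zero (PII_Gam.pwt_ne a) 1)
  | succ D ih =>
    refine PII_Gam.shift_aux s (D + 1) ?_ m m' n
    intro m a n
    have e : m - Pi.single a 1 + n = (m + n) - Pi.single a 1 := by abel
    have e' : (m + n) - Bm s.A a = (m - Bm s.A a) + n := by abel
    rw [e, s.Γ_step, s.Γ_step, e']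
    exact (EqTo.refl (D + 1) 1).sub
      (EqTo.monomial_mul (ih m (m - Bm s.A a) n) (PII_Gam.pwt_ne a) 1)

theorem Setup.Γ_shift (s : Setup I R K S) (m m' n : Prt I → ℤ) :
    s.Γ (m + n) (m' + n) = s.Γ m m' := eq_of_EqTo fun D => s.Γ_shift_to D m m' n

theorem Setup.Γ_add (s : Setup I R K S) (n n' : Prt I → ℤ) :
    s.Γ 0 (n + n') = s.Γ 0 n * s.Γ 0 n' := by
  have h := s.Γ_shift 0 n' n
  rw [zero_add, add_comm n' n] at h
  rw [← h, s.Γ_mul]

end Pool.Agent.H27.KAC
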