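import Pool.Agent.H27.KAC.PII_Fac

/-!
Project KAC, part II.1: the number of the homomorphisms between nilpotent matrices.
-/

set_option autoImplicit false

namespace Pool.Agent.H27.KAC

open scoped BigOperators

variable {F : Type} [Field F] [Fintype F]

omit [Fintype F] in
theorem PII_Hom_left_inv {n r : ℕ} {φ : Matrix (Fin n) (Fin r) F} (hφ : φ.rank = r) :
    ∃ φ' : Matrix (Fin r) (Fin n) F, φ' * φ = 1 := by
  have hker : LinearMap.ker φ.mulVecLin = ⊥ := by
    have h1 := LinearMap.finrank_range_add_finrank_ker φ.mulVecLin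
    have h2 : Module.finrank F (LinearMap.range φ.mulVecLin) = r := hφ
    rw [h2, Module.finrank_fin_fun] at h1
    have h3 : Module.finrank F (LinearMap.ker φ.mulVecLin) = 0 := by omega
    exact Submodule.finrank_eq_zero.mp h3
  obtain ⟨g, hg⟩ := LinearMap.exists_leftInverse_of_injective φ.mulVecLin hker
  refine ⟨LinearMap.toMatrix' g, ?_⟩
  have h4 : LinearMap.toMatrix' (g ∘ₗ φ.mulVecLin) = 1 := by
    rw [hg, LinearMap.toMatrix'_id]
  rw [LinearMap.toMatrix'_comp] at h4
  have h5 : LinearMap.toMatrix' φ.mulVecLin = φ := by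
    have := LinearMap.toMatrix'_toLin' φ
    rwa [Matrix.toLin'_apply'] at this
  rwa [h5] at h4

omit [Fintype F] in
theorem PII_Hom_right_inv {n r : ℕ} {τ : Matrix (Fin r) (Fin n) F} (hτ : τ.rank = r) :
    ∃ τ' : Matrix (Fin n) (Fin r) F, τ * τ' = 1 := by
  have h : τ.transpose.rank = r := by rw [Matrix.rank_transpose]; exact hτ
  obtain ⟨w, hw⟩ := PII_Hom_left_inv h
  refine ⟨w.transpose, ?_⟩
  have := congrArg Matrix.transpose hw
  rwa [Matrix.transpose_mul, Matrix.transpose_transpose, Matrix.transpose_one] at this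

/-- Matrices with `x φ = 0`. -/
theorem PII_Hom_card_K {m n r : ℕ} {φ : Matrix (Fin n) (Fin r) F} {φ' : Matrix (Fin r) (Fin n) F}
    (h : φ' * φ = 1) (hr : r ≤ n) :
    Nat.card {z : Matrix (Fin m) (Fin n) F // z * φ = 0} = Fintype.card F ^ (m * (n - r)) := by
  have e : Matrix (Fin m) (Fin n) F ≃ {z : Matrix (Fin m) (Fin n) F // z * φ = 0} ×
      Matrix (Fin m) (Fin r) F :=
    { toFun := fun x => (⟨x - x * φ * φ', by
        rw [Matrix.sub_mul, Matrix.mul_assoc (x * φ), h, Matrix.mul_one, sub_self]⟩, x * φ)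
      invFun := fun p => p.1.1 + p.2 * φ'
      left_inv := fun x => by simp
      right_inv := fun p => by
        obtain ⟨⟨z, hz⟩, y⟩ := p
        have h1 : (z + y * φ') * φ = y := by
          rw [Matrix.add_mul, hz, Matrix.mul_assoc, h, Matrix.mul_one, zero_add]
        ext1
        · apply Subtype.ext
          show z + y * φ' - (z + y * φ') * φ * φ' = z
          rw [h1, add_sub_cancel_right]
        · exact h1 }
  have hc := Nat.card_congr e
  rw [Nat.card_prod] at hc
  have c1 : ∀ a b : ℕ, Nat.card (Matrix (Fin a) (Fin b) F) = Fintype.card F ^ (a * b) := by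
    intro a b
    have h0 : Nat.card (Matrix (Fin a) (Fin b) F) = Nat.card (Fin a → Fin b → F) := rfl
    rw [h0, Nat.card_eq_fintype_card, Fintype.card_fun, Fintype.card_fun, Fintype.card_fin,
      Fintype.card_fin, ← pow_mul, Nat.mul_comm]
  rw [c1, c1] at hc
  have hq : 0 < Fintype.card F ^ (m * r) := pow_pos Fintype.card_pos _
  have h2 : m * n = m * (n - r) + m * r := by
    rw [← Nat.mul_add]
    congr 1
    omega
  rw [h2, pow_add] at hc
  exact (Nat.eq_of_mul_eq_mul_right hq hc).symm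

/-- Matrices with `z φ = 0` and `σ z = 0`. -/
theorem PII_Hom_card_Z {m n r s : ℕ} {φ : Matrix (Fin n) (Fin r) F}
    {φ' : Matrix (Fin r) (Fin n) F} {σ : Matrix (Fin s) (Fin m) F} {σ' : Matrix (Fin m) (Fin s) F}
    (h : φ' * φ = 1) (h' : σ * σ' = 1) (hr : r ≤ n) (hs : s ≤ m) :
    Nat.card {z : Matrix (Fin m) (Fin n) F // z * φ = 0 ∧ σ * z = 0} =
      Fintype.card F ^ ((n - r) * (m - s)) := by
  have e : {z : Matrix (Fin m) (Fin n) F // z * φ = 0} ≃
      {z : Matrix (Fin m) (Fin n) F // z * φ = 0 ∧ σ * z = 0} ×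
        {w : Matrix (Fin s) (Fin n) F // w * φ = 0} :=
    { toFun := fun x => (⟨x.1 - σ' * (σ * x.1), by
        constructor
        · rw [Matrix.sub_mul, x.2, Matrix.mul_assoc, Matrix.mul_assoc, x.2]
          simp
        · rw [Matrix.mul_sub, ← Matrix.mul_assoc σ σ', h', Matrix.one_mul, sub_self]⟩,
          ⟨σ * x.1, by rw [Matrix.mul_assoc, x.2, Matrix.mul_zero]⟩)
      invFun := fun p => ⟨p.1.1 + σ' * p.2.1, by
        rw [Matrix.add_mul, p.1.2.1, Matrix.mul_assoc, p.2.2, Matrix.mul_zero, add_zero]⟩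
      left_inv := fun x => by
        apply Subtype.ext
        simp
      right_inv := fun p => by
        obtain ⟨⟨z, hz, hz'⟩, ⟨w, hw⟩⟩ := p
        have h1 : σ * (z + σ' * w) = w := by
          rw [Matrix.mul_add, hz', ← Matrix.mul_assoc, h', Matrix.one_mul, zero_add]
        ext1
        · apply Subtype.ext
          show z + σ' * w - σ' * (σ * (z + σ' * w)) = z
          rw [h1, add_sub_cancel_right]
        · apply Subtype.ext
          exact h1 }
  have hc := Nat.card_congr e
  rw [Nat.card_prod, PII_Hom_card_K h hr, PII_Hom_card_K h hr] at hc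
  have hq : 0 < Fintype.card F ^ (s * (n - r)) := pow_pos Fintype.card_pos _
  have h2 : m * (n - r) = (n - r) * (m - s) + s * (n - r) := by
    have h3 : m = (m - s) + s := by omega
    calc m * (n - r) = ((m - s) + s) * (n - r) := by rw [← h3]
      _ = (n - r) * (m - s) + s * (n - r) := by ring
  rw [h2, pow_add] at hc
  exact (Nat.eq_of_mul_eq_mul_right hq hc).symm

/-- Passage to the images.  For `x` with `ψ σ x = x φ τ` the image of `x φ` is contained in the image of
`ψ` (`τ` is surjective), so `x φ = ψ y` with a unique `y` (`ψ` is injective), `σ x = y τ` and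
`σ ψ y = y τ φ`.  Conversely for given `y` with `σ ψ y = y τ φ` the set of the `x` with `x φ = ψ y` and
`σ x = y τ` is a coset of `{x | x φ = 0, σ x = 0}`, which has `q^((n - r) (m - s))` elements; it is not
empty: with a left inverse `φ'` of `φ` and a right inverse `σ'` of `σ` take
`x = ψ y φ' + σ' y τ (1 - φ φ')`. -/
theorem card_hom_rec {m n r s : ℕ} {φ : Matrix (Fin n) (Fin r) F} {τ : Matrix (Fin r) (Fin n) F}
    {ψ : Matrix (Fin m) (Fin s) F} {σ : Matrix (Fin s) (Fin m) F}
    (hφ : φ.rank = r) (hτ : τ.rank = r) (hψ : ψ.rank = s) (hσ : σ.rank = s) :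
    Nat.card {x : Matrix (Fin m) (Fin n) F // (ψ * σ) * x = x * (φ * τ)} =
      Fintype.card F ^ ((n - r) * (m - s)) *
        Nat.card {y : Matrix (Fin s) (Fin r) F // (σ * ψ) * y = y * (τ * φ)} := by
  obtain ⟨φ', hφ'⟩ := PII_Hom_left_inv hφ
  obtain ⟨τ', hτ'⟩ := PII_Hom_right_inv hτ
  obtain ⟨ψ', hψ'⟩ := PII_Hom_left_inv hψ
  obtain ⟨σ', hσ'⟩ := PII_Hom_right_inv hσ
  have hr : r ≤ n := by
    have := φ.rank_le_height
    omega
  have hs : s ≤ m := by
    have := ψ.rank_le_height
    omega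
  -- the section
  have sec1 : ∀ y : Matrix (Fin s) (Fin r) F,
      (ψ * y * φ' + σ' * y * τ * (1 - φ * φ')) * φ = ψ * y := by
    intro y
    have e1 : (1 - φ * φ') * φ = 0 := by
      rw [Matrix.sub_mul, Matrix.one_mul, Matrix.mul_assoc, hφ', Matrix.mul_one, sub_self]
    rw [Matrix.add_mul, Matrix.mul_assoc (ψ * y), hφ', Matrix.mul_one,
      Matrix.mul_assoc (σ' * y * τ), e1, Matrix.mul_zero, add_zero]
  have sec2 : ∀ y : Matrix (Fin s) (Fin r) F, (σ * ψ) * y = y * (τ * φ) →
      σ * (ψ * y * φ' + σ' * y * τ * (1 - φ * φ')) = y * τ := by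
    intro y hy
    have e1 : σ * (ψ * y * φ') = y * τ * (φ * φ') := by
      calc σ * (ψ * y * φ') = (σ * ψ * y) * φ' := by simp only [Matrix.mul_assoc]
        _ = y * τ * (φ * φ') := by rw [hy]; simp only [Matrix.mul_assoc]
    have e2 : σ * (σ' * y * τ * (1 - φ * φ')) = y * τ * (1 - φ * φ') := by
      calc σ * (σ' * y * τ * (1 - φ * φ')) = (σ * σ') * (y * τ * (1 - φ * φ')) := by
            simp only [Matrix.mul_assoc]
        _ = y * τ * (1 - φ * φ') := by rw [hσ', Matrix.one_mul]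
    rw [Matrix.mul_add, e1, e2, Matrix.mul_sub, Matrix.mul_one]
    abel
  have key1 : ∀ x : Matrix (Fin m) (Fin n) F, (ψ * σ) * x = x * (φ * τ) →
      ψ * (ψ' * x * φ) = x * φ := by
    intro x hx
    have e1 : x * φ = ψ * (σ * x * τ') := by
      calc x * φ = x * φ * (τ * τ') := by rw [hτ', Matrix.mul_one]
        _ = (x * (φ * τ)) * τ' := by simp only [Matrix.mul_assoc]
        _ = ψ * (σ * x * τ') := by rw [← hx]; simp only [Matrix.mul_assoc]
    calc ψ * (ψ' * x * φ) = ψ * (ψ' * (x * φ)) := by simp only [Matrix.mul_assoc]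
      _ = ψ * (ψ' * ψ * (σ * x * τ')) := by rw [e1]; simp only [Matrix.mul_assoc]
      _ = x * φ := by rw [hψ', Matrix.one_mul, ← e1]
  have key2 : ∀ x : Matrix (Fin m) (Fin n) F, (ψ * σ) * x = x * (φ * τ) →
      (ψ' * x * φ) * τ = σ * x := by
    intro x hx
    calc (ψ' * x * φ) * τ = ψ' * (x * (φ * τ)) := by simp only [Matrix.mul_assoc]
      _ = (ψ' * ψ) * (σ * x) := by rw [← hx]; simp only [Matrix.mul_assoc]
      _ = σ * x := by rw [hψ', Matrix.one_mul]
  have key3 : ∀ x : Matrix (Fin m) (Fin n) F, (ψ * σ) * x = x * (φ * τ) →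
      (σ * ψ) * (ψ' * x * φ) = (ψ' * x * φ) * (τ * φ) := by
    intro x hx
    rw [Matrix.mul_assoc, key1 x hx, ← Matrix.mul_assoc (ψ' * x * φ), key2 x hx,
      Matrix.mul_assoc]
  have e : {x : Matrix (Fin m) (Fin n) F // (ψ * σ) * x = x * (φ * τ)} ≃
      {z : Matrix (Fin m) (Fin n) F // z * φ = 0 ∧ σ * z = 0} ×
        {y : Matrix (Fin s) (Fin r) F // (σ * ψ) * y = y * (τ * φ)} :=
    { toFun := fun x =>
        (⟨x.1 - (ψ * (ψ' * x.1 * φ) * φ' + σ' * (ψ' * x.1 * φ) * τ * (1 - φ * φ')), by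
          constructor
          · rw [Matrix.sub_mul, sec1, key1 x.1 x.2, sub_self]
          · rw [Matrix.mul_sub, sec2 _ (key3 x.1 x.2), key2 x.1 x.2, sub_self]⟩,
          ⟨ψ' * x.1 * φ, key3 x.1 x.2⟩)
      invFun := fun p =>
        ⟨p.1.1 + (ψ * p.2.1 * φ' + σ' * p.2.1 * τ * (1 - φ * φ')), by
          have h1 : σ * (p.1.1 + (ψ * p.2.1 * φ' + σ' * p.2.1 * τ * (1 - φ * φ'))) =
              p.2.1 * τ := by
            rw [Matrix.mul_add, p.1.2.2, sec2 _ p.2.2, zero_add]
          have h2 : (p.1.1 + (ψ * p.2.1 * φ' + σ' * p.2.1 * τ * (1 - φ * φ'))) * φ =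
              ψ * p.2.1 := by
            rw [Matrix.add_mul, p.1.2.1, sec1, zero_add]
          rw [Matrix.mul_assoc ψ σ, h1, ← Matrix.mul_assoc _ φ τ, h2, Matrix.mul_assoc]⟩
      left_inv := fun x => by
        apply Subtype.ext
        simp
      right_inv := fun p => by
        obtain ⟨⟨z, hz, hz'⟩, ⟨y, hy⟩⟩ := p
        have h2 : (z + (ψ * y * φ' + σ' * y * τ * (1 - φ * φ'))) * φ = ψ * y := by
          rw [Matrix.add_mul, hz, sec1, zero_add]
        have h3 : ψ' * (z + (ψ * y * φ' + σ' * y * τ * (1 - φ * φ'))) * φ = y := by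
          rw [Matrix.mul_assoc, h2, ← Matrix.mul_assoc, hψ', Matrix.one_mul]
        ext1
        · apply Subtype.ext
          simp only [h3]
          rw [add_sub_cancel_right]
        · apply Subtype.ext
          exact h3 }
  rw [Nat.card_congr e, Nat.card_prod, PII_Hom_card_Z hφ' hσ' hr hs]

/-- Induction on `m + n` (`card_hom_rec`, `exists_fac`, `hasType_mul_iff`, `mlam_rec`); if `m = 0` or
`n = 0` there is one matrix and `mlam = 0`. -/
theorem card_hom {m n : ℕ} {S : Matrix (Fin m) (Fin m) F} {T : Matrix (Fin n) (Fin n) F}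
    {ν μ : ℕ →₀ ℕ} (hS : HasType S ν) (hT : HasType T μ) :
    Nat.card {x : Matrix (Fin m) (Fin n) F // S * x = x * T} = Fintype.card F ^ (mlam ν μ) := by
  induction' hN : m + n using Nat.strong_induction_on with N ih generalizing m n ν μ
  rcases Nat.eq_zero_or_pos m with hm | hm
  · subst hm
    have hν : ν = 0 := psize_eq_zero.mp hS.size
    subst hν
    have h0 : mlam 0 μ = 0 := by simp [mlam]
    rw [h0, pow_zero]
    have : Unique {x : Matrix (Fin 0) (Fin n) F // S * x = x * T} :=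
      { default := ⟨0, Subsingleton.elim _ _⟩
        uniq := fun a => Subtype.ext (Subsingleton.elim _ _) }
    exact Nat.card_unique
  rcases Nat.eq_zero_or_pos n with hn | hn
  · subst hn
    have hμ : μ = 0 := psize_eq_zero.mp hT.size
    subst hμ
    have h0 : mlam ν 0 = 0 := by simp [mlam]
    rw [h0, pow_zero]
    have : Unique {x : Matrix (Fin m) (Fin 0) F // S * x = x * T} :=
      { default := ⟨0, Subsingleton.elim _ _⟩
        uniq := fun a => Subtype.ext (Subsingleton.elim _ _) }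
    exact Nat.card_unique
  obtain ⟨φ, τ, hφ, hτ, hφτ⟩ := exists_fac T rfl
  obtain ⟨ψ, σ, hψ, hσ, hψσ⟩ := exists_fac S rfl
  have h1 := (hasType_mul_iff hφ hτ μ).mp (by rw [hφτ]; exact hT)
  have h2 := (hasType_mul_iff hψ hσ ν).mp (by rw [hψσ]; exact hS)
  have hμ : μ ≠ 0 := by
    rintro rfl
    have := hT.size
    rw [psize_eq_zero.mpr rfl] at this
    omega
  have hν : ν ≠ 0 := by
    rintro rfl
    have := hS.size
    rw [psize_eq_zero.mpr rfl] at this
    omega
  have hl := lam_zero_pos hμ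
  have hl' := lam_zero_pos hν
  have hr := card_hom_rec hφ hτ hψ hσ
  rw [hφτ, hψσ] at hr
  rw [hr, ih (S.rank + T.rank) (by omega) h2.2 h1.2 rfl, ← pow_add]
  congr 1
  rw [mlam_rec ν μ]
  have e1 : n - T.rank = lam μ 0 := by omega
  have e2 : m - S.rank = lam ν 0 := by omega
  rw [e1, e2, Nat.mul_comm]

end Pool.Agent.H27.KAC
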