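import Pool.Agent.H27.KAC.PI_Def

/-!
Project KAC, part I.1, module PI_Abs2: `SN` implies absolutely indecomposable.

PROOF SKETCH.  Suppose `SN V`.  `A = endAlg V`: each element is a scalar plus a nilpotent, so each element is a unit
or nilpotent, `A` is a local ring and the nilpotent elements form an ideal `n`, nilpotent since `A` is finite
(Artinian; `n` is contained in the Jacobson radical).  Let `K = AlgebraicClosure L` and let `p` be an idempotent
endomorphism of `V_K = extScalars K V`.  Choose a basis `(c_k)` of `K` over `L`: `p = ∑ c_k p_k` (finite sum), the `p_k` are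
endomorphisms of `V` (the equations `IsMor` have coefficients in `L`), `p_k = λ_k + n_k`, so `p = μ + n`,
`μ = ∑ c_k λ_k`, `n = ∑ c_k n_k`, and `n` is nilpotent (if a product of `j` elements of the ideal is zero then
`n^j = 0`).  So `p` is a scalar plus a nilpotent and an idempotent: `μ^2 - μ` is nilpotent, so `μ ∈ {0, 1}`, and `p` or
`1 - p` is a nilpotent idempotent, so zero.
-/

set_option autoImplicit false

namespace Pool.Agent.H27.KAC

open scoped BigOperators Pointwise
open Polynomial

theorem abs2_pi_nilpotent {I : Type} [Fintype I] {K : Type} [Field K] {β : I → ℕ}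
    {f : (i : I) → Matrix (Fin (β i)) (Fin (β i)) K} (h : ∀ i, IsNilpotent (f i)) :
    IsNilpotent f := by
  choose m hm using h
  refine ⟨∑ i, m i, ?_⟩
  funext i
  show f i ^ (∑ i, m i) = 0
  have h1 : m i ≤ ∑ i, m i := Finset.single_le_sum (fun _ _ => Nat.zero_le _) (Finset.mem_univ i)
  obtain ⟨k, hk⟩ := Nat.exists_eq_add_of_le h1
  rw [hk, pow_add, hm, zero_mul]

/-- If each element of a finite nontrivial algebra is a scalar plus a nilpotent, then the nilpotent elements are in a
nilpotent left ideal. -/
theorem abs2_nil_ideal {L A : Type} [Field L] [Ring A] [Nontrivial A] [Finite A] [Algebra L A]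
    (h : ∀ a : A, ∃ l : L, IsNilpotent (a - algebraMap L A l)) :
    ∃ (J : Ideal A) (j : ℕ), (∀ a, IsNilpotent a → a ∈ J) ∧ J ^ j = ⊥ := by
  have hunit : ∀ (l : L) (a : A), l ≠ 0 → IsNilpotent (a - algebraMap L A l) → IsUnit a := by
    intro l a hl ha
    have h1 : IsUnit (algebraMap L A l) := (isUnit_iff_ne_zero.2 hl).map (algebraMap L A)
    have h2 : a = algebraMap L A l + (a - algebraMap L A l) := by abel
    rw [h2]
    exact ha.isUnit_add_left_of_commute h1 (Algebra.commutes l _).symm
  have hmul : ∀ a b : A, IsNilpotent a → IsNilpotent (b * a) := by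
    intro a b ha
    obtain ⟨l, hl⟩ := h (b * a)
    by_cases h0 : l = 0
    · rw [h0, map_zero, sub_zero] at hl
      exact hl
    · exfalso
      obtain ⟨u, hu⟩ := hunit l _ h0 hl
      have h1 : IsUnit a := by
        have h2 : (↑u⁻¹ * b) * a = 1 := by
          rw [mul_assoc, ← hu, Units.inv_mul]
        exact IsUnit.of_mul_eq_one _ (mul_eq_one_comm.1 h2)
      exact not_isUnit_zero (M₀ := A) (by
        obtain ⟨m, hm⟩ := ha
        have := h1.pow m
        rwa [hm] at this)
  refine ⟨Ring.jacobson A, ?_⟩
  obtain ⟨j, hj⟩ := IsSemiprimaryRing.isNilpotent (R := A)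
  refine ⟨j, fun a ha => ?_, hj⟩
  rw [← Ideal.jacobson_bot, Ideal.mem_jacobson_iff]
  intro y
  have h1 : IsUnit (1 + y * a) := (hmul a y ha).isUnit_one_add
  obtain ⟨u, hu⟩ := h1
  refine ⟨↑u⁻¹, ?_⟩
  rw [Ideal.mem_bot, mul_assoc]
  have h2 : (↑u⁻¹ : A) * (y * a) + ↑u⁻¹ = ↑u⁻¹ * (1 + y * a) := by
    rw [mul_add, mul_one]
    abel
  rw [h2, ← hu, Units.inv_mul, sub_self]

/-- Products of `j` elements of `J` vanish. -/
theorem abs2_prod {A : Type} [Ring A] {J : Ideal A} : ∀ (j : ℕ) (X : Set A), (∀ a ∈ X, a ∈ J) →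
    ∀ a ∈ X ^ j, a ∈ J ^ j := by
  intro j
  induction j with
  | zero =>
    intro X _ a _
    rw [Submodule.pow_zero, Ideal.one_eq_top]
    trivial
  | succ j ih =>
    intro X hX a ha
    rw [pow_succ, Set.mem_mul] at ha
    obtain ⟨b, hb, c, hc, rfl⟩ := ha
    rw [Submodule.pow_succ]
    exact Submodule.mul_mem_mul (ih X hX b hb) (hX c hc)

/-- An idempotent which is a scalar plus a nilpotent is zero or one. -/
theorem abs2_idem {K B : Type} [Field K] [Ring B] [Nontrivial B] [Algebra K B] {p : B}
    (hp : p * p = p) {z : K} (h : IsNilpotent (p - algebraMap K B z)) : p = 0 ∨ p = 1 := by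
  have h1 : ∀ w : K, w ≠ 0 → IsUnit (p - algebraMap K B z + algebraMap K B w) := by
    intro w hw
    have h2 : IsUnit (algebraMap K B w) := (isUnit_iff_ne_zero.2 hw).map (algebraMap K B)
    rw [add_comm]
    exact h.isUnit_add_left_of_commute h2 (Algebra.commutes w _).symm
  by_cases hz : z = 0
  · left
    have h3 := h1 (-1) (by simp)
    rw [hz, map_zero, sub_zero, map_neg, map_one, ← sub_eq_add_neg] at h3
    have h4 : (p - 1) * p = 0 := by rw [sub_mul, one_mul, hp, sub_self]
    exact (h3.mul_right_eq_zero).1 h4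
  · right
    have h3 := h1 z hz
    rw [sub_add_cancel] at h3
    have h4 : p * (p - 1) = 0 := by rw [mul_sub, mul_one, hp, sub_self]
    exact sub_eq_zero.1 ((h3.mul_right_eq_zero).1 h4)

theorem absIndec_of_SN {I E : Type} [Fintype I] [DecidableEq I] {Q : Quiv I E} {L : Type}
    [Field L] [Fintype L] {β : I → ℕ} (V : Rp Q L β) (h : SN V) : AbsIndec V := by
  classical
  show Indec (mapRp (algebraMap L (AlgebraicClosure L)) V)
  obtain ⟨K, hK1, hK2, hK3⟩ : ∃ (K : Type) (_ : Field K) (_ : Algebra L K),
      (Indec (mapRp (algebraMap L K) V) → Indec (mapRp (algebraMap L (AlgebraicClosure L)) V)) :=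
    ⟨AlgebraicClosure L, inferInstance, inferInstance, id⟩
  apply hK3
  refine ⟨h.1, fun p hp hpp => ?_⟩
  obtain ⟨i0, hi0⟩ : ∃ i, β i ≠ 0 := by
    by_contra hcon
    push Not at hcon
    exact h.1 (funext hcon)
  have hne : Nonempty (Fin (β i0)) := ⟨⟨0, Nat.pos_of_ne_zero hi0⟩⟩
  let A := endAlg V
  have hfinA : Finite A := by
    have : Finite ((i : I) → Matrix (Fin (β i)) (Fin (β i)) L) := inferInstance
    exact Subtype.finite
  have hntA : Nontrivial A := by
    refine ⟨⟨0, 1, fun h0 => ?_⟩⟩
    have h1 := congrFun (congrArg Subtype.val h0) i0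
    exact zero_ne_one h1
  have hA : ∀ a : A, ∃ l : L, IsNilpotent (a - algebraMap L A l) := by
    rintro ⟨a, ha⟩
    obtain ⟨l, hl⟩ := h.2 a ha
    refine ⟨l, ?_⟩
    obtain ⟨m, hm⟩ := abs2_pi_nilpotent hl
    refine ⟨m, Subtype.ext ?_⟩
    show (a - algebraMap L _ l) ^ m = 0
    rw [← hm]
    congr 1
    rw [Algebra.algebraMap_eq_smul_one]
    rfl
  obtain ⟨J, j, hJ1, hJ2⟩ := abs2_nil_ideal hA
  let B := (i : I) → Matrix (Fin (β i)) (Fin (β i)) K
  have hntB : Nontrivial B := by
    refine ⟨⟨0, 1, fun h0 => ?_⟩⟩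
    have h1 := congrFun h0 i0
    exact zero_ne_one h1
  let φ : A →+* B :=
    { toFun := fun a i => (a.1 i).map (algebraMap L K)
      map_one' := by
        funext i
        exact Matrix.map_one _ (map_zero _) (map_one _)
      map_zero' := by
        funext i
        exact Matrix.map_zero _ (map_zero _)
      map_mul' := by
        intro a b
        funext i
        exact Matrix.map_mul
      map_add' := by
        intro a b
        funext i
        exact Matrix.map_add _ (map_add _) _ _ }
  let X : Set A := {a | IsNilpotent a}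
  let N : Submodule K B := Submodule.span K (φ '' X)
  have hNj : N ^ j = ⊥ := by
    show (Submodule.span K (φ '' X)) ^ j = ⊥
    rw [Submodule.span_pow, Submodule.span_eq_bot]
    intro b hb
    rw [← Set.image_pow] at hb
    obtain ⟨a, ha, rfl⟩ := hb
    have h1 := abs2_prod j X hJ1 a ha
    rw [hJ2, Submodule.mem_bot] at h1
    rw [h1, map_zero]
  have hφ : ∀ a : A, ∃ (z : K), φ a - algebraMap K B z ∈ N := by
    intro a
    obtain ⟨l, hl⟩ := hA a
    refine ⟨algebraMap L K l, ?_⟩
    have h1 : φ a - algebraMap K B (algebraMap L K l) = φ (a - algebraMap L A l) := by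
      rw [map_sub]
      congr 1
      funext i
      ext k m
      show (algebraMap K (Matrix (Fin (β i)) (Fin (β i)) K) (algebraMap L K l)) k m =
        algebraMap L K ((algebraMap L (Matrix (Fin (β i)) (Fin (β i)) L) l) k m)
      rw [Matrix.algebraMap_matrix_apply, Matrix.algebraMap_matrix_apply]
      split_ifs
      · rfl
      · rw [map_zero]
    rw [h1]
    exact Submodule.subset_span ⟨_, hl, rfl⟩
  have hspan : ∀ b : B, IsMor (mapRp (algebraMap L K) V) (mapRp (algebraMap L K) V) b →
      b ∈ Submodule.span K (Set.range φ) := by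
    intro b hb
    let bs := Module.Free.chooseBasis L K
    let S : Finset (Module.Free.ChooseBasisIndex L K) :=
      Finset.univ.biUnion (fun t : Σ i : I, Fin (β i) × Fin (β i) =>
        (bs.repr (b t.1 t.2.1 t.2.2)).support)
    have hmor : ∀ k, IsMor V V (fun i => (b i).map (fun z => bs.repr z k)) := by
      intro k e
      ext r c
      have h1 := congrArg (fun z => bs.repr z k) (congrFun (congrFun (hb e) r) c)
      simp only [Matrix.mul_apply, map_sum, Finsupp.coe_finsetSum, Finset.sum_apply] at h1
      rw [Matrix.mul_apply, Matrix.mul_apply]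
      have h2 : ∀ (z : K) (l : L), bs.repr (z * algebraMap L K l) k = bs.repr z k * l := by
        intro z l
        rw [mul_comm, ← Algebra.smul_def, map_smul, Finsupp.smul_apply, smul_eq_mul, mul_comm]
      have h3 : ∀ (z : K) (l : L), bs.repr (algebraMap L K l * z) k = l * bs.repr z k := by
        intro z l
        rw [← Algebra.smul_def, map_smul, Finsupp.smul_apply, smul_eq_mul]
      calc _ = ∑ x, bs.repr (b (Q.tgt e) r x * algebraMap L K (V e x c)) k :=
            Finset.sum_congr rfl fun x _ => (h2 _ _).symm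
        _ = ∑ x, bs.repr (algebraMap L K (V e r x) * b (Q.src e) x c) k := h1
        _ = _ := Finset.sum_congr rfl fun x _ => h3 _ _
    have hrep : b = ∑ k ∈ S, (bs k) •
        φ (⟨fun i => (b i).map (fun z => bs.repr z k), hmor k⟩ : endAlg V) := by
      funext i
      ext r c
      rw [Finset.sum_apply, Matrix.sum_apply]
      have h1 : (bs.repr (b i r c)).support ⊆ S := by
        intro k hk
        exact Finset.mem_biUnion.2 ⟨⟨i, r, c⟩, Finset.mem_univ _, hk⟩
      have h2 : b i r c = ∑ k ∈ S, bs.repr (b i r c) k • bs k := by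
        conv_lhs => rw [← bs.linearCombination_repr (b i r c)]
        rw [Finsupp.linearCombination_apply, Finsupp.sum_of_support_subset _ h1]
        intro k _
        exact zero_smul _ _
      rw [h2]
      refine Finset.sum_congr rfl fun k _ => ?_
      show _ = bs k * algebraMap L K (bs.repr (b i r c) k)
      rw [Algebra.smul_def, mul_comm]
    rw [hrep]
    exact Submodule.sum_mem _ fun k _ => Submodule.smul_mem _ _ (Submodule.subset_span ⟨_, rfl⟩)
  have hsn : ∀ b ∈ Submodule.span K (Set.range φ), ∃ z : K, b - algebraMap K B z ∈ N := by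
    intro b hb
    induction hb using Submodule.span_induction with
    | mem b hb =>
      obtain ⟨a, rfl⟩ := hb
      exact hφ a
    | zero => exact ⟨0, by rw [map_zero, sub_zero]; exact N.zero_mem⟩
    | add b c _ _ hb hc =>
      obtain ⟨z, hz⟩ := hb
      obtain ⟨w, hw⟩ := hc
      refine ⟨z + w, ?_⟩
      have h1 : b + c - algebraMap K B (z + w) =
          (b - algebraMap K B z) + (c - algebraMap K B w) := by
        rw [map_add]
        abel
      rw [h1]
      exact N.add_mem hz hw
    | smul w b _ hb =>
      obtain ⟨z, hz⟩ := hb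
      refine ⟨w * z, ?_⟩
      have h1 : w • b - algebraMap K B (w * z) = w • (b - algebraMap K B z) := by
        rw [smul_sub, map_mul, Algebra.smul_def w (algebraMap K B z)]
      rw [h1]
      exact N.smul_mem w hz
  obtain ⟨z, hz⟩ := hsn p (hspan p hp)
  have hnil : IsNilpotent (p - algebraMap K B z) := by
    refine ⟨j, ?_⟩
    have h1 := Submodule.pow_mem_pow N hz j
    rw [hNj, Submodule.mem_bot] at h1
    exact h1
  have hpp' : p * p = p := funext hpp
  rcases abs2_idem (K := K) (B := B) hpp' hnil with h1 | h1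
  · left
    intro i
    rw [h1]
    rfl
  · right
    intro i
    rw [h1]
    rfl

end Pool.Agent.H27.KAC
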