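import Pool.Agent.H27.KAC.PI_Abs
import Pool.Agent.H27.KAC.PI_Abs2

/-!
Project KAC, part I.1, module PI_Burn: number of the pairs `(V, s)`.

PROOF SKETCH.  `G = ∏ GL_(β i)(L)` acts on `Rp Q L β`; the orbits are the classes of `Isom`; the stabilizer of `V` is the
set of the automorphisms of `V`.  If `SN V`, then `(l, s) ↦ l + s` is a bijection of `Lˣ × {nilpotent endomorphisms}` with the
automorphisms (`β ≠ 0`: a scalar plus a nilpotent is invertible iff the scalar is not zero; if `l + s = l' + s'`, then `s`, `s'`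
commute and `l' - l` is nilpotent, so zero).  So
`card (SNPairs) * (card L - 1) = ∑_(V with SN) card (Aut V) = (number of the classes) * card G` (orbit-stabilizer in each
class), and the classes with `SN` are those of `absIndecClasses` (`SN_of_absIndec`, `absIndec_of_SN`; `SN` is invariant under
`Isom`).
-/

set_option autoImplicit false

namespace Pool.Agent.H27.KAC

open scoped BigOperators
open Polynomial

section

variable {I E : Type} (Q : Quiv I E) (L : Type) [Field L] (β : I → ℕ)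

/-- The group acting on the representations. -/
private abbrev PI_Burn_G : Type := (i : I) → (Matrix (Fin (β i)) (Fin (β i)) L)ˣ

variable {Q L β}

/-- The matrices of an element of the group. -/
private def PI_Burn_m (g : PI_Burn_G L β) (i : I) : Matrix (Fin (β i)) (Fin (β i)) L := (g i).val

private def PI_Burn_n (g : PI_Burn_G L β) (i : I) : Matrix (Fin (β i)) (Fin (β i)) L :=
  ((g i)⁻¹).val

private theorem PI_Burn_mn (g : PI_Burn_G L β) (i : I) : PI_Burn_m g i * PI_Burn_n g i = 1 :=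
  Units.mul_inv (g i)

private theorem PI_Burn_nm (g : PI_Burn_G L β) (i : I) : PI_Burn_n g i * PI_Burn_m g i = 1 :=
  Units.inv_mul (g i)

/-- The action on the representations. -/
private def PI_Burn_act (g : PI_Burn_G L β) (x : Rp Q L β) : Rp Q L β :=
  fun e => PI_Burn_m g (Q.tgt e) * x e * PI_Burn_n g (Q.src e)

private theorem PI_Burn_act_eq_iff (g : PI_Burn_G L β) (x y : Rp Q L β) :
    PI_Burn_act g x = y ↔ IsMor x y (fun i => (g i : Matrix (Fin (β i)) (Fin (β i)) L)) := by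
  constructor
  · rintro rfl e
    show PI_Burn_m g (Q.tgt e) * x e =
      PI_Burn_m g (Q.tgt e) * x e * PI_Burn_n g (Q.src e) * PI_Burn_m g (Q.src e)
    rw [Matrix.mul_assoc _ _ (PI_Burn_m g (Q.src e)), PI_Burn_nm, Matrix.mul_one]
  · intro h
    funext e
    have h1 : PI_Burn_m g (Q.tgt e) * x e = y e * PI_Burn_m g (Q.src e) := h e
    show PI_Burn_m g (Q.tgt e) * x e * PI_Burn_n g (Q.src e) = y e
    rw [h1, Matrix.mul_assoc, PI_Burn_mn, Matrix.mul_one]

private theorem PI_Burn_rule (g : PI_Burn_G L β) (x : Rp Q L β) (e : E) :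
    PI_Burn_m g (Q.tgt e) * x e = PI_Burn_act g x e * PI_Burn_m g (Q.src e) :=
  (PI_Burn_act_eq_iff g x _).1 rfl e

private theorem PI_Burn_one (x : Rp Q L β) : PI_Burn_act (1 : PI_Burn_G L β) x = x := by
  rw [PI_Burn_act_eq_iff]
  intro e
  have h1 : (1 : Matrix (Fin (β (Q.tgt e))) (Fin (β (Q.tgt e))) L) * x e =
    x e * (1 : Matrix (Fin (β (Q.src e))) (Fin (β (Q.src e))) L) := by
    rw [Matrix.one_mul, Matrix.mul_one]
  exact h1

private theorem PI_Burn_mul (g h : PI_Burn_G L β) (x : Rp Q L β) :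
    PI_Burn_act (g * h) x = PI_Burn_act g (PI_Burn_act h x) := by
  rw [PI_Burn_act_eq_iff]
  intro e
  have h1 := PI_Burn_rule h x e
  have h2 := PI_Burn_rule g (PI_Burn_act h x) e
  have h3 : PI_Burn_m g (Q.tgt e) * PI_Burn_m h (Q.tgt e) * x e =
      PI_Burn_act g (PI_Burn_act h x) e * (PI_Burn_m g (Q.src e) * PI_Burn_m h (Q.src e)) := by
    rw [Matrix.mul_assoc, h1, ← Matrix.mul_assoc, h2, Matrix.mul_assoc]
  exact h3

private theorem PI_Burn_SN (g : PI_Burn_G L β) (x : Rp Q L β) (h : SN x) :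
    SN (PI_Burn_act g x) := by
  refine ⟨h.1, fun c hc => ?_⟩
  obtain ⟨l, hl⟩ := h.2 (fun i => PI_Burn_n g i * c i * PI_Burn_m g i) (by
    intro e
    have h1 := PI_Burn_rule g x e
    have h2 : c (Q.tgt e) * PI_Burn_act g x e = PI_Burn_act g x e * c (Q.src e) := hc e
    have h3 : x e = PI_Burn_n g (Q.tgt e) *
        (PI_Burn_act g x e * PI_Burn_m g (Q.src e)) := by
      rw [← h1, ← Matrix.mul_assoc, PI_Burn_nm, Matrix.one_mul]
    show PI_Burn_n g (Q.tgt e) * c (Q.tgt e) * PI_Burn_m g (Q.tgt e) * x e =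
      x e * (PI_Burn_n g (Q.src e) * c (Q.src e) * PI_Burn_m g (Q.src e))
    calc PI_Burn_n g (Q.tgt e) * c (Q.tgt e) * PI_Burn_m g (Q.tgt e) * x e
        = PI_Burn_n g (Q.tgt e) * (c (Q.tgt e) * (PI_Burn_m g (Q.tgt e) * x e)) := by
          simp only [Matrix.mul_assoc]
      _ = PI_Burn_n g (Q.tgt e) * ((c (Q.tgt e) * PI_Burn_act g x e) *
          PI_Burn_m g (Q.src e)) := by
          rw [h1, Matrix.mul_assoc (c (Q.tgt e))]
      _ = PI_Burn_n g (Q.tgt e) * (PI_Burn_act g x e *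
          (PI_Burn_m g (Q.src e) * PI_Burn_n g (Q.src e)) *
          c (Q.src e) * PI_Burn_m g (Q.src e)) := by
          rw [h2, PI_Burn_mn, Matrix.mul_one]
      _ = PI_Burn_n g (Q.tgt e) *
          (PI_Burn_act g x e * PI_Burn_m g (Q.src e)) *
          (PI_Burn_n g (Q.src e) * c (Q.src e) * PI_Burn_m g (Q.src e)) := by
          simp only [Matrix.mul_assoc]
      _ = x e * (PI_Burn_n g (Q.src e) * c (Q.src e) * PI_Burn_m g (Q.src e)) := by
          rw [← h3])
  refine ⟨l, fun i => ?_⟩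
  obtain ⟨n, hn⟩ := hl i
  refine ⟨n, ?_⟩
  have h1 : c i - l • (1 : Matrix (Fin (β i)) (Fin (β i)) L) =
      (g i : Matrix (Fin (β i)) (Fin (β i)) L) * (PI_Burn_n g i * c i * PI_Burn_m g i -
        l • (1 : Matrix (Fin (β i)) (Fin (β i)) L)) *
        (((g i)⁻¹ : (Matrix (Fin (β i)) (Fin (β i)) L)ˣ) :
          Matrix (Fin (β i)) (Fin (β i)) L) := by
    show c i - l • (1 : Matrix (Fin (β i)) (Fin (β i)) L) =
      PI_Burn_m g i * (PI_Burn_n g i * c i * PI_Burn_m g i -
        l • (1 : Matrix (Fin (β i)) (Fin (β i)) L)) * PI_Burn_n g i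
    rw [mul_sub, sub_mul, mul_smul_comm, mul_one, smul_mul_assoc, PI_Burn_mn]
    congr 1
    rw [← mul_assoc, ← mul_assoc, PI_Burn_mn, one_mul, mul_assoc, PI_Burn_mn, mul_one]
  rw [h1, Units.conj_pow, hn, mul_zero, zero_mul]

private def PI_Burn_S (Q : Quiv I E) (L : Type) [Field L] (β : I → ℕ) : Type :=
  {V : Rp Q L β // SN V}

private instance PI_Burn_inst : MulAction (PI_Burn_G L β) (PI_Burn_S Q L β) where
  smul g V := ⟨PI_Burn_act g V.1, PI_Burn_SN g V.1 V.2⟩
  one_smul V := Subtype.ext (PI_Burn_one V.1)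
  mul_smul g h V := Subtype.ext (PI_Burn_mul g h V.1)

private theorem PI_Burn_smul_val (g : PI_Burn_G L β) (V : PI_Burn_S Q L β) :
    (g • V).1 = PI_Burn_act g V.1 := rfl

private theorem PI_Burn_isom_iff (x y : Rp Q L β) :
    Isom x y ↔ ∃ g : PI_Burn_G L β, PI_Burn_act g x = y := by
  constructor
  · rintro ⟨g, hg⟩
    exact ⟨g, (PI_Burn_act_eq_iff g x y).2 hg⟩
  · rintro ⟨g, hg⟩
    exact ⟨g, (PI_Burn_act_eq_iff g x y).1 hg⟩

private theorem PI_Burn_isom_refl (x : Rp Q L β) : Isom x x :=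
  (PI_Burn_isom_iff x x).2 ⟨1, PI_Burn_one x⟩

private theorem PI_Burn_isom_symm {x y : Rp Q L β} (h : Isom x y) : Isom y x := by
  obtain ⟨g, rfl⟩ := (PI_Burn_isom_iff x y).1 h
  refine (PI_Burn_isom_iff _ _).2 ⟨g⁻¹, ?_⟩
  rw [← PI_Burn_mul, inv_mul_cancel, PI_Burn_one]

private theorem PI_Burn_isom_trans {x y z : Rp Q L β} (h : Isom x y) (h' : Isom y z) :
    Isom x z := by
  obtain ⟨g, rfl⟩ := (PI_Burn_isom_iff x y).1 h
  obtain ⟨g', rfl⟩ := (PI_Burn_isom_iff _ z).1 h'
  exact (PI_Burn_isom_iff _ _).2 ⟨g' * g, PI_Burn_mul _ _ _⟩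

private theorem PI_Burn_rel (V W : PI_Burn_S Q L β) :
    MulAction.orbitRel (PI_Burn_G L β) (PI_Burn_S Q L β) V W ↔ Isom V.1 W.1 := by
  rw [MulAction.orbitRel_apply, MulAction.mem_orbit_iff]
  constructor
  · rintro ⟨g, rfl⟩
    exact PI_Burn_isom_symm ((PI_Burn_isom_iff _ _).2 ⟨g, rfl⟩)
  · intro h
    obtain ⟨g, hg⟩ := (PI_Burn_isom_iff _ _).1 (PI_Burn_isom_symm h)
    exact ⟨g, Subtype.ext hg⟩

private theorem PI_Burn_classes [Fintype I] [DecidableEq I] [Fintype L] :
    Nat.card (Quotient (MulAction.orbitRel (PI_Burn_G L β) (PI_Burn_S Q L β))) =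
      kacCount Q L β := by
  unfold kacCount
  rw [← Nat.card_coe_set_eq]
  have hwd : ∀ V W : PI_Burn_S Q L β,
      MulAction.orbitRel (PI_Burn_G L β) (PI_Burn_S Q L β) V W →
      (⟨{y | Isom V.1 y}, V.1, absIndec_of_SN V.1 V.2, rfl⟩ : absIndecClasses Q L β) =
        ⟨{y | Isom W.1 y}, W.1, absIndec_of_SN W.1 W.2, rfl⟩ := by
    intro V W h
    rw [PI_Burn_rel] at h
    apply Subtype.ext
    ext y
    exact ⟨fun hy => PI_Burn_isom_trans (PI_Burn_isom_symm h) hy,
      fun hy => PI_Burn_isom_trans h hy⟩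
  refine Nat.card_congr (Equiv.ofBijective (Quotient.lift (fun V : PI_Burn_S Q L β =>
    (⟨{y | Isom V.1 y}, V.1, absIndec_of_SN V.1 V.2, rfl⟩ : absIndecClasses Q L β)) hwd) ⟨?_, ?_⟩)
  · intro a b hab
    induction a using Quotient.inductionOn with
    | _ V =>
      induction b using Quotient.inductionOn with
      | _ W =>
        apply Quotient.sound
        show MulAction.orbitRel (PI_Burn_G L β) (PI_Burn_S Q L β) V W
        rw [PI_Burn_rel]
        have h1 : {y | Isom V.1 y} = {y | Isom W.1 y} := congrArg Subtype.val hab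
        have h2 : W.1 ∈ {y | Isom V.1 y} := by
          rw [h1]
          exact PI_Burn_isom_refl W.1
        exact h2
  · rintro ⟨c, x, hx, rfl⟩
    exact ⟨Quotient.mk _ ⟨x, SN_of_absIndec x hx⟩, rfl⟩

private theorem PI_Burn_mor_scal (V : Rp Q L β) (l : L) :
    IsMor V V (fun i => l • (1 : Matrix (Fin (β i)) (Fin (β i)) L)) := by
  intro e
  simp only [Matrix.smul_mul, Matrix.mul_smul, Matrix.one_mul, Matrix.mul_one]

private theorem PI_Burn_mor_add {V : Rp Q L β}
    {f f' : (i : I) → Matrix (Fin (β i)) (Fin (β i)) L} (h : IsMor V V f) (h' : IsMor V V f') :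
    IsMor V V (fun i => f i + f' i) := by
  intro e
  simp only [Matrix.add_mul, Matrix.mul_add, h e, h' e]

private theorem PI_Burn_mor_sub {V : Rp Q L β}
    {f f' : (i : I) → Matrix (Fin (β i)) (Fin (β i)) L} (h : IsMor V V f) (h' : IsMor V V f') :
    IsMor V V (fun i => f i - f' i) := by
  intro e
  simp only [Matrix.sub_mul, Matrix.mul_sub, h e, h' e]

/-- The automorphism `l + s`. -/
private theorem PI_Burn_unit {i : I} (l : Lˣ) (s : Matrix (Fin (β i)) (Fin (β i)) L)
    (hs : IsNilpotent s) : IsUnit ((l : L) • (1 : Matrix (Fin (β i)) (Fin (β i)) L) + s) := by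
  apply IsNilpotent.isUnit_add_left_of_commute hs
  · have h1 : (l : L) • (1 : Matrix (Fin (β i)) (Fin (β i)) L) = algebraMap L _ (l : L) := by
      rw [Algebra.algebraMap_eq_smul_one]
    rw [h1]
    exact l.isUnit.map (algebraMap L (Matrix (Fin (β i)) (Fin (β i)) L))
  · exact (Commute.one_right s).smul_right (l : L)

private theorem PI_Burn_scal {n : ℕ} (hn : n ≠ 0) {l : L}
    (h : IsNilpotent (l • (1 : Matrix (Fin n) (Fin n) L))) : l = 0 := by
  obtain ⟨k, hk⟩ := h
  rw [_root_.smul_pow, one_pow] at hk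
  have : Nonempty (Fin n) := ⟨⟨0, Nat.pos_of_ne_zero hn⟩⟩
  have h1 : l ^ k = 0 := by
    have h2 := congrFun (congrFun hk ⟨0, Nat.pos_of_ne_zero hn⟩) ⟨0, Nat.pos_of_ne_zero hn⟩
    simpa using h2
  exact eq_zero_of_pow_eq_zero h1

private theorem PI_Burn_sum [Fintype I] [DecidableEq I] :
    Nat.card (SNPairs Q L β × Lˣ) =
      Nat.card (Σ g : PI_Burn_G L β, MulAction.fixedBy (PI_Burn_S Q L β) g) := by
  have hmor : ∀ (p : SNPairs Q L β) (l : Lˣ), IsMor p.1.1 p.1.1
      (fun i => (l : L) • (1 : Matrix (Fin (β i)) (Fin (β i)) L) + p.1.2 i) := by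
    intro p l
    exact PI_Burn_mor_add (PI_Burn_mor_scal p.1.1 (l : L)) p.2.2.1
  let u : SNPairs Q L β × Lˣ → PI_Burn_G L β := fun w i =>
    (PI_Burn_unit w.2 (w.1.1.2 i) (w.1.2.2.2 i)).unit
  have hu : ∀ w i, ((u w i : (Matrix (Fin (β i)) (Fin (β i)) L)ˣ) : Matrix _ _ L) =
      (w.2 : L) • (1 : Matrix (Fin (β i)) (Fin (β i)) L) + w.1.1.2 i := by
    intro w i
    rfl
  refine Nat.card_congr (Equiv.ofBijective (fun w => ⟨u w, ⟨⟨w.1.1.1, w.1.2.1⟩, ?_⟩⟩) ⟨?_, ?_⟩)
  · rw [MulAction.mem_fixedBy]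
    apply Subtype.ext
    exact (PI_Burn_act_eq_iff (u w) w.1.1.1 w.1.1.1).2 (hmor w.1 w.2)
  · rintro ⟨⟨⟨V, s⟩, hV, hs, hn⟩, l⟩ ⟨⟨⟨V', s'⟩, hV', hs', hn'⟩, l'⟩ hw
    have h0 := Sigma.mk.inj_iff.1 hw
    have h1 := h0.1
    have h2 : V = V' := by
      have h3 : ∀ (g g' : PI_Burn_G L β) (a : MulAction.fixedBy (PI_Burn_S Q L β) g)
          (b : MulAction.fixedBy (PI_Burn_S Q L β) g'), g = g' → HEq a b → a.1 = b.1 := by
        rintro g g' a b rfl hab
        rw [eq_of_heq hab]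
      exact congrArg Subtype.val (h3 _ _ _ _ h0.1 h0.2)
    subst h2
    have h4 : ∀ i, (l : L) • (1 : Matrix (Fin (β i)) (Fin (β i)) L) + s i =
        (l' : L) • (1 : Matrix (Fin (β i)) (Fin (β i)) L) + s' i := by
      intro i
      exact congrArg Units.val (congrFun h1 i)
    obtain ⟨i, hi⟩ : ∃ i, β i ≠ 0 := by
      by_contra hcon
      push Not at hcon
      exact hV.1 (funext hcon)
    have h5 : (l' : L) - (l : L) = 0 := by
      apply PI_Burn_scal hi
      have h6 : ((l' : L) - (l : L)) • (1 : Matrix (Fin (β i)) (Fin (β i)) L) = s i - s' i := by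
        have h7 := h4 i
        rw [sub_smul, sub_eq_sub_iff_add_eq_add, ← h7, add_comm]
      rw [h6]
      have h8 : s' i = s i - ((l' : L) - (l : L)) • (1 : Matrix (Fin (β i)) (Fin (β i)) L) := by
        rw [h6, sub_sub_cancel]
      have h9 : Commute (s i) (s' i) := by
        rw [h8]
        exact (Commute.refl (s i)).sub_right ((Commute.one_right (s i)).smul_right _)
      exact h9.isNilpotent_sub (hn i) (hn' i)
    have h9 : l = l' := Units.ext (sub_eq_zero.1 h5).symm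
    subst h9
    have h10 : s = s' := by
      funext i
      exact add_left_cancel (h4 i)
    subst h10
    rfl
  · rintro ⟨g, ⟨V, hSN⟩, hV⟩
    have hV' : PI_Burn_act g V = V := congrArg Subtype.val hV
    have hm := (PI_Burn_act_eq_iff g V V).1 hV'
    obtain ⟨l, hl⟩ := hSN.2 _ hm
    obtain ⟨i, hi⟩ : ∃ i, β i ≠ 0 := by
      by_contra hcon
      push Not at hcon
      exact hSN.1 (funext hcon)
    have hl0 : l ≠ 0 := by
      rintro rfl
      have h1 := hl i
      rw [zero_smul, sub_zero] at h1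
      have : Nonempty (Fin (β i)) := ⟨⟨0, Nat.pos_of_ne_zero hi⟩⟩
      obtain ⟨k, hk⟩ := h1
      have h2 : IsUnit ((g i : Matrix (Fin (β i)) (Fin (β i)) L) ^ k) := (g i).isUnit.pow k
      rw [hk] at h2
      exact not_isUnit_zero h2
    have hd : IsMor V V (fun i => (g i : Matrix (Fin (β i)) (Fin (β i)) L) - l • 1) :=
      PI_Burn_mor_sub hm (PI_Burn_mor_scal V l)
    refine ⟨(⟨(V, fun i => (g i : Matrix (Fin (β i)) (Fin (β i)) L) - l • 1), hSN, hd, hl⟩,
      Units.mk0 l hl0), ?_⟩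
    · have h1 : u (⟨(V, fun i => (g i : Matrix (Fin (β i)) (Fin (β i)) L) - l • 1), hSN, hd, hl⟩,
          Units.mk0 l hl0) = g := by
        funext i
        apply Units.ext
        rw [hu]
        show l • (1 : Matrix (Fin (β i)) (Fin (β i)) L) +
          ((g i : Matrix (Fin (β i)) (Fin (β i)) L) - l • 1) = g i
        rw [add_sub_cancel]
      have h3 : ∀ (g g' : PI_Burn_G L β) (a : MulAction.fixedBy (PI_Burn_S Q L β) g)
          (b : MulAction.fixedBy (PI_Burn_S Q L β) g'), g = g' → a.1 = b.1 →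
          (⟨g, a⟩ : Σ g : PI_Burn_G L β, MulAction.fixedBy (PI_Burn_S Q L β) g) = ⟨g', b⟩ := by
        rintro g g' a b rfl hab
        rw [Subtype.ext hab]
      exact h3 _ _ _ _ h1 rfl

end

theorem card_SNPairs {I E : Type} [Fintype I] [DecidableEq I] [Fintype E] (Q : Quiv I E)
    (L : Type) [Field L] [Fintype L] (β : I → ℕ) :
    Nat.card (SNPairs Q L β) * (Fintype.card L - 1) =
      kacCount Q L β * ∏ i, Nat.card (Matrix (Fin (β i)) (Fin (β i)) L)ˣ := by
  have h1 : Nat.card (SNPairs Q L β × Lˣ) = Nat.card (SNPairs Q L β) * (Fintype.card L - 1) := by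
    rw [Nat.card_prod, Nat.card_units, Nat.card_eq_fintype_card (α := L)]
  have h2 : Nat.card (Quotient (MulAction.orbitRel (PI_Burn_G L β) (PI_Burn_S Q L β)) ×
      PI_Burn_G L β) =
      kacCount Q L β * ∏ i, Nat.card (Matrix (Fin (β i)) (Fin (β i)) L)ˣ := by
    rw [Nat.card_prod, PI_Burn_classes, Nat.card_pi]
  rw [← h1, ← h2, PI_Burn_sum]
  exact Nat.card_congr (MulAction.sigmaFixedByEquivOrbitsProdGroup (PI_Burn_G L β)
    (PI_Burn_S Q L β))

end Pool.Agent.H27.KAC
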