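import Pool.Agent.H27.KAC.PI_Def

/-!
Project KAC, part I.1, module PI_Pi: good polynomials exist in each degree over a finite field, and the field they
define.

PROOF SKETCH.  `exists_goodPi`: there is an extension of degree `N` of `F` (splitting field of `X^(q^N) - X`, or a
Galois field); let `θ` be a generator of its multiplicative group and `π = minpoly F θ`; `F⟮θ⟯ = ⊤`, `θ ≠ 0`.
`exists_ext`: `L = AdjoinRoot π`.
-/

set_option autoImplicit false

namespace Pool.Agent.H27.KAC

open scoped BigOperators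
open Polynomial

private theorem Pi_gen (F L : Type) [Field F] [Field L] [Algebra F L] [Finite L] :
    ∃ θ : L, θ ≠ 0 ∧ IntermediateField.adjoin F {θ} = ⊤ := by
  obtain ⟨θ, hθ⟩ := @IsCyclic.exists_generator Lˣ _ _
  refine ⟨θ, θ.ne_zero, ?_⟩
  rw [eq_top_iff]
  rintro x -
  by_cases hx : x = 0
  · rw [hx]
    exact (IntermediateField.adjoin F {(θ : L)}).zero_mem
  · obtain ⟨n, hn⟩ := Subgroup.mem_zpowers_iff.mp (hθ (Units.mk0 x hx))
    rw [show x = (θ : L) ^ n by norm_cast; rw [hn, Units.val_mk0]]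
    exact zpow_mem (IntermediateField.mem_adjoin_simple_self F (θ : L)) n

theorem exists_goodPi (F : Type) [Field F] [Fintype F] (N : ℕ) (hN : 1 ≤ N) :
    ∃ π : F[X], GoodPi F π N := by
  obtain ⟨p, hp⟩ := CharP.exists F
  have : Fact p.Prime := ⟨CharP.char_is_prime F p⟩
  have : NeZero N := ⟨by omega⟩
  obtain ⟨θ, hθ0, hθ⟩ := Pi_gen F (FiniteField.Extension F p N)
  have hint : IsIntegral F θ := Algebra.IsIntegral.isIntegral θ
  refine ⟨minpoly F θ, minpoly.irreducible hint, minpoly.monic hint, ?_,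
    minpoly.coeff_zero_ne_zero hint hθ0⟩
  rw [← IntermediateField.adjoin.finrank hint, hθ, IntermediateField.finrank_top',
    FiniteField.finrank_extension]

theorem exists_ext (F : Type) [Field F] [Fintype F] {π : F[X]} {N : ℕ} (hπ : GoodPi F π N) :
    ∃ (L : Type) (_ : Field L) (_ : Fintype L) (_ : Algebra F L) (θ : L),
      aeval θ π = 0 ∧ Module.finrank F L = N ∧ Fintype.card L = Fintype.card F ^ N := by
  have : Fact (Irreducible π) := ⟨hπ.irr⟩
  have h1 : Module.finrank F (AdjoinRoot π) = N := by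
    rw [(AdjoinRoot.powerBasis hπ.irr.ne_zero).finrank, AdjoinRoot.powerBasis_dim, hπ.deg]
  have : Module.Finite F (AdjoinRoot π) := (AdjoinRoot.powerBasis hπ.irr.ne_zero).finite
  have : Finite (AdjoinRoot π) := Module.finite_of_finite F
  letI : Fintype (AdjoinRoot π) := Fintype.ofFinite _
  refine ⟨AdjoinRoot π, inferInstance, inferInstance, inferInstance, AdjoinRoot.root π, ?_, h1, ?_⟩
  · rw [AdjoinRoot.aeval_eq, AdjoinRoot.mk_self]
  · rw [Module.card_eq_pow_finrank (K := F) (V := AdjoinRoot π), h1]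

end Pool.Agent.H27.KAC
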