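import Pool.Agent.H27.KAC.PI_Comm

/-!
Project KAC, part I.1, module PI_Orb: number of the solutions of `v π(v) = 0` of given rank.

PROOF SKETCH.  `GL_a(F)` acts by conjugation on the set of these matrices; it is not empty (`exists_matrix_chart`),
transitive (`exists_chart`, `chart_rank`: two such matrices have charts with the same `b` and `c`, `N ≥ 1`;
compose one chart with the inverse of the other), and the stabilizer has
order `card GL_b(L) * card GL_c(F)` (`card_centralizer`).  Orbit-stabilizer.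
-/

set_option autoImplicit false

namespace Pool.Agent.H27.KAC

open scoped BigOperators
open Polynomial

section

variable {F : Type} [Field F] {L : Type} [Field L] [Algebra F L] {θ : L}

/-- transport of a chart by conjugation -/
noncomputable def PI_Orb_conj {a b c : ℕ} {v : Matrix (Fin a) (Fin a) F} (C : Chart θ v b c)
    (g : (Matrix (Fin a) (Fin a) F)ˣ) :
    Chart θ ((g : Matrix (Fin a) (Fin a) F) * v * ((g⁻¹ : (Matrix (Fin a) (Fin a) F)ˣ) :
      Matrix (Fin a) (Fin a) F)) b c where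
  Ψ := (Matrix.toLin'OfInv (M := (g : Matrix (Fin a) (Fin a) F))
    (M' := ((g⁻¹ : (Matrix (Fin a) (Fin a) F)ˣ) : Matrix (Fin a) (Fin a) F))
    (Units.mul_inv g) (Units.inv_mul g)).trans C.Ψ
  hΨ := by
    intro z
    have h1 : ∀ y : Fin a → F, ((Matrix.toLin'OfInv (M := (g : Matrix (Fin a) (Fin a) F))
        (M' := ((g⁻¹ : (Matrix (Fin a) (Fin a) F)ˣ) : Matrix (Fin a) (Fin a) F))
        (Units.mul_inv g) (Units.inv_mul g)).trans C.Ψ) y =
        C.Ψ (((g⁻¹ : (Matrix (Fin a) (Fin a) F)ˣ) : Matrix (Fin a) (Fin a) F).mulVec y) := by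
      intro y
      rfl
    rw [h1, h1, Matrix.mulVec_mulVec, ← mul_assoc, ← mul_assoc, Units.inv_mul, one_mul,
      ← Matrix.mulVec_mulVec, C.hΨ]

/-- the isomorphism of two charts as a unit -/
noncomputable def PI_Orb_unit {a b c : ℕ} {v v' : Matrix (Fin a) (Fin a) F} (C : Chart θ v b c)
    (C' : Chart θ v' b c) : (Matrix (Fin a) (Fin a) F)ˣ where
  val := up C C' 1 1
  inv := up C' C 1 1
  val_inv := by rw [up_mul, mul_one, mul_one, up_one]
  inv_val := by rw [up_mul, mul_one, mul_one, up_one]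

theorem PI_Orb_unit_comm {a b c : ℕ} {v v' : Matrix (Fin a) (Fin a) F} (C : Chart θ v b c)
    (C' : Chart θ v' b c) :
    (PI_Orb_unit C C' : Matrix (Fin a) (Fin a) F) * v =
      v' * (PI_Orb_unit C C' : Matrix (Fin a) (Fin a) F) :=
  up_comm C C' 1 1

end

theorem PI_Orb_exists {F : Type} [Field F] {π : F[X]} {N : ℕ} (hπ : GoodPi F π N)
    {L : Type} [Field L] [Algebra F L] (θ : L) (hθ : aeval θ π = 0)
    (hL : Module.finrank F L = N) {b c : ℕ} (v : Matrix (Fin (N * b + c)) (Fin (N * b + c)) F)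
    (hv : v * aeval v π = 0) (hr : v.rank = N * b) : Nonempty (Chart θ v b c) := by
  obtain ⟨b', c', ⟨C⟩⟩ := exists_chart hπ θ hθ hL v hv
  obtain ⟨_, h2, h3⟩ := chart_rank hπ θ hθ hL C
  have hN : 0 < N := by
    rw [← hπ.deg]
    exact hπ.irr.natDegree_pos
  have hb : b' = b := by
    have h4 : N * b' = N * b := by rw [← h3, hr]
    exact Nat.eq_of_mul_eq_mul_left hN h4
  subst hb
  have hc : c' = c := by omega
  subst hc
  exact ⟨C⟩

theorem card_sol {F : Type} [Field F] [Fintype F] {π : F[X]} {N : ℕ} (hπ : GoodPi F π N)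
    {L : Type} [Field L] [Fintype L] [Algebra F L] (θ : L) (hθ : aeval θ π = 0)
    (hL : Module.finrank F L = N) (a b c : ℕ) (ha : a = N * b + c) :
    Nat.card {v : Matrix (Fin a) (Fin a) F // v * aeval v π = 0 ∧ v.rank = N * b} *
      (Nat.card (Matrix (Fin b) (Fin b) L)ˣ * Nat.card (Matrix (Fin c) (Fin c) F)ˣ) =
      Nat.card (Matrix (Fin a) (Fin a) F)ˣ := by
  subst ha
  obtain ⟨v₀, ⟨C₀⟩⟩ := exists_matrix_chart hπ θ hθ hL b c
  rw [← card_centralizer hπ hθ hL C₀, ← Nat.card_prod]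
  let ch : ∀ v : {v : Matrix (Fin (N * b + c)) (Fin (N * b + c)) F //
      v * aeval v π = 0 ∧ v.rank = N * b}, Chart θ v.1 b c :=
    fun v => Classical.choice (PI_Orb_exists hπ θ hθ hL v.1 v.2.1 v.2.2)
  refine Nat.card_congr
    { toFun := fun w => PI_Orb_unit C₀ (ch w.1) * w.2.1
      invFun := fun g => (⟨(g : Matrix (Fin (N * b + c)) (Fin (N * b + c)) F) * v₀ *
        ((g⁻¹ : (Matrix (Fin (N * b + c)) (Fin (N * b + c)) F)ˣ) :
          Matrix (Fin (N * b + c)) (Fin (N * b + c)) F),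
          (chart_rank hπ θ hθ hL (PI_Orb_conj C₀ g)).1,
          (chart_rank hπ θ hθ hL (PI_Orb_conj C₀ g)).2.2⟩,
        ⟨(PI_Orb_unit C₀ (ch ⟨(g : Matrix (Fin (N * b + c)) (Fin (N * b + c)) F) * v₀ *
          ((g⁻¹ : (Matrix (Fin (N * b + c)) (Fin (N * b + c)) F)ˣ) :
            Matrix (Fin (N * b + c)) (Fin (N * b + c)) F),
          (chart_rank hπ θ hθ hL (PI_Orb_conj C₀ g)).1,
          (chart_rank hπ θ hθ hL (PI_Orb_conj C₀ g)).2.2⟩))⁻¹ * g, ?_⟩)
      left_inv := ?_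
      right_inv := ?_ }
  · have h1 := PI_Orb_unit_comm C₀ (ch ⟨(g : Matrix (Fin (N * b + c)) (Fin (N * b + c)) F) * v₀ *
          ((g⁻¹ : (Matrix (Fin (N * b + c)) (Fin (N * b + c)) F)ˣ) :
            Matrix (Fin (N * b + c)) (Fin (N * b + c)) F),
          (chart_rank hπ θ hθ hL (PI_Orb_conj C₀ g)).1,
          (chart_rank hπ θ hθ hL (PI_Orb_conj C₀ g)).2.2⟩)
    generalize PI_Orb_unit C₀ (ch _) = u at h1 ⊢
    rw [Units.val_mul]
    have h2 : (g : Matrix (Fin (N * b + c)) (Fin (N * b + c)) F) * v₀ =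
        (g : Matrix (Fin (N * b + c)) (Fin (N * b + c)) F) * v₀ *
        ((g⁻¹ : (Matrix (Fin (N * b + c)) (Fin (N * b + c)) F)ˣ) :
          Matrix (Fin (N * b + c)) (Fin (N * b + c)) F) * g := by
      rw [mul_assoc _ _ (g : Matrix (Fin (N * b + c)) (Fin (N * b + c)) F), Units.inv_mul, mul_one]
    rw [mul_assoc, h2]
    have h3 : ((u⁻¹ : (Matrix (Fin (N * b + c)) (Fin (N * b + c)) F)ˣ) :
        Matrix (Fin (N * b + c)) (Fin (N * b + c)) F) *
        ((g : Matrix (Fin (N * b + c)) (Fin (N * b + c)) F) * v₀ *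
        ((g⁻¹ : (Matrix (Fin (N * b + c)) (Fin (N * b + c)) F)ˣ) :
          Matrix (Fin (N * b + c)) (Fin (N * b + c)) F)) = v₀ *
        ((u⁻¹ : (Matrix (Fin (N * b + c)) (Fin (N * b + c)) F)ˣ) :
        Matrix (Fin (N * b + c)) (Fin (N * b + c)) F) := by
      have h4 := congrArg (fun m => ((u⁻¹ : (Matrix (Fin (N * b + c)) (Fin (N * b + c)) F)ˣ) :
        Matrix (Fin (N * b + c)) (Fin (N * b + c)) F) * m *
        ((u⁻¹ : (Matrix (Fin (N * b + c)) (Fin (N * b + c)) F)ˣ) :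
        Matrix (Fin (N * b + c)) (Fin (N * b + c)) F)) h1
      simp only [] at h4
      rw [← mul_assoc, Units.inv_mul, one_mul, mul_assoc, mul_assoc, Units.mul_inv, mul_one] at h4
      exact h4.symm
    rw [← mul_assoc, h3, mul_assoc]
  · rintro ⟨v, x⟩
    have h1 := PI_Orb_unit_comm C₀ (ch v)
    have h2 := x.2
    have h3 : ((PI_Orb_unit C₀ (ch v) * x.1 :
        (Matrix (Fin (N * b + c)) (Fin (N * b + c)) F)ˣ) :
        Matrix (Fin (N * b + c)) (Fin (N * b + c)) F) * v₀ *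
        (((PI_Orb_unit C₀ (ch v) * x.1)⁻¹ : (Matrix (Fin (N * b + c)) (Fin (N * b + c)) F)ˣ) :
          Matrix (Fin (N * b + c)) (Fin (N * b + c)) F) = v.1 := by
      rw [Units.mul_inv_eq_iff_eq_mul, Units.val_mul, mul_assoc, h2, ← mul_assoc, h1, mul_assoc]
    have h4 : (⟨((PI_Orb_unit C₀ (ch v) * x.1 :
        (Matrix (Fin (N * b + c)) (Fin (N * b + c)) F)ˣ) :
        Matrix (Fin (N * b + c)) (Fin (N * b + c)) F) * v₀ *
        (((PI_Orb_unit C₀ (ch v) * x.1)⁻¹ : (Matrix (Fin (N * b + c)) (Fin (N * b + c)) F)ˣ) :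
          Matrix (Fin (N * b + c)) (Fin (N * b + c)) F),
          (chart_rank hπ θ hθ hL (PI_Orb_conj C₀ (PI_Orb_unit C₀ (ch v) * x.1))).1,
          (chart_rank hπ θ hθ hL (PI_Orb_conj C₀ (PI_Orb_unit C₀ (ch v) * x.1))).2.2⟩ :
        {v : Matrix (Fin (N * b + c)) (Fin (N * b + c)) F //
          v * aeval v π = 0 ∧ v.rank = N * b}) = v := Subtype.ext h3
    refine Prod.ext h4 (Subtype.ext ?_)
    show (PI_Orb_unit C₀ (ch _))⁻¹ * (PI_Orb_unit C₀ (ch v) * x.1) = x.1
    rw [h4, ← mul_assoc, inv_mul_cancel, one_mul]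
  · intro g
    show PI_Orb_unit C₀ (ch _) * ((PI_Orb_unit C₀ (ch _))⁻¹ * g) = g
    rw [← mul_assoc, mul_inv_cancel, one_mul]

end Pool.Agent.H27.KAC
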