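import Pool.Agent.H27.KAC.PI_Trip
import Pool.Agent.H27.KAC.PI_Orb
import Pool.Agent.H27.KAC.PI_Pi

/-!
Project KAC, part I.1, module PI_TripC: number of the triples with given ranks.

PROOF SKETCH.  The triples are the pairs (tuple `v` with `v k * aeval (v k) π = 0` and `rank (v k) = N * β k`,
compatible pair `(x, T)`).  For each `v` charts exist (`exists_chart`, `chart_rank`: the numbers `b, c` are `β k` and
`α k - N * β k` since `N ≥ 1`), so `card_comp` gives the number of the compatible pairs; the number of the tuples `v` is a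
product of numbers given by `card_sol`.
-/

set_option autoImplicit false

namespace Pool.Agent.H27.KAC

open scoped BigOperators
open Polynomial

private theorem TripC_pos {F : Type} [Field F] {π : F[X]} {N : ℕ} (hπ : GoodPi F π N) :
    1 ≤ N := by
  have h1 := hπ.irr.natDegree_pos
  rw [hπ.deg] at h1
  exact h1

/-- a sigma type over a finite type with fibres of the same cardinality -/
private theorem TripC_sigma {B : Type} [Finite B] {Fi : B → Type} (K : ℕ)
    (h : ∀ v, Nat.card (Fi v) = K) : Nat.card (Sigma Fi) = Nat.card B * K := by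
  classical
  rcases Nat.eq_zero_or_pos K with hK | hK
  · rw [hK, mul_zero, Nat.card_eq_zero]
    by_contra hc
    push Not at hc
    obtain ⟨⟨⟨v, w⟩⟩, hfin⟩ := hc
    have hfin' : Finite (Fi v) :=
      Finite.of_injective (fun w : Fi v => (⟨v, w⟩ : Sigma Fi)) sigma_mk_injective
    have hne : Nonempty (Fi v) := ⟨w⟩
    have h1 : 0 < Nat.card (Fi v) := Nat.card_pos
    rw [h v, hK] at h1
    exact absurd h1 (lt_irrefl 0)
  · have hfin : ∀ v, Finite (Fi v) := by
      intro v
      apply Nat.finite_of_card_ne_zero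
      rw [h v]
      omega
    let _ : Fintype B := Fintype.ofFinite B
    rw [Nat.card_sigma, Finset.sum_congr rfl (fun v _ => h v), Finset.sum_const,
      Finset.card_univ, smul_eq_mul, Nat.card_eq_fintype_card (α := B)]

theorem card_trip {I E : Type} [Fintype I] [DecidableEq I] {Q : Quiv I E} {F : Type} [Field F]
    [Fintype F] {π : F[X]} {N : ℕ} (hπ : GoodPi F π N) {L : Type} [Field L] [Fintype L]
    [Algebra F L] {θ : L} (hθ : aeval θ π = 0) (hL : Module.finrank F L = N) {α β : I → ℕ}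
    (hβ : β ≠ 0) (hle : ∀ k, N * β k ≤ α k) :
    Nat.card {w : Trip Q F α π // ∀ k, (w.1.1 k).rank = N * β k} *
        ((∏ k, Nat.card (Matrix (Fin (β k)) (Fin (β k)) L)ˣ) *
          ∏ k, Nat.card (Matrix (Fin (α k - N * β k)) (Fin (α k - N * β k)) F)ˣ) =
      (∏ k, Nat.card (Matrix (Fin (α k)) (Fin (α k)) F)ˣ) *
        (Nat.card (SNPairs Q L β) * Nat.card (NilPairs Q F (fun k => α k - N * β k))) := by
  classical
  have hN : 1 ≤ N := TripC_pos hπ
  -- the tuples `v`
  let B : Type := {v : (i : I) → Matrix (Fin (α i)) (Fin (α i)) F //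
    ∀ k, v k * aeval (v k) π = 0 ∧ (v k).rank = N * β k}
  let Fi : B → Type := fun v =>
    {w : Rp Q F α × ((i : I) → Matrix (Fin (α i)) (Fin (α i)) F) // Comp v.1 w.1 w.2}
  have eA : {w : Trip Q F α π // ∀ k, (w.1.1 k).rank = N * β k} ≃ Sigma Fi :=
    { toFun := fun w => ⟨⟨w.1.1.1, fun k => ⟨w.1.2.1 k, w.2 k⟩⟩, ⟨w.1.1.2, w.1.2.2⟩⟩
      invFun := fun u => ⟨⟨(u.1.1, u.2.1), ⟨fun k => (u.1.2 k).1, u.2.2⟩⟩, fun k => (u.1.2 k).2⟩
      left_inv := fun w => rfl
      right_inv := fun u => rfl }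
  have hchart : ∀ v : B, ∀ k, Nonempty (Chart θ (v.1 k) (β k) (α k - N * β k)) := by
    intro v k
    obtain ⟨b, c, ⟨C⟩⟩ := exists_chart hπ θ hθ hL (v.1 k) (v.2 k).1
    obtain ⟨_, h2, h3⟩ := chart_rank hπ θ hθ hL C
    have h4 : N * b = N * β k := h3.symm.trans (v.2 k).2
    have h5 : b = β k := Nat.eq_of_mul_eq_mul_left hN h4
    subst h5
    have h6 : c = α k - N * β k := by omega
    subst h6
    exact ⟨C⟩
  have hFi : ∀ v : B, Nat.card (Fi v) =
      Nat.card (SNPairs Q L β) * Nat.card (NilPairs Q F (fun k => α k - N * β k)) := by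
    intro v
    exact card_comp hπ hθ hL v.1 (fun k => (hchart v k).some) hβ
  have hfinF : Finite F := inferInstance
  have hfinB : Finite B := inferInstance
  have hA : Nat.card {w : Trip Q F α π // ∀ k, (w.1.1 k).rank = N * β k} =
      Nat.card B * (Nat.card (SNPairs Q L β) * Nat.card (NilPairs Q F (fun k => α k - N * β k))) := by
    rw [Nat.card_congr eA]
    exact TripC_sigma _ hFi
  have hB : Nat.card B = ∏ k, Nat.card {v : Matrix (Fin (α k)) (Fin (α k)) F //
      v * aeval v π = 0 ∧ v.rank = N * β k} := by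
    rw [← Nat.card_pi]
    exact Nat.card_congr (Equiv.subtypePiEquivPi
      (p := fun k (v : Matrix (Fin (α k)) (Fin (α k)) F) => v * aeval v π = 0 ∧ v.rank = N * β k))
  have hsol : ∀ k, Nat.card {v : Matrix (Fin (α k)) (Fin (α k)) F //
      v * aeval v π = 0 ∧ v.rank = N * β k} *
      (Nat.card (Matrix (Fin (β k)) (Fin (β k)) L)ˣ *
        Nat.card (Matrix (Fin (α k - N * β k)) (Fin (α k - N * β k)) F)ˣ) =
      Nat.card (Matrix (Fin (α k)) (Fin (α k)) F)ˣ := by
    intro k
    have hk := hle k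
    exact card_sol hπ θ hθ hL (α k) (β k) (α k - N * β k) (by omega)
  rw [hA, hB, ← Finset.prod_congr rfl (fun k _ => hsol k), Finset.prod_mul_distrib,
    Finset.prod_mul_distrib]
  ring

/-- the ranks of a solution are multiples of `N`. -/
theorem trip_rank {I E : Type} {Q : Quiv I E} {F : Type} [Field F] [Fintype F] {π : F[X]} {N : ℕ}
    (hπ : GoodPi F π N) {α : I → ℕ} (w : Trip Q F α π) (k : I) :
    ∃ b, (w.1.1 k).rank = N * b ∧ N * b ≤ α k := by
  obtain ⟨L, _, _, _, θ, hθ, hL, _⟩ := exists_ext F hπ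
  obtain ⟨b, c, ⟨C⟩⟩ := exists_chart hπ θ hθ hL (w.1.1 k) (w.2.1 k)
  obtain ⟨_, h2, h3⟩ := chart_rank hπ θ hθ hL C
  exact ⟨b, h3, by omega⟩

end Pool.Agent.H27.KAC
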