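import Pool.Agent.H27.KAC.PI_End
import Pool.Agent.H27.KAC.PI_TripC
import Pool.Agent.H27.KAC.PI_Burn
import Pool.Agent.H27.KAC.PI_Pi

/-!
Project KAC, part I.1 (helper40): Hua's formula in logarithmic form, `θ_i P = P θ_i (log P)`.

PROOF SKETCH.  Choose `π N` (`exists_goodPi`) and for each `N` the field `L` (`exists_ext`, `card L = q^N`).  In
`count_triples` group the triples according to `rank (v k) = N * β k` (`trip_rank`): the term of `(N, β)` is
`β i * card {w : Trip // ranks N * β}`, zero if `β = 0`; otherwise `card_trip`, `card_SNPairs` and `kacA_card` give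
`β i * (∏ card GL_(α k)) * kacA Q β (q^N) / (q^N - 1) * Pc Q F (α - N β)`.  Divide by `∏ card GL_(α k)` and reindex with
`γ = N β`: `∑_γ γ i * Lc Q q γ * Pc Q F (α - γ)`.  (`B` large: `B ≥ ∑ (α j)^2` and `B ≥ ∑ α j`.)
-/

set_option autoImplicit false

namespace Pool.Agent.H27.KAC

open scoped BigOperators
open Polynomial

variable {I E : Type} [Fintype I] [DecidableEq I] [Fintype E]

omit [DecidableEq I] in
theorem Hua_finite_Trip (Q : Quiv I E) (F : Type) [Field F] [Fintype F] (α : I → ℕ) (π : F[X]) :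
    Finite (Trip Q F α π) := by
  unfold Trip
  infer_instance

/-- the term of `N` in `count_triples`, grouped by ranks -/
theorem Hua_group (Q : Quiv I E) (F : Type) [Field F] [Fintype F] (α : I → ℕ) (i : I) (π : F[X])
    (N : ℕ) (hN : 1 ≤ N) (hπ : GoodPi F π N) :
    ∑ᶠ w : Trip Q F α π, ((w.1.1 i).rank : ℚ) / N =
      ∑ β ∈ Fintype.piFinset (fun j => Finset.range (α j + 1)),
        (β i : ℚ) * Nat.card {w : Trip Q F α π // ∀ k, (w.1.1 k).rank = N * β k} := by
  classical
  have := Hua_finite_Trip Q F α π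
  have : Fintype (Trip Q F α π) := Fintype.ofFinite _
  have hN0 : (N : ℚ) ≠ 0 := by
    have : N ≠ 0 := by omega
    exact_mod_cast this
  rw [finsum_eq_sum_of_fintype]
  choose b hb hb' using fun (w : Trip Q F α π) (k : I) => trip_rank hπ w k
  have hmaps : ∀ w ∈ (Finset.univ : Finset (Trip Q F α π)),
      b w ∈ Fintype.piFinset (fun j => Finset.range (α j + 1)) := by
    intro w _
    rw [Fintype.mem_piFinset]
    intro k
    rw [Finset.mem_range]
    have h1 := hb' w k
    have h2 : b w k ≤ N * b w k := Nat.le_mul_of_pos_left _ (by omega)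
    omega
  rw [← Finset.sum_fiberwise_of_maps_to hmaps]
  refine Finset.sum_congr rfl fun β _ => ?_
  have h1 : ∀ w ∈ Finset.univ.filter (fun w : Trip Q F α π => b w = β),
      ((w.1.1 i).rank : ℚ) / N = (β i : ℚ) := by
    intro w hw
    rw [Finset.mem_filter] at hw
    rw [hb w i, hw.2]
    push_cast
    field_simp
  rw [Finset.sum_congr rfl h1, Finset.sum_const, nsmul_eq_mul, mul_comm]
  congr 1
  rw [Nat.card_eq_fintype_card, Fintype.card_subtype]
  norm_cast
  congr 1
  ext w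
  simp only [Finset.mem_filter, Finset.mem_univ, true_and]
  constructor
  · intro h k
    rw [hb w k, h]
  · intro h
    funext k
    have h2 := h k
    rw [hb w k] at h2
    exact Nat.eq_of_mul_eq_mul_left (by omega) h2

theorem Hua_alg {T A B G S P q k : ℚ} (hA : A ≠ 0) (hB : B ≠ 0) (hq : q ≠ 0)
    (h1 : T * (A * B) = G * (S * P)) (h2 : S * q = k * A) : T = G * (k / q * (P / B)) := by
  have h3 : A * (T * q * B) = A * (G * k * P) := by
    calc A * (T * q * B) = (T * (A * B)) * q := by ring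
      _ = (G * P) * (S * q) := by rw [h1]; ring
      _ = A * (G * k * P) := by rw [h2]; ring
  have h4 := mul_left_cancel₀ hA h3
  field_simp
  linarith

/-- one term -/
theorem Hua_term (Q : Quiv I E) (F : Type) [Field F] [Fintype F] (α : I → ℕ) (π : F[X])
    (N : ℕ) (hN : 1 ≤ N) (hπ : GoodPi F π N) (β : I → ℕ) (hβ : β ≠ 0)
    (hle : ∀ k, N * β k ≤ α k) :
    (Nat.card {w : Trip Q F α π // ∀ k, (w.1.1 k).rank = N * β k} : ℚ) =
      (∏ k, (Nat.card (Matrix (Fin (α k)) (Fin (α k)) F)ˣ : ℚ)) *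
        ((kacA Q β (Fintype.card F ^ N) : ℚ) / ((Fintype.card F : ℚ) ^ N - 1) *
          Pc Q F (fun k => α k - N * β k)) := by
  classical
  obtain ⟨L, fL, ftL, aL, θ, hθ, hL, hcard⟩ := exists_ext F hπ
  letI := fL
  letI := ftL
  letI := aL
  have h1 := card_trip (Q := Q) hπ hθ hL hβ hle
  have h2 := card_SNPairs Q L β
  have h3 := kacA_card Q L β
  rw [hcard] at h3 h2
  rw [← h3] at h2
  have hq : 1 < Fintype.card F := Fintype.one_lt_card
  have hq1 : (1 : ℚ) < (Fintype.card F : ℚ) ^ N := by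
    apply one_lt_pow₀
    · exact_mod_cast hq
    · omega
  have hqn : 1 ≤ Fintype.card F ^ N := Nat.one_le_pow _ _ (by omega)
  have h1q : (Nat.card {w : Trip Q F α π // ∀ k, (w.1.1 k).rank = N * β k} : ℚ) *
        ((∏ k, (Nat.card (Matrix (Fin (β k)) (Fin (β k)) L)ˣ : ℚ)) *
          ∏ k, (Nat.card (Matrix (Fin (α k - N * β k)) (Fin (α k - N * β k)) F)ˣ : ℚ)) =
      (∏ k, (Nat.card (Matrix (Fin (α k)) (Fin (α k)) F)ˣ : ℚ)) *
        ((Nat.card (SNPairs Q L β) : ℚ) *
          (Nat.card (NilPairs Q F (fun k => α k - N * β k)) : ℚ)) := by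
    exact_mod_cast h1
  have h2q : (Nat.card (SNPairs Q L β) : ℚ) * ((Fintype.card F : ℚ) ^ N - 1) =
      (kacA Q β (Fintype.card F ^ N) : ℚ) *
        ∏ k, (Nat.card (Matrix (Fin (β k)) (Fin (β k)) L)ˣ : ℚ) := by
    have := congrArg (fun t : ℕ => (t : ℚ)) h2
    push_cast [Nat.cast_sub hqn] at this
    exact this
  have hp1 : (∏ k, (Nat.card (Matrix (Fin (β k)) (Fin (β k)) L)ˣ : ℚ)) ≠ 0 := by
    apply Finset.prod_ne_zero_iff.2
    intro k _
    have : Nat.card (Matrix (Fin (β k)) (Fin (β k)) L)ˣ ≠ 0 := Nat.card_ne_zero.2 ⟨⟨1⟩, inferInstance⟩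
    exact_mod_cast this
  have hp2 : (∏ k, (Nat.card (Matrix (Fin (α k - N * β k)) (Fin (α k - N * β k)) F)ˣ : ℚ)) ≠ 0 := by
    apply Finset.prod_ne_zero_iff.2
    intro k _
    have : Nat.card (Matrix (Fin (α k - N * β k)) (Fin (α k - N * β k)) F)ˣ ≠ 0 :=
      Nat.card_ne_zero.2 ⟨⟨1⟩, inferInstance⟩
    exact_mod_cast this
  have hq0 : (Fintype.card F : ℚ) ^ N - 1 ≠ 0 := by linarith
  unfold Pc
  exact Hua_alg hp1 hp2 hq0 h1q h2q

omit [DecidableEq I] [Fintype E] in
/-- `γ i * Lc γ` as a sum over a large range. -/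
theorem Hua_Lc (Q : Quiv I E) (q : ℕ) (γ : I → ℕ) (i : I) (B : ℕ) (hB : ∑ j, γ j ≤ B) :
    (γ i : ℚ) * Lc Q q γ = ∑ N ∈ Finset.Icc 1 B,
      if ∀ j, N ∣ γ j then ((γ i / N : ℕ) : ℚ) *
        ((kacA Q (fun j => γ j / N) (q ^ N) : ℚ) / ((q : ℚ) ^ N - 1)) else 0 := by
  classical
  unfold Lc
  rw [Finset.mul_sum, ← Finset.sum_filter]
  by_cases hγ : γ i = 0
  · rw [hγ]
    rw [Finset.sum_eq_zero, Finset.sum_eq_zero]
    · intro N _
      simp
    · intro N _
      simp
  · have hset : (Finset.range (∑ j, γ j + 1)).filter (fun N => 1 ≤ N ∧ ∀ j, N ∣ γ j) =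
        (Finset.Icc 1 B).filter (fun N => ∀ j, N ∣ γ j) := by
      ext N
      simp only [Finset.mem_filter, Finset.mem_range, Finset.mem_Icc]
      constructor
      · rintro ⟨h1, h2, h3⟩
        exact ⟨⟨h2, by omega⟩, h3⟩
      · rintro ⟨⟨h1, h2⟩, h3⟩
        have h4 : N ≤ γ i := Nat.le_of_dvd (Nat.pos_of_ne_zero hγ) (h3 i)
        have h5 : γ i ≤ ∑ j, γ j := Finset.single_le_sum (f := γ) (fun _ _ => Nat.zero_le _)
          (Finset.mem_univ i)
        exact ⟨by omega, h1, h3⟩
    rw [hset]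
    refine Finset.sum_congr rfl fun N hN => ?_
    rw [Finset.mem_filter, Finset.mem_Icc] at hN
    have hN0 : (N : ℚ) ≠ 0 := by
      have : N ≠ 0 := by omega
      exact_mod_cast this
    obtain ⟨t, ht⟩ := hN.2 i
    have h6 : γ i / N = t := by
      rw [ht]
      exact Nat.mul_div_cancel_left _ (by omega)
    rw [h6, ht]
    push_cast
    rw [mul_div_assoc', mul_div_assoc', mul_assoc, mul_div_mul_left _ _ hN0]

theorem hua_log (Q : Quiv I E) (F : Type) [Field F] [Fintype F] (α : I → ℕ) (i : I) :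
    (α i : ℚ) * Pc Q F α = ∑ β ∈ Fintype.piFinset (fun j => Finset.range (α j + 1)),
      (β i : ℚ) * Lc Q (Fintype.card F) β * Pc Q F (fun j => α j - β j) := by
  classical
  have hex : ∀ N : ℕ, ∃ π : F[X], 1 ≤ N → GoodPi F π N := by
    intro N
    by_cases hN : 1 ≤ N
    · obtain ⟨π, hπ⟩ := exists_goodPi F N hN
      exact ⟨π, fun _ => hπ⟩
    · exact ⟨0, fun h => absurd h hN⟩
  choose π hπ using hex
  set B := ∑ j, (α j) ^ 2 + ∑ j, α j with hBdef
  have h1 := count_triples Q π hπ α i B (by omega)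
  have hG : (∏ k, (Nat.card (Matrix (Fin (α k)) (Fin (α k)) F)ˣ : ℚ)) ≠ 0 := by
    apply Finset.prod_ne_zero_iff.2
    intro k _
    have : Nat.card (Matrix (Fin (α k)) (Fin (α k)) F)ˣ ≠ 0 :=
      Nat.card_ne_zero.2 ⟨⟨1⟩, inferInstance⟩
    exact_mod_cast this
  -- the left hand side
  have h2 : (α i : ℚ) * Pc Q F α = ∑ N ∈ Finset.Icc 1 B,
      ∑ β ∈ Fintype.piFinset (fun j => Finset.range (α j + 1)),
        if ∀ k, N * β k ≤ α k then (β i : ℚ) *
          ((kacA Q β (Fintype.card F ^ N) : ℚ) / ((Fintype.card F : ℚ) ^ N - 1)) *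
            Pc Q F (fun k => α k - N * β k) else 0 := by
    have h3 : (α i : ℚ) * Pc Q F α = ((α i : ℚ) * Nat.card (NilPairs Q F α)) /
        ∏ k, (Nat.card (Matrix (Fin (α k)) (Fin (α k)) F)ˣ : ℚ) := by
      unfold Pc
      rw [mul_div_assoc]
    rw [h3, h1, Finset.sum_div]
    refine Finset.sum_congr rfl fun N hN => ?_
    rw [Finset.mem_Icc] at hN
    rw [Hua_group Q F α i (π N) N hN.1 (hπ N hN.1), Finset.sum_div]
    refine Finset.sum_congr rfl fun β _ => ?_
    by_cases hle : ∀ k, N * β k ≤ α k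
    · rw [if_pos hle]
      by_cases hβ : β = 0
      · rw [hβ]
        simp
      · rw [Hua_term Q F α (π N) N hN.1 (hπ N hN.1) β hβ hle]
        field_simp
    · rw [if_neg hle]
      have h4 : IsEmpty {w : Trip Q F α (π N) // ∀ k, (w.1.1 k).rank = N * β k} := by
        refine ⟨fun w => hle fun k => ?_⟩
        obtain ⟨b, hb, hb'⟩ := trip_rank (hπ N hN.1) w.1 k
        rw [← w.2 k, hb]
        exact hb'
      rw [Nat.card_of_isEmpty]
      simp
  -- the right hand side
  have h5 : ∀ γ ∈ Fintype.piFinset (fun j => Finset.range (α j + 1)),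
      (γ i : ℚ) * Lc Q (Fintype.card F) γ * Pc Q F (fun j => α j - γ j) =
      ∑ N ∈ Finset.Icc 1 B, if ∀ j, N ∣ γ j then ((γ i / N : ℕ) : ℚ) *
        ((kacA Q (fun j => γ j / N) (Fintype.card F ^ N) : ℚ) /
          ((Fintype.card F : ℚ) ^ N - 1)) * Pc Q F (fun j => α j - γ j) else 0 := by
    intro γ hγ
    rw [Fintype.mem_piFinset] at hγ
    have h6 : ∑ j, γ j ≤ B := by
      have : ∑ j, γ j ≤ ∑ j, α j := Finset.sum_le_sum fun j _ => by
        have := hγ j
        rw [Finset.mem_range] at this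
        omega
      omega
    rw [Hua_Lc Q (Fintype.card F) γ i B h6, Finset.sum_mul]
    refine Finset.sum_congr rfl fun N _ => ?_
    split_ifs <;> simp
  rw [h2, Finset.sum_congr rfl h5, Finset.sum_comm (s := Fintype.piFinset _)]
  refine Finset.sum_congr rfl fun N hN => ?_
  rw [Finset.mem_Icc] at hN
  rw [← Finset.sum_filter, ← Finset.sum_filter]
  refine Finset.sum_bij' (fun β _ => fun k => N * β k) (fun γ _ => fun k => γ k / N) ?_ ?_ ?_ ?_ ?_
  · intro β hβ
    rw [Finset.mem_filter, Fintype.mem_piFinset] at hβ ⊢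
    refine ⟨fun k => ?_, fun k => Dvd.intro _ rfl⟩
    rw [Finset.mem_range]
    have := hβ.2 k
    omega
  · intro γ hγ
    rw [Finset.mem_filter, Fintype.mem_piFinset] at hγ ⊢
    refine ⟨fun k => ?_, fun k => ?_⟩
    · rw [Finset.mem_range]
      have h7 := hγ.1 k
      rw [Finset.mem_range] at h7
      have h8 : γ k / N ≤ γ k := Nat.div_le_self _ _
      omega
    · have h7 := hγ.1 k
      rw [Finset.mem_range] at h7
      rw [Nat.mul_div_cancel' (hγ.2 k)]
      omega
  · intro β _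
    funext k
    exact Nat.mul_div_cancel_left _ (by omega)
  · intro γ hγ
    rw [Finset.mem_filter] at hγ
    funext k
    exact Nat.mul_div_cancel' (hγ.2 k)
  · intro β _
    have h9 : (fun j => N * β j / N) = β := by
      funext k
      exact Nat.mul_div_cancel_left _ (by omega)
    have h10 : N * β i / N = β i := Nat.mul_div_cancel_left _ (by omega)
    rw [h9, h10]

end Pool.Agent.H27.KAC
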