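import Pool.Agent.H27.KAC.PII_KK
import Pool.Agent.H27.KAC.PII_Form
import Pool.Agent.H27.KAC.PII_Eul
import Pool.Agent.H27.KAC.PI_Hua

/-!
Project KAC, part II.3: the formula of Hua in the field `KK`.
-/

set_option autoImplicit false

namespace Pool.Agent.H27.KAC

open scoped BigOperators
open Polynomial

/-- The number of classes over the field with `l ^ N` elements is given by the polynomial. -/
theorem HuaK_kacA {I E : Type} (Q : Quiv I E) (β : I → ℕ) (p : ℚ[X])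
    (h : IsKacPoly Q β p) (l : ℕ) (hl : l.Prime) (N : ℕ) (hN : 1 ≤ N) :
    (kacA Q β (l ^ N) : ℚ) = p.eval ((l : ℚ) ^ N) := by
  have : Fact (Nat.Prime l) := ⟨hl⟩
  have hN0 : N ≠ 0 := by omega
  have hfin : Finite (GaloisField l N) := by
    apply Nat.finite_of_card_ne_zero
    rw [GaloisField.card l _ hN0]
    exact pow_ne_zero _ hl.ne_zero
  let _ : Fintype (GaloisField l N) := Fintype.ofFinite _
  have hcard : Fintype.card (GaloisField l N) = l ^ N := by
    rw [← Nat.card_eq_fintype_card, GaloisField.card l _ hN0]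
  have h1 := h (GaloisField l N)
  rw [hcard] at h1
  rw [← hcard, kacA_card, h1]
  push_cast
  rfl

variable {I E : Type} [Fintype I] [DecidableEq I] [Fintype E]

/-- The coefficient of `X^β` in `log P` as an element of `KK`; `p β` is the polynomial `A_β`. -/
noncomputable def LK (p : (I → ℕ) → ℚ[X]) (β : I →₀ ℕ) : KK :=
  ∑ N ∈ (Finset.range (∑ i, β i + 1)).filter (fun N => 1 ≤ N ∧ ∀ i, N ∣ β i),
    aeval (qK ^ N) (p (fun i => β i / N)) / ((N : KK) * (qK ^ N - 1))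

/-- For a prime number `l` and `N ≥ 1`: `kacA Q γ (l ^ N) = (p γ).eval (l ^ N)` by `kacA_card` for the
field `GaloisField l N` (`GaloisField.card`). -/
theorem Lc_eq (Q : Quiv I E) {p : (I → ℕ) → ℚ[X]} (hp : ∀ α, IsKacPoly Q α (p α)) (l : ℕ)
    (hl : l.Prime) (β : I →₀ ℕ) :
    Lc Q l β = ∑ N ∈ (Finset.range (∑ i, β i + 1)).filter (fun N => 1 ≤ N ∧ ∀ i, N ∣ β i),
      (p (fun i => β i / N)).eval ((l : ℚ) ^ N) / ((N : ℚ) * ((l : ℚ) ^ N - 1)) := by
  unfold Lc
  refine Finset.sum_congr rfl fun N hN => ?_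
  rw [Finset.mem_filter] at hN
  rw [HuaK_kacA Q _ _ (hp _) l hl N hN.2.1]

theorem LK_rel (p : (I → ℕ) → ℚ[X]) (β : I →₀ ℕ) :
    Rel (fun c => ∑ N ∈ (Finset.range (∑ i, β i + 1)).filter (fun N => 1 ≤ N ∧ ∀ i, N ∣ β i),
      (p (fun i => β i / N)).eval (c ^ N) / ((N : ℚ) * (c ^ N - 1))) (LK p β) := by
  unfold LK
  refine Rel.sum _ fun N hN => ?_
  rw [Finset.mem_filter] at hN
  have hN1 : 1 ≤ N := hN.2.1
  have h1 : Rel (fun c => (p (fun i => β i / N)).eval (c ^ N))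
      (aeval (qK ^ N) (p (fun i => β i / N))) := by
    have h2 := Rel.poly ((p (fun i => β i / N)).comp (X ^ N))
    rw [aeval_comp, map_pow, aeval_X] at h2
    exact h2.congr fun c _ => by simp
  have h3 : Rel (fun c => (N : ℚ) * (c ^ N - 1)) ((N : KK) * (qK ^ N - 1)) := by
    have h4 := (Rel.const (N : ℚ)).mul ((Rel.var.pow N).sub (Rel.const 1))
    rw [map_one, map_natCast] at h4
    exact h4
  have h5 : ∀ c : ℚ, 1 < c → (N : ℚ) * (c ^ N - 1) ≠ 0 := by
    intro c hc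
    have h6 : 1 < c ^ N := one_lt_pow₀ hc (by omega)
    have h7 : (N : ℚ) ≠ 0 := by positivity
    exact mul_ne_zero h7 (by linarith)
  rw [div_eq_mul_inv]
  exact (h1.mul (h3.inv h5)).congr fun c _ => (div_eq_mul_inv _ _).symm

/-- The series `∑_β β_j LK_β X^β`. -/
noncomputable def LKser (p : (I → ℕ) → ℚ[X]) (j : I) : MvPowerSeries I KK :=
  fun β => (β j : KK) * LK p β

omit [DecidableEq I] in
theorem coeff_LKser (p : (I → ℕ) → ℚ[X]) (j : I) (β : I →₀ ℕ) :
    MvPowerSeries.coeff β (LKser p j) = (β j : KK) * LK p β := rfl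

theorem HuaK_coeff_Fs {K : Type} [Field K] (q : K) (A : I → I → ℕ) (α : I →₀ ℕ) :
    MvPowerSeries.coeff α (Fs q A 0) = ∑ m ∈ mps α, cc q A m := by
  show ∑ m ∈ mps α, q ^ (dotm 0 m) * cc q A m = _
  refine Finset.sum_congr rfl fun m _ => ?_
  have h : dotm (0 : Prt I → ℤ) m = 0 := by
    unfold dotm
    simp
  rw [h, zpow_zero, one_mul]

/-- `hua_log` for `F = ZMod l`, `l` prime, `Pc_formula`, `Rel.eq`; the sum over the `β ≤ α` is the sum
over the antidiagonal (`MvPowerSeries.coeff_mul`). -/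
theorem hua_K (Q : Quiv I E) {p : (I → ℕ) → ℚ[X]} (hp : ∀ α, IsKacPoly Q α (p α)) (j : I) :
    eul j (Fs qK (adj Q) 0) = Fs qK (adj Q) 0 * LKser p j := by
  ext α
  rw [pii_coeff_eul, MvPowerSeries.coeff_mul]
  simp only [HuaK_coeff_Fs, coeff_LKser]
  let S : (I →₀ ℕ) → ℚ → ℚ := fun β c =>
    ∑ N ∈ (Finset.range (∑ i, β i + 1)).filter (fun N => 1 ≤ N ∧ ∀ i, N ∣ β i),
      (p (fun i => β i / N)).eval (c ^ N) / ((N : ℚ) * (c ^ N - 1))
  have hf : Rel (fun c => (α j : ℚ) * ∑ m ∈ mps α, cc c (adj Q) m)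
      ((α j : KK) * ∑ m ∈ mps α, cc qK (adj Q) m) := by
    have h1 := (Rel.const (α j : ℚ)).mul (Rel.sum_cc (adj Q) α)
    rwa [map_natCast] at h1
  have hf' : Rel (fun c => ∑ x ∈ Finset.HasAntidiagonal.antidiagonal α,
      (∑ m ∈ mps x.1, cc c (adj Q) m) * ((x.2 j : ℚ) * S x.2 c))
      (∑ x ∈ Finset.HasAntidiagonal.antidiagonal α,
        (∑ m ∈ mps x.1, cc qK (adj Q) m) * ((x.2 j : KK) * LK p x.2)) := by
    refine Rel.sum _ fun x _ => (Rel.sum_cc (adj Q) x.1).mul ?_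
    have h1 := (Rel.const (x.2 j : ℚ)).mul (LK_rel p x.2)
    rwa [map_natCast] at h1
  refine hf.eq hf' fun l hl => ?_
  have : Fact (Nat.Prime l) := ⟨hl⟩
  have h1 := hua_log Q (ZMod l) (fun i => α i) j
  have hP : ∀ β : I →₀ ℕ, Pc Q (ZMod l) (fun i => β i) = ∑ m ∈ mps β, cc (l : ℚ) (adj Q) m := by
    intro β
    have h2 := Pc_formula Q (ZMod l) β
    rwa [ZMod.card] at h2
  show (α j : ℚ) * ∑ m ∈ mps α, cc (l : ℚ) (adj Q) m = ∑ x ∈ Finset.HasAntidiagonal.antidiagonal α,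
      (∑ m ∈ mps x.1, cc (l : ℚ) (adj Q) m) * ((x.2 j : ℚ) * S x.2 l)
  rw [← hP, h1, ZMod.card]
  symm
  refine Finset.sum_bij' (fun x _ => fun i => x.2 i)
    (fun β _ => (α - Finsupp.equivFunOnFinite.symm β, Finsupp.equivFunOnFinite.symm β))
    ?_ ?_ ?_ ?_ ?_
  · rintro ⟨x, y⟩ hx
    rw [Finset.HasAntidiagonal.mem_antidiagonal] at hx
    rw [Fintype.mem_piFinset]
    intro i
    have h2 := congrArg (fun f : I →₀ ℕ => f i) hx
    simp only [Finsupp.add_apply] at h2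
    rw [Finset.mem_range]
    show y i < α i + 1
    omega
  · intro β hβ
    rw [Fintype.mem_piFinset] at hβ
    rw [Finset.HasAntidiagonal.mem_antidiagonal]
    ext i
    have h2 := Finset.mem_range.1 (hβ i)
    show (α i - β i) + β i = α i
    have h3 : β i < α i + 1 := h2
    omega
  · rintro ⟨x, y⟩ hx
    rw [Finset.HasAntidiagonal.mem_antidiagonal] at hx
    have h2 : Finsupp.equivFunOnFinite.symm (fun i => y i) = y := by
      ext i
      rfl
    show (α - Finsupp.equivFunOnFinite.symm (fun i => y i),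
      Finsupp.equivFunOnFinite.symm (fun i => y i)) = (x, y)
    rw [h2, ← hx]
    simp
  · intro β hβ
    rfl
  · rintro ⟨x, y⟩ hx
    rw [Finset.HasAntidiagonal.mem_antidiagonal] at hx
    have h2 : (fun i => α i - y i) = fun i => x i := by
      funext i
      have h3 := congrArg (fun f : I →₀ ℕ => f i) hx
      simp only [Finsupp.add_apply] at h3
      omega
    show (∑ m ∈ mps x, cc (l : ℚ) (adj Q) m) * ((y j : ℚ) * S y l) =
      (y j : ℚ) * Lc Q l (fun i => y i) * Pc Q (ZMod l) (fun i => α i - y i)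
    rw [h2, hP, Lc_eq Q hp l hl y]
    ring

end Pool.Agent.H27.KAC
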