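import Pool.Agent.H27.KAC.PII_Def

/-!
Project KAC, part II.3: the field `KK` of the Laurent series in `q - 1`, and the transfer of identities
between rational functions of the numbers `q` and the element `qK` of `KK`.
-/

set_option autoImplicit false

namespace Pool.Agent.H27.KAC

open scoped BigOperators
open Polynomial

/-- The field of fractions of the power series in `ε = q - 1`. -/
abbrev KK : Type := FractionRing (PowerSeries ℚ)

/-- The element `q = 1 + ε`. -/
noncomputable def qK : KK := algebraMap (PowerSeries ℚ) KK (1 + PowerSeries.X)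

/-- The embedding of `ℚ⟦ε⟧`. -/
noncomputable def ιQ : PowerSeries ℚ →+* KK := algebraMap (PowerSeries ℚ) KK

/-- The embedding of `ℤ⟦ε⟧`. -/
noncomputable def ιZ : PowerSeries ℤ →+* KK := ιQ.comp (PowerSeries.map (Int.castRingHom ℚ))

theorem ιQ_inj : Function.Injective ιQ := IsFractionRing.injective (PowerSeries ℚ) KK

theorem ιZ_inj : Function.Injective ιZ := by
  intro f g h
  have h1 : PowerSeries.map (Int.castRingHom ℚ) f = PowerSeries.map (Int.castRingHom ℚ) g :=
    ιQ_inj h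
  ext n
  have h2 := congrArg (PowerSeries.coeff n) h1
  rw [PowerSeries.coeff_map, PowerSeries.coeff_map] at h2
  simpa using h2

/-- `PowerSeries.isUnit_iff_constantCoeff`. -/
theorem exists_unit : ∃ u : (PowerSeries ℤ)ˣ, (u : PowerSeries ℤ) = 1 + PowerSeries.X := by
  have h : IsUnit (1 + PowerSeries.X : PowerSeries ℤ) := by
    rw [PowerSeries.isUnit_iff_constantCoeff]
    simp
  exact ⟨h.unit, h.unit_spec⟩

theorem KK_aeval_qK (P : ℚ[X]) :
    aeval qK P = ιQ ((P.comp (1 + X) : ℚ[X]) : PowerSeries ℚ) := by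
  have h : (aeval qK : ℚ[X] →ₐ[ℚ] KK).toRingHom = ιQ.comp
      ((Polynomial.coeToPowerSeries.ringHom (R := ℚ)).comp (Polynomial.compRingHom (1 + X))) := by
    apply Polynomial.ringHom_ext
    · intro a
      simp only [AlgHom.toRingHom_eq_coe, RingHom.coe_coe, aeval_C, RingHom.comp_apply,
        coe_compRingHom_apply, C_comp, Polynomial.coeToPowerSeries.ringHom_apply,
        Polynomial.coe_C]
      rfl
    · simp only [AlgHom.toRingHom_eq_coe, RingHom.coe_coe, aeval_X, RingHom.comp_apply,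
        coe_compRingHom_apply, X_comp, Polynomial.coeToPowerSeries.ringHom_apply,
        Polynomial.coe_add, Polynomial.coe_one, Polynomial.coe_X]
      rfl
  exact congrArg (fun f : ℚ[X] →+* KK => f P) h

/-- The polynomial `P (q)` is zero only for `P = 0`: `P (1 + ε)` as a power series is the Taylor shift
`Polynomial.taylor 1 P` (or `P.comp (X + 1)`). -/
theorem aeval_qK_inj {P : ℚ[X]} (h : aeval qK P = 0) : P = 0 := by
  have h1 := KK_aeval_qK P
  have h3 : P.comp (1 + X) = 0 := by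
    rw [h1, ← map_zero ιQ] at h
    have h4 := ιQ_inj h
    exact_mod_cast h4
  have h5 : P = (P.comp (1 + X)).comp (X - 1) := by
    rw [comp_assoc]
    simp
  rw [h5, h3, zero_comp]

theorem qK_pow_ne (j : ℕ) : qK ^ (j + 1) ≠ 1 := by
  intro h
  have h1 : aeval qK (X ^ (j + 1) - 1 : ℚ[X]) = 0 := by
    rw [map_sub, map_pow, aeval_X, h, map_one, sub_self]
  have h2 := aeval_qK_inj h1
  have h3 := congrArg (fun P : ℚ[X] => P.eval 0) h2
  simp at h3

/-- `f`, as a function on the rational numbers `c > 1`, and `g`, as an element of `KK`, are given by the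
same rational function without poles in `(1, ∞)`. -/
def Rel (f : ℚ → ℚ) (g : KK) : Prop :=
  ∃ U W : ℚ[X], (∀ c : ℚ, 1 < c → W.eval c ≠ 0) ∧
    (∀ c : ℚ, 1 < c → f c = U.eval c / W.eval c) ∧ g = aeval qK U / aeval qK W

theorem Rel.poly (P : ℚ[X]) : Rel (fun c => P.eval c) (aeval qK P) :=
  ⟨P, 1, fun c _ => by simp, fun c _ => by simp, by simp⟩

theorem Rel.const (r : ℚ) : Rel (fun _ => r) (algebraMap ℚ KK r) := by
  have h := Rel.poly (C r)
  rw [aeval_C] at h
  simpa using h

theorem Rel.var : Rel (fun c => c) qK := by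
  have h := Rel.poly X
  rw [aeval_X] at h
  simpa using h

theorem Rel.congr {f f' : ℚ → ℚ} {g : KK} (h : Rel f g) (hf : ∀ c, 1 < c → f c = f' c) :
    Rel f' g := by
  obtain ⟨U, W, h1, h2, h3⟩ := h
  exact ⟨U, W, h1, fun c hc => by rw [← hf c hc, h2 c hc], h3⟩

theorem KK_aeval_ne {W : ℚ[X]} (h : ∀ c : ℚ, 1 < c → W.eval c ≠ 0) : aeval qK W ≠ 0 := by
  intro h1
  have h2 := h 2 one_lt_two
  rw [aeval_qK_inj h1, eval_zero] at h2
  exact h2 rfl

theorem Rel.add {f f' : ℚ → ℚ} {g g' : KK} (h : Rel f g) (h' : Rel f' g') :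
    Rel (fun c => f c + f' c) (g + g') := by
  obtain ⟨U, W, h1, h2, rfl⟩ := h
  obtain ⟨U', W', h1', h2', rfl⟩ := h'
  refine ⟨U * W' + W * U', W * W', fun c hc => ?_, fun c hc => ?_, ?_⟩
  · rw [eval_mul]
    exact mul_ne_zero (h1 c hc) (h1' c hc)
  · show f c + f' c = _
    rw [h2 c hc, h2' c hc, div_add_div _ _ (h1 c hc) (h1' c hc), eval_add, eval_mul, eval_mul,
      eval_mul]
  · rw [div_add_div _ _ (KK_aeval_ne h1) (KK_aeval_ne h1'), map_add, map_mul, map_mul, map_mul]

theorem Rel.mul {f f' : ℚ → ℚ} {g g' : KK} (h : Rel f g) (h' : Rel f' g') :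
    Rel (fun c => f c * f' c) (g * g') := by
  obtain ⟨U, W, h1, h2, rfl⟩ := h
  obtain ⟨U', W', h1', h2', rfl⟩ := h'
  refine ⟨U * U', W * W', fun c hc => ?_, fun c hc => ?_, ?_⟩
  · rw [eval_mul]
    exact mul_ne_zero (h1 c hc) (h1' c hc)
  · show f c * f' c = _
    rw [h2 c hc, h2' c hc, div_mul_div_comm, eval_mul, eval_mul]
  · rw [div_mul_div_comm, map_mul, map_mul]

theorem Rel.sub {f f' : ℚ → ℚ} {g g' : KK} (h : Rel f g) (h' : Rel f' g') :
    Rel (fun c => f c - f' c) (g - g') := by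
  have h1 := h.add ((Rel.const (-1)).mul h')
  rw [map_neg, map_one, neg_one_mul, ← sub_eq_add_neg] at h1
  exact h1.congr fun c _ => by ring

theorem Rel.pow {f : ℚ → ℚ} {g : KK} (h : Rel f g) (n : ℕ) : Rel (fun c => f c ^ n) (g ^ n) := by
  induction n with
  | zero =>
    have h1 := Rel.const 1
    rw [map_one] at h1
    rw [pow_zero]
    exact h1.congr fun c _ => (pow_zero _).symm
  | succ n ih =>
    rw [pow_succ]
    exact (ih.mul h).congr fun c _ => (pow_succ _ _).symm

theorem Rel.inv {f : ℚ → ℚ} {g : KK} (h : Rel f g) (hf : ∀ c, 1 < c → f c ≠ 0) :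
    Rel (fun c => (f c)⁻¹) g⁻¹ := by
  obtain ⟨U, W, h1, h2, rfl⟩ := h
  refine ⟨W, U, fun c hc h0 => ?_, fun c hc => ?_, ?_⟩
  · apply hf c hc
    rw [h2 c hc, h0, zero_div]
  · show (f c)⁻¹ = _
    rw [h2 c hc, inv_div]
  · rw [inv_div]

theorem Rel.zpow {f : ℚ → ℚ} {g : KK} (h : Rel f g) (hf : ∀ c, 1 < c → f c ≠ 0) (n : ℤ) :
    Rel (fun c => f c ^ n) (g ^ n) := by
  cases n with
  | ofNat n =>
    rw [Int.ofNat_eq_natCast, zpow_natCast]
    exact (h.pow n).congr fun c _ => (zpow_natCast _ _).symm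
  | negSucc n =>
    rw [zpow_negSucc]
    exact ((h.pow (n + 1)).inv fun c hc => pow_ne_zero _ (hf c hc)).congr fun c _ =>
      (zpow_negSucc _ _).symm

theorem Rel.sum {ι : Type} (s : Finset ι) {f : ι → ℚ → ℚ} {g : ι → KK}
    (h : ∀ i ∈ s, Rel (f i) (g i)) : Rel (fun c => ∑ i ∈ s, f i c) (∑ i ∈ s, g i) := by
  classical
  induction s using Finset.induction_on with
  | empty =>
    have h1 := Rel.const 0
    rw [map_zero] at h1
    rw [Finset.sum_empty]
    exact h1.congr fun c _ => (Finset.sum_empty).symm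
  | insert x s hx ih =>
    rw [Finset.sum_insert hx]
    exact ((h x (Finset.mem_insert_self x s)).add
      (ih fun y hy => h y (Finset.mem_insert_of_mem hy))).congr fun c _ => by
        rw [Finset.sum_insert hx]

theorem Rel.prod {ι : Type} (s : Finset ι) {f : ι → ℚ → ℚ} {g : ι → KK}
    (h : ∀ i ∈ s, Rel (f i) (g i)) : Rel (fun c => ∏ i ∈ s, f i c) (∏ i ∈ s, g i) := by
  classical
  induction s using Finset.induction_on with
  | empty =>
    have h1 := Rel.const 1
    rw [map_one] at h1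
    rw [Finset.prod_empty]
    exact h1.congr fun c _ => (Finset.prod_empty).symm
  | insert x s hx ih =>
    rw [Finset.prod_insert hx]
    exact ((h x (Finset.mem_insert_self x s)).mul
      (ih fun y hy => h y (Finset.mem_insert_of_mem hy))).congr fun c _ => by
        rw [Finset.prod_insert hx]

/-- Two rational functions which agree at all prime numbers agree in `KK`: the polynomial
`U * W' - U' * W` has infinitely many zeros (`Polynomial.eq_zero_of_infinite_isRoot`,
`Nat.infinite_setOf_prime`); the denominators are not zero in `KK` by `aeval_qK_inj`. -/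
theorem Rel.eq {f f' : ℚ → ℚ} {g g' : KK} (h : Rel f g) (h' : Rel f' g')
    (hp : ∀ p : ℕ, p.Prime → f p = f' p) : g = g' := by
  obtain ⟨U, W, h1, h2, rfl⟩ := h
  obtain ⟨U', W', h1', h2', rfl⟩ := h'
  rw [div_eq_div_iff (KK_aeval_ne h1) (KK_aeval_ne h1'), ← map_mul, ← map_mul]
  congr 1
  apply Polynomial.eq_of_infinite_eval_eq
  have h3 : Set.Infinite ((fun n : ℕ => (n : ℚ)) '' {n | Nat.Prime n}) :=
    Nat.infinite_setOfPred_prime.image (Nat.cast_injective.injOn)
  refine h3.mono ?_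
  rintro _ ⟨n, hn, rfl⟩
  have hn1 : (1 : ℚ) < (n : ℚ) := by exact_mod_cast hn.one_lt
  have h4 := hp n hn
  rw [h2 _ hn1, h2' _ hn1, div_eq_div_iff (h1 _ hn1) (h1' _ hn1)] at h4
  show (U * W').eval (n : ℚ) = (U' * W).eval (n : ℚ)
  rw [eval_mul, eval_mul, h4]

variable {I : Type} [DecidableEq I]

/-- The coefficients of the fermionic sum. -/
theorem Rel.cc (A : I → I → ℕ) (m : Prt I →₀ ℕ) :
    Rel (fun c => Pool.Agent.H27.KAC.cc c A m) (Pool.Agent.H27.KAC.cc qK A m) := by
  unfold Pool.Agent.H27.KAC.cc Finsupp.prod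
  have hv : ∀ c : ℚ, 1 < c → c ≠ 0 := fun c hc => by positivity
  refine (Rel.var.zpow hv _).mul (Rel.prod _ fun a _ => Rel.inv ?_ ?_)
  · unfold qpoch
    refine Rel.prod _ fun j _ => Rel.sub ?_ ((Rel.var.inv hv).pow _)
    have h1 := Rel.const 1
    rwa [map_one] at h1
  · intro c hc
    unfold qpoch
    rw [Finset.prod_ne_zero_iff]
    intro j _
    have h1 : (c⁻¹) ^ (j + 1) < 1 := by
      apply pow_lt_one₀ (by positivity) (inv_lt_one_of_one_lt₀ hc) (by omega)
    linarith

theorem Rel.sum_cc (A : I → I → ℕ) (α : I →₀ ℕ) :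
    Rel (fun c => ∑ m ∈ mps α, Pool.Agent.H27.KAC.cc c A m)
      (∑ m ∈ mps α, Pool.Agent.H27.KAC.cc qK A m) :=
  Rel.sum _ fun m _ => Rel.cc A m

end Pool.Agent.H27.KAC
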