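import Pool.Agent.H27.KAC.PII_Def

/-!
Project KAC, part II.1: combinatorics of partitions.  `μ : ℕ →₀ ℕ` is the partition with `μ l` parts of
size `l + 1`.
-/

set_option autoImplicit false

namespace Pool.Agent.H27.KAC

open scoped BigOperators

/-- The number of the parts of size larger than `k`. -/
noncomputable def lam (μ : ℕ →₀ ℕ) (k : ℕ) : ℕ := ∑ l ∈ μ.support.filter (fun l => k ≤ l), μ l

/-- The size of the partition. -/
noncomputable def psize (μ : ℕ →₀ ℕ) : ℕ := μ.sum fun l x => (l + 1) * x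

/-- The partition with the first column removed: all parts are smaller by one. -/
noncomputable def shf (μ : ℕ →₀ ℕ) : ℕ →₀ ℕ :=
  Finsupp.comapDomain (fun l => l + 1) μ (fun _ _ _ _ h => Nat.succ_injective h)

/-- `∑_(a, b) min (a, b)` over the parts of the two partitions. -/
noncomputable def mlam (μ ν : ℕ →₀ ℕ) : ℕ :=
  μ.sum fun k x => ν.sum fun l y => min (k + 1) (l + 1) * (x * y)

theorem shf_apply (μ : ℕ →₀ ℕ) (k : ℕ) : shf μ k = μ (k + 1) := rfl

private theorem part_bound (μ : ℕ →₀ ℕ) : ∃ M : ℕ, ∀ l, M ≤ l → μ l = 0 := by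
  obtain ⟨M, hM⟩ := Finset.exists_nat_subset_range μ.support
  refine ⟨M, fun l hl => ?_⟩
  by_contra h
  have := Finset.mem_range.1 (hM (Finsupp.mem_support_iff.2 h))
  omega

private theorem part_sub {μ : ℕ →₀ ℕ} {M : ℕ} (hM : ∀ l, M ≤ l → μ l = 0) :
    μ.support ⊆ Finset.range M := by
  intro l hl
  rw [Finset.mem_range]
  by_contra h
  exact (Finsupp.mem_support_iff.1 hl) (hM l (by omega))

private theorem part_lam {μ : ℕ →₀ ℕ} {M : ℕ} (hM : ∀ l, M ≤ l → μ l = 0) (k : ℕ) :
    lam μ k = ∑ j ∈ Finset.range M, μ (k + j) := by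
  have h1 : ∑ j ∈ Finset.range M, μ (k + j) = ∑ l ∈ Finset.Ico k (k + M), μ l := by
    rw [Finset.sum_Ico_eq_sum_range, Nat.add_sub_cancel_left]
  rw [h1]
  unfold lam
  apply Finset.sum_subset
  · intro l hl
    rw [Finset.mem_filter] at hl
    have := Finset.mem_range.1 (part_sub hM hl.1)
    rw [Finset.mem_Ico]
    omega
  · intro l hl1 hl2
    rw [Finset.mem_Ico] at hl1
    rw [Finset.mem_filter, not_and] at hl2
    by_contra h
    exact hl2 (Finsupp.mem_support_iff.2 h) hl1.1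

private theorem part_psize {μ : ℕ →₀ ℕ} {M : ℕ} (hM : ∀ l, M ≤ l → μ l = 0) :
    psize μ = ∑ l ∈ Finset.range M, (l + 1) * μ l := by
  unfold psize
  rw [Finsupp.sum_of_support_subset _ (part_sub hM)]
  intro l _
  simp

private theorem part_succ {μ : ℕ →₀ ℕ} {M : ℕ} (hM : ∀ l, M ≤ l → μ l = 0) :
    ∀ l, M + 1 ≤ l → μ l = 0 := fun l hl => hM l (by omega)

private theorem part_shf {μ : ℕ →₀ ℕ} {M : ℕ} (hM : ∀ l, M ≤ l → μ l = 0) :
    ∀ l, M ≤ l → shf μ l = 0 := fun l hl => hM (l + 1) (by omega)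

private theorem part_mlam {μ ν : ℕ →₀ ℕ} {M : ℕ} (hM : ∀ l, M ≤ l → μ l = 0)
    (hN : ∀ l, M ≤ l → ν l = 0) :
    mlam μ ν = ∑ k ∈ Finset.range M, ∑ l ∈ Finset.range M, min (k + 1) (l + 1) * (μ k * ν l) := by
  unfold mlam
  rw [Finsupp.sum_of_support_subset _ (part_sub hM)]
  · refine Finset.sum_congr rfl fun k _ => ?_
    rw [Finsupp.sum_of_support_subset _ (part_sub hN)]
    intro l _
    simp
  · intro k _
    simp

theorem lam_succ (μ : ℕ →₀ ℕ) (k : ℕ) : lam μ k = μ k + lam μ (k + 1) := by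
  obtain ⟨M, hM⟩ := part_bound μ
  rw [part_lam (part_succ hM) k, part_lam hM (k + 1), Finset.sum_range_succ', add_comm]
  congr 1
  refine Finset.sum_congr rfl fun j _ => ?_
  rw [add_assoc k 1 j, add_comm 1 j]

theorem lam_shf (μ : ℕ →₀ ℕ) (k : ℕ) : lam (shf μ) k = lam μ (k + 1) := by
  obtain ⟨M, hM⟩ := part_bound μ
  rw [part_lam (part_shf hM) k, part_lam hM (k + 1)]
  refine Finset.sum_congr rfl fun j _ => ?_
  rw [shf_apply, add_assoc k 1 j, add_comm 1 j, add_assoc]

theorem psize_shf (μ : ℕ →₀ ℕ) : psize μ = lam μ 0 + psize (shf μ) := by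
  obtain ⟨M, hM⟩ := part_bound μ
  rw [part_psize (part_succ hM), part_lam (part_succ hM) 0, part_psize (part_shf hM),
    Finset.sum_range_succ', Finset.sum_range_succ']
  simp only [shf_apply, zero_add, one_mul]
  have h : ∑ k ∈ Finset.range M, (k + 1 + 1) * μ (k + 1) =
      ∑ k ∈ Finset.range M, μ (k + 1) + ∑ k ∈ Finset.range M, (k + 1) * μ (k + 1) := by
    rw [← Finset.sum_add_distrib]
    refine Finset.sum_congr rfl fun k _ => ?_
    ring
  rw [h]
  ring

theorem psize_eq_zero {μ : ℕ →₀ ℕ} : psize μ = 0 ↔ μ = 0 := by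
  constructor
  · intro h
    obtain ⟨M, hM⟩ := part_bound μ
    rw [part_psize hM, Finset.sum_eq_zero_iff] at h
    ext l
    rw [Finsupp.zero_apply]
    rcases lt_or_ge l M with h1 | h1
    · have h2 := h l (Finset.mem_range.2 h1)
      rcases Nat.mul_eq_zero.1 h2 with h3 | h3
      · omega
      · exact h3
    · exact hM l h1
  · rintro rfl
    simp [psize]

/-- A partition of positive size has a part. -/
theorem lam_zero_pos {μ : ℕ →₀ ℕ} (h : μ ≠ 0) : 0 < lam μ 0 := by
  by_contra hl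
  have hl0 : lam μ 0 = 0 := by omega
  apply h
  ext l
  rw [Finsupp.zero_apply]
  unfold lam at hl0
  rw [Finset.sum_eq_zero_iff] at hl0
  by_contra h1
  exact h1 (hl0 l (Finset.mem_filter.2 ⟨Finsupp.mem_support_iff.2 h1, Nat.zero_le l⟩))

theorem lam_zero_left (k : ℕ) : lam 0 k = 0 := by
  simp [lam]

theorem eq_of_lam {μ ν : ℕ →₀ ℕ} (h : ∀ k, lam μ k = lam ν k) : μ = ν := by
  ext k
  have h1 := lam_succ μ k
  have h2 := lam_succ ν k
  have h3 := h k
  have h4 := h (k + 1)
  omega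

theorem exists_lam {a : ℕ → ℕ} (ha : Antitone a) {N : ℕ} (hN : a N = 0) :
    ∃ μ : ℕ →₀ ℕ, ∀ k, lam μ k = a k := by
  have hz : ∀ k, N ≤ k → a k = 0 := fun k hk => by
    have := ha hk
    omega
  refine ⟨Finsupp.onFinset (Finset.range N) (fun k => a k - a (k + 1)) ?_, fun k => ?_⟩
  · intro k hk
    rw [Finset.mem_range]
    by_contra h
    apply hk
    show a k - a (k + 1) = 0
    rw [hz k (by omega)]
    omega
  · rw [part_lam (M := N) (fun l hl => ?_) k]
    · have key : ∀ M : ℕ, ∑ j ∈ Finset.range M, (a (k + j) - a (k + j + 1)) + a (k + M) = a k := by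
        intro M
        induction M with
        | zero => simp
        | succ M ih =>
          rw [Finset.sum_range_succ]
          have h1 : a (k + M + 1) ≤ a (k + M) := ha (by omega)
          have h2 : a (k + (M + 1)) = a (k + M + 1) := rfl
          omega
      have h3 := key N
      rw [hz (k + N) (by omega), add_zero] at h3
      exact h3
    · show a l - a (l + 1) = 0
      rw [hz l hl]
      omega

/-- `∑_(k < N) lam μ k = psize μ` for large `N`. -/
theorem sum_lam (μ : ℕ →₀ ℕ) {N : ℕ} (hN : lam μ N = 0) :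
    ∑ k ∈ Finset.range N, lam μ k = psize μ := by
  induction N generalizing μ with
  | zero =>
    have h0 : μ = 0 := by
      by_contra h
      have := lam_zero_pos h
      omega
    rw [h0]
    simp [psize]
  | succ N ih =>
    rw [Finset.sum_range_succ']
    have h1 : ∑ k ∈ Finset.range N, lam μ (k + 1) = ∑ k ∈ Finset.range N, lam (shf μ) k :=
      Finset.sum_congr rfl fun k _ => (lam_shf μ k).symm
    rw [h1, ih (shf μ) (by rw [lam_shf]; exact hN), psize_shf μ, add_comm]

/-- `min (a, b) = 1 + min (a - 1, b - 1)`. -/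
theorem mlam_rec (μ ν : ℕ →₀ ℕ) : mlam μ ν = lam μ 0 * lam ν 0 + mlam (shf μ) (shf ν) := by
  obtain ⟨M1, hM1⟩ := part_bound μ
  obtain ⟨M2, hM2⟩ := part_bound ν
  have hM : ∀ l, max M1 M2 ≤ l → μ l = 0 := fun l hl => hM1 l (le_trans (le_max_left _ _) hl)
  have hN : ∀ l, max M1 M2 ≤ l → ν l = 0 := fun l hl => hM2 l (le_trans (le_max_right _ _) hl)
  obtain ⟨M, hMM⟩ : ∃ M, M = max M1 M2 := ⟨_, rfl⟩
  rw [← hMM] at hM hN
  rw [part_mlam (part_succ hM) (part_succ hN), part_mlam (part_shf hM) (part_shf hN),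
    part_lam (part_succ hM) 0, part_lam (part_succ hN) 0, Finset.sum_mul_sum]
  have h1 : ∑ k ∈ Finset.range (M + 1), ∑ l ∈ Finset.range (M + 1),
      min (k + 1) (l + 1) * (μ k * ν l) =
      ∑ k ∈ Finset.range (M + 1), ∑ l ∈ Finset.range (M + 1), μ (0 + k) * ν (0 + l) +
      ∑ k ∈ Finset.range (M + 1), ∑ l ∈ Finset.range (M + 1), min k l * (μ k * ν l) := by
    rw [← Finset.sum_add_distrib]
    refine Finset.sum_congr rfl fun k _ => ?_
    rw [← Finset.sum_add_distrib]
    refine Finset.sum_congr rfl fun l _ => ?_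
    rw [zero_add, zero_add]
    have h2 : min (k + 1) (l + 1) = 1 + min k l := by omega
    rw [h2]
    ring
  rw [h1]
  congr 1
  rw [Finset.sum_range_succ']
  have h3 : ∑ l ∈ Finset.range (M + 1), min 0 l * (μ 0 * ν l) = 0 := by
    refine Finset.sum_eq_zero fun l _ => ?_
    simp
  rw [h3, add_zero]
  refine Finset.sum_congr rfl fun k _ => ?_
  rw [Finset.sum_range_succ']
  simp [shf_apply]

theorem mlam_comm (μ ν : ℕ →₀ ℕ) : mlam μ ν = mlam ν μ := by
  unfold mlam
  rw [Finsupp.sum_comm]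
  refine Finsupp.sum_congr fun l _ => Finsupp.sum_congr fun k _ => ?_
  rw [min_comm, mul_comm (μ k)]

theorem prod_shf {M : Type} [CommMonoid M] (f : ℕ → M) (h : f 0 = 1) (μ : ℕ →₀ ℕ) :
    (μ.prod fun _ x => f x) = f (μ 0) * (shf μ).prod fun _ x => f x := by
  obtain ⟨M, hM⟩ := part_bound μ
  rw [Finsupp.prod_of_support_subset _ (part_sub (part_succ hM)) _ (fun _ _ => h),
    Finsupp.prod_of_support_subset _ (part_sub (part_shf hM)) _ (fun _ _ => h),
    Finset.prod_range_succ', mul_comm]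
  rfl

end Pool.Agent.H27.KAC
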