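import Pool.Agent.H27.KAC.PII_Gam
import Pool.Agent.H27.KAC.IDefs

/-!
Project KAC, part II.3: the Q-system.
-/

set_option autoImplicit false

namespace Pool.Agent.H27.KAC

open scoped BigOperators

variable {I R K S : Type} [Fintype I] [DecidableEq I] [CommRing R] [Field K] [CommRing S]

/-- The shift vector `(j, l) ↦ δ_ij min(k, l + 1)`. -/
def minv (i : I) (k : ℕ) (a : Prt I) : ℤ := if a.1 = i then ((min k (a.2 + 1) : ℕ) : ℤ) else 0

/-- The shift vector `(j, l) ↦ δ_ij (l + 1)`. -/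
def sizev (i : I) (a : Prt I) : ℤ := if a.1 = i then ((a.2 + 1 : ℕ) : ℤ) else 0

/-- The solution of the Q-system. -/
noncomputable def Setup.T (s : Setup I R K S) (i : I) (k : ℕ) : MvPowerSeries I S :=
  s.Γ 0 (minv i k)

/-- Its limit for `k → ∞`. -/
noncomputable def Setup.Tinf (s : Setup I R K S) (i : I) : MvPowerSeries I S := s.Γ 0 (sizev i)

theorem Setup.T_zero (s : Setup I R K S) (i : I) : s.T i 0 = 1 := by
  have h : minv i 0 = 0 := by
    funext a
    unfold minv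
    split_ifs <;> simp
  unfold Setup.T
  rw [h]
  exact s.Γ_self 0

theorem Setup.T_const (s : Setup I R K S) (i : I) (k : ℕ) :
    MvPowerSeries.constantCoeff (s.T i k) = 1 := s.Γ_const _ _

/-- `min(k, l + 1) = l + 1` for `l + 1 ≤ k`. -/
theorem Setup.T_inf (s : Setup I R K S) (i : I) (k : ℕ) (d : I →₀ ℕ) (hd : tdeg d ≤ k) :
    MvPowerSeries.coeff d (s.T i k) = MvPowerSeries.coeff d (s.Tinf i) := by
  have h : EqTo k (s.Γ 0 (minv i k)) (s.Γ 0 (sizev i)) := by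
    refine s.Γ_congr (fun _ _ => rfl) ?_
    intro a ha
    unfold minv sizev
    rw [min_eq_right ha]
  exact h d hd

theorem Setup.QT_smul (s : Setup I R K S) (v : Prt I → ℤ) (e : ℕ) :
    s.Γ 0 ((e : ℤ) • v) = (s.Γ 0 v) ^ e := by
  induction e with
  | zero =>
    rw [Nat.cast_zero, zero_smul, pow_zero]
    exact s.Γ_self 0
  | succ e ih =>
    rw [Nat.cast_succ, add_smul, one_smul, s.Γ_add, ih, pow_succ]

theorem Setup.QT_sum (s : Setup I R K S) (v : I → Prt I → ℤ) (e : I → ℕ) (t : Finset I) :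
    s.Γ 0 (∑ j ∈ t, (e j : ℤ) • v j) = ∏ j ∈ t, (s.Γ 0 (v j)) ^ (e j) := by
  induction t using Finset.induction_on with
  | empty =>
    rw [Finset.sum_empty, Finset.prod_empty]
    exact s.Γ_self 0
  | insert j t hj ih =>
    rw [Finset.sum_insert hj, Finset.prod_insert hj, s.Γ_add, ih, s.QT_smul]

/-- `Γ 0 (∑_j A_ij v_j) = ∏_j (Γ 0 v_j)^(A_ij)`. -/
theorem Setup.Γ_sum (s : Setup I R K S) (v : I → Prt I → ℤ) (e : I → ℕ) :
    s.Γ 0 (∑ j, (e j : ℤ) • v j) = ∏ j, (s.Γ 0 (v j)) ^ (e j) := s.QT_sum v e Finset.univ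

/-- The second difference of `min` and the rows of `B`:
`minv i (k + 1) + minv i (k + 1) = minv i k + minv i (k + 2) + e_(i,k)` and
`Bm A (i, k) = 2 minv i (k + 1) - ∑_j A_ij minv j (k + 1)`. -/
theorem minv_diff (i : I) (k : ℕ) :
    minv i k + minv i (k + 2) = minv i (k + 1) + minv i (k + 1) - Pi.single (i, k) 1 := by
  funext a
  obtain ⟨j, l⟩ := a
  simp only [Pi.add_apply, Pi.sub_apply, Pi.single_apply, Prod.mk.injEq, minv]
  by_cases hj : j = i
  · simp only [if_pos hj]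
    by_cases hl : l = k
    · rw [if_pos ⟨hj, hl⟩]
      push_cast
      omega
    · rw [if_neg (fun h => hl h.2)]
      push_cast
      omega
  · simp only [if_neg hj]
    rw [if_neg (fun h => hj h.1)]
    norm_num

theorem minv_Bm (A : I → I → ℕ) (i : I) (k : ℕ) :
    minv i (k + 1) + minv i (k + 1) - Bm A (i, k) = ∑ j, ((A i j : ℕ) : ℤ) • minv j (k + 1) := by
  funext a
  obtain ⟨j, l⟩ := a
  rw [Finset.sum_apply]
  have h1 : ∀ c : I, (((A i c : ℕ) : ℤ) • minv c (k + 1)) (j, l) =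
      if j = c then ((A i c : ℕ) : ℤ) * ((min (k + 1) (l + 1) : ℕ) : ℤ) else 0 := by
    intro c
    rw [Pi.smul_apply, smul_eq_mul]
    simp only [minv]
    split_ifs
    · rfl
    · rw [mul_zero]
  rw [Finset.sum_congr rfl fun c _ => h1 c, Finset.sum_ite_eq, if_pos (Finset.mem_univ _)]
  simp only [Pi.add_apply, Pi.sub_apply, minv, Bm, cart]
  by_cases hj : j = i
  · rw [if_pos hj, if_pos hj.symm]
    ring
  · rw [if_neg hj, if_neg (fun h => hj h.symm)]
    ring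

/-- With `v = minv i (k + 1)`, `a = (i, k)`: `Γ 0 (2 v - e_a) = Γ 0 (2 v) Γ (2 v) (2 v - e_a)`, `Γ_step`,
`Γ 0 (2 v) * Γ (2 v) (2 v - B_a) = Γ 0 (2 v - B_a)`; `Γ_add`, `minv_diff`, `minv_Bm`, `Γ_sum`;
`monomial (pwt (i, k)) 1 = X i ^ (k + 1)`. -/
theorem Setup.T_rel (s : Setup I R K S) (i : I) (k : ℕ) :
    (s.T i (k + 1)) ^ 2 = s.T i k * s.T i (k + 2) +
      (MvPowerSeries.X i) ^ (k + 1) * ∏ j, (s.T j (k + 1)) ^ (s.A i j) := by
  have h1 := s.Γ_step (minv i (k + 1) + minv i (k + 1)) (i, k)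
  have h2 := s.Γ_mul 0 (minv i (k + 1) + minv i (k + 1))
    (minv i (k + 1) + minv i (k + 1) - Pi.single (i, k) 1)
  have h3 := s.Γ_mul 0 (minv i (k + 1) + minv i (k + 1))
    (minv i (k + 1) + minv i (k + 1) - Bm s.A (i, k))
  rw [minv_Bm, s.Γ_sum] at h3
  rw [← minv_diff, s.Γ_add, s.Γ_add] at h2
  rw [s.Γ_add] at h3
  rw [← minv_diff, minv_Bm] at h1
  have hX : (MvPowerSeries.monomial (pwt ((i, k) : Prt I)) (1 : S)) =
      (MvPowerSeries.X i) ^ (k + 1) := by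
    rw [MvPowerSeries.X_pow_eq]
    rfl
  rw [hX] at h1
  unfold Setup.T
  rw [← h2, ← h3, h1]
  ring

end Pool.Agent.H27.KAC
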