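import Pool.Agent.H27.KAC.PII_Form
import Pool.Agent.H27.KAC.PII_KK

/-!
Project KAC, part II.1 (helper78), corollary of the explicit formula: the number `Pc Q F α` is a rational function
of `card F` which depends only on `adj Q` and `α`.
-/

set_option autoImplicit false

namespace Pool.Agent.H27.KAC

open scoped BigOperators
open Polynomial

/-- `Pc_formula` and `Rel.sum_cc`. -/
theorem Pc_rat {I : Type} [Fintype I] [DecidableEq I] (a : I → I → ℕ) (α : I → ℕ) :
    ∃ U W : ℚ[X], (∀ q : ℕ, 2 ≤ q → W.eval (q : ℚ) ≠ 0) ∧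
      ∀ (E : Type) [Fintype E] (Q : Quiv I E), adj Q = a → ∀ (F : Type) [Field F] [Fintype F],
        Pc Q F α * W.eval (Fintype.card F : ℚ) = U.eval (Fintype.card F : ℚ) := by
  obtain ⟨U, W, hW, hUW, -⟩ := Rel.sum_cc a (Finsupp.equivFunOnFinite.symm α)
  refine ⟨U, W, fun q hq => hW q (by exact_mod_cast hq), fun E _ Q hQ F _ _ => ?_⟩
  have hc : (1 : ℚ) < (Fintype.card F : ℚ) := by exact_mod_cast Fintype.one_lt_card
  have h1 := Pc_formula Q F (Finsupp.equivFunOnFinite.symm α)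
  have h2 : ((Finsupp.equivFunOnFinite.symm α : I →₀ ℕ) : I → ℕ) = α := rfl
  rw [h2, hQ] at h1
  have h3 := h1.trans (hUW _ hc)
  rw [h3, div_mul_cancel₀ _ (hW _ hc)]

end Pool.Agent.H27.KAC
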