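import Pool.Agent.H27.KAC.PII_Def

/-!
Project KAC, part II.3: power series up to a given total degree.
-/

set_option autoImplicit false

namespace Pool.Agent.H27.KAC

open scoped BigOperators

section

variable {I : Type} [Fintype I] {R : Type} [CommRing R]

/-- The coefficients of total degree at most `D` agree. -/
def EqTo (D : ℕ) (f g : MvPowerSeries I R) : Prop :=
  ∀ d : I →₀ ℕ, ∑ i, d i ≤ D → MvPowerSeries.coeff d f = MvPowerSeries.coeff d g

theorem EqTo.refl (D : ℕ) (f : MvPowerSeries I R) : EqTo D f f := fun _ _ => rfl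

theorem EqTo.symm {D : ℕ} {f g : MvPowerSeries I R} (h : EqTo D f g) : EqTo D g f :=
  fun d hd => (h d hd).symm

theorem EqTo.trans {D : ℕ} {f g k : MvPowerSeries I R} (h : EqTo D f g) (h' : EqTo D g k) :
    EqTo D f k := fun d hd => (h d hd).trans (h' d hd)

theorem EqTo.mono {D D' : ℕ} (hD : D' ≤ D) {f g : MvPowerSeries I R} (h : EqTo D f g) :
    EqTo D' f g := fun d hd => h d (hd.trans hD)

theorem eq_of_EqTo {f g : MvPowerSeries I R} (h : ∀ D, EqTo D f g) : f = g := by
  ext d
  exact h _ d le_rfl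

omit [CommRing R] in
private theorem PII_Trunc_sum_le {D : ℕ} {d p q : I →₀ ℕ} (hd : ∑ i, d i ≤ D) (h : p + q = d) :
    ∑ i, p i ≤ D ∧ ∑ i, q i ≤ D := by
  subst h
  simp only [Finsupp.add_apply, Finset.sum_add_distrib] at hd
  omega

private theorem PII_Trunc_sub_le {D : ℕ} {d e : I →₀ ℕ} (hd : ∑ i, d i ≤ D) (he : e ≠ 0) (h : e ≤ d) :
    ∑ i, (d - e) i + 1 ≤ D := by
  obtain ⟨i, hi⟩ : ∃ i, e i ≠ 0 := by
    by_contra hcon
    push Not at hcon
    exact he (Finsupp.ext hcon)
  have h1 : ∑ i, (d - e) i < ∑ i, d i := by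
    refine Finset.sum_lt_sum (fun j _ => ?_) ⟨i, Finset.mem_univ i, ?_⟩
    · rw [Finsupp.tsub_apply]; exact Nat.sub_le _ _
    · rw [Finsupp.tsub_apply]
      have := h i
      omega
  omega

theorem EqTo.add {D : ℕ} {f f' g g' : MvPowerSeries I R} (h : EqTo D f f') (h' : EqTo D g g') :
    EqTo D (f + g) (f' + g') := by
  intro d hd
  rw [map_add, map_add, h d hd, h' d hd]

theorem EqTo.sub {D : ℕ} {f f' g g' : MvPowerSeries I R} (h : EqTo D f f') (h' : EqTo D g g') :
    EqTo D (f - g) (f' - g') := by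
  intro d hd
  rw [map_sub, map_sub, h d hd, h' d hd]

/-- `MvPowerSeries.coeff_mul` and `a.1, a.2 ≤ d` on the antidiagonal. -/
theorem EqTo.mul {D : ℕ} {f f' g g' : MvPowerSeries I R} (h : EqTo D f f') (h' : EqTo D g g') :
    EqTo D (f * g) (f' * g') := by
  classical
  intro d hd
  rw [MvPowerSeries.coeff_mul, MvPowerSeries.coeff_mul]
  refine Finset.sum_congr rfl fun p hp => ?_
  have h2 := PII_Trunc_sum_le hd (Finset.HasAntidiagonal.mem_antidiagonal.1 hp)
  rw [h _ h2.1, h' _ h2.2]

/-- Multiplication by a monomial of positive degree gains one degree. -/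
theorem EqTo.monomial_mul {D : ℕ} {f g : MvPowerSeries I R} (h : EqTo D f g) {e : I →₀ ℕ}
    (he : e ≠ 0) (c : R) :
    EqTo (D + 1) (MvPowerSeries.monomial e c * f) (MvPowerSeries.monomial e c * g) := by
  classical
  intro d hd
  rw [MvPowerSeries.coeff_monomial_mul, MvPowerSeries.coeff_monomial_mul]
  split_ifs with hed
  · rw [h _ (by have := PII_Trunc_sub_le hd he hed; omega)]
  · rfl

theorem EqTo.monomial_mul_zero {f g : MvPowerSeries I R} {e : I →₀ ℕ}
    (he : e ≠ 0) (c : R) :
    EqTo 0 (MvPowerSeries.monomial e c * f) (MvPowerSeries.monomial e c * g) := by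
  classical
  intro d hd
  rw [MvPowerSeries.coeff_monomial_mul, MvPowerSeries.coeff_monomial_mul]
  split_ifs with hed
  · have := PII_Trunc_sub_le hd he hed
    omega
  · rfl

/-- If `f * g = 1`, `f' * g' = 1` and `f`, `f'` agree then `g`, `g'` agree:
`g = g * (f' * g') ~ g * (f * g') = g'`. -/
theorem EqTo.of_mul_eq_one {D : ℕ} {f f' g g' : MvPowerSeries I R} (h : EqTo D f f')
    (hg : f * g = 1) (hg' : f' * g' = 1) : EqTo D g g' := by
  have h1 : EqTo D (g * (f' * g')) (g * (f * g')) :=
    (EqTo.refl D g).mul (h.symm.mul (EqTo.refl D g'))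
  have h2 : g * (f * g') = g' := by rw [← mul_assoc, mul_comm g f, hg, one_mul]
  rw [hg', mul_one, h2] at h1
  exact h1

end

section

variable {I : Type} [Fintype I] {K : Type} [Field K]

/-- The coefficients of total degree at most `D` are in the subring `S`. -/
def InTo (S : Subring K) (D : ℕ) (f : MvPowerSeries I K) : Prop :=
  ∀ d : I →₀ ℕ, ∑ i, d i ≤ D → MvPowerSeries.coeff d f ∈ S

theorem InTo.one (S : Subring K) (D : ℕ) : InTo S D (1 : MvPowerSeries I K) := by
  classical
  intro d _
  rw [MvPowerSeries.coeff_one]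
  split_ifs
  · exact S.one_mem
  · exact S.zero_mem

theorem InTo.sub {S : Subring K} {D : ℕ} {f g : MvPowerSeries I K} (hf : InTo S D f)
    (hg : InTo S D g) : InTo S D (f - g) := by
  intro d hd
  rw [map_sub]
  exact S.sub_mem (hf d hd) (hg d hd)

theorem InTo.mul {S : Subring K} {D : ℕ} {f g : MvPowerSeries I K} (hf : InTo S D f)
    (hg : InTo S D g) : InTo S D (f * g) := by
  classical
  intro d hd
  rw [MvPowerSeries.coeff_mul]
  refine S.sum_mem fun p hp => ?_
  have h2 := PII_Trunc_sum_le hd (Finset.HasAntidiagonal.mem_antidiagonal.1 hp)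
  exact S.mul_mem (hf _ h2.1) (hg _ h2.2)

/-- Induction on the total degree: `MvPowerSeries.coeff_inv` or the recursion which follows from
`f * g = 1` and `constantCoeff f = 1`. -/
theorem InTo.of_mul_eq_one {S : Subring K} {D : ℕ} {f g : MvPowerSeries I K} (hf : InTo S D f)
    (h1 : MvPowerSeries.constantCoeff f = 1) (hg : f * g = 1) : InTo S D g := by
  classical
  have key : ∀ n : ℕ, ∀ d : I →₀ ℕ, ∑ i, d i = n → n ≤ D → MvPowerSeries.coeff d g ∈ S := by
    intro n
    induction n using Nat.strong_induction_on with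
    | _ n ih =>
      intro d hdn hn
      have h2 : MvPowerSeries.coeff d (f * g) ∈ S := by
        rw [hg]; exact InTo.one S D d (hdn.le.trans hn)
      rw [MvPowerSeries.coeff_mul] at h2
      have h0 : ((0 : I →₀ ℕ), d) ∈ Finset.HasAntidiagonal.antidiagonal d := by
        rw [Finset.HasAntidiagonal.mem_antidiagonal]; exact zero_add d
      rw [← Finset.add_sum_erase _ _ h0] at h2
      have h3 : ∑ p ∈ (Finset.HasAntidiagonal.antidiagonal d).erase (0, d),
          MvPowerSeries.coeff p.1 f * MvPowerSeries.coeff p.2 g ∈ S := by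
        refine S.sum_mem fun p hp => ?_
        rw [Finset.mem_erase, Finset.HasAntidiagonal.mem_antidiagonal] at hp
        have h4 := PII_Trunc_sum_le (hdn.le.trans hn) hp.2
        refine S.mul_mem (hf _ h4.1) ?_
        have hp1 : p.1 ≠ 0 := by
          intro hz
          apply hp.1
          have : p.2 = d := by rw [← hp.2, hz, zero_add]
          exact Prod.ext hz this
        have hle : p.1 ≤ d := by rw [← hp.2]; exact le_self_add
        have h5 := PII_Trunc_sub_le (D := n) hdn.le hp1 hle
        have h6 : d - p.1 = p.2 := by rw [← hp.2]; exact add_tsub_cancel_left _ _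
        rw [h6] at h5
        exact ih (∑ i, p.2 i) (by omega) p.2 rfl (by omega)
      have h7 : MvPowerSeries.coeff (0 : I →₀ ℕ) f = 1 := by
        rw [MvPowerSeries.coeff_zero_eq_constantCoeff_apply, h1]
      have h8 := S.sub_mem h2 h3
      rw [add_sub_cancel_right] at h8
      simpa [h7] using h8
  intro d hd
  exact key _ d rfl hd

theorem InTo.congr {S : Subring K} {D : ℕ} {f g : MvPowerSeries I K} (hf : InTo S D f)
    (h : EqTo D f g) : InTo S D g := fun d hd => by rw [← h d hd]; exact hf d hd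

theorem InTo.monomial_mul {S : Subring K} {D : ℕ} {f : MvPowerSeries I K} (hf : InTo S D f)
    {e : I →₀ ℕ} (he : e ≠ 0) {c : K} (hc : c ∈ S) :
    InTo S (D + 1) (MvPowerSeries.monomial e c * f) := by
  classical
  intro d hd
  rw [MvPowerSeries.coeff_monomial_mul]
  split_ifs with hed
  · exact S.mul_mem hc (hf _ (by have := PII_Trunc_sub_le hd he hed; omega))
  · exact S.zero_mem

theorem InTo.monomial_mul_zero {S : Subring K} {f : MvPowerSeries I K}
    {e : I →₀ ℕ} (he : e ≠ 0) (c : K) : InTo S 0 (MvPowerSeries.monomial e c * f) := by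
  classical
  intro d hd
  rw [MvPowerSeries.coeff_monomial_mul]
  split_ifs with hed
  · have := PII_Trunc_sub_le hd he hed
    omega
  · exact S.zero_mem

end

end Pool.Agent.H27.KAC
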