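import Pool.Agent.H27.KAC.PII_Step
import Pool.Agent.H27.KAC.PII_Trunc

/-!
Project KAC, part II.3: the quotients of the shifted fermionic sums have integral coefficients.
-/

set_option autoImplicit false

namespace Pool.Agent.H27.KAC

open scoped BigOperators

/-- The data: a ring `R` with a unit `u`, an embedding of `R` in a field `K`, and a homomorphism
`R → S` with `u ↦ 1`; a symmetric matrix `A` with even diagonal. -/
structure Setup (I R K S : Type) [CommRing R] [Field K] [CommRing S] where
  A : I → I → ℕ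
  symm : ∀ i j, A i j = A j i
  even : ∀ i, Even (A i i)
  ι : R →+* K
  inj : Function.Injective ι
  ev : R →+* S
  u : Rˣ
  evu : ev u = 1
  ne : ∀ j : ℕ, (ι u) ^ (j + 1) ≠ 1

section

variable {I R K S : Type} [DecidableEq I] [CommRing R] [Field K] [CommRing S]

/-- The element `q` of the field. -/
def Setup.q (s : Setup I R K S) : K := s.ι s.u

/-- The shifted fermionic sums. -/
noncomputable def Setup.F (s : Setup I R K S) (n : Prt I → ℤ) : MvPowerSeries I K := Fs s.q s.A n

/-- The quotient of two shifted sums. -/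
noncomputable def Setup.Q (s : Setup I R K S) (n n' : Prt I → ℤ) : MvPowerSeries I K :=
  s.F n' * (s.F n)⁻¹

theorem Setup.q_ne (s : Setup I R K S) : s.q ≠ 0 := (s.u.isUnit.map s.ι).ne_zero

/-- All powers of `q` are in the image of `R`. -/
theorem Setup.zpow_mem (s : Setup I R K S) (z : ℤ) : s.q ^ z ∈ s.ι.range := by
  refine ⟨((s.u ^ z : Rˣ) : R), ?_⟩
  have h1 : s.ι ((s.u ^ z : Rˣ) : R) =
      ((Units.map (s.ι : R →* K) (s.u ^ z) : Kˣ) : K) := rfl
  rw [h1, map_zpow, Units.val_zpow_eq_zpow_val]
  rfl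

theorem Setup.F_mul_inv (s : Setup I R K S) (n : Prt I → ℤ) : s.F n * (s.F n)⁻¹ = 1 := by
  refine MvPowerSeries.mul_inv_cancel _ ?_
  unfold Setup.F
  rw [Fs_const]
  exact one_ne_zero

theorem Setup.Q_self (s : Setup I R K S) (n : Prt I → ℤ) : s.Q n n = 1 := s.F_mul_inv n

theorem Setup.Q_mul (s : Setup I R K S) (n n' n'' : Prt I → ℤ) :
    s.Q n n' * s.Q n' n'' = s.Q n n'' := by
  have h1 : s.Q n n' * s.Q n' n'' = s.F n'' * (s.F n)⁻¹ * (s.F n' * (s.F n')⁻¹) := by
    unfold Setup.Q
    ring
  rw [h1, s.F_mul_inv, mul_one]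
  rfl

theorem Setup.Q_const (s : Setup I R K S) (n n' : Prt I → ℤ) :
    MvPowerSeries.constantCoeff (s.Q n n') = 1 := by
  unfold Setup.Q Setup.F
  rw [map_mul, MvPowerSeries.constantCoeff_inv, Fs_const, Fs_const, inv_one, mul_one]

/-- `Fs_step` divided by `F n`. -/
theorem Setup.Q_step (s : Setup I R K S) (n : Prt I → ℤ) (a : Prt I) :
    s.Q n (n - Pi.single a 1) = 1 -
      MvPowerSeries.monomial (pwt a) (s.q ^ (n a - Bm s.A a a / 2)) * s.Q n (n - Bm s.A a) := by
  have h1 := Fs_step (q := s.q) s.q_ne s.ne s.symm s.even n a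
  have h2 : s.F (n - Pi.single a 1) = s.F n -
      MvPowerSeries.monomial (pwt a) (s.q ^ (n a - Bm s.A a a / 2)) * s.F (n - Bm s.A a) := by
    unfold Setup.F
    rw [← h1]
    ring
  unfold Setup.Q
  rw [h2, sub_mul, s.F_mul_inv, mul_assoc]

variable [Fintype I]

theorem Setup.Q_congr (s : Setup I R K S) {n m n' m' : Prt I → ℤ} {D : ℕ}
    (h : ∀ a : Prt I, a.2 + 1 ≤ D → n a = n' a) (h' : ∀ a : Prt I, a.2 + 1 ≤ D → m a = m' a) :
    EqTo D (s.Q n m) (s.Q n' m') := by
  have h1 : EqTo D (s.F n) (s.F n') := fun d hd => Fs_congr s.q s.A h d hd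
  have h2 : EqTo D (s.F m) (s.F m') := fun d hd => Fs_congr s.q s.A h' d hd
  exact h2.mul (h1.of_mul_eq_one (s.F_mul_inv n) (s.F_mul_inv n'))

/-- General principle: a relation between the shift vectors which is reflexive on vectors agreeing on
the parts of size at most `D`, and which is an equivalence relation and contains all the steps
`(n, n - e_a)`, is everything.  (Change the finitely many values at the parts of size at most `D` one
after the other, by steps of one.) -/
theorem shift_induction (D : ℕ) (P : (Prt I → ℤ) → (Prt I → ℤ) → Prop)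
    (hc : ∀ n n', (∀ a : Prt I, a.2 + 1 ≤ D → n a = n' a) → P n n')
    (hs : ∀ n n', P n n' → P n' n) (ht : ∀ n n' n'', P n n' → P n' n'' → P n n'')
    (h1 : ∀ n a, P n (n - Pi.single a 1)) (n n' : Prt I → ℤ) : P n n' := by
  classical
  have hrefl : ∀ n, P n n := fun n => hc n n fun _ _ => rfl
  have hz : ∀ (a : Prt I) (z : ℤ) (n : Prt I → ℤ), P n (n + Pi.single a z) := by
    intro a z
    induction z using Int.induction_on with
    | zero =>
      intro n
      rw [Pi.single_zero, add_zero]
      exact hrefl n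
    | succ i ih =>
      intro n
      refine ht _ _ _ (ih n) ?_
      have h2 := h1 (n + Pi.single a ((i : ℤ) + 1)) a
      have h3 : n + Pi.single a ((i : ℤ) + 1) - Pi.single a 1 = n + Pi.single a (i : ℤ) := by
        rw [Pi.single_add]
        abel
      rw [h3] at h2
      exact hs _ _ h2
    | pred i ih =>
      intro n
      refine ht _ _ _ (ih n) ?_
      have h2 := h1 (n + Pi.single a (-(i : ℤ))) a
      have h3 : n + Pi.single a (-(i : ℤ)) - Pi.single a 1 =
          n + Pi.single a (-(i : ℤ) - 1) := by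
        rw [Pi.single_sub]
        abel
      rw [h3] at h2
      exact h2
  have hfin : ∀ s : Finset (Prt I), ∀ n n' : Prt I → ℤ,
      (∀ a, a ∉ s → a.2 + 1 ≤ D → n a = n' a) → P n n' := by
    intro s
    induction s using Finset.induction_on with
    | empty =>
      intro n n' h
      exact hc n n' fun a ha => h a (Finset.notMem_empty a) ha
    | insert b s hb ih =>
      intro n n' h
      refine ht n (n + Pi.single b (n' b - n b)) n' (hz b _ n) (ih _ _ ?_)
      intro a ha haD
      by_cases hab : a = b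
      · subst hab
        simp
      · rw [Pi.add_apply, Pi.single_eq_of_ne hab, add_zero]
        exact h a (by simp [hab, ha]) haD
  refine hfin (Finset.univ ×ˢ Finset.range D) n n' fun a ha haD => ?_
  exfalso
  apply ha
  rw [Finset.mem_product, Finset.mem_range]
  exact ⟨Finset.mem_univ _, by omega⟩

/-- Induction on `D` with `shift_induction` for `P n n' := InTo (range ι) D (Q n n')`: (hc) by `Q_congr`
and `Q_self`, (hs) by `InTo.of_mul_eq_one`, `Q_mul`, (ht) by `InTo.mul`, (h1) by `Q_step` and the
induction hypothesis (`InTo.monomial_mul`, `InTo.monomial_mul_zero` for `D = 0`). -/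
theorem Setup.Q_inTo (s : Setup I R K S) (D : ℕ) (n n' : Prt I → ℤ) :
    InTo s.ι.range D (s.Q n n') := by
  have main : ∀ D : ℕ, (∀ (n : Prt I → ℤ) (a : Prt I),
      InTo s.ι.range D (s.Q n (n - Pi.single a 1))) → ∀ n n' : Prt I → ℤ,
      InTo s.ι.range D (s.Q n n') := by
    intro D h1
    refine shift_induction D (fun n n' => InTo s.ι.range D (s.Q n n')) ?_ ?_ ?_ h1
    · intro n n' h
      have h2 := s.Q_congr (D := D) (n := n) (m := n) (n' := n) (m' := n') (fun _ _ => rfl) h
      rw [s.Q_self] at h2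
      exact (InTo.one _ _).congr h2
    · intro n n' h
      exact h.of_mul_eq_one (s.Q_const n n') (by rw [s.Q_mul, s.Q_self])
    · intro n n' n'' h h'
      rw [← s.Q_mul n n' n'']
      exact h.mul h'
  induction D generalizing n n' with
  | zero =>
    refine main 0 (fun n a => ?_) n n'
    rw [s.Q_step]
    refine (InTo.one _ _).sub (InTo.monomial_mul_zero ?_ _)
    unfold pwt
    rw [Ne, Finsupp.single_eq_zero]
    omega
  | succ D ih =>
    refine main (D + 1) (fun n a => ?_) n n'
    rw [s.Q_step]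
    refine (InTo.one _ _).sub ((ih _ _).monomial_mul ?_ (s.zpow_mem _))
    unfold pwt
    rw [Ne, Finsupp.single_eq_zero]
    omega

theorem Setup.exists_G (s : Setup I R K S) (n n' : Prt I → ℤ) :
    ∃ G : MvPowerSeries I R, MvPowerSeries.map s.ι G = s.Q n n' := by
  have h : ∀ d : I →₀ ℕ, ∃ r : R, s.ι r = MvPowerSeries.coeff d (s.Q n n') := by
    intro d
    have h1 := s.Q_inTo (∑ i, d i) n n' d le_rfl
    obtain ⟨r, hr⟩ := h1
    exact ⟨r, hr⟩
  choose G hG using h
  refine ⟨(show MvPowerSeries I R from G), ?_⟩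
  ext d
  exact hG d

end

end Pool.Agent.H27.KAC
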