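import Pool.Agent.H27.KAC.PII_Def

/-!
Project KAC, part II.3: adding one part to a multipartition.
-/

set_option autoImplicit false

namespace Pool.Agent.H27.KAC

open scoped BigOperators

variable {I : Type}

theorem mwt_zero : mwt (0 : Prt I →₀ ℕ) = 0 := Finsupp.sum_zero_index

theorem mwt_add (m m' : Prt I →₀ ℕ) : mwt (m + m') = mwt m + mwt m' := by
  classical
  exact Finsupp.sum_add_index' (fun a => zero_smul ℕ (pwt a)) (fun a x y => add_smul x y (pwt a))

theorem mwt_single (a : Prt I) (x : ℕ) : mwt (Finsupp.single a x) = x • pwt a :=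
  Finsupp.sum_single_index (zero_smul ℕ (pwt a))

theorem PII_Shift.size_le {m : Prt I →₀ ℕ} {a : Prt I} (h : m a ≠ 0) : a.2 + 1 ≤ mwt m a.1 := by
  have h1 := PII_Def.mul_le m a
  have h2 : 1 ≤ m a := Nat.one_le_iff_ne_zero.2 h
  nlinarith

theorem mwt_eq_zero {m : Prt I →₀ ℕ} : mwt m = 0 ↔ m = 0 := by
  constructor
  · intro h
    ext a
    by_contra ha
    have h1 := PII_Shift.size_le (m := m) (a := a) ha
    rw [h] at h1
    simp at h1
  · rintro rfl
    exact mwt_zero

/-- `pwt a ≤ mwt m` for each part of `m`; in particular its size is at most `mwt m a.1`. -/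
theorem size_le_of_mem {m : Prt I →₀ ℕ} {a : Prt I} (h : m a ≠ 0) : a.2 + 1 ≤ mwt m a.1 :=
  PII_Shift.size_le h

theorem dotm_zero_right (n : Prt I → ℤ) : dotm n 0 = 0 := Finsupp.sum_zero_index

theorem dotm_add (n : Prt I → ℤ) (m m' : Prt I →₀ ℕ) : dotm n (m + m') = dotm n m + dotm n m' := by
  classical
  refine Finsupp.sum_add_index' (fun a => ?_) (fun a x y => ?_)
  · simp
  · push_cast
    ring

theorem dotm_single (n : Prt I → ℤ) (a : Prt I) (x : ℕ) :
    dotm n (Finsupp.single a x) = n a * x := by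
  refine Finsupp.sum_single_index ?_
  simp

theorem dotm_add_left (n n' : Prt I → ℤ) (m : Prt I →₀ ℕ) :
    dotm (n + n') m = dotm n m + dotm n' m := by
  unfold dotm Finsupp.sum
  rw [← Finset.sum_add_distrib]
  refine Finset.sum_congr rfl fun a _ => ?_
  dsimp only
  rw [Pi.add_apply]
  ring

theorem dotm_sub_left (n n' : Prt I → ℤ) (m : Prt I →₀ ℕ) :
    dotm (n - n') m = dotm n m - dotm n' m := by
  unfold dotm Finsupp.sum
  rw [← Finset.sum_sub_distrib]
  refine Finset.sum_congr rfl fun a _ => ?_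
  dsimp only
  rw [Pi.sub_apply]
  ring

theorem dotm_pi_single [DecidableEq I] (a : Prt I) (m : Prt I →₀ ℕ) :
    dotm (Pi.single a 1) m = m a := by
  unfold dotm Finsupp.sum
  rw [Finset.sum_eq_single a]
  · simp
  · intro b _ hb
    dsimp only
    rw [Pi.single_eq_of_ne hb, zero_mul]
  · intro ha
    rw [Finsupp.notMem_support_iff.1 ha]
    simp

/-- `n` and `n'` need only agree on the parts of `m`. -/
theorem dotm_congr {n n' : Prt I → ℤ} {m : Prt I →₀ ℕ} (h : ∀ a, m a ≠ 0 → n a = n' a) :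
    dotm n m = dotm n' m := by
  unfold dotm Finsupp.sum
  refine Finset.sum_congr rfl fun a ha => ?_
  dsimp only
  rw [h a (Finsupp.mem_support_iff.1 ha)]

/-- The vector `(j, l) ↦ δ_ij (l + 1)` measures the weight at `i`. -/
theorem dotm_size [DecidableEq I] (i : I) (m : Prt I →₀ ℕ) :
    dotm (fun a => if a.1 = i then ((a.2 + 1 : ℕ) : ℤ) else 0) m = (mwt m i : ℤ) := by
  have h1 : mwt m i = ∑ b ∈ m.support, (m b • pwt b) i := by
    unfold mwt Finsupp.sum
    rw [Finsupp.finsetSum_apply]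
  rw [h1]
  unfold dotm Finsupp.sum
  rw [Nat.cast_sum]
  refine Finset.sum_congr rfl fun a _ => ?_
  by_cases ha : a.1 = i
  · subst ha
    simp only [pwt, Finsupp.smul_apply, Finsupp.single_eq_same, smul_eq_mul, if_true]
    push_cast
    ring
  · dsimp only
    rw [if_neg ha]
    simp only [pwt, Finsupp.smul_apply, smul_eq_mul]
    rw [Finsupp.single_eq_of_ne (Ne.symm ha)]
    simp

variable [DecidableEq I]

/-- Sums over the multipartitions of weight `α + pwt a` which contain the part `a`. -/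
theorem sum_mps_shift {M : Type} [AddCommMonoid M] (a : Prt I) (α : I →₀ ℕ)
    (f : (Prt I →₀ ℕ) → M) (h : ∀ m, m a = 0 → f m = 0) :
    ∑ m ∈ mps (pwt a + α), f m = ∑ m ∈ mps α, f (m + Finsupp.single a 1) := by
  classical
  have h1 : ∑ m ∈ mps α, f (m + Finsupp.single a 1) =
      ∑ m ∈ (mps α).image (fun m => m + Finsupp.single a 1), f m := by
    rw [Finset.sum_image]
    intro m _ m' _ hm
    exact add_right_cancel hm
  rw [h1]
  symm
  apply Finset.sum_subset
  · intro m hm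
    obtain ⟨m', hm', rfl⟩ := Finset.mem_image.1 hm
    rw [mem_mps] at hm' ⊢
    rw [mwt_add, mwt_single, one_smul, hm', add_comm]
  · intro m hm hm'
    apply h
    by_contra ha
    apply hm'
    refine Finset.mem_image.2 ⟨m - Finsupp.single a 1, ?_, ?_⟩
    · rw [mem_mps] at hm ⊢
      have h2 : m - Finsupp.single a 1 + Finsupp.single a 1 = m :=
        tsub_add_cancel_of_le (Finsupp.single_le_iff.2 (Nat.one_le_iff_ne_zero.2 ha))
      have h3 := mwt_add (m - Finsupp.single a 1) (Finsupp.single a 1)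
      rw [h2, mwt_single, one_smul, hm, add_comm (pwt a) α] at h3
      exact (add_right_cancel h3).symm
    · exact tsub_add_cancel_of_le (Finsupp.single_le_iff.2 (Nat.one_le_iff_ne_zero.2 ha))

/-- If `pwt a ≤ α` fails then no multipartition of weight `α` contains the part `a`. -/
theorem eq_zero_of_not_le {a : Prt I} {α : I →₀ ℕ} (h : ¬ pwt a ≤ α) {m : Prt I →₀ ℕ}
    (hm : m ∈ mps α) : m a = 0 := by
  by_contra ha
  apply h
  rw [mem_mps] at hm
  unfold pwt
  rw [Finsupp.single_le_iff, ← hm]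
  exact size_le_of_mem ha

/-- The bilinear form. -/
noncomputable def PII_Shift.bb (A : I → I → ℕ) (m m' : Prt I →₀ ℕ) : ℤ :=
  m.sum fun a x => (x : ℤ) * dotm (Bm A a) m'

theorem PII_Shift.bb_add_left (A : I → I → ℕ) (m m' m'' : Prt I →₀ ℕ) :
    PII_Shift.bb A (m + m') m'' = PII_Shift.bb A m m'' + PII_Shift.bb A m' m'' := by
  refine Finsupp.sum_add_index' (fun a => ?_) (fun a x y => ?_)
  · simp
  · push_cast
    ring

theorem PII_Shift.bb_add_right (A : I → I → ℕ) (m m' m'' : Prt I →₀ ℕ) :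
    PII_Shift.bb A m (m' + m'') = PII_Shift.bb A m m' + PII_Shift.bb A m m'' := by
  unfold PII_Shift.bb Finsupp.sum
  rw [← Finset.sum_add_distrib]
  refine Finset.sum_congr rfl fun a _ => ?_
  dsimp only
  rw [dotm_add]
  ring

theorem PII_Shift.bb_single (A : I → I → ℕ) (a : Prt I) (x : ℕ) (m : Prt I →₀ ℕ) :
    PII_Shift.bb A (Finsupp.single a x) m = x * dotm (Bm A a) m := by
  refine Finsupp.sum_single_index ?_
  simp

theorem PII_Shift.Bm_symm {A : I → I → ℕ} (hs : ∀ i j, A i j = A j i) (a b : Prt I) :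
    Bm A a b = Bm A b a := by
  unfold Bm cart
  rw [hs a.1 b.1, min_comm]
  by_cases h : a.1 = b.1
  · rw [if_pos h, if_pos h.symm]
  · rw [if_neg h, if_neg (Ne.symm h)]

theorem PII_Shift.bb_symm {A : I → I → ℕ} (hs : ∀ i j, A i j = A j i) (m m' : Prt I →₀ ℕ) :
    PII_Shift.bb A m m' = PII_Shift.bb A m' m := by
  unfold PII_Shift.bb dotm Finsupp.sum
  simp only [Finset.mul_sum]
  rw [Finset.sum_comm]
  refine Finset.sum_congr rfl fun a _ => Finset.sum_congr rfl fun b _ => ?_
  rw [PII_Shift.Bm_symm hs b a]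
  ring

theorem PII_Shift.Bm_even {A : I → I → ℕ} (hd : ∀ i, Even (A i i)) (a : Prt I) :
    Even (Bm A a a) := by
  unfold Bm cart
  rw [if_pos rfl]
  obtain ⟨k, hk⟩ := hd a.1
  have h1 : Even ((2 : ℤ) - (A a.1 a.1 : ℤ)) := ⟨1 - k, by
    rw [hk]
    push_cast
    ring⟩
  exact h1.mul_right _

theorem PII_Shift.bb_even {A : I → I → ℕ} (hs : ∀ i j, A i j = A j i) (hd : ∀ i, Even (A i i))
    (m : Prt I →₀ ℕ) : Even (PII_Shift.bb A m m) := by
  induction m using Finsupp.induction_linear with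
  | zero =>
    have : PII_Shift.bb A 0 0 = 0 := Finsupp.sum_zero_index
    rw [this]
    exact Even.zero
  | add m m' h h' =>
    rw [PII_Shift.bb_add_left, PII_Shift.bb_add_right, PII_Shift.bb_add_right,
      PII_Shift.bb_symm hs m' m]
    have h2 : PII_Shift.bb A m m + PII_Shift.bb A m m' + (PII_Shift.bb A m m' +
        PII_Shift.bb A m' m') = PII_Shift.bb A m m + PII_Shift.bb A m' m' +
        2 * PII_Shift.bb A m m' := by ring
    rw [h2]
    exact (h.add h').add (even_two_mul _)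
  | single a x =>
    rw [PII_Shift.bb_single, dotm_single]
    exact ((PII_Shift.Bm_even hd a).mul_right _).mul_left _

/-- The sum is even, so that the division by two is harmless. -/
theorem hq_two {A : I → I → ℕ} (hs : ∀ i j, A i j = A j i) (hd : ∀ i, Even (A i i))
    (m : Prt I →₀ ℕ) : 2 * hq A m = m.sum fun a x => (x : ℤ) * dotm (Bm A a) m := by
  exact Int.two_mul_ediv_two_of_even (PII_Shift.bb_even hs hd m)

theorem hq_zero (A : I → I → ℕ) : hq A 0 = 0 := by
  unfold hq
  rw [Finsupp.sum_zero_index]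
  rfl

theorem hq_add_single {A : I → I → ℕ} (hs : ∀ i j, A i j = A j i) (hd : ∀ i, Even (A i i))
    (m : Prt I →₀ ℕ) (a : Prt I) :
    hq A (m + Finsupp.single a 1) = hq A m + dotm (Bm A a) m + Bm A a a / 2 := by
  have h1 := hq_two hs hd (m + Finsupp.single a 1)
  have h2 := hq_two hs hd m
  have h3 : PII_Shift.bb A (m + Finsupp.single a 1) (m + Finsupp.single a 1) =
      PII_Shift.bb A m m + 2 * dotm (Bm A a) m + Bm A a a := by
    rw [PII_Shift.bb_add_left, PII_Shift.bb_add_right, PII_Shift.bb_add_right,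
      PII_Shift.bb_symm hs m (Finsupp.single a 1), PII_Shift.bb_single, PII_Shift.bb_single,
      dotm_single]
    push_cast
    ring
  have h4 : 2 * (Bm A a a / 2) = Bm A a a :=
    Int.two_mul_ediv_two_of_even (PII_Shift.Bm_even hd a)
  unfold PII_Shift.bb at h3
  rw [← h1, ← h2] at h3
  omega

variable {K : Type} [Field K]

theorem qpoch_ne_zero {q : K} (hq : q ≠ 0) (h : ∀ j : ℕ, q ^ (j + 1) ≠ 1) (x : ℕ) :
    qpoch q x ≠ 0 := by
  unfold qpoch
  rw [Finset.prod_ne_zero_iff]
  intro j _ h1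
  apply h j
  have h2 : (q⁻¹) ^ (j + 1) = 1 := (sub_eq_zero.1 h1).symm
  rw [inv_pow] at h2
  exact inv_eq_one.1 h2

theorem cc_zero (q : K) (A : I → I → ℕ) : cc q A 0 = 1 := by
  unfold cc
  rw [hq_zero, Finsupp.prod_zero_index]
  simp

theorem cc_add_single {q : K} (hq : q ≠ 0) (h : ∀ j : ℕ, q ^ (j + 1) ≠ 1) {A : I → I → ℕ}
    (hs : ∀ i j, A i j = A j i) (hd : ∀ i, Even (A i i)) (m : Prt I →₀ ℕ) (a : Prt I) :
    (1 - q ^ (-((m a : ℤ) + 1))) * cc q A (m + Finsupp.single a 1) =
      q ^ (-(dotm (Bm A a) m) - Bm A a a / 2) * cc q A m := by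
  have h1 : (1 : K) - q ^ (-((m a : ℤ) + 1)) = 1 - (q⁻¹) ^ (m a + 1) := by
    have h3 : ((m a : ℤ) + 1) = ((m a + 1 : ℕ) : ℤ) := by push_cast; ring
    rw [h3, zpow_neg, inv_pow, zpow_natCast]
  have h2 : (1 : K) - (q⁻¹) ^ (m a + 1) ≠ 0 := by
    intro h3
    apply h (m a)
    have h4 : (q⁻¹) ^ (m a + 1) = 1 := (sub_eq_zero.1 h3).symm
    rw [inv_pow] at h4
    exact inv_eq_one.1 h4
  have h0 : ∀ b : Prt I, (qpoch q 0)⁻¹ = 1 := by
    intro _
    simp [qpoch]
  have e1 : m.prod (fun _ x => (qpoch q x)⁻¹) =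
      ∏ b ∈ insert a m.support, (qpoch q (m b))⁻¹ :=
    Finsupp.prod_of_support_subset m (Finset.subset_insert a _) (fun _ x => (qpoch q x)⁻¹)
      fun b _ => h0 b
  have e2 : (m + Finsupp.single a 1).prod (fun _ x => (qpoch q x)⁻¹) =
      ∏ b ∈ insert a m.support, (qpoch q ((m + Finsupp.single a 1 : Prt I →₀ ℕ) b))⁻¹ := by
    refine Finsupp.prod_of_support_subset _ ?_ (fun _ x => (qpoch q x)⁻¹) fun b _ => h0 b
    intro b hb
    rw [Finsupp.mem_support_iff, Finsupp.add_apply] at hb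
    by_cases hba : b = a
    · rw [hba]
      exact Finset.mem_insert_self _ _
    · rw [Finsupp.single_eq_of_ne hba, add_zero] at hb
      exact Finset.mem_insert_of_mem (Finsupp.mem_support_iff.2 hb)
  have e3 : (1 - (q⁻¹) ^ (m a + 1)) *
      ∏ b ∈ insert a m.support, (qpoch q ((m + Finsupp.single a 1 : Prt I →₀ ℕ) b))⁻¹ =
      ∏ b ∈ insert a m.support, (qpoch q (m b))⁻¹ := by
    rw [← Finset.mul_prod_erase _ _ (Finset.mem_insert_self a m.support),
      ← Finset.mul_prod_erase _ _ (Finset.mem_insert_self a m.support)]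
    have e4 : ∏ b ∈ (insert a m.support).erase a,
        (qpoch q ((m + Finsupp.single a 1 : Prt I →₀ ℕ) b))⁻¹ =
        ∏ b ∈ (insert a m.support).erase a, (qpoch q (m b))⁻¹ := by
      refine Finset.prod_congr rfl fun b hb => ?_
      rw [Finsupp.add_apply, Finsupp.single_eq_of_ne (Finset.ne_of_mem_erase hb), add_zero]
    rw [e4, Finsupp.add_apply, Finsupp.single_eq_same]
    have e5 : qpoch q (m a + 1) = qpoch q (m a) * (1 - (q⁻¹) ^ (m a + 1)) := by
      unfold qpoch
      rw [Finset.prod_range_succ]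
    rw [e5, mul_inv]
    linear_combination ((qpoch q (m a))⁻¹ *
      ∏ b ∈ (insert a m.support).erase a, (qpoch q (m b))⁻¹) * (mul_inv_cancel₀ h2)
  unfold cc
  rw [h1, hq_add_single hs hd, e1, e2, ← e3]
  have e6 : -(Pool.Agent.H27.KAC.hq A m + dotm (Bm A a) m + Bm A a a / 2) =
      (-(dotm (Bm A a) m) - Bm A a a / 2) + -(Pool.Agent.H27.KAC.hq A m) := by ring
  rw [e6, zpow_add₀ hq]
  ring

end Pool.Agent.H27.KAC
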