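import Pool.Agent.H27.KAC.PII_Shift

/-!
Project KAC, part II.3: the functional equation of the fermionic sums.
-/

set_option autoImplicit false

namespace Pool.Agent.H27.KAC

open scoped BigOperators

variable {I : Type} [DecidableEq I] {K : Type} [Field K]

theorem coeff_Fs (q : K) (A : I → I → ℕ) (n : Prt I → ℤ) (α : I →₀ ℕ) :
    MvPowerSeries.coeff α (Fs q A n) = ∑ m ∈ mps α, q ^ (dotm n m) * cc q A m := rfl

theorem Fs_const (q : K) (A : I → I → ℕ) (n : Prt I → ℤ) :
    MvPowerSeries.constantCoeff (Fs q A n) = 1 := by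
  rw [← MvPowerSeries.coeff_zero_eq_constantCoeff_apply, coeff_Fs]
  have h0 : mps (0 : I →₀ ℕ) = {0} := by
    ext m
    rw [mem_mps, Finset.mem_singleton, mwt_eq_zero]
  rw [h0, Finset.sum_singleton, dotm_zero_right, cc_zero, zpow_zero, one_mul]

/-- `F(n) - F(n - e_a) = q^(n_a - B_aa / 2) X^(wt a) F(n - B_a)`.  Compare the coefficients at `α`:
the left side is the sum of `q^(n.m) (1 - q^(-m_a)) c(m)`; only the `m` with `m_a ≠ 0` contribute; if
`pwt a ≤ α` fails there are none (`eq_zero_of_not_le`) and the right side is zero too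
(`MvPowerSeries.coeff_monomial_mul`), otherwise `α = pwt a + α'`, `sum_mps_shift`, `cc_add_single`. -/
theorem Fs_step {q : K} (hq : q ≠ 0) (h : ∀ j : ℕ, q ^ (j + 1) ≠ 1) {A : I → I → ℕ}
    (hs : ∀ i j, A i j = A j i) (hd : ∀ i, Even (A i i)) (n : Prt I → ℤ) (a : Prt I) :
    Fs q A n - Fs q A (n - Pi.single a 1) =
      MvPowerSeries.monomial (pwt a) (q ^ (n a - Bm A a a / 2)) * Fs q A (n - Bm A a) := by
  classical
  ext α
  rw [map_sub, coeff_Fs, coeff_Fs, ← Finset.sum_sub_distrib, MvPowerSeries.coeff_monomial_mul]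
  have hterm : ∀ m : Prt I →₀ ℕ,
      q ^ (dotm n m) * cc q A m - q ^ (dotm (n - Pi.single a 1) m) * cc q A m =
        q ^ (dotm n m) * ((1 - q ^ (-(m a : ℤ))) * cc q A m) := by
    intro m
    rw [dotm_sub_left, dotm_pi_single, sub_eq_add_neg (dotm n m), zpow_add₀ hq]
    ring
  rw [Finset.sum_congr rfl fun m _ => hterm m]
  have hzero : ∀ m : Prt I →₀ ℕ, m a = 0 →
      q ^ (dotm n m) * ((1 - q ^ (-(m a : ℤ))) * cc q A m) = 0 := by
    intro m hm
    rw [hm]
    simp
  split_ifs with hle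
  · obtain ⟨β, rfl⟩ : ∃ β, α = pwt a + β := ⟨α - pwt a, (add_tsub_cancel_of_le hle).symm⟩
    rw [add_tsub_cancel_left, sum_mps_shift a β _ hzero, coeff_Fs, Finset.mul_sum]
    refine Finset.sum_congr rfl fun m _ => ?_
    have h1 : (((m + Finsupp.single a 1 : Prt I →₀ ℕ) a : ℕ) : ℤ) = (m a : ℤ) + 1 := by
      rw [Finsupp.add_apply, Finsupp.single_eq_same]
      push_cast
      ring
    rw [h1, cc_add_single hq h hs hd, dotm_add, dotm_single, dotm_sub_left]
    rw [← mul_assoc, ← mul_assoc, ← zpow_add₀ hq, ← zpow_add₀ hq]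
    congr 2
    push_cast
    ring
  · refine Finset.sum_eq_zero fun m hm => hzero m (eq_zero_of_not_le hle hm)

/-- Only the values of `n` on the parts of size at most `D` matter for the coefficients of total
degree at most `D` (`size_le_of_mem`, `dotm_congr`). -/
theorem Fs_congr [Fintype I] (q : K) (A : I → I → ℕ) {n n' : Prt I → ℤ} {D : ℕ}
    (h : ∀ a : Prt I, a.2 + 1 ≤ D → n a = n' a) (d : I →₀ ℕ) (hd : ∑ i, d i ≤ D) :
    MvPowerSeries.coeff d (Fs q A n) = MvPowerSeries.coeff d (Fs q A n') := by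
  rw [coeff_Fs, coeff_Fs]
  refine Finset.sum_congr rfl fun m hm => ?_
  rw [dotm_congr (n := n) (n' := n') (m := m)]
  intro a ha
  apply h
  refine (size_le_of_mem ha).trans ?_
  rw [mem_mps.mp hm]
  exact (Finset.single_le_sum (fun i _ => Nat.zero_le (d i)) (Finset.mem_univ a.1)).trans hd

/-- `F(λ δ_i)` is `F(0)` with `X_i` replaced by `q X_i` (`dotm_size`). -/
theorem coeff_Fs_size (q : K) (A : I → I → ℕ) (i : I) (α : I →₀ ℕ) :
    MvPowerSeries.coeff α (Fs q A fun a => if a.1 = i then ((a.2 + 1 : ℕ) : ℤ) else 0) =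
      q ^ (α i) * MvPowerSeries.coeff α (Fs q A 0) := by
  rw [coeff_Fs, coeff_Fs, Finset.mul_sum]
  refine Finset.sum_congr rfl fun m hm => ?_
  have h0 : dotm (0 : Prt I → ℤ) m = 0 := by
    unfold dotm
    simp
  rw [dotm_size, mem_mps.mp hm, h0, zpow_zero, one_mul, zpow_natCast]

end Pool.Agent.H27.KAC
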