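import Pool.Agent.H27.KAC.PII_Part

/-!
Project KAC, part II.1: types of nilpotent matrices.
-/

set_option autoImplicit false

namespace Pool.Agent.H27.KAC

open scoped BigOperators

/-- `T` is nilpotent with `μ l` Jordan blocks of size `l + 1`. -/
def HasType {n : ℕ} {F : Type} [Field F] (T : Matrix (Fin n) (Fin n) F) (μ : ℕ →₀ ℕ) : Prop :=
  IsNilpotent T ∧ ∀ k, (T ^ k).rank = (T ^ (k + 1)).rank + lam μ k

variable {n r : ℕ} {F : Type} [Field F]

private theorem PII_Typ.rank_eq_zero {a b : ℕ} {M : Matrix (Fin a) (Fin b) F} :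
    M.rank = 0 ↔ M = 0 := by
  constructor
  · intro h
    have h1 : LinearMap.range M.mulVecLin = ⊥ := Submodule.finrank_eq_zero.1 h
    have h2 : M.mulVecLin = 0 := LinearMap.range_eq_bot.1 h1
    ext i j
    have h3 := congrFun (LinearMap.congr_fun h2 (Pi.single j 1)) i
    simpa using h3
  · rintro rfl
    exact Matrix.rank_zero

theorem HasType.unique {T : Matrix (Fin n) (Fin n) F} {μ ν : ℕ →₀ ℕ} (h : HasType T μ)
    (h' : HasType T ν) : μ = ν :=
  eq_of_lam fun k => by
    have h1 := h.2 k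
    have h2 := h'.2 k
    omega

/-- `rank (T ^ k) = ∑_(l ≥ k) lam μ l`; `sum_lam`. -/
theorem HasType.size {T : Matrix (Fin n) (Fin n) F} {μ : ℕ →₀ ℕ} (h : HasType T μ) :
    psize μ = n := by
  obtain ⟨N, hN⟩ := h.1
  have hr : (T ^ N).rank = 0 := by rw [hN]; exact Matrix.rank_zero
  have hl : lam μ N = 0 := by
    have h1 := h.2 N
    omega
  have hs : ∀ M : ℕ, (T ^ M).rank + ∑ k ∈ Finset.range M, lam μ k = n := by
    intro M
    induction M with
    | zero =>
      rw [pow_zero, Finset.sum_range_zero, add_zero, Matrix.rank_one, Fintype.card_fin]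
    | succ M ih =>
      rw [Finset.sum_range_succ]
      have h1 := h.2 M
      omega
  have h2 := hs N
  rw [hr, sum_lam μ hl, zero_add] at h2
  exact h2

/-- A matrix of full column rank is injective, a matrix of full row rank is surjective:
`rank (φ * M * τ) = rank M`. -/
theorem rank_mul_mul {m : ℕ} {φ : Matrix (Fin n) (Fin r) F} {τ : Matrix (Fin m) (Fin n) F}
    (hφ : φ.rank = r) (hτ : τ.rank = m) (M : Matrix (Fin r) (Fin m) F) :
    (φ * M * τ).rank = M.rank := by
  have hinj : Function.Injective φ.mulVecLin := by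
    rw [← LinearMap.ker_eq_bot, ← Submodule.finrank_eq_zero]
    have h1 := LinearMap.finrank_range_add_finrank_ker φ.mulVecLin
    have h2 : Module.finrank F (LinearMap.range φ.mulVecLin) = r := hφ
    rw [h2, Module.finrank_fin_fun] at h1
    omega
  have hsurj : LinearMap.range τ.mulVecLin = ⊤ := by
    apply Submodule.eq_top_of_finrank_eq
    rw [Module.finrank_fin_fun]
    exact hτ
  have h3 : LinearMap.range (φ * M * τ).mulVecLin =
      (LinearMap.range M.mulVecLin).map φ.mulVecLin := by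
    rw [Matrix.mulVecLin_mul, Matrix.mulVecLin_mul, LinearMap.range_comp, hsurj,
      Submodule.map_top, LinearMap.range_comp]
  unfold Matrix.rank
  rw [h3]
  exact (Submodule.equivMapOfInjective φ.mulVecLin hinj (LinearMap.range M.mulVecLin)).finrank_eq.symm

/-- `(φ * τ) ^ (k + 1) = φ * (τ * φ) ^ k * τ`. -/
theorem pow_succ_mul (φ : Matrix (Fin n) (Fin r) F) (τ : Matrix (Fin r) (Fin n) F) (k : ℕ) :
    (φ * τ) ^ (k + 1) = φ * (τ * φ) ^ k * τ := by
  induction k with
  | zero => rw [pow_zero, zero_add, pow_one, Matrix.mul_one]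
  | succ k ih =>
    rw [pow_succ, ih, pow_succ (τ * φ) k]
    simp only [Matrix.mul_assoc]

/-- The type of `φ * τ` in terms of the type of `τ * φ`. -/
theorem hasType_mul_iff {φ : Matrix (Fin n) (Fin r) F} {τ : Matrix (Fin r) (Fin n) F}
    (hφ : φ.rank = r) (hτ : τ.rank = r) (μ : ℕ →₀ ℕ) :
    HasType (φ * τ) μ ↔ r + lam μ 0 = n ∧ HasType (τ * φ) (shf μ) := by
  have hr : ∀ k : ℕ, ((φ * τ) ^ (k + 1)).rank = ((τ * φ) ^ k).rank := by
    intro k
    rw [pow_succ_mul, rank_mul_mul hφ hτ]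
  have h0 : ((φ * τ) ^ 0).rank = n := by rw [pow_zero, Matrix.rank_one, Fintype.card_fin]
  have h0' : ((τ * φ) ^ 0).rank = r := by rw [pow_zero, Matrix.rank_one, Fintype.card_fin]
  constructor
  · rintro ⟨⟨N, hN⟩, h⟩
    refine ⟨?_, ⟨N, ?_⟩, ?_⟩
    · have h1 := h 0
      rw [h0, hr 0, h0'] at h1
      exact h1.symm
    · rw [← PII_Typ.rank_eq_zero, ← hr N, pow_succ, hN, Matrix.zero_mul]
      exact Matrix.rank_zero
    · intro k
      rw [lam_shf, ← hr k, ← hr (k + 1)]
      exact h (k + 1)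
  · rintro ⟨h1, ⟨N, hN⟩, h⟩
    refine ⟨⟨N + 1, ?_⟩, ?_⟩
    · rw [← PII_Typ.rank_eq_zero, hr N, hN]
      exact Matrix.rank_zero
    · intro k
      rcases k with _ | k
      · rw [h0, hr 0, h0']
        exact h1.symm
      · have h2 := h k
        rw [lam_shf, ← hr k, ← hr (k + 1)] at h2
        exact h2

end Pool.Agent.H27.KAC
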