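import Pool.Agent.H27.KAC.PI_Def

/-!
Project KAC, part I.1, module PI_Abs: absolutely indecomposable representations over a finite field.

PROOF SKETCH.  `K = AlgebraicClosure L`, `V_K = extScalars K V`.
(→) Let `f` be an endomorphism of `V`.  Let `μ ∈ K` be an eigenvalue of some `f i` (`β ≠ 0`).  By Fitting applied to
`f_K - μ` (a polynomial `h` in the tuple `f_K - μ` is the idempotent endomorphism of the generalized eigenspace for `0`; the
polynomial can be chosen the same for all vertices, for example from the product of the characteristic polynomials) and `V_K`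
indecomposable, `f_K i - μ` is nilpotent for all `i`.  So the characteristic polynomial of the `f i` with `β i > 0` is
`(X - μ)^(β i)`, with coefficients in `L`; `L` is perfect, so `μ ∈ L` (the minimal polynomial of `μ` over `L` is separable
and divides it, so it is `X - μ`).
(←) Suppose `SN V`.  `E = End V` (subalgebra `endAlg V`): each element is a scalar plus a nilpotent, so each element is a unit
or nilpotent, `E` is a local ring and the nilpotent elements form an ideal `n`, nilpotent since `E` is finite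
(`n = Ring.jacobson`, Artinian).  Let `p` be an idempotent endomorphism of `V_K`.  Choose a basis `(c_k)` of `K` over `L`
(or of the span of the entries of `p`): `p = ∑ c_k p_k`, `p_k` endomorphisms of `V` (the equations `IsMor` have coefficients
in `L`), `p_k = λ_k + n_k`, so `p = μ + n`, `μ = ∑ c_k λ_k`, `n = ∑ c_k n_k`, and `n^j = 0` if `n^j = 0` for the ideal.
So `p` is a scalar plus a nilpotent and an idempotent, so `0` or `1`.
-/

set_option autoImplicit false

namespace Pool.Agent.H27.KAC

open scoped BigOperators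
open Polynomial

theorem abs_mem_of_pow {F : Type} [Field F] [Fintype F] {K : Type} [Field K] [Algebra F K] (z : K)
    (h : z ^ Fintype.card F = z) : ∃ a : F, algebraMap F K a = z := by
  classical
  by_contra hcon
  push Not at hcon
  have hdeg : (X ^ Fintype.card F - X : K[X]).natDegree = Fintype.card F :=
    FiniteField.X_pow_card_sub_X_natDegree_eq K Fintype.one_lt_card
  have hne : (X ^ Fintype.card F - X : K[X]) ≠ 0 :=
    FiniteField.X_pow_card_sub_X_ne_zero K Fintype.one_lt_card
  let s : Finset K := Finset.univ.map ⟨algebraMap F K, (algebraMap F K).injective⟩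
  have hs : z ∉ s := by
    intro hz
    rw [Finset.mem_map] at hz
    obtain ⟨a, _, ha⟩ := hz
    exact hcon a ha
  have hsub : (insert z s).val ⊆ (X ^ Fintype.card F - X : K[X]).roots := by
    intro w hw
    rw [Polynomial.mem_roots hne, IsRoot.def, eval_sub, eval_pow, eval_X, sub_eq_zero]
    have hw' : w ∈ insert z s := hw
    rw [Finset.mem_insert] at hw'
    rcases hw' with rfl | hw'
    · exact h
    · rw [Finset.mem_map] at hw'
      obtain ⟨a, _, rfl⟩ := hw'
      show (algebraMap F K a) ^ Fintype.card F = algebraMap F K a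
      rw [← map_pow, FiniteField.pow_card]
  have h1 := Polynomial.card_le_degree_of_subset_roots hsub
  rw [hdeg, Finset.card_insert_of_notMem hs, Finset.card_map, Finset.card_univ] at h1
  omega

theorem abs_aeval_isMor {I E : Type} {Q : Quiv I E} {K : Type} [Field K] {β : I → ℕ}
    {x : Rp Q K β} {f : (i : I) → Matrix (Fin (β i)) (Fin (β i)) K} (hf : IsMor x x f) (P : K[X]) :
    IsMor x x (fun i => aeval (f i) P) := by
  have h1 := (aeval (⟨f, hf⟩ : endAlg x) P).2
  rw [Polynomial.aeval_subalgebra_coe] at h1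
  have h2 : aeval f P = fun i => aeval (f i) P := by
    funext i
    have h3 := Polynomial.aeval_algHom_apply (Pi.evalAlgHom K
      (fun i => Matrix (Fin (β i)) (Fin (β i)) K) i) f P
    exact h3.symm
  rw [h2] at h1
  exact h1

/-- An eigenvalue over the algebraic closure. -/
theorem abs_eigen {I E : Type} [Fintype I] {Q : Quiv I E} {K : Type} [Field K] [IsAlgClosed K]
    {β : I → ℕ} {x : Rp Q K β} (h : Indec x) {f : (i : I) → Matrix (Fin (β i)) (Fin (β i)) K}
    (hf : IsMor x x f) : ∃ z : K, ∀ i, IsNilpotent (f i - z • (1 : Matrix (Fin (β i)) (Fin (β i)) K)) := by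
  classical
  obtain ⟨i0, hi0⟩ : ∃ i, β i ≠ 0 := by
    by_contra hcon
    push Not at hcon
    exact h.1 (funext hcon)
  have hne : Nonempty (Fin (β i0)) := ⟨⟨0, Nat.pos_of_ne_zero hi0⟩⟩
  obtain ⟨z, hz⟩ := IsAlgClosed.exists_root (f i0).charpoly (by
    rw [Matrix.charpoly_degree_eq_dim, Fintype.card_fin]
    exact_mod_cast hi0)
  refine ⟨z, ?_⟩
  let P : K[X] := ∏ i, (f i).charpoly
  have hP0 : P ≠ 0 := Finset.prod_ne_zero_iff.2 fun i _ => (f i).charpoly_monic.ne_zero
  have hPf : ∀ i, aeval (f i) P = 0 := by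
    intro i
    have h1 : (f i).charpoly ∣ P := Finset.dvd_prod_of_mem _ (Finset.mem_univ i)
    obtain ⟨R, hR⟩ := h1
    rw [hR, map_mul, Matrix.aeval_self_charpoly, zero_mul]
  have hPz : P.IsRoot z := by
    rw [IsRoot.def, eval_prod]
    exact Finset.prod_eq_zero (Finset.mem_univ i0) hz
  obtain ⟨g, hg, hXg⟩ := Polynomial.exists_eq_pow_rootMultiplicity_mul_and_not_dvd P hP0 z
  set a := P.rootMultiplicity z with ha
  have ha0 : 0 < a := (Polynomial.rootMultiplicity_pos hP0).2 hPz
  have hcop : IsCoprime ((X - C z) ^ a : K[X]) g := by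
    apply IsCoprime.pow_left
    rw [(Polynomial.irreducible_X_sub_C z).coprime_iff_not_dvd]
    exact hXg
  obtain ⟨u, w, huw⟩ := hcop
  have hsplit : ∀ i, aeval (f i) (u * (X - C z) ^ a) = 1 - aeval (f i) (w * g) := by
    intro i
    have e1 : (1 : Matrix (Fin (β i)) (Fin (β i)) K) =
        aeval (f i) (u * (X - C z) ^ a + w * g) := by rw [huw, map_one]
    rw [e1, map_add, add_sub_cancel_right]
  have hidem : ∀ i, aeval (f i) (w * g) * aeval (f i) (w * g) = aeval (f i) (w * g) := by
    intro i
    have h1 : (1 - aeval (f i) (w * g)) * aeval (f i) (w * g) = 0 := by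
      rw [← hsplit, ← map_mul, show u * (X - C z) ^ a * (w * g) = u * w * ((X - C z) ^ a * g) by
        ring, ← hg, map_mul, hPf, mul_zero]
    rw [sub_mul, one_mul, sub_eq_zero] at h1
    exact h1.symm
  have hX : ∀ i, aeval (f i) (X - C z) = f i - z • (1 : Matrix (Fin (β i)) (Fin (β i)) K) := by
    intro i
    rw [map_sub, aeval_X, aeval_C, Algebra.algebraMap_eq_smul_one]
  rcases h.2 _ (abs_aeval_isMor hf (w * g)) hidem with h1 | h1
  · exfalso
    have h2 := hsplit i0
    rw [h1 i0, sub_zero] at h2
    have h3 : aeval (f i0) (u * (X - C z) ^ (a - 1)) *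
        (f i0 - z • (1 : Matrix (Fin (β i0)) (Fin (β i0)) K)) = 1 := by
      rw [← hX, ← map_mul, mul_assoc, ← pow_succ, Nat.sub_add_cancel ha0, h2]
    have h4 := congrArg Matrix.det h3
    rw [Matrix.det_mul, Matrix.det_one] at h4
    have h5 : (f i0 - z • (1 : Matrix (Fin (β i0)) (Fin (β i0)) K)).det = 0 := by
      have h6 : (z • (1 : Matrix (Fin (β i0)) (Fin (β i0)) K) - f i0).det = 0 := by
        rw [IsRoot.def, Matrix.eval_charpoly] at hz
        rw [← hz]
        congr 1
        ext i j
        simp [Matrix.scalar_apply, Matrix.diagonal_apply, Matrix.one_apply]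
      rw [← neg_sub, Matrix.det_neg, h6, mul_zero]
    rw [h5, mul_zero] at h4
    exact zero_ne_one h4
  · intro i
    refine ⟨a, ?_⟩
    rw [← hX, ← map_pow]
    have h2 : aeval (f i) ((X - C z) ^ a) = aeval (f i) ((X - C z) ^ a) * aeval (f i) (w * g) := by
      rw [h1 i, mul_one]
    rw [h2, ← map_mul, show (X - C z) ^ a * (w * g) = w * ((X - C z) ^ a * g) by ring, ← hg,
      map_mul, hPf, mul_zero]

theorem SN_of_absIndec {I E : Type} [Fintype I] [DecidableEq I] {Q : Quiv I E} {L : Type}
    [Field L] [Fintype L] {β : I → ℕ} (V : Rp Q L β) (h : AbsIndec V) : SN V := by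
  classical
  refine ⟨h.1, fun f hf => ?_⟩
  obtain ⟨K, hK1, hK2, hK3, hK4⟩ : ∃ (K : Type) (_ : Field K) (_ : Algebra L K)
      (_ : IsAlgClosed K), Indec (mapRp (algebraMap L K) V) :=
    ⟨AlgebraicClosure L, inferInstance, inferInstance, inferInstance, h⟩
  have hmor : IsMor (mapRp (algebraMap L K) V) (mapRp (algebraMap L K) V)
      (fun i => (f i).map (algebraMap L K)) := hf.map _
  obtain ⟨z, hz⟩ := abs_eigen hK4 hmor
  obtain ⟨i0, hi0⟩ : ∃ i, β i ≠ 0 := by
    by_contra hcon
    push Not at hcon
    exact h.1 (funext hcon)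
  have hn : 0 < β i0 := Nat.pos_of_ne_zero hi0
  have hne : Nonempty (Fin (β i0)) := ⟨⟨0, hn⟩⟩
  let φ : K →ₐ[L] K := FiniteField.frobeniusAlgHom L K
  set D := (f i0).map (algebraMap L K) with hD
  have hnil : IsNilpotent (D - z • (1 : Matrix (Fin (β i0)) (Fin (β i0)) K)) := hz i0
  have hφD : φ.toRingHom.mapMatrix D = D := by
    ext i j
    show φ (algebraMap L K (f i0 i j)) = algebraMap L K (f i0 i j)
    exact φ.commutes _
  have hφz : φ.toRingHom.mapMatrix (z • (1 : Matrix (Fin (β i0)) (Fin (β i0)) K)) =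
      (z ^ Fintype.card L) • (1 : Matrix (Fin (β i0)) (Fin (β i0)) K) := by
    ext i j
    show φ ((z • (1 : Matrix (Fin (β i0)) (Fin (β i0)) K)) i j) = _
    rw [Matrix.smul_apply, Matrix.smul_apply, smul_eq_mul, smul_eq_mul, map_mul, Matrix.one_apply]
    have h4 : φ z = z ^ Fintype.card L := rfl
    split_ifs
    · rw [map_one, h4]
    · rw [map_zero, h4]
  have hnil2 := hnil.map φ.toRingHom.mapMatrix
  rw [map_sub, hφD, hφz] at hnil2
  have hcomm : Commute (D - z • (1 : Matrix (Fin (β i0)) (Fin (β i0)) K))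
      (D - (z ^ Fintype.card L) • (1 : Matrix (Fin (β i0)) (Fin (β i0)) K)) := by
    have h5 : ∀ c : K, Commute D (c • (1 : Matrix (Fin (β i0)) (Fin (β i0)) K)) := fun c =>
      (Commute.one_right D).smul_right c
    have h6 : ∀ c c' : K, Commute (c • (1 : Matrix (Fin (β i0)) (Fin (β i0)) K))
      (c' • (1 : Matrix (Fin (β i0)) (Fin (β i0)) K)) := fun c c' =>
      ((Commute.one_right _).smul_right c').smul_left c
    exact ((Commute.refl D).sub_right (h5 _)).sub_left ((h5 _).symm.sub_right (h6 _ _))
  have hdiff := hcomm.isNilpotent_sub hnil hnil2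
  have hzz : z ^ Fintype.card L = z := by
    obtain ⟨m, hm⟩ := hdiff
    have h7 : D - z • (1 : Matrix (Fin (β i0)) (Fin (β i0)) K) -
        (D - (z ^ Fintype.card L) • (1 : Matrix (Fin (β i0)) (Fin (β i0)) K)) =
        (z ^ Fintype.card L - z) • (1 : Matrix (Fin (β i0)) (Fin (β i0)) K) := by
      rw [sub_smul]
      abel
    rw [h7, _root_.smul_pow, one_pow] at hm
    have h8 := congrFun (congrFun hm ⟨0, hn⟩) ⟨0, hn⟩
    rw [Matrix.smul_apply, Matrix.one_apply_eq, smul_eq_mul, mul_one, Matrix.zero_apply] at h8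
    rcases Nat.eq_zero_or_pos m with h9 | h9
    · rw [h9, pow_zero] at h8
      exact absurd h8 one_ne_zero
    · exact sub_eq_zero.1 ((pow_eq_zero_iff h9.ne').1 h8)
  obtain ⟨c, hc⟩ := abs_mem_of_pow (F := L) z hzz
  refine ⟨c, fun i => ?_⟩
  have h10 : (algebraMap L K).mapMatrix (f i - c • (1 : Matrix (Fin (β i)) (Fin (β i)) L)) =
      (f i).map (algebraMap L K) - z • (1 : Matrix (Fin (β i)) (Fin (β i)) K) := by
    ext k j
    show algebraMap L K ((f i - c • (1 : Matrix (Fin (β i)) (Fin (β i)) L)) k j) = _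
    rw [Matrix.sub_apply, Matrix.sub_apply, map_sub, Matrix.smul_apply, Matrix.smul_apply,
      smul_eq_mul, smul_eq_mul, map_mul, hc, Matrix.one_apply, Matrix.one_apply]
    split_ifs
    · rw [map_one]
      rfl
    · rw [map_zero]
      rfl
  have hi := hz i
  have hi' : IsNilpotent ((algebraMap L K).mapMatrix
      (f i - c • (1 : Matrix (Fin (β i)) (Fin (β i)) L))) := by
    rw [h10]
    exact hi
  obtain ⟨m, hm⟩ := hi'
  refine ⟨m, ?_⟩
  rw [← map_pow] at hm
  have h11 : Function.Injective ((algebraMap L K).mapMatrix (m := Fin (β i))) := by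
    intro M N hMN
    ext k j
    exact (algebraMap L K).injective (congrFun (congrFun hMN k) j)
  exact h11 (by rw [hm, map_zero])

end Pool.Agent.H27.KAC
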