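import Pool.Agent.H27.KAC.Defs

/-!
Project KAC, parts I and II: common definitions.

`Pc Q F α` is the number of pairs `(x, T)`, `x` a representation of dimension `α` over `F`, `T` a nilpotent
endomorphism of `x`, divided by the order of the group `∏ GL(α i)`.  `kacA Q α q` is the number of classes of
absolutely indecomposable representations over a field with `q` elements.  `Lc Q q α` is the coefficient of
`X^α` in `∑_β ∑_N A_β(q^N) X^(N β) / (N (q^N - 1))`.
-/

set_option autoImplicit false

namespace Pool.Agent.H27.KAC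

open scoped BigOperators
open Polynomial

section

variable {I E : Type}

/-- The pairs `(x, T)`, `T` a nilpotent endomorphism of the representation `x`. -/
def NilPairs (Q : Quiv I E) (F : Type) [Field F] (α : I → ℕ) : Type :=
  {p : Rp Q F α × ((i : I) → Matrix (Fin (α i)) (Fin (α i)) F) //
    IsMor p.1 p.1 p.2 ∧ ∀ i, IsNilpotent (p.2 i)}

/-- The number of pairs `(x, T)` divided by the order of the group. -/
noncomputable def Pc [Fintype I] (Q : Quiv I E) (F : Type) [Field F] (α : I → ℕ) : ℚ :=
  (Nat.card (NilPairs Q F α) : ℚ) / ∏ i, (Nat.card (Matrix (Fin (α i)) (Fin (α i)) F)ˣ : ℚ)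

/-- `kacCount` over a field with `q` elements (zero if there is no such field). -/
noncomputable def kacA (Q : Quiv I E) (α : I → ℕ) (q : ℕ) : ℕ := by
  classical
  exact if h : ∃ (F : Type) (_ : Field F) (_ : Fintype F), Fintype.card F = q then
    @kacCount I E Q h.choose h.choose_spec.choose α else 0

/-- The coefficient of `X^α` in `log P`. -/
noncomputable def Lc [Fintype I] (Q : Quiv I E) (q : ℕ) (α : I → ℕ) : ℚ :=
  ∑ N ∈ (Finset.range (∑ i, α i + 1)).filter (fun N => 1 ≤ N ∧ ∀ i, N ∣ α i),
    (kacA Q (fun i => α i / N) (q ^ N) : ℚ) / ((N : ℚ) * ((q : ℚ) ^ N - 1))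

/-- Image of a representation under a homomorphism of fields. -/
def mapRp {Q : Quiv I E} {F L : Type} [Field F] [Field L] {α : I → ℕ} (f : F →+* L)
    (x : Rp Q F α) : Rp Q L α := fun e => (x e).map f

theorem mapRp_comp {Q : Quiv I E} {F L M : Type} [Field F] [Field L] [Field M] {α : I → ℕ}
    (f : F →+* L) (g : L →+* M) (x : Rp Q F α) : mapRp g (mapRp f x) = mapRp (g.comp f) x := by
  funext e
  unfold mapRp
  ext a b
  rfl

theorem mapRp_id {Q : Quiv I E} {F : Type} [Field F] {α : I → ℕ} (x : Rp Q F α) :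
    mapRp (RingHom.id F) x = x := by
  funext e
  unfold mapRp
  ext a b
  rfl

theorem extScalars_eq {Q : Quiv I E} {F : Type} [Field F] (L : Type) [Field L] [Algebra F L]
    {α : I → ℕ} (x : Rp Q F α) : extScalars L x = mapRp (algebraMap F L) x := rfl

theorem IsMor.map {Q : Quiv I E} {F L : Type} [Field F] [Field L] {α β : I → ℕ} (s : F →+* L)
    {x : Rp Q F α} {y : Rp Q F β} {f : (i : I) → Matrix (Fin (β i)) (Fin (α i)) F}
    (h : IsMor x y f) : IsMor (mapRp s x) (mapRp s y) (fun i => (f i).map s) := by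
  intro e
  have h1 := congrArg (fun M => M.map s) (h e)
  simp only [Matrix.map_mul] at h1
  exact h1

theorem Isom.map {Q : Quiv I E} {F L : Type} [Field F] [Field L] {α : I → ℕ} (s : F →+* L)
    {x y : Rp Q F α} (h : Isom x y) : Isom (mapRp s x) (mapRp s y) := by
  obtain ⟨g, hg⟩ := h
  refine ⟨fun i => Units.map (s.mapMatrix (m := Fin (α i))).toMonoidHom (g i), ?_⟩
  exact hg.map s

theorem Indec.map_equiv {Q : Quiv I E} {F L : Type} [Field F] [Field L] {α : I → ℕ} (s : F ≃+* L)
    {x : Rp Q F α} (h : Indec x) : Indec (mapRp (s : F →+* L) x) := by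
  refine ⟨h.1, fun p hp hpp => ?_⟩
  have h1 := hp.map (s.symm : L →+* F)
  rw [mapRp_comp, RingEquiv.symm_comp, mapRp_id] at h1
  have h2 : ∀ i, (p i).map (s.symm : L →+* F) * (p i).map (s.symm : L →+* F) =
      (p i).map (s.symm : L →+* F) := by
    intro i
    rw [← Matrix.map_mul, hpp i]
  rcases h.2 _ h1 h2 with h3 | h3
  · left
    intro i
    have h4 := congrArg (fun M => M.map (s : F →+* L)) (h3 i)
    ext a b
    have h5 := congrFun (congrFun h4 a) b
    simpa using h5
  · right
    intro i
    have h4 := congrArg (fun M => M.map (s : F →+* L)) (h3 i)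
    ext a b
    have h5 := congrFun (congrFun h4 a) b
    simpa [Matrix.one_apply, apply_ite] using h5

theorem indec_map_equiv_iff {Q : Quiv I E} {F L : Type} [Field F] [Field L] {α : I → ℕ}
    (s : F ≃+* L) {x : Rp Q F α} : Indec (mapRp (s : F →+* L) x) ↔ Indec x := by
  refine ⟨fun h => ?_, fun h => h.map_equiv s⟩
  have h1 := h.map_equiv s.symm
  rwa [mapRp_comp, RingEquiv.symm_comp, mapRp_id] at h1

theorem isom_map_equiv_iff {Q : Quiv I E} {F L : Type} [Field F] [Field L] {α : I → ℕ}
    (s : F ≃+* L) {x y : Rp Q F α} :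
    Isom (mapRp (s : F →+* L) x) (mapRp (s : F →+* L) y) ↔ Isom x y := by
  refine ⟨fun h => ?_, fun h => h.map _⟩
  have h1 := h.map (s.symm : L →+* F)
  rwa [mapRp_comp, mapRp_comp, RingEquiv.symm_comp, mapRp_id, mapRp_id] at h1

theorem absIndec_map_equiv_iff {Q : Quiv I E} {F L : Type} [Field F] [Field L] {α : I → ℕ}
    (s : F ≃+* L) {x : Rp Q F α} : AbsIndec (mapRp (s : F →+* L) x) ↔ AbsIndec x := by
  unfold AbsIndec
  rw [extScalars_eq, extScalars_eq, mapRp_comp]
  let t : AlgebraicClosure L ≃+* AlgebraicClosure F :=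
    IsAlgClosure.equivOfEquiv (AlgebraicClosure L) (AlgebraicClosure F) s.symm
  have ht : ((t : AlgebraicClosure L →+* AlgebraicClosure F).comp
      (algebraMap L (AlgebraicClosure L))).comp (s : F →+* L) =
      algebraMap F (AlgebraicClosure F) := by
    ext z
    have h1 := IsAlgClosure.equivOfEquiv_algebraMap (AlgebraicClosure L) (AlgebraicClosure F)
      s.symm (s z)
    rw [RingEquiv.symm_apply_apply] at h1
    exact h1
  rw [← indec_map_equiv_iff t, mapRp_comp, ← RingHom.comp_assoc, ht]

theorem kacCount_congr_field (Q : Quiv I E) {F L : Type} [Field F] [Field L] (α : I → ℕ)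
    (s : F ≃+* L) : kacCount Q F α = kacCount Q L α := by
  unfold kacCount
  have hinj : Function.Injective (fun x : Rp Q F α => mapRp (s : F →+* L) x) := by
    intro x y h
    have h1 := congrArg (fun z => mapRp (s.symm : L →+* F) z) h
    simp only [mapRp_comp, RingEquiv.symm_comp, mapRp_id] at h1
    exact h1
  have hsurj : Function.Surjective (fun x : Rp Q F α => mapRp (s : F →+* L) x) := by
    intro y
    refine ⟨mapRp (s.symm : L →+* F) y, ?_⟩
    show mapRp (s : F →+* L) (mapRp (s.symm : L →+* F) y) = y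
    rw [mapRp_comp, RingEquiv.comp_symm, mapRp_id]
  have himg : absIndecClasses Q L α =
      (fun c : Set (Rp Q F α) => (fun x => mapRp (s : F →+* L) x) '' c) ''
        absIndecClasses Q F α := by
    ext c
    constructor
    · rintro ⟨y, hy, rfl⟩
      obtain ⟨x, rfl⟩ := hsurj y
      refine ⟨{z | Isom x z}, ⟨x, (absIndec_map_equiv_iff s).1 hy, rfl⟩, ?_⟩
      ext z
      obtain ⟨z, rfl⟩ := hsurj z
      simp only [Set.mem_image, Set.mem_ofPred_eq]
      constructor
      · rintro ⟨w, hw, hwz⟩
        rw [← hinj hwz]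
        exact (isom_map_equiv_iff s).2 hw
      · intro hz
        exact ⟨z, (isom_map_equiv_iff s).1 hz, rfl⟩
    · rintro ⟨c, ⟨x, hx, rfl⟩, rfl⟩
      refine ⟨mapRp (s : F →+* L) x, (absIndec_map_equiv_iff s).2 hx, ?_⟩
      ext z
      obtain ⟨z, rfl⟩ := hsurj z
      simp only [Set.mem_image, Set.mem_ofPred_eq]
      constructor
      · rintro ⟨w, hw, hwz⟩
        rw [← hinj hwz]
        exact (isom_map_equiv_iff s).2 hw
      · intro hz
        exact ⟨z, (isom_map_equiv_iff s).1 hz, rfl⟩
  rw [himg, Set.ncard_image_of_injective _ (Set.image_injective.2 hinj)]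

theorem kacA_card (Q : Quiv I E) (F : Type) [Field F] [Fintype F] (α : I → ℕ) :
    kacA Q α (Fintype.card F) = kacCount Q F α := by
  classical
  have h : ∃ (L : Type) (_ : Field L) (_ : Fintype L), Fintype.card L = Fintype.card F :=
    ⟨F, inferInstance, inferInstance, rfl⟩
  unfold kacA
  rw [dif_pos h]
  let _ : Field h.choose := h.choose_spec.choose
  let _ : Fintype h.choose := h.choose_spec.choose_spec.choose
  have hc : Fintype.card h.choose = Fintype.card F := h.choose_spec.choose_spec.choose_spec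
  exact kacCount_congr_field Q α (FiniteField.ringEquivOfCardEq hc)

end

end Pool.Agent.H27.KAC
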