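import Pool.Agent.H27.KAC.PI_Def

/-!
Project KAC, part I.1, module PI_Cent: the condition `AIc` modulo a nil ideal.

PROOF SKETCH.  `q = card F`, characteristic `p`.
* `pow_eq_self_of_sol`: `X * π` divides `X^(q^N) - X` (`π` is irreducible of degree `N` and not `X`).
* `aic_map_iff`, from right to left (the other direction needs a lift of the centralizer): let `δ c = v c - c v`.
  `L_v` and `R_v` (left and right multiplication) commute, so `δ^(q^N) = L_v^(q^N) - R_v^(q^N) = L_v - R_v = δ`
  in characteristic `p`.  If `c'` commutes with `p v`, lift `c'` to `c₀` and put `c = c₀ - δ^(q^N - 1) c₀`; then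
  `δ c = 0` and `p c = c'`.  `v (c - f(v))` is nilpotent iff its image is nilpotent, since the kernel is nil.
  (The trivial ring has to be treated apart for `CharP`.)
-/

set_option autoImplicit false

namespace Pool.Agent.H27.KAC

open scoped BigOperators
open Polynomial

theorem pow_eq_self_of_sol {F : Type} [Field F] [Fintype F] {R : Type} [Ring R] [Algebra F R]
    {π : F[X]} {N : ℕ} (hπ : GoodPi F π N) (v : R) (hv : v * aeval v π = 0) :
    v ^ (Fintype.card F ^ N) = v := by
  classical
  have : Fact (Irreducible π) := ⟨hπ.irr⟩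
  have hπ0 : π ≠ 0 := hπ.irr.ne_zero
  have : Module.Finite F (AdjoinRoot π) := (AdjoinRoot.powerBasis hπ0).finite
  have : Finite (AdjoinRoot π) := Module.finite_of_finite F
  have := Fintype.ofFinite (AdjoinRoot π)
  have hcard : Fintype.card (AdjoinRoot π) = Fintype.card F ^ N := by
    rw [Module.card_eq_pow_finrank (K := F), (AdjoinRoot.powerBasis hπ0).finrank,
      AdjoinRoot.powerBasis_dim, hπ.deg]
  have hq : Fintype.card F ^ N ≠ 0 := by
    have := Fintype.card_pos (α := F)
    positivity
  have h1 : π ∣ X ^ (Fintype.card F ^ N) - X := by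
    rw [← AdjoinRoot.mk_eq_zero, map_sub, map_pow, AdjoinRoot.mk_X, ← hcard,
      FiniteField.pow_card, sub_self]
  have h2 : (X : F[X]) ∣ X ^ (Fintype.card F ^ N) - X := dvd_sub (dvd_pow_self X hq) dvd_rfl
  have h3 : IsCoprime (X : F[X]) π := by
    rw [Irreducible.coprime_iff_not_dvd irreducible_X, X_dvd_iff]
    exact hπ.zero
  obtain ⟨g, hg⟩ := h3.mul_dvd h2 h1
  have h4 := congrArg (aeval v) hg
  rw [map_mul, map_mul, aeval_X, hv, zero_mul, map_sub, map_pow, aeval_X] at h4
  exact sub_eq_zero.mp h4

theorem aic_map_iff {F : Type} [Field F] [Fintype F] {R S : Type} [Ring R] [Algebra F R]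
    [Ring S] [Algebra F S] (p : R →ₐ[F] S) (hp : Function.Surjective p)
    (hk : ∀ x, p x = 0 → IsNilpotent x) {N : ℕ} (hN : 1 ≤ N) (v : R)
    (hv : v ^ (Fintype.card F ^ N) = v) : AIc F (p v) ↔ AIc F v := by
  constructor
  · intro h c hc
    obtain ⟨f, n, hf⟩ := h (p c) (by rw [← map_mul, hc, map_mul])
    refine ⟨f, ?_⟩
    have h1 : p ((v * (c - aeval v f)) ^ n) = 0 := by
      rw [map_pow, map_mul, map_sub, ← aeval_algHom_apply]
      exact hf
    obtain ⟨k, hk2⟩ := hk _ h1
    exact ⟨n * k, by rw [pow_mul]; exact hk2⟩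
  · intro h c' hc'
    rcases subsingleton_or_nontrivial R with hR | hR
    · have : Subsingleton S := hp.subsingleton
      exact ⟨0, 1, Subsingleton.elim _ _⟩
    obtain ⟨c₀, rfl⟩ := hp c'
    obtain ⟨ℓ, hchar, n, hprime, hcardF⟩ := FiniteField.card' F
    have : Fact ℓ.Prime := ⟨hprime⟩
    have : Nontrivial (Module.End F R) := inferInstance
    have : CharP (Module.End F R) ℓ :=
      charP_of_injective_algebraMap (algebraMap F (Module.End F R)).injective ℓ
    have hδ : (LinearMap.mulLeft F v - LinearMap.mulRight F v) ^ (Fintype.card F ^ N) =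
        LinearMap.mulLeft F v - LinearMap.mulRight F v := by
      have h1 : Fintype.card F ^ N = ℓ ^ ((n : ℕ) * N) := by
        rw [hcardF, ← pow_mul]
      rw [h1, sub_pow_char_pow_of_commute _ _ (LinearMap.commute_mulLeft_right v v),
        LinearMap.pow_mulLeft, LinearMap.pow_mulRight, ← h1, hv]
    set δ := LinearMap.mulLeft F v - LinearMap.mulRight F v with hδd
    have hδa : ∀ x, δ x = v * x - x * v := by
      intro x
      rw [hδd, LinearMap.sub_apply, LinearMap.mulLeft_apply, LinearMap.mulRight_apply]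
    obtain ⟨M, hM⟩ : ∃ M, Fintype.card F ^ N = M + 2 := by
      have h2 : 2 ≤ Fintype.card F := Fintype.one_lt_card
      have h3 : Fintype.card F ^ 1 ≤ Fintype.card F ^ N := Nat.pow_le_pow_right (by omega) hN
      rw [pow_one] at h3
      exact ⟨Fintype.card F ^ N - 2, by omega⟩
    rw [hM] at hδ
    have hpow : ∀ k, p ((δ ^ (k + 1)) c₀) = 0 := by
      intro k
      induction k with
      | zero =>
        rw [zero_add, pow_one, hδa, map_sub, map_mul, map_mul, hc', sub_self]
      | succ k ih =>
        rw [pow_succ' δ (k + 1), Module.End.mul_apply, hδa, map_sub, map_mul, map_mul, ih,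
          mul_zero, zero_mul, sub_self]
    have hc : (c₀ - (δ ^ (M + 1)) c₀) * v = v * (c₀ - (δ ^ (M + 1)) c₀) := by
      have h1 : δ (c₀ - (δ ^ (M + 1)) c₀) = 0 := by
        rw [map_sub, ← Module.End.mul_apply, ← pow_succ', hδ, sub_self]
      rw [hδa] at h1
      exact (sub_eq_zero.mp h1).symm
    have hpc : p (c₀ - (δ ^ (M + 1)) c₀) = p c₀ := by
      rw [map_sub, hpow, sub_zero]
    obtain ⟨f, m, hf⟩ := h _ hc
    refine ⟨f, m, ?_⟩
    have h1 := congrArg p hf
    rw [map_pow, map_mul, map_sub p _ (aeval v f), hpc, ← aeval_algHom_apply, map_zero] at h1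
    exact h1

end Pool.Agent.H27.KAC
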