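import Pool.Agent.H27.KAC.PI_Def

/-!
Project KAC, part I.1, module PI_Chart: existence of charts.

`L` is a field extension of `F` of degree `N` generated by a root `θ` of `π`.

PROOF SKETCH.  `f π(f) = 0` and `X`, `π` are coprime, so `V = ker f ⊕ ker π(f)` (`ker f = range π(f)`,
`ker π(f) = range f`).  `W = ker π(f)` is an `L`-vector space (`F[X]/(π) ≅ L`, `θ` acts by `f`), finite dimensional;
choose bases of `W` over `L` and of `ker f` over `F`.
-/

set_option autoImplicit false

namespace Pool.Agent.H27.KAC

open scoped BigOperators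
open Polynomial

/-- an algebra generated by an element whose minimal polynomial has degree the dimension -/
private theorem Chart_gen {F : Type} [Field F] {L : Type} [Field L] [Algebra F L] [Module.Finite F L] (θ : L)
    (h : (minpoly F θ).natDegree = Module.finrank F L) (l : L) : ∃ f : F[X], aeval θ f = l := by
  have hint : IsIntegral F θ := Algebra.IsIntegral.isIntegral θ
  have h1 : Module.finrank F (Algebra.adjoin F ({θ} : Set L)) = Module.finrank F L := by
    rw [← h, (Algebra.adjoin.powerBasis hint).finrank, Algebra.adjoin.powerBasis_dim]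
  have h2 : Subalgebra.toSubmodule (Algebra.adjoin F ({θ} : Set L)) = ⊤ := by
    apply Submodule.eq_top_of_finrank_eq
    exact h1
  have h3 : l ∈ Subalgebra.toSubmodule (Algebra.adjoin F ({θ} : Set L)) := by
    rw [h2]; trivial
  have h4 : l ∈ Algebra.adjoin F ({θ} : Set L) := h3
  rw [Algebra.adjoin_singleton_eq_range_aeval] at h4
  obtain ⟨f, hf⟩ := h4
  exact ⟨f, hf⟩

private theorem Chart_restrict {F : Type} [Field F] {V : Type} [AddCommGroup V] [Module F V]
    (f : Module.End F V) (W : Submodule F V) (hW : ∀ x ∈ W, f x ∈ W) (p : F[X]) (w : W) :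
    ((aeval (R := F) (A := Module.End F W) (f.restrict hW) p w : W) : V) = aeval f p (w : V) := by
  induction p using Polynomial.induction_on' with
  | add p q hp hq => simp [hp, hq]
  | monomial n a =>
    rw [aeval_monomial, aeval_monomial]
    have h : ∀ n : ℕ, ∀ w : W, ((((f.restrict hW : Module.End F W) ^ n) w : W) : V) = (f ^ n) (w : V) := by
      intro n
      induction n with
      | zero => intro w; simp
      | succ n ih =>
        intro w
        rw [pow_succ, pow_succ]
        simp only [Module.End.mul_apply]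
        rw [ih]
        rfl
    simp only [Module.End.mul_apply, Module.algebraMap_end_apply]
    rw [← h n w]
    rfl

section

variable {F : Type} [Field F] {π : F[X]} {N : ℕ} (hπ : GoodPi F π N) {L : Type} [Field L]
  [Algebra F L] (θ : L) (hθ : aeval θ π = 0) (hL : Module.finrank F L = N)

include hπ hθ hL

/-- the powers of `θ` generate `L`. -/
theorem exists_poly_of_mem (l : L) : ∃ f : F[X], aeval θ f = l := by
  have hmin : π = minpoly F θ := minpoly.eq_of_irreducible_of_monic hπ.irr hθ hπ.monic
  have hpos : 0 < Module.finrank F L := by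
    rw [hL, ← hπ.deg]
    exact hπ.irr.natDegree_pos
  have : Module.Finite F L := Module.finite_of_finrank_pos hpos
  exact Chart_gen θ (by rw [← hmin, hπ.deg, hL]) l

omit hL in
theorem theta_ne_zero : θ ≠ 0 := by
  intro h
  rw [h, ← coeff_zero_eq_aeval_zero'] at hθ
  exact hπ.zero ((map_eq_zero _).1 hθ)

theorem exists_chart_lin {V : Type} [AddCommGroup V] [Module F V] [FiniteDimensional F V]
    (f : Module.End F V) (hf : f * aeval f π = 0) :
    ∃ (b c : ℕ) (Ψ : V ≃ₗ[F] ((Fin b → L) × (Fin c → F))), ∀ z, Ψ (f z) = (θ • (Ψ z).1, 0) := by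
  classical
  have hsurj := exists_poly_of_mem hπ θ hθ hL
  have hmin : π = minpoly F θ := minpoly.eq_of_irreducible_of_monic hπ.irr hθ hπ.monic
  -- coprimality
  have hco : IsCoprime π (X : F[X]) := by
    rw [isCoprime_comm]
    refine (Irreducible.coprime_iff_not_dvd irreducible_X).2 ?_
    rw [X_dvd_iff]
    exact hπ.zero
  have hW : ∀ x ∈ LinearMap.ker (aeval f π), f x ∈ LinearMap.ker (aeval f π) := by
    intro x hx
    rw [LinearMap.mem_ker] at hx ⊢
    have h : aeval f π * f = 0 := by
      have h1 : aeval f π * aeval f (X : F[X]) = aeval f (X : F[X]) * aeval f π := by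
        rw [← map_mul, ← map_mul, mul_comm]
      rw [aeval_X] at h1
      rw [h1, hf]
    have := congrArg (fun g : Module.End F V => g x) h
    simpa using this
  have hcompl : IsCompl (LinearMap.ker (aeval f π)) (LinearMap.ker f) := by
    constructor
    · have := Polynomial.disjoint_ker_aeval_of_isCoprime f hco
      rwa [aeval_X] at this
    · rw [codisjoint_iff]
      have := Polynomial.sup_ker_aeval_eq_ker_aeval_mul_of_coprime f hco
      rw [aeval_X] at this
      rw [this, mul_comm, map_mul, aeval_X, hf]
      exact LinearMap.ker_zero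
  set W : Submodule F V := LinearMap.ker (aeval f π) with hWdef
  set fW : Module.End F W := f.restrict hW with hfW
  have hfWπ : aeval fW π = 0 := by
    ext w
    rw [hfW, Chart_restrict]
    have h2 : (aeval f π) (w : V) = 0 := w.2
    rw [h2]
    rfl
  -- the action of `L`
  have hsurj' : Function.Surjective (aeval (R := F) θ : F[X] →ₐ[F] L).toRingHom := fun l => hsurj l
  have hker : RingHom.ker (aeval (R := F) θ : F[X] →ₐ[F] L).toRingHom
      ≤ RingHom.ker (aeval (R := F) fW : F[X] →ₐ[F] Module.End F W).toRingHom := by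
    intro p hp
    rw [RingHom.mem_ker] at hp ⊢
    have hp' : aeval θ p = 0 := hp
    have hd : π ∣ p := by
      rw [hmin]
      exact minpoly.dvd F θ hp'
    obtain ⟨q, rfl⟩ := hd
    show aeval fW (π * q) = 0
    rw [map_mul, hfWπ, zero_mul]
  let φ : L →+* Module.End F W := RingHom.liftOfRightInverse (aeval (R := F) θ : F[X] →ₐ[F] L).toRingHom
    (Function.surjInv hsurj') (Function.rightInverse_surjInv hsurj')
    ⟨(aeval (R := F) fW : F[X] →ₐ[F] Module.End F W).toRingHom, hker⟩
  have hφ : ∀ p : F[X], φ (aeval θ p) = aeval fW p := by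
    intro p
    exact RingHom.liftOfRightInverse_comp_apply (aeval (R := F) θ : F[X] →ₐ[F] L).toRingHom
      (Function.surjInv hsurj') (Function.rightInverse_surjInv hsurj')
      ⟨(aeval (R := F) fW : F[X] →ₐ[F] Module.End F W).toRingHom, hker⟩ p
  let instL : Module L W := Module.compHom W φ
  have hsmul : ∀ (l : L) (w : W), l • w = φ l w := fun l w => rfl
  have : IsScalarTower F L W := by
    refine ⟨fun r l w => ?_⟩
    rw [hsmul, hsmul, Algebra.smul_def, map_mul]
    have : φ (algebraMap F L r) = algebraMap F (Module.End F W) r := by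
      have := hφ (C r)
      rw [aeval_C, aeval_C] at this
      exact this
    rw [this, Module.End.mul_apply, Module.algebraMap_end_apply]
  have : Module.Finite L W := Module.Finite.of_restrictScalars_finite F L W
  have hθW : ∀ w : W, θ • w = fW w := by
    intro w
    rw [hsmul]
    have := hφ X
    rw [aeval_X, aeval_X] at this
    rw [this]
  let e1 : W ≃ₗ[F] (Fin (Module.finrank L W) → L) := ((Module.finBasis L W).equivFun).restrictScalars F
  let e2 : LinearMap.ker f ≃ₗ[F] (Fin (Module.finrank F (LinearMap.ker f)) → F) :=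
    (Module.finBasis F (LinearMap.ker f)).equivFun
  let e0 := Submodule.prodEquivOfIsCompl W (LinearMap.ker f) hcompl
  refine ⟨_, _, e0.symm ≪≫ₗ LinearEquiv.prodCongr e1 e2, ?_⟩
  intro z
  obtain ⟨⟨w, k⟩, rfl⟩ := e0.surjective z
  have h1 : f (e0 (w, k)) = e0 (fW w, 0) := by
    rw [Submodule.coe_prodEquivOfIsCompl', Submodule.coe_prodEquivOfIsCompl']
    simp only [map_add]
    have := k.2
    rw [LinearMap.mem_ker] at this
    rw [this]
    simp [hfW]
  rw [h1]
  simp only [LinearEquiv.trans_apply, LinearEquiv.symm_apply_apply, LinearEquiv.prodCongr_apply, map_zero]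
  rw [← hθW w]
  congr 1
  show (Module.finBasis L W).equivFun (θ • w) = θ • (Module.finBasis L W).equivFun w
  rw [map_smul]

theorem exists_chart {a : ℕ} (v : Matrix (Fin a) (Fin a) F) (hv : v * aeval v π = 0) :
    ∃ b c : ℕ, Nonempty (Chart θ v b c) := by
  have h1 : (Matrix.toLinAlgEquiv' v : Module.End F (Fin a → F)) * aeval (Matrix.toLinAlgEquiv' v) π = 0 := by
    have := congrArg (Matrix.toLinAlgEquiv' (R := F) (n := Fin a)) hv
    rw [map_mul, map_zero] at this
    rw [← this]
    congr 1
    exact aeval_algHom_apply (Matrix.toLinAlgEquiv' (R := F) (n := Fin a)) v π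
  obtain ⟨b, c, Ψ, hΨ⟩ := exists_chart_lin hπ θ hθ hL _ h1
  refine ⟨b, c, ⟨⟨Ψ, ?_⟩⟩⟩
  intro z
  have := hΨ z
  rwa [Matrix.toLinAlgEquiv'_apply] at this

/-- size and rank of a matrix with a chart -/
theorem chart_rank {a b c : ℕ} {v : Matrix (Fin a) (Fin a) F} (C : Chart θ v b c) :
    v * aeval v π = 0 ∧ a = N * b + c ∧ v.rank = N * b := by
  have hpos : 0 < Module.finrank F L := by
    rw [hL, ← hπ.deg]
    exact hπ.irr.natDegree_pos
  have : Module.Finite F L := Module.finite_of_finrank_pos hpos
  have hne : θ ≠ 0 := theta_ne_zero hπ θ hθ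
  have hdim : a = N * b + c := by
    have h := C.Ψ.finrank_eq
    rw [Module.finrank_prod] at h
    simp only [Module.finrank_fintype_fun_eq_card, Fintype.card_fin] at h
    rw [Module.finrank_pi_fintype] at h
    simp only [Finset.sum_const, Finset.card_univ, Fintype.card_fin, smul_eq_mul, hL] at h
    rw [h, mul_comm]
  refine ⟨?_, hdim, ?_⟩
  · -- `v π(v) = 0`
    have hpow : ∀ (n : ℕ) (z : Fin a → F), (C.Ψ ((v ^ n).mulVec z)).1 = θ ^ n • (C.Ψ z).1 := by
      intro n
      induction n with
      | zero => intro z; simp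
      | succ n ih =>
        intro z
        rw [pow_succ, ← Matrix.mulVec_mulVec, ih, C.hΨ, pow_succ, mul_smul]
    have hg : ∀ (p : F[X]) (z : Fin a → F), (C.Ψ ((aeval v p).mulVec z)).1 = aeval θ p • (C.Ψ z).1 := by
      intro p
      induction p using Polynomial.induction_on' with
      | add p q hp hq =>
        intro z
        rw [map_add, Matrix.add_mulVec, map_add, Prod.fst_add, hp, hq, map_add, add_smul]
      | monomial n r =>
        intro z
        rw [aeval_monomial, aeval_monomial, ← Algebra.smul_def, ← Algebra.smul_def, Matrix.smul_mulVec,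
          map_smul, Prod.smul_fst, hpow, smul_assoc]
    have hz : ∀ z, (v * aeval v π).mulVec z = 0 := by
      intro z
      apply C.Ψ.injective
      rw [← Matrix.mulVec_mulVec, C.hΨ, hg, hθ, zero_smul, smul_zero, map_zero]
      rfl
    apply Matrix.toLin'.injective
    rw [map_zero]
    apply LinearMap.ext
    intro z
    rw [Matrix.toLin'_apply, hz z, LinearMap.zero_apply]
  · -- the rank
    have hr : LinearMap.range v.mulVecLin
        = Submodule.map C.Ψ.symm.toLinearMap (Submodule.prod ⊤ ⊥) := by
      ext y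
      constructor
      · rintro ⟨z, rfl⟩
        refine ⟨(θ • (C.Ψ z).1, 0), ⟨trivial, rfl⟩, ?_⟩
        rw [LinearEquiv.coe_coe, LinearEquiv.symm_apply_eq, Matrix.mulVecLin_apply, C.hΨ]
      · rintro ⟨⟨u, w⟩, ⟨_, hw⟩, rfl⟩
        have hw' : w = 0 := hw
        subst hw'
        refine ⟨C.Ψ.symm (θ⁻¹ • u, 0), ?_⟩
        rw [LinearEquiv.coe_coe, LinearEquiv.eq_symm_apply, Matrix.mulVecLin_apply, C.hΨ,
          LinearEquiv.apply_symm_apply, smul_inv_smul₀ hne]
    show Module.finrank F (LinearMap.range v.mulVecLin) = N * b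
    rw [hr]
    have h2 : Module.finrank F (Submodule.map C.Ψ.symm.toLinearMap (Submodule.prod (⊤ : Submodule F (Fin b → L)) (⊥ : Submodule F (Fin c → F))))
        = Module.finrank F (Submodule.prod (⊤ : Submodule F (Fin b → L)) (⊥ : Submodule F (Fin c → F))) :=
      LinearEquiv.finrank_map_eq C.Ψ.symm _
    rw [h2]
    have h3 : Module.finrank F (Submodule.prod (⊤ : Submodule F (Fin b → L)) (⊥ : Submodule F (Fin c → F)))
        = Module.finrank F (Fin b → L) := by
      have h4 : Submodule.prod (⊤ : Submodule F (Fin b → L)) (⊥ : Submodule F (Fin c → F))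
          = LinearMap.range (LinearMap.inl F (Fin b → L) (Fin c → F)) := by
        rw [LinearMap.range_inl]
        ext ⟨u, w⟩
        simp
      rw [h4]
      exact LinearMap.finrank_range_of_inj LinearMap.inl_injective
    rw [h3, Module.finrank_pi_fintype]
    simp only [Finset.sum_const, Finset.card_univ, Fintype.card_fin, smul_eq_mul, hL]
    rw [mul_comm]

theorem exists_matrix_chart (b c : ℕ) :
    ∃ v : Matrix (Fin (N * b + c)) (Fin (N * b + c)) F, Nonempty (Chart θ v b c) := by
  have hpos : 0 < Module.finrank F L := by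
    rw [hL, ← hπ.deg]
    exact hπ.irr.natDegree_pos
  have : Module.Finite F L := Module.finite_of_finrank_pos hpos
  have hfr : Module.finrank F (Fin (N * b + c) → F) = Module.finrank F ((Fin b → L) × (Fin c → F)) := by
    rw [Module.finrank_prod]
    simp only [Module.finrank_fintype_fun_eq_card, Fintype.card_fin]
    rw [Module.finrank_pi_fintype]
    simp only [Finset.sum_const, Finset.card_univ, Fintype.card_fin, smul_eq_mul, hL]
    rw [mul_comm]
  let Ψ : (Fin (N * b + c) → F) ≃ₗ[F] ((Fin b → L) × (Fin c → F)) := LinearEquiv.ofFinrankEq _ _ hfr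
  let g : ((Fin b → L) × (Fin c → F)) →ₗ[F] ((Fin b → L) × (Fin c → F)) :=
    { toFun := fun p => (θ • p.1, 0)
      map_add' := by
        intro p q
        ext <;> simp [mul_add]
      map_smul' := by
        intro r p
        ext
        · simp
        · simp }
  refine ⟨LinearMap.toMatrix' (Ψ.symm.toLinearMap ∘ₗ g ∘ₗ Ψ.toLinearMap), ⟨⟨Ψ, ?_⟩⟩⟩
  intro z
  rw [LinearMap.toMatrix'_mulVec]
  simp [g]

end

end Pool.Agent.H27.KAC
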