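import Pool.Agent.H27.KAC.PI_Fac
import Pool.Agent.H27.KAC.PI_Orb

/-!
Project KAC, part I.1, module PI_Cnt: number of the pairs `(v, T)` with `LocD`.

PROOF SKETCH.  `r = finrank F K`, `Q = card K`.  `LocD` means `v π(v) = 0`, `rank v = n`, `T` nilpotent, `T v = v T`.
By `pi_exists_fac` the set of the `v` is the disjoint union over `π' ∈ s` of
`{v : v π'(v) = 0, rank v = n}` (disjoint: two different monic irreducible polynomials are coprime, so `v = 0`;
conversely `π' ∣ π` gives `v π(v) = 0`).  For each `π'` let `L'` be the field `K[X]/(π')` (degree `n`, `Q^n` elements):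
`card_sol` over `K` with `b = 1`, `c = m - n`: the number of `v` times `(Q^n - 1) * card GL_(m-n)(K)` is `card GL_m(K)`
(`card (Matrix (Fin 1) (Fin 1) L')ˣ = Q^n - 1`).  For each `v` the number of `T` is the number of nilpotent matrices of
size `m - n` over `K` (`card_nil_centralizer`; a nilpotent `1 × 1` matrix is zero).
-/

set_option autoImplicit false

namespace Pool.Agent.H27.KAC

open scoped BigOperators
open Polynomial

/-- the field `K[X]/(π')` -/
private theorem Cnt_field {K : Type} [Field K] [Fintype K] {π' : K[X]} {n : ℕ}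
    (hπ' : GoodPi K π' n) : ∃ (L : Type) (_ : Field L) (_ : Fintype L) (_ : Algebra K L) (θ : L),
      aeval θ π' = 0 ∧ Module.finrank K L = n ∧ Fintype.card L = Fintype.card K ^ n := by
  have : Fact (Irreducible π') := ⟨hπ'.irr⟩
  have hfin : Module.finrank K (AdjoinRoot π') = n := by
    rw [(AdjoinRoot.powerBasis' hπ'.monic).finrank, AdjoinRoot.powerBasis'_dim, hπ'.deg]
  have : Module.Finite K (AdjoinRoot π') := (AdjoinRoot.powerBasis' hπ'.monic).finite
  have : Finite (AdjoinRoot π') := Module.finite_of_finite K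
  refine ⟨AdjoinRoot π', inferInstance, Fintype.ofFinite _, inferInstance, AdjoinRoot.root π',
    ?_, hfin, ?_⟩
  · rw [AdjoinRoot.aeval_eq, AdjoinRoot.mk_self]
  · let : Fintype (AdjoinRoot π') := Fintype.ofFinite _
    have := Module.card_eq_pow_finrank (K := K) (V := AdjoinRoot π')
    rw [hfin] at this
    exact this

private theorem Cnt_units {L : Type} [Field L] [Fintype L] :
    Nat.card (Matrix (Fin 1) (Fin 1) L)ˣ = Fintype.card L - 1 := by
  rw [Nat.card_congr (Units.mapEquiv (Matrix.uniqueRingEquiv (m := Fin 1) (A := L)).toMulEquiv).toEquiv,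
    Nat.card_units, Nat.card_eq_fintype_card]

private theorem Cnt_nil1 {L : Type} [Field L] :
    Nat.card {T : Matrix (Fin 1) (Fin 1) L // IsNilpotent T} = 1 := by
  have h : ∀ T : Matrix (Fin 1) (Fin 1) L, IsNilpotent T → T = 0 := by
    intro T hT
    have h1 : IsNilpotent ((Matrix.uniqueRingEquiv (m := Fin 1) (A := L)).toRingHom T) := hT.map _
    have h2 := h1.eq_zero
    exact (RingEquiv.map_eq_zero_iff (Matrix.uniqueRingEquiv (m := Fin 1) (A := L))).1 h2
  have : Unique {T : Matrix (Fin 1) (Fin 1) L // IsNilpotent T} :=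
    ⟨⟨⟨0, IsNilpotent.zero⟩⟩, fun T => Subtype.ext (h T.1 T.2)⟩
  exact Nat.card_unique

private theorem Cnt_fib {K : Type} [Field K] [Fintype K] {π' : K[X]} {n : ℕ}
    (hπ' : GoodPi K π' n) {m : ℕ} (hn : 1 ≤ n) (v : Matrix (Fin m) (Fin m) K)
    (hv : v * aeval v π' = 0) (hr : v.rank = n) :
    Nat.card {T : Matrix (Fin m) (Fin m) K // IsNilpotent T ∧ T * v = v * T} =
      Nat.card {T : Matrix (Fin (m - n)) (Fin (m - n)) K // IsNilpotent T} := by
  obtain ⟨L, iL, iF, iA, θ, hθ, hL, _⟩ := Cnt_field hπ'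
  obtain ⟨b, c, ⟨C⟩⟩ := exists_chart hπ' θ hθ hL v hv
  obtain ⟨_, h1, h2⟩ := chart_rank hπ' θ hθ hL C
  have hb : b = 1 := by
    rw [hr] at h2
    have : n * 1 = n * b := by rw [mul_one]; exact h2
    exact (Nat.eq_of_mul_eq_mul_left (by omega) this).symm
  subst hb
  have hc : c = m - n := by omega
  subst hc
  rw [card_nil_centralizer hπ' hθ hL C, Cnt_nil1, one_mul]

private theorem Cnt_sol {K : Type} [Field K] [Fintype K] {π' : K[X]} {n : ℕ}
    (hπ' : GoodPi K π' n) {m : ℕ} (hnm : n ≤ m) :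
    Nat.card {v : Matrix (Fin m) (Fin m) K // v * aeval v π' = 0 ∧ v.rank = n} *
      ((Fintype.card K ^ n - 1) * Nat.card (Matrix (Fin (m - n)) (Fin (m - n)) K)ˣ) =
      Nat.card (Matrix (Fin m) (Fin m) K)ˣ := by
  obtain ⟨L, iL, iF, iA, θ, hθ, hL, hc⟩ := Cnt_field hπ'
  have h := card_sol hπ' θ hθ hL m 1 (m - n) (by omega)
  rw [Cnt_units, hc, mul_one] at h
  exact h

private theorem Cnt_disj {K : Type} [Field K] {π₁ π₂ : K[X]} {n : ℕ}
    (h₁ : GoodPi K π₁ n) (h₂ : GoodPi K π₂ n) (hne : π₁ ≠ π₂) {m : ℕ}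
    (v : Matrix (Fin m) (Fin m) K) (hv₁ : v * aeval v π₁ = 0) (hv₂ : v * aeval v π₂ = 0) :
    v = 0 := by
  have hcop : IsCoprime π₁ π₂ := by
    rw [h₁.irr.coprime_iff_not_dvd]
    intro hd
    exact hne (eq_of_monic_of_associated h₁.monic h₂.monic
      ((h₁.irr.dvd_irreducible_iff_associated h₂.irr).1 hd))
  obtain ⟨f, g, hfg⟩ := hcop
  have h3 : v * aeval v (f * π₁ + g * π₂) = v := by
    rw [hfg, map_one, mul_one]
  rw [mul_comm f, mul_comm g, map_add, map_mul, map_mul, mul_add, ← mul_assoc, ← mul_assoc, hv₁,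
    hv₂, zero_mul, zero_mul, add_zero] at h3
  exact h3.symm

theorem card_locD {F : Type} [Field F] [Fintype F] {K : Type} [Field K] [Fintype K]
    [Algebra F K] {π : F[X]} {N : ℕ} (hπ : GoodPi F π N) (m n : ℕ) (hn : 1 ≤ n) (hnm : n ≤ m)
    (hN : N = Module.finrank F K * n) :
    Nat.card {w : Matrix (Fin m) (Fin m) K × Matrix (Fin m) (Fin m) K // LocD F K π N w.1 w.2} *
        (Fintype.card K ^ n - 1) * Nat.card (Matrix (Fin (m - n)) (Fin (m - n)) K)ˣ =
      Module.finrank F K * Nat.card (Matrix (Fin m) (Fin m) K)ˣ *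
        Nat.card {T : Matrix (Fin (m - n)) (Fin (m - n)) K // IsNilpotent T} := by
  classical
  obtain ⟨s, hs, hs1, hs2⟩ := pi_exists_fac hπ n hn hN
  set r := Module.finrank F K with hr
  have hr0 : 0 < r := by
    have : 1 ≤ N := by
      by_contra hc
      have h0 : π.natDegree = 0 := by rw [hπ.deg]; omega
      exact (hπ.irr.natDegree_pos).ne' h0
    rcases Nat.eq_zero_or_pos r with h | h
    · rw [h, zero_mul] at hN
      omega
    · exact h
  -- the set of the v
  have hv : ∀ v : Matrix (Fin m) (Fin m) K, (v * aeval v π = 0 ∧ r * v.rank = N) ↔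
      ∃ π' ∈ s, v * aeval v π' = 0 ∧ v.rank = n := by
    intro v
    constructor
    · rintro ⟨h1, h2⟩
      have h3 : v.rank = n := Nat.eq_of_mul_eq_mul_left hr0 (by rw [h2, hN])
      obtain ⟨π', h4, h5⟩ := hs2 m v h1 h3
      exact ⟨π', h4, h5, h3⟩
    · rintro ⟨π', h4, h5, h3⟩
      refine ⟨?_, by rw [h3, hN]⟩
      obtain ⟨g, hg⟩ := (hs1 π' h4).2
      rw [← aeval_map_algebraMap K v π, hg, map_mul, ← mul_assoc, h5, zero_mul]
  -- number of the v
  have hcardv : Nat.card {v : Matrix (Fin m) (Fin m) K // v * aeval v π = 0 ∧ r * v.rank = N} =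
      ∑ π' ∈ s, Nat.card {v : Matrix (Fin m) (Fin m) K // v * aeval v π' = 0 ∧ v.rank = n} := by
    have h1 : (Finset.univ.filter (fun v : Matrix (Fin m) (Fin m) K =>
        v * aeval v π = 0 ∧ r * v.rank = N)) =
        s.biUnion (fun π' => Finset.univ.filter (fun v : Matrix (Fin m) (Fin m) K =>
          v * aeval v π' = 0 ∧ v.rank = n)) := by
      ext v
      simp only [Finset.mem_filter, Finset.mem_univ, true_and, Finset.mem_biUnion]
      exact hv v
    rw [Nat.card_eq_fintype_card, Fintype.card_subtype, h1, Finset.card_biUnion]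
    · refine Finset.sum_congr rfl fun π' _ => ?_
      rw [Nat.card_eq_fintype_card, Fintype.card_subtype]
    · intro π₁ h₁ π₂ h₂ hne
      rw [Function.onFun, Finset.disjoint_left]
      intro v hv1 hv2
      rw [Finset.mem_filter] at hv1 hv2
      have h0 := Cnt_disj (hs1 π₁ h₁).1 (hs1 π₂ h₂).1 hne v hv1.2.1 hv2.2.1
      have h3 := hv1.2.2
      rw [h0, Matrix.rank_zero] at h3
      omega
  -- the pairs
  let e : {w : Matrix (Fin m) (Fin m) K × Matrix (Fin m) (Fin m) K // LocD F K π N w.1 w.2} ≃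
      Σ v : {v : Matrix (Fin m) (Fin m) K // v * aeval v π = 0 ∧ r * v.rank = N},
        {T : Matrix (Fin m) (Fin m) K // IsNilpotent T ∧ T * v.1 = v.1 * T} :=
    { toFun := fun w => ⟨⟨w.1.1, w.2.1.1, w.2.2⟩, ⟨w.1.2, w.2.1.2⟩⟩
      invFun := fun x => ⟨(x.1.1, x.2.1), ⟨⟨x.1.2.1, x.2.2⟩, x.1.2.2⟩⟩
      left_inv := fun w => rfl
      right_inv := fun x => rfl }
  have hcard : Nat.card {w : Matrix (Fin m) (Fin m) K × Matrix (Fin m) (Fin m) K //
      LocD F K π N w.1 w.2} =
      Nat.card {v : Matrix (Fin m) (Fin m) K // v * aeval v π = 0 ∧ r * v.rank = N} *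
        Nat.card {T : Matrix (Fin (m - n)) (Fin (m - n)) K // IsNilpotent T} := by
    rw [Nat.card_congr e, Nat.card_sigma]
    rw [Finset.sum_congr rfl (g := fun _ =>
      Nat.card {T : Matrix (Fin (m - n)) (Fin (m - n)) K // IsNilpotent T})]
    · rw [Finset.sum_const, smul_eq_mul, Finset.card_univ, ← Nat.card_eq_fintype_card]
    · intro v _
      obtain ⟨π', h4, h5, h3⟩ := (hv v.1).1 v.2
      exact Cnt_fib (hs1 π' h4).1 hn v.1 h5 h3
  rw [hcard, hcardv]
  have hfin : (∑ π' ∈ s, Nat.card {v : Matrix (Fin m) (Fin m) K //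
      v * aeval v π' = 0 ∧ v.rank = n}) * ((Fintype.card K ^ n - 1) *
        Nat.card (Matrix (Fin (m - n)) (Fin (m - n)) K)ˣ) =
      r * Nat.card (Matrix (Fin m) (Fin m) K)ˣ := by
    rw [Finset.sum_mul, Finset.sum_congr rfl (g := fun _ => Nat.card (Matrix (Fin m) (Fin m) K)ˣ)
      (fun π' h => Cnt_sol (hs1 π' h).1 hnm), Finset.sum_const, smul_eq_mul, hs]
  rw [← hfin]
  ring

end Pool.Agent.H27.KAC
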