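import Pool.Agent.H27.KAC.PI_Chart

/-!
Project KAC, part I.1, module PI_Comm: the commutant of matrices with charts.

PROOF SKETCH.  Everything is clear from the definition of `up` except `up_surj`: let `f v = v' f`.  In the charts
`f` commutes with `(z, w) ↦ (θ z, 0)`; `(0, w)` is in the kernel, so its image is in the kernel, so of the form `(0, .)`;
`(z, 0) = v (θ⁻¹ z, 0)` is in the image of `v`, so its image is of the form `(., 0)`; the first component commutes with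
`θ`, so with `L` (`exists_poly_of_mem`), so it is `L`-linear.
-/

set_option autoImplicit false

namespace Pool.Agent.H27.KAC

open scoped BigOperators
open Polynomial

section

variable {F : Type} [Field F] {L : Type} [Field L] [Algebra F L] {θ : L}

theorem Comm_ext {a a' : ℕ} {M N : Matrix (Fin a') (Fin a) F}
    (h : ∀ z, M.mulVec z = N.mulVec z) : M = N := by
  apply Matrix.toLin'.injective
  apply LinearMap.ext
  intro z
  rw [Matrix.toLin'_apply, Matrix.toLin'_apply, h]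

theorem Comm_up_mulVec {a a' b b' c c' : ℕ} {v : Matrix (Fin a) (Fin a) F}
    {v' : Matrix (Fin a') (Fin a') F} (C : Chart θ v b c) (C' : Chart θ v' b' c')
    (g : Matrix (Fin b') (Fin b) L) (h : Matrix (Fin c') (Fin c) F) (z : Fin a → F) :
    (up C C' g h).mulVec z = C'.Ψ.symm (g.mulVec (C.Ψ z).1, h.mulVec (C.Ψ z).2) := by
  unfold up
  rw [← Matrix.toLin'_apply, Matrix.toLin'_toMatrix']
  rfl

theorem up_mul {a a' a'' b b' b'' c c' c'' : ℕ} {v : Matrix (Fin a) (Fin a) F}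
    {v' : Matrix (Fin a') (Fin a') F} {v'' : Matrix (Fin a'') (Fin a'') F}
    (C : Chart θ v b c) (C' : Chart θ v' b' c') (C'' : Chart θ v'' b'' c'')
    (g₁ : Matrix (Fin b') (Fin b) L) (h₁ : Matrix (Fin c') (Fin c) F)
    (g₂ : Matrix (Fin b'') (Fin b') L) (h₂ : Matrix (Fin c'') (Fin c') F) :
    up C' C'' g₂ h₂ * up C C' g₁ h₁ = up C C'' (g₂ * g₁) (h₂ * h₁) := by
  apply Comm_ext
  intro z
  rw [← Matrix.mulVec_mulVec, Comm_up_mulVec, Comm_up_mulVec, Comm_up_mulVec,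
    LinearEquiv.apply_symm_apply, ← Matrix.mulVec_mulVec, ← Matrix.mulVec_mulVec]

theorem up_one {a b c : ℕ} {v : Matrix (Fin a) (Fin a) F} (C : Chart θ v b c) :
    up C C 1 1 = 1 := by
  apply Comm_ext
  intro z
  rw [Comm_up_mulVec, Matrix.one_mulVec, Matrix.one_mulVec, Matrix.one_mulVec]
  exact C.Ψ.symm_apply_apply z

theorem up_theta {a b c : ℕ} {v : Matrix (Fin a) (Fin a) F} (C : Chart θ v b c) :
    up C C (θ • 1) 0 = v := by
  apply Comm_ext
  intro z
  rw [Comm_up_mulVec, Matrix.smul_mulVec, Matrix.one_mulVec, Matrix.zero_mulVec, ← C.hΨ,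
    LinearEquiv.symm_apply_apply]

theorem up_add {a a' b b' c c' : ℕ} {v : Matrix (Fin a) (Fin a) F}
    {v' : Matrix (Fin a') (Fin a') F} (C : Chart θ v b c) (C' : Chart θ v' b' c')
    (g₁ g₂ : Matrix (Fin b') (Fin b) L) (h₁ h₂ : Matrix (Fin c') (Fin c) F) :
    up C C' (g₁ + g₂) (h₁ + h₂) = up C C' g₁ h₁ + up C C' g₂ h₂ := by
  apply Comm_ext
  intro z
  rw [Matrix.add_mulVec, Comm_up_mulVec, Comm_up_mulVec, Comm_up_mulVec, ← map_add,
    Matrix.add_mulVec, Matrix.add_mulVec]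
  rfl

theorem up_sub {a a' b b' c c' : ℕ} {v : Matrix (Fin a) (Fin a) F}
    {v' : Matrix (Fin a') (Fin a') F} (C : Chart θ v b c) (C' : Chart θ v' b' c')
    (g₁ g₂ : Matrix (Fin b') (Fin b) L) (h₁ h₂ : Matrix (Fin c') (Fin c) F) :
    up C C' (g₁ - g₂) (h₁ - h₂) = up C C' g₁ h₁ - up C C' g₂ h₂ := by
  apply Comm_ext
  intro z
  rw [Matrix.sub_mulVec, Comm_up_mulVec, Comm_up_mulVec, Comm_up_mulVec, ← map_sub,
    Matrix.sub_mulVec, Matrix.sub_mulVec]
  rfl

theorem up_zero {a a' b b' c c' : ℕ} {v : Matrix (Fin a) (Fin a) F}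
    {v' : Matrix (Fin a') (Fin a') F} (C : Chart θ v b c) (C' : Chart θ v' b' c') :
    up C C' 0 0 = 0 := by
  apply Comm_ext
  intro z
  rw [Comm_up_mulVec, Matrix.zero_mulVec, Matrix.zero_mulVec, Matrix.zero_mulVec]
  exact map_zero _

theorem up_inj {a a' b b' c c' : ℕ} {v : Matrix (Fin a) (Fin a) F}
    {v' : Matrix (Fin a') (Fin a') F} (C : Chart θ v b c) (C' : Chart θ v' b' c')
    {g₁ g₂ : Matrix (Fin b') (Fin b) L} {h₁ h₂ : Matrix (Fin c') (Fin c) F}
    (h : up C C' g₁ h₁ = up C C' g₂ h₂) : g₁ = g₂ ∧ h₁ = h₂ := by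
  have key : ∀ (x : Fin b → L) (y : Fin c → F), g₁.mulVec x = g₂.mulVec x ∧
      h₁.mulVec y = h₂.mulVec y := by
    intro x y
    have h1 := congrArg (fun M => M.mulVec (C.Ψ.symm (x, y))) h
    simp only [Comm_up_mulVec, LinearEquiv.apply_symm_apply] at h1
    have h2 := C'.Ψ.symm.injective h1
    exact ⟨congrArg Prod.fst h2, congrArg Prod.snd h2⟩
  constructor
  · apply Matrix.toLin'.injective
    apply LinearMap.ext
    intro x
    rw [Matrix.toLin'_apply, Matrix.toLin'_apply, (key x 0).1]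
  · apply Comm_ext
    intro y
    exact (key 0 y).2

theorem up_comm {a a' b b' c c' : ℕ} {v : Matrix (Fin a) (Fin a) F}
    {v' : Matrix (Fin a') (Fin a') F} (C : Chart θ v b c) (C' : Chart θ v' b' c')
    (g : Matrix (Fin b') (Fin b) L) (h : Matrix (Fin c') (Fin c) F) :
    up C C' g h * v = v' * up C C' g h := by
  apply Comm_ext
  intro z
  rw [← Matrix.mulVec_mulVec, ← Matrix.mulVec_mulVec, Comm_up_mulVec, Comm_up_mulVec, C.hΨ]
  apply C'.Ψ.injective
  rw [C'.hΨ, LinearEquiv.apply_symm_apply, LinearEquiv.apply_symm_apply]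
  show (g.mulVec (θ • (C.Ψ z).1), h.mulVec 0) = _
  rw [Matrix.mulVec_smul, Matrix.mulVec_zero]

theorem up_nilpotent {a b c : ℕ} {v : Matrix (Fin a) (Fin a) F} (C : Chart θ v b c)
    (g : Matrix (Fin b) (Fin b) L) (h : Matrix (Fin c) (Fin c) F) :
    IsNilpotent (up C C g h) ↔ IsNilpotent g ∧ IsNilpotent h := by
  have hpow : ∀ n : ℕ, (up C C g h) ^ n = up C C (g ^ n) (h ^ n) := by
    intro n
    induction n with
    | zero => rw [pow_zero, pow_zero, pow_zero, up_one]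
    | succ n ih => rw [pow_succ, pow_succ, pow_succ, ih, up_mul]
  constructor
  · rintro ⟨n, hn⟩
    rw [hpow, ← up_zero C C] at hn
    obtain ⟨h1, h2⟩ := up_inj C C hn
    exact ⟨⟨n, h1⟩, ⟨n, h2⟩⟩
  · rintro ⟨⟨n, hn⟩, ⟨m, hm⟩⟩
    refine ⟨n + m, ?_⟩
    rw [hpow, pow_add, pow_add, hn, hm, zero_mul, mul_zero, up_zero]

theorem up_aeval {a b c : ℕ} {v : Matrix (Fin a) (Fin a) F} (C : Chart θ v b c) (f : F[X]) :
    aeval v f = up C C ((aeval θ f) • 1) ((f.coeff 0) • 1) := by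
  induction f using Polynomial.induction_on with
  | C r =>
    rw [aeval_C, aeval_C, coeff_C_zero]
    apply Comm_ext
    intro z
    rw [Comm_up_mulVec, Matrix.smul_mulVec, Matrix.one_mulVec, Matrix.smul_mulVec,
      Matrix.one_mulVec, Algebra.algebraMap_eq_smul_one, Matrix.smul_mulVec, Matrix.one_mulVec]
    have h1 : ((algebraMap F L r • (C.Ψ z).1, r • (C.Ψ z).2) : (Fin b → L) × (Fin c → F)) =
        r • C.Ψ z := by
      apply Prod.ext
      · exact algebraMap_smul L r (C.Ψ z).1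
      · rfl
    rw [h1, map_smul, LinearEquiv.symm_apply_apply]
  | add p q hp hq =>
    rw [map_add, hp, hq, ← up_add, map_add, coeff_add, add_smul, add_smul]
  | monomial n r ih =>
    have h1 : (Polynomial.C r * X ^ (n + 1) : F[X]) = Polynomial.C r * X ^ n * X := by ring
    have h2 : up C C ((aeval θ (Polynomial.C r * X ^ n)) • 1)
        (((Polynomial.C r * X ^ n : F[X]).coeff 0) • 1) * v =
        up C C ((aeval θ (Polynomial.C r * X ^ n)) • 1)
        (((Polynomial.C r * X ^ n : F[X]).coeff 0) • 1) * up C C (θ • 1) 0 := by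
      rw [up_theta]
    have h3 : aeval θ (Polynomial.C r * X ^ n * X) = aeval θ (Polynomial.C r * X ^ n) * θ := by
      rw [map_mul _ (Polynomial.C r * X ^ n) X, aeval_X]
    have h4 : aeval v (Polynomial.C r * X ^ n * X) = aeval v (Polynomial.C r * X ^ n) * v := by
      rw [map_mul _ (Polynomial.C r * X ^ n) X, aeval_X]
    rw [h1, h3, h4, ih, h2, up_mul, coeff_mul_X_zero, Matrix.mul_zero, zero_smul,
      Matrix.smul_mul, Matrix.one_mul, smul_smul]

variable {π : F[X]} {N : ℕ} (hπ : GoodPi F π N) (hθ : aeval θ π = 0)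
  (hL : Module.finrank F L = N)

include hπ hθ hL

theorem up_surj {a a' b b' c c' : ℕ} {v : Matrix (Fin a) (Fin a) F}
    {v' : Matrix (Fin a') (Fin a') F} (C : Chart θ v b c) (C' : Chart θ v' b' c')
    (f : Matrix (Fin a') (Fin a) F) (hf : f * v = v' * f) : ∃ g h, f = up C C' g h := by
  have hθ0 : θ ≠ 0 := theta_ne_zero hπ θ hθ
  let G : ((Fin b → L) × (Fin c → F)) →ₗ[F] ((Fin b' → L) × (Fin c' → F)) :=
    C'.Ψ.toLinearMap ∘ₗ Matrix.toLin' f ∘ₗ C.Ψ.symm.toLinearMap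
  have hG : ∀ w, G (θ • w.1, 0) = (θ • (G w).1, 0) := by
    intro w
    have h1 : ((θ • w.1, 0) : (Fin b → L) × (Fin c → F)) = C.Ψ (v.mulVec (C.Ψ.symm w)) := by
      rw [C.hΨ, LinearEquiv.apply_symm_apply]
    have h2 : G (θ • w.1, 0) = C'.Ψ (f.mulVec (v.mulVec (C.Ψ.symm w))) := by
      rw [h1]
      show C'.Ψ (Matrix.toLin' f (C.Ψ.symm (C.Ψ _))) = _
      rw [LinearEquiv.symm_apply_apply, Matrix.toLin'_apply]
    have h3 : G w = C'.Ψ (f.mulVec (C.Ψ.symm w)) := rfl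
    rw [h2, h3, Matrix.mulVec_mulVec, hf, ← Matrix.mulVec_mulVec, C'.hΨ]
  have hG1 : ∀ y, (G (0, y)).1 = 0 := by
    intro y
    have h1 := hG (0, y)
    rw [smul_zero] at h1
    have h2 : G (0, 0) = 0 := map_zero G
    rw [h2] at h1
    have h3 := (congrArg Prod.fst h1).symm
    exact (smul_eq_zero.1 h3).resolve_left hθ0
  have hG2 : ∀ x, (G (x, 0)).2 = 0 := by
    intro x
    have h1 := hG (θ⁻¹ • x, 0)
    rw [smul_smul, mul_inv_cancel₀ hθ0, one_smul] at h1
    rw [h1]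
  have hGθ : ∀ x, (G (θ • x, 0)).1 = θ • (G (x, 0)).1 := by
    intro x
    rw [hG (x, 0)]
  have hGL : ∀ (l : L) x, (G (l • x, 0)).1 = l • (G (x, 0)).1 := by
    intro l
    obtain ⟨p, rfl⟩ := exists_poly_of_mem hπ θ hθ hL l
    induction p using Polynomial.induction_on with
    | C r =>
      intro x
      rw [aeval_C, algebraMap_smul, algebraMap_smul]
      have h1 : ((r • x, 0) : (Fin b → L) × (Fin c → F)) = r • (x, 0) := by
        rw [Prod.smul_mk, smul_zero]
      rw [h1, map_smul, Prod.smul_fst]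
    | add p q hp hq =>
      intro x
      rw [map_add, add_smul, add_smul, ← hp, ← hq]
      have h1 : (((aeval θ p) • x + (aeval θ q) • x, 0) : (Fin b → L) × (Fin c → F)) =
          ((aeval θ p) • x, 0) + ((aeval θ q) • x, 0) := by
        rw [Prod.mk_add_mk, add_zero]
      rw [h1, map_add, Prod.fst_add]
    | monomial n r ih =>
      intro x
      have h1 : (Polynomial.C r * X ^ (n + 1) : F[X]) = Polynomial.C r * X ^ n * X := by ring
      rw [h1, map_mul, aeval_X, mul_smul, ih, hGθ, mul_smul]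
  let A : (Fin b → L) →ₗ[L] (Fin b' → L) :=
    { toFun := fun x => (G (x, 0)).1
      map_add' := by
        intro x y
        have h1 : ((x + y, 0) : (Fin b → L) × (Fin c → F)) = (x, 0) + (y, 0) := by
          rw [Prod.mk_add_mk, add_zero]
        rw [h1, map_add, Prod.fst_add]
      map_smul' := fun l x => hGL l x }
  let B : (Fin c → F) →ₗ[F] (Fin c' → F) :=
    LinearMap.snd F _ _ ∘ₗ G ∘ₗ LinearMap.inr F _ _
  refine ⟨LinearMap.toMatrix' A, LinearMap.toMatrix' B, ?_⟩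
  apply Comm_ext
  intro z
  rw [Comm_up_mulVec, ← Matrix.toLin'_apply (LinearMap.toMatrix' A), Matrix.toLin'_toMatrix',
    ← Matrix.toLin'_apply (LinearMap.toMatrix' B), Matrix.toLin'_toMatrix']
  apply C'.Ψ.injective
  rw [LinearEquiv.apply_symm_apply]
  have h1 : C'.Ψ (f.mulVec z) = G (C.Ψ z) := by
    show _ = C'.Ψ (Matrix.toLin' f (C.Ψ.symm (C.Ψ z)))
    rw [LinearEquiv.symm_apply_apply, Matrix.toLin'_apply]
  have h2 : C.Ψ z = ((C.Ψ z).1, 0) + (0, (C.Ψ z).2) := by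
    rw [Prod.mk_add_mk, add_zero, zero_add]
  rw [h1]
  conv_lhs => rw [h2]
  rw [map_add]
  apply Prod.ext
  · rw [Prod.fst_add, hG1, add_zero]
    rfl
  · rw [Prod.snd_add, hG2, zero_add]
    rfl

/-- order of the centralizer -/
theorem card_centralizer {a b c : ℕ} {v : Matrix (Fin a) (Fin a) F} (C : Chart θ v b c) :
    Nat.card {x : (Matrix (Fin a) (Fin a) F)ˣ //
        (x : Matrix (Fin a) (Fin a) F) * v = v * (x : Matrix (Fin a) (Fin a) F)} =
      Nat.card (Matrix (Fin b) (Fin b) L)ˣ * Nat.card (Matrix (Fin c) (Fin c) F)ˣ := by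
  rw [← Nat.card_prod]
  symm
  apply Nat.card_congr
  refine Equiv.ofBijective (fun w => ⟨⟨up C C w.1.1 w.2.1, up C C (w.1⁻¹).1 (w.2⁻¹).1,
    by rw [up_mul, Units.mul_inv, Units.mul_inv, up_one],
    by rw [up_mul, Units.inv_mul, Units.inv_mul, up_one]⟩, up_comm C C _ _⟩) ⟨?_, ?_⟩
  · rintro ⟨g, h⟩ ⟨g', h'⟩ hw
    have h1 := congrArg (fun x => (x.1.1 : Matrix (Fin a) (Fin a) F)) hw
    obtain ⟨h2, h3⟩ := up_inj C C h1
    exact Prod.ext (Units.ext h2) (Units.ext h3)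
  · rintro ⟨x, hx⟩
    obtain ⟨g, h, hgh⟩ := up_surj hπ hθ hL C C x.1 hx
    have hx' : (x⁻¹).1 * v = v * (x⁻¹).1 := by
      calc (x⁻¹).1 * v = (x⁻¹).1 * (v * x.1) * (x⁻¹).1 := by
            rw [Matrix.mul_assoc, Matrix.mul_assoc, Units.mul_inv, Matrix.mul_one]
        _ = v * (x⁻¹).1 := by rw [← hx, ← Matrix.mul_assoc, Units.inv_mul, Matrix.one_mul]
    obtain ⟨g', h', hgh'⟩ := up_surj hπ hθ hL C C (x⁻¹).1 hx'
    have h1 : up C C (g * g') (h * h') = up C C 1 1 := by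
      rw [← up_mul C C C, ← hgh, ← hgh', Units.mul_inv, up_one]
    have h2 : up C C (g' * g) (h' * h) = up C C 1 1 := by
      rw [← up_mul C C C, ← hgh, ← hgh', Units.inv_mul, up_one]
    obtain ⟨h3, h4⟩ := up_inj C C h1
    obtain ⟨h5, h6⟩ := up_inj C C h2
    refine ⟨(⟨g, g', h3, h5⟩, ⟨h, h', h4, h6⟩), ?_⟩
    apply Subtype.ext
    apply Units.ext
    exact hgh.symm

/-- number of the nilpotent matrices of the centralizer -/
theorem card_nil_centralizer {a b c : ℕ} {v : Matrix (Fin a) (Fin a) F} (C : Chart θ v b c) :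
    Nat.card {T : Matrix (Fin a) (Fin a) F // IsNilpotent T ∧ T * v = v * T} =
      Nat.card {T : Matrix (Fin b) (Fin b) L // IsNilpotent T} *
        Nat.card {T : Matrix (Fin c) (Fin c) F // IsNilpotent T} := by
  rw [← Nat.card_prod]
  symm
  apply Nat.card_congr
  refine Equiv.ofBijective (fun w => ⟨up C C w.1.1 w.2.1,
    (up_nilpotent C _ _).2 ⟨w.1.2, w.2.2⟩, up_comm C C _ _⟩) ⟨?_, ?_⟩
  · rintro ⟨g, h⟩ ⟨g', h'⟩ hw
    have h1 := congrArg (fun x => (x.1 : Matrix (Fin a) (Fin a) F)) hw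
    obtain ⟨h2, h3⟩ := up_inj C C h1
    exact Prod.ext (Subtype.ext h2) (Subtype.ext h3)
  · rintro ⟨T, hT1, hT2⟩
    obtain ⟨g, h, hgh⟩ := up_surj hπ hθ hL C C T hT2
    rw [hgh] at hT1
    obtain ⟨h1, h2⟩ := (up_nilpotent C _ _).1 hT1
    exact ⟨(⟨g, h1⟩, ⟨h, h2⟩), Subtype.ext hgh.symm⟩

end

end Pool.Agent.H27.KAC
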