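import Pool.Agent.H27.KAC.PI_Base

/-!
Project KAC, part I.1 (helper40): definitions for the proof of `hua_log`.

IDEA.  `F` a finite field with `q` elements, `π N` a monic irreducible polynomial of degree `N` over `F`, not `X`,
`L = F[X]/(π N)`.  For a representation `x` and `R = End x` the local identity
  `α_i * #Nil R = ∑_N 1/N ∑_{v ∈ R, v π_N(v) = 0, AIc v} rank (v i) * #{T ∈ R nilpotent, T v = v T}`
is a statement on the finite algebra `R` (proved through `R / rad = ∏ Mat (K_j)`).  Then the triples `(x, v, T)` are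
counted: `v` splits `x` in a representation over `L` (the image of `v`) and a representation over `F` (the kernel of `v`);
the condition `AIc v` means that the representation over `L` is absolutely indecomposable.
-/

set_option autoImplicit false

namespace Pool.Agent.H27.KAC

open scoped BigOperators
open Polynomial

/-- `π` is monic irreducible of degree `N` and is not `X`. -/
structure GoodPi (F : Type) [Field F] (π : F[X]) (N : ℕ) : Prop where
  irr : Irreducible π
  monic : π.Monic
  deg : π.natDegree = N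
  zero : π.coeff 0 ≠ 0

/-- Each `c` commuting with `v` is, on the image of `v`, a polynomial in `v` plus a nilpotent. -/
def AIc (F : Type) [Field F] {R : Type} [Ring R] [Algebra F R] (v : R) : Prop :=
  ∀ c : R, c * v = v * c → ∃ f : F[X], IsNilpotent (v * (c - aeval v f))

/-- `v π(v) = 0` and `T` is a nilpotent commuting with `v`. -/
def Dat0 (F : Type) [Field F] {R : Type} [Ring R] [Algebra F R] (π : F[X]) (v T : R) : Prop :=
  v * aeval v π = 0 ∧ IsNilpotent T ∧ T * v = v * T

/-- `Dat0` together with `AIc`. -/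
def Dat (F : Type) [Field F] {R : Type} [Ring R] [Algebra F R] (π : F[X]) (v T : R) : Prop :=
  Dat0 F π v T ∧ AIc F v

/-- `Dat0` in a matrix algebra over `K ⊇ F`, with `[K : F] * rank v = N`. -/
def LocD (F : Type) [Field F] (K : Type) [Field K] [Algebra F K] (π : F[X]) (N : ℕ) {m : ℕ}
    (v T : Matrix (Fin m) (Fin m) K) : Prop :=
  Dat0 F π v T ∧ Module.finrank F K * v.rank = N

section Charts

variable {F : Type} [Field F] {L : Type} [Field L] [Algebra F L]

/-- A chart for the matrix `v`: after a change of basis `v` is multiplication by `θ` on `L^b` and zero on `F^c`. -/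
structure Chart (θ : L) {a : ℕ} (v : Matrix (Fin a) (Fin a) F) (b c : ℕ) where
  Ψ : (Fin a → F) ≃ₗ[F] ((Fin b → L) × (Fin c → F))
  hΨ : ∀ z, Ψ (v.mulVec z) = (θ • (Ψ z).1, 0)

/-- The matrix over `F` of the map `g ⊕ h` in the charts `C` and `C'`. -/
noncomputable def up {θ : L} {a a' b b' c c' : ℕ} {v : Matrix (Fin a) (Fin a) F}
    {v' : Matrix (Fin a') (Fin a') F} (C : Chart θ v b c) (C' : Chart θ v' b' c')
    (g : Matrix (Fin b') (Fin b) L) (h : Matrix (Fin c') (Fin c) F) :
    Matrix (Fin a') (Fin a) F :=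
  LinearMap.toMatrix' (C'.Ψ.symm.toLinearMap ∘ₗ
    (LinearMap.prodMap ((Matrix.toLin' g).restrictScalars F) (Matrix.toLin' h)) ∘ₗ C.Ψ.toLinearMap)

end Charts

section Reps

variable {I E : Type}

/-- Every endomorphism is a scalar plus a nilpotent endomorphism. -/
def SN {Q : Quiv I E} {L : Type} [Field L] {β : I → ℕ} (V : Rp Q L β) : Prop :=
  β ≠ 0 ∧ ∀ c : (i : I) → Matrix (Fin (β i)) (Fin (β i)) L, IsMor V V c →
    ∃ l : L, ∀ i, IsNilpotent (c i - l • (1 : Matrix (Fin (β i)) (Fin (β i)) L))

/-- Pairs `(V, s)`: `V` satisfies `SN`, `s` is a nilpotent endomorphism. -/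
def SNPairs (Q : Quiv I E) (L : Type) [Field L] (β : I → ℕ) : Type :=
  {p : Rp Q L β × ((i : I) → Matrix (Fin (β i)) (Fin (β i)) L) //
    SN p.1 ∧ IsMor p.1 p.1 p.2 ∧ ∀ i, IsNilpotent (p.2 i)}

/-- The condition `AIc` for an endomorphism `v` of the representation `x`. -/
def AIt {Q : Quiv I E} {F : Type} [Field F] {α : I → ℕ} (x : Rp Q F α)
    (v : (i : I) → Matrix (Fin (α i)) (Fin (α i)) F) : Prop :=
  ∀ c : (i : I) → Matrix (Fin (α i)) (Fin (α i)) F, IsMor x x c → (∀ i, c i * v i = v i * c i) →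
    ∃ f : F[X], ∀ i, IsNilpotent (v i * (c i - aeval (v i) f))

/-- The pair `(x, T)` is compatible with the tuple `v`. -/
def Comp {Q : Quiv I E} {F : Type} [Field F] {α : I → ℕ}
    (v : (i : I) → Matrix (Fin (α i)) (Fin (α i)) F) (x : Rp Q F α)
    (T : (i : I) → Matrix (Fin (α i)) (Fin (α i)) F) : Prop :=
  IsMor x x v ∧ IsMor x x T ∧ (∀ i, IsNilpotent (T i)) ∧ (∀ i, T i * v i = v i * T i) ∧ AIt x v

/-- The triples `(v, (x, T))`. -/
def Trip (Q : Quiv I E) (F : Type) [Field F] (α : I → ℕ) (π : F[X]) : Type :=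
  {w : ((i : I) → Matrix (Fin (α i)) (Fin (α i)) F) × Rp Q F α ×
      ((i : I) → Matrix (Fin (α i)) (Fin (α i)) F) //
    (∀ i, w.1 i * aeval (w.1 i) π = 0) ∧ Comp w.1 w.2.1 w.2.2}

/-- The algebra of endomorphisms of a representation. -/
def endAlg {Q : Quiv I E} {F : Type} [Field F] {α : I → ℕ} (x : Rp Q F α) :
    Subalgebra F ((i : I) → Matrix (Fin (α i)) (Fin (α i)) F) where
  carrier := {f | IsMor x x f}
  mul_mem' := by
    intro f g hf hg e
    show (f (Q.tgt e) * g (Q.tgt e)) * x e = x e * (f (Q.src e) * g (Q.src e))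
    rw [Matrix.mul_assoc, hg e, ← Matrix.mul_assoc, hf e, Matrix.mul_assoc]
  one_mem' := by
    intro e
    show (1 : Matrix _ _ F) * x e = x e * 1
    rw [Matrix.one_mul, Matrix.mul_one]
  add_mem' := by
    intro f g hf hg e
    show (f (Q.tgt e) + g (Q.tgt e)) * x e = x e * (f (Q.src e) + g (Q.src e))
    rw [Matrix.add_mul, Matrix.mul_add, hf e, hg e]
  zero_mem' := by
    intro e
    show (0 : Matrix _ _ F) * x e = x e * 0
    rw [Matrix.zero_mul, Matrix.mul_zero]
  algebraMap_mem' := by
    intro r e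
    show (algebraMap F (Matrix _ _ F) r) * x e = x e * (algebraMap F (Matrix _ _ F) r)
    rw [Matrix.algebraMap_eq_diagonal, Matrix.algebraMap_eq_diagonal]
    ext a b
    simp [Matrix.diagonal_mul, Matrix.mul_diagonal, mul_comm]

end Reps

end Pool.Agent.H27.KAC
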