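import Pool.Agent.H27.KAC.PI_LI

/-!
Project KAC, part I.1, module PI_End: the local identity summed over the representations.

PROOF SKETCH.  For each `x : Rp Q F α` apply `local_identity` to `R = endAlg x`, `ρ` = the `i`-th component,
`a = α i` (`finrank F R ≤ ∑ (α j)^2 ≤ B`).  Nilpotent elements of `endAlg x` = tuples of nilpotent matrices `T` with
`IsMor x x T` (`I` is finite); `Dat F (π N) v T` in `endAlg x` means `v j * aeval (v j) (π N) = 0`, `Comp v x T`
(`AIc` in `endAlg x` is `AIt x v`).  Sum over `x` (a finite type): `NilPairs` and `Trip` are fibered over `x`.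
-/

set_option autoImplicit false

namespace Pool.Agent.H27.KAC

open scoped BigOperators
open Polynomial

section

variable {I E : Type} {Q : Quiv I E} {F : Type} [Field F] {α : I → ℕ}

theorem End_mem (x : Rp Q F α) (f : (i : I) → Matrix (Fin (α i)) (Fin (α i)) F) :
    f ∈ endAlg x ↔ IsMor x x f := Iff.rfl

theorem End_aeval (x : Rp Q F α) (v : endAlg x) (f : F[X]) (j : I) :
    (aeval v f : endAlg x).1 j = aeval (v.1 j) f := by
  have h1 : ((aeval v f : endAlg x) : (i : I) → Matrix (Fin (α i)) (Fin (α i)) F) =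
      aeval (v : (i : I) → Matrix (Fin (α i)) (Fin (α i)) F) f := by
    rw [← Subalgebra.coe_val, ← aeval_algHom_apply]
  rw [h1]
  have h2 := aeval_algHom_apply (Pi.evalAlgHom F (fun i => Matrix (Fin (α i)) (Fin (α i)) F) j)
    (v : (i : I) → Matrix (Fin (α i)) (Fin (α i)) F) f
  exact h2.symm

theorem End_nilp [Finite I] (x : Rp Q F α) (T : endAlg x) :
    IsNilpotent T ↔ ∀ j, IsNilpotent (T.1 j) := by
  classical
  cases nonempty_fintype I
  constructor
  · rintro ⟨k, hk⟩ j
    refine ⟨k, ?_⟩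
    have h1 := congrArg (fun z : endAlg x => z.1 j) hk
    simpa using h1
  · intro h
    choose k hk using h
    refine ⟨∑ j, k j, ?_⟩
    apply Subtype.ext
    funext j
    show (T.1 ^ (∑ j, k j)) j = 0
    rw [Pi.pow_apply]
    exact pow_eq_zero_of_le (Finset.single_le_sum (f := k) (fun _ _ => Nat.zero_le _)
      (Finset.mem_univ j)) (hk j)

theorem End_aic [Finite I] (x : Rp Q F α) (v : endAlg x) : AIc F v ↔ AIt x v.1 := by
  constructor
  · intro h c hc hcv
    obtain ⟨f, hf⟩ := h ⟨c, hc⟩ (Subtype.ext (funext hcv))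
    refine ⟨f, fun i => ?_⟩
    have h1 := (End_nilp x _).1 hf i
    have h2 : ((v * (⟨c, hc⟩ - aeval v f) : endAlg x)).1 i =
        v.1 i * (c i - aeval (v.1 i) f) := by
      rw [← End_aeval x v f i]
      rfl
    rw [h2] at h1
    exact h1
  · intro h c hcv
    obtain ⟨f, hf⟩ := h c.1 c.2 (fun i => congrFun (congrArg Subtype.val hcv) i)
    refine ⟨f, (End_nilp x _).2 fun i => ?_⟩
    have h2 : ((v * (c - aeval v f) : endAlg x)).1 i =
        v.1 i * (c.1 i - aeval (v.1 i) f) := by
      rw [← End_aeval x v f i]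
      rfl
    rw [h2]
    exact hf i

theorem End_sol (x : Rp Q F α) (v : endAlg x) (f : F[X]) :
    v * aeval v f = 0 ↔ ∀ i, v.1 i * aeval (v.1 i) f = 0 := by
  constructor
  · intro h i
    have h1 := congrArg (fun z : endAlg x => z.1 i) h
    rw [← End_aeval x v f i]
    exact h1
  · intro h
    apply Subtype.ext
    funext i
    have h1 := h i
    rw [← End_aeval x v f i] at h1
    exact h1

theorem End_dat [Finite I] (x : Rp Q F α) (v T : endAlg x) (f : F[X]) :
    Dat F f v T ↔ (∀ i, v.1 i * aeval (v.1 i) f = 0) ∧ Comp v.1 x T.1 := by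
  unfold Dat Dat0 Comp
  rw [End_sol, End_nilp, End_aic]
  constructor
  · rintro ⟨⟨h1, h2, h3⟩, h4⟩
    exact ⟨h1, v.2, T.2, h2, fun i => congrFun (congrArg Subtype.val h3) i, h4⟩
  · rintro ⟨h1, _, _, h2, h3, h4⟩
    exact ⟨⟨h1, h2, Subtype.ext (funext h3)⟩, h4⟩

end

theorem count_triples {I E : Type} [Fintype I] [DecidableEq I] [Fintype E] (Q : Quiv I E)
    {F : Type} [Field F] [Fintype F] (π : ℕ → F[X]) (hπ : ∀ N, 1 ≤ N → GoodPi F (π N) N)
    (α : I → ℕ) (i : I) (B : ℕ) (hB : ∑ j, (α j) ^ 2 ≤ B) :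
    (α i : ℚ) * Nat.card (NilPairs Q F α) =
      ∑ N ∈ Finset.Icc 1 B, ∑ᶠ w : Trip Q F α (π N), ((w.1.1 i).rank : ℚ) / N := by
  classical
  haveI : Fintype (Rp Q F α) := Fintype.ofFinite _
  -- the local identity for each representation
  have hloc : ∀ x : Rp Q F α, (α i : ℚ) * Nat.card {T : endAlg x // IsNilpotent T} =
      ∑ N ∈ Finset.Icc 1 B, ∑ᶠ w : {w : endAlg x × endAlg x // Dat F (π N) w.1 w.2},
        ((w.1.1.1 i).rank : ℚ) / N := by
    intro x
    haveI : Finite (endAlg x) := Subtype.finite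
    have hfr : Module.finrank F (endAlg x) ≤ B := by
      refine le_trans ?_ hB
      have h1 : Module.finrank F (endAlg x) ≤
          Module.finrank F ((i : I) → Matrix (Fin (α i)) (Fin (α i)) F) :=
        Submodule.finrank_le (Subalgebra.toSubmodule (endAlg x))
      refine h1.trans ?_
      rw [Module.finrank_pi_fintype]
      refine le_of_eq (Finset.sum_congr rfl fun j _ => ?_)
      rw [Module.finrank_matrix]
      simp [sq]
    exact local_identity ((Pi.evalAlgHom F (fun i => Matrix (Fin (α i)) (Fin (α i)) F) i).comp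
      (endAlg x).val) π hπ B hfr
  -- the left hand side
  have hL : (Nat.card (NilPairs Q F α) : ℚ) =
      ∑ x : Rp Q F α, (Nat.card {T : endAlg x // IsNilpotent T} : ℚ) := by
    have e : NilPairs Q F α ≃ (Σ x : Rp Q F α, {T : endAlg x // IsNilpotent T}) :=
      { toFun := fun p => ⟨p.1.1, ⟨⟨p.1.2, p.2.1⟩, (End_nilp _ _).2 p.2.2⟩⟩
        invFun := fun s => ⟨(s.1, s.2.1.1), s.2.1.2, (End_nilp _ _).1 s.2.2⟩
        left_inv := fun p => rfl
        right_inv := fun s => rfl }
    haveI : ∀ x : Rp Q F α, Finite {T : endAlg x // IsNilpotent T} := fun x =>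
      haveI : Finite (endAlg x) := Subtype.finite
      Subtype.finite
    rw [Nat.card_congr e, Nat.card_sigma]
    push_cast
    rfl
  rw [hL, Finset.mul_sum, Finset.sum_congr rfl fun x _ => hloc x, Finset.sum_comm]
  refine Finset.sum_congr rfl fun N hN => ?_
  -- the fibers of `Trip` over the representations
  haveI : Finite (Trip Q F α (π N)) := by
    unfold Trip
    infer_instance
  haveI : Fintype (Trip Q F α (π N)) := Fintype.ofFinite _
  let e : Trip Q F α (π N) ≃
      (Σ x : Rp Q F α, {w : endAlg x × endAlg x // Dat F (π N) w.1 w.2}) :=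
    { toFun := fun w => ⟨w.1.2.1, ⟨(⟨w.1.1, w.2.2.1⟩, ⟨w.1.2.2, w.2.2.2.1⟩),
        (End_dat _ _ _ _).2 ⟨w.2.1, w.2.2⟩⟩⟩
      invFun := fun s => ⟨(s.2.1.1.1, s.1, s.2.1.2.1), (End_dat _ _ _ _).1 s.2.2⟩
      left_inv := fun w => rfl
      right_inv := fun s => rfl }
  haveI : ∀ x : Rp Q F α, Finite {w : endAlg x × endAlg x // Dat F (π N) w.1 w.2} := fun x =>
    haveI : Finite (endAlg x) := Subtype.finite
    Subtype.finite
  haveI : ∀ x : Rp Q F α, Fintype {w : endAlg x × endAlg x // Dat F (π N) w.1 w.2} := fun x =>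
    Fintype.ofFinite _
  rw [finsum_eq_sum_of_fintype]
  simp_rw [finsum_eq_sum_of_fintype]
  rw [← e.symm.sum_comp, Fintype.sum_sigma]
  rfl

end Pool.Agent.H27.KAC
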