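import Pool.Agent.H27.KAC.PI_Chart

/-!
Project KAC, part I.1, module PI_Fac: factorization of `π` over a finite extension `K` of degree `r` dividing `N`.

PROOF SKETCH.  `q = card F`, `r = finrank F K`, `N = r n`.  `s` = set of the monic irreducible factors of
`π.map (algebraMap F K)` (it is separable, so squarefree).  Each has degree `n`: let `π'` be a factor, `K' = K[X]/(π')`,
`θ'` the class of `X`.  All `z ∈ K'` satisfy `z^(q^N) = z` (`θ'` is a root of `π`, `r ∣ N`), so `card K' ≤ q^N`, so
`r * deg π' ≤ N`; and `F(θ')` has degree `N`, so `N ≤ r * deg π'`.  The sum of the degrees is `N = r n`, so `s.card = r`.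
If `v π(v) = 0`, `rank v = n`: let `W = range v`, of dimension `n` over `K`; `π(v) = 0` on `W`; since the product of the
`π'` is `π`, some `π'(v)` has a kernel `W' ≠ 0` on `W`, and `W'` is a vector space over `K[X]/(π')`, so of dimension at
least `n`: `W' = W`, so `π'(v) v = 0`.  (One can use `exists_chart` over `K`.)
-/

set_option autoImplicit false

namespace Pool.Agent.H27.KAC

open scoped BigOperators
open Polynomial

/-- all irreducible factors over `K` have degree `n` -/
private theorem Fac_degree {F : Type} [Field F] [Fintype F] {K : Type} [Field K] [Fintype K]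
    [Algebra F K] {π : F[X]} {N : ℕ} (hπ : GoodPi F π N) (n : ℕ)
    (hN : N = Module.finrank F K * n) {π' : K[X]} (hi : Irreducible π')
    (hd : π' ∣ π.map (algebraMap F K)) : π'.natDegree = n := by
  have hcard : Nat.card K = Nat.card F ^ Module.finrank F K := by
    rw [Nat.card_eq_fintype_card, Nat.card_eq_fintype_card]
    exact Module.card_eq_pow_finrank
  have hr : 0 < Module.finrank F K := Module.finrank_pos
  -- upper bound
  have h1 : π ∣ X ^ (Nat.card F) ^ N - X := by
    rw [← hπ.irr.natDegree_dvd_iff_dvd_X_pow_card_pow_sub_X, hπ.deg]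
  have h2 : π.map (algebraMap F K) ∣ X ^ (Nat.card K) ^ n - X := by
    have h3 := Polynomial.map_dvd (algebraMap F K) h1
    rw [Polynomial.map_sub, Polynomial.map_pow, Polynomial.map_X, hN, pow_mul, ← hcard] at h3
    exact h3
  have h3 : π'.natDegree ∣ n :=
    hi.natDegree_dvd_of_dvd_X_pow_card_pow_sub_X (hd.trans h2)
  -- lower bound
  have h4 : N ∣ Module.finrank F K * π'.natDegree := by
    rw [← hπ.deg, hπ.irr.natDegree_dvd_iff_dvd_X_pow_card_pow_sub_X]
    by_contra hcon
    have h5 : IsCoprime π (X ^ (Nat.card F) ^ (Module.finrank F K * π'.natDegree) - X) :=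
      hπ.irr.coprime_iff_not_dvd.2 hcon
    rw [← Polynomial.isCoprime_map (algebraMap F K), Polynomial.map_sub, Polynomial.map_pow,
      Polynomial.map_X, pow_mul, ← hcard] at h5
    have h6 : π' ∣ X ^ (Nat.card K) ^ π'.natDegree - X :=
      hi.natDegree_dvd_iff_dvd_X_pow_card_pow_sub_X.1 dvd_rfl
    exact hi.not_isUnit (h5.isUnit_of_dvd' hd h6)
  rw [hN] at h4
  have h7 : n ∣ π'.natDegree := Nat.dvd_of_mul_dvd_mul_left hr h4
  exact Nat.dvd_antisymm h3 h7

/-- polynomials in a restricted matrix -/
private theorem Fac_restrict {K : Type} [Field K] {m : ℕ} (v : Matrix (Fin m) (Fin m) K)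
    (W : Submodule K (Fin m → K)) (g : W →ₗ[K] W) (hg : ∀ w : W, ((g w : W) : Fin m → K) = v.mulVec w)
    (p : K[X]) : ∀ w : W, (((aeval g p) w : W) : Fin m → K) = (aeval v p).mulVec w := by
  induction p using Polynomial.induction_on with
  | C a =>
    intro w
    rw [aeval_C, aeval_C, Module.algebraMap_end_apply, Submodule.coe_smul,
      Algebra.algebraMap_eq_smul_one, Matrix.smul_mulVec, Matrix.one_mulVec]
  | add p q hp hq =>
    intro w
    rw [map_add, map_add, LinearMap.add_apply, Submodule.coe_add, hp, hq, Matrix.add_mulVec]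
  | monomial k a hk =>
    intro w
    have e1 : aeval g (C a * X ^ (k + 1)) = aeval g (C a * X ^ k) * g := by
      rw [pow_succ, ← mul_assoc, map_mul, aeval_X]
    have e2 : aeval v (C a * X ^ (k + 1)) = aeval v (C a * X ^ k) * v := by
      rw [pow_succ, ← mul_assoc, map_mul, aeval_X]
    rw [e1, e2, Module.End.mul_apply, hk, hg, Matrix.mulVec_mulVec]

/-- a matrix of rank `n` killed by `π` on its image is killed by one factor -/
private theorem Fac_rank {K : Type} [Field K] {m n : ℕ} (hn : 1 ≤ n) (v : Matrix (Fin m) (Fin m) K) (P : K[X])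
    (hP : ∀ π' : K[X], Irreducible π' → π' ∣ P → π'.natDegree = n) (hv : v * aeval v P = 0)
    (hr : v.rank = n) : ∃ π' : K[X], Irreducible π' ∧ π'.Monic ∧ π' ∣ P ∧ v * aeval v π' = 0 := by
  have hcomm : ∀ p : K[X], v * aeval v p = aeval v p * v := by
    intro p
    have h1 : aeval v (X * p) = aeval v (p * X) := by rw [mul_comm]
    rw [map_mul, map_mul, aeval_X] at h1
    exact h1
  set W : Submodule K (Fin m → K) := LinearMap.range v.mulVecLin with hW
  have hmem : ∀ x : Fin m → K, v.mulVec x ∈ W := fun x => ⟨x, rfl⟩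
  let g : W →ₗ[K] W := v.mulVecLin.restrict (fun w _ => hmem w)
  have hg : ∀ w : W, ((g w : W) : Fin m → K) = v.mulVec w := fun w => rfl
  have hgP : aeval g P = 0 := by
    ext1 w
    apply Subtype.ext
    rw [Fac_restrict v W g hg]
    obtain ⟨x, hx⟩ := w.2
    have hx' : (w : Fin m → K) = v.mulVec x := hx.symm
    rw [hx', Matrix.mulVec_mulVec, ← hcomm, hv, Matrix.zero_mulVec]
    rfl
  have hfin : Module.finrank K W = n := hr
  have : Nontrivial W := Module.nontrivial_of_finrank_pos (R := K) (by omega)
  have hint : IsIntegral K g := Algebra.IsIntegral.isIntegral g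
  have hmin : minpoly K g ∣ P := minpoly.dvd K g hgP
  have hdeg : (minpoly K g).natDegree ≤ n := by
    rw [← hfin, ← LinearMap.charpoly_natDegree g]
    exact Polynomial.natDegree_le_of_dvd (LinearMap.minpoly_dvd_charpoly g)
      (LinearMap.charpoly_monic g).ne_zero
  obtain ⟨π', hi, hd⟩ := WfDvdMonoid.exists_irreducible_factor (minpoly.not_isUnit K g)
    (minpoly.ne_zero hint)
  have hd' : π'.natDegree = n := hP π' hi (hd.trans hmin)
  have hass : minpoly K g ∣ π' := by
    obtain ⟨c, hc⟩ := hd
    have hc0 : c ≠ 0 := by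
      rintro rfl
      rw [mul_zero] at hc
      exact minpoly.ne_zero hint hc
    have h1 : (minpoly K g).natDegree = π'.natDegree + c.natDegree := by
      rw [hc, Polynomial.natDegree_mul hi.ne_zero hc0]
    have h2 : c.natDegree = 0 := by omega
    have h3 : IsUnit c := by
      rw [Polynomial.isUnit_iff_degree_eq_zero, Polynomial.degree_eq_natDegree hc0, h2]
      rfl
    obtain ⟨u, hu⟩ := h3
    refine ⟨(↑(u⁻¹) : K[X]), ?_⟩
    rw [hc, ← hu, mul_assoc, Units.mul_inv, mul_one]
  have hirr : Irreducible (minpoly K g) := (associated_of_dvd_dvd hd hass).irreducible hi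
  refine ⟨minpoly K g, hirr, minpoly.monic hint, hmin, ?_⟩
  rw [hcomm]
  refine Matrix.toLin'.injective (LinearMap.ext fun x => ?_)
  rw [Matrix.toLin'_apply, map_zero, LinearMap.zero_apply, ← Matrix.mulVec_mulVec]
  have h5 := Fac_restrict v W g hg (minpoly K g) ⟨v.mulVec x, hmem x⟩
  have h6 : aeval g (minpoly K g) = 0 := minpoly.aeval K g
  have h7 := LinearMap.congr_fun h6 ⟨v.mulVec x, hmem x⟩
  exact h5.symm.trans (congrArg Subtype.val h7)

theorem pi_exists_fac {F : Type} [Field F] [Fintype F] {K : Type} [Field K] [Fintype K]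
    [Algebra F K] {π : F[X]} {N : ℕ} (hπ : GoodPi F π N) (n : ℕ) (hn : 1 ≤ n)
    (hN : N = Module.finrank F K * n) :
    ∃ s : Finset K[X], s.card = Module.finrank F K ∧
      (∀ π' ∈ s, GoodPi K π' n ∧ π' ∣ π.map (algebraMap F K)) ∧
      ∀ (m : ℕ) (v : Matrix (Fin m) (Fin m) K), v * aeval v π = 0 → v.rank = n →
        ∃ π' ∈ s, v * aeval v π' = 0 := by
  classical
  have hM : (π.map (algebraMap F K)).Monic := hπ.monic.map _
  have h0 : π.map (algebraMap F K) ≠ 0 := hM.ne_zero
  have hsep : (π.map (algebraMap F K)).Separable :=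
    (PerfectField.separable_of_irreducible hπ.irr).map
  have hsq : Squarefree (π.map (algebraMap F K)) := hsep.squarefree
  have hnd : (UniqueFactorizationMonoid.normalizedFactors (π.map (algebraMap F K))).Nodup :=
    (UniqueFactorizationMonoid.squarefree_iff_nodup_normalizedFactors h0).1 hsq
  have hmem : ∀ π' : K[X], π' ∈ (UniqueFactorizationMonoid.normalizedFactors
      (π.map (algebraMap F K))).toFinset ↔
      Irreducible π' ∧ π'.Monic ∧ π' ∣ π.map (algebraMap F K) := by
    intro π'
    rw [Multiset.mem_toFinset, Polynomial.mem_normalizedFactors_iff h0]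
  refine ⟨(UniqueFactorizationMonoid.normalizedFactors (π.map (algebraMap F K))).toFinset,
    ?_, ?_, ?_⟩
  · have hprod : ∏ π' ∈ (UniqueFactorizationMonoid.normalizedFactors
        (π.map (algebraMap F K))).toFinset, π' = π.map (algebraMap F K) := by
      have h1 := Finset.prod_val (UniqueFactorizationMonoid.normalizedFactors
        (π.map (algebraMap F K))).toFinset
      rw [Multiset.toFinset_val, hnd.dedup, UniqueFactorizationMonoid.prod_normalizedFactors_eq h0,
        hM.normalize_eq_self] at h1
      exact h1.symm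
    have h1 := congrArg Polynomial.natDegree hprod
    rw [Polynomial.natDegree_prod_of_monic _ _ (fun π' hπ' => ((hmem π').1 hπ').2.1),
      hπ.monic.natDegree_map, hπ.deg, Finset.sum_congr rfl (fun π' hπ' =>
        Fac_degree hπ n hN ((hmem π').1 hπ').1 ((hmem π').1 hπ').2.2), Finset.sum_const,
      smul_eq_mul, hN] at h1
    exact Nat.eq_of_mul_eq_mul_right (by omega) h1
  · intro π' hπ'
    obtain ⟨h1, h2, h3⟩ := (hmem π').1 hπ'
    refine ⟨⟨h1, h2, Fac_degree hπ n hN h1 h3, ?_⟩, h3⟩
    intro hc
    have h4 : X ∣ π' := Polynomial.X_dvd_iff.2 hc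
    have h5 := Polynomial.X_dvd_iff.1 (h4.trans h3)
    rw [Polynomial.coeff_map] at h5
    exact hπ.zero ((map_eq_zero (algebraMap F K)).1 h5)
  · intro m v hv hr
    have hv' : v * aeval v (π.map (algebraMap F K)) = 0 := by
      rw [Polynomial.aeval_map_algebraMap]
      exact hv
    obtain ⟨π', h1, h2, h3, h4⟩ := Fac_rank hn v (π.map (algebraMap F K))
      (fun π' hi hd => Fac_degree hπ n hN hi hd) hv' hr
    exact ⟨π', (hmem π').2 ⟨h1, h2, h3⟩, h4⟩

end Pool.Agent.H27.KAC
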