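import Pool.Agent.H27.KAC.PI_Cent

/-!
Project KAC, part I.1, module PI_Fib: number of the lifts of a pair `(v', T')` modulo a nil ideal.

PROOF SKETCH.  `q = card F`, characteristic `p`, `m = q^(N * M)` with `M` large (`M = Nat.card R` is enough:
`x^m = 0` for each nilpotent `x` of `R` or `S`, since `m ≥ M ≥` nilpotency index).  `P = X * π`.
The map `(v, T) ↦ v + T` is a bijection of the set of the left hand side with `{u : R // p u = v' + T'}`
(a coset of the kernel).  Inverse: `v = u^m`, `T = u - v`.  Indeed `P(v' + T')` is nilpotent (`T'` is nilpotent, commutes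
with `v'` and `P(v') = 0`), so `P(u)` is nilpotent (the kernel is nil), so `P(v) = P(u^m) = P(u)^m = 0` (the coefficients
are in `F_q`: `Polynomial.expand_card`, `aeval u (f^q) = aeval (u^q) f`), so `v^m = v` (`pow_eq_self_of_sol`) and
`(u - v)^m = u^m - v^m = v - v = 0`; `p v = (v' + T')^m = v'^m + T'^m = v'`; `AIc` by `aic_map_iff`.
For `(v, T)` with `Dat`: `(v + T)^m = v^m + T^m = v`.
-/

set_option autoImplicit false

namespace Pool.Agent.H27.KAC

open scoped BigOperators
open Polynomial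

private theorem Fib_deg {F : Type} [Field F] {π : F[X]} {N : ℕ} (hπ : GoodPi F π N) : 1 ≤ N := by
  have h := hπ.irr.natDegree_pos
  rw [hπ.deg] at h
  exact h

theorem dat_map {F : Type} [Field F] [Fintype F] {R S : Type} [Ring R] [Algebra F R]
    [Ring S] [Algebra F S] (p : R →ₐ[F] S) (hp : Function.Surjective p)
    (hk : ∀ x, p x = 0 → IsNilpotent x) {π : F[X]} {N : ℕ} (hπ : GoodPi F π N) {v T : R}
    (h : Dat F π v T) : Dat F π (p v) (p T) := by
  obtain ⟨⟨h1, h2, h3⟩, h4⟩ := h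
  refine ⟨⟨?_, h2.map p, ?_⟩, ?_⟩
  · rw [Polynomial.aeval_algHom_apply, ← map_mul, h1, map_zero]
  · rw [← map_mul, ← map_mul, h3]
  · exact (aic_map_iff p hp hk (Fib_deg hπ) v (pow_eq_self_of_sol hπ v h1)).2 h4

private theorem Fib_add_pow {F : Type} [Field F] [Fintype F] {R : Type} [Ring R] [Algebra F R]
    {x y : R} (h : Commute x y) (k : ℕ) :
    (x + y) ^ (Fintype.card F ^ k) = x ^ (Fintype.card F ^ k) + y ^ (Fintype.card F ^ k) := by
  obtain ⟨p, hp⟩ := CharP.exists F
  obtain ⟨n, hpp, hcard⟩ := FiniteField.card F p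
  have hp0 : (p : R) = 0 := by
    have h1 : algebraMap F R (p : F) = (p : R) := map_natCast (algebraMap F R) p
    rw [← h1, CharP.cast_eq_zero, map_zero]
  rw [hcard, ← pow_mul, h.add_pow_prime_pow_eq hpp, hp0, zero_mul, zero_mul, zero_mul, add_zero]

private theorem Fib_sub_pow {F : Type} [Field F] [Fintype F] {R : Type} [Ring R] [Algebra F R]
    {x y : R} (h : Commute x y) (k : ℕ) :
    (x - y) ^ (Fintype.card F ^ k) = x ^ (Fintype.card F ^ k) - y ^ (Fintype.card F ^ k) := by
  have h1 : Commute (x - y) y := (h.sub_left (Commute.refl y))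
  have h2 := Fib_add_pow (F := F) h1 k
  rw [sub_add_cancel] at h2
  rw [h2, add_sub_cancel_right]

private theorem Fib_aeval_pow {F : Type} [Field F] [Fintype F] {R : Type} [Ring R] [Algebra F R]
    (u : R) (f : F[X]) (k : ℕ) :
    aeval (u ^ (Fintype.card F ^ k)) f = (aeval u f) ^ (Fintype.card F ^ k) := by
  induction k with
  | zero => simp
  | succ k ih =>
    rw [pow_succ, pow_mul, ← Polynomial.expand_aeval, FiniteField.expand_card, map_pow, ih, ← pow_mul]

private theorem Fib_iter {R : Type} [Ring R] {v : R} {a : ℕ} (h : v ^ a = v) (M : ℕ) : v ^ (a ^ M) = v := by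
  induction M with
  | zero => simp
  | succ M ih => rw [pow_succ, pow_mul, ih, h]

private theorem Fib_bound (R : Type) [Ring R] [Finite R] :
    ∃ K : ℕ, ∀ x : R, IsNilpotent x → ∀ k, K ≤ k → x ^ k = 0 := by
  classical
  haveI := Fintype.ofFinite R
  refine ⟨∑ x : R, nilpotencyClass x, fun x hx k hk => ?_⟩
  have h1 : nilpotencyClass x ≤ k :=
    (Finset.single_le_sum (f := fun x : R => nilpotencyClass x) (fun _ _ => Nat.zero_le _)
      (Finset.mem_univ x)).trans hk
  exact pow_eq_zero_of_le h1 (pow_nilpotencyClass hx)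

theorem fiber_card {F : Type} [Field F] [Fintype F] {R S : Type} [Ring R] [Algebra F R] [Finite R]
    [Ring S] [Algebra F S] (p : R →ₐ[F] S) (hp : Function.Surjective p)
    (hk : ∀ x, p x = 0 → IsNilpotent x) {π : F[X]} {N : ℕ} (hπ : GoodPi F π N) (v' T' : S)
    (h : Dat F π v' T') :
    Nat.card {w : R × R // Dat F π w.1 w.2 ∧ p w.1 = v' ∧ p w.2 = T'} =
      Nat.card {x : R // p x = 0} := by
  have : Finite S := Finite.of_surjective p hp
  obtain ⟨K1, hK1⟩ := Fib_bound R
  obtain ⟨K2, hK2⟩ := Fib_bound S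
  have hN := Fib_deg hπ
  set M : ℕ := K1 + K2 with hM
  set m : ℕ := Fintype.card F ^ (N * M) with hm
  have hq : 2 ≤ Fintype.card F := Fintype.one_lt_card
  have hmM : M ≤ m := by
    have h1 : M < 2 ^ M := Nat.lt_two_pow_self
    have h2 : 2 ^ M ≤ Fintype.card F ^ M := Nat.pow_le_pow_left hq M
    have h3 : Fintype.card F ^ M ≤ Fintype.card F ^ (N * M) :=
      Nat.pow_le_pow_right (by omega) (Nat.le_mul_of_pos_left M (by omega))
    omega
  have hmR : ∀ x : R, IsNilpotent x → x ^ m = 0 := fun x hx => hK1 x hx m (by omega)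
  have hmS : ∀ x : S, IsNilpotent x → x ^ m = 0 := fun x hx => hK2 x hx m (by omega)
  have hsolR : ∀ v : R, v * aeval v π = 0 → v ^ m = v := by
    intro v hv
    rw [hm, pow_mul]
    exact Fib_iter (pow_eq_self_of_sol hπ v hv) M
  have hsolS : ∀ v : S, v * aeval v π = 0 → v ^ m = v := by
    intro v hv
    rw [hm, pow_mul]
    exact Fib_iter (pow_eq_self_of_sol hπ v hv) M
  obtain ⟨⟨hv', hT', hc'⟩, hA'⟩ := h
  have hpow' : (v' + T') ^ m = v' := by
    have hcomm : Commute v' T' := hc'.symm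
    rw [hm, Fib_add_pow (F := F) hcomm, ← hm, hsolS v' hv', hmS T' hT', add_zero]
  -- the inverse map
  have hinv : ∀ u : R, p u = v' + T' → Dat F π (u ^ m) (u - u ^ m) ∧ p (u ^ m) = v' ∧
      p (u - u ^ m) = T' := by
    intro u hu
    have hpu : p (u ^ m) = v' := by rw [map_pow, hu, hpow']
    have hP : (aeval u (X * π)) ^ m = 0 := by
      have h1 : (aeval (p u) (X * π)) ^ m = 0 := by
        rw [hm, ← Fib_aeval_pow, ← hm, hu, hpow', map_mul, aeval_X, hv']
      have h2 : p ((aeval u (X * π)) ^ m) = 0 := by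
        rw [map_pow, ← Polynomial.aeval_algHom_apply, h1]
      have h3 : IsNilpotent (aeval u (X * π)) := by
        obtain ⟨k, hk'⟩ := hk _ h2
        exact ⟨m * k, by rw [pow_mul, hk']⟩
      exact hmR _ h3
    have hv : (u ^ m) * aeval (u ^ m) π = 0 := by
      have h1 : aeval (u ^ m) (X * π) = 0 := by
        rw [hm, Fib_aeval_pow, ← hm, hP]
      rw [map_mul, aeval_X] at h1
      exact h1
    have hcomm : Commute u (u ^ m) := (Commute.refl u).pow_right m
    have hT : IsNilpotent (u - u ^ m) := by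
      refine ⟨m, ?_⟩
      have h1 : (u - u ^ m) ^ m = u ^ m - (u ^ m) ^ m := by
        rw [hm, Fib_sub_pow (F := F)]
        rw [← hm]
        exact hcomm
      rw [h1, hsolR (u ^ m) hv, sub_self]
    refine ⟨⟨⟨hv, hT, ?_⟩, ?_⟩, hpu, ?_⟩
    · exact (hcomm.sub_left (Commute.refl (u ^ m))).eq
    · refine (aic_map_iff p hp hk hN (u ^ m) (pow_eq_self_of_sol hπ (u ^ m) hv)).1 ?_
      rw [hpu]
      exact hA'
    · rw [map_sub, hpu, hu, add_sub_cancel_left]
  obtain ⟨u0, hu0⟩ := hp (v' + T')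
  refine Nat.card_congr
    { toFun := fun w => ⟨w.1.1 + w.1.2 - u0, by
        rw [map_sub, map_add, w.2.2.1, w.2.2.2, hu0, sub_self]⟩
      invFun := fun x => ⟨((x.1 + u0) ^ m, (x.1 + u0) - (x.1 + u0) ^ m), by
        exact hinv (x.1 + u0) (by rw [map_add, x.2, hu0, zero_add])⟩
      left_inv := ?_
      right_inv := ?_ }
  · rintro ⟨⟨v, T⟩, ⟨⟨⟨hv, hT, hc⟩, hA⟩, hpv, hpT⟩⟩
    apply Subtype.ext
    change ((v + T - u0 + u0) ^ m, (v + T - u0 + u0) - (v + T - u0 + u0) ^ m) = (v, T)
    have hcomm : Commute v T := hc.symm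
    have h1 : (v + T) ^ m = v := by
      rw [hm, Fib_add_pow (F := F) hcomm, ← hm, hsolR v hv, hmR T hT, add_zero]
    rw [sub_add_cancel, h1, add_sub_cancel_left]
  · rintro ⟨x, hx⟩
    apply Subtype.ext
    change (x + u0) ^ m + ((x + u0) - (x + u0) ^ m) - u0 = x
    abel

end Pool.Agent.H27.KAC
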