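import Pool.Agent.H27.KAC.PI_Def

/-!
Project KAC, part I.1, module PI_Idem: idempotent matrices are diagonalizable.
-/

set_option autoImplicit false

namespace Pool.Agent.H27.KAC

open scoped BigOperators
open Polynomial

theorem idem_conj {K : Type} [Field K] {m : ℕ} (e : Matrix (Fin m) (Fin m) K) (he : e * e = e) :
    ∃ g : (Matrix (Fin m) (Fin m) K)ˣ,
      (g : Matrix (Fin m) (Fin m) K) * e * ((g⁻¹ : (Matrix (Fin m) (Fin m) K)ˣ) :
        Matrix (Fin m) (Fin m) K) =
      Matrix.diagonal (fun i : Fin m => if (i : ℕ) < e.rank then (1 : K) else 0) := by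
  classical
  set T : (Fin m → K) →ₗ[K] (Fin m → K) := Matrix.toLin' e with hT
  have hTT : ∀ x, T (T x) = T x := by
    intro x
    rw [hT, Matrix.toLin'_apply, Matrix.toLin'_apply, Matrix.mulVec_mulVec, he]
  have hproj : LinearMap.IsProj (LinearMap.range T) T := by
    refine ⟨fun x => ⟨x, rfl⟩, ?_⟩
    rintro x ⟨y, rfl⟩
    exact hTT y
  have hC : IsCompl (LinearMap.range T) (LinearMap.ker T) := hproj.isCompl
  set r := e.rank with hr
  have hfr : Module.finrank K (LinearMap.range T) = r := by
    rw [hr, Matrix.rank_eq_finrank_range_toLin e (Pi.basisFun K (Fin m)) (Pi.basisFun K (Fin m)),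
      Matrix.toLin_eq_toLin', hT]
  have hfk : Module.finrank K (LinearMap.ker T) = m - r := by
    have h := LinearMap.finrank_range_add_finrank_ker T
    rw [hfr, Module.finrank_fin_fun] at h
    omega
  have hrm : r ≤ m := by
    have h := LinearMap.finrank_range_add_finrank_ker T
    rw [hfr, Module.finrank_fin_fun] at h
    omega
  set br := Module.finBasisOfFinrankEq K (LinearMap.range T) hfr with hbr
  set bk := Module.finBasisOfFinrankEq K (LinearMap.ker T) hfk with hbk
  set E : Fin r ⊕ Fin (m - r) ≃ Fin m := finSumFinEquiv.trans (finCongr (by omega)) with hE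
  set B : Module.Basis (Fin m) K (Fin m → K) :=
    ((br.prod bk).map (Submodule.prodEquivOfIsCompl _ _ hC)).reindex E with hB
  have hBT : ∀ i : Fin m, T (B i) = if (i : ℕ) < r then B i else 0 := by
    intro i
    obtain ⟨s, rfl⟩ := E.surjective i
    rcases s with s | s
    · have h1 : ((E (Sum.inl s) : Fin m) : ℕ) < r := by
        simp [hE, finSumFinEquiv]
      rw [if_pos h1]
      have h2 : B (E (Sum.inl s)) = (br s : Fin m → K) := by
        rw [hB, Module.Basis.reindex_apply, Equiv.symm_apply_apply, Module.Basis.map_apply,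
          Submodule.coe_prodEquivOfIsCompl']
        simp
      rw [h2]
      obtain ⟨y, hy⟩ := (br s).2
      rw [← hy]
      exact hTT y
    · have h1 : ¬ ((E (Sum.inr s) : Fin m) : ℕ) < r := by
        simp [hE, finSumFinEquiv]
      rw [if_neg h1]
      have h2 : B (E (Sum.inr s)) = (bk s : Fin m → K) := by
        rw [hB, Module.Basis.reindex_apply, Equiv.symm_apply_apply, Module.Basis.map_apply,
          Submodule.coe_prodEquivOfIsCompl']
        simp
      rw [h2]
      exact (bk s).2
  have hmat : LinearMap.toMatrix B B T =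
      Matrix.diagonal (fun i : Fin m => if (i : ℕ) < r then (1 : K) else 0) := by
    ext i j
    rw [LinearMap.toMatrix_apply, hBT, Matrix.diagonal_apply]
    by_cases hj : (j : ℕ) < r
    · rw [if_pos hj, Module.Basis.repr_self, Finsupp.single_apply]
      by_cases hij : i = j
      · subst hij
        simp [hj]
      · rw [if_neg (fun h => hij h.symm), if_neg hij]
    · rw [if_neg hj, map_zero, Finsupp.zero_apply]
      by_cases hij : i = j
      · subst hij
        simp [hj]
      · rw [if_neg hij]
  set S := Pi.basisFun K (Fin m) with hS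
  refine ⟨⟨B.toMatrix S, S.toMatrix B, Module.Basis.toMatrix_mul_toMatrix_flip _ _,
    Module.Basis.toMatrix_mul_toMatrix_flip _ _⟩, ?_⟩
  have h := basis_toMatrix_mul_linearMap_toMatrix_mul_basis_toMatrix B S B S T
  have hTe : LinearMap.toMatrix S S T = e := by
    rw [hS, LinearMap.toMatrix_eq_toMatrix', hT, LinearMap.toMatrix'_toLin']
  rw [hTe, hmat] at h
  exact h

end Pool.Agent.H27.KAC
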