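import Pool.Agent.H27.KAC.PI_Loc1

/-!
Project KAC, part I.1, module PI_Loc: the condition `AIc` in a product of matrix algebras.

PROOF SKETCH.  Suppose `AIc F v` and `v j ≠ 0`, `v k ≠ 0`, `j ≠ k`.  Take `c = Pi.single j 1` (central):
there is `f` with `v j (1 - f(v j))` and `v k f(v k)` nilpotent.  These are polynomials `g(v j)`, `h(v k)` with zero constant
term.  Since `v j` is a root of `X π`, `X π` is squarefree and `π` irreducible:
`v j (1 - f(v j))` nilpotent and `v j ≠ 0` imply `π ∣ 1 - f` (otherwise `f - 1` would be invertible modulo `π`, and `v j` would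
be nilpotent, so zero, as `v^(q^N) = v`, or use `v j * aeval (v j) π = 0`); in the same way `π ∣ f`, contradiction.
So only one component is not zero and then use `aic_matrix_iff` (`AIc` for `v` supported on `j` is equivalent to `AIc` for
`v j`).
-/

set_option autoImplicit false

namespace Pool.Agent.H27.KAC

open scoped BigOperators
open Polynomial

theorem PI_Loc_zero {F : Type} [Field F] {R : Type} [Ring R] [Algebra F R] {π g : F[X]} {N : ℕ}
    (hπ : GoodPi F π N) {w : R} (hw : w * aeval w π = 0) (hg : ¬ π ∣ g)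
    (hn : IsNilpotent (w * aeval w g)) : w = 0 := by
  have hnil : IsNilpotent w := by
    have hcop : IsCoprime π g := (hπ.irr.coprime_iff_not_dvd).2 hg
    obtain ⟨a, b, hab⟩ := hcop
    have h1 : w = aeval w b * (w * aeval w g) := by
      have h2 : aeval w (X * (a * π + b * g)) = w := by rw [hab, mul_one, aeval_X]
      have h3 : X * (a * π + b * g) = a * (X * π) + b * (X * g) := by ring
      rw [h3, map_add, map_mul, map_mul, map_mul, map_mul, aeval_X, hw, mul_zero, zero_add] at h2
      exact h2.symm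
    have hcomm : Commute (aeval w b) (w * aeval w g) := by
      have h4 : w * aeval w g = aeval w (X * g) := by rw [map_mul, aeval_X]
      rw [h4]
      show aeval w b * aeval w (X * g) = aeval w (X * g) * aeval w b
      rw [← map_mul, ← map_mul, mul_comm]
    rw [h1]
    exact hcomm.isNilpotent_mul_left hn
  obtain ⟨k, hk⟩ := hnil
  have hX : ¬ π ∣ (X : F[X]) := by
    intro hd
    have h5 : Irreducible (X : F[X]) := irreducible_X
    obtain ⟨u, hu⟩ := hd
    have h6 : IsUnit u := (h5.isUnit_or_isUnit hu).resolve_left hπ.irr.not_isUnit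
    have h7 : π.coeff 0 * u.coeff 0 = 0 := by
      rw [← mul_coeff_zero, ← hu, coeff_X_zero]
    have h8 : u.coeff 0 = 0 := (mul_eq_zero.1 h7).resolve_left hπ.zero
    obtain ⟨r, hr, hru⟩ := Polynomial.isUnit_iff.1 h6
    rw [← hru, coeff_C_zero] at h8
    rw [h8] at hr
    exact not_isUnit_zero hr
  have hcop : IsCoprime π (X ^ k : F[X]) := ((hπ.irr.coprime_iff_not_dvd).2 hX).pow_right
  obtain ⟨a, b, hab⟩ := hcop
  have h2 : aeval w (X * (a * π + b * X ^ k)) = w := by rw [hab, mul_one, aeval_X]
  have h3 : X * (a * π + b * X ^ k) = a * (X * π) + (X * b) * X ^ k := by ring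
  rw [h3, map_add, map_mul, map_mul, map_mul, map_pow, aeval_X, hw, mul_zero, zero_add, hk, mul_zero] at h2
  exact h2.symm

theorem PI_Loc_eval {F : Type} [Field F] {n : ℕ} {R : Fin n → Type} [∀ j, Ring (R j)]
    [∀ j, Algebra F (R j)] (v : ∀ j, R j) (f : F[X]) (j : Fin n) : (aeval v f) j = aeval (v j) f :=
  (Polynomial.aeval_algHom_apply (Pi.evalAlgHom F R j) v f).symm

theorem PI_Loc_nil {n : ℕ} {R : Fin n → Type} [∀ j, Ring (R j)] {x : ∀ j, R j} (h : IsNilpotent x)
    (j : Fin n) : IsNilpotent (x j) := by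
  obtain ⟨k, hk⟩ := h
  exact ⟨k, congrFun hk j⟩

theorem PI_Loc_supp {F : Type} [Field F] {n : ℕ} {R : Fin n → Type} [∀ j, Ring (R j)]
    [∀ j, Algebra F (R j)] (v : ∀ j, R j) (j : Fin n) (hj : ∀ k, k ≠ j → v k = 0) :
    AIc F v ↔ AIc F (v j) := by
  constructor
  · intro h c hc
    obtain ⟨f, hf⟩ := h (Pi.single j c) (by
      funext k
      rw [Pi.mul_apply, Pi.mul_apply]
      by_cases hk : k = j
      · subst hk
        rw [Pi.single_eq_same]
        exact hc
      · rw [hj k hk, mul_zero, zero_mul])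
    refine ⟨f, ?_⟩
    have h1 := PI_Loc_nil hf j
    rw [Pi.mul_apply, Pi.sub_apply, Pi.single_eq_same, PI_Loc_eval] at h1
    exact h1
  · intro h c hc
    obtain ⟨f, k, hk⟩ := h (c j) (congrFun hc j)
    refine ⟨f, k + 1, ?_⟩
    funext i
    rw [Pi.pow_apply, Pi.mul_apply, Pi.sub_apply, PI_Loc_eval, Pi.zero_apply]
    by_cases hi : i = j
    · subst hi
      rw [pow_succ, hk, zero_mul]
    · rw [hj i hi, zero_mul, zero_pow (Nat.succ_ne_zero k)]

theorem aic_pi_iff {F : Type} [Field F] [Fintype F] {n : ℕ} {m : Fin n → ℕ} {K : Fin n → Type}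
    [∀ j, Field (K j)] [∀ j, Fintype (K j)] [∀ j, Algebra F (K j)] {π : F[X]} {N : ℕ}
    (hπ : GoodPi F π N) (v : ∀ j, Matrix (Fin (m j)) (Fin (m j)) (K j))
    (hv : v * aeval v π = 0) (hv0 : v ≠ 0) :
    AIc F v ↔ ∃ j, (∀ k, k ≠ j → v k = 0) ∧ Module.finrank F (K j) * (v j).rank = N := by
  have hvj : ∀ j, v j * aeval (v j) π = 0 := by
    intro j
    have h1 := congrFun hv j
    rw [Pi.mul_apply, PI_Loc_eval] at h1
    exact h1
  constructor
  · intro h
    obtain ⟨j, hj⟩ := Function.ne_iff.1 hv0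
    rw [Pi.zero_apply] at hj
    have hsupp : ∀ k, k ≠ j → v k = 0 := by
      intro k hkj
      by_contra hk
      obtain ⟨f, hf⟩ := h (Pi.single j 1) (by
        funext i
        rw [Pi.mul_apply, Pi.mul_apply]
        by_cases hi : i = j
        · subst hi
          rw [Pi.single_eq_same, one_mul, mul_one]
        · rw [Pi.single_eq_of_ne hi, mul_zero, zero_mul])
      have h1 : π ∣ 1 - f := by
        by_contra hd
        refine hj (PI_Loc_zero hπ (hvj j) hd ?_)
        have h2 := PI_Loc_nil hf j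
        rw [Pi.mul_apply, Pi.sub_apply, Pi.single_eq_same, PI_Loc_eval] at h2
        rw [map_sub, map_one]
        exact h2
      have h3 : π ∣ -f := by
        by_contra hd
        refine hk (PI_Loc_zero hπ (hvj k) hd ?_)
        have h2 := PI_Loc_nil hf k
        rw [Pi.mul_apply, Pi.sub_apply, Pi.single_eq_of_ne hkj, PI_Loc_eval, zero_sub] at h2
        rw [map_neg]
        exact h2
      have h4 : π ∣ 1 := by
        have h5 := dvd_sub h1 h3
        have h6 : 1 - f - -f = 1 := by ring
        rwa [h6] at h5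
      exact hπ.irr.not_isUnit (isUnit_of_dvd_one h4)
    exact ⟨j, hsupp, (aic_matrix_iff hπ (v j) (hvj j) hj).1 ((PI_Loc_supp v j hsupp).1 h)⟩
  · rintro ⟨j, hsupp, hr⟩
    have hj : v j ≠ 0 := by
      intro h0
      refine hv0 (funext fun k => ?_)
      by_cases hk : k = j
      · subst hk
        exact h0
      · exact hsupp k hk
    exact (PI_Loc_supp v j hsupp).2 ((aic_matrix_iff hπ (v j) (hvj j) hj).2 hr)

end Pool.Agent.H27.KAC
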