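import Pool.Agent.H27.KAC.PI_Idem

/-!
Project KAC, part I.1, module PI_Rank: the rank of `ρ v` is a combination of the ranks of the components of `p v`.

PROOF SKETCH.  `S = ∏ Mat_(m_j)(K_j)`, `p : R → S` surjective with nil kernel.
(1) units lift: if `p g` is a unit of `S` then `g` is a unit of `R`.
(2) two idempotents `e, e'` of `R` with `p e = p e'` are conjugate in `R`: `g = e' e + (1 - e') (1 - e)` has `p g = 1`,
so it is a unit, and `g e = e' e = e' g`.  So `rank (ρ e) = rank (ρ e')`.  With (1): the same if `p e` and `p e'` are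
conjugate in `S`.
(3) the diagonal matrix units `E_(j,a)` of `S` are complete orthogonal idempotents; lift them to complete orthogonal
idempotents `ε_(j,a)` of `R` (`CompleteOrthogonalIdempotents.lift_of_isNilpotent_ker`, or
`OrthogonalIdempotents.lift_of_isNilpotent_ker`).  `d j = rank (ρ ε_(j,0))` (zero if `m j = 0`); `E_(j,a)` and `E_(j,b)`
are conjugate, so `d j = rank (ρ ε_(j,a))` for all `a`.
(4) `v` with `v^(q^N) = v` (`q^N ≥ 2`): `e = v^(q^N - 1)` is an idempotent, `e v = v`, so `rank (ρ e) = rank (ρ v)` and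
`rank (p e)_j = rank (p v)_j`.
(5) for an idempotent `e`: by `idem_conj` `p e` is conjugate to the sum of the `E_(j,a)`, `a < rank (p e)_j`, so
`rank (ρ e) = rank (ρ e')`, `e' = ∑_j ∑_(a < rank (p e)_j) ε_(j,a)`; the rank of a sum of orthogonal idempotent matrices
is the sum of the ranks.
-/

set_option autoImplicit false

namespace Pool.Agent.H27.KAC

open scoped BigOperators
open Polynomial

private theorem Rank_isUnit {F R S : Type} [Field F] [Ring R] [Ring S] [Algebra F R] [Algebra F S]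
    (p : R →ₐ[F] S)
    (hk : ∀ x, p x = 0 → IsNilpotent x) {g : R} (h : p g = 1) : IsUnit g := by
  have h1 : IsNilpotent (g - 1) := hk _ (by rw [map_sub, h, map_one, sub_self])
  have h2 := h1.isUnit_one_add
  rwa [add_sub_cancel] at h2

private theorem Rank_units {M : Type} [Monoid M] (a b : Mˣ) :
    ((a⁻¹ : Mˣ) : M) * (b : M) * (((b⁻¹ : Mˣ) : M) * (a : M)) = 1 := by
  rw [mul_assoc, ← mul_assoc (b : M), Units.mul_inv, one_mul, Units.inv_mul]

private theorem Rank_lift {F R S : Type} [Field F] [Ring R] [Ring S] [Algebra F R] [Algebra F S]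
    (p : R →ₐ[F] S)
    (hp : Function.Surjective p) (hk : ∀ x, p x = 0 → IsNilpotent x) {e e' : R} (he : e * e = e)
    (he' : e' * e' = e') (U V : S) (hUV : U * V = 1) (hVU : V * U = 1) (h : U * p e * V = p e') :
    ∃ k k' : R, e' = k * e * k' := by
  obtain ⟨g, hg⟩ := hp U
  obtain ⟨g', hg'⟩ := hp V
  have hu : IsUnit g := by
    rw [isUnit_iff_exists_and_exists]
    constructor
    · have h1 : IsUnit (g * g') := Rank_isUnit p hk (by rw [map_mul, hg, hg', hUV])
      obtain ⟨w, hw⟩ := h1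
      refine ⟨g' * ((w⁻¹ : Rˣ) : R), ?_⟩
      rw [← mul_assoc, ← hw, Units.mul_inv]
    · have h1 : IsUnit (g' * g) := Rank_isUnit p hk (by rw [map_mul, hg, hg', hVU])
      obtain ⟨w, hw⟩ := h1
      refine ⟨((w⁻¹ : Rˣ) : R) * g', ?_⟩
      rw [mul_assoc, ← hw, Units.inv_mul]
  obtain ⟨u, rfl⟩ := hu
  have hV : p ((u⁻¹ : Rˣ) : R) = V := by
    have h1 : U * p ((u⁻¹ : Rˣ) : R) = 1 := by rw [← hg, ← map_mul, Units.mul_inv, map_one]
    calc p ((u⁻¹ : Rˣ) : R) = (V * U) * p ((u⁻¹ : Rˣ) : R) := by rw [hVU, one_mul]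
      _ = V := by rw [mul_assoc, h1, mul_one]
  obtain ⟨e1, he1def⟩ : ∃ e1 : R, e1 = (u : R) * e * ((u⁻¹ : Rˣ) : R) := ⟨_, rfl⟩
  have hp1 : p e1 = p e' := by
    rw [he1def, map_mul, map_mul, hg, hV, h]
  have he1 : e1 * e1 = e1 := by
    calc e1 * e1 = (u : R) * e * (((u⁻¹ : Rˣ) : R) * (u : R)) * e * ((u⁻¹ : Rˣ) : R) := by
          rw [he1def]; simp only [mul_assoc]
      _ = (u : R) * (e * e) * ((u⁻¹ : Rˣ) : R) := by
          rw [Units.inv_mul, mul_one]; simp only [mul_assoc]
      _ = e1 := by rw [he, he1def]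
  obtain ⟨G, hGdef⟩ : ∃ G : R, G = e' * e1 + (1 - e') * (1 - e1) := ⟨_, rfl⟩
  have hpe : p e' * p e' = p e' := by rw [← map_mul, he']
  have hG : p G = 1 := by
    rw [hGdef, map_add, map_mul, map_mul, map_sub, map_sub, map_one, hp1]
    have : (1 - p e') * (1 - p e') = 1 - p e' - p e' + p e' * p e' := by noncomm_ring
    rw [this, hpe]
    abel
  obtain ⟨w, hw⟩ := Rank_isUnit p hk hG
  have h1 : G * e1 = e' * e1 := by
    have : G * e1 = e' * (e1 * e1) + (1 - e') * (e1 - e1 * e1) := by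
      rw [hGdef]; noncomm_ring
    rw [this, he1, sub_self, mul_zero, add_zero]
  have h2 : e' * G = e' * e1 := by
    have : e' * G = (e' * e') * e1 + (e' - e' * e') * (1 - e1) := by
      rw [hGdef]; noncomm_ring
    rw [this, he', sub_self, zero_mul, add_zero]
  refine ⟨(w : R) * (u : R), ((u⁻¹ : Rˣ) : R) * ((w⁻¹ : Rˣ) : R), ?_⟩
  calc e' = e' * (G * ((w⁻¹ : Rˣ) : R)) := by rw [← hw, Units.mul_inv, mul_one]
    _ = (G * e1) * ((w⁻¹ : Rˣ) : R) := by rw [← mul_assoc, h2, h1]
    _ = (w : R) * (u : R) * e * (((u⁻¹ : Rˣ) : R) * ((w⁻¹ : Rˣ) : R)) := by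
        rw [← hw, he1def]; simp only [mul_assoc]

private theorem Rank_conjS {n : ℕ} {m : Fin n → ℕ} {K : Fin n → Type} [∀ j, Field (K j)]
    (x y : ∀ j, Matrix (Fin (m j)) (Fin (m j)) (K j)) (hx : x * x = x) (hy : y * y = y)
    (h : ∀ j, (x j).rank = (y j).rank) :
    ∃ U V : (∀ j, Matrix (Fin (m j)) (Fin (m j)) (K j)), U * V = 1 ∧ V * U = 1 ∧ U * x * V = y := by
  choose g hg using fun j => idem_conj (x j) (congrFun hx j)
  choose k hk using fun j => idem_conj (y j) (congrFun hy j)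
  refine ⟨fun j => (((k j)⁻¹ : (Matrix (Fin (m j)) (Fin (m j)) (K j))ˣ) : Matrix _ _ _) *
    ((g j : (Matrix (Fin (m j)) (Fin (m j)) (K j))ˣ) : Matrix _ _ _),
    fun j => (((g j)⁻¹ : (Matrix (Fin (m j)) (Fin (m j)) (K j))ˣ) : Matrix _ _ _) *
    ((k j : (Matrix (Fin (m j)) (Fin (m j)) (K j))ˣ) : Matrix _ _ _), ?_, ?_, ?_⟩
  · funext j
    exact Rank_units (k j) (g j)
  · funext j
    exact Rank_units (g j) (k j)
  · funext j
    rw [Pi.mul_apply, Pi.mul_apply]
    have h1 := hg j
    have h2 := hk j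
    rw [h j, ← h2] at h1
    calc (((k j)⁻¹ : (Matrix (Fin (m j)) (Fin (m j)) (K j))ˣ) : Matrix _ _ _) * (g j : Matrix _ _ _) *
          x j * ((((g j)⁻¹ : (Matrix (Fin (m j)) (Fin (m j)) (K j))ˣ) : Matrix _ _ _) *
            (k j : Matrix _ _ _))
        = (((k j)⁻¹ : (Matrix (Fin (m j)) (Fin (m j)) (K j))ˣ) : Matrix _ _ _) *
          ((g j : Matrix _ _ _) * x j *
            (((g j)⁻¹ : (Matrix (Fin (m j)) (Fin (m j)) (K j))ˣ) : Matrix _ _ _)) *
            (k j : Matrix _ _ _) := by simp only [mul_assoc]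
      _ = y j := by
          rw [h1]
          calc (((k j)⁻¹ : (Matrix (Fin (m j)) (Fin (m j)) (K j))ˣ) : Matrix _ _ _) *
                ((k j : Matrix _ _ _) * y j *
                  (((k j)⁻¹ : (Matrix (Fin (m j)) (Fin (m j)) (K j))ˣ) : Matrix _ _ _)) *
                  (k j : Matrix _ _ _)
              = ((((k j)⁻¹ : (Matrix (Fin (m j)) (Fin (m j)) (K j))ˣ) : Matrix _ _ _) *
                (k j : Matrix _ _ _)) * y j *
                ((((k j)⁻¹ : (Matrix (Fin (m j)) (Fin (m j)) (K j))ˣ) : Matrix _ _ _) *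
                  (k j : Matrix _ _ _)) := by simp only [mul_assoc]
            _ = y j := by rw [Units.inv_mul, one_mul, mul_one]

private theorem Rank_conj_le {F : Type} [Field F] {R : Type} [Ring R] [Algebra F R] {a : ℕ}
    (ρ : R →ₐ[F] Matrix (Fin a) (Fin a) F) (k e k' : R) : (ρ (k * e * k')).rank ≤ (ρ e).rank := by
  rw [map_mul, map_mul]
  exact (Matrix.rank_mul_le_left _ _).trans (Matrix.rank_mul_le_right _ _)

private theorem Rank_eq_of_rank {F : Type} [Field F] {R : Type} [Ring R] [Algebra F R]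
    {n : ℕ} {m : Fin n → ℕ} {K : Fin n → Type} [∀ j, Field (K j)]
    [∀ j, Algebra F (K j)] (p : R →ₐ[F] (∀ j, Matrix (Fin (m j)) (Fin (m j)) (K j)))
    (hp : Function.Surjective p) (hk : ∀ x, p x = 0 → IsNilpotent x) {a : ℕ}
    (ρ : R →ₐ[F] Matrix (Fin a) (Fin a) F) {e e' : R} (he : e * e = e) (he' : e' * e' = e')
    (h : ∀ j, (p e j).rank = (p e' j).rank) : (ρ e).rank = (ρ e').rank := by
  have key : ∀ e e' : R, e * e = e → e' * e' = e' → (∀ j, (p e j).rank = (p e' j).rank) →
      (ρ e').rank ≤ (ρ e).rank := by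
    intro e e' he he' h
    obtain ⟨U, V, h1, h2, h3⟩ := Rank_conjS (p e) (p e') (by rw [← map_mul, he])
      (by rw [← map_mul, he']) h
    obtain ⟨k, k', hkk⟩ := Rank_lift p hp hk he he' U V h1 h2 h3
    rw [hkk]
    exact Rank_conj_le ρ k e k'
  exact le_antisymm (key e' e he' he (fun j => (h j).symm)) (key e e' he he' h)

private theorem Rank_add {a : ℕ} {F : Type} [Field F] (X Y : Matrix (Fin a) (Fin a) F)
    (hX : X * X = X) (hY : Y * Y = Y) (hXY : X * Y = 0) (hYX : Y * X = 0) :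
    (X + Y).rank = X.rank + Y.rank := by
  unfold Matrix.rank
  have hsup : LinearMap.range (X + Y).mulVecLin =
      LinearMap.range X.mulVecLin ⊔ LinearMap.range Y.mulVecLin := by
    apply le_antisymm
    · rintro _ ⟨u, rfl⟩
      rw [Matrix.mulVecLin_apply, Matrix.add_mulVec]
      exact Submodule.add_mem_sup ⟨u, rfl⟩ ⟨u, rfl⟩
    · rw [sup_le_iff]
      constructor
      · rintro _ ⟨u, rfl⟩
        refine ⟨X.mulVec u, ?_⟩
        rw [Matrix.mulVecLin_apply, Matrix.mulVecLin_apply, Matrix.mulVec_mulVec, add_mul, hX, hYX,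
          add_zero]
      · rintro _ ⟨u, rfl⟩
        refine ⟨Y.mulVec u, ?_⟩
        rw [Matrix.mulVecLin_apply, Matrix.mulVecLin_apply, Matrix.mulVec_mulVec, add_mul, hY, hXY,
          zero_add]
  have hinf : LinearMap.range X.mulVecLin ⊓ LinearMap.range Y.mulVecLin = ⊥ := by
    rw [eq_bot_iff]
    rintro z ⟨⟨u, hu⟩, ⟨w, hw⟩⟩
    rw [Submodule.mem_bot]
    rw [Matrix.mulVecLin_apply] at hu hw
    have h1 : X.mulVec z = z := by
      rw [← hu, Matrix.mulVec_mulVec, hX]
    rw [← h1, ← hw, Matrix.mulVec_mulVec, hXY, Matrix.zero_mulVec]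
  have h := Submodule.finrank_sup_add_finrank_inf_eq (LinearMap.range X.mulVecLin)
    (LinearMap.range Y.mulVecLin)
  rw [hinf, finrank_bot, add_zero] at h
  rw [hsup, h]

private theorem Rank_sum {a : ℕ} {F : Type} [Field F] {I : Type} (η : I → Matrix (Fin a) (Fin a) F)
    (h : OrthogonalIdempotents η) (s : Finset I) :
    (∑ i ∈ s, η i).rank = ∑ i ∈ s, (η i).rank := by
  classical
  induction s using Finset.induction_on with
  | empty => simp
  | insert i s hi ih =>
    rw [Finset.sum_insert hi, Finset.sum_insert hi, ← ih]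
    refine Rank_add _ _ (h.idem i) h.isIdempotentElem_sum ?_ ?_
    · exact h.mul_sum_of_notMem hi
    · rw [Finset.sum_mul]
      refine Finset.sum_eq_zero fun j hj => ?_
      exact h.ortho (fun hji => hi (hji ▸ hj))

private theorem Rank_diag {K : Type} [Field K] {m : ℕ} (x : Matrix (Fin m) (Fin m) K)
    (hx : x * x = x) :
    (Matrix.diagonal (fun i : Fin m => if (i : ℕ) < x.rank then (1 : K) else 0)).rank = x.rank := by
  obtain ⟨g, hg⟩ := idem_conj x hx
  apply le_antisymm
  · rw [← hg]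
    exact (Matrix.rank_mul_le_left _ _).trans (Matrix.rank_mul_le_right _ _)
  · have h1 : x = ((g⁻¹ : (Matrix (Fin m) (Fin m) K)ˣ) : Matrix (Fin m) (Fin m) K) *
        Matrix.diagonal (fun i : Fin m => if (i : ℕ) < x.rank then (1 : K) else 0) *
        (g : Matrix (Fin m) (Fin m) K) := by
      rw [← hg]
      calc x = (((g⁻¹ : (Matrix (Fin m) (Fin m) K)ˣ) : Matrix (Fin m) (Fin m) K) *
            (g : Matrix (Fin m) (Fin m) K)) * x *
            (((g⁻¹ : (Matrix (Fin m) (Fin m) K)ˣ) : Matrix (Fin m) (Fin m) K) *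
            (g : Matrix (Fin m) (Fin m) K)) := by rw [Units.inv_mul, one_mul, mul_one]
        _ = _ := by simp only [mul_assoc]
    have h2 : ∀ A B C : Matrix (Fin m) (Fin m) K, (A * B * C).rank ≤ B.rank := fun A B C =>
      (Matrix.rank_mul_le_left _ _).trans (Matrix.rank_mul_le_right _ _)
    calc x.rank = (((g⁻¹ : (Matrix (Fin m) (Fin m) K)ˣ) : Matrix (Fin m) (Fin m) K) *
        Matrix.diagonal (fun i : Fin m => if (i : ℕ) < x.rank then (1 : K) else 0) *
        (g : Matrix (Fin m) (Fin m) K)).rank := by rw [← h1]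
      _ ≤ _ := h2 _ _ _

private theorem Rank_count {m r : ℕ} (hr : r ≤ m) (d : ℕ) :
    ∑ b : Fin m, (if (b : ℕ) < r then d else 0) = d * r := by
  have h1 : ∑ b : Fin m, (if (b : ℕ) < r then d else 0) =
      ∑ b ∈ Finset.range m, (if b < r then d else 0) :=
    Fin.sum_univ_eq_sum_range (fun b => if b < r then d else 0) m
  rw [h1, ← Finset.sum_filter, Finset.sum_const, smul_eq_mul, mul_comm]
  congr 1
  have : (Finset.range m).filter (fun b => b < r) = Finset.range r := by
    ext b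
    rw [Finset.mem_filter, Finset.mem_range, Finset.mem_range]
    omega
  rw [this, Finset.card_range]

/-- diagonal matrix units -/
private noncomputable def Rank_E {n : ℕ} (m : Fin n → ℕ) (K : Fin n → Type) [∀ j, Field (K j)]
    (i : Σ j : Fin n, Fin (m j)) : ∀ j, Matrix (Fin (m j)) (Fin (m j)) (K j) :=
  fun j => Matrix.diagonal (fun b => if (⟨j, b⟩ : Σ j : Fin n, Fin (m j)) = i then (1 : K j) else 0)

private theorem Rank_E_ortho {n : ℕ} (m : Fin n → ℕ) (K : Fin n → Type) [∀ j, Field (K j)] :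
    OrthogonalIdempotents (Rank_E m K) := by
  refine ⟨fun i => ?_, fun i i' hii => ?_⟩
  · unfold IsIdempotentElem
    funext j
    rw [Pi.mul_apply]
    unfold Rank_E
    rw [Matrix.diagonal_mul_diagonal]
    congr 1
    funext b
    split_ifs <;> simp
  · funext j
    show Rank_E m K i j * Rank_E m K i' j = 0
    unfold Rank_E
    rw [Matrix.diagonal_mul_diagonal]
    ext b c
    rw [Matrix.diagonal_apply]
    split_ifs with h1 h2 h3
    · exact absurd (h2.symm.trans h3) hii
    all_goals simp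

private theorem Rank_E_rank {n : ℕ} (m : Fin n → ℕ) (K : Fin n → Type) [∀ j, Field (K j)]
    (j : Fin n) (b c : Fin (m j)) (j' : Fin n) :
    (Rank_E m K ⟨j, b⟩ j').rank = (Rank_E m K ⟨j, c⟩ j').rank := by
  classical
  by_cases hj : j' = j
  · subst hj
    have key : ∀ b : Fin (m j'), (Rank_E m K ⟨j', b⟩ j').rank = 1 := by
      intro b
      unfold Rank_E
      rw [Matrix.rank_diagonal]
      rw [Fintype.card_eq_one_iff]
      refine ⟨⟨b, by simp⟩, ?_⟩
      rintro ⟨y, hy⟩
      apply Subtype.ext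
      by_contra hne
      apply hy
      rw [if_neg]
      intro h
      apply hne
      have := (Sigma.mk.inj_iff.1 h).2
      exact eq_of_heq this
    rw [key, key]
  · have key : ∀ b : Fin (m j), Rank_E m K ⟨j, b⟩ j' = 0 := by
      intro b
      unfold Rank_E
      have : (fun b' : Fin (m j') => if (⟨j', b'⟩ : Σ j : Fin n, Fin (m j)) = ⟨j, b⟩ then (1 : K j') else 0) =
          0 := by
        funext b'
        rw [if_neg]
        · rfl
        · intro h
          exact hj (Sigma.mk.inj_iff.1 h).1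
      rw [this, Matrix.diagonal_zero']
    rw [key, key]

theorem exists_rank_weights {F : Type} [Field F] [Fintype F] {R : Type} [Ring R] [Algebra F R]
    {n : ℕ} {m : Fin n → ℕ} {K : Fin n → Type} [∀ j, Field (K j)] [∀ j, Fintype (K j)]
    [∀ j, Algebra F (K j)] (p : R →ₐ[F] (∀ j, Matrix (Fin (m j)) (Fin (m j)) (K j)))
    (hp : Function.Surjective p) (hk : ∀ x, p x = 0 → IsNilpotent x) (a : ℕ)
    (ρ : R →ₐ[F] Matrix (Fin a) (Fin a) F) :
    ∃ d : Fin n → ℕ, ∀ v : R, (∃ N, 1 ≤ N ∧ v ^ (Fintype.card F ^ N) = v) →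
      (ρ v).rank = ∑ j, d j * (p v j).rank := by
  classical
  obtain ⟨ε, hε, hεE⟩ := OrthogonalIdempotents.lift_of_isNilpotent_ker
    (f := p.toRingHom) (fun x hx => hk x (RingHom.mem_ker.1 hx)) (Rank_E_ortho m K) (fun i => by
      obtain ⟨x, hx⟩ := hp (Rank_E m K i)
      exact ⟨x, hx⟩)
  have hεE' : ∀ i, p (ε i) = Rank_E m K i := fun i => congrFun hεE i
  set d : Fin n → ℕ := fun j => if h : 0 < m j then (ρ (ε ⟨j, ⟨0, h⟩⟩)).rank else 0 with hd
  have hdj : ∀ i : (Σ j : Fin n, Fin (m j)), (ρ (ε i)).rank = d i.1 := by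
    rintro ⟨j, b⟩
    have hpos : 0 < m j := b.pos
    simp only [hd]
    rw [dif_pos hpos]
    refine Rank_eq_of_rank p hp hk ρ (hε.idem _) (hε.idem _) (fun j' => ?_)
    rw [hεE', hεE']
    exact Rank_E_rank m K j b ⟨0, hpos⟩ j'
  refine ⟨d, fun v hv => ?_⟩
  obtain ⟨N, hN, hvN⟩ := hv
  set Q := Fintype.card F ^ N with hQ
  have hQ2 : 2 ≤ Q := by
    have h1 : 2 ≤ Fintype.card F := Fintype.one_lt_card
    calc 2 ≤ Fintype.card F := h1
      _ = Fintype.card F ^ 1 := (pow_one _).symm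
      _ ≤ Fintype.card F ^ N := Nat.pow_le_pow_right (by omega) hN
  obtain ⟨t, ht⟩ : ∃ t, Q = t + 2 := ⟨Q - 2, by omega⟩
  rw [ht] at hvN
  set e : R := v ^ (t + 1) with he
  have hev : e * v = v := by
    rw [he, ← pow_succ]
    exact hvN
  have hee : e * e = e := by
    calc e * e = v ^ (t + 2) * v ^ t := by
          rw [he, ← pow_add, ← pow_add]; congr 1; omega
      _ = v * v ^ t := by rw [hvN]
      _ = e := by rw [he, ← pow_succ']
  have hvt : e = v * v ^ t := by rw [he, ← pow_succ']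
  have hrρ : (ρ v).rank = (ρ e).rank := by
    apply le_antisymm
    · conv_lhs => rw [← hev, map_mul]
      exact Matrix.rank_mul_le_left _ _
    · rw [hvt, map_mul]
      exact Matrix.rank_mul_le_left _ _
  have hrp : ∀ j, (p v j).rank = (p e j).rank := by
    intro j
    apply le_antisymm
    · conv_lhs => rw [← hev, map_mul, Pi.mul_apply]
      exact Matrix.rank_mul_le_left _ _
    · rw [hvt, map_mul, Pi.mul_apply]
      exact Matrix.rank_mul_le_left _ _
  rw [hrρ]
  have hpe : ∀ j, p e j * p e j = p e j := by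
    intro j
    rw [← Pi.mul_apply, ← map_mul, hee]
  set s : Finset (Σ j : Fin n, Fin (m j)) :=
    Finset.univ.filter (fun i => (i.2 : ℕ) < (p e i.1).rank) with hs
  have hsum : ∀ j, p (∑ i ∈ s, ε i) j =
      Matrix.diagonal (fun b : Fin (m j) => if (b : ℕ) < (p e j).rank then (1 : K j) else 0) := by
    intro j
    rw [map_sum, Finset.sum_apply]
    simp only [hεE']
    unfold Rank_E
    ext b c
    rw [Matrix.sum_apply]
    simp only [Matrix.diagonal_apply]
    by_cases hbc : b = c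
    · subst hbc
      simp only [if_true]
      rw [Finset.sum_ite_eq]
      congr 1
      rw [hs, Finset.mem_filter]
      simp
    · simp only [if_neg hbc]
      exact Finset.sum_const_zero
  have h1 : (ρ e).rank = (ρ (∑ i ∈ s, ε i)).rank := by
    refine Rank_eq_of_rank p hp hk ρ hee hε.isIdempotentElem_sum (fun j => ?_)
    rw [hsum, Rank_diag _ (hpe j)]
  have h2 : OrthogonalIdempotents (fun i => ρ (ε i)) := OrthogonalIdempotents.map ρ.toRingHom hε
  rw [h1, map_sum, Rank_sum _ h2]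
  simp only [hdj]
  rw [hs, Finset.sum_filter, ← Finset.univ_sigma_univ, Finset.sum_sigma]
  refine Finset.sum_congr rfl fun j _ => ?_
  simp only
  have hle : (p e j).rank ≤ m j := by
    have := Matrix.rank_le_width (p e j)
    simpa using this
  rw [Rank_count hle, hrp]


end Pool.Agent.H27.KAC
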