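import Pool.Agent.H27.KAC.PI_Orb

/-!
Project KAC, part I.1, module PI_Nil: number of the nilpotent matrices over a finite field (Fine-Herstein).

PROOF.  Count the pairs `(T, v)`, `T` a nilpotent endomorphism of `K^n`, `v` a vector: the vectors `v, T v, ...` are
linearly independent until they vanish.  So the pairs are the triples `(k, s, T)`, `s` a linearly independent family of
length `k` with `T (s i) = s (i+1)`, `T (s (k-1)) = 0`; for given `s` there are `q^(k (n-k)) N_(n-k)` such `T`.
-/

set_option autoImplicit false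

namespace Pool.Agent.H27.KAC

open scoped BigOperators
open Polynomial

section

variable {K V : Type} [Field K] [AddCommGroup V] [Module K V]

/-- the vectors `T^i v` are linearly independent until they vanish -/
theorem Nil_LI {k : ℕ} (T : Module.End K V) (v : V) (hk : (T ^ k) v = 0)
    (hk' : k = 0 ∨ (T ^ (k - 1)) v ≠ 0) :
    LinearIndependent K (fun i : Fin k => (T ^ (i : ℕ)) v) := by
  rw [Fintype.linearIndependent_iff]
  intro g hg
  have key : ∀ m : ℕ, ∀ hm : m < k, g ⟨m, hm⟩ = 0 := by
    intro m
    induction m using Nat.strong_induction_on with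
    | _ m ih =>
      intro hm
      have h1 := congrArg (fun w => (T ^ (k - 1 - m)) w) hg
      simp only [map_sum, map_smul, map_zero] at h1
      rw [Finset.sum_eq_single (⟨m, hm⟩ : Fin k)] at h1
      · rw [← Module.End.mul_apply, ← pow_add] at h1
        have h2 : k - 1 - m + m = k - 1 := by omega
        rw [h2] at h1
        rcases hk' with h3 | h3
        · omega
        · exact (smul_eq_zero.mp h1).resolve_right h3
      · intro j _ hj
        rcases lt_trichotomy (j : ℕ) m with h | h | h
        · have := ih j h j.2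
          rw [show g j = g ⟨(j : ℕ), j.2⟩ from rfl, this, zero_smul]
        · exact absurd (Fin.ext h) hj
        · rw [← Module.End.mul_apply, ← pow_add]
          have h2 : k - 1 - m + (j : ℕ) = (j - 1 - m) + k := by omega
          rw [h2, pow_add, Module.End.mul_apply, hk, map_zero, smul_zero]
      · intro h
        exact absurd (Finset.mem_univ _) h
  intro i
  exact key i i.2

/-- `T` is nilpotent and shifts the family `s` -/
def NilC {k : ℕ} (s : Fin k → V) (T : Module.End K V) : Prop :=
  IsNilpotent T ∧ ∀ i : Fin k, T (s i) = if h : (i : ℕ) + 1 < k then s ⟨i + 1, h⟩ else 0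

theorem NilC_pow {k : ℕ} {s : Fin k → V} {T : Module.End K V} (h : NilC s T) (hk : 0 < k) :
    ∀ i : ℕ, (T ^ i) (s ⟨0, hk⟩) = if h : i < k then s ⟨i, h⟩ else 0 := by
  intro i
  induction i with
  | zero => simp [hk]
  | succ i ih =>
    rw [pow_succ', Module.End.mul_apply, ih]
    by_cases h1 : i < k
    · rw [dif_pos h1, h.2]
    · rw [dif_neg h1, map_zero, dif_neg (by omega)]

end

section

variable {K : Type} [Field K]

/-- the shift on `K^k` -/
noncomputable def NilJ (K : Type) [Field K] (k : ℕ) : (Fin k → K) →ₗ[K] (Fin k → K) :=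
  (Pi.basisFun K (Fin k)).constr K
    (fun i => if h : (i : ℕ) + 1 < k then Pi.single ⟨i + 1, h⟩ 1 else 0)

theorem NilJ_single (k : ℕ) (i : Fin k) :
    NilJ K k (Pi.single i 1) = if h : (i : ℕ) + 1 < k then Pi.single ⟨i + 1, h⟩ 1 else 0 := by
  have := (Pi.basisFun K (Fin k)).constr_basis K
    (fun i => if h : (i : ℕ) + 1 < k then (Pi.single ⟨i + 1, h⟩ 1 : Fin k → K) else 0) i
  rw [Pi.basisFun_apply] at this
  exact this

theorem NilJ_pow_single (k : ℕ) (j : ℕ) (i : Fin k) :
    (NilJ K k ^ j) (Pi.single i 1) =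
      if h : (i : ℕ) + j < k then Pi.single ⟨i + j, h⟩ 1 else 0 := by
  induction j with
  | zero => simp
  | succ j ih =>
    rw [pow_succ', Module.End.mul_apply, ih]
    by_cases h1 : (i : ℕ) + j < k
    · rw [dif_pos h1, NilJ_single]
      simp only [add_assoc]
    · rw [dif_neg h1, map_zero, dif_neg (by omega)]

theorem NilJ_pow (k : ℕ) : NilJ K k ^ k = 0 := by
  apply (Pi.basisFun K (Fin k)).ext
  intro i
  rw [Pi.basisFun_apply, NilJ_pow_single, dif_neg (by omega), LinearMap.zero_apply]

/-- block endomorphism -/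
noncomputable def NilM {k m : ℕ} (B : (Fin m → K) →ₗ[K] (Fin k → K))
    (D : (Fin m → K) →ₗ[K] (Fin m → K)) :
    Module.End K ((Fin k → K) × (Fin m → K)) :=
  LinearMap.prod (NilJ K k ∘ₗ LinearMap.fst K _ _ + B ∘ₗ LinearMap.snd K _ _)
    (D ∘ₗ LinearMap.snd K _ _)

theorem NilM_apply {k m : ℕ} (B : (Fin m → K) →ₗ[K] (Fin k → K))
    (D : (Fin m → K) →ₗ[K] (Fin m → K)) (w : (Fin k → K) × (Fin m → K)) :
    NilM B D w = (NilJ K k w.1 + B w.2, D w.2) := rfl

theorem NilM_pow_snd {k m : ℕ} (B : (Fin m → K) →ₗ[K] (Fin k → K))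
    (D : Module.End K (Fin m → K)) (j : ℕ) (w : (Fin k → K) × (Fin m → K)) :
    ((NilM B D ^ j) w).2 = (D ^ j) w.2 := by
  induction j with
  | zero => simp
  | succ j ih => rw [pow_succ', Module.End.mul_apply, NilM_apply, ih, pow_succ',
      Module.End.mul_apply]

theorem NilM_pow_zero {k m : ℕ} (B : (Fin m → K) →ₗ[K] (Fin k → K))
    (D : Module.End K (Fin m → K)) (j : ℕ) (w : Fin k → K) :
    (NilM B D ^ j) (w, 0) = ((NilJ K k ^ j) w, 0) := by
  induction j with
  | zero => simp
  | succ j ih =>
    rw [pow_succ', Module.End.mul_apply, ih, NilM_apply, pow_succ', Module.End.mul_apply]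
    simp

theorem NilM_nilpotent {k m : ℕ} (B : (Fin m → K) →ₗ[K] (Fin k → K))
    (D : Module.End K (Fin m → K)) : IsNilpotent (NilM B D) ↔ IsNilpotent D := by
  constructor
  · rintro ⟨j, hj⟩
    refine ⟨j, LinearMap.ext fun x => ?_⟩
    have := NilM_pow_snd B D j (0, x)
    rw [hj] at this
    simpa using this.symm
  · rintro ⟨j, hj⟩
    refine ⟨k + j, LinearMap.ext fun w => ?_⟩
    rw [pow_add, Module.End.mul_apply]
    have h1 : ((NilM B D ^ j) w).2 = 0 := by
      rw [NilM_pow_snd, hj]
      rfl
    have h2 : (NilM B D ^ j) w = (((NilM B D ^ j) w).1, 0) := Prod.ext rfl h1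
    rw [h2, NilM_pow_zero, NilJ_pow]
    rfl

/-- the standard family -/
def Nils (K : Type) [Field K] (k m : ℕ) (i : Fin k) : (Fin k → K) × (Fin m → K) :=
  (Pi.single i 1, 0)

theorem NilC_std_iff {k m : ℕ} (M : Module.End K ((Fin k → K) × (Fin m → K))) :
    (∀ i : Fin k, M (Nils K k m i) =
      if h : (i : ℕ) + 1 < k then Nils K k m ⟨i + 1, h⟩ else 0) ↔
    ∀ w : Fin k → K, M (w, 0) = (NilJ K k w, 0) := by
  constructor
  · intro h
    have h2 : M ∘ₗ LinearMap.inl K _ _ = LinearMap.inl K _ _ ∘ₗ NilJ K k := by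
      apply (Pi.basisFun K (Fin k)).ext
      intro i
      rw [Pi.basisFun_apply]
      simp only [LinearMap.comp_apply, LinearMap.inl_apply]
      rw [NilJ_single]
      have h3 := h i
      unfold Nils at h3
      rw [h3]
      split_ifs <;> rfl
    intro w
    have := LinearMap.congr_fun h2 w
    simpa using this
  · intro h i
    unfold Nils
    rw [h, NilJ_single]
    split_ifs <;> rfl

/-- the endomorphisms of the standard space -/
noncomputable def NilEquiv (k m : ℕ) :
    {M : Module.End K ((Fin k → K) × (Fin m → K)) // NilC (Nils K k m) M} ≃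
      ((Fin m → K) →ₗ[K] (Fin k → K)) × {D : Module.End K (Fin m → K) // IsNilpotent D} where
  toFun M := (LinearMap.fst K _ _ ∘ₗ M.1 ∘ₗ LinearMap.inr K _ _,
    ⟨LinearMap.snd K _ _ ∘ₗ M.1 ∘ₗ LinearMap.inr K _ _, by
      have h := M.2
      have h2 := (NilC_std_iff M.1).mp h.2
      have h3 : M.1 = NilM (LinearMap.fst K _ _ ∘ₗ M.1 ∘ₗ LinearMap.inr K _ _)
          (LinearMap.snd K _ _ ∘ₗ M.1 ∘ₗ LinearMap.inr K _ _) := by
        apply LinearMap.ext
        rintro ⟨w, x⟩
        rw [NilM_apply]
        have h4 : ((w, x) : (Fin k → K) × (Fin m → K)) = (w, 0) + (0, x) := by simp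
        rw [h4, map_add, h2]
        refine Prod.ext ?_ ?_ <;> simp
      have h5 := h.1
      rw [h3, NilM_nilpotent] at h5
      exact h5⟩)
  invFun p := ⟨NilM p.1 p.2.1, by
    refine ⟨(NilM_nilpotent _ _).mpr p.2.2, ?_⟩
    rw [NilC_std_iff]
    intro w
    rw [NilM_apply]
    simp⟩
  left_inv M := by
    apply Subtype.ext
    apply LinearMap.ext
    rintro ⟨w, x⟩
    simp only [NilM_apply]
    have h2 := (NilC_std_iff M.1).mp M.2.2
    have h4 : ((w, x) : (Fin k → K) × (Fin m → K)) = (w, 0) + (0, x) := by simp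
    rw [h4, map_add, h2]
    refine Prod.ext ?_ ?_ <;> simp
  right_inv p := by
    obtain ⟨B, D, hD⟩ := p
    refine Prod.ext ?_ (Subtype.ext ?_)
    · apply LinearMap.ext
      intro x
      simp [NilM_apply]
    · apply LinearMap.ext
      intro x
      simp [NilM_apply]

theorem Nil_std_equiv {n k : ℕ} (hk : k ≤ n) (s : Fin k → (Fin n → K))
    (hs : LinearIndependent K s) :
    ∃ e : (Fin n → K) ≃ₗ[K] ((Fin k → K) × (Fin (n - k) → K)), ∀ i, e (s i) = Nils K k _ i := by
  obtain ⟨X, hX⟩ := Submodule.exists_isCompl (Submodule.span K (Set.range s))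
  let b : Module.Basis (Fin k) K (Submodule.span K (Set.range s)) := Module.Basis.span hs
  have hW : Module.finrank K (Submodule.span K (Set.range s)) = k := by
    rw [finrank_span_eq_card hs, Fintype.card_fin]
  have hXr : Module.finrank K X = n - k := by
    have := Submodule.finrank_add_eq_of_isCompl hX
    rw [hW, Module.finrank_fin_fun] at this
    omega
  let c : Module.Basis (Fin (n - k)) K X := Module.finBasisOfFinrankEq K X hXr
  refine ⟨(Submodule.prodEquivOfIsCompl _ X hX).symm.trans (b.equivFun.prodCongr c.equivFun), ?_⟩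
  intro i
  have hb : (b i : Fin n → K) = s i := by
    simp [b, Module.Basis.span_apply]
  have h1 : (Submodule.prodEquivOfIsCompl _ X hX).symm (s i) = (b i, 0) := by
    rw [← hb]
    exact Submodule.prodEquivOfIsCompl_symm_apply_left _ _ hX (b i)
  rw [LinearEquiv.trans_apply, h1]
  unfold Nils
  simp only [LinearEquiv.prodCongr_apply, map_zero]
  congr 1
  funext j
  rw [Module.Basis.equivFun_self]
  simp [Pi.single_apply, eq_comm]

/-- the number of the nilpotent endomorphisms of `K^m` -/
noncomputable def NilN (K : Type) [Field K] (m : ℕ) : ℕ :=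
  Nat.card {D : Module.End K (Fin m → K) // IsNilpotent D}

theorem NilC_card [Fintype K] {n k : ℕ} (hk : k ≤ n) (s : Fin k → (Fin n → K))
    (hs : LinearIndependent K s) :
    Nat.card {T : Module.End K (Fin n → K) // NilC s T} =
      Fintype.card K ^ (k * (n - k)) * NilN K (n - k) := by
  obtain ⟨e, he⟩ := Nil_std_equiv hk s hs
  have h1 : Nat.card {T : Module.End K (Fin n → K) // NilC s T} =
      Nat.card {M : Module.End K ((Fin k → K) × (Fin (n - k) → K)) // NilC (Nils K k _) M} := by
    apply Nat.card_congr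
    refine Equiv.subtypeEquiv (e.conjAlgEquiv K).toEquiv ?_
    intro T
    unfold NilC
    have hnil : IsNilpotent ((e.conjAlgEquiv K) T) ↔ IsNilpotent T := by
      constructor
      · intro h
        have := h.map (e.conjAlgEquiv K).symm
        simpa using this
      · intro h
        exact h.map (e.conjAlgEquiv K)
    have happ : ∀ i, ((e.conjAlgEquiv K) T) (Nils K k _ i) = e (T (s i)) := by
      intro i
      rw [LinearEquiv.conjAlgEquiv_apply, ← he i]
      simp
    constructor
    · rintro ⟨h2, h3⟩
      refine ⟨hnil.mpr h2, fun i => ?_⟩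
      have := happ i
      rw [h3 i] at this
      refine this.trans ?_
      split_ifs with h4
      · exact he _
      · exact map_zero e
    · rintro ⟨h2, h3⟩
      refine ⟨hnil.mp h2, fun i => ?_⟩
      apply e.injective
      rw [← happ i]
      refine (h3 i).trans ?_
      split_ifs with h4
      · exact (he _).symm
      · exact (map_zero e).symm
  rw [h1, Nat.card_congr (NilEquiv k (n - k)), Nat.card_prod]
  congr 1
  rw [Module.natCard_eq_pow_finrank (K := K), Nat.card_eq_fintype_card, Module.finrank_linearMap,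
    Module.finrank_fin_fun, Module.finrank_fin_fun, mul_comm]

/-- the triples `(k, s, T)` -/
theorem Nil_pairs [Fintype K] (n : ℕ) :
    Nat.card ((k : Fin (n + 1)) × (s : {s : Fin k → (Fin n → K) // LinearIndependent K s}) ×
      {T : Module.End K (Fin n → K) // NilC s.1 T}) =
    Nat.card ({T : Module.End K (Fin n → K) // IsNilpotent T} × (Fin n → K)) := by
  apply Nat.card_eq_of_bijective (fun p => ((⟨p.2.2.1, p.2.2.2.1⟩ :
    {T : Module.End K (Fin n → K) // IsNilpotent T}),
    if h : 0 < (p.1 : ℕ) then p.2.1.1 ⟨0, h⟩ else 0))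
  constructor
  · rintro ⟨k, ⟨s, hs⟩, ⟨T, hT⟩⟩ ⟨k', ⟨s', hs'⟩, ⟨T', hT'⟩⟩ h
    simp only [Prod.mk.injEq, Subtype.mk.injEq] at h
    obtain ⟨h1, h2⟩ := h
    subst h1
    have hle : ∀ (a b : Fin (n + 1)) (sa : Fin a → (Fin n → K)) (sb : Fin b → (Fin n → K))
        (_ : LinearIndependent K sa) (_ : LinearIndependent K sb) (_ : NilC sa T)
        (_ : NilC sb T) (_ : (if h : 0 < (a : ℕ) then sa ⟨0, h⟩ else 0) =
          (if h : 0 < (b : ℕ) then sb ⟨0, h⟩ else 0)), (a : ℕ) ≤ b := by
      intro a b sa sb ha hb hTa hTb hab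
      by_contra hlt
      push Not at hlt
      have ha0 : 0 < (a : ℕ) := by omega
      rw [dif_pos ha0] at hab
      have e1 := NilC_pow hTa ha0 b
      rw [dif_pos hlt] at e1
      have hne := ha.ne_zero ⟨b, hlt⟩
      apply hne
      rw [← e1, hab]
      by_cases hb0 : 0 < (b : ℕ)
      · rw [dif_pos hb0, NilC_pow hTb hb0 b, dif_neg (lt_irrefl _)]
      · rw [dif_neg hb0, map_zero]
    have hkk : k = k' := Fin.ext (le_antisymm (hle k k' s s' hs hs' hT hT' h2)
      (hle k' k s' s hs' hs hT' hT h2.symm))
    subst hkk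
    have hss : s = s' := by
      funext i
      have hk0 : 0 < (k : ℕ) := by
        have := i.2
        omega
      rw [dif_pos hk0, dif_pos hk0] at h2
      have e1 : (T ^ (i : ℕ)) (s ⟨0, hk0⟩) = s i := by
        have := NilC_pow hT hk0 i
        rw [dif_pos i.2] at this
        exact this
      have e2 : (T ^ (i : ℕ)) (s' ⟨0, hk0⟩) = s' i := by
        have := NilC_pow hT' hk0 i
        rw [dif_pos i.2] at this
        exact this
      rw [← e1, ← e2, h2]
    subst hss
    rfl
  · rintro ⟨⟨T, hT⟩, v⟩
    classical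
    obtain ⟨N, hN⟩ := hT
    have hex : ∃ k, (T ^ k) v = 0 := ⟨N, by rw [hN]; rfl⟩
    set k := Nat.find hex with hkdef
    have hk : (T ^ k) v = 0 := Nat.find_spec hex
    have hk' : k = 0 ∨ (T ^ (k - 1)) v ≠ 0 := by
      rcases Nat.eq_zero_or_pos k with h | h
      · exact Or.inl h
      · exact Or.inr (Nat.find_min hex (by omega))
    have hli := Nil_LI T v hk hk'
    have hkn : k ≤ n := by
      have := hli.fintype_card_le_finrank
      simpa using this
    have hC : NilC (fun i : Fin k => (T ^ (i : ℕ)) v) T := by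
      refine ⟨⟨N, hN⟩, fun i => ?_⟩
      rw [← Module.End.mul_apply, ← pow_succ']
      split_ifs with h
      · rfl
      · have : (i : ℕ) + 1 = k := by
          have := i.2
          omega
        rw [this, hk]
    refine ⟨⟨⟨k, by omega⟩, ⟨fun i => (T ^ (i : ℕ)) v, hli⟩, ⟨T, hC⟩⟩, ?_⟩
    simp only [Prod.mk.injEq, true_and]
    split_ifs with h
    · simp
    · have h0 : k = 0 := by omega
      rw [h0] at hk
      simpa using hk.symm

theorem Nil_rec [Fintype K] (n : ℕ) :
    NilN K n * Fintype.card K ^ n = ∑ k : Fin (n + 1),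
      (∏ i : Fin k, (Fintype.card K ^ n - Fintype.card K ^ (i : ℕ))) *
        (Fintype.card K ^ ((k : ℕ) * (n - k)) * NilN K (n - k)) := by
  have h := Nil_pairs (K := K) n
  haveI : Finite (Module.End K (Fin n → K)) := Module.finite_of_finite K
  rw [Nat.card_prod, Nat.card_sigma] at h
  have hc : Nat.card (Fin n → K) = Fintype.card K ^ n := by
    rw [Nat.card_eq_fintype_card, Fintype.card_fun, Fintype.card_fin]
  rw [hc] at h
  unfold NilN
  rw [← h]
  refine Finset.sum_congr rfl fun k _ => ?_
  classical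
  let _ : Fintype {s : Fin k → (Fin n → K) // LinearIndependent K s} := Fintype.ofFinite _
  rw [Nat.card_sigma]
  have hk : (k : ℕ) ≤ n := by
    have := k.2
    omega
  rw [Finset.sum_congr rfl (fun s _ => NilC_card hk s.1 s.2), Finset.sum_const, smul_eq_mul,
    Finset.card_univ, ← Nat.card_eq_fintype_card, card_linearIndependent (by simpa using hk),
    Module.finrank_fin_fun]
  rfl

/-- the telescoping identity -/
theorem Nil_tele (q n : ℕ) (hq : 1 ≤ q) : ∀ m : ℕ, m ≤ n →
    q ^ (n * n) = (∑ k ∈ Finset.range m, (∏ i ∈ Finset.range k, (q ^ n - q ^ i)) *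
      q ^ ((n - k) * (n - 1))) + (∏ i ∈ Finset.range m, (q ^ n - q ^ i)) * q ^ ((n - m) * n) := by
  intro m
  induction m with
  | zero => simp
  | succ m ih =>
    intro hm
    rw [ih (by omega), Finset.sum_range_succ, Finset.prod_range_succ, add_assoc]
    congr 1
    have h1 : q ^ m ≤ q ^ n := Nat.pow_le_pow_right hq (by omega)
    obtain ⟨d, hd⟩ : ∃ d, n = m + 1 + d := ⟨n - (m + 1), by omega⟩
    have e1 : (n - m) * n = d * n + n := by
      rw [show n - m = d + 1 by omega]
      ring
    have e2 : (n - m) * (n - 1) = d * n + m := by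
      rw [show n - m = d + 1 by omega, show n - 1 = m + d by omega, hd]
      ring
    have e3 : (n - (m + 1)) * n = d * n := by
      rw [show n - (m + 1) = d by omega]
    rw [e1, e2, e3, pow_add, pow_add]
    have h2 : q ^ n = (q ^ n - q ^ m) + q ^ m := by omega
    calc (∏ i ∈ Finset.range m, (q ^ n - q ^ i)) * (q ^ (d * n) * q ^ n) =
        (∏ i ∈ Finset.range m, (q ^ n - q ^ i)) * (q ^ (d * n) * ((q ^ n - q ^ m) + q ^ m)) := by
          rw [← h2]
      _ = _ := by ring

theorem NilN_eq [Fintype K] (n : ℕ) : NilN K n = Fintype.card K ^ (n ^ 2 - n) := by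
  have hq : 2 ≤ Fintype.card K := Fintype.one_lt_card
  induction n using Nat.strong_induction_on with
  | _ n ih =>
    rcases Nat.eq_zero_or_pos n with h0 | h0
    · subst h0
      unfold NilN
      have : Nonempty (Unique {D : Module.End K (Fin 0 → K) // IsNilpotent D}) := by
        refine ⟨⟨⟨⟨0, IsNilpotent.zero⟩⟩, fun D => ?_⟩⟩
        apply Subtype.ext
        apply LinearMap.ext
        intro x
        exact Subsingleton.elim _ _
      obtain ⟨hu⟩ := this
      simp [Nat.card_unique]
    · have hrec := Nil_rec (K := K) n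
      have htel := Nil_tele (Fintype.card K) n (by omega) n le_rfl
      set q := Fintype.card K with hqdef
      have hterm : ∀ k : ℕ, 1 ≤ k → k ≤ n → (q ^ (k * (n - k)) * NilN K (n - k)) =
          q ^ ((n - k) * (n - 1)) := by
        intro k hk1 hkn
        rw [ih (n - k) (by omega), ← pow_add]
        congr 1
        obtain ⟨d, hd⟩ : ∃ d, n = k + d := ⟨n - k, by omega⟩
        have e1 : n - k = d := by omega
        rw [e1]
        rcases Nat.eq_zero_or_pos d with h | h
        · subst h
          simp
        · have e2 : d ^ 2 - d = d * (d - 1) := by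
            rw [Nat.mul_sub, mul_one, pow_two]
          rw [e2, mul_comm k d, ← mul_add]
          congr 1
          omega
      have hsum : ∑ k : Fin (n + 1), (∏ i : Fin k, (q ^ n - q ^ (i : ℕ))) *
          (q ^ ((k : ℕ) * (n - k)) * NilN K (n - k)) =
          ∑ k ∈ Finset.range (n + 1), (∏ i ∈ Finset.range k, (q ^ n - q ^ i)) *
          (q ^ (k * (n - k)) * NilN K (n - k)) := by
        rw [Finset.sum_range]
        refine Finset.sum_congr rfl fun k _ => ?_
        rw [Finset.prod_range]
      rw [hsum, Finset.sum_range_succ'] at hrec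
      have h1 : ∑ k ∈ Finset.range n, (∏ i ∈ Finset.range (k + 1), (q ^ n - q ^ i)) *
          (q ^ ((k + 1) * (n - (k + 1))) * NilN K (n - (k + 1))) =
          ∑ k ∈ Finset.range n, (∏ i ∈ Finset.range (k + 1), (q ^ n - q ^ i)) *
          q ^ ((n - (k + 1)) * (n - 1)) := by
        refine Finset.sum_congr rfl fun k hk => ?_
        rw [Finset.mem_range] at hk
        rw [hterm (k + 1) (by omega) (by omega)]
      rw [h1] at hrec
      have h2 : q ^ (n * n) = ∑ k ∈ Finset.range (n + 1), (∏ i ∈ Finset.range k,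
          (q ^ n - q ^ i)) * q ^ ((n - k) * (n - 1)) := by
        rw [Finset.sum_range_succ, htel]
        simp
      rw [Finset.sum_range_succ'] at h2
      simp only [Finset.range_zero, Finset.prod_empty, one_mul, zero_mul, pow_zero,
        Nat.sub_zero] at hrec h2
      have h3 : n * n = n * (n - 1) + n := by
        obtain ⟨d, rfl⟩ : ∃ d, n = d + 1 := ⟨n - 1, by omega⟩
        simp
        ring
      have h4 : n ^ 2 - n = n * (n - 1) := by
        rw [pow_two, h3]
        simp
      rw [h4]
      rw [h3, pow_add] at h2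
      have h5 : NilN K n * q ^ n + q ^ (n * (n - 1)) =
          q ^ (n * (n - 1)) * q ^ n + NilN K n := by
        omega
      have h6 : 2 ≤ q ^ n := le_trans hq (Nat.le_self_pow (by omega) q)
      zify at h5 h6 ⊢
      have h7 : ((NilN K n : ℤ) - (q : ℤ) ^ (n * (n - 1))) * ((q : ℤ) ^ n - 1) = 0 := by
        linarith
      rcases mul_eq_zero.mp h7 with h8 | h8
      · linarith
      · exfalso
        linarith

theorem card_nilpotent (K : Type) [Field K] [Fintype K] (m : ℕ) :
    Nat.card {T : Matrix (Fin m) (Fin m) K // IsNilpotent T} = Fintype.card K ^ (m ^ 2 - m) := by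
  rw [← NilN_eq]
  unfold NilN
  apply Nat.card_congr
  refine Equiv.subtypeEquiv (Matrix.toLinAlgEquiv' (R := K) (n := Fin m)).toEquiv ?_
  intro T
  constructor
  · intro h
    exact h.map (Matrix.toLinAlgEquiv' (R := K) (n := Fin m))
  · intro h
    have := h.map (Matrix.toLinAlgEquiv' (R := K) (n := Fin m)).symm
    simpa using this

end

end Pool.Agent.H27.KAC
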