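import Pool.Agent.H27.KAC.PI_Cnt
import Pool.Agent.H27.KAC.PI_Nil

/-!
Project KAC, part I.1, module PI_Sum: the local identity in a matrix algebra.

PROOF SKETCH.  `num_identity`: `h_m = Q^(m^2 - m) / ∏_(i < m) (Q^m - Q^i) = Q^(m(m-1)/2) / ∏_(k=1..m) (Q^k - 1)`, so
`(Q^m - 1) h_m = Q^(m-1) h_(m-1)`, that is `G(Q x) (1 - x) = G(x)` for `G = ∑ h_m x^m`.  Then `h = x G' / G` satisfies
`h(Q x) - h(x) = x / (1 - x)`, so `h = ∑ x^n / (Q^n - 1)`.  In coefficients, by induction on `m`: put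
`S_m = ∑_(n=1..m) h_(m-n) / (Q^n - 1)`; using `Q^m h_(m-n) / (Q^n-1) = Q^(m-n) h_(m-n) (1 + 1/(Q^n - 1))` and
`Q^j h_j = h_j + Q^(j-1) h_(j-1)` one gets a recursion of order one for `S_m`, the same as for `m h_m`.
`sum_card_locD`: the terms are zero unless `N = r n`, `1 ≤ n ≤ m` (`r * rank v = N`, `rank v ≤ m`); use `card_locD`,
`card_nilpotent`, `Matrix.card_GL_field` and `num_identity`.
-/

set_option autoImplicit false

namespace Pool.Agent.H27.KAC

open scoped BigOperators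
open Polynomial

private theorem Sum_rec (Q : ℕ) (hQ : 2 ≤ Q) (h : ℕ → ℚ)
    (hh : ∀ m, h m = (Q : ℚ) ^ (m ^ 2 - m) / ∏ i ∈ Finset.range m, ((Q : ℚ) ^ m - (Q : ℚ) ^ i))
    (m : ℕ) : ((Q : ℚ) ^ (m + 1) - 1) * h (m + 1) = (Q : ℚ) ^ m * h m := by
  have hQ1 : (1 : ℚ) < Q := by exact_mod_cast (show 1 < Q by omega)
  have hQ0 : (Q : ℚ) ≠ 0 := by positivity
  have hD : ∀ m : ℕ, ∏ i ∈ Finset.range m, ((Q : ℚ) ^ m - (Q : ℚ) ^ i) ≠ 0 := by
    intro m
    refine Finset.prod_ne_zero_iff.mpr ?_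
    intro i hi
    have hi' := Finset.mem_range.mp hi
    have := pow_lt_pow_right₀ hQ1 hi'
    linarith
  have h1 : ∏ i ∈ Finset.range (m + 1), ((Q : ℚ) ^ (m + 1) - (Q : ℚ) ^ i) =
      ((Q : ℚ) ^ (m + 1) - 1) * ((Q : ℚ) ^ m *
        ∏ i ∈ Finset.range m, ((Q : ℚ) ^ m - (Q : ℚ) ^ i)) := by
    rw [Finset.prod_range_succ', pow_zero, mul_comm]
    congr 1
    have h2 : (Q : ℚ) ^ m = ∏ _i ∈ Finset.range m, (Q : ℚ) := by
      rw [Finset.prod_const, Finset.card_range]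
    conv_rhs => rw [h2]
    rw [← Finset.prod_mul_distrib]
    refine Finset.prod_congr rfl ?_
    intro i _
    rw [← h2, pow_succ, pow_succ]
    ring
  have h3 : (m + 1) ^ 2 - (m + 1) = (m ^ 2 - m) + (m + m) := by
    have h4 : (m + 1) ^ 2 = m ^ 2 + 2 * m + 1 := by ring
    have h5 : m ≤ m ^ 2 := by nlinarith [Nat.zero_le m, sq_nonneg ((m : ℤ) - 1), Nat.le_self_pow (n := 2) (by norm_num) m]
    omega
  have h6 : (Q : ℚ) ^ (m + 1) - 1 ≠ 0 := by
    have h9 : 1 < (Q : ℚ) ^ (m + 1) := one_lt_pow₀ hQ1 (Nat.succ_ne_zero m)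
    linarith
  have h7 := hD m
  rw [hh (m + 1), hh m, h1, h3, pow_add ((Q : ℚ)) (m ^ 2 - m) (m + m), pow_add (Q : ℚ) m m]
  have h8 : (Q : ℚ) ^ m ≠ 0 := pow_ne_zero _ hQ0
  generalize (Q : ℚ) ^ (m + 1) - 1 = A at h6 ⊢
  generalize (Q : ℚ) ^ m = B at h8 h7 ⊢
  generalize ∏ i ∈ Finset.range m, (B - (Q : ℚ) ^ i) = D at h7 ⊢
  field_simp

private theorem Sum_main (Q : ℕ) (hQ : 2 ≤ Q) (h : ℕ → ℚ)
    (hr : ∀ m, ((Q : ℚ) ^ (m + 1) - 1) * h (m + 1) = (Q : ℚ) ^ m * h m) (m : ℕ) :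
    (m : ℚ) * h m = ∑ j ∈ Finset.range m, h j / ((Q : ℚ) ^ (m - j) - 1) := by
  have hQ1 : (1 : ℚ) < Q := by exact_mod_cast (show 1 < Q by omega)
  have hne : ∀ n : ℕ, n ≠ 0 → (Q : ℚ) ^ n - 1 ≠ 0 := by
    intro n hn
    have := one_lt_pow₀ hQ1 hn
    linarith
  induction m with
  | zero => simp
  | succ m ih =>
    -- R
    have hR : ∑ j ∈ Finset.range (m + 1), (Q : ℚ) ^ j * h j / ((Q : ℚ) ^ (m + 1 - j) - 1) =
        ∑ j ∈ Finset.range (m + 1), h j / ((Q : ℚ) ^ (m + 1 - j) - 1) +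
          ∑ j ∈ Finset.range m, (Q : ℚ) ^ j * h j / ((Q : ℚ) ^ (m - j) - 1) := by
      rw [Finset.sum_range_succ' (fun j => (Q : ℚ) ^ j * h j / ((Q : ℚ) ^ (m + 1 - j) - 1)),
        Finset.sum_range_succ' (fun j => h j / ((Q : ℚ) ^ (m + 1 - j) - 1))]
      rw [add_right_comm, ← Finset.sum_add_distrib]
      congr 1
      · refine Finset.sum_congr rfl ?_
        intro j _
        have e1 : m + 1 - (j + 1) = m - j := by omega
        rw [e1, ← add_div]
        congr 1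
        have := hr j
        linarith
      · rw [pow_zero, one_mul]
    have hS : ∀ n : ℕ, (Q : ℚ) ^ n * ∑ j ∈ Finset.range n, h j / ((Q : ℚ) ^ (n - j) - 1) =
        ∑ j ∈ Finset.range n, (Q : ℚ) ^ j * h j +
          ∑ j ∈ Finset.range n, (Q : ℚ) ^ j * h j / ((Q : ℚ) ^ (n - j) - 1) := by
      intro n
      rw [Finset.mul_sum, ← Finset.sum_add_distrib]
      refine Finset.sum_congr rfl ?_
      intro j hj
      have hj' := Finset.mem_range.mp hj
      have e1 : (Q : ℚ) ^ n = (Q : ℚ) ^ j * (Q : ℚ) ^ (n - j) := by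
        rw [← pow_add]
        congr 1
        omega
      have e2 := hne (n - j) (by omega)
      rw [e1]
      field_simp
      ring
    have h1 := hS (m + 1)
    have h2 := hS m
    rw [hR] at h1
    rw [Finset.sum_range_succ (fun j => (Q : ℚ) ^ j * h j)] at h1
    rw [← ih] at h2
    have h3 := hr m
    have h4 := hne (m + 1) (Nat.succ_ne_zero m)
    apply mul_left_cancel₀ h4
    push_cast
    have h5 : ((Q : ℚ) ^ (m + 1) - 1) *
        ∑ j ∈ Finset.range (m + 1), h j / ((Q : ℚ) ^ (m + 1 - j) - 1) =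
        (Q : ℚ) ^ m * h m + (Q : ℚ) ^ m * (m * h m) := by
      linear_combination h1 - h2
    rw [h5]
    linear_combination ((m : ℚ) + 1) * h3

theorem num_identity (Q : ℕ) (hQ : 2 ≤ Q) (h : ℕ → ℚ)
    (hh : ∀ m, h m = (Q : ℚ) ^ (m ^ 2 - m) / ∏ i ∈ Finset.range m, ((Q : ℚ) ^ m - (Q : ℚ) ^ i))
    (m : ℕ) : (m : ℚ) * h m = ∑ n ∈ Finset.Icc 1 m, h (m - n) / ((Q : ℚ) ^ n - 1) := by
  rw [Sum_main Q hQ h (Sum_rec Q hQ h hh) m]
  rw [← Finset.sum_range_reflect]
  have h1 : Finset.Icc 1 m = (Finset.range m).image (fun j => j + 1) := by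
    ext n
    simp only [Finset.mem_Icc, Finset.mem_image, Finset.mem_range]
    constructor
    · rintro ⟨h1, h2⟩
      exact ⟨n - 1, by omega, by omega⟩
    · rintro ⟨j, hj, rfl⟩
      omega
  rw [h1, Finset.sum_image (fun x _ y _ hxy => by simpa using hxy)]
  refine Finset.sum_congr rfl ?_
  intro j hj
  have hj' := Finset.mem_range.mp hj
  have e1 : m - (m - 1 - j) = j + 1 := by omega
  have e2 : m - 1 - j = m - (j + 1) := by omega
  rw [e1, e2]

private theorem Sum_card_GL (K : Type) [Field K] [Fintype K] (m : ℕ) :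
    (Nat.card (Matrix (Fin m) (Fin m) K)ˣ : ℚ) =
      ∏ i ∈ Finset.range m, ((Fintype.card K : ℚ) ^ m - (Fintype.card K : ℚ) ^ i) := by
  classical
  have h1 : Nat.card (Matrix (Fin m) (Fin m) K)ˣ =
      ∏ i : (Fin m), (Fintype.card K ^ m - Fintype.card K ^ (i : ℕ)) :=
    Matrix.card_GL_field (𝔽 := K) m
  rw [h1, Nat.cast_prod, ← Fin.prod_univ_eq_prod_range
    (fun i => ((Fintype.card K : ℚ) ^ m - (Fintype.card K : ℚ) ^ i)) m]
  refine Finset.prod_congr rfl ?_
  intro i _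
  rw [Nat.cast_sub (Nat.pow_le_pow_right Fintype.card_pos i.2.le)]
  push_cast
  rfl

private theorem Sum_card_zero {F : Type} [Field F] [Fintype F] {K : Type} [Field K] [Fintype K]
    [Algebra F K] (π : F[X]) (N m : ℕ) (hN : 1 ≤ N)
    (hN2 : ∀ n, 1 ≤ n → n ≤ m → N ≠ Module.finrank F K * n) :
    Nat.card {w : Matrix (Fin m) (Fin m) K × Matrix (Fin m) (Fin m) K //
        LocD F K π N w.1 w.2} = 0 := by
  have : IsEmpty {w : Matrix (Fin m) (Fin m) K × Matrix (Fin m) (Fin m) K //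
        LocD F K π N w.1 w.2} := by
    refine ⟨fun w => ?_⟩
    have h1 := w.2.2
    refine hN2 (w.1.1).rank ?_ ?_ h1.symm
    · rcases Nat.eq_zero_or_pos (w.1.1).rank with h0 | h0
      · rw [h0, mul_zero] at h1
        omega
      · exact h0
    · have := Matrix.rank_le_card_width (w.1.1)
      simpa using this
  exact Nat.card_of_isEmpty

theorem sum_card_locD {F : Type} [Field F] [Fintype F] {K : Type} [Field K] [Fintype K]
    [Algebra F K] (π : ℕ → F[X]) (hπ : ∀ N, 1 ≤ N → GoodPi F (π N) N) (m B : ℕ)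
    (hB : Module.finrank F K * m ≤ B) :
    ∑ N ∈ Finset.Icc 1 B, Nat.card {w : Matrix (Fin m) (Fin m) K × Matrix (Fin m) (Fin m) K //
        LocD F K (π N) N w.1 w.2} =
      Module.finrank F K * m * Nat.card {T : Matrix (Fin m) (Fin m) K // IsNilpotent T} := by
  classical
  have hfin : Module.Finite F K := Module.Finite.of_finite
  have hr : 1 ≤ Module.finrank F K := Module.finrank_pos
  have hinj : Set.InjOn (fun n => Module.finrank F K * n) (Finset.Icc 1 m : Finset ℕ) := by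
    intro x _ y _ hxy
    exact Nat.eq_of_mul_eq_mul_left hr hxy
  have hsub : (Finset.Icc 1 m).image (fun n => Module.finrank F K * n) ⊆ Finset.Icc 1 B := by
    intro N hN
    obtain ⟨n, hn, rfl⟩ := Finset.mem_image.mp hN
    rw [Finset.mem_Icc] at hn ⊢
    refine ⟨Nat.one_le_iff_ne_zero.mpr (Nat.mul_ne_zero (by omega) (by omega)), ?_⟩
    exact le_trans (Nat.mul_le_mul_left _ hn.2) hB
  rw [← Finset.sum_subset hsub, Finset.sum_image hinj]
  · -- cast to the rational numbers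
    have hQ : 2 ≤ Fintype.card K := Fintype.one_lt_card
    have hQ1 : (1 : ℚ) < (Fintype.card K : ℚ) := by exact_mod_cast hQ
    have hGL : ∀ j : ℕ, (Nat.card (Matrix (Fin j) (Fin j) K)ˣ : ℚ) ≠ 0 := by
      intro j
      have : 0 < Nat.card (Matrix (Fin j) (Fin j) K)ˣ := Nat.card_pos
      exact_mod_cast this.ne'
    set h : ℕ → ℚ := fun j => (Fintype.card K : ℚ) ^ (j ^ 2 - j) /
      ∏ i ∈ Finset.range j, ((Fintype.card K : ℚ) ^ j - (Fintype.card K : ℚ) ^ i) with hh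
    have hh' : ∀ j, h j = (Nat.card {T : Matrix (Fin j) (Fin j) K // IsNilpotent T} : ℚ) /
        (Nat.card (Matrix (Fin j) (Fin j) K)ˣ : ℚ) := by
      intro j
      rw [hh, Sum_card_GL, card_nilpotent]
      push_cast
      rfl
    have hnum := num_identity (Fintype.card K) hQ h (fun _ => rfl) m
    have hterm : ∀ n ∈ Finset.Icc 1 m,
        ((Nat.card {w : Matrix (Fin m) (Fin m) K × Matrix (Fin m) (Fin m) K //
          LocD F K (π (Module.finrank F K * n)) (Module.finrank F K * n) w.1 w.2} : ℕ) : ℚ) =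
        (Module.finrank F K : ℚ) * (Nat.card (Matrix (Fin m) (Fin m) K)ˣ : ℚ) *
          (h (m - n) / ((Fintype.card K : ℚ) ^ n - 1)) := by
      intro n hn
      rw [Finset.mem_Icc] at hn
      have h1 := card_locD (K := K) (hπ (Module.finrank F K * n)
        (Nat.one_le_iff_ne_zero.mpr (Nat.mul_ne_zero (by omega) (by omega)))) m n hn.1 hn.2 rfl
      have h2 := congrArg (fun z : ℕ => (z : ℚ)) h1
      simp only [Nat.cast_mul] at h2
      rw [Nat.cast_sub (Nat.one_le_pow _ _ (by omega))] at h2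
      push_cast at h2
      have h3 : (Fintype.card K : ℚ) ^ n - 1 ≠ 0 := by
        have := one_lt_pow₀ hQ1 (show n ≠ 0 by omega)
        linarith
      have h4 := hGL (m - n)
      rw [hh']
      field_simp
      linear_combination h2
    have hgoal : ((∑ n ∈ Finset.Icc 1 m,
        Nat.card {w : Matrix (Fin m) (Fin m) K × Matrix (Fin m) (Fin m) K //
          LocD F K (π (Module.finrank F K * n)) (Module.finrank F K * n) w.1 w.2} : ℕ) : ℚ) =
        ((Module.finrank F K * m *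
          Nat.card {T : Matrix (Fin m) (Fin m) K // IsNilpotent T} : ℕ) : ℚ) := by
      rw [Nat.cast_sum, Finset.sum_congr rfl hterm, ← Finset.mul_sum, ← hnum, hh' m]
      push_cast
      have := hGL m
      field_simp
    exact_mod_cast hgoal
  · intro N hN hN2
    rw [Finset.mem_Icc] at hN
    refine Sum_card_zero (π N) N m hN.1 ?_
    intro n h1 h2 h3
    exact hN2 (Finset.mem_image.mpr ⟨n, Finset.mem_Icc.mpr ⟨h1, h2⟩, h3.symm⟩)

end Pool.Agent.H27.KAC
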