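import Pool.Agent.H27.KAC.PI_Wed
import Pool.Agent.H27.KAC.PI_Fib
import Pool.Agent.H27.KAC.PI_Rank
import Pool.Agent.H27.KAC.PI_Loc
import Pool.Agent.H27.KAC.PI_Sum

/-!
Project KAC, part I.1, module PI_LI: the local identity.

PROOF SKETCH.  `p : R → S = ∏ Mat_(m_j)(K_j)` from `exists_wed`; `d` from `exists_rank_weights`; `r_j = [K_j : F]`.
For `Dat F (π N) v T` one has `v^(q^N) = v` (`pow_eq_self_of_sol`), so `rank (ρ v) = ∑_j d_j rank (p v)_j`.  So by `dat_map` and
`fiber_card` the `N`-th term is `card (ker p) * ∑_((v', T') ∈ S × S, Dat) ∑_j d_j rank (v'_j) / N`.  The pairs with `v' = 0` give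
zero; for the others `aic_pi_iff` gives exactly one `j` with `v'_j ≠ 0`, `r_j rank (v'_j) = N`, the other components are
`(0, T'_k)`, `T'_k` nilpotent.  So the `N`-th term is `card (ker p) * ∑_j d_j / r_j * card {LocD_j (π N) N} * ∏_(k ≠ j) n_k`,
`n_k` = number of nilpotent matrices in `Mat_(m_k)(K_k)`.  Sum over `N` with `sum_card_locD` (`r_j m_j ≤ finrank F R ≤ B`):
`card (ker p) * ∑_j d_j m_j * ∏_k n_k`.  Finally `∑ d_j m_j = rank (ρ 1) = a` (`v = 1` in `exists_rank_weights`) and
`card Nil R = card (ker p) * ∏_k n_k` (the kernel is nil).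
-/

set_option autoImplicit false

namespace Pool.Agent.H27.KAC

open scoped BigOperators
open Polynomial

/-- Sum over the fibres of a map with fibres of the same size. -/
theorem LI_fib {A B : Type} [Finite A] [Finite B] (f : A → B) (g : B → ℚ) (c : ℕ)
    (hc : ∀ b, Nat.card {a // f a = b} = c) : ∑ᶠ a, g (f a) = c * ∑ᶠ b, g b := by
  classical
  let _ : Fintype A := Fintype.ofFinite A
  let _ : Fintype B := Fintype.ofFinite B
  rw [finsum_eq_sum_of_fintype, finsum_eq_sum_of_fintype, ← Finset.sum_fiberwise Finset.univ f,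
    Finset.mul_sum]
  refine Finset.sum_congr rfl fun b _ => ?_
  rw [← hc b, Nat.card_eq_fintype_card, Fintype.card_subtype]
  rw [Finset.sum_congr rfl (g := fun _ => g b) (fun a ha => by
    rw [(Finset.mem_filter.1 ha).2]), Finset.sum_const, nsmul_eq_mul]

theorem LI_card_fib {A B : Type} [Finite A] [Finite B] (f : A → B) (c : ℕ)
    (hc : ∀ b, Nat.card {a // f a = b} = c) : Nat.card A = c * Nat.card B := by
  have h := LI_fib f (fun _ => 1) c hc
  have h1 : ∀ (X : Type) [Finite X], ∑ᶠ _ : X, (1 : ℚ) = Nat.card X := by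
    intro X _
    let _ : Fintype X := Fintype.ofFinite X
    rw [finsum_eq_sum_of_fintype, Finset.sum_const, nsmul_eq_mul, mul_one,
      Nat.card_eq_fintype_card]
    rfl
  rw [h1, h1] at h
  exact_mod_cast h

section

variable {F : Type} [Field F] [Fintype F] {n : ℕ} {m : Fin n → ℕ} {K : Fin n → Type}
  [∀ j, Field (K j)] [∀ j, Fintype (K j)] [∀ j, Algebra F (K j)]

/-- The products of nilpotent elements. -/
theorem LI_pi_nilpotent (T : ∀ j, Matrix (Fin (m j)) (Fin (m j)) (K j)) :
    IsNilpotent T ↔ ∀ j, IsNilpotent (T j) := by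
  constructor
  · rintro ⟨k, hk⟩ j
    exact ⟨k, congrFun hk j⟩
  · intro h
    choose k hk using h
    refine ⟨∑ j, k j, ?_⟩
    funext j
    show T j ^ (∑ j, k j) = 0
    have h1 : k j ≤ ∑ j, k j :=
      Finset.single_le_sum (fun _ _ => Nat.zero_le _) (Finset.mem_univ j)
    obtain ⟨r, hr⟩ := Nat.exists_eq_add_of_le h1
    rw [hr, pow_add, hk, zero_mul]

/-- The number of the pairs with nonzero component `j`. -/
theorem LI_card_X {π : F[X]} {N : ℕ} (hN : 1 ≤ N) (hπ : GoodPi F π N) (j : Fin n) :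
    Nat.card {w : (∀ j, Matrix (Fin (m j)) (Fin (m j)) (K j)) ×
        (∀ j, Matrix (Fin (m j)) (Fin (m j)) (K j)) // Dat F π w.1 w.2 ∧ w.1 j ≠ 0} =
      Nat.card {w : Matrix (Fin (m j)) (Fin (m j)) (K j) × Matrix (Fin (m j)) (Fin (m j)) (K j) //
        LocD F (K j) π N w.1 w.2} *
      Nat.card (∀ k : {k : Fin n // k ≠ j},
        {T : Matrix (Fin (m k)) (Fin (m k)) (K k) // IsNilpotent T}) := by
  classical
  rw [← Nat.card_prod]
  have hcomp : ∀ (v : ∀ j, Matrix (Fin (m j)) (Fin (m j)) (K j)) (k : Fin n),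
      (v * aeval v π) k = v k * aeval (v k) π := by
    intro v k
    show v k * (aeval v π) k = _
    congr 1
    exact (Polynomial.aeval_algHom_apply (Pi.evalAlgHom F
      (fun j => Matrix (Fin (m j)) (Fin (m j)) (K j)) k) v π).symm
  have hfact : ∀ w : {w : (∀ j, Matrix (Fin (m j)) (Fin (m j)) (K j)) ×
        (∀ j, Matrix (Fin (m j)) (Fin (m j)) (K j)) // Dat F π w.1 w.2 ∧ w.1 j ≠ 0},
      (∀ k, k ≠ j → w.1.1 k = 0) ∧ Module.finrank F (K j) * (w.1.1 j).rank = N := by
    rintro ⟨⟨v, T⟩, ⟨⟨hv, hT, hc⟩, hai⟩, hj⟩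
    have hv0 : v ≠ 0 := fun h => hj (congrFun h j)
    obtain ⟨j', h1, h2⟩ := (aic_pi_iff hπ v hv hv0).1 hai
    have hjj : j' = j := by
      by_contra hne
      exact hj (h1 j (Ne.symm hne))
    subst hjj
    exact ⟨h1, h2⟩
  apply Nat.card_congr
  refine Equiv.ofBijective (fun w => (⟨(w.1.1 j, w.1.2 j), ⟨⟨?_, ?_, ?_⟩, (hfact w).2⟩⟩,
    fun k => ⟨w.1.2 k, ?_⟩)) ⟨?_, ?_⟩
  · rw [← hcomp, w.2.1.1.1]
    rfl
  · exact (LI_pi_nilpotent _).1 w.2.1.1.2.1 j
  · exact congrFun w.2.1.1.2.2 j
  · exact (LI_pi_nilpotent _).1 w.2.1.1.2.1 k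
  · rintro w w' h
    have h1 := congrArg (fun x => x.1.1) h
    have h2 := congrArg (fun x => x.2) h
    have h3 : w.1.1 j = w'.1.1 j := congrArg Prod.fst h1
    have h4 : w.1.2 j = w'.1.2 j := congrArg Prod.snd h1
    apply Subtype.ext
    apply Prod.ext
    · funext k
      by_cases hk : k = j
      · subst hk
        exact h3
      · rw [(hfact w).1 k hk, (hfact w').1 k hk]
    · funext k
      by_cases hk : k = j
      · subst hk
        exact h4
      · exact congrArg Subtype.val (congrFun h2 ⟨k, hk⟩)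
  · rintro ⟨⟨⟨v, T⟩, ⟨hv, hT, hc⟩, hr⟩, Tk⟩
    let v' : ∀ k, Matrix (Fin (m k)) (Fin (m k)) (K k) := Function.update 0 j v
    let T0 : ∀ k, Matrix (Fin (m k)) (Fin (m k)) (K k) :=
      fun k => if h : k ≠ j then (Tk ⟨k, h⟩).1 else 0
    let T' : ∀ k, Matrix (Fin (m k)) (Fin (m k)) (K k) := Function.update T0 j T
    have hv'j : v' j = v := Function.update_self _ _ _
    have hT'j : T' j = T := Function.update_self _ _ _
    have hv'k : ∀ k, k ≠ j → v' k = 0 := fun k hk => Function.update_of_ne hk _ _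
    have hT'k : ∀ k (hk : k ≠ j), T' k = (Tk ⟨k, hk⟩).1 := by
      intro k hk
      have h1 : T' k = T0 k := Function.update_of_ne hk _ _
      rw [h1]
      exact dif_pos hk
    have hvne : v ≠ 0 := by
      intro h0
      have h1 : v.rank = 0 := by
        rw [h0]
        exact Matrix.rank_zero
      have hr' : Module.finrank F (K j) * v.rank = N := hr
      rw [h1, mul_zero] at hr'
      omega
    have hv'ne : v' j ≠ 0 := by
      rw [hv'j]
      exact hvne
    have e1 : v' * aeval v' π = 0 := by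
      funext k
      rw [hcomp]
      by_cases hk : k = j
      · subst hk
        rw [hv'j]
        exact hv
      · rw [hv'k k hk, zero_mul]
        rfl
    have e2 : IsNilpotent T' := by
      rw [LI_pi_nilpotent]
      intro k
      by_cases hk : k = j
      · subst hk
        rw [hT'j]
        exact hT
      · rw [hT'k k hk]
        exact (Tk ⟨k, hk⟩).2
    have e3 : T' * v' = v' * T' := by
      funext k
      show T' k * v' k = v' k * T' k
      by_cases hk : k = j
      · subst hk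
        rw [hT'j, hv'j]
        exact hc
      · rw [hv'k k hk, zero_mul, mul_zero]
    have e4 : AIc F v' := by
      rw [aic_pi_iff hπ v' e1 (fun h => hv'ne (congrFun h j))]
      refine ⟨j, hv'k, ?_⟩
      rw [hv'j]
      exact hr
    refine ⟨⟨(v', T'), ⟨⟨e1, e2, e3⟩, e4⟩, hv'ne⟩, ?_⟩
    apply Prod.ext
    · apply Subtype.ext
      exact Prod.ext hv'j hT'j
    · funext k
      apply Subtype.ext
      exact hT'k k.1 k.2

end

theorem local_identity {F : Type} [Field F] [Fintype F] {R : Type} [Ring R] [Algebra F R]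
    [Finite R] {a : ℕ} (ρ : R →ₐ[F] Matrix (Fin a) (Fin a) F) (π : ℕ → F[X])
    (hπ : ∀ N, 1 ≤ N → GoodPi F (π N) N) (B : ℕ) (hB : Module.finrank F R ≤ B) :
    (a : ℚ) * Nat.card {T : R // IsNilpotent T} =
      ∑ N ∈ Finset.Icc 1 B, ∑ᶠ w : {w : R × R // Dat F (π N) w.1 w.2},
        ((ρ w.1.1).rank : ℚ) / N := by
  classical
  obtain ⟨n, m, K, fK, ftK, aK, p, hm, hp, hk⟩ := exists_wed F R
  obtain ⟨d, hd⟩ := exists_rank_weights p hp hk a ρ
  have hfinS : Finite (∀ j, Matrix (Fin (m j)) (Fin (m j)) (K j)) := inferInstance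
  set κ := Nat.card {x : R // p x = 0} with hκ
  let nn : Fin n → ℕ := fun j => Nat.card {T : Matrix (Fin (m j)) (Fin (m j)) (K j) //
    IsNilpotent T}
  have hr0 : ∀ j, (Module.finrank F (K j) : ℚ) ≠ 0 := by
    intro j
    have h1 : 0 < Module.finrank F (K j) := Module.finrank_pos
    exact_mod_cast h1.ne'
  have hprod : ∀ j, Nat.card (∀ k : {k : Fin n // k ≠ j},
        {T : Matrix (Fin (m k)) (Fin (m k)) (K k) // IsNilpotent T}) * nn j = ∏ k, nn k := by
    intro j
    rw [Nat.card_pi, ← Finset.prod_erase_mul _ _ (Finset.mem_univ j)]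
    congr 1
    symm
    apply Finset.prod_subtype (Finset.univ.erase j) (fun k => by simp) nn
  -- (5)
  have h5 : Nat.card {T : R // IsNilpotent T} = κ * ∏ k, nn k := by
    have hfib : ∀ b : {T : ∀ j, Matrix (Fin (m j)) (Fin (m j)) (K j) // IsNilpotent T},
        Nat.card {x : {T : R // IsNilpotent T} //
          (⟨p x.1, x.2.map p⟩ : {T : ∀ j, Matrix (Fin (m j)) (Fin (m j)) (K j) //
            IsNilpotent T}) = b} = κ := by
      rintro ⟨b, hb⟩
      obtain ⟨x0, hx0⟩ := hp b
      apply Nat.card_congr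
      refine
        { toFun := fun x => ⟨x.1.1 - x0, by
            have e1 : p x.1.1 = b := congrArg Subtype.val x.2
            rw [map_sub, hx0, e1, sub_self]⟩
          invFun := fun y => ⟨⟨x0 + y.1, ?_⟩, ?_⟩
          left_inv := ?_
          right_inv := ?_ }
      · have h1 : p (x0 + y.1) = b := by rw [map_add, hx0, y.2, add_zero]
        obtain ⟨k, hk'⟩ := hb
        have h2 : p ((x0 + y.1) ^ k) = 0 := by rw [map_pow, h1, hk']
        obtain ⟨l, hl⟩ := hk _ h2
        exact ⟨k * l, by rw [pow_mul, hl]⟩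
      · apply Subtype.ext
        show p (x0 + y.1) = b
        rw [map_add, hx0, y.2, add_zero]
      · intro x
        apply Subtype.ext
        apply Subtype.ext
        show x0 + (x.1.1 - x0) = x.1.1
        abel
      · intro y
        apply Subtype.ext
        show x0 + y.1 - x0 = y.1
        abel
    rw [LI_card_fib (fun x : {T : R // IsNilpotent T} =>
      (⟨p x.1, x.2.map p⟩ : {T : ∀ j, Matrix (Fin (m j)) (Fin (m j)) (K j) // IsNilpotent T}))
      κ hfib]
    congr 1
    rw [← Nat.card_pi]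
    apply Nat.card_congr
    exact
      { toFun := fun T j => ⟨T.1 j, (LI_pi_nilpotent T.1).1 T.2 j⟩
        invFun := fun T => ⟨fun j => (T j).1, (LI_pi_nilpotent _).2 fun j => (T j).2⟩
        left_inv := fun _ => rfl
        right_inv := fun _ => rfl }
  -- (4)
  have h4 : (a : ℚ) = ∑ j, (d j : ℚ) * m j := by
    have h1 := hd 1 ⟨1, le_rfl, one_pow _⟩
    rw [map_one, Matrix.rank_one, Fintype.card_fin] at h1
    rw [h1]
    push_cast
    refine Finset.sum_congr rfl fun j _ => ?_
    congr 2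
    rw [map_one]
    show (1 : Matrix (Fin (m j)) (Fin (m j)) (K j)).rank = m j
    rw [Matrix.rank_one, Fintype.card_fin]
  -- (1) + (2)
  have h12 : ∀ N ∈ Finset.Icc 1 B, ∑ᶠ w : {w : R × R // Dat F (π N) w.1 w.2},
      ((ρ w.1.1).rank : ℚ) / N = κ * ∑ j, (d j : ℚ) / (Module.finrank F (K j)) *
        ((Nat.card {w : Matrix (Fin (m j)) (Fin (m j)) (K j) ×
          Matrix (Fin (m j)) (Fin (m j)) (K j) // LocD F (K j) (π N) N w.1 w.2} : ℚ) *
        (Nat.card (∀ k : {k : Fin n // k ≠ j},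
          {T : Matrix (Fin (m k)) (Fin (m k)) (K k) // IsNilpotent T}) : ℚ)) := by
    intro N hN
    have hN1 : 1 ≤ N := (Finset.mem_Icc.1 hN).1
    have hN0 : (N : ℚ) ≠ 0 := by
      have : N ≠ 0 := by omega
      exact_mod_cast this
    have hπN := hπ N hN1
    let f : {w : R × R // Dat F (π N) w.1 w.2} →
        {w : (∀ j, Matrix (Fin (m j)) (Fin (m j)) (K j)) ×
          (∀ j, Matrix (Fin (m j)) (Fin (m j)) (K j)) // Dat F (π N) w.1 w.2} :=
      fun w => ⟨(p w.1.1, p w.1.2), dat_map p hp hk hπN w.2⟩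
    let g : {w : (∀ j, Matrix (Fin (m j)) (Fin (m j)) (K j)) ×
          (∀ j, Matrix (Fin (m j)) (Fin (m j)) (K j)) // Dat F (π N) w.1 w.2} → ℚ :=
      fun w => ∑ j, (d j : ℚ) / (Module.finrank F (K j)) * if w.1.1 j ≠ 0 then 1 else 0
    have hrank : ∀ (w : {w : (∀ j, Matrix (Fin (m j)) (Fin (m j)) (K j)) ×
          (∀ j, Matrix (Fin (m j)) (Fin (m j)) (K j)) // Dat F (π N) w.1 w.2}) (j : Fin n),
        ((w.1.1 j).rank : ℚ) / N = (Module.finrank F (K j) : ℚ)⁻¹ *
          if w.1.1 j ≠ 0 then 1 else 0 := by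
      rintro ⟨⟨v, T⟩, ⟨hv, hT, hc⟩, hai⟩ j
      show ((v j).rank : ℚ) / N = _ * if v j ≠ 0 then 1 else 0
      by_cases hj : v j = 0
      · rw [hj, Matrix.rank_zero, if_neg (not_not.2 rfl)]
        simp
      · have hv0 : v ≠ 0 := fun h => hj (congrFun h j)
        obtain ⟨j', e1, e2⟩ := (aic_pi_iff hπN v hv hv0).1 hai
        have hjj : j' = j := by
          by_contra hne
          exact hj (e1 j (Ne.symm hne))
        subst hjj
        rw [if_pos hj, mul_one, div_eq_iff hN0, ← e2]
        push_cast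
        rw [← mul_assoc, inv_mul_cancel₀ (hr0 j'), one_mul]
    have hfg : ∀ w, ((ρ w.1.1).rank : ℚ) / N = g (f w) := by
      intro w
      have e1 := hd w.1.1 ⟨N, hN1, pow_eq_self_of_sol hπN _ w.2.1.1⟩
      rw [e1]
      push_cast
      rw [Finset.sum_div]
      refine Finset.sum_congr rfl fun j _ => ?_
      have e2 := hrank (f w) j
      rw [div_eq_mul_inv (d j : ℚ), mul_assoc, ← e2, mul_div_assoc]
    rw [finsum_congr hfg]
    rw [LI_fib f g κ (by
      rintro ⟨⟨v', T'⟩, hw'⟩
      rw [hκ, ← fiber_card p hp hk hπN v' T' hw']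
      apply Nat.card_congr
      exact
        { toFun := fun x => ⟨x.1.1, x.1.2, congrArg (fun y => y.1.1) x.2,
            congrArg (fun y => y.1.2) x.2⟩
          invFun := fun x => ⟨⟨x.1, x.2.1⟩, Subtype.ext (Prod.ext x.2.2.1 x.2.2.2)⟩
          left_inv := fun _ => rfl
          right_inv := fun _ => rfl })]
    congr 1
    let _ : Fintype {w : (∀ j, Matrix (Fin (m j)) (Fin (m j)) (K j)) ×
          (∀ j, Matrix (Fin (m j)) (Fin (m j)) (K j)) // Dat F (π N) w.1 w.2} :=
      Fintype.ofFinite _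
    rw [finsum_eq_sum_of_fintype]
    simp only [g]
    rw [Finset.sum_comm]
    refine Finset.sum_congr rfl fun j _ => ?_
    rw [← Finset.mul_sum]
    congr 1
    rw [← Nat.cast_mul, ← LI_card_X hN1 hπN j, Finset.sum_ite, Finset.sum_const_zero, add_zero,
      Finset.sum_const, nsmul_eq_mul, mul_one, ← Fintype.card_subtype,
      ← Nat.card_eq_fintype_card]
    congr 1
    apply Nat.card_congr
    exact
      { toFun := fun x => ⟨x.1.1, x.1.2, x.2⟩
        invFun := fun x => ⟨⟨x.1, x.2.1⟩, x.2.2⟩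
        left_inv := fun _ => rfl
        right_inv := fun _ => rfl }
  rw [Finset.sum_congr rfl h12, ← Finset.mul_sum, Finset.sum_comm, h5, h4]
  have h3 : ∀ j, ∑ N ∈ Finset.Icc 1 B, (d j : ℚ) / (Module.finrank F (K j)) *
        ((Nat.card {w : Matrix (Fin (m j)) (Fin (m j)) (K j) ×
          Matrix (Fin (m j)) (Fin (m j)) (K j) // LocD F (K j) (π N) N w.1 w.2} : ℚ) *
        (Nat.card (∀ k : {k : Fin n // k ≠ j},
          {T : Matrix (Fin (m k)) (Fin (m k)) (K k) // IsNilpotent T}) : ℚ)) =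
      (d j : ℚ) * m j * ∏ k, (nn k : ℚ) := by
    intro j
    have hBj : Module.finrank F (K j) * m j ≤ B := by
      refine le_trans ?_ hB
      let q : R →ₗ[F] Matrix (Fin (m j)) (Fin (m j)) (K j) :=
        (LinearMap.proj j : (∀ j, Matrix (Fin (m j)) (Fin (m j)) (K j)) →ₗ[F] _) ∘ₗ
          p.toLinearMap
      have hq : Function.Surjective q := by
        intro M
        obtain ⟨x, hx⟩ := hp (Function.update 0 j M)
        refine ⟨x, ?_⟩
        show p x j = M
        rw [hx, Function.update_self]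
      have h1 := LinearMap.finrank_le_finrank_of_surjective hq
      have h2 : Module.finrank F (Matrix (Fin (m j)) (Fin (m j)) (K j)) =
          m j * m j * Module.finrank F (K j) := by
        rw [Module.finrank_matrix, Fintype.card_fin]
      rw [h2] at h1
      refine le_trans ?_ h1
      have h3 := hm j
      nlinarith [Nat.zero_le (Module.finrank F (K j)), Nat.mul_le_mul_left (m j) h3]
    have h1 := sum_card_locD (K := K j) π hπ (m j) B hBj
    have h2 : (∑ N ∈ Finset.Icc 1 B, (Nat.card {w : Matrix (Fin (m j)) (Fin (m j)) (K j) ×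
          Matrix (Fin (m j)) (Fin (m j)) (K j) // LocD F (K j) (π N) N w.1 w.2} : ℚ)) =
        Module.finrank F (K j) * m j * nn j := by exact_mod_cast h1
    rw [← Finset.mul_sum, ← Finset.sum_mul, h2]
    have h3 := hprod j
    have h3' : (Nat.card (∀ k : {k : Fin n // k ≠ j},
          {T : Matrix (Fin (m k)) (Fin (m k)) (K k) // IsNilpotent T}) : ℚ) * nn j =
        ∏ k, (nn k : ℚ) := by exact_mod_cast h3
    rw [← h3']
    have := hr0 j
    field_simp
  rw [Finset.sum_congr rfl fun j _ => h3 j, ← Finset.sum_mul]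
  push_cast
  ring

end Pool.Agent.H27.KAC
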