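import Pool.Agent.H27.KAC.PI_Chart

/-!
Project KAC, part I.1, module PI_Loc1: the condition `AIc` over `F` in a matrix algebra over a finite extension `K`.

PROOF SKETCH.  `L = F[X]/(π)`, `θ` the class of `X`.  View `v` as an `F`-linear endomorphism of `V = K^m`
(`exists_chart_lin`): `V ≅ L^b × F^c`, `v = (θ, 0)`; `b ≥ 1` since `v ≠ 0`; `[K : F] * rank v = dim_F (range v) = N b`.
So one has to show `AIc F v ↔ b = 1`.
(b = 1): `c ∈ Mat_m(K)` commuting with `v` is `F`-linear, so on the first factor it commutes with `θ`, so it is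
`L`-linear on `L^1`, so it is multiplication by some `l = f(θ)`; then `v (c - f(v)) = 0`.
(AIc, b ≥ 2 is impossible): let `k ∈ K`; `c = k • 1` commutes with `v`, so there is `f` with `v (k - f(v))` nilpotent; on the
first factor: `k_W - f(θ)` is nilpotent (`k_W` the action of `k` on `W = L^b`), and it is its own `s`-th power for a suitable
large power `s` of the characteristic (`k^(card K) = k`, `f(θ)^(card L) = f(θ)`), so `k_W = f(θ)`: the scalars of `K` act on
`W` through scalars of `L`.  So each `L`-linear `g` of `L^b`, extended by zero on `ker v`, is `K`-linear (note that `ker v`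
and `range v` are stable by `K`), that is an element `c` of `Mat_m(K)` commuting with `v`.  Take `g = E_11`: `E_11 - l` is
not nilpotent for `b ≥ 2`.
-/

set_option autoImplicit false

namespace Pool.Agent.H27.KAC

open scoped BigOperators
open Polynomial

section

variable {F : Type} [Field F] {K : Type} [Field K] [Algebra F K]

/-- matrices over `K` as `F`-linear endomorphisms of `K^m` -/
private noncomputable def Loc1_phi (F : Type) [Field F] (K : Type) [Field K] [Algebra F K] (m : ℕ) :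
    Matrix (Fin m) (Fin m) K →ₐ[F] Module.End F (Fin m → K) where
  toFun M := (Matrix.toLin' M).restrictScalars F
  map_one' := by
    ext z j
    simp
  map_mul' A B := by
    ext z j
    simp
  map_zero' := by
    ext z j
    simp
  map_add' A B := by
    ext z j
    simp
  commutes' r := by
    ext z j
    simp [Matrix.algebraMap_eq_diagonal, Matrix.mulVec_diagonal, Algebra.smul_def]

private theorem Loc1_phi_apply {m : ℕ} (M : Matrix (Fin m) (Fin m) K) (z : Fin m → K) :
    Loc1_phi F K m M z = M.mulVec z := by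
  rfl

private theorem Loc1_phi_inj {m : ℕ} : Function.Injective (Loc1_phi F K m) := by
  intro A B h
  apply Matrix.toLin'.injective
  ext z j
  have h1 := congrFun (congrArg (fun T : Module.End F (Fin m → K) => T (Pi.single z 1)) h) j
  simpa [Loc1_phi_apply] using h1

variable {L : Type} [Field L] [Algebra F L] {θ : L} {m b c : ℕ}

/-- polynomials of `v` on the first factor -/
private theorem Loc1_poly1 (v : Matrix (Fin m) (Fin m) K)
    (Ψ : (Fin m → K) ≃ₗ[F] ((Fin b → L) × (Fin c → F)))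
    (hΨ : ∀ z, Ψ (v.mulVec z) = (θ • (Ψ z).1, 0)) (f : F[X]) (z : Fin m → K) :
    (Ψ ((aeval v f).mulVec z)).1 = aeval θ f • (Ψ z).1 := by
  induction f using Polynomial.induction_on' with
  | add p q hp hq =>
    rw [map_add, map_add, Matrix.add_mulVec, map_add, add_smul, Prod.fst_add, hp, hq]
  | monomial n a =>
    rw [aeval_monomial, aeval_monomial]
    have h1 : ∀ n : ℕ, (Ψ ((v ^ n).mulVec z)).1 = θ ^ n • (Ψ z).1 := by
      intro n
      induction n with
      | zero => simp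
      | succ n ih =>
        rw [pow_succ', ← Matrix.mulVec_mulVec, hΨ, ih, pow_succ', mul_smul]
    rw [← Algebra.smul_def, ← Algebra.smul_def, Matrix.smul_mulVec, map_smul, Prod.smul_fst, h1,
      smul_assoc]

private theorem Loc1_pow1 (v : Matrix (Fin m) (Fin m) K)
    (Ψ : (Fin m → K) ≃ₗ[F] ((Fin b → L) × (Fin c → F)))
    (hΨ : ∀ z, Ψ (v.mulVec z) = (θ • (Ψ z).1, 0)) (n : ℕ) (z : Fin m → K) :
    (Ψ ((v ^ n).mulVec z)).1 = θ ^ n • (Ψ z).1 := by
  have h := Loc1_poly1 v Ψ hΨ (X ^ n) z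
  rwa [map_pow, map_pow, aeval_X, aeval_X] at h

/-- a vector with second component zero is in the range of `v` -/
private theorem Loc1_range (v : Matrix (Fin m) (Fin m) K) (hθ : θ ≠ 0)
    (Ψ : (Fin m → K) ≃ₗ[F] ((Fin b → L) × (Fin c → F)))
    (hΨ : ∀ z, Ψ (v.mulVec z) = (θ • (Ψ z).1, 0)) (z : Fin m → K) (hz : (Ψ z).2 = 0) :
    ∃ w, z = v.mulVec w := by
  refine ⟨Ψ.symm (θ⁻¹ • (Ψ z).1, 0), ?_⟩
  apply Ψ.injective
  rw [hΨ, LinearEquiv.apply_symm_apply, smul_smul, mul_inv_cancel₀ hθ, one_smul, ← hz]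

/-- a matrix commuting with `v` preserves the vectors with second component zero -/
private theorem Loc1_snd (v : Matrix (Fin m) (Fin m) K) (hθ : θ ≠ 0)
    (Ψ : (Fin m → K) ≃ₗ[F] ((Fin b → L) × (Fin c → F)))
    (hΨ : ∀ z, Ψ (v.mulVec z) = (θ • (Ψ z).1, 0)) (M : Matrix (Fin m) (Fin m) K)
    (hM : M * v = v * M) (z : Fin m → K) (hz : (Ψ z).2 = 0) : (Ψ (M.mulVec z)).2 = 0 := by
  obtain ⟨w, rfl⟩ := Loc1_range v hθ Ψ hΨ z hz
  rw [Matrix.mulVec_mulVec, hM, ← Matrix.mulVec_mulVec, hΨ]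

/-- the rank -/
private theorem Loc1_rank [FiniteDimensional F K] [FiniteDimensional F L]
    (v : Matrix (Fin m) (Fin m) K) (hθ : θ ≠ 0)
    (Ψ : (Fin m → K) ≃ₗ[F] ((Fin b → L) × (Fin c → F)))
    (hΨ : ∀ z, Ψ (v.mulVec z) = (θ • (Ψ z).1, 0)) :
    Module.finrank F K * v.rank = Module.finrank F L * b := by
  have h1 : v.rank = Module.finrank K (LinearMap.range v.mulVecLin) := rfl
  rw [h1, Module.finrank_mul_finrank F K (LinearMap.range v.mulVecLin)]
  have e : (LinearMap.range v.mulVecLin) ≃ₗ[F] (Fin b → L) := by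
    refine LinearEquiv.ofBijective
      ((LinearMap.fst F (Fin b → L) (Fin c → F)) ∘ₗ Ψ.toLinearMap ∘ₗ
        ((LinearMap.range v.mulVecLin).subtype.restrictScalars F)) ⟨?_, ?_⟩
    · rw [injective_iff_map_eq_zero]
      rintro ⟨x, ⟨z, rfl⟩⟩ hx
      have h2 : (Ψ (v.mulVec z)).1 = 0 := hx
      have h3 : Ψ (v.mulVec z) = 0 := by
        ext1
        · exact h2
        · rw [hΨ]
          rfl
      have h4 : v.mulVec z = 0 := by
        rw [← LinearEquiv.map_eq_zero_iff Ψ]
        exact h3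
      exact Subtype.ext h4
    · intro y
      obtain ⟨w, hw⟩ := Loc1_range v hθ Ψ hΨ (Ψ.symm (y, 0)) (by simp)
      refine ⟨⟨Ψ.symm (y, 0), ⟨w, hw.symm⟩⟩, ?_⟩
      show (Ψ (Ψ.symm (y, 0))).1 = y
      rw [LinearEquiv.apply_symm_apply]
  rw [e.finrank_eq, Module.finrank_pi_fintype]
  simp [mul_comm]

/-- the case `b = 1` -/
private theorem Loc1_one {π : F[X]} {N : ℕ} (hπ : GoodPi F π N) (hθπ : aeval θ π = 0)
    (hL : Module.finrank F L = N) (v : Matrix (Fin m) (Fin m) K)
    (Ψ : (Fin m → K) ≃ₗ[F] ((Fin 1 → L) × (Fin c → F)))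
    (hΨ : ∀ z, Ψ (v.mulVec z) = (θ • (Ψ z).1, 0)) : AIc F v := by
  have hθ : θ ≠ 0 := theta_ne_zero hπ θ hθπ
  intro M hM
  obtain ⟨e, he⟩ : ∃ e : Fin m → K, Ψ e = ((fun _ => (1 : L)), 0) :=
    ⟨Ψ.symm ((fun _ => (1 : L)), 0), LinearEquiv.apply_symm_apply _ _⟩
  obtain ⟨f, hf⟩ := exists_poly_of_mem hπ θ hθπ hL ((Ψ (M.mulVec e)).1 0)
  refine ⟨f, 1, ?_⟩
  rw [pow_one]
  have hcomm : ∀ g : F[X], aeval v g * v = v * aeval v g := by
    intro g
    exact ((Algebra.commute_of_mem_adjoin_self (aeval_mem_adjoin_singleton F v)).symm).eq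
  have hMg : ∀ g : F[X], M * aeval v g = aeval v g * M := by
    intro g
    induction g using Polynomial.induction_on' with
    | add p q hp hq => rw [map_add, mul_add, add_mul, hp, hq]
    | monomial n a =>
      rw [aeval_monomial]
      have h1 : Commute M (v ^ n) := Commute.pow_right hM n
      rw [← mul_assoc, ← Algebra.commutes, mul_assoc, h1.eq, mul_assoc]
  apply Matrix.toLin'.injective
  apply LinearMap.ext
  intro z
  rw [Matrix.toLin'_apply, map_zero, LinearMap.zero_apply]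
  -- `v z = g(v) e`
  obtain ⟨g, hg⟩ := exists_poly_of_mem hπ θ hθπ hL ((Ψ (v.mulVec z)).1 0)
  have hve : v.mulVec z = (aeval v g).mulVec e := by
    apply Ψ.injective
    ext1
    · rw [Loc1_poly1 v Ψ hΨ, he, hg]
      ext i
      rw [Subsingleton.elim i 0]
      simp
    · rw [Loc1_snd v hθ Ψ hΨ (aeval v g) (hcomm g) e (by rw [he]), hΨ]
  have h1 : (v * (M - aeval v f)).mulVec z = (aeval v g * (M - aeval v f)).mulVec e := by
    have h2 : v * (M - aeval v f) = (M - aeval v f) * v := by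
      rw [mul_sub, sub_mul, hM, hcomm]
    have h3 : aeval v g * (M - aeval v f) = (M - aeval v f) * aeval v g := by
      rw [mul_sub, sub_mul, hMg, ← map_mul, ← map_mul, mul_comm]
    rw [h2, h3, ← Matrix.mulVec_mulVec, ← Matrix.mulVec_mulVec, hve]
  rw [h1, ← Matrix.mulVec_mulVec]
  have h4 : (M - aeval v f).mulVec e = 0 := by
    rw [← LinearEquiv.map_eq_zero_iff Ψ, Matrix.sub_mulVec, map_sub]
    ext1
    · rw [Prod.fst_sub, Loc1_poly1 v Ψ hΨ, hf, he]
      ext i
      rw [Subsingleton.elim i 0]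
      simp
    · rw [Prod.snd_sub, Loc1_snd v hθ Ψ hΨ M hM e (by rw [he]),
        Loc1_snd v hθ Ψ hΨ (aeval v f) (hcomm f) e (by rw [he]), sub_zero]
      rfl
  rw [h4, Matrix.mulVec_zero]

/-- under `AIc` the scalars of `K` act through scalars of `L` on the first factor -/
private theorem Loc1_scal [Fintype F] [Fintype K] (hθ : θ ≠ 0) (v : Matrix (Fin m) (Fin m) K)
    (Ψ : (Fin m → K) ≃ₗ[F] ((Fin b → L) × (Fin c → F)))
    (hΨ : ∀ z, Ψ (v.mulVec z) = (θ • (Ψ z).1, 0)) (h : AIc F v) (k : K) :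
    ∃ l : L, ∀ z, (Ψ (k • z)).1 = l • (Ψ z).1 := by
  rcases Nat.eq_zero_or_pos m with rfl | hm
  · refine ⟨0, fun z => ?_⟩
    rw [Subsingleton.elim z 0, smul_zero, map_zero]
    simp
  have : Nonempty (Fin m) := ⟨⟨0, hm⟩⟩
  obtain ⟨p, hp⟩ := CharP.exists K
  have := hp
  have hpp : Fact p.Prime := ⟨CharP.char_is_prime K p⟩
  obtain ⟨f, s, hs⟩ := h (k • (1 : Matrix (Fin m) (Fin m) K)) (by simp)
  obtain ⟨n, hn, hcard⟩ := FiniteField.card K p
  obtain ⟨D, hD⟩ : ∃ D : Matrix (Fin m) (Fin m) K,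
      D = k • (1 : Matrix (Fin m) (Fin m) K) - aeval v f := ⟨_, rfl⟩
  have hcomm : aeval v f * v = v * aeval v f :=
    ((Algebra.commute_of_mem_adjoin_self (aeval_mem_adjoin_singleton F v)).symm).eq
  have hvD : Commute v D := by
    show v * D = D * v
    rw [hD, mul_sub, sub_mul, hcomm]
    simp
  have hkf : Commute (k • (1 : Matrix (Fin m) (Fin m) K)) (aeval v f) := by
    show _ * _ = _ * _
    simp
  obtain ⟨P, hP⟩ : ∃ P : ℕ, P = p ^ ((n : ℕ) * s) := ⟨_, rfl⟩
  have hPs : s ≤ P := by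
    rw [hP]
    have h1 : s ≤ (n : ℕ) * s := Nat.le_mul_of_pos_left s n.pos
    exact h1.trans (Nat.lt_pow_self hpp.out.one_lt).le
  have hDP : D ^ P = k • (1 : Matrix (Fin m) (Fin m) K) - (aeval v f) ^ P := by
    rw [hD, hP, sub_pow_char_pow_of_commute _ _ hkf, _root_.smul_pow, one_pow]
    congr 2
    rw [pow_mul, ← hcard]
    exact FiniteField.pow_card_pow s k
  have hz : v ^ P * D ^ P = 0 := by
    rw [← hvD.mul_pow]
    rw [← hD] at hs
    exact pow_eq_zero_of_le hPs hs
  refine ⟨(aeval θ f) ^ P, fun z => ?_⟩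
  rw [hDP, mul_sub, sub_eq_zero] at hz
  have h1 := congrArg (fun M => (Ψ (Matrix.mulVec M z)).1) hz
  rw [← Matrix.mulVec_mulVec, Loc1_pow1 v Ψ hΨ, ← Matrix.mulVec_mulVec, Loc1_pow1 v Ψ hΨ,
    ← map_pow, Loc1_poly1 v Ψ hΨ, map_pow, Matrix.smul_mulVec, Matrix.one_mulVec] at h1
  have h2 : θ ^ P ≠ 0 := pow_ne_zero _ hθ
  exact smul_right_injective _ h2 h1

/-- `AIc` is impossible for `b ≥ 2` -/
private theorem Loc1_two [Fintype F] [Fintype K] (hθ : θ ≠ 0) (v : Matrix (Fin m) (Fin m) K)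
    (Ψ : (Fin m → K) ≃ₗ[F] ((Fin b → L) × (Fin c → F)))
    (hΨ : ∀ z, Ψ (v.mulVec z) = (θ • (Ψ z).1, 0)) (h : AIc F v) : b ≤ 1 := by
  by_contra hb
  push Not at hb
  obtain ⟨i0, hi0⟩ : ∃ i : Fin b, i = ⟨0, by omega⟩ := ⟨_, rfl⟩
  obtain ⟨i1, hi1⟩ : ∃ i : Fin b, i = ⟨1, hb⟩ := ⟨_, rfl⟩
  have hi : i0 ≠ i1 := by
    rw [hi0, hi1]
    intro h
    simpa using congrArg Fin.val h
  have hsnd : ∀ (k : K) (z : Fin m → K), (Ψ z).2 = 0 → (Ψ (k • z)).2 = 0 := by
    intro k z hz
    have h1 := Loc1_snd v hθ Ψ hΨ (k • (1 : Matrix (Fin m) (Fin m) K)) (by simp) z hz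
    rwa [Matrix.smul_mulVec, Matrix.one_mulVec] at h1
  obtain ⟨g, hg⟩ : ∃ g : (Fin m → K) →ₗ[K] (Fin m → K),
      ∀ z, g z = Ψ.symm (Pi.single i0 ((Ψ z).1 i0), 0) := by
    refine ⟨{ toFun := fun z => Ψ.symm (Pi.single i0 ((Ψ z).1 i0), 0)
              map_add' := ?_
              map_smul' := ?_ }, fun z => rfl⟩
    · intro x y
      rw [← map_add, Prod.mk_add_mk, ← Pi.single_add, map_add, add_zero]
      rfl
    · intro k z
      obtain ⟨l, hl⟩ := Loc1_scal hθ v Ψ hΨ h k
      rw [RingHom.id_apply]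
      apply Ψ.injective
      rw [LinearEquiv.apply_symm_apply]
      ext1
      · rw [hl, hl, LinearEquiv.apply_symm_apply]
        simp only
        rw [← Pi.single_smul]
        rfl
      · rw [hsnd k _ (by rw [LinearEquiv.apply_symm_apply])]
  obtain ⟨M, hM⟩ : ∃ M : Matrix (Fin m) (Fin m) K, ∀ z, M.mulVec z = g z := by
    refine ⟨LinearMap.toMatrix' g, fun z => ?_⟩
    rw [LinearMap.toMatrix'_mulVec]
  have hMv : M * v = v * M := by
    apply Matrix.toLin'.injective
    apply LinearMap.ext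
    intro z
    rw [Matrix.toLin'_apply, Matrix.toLin'_apply, ← Matrix.mulVec_mulVec, ← Matrix.mulVec_mulVec,
      hM, hM, hg, hg]
    apply Ψ.injective
    rw [hΨ, hΨ, LinearEquiv.apply_symm_apply, LinearEquiv.apply_symm_apply]
    simp only
    rw [← Pi.single_smul]
    rfl
  obtain ⟨f, s, hs⟩ := h M hMv
  have key : ∀ (x : Fin b → L) (a : L), Pi.single i0 (x i0) = a • x →
      (θ * (a - aeval θ f)) ^ s • x = 0 := by
    intro x a ha
    have h1 : ∀ n : ℕ, (Ψ (((v * (M - aeval v f)) ^ n).mulVec (Ψ.symm (x, 0)))).1 =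
        (θ * (a - aeval θ f)) ^ n • x := by
      intro n
      induction n with
      | zero => simp
      | succ n ih =>
        obtain ⟨w, hw⟩ : ∃ w, w = ((v * (M - aeval v f)) ^ n).mulVec (Ψ.symm (x, 0)) := ⟨_, rfl⟩
        rw [← hw] at ih
        rw [pow_succ', ← Matrix.mulVec_mulVec, ← hw, ← Matrix.mulVec_mulVec, hΨ]
        simp only
        rw [Matrix.sub_mulVec, map_sub, Prod.fst_sub, Loc1_poly1 v Ψ hΨ, hM, hg,
          LinearEquiv.apply_symm_apply, ih]
        simp only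
        have h2 : (Pi.single i0 ((((θ * (a - aeval θ f)) ^ n • x : Fin b → L)) i0) : Fin b → L) =
            (θ * (a - aeval θ f)) ^ n • (a • x) := by
          rw [← ha, ← Pi.single_smul]
          rfl
        rw [h2, smul_smul, smul_smul, ← sub_smul, smul_smul]
        congr 1
        ring
    rw [← h1 s, hs, Matrix.zero_mulVec, map_zero]
    rfl
  have k0 := congrFun (key (Pi.single i0 1) 1 (by simp)) i0
  have k1 := congrFun (key (Pi.single i1 1) 0 (by
    rw [zero_smul, Pi.single_eq_of_ne hi, Pi.single_zero])) i1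
  rw [Pi.smul_apply, Pi.single_eq_same, smul_eq_mul, mul_one, Pi.zero_apply] at k0 k1
  have e0 := eq_zero_of_pow_eq_zero k0
  have e1 := eq_zero_of_pow_eq_zero k1
  rw [mul_eq_zero] at e0 e1
  have e0' := e0.resolve_left hθ
  have e1' := e1.resolve_left hθ
  have e3 : (1 : L) = 0 := by
    linear_combination e0' - e1'
  exact one_ne_zero e3

end

theorem aic_matrix_iff {F : Type} [Field F] [Fintype F] {K : Type} [Field K] [Fintype K]
    [Algebra F K] {π : F[X]} {N : ℕ} (hπ : GoodPi F π N) {m : ℕ} (v : Matrix (Fin m) (Fin m) K)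
    (hv : v * aeval v π = 0) (hv0 : v ≠ 0) :
    AIc F v ↔ Module.finrank F K * v.rank = N := by
  have : Fact (Irreducible π) := ⟨hπ.irr⟩
  have : FiniteDimensional F K := Module.Finite.of_finite
  have hroot : aeval (AdjoinRoot.root π) π = 0 := AdjoinRoot.eval₂_root π
  have hL : Module.finrank F (AdjoinRoot π) = N := by
    rw [(AdjoinRoot.powerBasis hπ.irr.ne_zero).finrank, AdjoinRoot.powerBasis_dim, hπ.deg]
  have : FiniteDimensional F (AdjoinRoot π) :=
    (AdjoinRoot.powerBasis hπ.irr.ne_zero).finite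
  have hθ : AdjoinRoot.root π ≠ 0 := theta_ne_zero hπ _ hroot
  have hN : 0 < N := by
    rw [← hπ.deg]
    exact hπ.irr.natDegree_pos
  obtain ⟨b, c, Ψ, hΨ⟩ := exists_chart_lin hπ (AdjoinRoot.root π) hroot hL
    (V := Fin m → K) (Loc1_phi F K m v) (by
      have h1 := congrArg (Loc1_phi F K m) hv
      rwa [map_mul, map_zero, ← Polynomial.aeval_algHom_apply] at h1)
  have hΨ' : ∀ z, Ψ (v.mulVec z) = (AdjoinRoot.root π • (Ψ z).1, 0) := fun z => hΨ z
  have hrank := Loc1_rank v hθ Ψ hΨ'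
  rw [hrank, hL]
  have hb1 : 1 ≤ b := by
    rcases Nat.eq_zero_or_pos b with rfl | h
    · exfalso
      apply hv0
      apply Matrix.toLin'.injective
      apply LinearMap.ext
      intro z
      rw [Matrix.toLin'_apply, map_zero, LinearMap.zero_apply,
        ← LinearEquiv.map_eq_zero_iff Ψ, hΨ']
      ext1
      · exact Subsingleton.elim _ _
      · rfl
    · exact h
  constructor
  · intro h
    have h2 := Loc1_two hθ v Ψ hΨ' h
    have h3 : b = 1 := by omega
    rw [h3, mul_one]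
  · intro h
    have h3 : b = 1 := by
      have : N * b = N * 1 := by rw [h, mul_one]
      exact Nat.eq_of_mul_eq_mul_left hN this
    subst h3
    exact Loc1_one hπ hroot hL v Ψ hΨ'

end Pool.Agent.H27.KAC
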