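import Pool.Agent.H27.KAC.PI_Comm

/-!
Project KAC, part I.1, module PI_Trip: the pairs `(x, T)` compatible with a given tuple `v`.

PROOF SKETCH.  `x e = up (C (src e)) (C (tgt e)) (V e) (y e)` (`up_surj`, `up_comm`: `IsMor x x v` says exactly that
`x e * v (src e) = v (tgt e) * x e`, up to symmetry), `T i = up (C i) (C i) (s i) (t i)`; by `up_mul`, `up_inj`,
`up_nilpotent` the pair `(x, T)` corresponds to `((V, s), (y, t))` with `IsMor V V s`, `IsMor y y t`, nilpotent.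
`AIt x v ↔ SN V` (`β ≠ 0`): the `c` commuting with `v` are `up (c₁ i) (c₂ i)`, `c₁` an endomorphism of `V`, `c₂` of `y`
(take `c₂ = 0` or arbitrary); by `up_aeval`, `up_theta`, `up_mul`, `up_sub`:
`v i * (c i - aeval (v i) f) = up (θ • (c₁ i - f(θ) • 1)) 0`, nilpotent iff `c₁ i - f(θ) • 1` is nilpotent
(`θ ≠ 0`, `theta_ne_zero`); each `l : L` is `aeval θ f` (`exists_poly_of_mem`).
-/

set_option autoImplicit false

namespace Pool.Agent.H27.KAC

open scoped BigOperators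
open Polynomial

section Trip_lemmas

variable {I E : Type} {Q : Quiv I E} {F : Type} [Field F] {L : Type} [Field L] [Algebra F L] {θ : L}
  {α β γ : I → ℕ} {v : (i : I) → Matrix (Fin (α i)) (Fin (α i)) F}

/-- the representation given by a pair of representations in the charts -/
private noncomputable def Trip_x (C : ∀ i, Chart θ (v i) (β i) (γ i)) (V : Rp Q L β) (y : Rp Q F γ) :
    Rp Q F α := fun e => up (C (Q.src e)) (C (Q.tgt e)) (V e) (y e)

/-- the tuple given by a pair of tuples in the charts -/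
private noncomputable def Trip_T (C : ∀ i, Chart θ (v i) (β i) (γ i))
    (s : (i : I) → Matrix (Fin (β i)) (Fin (β i)) L) (t : (i : I) → Matrix (Fin (γ i)) (Fin (γ i)) F) :
    (i : I) → Matrix (Fin (α i)) (Fin (α i)) F := fun i => up (C i) (C i) (s i) (t i)

private theorem Trip_mor (C : ∀ i, Chart θ (v i) (β i) (γ i)) (V : Rp Q L β) (y : Rp Q F γ)
    (s : (i : I) → Matrix (Fin (β i)) (Fin (β i)) L) (t : (i : I) → Matrix (Fin (γ i)) (Fin (γ i)) F) :
    IsMor (Trip_x C V y) (Trip_x C V y) (Trip_T C s t) ↔ IsMor V V s ∧ IsMor y y t := by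
  constructor
  · intro h
    have h1 : ∀ e, s (Q.tgt e) * V e = V e * s (Q.src e) ∧ t (Q.tgt e) * y e = y e * t (Q.src e) := by
      intro e
      have h2 := h e
      unfold Trip_x Trip_T at h2
      rw [up_mul, up_mul] at h2
      exact up_inj _ _ h2
    exact ⟨fun e => (h1 e).1, fun e => (h1 e).2⟩
  · rintro ⟨h1, h2⟩ e
    unfold Trip_x Trip_T
    rw [up_mul, up_mul, h1 e, h2 e]

private theorem Trip_self (C : ∀ i, Chart θ (v i) (β i) (γ i)) (V : Rp Q L β) (y : Rp Q F γ) :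
    IsMor (Trip_x C V y) (Trip_x C V y) v := fun e => (up_comm (C (Q.src e)) (C (Q.tgt e)) (V e) (y e)).symm

private theorem Trip_nil_smul {n : ℕ} (hθ0 : θ ≠ 0) (M : Matrix (Fin n) (Fin n) L) :
    IsNilpotent (θ • M) ↔ IsNilpotent M := by
  constructor
  · rintro ⟨k, hk⟩
    refine ⟨k, ?_⟩
    rw [_root_.smul_pow] at hk
    exact (smul_eq_zero.1 hk).resolve_left (pow_ne_zero k hθ0)
  · rintro ⟨k, hk⟩
    exact ⟨k, by rw [_root_.smul_pow, hk, smul_zero]⟩

private theorem Trip_nil {a b c : ℕ} {w : Matrix (Fin a) (Fin a) F} (hθ0 : θ ≠ 0) (C : Chart θ w b c)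
    (g : Matrix (Fin b) (Fin b) L) (h : Matrix (Fin c) (Fin c) F) (f : F[X]) :
    IsNilpotent (w * (up C C g h - aeval w f)) ↔
      IsNilpotent (g - (aeval θ f) • (1 : Matrix (Fin b) (Fin b) L)) := by
  have e1 : w * (up C C g h - aeval w f) =
      up C C (θ • (g - (aeval θ f) • (1 : Matrix (Fin b) (Fin b) L))) 0 := by
    have h2 : up C C (θ • 1) 0 * up C C (g - (aeval θ f) • (1 : Matrix (Fin b) (Fin b) L)) (h - (f.coeff 0) • 1) =
        up C C (θ • (g - (aeval θ f) • (1 : Matrix (Fin b) (Fin b) L))) 0 := by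
      rw [up_mul, smul_mul_assoc, one_mul, zero_mul]
    rw [up_theta C] at h2
    rw [up_aeval C f, ← up_sub, h2]
  rw [e1, up_nilpotent, Trip_nil_smul hθ0]
  exact ⟨fun h => h.1, fun h => ⟨h, IsNilpotent.zero⟩⟩

private theorem Trip_ait {π : F[X]} {N : ℕ} (hπ : GoodPi F π N) (hθ : aeval θ π = 0)
    (hL : Module.finrank F L = N) (C : ∀ i, Chart θ (v i) (β i) (γ i)) (hβ : β ≠ 0) (V : Rp Q L β)
    (y : Rp Q F γ) : AIt (Trip_x C V y) v ↔ SN V := by
  have hθ0 : θ ≠ 0 := theta_ne_zero hπ θ hθ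
  constructor
  · intro h
    refine ⟨hβ, fun c hc => ?_⟩
    obtain ⟨f, hf⟩ := h (Trip_T C c 0) ((Trip_mor C V y c 0).2 ⟨hc, fun e => by
      show (0 : Matrix _ _ F) * y e = y e * 0
      rw [Matrix.zero_mul, Matrix.mul_zero]⟩) (fun i => up_comm (C i) (C i) (c i) 0)
    exact ⟨aeval θ f, fun i => (Trip_nil hθ0 (C i) (c i) 0 f).1 (hf i)⟩
  · rintro ⟨-, h⟩ c hc hcv
    choose c₁ c₂ hc12 using fun i => up_surj hπ hθ hL (C i) (C i) (c i) (hcv i)
    have hcT : c = Trip_T C c₁ c₂ := by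
      funext i
      exact hc12 i
    subst hcT
    obtain ⟨l, hl⟩ := h c₁ ((Trip_mor C V y c₁ c₂).1 hc).1
    obtain ⟨f, rfl⟩ := exists_poly_of_mem hπ θ hθ hL l
    exact ⟨f, fun i => (Trip_nil hθ0 (C i) (c₁ i) (c₂ i) f).2 (hl i)⟩

end Trip_lemmas

theorem card_comp {I E : Type} {Q : Quiv I E} {F : Type} [Field F]
    {π : F[X]} {N : ℕ} (hπ : GoodPi F π N)
    {L : Type} [Field L] [Algebra F L] {θ : L} (hθ : aeval θ π = 0)
    (hL : Module.finrank F L = N) {α β γ : I → ℕ}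
    (v : (i : I) → Matrix (Fin (α i)) (Fin (α i)) F) (C : ∀ i, Chart θ (v i) (β i) (γ i))
    (hβ : β ≠ 0) :
    Nat.card {w : Rp Q F α × ((i : I) → Matrix (Fin (α i)) (Fin (α i)) F) //
        Comp v w.1 w.2} = Nat.card (SNPairs Q L β) * Nat.card (NilPairs Q F γ) := by
  rw [← Nat.card_prod]
  symm
  refine Nat.card_congr (Equiv.ofBijective (fun p : SNPairs Q L β × NilPairs Q F γ =>
    (⟨(Trip_x C p.1.1.1 p.2.1.1, Trip_T C p.1.1.2 p.2.1.2), ?_⟩ :
      {w : Rp Q F α × ((i : I) → Matrix (Fin (α i)) (Fin (α i)) F) // Comp v w.1 w.2})) ⟨?_, ?_⟩)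
  · obtain ⟨⟨⟨V, s⟩, hV, hs, hsn⟩, ⟨⟨y, t⟩, ht, htn⟩⟩ := p
    exact ⟨Trip_self C V y, (Trip_mor C V y s t).2 ⟨hs, ht⟩,
      fun i => (up_nilpotent (C i) (s i) (t i)).2 ⟨hsn i, htn i⟩,
      fun i => up_comm (C i) (C i) (s i) (t i), (Trip_ait hπ hθ hL C hβ V y).2 hV⟩
  · rintro ⟨⟨⟨V, s⟩, hV⟩, ⟨⟨y, t⟩, hy⟩⟩ ⟨⟨⟨V', s'⟩, hV'⟩, ⟨⟨y', t'⟩, hy'⟩⟩ h
    have h1 := congrArg Subtype.val h
    have h2 : Trip_x C V y = Trip_x C V' y' := congrArg Prod.fst h1
    have h3 : Trip_T C s t = Trip_T C s' t' := congrArg Prod.snd h1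
    have h4 : ∀ e, V e = V' e ∧ y e = y' e := fun e => up_inj _ _ (congrFun h2 e)
    have h5 : ∀ i, s i = s' i ∧ t i = t' i := fun i => up_inj _ _ (congrFun h3 i)
    have e1 : V = V' := funext fun e => (h4 e).1
    have e2 : y = y' := funext fun e => (h4 e).2
    have e3 : s = s' := funext fun i => (h5 i).1
    have e4 : t = t' := funext fun i => (h5 i).2
    subst e1 e2 e3 e4
    rfl
  · rintro ⟨⟨x, T⟩, hx, hT, hTn, hTv, hA⟩
    choose V y hVy using fun e => up_surj hπ hθ hL (C (Q.src e)) (C (Q.tgt e)) (x e) (hx e).symm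
    choose s t hst using fun i => up_surj hπ hθ hL (C i) (C i) (T i) (hTv i)
    have e1 : x = Trip_x C V y := funext hVy
    have e2 : T = Trip_T C s t := funext hst
    subst e1 e2
    have h1 := (Trip_mor C V y s t).1 hT
    have h2 : ∀ i, IsNilpotent (s i) ∧ IsNilpotent (t i) := fun i =>
      (up_nilpotent (C i) (s i) (t i)).1 (hTn i)
    exact ⟨⟨⟨(V, s), (Trip_ait hπ hθ hL C hβ V y).1 hA, h1.1, fun i => (h2 i).1⟩,
      ⟨(y, t), h1.2, fun i => (h2 i).2⟩⟩, rfl⟩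

end Pool.Agent.H27.KAC
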