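import Pool.Agent.H27.KAC.PI_Def

/-!
Project KAC, part I.1, module PI_Wed: a finite algebra modulo its radical.

PROOF SKETCH.  `R` is Artinian, so semiprimary (`IsSemiprimaryRing`, instance for Artinian rings): the Jacobson radical
is nilpotent and `R ⧸ Ring.jacobson R` is semisimple;
`IsSemisimpleRing.exists_algEquiv_pi_matrix_divisionRing_finite F _` and `littleWedderburn` (a finite division ring is a
field).
-/

set_option autoImplicit false

namespace Pool.Agent.H27.KAC

open scoped BigOperators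
open Polynomial

theorem exists_wed (F : Type) [Field F] [Fintype F] (R : Type) [Ring R] [Algebra F R] [Finite R] :
    ∃ (n : ℕ) (m : Fin n → ℕ) (K : Fin n → Type) (_ : ∀ j, Field (K j)) (_ : ∀ j, Fintype (K j))
      (_ : ∀ j, Algebra F (K j)) (p : R →ₐ[F] (∀ j, Matrix (Fin (m j)) (Fin (m j)) (K j))),
      (∀ j, 1 ≤ m j) ∧ Function.Surjective p ∧ ∀ x, p x = 0 → IsNilpotent x := by
  haveI : IsArtinianRing R := inferInstance
  haveI : Finite (R ⧸ Ring.jacobson R) := Finite.of_surjective _ Ideal.Quotient.mk_surjective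
  haveI : Module.Finite F (R ⧸ Ring.jacobson R) := Module.Finite.of_finite
  obtain ⟨n, D, d, _, _, hfin, hd, ⟨e⟩⟩ :=
    IsSemisimpleRing.exists_algEquiv_pi_matrix_divisionRing_finite F (R ⧸ Ring.jacobson R)
  haveI : ∀ i, Finite (D i) := fun i => Module.finite_of_finite F
  refine ⟨n, d, D, fun i => littleWedderburn (D i), fun i => Fintype.ofFinite (D i), fun i => inferInstance,
    e.toAlgHom.comp (Ideal.Quotient.mkₐ F (Ring.jacobson R)), ?_, ?_, ?_⟩
  · intro j
    haveI := hd j
    exact Nat.one_le_iff_ne_zero.2 (NeZero.ne (d j))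
  · intro y
    obtain ⟨z, hz⟩ := e.surjective y
    obtain ⟨x, hx⟩ := Ideal.Quotient.mkₐ_surjective F (Ring.jacobson R) z
    exact ⟨x, by rw [← hz, ← hx]; rfl⟩
  · intro x hx
    have h1 : Ideal.Quotient.mkₐ F (Ring.jacobson R) x = 0 := by
      apply e.injective
      rw [map_zero]
      exact hx
    have h2 : x ∈ Ring.jacobson R := Ideal.Quotient.eq_zero_iff_mem.1 h1
    obtain ⟨k, hk⟩ := IsSemiprimaryRing.isNilpotent (R := R)
    refine ⟨k, ?_⟩
    have h3 : x ^ k ∈ (Ring.jacobson R) ^ k := Ideal.pow_mem_pow h2 k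
    rw [hk] at h3
    simpa using h3

end Pool.Agent.H27.KAC
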