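import Pool.Agent.H27.KAC.PR_Rel

/-!
Project KAC, part I.2: completion of a surjective (injective) matrix to a split exact sequence.
-/

set_option autoImplicit false

namespace Pool.Agent.H27.KAC

open scoped BigOperators

variable {κ : Type} [Fintype κ] [DecidableEq κ] {F : Type} [Field F]

theorem exact_completion (n m : ℕ) (H : Matrix (Fin n) κ F) (S : Matrix κ (Fin n) F)
    (hHS : H * S = 1) (hcard : n + m = Fintype.card κ) :
    ∃ (L : Matrix κ (Fin m) F) (T : Matrix (Fin m) κ F),
      H * L = 0 ∧ T * L = 1 ∧ S * H + L * T = 1 := by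
  classical
  let h : (κ → F) →ₗ[F] (Fin n → F) := Matrix.toLin' H
  let s : (Fin n → F) →ₗ[F] (κ → F) := Matrix.toLin' S
  have hs : h ∘ₗ s = LinearMap.id := by
    show Matrix.toLin' H ∘ₗ Matrix.toLin' S = _
    rw [← Matrix.toLin'_mul, hHS, Matrix.toLin'_one]
  have hs' : ∀ v, h (s v) = v := fun v => by
    have := LinearMap.congr_fun hs v
    exact this
  have hsurj : Function.Surjective h := fun v => ⟨s v, hs' v⟩
  have hrank : Module.finrank F (LinearMap.ker h) = m := by
    have h1 := LinearMap.finrank_range_add_finrank_ker h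
    rw [LinearMap.range_eq_top.2 hsurj, finrank_top, Module.finrank_fintype_fun_eq_card,
      Module.finrank_fintype_fun_eq_card, Fintype.card_fin] at h1
    omega
  let b := Module.finBasisOfFinrankEq F (LinearMap.ker h) hrank
  let l : (Fin m → F) →ₗ[F] (κ → F) := (LinearMap.ker h).subtype ∘ₗ b.equivFun.symm.toLinearMap
  let w : (κ → F) →ₗ[F] (κ → F) := LinearMap.id - s ∘ₗ h
  have hw : ∀ v, w v = v - s (h v) := fun v => rfl
  have hker : ∀ v, w v ∈ LinearMap.ker h := by
    intro v
    rw [LinearMap.mem_ker, hw, map_sub, hs', sub_self]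
  let t : (κ → F) →ₗ[F] (Fin m → F) :=
    b.equivFun.toLinearMap ∘ₗ LinearMap.codRestrict (LinearMap.ker h) w hker
  have e1 : h ∘ₗ l = 0 := by
    apply LinearMap.ext
    intro v
    exact (b.equivFun.symm v).2
  have e3 : s ∘ₗ h + l ∘ₗ t = LinearMap.id := by
    apply LinearMap.ext
    intro v
    have h2 : l (t v) = w v := by
      show ((b.equivFun.symm (b.equivFun (LinearMap.codRestrict (LinearMap.ker h)
        w hker v)) : LinearMap.ker h) : κ → F) = _
      rw [LinearEquiv.symm_apply_apply]
      rfl
    show s (h v) + l (t v) = v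
    rw [h2, hw]
    abel
  have e2 : t ∘ₗ l = LinearMap.id := by
    apply LinearMap.ext
    intro v
    show b.equivFun (LinearMap.codRestrict (LinearMap.ker h) w hker
      (l v)) = v
    have h2 : LinearMap.codRestrict (LinearMap.ker h) w hker (l v) =
        b.equivFun.symm v := by
      apply Subtype.ext
      show w (l v) = ((b.equivFun.symm v : LinearMap.ker h) : κ → F)
      have h3 : h (l v) = 0 := LinearMap.congr_fun e1 v
      rw [hw, h3, map_zero, sub_zero]
      rfl
    rw [h2, LinearEquiv.apply_symm_apply]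
  refine ⟨LinearMap.toMatrix' l, LinearMap.toMatrix' t, ?_, ?_, ?_⟩
  · have h4 : H = LinearMap.toMatrix' h := (LinearMap.toMatrix'_toLin' H).symm
    rw [h4, ← LinearMap.toMatrix'_comp, e1, map_zero]
  · rw [← LinearMap.toMatrix'_comp, e2, LinearMap.toMatrix'_id]
  · have h4 : H = LinearMap.toMatrix' h := (LinearMap.toMatrix'_toLin' H).symm
    have h5 : S = LinearMap.toMatrix' s := (LinearMap.toMatrix'_toLin' S).symm
    rw [h4, h5, ← LinearMap.toMatrix'_comp, ← LinearMap.toMatrix'_comp, ← map_add, e3,
      LinearMap.toMatrix'_id]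

theorem exact_completion' (n m : ℕ) (L : Matrix κ (Fin m) F) (T : Matrix (Fin m) κ F)
    (hTL : T * L = 1) (hcard : n + m = Fintype.card κ) :
    ∃ (H : Matrix (Fin n) κ F) (S : Matrix κ (Fin n) F),
      H * L = 0 ∧ H * S = 1 ∧ S * H + L * T = 1 := by
  obtain ⟨L', T', h1, h2, h3⟩ := exact_completion m n L.transpose T.transpose
    (by rw [← Matrix.transpose_mul, hTL, Matrix.transpose_one]) (by omega)
  refine ⟨L'.transpose, T'.transpose, ?_, ?_, ?_⟩
  · rw [← Matrix.transpose_inj, Matrix.transpose_mul, Matrix.transpose_transpose, h1,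
      Matrix.transpose_zero]
  · rw [← Matrix.transpose_mul, h2, Matrix.transpose_one]
  · rw [← Matrix.transpose_inj, Matrix.transpose_add, Matrix.transpose_mul, Matrix.transpose_mul,
      Matrix.transpose_transpose, Matrix.transpose_transpose, Matrix.transpose_one, add_comm]
    exact h3

/-- If the only idempotent matrix `p` with `p * H = H` is the identity then `H` has a right
inverse. -/
theorem exists_right_inverse (n : ℕ) (H : Matrix (Fin n) κ F)
    (h : ∀ p : Matrix (Fin n) (Fin n) F, p * p = p → p * H = H → p = 1) :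
    ∃ S : Matrix κ (Fin n) F, H * S = 1 := by
  classical
  let f : (κ → F) →ₗ[F] (Fin n → F) := Matrix.toLin' H
  obtain ⟨W, hW⟩ := Submodule.exists_isCompl (LinearMap.range f)
  let pr : (Fin n → F) →ₗ[F] (Fin n → F) :=
    (LinearMap.range f).subtype ∘ₗ Submodule.projectionOnto _ W hW
  have hpr : ∀ v ∈ LinearMap.range f, pr v = v := by
    intro v hv
    show ((Submodule.projectionOnto _ W hW v : LinearMap.range f) : Fin n → F) = v
    have := Submodule.projectionOnto_apply_left hW ⟨v, hv⟩
    rw [this]
  have hmem : ∀ v, pr v ∈ LinearMap.range f := fun v => Subtype.mem _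
  have h1 : LinearMap.toMatrix' pr = 1 := by
    apply h
    · rw [← LinearMap.toMatrix'_comp]
      congr 1
      apply LinearMap.ext
      intro v
      exact hpr _ (hmem v)
    · have h4 : H = LinearMap.toMatrix' f := (LinearMap.toMatrix'_toLin' H).symm
      rw [h4, ← LinearMap.toMatrix'_comp]
      congr 1
      apply LinearMap.ext
      intro v
      exact hpr _ ⟨v, rfl⟩
  have h2 : pr = LinearMap.id := by
    have := congrArg Matrix.toLin' h1
    rwa [Matrix.toLin'_toMatrix', Matrix.toLin'_one] at this
  have hsurj : LinearMap.range f = ⊤ := by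
    rw [eq_top_iff]
    intro v _
    have := hmem v
    rw [h2] at this
    exact this
  obtain ⟨g, hg⟩ := f.exists_rightInverse_of_surjective hsurj
  refine ⟨LinearMap.toMatrix' g, ?_⟩
  have h4 : H = LinearMap.toMatrix' f := (LinearMap.toMatrix'_toLin' H).symm
  rw [h4, ← LinearMap.toMatrix'_comp, hg, LinearMap.toMatrix'_id]

theorem exists_left_inverse (m : ℕ) (L : Matrix κ (Fin m) F)
    (h : ∀ p : Matrix (Fin m) (Fin m) F, p * p = p → L * p = L → p = 1) :
    ∃ T : Matrix (Fin m) κ F, T * L = 1 := by
  obtain ⟨S, hS⟩ := exists_right_inverse m L.transpose (by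
    intro p hp hpL
    have h1 := h p.transpose (by rw [← Matrix.transpose_mul, hp]) (by
      rw [← Matrix.transpose_inj, Matrix.transpose_mul, Matrix.transpose_transpose, hpL])
    rw [← Matrix.transpose_inj, h1, Matrix.transpose_one])
  refine ⟨S.transpose, ?_⟩
  rw [← Matrix.transpose_inj, Matrix.transpose_mul, Matrix.transpose_transpose, hS,
    Matrix.transpose_one]

end Pool.Agent.H27.KAC
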