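import Mathlib

/-!
Project KAC, part II.2: a rational function with integer values at infinitely many natural numbers is a
polynomial.
-/

set_option autoImplicit false

namespace Pool.Agent.H27.KAC

open Polynomial Filter Topology

theorem exists_denominator (p : ℚ[X]) :
    ∃ d : ℕ, 0 < d ∧ ∀ n : ℕ, ∃ z : ℤ, (d : ℚ) * p.eval (n : ℚ) = z := by
  induction p using Polynomial.induction_on' with
  | add p q hp hq =>
    obtain ⟨d, hd, hd'⟩ := hp
    obtain ⟨e, he, he'⟩ := hq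
    refine ⟨d * e, Nat.mul_pos hd he, fun n => ?_⟩
    obtain ⟨z, hz⟩ := hd' n
    obtain ⟨w, hw⟩ := he' n
    refine ⟨e * z + d * w, ?_⟩
    push_cast
    rw [eval_add, ← hz, ← hw]
    ring
  | monomial k c =>
    refine ⟨c.den, c.den_pos, fun n => ⟨c.num * (n : ℤ) ^ k, ?_⟩⟩
    rw [eval_monomial]
    push_cast
    rw [← mul_assoc, mul_comm (c.den : ℚ) c, Rat.mul_den_eq_num]

theorem dvd_of_int_values (U W : ℚ[X]) (hW : W ≠ 0) (A : Set ℕ) (hA : A.Infinite)
    (h : ∀ n ∈ A, W.eval (n : ℚ) ≠ 0 → ∃ z : ℤ, U.eval (n : ℚ) / W.eval (n : ℚ) = z) :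
    W ∣ U := by
  obtain ⟨d, hd, hd'⟩ := exists_denominator (U / W)
  have hdiv := EuclideanDomain.div_add_mod U W
  have hdeg : (U % W).degree < W.degree := EuclideanDomain.mod_lt U hW
  have ht := Polynomial.div_tendsto_atTop_zero_of_degree_lt (U % W) W hdeg
  have ht' : Tendsto (fun n : ℕ => (U % W).eval (n : ℚ) / W.eval (n : ℚ)) atTop (𝓝 0) :=
    ht.comp tendsto_natCast_atTop_atTop
  have hd0 : (0 : ℚ) < d := by exact_mod_cast hd
  have hev : ∀ᶠ n : ℕ in atTop, |(U % W).eval (n : ℚ) / W.eval (n : ℚ)| < 1 / d := by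
    have := ht'.abs
    rw [abs_zero] at this
    exact this.eventually (gt_mem_nhds (by positivity))
  obtain ⟨N, hN⟩ := eventually_atTop.1 hev
  have hroots : {x : ℚ | W.eval x = 0}.Finite := by
    have := W.rootSet_finite ℚ
    refine this.subset ?_
    intro x hx
    rw [mem_rootSet]
    exact ⟨hW, by simpa using hx⟩
  have hB : {n : ℕ | W.eval (n : ℚ) = 0}.Finite :=
    Set.Finite.preimage Nat.cast_injective.injOn hroots
  have hinf : ((A \ {n : ℕ | W.eval (n : ℚ) = 0}) \ Set.Iio N).Infinite :=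
    (hA.sdiff hB).sdiff (Set.finite_Iio N)
  have hzero : ∀ n ∈ ((A \ {n : ℕ | W.eval (n : ℚ) = 0}) \ Set.Iio N),
      (U % W).eval (n : ℚ) = 0 := by
    rintro n ⟨⟨hnA, hnW⟩, hnN⟩
    have hnW' : W.eval (n : ℚ) ≠ 0 := hnW
    have hnN' : N ≤ n := not_lt.1 hnN
    obtain ⟨z, hz⟩ := h n hnA hnW'
    obtain ⟨w, hw⟩ := hd' n
    have h1 : U.eval (n : ℚ) = W.eval (n : ℚ) * (U / W).eval (n : ℚ) + (U % W).eval (n : ℚ) := by
      conv_lhs => rw [← hdiv]
      rw [eval_add, eval_mul]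
    have h2 : (d : ℚ) * ((U % W).eval (n : ℚ) / W.eval (n : ℚ)) = ((d * z - w : ℤ) : ℚ) := by
      push_cast
      rw [← hz, ← hw, h1]
      field_simp
      ring
    have h3 := hN n hnN'
    rw [lt_div_iff₀ hd0] at h3
    have h4 : |((d * z - w : ℤ) : ℚ)| < 1 := by
      rw [← h2, abs_mul, abs_of_pos hd0, mul_comm]
      exact h3
    have h5 : (d * z - w : ℤ) = 0 := by
      have h6 : |(d * z - w : ℤ)| < 1 := by exact_mod_cast h4
      exact Int.abs_lt_one_iff.1 h6
    rw [h5, Int.cast_zero] at h2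
    have h7 : (U % W).eval (n : ℚ) / W.eval (n : ℚ) = 0 := by
      rcases mul_eq_zero.1 h2 with h | h
      · exact absurd h hd0.ne'
      · exact h
    rcases div_eq_zero_iff.1 h7 with h | h
    · exact h
    · exact absurd h hnW'
  have hR : U % W = 0 := by
    apply Polynomial.eq_zero_of_infinite_isRoot
    refine (hinf.image (f := fun n : ℕ => (n : ℚ)) (Nat.cast_injective.injOn)).mono ?_
    rintro _ ⟨n, hn, rfl⟩
    exact hzero n hn
  rw [hR, add_zero] at hdiv
  exact ⟨U / W, hdiv.symm⟩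

end Pool.Agent.H27.KAC
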