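import Pool.Agent.H27.KAC.PI_Base

/-!
Project KAC, part I.2: transport of `kacCount` along relations, values of `kacOne`, simple and disconnected
dimension vectors, relabelling of the vertices.
-/

set_option autoImplicit false

namespace Pool.Agent.H27.KAC

open scoped BigOperators
open Polynomial

/-- Polynomials with the same values at all the primes are equal. -/
theorem kacPoly_unique' {I E : Type} (Q : Quiv I E) (α : I → ℕ) (p p' : ℚ[X])
    (h : IsKacPoly Q α p) (h' : IsKacPoly Q α p') : p = p' := by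
  apply Polynomial.eq_of_infinite_eval_eq
  have h1 : Set.Infinite ((fun n : ℕ => (n : ℚ)) '' {n | Nat.Prime n}) :=
    Nat.infinite_setOfPred_prime.image (Nat.cast_injective.injOn)
  refine h1.mono ?_
  rintro _ ⟨n, hn, rfl⟩
  have : Fact (Nat.Prime n) := ⟨hn⟩
  have e1 := h (ZMod n)
  have e2 := h' (ZMod n)
  rw [ZMod.card] at e1 e2
  show p.eval (n : ℚ) = p'.eval (n : ℚ)
  rw [← e1, ← e2]

/-- `kacPoly_exists`/`kacOne` are in `Interface.lean`; here the value at one of any Kac polynomial. -/
theorem kacPoly_choose {I E : Type} (Q : Quiv I E) (α : I → ℕ) (p : ℚ[X]) (h : IsKacPoly Q α p)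
    (h' : ∃ p : ℚ[X], IsKacPoly Q α p) : (Classical.choose h').eval 1 = p.eval 1 := by
  rw [kacPoly_unique' Q α _ p (Classical.choose_spec h') h]

theorem isKacPoly_congr {I E I' E' : Type} (Q : Quiv I E) (Q' : Quiv I' E') (α : I → ℕ)
    (α' : I' → ℕ)
    (h : ∀ (F : Type) [Field F] [Fintype F], kacCount Q F α = kacCount Q' F α') (p : ℚ[X]) :
    IsKacPoly Q α p ↔ IsKacPoly Q' α' p := by
  unfold IsKacPoly
  constructor
  · intro hp F _ _
    rw [← h F]
    exact hp F
  · intro hp F _ _
    rw [h F]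
    exact hp F

/-- Transport of the number of classes along a relation. -/
theorem ncard_classes_eq {X Y : Type} (A : X → Prop) (B : Y → Prop) (r : X → X → Prop)
    (s : Y → Y → Prop) (hr : Equivalence r) (hs : Equivalence s) (R : X → Y → Prop)
    (h1 : ∀ x, A x → ∃ y, B y ∧ R x y) (h2 : ∀ y, B y → ∃ x, A x ∧ R x y)
    (h3 : ∀ x x' y y', R x y → R x' y' → (r x x' ↔ s y y')) :
    Set.ncard {c : Set X | ∃ x, A x ∧ c = {z | r x z}} =
      Set.ncard {c : Set Y | ∃ y, B y ∧ c = {z | s y z}} := by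
  have hclass : ∀ {Z : Type} (t : Z → Z → Prop), Equivalence t → ∀ z z' : Z,
      ({w | t z w} : Set Z) = {w | t z' w} ↔ t z z' := by
    intro Z t ht z z'
    constructor
    · intro h
      have : z' ∈ ({w | t z w} : Set Z) := by rw [h]; exact ht.refl z'
      exact this
    · intro h
      ext w
      exact ⟨fun hw => ht.trans (ht.symm h) hw, fun hw => ht.trans h hw⟩
  refine Set.ncard_congr (fun c hc => {w | s (Classical.choose (h1 (Classical.choose hc)
    (Classical.choose_spec hc).1)) w}) ?_ ?_ ?_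
  · intro c hc
    exact ⟨_, (Classical.choose_spec (h1 (Classical.choose hc)
      (Classical.choose_spec hc).1)).1, rfl⟩
  · intro c c' hc hc' h
    have e1 := (hclass s hs _ _).1 h
    have e2 := (h3 _ _ _ _ (Classical.choose_spec (h1 (Classical.choose hc)
      (Classical.choose_spec hc).1)).2 (Classical.choose_spec (h1 (Classical.choose hc')
      (Classical.choose_spec hc').1)).2).2 e1
    rw [(Classical.choose_spec hc).2, (Classical.choose_spec hc').2]
    exact (hclass r hr _ _).2 e2
  · rintro d ⟨y, hy, rfl⟩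
    obtain ⟨x, hx, hxy⟩ := h2 y hy
    have hc : ∃ x', A x' ∧ ({z | r x z} : Set X) = {z | r x' z} := ⟨x, hx, rfl⟩
    refine ⟨{z | r x z}, hc, ?_⟩
    apply (hclass s hs _ _).2
    have e1 : r x (Classical.choose hc) := (hclass r hr _ _).1 (Classical.choose_spec hc).2
    have e2 := (h3 _ _ _ _ hxy (Classical.choose_spec (h1 (Classical.choose hc)
      (Classical.choose_spec hc).1)).2).1 e1
    exact hs.symm e2

section

variable {I E : Type}

theorem IsMor.one {Q : Quiv I E} {F : Type} [Field F] {α : I → ℕ} (x : Rp Q F α) :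
    IsMor x x (fun _ => 1) := by
  intro e
  rw [Matrix.one_mul, Matrix.mul_one]

theorem IsMor.comp {Q : Quiv I E} {F : Type} [Field F] {α β γ : I → ℕ} {x : Rp Q F α}
    {y : Rp Q F β} {z : Rp Q F γ} {f : (i : I) → Matrix (Fin (β i)) (Fin (α i)) F}
    {g : (i : I) → Matrix (Fin (γ i)) (Fin (β i)) F} (hg : IsMor y z g) (hf : IsMor x y f) :
    IsMor x z (fun i => g i * f i) := by
  intro e
  rw [Matrix.mul_assoc, hf e, ← Matrix.mul_assoc, hg e, Matrix.mul_assoc]

theorem isom_equivalence (Q : Quiv I E) (F : Type) [Field F] (α : I → ℕ) :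
    Equivalence (fun x y : Rp Q F α => Isom x y) := by
  refine ⟨fun x => ⟨fun _ => 1, IsMor.one x⟩, ?_, ?_⟩
  · rintro x y ⟨g, hg⟩
    refine ⟨fun i => (g i)⁻¹, fun e => ?_⟩
    have h := hg e
    have h1 : ((g (Q.tgt e))⁻¹ : (Matrix (Fin (α (Q.tgt e))) (Fin (α (Q.tgt e))) F)ˣ).1 *
        ((g (Q.tgt e)).1 * x e) * ((g (Q.src e))⁻¹ : (Matrix _ _ F)ˣ).1 =
        ((g (Q.tgt e))⁻¹ : (Matrix _ _ F)ˣ).1 * (y e * (g (Q.src e)).1) *
          ((g (Q.src e))⁻¹ : (Matrix _ _ F)ˣ).1 := by rw [h]
    rw [← Matrix.mul_assoc, Units.inv_mul, Matrix.one_mul] at h1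
    rw [← Matrix.mul_assoc, Matrix.mul_assoc _ (g (Q.src e)).1, Units.mul_inv,
      Matrix.mul_one] at h1
    exact h1.symm
  · rintro x y z ⟨g, hg⟩ ⟨g', hg'⟩
    exact ⟨fun i => g' i * g i, hg'.comp hg⟩

theorem isom_iff_inv {Q : Quiv I E} {F : Type} [Field F] {α : I → ℕ} {x y : Rp Q F α} :
    Isom x y ↔ ∃ f fi : (i : I) → Matrix (Fin (α i)) (Fin (α i)) F, IsMor x y f ∧ IsMor y x fi ∧
      (∀ i, f i * fi i = 1) ∧ ∀ i, fi i * f i = 1 := by
  constructor
  · rintro ⟨g, hg⟩
    refine ⟨fun i => (g i : Matrix _ _ F), fun i => ((g i)⁻¹ : (Matrix _ _ F)ˣ).1, hg, ?_,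
      fun i => Units.mul_inv _, fun i => Units.inv_mul _⟩
    intro e
    have h := hg e
    have h1 : ((g (Q.tgt e))⁻¹ : (Matrix (Fin (α (Q.tgt e))) (Fin (α (Q.tgt e))) F)ˣ).1 *
        ((g (Q.tgt e)).1 * x e) * ((g (Q.src e))⁻¹ : (Matrix _ _ F)ˣ).1 =
        ((g (Q.tgt e))⁻¹ : (Matrix _ _ F)ˣ).1 * (y e * (g (Q.src e)).1) *
          ((g (Q.src e))⁻¹ : (Matrix _ _ F)ˣ).1 := by rw [h]
    rw [← Matrix.mul_assoc, Units.inv_mul, Matrix.one_mul] at h1
    rw [← Matrix.mul_assoc, Matrix.mul_assoc _ (g (Q.src e)).1, Units.mul_inv,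
      Matrix.mul_one] at h1
    exact h1.symm
  · rintro ⟨f, fi, hf, _, h1, h2⟩
    exact ⟨fun i => ⟨f i, fi i, h1 i, h2 i⟩, hf⟩

theorem kacCount_eq_zero (Q : Quiv I E) (F : Type) [Field F] (α : I → ℕ)
    (h : ∀ x : Rp Q F α, ¬ AbsIndec x) : kacCount Q F α = 0 := by
  unfold kacCount
  have : absIndecClasses Q F α = ∅ := by
    ext c
    simp only [absIndecClasses, Set.mem_ofPred_eq, Set.mem_empty_iff_false, iff_false]
    rintro ⟨x, hx, _⟩
    exact h x hx
  rw [this, Set.ncard_empty]

theorem Indec.of_map {Q : Quiv I E} {F L : Type} [Field F] [Field L] {α : I → ℕ} (s : F →+* L)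
    {x : Rp Q F α} (h : Indec (mapRp s x)) : Indec x := by
  refine ⟨h.1, fun p hp hpp => ?_⟩
  have h2 : ∀ i, (p i).map s * (p i).map s = (p i).map s := by
    intro i
    rw [← Matrix.map_mul, hpp i]
  rcases h.2 _ (hp.map s) h2 with h3 | h3
  · left
    intro i
    ext a b
    have h5 := congrFun (congrFun (h3 i) a) b
    simpa using h5
  · right
    intro i
    ext a b
    have h5 := congrFun (congrFun (h3 i) a) b
    rw [Matrix.map_apply, Matrix.one_apply] at h5
    rw [Matrix.one_apply]
    split_ifs at h5 ⊢ with hab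
    · exact s.injective (by rw [h5, map_one])
    · exact s.injective (by rw [h5, map_zero])

theorem AbsIndec.indec {Q : Quiv I E} {F : Type} [Field F] {α : I → ℕ} {x : Rp Q F α}
    (h : AbsIndec x) : Indec x := Indec.of_map (algebraMap F (AlgebraicClosure F)) h

theorem not_indec_zero (Q : Quiv I E) (F : Type) [Field F] (x : Rp Q F (0 : I → ℕ)) :
    ¬ Indec x := fun h => h.1 rfl

theorem kacCount_zero (Q : Quiv I E) (F : Type) [Field F] : kacCount Q F (0 : I → ℕ) = 0 :=
  kacCount_eq_zero Q F 0 fun x hx => not_indec_zero Q F x hx.indec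

/-- The arrow between a vertex of dimension zero and any other vertex carries the zero matrix. -/
theorem rp_zero {Q : Quiv I E} {F : Type} [Field F] {α : I → ℕ} (x : Rp Q F α) (e : E)
    (h : α (Q.src e) = 0 ∨ α (Q.tgt e) = 0) : x e = 0 := by
  ext a b
  rcases h with h | h
  · exact absurd b.2 (by omega)
  · exact absurd a.2 (by omega)

section disc

variable [DecidableEq I] [Fintype E]

theorem adj_pos_left (Q : Quiv I E) (e : E) : 0 < adj Q (Q.src e) (Q.tgt e) := by
  unfold adj
  have : 0 < (Finset.univ.filter (fun e' : E => Q.src e' = Q.src e ∧ Q.tgt e' = Q.tgt e)).card :=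
    Finset.card_pos.2 ⟨e, Finset.mem_filter.2 ⟨Finset.mem_univ _, rfl, rfl⟩⟩
  omega

theorem pr_adj_symm (Q : Quiv I E) (i j : I) : adj Q i j = adj Q j i := by
  unfold adj
  exact Nat.add_comm _ _

theorem kacCount_disconnected (Q : Quiv I E) (F : Type) [Field F] (α : I → ℕ) (S : Finset I)
    (h1 : ∃ i ∈ S, α i ≠ 0) (h2 : ∃ i, i ∉ S ∧ α i ≠ 0)
    (h : ∀ i ∈ S, ∀ j, j ∉ S → α i ≠ 0 → α j ≠ 0 → adj Q i j = 0) : kacCount Q F α = 0 := by
  apply kacCount_eq_zero
  intro x hx
  have hx' := hx.indec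
  have hp : IsMor x x (fun i => if i ∈ S then 1 else 0) := by
    intro e
    by_cases hs : Q.src e ∈ S
    · by_cases ht : Q.tgt e ∈ S
      · simp only [hs, ht, if_true, Matrix.one_mul, Matrix.mul_one]
      · have hz : x e = 0 := by
          apply rp_zero
          by_contra hc
          push Not at hc
          have := h _ hs _ ht hc.1 hc.2
          have h3 := adj_pos_left Q e
          omega
        rw [hz, Matrix.mul_zero, Matrix.zero_mul]
    · by_cases ht : Q.tgt e ∈ S
      · have hz : x e = 0 := by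
          apply rp_zero
          by_contra hc
          push Not at hc
          have := h _ ht _ hs hc.2 hc.1
          rw [pr_adj_symm] at this
          have h3 := adj_pos_left Q e
          omega
        rw [hz, Matrix.mul_zero, Matrix.zero_mul]
      · simp only [hs, ht, if_false, Matrix.zero_mul, Matrix.mul_zero]
  have hpp : ∀ i, (if i ∈ S then (1 : Matrix (Fin (α i)) (Fin (α i)) F) else 0) *
      (if i ∈ S then 1 else 0) = if i ∈ S then 1 else 0 := by
    intro i
    split_ifs
    · rw [Matrix.one_mul]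
    · rw [Matrix.zero_mul]
  obtain ⟨i, hi, hi'⟩ := h1
  obtain ⟨j, hj, hj'⟩ := h2
  rcases hx'.2 _ hp hpp with h3 | h3
  · have h4 := h3 i
    rw [if_pos hi] at h4
    have h5 := congrFun (congrFun h4 ⟨0, Nat.pos_of_ne_zero hi'⟩) ⟨0, Nat.pos_of_ne_zero hi'⟩
    simp at h5
  · have h4 := h3 j
    rw [if_neg hj] at h4
    have h5 := congrFun (congrFun h4 ⟨0, Nat.pos_of_ne_zero hj'⟩) ⟨0, Nat.pos_of_ne_zero hj'⟩
    simp at h5

/-- No loops at `i`: all the representations of dimension `n e_i` are zero. -/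
theorem rp_single_zero (Q : Quiv I E) (F : Type) [Field F] (i : I) (hi : adj Q i i = 0) (n : ℕ)
    (x : Rp Q F (Pi.single i n)) : x = 0 := by
  funext e
  apply rp_zero
  by_contra hc
  push Not at hc
  have h1 : Q.src e = i := by
    by_contra h
    exact hc.1 (by rw [Pi.single_eq_of_ne h])
  have h2 : Q.tgt e = i := by
    by_contra h
    exact hc.2 (by rw [Pi.single_eq_of_ne h])
  have h3 := adj_pos_left Q e
  rw [h1, h2] at h3
  omega

theorem kacCount_single_one (Q : Quiv I E) (F : Type) [Field F] (i : I) (hi : adj Q i i = 0) :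
    kacCount Q F (Pi.single i 1) = 1 := by
  unfold kacCount
  have hall : ∀ x : Rp Q F (Pi.single i 1), x = 0 := rp_single_zero Q F i hi 1
  have hind : AbsIndec (0 : Rp Q F (Pi.single i 1)) := by
    refine ⟨fun h => ?_, fun p _ hpp => ?_⟩
    · have := congrFun h i
      rw [Pi.single_eq_same] at this
      exact one_ne_zero this
    · have hdim : ∀ j, j ≠ i → (Pi.single i 1 : I → ℕ) j = 0 := fun j hj => by
        rw [Pi.single_eq_of_ne hj]
      have hone : (Pi.single i 1 : I → ℕ) i = 1 := Pi.single_eq_same i 1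
      have hent : ∀ (a b : Fin ((Pi.single i 1 : I → ℕ) i)), a = b := by
        intro a b
        have ha := a.2
        have hb := b.2
        ext
        omega
      let z : Fin ((Pi.single i 1 : I → ℕ) i) := ⟨0, by rw [hone]; exact Nat.one_pos⟩
      have hz := congrFun (congrFun (hpp i) z) z
      rw [Matrix.mul_apply, Finset.sum_eq_single z (fun b _ hb => absurd (hent b z) hb)
        (fun h => absurd (Finset.mem_univ z) h)] at hz
      have hz' : p i z z = 0 ∨ p i z z = 1 := IsIdempotentElem.iff_eq_zero_or_one.1 hz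
      rcases hz' with h | h
      · left
        intro j
        ext a b
        by_cases hj : j = i
        · subst hj
          rw [hent a z, hent b z, h]
          rfl
        · exact Fin.elim0 (Fin.cast (hdim j hj) a)
      · right
        intro j
        ext a b
        by_cases hj : j = i
        · subst hj
          rw [hent a z, hent b z, h, Matrix.one_apply_eq]
        · exact Fin.elim0 (Fin.cast (hdim j hj) a)
  have : absIndecClasses Q F (Pi.single i 1) = {{y | Isom 0 y}} := by
    ext c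
    constructor
    · rintro ⟨x, _, rfl⟩
      rw [hall x]
      rfl
    · rintro rfl
      exact ⟨0, hind, rfl⟩
  rw [this, Set.ncard_singleton]

theorem kacCount_single_ge_two (Q : Quiv I E) (F : Type) [Field F] (i : I) (hi : adj Q i i = 0)
    (n : ℕ) (hn : 2 ≤ n) : kacCount Q F (Pi.single i n) = 0 := by
  apply kacCount_eq_zero
  intro x hx
  have hx' := hx.indec
  rw [rp_single_zero Q F i hi n x] at hx'
  have hone : (Pi.single i n : I → ℕ) i = n := by simp
  have hp : IsMor (0 : Rp Q F (Pi.single i n)) 0 (fun j => Matrix.diagonal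
      (fun a : Fin ((Pi.single i n : I → ℕ) j) => if (a : ℕ) = 0 then (1 : F) else 0)) := by
    intro e
    show _ * (0 : Matrix _ _ F) = (0 : Matrix _ _ F) * _
    rw [Matrix.mul_zero, Matrix.zero_mul]
  have hpp : ∀ j, Matrix.diagonal
      (fun a : Fin ((Pi.single i n : I → ℕ) j) => if (a : ℕ) = 0 then (1 : F) else 0) *
      Matrix.diagonal
      (fun a : Fin ((Pi.single i n : I → ℕ) j) => if (a : ℕ) = 0 then (1 : F) else 0) =
      Matrix.diagonal
      (fun a : Fin ((Pi.single i n : I → ℕ) j) => if (a : ℕ) = 0 then (1 : F) else 0) := by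
    intro j
    rw [Matrix.diagonal_mul_diagonal]
    congr 1
    funext a
    split_ifs
    · rw [one_mul]
    · rw [zero_mul]
  rcases hx'.2 _ hp hpp with h | h
  · have h1 := congrFun (congrFun (h i) ⟨0, by omega⟩) ⟨0, by omega⟩
    simp at h1
  · have h1 := congrFun (congrFun (h i) ⟨1, by omega⟩) ⟨1, by omega⟩
    simp at h1

end disc

end

end Pool.Agent.H27.KAC
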