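import Pool.Agent.H27.KAC.PI_Hua
import Pool.Agent.H27.KAC.PII_Rat
import Pool.Agent.H27.KAC.PR_Rel
import Pool.Agent.H27.KAC.PR_Rat

/-!
Project KAC, part II.2: existence of Kac polynomials, independence of the orientation.
-/

set_option autoImplicit false

namespace Pool.Agent.H27.KAC

open scoped BigOperators
open Polynomial

/-- a function of `q` which is rational for `q ≥ 2` -/
def RF (g : ℕ → ℚ) : Prop := ∃ U W : ℚ[X], (∀ q : ℕ, 2 ≤ q → W.eval (q : ℚ) ≠ 0) ∧
  ∀ q : ℕ, 2 ≤ q → g q = U.eval (q : ℚ) / W.eval (q : ℚ)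

theorem RF.const (c : ℚ) : RF (fun _ => c) :=
  ⟨C c, 1, fun q _ => by simp, fun q _ => by simp⟩

theorem RF.add {g h : ℕ → ℚ} (hg : RF g) (hh : RF h) : RF (fun q => g q + h q) := by
  obtain ⟨U, W, h1, h2⟩ := hg
  obtain ⟨U', W', h1', h2'⟩ := hh
  refine ⟨U * W' + W * U', W * W', fun q hq => ?_, fun q hq => ?_⟩
  · rw [eval_mul]
    exact mul_ne_zero (h1 q hq) (h1' q hq)
  · show g q + h q = _
    rw [h2 q hq, h2' q hq, div_add_div _ _ (h1 q hq) (h1' q hq), eval_add, eval_mul, eval_mul,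
      eval_mul]

theorem RF.mul {g h : ℕ → ℚ} (hg : RF g) (hh : RF h) : RF (fun q => g q * h q) := by
  obtain ⟨U, W, h1, h2⟩ := hg
  obtain ⟨U', W', h1', h2'⟩ := hh
  refine ⟨U * U', W * W', fun q hq => ?_, fun q hq => ?_⟩
  · rw [eval_mul]
    exact mul_ne_zero (h1 q hq) (h1' q hq)
  · show g q * h q = _
    rw [h2 q hq, h2' q hq, div_mul_div_comm, eval_mul, eval_mul]

theorem RF.sub {g h : ℕ → ℚ} (hg : RF g) (hh : RF h) : RF (fun q => g q - h q) := by
  have h1 := hg.add ((RF.const (-1)).mul hh)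
  have h2 : (fun q => g q + (-1) * h q) = fun q => g q - h q := by
    funext q
    ring
  rwa [h2] at h1

theorem RF.sum {ι : Type} (s : Finset ι) {g : ι → ℕ → ℚ} (h : ∀ x ∈ s, RF (g x)) :
    RF (fun q => ∑ x ∈ s, g x q) := by
  classical
  induction s using Finset.induction_on with
  | empty => simpa using RF.const 0
  | insert x s hx ih =>
    have h1 := (h x (Finset.mem_insert_self x s)).add
      (ih fun y hy => h y (Finset.mem_insert_of_mem hy))
    have h2 : (fun q => g x q + ∑ y ∈ s, g y q) = fun q => ∑ y ∈ insert x s, g y q := by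
      funext q
      rw [Finset.sum_insert hx]
    rwa [h2] at h1

theorem RF.eval_pow (p : ℚ[X]) (N : ℕ) : RF (fun q => p.eval ((q : ℚ) ^ N)) :=
  ⟨p.comp (X ^ N), 1, fun q _ => by simp, fun q _ => by simp⟩

theorem RF.inv_pow (c : ℚ) (hc : c ≠ 0) (N : ℕ) (hN : 1 ≤ N) :
    RF (fun q => 1 / (c * ((q : ℚ) ^ N - 1))) := by
  refine ⟨1, C c * (X ^ N - 1), fun q hq => ?_, fun q _ => by simp⟩
  have h0 : (C c * (X ^ N - 1) : ℚ[X]).eval (q : ℚ) = c * ((q : ℚ) ^ N - 1) := by simp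
  rw [h0]
  apply mul_ne_zero hc
  have h1 : (1 : ℚ) < (q : ℚ) ^ N := one_lt_pow₀ (by exact_mod_cast hq) (by omega)
  linarith

theorem kacA_of_isKacPoly {I E : Type} (Q : Quiv I E) (β : I → ℕ) (p : ℚ[X])
    (h : IsKacPoly Q β p) (F : Type) [Field F] [Fintype F] (N : ℕ) (hN : 1 ≤ N) :
    (kacA Q β (Fintype.card F ^ N) : ℚ) = p.eval ((Fintype.card F : ℚ) ^ N) := by
  obtain ⟨r, hr⟩ := CharP.exists F
  obtain ⟨n, hrp, hn⟩ := FiniteField.card F r
  have : Fact (Nat.Prime r) := ⟨hrp⟩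
  have hnN : (n : ℕ) * N ≠ 0 := mul_ne_zero n.2.ne' (by omega)
  have hfin : Finite (GaloisField r (n * N)) := by
    apply Nat.finite_of_card_ne_zero
    rw [GaloisField.card r _ hnN]
    exact pow_ne_zero _ hrp.ne_zero
  let _ : Fintype (GaloisField r (n * N)) := Fintype.ofFinite _
  have hcard : Fintype.card (GaloisField r (n * N)) = Fintype.card F ^ N := by
    rw [hn, ← pow_mul, ← Nat.card_eq_fintype_card, GaloisField.card r _ hnN]
  have h1 := h (GaloisField r (n * N))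
  rw [hcard] at h1
  rw [← hcard, kacA_card, h1]
  push_cast
  rfl

section

variable {I : Type} [Fintype I] [DecidableEq I]

/-- `p` is the Kac polynomial in dimension `α` of all the quivers with the matrix `a`. -/
def KP (a : I → I → ℕ) (α : I → ℕ) (p : ℚ[X]) : Prop :=
  ∀ (E : Type) [Fintype E] (Q : Quiv I E), adj Q = a → IsKacPoly Q α p

open scoped Classical in
/-- the Kac polynomial, as a function of the matrix -/
noncomputable def kp (a : I → I → ℕ) (α : I → ℕ) : ℚ[X] :=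
  if h : ∃ p, KP a α p then h.choose else 0

theorem kp_spec {a : I → I → ℕ} {α : I → ℕ} (h : ∃ p, KP a α p) : KP a α (kp a α) := by
  unfold kp
  rw [dif_pos h]
  exact h.choose_spec

/-- `Lc`, as a function of the matrix, terms with `N ≥ k` -/
noncomputable def Lg (a : I → I → ℕ) (k : ℕ) (α : I → ℕ) (q : ℕ) : ℚ :=
  ∑ N ∈ (Finset.range (∑ i, α i + 1)).filter (fun N => k ≤ N ∧ ∀ i, N ∣ α i),
    (kp a (fun i => α i / N)).eval ((q : ℚ) ^ N) * (1 / ((N : ℚ) * ((q : ℚ) ^ N - 1)))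

theorem RF.Lg (a : I → I → ℕ) (k : ℕ) (hk : 1 ≤ k) (α : I → ℕ) : RF (Lg a k α) := by
  unfold KAC.Lg
  apply RF.sum
  intro N hN
  rw [Finset.mem_filter] at hN
  have hN1 : 1 ≤ N := hk.trans hN.2.1
  exact (RF.eval_pow _ N).mul (RF.inv_pow (N : ℚ) (by positivity) N hN1)

theorem sum_div_lt {α : I → ℕ} {i : I} (hi : α i ≠ 0) {N : ℕ} (hN : 2 ≤ N) :
    ∑ j, α j / N < ∑ j, α j := by
  apply Finset.sum_lt_sum (fun j _ => Nat.div_le_self _ _)
  exact ⟨i, Finset.mem_univ i, Nat.div_lt_self (Nat.pos_of_ne_zero hi) hN⟩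

theorem sum_div_le (α : I → ℕ) (N : ℕ) : ∑ j, α j / N ≤ ∑ j, α j :=
  Finset.sum_le_sum fun j _ => Nat.div_le_self _ _

theorem Lc_eq_Lg {E : Type} (Q : Quiv I E) (F : Type) [Field F] [Fintype F] {a : I → I → ℕ}
    {β : I → ℕ} (h : ∀ N, 1 ≤ N → (∀ i, N ∣ β i) → IsKacPoly Q (fun i => β i / N)
      (kp a (fun i => β i / N))) :
    Lc Q (Fintype.card F) β = Lg a 1 β (Fintype.card F) := by
  unfold Lc Lg
  refine Finset.sum_congr rfl fun N hN => ?_
  rw [Finset.mem_filter] at hN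
  rw [kacA_of_isKacPoly Q _ _ (h N hN.2.1 hN.2.2) F N hN.2.1, div_eq_mul_one_div]

theorem Lc_split {E : Type} (Q : Quiv I E) (F : Type) [Field F] [Fintype F] {a : I → I → ℕ}
    {α : I → ℕ} {i : I} (hi : α i ≠ 0) (h : ∀ N, 2 ≤ N → (∀ i, N ∣ α i) →
      IsKacPoly Q (fun i => α i / N) (kp a (fun i => α i / N))) :
    Lc Q (Fintype.card F) α = (kacCount Q F α : ℚ) * (1 / (1 * ((Fintype.card F : ℚ) ^ 1 - 1))) +
      Lg a 2 α (Fintype.card F) := by
  unfold Lc Lg
  have hpos : 1 ≤ ∑ j, α j := by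
    have : α i ≤ ∑ j, α j := Finset.single_le_sum (fun j _ => Nat.zero_le _) (Finset.mem_univ i)
    omega
  have hsplit : (Finset.range (∑ i, α i + 1)).filter (fun N => 1 ≤ N ∧ ∀ i, N ∣ α i) =
      insert 1 ((Finset.range (∑ i, α i + 1)).filter (fun N => 2 ≤ N ∧ ∀ i, N ∣ α i)) := by
    ext N
    simp only [Finset.mem_filter, Finset.mem_insert, Finset.mem_range]
    constructor
    · rintro ⟨h1, h2, h3⟩
      by_cases hN : N = 1
      · exact Or.inl hN
      · exact Or.inr ⟨h1, by omega, h3⟩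
    · rintro (rfl | ⟨h1, h2, h3⟩)
      · exact ⟨by omega, le_refl _, fun i => one_dvd _⟩
      · exact ⟨h1, by omega, h3⟩
  rw [hsplit, Finset.sum_insert (by simp)]
  congr 1
  · rw [pow_one, pow_one, Nat.cast_one, div_eq_mul_one_div]
    congr 2
    have : (fun i => α i / 1) = α := by
      funext i
      exact Nat.div_one _
    rw [this, kacA_card]
  · refine Finset.sum_congr rfl fun N hN => ?_
    rw [Finset.mem_filter] at hN
    rw [kacA_of_isKacPoly Q _ _ (h N hN.2.1 hN.2.2) F N (by omega), div_eq_mul_one_div]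

theorem Pc_zero {E : Type} [Fintype E] (Q : Quiv I E) (F : Type) [Field F] (γ : I → ℕ)
    (hγ : ∀ i, γ i = 0) : Pc Q F γ = 1 := by
  have hγ' : γ = 0 := funext hγ
  subst hγ'
  have h1 : ∀ i : I, Nat.card (Matrix (Fin ((0 : I → ℕ) i)) (Fin ((0 : I → ℕ) i)) F)ˣ = 1 := by
    intro i
    rw [Nat.card_eq_one_iff_unique]
    have : IsEmpty (Fin ((0 : I → ℕ) i)) := Fin.isEmpty'
    exact ⟨⟨fun a b => Units.ext (Subsingleton.elim _ _)⟩, ⟨1⟩⟩
  have h2 : Nat.card (NilPairs Q F (0 : I → ℕ)) = 1 := by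
    rw [Nat.card_eq_one_iff_unique]
    constructor
    · constructor
      rintro ⟨⟨x, f⟩, hx⟩ ⟨⟨y, g⟩, hy⟩
      apply Subtype.ext
      apply Prod.ext
      · funext e
        exact Matrix.ext fun a => Fin.elim0 a
      · funext i
        exact Matrix.ext fun a => Fin.elim0 a
    · refine ⟨⟨⟨fun e => 0, fun i => 0⟩, fun e => ?_, fun i => ?_⟩⟩
      · exact Matrix.ext fun a => Fin.elim0 a
      · exact IsNilpotent.zero
  unfold Pc
  rw [h2]
  simp [h1]

theorem kac_main (a : I → I → ℕ) (s : ℕ) : ∀ α : I → ℕ, ∑ i, α i = s → ∃ p, KP a α p := by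
  induction s using Nat.strong_induction_on with
  | _ s ih =>
  intro α hs
  have ih' : ∀ β : I → ℕ, ∑ i, β i < ∑ i, α i → KP a β (kp a β) := fun β hβ =>
    kp_spec (ih _ (hs ▸ hβ) β rfl)
  by_cases hα : ∀ i, α i = 0
  · refine ⟨0, fun E _ Q _ F _ _ => ?_⟩
    have : α = 0 := funext hα
    rw [this, kacCount_zero, eval_zero, Nat.cast_zero]
  push Not at hα
  obtain ⟨i, hi⟩ := hα
  choose U W hW hUW using Pc_rat (I := I) a
  let Pg : (I → ℕ) → ℕ → ℚ := fun γ q => (U γ).eval (q : ℚ) / (W γ).eval (q : ℚ)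
  have hPg : ∀ (E : Type) [Fintype E] (Q : Quiv I E), adj Q = a →
      ∀ (F : Type) [Field F] [Fintype F] (γ : I → ℕ), Pc Q F γ = Pg γ (Fintype.card F) := by
    intro E _ Q hQ F _ _ γ
    have h1 := hUW γ E Q hQ F
    have h2 := hW γ (Fintype.card F) Fintype.one_lt_card
    show _ = _ / _
    rw [eq_div_iff h2]
    exact h1
  let box := Fintype.piFinset (fun j => Finset.range (α j + 1))
  have hmem : α ∈ box := Fintype.mem_piFinset.2 fun j => Finset.mem_range.2 (Nat.lt_succ_self _)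
  have hlt : ∀ β ∈ box.erase α, ∑ i, β i < ∑ i, α i := by
    intro β hβ
    rw [Finset.mem_erase, Fintype.mem_piFinset] at hβ
    have hle : ∀ j, β j ≤ α j := fun j => Nat.lt_succ_iff.1 (Finset.mem_range.1 (hβ.2 j))
    have : ∃ j, β j ≠ α j := by
      by_contra h
      push Not at h
      exact hβ.1 (funext h)
    obtain ⟨j, hj⟩ := this
    exact Finset.sum_lt_sum (fun k _ => hle k) ⟨j, Finset.mem_univ j, lt_of_le_of_ne (hle j) hj⟩
  let G : ℕ → ℚ := fun q => Pg α q -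
    (∑ β ∈ box.erase α, (β i : ℚ) * Lg a 1 β q * Pg (fun j => α j - β j) q) * (1 / (α i : ℚ)) -
    Lg a 2 α q
  have hPgRF : ∀ γ, RF (Pg γ) := fun γ => ⟨U γ, W γ, hW γ, fun q _ => rfl⟩
  have hG : RF G := by
    refine RF.sub (RF.sub (hPgRF α) (RF.mul (RF.sum _ fun β _ => ?_) (RF.const _)))
      (RF.Lg a 2 (by omega) α)
    exact ((RF.const _).mul (RF.Lg a 1 le_rfl β)).mul (hPgRF _)
  have hH : RF (fun q => ((q : ℚ) - 1) * G q) := by
    refine RF.mul ?_ hG
    refine RF.sub ?_ (RF.const 1)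
    simpa using RF.eval_pow X 1
  have hα0 : (α i : ℚ) ≠ 0 := by exact_mod_cast hi
  have hkey : ∀ (E : Type) [Fintype E] (Q : Quiv I E), adj Q = a →
      ∀ (F : Type) [Field F] [Fintype F],
        (kacCount Q F α : ℚ) = ((Fintype.card F : ℚ) - 1) * G (Fintype.card F) := by
    intro E _ Q hQ F _ _
    have hq : (1 : ℚ) < (Fintype.card F : ℚ) := by exact_mod_cast Fintype.one_lt_card
    have h1 := hua_log Q F α i
    rw [← Finset.add_sum_erase _ _ hmem] at h1
    have h2 : Pc Q F (fun j => α j - α j) = 1 := Pc_zero Q F _ fun j => Nat.sub_self _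
    rw [h2, mul_one, Lc_split Q F hi (fun N hN _ => ih' _ (sum_div_lt hi hN) E Q hQ)] at h1
    have h3 : ∑ β ∈ box.erase α, (β i : ℚ) * Lc Q (Fintype.card F) β *
        Pc Q F (fun j => α j - β j) = ∑ β ∈ box.erase α, (β i : ℚ) * Lg a 1 β (Fintype.card F) *
        Pg (fun j => α j - β j) (Fintype.card F) := by
      refine Finset.sum_congr rfl fun β hβ => ?_
      rw [hPg E Q hQ F, Lc_eq_Lg Q F (a := a)]
      intro N _ _
      exact ih' _ (lt_of_le_of_lt (sum_div_le β N) (hlt β hβ)) E Q hQ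
    rw [h3, hPg E Q hQ F α] at h1
    show (kacCount Q F α : ℚ) = ((Fintype.card F : ℚ) - 1) * (Pg α (Fintype.card F) -
      (∑ β ∈ box.erase α, (β i : ℚ) * Lg a 1 β (Fintype.card F) *
        Pg (fun j => α j - β j) (Fintype.card F)) * (1 / (α i : ℚ)) - Lg a 2 α (Fintype.card F))
    have hq' : (Fintype.card F : ℚ) - 1 ≠ 0 := by linarith
    rw [pow_one] at h1
    field_simp at h1 ⊢
    linear_combination -h1
  obtain ⟨U', W', h1, h2⟩ := hH
  by_cases hex : ∃ (E : Type) (_ : Fintype E) (Q : Quiv I E), adj Q = a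
  · obtain ⟨E, _, Q, hQ⟩ := hex
    have hW0 : W' ≠ 0 := by
      intro h
      have := h1 2 le_rfl
      rw [h, eval_zero] at this
      exact this rfl
    have hdvd : W' ∣ U' := by
      apply dvd_of_int_values U' W' hW0 {n | Nat.Prime n} Nat.infinite_setOfPred_prime
      intro n hn _
      have : Fact (Nat.Prime n) := ⟨hn⟩
      have h3 := hkey E Q hQ (ZMod n)
      have h4 : ((n : ℚ) - 1) * G n = U'.eval (n : ℚ) / W'.eval (n : ℚ) := h2 n hn.two_le
      rw [ZMod.card, h4] at h3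
      exact ⟨(kacCount Q (ZMod n) α : ℤ), by rw [← h3, Int.cast_natCast]⟩
    obtain ⟨p, hp⟩ := hdvd
    refine ⟨p, fun E' _ Q' hQ' F _ _ => ?_⟩
    have h3 := hkey E' Q' hQ' F
    have h4 : ((Fintype.card F : ℚ) - 1) * G (Fintype.card F) =
      U'.eval (Fintype.card F : ℚ) / W'.eval (Fintype.card F : ℚ) :=
      h2 (Fintype.card F) Fintype.one_lt_card
    have h5 := h1 (Fintype.card F) Fintype.one_lt_card
    rw [h3, h4, hp, eval_mul, mul_div_cancel_left₀ _ h5]
  · exact ⟨0, fun E _ Q hQ => absurd ⟨E, inferInstance, Q, hQ⟩ hex⟩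

theorem exists_KP (a : I → I → ℕ) (α : I → ℕ) : ∃ p, KP a α p := kac_main a _ α rfl

theorem kacPoly_exists' {E : Type} [Fintype E] (Q : Quiv I E) (α : I → ℕ) :
    ∃ p : ℚ[X], IsKacPoly Q α p := by
  obtain ⟨p, hp⟩ := exists_KP (adj Q) α
  exact ⟨p, hp E Q rfl⟩

/-- Independence of the orientation. -/
theorem kacCount_congr_adj {E E' : Type} [Fintype E] [Fintype E'] (Q : Quiv I E)
    (Q' : Quiv I E') (h : adj Q = adj Q') (α : I → ℕ) (F : Type) [Field F] [Fintype F] :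
    kacCount Q F α = kacCount Q' F α := by
  obtain ⟨p, hp⟩ := exists_KP (adj Q) α
  have h1 := hp E Q rfl F
  have h2 := hp E' Q' h.symm F
  have h3 : (kacCount Q F α : ℚ) = (kacCount Q' F α : ℚ) := by rw [h1, h2]
  exact_mod_cast h3

end

end Pool.Agent.H27.KAC
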